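import Mathlib

/-! The parts of this file: FD.Cpt, FD.Dens, H42.FD.Defs, H59.FD.Eul, H69.FD.Eul, H71.FD.Dens, H87.FD.Strass, H9.AB.DefsM, H9.AB.RelNorm, H9.AB.ResCharM, H9.FC.Desc, H9.FC.DigSum, H91.PK.Defs, H99.AB.Jump. -/

section

/-!
# Project FD: the compactness step

Countably many polynomial equations with integer coefficients and one inequality, any finite part of which is solvable in fields of
infinitely many characteristics, have a common solution in the algebraic closure of `ℚ`.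
-/

namespace Pool.Agent.FD

open MvPolynomial

attribute [local instance] MvPolynomial.algebraMvPolynomial

/-- Compactness. -/
theorem cpt {σ : Type} [Finite σ] (F : ℕ → MvPolynomial σ ℤ) (g : MvPolynomial σ ℤ)
    (h : ∀ k : ℕ, {p : ℕ | p.Prime ∧ ∃ (K : Type) (_ : Field K) (_ : CharP K p) (T : σ → K),
      (∀ t < k, aeval T (F t) = 0) ∧ aeval T g ≠ 0}.Infinite) :
    ∃ T : σ → AlgebraicClosure ℚ, (∀ t, aeval T (F t) = 0) ∧ aeval T g ≠ 0 := by
  classical
  set F' : ℕ → MvPolynomial (Option σ) ℤ := fun t => rename some (F t) with hF'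
  set G' : MvPolynomial (Option σ) ℤ := 1 - X none * rename some g with hG'
  set J : Ideal (MvPolynomial (Option σ) ℤ) := Ideal.span (insert G' (Set.range F')) with hJ
  by_cases hT : J.map (algebraMap (MvPolynomial (Option σ) ℤ) (MvPolynomial (Option σ) ℚ)) = ⊤
  · exfalso
    -- an integer in `J`
    obtain ⟨N, hN0, hN⟩ : ∃ N : ℤ, N ≠ 0 ∧ (C N : MvPolynomial (Option σ) ℤ) ∈ J := by
      have h1 : (1 : MvPolynomial (Option σ) ℚ) ∈
          J.map (algebraMap (MvPolynomial (Option σ) ℤ) (MvPolynomial (Option σ) ℚ)) := by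
        rw [hT]
        exact Submodule.mem_top
      rw [IsLocalization.mem_map_algebraMap_iff ((nonZeroDivisors ℤ).map (C (σ := Option σ) (R := ℤ)))] at h1
      obtain ⟨⟨a, ⟨b, hb⟩⟩, h2⟩ := h1
      rw [one_mul] at h2
      obtain ⟨N, hN, rfl⟩ := hb
      refine ⟨N, nonZeroDivisors.ne_zero hN, ?_⟩
      have h3 : (C N : MvPolynomial (Option σ) ℤ) = (a : MvPolynomial (Option σ) ℤ) := by
        have h4 : Function.Injective (algebraMap (MvPolynomial (Option σ) ℤ) (MvPolynomial (Option σ) ℚ)) :=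
          MvPolynomial.map_injective _ (Int.cast_injective)
        exact h4 h2
      rw [h3]
      exact a.2
    obtain ⟨S, hS1, hS2⟩ := Submodule.mem_span_finite_of_mem_span hN
    -- a bound for the indices
    obtain ⟨k, hk⟩ : ∃ k : ℕ, ∀ s ∈ S, s = G' ∨ ∃ t < k, s = F' t := by
      have h1 : ∀ s ∈ S, ∃ k : ℕ, s = G' ∨ ∃ t < k, s = F' t := by
        intro s hs
        rcases hS1 hs with h2 | ⟨t, ht⟩
        · exact ⟨0, Or.inl h2⟩
        · exact ⟨t + 1, Or.inr ⟨t, Nat.lt_succ_self t, ht.symm⟩⟩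
      choose! k hk using h1
      refine ⟨S.sup k, fun s hs => ?_⟩
      rcases hk s hs with h2 | ⟨t, ht, h3⟩
      · exact Or.inl h2
      · exact Or.inr ⟨t, lt_of_lt_of_le ht (Finset.le_sup hs), h3⟩
    obtain ⟨p, ⟨hp, K, _, _, T, hT1, hT2⟩, hpN⟩ := (h k).exists_gt N.natAbs
    -- evaluation
    let φ : MvPolynomial (Option σ) ℤ →ₐ[ℤ] K := aeval fun o => o.elim (aeval T g)⁻¹ T
    have hφ : ∀ f : MvPolynomial σ ℤ, φ (rename some f) = aeval T f := by
      intro f
      simp only [φ, aeval_rename]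
      rfl
    have h5 : Ideal.span (S : Set (MvPolynomial (Option σ) ℤ)) ≤ RingHom.ker φ := by
      rw [Ideal.span_le]
      intro s hs
      rcases hk s hs with rfl | ⟨t, ht, rfl⟩
      · change φ G' = 0
        rw [hG', map_sub, map_one, map_mul, hφ]
        simp only [φ, aeval_X, Option.elim_none]
        rw [inv_mul_cancel₀ hT2, sub_self]
      · change φ (F' t) = 0
        rw [hF', hφ]
        exact hT1 t ht
    have h6 : φ (C N) = 0 := h5 hS2
    rw [show φ (C N) = algebraMap ℤ K N from aeval_C _ _, eq_intCast, CharP.intCast_eq_zero_iff K p] at h6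
    have h7 := Int.le_of_dvd (by omega) ((Int.dvd_natAbs).2 h6)
    omega
  · obtain ⟨m, hm, hle⟩ := Ideal.exists_le_maximal _ hT
    let L := MvPolynomial (Option σ) ℚ ⧸ m
    letI : Field L := Ideal.Quotient.field m
    haveI : Algebra.FiniteType ℚ L :=
      Algebra.FiniteType.of_surjective (Ideal.Quotient.mkₐ ℚ m) (Ideal.Quotient.mkₐ_surjective ℚ m)
    haveI : Module.Finite ℚ L := finite_of_finite_type_of_isJacobsonRing ℚ L
    let ι : L →ₐ[ℚ] AlgebraicClosure ℚ := IsAlgClosed.lift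
    let ψ : MvPolynomial (Option σ) ℚ →ₐ[ℚ] AlgebraicClosure ℚ := ι.comp (Ideal.Quotient.mkₐ ℚ m)
    have hψ : ∀ f : MvPolynomial (Option σ) ℤ, f ∈ J → ψ (algebraMap _ _ f) = 0 := by
      intro f hf
      have h1 : algebraMap (MvPolynomial (Option σ) ℤ) (MvPolynomial (Option σ) ℚ) f ∈ m :=
        hle (Ideal.mem_map_of_mem _ hf)
      change ι (Ideal.Quotient.mk m _) = 0
      rw [Ideal.Quotient.eq_zero_iff_mem.2 h1, map_zero]
    let T : σ → AlgebraicClosure ℚ := fun i => ψ (X (some i))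
    have hT' : ∀ f : MvPolynomial σ ℤ, ψ (algebraMap _ _ (rename some f)) = aeval T f := by
      intro f
      let a : MvPolynomial σ ℤ →+* AlgebraicClosure ℚ :=
        (ψ : MvPolynomial (Option σ) ℚ →+* _).comp ((algebraMap (MvPolynomial (Option σ) ℤ) (MvPolynomial (Option σ) ℚ)).comp
          (rename some : MvPolynomial σ ℤ →ₐ[ℤ] _).toRingHom)
      have h2 : a = (aeval T : MvPolynomial σ ℤ →ₐ[ℤ] _).toRingHom := by
        apply MvPolynomial.ringHom_ext
        · intro r
          simp [a]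
        · intro i
          simp only [a, RingHom.coe_comp, Function.comp_apply, AlgHom.toRingHom_eq_coe, RingHom.coe_coe, rename_X, aeval_X]
          rw [show algebraMap (MvPolynomial (Option σ) ℤ) (MvPolynomial (Option σ) ℚ) (X (some i)) = X (some i) from
            map_X _ _]
      exact congrArg (fun f' => f' f) h2
    refine ⟨T, fun t => ?_, fun h3 => ?_⟩
    · rw [← hT']
      exact hψ _ (Ideal.subset_span (Set.mem_insert_of_mem _ ⟨t, rfl⟩))
    · have h4 := hψ G' (Ideal.subset_span (Set.mem_insert _ _))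
      rw [hG', map_sub, map_sub, map_mul, map_mul, hT', h3, mul_zero, sub_zero, map_one, map_one] at h4
      exact one_ne_zero h4

end Pool.Agent.FD

end

section

/-!
# Project FD: from the gap theorem and the sparseness of the relations to density zero
-/

namespace Pool.Agent.FD

open Finset

/-- `p` divides the numerators of `B_(p-j)` for all odd `j` in `(w, v]`. -/
def GapAt (w v p : ℕ) : Prop := ∀ j : ℕ, Odd j → w < j → j ≤ v → (p : ℤ) ∣ (bernoulli (p - j)).num

/-- Some solution in characteristic `p` of all the Kummer relations, with `g ≠ 0`. -/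
def BadAt {σ : Type} (G : ℕ → MvPolynomial σ ℤ) (g : MvPolynomial σ ℤ) (p : ℕ) : Prop :=
  ∃ (K : Type) (_ : Field K) (_ : CharP K p) (T : σ → K), MvPolynomial.aeval T g ≠ 0 ∧
    ∀ m, Even m → 2 ≤ m → 2 * m + 1 ≤ p → (p : ℤ) ∣ (bernoulli (p - 1 - m)).num ∨ MvPolynomial.aeval T (G m) = 0

/-- A large `H` for a stage. -/
theorem exists_stage (a b w : ℕ) : ∃ H : ℕ, w ≤ H ∧ 2 ≤ H ∧ ((H : ℝ) ^ a ≤ Real.exp (H / (b + 1))) := by
  have h1 : (fun x : ℝ => x ^ a) =o[Filter.atTop] fun x => Real.exp ((1 / ((b : ℝ) + 1)) * x) :=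
    isLittleO_pow_exp_pos_mul_atTop a (by positivity)
  have h2 := (h1.bound one_pos)
  have h3 := (tendsto_natCast_atTop_atTop (R := ℝ)).eventually h2
  obtain ⟨H, hH, hH2⟩ := (h3.and (Filter.eventually_ge_atTop (max w 2))).exists
  refine ⟨H, le_trans (le_max_left _ _) hH2, le_trans (le_max_right _ _) hH2, ?_⟩
  rw [Real.norm_eq_abs, Real.norm_eq_abs, one_mul, abs_of_pos (Real.exp_pos _)] at hH
  refine (le_abs_self _).trans (hH.trans (le_of_eq ?_))
  congr 1
  ring

/-- Compactness with the stages: for all but finitely many bad `p` some interval of the first `S` stages is a gap. -/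
theorem stages {σ : Type} [Finite σ] (A : ℕ) (G : ℕ → MvPolynomial σ ℤ) (g : MvPolynomial σ ℤ)
    (hsk : ∀ T : σ → AlgebraicClosure ℚ, MvPolynomial.aeval T g ≠ 0 → ∃ (D : ℕ) (c : ℝ), 0 < c ∧ ∀ (J : ℕ) (S : Finset ℕ),
      (∀ m ∈ S, Even m ∧ 2 ≤ m ∧ J ≤ m ∧ (m : ℝ) ≤ Real.exp (c * J) ∧ MvPolynomial.aeval T (G m) = 0) → S.card ≤ D)
    (H : ℕ → ℕ) (hH2 : ∀ s, 2 ≤ H s) (hH : ∀ s, ((H s : ℝ) ^ (A ^ (s + 1)) ≤ Real.exp (H s / (s + 1)))) :
    ∃ S : ℕ, {p : ℕ | p.Prime ∧ BadAt G g p ∧ ∀ s < S, ∀ k ≤ s, ¬ GapAt (H s ^ A ^ k) (H s ^ A ^ (k + 1)) p}.Finite := by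
  classical
  by_contra hcon
  push Not at hcon
  -- the intervals
  let I : ℕ → ℕ → Finset ℕ := fun s k =>
    (range (H s ^ A ^ (k + 1) + 1)).filter fun m => Even m ∧ 2 ≤ m ∧ H s ^ A ^ k < m + 1 ∧ m + 1 ≤ H s ^ A ^ (k + 1)
  have hI : ∀ s k m, m ∈ I s k ↔ Even m ∧ 2 ≤ m ∧ H s ^ A ^ k < m + 1 ∧ m + 1 ≤ H s ^ A ^ (k + 1) := by
    intro s k m
    simp only [I, mem_filter, mem_range]
    constructor
    · exact fun h => h.2
    · intro h
      exact ⟨by omega, h⟩
  let F : ℕ → MvPolynomial σ ℤ := fun t =>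
    if (Nat.unpair t).2 ≤ (Nat.unpair t).1 then ∏ m ∈ I (Nat.unpair t).1 (Nat.unpair t).2, G m else 0
  have hcpt : ∀ k : ℕ, {p : ℕ | p.Prime ∧ ∃ (K : Type) (_ : Field K) (_ : CharP K p) (T : σ → K),
      (∀ t < k, MvPolynomial.aeval T (F t) = 0) ∧ MvPolynomial.aeval T g ≠ 0}.Infinite := by
    intro k0
    -- a bound for the ends of the intervals
    set B : ℕ := ∑ s ∈ range k0, ∑ k ∈ range (s + 1), (2 * H s ^ A ^ (k + 1) + 3) with hB
    have h1 : ({p : ℕ | p.Prime ∧ BadAt G g p ∧ ∀ s < k0, ∀ k ≤ s, ¬ GapAt (H s ^ A ^ k) (H s ^ A ^ (k + 1)) p} \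
        (↑(range (B + 1)) : Set ℕ)).Infinite :=
      (Set.not_finite.1 (fun hf => hcon k0 hf)).sdiff (finite_toSet _)
    refine h1.mono ?_
    rintro p ⟨⟨hp, ⟨K, _, _, T, hg, hrel⟩, hgap⟩, hpB⟩
    have hpB' : B < p := by
      rw [mem_coe, mem_range] at hpB
      omega
    refine ⟨hp, K, inferInstance, inferInstance, T, fun t ht => ?_, hg⟩
    simp only [F]
    split_ifs with hks
    · set s := (Nat.unpair t).1 with hs
      set k := (Nat.unpair t).2 with hk
      have hst : s < k0 := lt_of_le_of_lt (Nat.unpair_left_le t) ht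
      have h2 := hgap s hst k hks
      unfold GapAt at h2
      push Not at h2
      obtain ⟨j, hj1, hj2, hj3, hj4⟩ := h2
      have h3 : 2 * H s ^ A ^ (k + 1) + 3 ≤ B := by
        have h4 : 2 * H s ^ A ^ (k + 1) + 3 ≤ ∑ k ∈ range (s + 1), (2 * H s ^ A ^ (k + 1) + 3) :=
          single_le_sum (f := fun k => 2 * H s ^ A ^ (k + 1) + 3) (fun _ _ => Nat.zero_le _) (mem_range.2 (by omega))
        have h5 : ∑ k ∈ range (s + 1), (2 * H s ^ A ^ (k + 1) + 3) ≤ B :=
          single_le_sum (f := fun s => ∑ k ∈ range (s + 1), (2 * H s ^ A ^ (k + 1) + 3)) (fun _ _ => Nat.zero_le _)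
            (mem_range.2 hst)
        omega
      have hpos : 1 < H s ^ A ^ k := by
        rcases Nat.eq_zero_or_pos (A ^ k) with h0 | h0
        · -- then `A = 0`, `k > 0`, and the interval is empty
          exfalso
          have hA : A = 0 := by
            by_contra hA
            exact (pow_ne_zero k hA) h0
          rw [h0, pow_zero] at hj2
          rw [hA, zero_pow (by omega), pow_zero] at hj3
          omega
        · exact Nat.one_lt_pow h0.ne' (by have := hH2 s; omega)
      obtain ⟨i, rfl⟩ : ∃ i, j = i + 1 := ⟨j - 1, by omega⟩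
      have h6 : Even i := by
        rw [Nat.odd_add_one] at hj1
        exact Nat.not_odd_iff_even.1 hj1
      have h7 : 2 ≤ i := by
        rcases h6 with ⟨q, hq⟩
        omega
      rcases hrel i h6 h7 (by omega) with h8 | h8
      · exfalso
        apply hj4
        rw [show p - (i + 1) = p - 1 - i by omega]
        exact h8
      · rw [map_prod]
        exact prod_eq_zero ((hI s k i).2 ⟨h6, h7, hj2, hj3⟩) h8
    · rw [map_zero]
  obtain ⟨T, hT, hg⟩ := cpt F g hcpt
  obtain ⟨D, c, hc, hD⟩ := hsk T hg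
  -- a late stage
  obtain ⟨s, hs1, hs2⟩ : ∃ s : ℕ, D ≤ s ∧ 1 / ((s : ℝ) + 1) ≤ c := by
    obtain ⟨s, hs⟩ := exists_nat_gt (1 / c)
    refine ⟨max D s, le_max_left _ _, ?_⟩
    rw [div_le_iff₀ (by positivity)]
    rw [div_lt_iff₀ hc] at hs
    have h1 : (s : ℝ) ≤ ((max D s : ℕ) : ℝ) := by exact_mod_cast le_max_right _ _
    nlinarith
  have hex : ∀ k, k ≤ s → ∃ m ∈ I s k, MvPolynomial.aeval T (G m) = 0 := by
    intro k hk
    have h1 := hT (Nat.pair s k)
    simp only [F, Nat.unpair_pair] at h1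
    rw [if_pos hk, map_prod, prod_eq_zero_iff] at h1
    exact h1
  choose! m hm hm0 using hex
  have hmono : ∀ k k', k < k' → k' ≤ s → m k < m k' := by
    intro k k' hkk hk'
    have h1 := (hI s k (m k)).1 (hm k (by omega))
    have h2 := (hI s k' (m k')).1 (hm k' hk')
    have h3 : H s ^ A ^ (k + 1) ≤ H s ^ A ^ k' := by
      rcases Nat.eq_zero_or_pos A with hA | hA
      · subst hA
        rw [zero_pow (by omega : k + 1 ≠ 0), zero_pow (by omega : k' ≠ 0)]
      · exact Nat.pow_le_pow_right (by have := hH2 s; omega) (Nat.pow_le_pow_right hA (by omega))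
    omega
  have hinj : Set.InjOn m (range (s + 1) : Set ℕ) := by
    intro k hk k' hk' hkk
    rw [mem_coe, mem_range] at hk hk'
    rcases lt_trichotomy k k' with h1 | h1 | h1
    · have := hmono k k' h1 (by omega)
      omega
    · exact h1
    · have := hmono k' k h1 (by omega)
      omega
  have hcard := hD (H s) ((range (s + 1)).image m) (by
    intro x hx
    rw [mem_image] at hx
    obtain ⟨k, hk, rfl⟩ := hx
    rw [mem_range] at hk
    have hk' : k ≤ s := by omega
    have h1 := (hI s k (m k)).1 (hm k hk')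
    have hA : 0 < A := by
      rcases Nat.eq_zero_or_pos A with hA | hA
      · subst hA
        rw [zero_pow (by omega : k + 1 ≠ 0), pow_zero] at h1
        omega
      · exact hA
    have h2 : H s ≤ H s ^ A ^ k := by
      calc H s = H s ^ 1 := (pow_one _).symm
        _ ≤ H s ^ A ^ k := Nat.pow_le_pow_right (by have := hH2 s; omega) (Nat.one_le_pow _ _ hA)
    refine ⟨h1.1, h1.2.1, by omega, ?_, hm0 k hk'⟩
    have h3 : m k ≤ H s ^ A ^ (s + 1) := by
      have h4 : H s ^ A ^ (k + 1) ≤ H s ^ A ^ (s + 1) :=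
        Nat.pow_le_pow_right (by have := hH2 s; omega) (Nat.pow_le_pow_right hA (by omega))
      omega
    have h5 : ((m k : ℕ) : ℝ) ≤ (H s : ℝ) ^ A ^ (s + 1) := by exact_mod_cast h3
    refine h5.trans ((hH s).trans (Real.exp_le_exp.2 ?_))
    rw [div_eq_mul_one_div, mul_comm]
    exact mul_le_mul_of_nonneg_right hs2 (Nat.cast_nonneg _))
  rw [card_image_of_injOn hinj, card_range] at hcard
  omega

theorem sum_union_le {f : ℕ → ℝ} (hf : ∀ p, 0 ≤ f p) (S T : Finset ℕ) : ∑ p ∈ S ∪ T, f p ≤ ∑ p ∈ S, f p + ∑ p ∈ T, f p := by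
  rw [← sum_union_inter]
  exact le_add_of_nonneg_right (sum_nonneg fun p _ => hf p)

theorem sum_biUnion_le {f : ℕ → ℝ} (hf : ∀ p, 0 ≤ f p) (S : Finset ℕ) (T : ℕ → Finset ℕ) :
    ∑ p ∈ S.biUnion T, f p ≤ ∑ s ∈ S, ∑ p ∈ T s, f p := by
  classical
  induction S using Finset.induction_on with
  | empty => simp
  | insert a S ha ih =>
    rw [biUnion_insert, sum_insert ha]
    exact (sum_union_le hf _ _).trans (add_le_add le_rfl ih)

end Pool.Agent.FD

end

section

/-!
# Project FD (MP_ef6a16_nt): the first case over number fields for almost all primes in a class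

Definitions only.  See notes 3561 (helper42) and 3560 (helper56).

* `PE m` : integer polynomials with `(t d/dt)^m 1/(1-t) = PE m (t) / (1-t)^(m+1)`;
* `LL m t = PE m (t) / (1-t)^(m+1)`;
* `Inv T` : the family `T` is stable under inversion;
* `SS p i = ∑_{j ≤ (p-1)/2} j^(-i)` in `ZMod p`, `Gap p r e` : `SS p i = 0` for all odd `r < i < e`;
* `gpol p = ∏_{j ≤ (p-1)/2} (1 + X/j)`, `Phi p I = ∏_{n ∈ I} gpol (n X)`;
* `Par` : the parameters; `TT`, `UU`, `Bi`, `cn`, `entry` : the columns of the linear system;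
* `An`, `Bn` : numerator and denominator of `Phi(x+1)/Phi(x)`.
-/

namespace Pool.Agent.H42.FD

open Polynomial Finset

/-- `∑ a^m X^a = PE m / (1-X)^(m+1)` -/
noncomputable def PE : ℕ → ℤ[X]
  | 0 => 1
  | m + 1 => X * ((1 - X) * derivative (PE m) + C ((m : ℤ) + 1) * PE m)

/-- `L_m(t) = (t d/dt)^m 1/(1-t)` -/
noncomputable def LL {F : Type*} [Field F] (m : ℕ) (t : F) : F := aeval t (PE m) / (1 - t) ^ (m + 1)

namespace Par

end Par

end Pool.Agent.H42.FD

end

section

/-!
# FD, Step 2: `L_m(t) = (t d/dt)^m 1/(1-t)` over `ℂ`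
-/

open Polynomial

namespace H59FD

open Pool.Agent.H42.FD (PE LL)

/-- `L_m` commutes with ring homomorphisms of fields -/
theorem map_LL {F G : Type*} [Field F] [Field G] (φ : F →+* G) (m : ℕ) (t : F) :
    φ (LL m t) = LL m (φ t) := by
  simp only [LL, map_div₀, map_pow, map_sub, map_one]
  congr 1
  simp only [aeval_def]
  rw [Polynomial.hom_eval₂ (PE m) (algebraMap ℤ F) φ t]
  congr 1
  exact Subsingleton.elim _ _

lemma LL_zero {F : Type*} [Field F] (t : F) : LL 0 t = 1 / (1 - t) := by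
  simp [LL, PE]

/-- the derivative along `z ↦ t e^z` -/
lemma hasDerivAt_LL (m : ℕ) (t z : ℂ) (h : t * Complex.exp z ≠ 1) :
    HasDerivAt (fun z => LL m (t * Complex.exp z)) (LL (m + 1) (t * Complex.exp z)) z := by
  have hx : HasDerivAt (fun z => t * Complex.exp z) (t * Complex.exp z) z :=
    (Complex.hasDerivAt_exp z).const_mul t
  set x := t * Complex.exp z with hxd
  have hne : (1 - x) ≠ 0 := sub_ne_zero.mpr (Ne.symm h)
  have hP : HasDerivAt (fun x : ℂ => aeval x (PE m)) (aeval x (derivative (PE m))) x :=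
    Polynomial.hasDerivAt_aeval _ _
  have hD : HasDerivAt (fun x : ℂ => (1 - x) ^ (m + 1)) (((m + 1 : ℕ) : ℂ) * (1 - x) ^ m * (0 - 1)) x := by
    have h0 : HasDerivAt (fun x : ℂ => 1 - x) (0 - 1) x :=
      (hasDerivAt_const x (1 : ℂ)).sub (hasDerivAt_id x)
    simpa using h0.fun_pow (m + 1)
  have hQ := hP.fun_div hD (pow_ne_zero _ hne)
  have := hQ.comp z hx
  refine this.congr_deriv ?_
  simp only [LL, PE, map_mul, map_add, map_sub, aeval_X, map_one, aeval_C]
  have hpow : (1 - x) ^ (m + 1) = (1 - x) ^ m * (1 - x) := pow_succ _ _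
  have hpow2 : (1 - x) ^ (m + 1 + 1) = (1 - x) ^ m * (1 - x) * (1 - x) := by
    rw [pow_succ, pow_succ]
  rw [hpow, hpow2]
  have hm : (1 - x) ^ m ≠ 0 := pow_ne_zero _ hne
  push_cast
  field_simp
  ring

lemma iteratedDeriv_LL (t : ℂ) (m : ℕ) : ∀ z : ℂ, t * Complex.exp z ≠ 1 →
    iteratedDeriv m (fun z => 1 / (1 - t * Complex.exp z)) z = LL m (t * Complex.exp z) := by
  induction m with
  | zero => intro z _; simp [LL_zero]
  | succ m ih =>
    intro z hz
    rw [iteratedDeriv_succ]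
    have hopen : IsOpen {z : ℂ | t * Complex.exp z ≠ 1} :=
      isOpen_ne_fun (continuous_const.mul Complex.continuous_exp) continuous_const
    have hev : iteratedDeriv m (fun z => 1 / (1 - t * Complex.exp z)) =ᶠ[nhds z]
        fun z => LL m (t * Complex.exp z) :=
      Filter.eventually_of_mem (hopen.mem_nhds hz) fun w hw => ih w hw
    rw [hev.deriv_eq, (hasDerivAt_LL m t z hz).deriv]

end H59FD

end

section

/-!
# Project FD (MP_ef6a16_nt), Step 2: Euler polynomials and the functions `L_m(t) = (t d/dt)^m 1/(1-t)`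

* `eul m` : the polynomials with `(t d/dt)^m (1/(1-t)) = eul m (t) / (1-t)^(m+1)`;
* `LL m t = eul m (t) / (1-t)^(m+1)` for `t` in a field.
-/

namespace H69FD

open Polynomial

/-- the Euler polynomials -/
noncomputable def eul : ℕ → Polynomial ℤ
  | 0 => 1
  | m + 1 => X * ((1 - X) * derivative (eul m) + ((m : Polynomial ℤ) + 1) * eul m)

/-- `L_m(t) = (t d/dt)^m (1/(1-t))` -/
noncomputable def LL {F : Type*} [Field F] (m : ℕ) (t : F) : F :=
  aeval t (eul m) / (1 - t) ^ (m + 1)

theorem eul_zero : eul 0 = 1 := rfl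

theorem eul_succ (m : ℕ) :
    eul (m + 1) = X * ((1 - X) * derivative (eul m) + ((m : Polynomial ℤ) + 1) * eul m) := rfl

end H69FD

end

section

/-!
# Upper densities of sets of primes (logarithmic weights)

`th G x` is the sum of `log p` over the primes `p ≤ x` with `G p`; `UD G e`: the upper density of
`G` is at most `e`; `Null G`: density zero.
-/

set_option autoImplicit false

namespace Pool.Agent.H71.FD

open Finset Filter

open Classical in
/-- the sum of `log p` over the primes `p ≤ x` with `G p` -/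
noncomputable def th (G : ℕ → Prop) (x : ℕ) : ℝ :=
  ∑ p ∈ (Icc 1 x).filter (fun p => p.Prime ∧ G p), Real.log p

open Classical in
/-- the number of primes `p ≤ x` with `G p` -/
noncomputable def cn (G : ℕ → Prop) (x : ℕ) : ℕ :=
  ((Icc 1 x).filter (fun p => p.Prime ∧ G p)).card

/-- upper density at most `e` -/
def UD (G : ℕ → Prop) (e : ℝ) : Prop := ∀ η, e < η → ∀ᶠ x : ℕ in atTop, th G x ≤ η * x

/-- density zero -/
def Null (G : ℕ → Prop) : Prop := ∀ e, 0 < e → ∀ᶠ x : ℕ in atTop, th G x ≤ e * x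

theorem th_nonneg (G : ℕ → Prop) (x : ℕ) : 0 ≤ th G x :=
  Finset.sum_nonneg fun p _ => Real.log_natCast_nonneg p

theorem th_mono {G G' : ℕ → Prop} (h : ∀ p, p.Prime → G p → G' p) (x : ℕ) : th G x ≤ th G' x := by
  classical
  unfold th
  refine Finset.sum_le_sum_of_subset_of_nonneg (fun p hp => ?_) fun p _ _ =>
    Real.log_natCast_nonneg p
  rw [mem_filter] at hp ⊢
  exact ⟨hp.1, hp.2.1, h p hp.2.1 hp.2.2⟩

theorem cn_mono {G G' : ℕ → Prop} (h : ∀ p, p.Prime → G p → G' p) (x : ℕ) : cn G x ≤ cn G' x := by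
  classical
  unfold cn
  refine Finset.card_le_card fun p hp => ?_
  rw [mem_filter] at hp ⊢
  exact ⟨hp.1, hp.2.1, h p hp.2.1 hp.2.2⟩

theorem th_union {G G' G'' : ℕ → Prop} (h : ∀ p, p.Prime → G'' p → G p ∨ G' p) (x : ℕ) :
    th G'' x ≤ th G x + th G' x := by
  classical
  unfold th
  rw [← Finset.sum_union_inter]
  refine le_add_of_le_of_nonneg (Finset.sum_le_sum_of_subset_of_nonneg (fun p hp => ?_) fun p _ _ =>
    Real.log_natCast_nonneg p) (Finset.sum_nonneg fun p _ => Real.log_natCast_nonneg p)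
  rw [mem_filter] at hp
  rw [mem_union, mem_filter, mem_filter]
  rcases h p hp.2.1 hp.2.2 with h | h
  · exact Or.inl ⟨hp.1, hp.2.1, h⟩
  · exact Or.inr ⟨hp.1, hp.2.1, h⟩

theorem th_or (G G' : ℕ → Prop) (x : ℕ) : th (fun p => G p ∨ G' p) x ≤ th G x + th G' x :=
  th_union (fun _ _ h => h) x

theorem cn_union {G G' G'' : ℕ → Prop} (h : ∀ p, p.Prime → G'' p → G p ∨ G' p) (x : ℕ) :
    cn G'' x ≤ cn G x + cn G' x := by
  classical
  unfold cn
  refine le_trans (Finset.card_le_card fun p hp => ?_) (Finset.card_union_le _ _)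
  rw [mem_filter] at hp
  rw [mem_union, mem_filter, mem_filter]
  rcases h p hp.2.1 hp.2.2 with h | h
  · exact Or.inl ⟨hp.1, hp.2.1, h⟩
  · exact Or.inr ⟨hp.1, hp.2.1, h⟩

theorem cn_or (G G' : ℕ → Prop) (x : ℕ) : cn (fun p => G p ∨ G' p) x ≤ cn G x + cn G' x :=
  cn_union (fun _ _ h => h) x

theorem lin_ge (C η : ℝ) (hη : 0 < η) : ∀ᶠ x : ℕ in atTop, C ≤ η * x := by
  filter_upwards [tendsto_natCast_atTop_atTop.eventually (eventually_ge_atTop (C / η))] with x hx
  rw [div_le_iff₀ hη] at hx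
  linarith

theorem UD.mono {G G' : ℕ → Prop} {e e' : ℝ} (h : UD G' e) (hG : ∀ p, p.Prime → G p → G' p)
    (he : e ≤ e') : UD G e' := by
  intro η hη
  filter_upwards [h η (lt_of_le_of_lt he hη)] with x hx
  exact (th_mono hG x).trans hx

theorem UD.or {G G' : ℕ → Prop} {e e' : ℝ} (h : UD G e) (h' : UD G' e') :
    UD (fun p => G p ∨ G' p) (e + e') := by
  intro η hη
  filter_upwards [h (e + (η - (e + e')) / 2) (by linarith),
    h' (e' + (η - (e + e')) / 2) (by linarith)] with x h1 h2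
  refine (th_or G G' x).trans ((add_le_add h1 h2).trans (le_of_eq ?_))
  ring

/-- a set of bounded primes -/
theorem UD_of_bounded {G : ℕ → Prop} (B : ℕ) (h : ∀ p, p.Prime → G p → p ≤ B) : UD G 0 := by
  classical
  intro η hη
  filter_upwards [lin_ge (∑ p ∈ Icc 1 B, Real.log p) η hη] with x hx
  refine le_trans ?_ hx
  unfold th
  refine Finset.sum_le_sum_of_subset_of_nonneg (fun p hp => ?_) fun p _ _ =>
    Real.log_natCast_nonneg p
  rw [mem_filter, mem_Icc] at hp
  rw [mem_Icc]
  exact ⟨hp.1.1, h p hp.2.1 hp.2.2⟩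

theorem UD_biUnion {ι : Type*} (s : Finset ι) (G : ι → ℕ → Prop) (e : ι → ℝ)
    (h : ∀ i ∈ s, UD (G i) (e i)) : UD (fun p => ∃ i ∈ s, G i p) (∑ i ∈ s, e i) := by
  classical
  induction s using Finset.induction_on with
  | empty => exact UD_of_bounded 0 fun p _ hp => by simp at hp
  | insert a s ha ih =>
    rw [Finset.sum_insert ha]
    refine UD.mono ((h a (mem_insert_self a s)).or (ih fun i hi => h i (mem_insert_of_mem hi)))
      (fun p _ hp => ?_) le_rfl
    obtain ⟨i, hi, hG⟩ := hp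
    rcases mem_insert.1 hi with h1 | h1
    · subst h1; exact Or.inl hG
    · exact Or.inr ⟨i, h1, hG⟩

theorem Null.mono {G G' : ℕ → Prop} (h : Null G') (hG : ∀ p, p.Prime → G p → G' p) : Null G :=
  UD.mono (e := 0) (e' := 0) h hG le_rfl

theorem Null.or {G G' : ℕ → Prop} (h : Null G) (h' : Null G') : Null (fun p => G p ∨ G' p) :=
  UD.mono (UD.or (e := 0) (e' := 0) h h') (fun _ _ h => h) (by simp)

theorem Null_of_bounded {G : ℕ → Prop} (B : ℕ) (h : ∀ p, p.Prime → G p → p ≤ B) : Null G :=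
  UD_of_bounded B h

theorem th_le_cn (G : ℕ → Prop) (x : ℕ) : th G x ≤ cn G x * Real.log x := by
  classical
  unfold th cn
  rw [← nsmul_eq_mul]
  refine Finset.sum_le_card_nsmul _ _ _ fun p hp => ?_
  rw [mem_filter, mem_Icc] at hp
  refine Real.log_le_log (by exact_mod_cast hp.2.1.pos) (by exact_mod_cast hp.1.2)

theorem cn_le_th (G : ℕ → Prop) (x : ℕ) (hx : 2 ≤ x) :
    (cn G x : ℝ) ≤ Real.sqrt x + 2 * th G x / Real.log x := by
  classical
  have hx1 : (1 : ℝ) < x := by exact_mod_cast hx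
  have hl : 0 < Real.log x := Real.log_pos hx1
  have hs : Real.log (Real.sqrt x) = Real.log x / 2 := Real.log_sqrt (by linarith)
  set A := (Icc 1 x).filter (fun p => p.Prime ∧ G p) with hA
  set A1 := A.filter (fun p : ℕ => (p : ℝ) ≤ Real.sqrt x)
  set A2 := A.filter (fun p : ℕ => ¬ (p : ℝ) ≤ Real.sqrt x)
  have h1 : A.card = A1.card + A2.card :=
    (Finset.card_filter_add_card_filter_not (s := A) (fun p : ℕ => (p : ℝ) ≤ Real.sqrt x)).symm
  have h2 : (A1.card : ℝ) ≤ Real.sqrt x := by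
    have h3 : A1 ⊆ Icc 1 ⌊Real.sqrt x⌋₊ := by
      intro p hp
      rw [mem_filter, hA, mem_filter, mem_Icc] at hp
      rw [mem_Icc]
      exact ⟨hp.1.1.1, Nat.le_floor hp.2⟩
    have h4 := Finset.card_le_card h3
    rw [Nat.card_Icc, Nat.add_sub_cancel] at h4
    exact le_trans (by exact_mod_cast h4) (Nat.floor_le (Real.sqrt_nonneg _))
  have h3 : (A2.card : ℝ) * (Real.log x / 2) ≤ th G x := by
    rw [← nsmul_eq_mul]
    refine le_trans (Finset.card_nsmul_le_sum A2 (fun p : ℕ => Real.log p) _ fun p hp => ?_) ?_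
    · rw [mem_filter] at hp
      rw [← hs]
      refine Real.log_le_log (Real.sqrt_pos.2 (by linarith)) (not_le.1 hp.2).le
    · unfold th
      refine Finset.sum_le_sum_of_subset_of_nonneg (filter_subset _ _) fun p _ _ =>
        Real.log_natCast_nonneg p
  have h4 : (A2.card : ℝ) ≤ 2 * th G x / Real.log x := by
    rw [le_div_iff₀ hl]
    linarith
  have h5 : (cn G x : ℝ) = A1.card + A2.card := by
    unfold cn
    rw [← hA, h1]
    push_cast
    rfl
  rw [h5]
  linarith

theorem sqrt_small (ε : ℝ) (hε : 0 < ε) : ∀ᶠ x : ℕ in atTop, Real.sqrt x ≤ ε * (x / Real.log x) := by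
  have h0 : ∀ᶠ x : ℝ in atTop, ‖Real.log x‖ ≤ ε * ‖x ^ (1 / 2 : ℝ)‖ :=
    (isLittleO_log_rpow_atTop (by norm_num : (0 : ℝ) < 1 / 2)).def (by positivity)
  filter_upwards [tendsto_natCast_atTop_atTop.eventually h0, eventually_ge_atTop 2] with x h1 h2
  have hx1 : (1 : ℝ) < x := by exact_mod_cast h2
  have hl : 0 < Real.log x := Real.log_pos hx1
  rw [← Real.sqrt_eq_rpow, Real.norm_eq_abs, Real.norm_eq_abs, abs_of_nonneg (Real.sqrt_nonneg _),
    abs_of_pos hl] at h1
  rw [← mul_div_assoc, le_div_iff₀ hl]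
  have h9 : Real.sqrt (x : ℝ) * Real.sqrt (x : ℝ) = x := Real.mul_self_sqrt (by linarith)
  have h10 : 0 ≤ Real.sqrt (x : ℝ) := Real.sqrt_nonneg _
  nlinarith [mul_le_mul_of_nonneg_left h1 h10]

/-- a set of density zero, counted -/
theorem Null.cn_le {G : ℕ → Prop} (h : Null G) (ε : ℝ) (hε : 0 < ε) :
    ∀ᶠ x : ℕ in atTop, (cn G x : ℝ) ≤ ε * (x / Real.log x) := by
  filter_upwards [h (ε / 4) (by linarith), sqrt_small (ε / 2) (by linarith), eventually_ge_atTop 2]
    with x h1 h2 h3
  have h4 := cn_le_th G x h3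
  have hx1 : (1 : ℝ) < x := by exact_mod_cast h3
  have hl : 0 < Real.log x := Real.log_pos hx1
  have h5 : 2 * th G x / Real.log x ≤ ε / 2 * (x / Real.log x) := by
    rw [← mul_div_assoc, div_le_div_iff_of_pos_right hl]
    linarith
  calc (cn G x : ℝ) ≤ Real.sqrt x + 2 * th G x / Real.log x := h4
    _ ≤ ε / 2 * (x / Real.log x) + ε / 2 * (x / Real.log x) := add_le_add h2 h5
    _ = ε * (x / Real.log x) := by ring

/-- lower bounds survive the removal of a set of density zero -/
theorem cn_sdiff {G B : ℕ → Prop} (c : ℝ) (hG : ∀ᶠ x : ℕ in atTop, c * (x / Real.log x) ≤ cn G x)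
    (hB : Null B) (ε : ℝ) (hε : 0 < ε) :
    ∀ᶠ x : ℕ in atTop, (c - ε) * (x / Real.log x) ≤ cn (fun p => G p ∧ ¬ B p) x := by
  filter_upwards [hG, hB.cn_le ε hε] with x h1 h2
  have h3 : cn G x ≤ cn (fun p => (G p ∧ ¬ B p) ∨ B p) x := cn_mono (fun p _ h => by tauto) x
  have h4 := h3.trans (cn_or _ _ x)
  have h5 : (cn G x : ℝ) ≤ cn (fun p => G p ∧ ¬ B p) x + cn B x := by exact_mod_cast h4
  linarith

theorem cn_of_th {G : ℕ → Prop} (c : ℝ) (hG : ∀ᶠ x : ℕ in atTop, c * x ≤ th G x) :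
    ∀ᶠ x : ℕ in atTop, c * (x / Real.log x) ≤ cn G x := by
  filter_upwards [hG, eventually_ge_atTop 2] with x h1 h2
  have hx1 : (1 : ℝ) < x := by exact_mod_cast h2
  have hl : 0 < Real.log x := Real.log_pos hx1
  rw [← mul_div_assoc, div_le_iff₀ hl]
  exact h1.trans (th_le_cn G x)

end Pool.Agent.H71.FD

end

section

/-!
# A Strassmann lemma for Mahler type series

`f s = Σ_r d_r s (s-1) ... (s-r+1)` with `d_r → 0` in an ultrametric field of characteristic
zero, not all `d_r` zero.  Then there are `D` and `C > 0` such that among any `D+1` distinct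
natural numbers `≤ S` one has `‖f s‖ ≥ C / S^D`.
-/

open Finset Polynomial Filter Topology

namespace H87FD

/-- Divided differences of integer polynomials are integers. -/
theorem dd_int {F : Type*} [Field F] [CharZero F] (s : Finset ℕ) (P : ℤ[X]) :
    ∃ z : ℤ, ∑ i ∈ s, ((P.eval (i : ℤ) : ℤ) : F) / ∏ j ∈ s.erase i, ((i : F) - (j : F)) = (z : F) ∧
      (P.natDegree + 1 < s.card → z = 0) ∧ (P.Monic → P.natDegree + 1 = s.card → z = 1) := by
  classical
  set N : ℤ[X] := Lagrange.nodal s (fun i : ℕ => (i : ℤ)) with hN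
  have hmon : N.Monic := Lagrange.nodal_monic
  have hdN : N.degree = s.card := Lagrange.degree_nodal
  set R : ℤ[X] := P %ₘ N with hR
  have hdR : R.degree < s.card := by
    rw [← hdN]
    exact Polynomial.degree_modByMonic_lt P hmon
  have hev : ∀ i ∈ s, R.eval (i : ℤ) = P.eval (i : ℤ) := by
    intro i hi
    have h1 : R + N * (P /ₘ N) = P := Polynomial.modByMonic_add_div P N
    have h2 : N.eval (i : ℤ) = 0 := Lagrange.eval_nodal_at_node (v := fun i : ℕ => (i : ℤ)) hi
    have h3 := congrArg (Polynomial.eval (i : ℤ)) h1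
    rw [Polynomial.eval_add, Polynomial.eval_mul, h2, zero_mul, add_zero] at h3
    exact h3
  have hinj : Set.InjOn (fun i : ℕ => (i : F)) s := by
    intro a _ b _ h
    exact Nat.cast_injective h
  set Q : F[X] := R.map (Int.castRingHom F) with hQ
  have hdQ : Q.degree < s.card := lt_of_le_of_lt Polynomial.degree_map_le hdR
  have hc := Lagrange.coeff_eq_sum hinj hdQ
  refine ⟨R.coeff (s.card - 1), ?_, ?_, ?_⟩
  · have h4 : Q.coeff (s.card - 1) = ((R.coeff (s.card - 1) : ℤ) : F) := by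
      rw [hQ, Polynomial.coeff_map]; simp
    rw [← h4, hc]
    refine Finset.sum_congr rfl fun i hi => ?_
    congr 1
    have h5 : Q.eval ((i : ℤ) : F) = ((R.eval (i : ℤ) : ℤ) : F) := by
      rw [hQ, Polynomial.eval_intCast_map]; simp
    have h6 : ((i : ℤ) : F) = (i : F) := by simp
    rw [h6] at h5
    rw [h5, hev i hi]
  · intro hlt
    have h7 : R = P := by
      rw [hR, Polynomial.modByMonic_eq_self_iff hmon, hdN]
      refine lt_of_le_of_lt Polynomial.degree_le_natDegree ?_
      have : P.natDegree < s.card := by omega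
      exact_mod_cast this
    rw [h7]
    exact Polynomial.coeff_eq_zero_of_natDegree_lt (by omega)
  · intro hPm heq
    have h7 : R = P := by
      rw [hR, Polynomial.modByMonic_eq_self_iff hmon, hdN]
      refine lt_of_le_of_lt Polynomial.degree_le_natDegree ?_
      have : P.natDegree < s.card := by omega
      exact_mod_cast this
    rw [h7]
    have h8 : s.card - 1 = P.natDegree := by omega
    rw [h8]
    exact hPm

theorem strass {F : Type*} [NormedField F] [IsUltrametricDist F] [CharZero F]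
    (hl : ∀ n : ℕ, n ≠ 0 → 1 / (n : ℝ) ≤ ‖(n : F)‖)
    (d : ℕ → F) (hd : Tendsto (fun r => ‖d r‖) atTop (𝓝 0)) (hne : ∃ r, d r ≠ 0)
    (f : ℕ → F) (hf : ∀ s, f s = ∑ r ∈ range (s + 1), d r * (s.descFactorial r : F)) :
    ∃ D : ℕ, ∃ C : ℝ, 0 < C ∧ ∀ A : Finset ℕ, A.card = D + 1 → ∀ S : ℕ, (∀ s ∈ A, s ≤ S) →
      ∃ s ∈ A, C ≤ ‖f s‖ * (S : ℝ) ^ D := by
  classical
  obtain ⟨r0, hr0⟩ := hne
  have hr0' : 0 < ‖d r0‖ := norm_pos_iff.mpr hr0
  -- the largest index with maximal norm
  obtain ⟨R, hR⟩ : ∃ R, ∀ r ≥ R, ‖d r‖ < ‖d r0‖ :=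
    eventually_atTop.mp (hd.eventually (gt_mem_nhds hr0'))
  have hr0R : r0 < R := by
    by_contra h
    exact lt_irrefl _ (hR r0 (not_lt.mp h))
  obtain ⟨D0, hD0, hD0m⟩ := Finset.exists_max_image (range R) (fun r => ‖d r‖)
    ⟨r0, mem_range.mpr hr0R⟩
  set T := (range R).filter (fun r => ‖d r‖ = ‖d D0‖) with hT
  have hTn : T.Nonempty := ⟨D0, by rw [hT, mem_filter]; exact ⟨hD0, rfl⟩⟩
  set D := T.max' hTn with hDdef
  have hDT : D ∈ T := T.max'_mem hTn
  have hDn : ‖d D‖ = ‖d D0‖ := by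
    have := hDT; rw [hT, mem_filter] at this; exact this.2
  have hDpos : 0 < ‖d D‖ := by
    rw [hDn]; exact lt_of_lt_of_le hr0' (hD0m r0 (mem_range.mpr hr0R))
  have hgt : ∀ r, D < r → ‖d r‖ < ‖d D‖ := by
    intro r hr
    rcases lt_or_ge r R with h | h
    · have h1 := hD0m r (mem_range.mpr h)
      rcases lt_or_eq_of_le h1 with h2 | h2
      · rw [hDn]; exact h2
      · exfalso
        have : r ∈ T := by rw [hT, mem_filter]; exact ⟨mem_range.mpr h, h2⟩
        have := T.le_max' r this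
        exact absurd this (not_le.mpr hr)
    · have h1 := hR r h
      have h2 := hD0m r0 (mem_range.mpr hr0R)
      rw [hDn]; exact lt_of_lt_of_le h1 h2
  refine ⟨D, ‖d D‖, hDpos, ?_⟩
  intro A hA S hS
  have hAn : A.Nonempty := by rw [← card_pos, hA]; omega
  -- the divided difference
  have key : ∀ r, ∃ z : ℤ,
      ∑ i ∈ A, ((i.descFactorial r : ℕ) : F) / ∏ j ∈ A.erase i, ((i : F) - (j : F)) = (z : F) ∧
      (r + 1 < A.card → z = 0) ∧ (r + 1 = A.card → z = 1) := by
    intro r
    obtain ⟨z, hz, hz0, hz1⟩ := dd_int (F := F) A (descPochhammer ℤ r)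
    have hnd : (descPochhammer ℤ r).natDegree = r := descPochhammer_natDegree ℤ r
    refine ⟨z, ?_, ?_, ?_⟩
    · rw [← hz]
      refine Finset.sum_congr rfl fun i _ => ?_
      rw [descPochhammer_eval_eq_descFactorial]
      simp
    · intro h; exact hz0 (by rw [hnd]; exact h)
    · intro h; exact hz1 (monic_descPochhammer ℤ r) (by rw [hnd]; exact h)
  choose z hz hz0 hz1 using key
  have hsum : ∑ i ∈ A, f i / ∏ j ∈ A.erase i, ((i : F) - (j : F))
      = ∑ r ∈ range (S + 1), d r * (z r : F) := by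
    have h1 : ∀ i ∈ A, f i = ∑ r ∈ range (S + 1), d r * ((i.descFactorial r : ℕ) : F) := by
      intro i hi
      rw [hf i]
      refine Finset.sum_subset ?_ ?_
      · intro r hr; rw [mem_range] at hr ⊢; have := hS i hi; omega
      · intro r _ hr2
        rw [mem_range, not_lt] at hr2
        rw [Nat.descFactorial_eq_zero_iff_lt.mpr (by omega)]; simp
    rw [Finset.sum_congr rfl (fun i hi => by rw [h1 i hi, Finset.sum_div])]
    rw [Finset.sum_comm]
    refine Finset.sum_congr rfl fun r _ => ?_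
    rw [← hz r, Finset.mul_sum]
    refine Finset.sum_congr rfl fun i _ => ?_
    rw [mul_div_assoc]
  have hDS : D ≤ S := by
    have h1 : A ⊆ range (S + 1) := by
      intro s hs; rw [mem_range]; have := hS s hs; omega
    have h2 := card_le_card h1
    rw [hA, card_range] at h2
    omega
  have hnorm : ‖∑ r ∈ range (S + 1), d r * (z r : F)‖ = ‖d D‖ := by
    rw [← Finset.add_sum_erase (range (S + 1)) _ (mem_range.mpr (Nat.lt_succ_of_le hDS))]
    rw [hz1 D (by rw [hA]), Int.cast_one, mul_one]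
    have hsm : ‖∑ r ∈ (range (S + 1)).erase D, d r * (z r : F)‖ < ‖d D‖ := by
      rcases ((range (S + 1)).erase D).eq_empty_or_nonempty with he | hne
      · rw [he, sum_empty, norm_zero]; exact hDpos
      · obtain ⟨r, hr, hle⟩ := IsUltrametricDist.exists_norm_finset_sum_le_of_nonempty hne
          (fun r => d r * (z r : F))
        refine lt_of_le_of_lt hle ?_
        rw [mem_erase] at hr
        rcases lt_or_gt_of_ne hr.1 with h | h
        · rw [hz0 r (by rw [hA]; omega)]; simpa using hDpos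
        · rw [norm_mul]
          have h3 : ‖(z r : F)‖ ≤ 1 := IsUltrametricDist.norm_intCast_le_one F (z r)
          calc ‖d r‖ * ‖(z r : F)‖ ≤ ‖d r‖ * 1 := mul_le_mul_of_nonneg_left h3 (norm_nonneg _)
            _ = ‖d r‖ := mul_one _
            _ < ‖d D‖ := hgt r h
    rw [IsUltrametricDist.norm_add_eq_max_of_norm_ne_norm (ne_of_gt hsm)]
    exact max_eq_left hsm.le
  obtain ⟨i, hi, hle⟩ := IsUltrametricDist.exists_norm_finset_sum_le_of_nonempty hAn
    (fun i => f i / ∏ j ∈ A.erase i, ((i : F) - (j : F)))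
  rw [hsum, hnorm] at hle
  refine ⟨i, hi, hle.trans ?_⟩
  rw [norm_div, norm_prod, div_eq_mul_inv]
  refine mul_le_mul_of_nonneg_left ?_ (norm_nonneg _)
  rw [← Finset.prod_inv_distrib]
  have hcard : (A.erase i).card = D := by rw [card_erase_of_mem hi, hA]; omega
  calc ∏ j ∈ A.erase i, ‖(i : F) - (j : F)‖⁻¹ ≤ ∏ _j ∈ A.erase i, (S : ℝ) := by
        refine Finset.prod_le_prod (fun j _ => inv_nonneg.mpr (norm_nonneg _)) ?_
        intro j hj
        rw [mem_erase] at hj
        have hiS := hS i hi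
        have hjS := hS j hj.2
        have hcore : ∀ a b : ℕ, a < b → b ≤ S → ‖(b : F) - (a : F)‖⁻¹ ≤ (S : ℝ) := by
          intro a b hab hbS
          have h1 : (b : F) - (a : F) = ((b - a : ℕ) : F) := by
            rw [Nat.cast_sub hab.le]
          rw [h1]
          have h2 := hl (b - a) (by omega)
          have h3 : (0 : ℝ) < ((b - a : ℕ) : ℝ) := by exact_mod_cast (by omega : 0 < b - a)
          have h4 : 0 < 1 / ((b - a : ℕ) : ℝ) := by positivity
          calc ‖((b - a : ℕ) : F)‖⁻¹ ≤ (1 / ((b - a : ℕ) : ℝ))⁻¹ := inv_anti₀ h4 h2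
            _ = ((b - a : ℕ) : ℝ) := by rw [one_div, inv_inv]
            _ ≤ (S : ℝ) := by exact_mod_cast (by omega : b - a ≤ S)
        rcases lt_or_gt_of_ne hj.1 with h | h
        · exact hcore j i h hiS
        · rw [norm_sub_rev]; exact hcore i j h hjS
    _ = (S : ℝ) ^ D := by rw [prod_const, hcard]

end H87FD

end

section

/-!
# Project AB, module DefsM: the Stickelberger elements for `ℚ(ζ_m)`, `m` arbitrary

* `TM m M b` : the set of those `σ ∈ Gal(M/ℚ)`, `M = ℚ(ζ_m)`, `σ ζ = ζ ^ t`, `0 ≤ t < m`, with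
  `m < t + (b t mod m)`. For `b = 1`: `m < 2 t`.
* `cjM m M` : complex conjugation on `M = ℚ(ζ_m)`, as an element of `Gal(M/ℚ)`.
-/

namespace H9AB

open NumberField

/-- the automorphisms `σ_t` of `ℚ(ζ_m)`, `σ_t ζ = ζ ^ t`, `0 ≤ t < m`, with `m < t + (b t mod m)` -/
noncomputable def TM (m : ℕ) [NeZero m] (M : Type*) [Field M] [NumberField M]
    [IsCyclotomicExtension {m} ℚ M] (b : ℕ) : Finset (M ≃ₐ[ℚ] M) := by
  classical
  exact Finset.univ.filter
    (fun σ => m < (IsCyclotomicExtension.Rat.galEquivZMod m M σ).val.val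
      + (b * (IsCyclotomicExtension.Rat.galEquivZMod m M σ).val.val) % m)

/-- complex conjugation of `ℚ(ζ_m)` -/
noncomputable def cjM (m : ℕ) [NeZero m] (M : Type*) [Field M] [NumberField M]
    [IsCyclotomicExtension {m} ℚ M] : M ≃ₐ[ℚ] M :=
  (IsCyclotomicExtension.Rat.galEquivZMod m M).symm (-1)

theorem mem_TM (m : ℕ) [NeZero m] (M : Type*) [Field M] [NumberField M]
    [IsCyclotomicExtension {m} ℚ M] (b : ℕ) (σ : M ≃ₐ[ℚ] M) : σ ∈ TM m M b ↔
      m < (IsCyclotomicExtension.Rat.galEquivZMod m M σ).val.val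
        + (b * (IsCyclotomicExtension.Rat.galEquivZMod m M σ).val.val) % m := by
  unfold TM
  rw [Finset.mem_filter]
  simp only [Finset.mem_univ, true_and]

end H9AB

end

section

/-!
# Project AB, module RelNorm

The relative norm form `nfR L K a b = N_{K/L}(a + b X) ∈ (𝓞 L)[X]` of an extension `K/L` of number
fields, its factorisation over a field containing all the `L`-conjugates of `K`, and the reduction of
the family of the `L`-embeddings of `K` over a given `w : 𝓞 L → Ω`.

* `nfL L K a b ∈ L[X]`, `a, b ∈ K`: the determinant of `M_a + X M_b`.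
* `nfL_map_prod`: it is `∏ (σ a + X σ b)` over a field with `[K:L]` homomorphisms `σ : K → E` over `L`.
* `nfR L K a b ∈ (𝓞 L)[X]`, `a, b ∈ 𝓞 K`, with image `nfL L K a b`.
* `exists_relFam`: for `w : 𝓞 L → Ω` (`Ω` algebraically closed of characteristic `p`) there are
  homomorphisms `ψ_i : 𝓞 K → Ω` extending `w`, `i < [K:L]`, with `w(nfR) = ∏ (ψ_i a + X ψ_i b)`.
-/

namespace H9AB

open Polynomial NumberField

section

variable (L : Type*) [Field L] (K : Type*) [Field K] [Algebra L K] [FiniteDimensional L K]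

/-- the norm form `N_{K/L}(a + b X)` -/
noncomputable def nfL (a b : K) : L[X] :=
  Matrix.det ((Algebra.leftMulMatrix (Module.Free.chooseBasis L K) a).map (C : L →+* L[X])
    + (X : L[X]) • (Algebra.leftMulMatrix (Module.Free.chooseBasis L K) b).map (C : L →+* L[X]))

theorem nfL_eval (a b : K) (t : L) :
    (nfL L K a b).eval t = Algebra.norm L (a + t • b) := by
  unfold nfL
  rw [← coe_evalRingHom, RingHom.map_det,
    Algebra.norm_eq_matrix_det (Module.Free.chooseBasis L K)]
  congr 1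
  rw [map_add (Algebra.leftMulMatrix (Module.Free.chooseBasis L K)),
    map_smul (Algebra.leftMulMatrix (Module.Free.chooseBasis L K))]
  ext i j
  simp only [RingHom.mapMatrix_apply, Matrix.map_apply, Matrix.add_apply, Matrix.smul_apply,
    coe_evalRingHom, eval_add, eval_C, smul_eq_mul, eval_mul, eval_X]

private theorem RelNorm_norm [CharZero L] (E : Type*) [Field E] [Algebra L E]
    (hE : Fintype.card (K →ₐ[L] E) = Module.finrank L K) (x : K) :
    algebraMap L E (Algebra.norm L x) = ∏ σ : K →ₐ[L] E, σ x := by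
  let A := AlgebraicClosure E
  have hinj : Function.Injective (algebraMap E A) := (algebraMap E A).injective
  apply hinj
  rw [map_prod]
  have h1 : algebraMap E A (algebraMap L E (Algebra.norm L x)) =
      algebraMap L A (Algebra.norm L x) := (IsScalarTower.algebraMap_apply L E A _).symm
  rw [h1, Algebra.norm_eq_prod_embeddings L A x]
  let F : (K →ₐ[L] E) → (K →ₐ[L] A) := fun σ => (IsScalarTower.toAlgHom L E A).comp σ
  have hF : Function.Injective F := by
    intro σ τ h
    ext y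
    apply hinj
    exact DFunLike.congr_fun h y
  have hF2 : Function.Bijective F := by
    rw [Fintype.bijective_iff_injective_and_card]
    refine ⟨hF, ?_⟩
    rw [hE, AlgHom.card L K A]
  exact (Fintype.prod_bijective F hF2 _ _ fun σ => rfl).symm

/-- the norm form splits over a field containing all conjugates of `K` -/
theorem nfL_map_prod [CharZero L] (E : Type*) [Field E] [Algebra L E]
    (hE : Fintype.card (K →ₐ[L] E) = Module.finrank L K) (a b : K) :
    (nfL L K a b).map (algebraMap L E) = ∏ σ : K →ₐ[L] E, (C (σ a) + X * C (σ b)) := by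
  apply eq_of_infinite_eval_eq
  refine Set.Infinite.mono ?_
    (Set.infinite_range_of_injective ((algebraMap L E).injective))
  rintro _ ⟨t, rfl⟩
  show ((nfL L K a b).map (algebraMap L E)).eval (algebraMap L E t) =
    eval (algebraMap L E t) (∏ σ : K →ₐ[L] E, (C (σ a) + X * C (σ b)))
  rw [eval_map_apply, nfL_eval, RelNorm_norm L K E hE, eval_prod]
  refine Finset.prod_congr rfl fun σ _ => ?_
  rw [map_add, map_smul]
  simp only [eval_add, eval_mul, eval_C, eval_X, Algebra.smul_def]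

end

section

variable (L : Type*) [Field L] [NumberField L] (K : Type*) [Field K] [NumberField K] [Algebra L K]

theorem exists_nfR (a b : 𝓞 K) :
    ∃ P : (𝓞 L)[X], P.map (algebraMap (𝓞 L) L) = nfL L K (a : K) (b : K) := by
  classical
  let A := AlgebraicClosure K
  have hA : Fintype.card (K →ₐ[L] A) = Module.finrank L K := AlgHom.card L K A
  have h1 := nfL_map_prod L K A hA (a : K) (b : K)
  have hint : ∀ n, IsIntegral ℤ ((nfL L K (a : K) (b : K)).coeff n) := by
    intro n
    rw [← isIntegral_algebraMap_iff (algebraMap L A).injective, ← coeff_map, h1]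
    have h2 : (∏ σ : K →ₐ[L] A, (C (σ (a : K)) + X * C (σ (b : K)))) =
        (∏ σ : K →ₐ[L] A, (C (⟨σ (a : K), (map_isIntegral_int (σ : K →+* A)
            (RingOfIntegers.isIntegral_coe a))⟩ : integralClosure ℤ A)
          + X * C (⟨σ (b : K), (map_isIntegral_int (σ : K →+* A)
            (RingOfIntegers.isIntegral_coe b))⟩ : integralClosure ℤ A))).map
          (algebraMap (integralClosure ℤ A) A) := by
      rw [Polynomial.map_prod]
      refine Finset.prod_congr rfl fun σ _ => ?_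
      rw [Polynomial.map_add, Polynomial.map_mul, map_C, map_C, map_X]
      rfl
    rw [h2, coeff_map]
    exact (integralClosure.isIntegral _ : IsIntegral ℤ _).algebraMap
  have h3 : nfL L K (a : K) (b : K) ∈ Polynomial.lifts (algebraMap (𝓞 L) L) := by
    rw [Polynomial.lifts_iff_coeff_lifts]
    intro n
    exact ⟨⟨_, hint n⟩, rfl⟩
  obtain ⟨P, hP⟩ := (Polynomial.mem_lifts _).1 h3
  exact ⟨P, hP⟩

/-- the relative norm form `N_{K/L}(a + b X)` with coefficients in the ring of integers of `L` -/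
noncomputable def nfR (a b : 𝓞 K) : (𝓞 L)[X] := Classical.choose (exists_nfR L K a b)

theorem nfR_map (a b : 𝓞 K) : (nfR L K a b).map (algebraMap (𝓞 L) L) = nfL L K (a : K) (b : K) :=
  Classical.choose_spec (exists_nfR L K a b)

/-- the norm form over the ring of integers of a number field with all conjugates -/
theorem nfR_map_prod (N : Type*) [Field N] [NumberField N] [Algebra L N]
    (hN : Fintype.card (K →ₐ[L] N) = Module.finrank L K) (a b : 𝓞 K) :
    (nfR L K a b).map (algebraMap (𝓞 L) (𝓞 N)) = ∏ σ : K →ₐ[L] N,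
      (C (RingOfIntegers.mapRingHom (σ : K →+* N) a)
        + X * C (RingOfIntegers.mapRingHom (σ : K →+* N) b)) := by
  apply map_injective (algebraMap (𝓞 N) N) RingOfIntegers.coe_injective
  rw [map_map]
  have h2 : (algebraMap (𝓞 N) N).comp (algebraMap (𝓞 L) (𝓞 N)) =
      (algebraMap L N).comp (algebraMap (𝓞 L) L) := by
    ext x
    rfl
  rw [h2, ← map_map, nfR_map, nfL_map_prod L K N hN, Polynomial.map_prod]
  refine Finset.prod_congr rfl fun σ _ => ?_
  rw [Polynomial.map_add, Polynomial.map_mul, map_C, map_C, map_X]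
  rfl

/-- the norm form as a product, evaluated -/
theorem nfR_eval_prod (N : Type*) [Field N] [NumberField N] [Algebra L N]
    (hN : Fintype.card (K →ₐ[L] N) = Module.finrank L K) (a b : 𝓞 K) (z : 𝓞 N) :
    (nfR L K a b).eval₂ (algebraMap (𝓞 L) (𝓞 N)) z = ∏ σ : K →ₐ[L] N,
      (RingOfIntegers.mapRingHom (σ : K →+* N) a
        + z * RingOfIntegers.mapRingHom (σ : K →+* N) b) := by
  rw [Polynomial.eval₂_eq_eval_map, nfR_map_prod L K N hN, Polynomial.eval_prod]
  refine Finset.prod_congr rfl fun σ _ => ?_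
  rw [Polynomial.eval_add, Polynomial.eval_mul, Polynomial.eval_C, Polynomial.eval_X,
    Polynomial.eval_C]

end

/-- extension of a homomorphism to an algebraically closed field -/
theorem exists_lift_hom (L : Type*) [Field L] [NumberField L] (N : Type*) [Field N] [NumberField N]
    [Algebra L N] (Ω : Type*) [Field Ω] [IsAlgClosed Ω] (w : 𝓞 L →+* Ω) :
    ∃ χ : 𝓞 N →+* Ω, χ.comp (algebraMap (𝓞 L) (𝓞 N)) = w := by
  have hp : (RingHom.ker w).IsPrime := RingHom.ker_isPrime w
  obtain ⟨P, hP, hPl⟩ := (RingHom.ker w).nonempty_primesOver (S := 𝓞 N)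
  let _ : Algebra (𝓞 L ⧸ RingHom.ker w) Ω := (RingHom.kerLift w).toAlgebra
  have hinj : Function.Injective (algebraMap (𝓞 L ⧸ RingHom.ker w) Ω) := RingHom.kerLift_injective w
  have h1 : Module.IsTorsionFree (𝓞 L ⧸ RingHom.ker w) Ω :=
    (Module.isTorsionFree_iff_algebraMap_injective).2 hinj
  have h2 : Module.IsTorsionFree (𝓞 L ⧸ RingHom.ker w) (𝓞 N ⧸ P) := inferInstance
  have h3 : Algebra.IsAlgebraic (𝓞 L ⧸ RingHom.ker w) (𝓞 N ⧸ P) := inferInstance
  let φ : (𝓞 N ⧸ P) →ₐ[𝓞 L ⧸ RingHom.ker w] Ω := IsAlgClosed.lift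
  refine ⟨(φ : (𝓞 N ⧸ P) →+* Ω).comp (Ideal.Quotient.mk P), ?_⟩
  ext x
  show φ (Ideal.Quotient.mk P (algebraMap (𝓞 L) (𝓞 N) x)) = w x
  have h4 : Ideal.Quotient.mk P (algebraMap (𝓞 L) (𝓞 N) x) =
      algebraMap (𝓞 L ⧸ RingHom.ker w) (𝓞 N ⧸ P) (Ideal.Quotient.mk _ x) := rfl
  rw [h4, φ.commutes]
  rfl

theorem exists_relFam (L : Type*) [Field L] [NumberField L] (K : Type*) [Field K] [NumberField K]
    [Algebra L K] (Ω : Type*) [Field Ω] [IsAlgClosed Ω] (w : 𝓞 L →+* Ω) :
    ∃ ψ : Fin (Module.finrank L K) → (𝓞 K →+* Ω),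
      (∀ i, (ψ i).comp (algebraMap (𝓞 L) (𝓞 K)) = w) ∧
      ∀ a b : 𝓞 K, (nfR L K a b).map w = ∏ i, (C (ψ i a) + X * C (ψ i b)) := by
  classical
  let N := IntermediateField.normalClosure L K (AlgebraicClosure K)
  have : CharZero N := charZero_of_injective_algebraMap (algebraMap L N).injective
  have hNf : NumberField N := by
    refine { to_charZero := inferInstance, to_finiteDimensional := ?_ }
    have : IsScalarTower ℚ L N := IsScalarTower.of_algebraMap_eq' (Subsingleton.elim _ _)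
    exact Module.Finite.trans L N
  have hcard : Fintype.card (K →ₐ[L] N) = Module.finrank L K :=
    (Fintype.card_congr (normalClosure.algHomEquiv L K (AlgebraicClosure K))).trans
      (AlgHom.card L K (AlgebraicClosure K))
  obtain ⟨χ, hχ⟩ := exists_lift_hom L N Ω w
  let e : Fin (Module.finrank L K) ≃ (K →ₐ[L] N) := (Fintype.equivFinOfCardEq hcard).symm
  refine ⟨fun i => χ.comp (RingOfIntegers.mapRingHom (e i : K →+* N)), fun i => ?_, fun a b => ?_⟩
  · rw [← hχ]
    ext x
    show χ (RingOfIntegers.mapRingHom (e i : K →+* N) (algebraMap (𝓞 L) (𝓞 K) x)) =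
      χ (algebraMap (𝓞 L) (𝓞 N) x)
    congr 1
    apply RingOfIntegers.coe_injective
    show (e i) (algebraMap L K (x : L)) = algebraMap L N (x : L)
    exact (e i).commutes _
  · rw [← hχ, ← map_map, nfR_map_prod L K N hcard, Polynomial.map_prod, ← Equiv.prod_comp e]
    refine Finset.prod_congr rfl fun i _ => ?_
    rw [Polynomial.map_add, Polynomial.map_mul, map_C, map_C, map_X]
    rfl

end H9AB

end

section

/-!
# Project AB, module ResCharM

The `m`-th power residue character of a finite field `k` with a homomorphism `π : 𝓞 M → k`,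
`M = ℚ(ζ_m)`, `m ≠ 0` in `k`, and its Jacobi sums `J(χ⁻¹, χ⁻ᵇ)`, `1 ≤ b ≤ m - 2`.
-/

namespace H9AB

open NumberField

private theorem ResCharM_prim (m : ℕ) [NeZero m] (M : Type*) [Field M] [NumberField M]
    {k : Type*} [Field k] (π : 𝓞 M →+* k)
    (hm : (m : k) ≠ 0) {ζ : 𝓞 M} (hζ : IsPrimitiveRoot ζ m) : IsPrimitiveRoot (π ζ) m := by
  haveI : NeZero (m : k) := ⟨hm⟩
  have h3 : (Polynomial.cyclotomic m (𝓞 M)).eval ζ = 0 :=
    hζ.isRoot_cyclotomic (Nat.pos_of_ne_zero (NeZero.ne m))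
  have h4 := Polynomial.cyclotomic.eval_apply ζ m π
  rw [h3, map_zero] at h4
  rw [← Polynomial.isRoot_cyclotomic_iff]
  exact h4

theorem exists_resCharM (m : ℕ) [NeZero m] (M : Type*) [Field M] [NumberField M]
    [IsCyclotomicExtension {m} ℚ M] {k : Type*} [Field k] [Fintype k] (π : 𝓞 M →+* k)
    (hmk : (m : k) ≠ 0) :
    m ∣ Fintype.card k - 1 ∧ ∃ χ : MulChar k (𝓞 M), orderOf χ = m ∧
      ∀ x : k, x ≠ 0 → π (χ x) = x ^ ((Fintype.card k - 1) / m) := by
  classical
  have hm0' : m ≠ 0 := NeZero.ne m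
  have hmpos : 0 < m := Nat.pos_of_ne_zero hm0'
  obtain ⟨ζ, hζ⟩ : ∃ ζ : 𝓞 M, IsPrimitiveRoot ζ m :=
    ⟨_, (IsCyclotomicExtension.zeta_spec m ℚ M).toInteger_isPrimitiveRoot⟩
  have hπ := ResCharM_prim m M π hmk hζ
  have hcard : Fintype.card kˣ = Fintype.card k - 1 := Fintype.card_units k
  have hu : IsUnit (π ζ) := hπ.isUnit hm0'
  have hdvd : m ∣ Fintype.card k - 1 := by
    rw [← hcard]
    obtain ⟨w, hw⟩ := hu
    have h1 : orderOf w = m := by
      rw [← orderOf_units, hw]
      exact hπ.eq_orderOf.symm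
    rw [← h1]
    exact orderOf_dvd_card
  refine ⟨hdvd, ?_⟩
  set n := (Fintype.card k - 1) / m with hn
  have hpm : m * n = Fintype.card k - 1 := Nat.mul_div_cancel' hdvd
  have hcard1 : 1 < Fintype.card k := Fintype.one_lt_card
  have hn0 : 0 < n := by
    rcases Nat.eq_zero_or_pos n with h | h
    · rw [h, mul_zero] at hpm
      omega
    · exact h
  obtain ⟨g, hg⟩ := IsCyclic.exists_generator (α := kˣ)
  have hgm : ((g : k) ^ n) ^ m = 1 := by
    rw [← pow_mul, mul_comm, hpm, ← hcard]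
    have h1 : g ^ Fintype.card kˣ = 1 := pow_card_eq_one
    rw [← Units.val_pow_eq_pow_val, h1, Units.val_one]
  obtain ⟨j, -, hj⟩ := hπ.eq_pow_of_pow_eq_one hgm
  obtain ⟨z, hz⟩ := hζ.isUnit hm0'
  have hzp : z ^ m = 1 := by
    ext
    rw [Units.val_pow_eq_pow_val, hz, hζ.pow_eq_one, Units.val_one]
  have hroot : z ^ j ∈ rootsOfUnity (Fintype.card kˣ) (𝓞 M) := by
    rw [mem_rootsOfUnity, hcard, ← hpm, ← pow_mul, show j * (m * n) = m * (j * n) by ring, pow_mul,
      hzp, one_pow]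
  let χ : MulChar k (𝓞 M) := MulChar.ofRootOfUnity hroot hg
  have hχg : χ (g : k) = ζ ^ j := by
    have h1 : χ (g : k) = ((z ^ j : (𝓞 M)ˣ) : 𝓞 M) := MulChar.ofRootOfUnity_spec hroot hg
    rw [h1, Units.val_pow_eq_pow_val, hz]
  have hχ : ∀ x : kˣ, ∃ n : ℕ, (x : k) = (g : k) ^ n ∧ χ (x : k) = ζ ^ (j * n) := by
    intro x
    obtain ⟨n, hn⟩ := (mem_powers_iff_mem_zpowers.2 (hg x))
    have hn' : g ^ n = x := hn
    refine ⟨n, by rw [← hn', Units.val_pow_eq_pow_val], ?_⟩
    rw [← hn', Units.val_pow_eq_pow_val, map_pow, hχg, ← pow_mul]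
  have hπχ : ∀ x : k, x ≠ 0 → π (χ x) = x ^ n := by
    intro x hx
    obtain ⟨r, hn1, hn2⟩ := hχ (Units.mk0 x hx)
    rw [Units.val_mk0] at hn1 hn2
    rw [hn2, hn1, map_pow, pow_mul, hj, ← pow_mul, ← pow_mul, mul_comm]
  refine ⟨χ, ?_, hπχ⟩
  have hχm : χ ^ m = 1 := by
    ext x
    obtain ⟨n, -, hn2⟩ := hχ x
    rw [MulChar.pow_apply_coe, hn2, MulChar.one_apply_coe, ← pow_mul, mul_comm, pow_mul,
      hζ.pow_eq_one, one_pow]
  apply Nat.dvd_antisymm
  · exact orderOf_dvd_of_pow_eq_one hχm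
  · set r := orderOf χ with hr
    have h1 : χ ^ r = 1 := pow_orderOf_eq_one χ
    have h2 : χ (g : k) ^ r = 1 := by
      rw [← MulChar.pow_apply_coe, h1, MulChar.one_apply_coe]
    have h3 := congrArg π h2
    rw [map_pow, hπχ g g.ne_zero, map_one, ← pow_mul] at h3
    have h4 : g ^ (n * r) = 1 := by
      ext
      rw [Units.val_pow_eq_pow_val, h3, Units.val_one]
    have h5 : orderOf g = Fintype.card kˣ := by
      rw [orderOf_eq_card_of_forall_mem_zpowers hg, Nat.card_eq_fintype_card]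
    have h6 := orderOf_dvd_of_pow_eq_one h4
    rw [h5, hcard, ← hpm, mul_comm m n] at h6
    exact Nat.dvd_of_mul_dvd_mul_left hn0 h6

private theorem ResCharM_smul (m : ℕ) [NeZero m] (M : Type*) [Field M] [NumberField M]
    [IsCyclotomicExtension {m} ℚ M] {k : Type*} [Field k] [Fintype k]
    (ψ : MulChar k (𝓞 M)) (hψ : ψ ^ m = 1) (σ : M ≃ₐ[ℚ] M) (hσ : (0 : ℕ) <
      (IsCyclotomicExtension.Rat.galEquivZMod m M σ).val.val) (x : k) :
    σ • ψ x = (ψ ^ (IsCyclotomicExtension.Rat.galEquivZMod m M σ).val.val) x := by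
  by_cases hx : x = 0
  · rw [hx, MulChar.map_zero, MulChar.map_zero, smul_zero]
  · have h1 : ψ x ^ m = 1 := by
      have h2 := congrArg (fun χ : MulChar k (𝓞 M) => χ ((Units.mk0 x hx : kˣ) : k)) hψ
      simp only [MulChar.pow_apply_coe, MulChar.one_apply_coe] at h2
      exact h2
    rw [IsCyclotomicExtension.Rat.galEquivZMod_smul_of_pow_eq m M σ h1]
    have h3 := MulChar.pow_apply_coe ψ (IsCyclotomicExtension.Rat.galEquivZMod m M σ).val.val
      (Units.mk0 x hx)
    exact h3.symm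

/-- for `m > 1` the exponent of an automorphism is positive -/
theorem val_posM (m : ℕ) [NeZero m] (hm : 1 < m) (u : (ZMod m)ˣ) : 0 < (u : ZMod m).val := by
  haveI : Fact (1 < m) := ⟨hm⟩
  refine Nat.pos_of_ne_zero fun h => ?_
  rw [ZMod.val_eq_zero] at h
  exact (Units.ne_zero _) h

theorem smul_jacM (m : ℕ) [NeZero m] (hm : 1 < m) (M : Type*) [Field M] [NumberField M]
    [IsCyclotomicExtension {m} ℚ M] {k : Type*} [Field k] [Fintype k]
    (χ : MulChar k (𝓞 M)) (hχ : χ ^ m = 1) (b : ℕ) (σ : M ≃ₐ[ℚ] M) :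
    σ • jacobiSum χ⁻¹ (χ⁻¹ ^ b)
      = jacobiSum (χ ^ (IsCyclotomicExtension.Rat.galEquivZMod m M σ).val.val)⁻¹
          ((χ ^ (IsCyclotomicExtension.Rat.galEquivZMod m M σ).val.val)⁻¹ ^ b) := by
  have h1 : (χ⁻¹) ^ m = 1 := by rw [inv_pow, hχ, inv_one]
  have h2 : (χ⁻¹ ^ b) ^ m = 1 := by rw [← pow_mul, mul_comm, pow_mul, h1, one_pow]
  have hpos : 0 < (IsCyclotomicExtension.Rat.galEquivZMod m M σ).val.val := val_posM m hm _
  set t := (IsCyclotomicExtension.Rat.galEquivZMod m M σ).val.val with ht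
  have e1 : (χ ^ t)⁻¹ = (χ⁻¹) ^ t := (inv_pow χ t).symm
  have e2 : ((χ ^ t)⁻¹) ^ b = (χ⁻¹ ^ b) ^ t := by
    rw [e1, ← pow_mul, ← pow_mul, mul_comm]
  rw [e2, e1]
  unfold jacobiSum
  rw [Finset.smul_sum]
  refine Finset.sum_congr rfl fun x _ => ?_
  rw [smul_mul', ResCharM_smul m M _ h1 σ hpos, ResCharM_smul m M _ h2 σ hpos]

private theorem ResCharM_cj (m : ℕ) [NeZero m] (M : Type*) [Field M] [NumberField M]
    [IsCyclotomicExtension {m} ℚ M] {k : Type*} [Field k] [Fintype k]
    (χ : MulChar k (𝓞 M)) (hχ : χ ^ m = 1) :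
    (χ ^ (IsCyclotomicExtension.Rat.galEquivZMod m M (cjM m M)).val.val)⁻¹ = χ := by
  have h1 : IsCyclotomicExtension.Rat.galEquivZMod m M (cjM m M) = -1 := by
    unfold cjM
    exact MulEquiv.apply_symm_apply _ _
  rw [h1]
  set t := ((-1 : (ZMod m)ˣ) : ZMod m).val with ht
  have h2 : ((t + 1 : ℕ) : ZMod m) = 0 := by
    push_cast
    rw [ht, ZMod.natCast_zmod_val]
    simp
  obtain ⟨s, hs⟩ := (ZMod.natCast_eq_zero_iff _ _).1 h2
  have h3 : χ ^ t * χ = 1 := by
    rw [← pow_succ, hs, pow_mul, hχ, one_pow]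
  exact inv_eq_of_mul_eq_one_right h3

theorem jac_mul_cjM (m : ℕ) [NeZero m] (M : Type*) [Field M] [NumberField M]
    [IsCyclotomicExtension {m} ℚ M] {k : Type*} [Field k] [Fintype k]
    (χ : MulChar k (𝓞 M)) (hχ : orderOf χ = m) (b : ℕ) (hb : 1 ≤ b) (hb' : b + 2 ≤ m) :
    jacobiSum χ⁻¹ (χ⁻¹ ^ b) * (cjM m M • jacobiSum χ⁻¹ (χ⁻¹ ^ b)) = (Fintype.card k : 𝓞 M) := by
  have hχm : χ ^ m = 1 := by rw [← hχ]; exact pow_orderOf_eq_one χ
  have hord : orderOf χ⁻¹ = m := by rw [orderOf_inv]; exact hχ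
  have hne : ∀ n, 1 ≤ n → n < m → χ⁻¹ ^ n ≠ 1 := by
    intro n hn1 hn2 h
    have h1 := orderOf_dvd_of_pow_eq_one h
    rw [hord] at h1
    have := Nat.le_of_dvd (by omega) h1
    omega
  rw [smul_jacM m (by omega) M χ hχm b, ResCharM_cj m M χ hχm]
  have hinj : Function.Injective (algebraMap (𝓞 M) M) := FaithfulSMul.algebraMap_injective _ _
  apply hinj
  rw [map_mul, ← jacobiSum_ringHomComp, ← jacobiSum_ringHomComp, map_natCast]
  have hring : ringChar M ≠ ringChar k := by
    rw [ringChar.eq_zero]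
    exact (CharP.ringChar_ne_zero_of_finite k).symm
  have e1 : χ.ringHomComp (algebraMap (𝓞 M) M) =
      ((χ⁻¹).ringHomComp (algebraMap (𝓞 M) M))⁻¹ := by
    rw [← MulChar.ringHomComp_inv, inv_inv]
  have e2 : (χ ^ b).ringHomComp (algebraMap (𝓞 M) M) =
      ((χ⁻¹ ^ b).ringHomComp (algebraMap (𝓞 M) M))⁻¹ := by
    rw [MulChar.ringHomComp_inv, inv_pow, inv_inv]
  rw [e1, e2]
  refine jacobiSum_mul_jacobiSum_inv hring ?_ ?_ ?_
  · have := hne 1 le_rfl (by omega)
    rw [pow_one] at this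
    exact (MulChar.ringHomComp_ne_one_iff hinj).2 this
  · exact (MulChar.ringHomComp_ne_one_iff hinj).2 (hne b hb (by omega))
  · rw [← MulChar.ringHomComp_mul, ← pow_succ']
    exact (MulChar.ringHomComp_ne_one_iff hinj).2 (hne (b + 1) (by omega) (by omega))

end H9AB

end

section

/-!
# Project FC9, module Desc

Descent of `p`-th powers of ideals in an extension of degree prime to `p`.

PROOF. Put `n = [N : M]`.  If `I = ⊥` take `I' = ⊥`.  Otherwise take relative norms
(`Ideal.relNorm`, Mathlib.RingTheory.Ideal.Norm.RelNorm): the norm of `I 𝓞_N` is `I^n`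
(`Ideal.relNorm_algebraMap`), and the norm of `J^p` is `(N J)^p`.  So `I^n = 𝔠^p` with `n` prime to `p`;
comparing exponents of prime ideals (`n v(I) = p v(𝔠)`) every exponent of `I` is divisible by `p`, so
`I` is a `p`-th power.
-/

namespace H9FC

open NumberField

private theorem Desc_aux {R : Type*} [CommRing R] [IsDedekindDomain R] {n p : ℕ} (hp : 1 < p)
    (hnp : Nat.Coprime n p) {I C : Ideal R} (h : I ^ n = C ^ p) : ∃ I' : Ideal R, I' ^ p = I := by
  rcases eq_or_ne I 0 with hI | hI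
  · exact ⟨0, by rw [hI, zero_pow (by omega)]⟩
  obtain ⟨a, -, ha⟩ := Nat.exists_mul_mod_eq_one_of_coprime hnp hp
  obtain ⟨b, hna⟩ : ∃ b, n * a = p * b + 1 := ⟨n * a / p, by
    have := Nat.div_add_mod (n * a) p
    omega⟩
  have h1 : (C ^ a) ^ p = (I ^ b) ^ p * I := by
    rw [← pow_mul, mul_comm a p, pow_mul, ← h, ← pow_mul, hna, pow_succ, mul_comm p, pow_mul]
  have hdvd : I ^ b ∣ C ^ a :=
    (UniqueFactorizationMonoid.pow_dvd_pow_iff_dvd (by omega : p ≠ 0)).1 ⟨I, h1⟩
  obtain ⟨J', hJ'⟩ := hdvd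
  refine ⟨J', ?_⟩
  rw [hJ', mul_pow] at h1
  exact mul_left_cancel₀ (pow_ne_zero _ (pow_ne_zero _ hI)) h1

theorem descend (M : Type*) [Field M] [NumberField M] (N : Type*) [Field N] [NumberField N]
    [Algebra M N] (p : ℕ) [Fact p.Prime] (h : ¬ p ∣ Module.finrank M N) (I : Ideal (𝓞 M))
    (J : Ideal (𝓞 N)) (hJ : J ^ p = I.map (algebraMap (𝓞 M) (𝓞 N))) :
    ∃ I' : Ideal (𝓞 M), I' ^ p = I := by
  have hp : p.Prime := Fact.out
  have h1 := congrArg (Ideal.relNorm (𝓞 M)) hJ
  rw [Ideal.relNorm_algebraMap, map_pow] at h1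
  have h2 : Module.finrank (𝓞 M) (𝓞 N) = Module.finrank M N :=
    (IsFractionRing.finrank_eq (𝓞 M) M (𝓞 N) N).symm
  rw [h2] at h1
  exact Desc_aux hp.one_lt ((Nat.Prime.coprime_iff_not_dvd hp).2 h).symm h1.symm

end H9FC

end

section

/-!
# Project FC9, module DigSum

Digit sums of the multiples of `(l^f - 1)/p`.

PROOF. Let `Q = l^f`, `0 ≤ a < Q - 1` with base `l` digits `a_0, ..., a_{f-1}`. Modulo `Q - 1`
multiplication by `l` permutes the digits cyclically: `l^i a mod (Q-1) = ∑_j a_j l^((i+j) mod f)`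
(this number is `< Q - 1`, since the digits are not all `l-1`, and it is congruent to `l^i a`).
Summing over `i < f`: `∑_i (l^i a mod (Q-1)) = (∑ a_j)(1 + l + ... + l^(f-1))`, and multiplying by
`l - 1`: `(l-1) ∑_i (l^i a mod (Q-1)) = s(a) (Q-1)`.
(Alternative proof: `s(a) = a - (l-1) ∑_{i≥1} ⌊a/l^i⌋` (Mathlib `Nat.sub_one_mul_sum_div_pow_eq_sub_sum_digits`)
and `l^i a mod (Q-1) = l^i a - (Q-1) ⌊a / l^(f-i)⌋` for `0 ≤ i < f`, since
`l^i a = l^f ⌊a/l^(f-i)⌋ + l^i (a mod l^(f-i))`.)
For `a = m t`, `Q - 1 = p m`, `0 < t < p` we have `l^i m t mod (p m) = m (l^i t mod p)`.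
-/

namespace H9FC

private theorem DigSum_digits (l f a : ℕ) (hl : 2 ≤ l) (ha : a < l ^ f) (hf : 0 < f) :
    (Nat.digits l a).sum + (l - 1) * ∑ i ∈ Finset.range f, a / l ^ (i + 1) = a := by
  have h1 := Nat.sub_one_mul_sum_log_div_pow_eq_sub_sum_digits (p := l) a
  have h2 := Nat.digit_sum_le l a
  have h3 : ∑ i ∈ Finset.range (Nat.log l a).succ, a / l ^ i.succ =
      ∑ i ∈ Finset.range f, a / l ^ (i + 1) := by
    refine Finset.sum_subset ?_ fun i _ hi => ?_
    · intro i hi
      rw [Finset.mem_range] at hi ⊢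
      have : Nat.log l a < f := by
        rcases Nat.eq_zero_or_pos a with h0 | h0
        · rw [h0, Nat.log_zero_right]
          exact hf
        · exact Nat.log_lt_of_lt_pow h0.ne' ha
      omega
    · rw [Finset.mem_range, not_lt] at hi
      refine Nat.div_eq_of_lt ?_
      calc a < l ^ (Nat.log l a).succ := Nat.lt_pow_succ_log_self (by omega) a
        _ ≤ l ^ (i + 1) := Nat.pow_le_pow_right (by omega) (by omega)
  rw [h3] at h1
  omega

private theorem DigSum_mod (l f a i : ℕ) (hl : 2 ≤ l) (ha : a < l ^ f - 1) (hi : i < f) :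
    (l ^ i * a) % (l ^ f - 1) + (l ^ f - 1) * (a / l ^ (f - i)) = l ^ i * a := by
  set b := l ^ (f - i) with hb
  set c := l ^ i with hc
  have hbc : c * b = l ^ f := by rw [hc, hb, ← pow_add]; congr 1; omega
  have hb0 : 0 < b := by positivity
  have hc0 : 0 < c := by positivity
  have hQ : 1 ≤ l ^ f := Nat.one_le_pow _ _ (by omega)
  have h1 := Nat.div_add_mod a b
  have h2 := Nat.mod_lt a hb0
  set q := a / b with hq
  set r := a % b with hr
  have hqc : q < c := by
    rw [hq, Nat.div_lt_iff_lt_mul hb0, hbc]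
    omega
  obtain ⟨Q', hQ'⟩ : ∃ Q', l ^ f = Q' + 1 := ⟨l ^ f - 1, by omega⟩
  rw [hQ'] at hbc ha ⊢
  simp only [Nat.add_sub_cancel] at ha ⊢
  have h3 : c * a = Q' * q + (q + c * r) := by
    calc c * a = c * (b * q + r) := by rw [h1]
      _ = (c * b) * q + c * r := by ring
      _ = Q' * q + (q + c * r) := by rw [hbc]; ring
  have h4 : q + c * r < Q' := by
    by_contra hcon
    push Not at hcon
    have h5 : q + 1 ≤ c := hqc
    have h6 : r + 1 ≤ b := h2
    have h7 : c * (r + 1) ≤ c * b := Nat.mul_le_mul_left c h6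
    have h8 : c * (r + 1) = c * b := by
      rw [mul_add, mul_one] at h7 ⊢
      omega
    have h9 : r + 1 = b := Nat.eq_of_mul_eq_mul_left hc0 h8
    have h10 : q + 1 = c := by
      rw [mul_add, mul_one] at h8
      omega
    have h11 : a = Q' := by
      have : b * c = Q' + 1 := by rw [mul_comm]; exact hbc
      rw [← h1]
      have h12 : b * q + b = b * c := by rw [← h10]; ring
      omega
    omega
  rw [h3, Nat.mul_add_mod, Nat.mod_eq_of_lt h4]
  ring

theorem digsum (l f p m t : ℕ) [Fact l.Prime] (hm : l ^ f - 1 = p * m) (hm0 : 0 < m)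
    (ht : 0 < t) (htp : t < p) :
    p * (Nat.digits l (m * t)).sum = (l - 1) * ∑ i ∈ Finset.range f, (l ^ i * t) % p := by
  have hl : 2 ≤ l := (Fact.out : l.Prime).two_le
  have hf : 0 < f := by
    rcases Nat.eq_zero_or_pos f with h | h
    · rw [h, pow_zero] at hm
      have : 0 < p * m := Nat.mul_pos (by omega) hm0
      omega
    · exact h
  set a := m * t with ha
  have ha1 : a < l ^ f - 1 := by
    rw [hm, ha, mul_comm p m]
    exact Nat.mul_lt_mul_of_pos_left htp hm0
  have h1 := DigSum_digits l f a hl (by omega) hf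
  have h2 : ∑ i ∈ Finset.range f, ((l ^ i * a) % (l ^ f - 1) +
      (l ^ f - 1) * (a / l ^ (f - i))) = ∑ i ∈ Finset.range f, l ^ i * a :=
    Finset.sum_congr rfl fun i hi => DigSum_mod l f a i hl ha1 (Finset.mem_range.1 hi)
  rw [Finset.sum_add_distrib, ← Finset.mul_sum, ← Finset.sum_mul] at h2
  have h3 : ∑ i ∈ Finset.range f, a / l ^ (f - i) = ∑ i ∈ Finset.range f, a / l ^ (i + 1) := by
    rw [← Finset.sum_range_reflect]
    refine Finset.sum_congr rfl fun i hi => ?_
    have := Finset.mem_range.1 hi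
    congr 2
    omega
  rw [h3] at h2
  have h4 : ∑ i ∈ Finset.range f, (l ^ i * a) % (l ^ f - 1) =
      m * ∑ i ∈ Finset.range f, (l ^ i * t) % p := by
    rw [Finset.mul_sum]
    refine Finset.sum_congr rfl fun i _ => ?_
    rw [hm, ha, mul_comm p m, show l ^ i * (m * t) = m * (l ^ i * t) by ring,
      Nat.mul_mod_mul_left]
  have h5 : (l - 1) * ∑ i ∈ Finset.range f, l ^ i = l ^ f - 1 := by
    rw [mul_comm]
    exact Nat.geomSum_eq hl f ▸ Nat.div_mul_cancel (by
      simpa using Nat.sub_dvd_pow_sub_pow l 1 f)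
  set s := (Nat.digits l a).sum
  set S := ∑ i ∈ Finset.range f, a / l ^ (i + 1)
  set T := ∑ i ∈ Finset.range f, (l ^ i * t) % p
  set Gs := ∑ i ∈ Finset.range f, l ^ i
  rw [h4, hm] at h2
  rw [hm] at h5
  have h6 : m * ((l - 1) * T) = m * (p * s) := by
    have e1 : (l - 1) * (m * T + p * m * S) = (l - 1) * (Gs * a) := by rw [h2]
    have e2 : (l - 1) * (Gs * a) = p * m * a := by rw [← h5]; ring
    rw [e2, ← h1] at e1
    have e3 : m * ((l - 1) * T) + p * m * ((l - 1) * S) = m * (p * s) + p * m * ((l - 1) * S) := by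
      calc _ = (l - 1) * (m * T + p * m * S) := by ring
        _ = _ := by rw [e1]; ring
    exact Nat.add_right_cancel e3
  exact (Nat.eq_of_mul_eq_mul_left hm0 h6).symm

end H9FC

end

section

/-!
PROJECT PK (MP_967f73_nt): every even N >= 4 is a prime plus a number with at most 17 prime factors.
Common definitions.
-/

set_option autoImplicit false

namespace Pool.Agent.H91.PK

open Finset

/-- The weight `t (1-t)^2` on `[0,1]`. -/
noncomputable def om (t : ℝ) : ℝ := if 0 ≤ t ∧ t ≤ 1 then t * (1 - t) ^ 2 else 0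

/-- The weight of `n` (relative to `N`). -/
noncomputable def W (N k n : ℕ) : ℝ := om ((n : ℝ) / N) * (Real.log n / Real.log N) ^ k

/-- The primitive characters modulo `r`. -/
noncomputable def Pch (r : ℕ) : Finset (DirichletCharacter ℂ r) :=
  open Classical in univ.filter (fun χ => χ.IsPrimitive)

/-- The non-principal characters modulo `d`. -/
noncomputable def Nch (d : ℕ) : Finset (DirichletCharacter ℂ d) :=
  open Classical in univ.filter (fun χ => χ ≠ 1)

theorem mem_Nch {d : ℕ} {χ : DirichletCharacter ℂ d} : χ ∈ Nch d ↔ χ ≠ 1 := by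
  unfold Nch; simp

/-- `e(t) = exp(2 π i t)` -/
noncomputable def ee (t : ℝ) : ℂ := Complex.exp (2 * Real.pi * t * Complex.I)

/-- Fourier kernel of the weight. -/
noncomputable def KK (β t : ℝ) : ℂ :=
  2 / (((β : ℂ) + 1 + t * Complex.I) * ((β : ℂ) + 2 + t * Complex.I) * ((β : ℂ) + 3 + t * Complex.I))

end Pool.Agent.H91.PK

end

section

/-!
Project AB: the values `G(y) = ∑_{t ≡ f y (p)} ⌊c t / (f p)⌋ ψ(t)` and their jumps.
-/

namespace H99AB

open Finset

lemma sum_shift {M : Type*} [AddCommMonoid M] (m f : ℕ) (hf : f ≤ m) (A : ℕ → M) :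
    ∑ t ∈ range m, A t = ∑ s ∈ range m, A ((s + f) % m) := by
  rcases Nat.eq_zero_or_pos m with rfl | hm
  · simp
  have key : ∀ s, s < m → (s + f) % m = if s + f < m then s + f else s + f - m := by
    intro s hs
    split_ifs with h
    · exact Nat.mod_eq_of_lt h
    · rw [Nat.mod_eq_sub_mod (by omega)]
      by_cases h2 : s + f - m < m
      · exact Nat.mod_eq_of_lt h2
      · omega
  have key2 : ∀ s, s < m → (s + (m - f)) % m = if f ≤ s then s - f else s + (m - f) := by
    intro s hs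
    split_ifs with h
    · have h1 : s + (m - f) = (s - f) + m := by omega
      rw [h1, Nat.add_mod_right]
      exact Nat.mod_eq_of_lt (by omega)
    · exact Nat.mod_eq_of_lt (by omega)
  symm
  refine Finset.sum_nbij' (fun s => (s + f) % m) (fun t => (t + (m - f)) % m) ?_ ?_ ?_ ?_ ?_
  · intro s _
    exact mem_range.2 (Nat.mod_lt _ hm)
  · intro s _
    exact mem_range.2 (Nat.mod_lt _ hm)
  · intro s hs
    have hs' := mem_range.1 hs
    change ((s + f) % m + (m - f)) % m = s
    rw [key s hs']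
    split_ifs with h
    · rw [key2 _ h, if_pos (by omega)]
      omega
    · rw [key2 _ (by omega)]
      by_cases h3 : f ≤ s + f - m
      · rw [if_pos h3]; omega
      · rw [if_neg h3]; omega
  · intro s hs
    have hs' := mem_range.1 hs
    change ((s + (m - f)) % m + f) % m = s
    rw [key2 s hs']
    split_ifs with h
    · rw [key _ (by omega), if_pos (by omega)]
      omega
    · by_cases h4 : s + (m - f) < m
      · rw [key _ h4, if_neg (by omega)]
        omega
      · have : f = 0 := by omega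
        omega
  · intro s _
    rfl

lemma card_mul_le (m c x : ℕ) (hm : 0 < m) :
    ∑ j ∈ Icc 1 c, (if j * m ≤ x then (1 : ℤ) else 0) = min c (x / m) := by
  have h1 : ∑ j ∈ Icc 1 c, (if j * m ≤ x then (1 : ℤ) else 0) =
      (((Icc 1 c).filter fun j => j * m ≤ x).card : ℤ) := by
    rw [card_filter]
    push_cast
    rfl
  have h2 : (Icc 1 c).filter (fun j => j * m ≤ x) = Icc 1 (min c (x / m)) := by
    ext j
    rw [mem_filter, mem_Icc, mem_Icc, le_min_iff, Nat.le_div_iff_mul_le hm]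
    tauto
  rw [h1, h2, Nat.card_Icc]
  push_cast
  simp

/-- the jumps of `t ↦ ⌊c t / m⌋` under `t ↦ t + f mod m` -/
lemma floor_step (m c f s : ℕ) (hc : 0 < c) (hs : s < m) (hf : c * f ≤ m) :
    ((c * ((s + f) % m) / m : ℕ) : ℤ) - ((c * s / m : ℕ) : ℤ) =
      ∑ j ∈ Icc 1 c, (if c * s < j * m ∧ j * m ≤ c * s + c * f then
        (1 - (if j = c then (c : ℤ) else 0)) else 0) := by
  have hm : 0 < m := by omega
  have hfm : f ≤ m := le_trans (Nat.le_mul_of_pos_left f hc) hf
  have h1 : ∀ j ∈ Icc 1 c, (if c * s < j * m ∧ j * m ≤ c * s + c * f then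
        (1 - (if j = c then (c : ℤ) else 0)) else 0) =
      ((if j * m ≤ c * s + c * f then (1 : ℤ) else 0) - (if j * m ≤ c * s then (1 : ℤ) else 0)) -
        (if j = c then (if m ≤ s + f then (c : ℤ) else 0) else 0) := by
    intro j _
    by_cases hj : j = c
    · subst hj
      have e1 : (j * s < j * m) ↔ s < m := Nat.mul_lt_mul_left hc
      have e2 : (j * m ≤ j * s + j * f) ↔ m ≤ s + f := by
        rw [← Nat.mul_add]
        exact Nat.mul_le_mul_left_iff hc
      have e3 : (j * m ≤ j * s) ↔ m ≤ s := Nat.mul_le_mul_left_iff hc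
      simp only [e1, e2, e3, hs, true_and, if_true]
      rw [if_neg (by omega : ¬ m ≤ s)]
      split_ifs <;> ring
    · simp only [if_neg hj]
      by_cases h2 : j * m ≤ c * s
      · have h3 : j * m ≤ c * s + c * f := by omega
        rw [if_neg (by omega), if_pos h3, if_pos h2]
        ring
      · rw [if_neg h2]
        by_cases h3 : j * m ≤ c * s + c * f
        · rw [if_pos ⟨by omega, h3⟩, if_pos h3]
          ring
        · rw [if_neg (by tauto), if_neg h3]
          ring
  rw [sum_congr rfl h1, sum_sub_distrib, sum_sub_distrib, card_mul_le m c _ hm,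
    card_mul_le m c _ hm, sum_ite_eq' (Icc 1 c) c]
  rw [if_pos (mem_Icc.2 ⟨hc, le_refl c⟩)]
  have h3 : c * s / m < c := by
    rw [Nat.div_lt_iff_lt_mul hm]
    exact (Nat.mul_lt_mul_left hc).2 hs
  have h4 : min c (c * s / m) = c * s / m := min_eq_right h3.le
  by_cases h5 : m ≤ s + f
  · rw [if_pos h5]
    have h6 : (s + f) % m = s + f - m := by
      rw [Nat.mod_eq_sub_mod h5]
      by_cases h7 : s + f - m < m
      · exact Nat.mod_eq_of_lt h7
      · omega
    have h7 : c * ((s + f) % m) / m = 0 := by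
      rw [h6]
      apply Nat.div_eq_of_lt
      calc c * (s + f - m) < c * f := (Nat.mul_lt_mul_left hc).2 (by omega)
        _ ≤ m := hf
    have h8 : c ≤ (c * s + c * f) / m := by
      rw [Nat.le_div_iff_mul_le hm, ← Nat.mul_add]
      exact Nat.mul_le_mul_left c h5
    rw [h7]
    have h9 : min c ((c * s + c * f) / m) = c := min_eq_left h8
    push_cast at *
    have h10 : (min (c : ℤ) ((c * s + c * f) / m)) = c := by exact_mod_cast h9
    have h11 : (min (c : ℤ) (c * s / m)) = (c * s / m : ℤ) := by exact_mod_cast h4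
    rw [h10, h11]
    ring
  · rw [if_neg h5]
    have h6 : (s + f) % m = s + f := Nat.mod_eq_of_lt (by omega)
    have h7 : (c * s + c * f) / m < c := by
      rw [Nat.div_lt_iff_lt_mul hm, ← Nat.mul_add]
      exact (Nat.mul_lt_mul_left hc).2 (by omega)
    have h8 : min c ((c * s + c * f) / m) = (c * s + c * f) / m := min_eq_right h7.le
    rw [h6]
    have h10 : (min (c : ℤ) ((c * s + c * f) / m)) = ((c * s + c * f) / m : ℤ) := by
      exact_mod_cast h8
    have h11 : (min (c : ℤ) (c * s / m)) = (c * s / m : ℤ) := by exact_mod_cast h4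
    push_cast at *
    rw [h10, h11]
    have h12 : (c : ℤ) * (s + f) = c * s + c * f := by ring
    rw [h12]
    ring

variable {Ω : Type*} [Field Ω]

/-- `G(y) = ∑_{t ≡ f y (p)} ⌊c t / (f p)⌋ ψ(t)` -/
noncomputable def GG (f p c : ℕ) (X : MulChar (ZMod f) Ω) (y : ZMod p) : Ω :=
  ∑ t ∈ range (f * p), if ((t : ℕ) : ZMod p) = (f : ZMod p) * y then
    ((c * t / (f * p) : ℕ) : Ω) * X ((t : ℕ) : ZMod f) else 0

/-- the weights `ψ(h) (1 - c [c ∣ h])` -/
def wt {R : Type*} [CommRing R] (f c : ℕ) (X : MulChar (ZMod f) R) (h : ℕ) : R :=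
  X ((h : ℕ) : ZMod f) * (1 - if c ∣ h then (c : R) else 0)

lemma sum_pairs (f p c : ℕ) [hp : Fact p.Prime] (hc : c.Prime) (hcf : ¬ c ∣ f)
    (hcp : c * f < p) (hf : 0 < f) (B : ℕ → Ω) :
    ∑ q ∈ (range (f * p) ×ˢ Icc 1 c).filter (fun q => c * q.1 < q.2 * (f * p) ∧
      q.2 * (f * p) ≤ c * q.1 + c * f), B (q.2 * (f * p) - c * q.1) =
    ∑ h ∈ Icc 1 (c * f), B h := by
  have hcpp : c ≠ p := by
    intro h
    have : c ≤ c * f := Nat.le_mul_of_pos_right c hf
    omega
  have hcop : Nat.Coprime c (f * p) := by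
    refine Nat.Coprime.mul_right ((Nat.Prime.coprime_iff_not_dvd hc).2 hcf) ?_
    exact (Nat.coprime_primes hc hp.out).2 hcpp
  set m := f * p with hm
  have hm0 : 0 < m := Nat.mul_pos hf hp.out.pos
  have hcfm : c * f ≤ m := by
    have : p ≤ m := Nat.le_mul_of_pos_left p hf
    omega
  refine Finset.sum_bij (fun q _ => q.2 * m - c * q.1) ?_ ?_ ?_ ?_
  · rintro ⟨s, j⟩ hq
    simp only [mem_filter, mem_product, mem_range, mem_Icc] at hq ⊢
    omega
  · rintro ⟨s, j⟩ hq ⟨s', j'⟩ hq' heq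
    simp only [mem_filter, mem_product, mem_range, mem_Icc] at hq hq' heq
    have h1 : (j : ℤ) * m - c * s = j' * m - c * s' := by
      have h2 : ((j * m - c * s : ℕ) : ℤ) = ((j' * m - c * s' : ℕ) : ℤ) := by exact_mod_cast heq
      rw [Nat.cast_sub hq.2.1.le, Nat.cast_sub hq'.2.1.le] at h2
      push_cast at h2
      exact h2
    have h2 : (c : ℤ) ∣ ((j : ℤ) - j') * m := ⟨(s : ℤ) - s', by linear_combination h1⟩
    have h3 : (c : ℤ) ∣ ((j : ℤ) - j') := by
      refine IsCoprime.dvd_of_dvd_mul_right ?_ h2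
      exact Nat.isCoprime_iff_coprime.2 hcop
    have h4 : j = j' := by
      obtain ⟨a, ha⟩ := h3
      have hj1 := hq.1.2
      have hj2 := hq'.1.2
      have h5 : a = 0 := by
        by_contra hne
        rcases lt_or_gt_of_ne hne with h6 | h6
        · have : (c : ℤ) * a ≤ c * (-1) := mul_le_mul_of_nonneg_left (by omega) (by omega)
          omega
        · have : (c : ℤ) * 1 ≤ c * a := mul_le_mul_of_nonneg_left (by omega) (by omega)
          omega
      rw [h5] at ha
      omega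
    subst h4
    have h5 : (c : ℤ) * s = c * s' := by linarith
    have h6 : s = s' := by
      have h7 : (c : ℤ) ≠ 0 := by exact_mod_cast hc.ne_zero
      exact_mod_cast mul_left_cancel₀ h7 h5
    rw [h6]
  · intro h hh
    rw [mem_Icc] at hh
    -- find j in [1,c] with j m ≡ h mod c
    have hcpos : 0 < c := hc.pos
    obtain ⟨u, hu⟩ : ∃ u : ℕ, (m * u) % c = 1 % c := by
      obtain ⟨u, -, hu⟩ := Nat.exists_mul_mod_eq_one_of_coprime hcop.symm hc.one_lt
      exact ⟨u, by rw [hu, Nat.mod_eq_of_lt hc.one_lt]⟩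
    set j0 := (u * h) % c with hj0
    have hj0m : (j0 * m) % c = h % c := by
      have h1 : (j0 * m) % c = ((u * h) * m) % c := by
        rw [hj0]
        exact Nat.ModEq.mul_right m (Nat.mod_modEq _ _)
      rw [h1]
      have h2 : u * h * m = (m * u) * h := by ring
      rw [h2]
      have h3 : (m * u * h) % c = (1 * h) % c := Nat.ModEq.mul_right h hu
      rw [h3, one_mul]
    set j := if j0 = 0 then c else j0 with hj
    have hjm : (j * m) % c = h % c := by
      rw [hj]
      split_ifs with h1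
      · rw [← hj0m, h1]
        simp
      · exact hj0m
    have hj1 : 1 ≤ j ∧ j ≤ c := by
      rw [hj]
      have := Nat.mod_lt (u * h) hcpos
      split_ifs with h1
      · omega
      · omega
    have hjm2 : h ≤ j * m := by
      have : 1 * m ≤ j * m := Nat.mul_le_mul_right m hj1.1
      omega
    have hdvd : c ∣ j * m - h := (Nat.modEq_iff_dvd' hjm2).1 (Eq.symm hjm)
    obtain ⟨s, hs⟩ := hdvd
    refine ⟨(s, j), ?_, ?_⟩
    · simp only [mem_filter, mem_product, mem_range, mem_Icc]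
      have h5 : c * s < c * m := by
        have : j * m ≤ c * m := Nat.mul_le_mul_right m hj1.2
        omega
      have h6 : s < m := Nat.lt_of_mul_lt_mul_left h5
      refine ⟨⟨h6, hj1⟩, ?_, ?_⟩ <;> omega
    · change j * m - c * s = h
      omega
  · rintro ⟨s, j⟩ _
    rfl

/-- **the jumps of `G`** -/
theorem GG_step (f p c : ℕ) [hp : Fact p.Prime] (hc : c.Prime) (hcf : ¬ c ∣ f)
    (hcp : c * f < p) (hf : 2 ≤ f) (X : MulChar (ZMod f) Ω) (y : ZMod p) :
    (X (-1) * X ((c : ℕ) : ZMod f)) * (GG f p c X (y + 1) - GG f p c X y) =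
      ∑ h ∈ Ioo 0 (c * f), (if ((h : ℕ) : ZMod p) = -((c * f : ℕ) : ZMod p) * y then
        wt f c X h else 0) := by
  classical
  have hcpp : c ≠ p := by
    intro h
    have : c ≤ c * f := Nat.le_mul_of_pos_right c (by omega)
    omega
  have hcp0 : ((c : ℕ) : ZMod p) ≠ 0 := by
    intro h
    rw [ZMod.natCast_eq_zero_iff] at h
    exact hcpp ((Nat.prime_dvd_prime_iff_eq hp.out hc).1 h).symm
  set m := f * p with hm
  have hm0 : 0 < m := Nat.mul_pos (by omega) hp.out.pos
  have hpm : p ≤ m := Nat.le_mul_of_pos_left p (by omega)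
  have hcfm : c * f ≤ m := by omega
  have hfm : f ≤ m := Nat.le_mul_of_pos_right f hp.out.pos
  have hmp : ((m : ℕ) : ZMod p) = 0 := by rw [hm]; push_cast; simp
  have hmf : ((m : ℕ) : ZMod f) = 0 := by rw [hm]; push_cast; simp
  have hcast_p : ∀ s : ℕ, (((s + f) % m : ℕ) : ZMod p) = (s : ZMod p) + f := by
    intro s
    have h1 : (((s + f) % m : ℕ) : ZMod p) = ((s + f : ℕ) : ZMod p) := by
      rw [ZMod.natCast_eq_natCast_iff]
      exact Nat.ModEq.of_dvd (dvd_mul_left p f) (Nat.mod_modEq _ _)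
    rw [h1]
    push_cast
    rfl
  have hcast_f : ∀ s : ℕ, (((s + f) % m : ℕ) : ZMod f) = (s : ZMod f) := by
    intro s
    have h1 : (((s + f) % m : ℕ) : ZMod f) = ((s + f : ℕ) : ZMod f) := by
      rw [ZMod.natCast_eq_natCast_iff]
      exact Nat.ModEq.of_dvd (dvd_mul_right f p) (Nat.mod_modEq _ _)
    rw [h1]
    push_cast
    simp
  -- the difference as a sum over pairs
  have h1 : GG f p c X (y + 1) - GG f p c X y =
      ∑ s ∈ range m, ∑ j ∈ Icc 1 c, (if c * s < j * m ∧ j * m ≤ c * s + c * f then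
        (if ((s : ℕ) : ZMod p) = (f : ZMod p) * y then
          X ((s : ℕ) : ZMod f) * (1 - (if j = c then (c : Ω) else 0)) else 0) else 0) := by
    unfold GG
    rw [← hm, sum_shift m f hfm (fun t => if ((t : ℕ) : ZMod p) = (f : ZMod p) * (y + 1) then
      ((c * t / m : ℕ) : Ω) * X ((t : ℕ) : ZMod f) else 0), ← sum_sub_distrib]
    refine sum_congr rfl fun s hs => ?_
    rw [mem_range] at hs
    have e1 : ((((s + f) % m : ℕ)) : ZMod p) = (f : ZMod p) * (y + 1) ↔
        ((s : ℕ) : ZMod p) = (f : ZMod p) * y := by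
      rw [hcast_p, mul_add, mul_one]
      constructor
      · intro h
        exact add_right_cancel h
      · intro h
        rw [h]
    by_cases h2 : ((s : ℕ) : ZMod p) = (f : ZMod p) * y
    · rw [if_pos (e1.2 h2), if_pos h2, hcast_f]
      have h3 := floor_step m c f s hc.pos hs hcfm
      have h4 : ((c * ((s + f) % m) / m : ℕ) : Ω) - ((c * s / m : ℕ) : Ω) =
          ∑ j ∈ Icc 1 c, (if c * s < j * m ∧ j * m ≤ c * s + c * f then
            (1 - (if j = c then (c : Ω) else 0)) else 0) := by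
        have h5 := congrArg (Int.cast : ℤ → Ω) h3
        simp only [Int.cast_sub, Int.cast_natCast, Int.cast_sum, Int.cast_ite, Int.cast_one,
          Int.cast_zero] at h5
        exact h5
      rw [← sub_mul, h4, sum_mul]
      refine sum_congr rfl fun j _ => ?_
      simp only [if_pos h2]
      split_ifs <;> ring
    · rw [if_neg (fun h => h2 (e1.1 h)), if_neg h2, sub_zero]
      symm
      refine sum_eq_zero fun j _ => ?_
      simp only [if_neg h2, ite_self]
  have h2 : GG f p c X (y + 1) - GG f p c X y =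
      ∑ q ∈ (range m ×ˢ Icc 1 c).filter (fun q => c * q.1 < q.2 * m ∧
      q.2 * m ≤ c * q.1 + c * f), (if ((q.1 : ℕ) : ZMod p) = (f : ZMod p) * y then
          X ((q.1 : ℕ) : ZMod f) * (1 - (if q.2 = c then (c : Ω) else 0)) else 0) := by
    rw [h1, sum_filter, sum_product]
  have h3 := sum_pairs f p c hc hcf hcp (by omega)
    (fun h => (if ((h : ℕ) : ZMod p) = -((c * f : ℕ) : ZMod p) * y then wt f c X h else 0))
  rw [← hm] at h3
  have h4 : ∑ h ∈ Icc 1 (c * f), (if ((h : ℕ) : ZMod p) = -((c * f : ℕ) : ZMod p) * y then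
        wt f c X h else 0) = ∑ h ∈ Ioo 0 (c * f), (if ((h : ℕ) : ZMod p) =
          -((c * f : ℕ) : ZMod p) * y then wt f c X h else 0) := by
    have hcf0 : 0 < c * f := Nat.mul_pos hc.pos (by omega)
    have h5 : Icc 1 (c * f) = insert (c * f) (Ioo 0 (c * f)) := by
      ext x
      rw [mem_Icc, mem_insert, mem_Ioo]
      omega
    rw [h5, sum_insert (by simp)]
    have h6 : wt f c X (c * f) = 0 := by
      unfold wt
      have h7 : (((c * f : ℕ)) : ZMod f) = 0 := by push_cast; simp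
      have : Fact (1 < f) := ⟨by omega⟩
      rw [h7, MulChar.map_zero, zero_mul]
    rw [h6, ite_self, zero_add]
  rw [← h4, ← h3, h2, mul_sum]
  refine sum_congr rfl fun q hq => ?_
  simp only [mem_filter, mem_product, mem_range, mem_Icc] at hq
  obtain ⟨⟨hq1, hq2⟩, hq3, hq4⟩ := hq
  have hhp : (((q.2 * m - c * q.1 : ℕ)) : ZMod p) = -((c : ZMod p) * q.1) := by
    rw [Nat.cast_sub hq3.le]
    push_cast
    rw [hmp]
    ring
  have hhf : (((q.2 * m - c * q.1 : ℕ)) : ZMod f) = -1 * ((c : ZMod f) * q.1) := by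
    rw [Nat.cast_sub hq3.le]
    push_cast
    rw [hmf]
    ring
  have e1 : (((q.2 * m - c * q.1 : ℕ)) : ZMod p) = -((c * f : ℕ) : ZMod p) * y ↔
      ((q.1 : ℕ) : ZMod p) = (f : ZMod p) * y := by
    rw [hhp]
    push_cast
    constructor
    · intro h
      apply mul_left_cancel₀ hcp0
      linear_combination -h
    · intro h
      rw [h]
      ring
  have e2 : c ∣ q.2 * m - c * q.1 ↔ q.2 = c := by
    have hcop : Nat.Coprime c m := by
      rw [hm]
      refine Nat.Coprime.mul_right ((Nat.Prime.coprime_iff_not_dvd hc).2 hcf) ?_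
      exact (Nat.coprime_primes hc hp.out).2 hcpp
    constructor
    · intro h
      have h5 : c ∣ q.2 * m := by
        have h6 : q.2 * m = (q.2 * m - c * q.1) + c * q.1 := by omega
        rw [h6]
        exact dvd_add h (dvd_mul_right c _)
      have h6 : c ∣ q.2 := hcop.dvd_of_dvd_mul_right h5
      exact le_antisymm hq2.2 (Nat.le_of_dvd (by omega) h6)
    · intro h
      rw [h, ← Nat.mul_sub]
      exact dvd_mul_right c _
  have hX1 : X (-1) * X (-1) = 1 := by
    rw [← map_mul]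
    simp
  by_cases h5 : ((q.1 : ℕ) : ZMod p) = (f : ZMod p) * y
  · rw [if_pos h5, if_pos (e1.2 h5)]
    unfold wt
    rw [hhf, map_mul, map_mul]
    simp only [e2]
    ring
  · rw [if_neg h5, if_neg (fun h => h5 (e1.1 h)), mul_zero]

end H99AB

end
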