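import Mathlib

/-! The parts of this file: H22.GW.CorankI, H22.GW.Defs, H22.GW.RsDefs, H22.GW.Size, H22.GW.Tel, H22.OD.LemG, H83.FD.Zero, H83.FD.Add, H91.EHA.Defs, H91.EHA.SwA, H91.EHA.SwA_1. -/

section

/-!
# GW CorankI: corank lemma for a maximal ideal of a commutative ring.
PROOF. `𝔽 = R/I`. Columns: choose `U ∈ GL(𝔽)` whose first `κ` columns are in the kernel of `M mod I`, lift
to a matrix `U'` over `R`, `det U' ∉ I`; `κ` columns of `M U'` have entries in `I`, so
`det M det U' ∈ I^κ`; `I` maximal: `I + (det U') = 1`, so `I^κ + (det U') = 1` and `det M ∈ I^κ`.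
-/

namespace H22GW

/-- if the columns in `S` have their entries in `I`, the determinant is in `I^|S|` -/
private theorem det_mem_pow {ι : Type*} [Fintype ι] [DecidableEq ι] {R : Type*} [CommRing R]
    (I : Ideal R) (A : Matrix ι ι R) (S : Finset ι) (h : ∀ j ∈ S, ∀ i, A i j ∈ I) :
    A.det ∈ I ^ S.card := by
  rw [Matrix.det_apply]
  refine Ideal.sum_mem _ fun σ _ => ?_
  have h1 : ∏ i, A (σ i) i ∈ I ^ S.card := by
    rw [← Finset.prod_sdiff (Finset.subset_univ S)]
    refine Ideal.mul_mem_left _ _ ?_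
    have h2 : ∏ i ∈ S, A (σ i) i ∈ ∏ _i ∈ S, I := Ideal.prod_mem_prod fun i hi => h i hi _
    rwa [Finset.prod_const] at h2
  rcases Int.units_eq_one_or (Equiv.Perm.sign σ) with hs | hs
  · rw [hs, one_smul]; exact h1
  · rw [hs, Units.neg_smul, one_smul]; exact (Ideal.neg_mem_iff _).2 h1

/-- a basis of the space whose members in an index set of the right size are in the submodule -/
private theorem exists_basis {ι : Type*} [Fintype ι] [DecidableEq ι] {𝔽 : Type*} [Field 𝔽]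
    (K : Submodule 𝔽 (ι → 𝔽)) : ∃ (b : Module.Basis ι 𝔽 (ι → 𝔽)) (S : Finset ι),
      S.card = Module.finrank 𝔽 K ∧ ∀ j ∈ S, b j ∈ K := by
  obtain ⟨K', hK'⟩ := K.exists_isCompl
  let b0 := ((Module.finBasis 𝔽 K).prod (Module.finBasis 𝔽 K')).map
    (Submodule.prodEquivOfIsCompl K K' hK')
  have hcard : Fintype.card (Fin (Module.finrank 𝔽 K) ⊕ Fin (Module.finrank 𝔽 K'))
      = Fintype.card ι := by
    rw [← Module.finrank_eq_card_basis b0, Module.finrank_pi]
  let e := Fintype.equivOfCardEq hcard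
  refine ⟨b0.reindex e, Finset.univ.map ⟨fun i => e (Sum.inl i), fun i j hij => by
    simpa using hij⟩, by simp, ?_⟩
  intro j hj
  simp only [Finset.mem_map, Finset.mem_univ, Function.Embedding.coeFn_mk, true_and] at hj
  obtain ⟨i, rfl⟩ := hj
  rw [Module.Basis.reindex_apply, Equiv.symm_apply_apply]
  simp [b0]

theorem corank_ideal {ι : Type*} [Fintype ι] [DecidableEq ι] {R : Type*} [CommRing R] (I : Ideal R)
    [hI : I.IsMaximal] {𝔽 : Type*} [Field 𝔽] (φ : R →+* 𝔽) (hφ : Function.Surjective φ)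
    (hk : RingHom.ker φ = I) (M : Matrix ι ι R) (κ : ℕ)
    (h : κ ≤ Module.finrank 𝔽 (LinearMap.ker (M.map φ).mulVecLin)) :
    M.det ∈ I ^ κ := by
  obtain ⟨b, S, hS, hb⟩ := exists_basis (LinearMap.ker (M.map φ).mulVecLin)
  choose g hg using hφ
  let U : Matrix ι ι R := Matrix.of fun i j => g (b j i)
  have hU : U.map φ = (Pi.basisFun 𝔽 ι).toMatrix b := by
    ext i j
    simp [U, hg, Module.Basis.toMatrix_apply]
  have hdU : φ U.det ≠ 0 := by
    rw [RingHom.map_det, RingHom.mapMatrix_apply, hU]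
    have := (Pi.basisFun 𝔽 ι).isUnit_det b
    rw [Module.Basis.det_apply] at this
    exact this.ne_zero
  have hmem : M.det * U.det ∈ I ^ κ := by
    rw [← Matrix.det_mul]
    have h1 : (M * U).det ∈ I ^ S.card := by
      refine det_mem_pow I _ S fun j hj i => ?_
      rw [← hk, RingHom.mem_ker]
      have h2 := hb j hj
      rw [LinearMap.mem_ker, Matrix.mulVecLin_apply] at h2
      have h3 := congrFun h2 i
      rw [Matrix.mul_apply, map_sum]
      simp only [Matrix.mulVec, dotProduct, Matrix.map_apply, Pi.zero_apply] at h3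
      rw [← h3]
      refine Finset.sum_congr rfl fun l _ => ?_
      rw [map_mul]
      simp [U, hg]
    exact Ideal.pow_le_pow_right (h.trans hS.ge) h1
  have hcop : IsCoprime (Ideal.span {U.det}) I := by
    rw [Ideal.isCoprime_iff_sup_eq]
    refine hI.out.2 _ ?_
    rw [right_lt_sup]
    intro hle
    apply hdU
    have : U.det ∈ I := hle (Ideal.mem_span_singleton_self _)
    rwa [← hk, RingHom.mem_ker] at this
  have hcop2 : IsCoprime (Ideal.span {U.det}) (I ^ κ) := hcop.pow_right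
  obtain ⟨u, hu, v, hv, huv⟩ := Ideal.isCoprime_iff_exists.1 hcop2
  obtain ⟨c, rfl⟩ := Ideal.mem_span_singleton'.1 hu
  have : M.det = c * (M.det * U.det) + M.det * v := by
    calc M.det = M.det * (c * U.det + v) := by rw [huv, mul_one]
      _ = _ := by ring
  rw [this]
  exact Ideal.add_mem _ (Ideal.mul_mem_left _ _ hmem) (Ideal.mul_mem_left _ _ hv)

end H22GW

end

section

/-!
# Project GW: the gap theorem with periodic weights in the ring of integers of a number field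

`q` is the period, `W : ℕ → 𝓞 k` the weights (only `W h`, `0 < h < q`, are used).  Mod `p`:
`λ = Lam / (z^(p-1) - 1)` with `λ(z+1) - λ(z) = ∑_{0<h<q} W_h / (q z + h)`.
`Mat F q W w x`: the matrix of the conditions `∑_e C_e(a+y) y^e + ∑_c B_c(a+y) R_{ca}(cy) = O(y^(w^3))`,
`R_b(z) = ∑_{0<h<qb, q ∤ h} W_(h mod q) / (q z + h)`, `a < w x`.
-/

namespace H22GW

open Polynomial Finset NumberField

section
variable (F : Type*) [Field F]

/-- `binom(X, N)` -/
noncomputable def bn (N : ℕ) : F[X] :=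
  C ((N.factorial : F)⁻¹) * ∏ i ∈ range N, (X - C (i : F))

/-- the basis of polynomials: `binom(X,x)^(i / x) binom(X, i % x)`, of degree `i` -/
noncomputable def PB (x i : ℕ) : F[X] := bn F x ^ (i / x) * bn F (i % x)

variable {F}

/-- the weight at `h`: `W (h mod q)`, `0` if `q ∣ h` -/
def wg (q : ℕ) (W : ℕ → F) (h : ℕ) : F := if h % q = 0 then 0 else W (h % q)

/-- `Pi_c(a+y) R_{ca}(cy)`, `Pi_c = binom(q c X, q c m)` -/
noncomputable def RR (q : ℕ) (W : ℕ → F) (m c a : ℕ) : F[X] :=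
  C (((q * c * m).factorial : F)⁻¹) * ∑ h ∈ Ioo 0 (q * c * a),
    C (wg q W h) * ∏ k ∈ (range (q * c * m)).erase (q * c * a - h),
      (C ((q * c : ℕ) : F) * (X + C (a : F)) - C (k : F))

/-- columns -/
abbrev Col (q w x : ℕ) : Type :=
  (Fin w × Fin (w ^ 3 / 4 * x)) ⊕ (Σ c : Fin w, Fin (w ^ 3 / 4 * x - q * (c.val + 1) * (w * x)))

/-- rows: nodes `a < w x`, coefficients of `y^i`, `i < w^3` -/
abbrev Row (w x : ℕ) : Type := Fin (w * x) × Fin (w ^ 3)

/-- the matrix -/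
noncomputable def Mat (q : ℕ) (W : ℕ → F) (w x : ℕ) : Matrix (Row w x) (Col q w x) F := fun r c =>
  match c with
  | Sum.inl (e, i) => (((PB F x i).comp (X + C ((r.1.val : ℕ) : F))) * X ^ e.val).coeff r.2.val
  | Sum.inr ⟨c, i⟩ =>
    (((PB F x i).comp (X + C ((r.1.val : ℕ) : F))) * RR q W (w * x) (c.val + 1) r.1.val).coeff r.2.val

/-- the product of the `q z + h`, `0 < h < q` -/
noncomputable def dq (F : Type*) [Field F] (q : ℕ) : F[X] :=
  ∏ h ∈ Ioo 0 q, (C (q : F) * X + C (h : F))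

/-- `dq * ∑_{0<h<q} W_h / (q z + h)` -/
noncomputable def nq (q : ℕ) (W : ℕ → F) : F[X] :=
  ∑ h ∈ Ioo 0 q, C (W h) * ∏ k ∈ (Ioo 0 q).erase h, (C (q : F) * X + C (k : F))

/-- `λ = Lam / (z^(p-1) - 1)` satisfies `λ(z+1) - λ(z) = ∑_{0<h<q} W_h / (q z + h)` -/
def LamOK (p q : ℕ) (W : ℕ → F) (Lam : F[X]) : Prop :=
  Lam.natDegree < p - 1 ∧
  dq F q * (Lam.comp (X + 1) * (X ^ (p - 1) - 1) - Lam * ((X + 1) ^ (p - 1) - 1))
    = (X ^ (p - 1) - 1) * ((X + 1) ^ (p - 1) - 1) * nq q W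

end

/-- the common denominator of the entries -/
def Dn (q w x : ℕ) : ℕ :=
  Nat.lcmUpto x ^ (w ^ 3) * ∏ k ∈ range (w ^ 3), Nat.lcmUpto (q * w * (w * x) / (k + 1))

/-- `q : k` reduces to `z` under `φ : 𝓞 k → Ω` -/
def RedK {k Ω : Type*} [Field k] [NumberField k] [Field Ω] (φ : 𝓞 k →+* Ω) (y : k) (z : Ω) : Prop :=
  ∃ (n : ℕ) (a : 𝓞 k), (n : Ω) ≠ 0 ∧ (n : k) * y = (a : k) ∧ φ a = (n : Ω) * z

/-- the prime `p` is bad for the window `[w, V)` -/
def BadW (k : Type*) [Field k] [NumberField k] (q : ℕ) (W : ℕ → 𝓞 k) (w V p : ℕ) : Prop :=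
  ∃ (Ω : Type) (_ : Field Ω) (_ : CharP Ω p) (φ : 𝓞 k →+* Ω) (Lam : Polynomial Ω),
    LamOK p q (fun h => φ (W h)) Lam ∧ ∀ j : ℕ, w ≤ j → j < V → Lam.coeff j = 0

end H22GW

end

section

/-!
# GW RsDefs: definitions for the zero estimate (`rs`, `denC`, `numC`).
-/

namespace H22GW

open Finset Polynomial

variable {F : Type*} [Field F]

/-- `R_{ca}(cy)` -/
noncomputable def rs (q : ℕ) (W : ℕ → F) (c a : ℕ) : PowerSeries F :=
  ∑ h ∈ Ioo 0 (q * c * a), PowerSeries.C (wg q W h) *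
    (PowerSeries.C (h : F) + PowerSeries.C ((q * c : ℕ) : F) * PowerSeries.X)⁻¹

/-- the common denominator of `ρ_(c+1)(X) = ∑_{0<h<q(c+1)} w_h / (q(c+1)X + h)` -/
noncomputable def denC (F : Type*) [Field F] (q c : ℕ) : F[X] :=
  ∏ h ∈ Ioo 0 (q * (c + 1)), (C ((q * (c + 1) : ℕ) : F) * X + C (h : F))

/-- the numerator of `ρ_(c+1)` over `denC c` -/
noncomputable def numC (q : ℕ) (W : ℕ → F) (c : ℕ) : F[X] :=
  ∑ h ∈ Ioo 0 (q * (c + 1)), C (wg q W h) *
    ∏ k ∈ (Ioo 0 (q * (c + 1))).erase h, (C ((q * (c + 1) : ℕ) : F) * X + C (k : F))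

end H22GW

end

section

/-!
# GW Size (port of OD Size); constants depend on `k, q, W`.
PROOF. A polynomial over `ℂ` has size `P1 f B` if it is majorised by a real polynomial `g` with `g(1) ≤ B`.
`|PB(a+y)|₁ ≤ (e w)^(x w^3/4) e^(w x)`, `|RR m c a|₁ ≤ (1/M!) ∑_h BW ∏_{k≠} (|qca-k| + qc) ≤ BW M e^(M+qc)` with
`M = q c m ≤ q w^2 x`.
-/

namespace H22GW

open Finset Polynomial NumberField

/-- `f` has a majorant with nonnegative coefficients of sum at most `B` -/
private def P1 (f : ℂ[X]) (B : ℝ) : Prop :=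
  ∃ g : ℝ[X], (∀ i, ‖f.coeff i‖ ≤ g.coeff i) ∧ g.eval 1 ≤ B

private theorem eval_one_ge (g : ℝ[X]) (h : ∀ i, 0 ≤ g.coeff i) (i : ℕ) : g.coeff i ≤ g.eval 1 := by
  rw [Polynomial.eval_eq_sum_range]
  simp only [one_pow, mul_one]
  rcases le_or_gt i g.natDegree with hi | hi
  · exact Finset.single_le_sum (f := fun i => g.coeff i) (fun j _ => h j)
      (Finset.mem_range.2 (Nat.lt_succ_of_le hi))
  · rw [Polynomial.coeff_eq_zero_of_natDegree_lt hi]
    exact Finset.sum_nonneg fun j _ => h j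

private theorem P1.coeff {f : ℂ[X]} {B : ℝ} (h : P1 f B) (i : ℕ) : ‖f.coeff i‖ ≤ B := by
  obtain ⟨g, hg, hB⟩ := h
  exact (hg i).trans ((eval_one_ge g (fun j => (norm_nonneg _).trans (hg j)) i).trans hB)

private theorem P1.nonneg {f : ℂ[X]} {B : ℝ} (h : P1 f B) : 0 ≤ B :=
  (norm_nonneg _).trans (h.coeff 0)

private theorem P1.mono {f : ℂ[X]} {B B' : ℝ} (h : P1 f B) (hB : B ≤ B') : P1 f B' := by
  obtain ⟨g, hg, hb⟩ := h
  exact ⟨g, hg, hb.trans hB⟩

private theorem P1.mul {f f' : ℂ[X]} {B B' : ℝ} (h : P1 f B) (h' : P1 f' B') : P1 (f * f') (B * B') := by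
  have hB := h.nonneg
  obtain ⟨g, hg, hb⟩ := h
  obtain ⟨g', hg', hb'⟩ := h'
  refine ⟨g * g', fun i => ?_, ?_⟩
  · rw [Polynomial.coeff_mul, Polynomial.coeff_mul]
    refine (norm_sum_le _ _).trans (Finset.sum_le_sum fun x _ => ?_)
    rw [norm_mul]
    exact mul_le_mul (hg _) (hg' _) (norm_nonneg _) ((norm_nonneg _).trans (hg _))
  · rw [Polynomial.eval_mul]
    exact mul_le_mul hb hb' ((norm_nonneg _).trans ((hg' 0).trans
      (eval_one_ge g' (fun j => (norm_nonneg _).trans (hg' j)) 0))) hB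

private theorem P1.add {f f' : ℂ[X]} {B B' : ℝ} (h : P1 f B) (h' : P1 f' B') : P1 (f + f') (B + B') := by
  obtain ⟨g, hg, hb⟩ := h
  obtain ⟨g', hg', hb'⟩ := h'
  refine ⟨g + g', fun i => ?_, ?_⟩
  · rw [Polynomial.coeff_add, Polynomial.coeff_add]
    exact (norm_add_le _ _).trans (add_le_add (hg i) (hg' i))
  · rw [Polynomial.eval_add]
    exact add_le_add hb hb'

private theorem P1.sum {ι : Type*} (s : Finset ι) (f : ι → ℂ[X]) (B : ι → ℝ) (h : ∀ i ∈ s, P1 (f i) (B i)) :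
    P1 (∑ i ∈ s, f i) (∑ i ∈ s, B i) := by
  classical
  induction s using Finset.induction_on with
  | empty => exact ⟨0, fun i => by simp, by simp⟩
  | insert a s ha ih =>
    rw [Finset.sum_insert ha, Finset.sum_insert ha]
    exact (h a (mem_insert_self a s)).add (ih fun i hi => h i (mem_insert_of_mem hi))

private theorem P1.const (u : ℂ) : P1 (Polynomial.C u) ‖u‖ := by
  refine ⟨Polynomial.C ‖u‖, fun i => ?_, ?_⟩
  · rw [Polynomial.coeff_C, Polynomial.coeff_C]
    split_ifs <;> simp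
  · rw [Polynomial.eval_C]

private theorem P1.one : P1 1 1 := by
  have := P1.const 1
  simpa using this

private theorem P1.X : P1 (Polynomial.X : ℂ[X]) 1 := by
  refine ⟨Polynomial.X, fun i => ?_, by simp⟩
  rw [Polynomial.coeff_X, Polynomial.coeff_X]
  split_ifs <;> simp

private theorem P1.prod {ι : Type*} (s : Finset ι) (f : ι → ℂ[X]) (B : ι → ℝ)
    (h : ∀ i ∈ s, P1 (f i) (B i)) : P1 (∏ i ∈ s, f i) (∏ i ∈ s, B i) := by
  classical
  induction s using Finset.induction_on with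
  | empty => simpa using P1.one
  | insert a s ha ih =>
    rw [Finset.prod_insert ha, Finset.prod_insert ha]
    exact (h a (mem_insert_self a s)).mul (ih fun i hi => h i (mem_insert_of_mem hi))

private theorem P1.pow {f : ℂ[X]} {B : ℝ} (h : P1 f B) (n : ℕ) : P1 (f ^ n) (B ^ n) := by
  induction n with
  | zero => simpa using P1.one
  | succ n ih =>
    rw [pow_succ, pow_succ]
    exact ih.mul h

/-- linear factors with real coefficients -/
private theorem P1.lin (u v : ℝ) :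
    P1 (Polynomial.C (u : ℂ) * Polynomial.X + Polynomial.C (v : ℂ)) (|u| + |v|) := by
  have := ((P1.const (u : ℂ)).mul P1.X).add (P1.const (v : ℂ))
  rw [mul_one, Complex.norm_real, Complex.norm_real, Real.norm_eq_abs, Real.norm_eq_abs] at this
  exact this

/-- `binom(a + y, N)` -/
private theorem bn_bound (w x a N : ℕ) (hw : 1 ≤ w) (ha : a < w * x) (hN : N ≤ x) :
    P1 ((bn ℂ N).comp (X + C (a : ℂ))) (((w * x : ℕ) : ℝ) ^ N / (N.factorial : ℝ)) := by
  have hx : x ≤ w * x := Nat.le_mul_of_pos_left x hw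
  have e : (bn ℂ N).comp (X + C (a : ℂ)) =
      C ((N.factorial : ℂ)⁻¹) * ∏ i ∈ range N, (C ((1 : ℝ) : ℂ) * X + C (((a : ℝ) - (i : ℝ) : ℝ) : ℂ)) := by
    unfold bn
    rw [Polynomial.mul_comp, Polynomial.C_comp, Polynomial.prod_comp]
    congr 1
    refine Finset.prod_congr rfl fun i _ => ?_
    rw [Polynomial.sub_comp, Polynomial.X_comp, Polynomial.C_comp]
    push_cast
    rw [C_sub, C_1, one_mul]
    ring
  rw [e]
  have h1 : ∀ i ∈ range N, P1 (C ((1 : ℝ) : ℂ) * X + C (((a : ℝ) - (i : ℝ) : ℝ) : ℂ)) ((w * x : ℕ) : ℝ) := by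
    intro i hi
    have hiN := Finset.mem_range.1 hi
    refine (P1.lin 1 ((a : ℝ) - (i : ℝ))).mono ?_
    push_cast
    rw [abs_one]
    have ha' : (a : ℝ) + 1 ≤ (w : ℝ) * x := by exact_mod_cast ha
    have hi' : (i : ℝ) + 1 ≤ (w : ℝ) * x := by exact_mod_cast (lt_of_lt_of_le hiN (hN.trans hx))
    have h0a : (0 : ℝ) ≤ a := Nat.cast_nonneg a
    have h0i : (0 : ℝ) ≤ i := Nat.cast_nonneg i
    rcases abs_cases ((a : ℝ) - (i : ℝ)) with ⟨h, -⟩ | ⟨h, -⟩ <;> rw [h] <;> linarith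
  have h2 := P1.prod (range N) _ _ h1
  rw [Finset.prod_const, Finset.card_range] at h2
  have h3 := (P1.const ((N.factorial : ℂ)⁻¹)).mul h2
  refine h3.mono (le_of_eq ?_)
  rw [norm_inv, Complex.norm_natCast]
  ring

/-- `PB(a + y)` -/
private theorem PB_bound (w x a i : ℕ) (hw : 1 ≤ w) (hx : 1 ≤ x) (ha : a < w * x) (hi : i < w ^ 3 / 4 * x) :
    P1 ((PB ℂ x i).comp (X + C (a : ℂ)))
      (Real.exp ((1 + Real.log w) * x * w ^ 3 + w * x)) := by
  have hw0 : (0 : ℝ) < w := by exact_mod_cast hw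
  have hx0 : (0 : ℝ) < x := by exact_mod_cast hx
  have hlog : 0 ≤ Real.log w := Real.log_nonneg (by exact_mod_cast hw)
  have e : (PB ℂ x i).comp (X + C (a : ℂ)) =
      ((bn ℂ x).comp (X + C (a : ℂ))) ^ (i / x) * (bn ℂ (i % x)).comp (X + C (a : ℂ)) := by
    unfold PB
    rw [Polynomial.mul_comp, Polynomial.pow_comp]
  rw [e]
  have h1 : P1 ((bn ℂ x).comp (X + C (a : ℂ))) (Real.exp ((1 + Real.log w) * x)) := by
    refine (bn_bound w x a x hw ha le_rfl).mono ?_
    have h2 : (x : ℝ) ^ x / (x.factorial : ℝ) ≤ Real.exp x := Real.pow_div_factorial_le_exp _ hx0.le _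
    have h3 : ((w * x : ℕ) : ℝ) ^ x / (x.factorial : ℝ) = (w : ℝ) ^ x * ((x : ℝ) ^ x / (x.factorial : ℝ)) := by
      push_cast
      rw [mul_pow]
      ring
    rw [h3]
    have h4 : (w : ℝ) ^ x = Real.exp (Real.log w * x) := by
      rw [Real.exp_mul, Real.exp_log hw0, Real.rpow_natCast]
    calc (w : ℝ) ^ x * ((x : ℝ) ^ x / (x.factorial : ℝ)) ≤ (w : ℝ) ^ x * Real.exp x :=
          mul_le_mul_of_nonneg_left h2 (by positivity)
      _ = Real.exp ((1 + Real.log w) * x) := by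
          rw [h4, ← Real.exp_add]
          congr 1
          ring
  have h2 : P1 ((bn ℂ (i % x)).comp (X + C (a : ℂ))) (Real.exp (w * x)) := by
    refine (bn_bound w x a (i % x) hw ha (Nat.mod_lt _ hx).le).mono ?_
    have := Real.pow_div_factorial_le_exp ((w * x : ℕ) : ℝ) (by positivity) (i % x)
    rwa [Nat.cast_mul] at this ⊢
  have h3 := (h1.pow (i / x)).mul h2
  refine h3.mono ?_
  rw [← Real.exp_nat_mul, ← Real.exp_add]
  apply Real.exp_le_exp.2
  have h4 : i / x ≤ w ^ 3 := by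
    have : i / x < w ^ 3 / 4 := (Nat.div_lt_iff_lt_mul hx).2 hi
    omega
  have h5 : ((i / x : ℕ) : ℝ) ≤ (w : ℝ) ^ 3 := by exact_mod_cast h4
  have h6 : ((i / x : ℕ) : ℝ) * ((1 + Real.log w) * x) ≤ (w : ℝ) ^ 3 * ((1 + Real.log w) * x) :=
    mul_le_mul_of_nonneg_right h5 (by positivity)
  linarith

/-- `RR q W m c a` -/
private theorem RR_bound (q : ℕ) (hq : 1 ≤ q) (W : ℕ → ℂ) (B : ℝ) (hB : 0 ≤ B) (hW : ∀ h, h < q → ‖W h‖ ≤ B)
    (m c a : ℕ) (hc : 1 ≤ c) (ha : a < m) :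
    P1 (RR q W m c a) (Real.exp ((B + 1) * (q * c * m) + q * c)) := by
  set M : ℕ := q * c * m with hM
  have hca : q * c * a ≤ M := Nat.mul_le_mul_left _ ha.le
  have hM1 : 1 ≤ M := by
    have : 0 < q * c * m := Nat.mul_pos (Nat.mul_pos hq hc) (by omega)
    omega
  have h1 : ∀ h ∈ Ioo 0 (q * c * a), P1 (C (wg q W h) *
      ∏ k ∈ (range M).erase (q * c * a - h), (C ((q * c : ℕ) : ℂ) * (X + C (a : ℂ)) - C (k : ℂ)))
      (B * ((M : ℝ) + q * c) ^ M) := by
    intro h hh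
    have hk : ∀ k ∈ (range M).erase (q * c * a - h),
        P1 (C ((q * c : ℕ) : ℂ) * (X + C (a : ℂ)) - C (k : ℂ)) ((M : ℝ) + q * c) := by
      intro k hk
      have hkM : k < M := Finset.mem_range.1 (Finset.mem_of_mem_erase hk)
      have e : C ((q * c : ℕ) : ℂ) * (X + C (a : ℂ)) - C (k : ℂ) =
          C (((q : ℝ) * c : ℝ) : ℂ) * X + C (((q : ℝ) * c * a - k : ℝ) : ℂ) := by
        push_cast
        rw [C_sub, C_mul (a := (q : ℂ) * c)]
        ring
      rw [e]
      refine (P1.lin _ _).mono ?_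
      have h1 : (q : ℝ) * c * a ≤ M := by exact_mod_cast hca
      have h2 : (k : ℝ) ≤ M := by exact_mod_cast hkM.le
      have h3 : (0 : ℝ) ≤ q * c * a := by positivity
      have h4 : (0 : ℝ) ≤ k := Nat.cast_nonneg k
      rw [abs_of_nonneg (by positivity : (0 : ℝ) ≤ q * c)]
      rcases abs_cases ((q : ℝ) * c * a - (k : ℝ)) with ⟨h, -⟩ | ⟨h, -⟩ <;> rw [h] <;> linarith
    have h2 := P1.prod _ _ _ hk
    rw [Finset.prod_const] at h2
    have h3 := (P1.const (wg q W h)).mul h2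
    refine h3.mono ?_
    have h4 : ‖wg q W h‖ ≤ B := by
      unfold wg
      split_ifs
      · rw [norm_zero]
        exact hB
      · exact hW _ (Nat.mod_lt _ hq)
    have hb1 : (1 : ℝ) ≤ (M : ℝ) + q * c := by
      have : (1 : ℝ) ≤ M := by exact_mod_cast hM1
      have : (0 : ℝ) ≤ q * (c : ℝ) := by positivity
      linarith
    have h5 : ((M : ℝ) + q * c) ^ ((range M).erase (q * c * a - h)).card ≤ ((M : ℝ) + q * c) ^ M := by
      refine pow_le_pow_right₀ hb1 ?_
      refine (Finset.card_le_card (Finset.erase_subset _ _)).trans ?_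
      rw [Finset.card_range]
    exact mul_le_mul h4 h5 (by positivity) hB
  have h2 := P1.sum (Ioo 0 (q * c * a)) _ _ h1
  rw [Finset.sum_const, nsmul_eq_mul] at h2
  have h3 := (P1.const ((M.factorial : ℂ)⁻¹)).mul h2
  have e : RR q W m c a = C ((M.factorial : ℂ)⁻¹) * ∑ h ∈ Ioo 0 (q * c * a),
      (C (wg q W h) * ∏ k ∈ (range M).erase (q * c * a - h),
        (C ((q * c : ℕ) : ℂ) * (X + C (a : ℂ)) - C (k : ℂ))) := rfl
  rw [e]
  refine h3.mono ?_
  have hcard : (((Ioo 0 (q * c * a)).card : ℕ) : ℝ) ≤ M := by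
    have : (Ioo 0 (q * c * a)).card ≤ M := by
      rw [Nat.card_Ioo]
      omega
    exact_mod_cast this
  have hpow : ((M : ℝ) + q * c) ^ M / (M.factorial : ℝ) ≤ Real.exp ((M : ℝ) + q * c) :=
    Real.pow_div_factorial_le_exp _ (by positivity) _
  have hexp : B * M ≤ Real.exp (B * M) := by
    have := Real.add_one_le_exp (B * (M : ℝ))
    linarith
  rw [norm_inv, Complex.norm_natCast]
  calc ((M.factorial : ℝ))⁻¹ * ((((Ioo 0 (q * c * a)).card : ℕ) : ℝ) * (B * ((M : ℝ) + q * c) ^ M))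
      = ((((Ioo 0 (q * c * a)).card : ℕ) : ℝ) * B) * (((M : ℝ) + q * c) ^ M / (M.factorial : ℝ)) := by
        ring
    _ ≤ ((M : ℝ) * B) * Real.exp ((M : ℝ) + q * c) := by
        refine mul_le_mul ?_ hpow (by positivity) (by positivity)
        exact mul_le_mul_of_nonneg_right hcard hB
    _ ≤ Real.exp (B * M) * Real.exp ((M : ℝ) + q * c) := by
        refine mul_le_mul_of_nonneg_right ?_ (Real.exp_pos _).le
        linarith
    _ = Real.exp ((B + 1) * (q * c * m) + q * c) := by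
        rw [← Real.exp_add]
        congr 1
        rw [hM]
        push_cast
        ring

private theorem mat_size_C (q : ℕ) (hq : 1 ≤ q) (W : ℕ → ℂ) (B : ℝ) (hB : 0 ≤ B) (hW : ∀ h, h < q → ‖W h‖ ≤ B)
    (w : ℕ) (hw : 4 ≤ w) (x : ℕ) (hx : 1 ≤ x) (r : Row w x) (c : Col q w x) :
    ‖Mat q W w x r c‖ ≤ Real.exp ((2 + (B + 2) * q) * w ^ 3 * (1 + Real.log w) * x) := by
  have hw1 : 1 ≤ w := by omega
  have hwr : (4 : ℝ) ≤ w := by exact_mod_cast hw
  have hxr : (1 : ℝ) ≤ x := by exact_mod_cast hx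
  have hqr : (1 : ℝ) ≤ q := by exact_mod_cast hq
  have hlog : 0 ≤ Real.log w := Real.log_nonneg (by linarith)
  have hw3 : (w : ℝ) ^ 2 ≤ w ^ 3 := by nlinarith [sq_nonneg (w : ℝ)]
  have hw3' : (w : ℝ) ≤ w ^ 3 := by nlinarith [sq_nonneg (w : ℝ)]
  have hpos : (0 : ℝ) ≤ (w : ℝ) ^ 3 * Real.log w * x := by positivity
  have hp3 : (0 : ℝ) ≤ (w : ℝ) ^ 3 * x := by positivity
  have h3 : (w : ℝ) * x ≤ (w : ℝ) ^ 3 * x := mul_le_mul_of_nonneg_right hw3' (by linarith)
  have h8 : (1 + Real.log w) * x * (w : ℝ) ^ 3 = (w : ℝ) ^ 3 * x + (w : ℝ) ^ 3 * Real.log w * x := by ring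
  have h9 : (2 + (B + 2) * q) * (w : ℝ) ^ 3 * (1 + Real.log w) * x =
      (2 + (B + 2) * q) * ((w : ℝ) ^ 3 * x) + (2 + (B + 2) * q) * ((w : ℝ) ^ 3 * Real.log w * x) := by ring
  have hBq : 0 ≤ (B + 2) * q := by positivity
  have h10 : (w : ℝ) ^ 3 * Real.log w * x ≤ (2 + (B + 2) * q) * ((w : ℝ) ^ 3 * Real.log w * x) := by
    nlinarith
  rcases c with ⟨e, i⟩ | ⟨c, i⟩
  · have h1 := PB_bound w x r.1.val i.val hw1 hx r.1.isLt i.isLt
    have h2 := (h1.mul (P1.X.pow e.val)).coeff r.2.val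
    rw [one_pow, mul_one] at h2
    refine h2.trans (Real.exp_le_exp.2 ?_)
    rw [h8, h9]
    nlinarith
  · have hcw : c.val + 1 ≤ w := c.isLt
    have h1 := PB_bound w x r.1.val i.val hw1 hx r.1.isLt (lt_of_lt_of_le i.isLt (Nat.sub_le _ _))
    have h1' := RR_bound q hq W B hB hW (w * x) (c.val + 1) r.1.val (by omega) r.1.isLt
    have h2 := (h1.mul h1').coeff r.2.val
    rw [← Real.exp_add] at h2
    refine h2.trans (Real.exp_le_exp.2 ?_)
    have hcr : (((c.val + 1 : ℕ) : ℝ)) ≤ w := by exact_mod_cast hcw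
    have hc0 : (0 : ℝ) ≤ ((c.val + 1 : ℕ) : ℝ) := by positivity
    have h5 : (B + 1) * (q * (((c.val + 1 : ℕ) : ℝ)) * ((w * x : ℕ) : ℝ)) ≤ (B + 1) * q * ((w : ℝ) ^ 3 * x) := by
      have e1 : q * (((c.val + 1 : ℕ) : ℝ)) * ((w * x : ℕ) : ℝ) ≤ q * ((w : ℝ) ^ 3 * x) := by
        have : ((c.val + 1 : ℕ) : ℝ) * ((w * x : ℕ) : ℝ) ≤ (w : ℝ) ^ 3 * x := by
          rw [Nat.cast_mul]
          calc ((c.val + 1 : ℕ) : ℝ) * ((w : ℝ) * x) ≤ (w : ℝ) * ((w : ℝ) * x) :=
                mul_le_mul_of_nonneg_right hcr (by positivity)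
            _ = (w : ℝ) ^ 2 * x := by ring
            _ ≤ (w : ℝ) ^ 3 * x := mul_le_mul_of_nonneg_right hw3 (by linarith)
        calc (q : ℝ) * (((c.val + 1 : ℕ) : ℝ)) * ((w * x : ℕ) : ℝ)
            = q * (((c.val + 1 : ℕ) : ℝ) * ((w * x : ℕ) : ℝ)) := by ring
          _ ≤ q * ((w : ℝ) ^ 3 * x) := mul_le_mul_of_nonneg_left this (by linarith)
      calc (B + 1) * (q * (((c.val + 1 : ℕ) : ℝ)) * ((w * x : ℕ) : ℝ)) ≤ (B + 1) * (q * ((w : ℝ) ^ 3 * x)) :=
            mul_le_mul_of_nonneg_left e1 (by linarith)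
        _ = (B + 1) * q * ((w : ℝ) ^ 3 * x) := by ring
    have h6 : (q : ℝ) * (((c.val + 1 : ℕ) : ℝ)) ≤ q * ((w : ℝ) ^ 3 * x) := by
      refine mul_le_mul_of_nonneg_left ?_ (by linarith)
      have : (w : ℝ) ≤ (w : ℝ) * x := by nlinarith
      linarith
    rw [h8, h9]
    have h11 : (2 + (B + 2) * q) * ((w : ℝ) ^ 3 * x) =
        2 * ((w : ℝ) ^ 3 * x) + (B + 1) * q * ((w : ℝ) ^ 3 * x) + q * ((w : ℝ) ^ 3 * x) := by ring
    rw [h11]
    linarith

section
variable {F : Type*} [Field F]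

private theorem bn_map (σ : F →+* ℂ) (N : ℕ) : (bn F N).map σ = bn ℂ N := by
  unfold bn
  rw [Polynomial.map_mul, Polynomial.map_prod, Polynomial.map_C, map_inv₀, map_natCast]
  congr 1
  refine Finset.prod_congr rfl fun i _ => ?_
  rw [Polynomial.map_sub, Polynomial.map_X, Polynomial.map_C, map_natCast]

private theorem PB_map (σ : F →+* ℂ) (x i : ℕ) : (PB F x i).map σ = PB ℂ x i := by
  unfold PB
  rw [Polynomial.map_mul, Polynomial.map_pow, bn_map, bn_map]

private theorem wg_map (σ : F →+* ℂ) (q : ℕ) (W : ℕ → F) (h : ℕ) :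
    σ (wg q W h) = wg q (fun h => σ (W h)) h := by
  unfold wg
  split_ifs
  · exact map_zero _
  · rfl

private theorem RR_map (σ : F →+* ℂ) (q : ℕ) (W : ℕ → F) (m c a : ℕ) :
    (RR q W m c a).map σ = RR q (fun h => σ (W h)) m c a := by
  unfold RR
  rw [Polynomial.map_mul, Polynomial.map_sum, Polynomial.map_C, map_inv₀, map_natCast]
  congr 1
  refine Finset.sum_congr rfl fun h _ => ?_
  rw [Polynomial.map_mul, Polynomial.map_C, wg_map, Polynomial.map_prod]
  congr 1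
  refine Finset.prod_congr rfl fun k _ => ?_
  rw [Polynomial.map_sub, Polynomial.map_mul, Polynomial.map_C, Polynomial.map_C, Polynomial.map_add,
    Polynomial.map_X, Polynomial.map_C]
  simp only [map_natCast]

private theorem Mat_map (σ : F →+* ℂ) (q : ℕ) (W : ℕ → F) (w x : ℕ) (r : Row w x) (c : Col q w x) :
    σ (Mat q W w x r c) = Mat q (fun h => σ (W h)) w x r c := by
  rcases c with ⟨e, i⟩ | ⟨c, i⟩
  · change σ ((((PB F x i).comp (X + C ((r.1.val : ℕ) : F))) * X ^ e.val).coeff r.2.val) =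
      ((((PB ℂ x i).comp (X + C ((r.1.val : ℕ) : ℂ))) * X ^ e.val).coeff r.2.val)
    rw [← Polynomial.coeff_map, Polynomial.map_mul, Polynomial.map_comp, PB_map, Polynomial.map_pow,
      Polynomial.map_add, Polynomial.map_X, Polynomial.map_C, map_natCast]
  · change σ ((((PB F x i).comp (X + C ((r.1.val : ℕ) : F))) * RR q W (w * x) (c.val + 1) r.1.val).coeff
        r.2.val) =
      ((((PB ℂ x i).comp (X + C ((r.1.val : ℕ) : ℂ))) *
        RR q (fun h => σ (W h)) (w * x) (c.val + 1) r.1.val).coeff r.2.val)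
    rw [← Polynomial.coeff_map, Polynomial.map_mul, Polynomial.map_comp, PB_map, RR_map,
      Polynomial.map_add, Polynomial.map_X, Polynomial.map_C, map_natCast]

end

theorem mat_size {k : Type*} [Field k] [NumberField k] (q : ℕ) (hq : 1 ≤ q) (W : ℕ → 𝓞 k) :
    ∃ C₀ : ℝ, 0 < C₀ ∧ ∀ w : ℕ, 4 ≤ w → ∀ x : ℕ, 1 ≤ x → ∀ (r : Row w x)
    (c : Col q w x) (σ : k →+* ℂ), ‖σ (Mat q (fun h => (W h : k)) w x r c)‖
      ≤ Real.exp (C₀ * w ^ 3 * (1 + Real.log w) * x) := by
  classical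
  have hfin : Finite (k →+* ℂ) := inferInstance
  obtain ⟨B, hB⟩ := (Set.finite_range fun v : (k →+* ℂ) × Fin q => ‖v.1 ((W (v.2 : ℕ) : 𝓞 k) : k)‖).bddAbove
  have hB' : ∀ (σ : k →+* ℂ) (h : ℕ), h < q → ‖σ ((W h : 𝓞 k) : k)‖ ≤ max B 0 := fun σ h hh =>
    (hB ⟨(σ, ⟨h, hh⟩), rfl⟩).trans (le_max_left _ _)
  have hB0 : 0 ≤ max B 0 := le_max_right _ _
  refine ⟨2 + (max B 0 + 2) * q, by positivity, fun w hw x hx r c σ => ?_⟩
  rw [Mat_map]
  exact mat_size_C q hq _ (max B 0) hB0 (fun h hh => hB' σ h hh) w hw x hx r c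

end H22GW

end

section

/-!
# GW Tel (port of OD Tel to a field of characteristic 0; the poles are rational numbers in `(-1,0)`).
-/

namespace H22GW

open Finset Polynomial

private theorem tel_inf {F : Type*} [Field F] (Q : F[X]) (hQ : Q ≠ 0) (f : ℕ → F) (hf : Function.Injective f)
    (h : ∀ k, Q.eval (f k) = 0) : False := by
  apply hQ
  apply Polynomial.eq_zero_of_infinite_isRoot
  apply Set.Infinite.mono (s := Set.range f)
  · rintro _ ⟨k, rfl⟩
    exact h k
  · exact Set.infinite_range_of_injective hf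

private theorem tel_cop {F : Type*} [Field F] [CharZero F] (P Q N : F[X]) (A : Finset ℚ) (hQ : Q ≠ 0)
    (hPQ : IsCoprime P Q) (hA : ∀ a ∈ A, -1 < a ∧ a < 0) (hdeg : N.natDegree < A.card ∨ N = 0)
    (h : Q.comp (X + 1) * Q * N
      = (∏ a ∈ A, (X - C ((a : ℚ) : F))) * (P.comp (X + 1) * Q - P * Q.comp (X + 1))) : N = 0 := by
  classical
  by_contra hN
  have hdeg' : N.natDegree < A.card := hdeg.resolve_right hN
  have hinj : Function.Injective (fun a : ℚ => (a : F)) := Rat.cast_injective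
  obtain ⟨a, haA, haN⟩ : ∃ a ∈ A, N.eval (a : F) ≠ 0 := by
    by_contra hcon
    push Not at hcon
    have h1 : (A.image (fun a : ℚ => (a : F))).val ≤ N.roots := by
      apply (Multiset.le_iff_subset (A.image (fun a : ℚ => (a : F))).nodup).2
      intro b hb
      rw [mem_roots hN]
      obtain ⟨a, ha, rfl⟩ := Finset.mem_image.mp (Finset.mem_val.mp hb)
      exact hcon a ha
    have h2 := Multiset.card_le_card h1
    have h3 := card_roots' N
    have h4 : Multiset.card (A.image (fun a : ℚ => (a : F))).val = A.card := by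
      rw [Finset.card_val, Finset.card_image_of_injective _ hinj]
    omega
  -- evaluation
  have hev : ∀ b : F, Q.eval (b + 1) * Q.eval b * N.eval b
      = (∏ a ∈ A, (b - ((a : ℚ) : F))) * (P.eval (b + 1) * Q.eval b - P.eval b * Q.eval (b + 1)) := by
    intro b
    have := congrArg (Polynomial.eval b) h
    simpa [eval_comp, eval_prod] using this
  have hcop : ∀ b : F, Q.eval b = 0 → P.eval b ≠ 0 := by
    intro b hb hP
    obtain ⟨u, v, huv⟩ := hPQ
    have := congrArg (Polynomial.eval b) huv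
    simp [hb, hP] at this
  have hprod : ∀ b : ℚ, b ∉ A → (∏ a ∈ A, ((b : F) - ((a : ℚ) : F))) ≠ 0 := by
    intro b hb
    rw [Finset.prod_ne_zero_iff]
    intro a ha h0
    apply hb
    have : b = a := hinj (sub_eq_zero.mp h0)
    rwa [this]
  have hup : ∀ b : ℚ, b ∉ A → Q.eval (b : F) = 0 → Q.eval ((b + 1 : ℚ) : F) = 0 := by
    intro b hb hq
    have h1 := hev b
    rw [hq] at h1
    have h2 : (∏ a ∈ A, ((b : F) - ((a : ℚ) : F))) * (P.eval (b : F) * Q.eval ((b : F) + 1)) = 0 := by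
      linear_combination h1
    push_cast
    rcases mul_eq_zero.1 h2 with h3 | h3
    · exact absurd h3 (hprod b hb)
    · rcases mul_eq_zero.1 h3 with h4 | h4
      · exact absurd h4 (hcop b hq)
      · exact h4
  have hdn : ∀ b : ℚ, b ∉ A → Q.eval ((b + 1 : ℚ) : F) = 0 → Q.eval (b : F) = 0 := by
    intro b hb hq
    push_cast at hq
    have h1 := hev b
    rw [hq] at h1
    have h2 : (∏ a ∈ A, ((b : F) - ((a : ℚ) : F))) * (P.eval ((b : F) + 1) * Q.eval (b : F)) = 0 := by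
      linear_combination -h1
    rcases mul_eq_zero.1 h2 with h3 | h3
    · exact absurd h3 (hprod b hb)
    · rcases mul_eq_zero.1 h3 with h4 | h4
      · exact absurd h4 (hcop _ hq)
      · exact h4
  have hAa := hA a haA
  have h0 : (∏ x ∈ A, ((a : F) - ((x : ℚ) : F))) = 0 := Finset.prod_eq_zero haA (sub_self _)
  have h1 := hev a
  rw [h0, zero_mul] at h1
  have h2 : Q.eval ((a + 1 : ℚ) : F) = 0 ∨ Q.eval (a : F) = 0 := by
    push_cast
    rcases mul_eq_zero.1 h1 with h3 | h3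
    · exact mul_eq_zero.1 h3
    · exact absurd h3 haN
  rcases h2 with h3 | h3
  · have h4 : ∀ k : ℕ, Q.eval ((a + 1 + k : ℚ) : F) = 0 := by
      intro k
      induction k with
      | zero => simpa using h3
      | succ k ih =>
        have h5 := hup (a + 1 + k) (fun hmem => by
          have h6 := hA _ hmem
          have h7 : (0 : ℚ) ≤ k := Nat.cast_nonneg k
          linarith [h6.2, hAa.1]) ih
        have h6 : a + 1 + ((k + 1 : ℕ) : ℚ) = a + 1 + k + 1 := by push_cast; ring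
        rw [h6]; exact h5
    refine tel_inf Q hQ (fun k : ℕ => ((a + 1 + (k : ℚ) : ℚ) : F)) ?_ h4
    intro i j hij
    have h7 : a + 1 + (i : ℚ) = a + 1 + (j : ℚ) := hinj hij
    have : (i : ℚ) = j := by linarith
    exact_mod_cast this
  · have h4 : ∀ k : ℕ, Q.eval ((a - k : ℚ) : F) = 0 := by
      intro k
      induction k with
      | zero => simpa using h3
      | succ k ih =>
        have h6 : a - ((k + 1 : ℕ) : ℚ) + 1 = a - k := by push_cast; ring
        apply hdn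
        · intro hmem
          have h7 := (hA _ hmem).1
          have h8 : (0 : ℚ) ≤ k := Nat.cast_nonneg k
          push_cast at h7
          linarith [hAa.2]
        · rw [h6]; exact ih
    refine tel_inf Q hQ (fun k : ℕ => ((a - (k : ℚ) : ℚ) : F)) ?_ h4
    intro i j hij
    have h7 : a - (i : ℚ) = a - (j : ℚ) := hinj hij
    have : (i : ℚ) = j := by linarith
    exact_mod_cast this

theorem telescope {F : Type*} [Field F] [CharZero F] (P Q N : F[X]) (A : Finset ℚ) (hQ : Q ≠ 0)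
    (hA : ∀ a ∈ A, -1 < a ∧ a < 0) (hdeg : N.natDegree < A.card ∨ N = 0)
    (h : Q.comp (X + 1) * Q * N
      = (∏ a ∈ A, (X - C ((a : ℚ) : F))) * (P.comp (X + 1) * Q - P * Q.comp (X + 1))) :
    N = 0 := by
  classical
  obtain ⟨P', hP'⟩ := EuclideanDomain.gcd_dvd_left P Q
  obtain ⟨Q', hQ'⟩ := EuclideanDomain.gcd_dvd_right P Q
  have hg : EuclideanDomain.gcd P Q ≠ 0 := by
    intro h0
    rw [EuclideanDomain.gcd_eq_zero_iff] at h0
    exact hQ h0.2
  have hQ0 : Q' ≠ 0 := by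
    intro h0
    rw [h0, mul_zero] at hQ'
    exact hQ hQ'
  have hcop : IsCoprime P' Q' := by
    refine ⟨EuclideanDomain.gcdA P Q, EuclideanDomain.gcdB P Q, ?_⟩
    apply mul_left_cancel₀ hg
    have h1 := EuclideanDomain.gcd_eq_gcd_ab P Q
    calc EuclideanDomain.gcd P Q * (EuclideanDomain.gcdA P Q * P' + EuclideanDomain.gcdB P Q * Q')
        = (EuclideanDomain.gcd P Q * P') * EuclideanDomain.gcdA P Q
          + (EuclideanDomain.gcd P Q * Q') * EuclideanDomain.gcdB P Q := by ring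
      _ = P * EuclideanDomain.gcdA P Q + Q * EuclideanDomain.gcdB P Q := by rw [← hP', ← hQ']
      _ = EuclideanDomain.gcd P Q * 1 := by rw [mul_one]; exact h1.symm
  set g := EuclideanDomain.gcd P Q with hgdef
  have hgc : g.comp (X + 1) ≠ 0 := by
    intro h0
    rw [comp_eq_zero_iff] at h0
    rcases h0 with h0 | h0
    · exact hg h0
    · have h1 := h0.2
      have h2 := congrArg (fun q : F[X] => q.coeff 1) h1
      simp [coeff_one] at h2
  refine tel_cop P' Q' N A hQ0 hcop hA hdeg ?_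
  have h1 : g.comp (X + 1) * g * (Q'.comp (X + 1) * Q' * N)
      = g.comp (X + 1) * g * ((∏ a ∈ A, (X - C ((a : ℚ) : F))) *
        (P'.comp (X + 1) * Q' - P' * Q'.comp (X + 1))) := by
    rw [hP', hQ'] at h
    simp only [mul_comp] at h
    linear_combination h
  exact mul_left_cancel₀ (mul_ne_zero hgc hg) h1

end H22GW

end

section

/-!
# OD LemG.
PROOF. Prime by prime (`q`). If a factor is `0` clear. `v_q(M!) = ∑_{i≥1} f_i`, `f_i = M / q^i`. Let
`c_i` = number of `h < M` with `q^i ∣ A - h`, `c_i ≥ f_i` (a range of length `M`), `s_i` = number of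
`h ∈ S` with `q^i ∣ A - h`, `s_i ≤ min(card S, c_i)`.  `v_q` of the product over the complement of `S` is
`≥ ∑_{i, q^i ≤ M} (c_i - s_i) ≥ ∑ max(f_i - card S, 0)`, and `v_q(∏_{k<card S} lcmUpto (M/(k+1))) =
∑_k #{i ≥ 1 : q^i ≤ M/(k+1)} = ∑_i min(card S, f_i)` (`Nat.factorization_lcmUpto`: `Nat.log q n`).
-/

namespace H22OD

open Finset

/-- the number of `h < M`, `h ∉ S`, with `Q ∣ A - h` is at least `M / Q - card S` -/
private lemma lemG_card (M Q : ℕ) (hQ : 0 < Q) (A : ℤ) (S : Finset ℕ) :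
    M / Q - S.card ≤ ((range M \ S).filter fun h : ℕ => (Q : ℤ) ∣ A - (h : ℤ)).card := by
  classical
  have hQZ : (0 : ℤ) < (Q : ℤ) := by exact_mod_cast hQ
  obtain ⟨r, hr⟩ : ∃ r : ℕ, (r : ℤ) = A % (Q : ℤ) :=
    ⟨(A % (Q : ℤ)).toNat, Int.toNat_of_nonneg (Int.emod_nonneg _ hQZ.ne')⟩
  have hrQ : r < Q := by
    have := Int.emod_lt_of_pos A hQZ
    rw [← hr] at this
    exact_mod_cast this
  have h1 : M / Q ≤ ((range M).filter fun h : ℕ => (Q : ℤ) ∣ A - (h : ℤ)).card := by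
    calc M / Q = (range (M / Q)).card := (card_range _).symm
      _ ≤ _ := by
        refine card_le_card_of_injOn (fun j => j * Q + r) ?_ ?_
        · intro j hj
          have hj' : j < M / Q := by simpa using hj
          have h2 : (j + 1) * Q ≤ M := le_trans (Nat.mul_le_mul_right _ hj') (Nat.div_mul_le_self M Q)
          simp only [coe_filter, mem_range, Set.mem_ofPred_eq]
          refine ⟨by nlinarith, ?_⟩
          have h3 : A = (Q : ℤ) * (A / (Q : ℤ)) + (r : ℤ) := by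
            rw [hr]; exact (Int.mul_ediv_add_emod A (Q : ℤ)).symm
          refine ⟨A / (Q : ℤ) - (j : ℤ), ?_⟩
          push_cast
          linear_combination h3
        · intro a _ b _ hab
          have : a * Q = b * Q := by simpa using hab
          exact Nat.eq_of_mul_eq_mul_right hQ this
  have h2 : ((range M).filter fun h : ℕ => (Q : ℤ) ∣ A - (h : ℤ)).card ≤
      ((range M \ S).filter fun h : ℕ => (Q : ℤ) ∣ A - (h : ℤ)).card + S.card := by
    refine le_trans (card_le_card ?_) (card_union_le _ _)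
    intro h hh
    simp only [mem_filter, mem_range, mem_union, mem_sdiff] at hh ⊢
    tauto
  omega

theorem lemG (M : ℕ) (A : ℤ) (S : Finset ℕ) (hS : S ⊆ range M) :
    ((M.factorial : ℕ) : ℤ) ∣ (∏ k ∈ range S.card, (Nat.lcmUpto (M / (k + 1)) : ℤ)) *
      ∏ h ∈ range M \ S, (A - (h : ℤ)) := by
  classical
  by_cases h0 : ∃ h ∈ range M \ S, A - (h : ℤ) = 0
  · obtain ⟨h, hh, hz⟩ := h0
    rw [prod_eq_zero hh hz, mul_zero]
    exact dvd_zero _
  push Not at h0
  have hnz : ∀ h ∈ range M \ S, (A - (h : ℤ)).natAbs ≠ 0 := fun h hh =>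
    Int.natAbs_ne_zero.mpr (h0 h hh)
  have hL : ∀ k ∈ range S.card, Nat.lcmUpto (M / (k + 1)) ≠ 0 := fun k _ => Nat.lcmUpto_ne_zero _
  have hPL : (∏ k ∈ range S.card, Nat.lcmUpto (M / (k + 1))) ≠ 0 := prod_ne_zero_iff.mpr hL
  have hPA : (∏ h ∈ range M \ S, (A - (h : ℤ)).natAbs) ≠ 0 := prod_ne_zero_iff.mpr hnz
  rw [← Int.natAbs_dvd_natAbs, Int.natAbs_mul, Int.natAbs_natCast]
  have e1 : (∏ k ∈ range S.card, (Nat.lcmUpto (M / (k + 1)) : ℤ)).natAbs =
      ∏ k ∈ range S.card, Nat.lcmUpto (M / (k + 1)) := by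
    rw [← Nat.cast_prod, Int.natAbs_natCast]
  have e2 : (∏ h ∈ range M \ S, (A - (h : ℤ))).natAbs = ∏ h ∈ range M \ S, (A - (h : ℤ)).natAbs :=
    map_prod Int.natAbsHom _ _
  rw [e1, e2, ← Nat.factorization_prime_le_iff_dvd (Nat.factorial_ne_zero M) (mul_ne_zero hPL hPA)]
  intro q hq
  rw [Nat.factorization_mul hPL hPA, Finsupp.add_apply, Nat.factorization_prod_apply hL,
    Nat.factorization_prod_apply hnz, Nat.factorization_factorial hq (Nat.lt_succ_self (Nat.log q M))]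
  -- the part of the `lcmUpto`
  have hA : ∑ k ∈ range S.card, (Nat.lcmUpto (M / (k + 1))).factorization q =
      ∑ i ∈ Ico 1 (Nat.log q M).succ, min S.card (M / q ^ i) := by
    have h1 : ∀ k ∈ range S.card, (Nat.lcmUpto (M / (k + 1))).factorization q =
        ∑ i ∈ Ico 1 (Nat.log q M).succ, if k < M / q ^ i then 1 else 0 := by
      intro k _
      rw [Nat.factorization_lcmUpto _ hq, ← card_filter]
      have : (Ico 1 (Nat.log q M).succ).filter (fun i => k < M / q ^ i) =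
          Ico 1 (Nat.log q (M / (k + 1)) + 1) := by
        ext i
        have hqi : 0 < q ^ i := pow_pos hq.pos i
        simp only [mem_filter, mem_Ico]
        have hk1 : k < M / q ^ i ↔ (k + 1) * q ^ i ≤ M := by
          rw [← Nat.succ_le_iff, Nat.le_div_iff_mul_le hqi]
        constructor
        · rintro ⟨⟨h1, h2⟩, h3⟩
          refine ⟨h1, Nat.lt_succ_of_le ?_⟩
          apply Nat.le_log_of_pow_le hq.one_lt
          rw [Nat.le_div_iff_mul_le (Nat.succ_pos k), mul_comm]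
          exact hk1.mp h3
        · rintro ⟨h1, h2⟩
          have h4 : M / (k + 1) ≠ 0 := by
            intro hz
            rw [hz, Nat.log_zero_right] at h2
            omega
          have h3 : q ^ i ≤ M / (k + 1) :=
            Nat.pow_le_of_le_log h4 (Nat.lt_succ_iff.mp h2)
          rw [Nat.le_div_iff_mul_le (Nat.succ_pos k), mul_comm] at h3
          refine ⟨⟨h1, Nat.lt_succ_of_le ?_⟩, hk1.mpr h3⟩
          exact le_trans (Nat.lt_succ_iff.mp h2) (Nat.log_mono_right (Nat.div_le_self _ _))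
      rw [this, Nat.card_Ico]
      rfl
    rw [sum_congr rfl h1, sum_comm]
    refine sum_congr rfl fun i _ => ?_
    rw [← card_filter]
    have : (range S.card).filter (fun k => k < M / q ^ i) = range (min S.card (M / q ^ i)) := by
      ext k
      simp [mem_filter, mem_range]
    rw [this, card_range]
  -- the part of the product
  have hB : ∑ i ∈ Ico 1 (Nat.log q M).succ, (M / q ^ i - S.card) ≤
      ∑ h ∈ range M \ S, ((A - (h : ℤ)).natAbs).factorization q := by
    calc ∑ i ∈ Ico 1 (Nat.log q M).succ, (M / q ^ i - S.card)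
        ≤ ∑ i ∈ Ico 1 (Nat.log q M).succ,
          ((range M \ S).filter fun h : ℕ => ((q ^ i : ℕ) : ℤ) ∣ A - (h : ℤ)).card :=
          sum_le_sum fun i _ => lemG_card M (q ^ i) (pow_pos hq.pos i) A S
      _ = ∑ h ∈ range M \ S, ((Ico 1 (Nat.log q M).succ).filter fun i =>
            ((q ^ i : ℕ) : ℤ) ∣ A - (h : ℤ)).card := by
          simp only [card_filter]
          exact sum_comm
      _ ≤ _ := by
          refine sum_le_sum fun h hh => ?_
          have hs : ((Ico 1 (Nat.log q M).succ).filter fun i => ((q ^ i : ℕ) : ℤ) ∣ A - (h : ℤ)) ⊆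
              Ico 1 (((A - (h : ℤ)).natAbs).factorization q + 1) := by
            intro i hi
            simp only [mem_filter, mem_Ico] at hi ⊢
            refine ⟨hi.1.1, Nat.lt_succ_of_le ?_⟩
            rw [← hq.pow_dvd_iff_le_factorization (hnz h hh)]
            exact Int.natCast_dvd.mp hi.2
          have := card_le_card hs
          rw [Nat.card_Ico] at this
          omega
  rw [hA]
  calc ∑ i ∈ Ico 1 (Nat.log q M).succ, M / q ^ i
      = ∑ i ∈ Ico 1 (Nat.log q M).succ, (min S.card (M / q ^ i) + (M / q ^ i - S.card)) := by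
        refine sum_congr rfl fun i _ => ?_
        omega
    _ = ∑ i ∈ Ico 1 (Nat.log q M).succ, min S.card (M / q ^ i) +
        ∑ i ∈ Ico 1 (Nat.log q M).succ, (M / q ^ i - S.card) := sum_add_distrib
    _ ≤ _ := Nat.add_le_add_left hB _

end H22OD

end

section

/-!
# FD Zero: the zero estimate for finitely many hypergeometric terms

`cosN c P`: the number of roots (with multiplicity) of the polynomial `P` in the coset `c + ℤ`.
`zero_est`: polynomials `A κ` (not all zero) and local solutions `P κ a` (`a` a node, variable `X` the local coordinate) of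
`v κ (a + y) P κ (a + 1) (y) = u κ (a + y) P κ a (y)`.  If the quotients `u κ / v κ` are pairwise not similar (condition on
`cosN`) the expressions `Σ A κ (a + y) P κ a (y)` can not all vanish to the order `e` at `L` nodes.
-/

set_option autoImplicit false

noncomputable section

open Polynomial Finset

namespace Pool.Agent.H83.FD

variable {F : Type*} [Field F]

/-- The shift `X ↦ X + 1`. -/
def shE (F : Type*) [Field F] : F[X] ≃+* F[X] := (algEquivAevalXAddC (1 : F)).toRingEquiv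

theorem shE_apply (P : F[X]) : shE F P = P.comp (X + C 1) := by
  show (algEquivAevalXAddC (1 : F)) P = _
  rw [algEquivAevalXAddC, algEquivOfCompEqX_apply, aeval_def, comp]
  rfl

/-- The shift on rational functions. -/
def shK (F : Type*) [Field F] : FractionRing F[X] ≃+* FractionRing F[X] :=
  IsFractionRing.ringEquivOfRingEquiv (shE F)

theorem shK_map (P : F[X]) : shK F (algebraMap F[X] (FractionRing F[X]) P) =
    algebraMap F[X] (FractionRing F[X]) (P.comp (X + C 1)) := by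
  rw [shK, IsFractionRing.ringEquivOfRingEquiv_algebraMap, shE_apply]

theorem comp_add_comp (P : F[X]) (a b : F) : (P.comp (X + C a)).comp (X + C b) = P.comp (X + C (b + a)) := by
  rw [comp_assoc]
  congr 1
  simp only [add_comp, X_comp, C_comp, C_add]
  ring

theorem comp_ne_zero' {P : F[X]} (hP : P ≠ 0) (a : F) : P.comp (X + C a) ≠ 0 := by
  intro h
  apply hP
  have h1 := comp_add_comp P a (-a)
  rw [h, zero_comp, neg_add_cancel, C_0, add_zero, comp_X] at h1
  exact h1.symm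

/-! ### The Casorati matrix over the polynomials -/

section Mat

variable {m : ℕ} (A u v : Fin m → F[X])

/-- The shift by `a`. -/
def sh (a : F) (P : F[X]) : F[X] := P.comp (X + C a)

theorem sh_sh (P : F[X]) (a b : F) : sh b (sh a P) = sh (b + a) P := comp_add_comp P a b

theorem sh_mul (P Q : F[X]) (a : F) : sh a (P * Q) = sh a P * sh a Q := mul_comp _ _ _

theorem sh_prod {ι : Type*} (s : Finset ι) (P : ι → F[X]) (a : F) : sh a (∏ i ∈ s, P i) = ∏ i ∈ s, sh a (P i) := by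
  unfold sh
  exact prod_comp _ _ _

theorem sh_ne {P : F[X]} (hP : P ≠ 0) (a : F) : sh a P ≠ 0 := comp_ne_zero' hP a

theorem sh_deg (P : F[X]) (a : F) : (sh a P).natDegree = P.natDegree := by
  rw [sh, natDegree_comp, natDegree_X_add_C, mul_one]

/-- The Casorati matrix with polynomial entries, at the base point `b + X`. -/
def casM (b : F) : Matrix (Fin m) (Fin m) F[X] := fun j κ =>
  sh (b + (j : ℕ)) (A κ) * ((∏ i ∈ range j, sh (b + (i : ℕ)) (u κ)) * ∏ i ∈ Ico (j : ℕ) (m - 1), sh (b + (i : ℕ)) (v κ))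

theorem casM_comp (a : F) : (casM A u v 0).det.comp (X + C a) = (casM A u v a).det := by
  have h1 : (casM A u v 0).det.comp (X + C a) = (compRingHom (X + C a)) (casM A u v 0).det := rfl
  rw [h1, RingHom.map_det]
  congr 1
  ext1 j κ
  show (casM A u v 0 j κ).comp (X + C a) = casM A u v a j κ
  show sh a (casM A u v 0 j κ) = casM A u v a j κ
  unfold casM
  rw [sh_mul, sh_mul, sh_prod, sh_prod, sh_sh, zero_add]
  simp only [sh_sh, zero_add]

theorem casM_deg {n0 d : ℕ} (hAd : ∀ κ, (A κ).natDegree < n0) (hud : ∀ κ, (u κ).natDegree ≤ d)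
    (hvd : ∀ κ, (v κ).natDegree ≤ d) : (casM A u v 0).det.natDegree ≤ m * (n0 - 1 + (m - 1) * d) := by
  have he : ∀ j κ, (casM A u v 0 j κ).natDegree ≤ n0 - 1 + (m - 1) * d := by
    intro j κ
    have hj : (j : ℕ) ≤ m - 1 := by have := j.isLt; omega
    have h1 : (∏ i ∈ range (j : ℕ), sh ((0 : F) + (i : ℕ)) (u κ)).natDegree ≤ (j : ℕ) * d := by
      refine (natDegree_prod_le _ _).trans ?_
      refine (sum_le_card_nsmul _ _ d fun i _ => ?_).trans (by rw [card_range, smul_eq_mul])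
      rw [sh_deg]
      exact hud κ
    have h2 : (∏ i ∈ Ico (j : ℕ) (m - 1), sh ((0 : F) + (i : ℕ)) (v κ)).natDegree ≤ (m - 1 - j) * d := by
      refine (natDegree_prod_le _ _).trans ?_
      refine (sum_le_card_nsmul _ _ d fun i _ => ?_).trans (by rw [Nat.card_Ico, smul_eq_mul])
      rw [sh_deg]
      exact hvd κ
    have h3 : (j : ℕ) * d + (m - 1 - j) * d = (m - 1) * d := by
      rw [← add_mul]
      congr 1
      omega
    unfold casM
    refine natDegree_mul_le.trans ?_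
    have h4 := (natDegree_mul_le (p := ∏ i ∈ range (j : ℕ), sh ((0 : F) + (i : ℕ)) (u κ))
      (q := ∏ i ∈ Ico (j : ℕ) (m - 1), sh ((0 : F) + (i : ℕ)) (v κ)))
    rw [sh_deg]
    have := hAd κ
    omega
  rw [Matrix.det_apply]
  refine natDegree_sum_le_of_forall_le _ _ fun σ _ => ?_
  refine (natDegree_smul_le _ _).trans ?_
  refine (natDegree_prod_le _ _).trans ?_
  refine (sum_le_card_nsmul _ _ _ fun i _ => ?_).trans (by rw [card_univ, Fintype.card_fin, smul_eq_mul])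
  exact he _ _

/-- The local relation, `j` steps. -/
theorem rel_iter {P : ℕ → F[X]} {u v : F[X]} {L : ℕ}
    (hrel : ∀ a, a + 1 < L → sh (a : F) v * P (a + 1) = sh (a : F) u * P a) (a j : ℕ) (hj : a + j < L) :
    (∏ i ∈ range j, sh ((a : F) + (i : ℕ)) v) * P (a + j) = (∏ i ∈ range j, sh ((a : F) + (i : ℕ)) u) * P a := by
  induction j with
  | zero => simp
  | succ j ih =>
    have h1 := ih (by omega)
    have h2 := hrel (a + j) (by omega)
    rw [prod_range_succ, prod_range_succ]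
    push_cast at h2
    rw [← add_assoc]
    linear_combination (∏ i ∈ range j, sh ((a : F) + (i : ℕ)) v) * h2 + sh ((a : F) + (j : ℕ)) u * h1

theorem dvd_of_unit {e w : ℕ} {D p q : F[X]} (h : X ^ e ∣ D * (p * q)) (hp : ¬ X ^ (w + 1) ∣ p) (hq : q.eval 0 ≠ 0) :
    X ^ (e - w) ∣ D := by
  rcases eq_or_ne D 0 with rfl | hD
  · exact dvd_zero _
  have hp0 : p ≠ 0 := by
    rintro rfl
    exact hp (dvd_zero _)
  have hq0 : q ≠ 0 := by
    rintro rfl
    rw [eval_zero] at hq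
    exact hq rfl
  have hX : ∀ (n : ℕ) (Q : F[X]), Q ≠ 0 → (X ^ n ∣ Q ↔ n ≤ Q.rootMultiplicity 0) := by
    intro n Q hQ
    rw [le_rootMultiplicity_iff hQ, C_0, sub_zero]
  rw [hX _ _ (mul_ne_zero hD (mul_ne_zero hp0 hq0)), rootMultiplicity_mul (mul_ne_zero hD (mul_ne_zero hp0 hq0)),
    rootMultiplicity_mul (mul_ne_zero hp0 hq0), rootMultiplicity_eq_zero (p := q) (by rwa [IsRoot.def])] at h
  rw [hX _ _ hp0] at hp
  rw [hX _ _ hD]
  omega

/-- Vanishing of the Casorati determinant at the node `a`. -/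
theorem casM_order {P : Fin m → ℕ → F[X]} {L e w : ℕ} (hm : 0 < m)
    (hrel : ∀ κ a, a + 1 < L → sh (a : F) (v κ) * P κ (a + 1) = sh (a : F) (u κ) * P κ a)
    (hv0 : ∀ κ a, a + 1 < L → (v κ).eval (a : F) ≠ 0)
    (hP : ∀ a < L, ∃ κ, ¬ X ^ (w + 1) ∣ P κ a)
    (hz : ∀ a < L, X ^ e ∣ ∑ κ, sh (a : F) (A κ) * P κ a) {a : ℕ} (ha : a + m ≤ L) :
    X ^ (e - w) ∣ (casM A u v (a : F)).det := by
  classical
  obtain ⟨κ₀, hκ₀⟩ := hP a (by omega)
  set V : Fin m → F[X] := fun κ => ∏ i ∈ range (m - 1), sh ((a : F) + (i : ℕ)) (v κ) with hV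
  set t : Fin m → F[X] := fun κ => P κ a * ∏ κ' ∈ univ.erase κ, V κ' with ht
  have hent : ∀ j κ, casM A u v (a : F) j κ * P κ a =
      V κ * (sh ((a + (j : ℕ) : ℕ) : F) (A κ) * P κ (a + j)) := by
    intro j κ
    have hj := j.isLt
    have h1 := rel_iter (hrel κ) a j (by omega)
    have h3 : V κ = (∏ i ∈ range (j : ℕ), sh ((a : F) + (i : ℕ)) (v κ)) *
        ∏ i ∈ Ico (j : ℕ) (m - 1), sh ((a : F) + (i : ℕ)) (v κ) := (prod_range_mul_prod_Ico _ (by omega)).symm
    rw [h3]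
    unfold casM
    push_cast
    linear_combination (-(sh ((a : F) + (j : ℕ)) (A κ) * ∏ i ∈ Ico (j : ℕ) (m - 1), sh ((a : F) + (i : ℕ)) (v κ))) * h1
  have hrow : ∀ j, X ^ e ∣ (casM A u v (a : F)).mulVec t j := by
    intro j
    have hj := j.isLt
    have h1 : (casM A u v (a : F)).mulVec t j = (∏ κ, V κ) * ∑ κ, sh ((a + (j : ℕ) : ℕ) : F) (A κ) * P κ (a + j) := by
      rw [Matrix.mulVec, dotProduct, mul_sum]
      refine sum_congr rfl fun κ _ => ?_
      have h2 := hent j κ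
      have h3 : ∏ κ', V κ' = V κ * ∏ κ' ∈ univ.erase κ, V κ' := (mul_prod_erase univ V (mem_univ κ)).symm
      rw [h3]
      simp only [ht]
      linear_combination (∏ κ' ∈ univ.erase κ, V κ') * h2
    rw [h1]
    exact (hz (a + j) (by omega)).mul_left _
  have hdet : X ^ e ∣ (casM A u v (a : F)).det * (P κ₀ a * ∏ κ' ∈ univ.erase κ₀, V κ') := by
    have h1 : (casM A u v (a : F)).det * t κ₀ =
        ∑ j, (casM A u v (a : F)).adjugate κ₀ j * (casM A u v (a : F)).mulVec t j := by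
      have h2 : (casM A u v (a : F)).adjugate.mulVec ((casM A u v (a : F)).mulVec t) κ₀ =
          (casM A u v (a : F)).det * t κ₀ := by
        rw [Matrix.mulVec_mulVec, Matrix.adjugate_mul, Matrix.smul_mulVec, Matrix.one_mulVec]
        rfl
      rw [← h2]
      rfl
    show X ^ e ∣ (casM A u v (a : F)).det * t κ₀
    rw [h1]
    exact dvd_sum fun j _ => (hrow j).mul_left _
  refine dvd_of_unit hdet hκ₀ ?_
  rw [eval_prod, prod_ne_zero_iff]
  intro κ' _
  simp only [hV]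
  rw [eval_prod, prod_ne_zero_iff]
  intro i hi
  rw [mem_range] at hi
  have h1 := hv0 κ' (a + i) (by omega)
  rw [sh, eval_comp, eval_add, eval_X, eval_C, zero_add]
  push_cast at h1
  exact h1

omit [Field F] in
theorem sum_count_le {T : Finset F} [DecidableEq F] (s : Multiset F) : ∑ x ∈ T, s.count x ≤ s.card := by
  induction s using Multiset.induction_on with
  | empty => simp
  | cons a s ih =>
    have h1 : ∀ x, (a ::ₘ s).count x = s.count x + if x = a then 1 else 0 := by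
      intro x
      rw [Multiset.count_cons]
    simp only [h1, sum_add_distrib, Multiset.card_cons]
    have h2 : ∑ x ∈ T, (if x = a then 1 else 0) ≤ 1 := by
      rw [sum_ite_eq']
      split_ifs <;> omega
    omega

end Mat

end Pool.Agent.H83.FD

end
end

section

/-!
# FD Add: the additive zero estimate

`C e` (`e < w`), `B c` polynomials, `R c a` power series (local solutions of `h (x + 1) - h x = num c / den c` at the node `a`).
If `Σ C_e (a + y) y ^ e + Σ B_c (a + y) R_c,a (y)` vanishes to the order `W` at many nodes `a`, all `C e` and `B c` are `0`, as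
soon as no nontrivial constant combination of the `num c / den c` is of the form `h (x + 1) - h x`, `h` rational.
-/

set_option autoImplicit false

noncomputable section

open Polynomial Finset

namespace Pool.Agent.H83.FD

variable {F : Type*} [Field F]

/-! ### Constants of the shift -/

theorem shift_const [CharZero F] {q : F[X]} (h : q.comp (X + C 1) = q) : ∃ b : F, q = C b := by
  refine ⟨q.eval 0, ?_⟩
  have h1 : ∀ n : ℕ, q.eval (n : F) = q.eval 0 := by
    intro n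
    induction n with
    | zero => rw [Nat.cast_zero]
    | succ n ih =>
      have h2 := congrArg (eval (n : F)) h
      rw [eval_comp, eval_add, eval_X, eval_C] at h2
      rw [Nat.cast_succ, h2, ih]
  have h3 : q - C (q.eval 0) = 0 := by
    refine eq_zero_of_infinite_isRoot _ ?_
    refine Set.Infinite.mono (s := Set.range fun n : ℕ => (n : F)) ?_ (Set.infinite_range_of_injective Nat.cast_injective)
    rintro _ ⟨n, rfl⟩
    show (q - C (q.eval 0)).eval (n : F) = 0
    rw [eval_sub, eval_C, h1, sub_self]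
  exact sub_eq_zero.1 h3

theorem shK_const [CharZero F] {h : FractionRing F[X]} (hh : shK F h = h) :
    ∃ b : F, h = algebraMap F[X] (FractionRing F[X]) (C b) := by
  obtain ⟨p, q, hpq, rfl⟩ := IsFractionRing.exists_reduced_fraction (A := F[X]) h
  have hinj := IsFractionRing.injective F[X] (FractionRing F[X])
  have hne : ∀ P : F[X], P ≠ 0 → algebraMap F[X] (FractionRing F[X]) P ≠ 0 := fun P hP h0 =>
    hP (hinj (h0.trans (map_zero _).symm))
  have hq0 : (q : F[X]) ≠ 0 := nonZeroDivisors.ne_zero q.2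
  have hsq := comp_ne_zero' hq0 1
  rw [IsFractionRing.mk'_eq_div, map_div₀, shK_map, shK_map, div_eq_div_iff (hne _ hsq) (hne _ hq0), ← map_mul,
    ← map_mul] at hh
  have h1 := hinj hh
  have h2 : (q : F[X]) ∣ (q : F[X]).comp (X + C 1) := by
    have h3 : (q : F[X]) ∣ p * (q : F[X]).comp (X + C 1) := ⟨p.comp (X + C 1), by rw [← h1]; ring⟩
    exact (hpq.symm : IsRelPrime (q : F[X]) p).dvd_of_dvd_mul_left h3
  obtain ⟨z, hz⟩ := h2
  have hz0 : z ≠ 0 := by
    rintro rfl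
    rw [mul_zero] at hz
    exact hsq hz
  have h4 : z.natDegree = 0 := by
    have h5 := congrArg natDegree hz
    rw [natDegree_mul hq0 hz0, natDegree_comp, natDegree_X_add_C, mul_one] at h5
    omega
  obtain ⟨b, hb⟩ := natDegree_eq_zero.1 h4
  have h6 : b = 1 := by
    have h7 := congrArg leadingCoeff hz
    rw [leadingCoeff_mul, ← hb, leadingCoeff_C, leadingCoeff_comp (by rw [natDegree_X_add_C]; exact one_ne_zero),
      leadingCoeff_X_add_C, one_pow, mul_one] at h7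
    exact (mul_left_cancel₀ (leadingCoeff_ne_zero.2 hq0) (by rw [mul_one]; exact h7)).symm
  have h8 : (q : F[X]).comp (X + C 1) = q := by rw [hz, ← hb, h6, C_1, mul_one]
  obtain ⟨b1, hb1⟩ := shift_const h8
  have h9 : p.comp (X + C 1) = p := by
    rw [h8] at h1
    exact mul_right_cancel₀ hq0 h1
  obtain ⟨b2, hb2⟩ := shift_const h9
  have hb10 : b1 ≠ 0 := by
    rintro rfl
    rw [C_0] at hb1
    exact hq0 hb1
  refine ⟨b2 / b1, ?_⟩
  rw [IsFractionRing.mk'_eq_div, hb2, hb1, div_eq_iff (hne _ (C_ne_zero.2 hb10)), ← map_mul, ← C_mul, div_mul_cancel₀ _ hb10]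

/-- Polynomials independent over the constants: the Casorati vectors are independent. -/
theorem poly_indep [CharZero F] {t : ℕ} (E : Fin t → F[X]) (hE : LinearIndependent F E)
    (c : Fin t → FractionRing F[X])
    (hc : ∀ j < t, ∑ κ, c κ * algebraMap F[X] (FractionRing F[X]) (sh ((j : ℕ) : F) (E κ)) = 0) : c = 0 := by
  classical
  have hinj := IsFractionRing.injective F[X] (FractionRing F[X])
  have hsh : ∀ (j : ℕ) (P : F[X]), (sh ((j : ℕ) : F) P).comp (X + C 1) = sh ((j + 1 : ℕ) : F) P := by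
    intro j P
    have h1 := sh_sh P ((j : ℕ) : F) 1
    rw [show (1 : F) + ((j : ℕ) : F) = ((j + 1 : ℕ) : F) by push_cast; ring] at h1
    exact h1
  suffices H : ∀ (S : Finset (Fin t)) (c : Fin t → FractionRing F[X]),
      (∀ j < S.card, ∑ κ ∈ S, c κ * algebraMap F[X] (FractionRing F[X]) (sh ((j : ℕ) : F) (E κ)) = 0) →
      ∀ κ ∈ S, c κ = 0 by
    ext1 κ
    exact H univ c (by rw [card_univ, Fintype.card_fin]; exact hc) κ (mem_univ κ)
  intro S
  induction S using Finset.strongInduction with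
  | H S ih =>
    intro c hc
    by_contra hne
    push Not at hne
    obtain ⟨κ₀, hκ₀, hc0⟩ := hne
    set S' := S.erase κ₀ with hS'
    have hcard : S'.card + 1 = S.card := Finset.card_erase_add_one hκ₀
    have hsub : S' ⊂ S := Finset.erase_ssubset hκ₀
    have h2 : ∀ j < S.card, ∑ κ ∈ S, shK F (c κ) * algebraMap F[X] (FractionRing F[X]) (sh ((j + 1 : ℕ) : F) (E κ)) = 0 := by
      intro j hj
      have h3 := congrArg (shK F) (hc j hj)
      rw [map_sum, map_zero] at h3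
      rw [← h3]
      refine Finset.sum_congr rfl fun κ hκ => ?_
      rw [map_mul, shK_map, hsh]
    set d : Fin t → FractionRing F[X] := fun κ => shK F (c κ₀) * c κ - c κ₀ * shK F (c κ) with hd
    have hd0 : d κ₀ = 0 := by simp only [hd]; ring
    have h4 : ∀ j < S'.card, ∑ κ ∈ S', d κ * algebraMap F[X] (FractionRing F[X]) (sh ((j + 1 : ℕ) : F) (E κ)) = 0 := by
      intro j hj
      have e1 := hc (j + 1) (by omega)
      have e2 := h2 j (by omega)
      have e3 : ∑ κ ∈ S, d κ * algebraMap F[X] (FractionRing F[X]) (sh ((j + 1 : ℕ) : F) (E κ)) = 0 := by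
        have e4 : ∑ κ ∈ S, d κ * algebraMap F[X] (FractionRing F[X]) (sh ((j + 1 : ℕ) : F) (E κ)) =
            shK F (c κ₀) * ∑ κ ∈ S, c κ * algebraMap F[X] (FractionRing F[X]) (sh ((j + 1 : ℕ) : F) (E κ)) -
              c κ₀ * ∑ κ ∈ S, shK F (c κ) * algebraMap F[X] (FractionRing F[X]) (sh ((j + 1 : ℕ) : F) (E κ)) := by
          rw [Finset.mul_sum, Finset.mul_sum, ← Finset.sum_sub_distrib]
          refine Finset.sum_congr rfl fun κ _ => ?_
          simp only [hd]
          ring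
        rw [e4, e1, e2, mul_zero, mul_zero, sub_zero]
      rw [← Finset.add_sum_erase S _ hκ₀, hd0, zero_mul, zero_add] at e3
      exact e3
    have h5 : ∀ κ ∈ S', (shK F).symm (d κ) = 0 := by
      refine ih S' hsub _ ?_
      intro j hj
      apply (shK F).injective
      rw [map_sum, map_zero, ← h4 j hj]
      refine Finset.sum_congr rfl fun κ _ => ?_
      rw [map_mul, (shK F).apply_symm_apply, shK_map, hsh]
    have h6 : ∀ κ ∈ S, ∃ b : F, c κ = algebraMap F[X] (FractionRing F[X]) (C b) * c κ₀ := by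
      intro κ hκ
      by_cases hκ0 : κ = κ₀
      · exact ⟨1, by rw [hκ0, C_1, map_one, one_mul]⟩
      · have h8 := h5 κ (Finset.mem_erase.2 ⟨hκ0, hκ⟩)
        have h9 : d κ = 0 := by
          apply (shK F).symm.injective
          rw [h8, map_zero]
        have hσ0 : shK F (c κ₀) ≠ 0 := fun h => hc0 ((shK F).injective (h.trans (map_zero _).symm))
        have h10 : shK F (c κ / c κ₀) = c κ / c κ₀ := by
          rw [map_div₀, div_eq_div_iff hσ0 hc0]
          simp only [hd] at h9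
          linear_combination -h9
        obtain ⟨b, hb⟩ := shK_const h10
        exact ⟨b, by rw [← hb, div_mul_cancel₀ _ hc0]⟩
    choose! b hb using h6
    have hb0 : b κ₀ = 1 := by
      have h1 := hb κ₀ hκ₀
      have h2 : algebraMap F[X] (FractionRing F[X]) (C (b κ₀)) = 1 := by
        have h3 : algebraMap F[X] (FractionRing F[X]) (C (b κ₀)) * c κ₀ = 1 * c κ₀ := by rw [one_mul, ← h1]
        exact mul_right_cancel₀ hc0 h3
      rw [← map_one (algebraMap F[X] (FractionRing F[X]))] at h2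
      have h4 := hinj h2
      rw [← C_1] at h4
      exact C_injective h4
    have h10 := hc 0 (Finset.card_pos.2 ⟨κ₀, hκ₀⟩)
    have h11 : ∑ κ ∈ S, b κ • E κ = 0 := by
      apply hinj
      have h12 : algebraMap F[X] (FractionRing F[X]) (∑ κ ∈ S, b κ • E κ) * c κ₀ =
          ∑ κ ∈ S, c κ * algebraMap F[X] (FractionRing F[X]) (sh ((0 : ℕ) : F) (E κ)) := by
        rw [map_sum, sum_mul]
        refine sum_congr rfl fun κ hκ => ?_
        rw [hb κ hκ, smul_eq_C_mul, map_mul, sh, Nat.cast_zero, C_0, add_zero, comp_X]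
        ring
      rw [h10] at h12
      rw [map_zero]
      exact (mul_eq_zero.1 h12).resolve_right hc0
    have h13 := linearIndependent_iff'.1 hE S b h11 κ₀ hκ₀
    rw [hb0] at h13
    exact one_ne_zero h13

/-- A kernel vector of the bordered Casorati matrix solves the telescoping equation. -/
theorem tele_of_kernel [CharZero F] {t : ℕ} (E : Fin t → F[X]) (hE : LinearIndependent F E)
    (ρ : Fin t → FractionRing F[X]) (rs : Fin t → ℕ → FractionRing F[X])
    (hrs : ∀ k i, rs k (i + 1) = ρ k + shK F (rs k i))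
    (x : Fin t → FractionRing F[X]) (x0 : FractionRing F[X]) (hx : x ≠ 0 ∨ x0 ≠ 0)
    (h : ∀ i ≤ t, ∑ k, algebraMap F[X] (FractionRing F[X]) (sh ((i : ℕ) : F) (E k)) * (x k + x0 * rs k i) = 0) :
    ∀ k, ∃ y : FractionRing F[X], shK F y - y = ρ k := by
  have hsh : ∀ (j : ℕ) (P : F[X]), shK F (algebraMap F[X] (FractionRing F[X]) (sh ((j : ℕ) : F) P)) =
      algebraMap F[X] (FractionRing F[X]) (sh ((j + 1 : ℕ) : F) P) := by
    intro j P
    have h1 := sh_sh P ((j : ℕ) : F) 1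
    rw [show (1 : F) + ((j : ℕ) : F) = ((j + 1 : ℕ) : F) by push_cast; ring] at h1
    rw [shK_map]
    exact congrArg _ h1
  -- `x0` is not zero: row `0` to `t - 1`
  have hx0 : x0 ≠ 0 := by
    intro h0
    have h1 : x = 0 := by
      refine poly_indep E hE x fun j hj => ?_
      have h2 := h j hj.le
      rw [← h2]
      refine sum_congr rfl fun k _ => ?_
      rw [h0, zero_mul, add_zero, mul_comm]
    rcases hx with hx | hx
    · exact hx h1
    · exact hx h0
  intro k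
  have hrow : ∀ i ≤ t, ∑ k, algebraMap F[X] (FractionRing F[X]) (sh ((i : ℕ) : F) (E k)) * (x k / x0 + rs k i) = 0 := by
    intro i hi
    have h1 : ∑ k, algebraMap F[X] (FractionRing F[X]) (sh ((i : ℕ) : F) (E k)) * (x k / x0 + rs k i) =
        x0⁻¹ * ∑ k, algebraMap F[X] (FractionRing F[X]) (sh ((i : ℕ) : F) (E k)) * (x k + x0 * rs k i) := by
      rw [mul_sum]
      refine sum_congr rfl fun k _ => ?_
      field_simp
    rw [h1, h i hi, mul_zero]
  have hz : (fun k => (shK F).symm (shK F (x k / x0) - x k / x0 - ρ k)) = 0 := by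
    refine poly_indep E hE _ fun j hj => ?_
    apply (shK F).injective
    rw [map_sum, map_zero]
    have h1 := congrArg (shK F) (hrow j hj.le)
    rw [map_sum, map_zero] at h1
    have h2 := hrow (j + 1) (by omega)
    have h3 : ∑ k, algebraMap F[X] (FractionRing F[X]) (sh ((j + 1 : ℕ) : F) (E k)) * (shK F (x k / x0) + shK F (rs k j)) -
        ∑ k, algebraMap F[X] (FractionRing F[X]) (sh ((j + 1 : ℕ) : F) (E k)) * (x k / x0 + rs k (j + 1)) = 0 := by
      rw [h2, sub_zero, ← h1]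
      refine sum_congr rfl fun k _ => ?_
      rw [map_mul, hsh, map_add]
    rw [← h3, ← sum_sub_distrib]
    refine sum_congr rfl fun k _ => ?_
    rw [map_mul, (shK F).apply_symm_apply, hsh, hrs]
    ring
  refine ⟨x k / x0, ?_⟩
  have h1 : shK F (x k / x0) - x k / x0 - ρ k = 0 := by
    apply (shK F).symm.injective
    rw [map_zero]
    exact congrFun hz k
  exact sub_eq_zero.1 h1

/-! ### The bordered Casorati matrix -/

section Bord

variable {t : ℕ} {ι : Type*} [Fintype ι] [DecidableEq ι] (E : Fin t → F[X]) (β : Fin t → ι → F) (num den : ι → F[X])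

/-- The common denominator. -/
def bQ (t : ℕ) {ι : Type*} [Fintype ι] [DecidableEq ι] (den : ι → F[X]) (b : F) : F[X] :=
  ∏ q ∈ (univ : Finset ι) ×ˢ range t, sh (b + (q.2 : ℕ)) (den q.1)

/-- The common denominator without one factor. -/
def bE (t : ℕ) {ι : Type*} [Fintype ι] [DecidableEq ι] (den : ι → F[X]) (b : F) (c : ι) (j : ℕ) : F[X] :=
  ∏ q ∈ ((univ : Finset ι) ×ˢ range t).erase (c, j), sh (b + (q.2 : ℕ)) (den q.1)

theorem bQ_eq (b : F) (c : ι) {j : ℕ} (hj : j < t) : bQ t den b = sh (b + (j : ℕ)) (den c) * bE t den b c j := by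
  have h : (c, j) ∈ (univ : Finset ι) ×ˢ range t := mem_product.2 ⟨mem_univ _, mem_range.2 hj⟩
  exact (mul_prod_erase ((univ : Finset ι) ×ˢ range t) (fun q : ι × ℕ => sh (b + (q.2 : ℕ)) (den q.1)) h).symm

/-- The last column. -/
def bN (b : F) (i : ℕ) : F[X] :=
  ∑ k, sh (b + (i : ℕ)) (E k) * ∑ j ∈ range i, ∑ c, C (β k c) * (sh (b + (j : ℕ)) (num c) * bE t den b c j)

/-- The bordered matrix. -/
def bM (b : F) : Matrix (Fin (t + 1)) (Fin (t + 1)) F[X] := fun i =>
  Fin.snoc (α := fun _ => F[X]) (fun k : Fin t => sh (b + (i : ℕ)) (E k)) (bN E β num den b i)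

theorem sh_C (a b : F) : sh a (C b) = C b := C_comp

theorem sh_sum {κ : Type*} (s : Finset κ) (P : κ → F[X]) (a : F) : sh a (∑ i ∈ s, P i) = ∑ i ∈ s, sh a (P i) := by
  unfold sh
  exact Polynomial.sum_comp _ _ _

theorem bN_sh (a : F) (i : ℕ) : sh a (bN E β num den 0 i) = bN E β num den a i := by
  unfold bN bE
  simp only [sh_sum, sh_mul, sh_C, sh_sh, sh_prod, zero_add]

theorem bM_comp (a : F) : (bM E β num den 0).det.comp (X + C a) = (bM E β num den a).det := by
  have h1 : (bM E β num den 0).det.comp (X + C a) = (compRingHom (X + C a)) (bM E β num den 0).det := rfl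
  rw [h1, RingHom.map_det]
  congr 1
  ext1 i k
  show sh a (bM E β num den 0 i k) = bM E β num den a i k
  unfold bM
  refine Fin.lastCases ?_ (fun k => ?_) k
  · rw [Fin.snoc_last, Fin.snoc_last, bN_sh]
  · rw [Fin.snoc_castSucc, Fin.snoc_castSucc, sh_sh, zero_add]

theorem bN_deg {n d : ℕ} (hE : ∀ k, (E k).natDegree < n) (hnd : ∀ c, (num c).natDegree ≤ d)
    (hdd : ∀ c, (den c).natDegree ≤ d) {i : ℕ} (hi : i ≤ t) :
    (bN E β num den 0 i).natDegree ≤ n - 1 + t * Fintype.card ι * d := by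
  unfold bN
  refine natDegree_sum_le_of_forall_le _ _ fun k _ => ?_
  refine natDegree_mul_le.trans (Nat.add_le_add ?_ ?_)
  · rw [sh_deg]
    have := hE k
    omega
  · refine natDegree_sum_le_of_forall_le _ _ fun j hj => ?_
    rw [mem_range] at hj
    refine natDegree_sum_le_of_forall_le _ _ fun c _ => ?_
    refine (natDegree_C_mul_le _ _).trans ?_
    refine natDegree_mul_le.trans ?_
    rw [sh_deg]
    have h1 : (bE t den 0 c j).natDegree ≤ (t * Fintype.card ι - 1) * d := by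
      unfold bE
      refine (natDegree_prod_le _ _).trans ?_
      refine (sum_le_card_nsmul _ _ d fun q _ => ?_).trans ?_
      · rw [sh_deg]
        exact hdd _
      · rw [card_erase_of_mem (mem_product.2 ⟨mem_univ _, mem_range.2 (by omega)⟩), card_product, card_range, card_univ,
          smul_eq_mul, mul_comm (Fintype.card ι) t]
    have h2 : 1 ≤ t * Fintype.card ι := Nat.mul_pos (by omega) (Fintype.card_pos_iff.2 ⟨c⟩)
    calc (num c).natDegree + (bE t den 0 c j).natDegree ≤ d + (t * Fintype.card ι - 1) * d := Nat.add_le_add (hnd c) h1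
      _ = (t * Fintype.card ι) * d := by
        obtain ⟨q, hq⟩ : ∃ q, t * Fintype.card ι = q + 1 := ⟨t * Fintype.card ι - 1, by omega⟩
        rw [hq, Nat.add_sub_cancel]
        ring

theorem bM_deg {n d : ℕ} (hE : ∀ k, (E k).natDegree < n) (hnd : ∀ c, (num c).natDegree ≤ d)
    (hdd : ∀ c, (den c).natDegree ≤ d) :
    (bM E β num den 0).det.natDegree ≤ (t + 1) * (n - 1) + t * Fintype.card ι * d := by
  rw [Matrix.det_apply]
  refine natDegree_sum_le_of_forall_le _ _ fun σ _ => ?_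
  refine (natDegree_smul_le _ _).trans ?_
  refine (natDegree_prod_le _ _).trans ?_
  rw [Fin.sum_univ_castSucc]
  have h1 : ∀ k : Fin t, (bM E β num den 0 (σ k.castSucc) k.castSucc).natDegree ≤ n - 1 := by
    intro k
    unfold bM
    rw [Fin.snoc_castSucc, sh_deg]
    have := hE k
    omega
  have h2 : (bM E β num den 0 (σ (Fin.last t)) (Fin.last t)).natDegree ≤ n - 1 + t * Fintype.card ι * d := by
    unfold bM
    rw [Fin.snoc_last]
    exact bN_deg E β num den hE hnd hdd (by have := (σ (Fin.last t)).isLt; omega)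
  have h3 : ∑ k : Fin t, (bM E β num den 0 (σ k.castSucc) k.castSucc).natDegree ≤ t * (n - 1) := by
    refine (sum_le_card_nsmul _ _ _ fun k _ => h1 k).trans ?_
    rw [card_univ, Fintype.card_fin, smul_eq_mul]
  calc _ ≤ t * (n - 1) + (n - 1 + t * Fintype.card ι * d) := Nat.add_le_add h3 h2
    _ = (t + 1) * (n - 1) + t * Fintype.card ι * d := by ring

end Bord

end Pool.Agent.H83.FD

end
end

section

/-!
# Project EHA: definitions

Elliott-Halberstam on average over short intervals of residue classes.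
-/

set_option autoImplicit false

namespace Pool.Agent.H91.EHA

open Finset

/-- The von Mangoldt function, as a real function on `ℕ`. -/
noncomputable def Lam (n : ℕ) : ℝ := ArithmeticFunction.vonMangoldt n

/-- `psi(y; q, a)`: the sum of `Lam n` over `1 ≤ n ≤ y`, `n ≡ a mod q`. -/
noncomputable def psiA (y q a : ℕ) : ℝ :=
  ∑ n ∈ (Icc 1 y).filter (fun n => n ≡ a [MOD q]), Lam n

/-- The Ramanujan sum `c_c(n) = ∑_{d | (c, n)} d μ(c/d)` (for `n ≥ 1`). -/
noncomputable def ramS (c n : ℕ) : ℝ :=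
  ∑ d ∈ (Nat.gcd c n).divisors, (d : ℝ) * (ArithmeticFunction.moebius (c / d) : ℝ)

/-- The truncated Ramanujan expansion of the von Mangoldt function:
`lamR R n = ∑_{c ≤ R} μ(c)/φ(c) c_c(n)`. -/
noncomputable def lamR (R n : ℕ) : ℝ :=
  ∑ c ∈ Icc 1 R, (ArithmeticFunction.moebius c : ℝ) / (c.totient : ℝ) * ramS c n

/-- The function whose second moments are estimated. -/
noncomputable def hR (R n : ℕ) : ℝ := Lam n - lamR R n

/-- The Dirichlet series of `χ(n) (log n)^k`. -/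
noncomputable def Lk (q : ℕ) (χ : DirichletCharacter ℂ q) (k : ℕ) (s : ℂ) : ℂ :=
  LSeries (fun n => ((Real.log n : ℝ) : ℂ) ^ k * χ (n : ZMod q)) s

/-- The Dirichlet series of `Λ(n) χ(n) (log n)^k`. -/
noncomputable def Fk (q : ℕ) (χ : DirichletCharacter ℂ q) (k : ℕ) (s : ℂ) : ℂ :=
  LSeries (fun n => ((Lam n * Real.log n ^ k : ℝ) : ℂ) * χ (n : ZMod q)) s

end Pool.Agent.H91.EHA

end

section

/-!
# Upper bounds for `L(s,χ)` and its derivatives on `1 < Re s ≤ 2`, nonprincipal characters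

Proof of `Lk_le`: put `M = q (|t| + 2)`.  Terms `n ≤ M`: `∑ (log n)^k / n ≤ (1 + log M)^(k+1)`
(and `1 + log M ≤ 2 log M` since `M ≥ 4`).  Terms `n > M`: partial summation with
`‖∑_{n ≤ u} χ(n)‖ ≤ q` (all complete periods vanish): at most
`q ((log M)^k M^{-1} + |s| ∫_M^∞ ((log u)^k + k (log u)^(k-1)) u^{-2} du) ≤ C_k (log M)^k`,
because `q |s| / M ≤ 2`.  It may be convenient to use discrete Abel summation
`∑_{n > M} χ(n) g(n) = ∑_{n > M} S(n) (g(n) - g(n+1)) - ...` with `g(u) = (log u)^k u^{-s}`,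
`|g'(u)| ≤ (|s| (log u)^k + k (log u)^(k-1)) u^{-2}`.
`Lk_hasDeriv`: Mathlib `LSeries_hasDerivAt` / `LSeries.logMul`.
-/

set_option autoImplicit false

namespace Pool.Agent.H91.EHA

open Finset

private theorem swA_fun_eq (q : ℕ) (χ : DirichletCharacter ℂ q) (k : ℕ) :
    (fun n : ℕ => ((Real.log n : ℝ) : ℂ) ^ k * χ (n : ZMod q))
      = LSeries.logMul^[k] (fun n : ℕ => χ (n : ZMod q)) := by
  induction k with
  | zero => funext n; simp
  | succ k ih =>
    rw [Function.iterate_succ_apply', ← ih]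
    funext n
    simp only [LSeries.logMul]
    rw [pow_succ, Complex.natCast_log]
    ring

theorem swA_absc (q : ℕ) (χ : DirichletCharacter ℂ q) (k : ℕ) (s : ℂ) (hs : 1 < s.re) :
    LSeries.abscissaOfAbsConv (fun n : ℕ => ((Real.log n : ℝ) : ℂ) ^ k * χ (n : ZMod q)) < s.re := by
  rw [swA_fun_eq, LSeries.absicssaOfAbsConv_logPowMul]
  have h1 : LSeries.abscissaOfAbsConv (fun n : ℕ => χ (n : ZMod q)) ≤ (1 : ℝ) := by
    apply LSeries.abscissaOfAbsConv_le_of_forall_lt_LSeriesSummable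
    intro y hy
    exact DirichletCharacter.LSeriesSummable_of_one_lt_re χ (by simpa using hy)
  refine lt_of_le_of_lt h1 ?_
  exact_mod_cast hs

theorem Lk_summable (q : ℕ) (χ : DirichletCharacter ℂ q) (k : ℕ) (s : ℂ) (hs : 1 < s.re) :
    LSeriesSummable (fun n => ((Real.log n : ℝ) : ℂ) ^ k * χ (n : ZMod q)) s :=
  LSeriesSummable_of_abscissaOfAbsConv_lt_re (swA_absc q χ k s hs)

/-! ### Character sums over a full period -/

/-! ### Summation by parts -/

/-! ### Growth of powers of the logarithm -/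

/-! ### The weight -/

end Pool.Agent.H91.EHA

end

section

/-!
# Upper bounds for `L(s,χ)` and its derivatives on `1 < Re s ≤ 2`, nonprincipal characters

Proof of `Lk_le`: put `M = q (|t| + 2)`.  Terms `n ≤ M`: `∑ (log n)^k / n ≤ (1 + log M)^(k+1)`
(and `1 + log M ≤ 2 log M` since `M ≥ 4`).  Terms `n > M`: partial summation with
`‖∑_{n ≤ u} χ(n)‖ ≤ q` (all complete periods vanish): at most
`q ((log M)^k M^{-1} + |s| ∫_M^∞ ((log u)^k + k (log u)^(k-1)) u^{-2} du) ≤ C_k (log M)^k`,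
because `q |s| / M ≤ 2`.  It may be convenient to use discrete Abel summation
`∑_{n > M} χ(n) g(n) = ∑_{n > M} S(n) (g(n) - g(n+1)) - ...` with `g(u) = (log u)^k u^{-s}`,
`|g'(u)| ≤ (|s| (log u)^k + k (log u)^(k-1)) u^{-2}`.
`Lk_hasDeriv`: Mathlib `LSeries_hasDerivAt` / `LSeries.logMul`.
-/

set_option autoImplicit false

namespace Pool.Agent.H91.EHA

open Finset

theorem Lk_hasDeriv (q : ℕ) (χ : DirichletCharacter ℂ q) (k : ℕ) (s : ℂ) (hs : 1 < s.re) :
    HasDerivAt (Lk q χ k) (-(Lk q χ (k + 1) s)) s := by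
  have h1 := LSeries_hasDerivAt (swA_absc q χ k s hs)
  have h2 : LSeries.logMul (fun n : ℕ => ((Real.log n : ℝ) : ℂ) ^ k * χ (n : ZMod q))
      = fun n : ℕ => ((Real.log n : ℝ) : ℂ) ^ (k + 1) * χ (n : ZMod q) := by
    funext n
    simp only [LSeries.logMul]
    rw [pow_succ, Complex.natCast_log]
    ring
  rw [h2] at h1
  exact h1

theorem Lk_zero_eq (q : ℕ) [NeZero q] (χ : DirichletCharacter ℂ q) (s : ℂ) (hs : 1 < s.re) :
    Lk q χ 0 s = DirichletCharacter.LFunction χ s := by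
  rw [DirichletCharacter.LFunction_eq_LSeries χ hs, Lk]
  congr 1
  funext n
  simp

/-! ### Character sums over a full period -/

private theorem swA_period {r : ℕ} (hr : 0 < r) (χ : DirichletCharacter ℂ r) (hχ : χ ≠ 1) (B : ℕ) :
    ∑ b ∈ Ico B (B + r), χ (b : ZMod r) = 0 := by
  have : NeZero r := ⟨hr.ne'⟩
  induction B with
  | zero =>
    obtain ⟨n, rfl⟩ : ∃ n, r = n + 1 := ⟨r - 1, by omega⟩
    have h1 : ∑ x : ZMod (n + 1), χ x = 0 := MulChar.sum_eq_zero_of_ne_one hχ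
    have h2 : ∑ b ∈ range (n + 1), χ ((b : ℕ) : ZMod (n + 1)) = ∑ x : Fin (n + 1), χ (((x : ℕ) : ZMod (n + 1))) :=
      Finset.sum_range (fun b : ℕ => χ (b : ZMod (n + 1)))
    have h3 : ∑ x : Fin (n + 1), χ (((x : ℕ) : ZMod (n + 1))) = ∑ x : ZMod (n + 1), χ x := by
      apply Finset.sum_congr rfl
      intro x _
      congr 1
      exact Fin.cast_val_eq_self x
    have h4 : Ico 0 (0 + (n + 1)) = range (n + 1) := by
      rw [zero_add, Finset.range_eq_Ico]
    rw [h4, h2, h3, h1]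
  | succ B ih =>
    have h1 : ∑ b ∈ Ico B (B + r + 1), χ (b : ZMod r)
        = ∑ b ∈ Ico B (B + r), χ (b : ZMod r) + χ ((B + r : ℕ) : ZMod r) :=
      Finset.sum_Ico_succ_top (by omega) _
    have h2 : ∑ b ∈ Ico B (B + r + 1), χ (b : ZMod r)
        = χ (B : ZMod r) + ∑ b ∈ Ico (B + 1) (B + r + 1), χ (b : ZMod r) :=
      Finset.sum_eq_sum_Ico_succ_bot (by omega) _
    have h3 : ((B + r : ℕ) : ZMod r) = (B : ZMod r) := by
      push_cast
      simp
    rw [h3, ih] at h1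
    rw [h1] at h2
    have h4 : B + 1 + r = B + r + 1 := by omega
    rw [h4]
    have h5 : (0 : ℂ) + χ (B : ZMod r) = χ (B : ZMod r) + 0 := by ring
    rw [h5] at h2
    exact (add_left_cancel h2).symm

private theorem swA_char_partial {r : ℕ} (hr : 0 < r) (χ : DirichletCharacter ℂ r) (hχ : χ ≠ 1)
    (B : ℕ) : ‖∑ b ∈ Icc 1 B, χ (b : ZMod r)‖ ≤ r := by
  induction B using Nat.strong_induction_on with
  | _ B ih =>
    by_cases hB : B < r
    · calc ‖∑ b ∈ Icc 1 B, χ (b : ZMod r)‖ ≤ ∑ b ∈ Icc 1 B, ‖χ (b : ZMod r)‖ := norm_sum_le _ _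
        _ ≤ ∑ b ∈ Icc 1 B, (1 : ℝ) := Finset.sum_le_sum fun b _ => DirichletCharacter.norm_le_one χ _
        _ = B := by simp
        _ ≤ r := by exact_mod_cast hB.le
    · push Not at hB
      have h1 := ih (B - r) (by omega)
      have h2 : ∑ b ∈ Icc 1 B, χ (b : ZMod r) = ∑ b ∈ Icc 1 (B - r), χ (b : ZMod r)
          + ∑ b ∈ Ico (B - r + 1) (B - r + 1 + r), χ (b : ZMod r) := by
        have e1 : Icc 1 B = Ico 1 (B + 1) := by ext x; rw [mem_Icc, mem_Ico]; omega
        have e2 : Icc 1 (B - r) = Ico 1 (B - r + 1) := by ext x; rw [mem_Icc, mem_Ico]; omega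
        have e3 : B - r + 1 + r = B + 1 := by omega
        rw [e1, e2, e3]
        exact (Finset.sum_Ico_consecutive _ (by omega) (by omega)).symm
      rw [h2, swA_period hr χ hχ, add_zero]
      exact h1

/-! ### Summation by parts -/

private theorem swA_abel_eq (f g : ℕ → ℂ) (a b : ℕ) (hab : a + 1 ≤ b) :
    ∑ j ∈ Ioc a b, f j * g j = (∑ j ∈ Icc 1 b, f j) * g b - (∑ j ∈ Icc 1 a, f j) * g (a + 1)
      + ∑ j ∈ Ico (a + 1) b, (∑ i ∈ Icc 1 j, f i) * (g j - g (j + 1)) := by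
  induction b, hab using Nat.le_induction with
  | base =>
    rw [Finset.sum_Icc_succ_top (by omega), Finset.Ico_self, Finset.sum_empty]
    have : Ioc a (a + 1) = {a + 1} := by ext x; simp only [mem_Ioc, mem_singleton]; omega
    rw [this, Finset.sum_singleton]
    ring
  | succ b hb ih =>
    have e1 : Ioc a (b + 1) = insert (b + 1) (Ioc a b) := by
      ext x; simp only [mem_Ioc, mem_insert]; omega
    have e2 : b + 1 ∉ Ioc a b := by simp
    rw [e1, Finset.sum_insert e2, ih, Finset.sum_Ico_succ_top hb,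
      Finset.sum_Icc_succ_top (by omega : 1 ≤ b + 1)]
    ring

private theorem swA_abel (f g : ℕ → ℂ) (a b : ℕ) (hab : a + 1 ≤ b) (ρ : ℝ)
    (hf : ∀ B : ℕ, ‖∑ j ∈ Icc 1 B, f j‖ ≤ ρ) :
    ‖∑ j ∈ Ioc a b, f j * g j‖ ≤ ρ * (‖g b‖ + ‖g (a + 1)‖ +
      ∑ j ∈ Ico (a + 1) b, ‖g j - g (j + 1)‖) := by
  rw [swA_abel_eq f g a b hab]
  calc ‖(∑ j ∈ Icc 1 b, f j) * g b - (∑ j ∈ Icc 1 a, f j) * g (a + 1)
      + ∑ j ∈ Ico (a + 1) b, (∑ i ∈ Icc 1 j, f i) * (g j - g (j + 1))‖
      ≤ ‖(∑ j ∈ Icc 1 b, f j) * g b - (∑ j ∈ Icc 1 a, f j) * g (a + 1)‖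
        + ‖∑ j ∈ Ico (a + 1) b, (∑ i ∈ Icc 1 j, f i) * (g j - g (j + 1))‖ := norm_add_le _ _
    _ ≤ (‖(∑ j ∈ Icc 1 b, f j) * g b‖ + ‖(∑ j ∈ Icc 1 a, f j) * g (a + 1)‖)
        + ∑ j ∈ Ico (a + 1) b, ‖(∑ i ∈ Icc 1 j, f i) * (g j - g (j + 1))‖ :=
        add_le_add (norm_sub_le _ _) (norm_sum_le _ _)
    _ ≤ (ρ * ‖g b‖ + ρ * ‖g (a + 1)‖) + ∑ j ∈ Ico (a + 1) b, ρ * ‖g j - g (j + 1)‖ := by
        simp only [norm_mul]
        refine add_le_add (add_le_add ?_ ?_) (Finset.sum_le_sum fun j _ => ?_)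
        · exact mul_le_mul_of_nonneg_right (hf _) (norm_nonneg _)
        · exact mul_le_mul_of_nonneg_right (hf _) (norm_nonneg _)
        · exact mul_le_mul_of_nonneg_right (hf _) (norm_nonneg _)
    _ = _ := by rw [← Finset.mul_sum]; ring

/-! ### Growth of powers of the logarithm -/

private theorem swA_log_pow (k : ℕ) : ∃ A : ℝ, 1 ≤ A ∧ ∀ Y u : ℝ, 3 ≤ Y → Y ≤ u →
    Real.log u ^ k ≤ A * Real.log Y ^ k * Real.sqrt (u / Y) := by
  refine ⟨(1 + 2 * ((k : ℝ) + 1)) ^ k, ?_, ?_⟩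
  · apply one_le_pow₀
    have : (0 : ℝ) ≤ k := Nat.cast_nonneg k
    linarith
  · intro Y u hY hu
    have hY0 : 0 < Y := by linarith
    have hu0 : 0 < u := by linarith
    have hlY : 1 ≤ Real.log Y := by
      rw [Real.le_log_iff_exp_le hY0]
      have := Real.exp_one_lt_d9
      linarith
    set y : ℝ := u / Y with hy
    have hy1 : 1 ≤ y := by rw [hy, le_div_iff₀ hY0]; linarith
    have hy0 : 0 < y := by linarith
    have hly : 0 ≤ Real.log y := Real.log_nonneg hy1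
    have hk0 : (0 : ℝ) ≤ k := Nat.cast_nonneg k
    have h1 : Real.log u ≤ Real.log Y * (1 + Real.log y) := by
      have : u = Y * y := by rw [hy]; field_simp
      rw [this, Real.log_mul hY0.ne' hy0.ne']
      nlinarith
    have hlu : 0 ≤ Real.log u := Real.log_nonneg (by linarith)
    set ε : ℝ := 1 / (2 * ((k : ℝ) + 1)) with hε
    have hε0 : 0 < ε := by rw [hε]; positivity
    have h2 : Real.log y ≤ y ^ ε / ε := Real.log_le_rpow_div hy0.le hε0
    have h3 : 1 ≤ y ^ ε := Real.one_le_rpow hy1 hε0.le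
    have h4 : 1 + Real.log y ≤ (1 + 2 * ((k : ℝ) + 1)) * y ^ ε := by
      have e : y ^ ε / ε = 2 * ((k : ℝ) + 1) * y ^ ε := by
        rw [hε]; field_simp
      rw [e] at h2
      nlinarith
    have h5 : (y ^ ε) ^ k ≤ Real.sqrt y := by
      rw [Real.sqrt_eq_rpow, ← Real.rpow_natCast, ← Real.rpow_mul hy0.le]
      apply Real.rpow_le_rpow_of_exponent_le hy1
      rw [hε, div_mul_eq_mul_div, one_mul, div_le_div_iff₀ (by positivity) (by norm_num)]
      linarith
    calc Real.log u ^ k ≤ (Real.log Y * (1 + Real.log y)) ^ k := pow_le_pow_left₀ hlu h1 k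
      _ = Real.log Y ^ k * (1 + Real.log y) ^ k := mul_pow _ _ _
      _ ≤ Real.log Y ^ k * ((1 + 2 * ((k : ℝ) + 1)) * y ^ ε) ^ k := by
          apply mul_le_mul_of_nonneg_left _ (by positivity)
          exact pow_le_pow_left₀ (by linarith) h4 k
      _ = Real.log Y ^ k * (1 + 2 * ((k : ℝ) + 1)) ^ k * (y ^ ε) ^ k := by rw [mul_pow]; ring
      _ ≤ Real.log Y ^ k * (1 + 2 * ((k : ℝ) + 1)) ^ k * Real.sqrt y := by
          apply mul_le_mul_of_nonneg_left h5
          positivity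
      _ = _ := by ring

/-! ### The weight -/

private noncomputable def swA_g (k : ℕ) (s : ℂ) (u : ℝ) : ℂ :=
  ((Real.log u : ℝ) : ℂ) ^ k * (u : ℂ) ^ (-s)

private theorem swA_norm_cpow {u : ℝ} (hu : 1 ≤ u) {s : ℂ} (hs : 1 < s.re) (j : ℕ) :
    ‖(u : ℂ) ^ (-s - j)‖ ≤ 1 / u ^ (j + 1) := by
  have hu0 : 0 < u := by linarith
  rw [Complex.norm_cpow_eq_rpow_re_of_pos hu0]
  have h1 : (-s - (j : ℂ)).re ≤ -((j + 1 : ℕ) : ℝ) := by
    simp only [Complex.sub_re, Complex.neg_re, Complex.natCast_re]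
    push_cast
    linarith
  calc u ^ (-s - (j : ℂ)).re ≤ u ^ (-((j + 1 : ℕ) : ℝ)) :=
        Real.rpow_le_rpow_of_exponent_le hu h1
    _ = 1 / u ^ (j + 1) := by
        rw [Real.rpow_neg hu0.le, Real.rpow_natCast, one_div]

private theorem swA_g_norm (k : ℕ) {s : ℂ} (hs : 1 < s.re) {u : ℝ} (hu : 1 ≤ u) :
    ‖swA_g k s u‖ ≤ Real.log u ^ k / u := by
  have h1 := swA_norm_cpow hu hs 0
  simp only [Nat.cast_zero, sub_zero, zero_add, pow_one] at h1
  have h2 : 0 ≤ Real.log u := Real.log_nonneg hu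
  rw [swA_g, norm_mul, norm_pow, Complex.norm_real, Real.norm_eq_abs, abs_of_nonneg h2]
  calc Real.log u ^ k * ‖(u : ℂ) ^ (-s)‖ ≤ Real.log u ^ k * (1 / u) :=
        mul_le_mul_of_nonneg_left h1 (by positivity)
    _ = _ := by ring

private theorem swA_g_deriv (k : ℕ) {s : ℂ} (hs : 1 < s.re) {u : ℝ} (hu : 0 < u) :
    HasDerivAt (swA_g k s)
      ((k : ℂ) * ((Real.log u : ℝ) : ℂ) ^ (k - 1) * ((u⁻¹ : ℝ) : ℂ) * (u : ℂ) ^ (-s)
        + ((Real.log u : ℝ) : ℂ) ^ k * (-s * (u : ℂ) ^ (-s - 1))) u := by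
  have h1 : HasDerivAt (fun v : ℝ => ((Real.log v : ℝ) : ℂ)) ((u⁻¹ : ℝ) : ℂ) u :=
    (Real.hasDerivAt_log hu.ne').ofReal_comp
  have h2 := h1.pow k
  have hs0 : (-s : ℂ) ≠ 0 := by
    intro h
    have : s = 0 := by simpa using h
    rw [this] at hs
    simp at hs
    linarith
  have h3 := hasDerivAt_ofReal_cpow_const hu.ne' hs0
  exact h2.mul h3

private theorem swA_g_diff (k : ℕ) {s : ℂ} (hs : 1 < s.re) (n : ℕ) (hn : 3 ≤ n) :
    ‖swA_g k s n - swA_g k s ((n + 1 : ℕ) : ℝ)‖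
      ≤ (‖s‖ + k) * Real.log ((n + 1 : ℕ) : ℝ) ^ k / (n : ℝ) ^ 2 := by
  have hn3 : (3 : ℝ) ≤ n := by exact_mod_cast hn
  have hn0 : (0 : ℝ) < n := by linarith
  set L : ℝ := Real.log ((n + 1 : ℕ) : ℝ) with hL
  have hbound : ∀ u ∈ Set.Ico (n : ℝ) ((n + 1 : ℕ) : ℝ),
      ‖(k : ℂ) * ((Real.log u : ℝ) : ℂ) ^ (k - 1) * ((u⁻¹ : ℝ) : ℂ) * (u : ℂ) ^ (-s)
        + ((Real.log u : ℝ) : ℂ) ^ k * (-s * (u : ℂ) ^ (-s - 1))‖
        ≤ (‖s‖ + k) * L ^ k / (n : ℝ) ^ 2 := by
    intro u hu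
    have hu1 : (n : ℝ) ≤ u := hu.1
    have hu2 : u < ((n + 1 : ℕ) : ℝ) := hu.2
    have hu3 : (1 : ℝ) ≤ u := by linarith
    have hu0 : 0 < u := by linarith
    have hl1 : 1 ≤ Real.log u := by
      rw [Real.le_log_iff_exp_le hu0]
      have := Real.exp_one_lt_d9
      linarith
    have hl2 : Real.log u ≤ L := Real.log_le_log hu0 hu2.le
    have hc0 := swA_norm_cpow hu3 hs 0
    have hc1 := swA_norm_cpow hu3 hs 1
    simp only [Nat.cast_zero, sub_zero, zero_add, pow_one] at hc0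
    simp only [Nat.cast_one] at hc1
    have hlk : Real.log u ^ k ≤ L ^ k := pow_le_pow_left₀ (by linarith) hl2 k
    have hlk1 : Real.log u ^ (k - 1) ≤ L ^ k :=
      le_trans (pow_le_pow_right₀ hl1 (Nat.sub_le k 1)) hlk
    have hL0 : 0 ≤ L ^ k := le_trans (by positivity) hlk
    have hu2n : 1 / u ^ 2 ≤ 1 / (n : ℝ) ^ 2 := by
      apply one_div_le_one_div_of_le (by positivity)
      exact pow_le_pow_left₀ hn0.le hu1 2
    have hA : ‖(k : ℂ) * ((Real.log u : ℝ) : ℂ) ^ (k - 1) * ((u⁻¹ : ℝ) : ℂ) * (u : ℂ) ^ (-s)‖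
        ≤ k * L ^ k * (1 / (n : ℝ) ^ 2) := by
      rw [norm_mul, norm_mul, norm_mul, norm_pow, Complex.norm_real, Complex.norm_real,
        Real.norm_eq_abs, Real.norm_eq_abs, abs_of_nonneg (by linarith : 0 ≤ Real.log u),
        abs_of_nonneg (inv_nonneg.2 hu0.le), Complex.norm_natCast]
      calc (k : ℝ) * Real.log u ^ (k - 1) * u⁻¹ * ‖(u : ℂ) ^ (-s)‖
          ≤ (k : ℝ) * L ^ k * u⁻¹ * (1 / u) := by
            apply mul_le_mul _ hc0 (norm_nonneg _) (by positivity)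
            apply mul_le_mul_of_nonneg_right _ (inv_nonneg.2 hu0.le)
            exact mul_le_mul_of_nonneg_left hlk1 (Nat.cast_nonneg k)
        _ = (k : ℝ) * L ^ k * (1 / u ^ 2) := by field_simp
        _ ≤ _ := mul_le_mul_of_nonneg_left hu2n (by positivity)
    have hB : ‖((Real.log u : ℝ) : ℂ) ^ k * (-s * (u : ℂ) ^ (-s - 1))‖
        ≤ ‖s‖ * L ^ k * (1 / (n : ℝ) ^ 2) := by
      rw [norm_mul, norm_mul, norm_neg, norm_pow, Complex.norm_real, Real.norm_eq_abs,
        abs_of_nonneg (by linarith : 0 ≤ Real.log u)]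
      calc Real.log u ^ k * (‖s‖ * ‖(u : ℂ) ^ (-s - 1)‖)
          ≤ L ^ k * (‖s‖ * (1 / u ^ (1 + 1))) := by
            apply mul_le_mul hlk _ (by positivity) hL0
            exact mul_le_mul_of_nonneg_left hc1 (norm_nonneg _)
        _ = ‖s‖ * L ^ k * (1 / u ^ 2) := by ring
        _ ≤ _ := mul_le_mul_of_nonneg_left hu2n (by positivity)
    calc _ ≤ _ + _ := norm_add_le _ _
      _ ≤ k * L ^ k * (1 / (n : ℝ) ^ 2) + ‖s‖ * L ^ k * (1 / (n : ℝ) ^ 2) := add_le_add hA hB
      _ = _ := by ring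
  have hmv := norm_image_sub_le_of_norm_deriv_le_segment' (f := swA_g k s)
    (a := (n : ℝ)) (b := ((n + 1 : ℕ) : ℝ))
    (fun u hu => (swA_g_deriv k hs (lt_of_lt_of_le hn0 hu.1)).hasDerivWithinAt) hbound
    ((n + 1 : ℕ) : ℝ) (by
      constructor
      · push_cast; linarith
      · exact le_refl _)
  rw [norm_sub_rev]
  refine le_trans hmv (le_of_eq ?_)
  push_cast
  ring

private theorem swA_tele (j : ℕ) (hj : 2 ≤ j) :
    Real.sqrt ((j : ℝ) + 1) / (j : ℝ) ^ 2
      ≤ 4 * (1 / Real.sqrt ((j : ℝ) - 1) - 1 / Real.sqrt (j : ℝ)) := by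
  have hj2 : (2 : ℝ) ≤ j := by exact_mod_cast hj
  set a := Real.sqrt ((j : ℝ) - 1) with ha
  set b := Real.sqrt (j : ℝ) with hb
  set c := Real.sqrt ((j : ℝ) + 1) with hc
  have ha2 : a ^ 2 = (j : ℝ) - 1 := Real.sq_sqrt (by linarith)
  have hb2 : b ^ 2 = (j : ℝ) := Real.sq_sqrt (by linarith)
  have hc2 : c ^ 2 = (j : ℝ) + 1 := Real.sq_sqrt (by linarith)
  have ha0 : 0 < a := Real.sqrt_pos.2 (by linarith)
  have hb0 : 0 < b := Real.sqrt_pos.2 (by linarith)
  have hc0 : 0 < c := Real.sqrt_pos.2 (by linarith)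
  have hab : a ≤ b := Real.sqrt_le_sqrt (by linarith)
  have hcb : c ≤ 2 * b := by
    nlinarith
  have hj4 : (j : ℝ) ^ 2 = b ^ 4 := by rw [← hb2]; ring
  have hsum : (b - a) * (b + a) = 1 := by nlinarith
  have h1 : 1 / a - 1 / b = 1 / (a * b * (a + b)) := by
    field_simp
    nlinarith
  rw [h1, hj4]
  have h2 : 1 / (2 * b ^ 3) ≤ 1 / (a * b * (a + b)) := by
    apply one_div_le_one_div_of_le (by positivity)
    have e1 : a * b ≤ b * b := mul_le_mul_of_nonneg_right hab hb0.le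
    calc a * b * (a + b) ≤ (b * b) * (b + b) := by
          apply mul_le_mul e1 (by linarith) (by positivity) (by positivity)
      _ = 2 * b ^ 3 := by ring
  calc c / b ^ 4 ≤ 2 * b / b ^ 4 := by
        apply div_le_div_of_nonneg_right hcb (by positivity)
    _ = 4 * (1 / (2 * b ^ 3)) := by field_simp; ring
    _ ≤ _ := by linarith

private theorem swA_tele_sum (a b : ℕ) (ha : 1 ≤ a) (hab : a + 1 ≤ b) :
    ∑ j ∈ Ico (a + 1) b, Real.sqrt ((j : ℝ) + 1) / (j : ℝ) ^ 2 ≤ 4 / Real.sqrt (a : ℝ) := by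
  have h1 : ∀ b : ℕ, a + 1 ≤ b → ∑ j ∈ Ico (a + 1) b, Real.sqrt ((j : ℝ) + 1) / (j : ℝ) ^ 2
      ≤ 4 * (1 / Real.sqrt (a : ℝ) - 1 / Real.sqrt ((b : ℝ) - 1)) := by
    intro b hb
    induction b, hb using Nat.le_induction with
    | base => simp
    | succ b hb ih =>
      rw [Finset.sum_Ico_succ_top hb]
      have h2 := swA_tele b (by omega)
      have h3 : ((b + 1 : ℕ) : ℝ) - 1 = b := by push_cast; ring
      rw [h3]
      linarith
  have h2 := h1 b hab
  have h3 : 0 ≤ 1 / Real.sqrt ((b : ℝ) - 1) := by positivity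
  have h4 : 4 / Real.sqrt (a : ℝ) = 4 * (1 / Real.sqrt (a : ℝ)) := by ring
  rw [h4]
  linarith

private theorem swA_small (Y u : ℝ) (hY : 3 ≤ Y) (hu : Y ≤ u) :
    Real.sqrt (u / Y) / u ≤ 1 / Y := by
  have hY0 : 0 < Y := by linarith
  have hu0 : 0 < u := by linarith
  have h1 : 1 ≤ u / Y := by rw [le_div_iff₀ hY0]; linarith
  have h2 : Real.sqrt (u / Y) ≤ u / Y := by
    rw [Real.sqrt_le_left (by linarith)]
    nlinarith
  calc Real.sqrt (u / Y) / u ≤ (u / Y) / u := div_le_div_of_nonneg_right h2 hu0.le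
    _ = 1 / Y := by field_simp

private theorem swA_tail (k : ℕ) : ∃ C : ℝ, 0 < C ∧ ∀ q : ℕ, 2 ≤ q →
    ∀ χ : DirichletCharacter ℂ q, χ ≠ 1 → ∀ s : ℂ, 1 < s.re → s.re ≤ 2 → ∀ N : ℕ,
      ‖∑ n ∈ Ioc ⌊(q : ℝ) * (|s.im| + 2)⌋₊ N, χ (n : ZMod q) * swA_g k s (n : ℝ)‖
        ≤ C * Real.log (q * (|s.im| + 2)) ^ k := by
  obtain ⟨A, hA1, hA⟩ := swA_log_pow k
  refine ⟨A * (9 + 4 * k), by positivity, ?_⟩
  intro q hq χ hχ s hs hs2 N
  have hq2 : (2 : ℝ) ≤ q := by exact_mod_cast hq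
  have hq0 : (0 : ℝ) < q := by linarith
  have ht := abs_nonneg s.im
  set Y : ℝ := (q : ℝ) * (|s.im| + 2) with hYdef
  have hY4 : 4 ≤ Y := by rw [hYdef]; nlinarith
  have hY0 : 0 < Y := by linarith
  set M : ℕ := ⌊Y⌋₊ with hM
  have hM1 : (M : ℝ) ≤ Y := Nat.floor_le hY0.le
  have hM2 : Y < (M : ℝ) + 1 := Nat.lt_floor_add_one Y
  have hM4 : 4 ≤ M := by
    rw [hM]; exact Nat.le_floor (by exact_mod_cast hY4)
  have hlY : 0 ≤ Real.log Y ^ k := by
    have := Real.log_nonneg (by linarith : 1 ≤ Y)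
    positivity
  have hk0 : (0 : ℝ) ≤ k := Nat.cast_nonneg k
  by_cases hN : M + 1 ≤ N
  swap
  · have : Ioc M N = ∅ := by
      rw [Finset.Ioc_eq_empty_iff]; omega
    rw [this, Finset.sum_empty, norm_zero]
    positivity
  have hab := swA_abel (fun n : ℕ => χ (n : ZMod q)) (fun n : ℕ => swA_g k s (n : ℝ)) M N hN q
    (fun B => swA_char_partial (by omega) χ hχ B)
  refine le_trans hab ?_
  have hg : ∀ n : ℕ, M + 1 ≤ n → ‖swA_g k s (n : ℝ)‖ ≤ A * Real.log Y ^ k * (1 / Y) := by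
    intro n hn
    have hn1 : ((M : ℝ) + 1) ≤ n := by exact_mod_cast hn
    have hYn : Y ≤ n := by linarith
    have hn0 : (0 : ℝ) < n := by linarith
    calc ‖swA_g k s (n : ℝ)‖ ≤ Real.log n ^ k / n := swA_g_norm k hs (by linarith)
      _ ≤ A * Real.log Y ^ k * Real.sqrt ((n : ℝ) / Y) / n :=
          div_le_div_of_nonneg_right (hA Y n (by linarith) hYn) hn0.le
      _ = A * Real.log Y ^ k * (Real.sqrt ((n : ℝ) / Y) / n) := by ring
      _ ≤ _ := mul_le_mul_of_nonneg_left (swA_small Y n (by linarith) hYn) (by positivity)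
  have hsn : ‖s‖ ≤ |s.im| + 2 := by
    have := Complex.norm_le_abs_re_add_abs_im s
    rw [abs_of_pos (by linarith : 0 < s.re)] at this
    linarith
  have hd : ∑ j ∈ Ico (M + 1) N, ‖swA_g k s (j : ℝ) - swA_g k s ((j + 1 : ℕ) : ℝ)‖
      ≤ (‖s‖ + k) * (A * Real.log Y ^ k) * (8 / Y) := by
    have hterm : ∀ j ∈ Ico (M + 1) N, ‖swA_g k s (j : ℝ) - swA_g k s ((j + 1 : ℕ) : ℝ)‖
        ≤ (‖s‖ + k) * (A * Real.log Y ^ k) / Real.sqrt Y *
          (Real.sqrt ((j : ℝ) + 1) / (j : ℝ) ^ 2) := by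
      intro j hj
      rw [mem_Ico] at hj
      have hj1 : ((M : ℝ) + 1) ≤ j := by exact_mod_cast hj.1
      have hj0 : (0 : ℝ) < j := by linarith
      have hYj : Y ≤ ((j + 1 : ℕ) : ℝ) := by push_cast; linarith
      have h1 := swA_g_diff k hs j (by omega)
      have h2 := hA Y ((j + 1 : ℕ) : ℝ) (by linarith) hYj
      have h3 : Real.sqrt (((j + 1 : ℕ) : ℝ) / Y) = Real.sqrt ((j : ℝ) + 1) / Real.sqrt Y := by
        rw [Real.sqrt_div (by positivity)]
        push_cast
        rfl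
      rw [h3] at h2
      refine le_trans h1 ?_
      calc (‖s‖ + k) * Real.log ((j + 1 : ℕ) : ℝ) ^ k / (j : ℝ) ^ 2
          ≤ (‖s‖ + k) * (A * Real.log Y ^ k * (Real.sqrt ((j : ℝ) + 1) / Real.sqrt Y))
              / (j : ℝ) ^ 2 := by
            apply div_le_div_of_nonneg_right _ (by positivity)
            exact mul_le_mul_of_nonneg_left h2 (by positivity)
        _ = _ := by
            have : Real.sqrt Y ≠ 0 := (Real.sqrt_pos.2 hY0).ne'
            field_simp
    refine le_trans (Finset.sum_le_sum hterm) ?_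
    rw [← Finset.mul_sum]
    have h1 := swA_tele_sum M N (by omega) hN
    have hMr : (4 : ℝ) ≤ M := by exact_mod_cast hM4
    have hMY : Y / 2 ≤ M := by linarith
    have hsM : Real.sqrt Y / 2 ≤ Real.sqrt M := by
      apply Real.le_sqrt_of_sq_le
      rw [div_pow, Real.sq_sqrt hY0.le]
      linarith
    have hsY : 0 < Real.sqrt Y := Real.sqrt_pos.2 hY0
    have h2 : 4 / Real.sqrt (M : ℝ) ≤ 8 / Real.sqrt Y := by
      rw [div_le_div_iff₀ (Real.sqrt_pos.2 (by linarith)) hsY]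
      linarith
    calc (‖s‖ + k) * (A * Real.log Y ^ k) / Real.sqrt Y *
          ∑ i ∈ Ico (M + 1) N, Real.sqrt ((i : ℝ) + 1) / (i : ℝ) ^ 2
        ≤ (‖s‖ + k) * (A * Real.log Y ^ k) / Real.sqrt Y * (8 / Real.sqrt Y) := by
          apply mul_le_mul_of_nonneg_left (le_trans h1 h2)
          positivity
      _ = (‖s‖ + k) * (A * Real.log Y ^ k) * (8 / (Real.sqrt Y * Real.sqrt Y)) := by
          field_simp
      _ = _ := by rw [Real.mul_self_sqrt hY0.le]
  have hqY : (q : ℝ) / Y ≤ 1 / 2 := by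
    rw [div_le_div_iff₀ hY0 (by norm_num), hYdef]
    nlinarith
  have hqs : (q : ℝ) * ‖s‖ / Y ≤ 1 := by
    rw [div_le_one hY0, hYdef]
    exact mul_le_mul_of_nonneg_left hsn hq0.le
  calc (q : ℝ) * (‖swA_g k s (N : ℝ)‖ + ‖swA_g k s ((M + 1 : ℕ) : ℝ)‖ +
        ∑ j ∈ Ico (M + 1) N, ‖swA_g k s (j : ℝ) - swA_g k s ((j + 1 : ℕ) : ℝ)‖)
      ≤ (q : ℝ) * (A * Real.log Y ^ k * (1 / Y) + A * Real.log Y ^ k * (1 / Y) +
          (‖s‖ + k) * (A * Real.log Y ^ k) * (8 / Y)) := by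
        apply mul_le_mul_of_nonneg_left _ hq0.le
        exact add_le_add (add_le_add (hg N hN) (hg (M + 1) le_rfl)) hd
    _ = A * Real.log Y ^ k * (2 * (q / Y) + 8 * (q * ‖s‖ / Y) + 8 * k * (q / Y)) := by ring
    _ ≤ A * Real.log Y ^ k * (2 * (1 / 2) + 8 * 1 + 8 * k * (1 / 2)) := by
        apply mul_le_mul_of_nonneg_left _ (by positivity)
        have := mul_le_mul_of_nonneg_left hqY (by positivity : (0 : ℝ) ≤ 8 * k)
        linarith
    _ = _ := by ring

private theorem swA_head (k : ℕ) (q : ℕ) (χ : DirichletCharacter ℂ q) (s : ℂ) (hs : 1 < s.re)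
    (Y : ℝ) (hY : 4 ≤ Y) :
    ‖∑ n ∈ Icc 1 ⌊Y⌋₊, χ (n : ZMod q) * swA_g k s (n : ℝ)‖ ≤ 2 * Real.log Y ^ (k + 1) := by
  have hY0 : 0 < Y := by linarith
  have hM1 : ((⌊Y⌋₊ : ℕ) : ℝ) ≤ Y := Nat.floor_le hY0.le
  have hM4 : 4 ≤ ⌊Y⌋₊ := Nat.le_floor (by exact_mod_cast hY)
  have hlY : 1 ≤ Real.log Y := by
    rw [Real.le_log_iff_exp_le hY0]
    have := Real.exp_one_lt_d9
    linarith
  have hterm : ∀ n ∈ Icc 1 ⌊Y⌋₊, ‖χ (n : ZMod q) * swA_g k s (n : ℝ)‖
      ≤ Real.log Y ^ k * ((n : ℝ)⁻¹) := by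
    intro n hn
    rw [mem_Icc] at hn
    have hn1 : (1 : ℝ) ≤ n := by exact_mod_cast hn.1
    have hn2 : (n : ℝ) ≤ Y := le_trans (by exact_mod_cast hn.2) hM1
    rw [norm_mul]
    calc ‖χ (n : ZMod q)‖ * ‖swA_g k s (n : ℝ)‖ ≤ 1 * (Real.log n ^ k / n) := by
          apply mul_le_mul (DirichletCharacter.norm_le_one χ _) (swA_g_norm k hs hn1)
            (norm_nonneg _) zero_le_one
      _ = Real.log n ^ k * (n : ℝ)⁻¹ := by rw [one_mul, div_eq_mul_inv]
      _ ≤ _ := by
          apply mul_le_mul_of_nonneg_right _ (by positivity)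
          exact pow_le_pow_left₀ (Real.log_nonneg hn1) (Real.log_le_log (by linarith) hn2) k
  have hharm : ∑ n ∈ Icc 1 ⌊Y⌋₊, ((n : ℝ)⁻¹) ≤ 1 + Real.log Y := by
    have h1 := harmonic_le_one_add_log ⌊Y⌋₊
    have h2 : ((harmonic ⌊Y⌋₊ : ℚ) : ℝ) = ∑ n ∈ Icc 1 ⌊Y⌋₊, ((n : ℝ)⁻¹) := by
      rw [harmonic_eq_sum_Icc]
      push_cast
      rfl
    rw [← h2]
    refine le_trans h1 ?_
    have : Real.log ((⌊Y⌋₊ : ℕ) : ℝ) ≤ Real.log Y :=
      Real.log_le_log (by exact_mod_cast (by omega : 0 < ⌊Y⌋₊)) hM1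
    linarith
  calc ‖∑ n ∈ Icc 1 ⌊Y⌋₊, χ (n : ZMod q) * swA_g k s (n : ℝ)‖
      ≤ ∑ n ∈ Icc 1 ⌊Y⌋₊, ‖χ (n : ZMod q) * swA_g k s (n : ℝ)‖ := norm_sum_le _ _
    _ ≤ ∑ n ∈ Icc 1 ⌊Y⌋₊, Real.log Y ^ k * ((n : ℝ)⁻¹) := Finset.sum_le_sum hterm
    _ = Real.log Y ^ k * ∑ n ∈ Icc 1 ⌊Y⌋₊, ((n : ℝ)⁻¹) := by rw [Finset.mul_sum]
    _ ≤ Real.log Y ^ k * (1 + Real.log Y) := mul_le_mul_of_nonneg_left hharm (by positivity)
    _ ≤ Real.log Y ^ k * (2 * Real.log Y) := by
        apply mul_le_mul_of_nonneg_left _ (by positivity)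
        linarith
    _ = _ := by rw [pow_succ]; ring

theorem Lk_le (k : ℕ) : ∃ C : ℝ, 0 < C ∧ ∀ q : ℕ, 2 ≤ q → ∀ χ : DirichletCharacter ℂ q, χ ≠ 1 →
    ∀ s : ℂ, 1 < s.re → s.re ≤ 2 →
      ‖Lk q χ k s‖ ≤ C * Real.log (q * (|s.im| + 2)) ^ (k + 1) := by
  obtain ⟨C, hC, htail⟩ := swA_tail k
  refine ⟨C + 2, by linarith, ?_⟩
  intro q hq χ hχ s hs hs2
  have hq2 : (2 : ℝ) ≤ q := by exact_mod_cast hq
  have ht := abs_nonneg s.im
  set Y : ℝ := (q : ℝ) * (|s.im| + 2) with hYdef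
  have hY4 : 4 ≤ Y := by rw [hYdef]; nlinarith
  have hY0 : 0 < Y := by linarith
  have hlY : 1 ≤ Real.log Y := by
    rw [Real.le_log_iff_exp_le hY0]
    have := Real.exp_one_lt_d9
    linarith
  have hsum := Lk_summable q χ k s hs
  have hlim := hsum.hasSum.tendsto_sum_nat
  have hterm : ∀ n : ℕ, n ≠ 0 →
      LSeries.term (fun n : ℕ => ((Real.log n : ℝ) : ℂ) ^ k * χ (n : ZMod q)) s n
        = χ (n : ZMod q) * swA_g k s (n : ℝ) := by
    intro n hn
    rw [LSeries.term_of_ne_zero hn, swA_g, Complex.cpow_neg]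
    push_cast
    rw [div_eq_mul_inv]
    ring
  refine le_of_tendsto hlim.norm ?_
  filter_upwards [Filter.eventually_ge_atTop (⌊Y⌋₊ + 1)] with N hN
  obtain ⟨N', rfl⟩ : ∃ N', N = N' + 1 := ⟨N - 1, by omega⟩
  have hN' : ⌊Y⌋₊ ≤ N' := by omega
  have h1 : ∑ i ∈ range (N' + 1),
      LSeries.term (fun n : ℕ => ((Real.log n : ℝ) : ℂ) ^ k * χ (n : ZMod q)) s i
      = ∑ n ∈ Icc 1 ⌊Y⌋₊, χ (n : ZMod q) * swA_g k s (n : ℝ)
        + ∑ n ∈ Ioc ⌊Y⌋₊ N', χ (n : ZMod q) * swA_g k s (n : ℝ) := by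
    have e1 : range (N' + 1) = insert 0 (Icc 1 ⌊Y⌋₊ ∪ Ioc ⌊Y⌋₊ N') := by
      ext x; simp only [mem_range, mem_insert, mem_union, mem_Icc, mem_Ioc]; omega
    have e2 : 0 ∉ Icc 1 ⌊Y⌋₊ ∪ Ioc ⌊Y⌋₊ N' := by simp
    have e3 : Disjoint (Icc 1 ⌊Y⌋₊) (Ioc ⌊Y⌋₊ N') := by
      rw [Finset.disjoint_left]; intro x hx hx'
      rw [mem_Icc] at hx; rw [mem_Ioc] at hx'; omega
    rw [e1, Finset.sum_insert e2, LSeries.term_zero, zero_add, Finset.sum_union e3]
    congr 1
    · apply Finset.sum_congr rfl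
      intro n hn
      rw [mem_Icc] at hn
      exact hterm n (by omega)
    · apply Finset.sum_congr rfl
      intro n hn
      rw [mem_Ioc] at hn
      exact hterm n (by omega)
  rw [h1]
  have h2 := swA_head k q χ s hs Y hY4
  have h3 := htail q hq χ hχ s hs hs2 N'
  have h4 : Real.log Y ^ k ≤ Real.log Y ^ (k + 1) := pow_le_pow_right₀ hlY (Nat.le_succ k)
  calc _ ≤ _ + _ := norm_add_le _ _
    _ ≤ 2 * Real.log Y ^ (k + 1) + C * Real.log Y ^ k := add_le_add h2 h3
    _ ≤ 2 * Real.log Y ^ (k + 1) + C * Real.log Y ^ (k + 1) := by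
        have := mul_le_mul_of_nonneg_left h4 hC.le
        linarith
    _ = _ := by ring

end Pool.Agent.H91.EHA

end
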