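import Pool.Agent.H71.TFC.M01
import Pool.Agent.H71.TFC.M02

/-! The parts of this file: H21.DZ.Diag, H73.QX.Asm, H73.QX.Fin3, H71.FD.Low, H71.FD.Form, H71.NB.RC, H91.EHA.SwH, H91.PK.DiA, H91.PK.Om, H91.EHA.SwG. -/

section

/-!
# One exceptional set for countably many exceptional sets of primes of density zero

If `S 0, S 1, …` are sets of primes of natural density zero (among the primes), there is one set `B`
of natural density zero which contains every `S n` up to finitely many elements.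
-/

namespace Pool.Agent.H21.DZ

/-- the primes `p ≤ x` in `S` -/
def cnt (S : Set ℕ) (x : ℕ) : Set ℕ := {p : ℕ | p.Prime ∧ p ≤ x ∧ p ∈ S}

theorem cnt_fin (S : Set ℕ) (x : ℕ) : (cnt S x).Finite :=
  (Set.finite_Iic x).subset fun _ hp => hp.2.1

theorem cnt_union (S T : Set ℕ) (x : ℕ) :
    ((cnt (S ∪ T) x).ncard : ℝ) ≤ (cnt S x).ncard + (cnt T x).ncard := by
  have h : cnt (S ∪ T) x = cnt S x ∪ cnt T x := by
    ext p; simp only [cnt, Set.mem_ofPred_eq, Set.mem_union]; tauto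
  rw [h]
  exact_mod_cast Set.ncard_union_le _ _

/-- A finite union of sets of density zero. -/
theorem finite_union (S : ℕ → Set ℕ)
    (h : ∀ n, ∀ ε : ℝ, 0 < ε → ∃ x₀ : ℕ, ∀ x : ℕ, x₀ ≤ x →
      ((cnt (S n) x).ncard : ℝ) ≤ ε * (x / Real.log x)) (m : ℕ) :
    ∀ ε : ℝ, 0 < ε → ∃ x₀ : ℕ, ∀ x : ℕ, x₀ ≤ x →
      ((cnt {p | ∃ n ≤ m, p ∈ S n} x).ncard : ℝ) ≤ ε * (x / Real.log x) := by
  induction m with
  | zero =>
    intro ε hε
    obtain ⟨x₀, hx₀⟩ := h 0 ε hε
    refine ⟨x₀, fun x hx => ?_⟩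
    have e : {p | ∃ n ≤ 0, p ∈ S n} = S 0 := by
      ext p; simp
    rw [e]; exact hx₀ x hx
  | succ m ih =>
    intro ε hε
    obtain ⟨x₀, hx₀⟩ := h (m + 1) (ε / 2) (by positivity)
    obtain ⟨x₁, hx₁⟩ := ih (ε / 2) (by positivity)
    refine ⟨max x₀ x₁, fun x hx => ?_⟩
    have e : {p | ∃ n ≤ m + 1, p ∈ S n} = {p | ∃ n ≤ m, p ∈ S n} ∪ S (m + 1) := by
      ext p
      simp only [Set.mem_ofPred_eq, Set.mem_union]
      constructor
      · rintro ⟨n, hn, hp⟩
        rcases Nat.lt_or_ge m n with h' | h'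
        · have : n = m + 1 := by omega
          subst this; exact Or.inr hp
        · exact Or.inl ⟨n, h', hp⟩
      · rintro (⟨n, hn, hp⟩ | hp)
        · exact ⟨n, by omega, hp⟩
        · exact ⟨m + 1, le_rfl, hp⟩
    rw [e]
    have h1 := hx₀ x (le_trans (le_max_left _ _) hx)
    have h2 := hx₁ x (le_trans (le_max_right _ _) hx)
    have h3 := cnt_union {p | ∃ n ≤ m, p ∈ S n} (S (m + 1)) x
    linarith

/-- **One exceptional set.** -/
theorem common (S : ℕ → Set ℕ)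
    (h : ∀ n, ∀ ε : ℝ, 0 < ε → ∃ x₀ : ℕ, ∀ x : ℕ, x₀ ≤ x →
      ((cnt (S n) x).ncard : ℝ) ≤ ε * (x / Real.log x)) :
    ∃ B : Set ℕ, (∀ ε : ℝ, 0 < ε → ∃ x₀ : ℕ, ∀ x : ℕ, x₀ ≤ x →
      ((cnt B x).ncard : ℝ) ≤ ε * (x / Real.log x)) ∧
      ∀ n, ∃ N : ℕ, ∀ p ∈ S n, N ≤ p → p ∈ B := by
  have h1 : ∀ m : ℕ, ∃ x₀ : ℕ, ∀ x : ℕ, x₀ ≤ x →
      ((cnt {p | ∃ n ≤ m, p ∈ S n} x).ncard : ℝ) ≤ 1 / ((m : ℝ) + 1) * (x / Real.log x) :=
    fun m => finite_union S h m _ (by positivity)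
  choose y hy using h1
  -- a monotone choice of the thresholds
  let X : ℕ → ℕ := fun m => (∑ i ∈ Finset.range (m + 1), y i) + m
  have hXy : ∀ m, y m ≤ X m := fun m =>
    le_trans (Finset.single_le_sum (f := y) (fun i _ => Nat.zero_le _)
      (Finset.mem_range.2 (Nat.lt_succ_self m))) (Nat.le_add_right _ _)
  have hXm : ∀ m, m ≤ X m := fun m => Nat.le_add_left _ _
  have hmono : Monotone X := by
    apply monotone_nat_of_le_succ
    intro m
    simp only [X]
    rw [Finset.sum_range_succ _ (m + 1)]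
    omega
  refine ⟨{p | ∃ n, p ∈ S n ∧ X n ≤ p}, ?_, fun n => ⟨X n, fun p hp hN => ⟨n, hp, hN⟩⟩⟩
  intro ε hε
  obtain ⟨m0, hm0⟩ := exists_nat_one_div_lt hε
  refine ⟨X m0, fun x hx => ?_⟩
  -- the largest `m` with `X m ≤ x`
  let m := Nat.findGreatest (fun m => X m ≤ x) x
  have hm1 : X m ≤ x := Nat.findGreatest_spec (P := fun m => X m ≤ x)
    (le_trans (hXm m0) hx) hx
  have hm2 : m0 ≤ m := Nat.le_findGreatest (le_trans (hXm m0) hx) hx
  have hsub : cnt {p | ∃ n, p ∈ S n ∧ X n ≤ p} x ⊆ cnt {p | ∃ n ≤ m, p ∈ S n} x := by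
    rintro p ⟨hp, hpx, n, hn, hX⟩
    refine ⟨hp, hpx, n, ?_, hn⟩
    exact Nat.le_findGreatest (le_trans (hXm n) (le_trans hX hpx)) (le_trans hX hpx)
  have h2 : ((cnt {p | ∃ n, p ∈ S n ∧ X n ≤ p} x).ncard : ℝ) ≤
      (cnt {p | ∃ n ≤ m, p ∈ S n} x).ncard := by
    exact_mod_cast Set.ncard_le_ncard hsub (cnt_fin _ _)
  have h3 := hy m x (le_trans (hXy m) hm1)
  have h4 : (1 : ℝ) / ((m : ℝ) + 1) ≤ ε := by
    refine le_trans ?_ hm0.le
    apply one_div_le_one_div_of_le (by positivity)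
    have : (m0 : ℝ) ≤ m := by exact_mod_cast hm2
    linarith
  have h5 : (0 : ℝ) ≤ x / Real.log x := by
    apply div_nonneg (Nat.cast_nonneg x)
    rcases Nat.eq_zero_or_pos x with h0 | h0
    · subst h0; simp
    · exact Real.log_nonneg (by exact_mod_cast h0)
  calc ((cnt {p | ∃ n, p ∈ S n ∧ X n ≤ p} x).ncard : ℝ) ≤ _ := h2
    _ ≤ _ := h3
    _ ≤ ε * (x / Real.log x) := mul_le_mul_of_nonneg_right h4 h5

end Pool.Agent.H21.DZ

end

section

/-!
# QX Asm: assembly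

The analytic inputs are hypotheses here (`MassProp`, `IndProp`, `CntProp`); they are supplied in `QX.Fin2`.
-/

set_option autoImplicit false

open NumberField IsDedekindDomain

namespace Pool.Agent.H73.QX

open Finset

open Classical in
/-- the number of primes up to `x` with a property -/
noncomputable def cnt (G : ℕ → Prop) (x : ℕ) : ℕ :=
  ((Icc 1 x).filter (fun p => p.Prime ∧ G p)).card

end Pool.Agent.H73.QX

end

section

/-!
# QX Fin3: the quadratic fields in which `2` is inert; sets of primes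
-/

set_option autoImplicit false

open NumberField IsDedekindDomain

namespace Pool.Agent.H73.QX

open Finset

/-- `cnt` as the number of elements of a set -/
theorem cnt_eq (G : ℕ → Prop) (x : ℕ) :
    cnt G x = {p : ℕ | p.Prime ∧ p ≤ x ∧ G p}.ncard := by
  classical
  unfold cnt
  rw [← Set.ncard_coe_finset]
  congr 1
  ext p
  simp only [coe_filter, mem_Icc, Set.mem_ofPred_eq]
  constructor
  · rintro ⟨⟨-, h1⟩, h2, h3⟩
    exact ⟨h2, h1, h3⟩
  · rintro ⟨h2, h1, h3⟩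
    exact ⟨⟨h2.one_lt.le, h1⟩, h2, h3⟩

end Pool.Agent.H73.QX

end

section

/-!
# Non-Wieferich primes outside a set of density zero
-/

set_option autoImplicit false

namespace Pool.Agent.H71.FD

open Finset Filter

theorem cnt_eq_cn (G : ℕ → Prop) (x : ℕ) : Pool.Agent.H73.QX.cnt G x = cn G x := rfl

theorem cn_eq_ncard (G : ℕ → Prop) (x : ℕ) :
    cn G x = {p : ℕ | p.Prime ∧ p ≤ x ∧ G p}.ncard := by
  rw [← cnt_eq_cn]
  exact Pool.Agent.H73.QX.cnt_eq G x

end Pool.Agent.H71.FD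

end

section

/-!
# Densities in the form `#{p ≤ x prime, p ∈ S}` against `x / log x`

Conversions from `Null`, `cn` to the final statements (`DensityZero`, `LowerDensity`,
`UpperDensity`, unfolded), for `FirstCaseAllFields`.
-/

set_option autoImplicit false

namespace Pool.Agent.H71.FD

open Finset Filter

theorem ncard_mem (S : Set ℕ) (x : ℕ) :
    {p : ℕ | p.Prime ∧ p ≤ x ∧ p ∈ S}.ncard = cn (fun p => p ∈ S) x :=
  (cn_eq_ncard (fun p => p ∈ S) x).symm

theorem le_ncard (S : Set ℕ) (G : ℕ → Prop) (h : ∀ p, p.Prime → G p → p ∈ S) (x : ℕ) :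
    (cn G x : ℝ) ≤ ({p : ℕ | p.Prime ∧ p ≤ x ∧ p ∈ S}.ncard : ℝ) := by
  rw [ncard_mem]
  exact Nat.cast_le.2 (cn_mono h x)

/-- a null set has natural density zero among the primes -/
theorem densityZero_of_null (S : Set ℕ) (h : Null (fun p => p ∈ S)) :
    ∀ ε : ℝ, 0 < ε → ∃ x₀ : ℕ, ∀ x : ℕ, x₀ ≤ x →
      ({p : ℕ | p.Prime ∧ p ≤ x ∧ p ∈ S}.ncard : ℝ) ≤ ε * (x / Real.log x) := by
  intro ε hε
  obtain ⟨x₀, hx₀⟩ := eventually_atTop.1 (h.cn_le ε hε)
  refine ⟨x₀, fun x hx => ?_⟩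
  rw [ncard_mem]
  exact hx₀ x hx

theorem densityZero_of_null' (G : ℕ → Prop) (h : Null G) :
    ∀ ε : ℝ, 0 < ε → ∃ x₀ : ℕ, ∀ x : ℕ, x₀ ≤ x →
      ({p : ℕ | p.Prime ∧ p ≤ x ∧ p ∈ {p | G p}}.ncard : ℝ) ≤ ε * (x / Real.log x) :=
  densityZero_of_null {p | G p} h

/-- lower density from the count of a subset, outside a null set -/
theorem lower_of_cn (S : Set ℕ) (G B : ℕ → Prop) (δ : ℝ)
    (hG : ∀ ε : ℝ, 0 < ε → ∀ᶠ x : ℕ in atTop, (δ - ε) * ((x : ℝ) / Real.log x) ≤ cn G x)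
    (hB : Null B) (hS : ∀ p, p.Prime → G p → ¬ B p → p ∈ S) :
    ∀ ε : ℝ, 0 < ε → ∃ x₀ : ℕ, ∀ x : ℕ, x₀ ≤ x →
      (δ - ε) * (x / Real.log x) ≤ ({p : ℕ | p.Prime ∧ p ≤ x ∧ p ∈ S}.ncard : ℝ) := by
  intro ε hε
  obtain ⟨x₀, hx₀⟩ := eventually_atTop.1 (cn_sdiff (δ - ε / 2) (hG (ε / 2) (by linarith)) hB
    (ε / 2) (by linarith))
  refine ⟨x₀, fun x hx => ?_⟩
  have h := hx₀ x hx
  refine le_trans (le_of_eq (by ring)) (h.trans (le_ncard S _ (fun p hp hg => ?_) x))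
  exact hS p hp hg.1 hg.2

theorem lower_of_cn' (S : Set ℕ) (G B : ℕ → Prop) (δ : ℝ)
    (hG : ∀ᶠ x : ℕ in atTop, δ * ((x : ℝ) / Real.log x) ≤ cn G x)
    (hB : Null B) (hS : ∀ p, p.Prime → G p → ¬ B p → p ∈ S) :
    ∀ ε : ℝ, 0 < ε → ∃ x₀ : ℕ, ∀ x : ℕ, x₀ ≤ x →
      (δ - ε) * (x / Real.log x) ≤ ({p : ℕ | p.Prime ∧ p ≤ x ∧ p ∈ S}.ncard : ℝ) := by
  intro ε hε
  obtain ⟨x₀, hx₀⟩ := eventually_atTop.1 (cn_sdiff δ hG hB ε hε)
  refine ⟨x₀, fun x hx => ?_⟩
  refine (hx₀ x hx).trans (le_ncard S _ (fun p hp hg => ?_) x)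
  exact hS p hp hg.1 hg.2

end Pool.Agent.H71.FD

end

section

/-!
# Real characters over the primes of `(2N, 12N)`

For a non-square `D ≠ 0` the sum of `(D / p) log p` over the primes `p` in `(2N, 12N)` is `o(N)`; the sum
of `log p` is at most `(10 + o(1)) N`.
-/

set_option autoImplicit false

namespace Pool.Agent.H71.NB

open Finset Filter Pool.Agent.H91.EHA

/-- from `Λ` to primes -/
theorem Lam_prime_diff (g : ℕ → ℝ) (hg : ∀ n, |g n| ≤ 1) (u v : ℕ) :
    |∑ n ∈ Ioc u v, Lam n * g n - ∑ p ∈ (Ioc u v).filter Nat.Prime, g p * Real.log p|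
      ≤ Chebyshev.psi v - Chebyshev.theta v := by
  have e : ∑ n ∈ Ioc u v, Lam n * g n - ∑ p ∈ (Ioc u v).filter Nat.Prime, g p * Real.log p
      = ∑ n ∈ (Ioc u v).filter (fun n => ¬ n.Prime), Lam n * g n := by
    rw [← Finset.sum_filter_add_sum_filter_not (Ioc u v) Nat.Prime (fun n => Lam n * g n)]
    have : ∑ n ∈ (Ioc u v).filter Nat.Prime, Lam n * g n
        = ∑ p ∈ (Ioc u v).filter Nat.Prime, g p * Real.log p := by
      refine Finset.sum_congr rfl fun p hp => ?_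
      unfold Lam
      rw [ArithmeticFunction.vonMangoldt_apply_prime (mem_filter.1 hp).2, mul_comm]
    rw [this]; ring
  rw [e, Chebyshev.psi_sub_theta_eq_sum_not_prime, Nat.floor_natCast]
  calc |∑ n ∈ (Ioc u v).filter (fun n => ¬ n.Prime), Lam n * g n|
      ≤ ∑ n ∈ (Ioc u v).filter (fun n => ¬ n.Prime), |Lam n * g n| :=
        Finset.abs_sum_le_sum_abs _ _
    _ ≤ ∑ n ∈ (Ioc u v).filter (fun n => ¬ n.Prime), ArithmeticFunction.vonMangoldt n := by
        refine Finset.sum_le_sum fun n _ => ?_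
        have h0 : 0 ≤ Lam n := ArithmeticFunction.vonMangoldt_nonneg
        rw [abs_mul, abs_of_nonneg h0]
        calc Lam n * |g n| ≤ Lam n * 1 := mul_le_mul_of_nonneg_left (hg n) h0
          _ = _ := mul_one _
    _ ≤ ∑ n ∈ (Ioc 0 v).filter (fun n => ¬ n.Prime), ArithmeticFunction.vonMangoldt n := by
        refine Finset.sum_le_sum_of_subset_of_nonneg ?_ fun n _ _ =>
          ArithmeticFunction.vonMangoldt_nonneg
        refine Finset.filter_subset_filter _ fun n hn => ?_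
        have := mem_Ioc.1 hn
        exact mem_Ioc.2 ⟨by omega, this.2⟩

end Pool.Agent.H71.NB

end

section

/-!
# From smooth sums to sharp cut-offs

`om(t) = t(1-t)²` on `[0,1]`.  Choose `ρ : ℝ → ℝ`, `ρ = 3` on `(0,1]`, `ρ(u) = P(u)` on `(1,1+δ]`, `0` beyond, where
`P` is a combination of (for instance) three step functions on thirds of `(1,1+δ]` (or a polynomial) with
`∫ P u^{-2} = 3`, `∫ P u^{-3} = 3/2`, `∫ P u^{-4} = 1`, `|P| ≤ C₀ δ^{-3}`.  Then
`w(t) := ∫_0^∞ om(t/u) ρ(u) du/u` satisfies `w(t) = 1` for `0 < t ≤ 1`, `w(t) = 0` for `t ≥ 1+δ`,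
`|w| ≤ C₀` (for `t ≤ 1`: `3∫_t^1 (1-v)² dv = (1-t)³`, and the moments give `3t - 3t² + t³`).
Linear system: with `u = 1 + δ z` the three conditions are a `3×3` system whose determinant is `≍ δ³` (Vandermonde).
(If you prefer: any other explicit `w`.)
Then `∑_{n ≤ y} a_n = ∑_n a_n w(n/y) - ∑_{y < n ≤ (1+δ)y} a_n w(n/y)`, and
`∑ a_n w(n/y) = ∫ ρ(u) S(uy) du/u`, `S(v) = ∑_{n ≤ v} a_n om(n/v)` for real `v`, `S(v) = 0` for `v < 1`,
`‖S(v) - S(⌊v⌋)‖ ≤ (1/⌊v⌋) ∑_{n ≤ v} ‖a_n‖ ≤ 2 H (1 + P/v)` by `om_lip`.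
-/

set_option autoImplicit false

namespace Pool.Agent.H91.EHA

open Finset
open Pool.Agent.H91.PK

/-- The average over `K` consecutive values. -/
noncomputable def swhA (K : ℕ) (f : ℕ → ℝ) (N : ℕ) : ℝ := (∑ i ∈ range K, f (N + i)) / K

theorem swhA_diff (K : ℕ) (f : ℕ → ℝ) (N : ℕ) :
    swhA K f (N + 1) - swhA K f N = (f (N + K) - f N) / K := by
  unfold swhA
  rw [← sub_div]
  congr 1
  have h1 := Finset.sum_range_succ (fun i => f (N + i)) K
  have h2 := Finset.sum_range_succ' (fun i => f (N + i)) K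
  rw [h1] at h2
  have h3 : ∑ i ∈ range K, f (N + 1 + i) = ∑ i ∈ range K, f (N + (i + 1)) := by
    refine Finset.sum_congr rfl fun i _ => ?_
    congr 1
    ring
  rw [h3]
  simp only [add_zero] at h2
  linarith

theorem swhA_nonneg (K : ℕ) (f : ℕ → ℝ) (hf : ∀ N, 0 ≤ f N) (N : ℕ) : 0 ≤ swhA K f N := by
  unfold swhA
  exact div_nonneg (Finset.sum_nonneg fun i _ => hf _) (Nat.cast_nonneg _)

theorem swhA_le_one (K : ℕ) (hK : 0 < K) (f : ℕ → ℝ) (hf : ∀ N, f N ≤ 1) (N : ℕ) :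
    swhA K f N ≤ 1 := by
  unfold swhA
  rw [div_le_one (Nat.cast_pos.2 hK)]
  calc ∑ i ∈ range K, f (N + i) ≤ ∑ _i ∈ range K, (1 : ℝ) := Finset.sum_le_sum fun i _ => hf _
    _ = K := by simp

theorem swhA_eq_one (K : ℕ) (hK : 0 < K) (f : ℕ → ℝ) (T : ℕ) (hf : ∀ N, N ≤ T → f N = 1) (N : ℕ)
    (hN : N + K ≤ T) : swhA K f N = 1 := by
  unfold swhA
  rw [Finset.sum_congr rfl (fun i hi => hf (N + i) (by
    have := Finset.mem_range.1 hi
    omega))]
  simp only [Finset.sum_const, Finset.card_range, nsmul_eq_mul, mul_one]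
  exact div_self (Nat.cast_pos.2 hK).ne'

theorem swhA_eq_zero (K : ℕ) (f : ℕ → ℝ) (T : ℕ) (hf : ∀ N, T < N → f N = 0) (N : ℕ)
    (hN : T < N) : swhA K f N = 0 := by
  unfold swhA
  rw [Finset.sum_eq_zero (fun i _ => hf (N + i) (by omega)), zero_div]

/-- The sharp cut-off. -/
noncomputable def swhC (M N : ℕ) : ℝ := if N ≤ M then 1 else 0

theorem swhC_nonneg (M N : ℕ) : 0 ≤ swhC M N := by
  unfold swhC
  split_ifs <;> norm_num

theorem swhC_le_one (M N : ℕ) : swhC M N ≤ 1 := by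
  unfold swhC
  split_ifs <;> norm_num

/-- The smoothed cut-off. -/
noncomputable def swhP (K M : ℕ) : ℕ → ℝ := swhA K (swhA K (swhA K (swhC M)))

theorem swhP_nonneg (K M N : ℕ) : 0 ≤ swhP K M N :=
  swhA_nonneg K _ (swhA_nonneg K _ (swhA_nonneg K _ (swhC_nonneg M))) N

theorem swhP_le_one (K M : ℕ) (hK : 0 < K) (N : ℕ) : swhP K M N ≤ 1 :=
  swhA_le_one K hK _ (swhA_le_one K hK _ (swhA_le_one K hK _ (swhC_le_one M))) N

theorem swhP_eq_one (K M : ℕ) (hK : 0 < K) (N : ℕ) (hN : N + 3 * K ≤ M) : swhP K M N = 1 := by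
  have h0 : ∀ N, N ≤ M → swhC M N = 1 := fun N h => if_pos h
  have h1 : ∀ N, N ≤ M - K → swhA K (swhC M) N = 1 := fun N h =>
    swhA_eq_one K hK _ M h0 N (by omega)
  have h2 : ∀ N, N ≤ M - 2 * K → swhA K (swhA K (swhC M)) N = 1 := fun N h =>
    swhA_eq_one K hK _ (M - K) h1 N (by omega)
  exact swhA_eq_one K hK _ (M - 2 * K) h2 N (by omega)

theorem swhP_eq_zero (K M N : ℕ) (hN : M < N) : swhP K M N = 0 := by
  have h0 : ∀ N, M < N → swhC M N = 0 := fun N h => if_neg (by omega)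
  have h1 : ∀ N, M < N → swhA K (swhC M) N = 0 := fun N h => swhA_eq_zero K _ M h0 N h
  have h2 : ∀ N, M < N → swhA K (swhA K (swhC M)) N = 0 := fun N h => swhA_eq_zero K _ M h1 N h
  exact swhA_eq_zero K _ M h2 N hN

theorem swhP_d1 (K M : ℕ) (hK : 0 < K) (N : ℕ) : |swhP K M (N + 1) - swhP K M N| ≤ 1 / K := by
  have hK' : (0 : ℝ) < K := Nat.cast_pos.2 hK
  unfold swhP
  rw [swhA_diff, abs_div, abs_of_pos hK']
  refine div_le_div_of_nonneg_right ?_ hK'.le
  have a1 := swhA_nonneg K _ (swhA_nonneg K _ (swhC_nonneg M)) (N + K)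
  have a2 := swhA_nonneg K _ (swhA_nonneg K _ (swhC_nonneg M)) N
  have a3 := swhA_le_one K hK _ (swhA_le_one K hK _ (swhC_le_one M)) (N + K)
  have a4 := swhA_le_one K hK _ (swhA_le_one K hK _ (swhC_le_one M)) N
  rw [abs_le]
  constructor <;> linarith

theorem swhP_d2_eq (K M : ℕ) (hK : 0 < K) (N : ℕ) :
    swhP K M (N + 2) - 2 * swhP K M (N + 1) + swhP K M N =
      (swhA K (swhC M) (N + 2 * K) - 2 * swhA K (swhC M) (N + K) + swhA K (swhC M) N) / K ^ 2 := by
  have hK' : (0 : ℝ) < K := Nat.cast_pos.2 hK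
  have h1 : swhP K M (N + 2) - swhP K M (N + 1) =
      (swhA K (swhA K (swhC M)) (N + 1 + K) - swhA K (swhA K (swhC M)) (N + 1)) / K :=
    swhA_diff K _ (N + 1)
  have h2 : swhP K M (N + 1) - swhP K M N =
      (swhA K (swhA K (swhC M)) (N + K) - swhA K (swhA K (swhC M)) N) / K :=
    swhA_diff K _ N
  have h3 := swhA_diff K (swhA K (swhC M)) (N + K)
  have h4 := swhA_diff K (swhA K (swhC M)) N
  rw [show N + 1 + K = N + K + 1 by ring] at h1
  rw [show N + K + K = N + 2 * K by ring] at h3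
  have h5 : swhP K M (N + 2) - 2 * swhP K M (N + 1) + swhP K M N =
      ((swhA K (swhA K (swhC M)) (N + K + 1) - swhA K (swhA K (swhC M)) (N + K)) -
        (swhA K (swhA K (swhC M)) (N + 1) - swhA K (swhA K (swhC M)) N)) / K := by
    have : swhP K M (N + 2) - 2 * swhP K M (N + 1) + swhP K M N =
      (swhP K M (N + 2) - swhP K M (N + 1)) - (swhP K M (N + 1) - swhP K M N) := by ring
    rw [this, h1, h2]
    ring
  rw [h5, h3, h4]
  field_simp
  ring

theorem swhP_d2 (K M : ℕ) (hK : 0 < K) (N : ℕ) :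
    |swhP K M (N + 2) - 2 * swhP K M (N + 1) + swhP K M N| ≤ 2 / K ^ 2 := by
  have hK' : (0 : ℝ) < K := Nat.cast_pos.2 hK
  rw [swhP_d2_eq K M hK N, abs_div, abs_of_pos (by positivity : (0 : ℝ) < (K : ℝ) ^ 2)]
  refine div_le_div_of_nonneg_right ?_ (by positivity)
  have a1 := swhA_nonneg K _ (swhC_nonneg M) (N + 2 * K)
  have a2 := swhA_nonneg K _ (swhC_nonneg M) (N + K)
  have a3 := swhA_nonneg K _ (swhC_nonneg M) N
  have a4 := swhA_le_one K hK _ (swhC_le_one M) (N + 2 * K)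
  have a5 := swhA_le_one K hK _ (swhC_le_one M) (N + K)
  have a6 := swhA_le_one K hK _ (swhC_le_one M) N
  rw [abs_le]
  constructor <;> linarith

theorem swhP_d3 (K M : ℕ) (hK : 0 < K) (N : ℕ) :
    |swhP K M (N + 3) - 3 * swhP K M (N + 2) + 3 * swhP K M (N + 1) - swhP K M N|
      ≤ 4 / K ^ 3 := by
  have hK' : (0 : ℝ) < K := Nat.cast_pos.2 hK
  have h1 := swhP_d2_eq K M hK (N + 1)
  have h2 := swhP_d2_eq K M hK N
  have h3 := swhA_diff K (swhC M) (N + 2 * K)
  have h4 := swhA_diff K (swhC M) (N + K)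
  have h5 := swhA_diff K (swhC M) N
  rw [show N + 1 + 2 * K = N + 2 * K + 1 by ring, show N + 1 + K = N + K + 1 by ring] at h1
  have e : swhP K M (N + 3) - 3 * swhP K M (N + 2) + 3 * swhP K M (N + 1) - swhP K M N =
      (swhC M (N + 2 * K + K) - swhC M (N + 2 * K) - 2 * (swhC M (N + K + K) - swhC M (N + K)) +
        (swhC M (N + K) - swhC M N)) / K ^ 3 := by
    have e1 : swhP K M (N + 3) - 3 * swhP K M (N + 2) + 3 * swhP K M (N + 1) - swhP K M N =
      (swhP K M (N + 1 + 2) - 2 * swhP K M (N + 1 + 1) + swhP K M (N + 1)) -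
      (swhP K M (N + 2) - 2 * swhP K M (N + 1) + swhP K M N) := by
      rw [show N + 1 + 2 = N + 3 by ring, show N + 1 + 1 = N + 2 by ring]
      ring
    rw [e1, h1, h2]
    have e2 : (swhA K (swhC M) (N + 2 * K + 1) - 2 * swhA K (swhC M) (N + K + 1) +
        swhA K (swhC M) (N + 1)) / (K : ℝ) ^ 2 -
        (swhA K (swhC M) (N + 2 * K) - 2 * swhA K (swhC M) (N + K) +
          swhA K (swhC M) N) / (K : ℝ) ^ 2 =
        ((swhA K (swhC M) (N + 2 * K + 1) - swhA K (swhC M) (N + 2 * K)) -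
          2 * (swhA K (swhC M) (N + K + 1) - swhA K (swhC M) (N + K)) +
          (swhA K (swhC M) (N + 1) - swhA K (swhC M) N)) / (K : ℝ) ^ 2 := by ring
    rw [e2, h3, h4, h5]
    field_simp
  rw [e, abs_div, abs_of_pos (by positivity : (0 : ℝ) < (K : ℝ) ^ 3)]
  refine div_le_div_of_nonneg_right ?_ (by positivity)
  have b1 : N + 2 * K + K = N + 3 * K := by ring
  have b2 : N + K + K = N + 2 * K := by ring
  rw [b1, b2]
  have a1 := swhC_nonneg M (N + 3 * K)
  have a2 := swhC_nonneg M (N + 2 * K)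
  have a3 := swhC_nonneg M (N + K)
  have a4 := swhC_nonneg M N
  have a5 := swhC_le_one M (N + 3 * K)
  have a6 := swhC_le_one M (N + 2 * K)
  have a7 := swhC_le_one M (N + K)
  have a8 := swhC_le_one M N
  rw [abs_le]
  constructor <;> linarith

/-- The weight. -/
noncomputable def swhW (K M : ℕ) (N : ℕ) : ℝ := swhP K M N * (1 / (2 * (N : ℝ)))

/-- Its third difference. -/
noncomputable def swhD (K M : ℕ) (N : ℕ) : ℝ :=
  swhW K M (N + 3) - 3 * swhW K M (N + 2) + 3 * swhW K M (N + 1) - swhW K M N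

theorem swh_psi3 (x : ℝ) (hx : 1 ≤ x) :
    |1 / (2 * (x + 3)) - 3 * (1 / (2 * (x + 2))) + 3 * (1 / (2 * (x + 1))) - 1 / (2 * x)|
      ≤ 3 / x ^ 4 := by
  have e : 1 / (2 * (x + 3)) - 3 * (1 / (2 * (x + 2))) + 3 * (1 / (2 * (x + 1))) - 1 / (2 * x)
      = -(3 / (x * (x + 1) * (x + 2) * (x + 3))) := by
    field_simp
    ring
  rw [e, abs_neg, abs_of_pos (by positivity)]
  refine div_le_div_of_nonneg_left (by norm_num) (by positivity) ?_
  have h : x ^ 4 = x * x * x * x := by ring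
  rw [h]
  gcongr <;> linarith

theorem swh_psi2 (x : ℝ) (hx : 1 ≤ x) :
    |1 / (2 * (x + 2)) - 2 * (1 / (2 * (x + 1))) + 1 / (2 * x)| ≤ 1 / x ^ 3 := by
  have e : 1 / (2 * (x + 2)) - 2 * (1 / (2 * (x + 1))) + 1 / (2 * x)
      = 1 / (x * (x + 1) * (x + 2)) := by
    field_simp
    ring
  rw [e, abs_of_pos (by positivity)]
  refine div_le_div_of_nonneg_left (by norm_num) (by positivity) ?_
  have h : x ^ 3 = x * x * x := by ring
  rw [h]
  gcongr <;> linarith

theorem swh_psi1 (x : ℝ) (hx : 1 ≤ x) :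
    |1 / (2 * (x + 1)) - 1 / (2 * x)| ≤ 1 / (2 * x ^ 2) := by
  have e : 1 / (2 * (x + 1)) - 1 / (2 * x) = -(1 / (2 * (x * (x + 1)))) := by
    field_simp
    ring
  rw [e, abs_neg, abs_of_pos (by positivity)]
  refine div_le_div_of_nonneg_left (by norm_num) (by positivity) ?_
  have h : x ^ 2 = x * x := by ring
  rw [h]
  gcongr
  linarith

theorem swhD_bound (K y : ℕ) (hK : 0 < K) (hKy : K ≤ y) (N : ℕ) (hN : 1 ≤ N) :
    (N : ℝ) ^ 3 * |swhD K (y + 2 + 3 * K) N| ≤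
      3 / N + (if y ≤ N then 8 * (N : ℝ) ^ 2 / K ^ 3 else 0) := by
  have hx : (1 : ℝ) ≤ N := by exact_mod_cast hN
  have hx0 : (0 : ℝ) < N := by linarith
  have hK' : (0 : ℝ) < K := Nat.cast_pos.2 hK
  set M := y + 2 + 3 * K with hM
  have c1 : ((N + 1 : ℕ) : ℝ) = (N : ℝ) + 1 := by push_cast; ring
  have c2 : ((N + 2 : ℕ) : ℝ) = (N : ℝ) + 2 := by push_cast; ring
  have c3 : ((N + 3 : ℕ) : ℝ) = (N : ℝ) + 3 := by push_cast; ring
  have p3 := swh_psi3 N hx
  have p2 := swh_psi2 N hx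
  have p1 := swh_psi1 N hx
  by_cases hy : y ≤ N
  · rw [if_pos hy]
    have hKN : (K : ℝ) ≤ N := by exact_mod_cast hKy.trans hy
    have q0 := swhP_nonneg K M (N + 3)
    have q0' := swhP_le_one K M hK (N + 3)
    have q1 := swhP_d1 K M hK (N + 2)
    have q2 := swhP_d2 K M hK (N + 1)
    have q3 := swhP_d3 K M hK N
    rw [show N + 2 + 1 = N + 3 by ring] at q1
    rw [show N + 1 + 2 = N + 3 by ring, show N + 1 + 1 = N + 2 by ring] at q2
    have e : swhD K M N =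
        swhP K M (N + 3) * (1 / (2 * ((N : ℝ) + 3)) - 3 * (1 / (2 * ((N : ℝ) + 2))) +
          3 * (1 / (2 * ((N : ℝ) + 1))) - 1 / (2 * (N : ℝ))) +
        3 * (swhP K M (N + 3) - swhP K M (N + 2)) *
          (1 / (2 * ((N : ℝ) + 2)) - 2 * (1 / (2 * ((N : ℝ) + 1))) + 1 / (2 * (N : ℝ))) +
        3 * (swhP K M (N + 3) - 2 * swhP K M (N + 2) + swhP K M (N + 1)) *
          (1 / (2 * ((N : ℝ) + 1)) - 1 / (2 * (N : ℝ))) +
        (swhP K M (N + 3) - 3 * swhP K M (N + 2) + 3 * swhP K M (N + 1) - swhP K M N) *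
          (1 / (2 * (N : ℝ))) := by
      unfold swhD swhW
      rw [c1, c2, c3]
      ring
    have hb : |swhD K M N| ≤ 1 * (3 / (N : ℝ) ^ 4) + 3 * (1 / (K : ℝ)) * (1 / (N : ℝ) ^ 3) +
        3 * (2 / (K : ℝ) ^ 2) * (1 / (2 * (N : ℝ) ^ 2)) +
        (4 / (K : ℝ) ^ 3) * (1 / (2 * (N : ℝ))) := by
      rw [e]
      refine (abs_add_le _ _).trans (add_le_add ((abs_add_le _ _).trans (add_le_add
        ((abs_add_le _ _).trans (add_le_add ?_ ?_)) ?_)) ?_)
      · rw [abs_mul, abs_of_nonneg q0]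
        exact mul_le_mul q0' p3 (abs_nonneg _) (by norm_num)
      · rw [abs_mul, abs_mul, abs_of_pos (by norm_num : (0 : ℝ) < 3)]
        exact mul_le_mul (mul_le_mul_of_nonneg_left q1 (by norm_num)) p2 (abs_nonneg _)
          (by positivity)
      · rw [abs_mul, abs_mul, abs_of_pos (by norm_num : (0 : ℝ) < 3)]
        exact mul_le_mul (mul_le_mul_of_nonneg_left q2 (by norm_num)) p1 (abs_nonneg _)
          (by positivity)
      · rw [abs_mul, abs_of_pos (by positivity : (0 : ℝ) < 1 / (2 * (N : ℝ)))]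
        exact mul_le_mul_of_nonneg_right q3 (by positivity)
    have h1 : (N : ℝ) ^ 3 * |swhD K M N| ≤
        3 / N + 3 * (1 / K) + 3 * (N / K ^ 2) + 2 * (N ^ 2 / K ^ 3) := by
      calc (N : ℝ) ^ 3 * |swhD K M N| ≤ (N : ℝ) ^ 3 * (1 * (3 / (N : ℝ) ^ 4) +
          3 * (1 / (K : ℝ)) * (1 / (N : ℝ) ^ 3) + 3 * (2 / (K : ℝ) ^ 2) * (1 / (2 * (N : ℝ) ^ 2)) +
          (4 / (K : ℝ) ^ 3) * (1 / (2 * (N : ℝ)))) :=
            mul_le_mul_of_nonneg_left hb (by positivity)
        _ = _ := by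
            field_simp
            ring
    have h2 : (1 : ℝ) / K ≤ N ^ 2 / K ^ 3 := by
      rw [div_le_div_iff₀ hK' (by positivity)]
      have : (K : ℝ) ^ 2 ≤ N ^ 2 := pow_le_pow_left₀ hK'.le hKN 2
      nlinarith
    have h3 : (N : ℝ) / K ^ 2 ≤ N ^ 2 / K ^ 3 := by
      rw [div_le_div_iff₀ (by positivity) (by positivity)]
      have e1 : (N : ℝ) * K ^ 3 = (N * K ^ 2) * K := by ring
      have e2 : (N : ℝ) ^ 2 * K ^ 2 = (N * K ^ 2) * N := by ring
      rw [e1, e2]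
      exact mul_le_mul_of_nonneg_left hKN (by positivity)
    have h4 : 8 * (N : ℝ) ^ 2 / K ^ 3 = 8 * (N ^ 2 / K ^ 3) := by ring
    rw [h4]
    linarith
  · rw [if_neg hy, add_zero]
    have o0 : swhP K M N = 1 := swhP_eq_one K M hK N (by omega)
    have o1 : swhP K M (N + 1) = 1 := swhP_eq_one K M hK (N + 1) (by omega)
    have o2 : swhP K M (N + 2) = 1 := swhP_eq_one K M hK (N + 2) (by omega)
    have o3 : swhP K M (N + 3) = 1 := swhP_eq_one K M hK (N + 3) (by omega)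
    have e : swhD K M N = 1 / (2 * ((N : ℝ) + 3)) - 3 * (1 / (2 * ((N : ℝ) + 2))) +
          3 * (1 / (2 * ((N : ℝ) + 1))) - 1 / (2 * (N : ℝ)) := by
      unfold swhD swhW
      rw [c1, c2, c3, o0, o1, o2, o3]
      ring
    rw [e]
    calc (N : ℝ) ^ 3 * _ ≤ (N : ℝ) ^ 3 * (3 / (N : ℝ) ^ 4) :=
          mul_le_mul_of_nonneg_left p3 (by positivity)
      _ = 3 / N := by field_simp

theorem swh_tel (w : ℕ → ℝ) (n L : ℕ) :
    ∑ m ∈ range L, (m : ℝ) ^ 2 * (w (n + m + 3) - 3 * w (n + m + 2) + 3 * w (n + m + 1) -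
      w (n + m)) = -w (n + 1) - w (n + 2) + ((L : ℝ) - 1) ^ 2 * w (n + L + 2) +
      (((L : ℝ) - 2) ^ 2 - 3 * ((L : ℝ) - 1) ^ 2) * w (n + L + 1) + (L : ℝ) ^ 2 * w (n + L) := by
  induction L with
  | zero =>
    simp
    ring
  | succ L ih =>
    rw [Finset.sum_range_succ, ih]
    have e1 : n + (L + 1) + 2 = n + L + 3 := by ring
    have e2 : n + (L + 1) + 1 = n + L + 2 := by ring
    have e3 : n + (L + 1) = n + L + 1 := by ring
    rw [e1, e2, e3]
    push_cast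
    ring

theorem swh_inner (K M n : ℕ) (hn : n ≤ M) :
    ∑ N ∈ Icc n M, ((N : ℝ) - n) ^ 2 * (-swhD K M N) = swhW K M (n + 1) + swhW K M (n + 2) := by
  have h0 : ∀ N, M < N → swhW K M N = 0 := by
    intro N hN
    unfold swhW
    rw [swhP_eq_zero K M N hN, zero_mul]
  have h1 := swh_tel (swhW K M) n (M + 1 - n)
  rw [show n + (M + 1 - n) = M + 1 by omega, h0 (M + 1) (by omega), h0 (M + 1 + 1) (by omega),
    h0 (M + 1 + 2) (by omega)] at h1
  have h2 : Icc n M = Ico n (M + 1) := by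
    ext x
    simp only [mem_Icc, mem_Ico]
    omega
  rw [h2, Finset.sum_Ico_eq_sum_range]
  have h3 : ∑ k ∈ range (M + 1 - n), (((n + k : ℕ) : ℝ) - n) ^ 2 * (-swhD K M (n + k)) =
      -∑ m ∈ range (M + 1 - n), (m : ℝ) ^ 2 * (swhW K M (n + m + 3) - 3 * swhW K M (n + m + 2) +
        3 * swhW K M (n + m + 1) - swhW K M (n + m)) := by
    rw [← Finset.sum_neg_distrib]
    refine Finset.sum_congr rfl fun m _ => ?_
    unfold swhD
    push_cast
    ring
  rw [h3, h1]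
  ring

theorem swh_ident (K M : ℕ) (a : ℕ → ℂ) :
    ∑ n ∈ Icc 1 M, (((n : ℝ) * (swhW K M (n + 1) + swhW K M (n + 2)) : ℝ) : ℂ) * a n =
      ∑ N ∈ Icc 1 M, ((-swhD K M N : ℝ) : ℂ) *
        ∑ n ∈ Icc 1 N, (((n : ℝ) * ((N : ℝ) - n) ^ 2 : ℝ) : ℂ) * a n := by
  have h1 : ∑ N ∈ Icc 1 M, ((-swhD K M N : ℝ) : ℂ) *
        ∑ n ∈ Icc 1 N, (((n : ℝ) * ((N : ℝ) - n) ^ 2 : ℝ) : ℂ) * a n =
      ∑ N ∈ Icc 1 M, ∑ n ∈ Icc 1 N,
        ((((N : ℝ) - n) ^ 2 * (-swhD K M N) : ℝ) : ℂ) * (((n : ℝ) : ℂ) * a n) := by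
    refine Finset.sum_congr rfl fun N _ => ?_
    rw [Finset.mul_sum]
    refine Finset.sum_congr rfl fun n _ => ?_
    push_cast
    ring
  rw [h1, Finset.sum_comm' (t' := Icc 1 M) (s' := fun n => Icc n M) (by
    intro x y
    simp only [mem_Icc]
    omega)]
  refine Finset.sum_congr rfl fun n hn => ?_
  rw [← Finset.sum_mul, ← Complex.ofReal_sum, swh_inner K M n (mem_Icc.1 hn).2]
  push_cast
  ring

theorem swh_S (a : ℕ → ℂ) (N : ℕ) (hN : 1 ≤ N) :
    ∑ n ∈ Icc 1 N, (((n : ℝ) * ((N : ℝ) - n) ^ 2 : ℝ) : ℂ) * a n =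
      (((N : ℝ) ^ 3 : ℝ) : ℂ) * ∑ n ∈ Icc 1 N, a n * ((om ((n : ℝ) / N) : ℝ) : ℂ) := by
  have hN0 : (0 : ℝ) < N := Nat.cast_pos.2 hN
  rw [Finset.mul_sum]
  refine Finset.sum_congr rfl fun n hn => ?_
  obtain ⟨h1, h2⟩ := mem_Icc.1 hn
  have h3 : om ((n : ℝ) / N) = (n : ℝ) / N * (1 - (n : ℝ) / N) ^ 2 := by
    unfold om
    rw [if_pos]
    refine ⟨by positivity, ?_⟩
    rw [div_le_one hN0]
    exact_mod_cast h2
  have h4 : (N : ℝ) ^ 3 * om ((n : ℝ) / N) = (n : ℝ) * ((N : ℝ) - n) ^ 2 := by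
    rw [h3]
    field_simp
  rw [← h4]
  push_cast
  ring

theorem swh_abel (b : ℕ → ℝ) (Y : ℕ) :
    ∑ n ∈ Icc 1 Y, b n / n = (∑ n ∈ Icc 1 Y, b n) / (Y + 1) +
      ∑ k ∈ Icc 1 Y, (∑ n ∈ Icc 1 k, b n) / ((k : ℝ) * (k + 1)) := by
  induction Y with
  | zero => simp
  | succ Y ih =>
    rw [Finset.sum_Icc_succ_top (by omega), Finset.sum_Icc_succ_top (by omega) (f := fun k =>
      (∑ n ∈ Icc 1 k, b n) / ((k : ℝ) * (k + 1))), ih, Finset.sum_Icc_succ_top (by omega) (f := b)]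
    push_cast
    have h1 : (0 : ℝ) < (Y : ℝ) + 1 := by positivity
    field_simp
    ring

theorem swh_harm (M : ℕ) : ∑ N ∈ Icc 1 M, (1 : ℝ) / N ≤ 1 + Real.log M := by
  have h := harmonic_le_one_add_log M
  rw [harmonic_eq_sum_Icc] at h
  push_cast at h
  simpa using h

theorem swh_tele (Y : ℕ) : ∑ k ∈ Icc 1 Y, (1 : ℝ) / ((k : ℝ) * (k + 1)) = 1 - 1 / (Y + 1) := by
  induction Y with
  | zero => simp
  | succ Y ih =>
    rw [Finset.sum_Icc_succ_top (by omega), ih]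
    push_cast
    field_simp
    ring

theorem swh_logsum (b : ℕ → ℝ) (H P : ℝ) (hH : 0 ≤ H) (hP : 1 ≤ P) (Y : ℕ)
    (hb : ∀ k, k ≤ Y → ∑ n ∈ Icc 1 k, b n ≤ H * (k + P)) :
    ∑ n ∈ Icc 1 Y, b n / n ≤ H * (4 * P + Real.log Y) := by
  rw [swh_abel]
  have hY : (0 : ℝ) ≤ Y := Nat.cast_nonneg _
  have h1 : (∑ n ∈ Icc 1 Y, b n) / ((Y : ℝ) + 1) ≤ H * (1 + P) := by
    rw [div_le_iff₀ (by positivity)]
    refine (hb Y le_rfl).trans ?_
    rw [mul_assoc]
    refine mul_le_mul_of_nonneg_left ?_ hH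
    nlinarith
  have h2 : ∑ k ∈ Icc 1 Y, (∑ n ∈ Icc 1 k, b n) / ((k : ℝ) * (k + 1)) ≤
      H * (1 + Real.log Y + P) := by
    calc ∑ k ∈ Icc 1 Y, (∑ n ∈ Icc 1 k, b n) / ((k : ℝ) * (k + 1))
        ≤ ∑ k ∈ Icc 1 Y, (H * (1 / (k : ℝ)) + H * P * (1 / ((k : ℝ) * (k + 1)))) := by
          refine Finset.sum_le_sum fun k hk => ?_
          obtain ⟨hk1, hk2⟩ := mem_Icc.1 hk
          have hk0 : (1 : ℝ) ≤ k := by exact_mod_cast hk1
          have hk0' : (0 : ℝ) < k := by linarith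
          have e : H * (1 / (k : ℝ)) + H * P * (1 / ((k : ℝ) * (k + 1))) =
              H * ((k : ℝ) + 1 + P) / ((k : ℝ) * (k + 1)) := by
            field_simp
          rw [e]
          refine div_le_div_of_nonneg_right ?_ (by positivity)
          refine (hb k hk2).trans (mul_le_mul_of_nonneg_left (by linarith) hH)
      _ = H * (∑ k ∈ Icc 1 Y, 1 / (k : ℝ)) + H * P * ∑ k ∈ Icc 1 Y, 1 / ((k : ℝ) * (k + 1)) := by
          rw [Finset.sum_add_distrib, Finset.mul_sum, Finset.mul_sum]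
      _ ≤ H * (1 + Real.log Y) + H * P * 1 := by
          refine add_le_add (mul_le_mul_of_nonneg_left (swh_harm Y) hH)
            (mul_le_mul_of_nonneg_left ?_ (by positivity))
          rw [swh_tele]
          have : (0 : ℝ) ≤ 1 / ((Y : ℝ) + 1) := by positivity
          linarith
      _ = _ := by ring
  have h3 : H * (1 + P) + H * (1 + Real.log Y + P) ≤ H * (4 * P + Real.log Y) := by
    nlinarith
  linarith

theorem swh_c_bounds (K M : ℕ) (hK : 0 < K) (n : ℕ) :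
    0 ≤ (n : ℝ) * (swhW K M (n + 1) + swhW K M (n + 2)) ∧
      (n : ℝ) * (swhW K M (n + 1) + swhW K M (n + 2)) ≤ 1 := by
  have hn : (0 : ℝ) ≤ n := Nat.cast_nonneg _
  have a1 := swhP_nonneg K M (n + 1)
  have a2 := swhP_nonneg K M (n + 2)
  have a3 := swhP_le_one K M hK (n + 1)
  have a4 := swhP_le_one K M hK (n + 2)
  have c1 : ((n + 1 : ℕ) : ℝ) = (n : ℝ) + 1 := by push_cast; ring
  have c2 : ((n + 2 : ℕ) : ℝ) = (n : ℝ) + 2 := by push_cast; ring
  have w1 : swhW K M (n + 1) ≤ 1 / (2 * ((n : ℝ) + 1)) := by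
    unfold swhW
    rw [c1]
    calc _ ≤ 1 * (1 / (2 * ((n : ℝ) + 1))) := mul_le_mul_of_nonneg_right a3 (by positivity)
      _ = _ := one_mul _
  have w2 : swhW K M (n + 2) ≤ 1 / (2 * ((n : ℝ) + 2)) := by
    unfold swhW
    rw [c2]
    calc _ ≤ 1 * (1 / (2 * ((n : ℝ) + 2))) := mul_le_mul_of_nonneg_right a4 (by positivity)
      _ = _ := one_mul _
  have w1' : 0 ≤ swhW K M (n + 1) := by
    unfold swhW
    positivity
  have w2' : 0 ≤ swhW K M (n + 2) := by
    unfold swhW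
    positivity
  refine ⟨by positivity, ?_⟩
  calc (n : ℝ) * (swhW K M (n + 1) + swhW K M (n + 2))
      ≤ (n : ℝ) * (1 / (2 * ((n : ℝ) + 1)) + 1 / (2 * ((n : ℝ) + 2))) :=
        mul_le_mul_of_nonneg_left (add_le_add w1 w2) hn
    _ ≤ 1 := by
        have e : (n : ℝ) * (1 / (2 * ((n : ℝ) + 1)) + 1 / (2 * ((n : ℝ) + 2))) =
          (n : ℝ) * (2 * n + 3) / (2 * ((n : ℝ) + 1) * ((n : ℝ) + 2)) := by
            field_simp
            ring
        rw [e, div_le_one (by positivity)]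
        nlinarith

theorem swh_c_low (K y : ℕ) (hK : 0 < K) (n : ℕ) (hn : 1 ≤ n) (hny : n ≤ y) :
    1 - (n : ℝ) * (swhW K (y + 2 + 3 * K) (n + 1) + swhW K (y + 2 + 3 * K) (n + 2)) ≤
      2 / (n : ℝ) := by
  have hn0 : (1 : ℝ) ≤ n := by exact_mod_cast hn
  have c1 : ((n + 1 : ℕ) : ℝ) = (n : ℝ) + 1 := by push_cast; ring
  have c2 : ((n + 2 : ℕ) : ℝ) = (n : ℝ) + 2 := by push_cast; ring
  unfold swhW
  rw [swhP_eq_one K _ hK (n + 1) (by omega), swhP_eq_one K _ hK (n + 2) (by omega), c1, c2]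
  have e : 1 - (n : ℝ) * (1 * (1 / (2 * ((n : ℝ) + 1))) + 1 * (1 / (2 * ((n : ℝ) + 2)))) =
      (3 * (n : ℝ) + 4) / (2 * ((n : ℝ) + 1) * ((n : ℝ) + 2)) := by
    field_simp
    ring
  rw [e, div_le_div_iff₀ (by positivity) (by positivity)]
  nlinarith

theorem smooth_to_sharp : ∃ C : ℝ, 0 < C ∧ ∀ (a : ℕ → ℂ) (B H P : ℝ) (y : ℕ) (δ : ℝ),
    0 ≤ B → 0 ≤ H → 1 ≤ P → 2 ≤ y → 0 < δ → δ ≤ 1 / 2 →
    (∀ N : ℕ, 1 ≤ N → N ≤ 2 * y → ‖∑ n ∈ Icc 1 N, a n * ((om ((n : ℝ) / N) : ℝ) : ℂ)‖ ≤ B) →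
    (∀ u v : ℕ, u ≤ v → v ≤ 2 * y → ∑ n ∈ Ioc u v, ‖a n‖ ≤ H * ((v : ℝ) - u + P)) →
    ‖∑ n ∈ Icc 1 y, a n‖
      ≤ C * (B * (1 / δ ^ 3 + Real.log y) + H * (δ * y + Real.log y + P / δ ^ 3)) := by
  refine ⟨30000, by norm_num, fun a B H P y δ hB hH hP hy hδ hδ2 hS hA => ?_⟩
  have hy0 : (2 : ℝ) ≤ y := by exact_mod_cast hy
  have hlog0 : 0 ≤ Real.log y := Real.log_nonneg (by linarith)
  have hlog2 : Real.log 2 ≤ Real.log y := Real.log_le_log (by norm_num) hy0
  have hδ3 : 0 < δ ^ 3 := by positivity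
  have hd1 : 1 / δ ≤ 1 / δ ^ 3 := by
    refine one_div_le_one_div_of_le hδ3 ?_
    nlinarith [sq_nonneg δ, mul_pos hδ hδ]
  have hd2 : 1 / δ ^ 2 ≤ 1 / δ ^ 3 := by
    refine one_div_le_one_div_of_le hδ3 ?_
    nlinarith [sq_nonneg δ, mul_pos hδ hδ]
  have hd0 : 1 ≤ 1 / δ ^ 3 := by
    rw [le_div_iff₀ hδ3]
    nlinarith [sq_nonneg δ, mul_pos hδ hδ]
  have hP3 : P ≤ P / δ ^ 3 := by
    rw [div_eq_mul_one_div]
    nlinarith
  have hIcc : ∀ N : ℕ, Icc 1 N = Ioc 0 N := by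
    intro N
    ext x
    simp only [mem_Icc, mem_Ioc]
    omega
  have hA0 : ∀ k : ℕ, k ≤ 2 * y → ∑ n ∈ Icc 1 k, ‖a n‖ ≤ H * ((k : ℝ) + P) := by
    intro k hk
    rw [hIcc]
    have := hA 0 k (Nat.zero_le _) hk
    simpa using this
  rcases lt_or_ge (δ * y) 6 with hsmall | hbig
  · -- trivial bound
    have h1 : ‖∑ n ∈ Icc 1 y, a n‖ ≤ H * ((y : ℝ) + P) :=
      (norm_sum_le _ _).trans (hA0 y (by omega))
    have h2 : (y : ℝ) ≤ 6 * (1 / δ) := by
      rw [mul_one_div, le_div_iff₀ hδ]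
      linarith
    have h3 : (y : ℝ) + P ≤ 7 * (P / δ ^ 3) := by
      have e1 : 6 * (1 / δ) ≤ 6 * (P / δ ^ 3) := by
        have : 1 / δ ^ 3 ≤ P / δ ^ 3 := div_le_div_of_nonneg_right hP hδ3.le
        linarith
      linarith
    have h4 : H * ((y : ℝ) + P) ≤ 7 * (H * (P / δ ^ 3)) := by
      calc H * ((y : ℝ) + P) ≤ H * (7 * (P / δ ^ 3)) := mul_le_mul_of_nonneg_left h3 hH
        _ = _ := by ring
    have h5 : 0 ≤ B * (1 / δ ^ 3 + Real.log y) := by positivity
    have h6 : 0 ≤ H * (δ * y + Real.log y) := by positivity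
    have h7 : 0 ≤ H * (P / δ ^ 3) := by positivity
    have h8 : H * (δ * y + Real.log y + P / δ ^ 3) = H * (δ * y + Real.log y) + H * (P / δ ^ 3) := by
      ring
    rw [h8]
    linarith
  · set K := ⌊δ * y / 6⌋₊ with hKdef
    have hKr : (K : ℝ) ≤ δ * y / 6 := Nat.floor_le (by positivity)
    have hKr2 : δ * y / 6 < K + 1 := Nat.lt_floor_add_one _
    have hK : 0 < K := by
      rw [hKdef, Nat.floor_pos]
      linarith
    have hK1 : (1 : ℝ) ≤ K := by exact_mod_cast hK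
    have hK' : (0 : ℝ) < K := by linarith
    have hK12 : δ * y / 12 ≤ K := by linarith
    have hy12 : (12 : ℝ) ≤ y := by nlinarith
    have hKy' : (K : ℝ) ≤ y / 12 := by nlinarith
    have hKy : K ≤ y := by
      have : (K : ℝ) ≤ y := by linarith
      exact_mod_cast this
    set M := y + 2 + 3 * K with hM
    have hMr : (M : ℝ) = y + 2 + 3 * K := by rw [hM]; push_cast; ring
    have hM2r : (M : ℝ) ≤ 2 * y := by rw [hMr]; linarith
    have hM2 : M ≤ 2 * y := by exact_mod_cast hM2r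
    have hM0 : (0 : ℝ) < M := by rw [hMr]; positivity
    set c : ℕ → ℝ := fun n => (n : ℝ) * (swhW K M (n + 1) + swhW K M (n + 2)) with hc
    -- the smooth part
    have hI : ‖∑ n ∈ Icc 1 M, ((c n : ℝ) : ℂ) * a n‖ ≤
        B * (3 * (1 + Real.log M) + 27648 * (1 / δ ^ 2)) := by
      rw [hc]
      simp only []
      rw [swh_ident K M a]
      calc ‖∑ N ∈ Icc 1 M, ((-swhD K M N : ℝ) : ℂ) *
            ∑ n ∈ Icc 1 N, (((n : ℝ) * ((N : ℝ) - n) ^ 2 : ℝ) : ℂ) * a n‖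
          ≤ ∑ N ∈ Icc 1 M, B * (3 / (N : ℝ) + (if y ≤ N then 8 * (N : ℝ) ^ 2 / K ^ 3 else 0)) := by
            refine (norm_sum_le _ _).trans (Finset.sum_le_sum fun N hN => ?_)
            obtain ⟨hN1, hN2⟩ := mem_Icc.1 hN
            rw [swh_S a N hN1, norm_mul, norm_mul, Complex.norm_real, Complex.norm_real,
              Real.norm_eq_abs, Real.norm_eq_abs, abs_neg,
              abs_of_nonneg (by positivity : (0 : ℝ) ≤ (N : ℝ) ^ 3)]
            have h1 := hS N hN1 (hN2.trans hM2)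
            have h2 := swhD_bound K y hK hKy N hN1
            calc |swhD K M N| * ((N : ℝ) ^ 3 *
                  ‖∑ n ∈ Icc 1 N, a n * ((om ((n : ℝ) / N) : ℝ) : ℂ)‖)
                ≤ |swhD K M N| * ((N : ℝ) ^ 3 * B) := by
                  refine mul_le_mul_of_nonneg_left ?_ (abs_nonneg _)
                  exact mul_le_mul_of_nonneg_left h1 (by positivity)
              _ = B * ((N : ℝ) ^ 3 * |swhD K M N|) := by ring
              _ ≤ _ := mul_le_mul_of_nonneg_left h2 hB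
        _ = B * (3 * (∑ N ∈ Icc 1 M, 1 / (N : ℝ)) +
            ∑ N ∈ Icc 1 M, (if y ≤ N then 8 * (N : ℝ) ^ 2 / K ^ 3 else 0)) := by
            rw [← Finset.mul_sum, Finset.sum_add_distrib]
            congr 2
            rw [Finset.mul_sum]
            exact Finset.sum_congr rfl fun N _ => by ring
        _ ≤ B * (3 * (1 + Real.log M) + 27648 * (1 / δ ^ 2)) := by
            refine mul_le_mul_of_nonneg_left (add_le_add
              (mul_le_mul_of_nonneg_left (swh_harm M) (by norm_num)) ?_) hB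
            rw [← Finset.sum_filter]
            have hcard : ((Icc 1 M).filter (fun N => y ≤ N)).card ≤ 3 * K + 3 := by
              calc ((Icc 1 M).filter (fun N => y ≤ N)).card ≤ (Icc y M).card := by
                    refine Finset.card_le_card fun x hx => ?_
                    rw [Finset.mem_filter, mem_Icc] at hx
                    exact mem_Icc.2 ⟨hx.2, hx.1.2⟩
                _ = 3 * K + 3 := by
                    rw [Nat.card_Icc]
                    omega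
            have hb : ∀ N ∈ (Icc 1 M).filter (fun N => y ≤ N),
                8 * (N : ℝ) ^ 2 / K ^ 3 ≤ 8 * (M : ℝ) ^ 2 / K ^ 3 := by
              intro N hN
              rw [Finset.mem_filter, mem_Icc] at hN
              have : (N : ℝ) ≤ M := by exact_mod_cast hN.1.2
              gcongr
            have h3 := Finset.sum_le_card_nsmul _ _ _ hb
            rw [nsmul_eq_mul] at h3
            refine h3.trans ?_
            have h4 : ((((Icc 1 M).filter (fun N => y ≤ N)).card : ℕ) : ℝ) ≤ 6 * K := by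
              have : ((((Icc 1 M).filter (fun N => y ≤ N)).card : ℕ) : ℝ) ≤ 3 * K + 3 := by
                exact_mod_cast hcard
              linarith
            calc _ ≤ (6 * K) * (8 * (M : ℝ) ^ 2 / K ^ 3) :=
                  mul_le_mul_of_nonneg_right h4 (by positivity)
              _ = 48 * ((M : ℝ) / K) ^ 2 := by
                  field_simp
                  ring
              _ ≤ 48 * (24 / δ) ^ 2 := by
                  have h5 : (M : ℝ) / K ≤ 24 / δ := by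
                    rw [div_le_div_iff₀ hK' hδ]
                    nlinarith
                  have h6 : 0 ≤ (M : ℝ) / K := by positivity
                  have h7 := pow_le_pow_left₀ h6 h5 2
                  linarith
              _ = 27648 * (1 / δ ^ 2) := by
                  field_simp
                  ring
    -- decomposition
    have hdec : ∑ n ∈ Icc 1 y, a n = ∑ n ∈ Icc 1 M, ((c n : ℝ) : ℂ) * a n +
        ∑ n ∈ Icc 1 y, ((1 - c n : ℝ) : ℂ) * a n - ∑ n ∈ Ioc y M, ((c n : ℝ) : ℂ) * a n := by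
      have h1 : ∑ n ∈ Icc 1 M, ((c n : ℝ) : ℂ) * a n = ∑ n ∈ Icc 1 y, ((c n : ℝ) : ℂ) * a n +
          ∑ n ∈ Ioc y M, ((c n : ℝ) : ℂ) * a n := by
        rw [hIcc, hIcc]
        exact (Finset.sum_Ioc_consecutive _ (Nat.zero_le y) (by omega)).symm
      have h2 : ∑ n ∈ Icc 1 y, a n = ∑ n ∈ Icc 1 y, ((c n : ℝ) : ℂ) * a n +
          ∑ n ∈ Icc 1 y, ((1 - c n : ℝ) : ℂ) * a n := by
        rw [← Finset.sum_add_distrib]
        refine Finset.sum_congr rfl fun n _ => ?_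
        push_cast
        ring
      rw [h1, h2]
      ring
    have hII : ‖∑ n ∈ Icc 1 y, ((1 - c n : ℝ) : ℂ) * a n‖ ≤ 2 * (H * (4 * P + Real.log y)) := by
      calc ‖∑ n ∈ Icc 1 y, ((1 - c n : ℝ) : ℂ) * a n‖
          ≤ ∑ n ∈ Icc 1 y, 2 * (‖a n‖ / n) := by
            refine (norm_sum_le _ _).trans (Finset.sum_le_sum fun n hn => ?_)
            obtain ⟨h1, h2⟩ := mem_Icc.1 hn
            rw [norm_mul, Complex.norm_real, Real.norm_eq_abs]
            have h3 := swh_c_low K y hK n h1 h2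
            have h4 := (swh_c_bounds K M hK n).2
            have h5 : 0 ≤ 1 - c n := by
              rw [hc]
              simp only []
              linarith
            rw [abs_of_nonneg h5]
            calc (1 - c n) * ‖a n‖ ≤ (2 / (n : ℝ)) * ‖a n‖ :=
                  mul_le_mul_of_nonneg_right h3 (norm_nonneg _)
              _ = 2 * (‖a n‖ / n) := by ring
        _ = 2 * ∑ n ∈ Icc 1 y, ‖a n‖ / n := by rw [Finset.mul_sum]
        _ ≤ 2 * (H * (4 * P + Real.log y)) :=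
            mul_le_mul_of_nonneg_left (swh_logsum (fun n => ‖a n‖) H P hH hP y
              (fun k hk => hA0 k (by omega))) (by norm_num)
    have hIII : ‖∑ n ∈ Ioc y M, ((c n : ℝ) : ℂ) * a n‖ ≤ H * (δ * y + 3 * P) := by
      calc ‖∑ n ∈ Ioc y M, ((c n : ℝ) : ℂ) * a n‖ ≤ ∑ n ∈ Ioc y M, ‖a n‖ := by
            refine (norm_sum_le _ _).trans (Finset.sum_le_sum fun n _ => ?_)
            rw [norm_mul, Complex.norm_real, Real.norm_eq_abs]
            obtain ⟨h3, h4⟩ := swh_c_bounds K M hK n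
            rw [hc]
            simp only []
            rw [abs_of_nonneg h3]
            calc _ ≤ 1 * ‖a n‖ := mul_le_mul_of_nonneg_right h4 (norm_nonneg _)
              _ = _ := one_mul _
        _ ≤ H * ((M : ℝ) - y + P) := hA y M (by omega) hM2
        _ ≤ H * (δ * y + 3 * P) := by
            refine mul_le_mul_of_nonneg_left ?_ hH
            rw [hMr]
            linarith
    have hlogM : Real.log M ≤ 2 * Real.log y := by
      calc Real.log M ≤ Real.log (2 * y) := Real.log_le_log hM0 hM2r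
        _ = Real.log 2 + Real.log y := Real.log_mul (by norm_num) (by positivity)
        _ ≤ 2 * Real.log y := by linarith
    have htot : ‖∑ n ∈ Icc 1 y, a n‖ ≤ B * (3 * (1 + Real.log M) + 27648 * (1 / δ ^ 2)) +
        2 * (H * (4 * P + Real.log y)) + H * (δ * y + 3 * P) := by
      rw [hdec]
      refine (norm_sub_le _ _).trans (add_le_add ((norm_add_le _ _).trans (add_le_add hI hII)) hIII)
    have f1 : B * (3 * (1 + Real.log M) + 27648 * (1 / δ ^ 2)) ≤
        30000 * (B * (1 / δ ^ 3 + Real.log y)) := by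
      have : 3 * (1 + Real.log M) + 27648 * (1 / δ ^ 2) ≤ 30000 * (1 / δ ^ 3 + Real.log y) := by
        linarith
      calc _ ≤ B * (30000 * (1 / δ ^ 3 + Real.log y)) := mul_le_mul_of_nonneg_left this hB
        _ = _ := by ring
    have f2 : 2 * (H * (4 * P + Real.log y)) + H * (δ * y + 3 * P) ≤
        30000 * (H * (δ * y + Real.log y + P / δ ^ 3)) := by
      have h1 : 0 ≤ δ * y := by positivity
      have h2 : 2 * (4 * P + Real.log y) + (δ * y + 3 * P) ≤
          30000 * (δ * y + Real.log y + P / δ ^ 3) := by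
        have h3 : 0 ≤ P / δ ^ 3 := by positivity
        linarith
      calc 2 * (H * (4 * P + Real.log y)) + H * (δ * y + 3 * P)
          = H * (2 * (4 * P + Real.log y) + (δ * y + 3 * P)) := by ring
        _ ≤ H * (30000 * (δ * y + Real.log y + P / δ ^ 3)) := mul_le_mul_of_nonneg_left h2 hH
        _ = _ := by ring
    linarith

end Pool.Agent.H91.EHA

end

section

/-!
PK DiA: Λ in one residue class through primitive characters.

Let L = log N, N ≥ 3, 1 ≤ d ≤ N, (N,d) = 1,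
  A(d) = ∑_{n ≤ N, d | N - n} Λ(n) W(n),   MW = ∑_{n ≤ N} Λ(n) W(n).
Then |A(d) - MW/φ(d)| ≤ L² + (1/φ(d)) ∑_{χ mod d, χ ≠ 1} |TT N k χ*|, χ* = the primitive character inducing χ.

Proof.  d | N-n with (N,d)=1 forces (n,d)=1 and n ≡ N; by `DirichletCharacter.sum_char_inv_mul_char_eq`
  A(d) = (1/φ(d)) ∑_χ χ(N)⁻¹ TT N k χ  (|χ(N)⁻¹| ≤ 1).  For χ = 1: TT N k 1 = MW - ∑_{(n,d)>1} Λ(n)W(n).
For every χ: TT N k χ = TT N k χ* - ∑_{(n,d)>1} Λ(n) χ*(n) W(n) (χ(n) = χ*(n) for (n,d)=1: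
`DirichletCharacter.primitiveCharacter_apply_of_isCoprime`, and χ(n) = 0 otherwise).
Error: ∑_{n ≤ N, (n,d)>1} Λ(n) W(n) ≤ (4/27) ∑_{q | d} ∑_{j : q^j ≤ N} log q ≤ (4/27) ω(d) L ≤ (4/27)(1.45) L²  ≤ 0.22 L²
 (0 ≤ W ≤ 4/27 as log n/log N ≤ 1; 2^ω(d) ≤ d ≤ N).  Two such errors.
-/

set_option autoImplicit false

namespace Pool.Agent.H91.PK

open Finset

theorem DiA_omega_le {d : ℕ} (hd : 1 ≤ d) : (d.primeFactors.card : ℝ) * Real.log 2 ≤ Real.log d := by
  have h1 : 2 ^ d.primeFactors.card ≤ d := by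
    calc 2 ^ d.primeFactors.card ≤ ∏ p ∈ d.primeFactors, p :=
          Finset.pow_card_le_prod _ _ _ (fun p hp => (Nat.prime_of_mem_primeFactors hp).two_le)
      _ ≤ d := Nat.le_of_dvd hd (Nat.prod_primeFactors_dvd d)
  have h2 : ((2 : ℝ) ^ d.primeFactors.card) ≤ d := by exact_mod_cast h1
  have h3 := Real.log_le_log (by positivity) h2
  rwa [Real.log_pow] at h3

theorem DiA_psi_noncoprime {N d : ℕ} (hN : 1 ≤ N) (hd : 1 ≤ d) :
    ∑ n ∈ (Icc 1 N).filter (fun n => ¬ Nat.Coprime n d), ArithmeticFunction.vonMangoldt n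
      ≤ (d.primeFactors.card : ℝ) * Real.log N := by
  classical
  have key : ∀ n ∈ (Icc 1 N).filter (fun n => ¬ Nat.Coprime n d),
      ArithmeticFunction.vonMangoldt n ≤ ∑ q ∈ d.primeFactors,
        (if n ∈ (Icc 1 (Nat.log q N)).image (fun j => q ^ j) then
          ArithmeticFunction.vonMangoldt n else 0) := by
    intro n hn
    rw [mem_filter, mem_Icc] at hn
    have hnn : ∀ q ∈ d.primeFactors,
        0 ≤ (if n ∈ (Icc 1 (Nat.log q N)).image (fun j => q ^ j) then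
          ArithmeticFunction.vonMangoldt n else 0) := by
      intro q _
      split_ifs
      · exact ArithmeticFunction.vonMangoldt_nonneg
      · exact le_rfl
    by_cases hp : IsPrimePow n
    · obtain ⟨p, j, hp1, hj, rfl⟩ := hp
      have hpp : p.Prime := Nat.prime_iff.mpr hp1
      have hpd : p ∣ d := by
        by_contra hcon
        exact hn.2 (Nat.Coprime.pow_left _ ((Nat.Prime.coprime_iff_not_dvd hpp).mpr hcon))
      have hmem : p ∈ d.primeFactors := Nat.mem_primeFactors.mpr ⟨hpp, hpd, by omega⟩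
      refine le_trans ?_ (single_le_sum hnn hmem)
      rw [if_pos]
      refine mem_image.mpr ⟨j, ?_, rfl⟩
      rw [mem_Icc]
      exact ⟨hj, (Nat.le_log_iff_pow_le hpp.one_lt (by omega)).mpr hn.1.2⟩
    · rw [ArithmeticFunction.vonMangoldt_eq_zero_iff.mpr hp]
      simp
  calc ∑ n ∈ (Icc 1 N).filter (fun n => ¬ Nat.Coprime n d), ArithmeticFunction.vonMangoldt n
      ≤ ∑ n ∈ (Icc 1 N).filter (fun n => ¬ Nat.Coprime n d), ∑ q ∈ d.primeFactors,
        (if n ∈ (Icc 1 (Nat.log q N)).image (fun j => q ^ j) then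
          ArithmeticFunction.vonMangoldt n else 0) := sum_le_sum key
    _ = ∑ q ∈ d.primeFactors, ∑ n ∈ (Icc 1 N).filter (fun n => ¬ Nat.Coprime n d),
        (if n ∈ (Icc 1 (Nat.log q N)).image (fun j => q ^ j) then
          ArithmeticFunction.vonMangoldt n else 0) := sum_comm
    _ ≤ ∑ q ∈ d.primeFactors, Real.log N := by
        refine sum_le_sum fun q hq => ?_
        have hqp := Nat.prime_of_mem_primeFactors hq
        rw [← sum_filter]
        calc ∑ n ∈ ((Icc 1 N).filter (fun n => ¬ Nat.Coprime n d)).filter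
              (fun n => n ∈ (Icc 1 (Nat.log q N)).image (fun j => q ^ j)),
              ArithmeticFunction.vonMangoldt n
            ≤ ∑ n ∈ (Icc 1 (Nat.log q N)).image (fun j => q ^ j),
              ArithmeticFunction.vonMangoldt n := by
              refine sum_le_sum_of_subset_of_nonneg ?_
                (fun _ _ _ => ArithmeticFunction.vonMangoldt_nonneg)
              intro n hn
              exact (mem_filter.mp hn).2
          _ = ∑ j ∈ Icc 1 (Nat.log q N), ArithmeticFunction.vonMangoldt (q ^ j) := by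
              refine sum_image ?_
              intro a _ b _ hab
              exact Nat.pow_right_injective hqp.two_le hab
          _ = ∑ j ∈ Icc 1 (Nat.log q N), Real.log q := by
              refine sum_congr rfl fun j hj => ?_
              rw [mem_Icc] at hj
              rw [ArithmeticFunction.vonMangoldt_apply_pow (by omega),
                ArithmeticFunction.vonMangoldt_apply_prime hqp]
          _ = (Nat.log q N : ℝ) * Real.log q := by
              rw [sum_const, Nat.card_Icc, nsmul_eq_mul]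
              norm_num
          _ ≤ Real.log N := by
              rw [← Real.log_pow]
              refine Real.log_le_log ?_ ?_
              · have : (0 : ℝ) < q := by exact_mod_cast hqp.pos
                positivity
              · exact_mod_cast Nat.pow_log_le_self q (by omega)
    _ = (d.primeFactors.card : ℝ) * Real.log N := by
        rw [sum_const, nsmul_eq_mul]

theorem DiA_norm_char_le {m : ℕ} (χ : DirichletCharacter ℂ m) (a : ZMod m) : ‖χ a‖ ≤ 1 :=
  χ.norm_le_one a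

/-- values of the primitive character -/
theorem DiA_prim_eq {d n : ℕ} (χ : DirichletCharacter ℂ d) (h : Nat.Coprime n d) :
    χ.primitiveCharacter (n : ZMod χ.conductor) = χ (n : ZMod d) := by
  have h1 : IsCoprime (n : ℤ) (d : ℤ) := Nat.isCoprime_iff_coprime.mpr h
  have h2 := DirichletCharacter.primitiveCharacter_apply_of_isCoprime χ h1
  simpa using h2

theorem DiA_char_zero {d n : ℕ} (χ : DirichletCharacter ℂ d) (h : ¬ Nat.Coprime n d) :
    χ (n : ZMod d) = 0 := by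
  refine χ.map_nonunit ?_
  intro hu
  exact h ((ZMod.isUnit_iff_coprime n d).mp hu)

end Pool.Agent.H91.PK

end

section

/-!
PK Om: the weight `om t = t(1-t)^2` and its Fourier representation.

* `0 ≤ om ≤ 4/27`, `om` is 1-Lipschitz on ℝ (on [0,1] the derivative (1-t)(1-3t) is in [-1/3, 1]; om(0)=om(1)=0).
* For β ≥ 0 let g(v) = e^{-βv} om(e^{-v}) = e^{-(β+1)v} (1-e^{-v})² for v ≥ 0 and 0 for v < 0.  g is continuous,
  integrable and ∫ g(v) e^{-itv} dv = ∑ of three exponentials = 1/(s+1) - 2/(s+2) + 1/(s+3)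
  = 2/((s+1)(s+2)(s+3)), s = β + it, i.e. = KK β t, which is integrable in t.  Fourier inversion
  (Mathlib: `MeasureTheory.Integrable.fourierInv_fourier_eq`, with the change of variable w = t/(2π)) gives
     g(v) = (1/2π) ∫ KK β t e^{itv} dt   for every real v.
* |KK β t| ≤ |KK 0 t| = 2/√((1+t²)(4+t²)(9+t²)) ≤ 0.4386/(1+t²)  since (4+u)(9+u) ≥ 20.797 (1+u) for u ≥ 0
  ((4+u)(9+u) - 20.797(1+u) = u² - 7.797u + 15.203 has negative discriminant 60.79-60.81) and 4/20.797 ≤ 0.4386².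
  Also |KK β t| ≤ 2/|t|³.
-/

set_option autoImplicit false

namespace Pool.Agent.H91.PK

open Finset MeasureTheory

private theorem om_lip01 {s t : ℝ} (hs0 : 0 ≤ s) (hs1 : s ≤ 1) (ht0 : 0 ≤ t) (ht1 : t ≤ 1) :
    |s * (1 - s) ^ 2 - t * (1 - t) ^ 2| ≤ |s - t| := by
  have e : s * (1 - s) ^ 2 - t * (1 - t) ^ 2 =
      (s - t) * ((1 - (s + t)) ^ 2 - s * t) := by ring
  rw [e, abs_mul]
  have h : |(1 - (s + t)) ^ 2 - s * t| ≤ 1 := by
    rw [abs_le]
    have hst : 0 ≤ s * t := mul_nonneg hs0 ht0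
    constructor
    · nlinarith [sq_nonneg (s - t), sq_nonneg (3 * (s + t) - 4)]
    · nlinarith [mul_nonneg (sub_nonneg.2 hs1) (sub_nonneg.2 ht1)]
  calc |s - t| * |(1 - (s + t)) ^ 2 - s * t| ≤ |s - t| * 1 := by gcongr
    _ = |s - t| := mul_one _

theorem om_lip (s t : ℝ) : |om s - om t| ≤ |s - t| := by
  have key : ∀ s : ℝ, om s = (max 0 (min s 1)) * (1 - max 0 (min s 1)) ^ 2 := by
    intro s
    unfold om
    split_ifs with h
    · rw [min_eq_left h.2, max_eq_right h.1]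
    · rcases lt_or_ge s 0 with h1 | h1
      · rw [min_eq_left (by linarith), max_eq_left h1.le]; ring
      · have h2 : 1 < s := by
          by_contra h3
          exact h ⟨h1, not_lt.1 h3⟩
        rw [min_eq_right h2.le, max_eq_right zero_le_one]; ring
  rw [key s, key t]
  have hb : ∀ s : ℝ, 0 ≤ max 0 (min s 1) ∧ max 0 (min s 1) ≤ 1 := fun s =>
    ⟨le_max_left _ _, max_le zero_le_one (min_le_right _ _)⟩
  refine (om_lip01 (hb s).1 (hb s).2 (hb t).1 (hb t).2).trans ?_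
  calc |max 0 (min s 1) - max 0 (min t 1)| ≤ max |(0 : ℝ) - 0| |min s 1 - min t 1| :=
        abs_max_sub_max_le_max _ _ _ _
    _ ≤ |s - t| := by
        refine max_le (by simp) ?_
        refine (abs_min_sub_min_le_max _ _ _ _).trans (max_le le_rfl (by simp))

theorem om_eq_zero {t : ℝ} (h : 1 ≤ t) : om t = 0 := by
  unfold om
  split_ifs with h1
  · have : t = 1 := le_antisymm h1.2 h
    rw [this]; norm_num
  · rfl

private theorem normSq_add (b t : ℝ) : ‖(b : ℂ) + t * Complex.I‖ ^ 2 = b ^ 2 + t ^ 2 := by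
  rw [← Complex.normSq_eq_norm_sq, Complex.normSq_add_mul_I]

private theorem KK_eq (β t : ℝ) : KK β t = 2 / ((((β + 1 : ℝ) : ℂ) + t * Complex.I) *
    (((β + 2 : ℝ) : ℂ) + t * Complex.I) * (((β + 3 : ℝ) : ℂ) + t * Complex.I)) := by
  unfold KK; push_cast; rfl

private theorem norm_KK (β t : ℝ) : ‖KK β t‖ = 2 / (‖((β + 1 : ℝ) : ℂ) + t * Complex.I‖ *
    ‖((β + 2 : ℝ) : ℂ) + t * Complex.I‖ * ‖((β + 3 : ℝ) : ℂ) + t * Complex.I‖) := by
  rw [KK_eq, norm_div, norm_mul, norm_mul, RCLike.norm_ofNat]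

theorem norm_KK_le (β t : ℝ) (hβ : 0 ≤ β) : ‖KK β t‖ ≤ 0.4386 / (1 + t ^ 2) := by
  rw [norm_KK]
  set a := ‖((β + 1 : ℝ) : ℂ) + t * Complex.I‖ with ha
  set b := ‖((β + 2 : ℝ) : ℂ) + t * Complex.I‖ with hb
  set c := ‖((β + 3 : ℝ) : ℂ) + t * Complex.I‖ with hc
  have ha2 : 1 + t ^ 2 ≤ a ^ 2 := by rw [ha, normSq_add]; nlinarith
  have hb2 : 4 + t ^ 2 ≤ b ^ 2 := by rw [hb, normSq_add]; nlinarith
  have hc2 : 9 + t ^ 2 ≤ c ^ 2 := by rw [hc, normSq_add]; nlinarith
  have ha0 : 0 ≤ a := norm_nonneg _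
  have hb0 : 0 ≤ b := norm_nonneg _
  have hc0 : 0 ≤ c := norm_nonneg _
  have ht : 0 < 1 + t ^ 2 := by positivity
  have h1 : (2 / 0.4386 * (1 + t ^ 2)) ^ 2 ≤ (a * b * c) ^ 2 := by
    have h2 : (1 + t ^ 2) * (4 + t ^ 2) * (9 + t ^ 2) ≤ a ^ 2 * b ^ 2 * c ^ 2 := by
      gcongr
    have h3 : (2 / 0.4386 : ℝ) ^ 2 * (1 + t ^ 2) ≤ (4 + t ^ 2) * (9 + t ^ 2) := by
      have h4 : (2 / 0.4386 : ℝ) ^ 2 ≤ 20.7935 := by norm_num
      have h5 : 20.7935 * (1 + t ^ 2) ≤ (4 + t ^ 2) * (9 + t ^ 2) := by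
        nlinarith [sq_nonneg (t ^ 2 - 3.89675)]
      calc (2 / 0.4386 : ℝ) ^ 2 * (1 + t ^ 2) ≤ 20.7935 * (1 + t ^ 2) := by gcongr
        _ ≤ _ := h5
    calc (2 / 0.4386 * (1 + t ^ 2)) ^ 2 = (1 + t ^ 2) * ((2 / 0.4386 : ℝ) ^ 2 * (1 + t ^ 2)) := by
          ring
      _ ≤ (1 + t ^ 2) * ((4 + t ^ 2) * (9 + t ^ 2)) := by gcongr
      _ = (1 + t ^ 2) * (4 + t ^ 2) * (9 + t ^ 2) := by ring
      _ ≤ a ^ 2 * b ^ 2 * c ^ 2 := h2
      _ = (a * b * c) ^ 2 := by ring
  have h6 : 2 / 0.4386 * (1 + t ^ 2) ≤ a * b * c :=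
    le_of_sq_le_sq h1 (by positivity)
  have h7 : 0 < a * b * c := lt_of_lt_of_le (by positivity) h6
  rw [div_le_div_iff₀ h7 ht]
  have : (0.4386 : ℝ) * (2 / 0.4386 * (1 + t ^ 2)) = 2 * (1 + t ^ 2) := by ring
  nlinarith

private theorem ne_zero_of_pos {b : ℝ} (hb : 0 < b) (t : ℝ) : (b : ℂ) + t * Complex.I ≠ 0 := by
  intro h
  have := congrArg Complex.re h
  simp at this
  exact hb.ne' this

theorem KK_continuous (β : ℝ) (hβ : 0 ≤ β) : Continuous (fun t : ℝ => KK β t) := by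
  have e : (fun t : ℝ => KK β t) = fun t : ℝ => 2 / ((((β + 1 : ℝ) : ℂ) + t * Complex.I) *
    (((β + 2 : ℝ) : ℂ) + t * Complex.I) * (((β + 3 : ℝ) : ℂ) + t * Complex.I)) := by
    funext t; exact KK_eq β t
  rw [e]
  refine Continuous.div continuous_const (by fun_prop) fun t => ?_
  exact mul_ne_zero (mul_ne_zero (ne_zero_of_pos (by linarith) t) (ne_zero_of_pos (by linarith) t))
    (ne_zero_of_pos (by linarith) t)

theorem KK_integrable (β : ℝ) (hβ : 0 ≤ β) : Integrable (fun t : ℝ => KK β t) := by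
  refine Integrable.mono' (integrable_inv_one_add_sq.const_mul 0.4386)
    (KK_continuous β hβ).aestronglyMeasurable (Filter.Eventually.of_forall fun t => ?_)
  simpa [div_eq_mul_inv] using norm_KK_le β t hβ

private theorem om_continuous : Continuous om := by
  rw [Metric.continuous_iff]
  intro t ε hε
  refine ⟨ε, hε, fun s hs => ?_⟩
  rw [Real.dist_eq] at hs ⊢
  exact (om_lip s t).trans_lt hs

private noncomputable def gg (β v : ℝ) : ℂ := ((Real.exp (-β * v) * om (Real.exp (-v)) : ℝ) : ℂ)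

private theorem gg_continuous (β : ℝ) : Continuous (gg β) := by
  unfold gg
  refine Complex.continuous_ofReal.comp ?_
  exact (by fun_prop : Continuous fun v : ℝ => Real.exp (-β * v)).mul
    (om_continuous.comp (by fun_prop))

private theorem gg_of_nonpos (β : ℝ) {v : ℝ} (hv : v ≤ 0) : gg β v = 0 := by
  unfold gg
  rw [om_eq_zero (Real.one_le_exp (by linarith)), mul_zero, Complex.ofReal_zero]

/-- the exponent -/
private noncomputable def aa (β w : ℝ) (j : ℝ) : ℂ := -(((β + j : ℝ) : ℂ) + (2 * Real.pi * w : ℝ) * Complex.I)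

private theorem aa_re (β w j : ℝ) : (aa β w j).re = -(β + j) := by
  unfold aa; simp

private theorem gg_of_pos (β w : ℝ) {v : ℝ} (hv : 0 < v) :
    Complex.exp ((-2 * Real.pi * v * w : ℝ) * Complex.I) • gg β v =
      Complex.exp (aa β w 1 * v) - 2 * Complex.exp (aa β w 2 * v) + Complex.exp (aa β w 3 * v) := by
  have h1 : om (Real.exp (-v)) = Real.exp (-v) * (1 - Real.exp (-v)) ^ 2 := by
    unfold om
    rw [if_pos ⟨(Real.exp_pos _).le, Real.exp_le_one_iff.2 (by linarith)⟩]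
  unfold gg
  rw [h1, smul_eq_mul]
  have e : ∀ j : ℕ, Complex.exp (aa β w j * v) =
      Complex.exp ((-2 * Real.pi * v * w : ℝ) * Complex.I) *
        ((Real.exp (-β * v) * Real.exp (-v) ^ j : ℝ) : ℂ) := by
    intro j
    rw [← Real.exp_nat_mul, ← Real.exp_add, Complex.ofReal_exp, ← Complex.exp_add]
    congr 1
    unfold aa
    push_cast
    ring
  have e1 := e 1
  have e2 := e 2
  have e3 := e 3
  push_cast at e1 e2 e3
  rw [e1, e2, e3]
  push_cast
  ring

private theorem intOn_aa (β w j : ℝ) (h : 0 < β + j) :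
    IntegrableOn (fun v : ℝ => Complex.exp (aa β w j * v)) (Set.Ioi 0) :=
  integrableOn_exp_mul_complex_Ioi (by rw [aa_re]; linarith) 0

private theorem int_aa (β w j : ℝ) (h : 0 < β + j) :
    ∫ v : ℝ in Set.Ioi 0, Complex.exp (aa β w j * v) =
      1 / (((β + j : ℝ) : ℂ) + (2 * Real.pi * w : ℝ) * Complex.I) := by
  rw [integral_exp_mul_complex_Ioi (by rw [aa_re]; linarith) 0]
  unfold aa
  rw [Complex.ofReal_zero, mul_zero, Complex.exp_zero, neg_div_neg_eq]

private theorem gg_integrable (β : ℝ) (hβ : 0 ≤ β) : Integrable (gg β) := by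
  have h1 : gg β = (Set.Ioi (0 : ℝ)).indicator (gg β) := by
    funext v
    by_cases hv : v ∈ Set.Ioi (0 : ℝ)
    · rw [Set.indicator_of_mem hv]
    · rw [Set.indicator_of_notMem hv, gg_of_nonpos β (not_lt.1 hv)]
  rw [h1, integrable_indicator_iff measurableSet_Ioi]
  have h2 : IntegrableOn (fun v : ℝ => Complex.exp (aa β 0 1 * v) - 2 * Complex.exp (aa β 0 2 * v)
      + Complex.exp (aa β 0 3 * v)) (Set.Ioi 0) :=
    ((intOn_aa β 0 1 (by linarith)).sub ((intOn_aa β 0 2 (by linarith)).const_mul 2)).add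
      (intOn_aa β 0 3 (by linarith))
  refine h2.congr_fun (fun v hv => ?_) measurableSet_Ioi
  have := gg_of_pos β 0 hv
  simp only [mul_zero, Complex.ofReal_zero, zero_mul, Complex.exp_zero, one_smul] at this
  exact this.symm

private theorem gg_fourier (β : ℝ) (hβ : 0 ≤ β) (w : ℝ) :
    FourierTransform.fourier (gg β) w = KK β (2 * Real.pi * w) := by
  rw [Real.fourier_real_eq_integral_exp_smul]
  have h1 : ∫ v : ℝ, Complex.exp ((-2 * Real.pi * v * w : ℝ) * Complex.I) • gg β v =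
      ∫ v : ℝ in Set.Ioi 0, (Complex.exp (aa β w 1 * v) - 2 * Complex.exp (aa β w 2 * v) +
        Complex.exp (aa β w 3 * v)) := by
    rw [← setIntegral_eq_integral_of_forall_compl_eq_zero (s := Set.Ioi (0 : ℝ))
      (fun v hv => by rw [gg_of_nonpos β (not_lt.1 hv), smul_zero])]
    exact setIntegral_congr_fun measurableSet_Ioi fun v hv => gg_of_pos β w hv
  rw [h1, integral_add, integral_sub, integral_const_mul, int_aa β w 1 (by linarith),
    int_aa β w 2 (by linarith), int_aa β w 3 (by linarith)]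
  · rw [KK_eq]
    have n1 := ne_zero_of_pos (show 0 < β + 1 by linarith) (2 * Real.pi * w)
    have n2 := ne_zero_of_pos (show 0 < β + 2 by linarith) (2 * Real.pi * w)
    have n3 := ne_zero_of_pos (show 0 < β + 3 by linarith) (2 * Real.pi * w)
    push_cast at n1 n2 n3 ⊢
    field_simp
    ring
  · exact intOn_aa β w 1 (by linarith)
  · exact (intOn_aa β w 2 (by linarith)).const_mul 2
  · exact (intOn_aa β w 1 (by linarith)).sub ((intOn_aa β w 2 (by linarith)).const_mul 2)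
  · exact intOn_aa β w 3 (by linarith)

/-- The Fourier representation. -/
theorem om_fourier (β v : ℝ) (hβ : 0 ≤ β) :
    ((Real.exp (-β * v) * om (Real.exp (-v)) : ℝ) : ℂ)
      = (1 / (2 * Real.pi)) * ∫ t : ℝ, KK β t * Complex.exp (t * v * Complex.I) := by
  have hF : FourierTransform.fourier (gg β) = fun w => KK β (2 * Real.pi * w) := by
    funext w; exact gg_fourier β hβ w
  have hint : Integrable (FourierTransform.fourier (gg β)) := by
    rw [hF]
    exact (KK_integrable β hβ).comp_mul_left' (by positivity)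
  have hinv := congrFun ((gg_continuous β).fourierInv_fourier_eq (gg_integrable β hβ) hint) v
  rw [hF, Real.fourierInv_eq'] at hinv
  show gg β v = _
  rw [← hinv]
  have h1 := Measure.integral_comp_mul_left
    (fun t : ℝ => KK β t * Complex.exp (t * v * Complex.I)) (2 * Real.pi)
  have h2 : ∫ w : ℝ, Complex.exp ((2 * Real.pi * inner ℝ w v : ℝ) * Complex.I) •
      KK β (2 * Real.pi * w) = ∫ w : ℝ, KK β (2 * Real.pi * w) *
        Complex.exp (((2 * Real.pi * w : ℝ) : ℂ) * v * Complex.I) := by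
    refine integral_congr_ae (Filter.Eventually.of_forall fun w => ?_)
    simp only [smul_eq_mul]
    rw [mul_comm]
    congr 2
    simp only [RCLike.inner_apply, conj_trivial]
    push_cast
    ring
  rw [h2, h1, abs_of_pos (by positivity)]
  rw [Complex.real_smul]
  push_cast
  ring

/-- In terms of `N / n`. -/
theorem om_fourier' (β : ℝ) (hβ : 0 ≤ β) {N n : ℕ} (hN : 1 ≤ N) (hn : 1 ≤ n) :
    ((om ((n : ℝ) / N) : ℝ) : ℂ)
      = (((N : ℝ) / n) ^ β : ℝ) * ((1 / (2 * Real.pi)) *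
        ∫ t : ℝ, KK β t * ((N : ℂ) ^ (t * Complex.I) * (n : ℂ) ^ (-(t * Complex.I)))) := by
  have hN0 : (0 : ℝ) < N := by exact_mod_cast hN
  have hn0 : (0 : ℝ) < n := by exact_mod_cast hn
  set v : ℝ := Real.log (N / n) with hv
  have hexp : Real.exp (-v) = n / N := by
    rw [Real.exp_neg, hv, Real.exp_log (by positivity), inv_div]
  have hβv : Real.exp (-β * v) = (((N : ℝ) / n) ^ β)⁻¹ := by
    rw [Real.rpow_def_of_pos (by positivity), ← Real.exp_neg]
    congr 1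
    rw [← hv]; ring
  have h := om_fourier β v hβ
  rw [hexp, hβv] at h
  have hint : ∫ t : ℝ, KK β t * ((N : ℂ) ^ (t * Complex.I) * (n : ℂ) ^ (-(t * Complex.I))) =
      ∫ t : ℝ, KK β t * Complex.exp (t * v * Complex.I) := by
    refine integral_congr_ae (Filter.Eventually.of_forall fun t => ?_)
    simp only
    congr 1
    have hNc : (N : ℂ) ≠ 0 := by exact_mod_cast hN0.ne'
    have hnc : (n : ℂ) ≠ 0 := by exact_mod_cast hn0.ne'
    rw [Complex.cpow_def_of_ne_zero hNc, Complex.cpow_def_of_ne_zero hnc, ← Complex.exp_add]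
    congr 1
    rw [hv, Real.log_div hN0.ne' hn0.ne', Complex.natCast_log.symm, Complex.natCast_log.symm]
    push_cast
    ring
  rw [hint, ← h]
  have hpos : (0 : ℝ) < ((N : ℝ) / n) ^ β := by positivity
  rw [← Complex.ofReal_mul]
  congr 1
  field_simp

end Pool.Agent.H91.PK

end

section

/-!
# Smooth sums from Dirichlet series bounds

`om(n/N) = (1/2π) ∫ KK β t (N/n)^{β+it} dt` (`om_fourier'` in `PK/Om.lean`; holds for all `n ≥ 1`, both sides are `0`
for `n > N`).  Take `β = 1 + 1/log N` for `N ≥ 3`, `β = 2` for `N = 2`; interchange sum and integral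
(absolutely convergent): `∑ a_n om(n/N) = (1/2π) ∫ KK β t N^{β+it} LSeries a (β+it) dt`;
`N^β ≤ 4 N`, `‖KK β t‖ ≤ 2/(1+t²)^{3/2}`-type decay against `log(|t|+3)^K`.
-/

set_option autoImplicit false

namespace Pool.Agent.H91.EHA

open Finset
open Pool.Agent.H91.PK
open MeasureTheory

/-- decay of the kernel against a power of the logarithm -/
private theorem swG_kernel (K : ℕ) (β t : ℝ) (hβ : 0 ≤ β) :
    ‖KK β t‖ * Real.log (|t| + 3) ^ K ≤
      1.7544 / (1 / (2 * ((K : ℝ) + 1))) ^ K * (1 + ‖t‖) ^ (-(3 / 2 : ℝ)) := by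
  set ε : ℝ := 1 / (2 * ((K : ℝ) + 1)) with hε
  have hK : (0 : ℝ) ≤ K := Nat.cast_nonneg K
  have hε0 : 0 < ε := by positivity
  have hεK : ε * K ≤ 1 / 2 := by
    rw [hε, div_mul_eq_mul_div, one_mul, div_le_div_iff₀ (by positivity) (by norm_num)]
    nlinarith
  have ht : 0 ≤ |t| := abs_nonneg t
  rw [Real.norm_eq_abs]
  have hx1 : (0 : ℝ) < 1 + |t| := by positivity
  have h1 : ‖KK β t‖ ≤ 0.8772 / (1 + |t|) ^ 2 := by
    refine (norm_KK_le β t hβ).trans ?_
    rw [div_le_div_iff₀ (by positivity) (by positivity)]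
    have : t ^ 2 = |t| ^ 2 := (sq_abs t).symm
    rw [this]
    nlinarith [sq_nonneg (1 - |t|)]
  have h2 : Real.log (|t| + 3) ^ K ≤ 2 / ε ^ K * (1 + |t|) ^ (1 / 2 : ℝ) := by
    have h3 : Real.log (|t| + 3) ≤ (|t| + 3) ^ ε / ε :=
      Real.log_le_rpow_div (by positivity) hε0
    have h4 : 0 ≤ Real.log (|t| + 3) := Real.log_nonneg (by linarith)
    have h5 : Real.log (|t| + 3) ^ K ≤ ((|t| + 3) ^ ε / ε) ^ K := pow_le_pow_left₀ h4 h3 K
    have h6 : ((|t| + 3) ^ ε / ε) ^ K = (|t| + 3) ^ (ε * K) / ε ^ K := by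
      rw [div_pow, ← Real.rpow_natCast ((|t| + 3) ^ ε) K, ← Real.rpow_mul (by positivity)]
    have h7 : (|t| + 3) ^ (ε * K) ≤ (|t| + 3) ^ (1 / 2 : ℝ) :=
      Real.rpow_le_rpow_of_exponent_le (by linarith) hεK
    have h8 : (|t| + 3) ^ (1 / 2 : ℝ) ≤ 2 * (1 + |t|) ^ (1 / 2 : ℝ) := by
      have h9 : (2 : ℝ) * (1 + |t|) ^ (1 / 2 : ℝ) = (4 * (1 + |t|)) ^ (1 / 2 : ℝ) := by
        rw [Real.mul_rpow (by norm_num) (by positivity)]
        congr 1
        rw [← Real.sqrt_eq_rpow, show (4 : ℝ) = 2 ^ 2 by norm_num, Real.sqrt_sq (by norm_num)]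
      rw [h9]
      exact Real.rpow_le_rpow (by positivity) (by linarith) (by norm_num)
    calc Real.log (|t| + 3) ^ K ≤ (|t| + 3) ^ (ε * K) / ε ^ K := by rw [← h6]; exact h5
      _ ≤ (2 * (1 + |t|) ^ (1 / 2 : ℝ)) / ε ^ K := by
          gcongr
          exact h7.trans h8
      _ = 2 / ε ^ K * (1 + |t|) ^ (1 / 2 : ℝ) := by ring
  have h10 : (1 + |t|) ^ (-(3 / 2 : ℝ)) = (1 + |t|) ^ (1 / 2 : ℝ) / (1 + |t|) ^ 2 := by
    rw [← Real.rpow_natCast (1 + |t|) 2, ← Real.rpow_sub hx1]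
    norm_num
  calc ‖KK β t‖ * Real.log (|t| + 3) ^ K
      ≤ (0.8772 / (1 + |t|) ^ 2) * (2 / ε ^ K * (1 + |t|) ^ (1 / 2 : ℝ)) := by
        apply mul_le_mul h1 h2 _ (by positivity)
        exact pow_nonneg (Real.log_nonneg (by linarith)) K
    _ = 1.7544 / ε ^ K * (1 + |t|) ^ (-(3 / 2 : ℝ)) := by
        rw [h10]; ring

/-- the summand -/
private noncomputable def swG_F (a : ℕ → ℂ) (β : ℝ) (N n : ℕ) (t : ℝ) : ℂ :=
  KK β t * ((N : ℂ) ^ (t * Complex.I) * LSeries.term a ((β : ℂ) + t * Complex.I) n)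

private theorem swG_F_eq (a : ℕ → ℂ) (β : ℝ) (N n : ℕ) (hn : 1 ≤ n) (t : ℝ) :
    swG_F a β N n t = (a n / (n : ℂ) ^ (β : ℂ)) *
      (KK β t * ((N : ℂ) ^ (t * Complex.I) * (n : ℂ) ^ (-(t * Complex.I)))) := by
  unfold swG_F
  have hn0 : (n : ℂ) ≠ 0 := by exact_mod_cast (by omega : n ≠ 0)
  rw [LSeries.term_of_ne_zero (by omega), Complex.cpow_add _ _ hn0, Complex.cpow_neg]
  have h1 : (n : ℂ) ^ (β : ℂ) ≠ 0 := by
    rw [Complex.cpow_def_of_ne_zero hn0]; exact Complex.exp_ne_zero _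
  have h2 : (n : ℂ) ^ ((t : ℂ) * Complex.I) ≠ 0 := by
    rw [Complex.cpow_def_of_ne_zero hn0]; exact Complex.exp_ne_zero _
  field_simp

private theorem swG_norm_F (a : ℕ → ℂ) (β : ℝ) (N n : ℕ) (hN : 1 ≤ N) (t : ℝ) :
    ‖swG_F a β N n t‖ = ‖LSeries.term a (β : ℂ) n‖ * ‖KK β t‖ := by
  unfold swG_F
  rw [norm_mul, norm_mul, Complex.norm_natCast_cpow_of_pos (by omega)]
  have h1 : ((t : ℂ) * Complex.I).re = 0 := by simp
  have h2 : ‖LSeries.term a ((β : ℂ) + t * Complex.I) n‖ = ‖LSeries.term a (β : ℂ) n‖ := by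
    rw [LSeries.norm_term_eq, LSeries.norm_term_eq]
    simp
  rw [h1, Real.rpow_zero, one_mul, h2, mul_comm]

private theorem swG_F_cont (a : ℕ → ℂ) (β : ℝ) (hβ : 0 ≤ β) (N n : ℕ) (hN : 1 ≤ N) :
    Continuous (swG_F a β N n) := by
  rcases Nat.eq_zero_or_pos n with rfl | hn
  · have : swG_F a β N 0 = fun _ => 0 := by
      funext t; unfold swG_F; rw [LSeries.term_zero, mul_zero, mul_zero]
    rw [this]; exact continuous_const
  · have : swG_F a β N n = fun t : ℝ => (a n / (n : ℂ) ^ (β : ℂ)) *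
      (KK β t * ((N : ℂ) ^ (t * Complex.I) * (n : ℂ) ^ (-(t * Complex.I)))) := by
      funext t; exact swG_F_eq a β N n hn t
    rw [this]
    have hn0 : (n : ℂ) ≠ 0 := by exact_mod_cast (by omega : n ≠ 0)
    have hN0 : (N : ℂ) ≠ 0 := by exact_mod_cast (by omega : N ≠ 0)
    refine continuous_const.mul ((KK_continuous β hβ).mul (Continuous.mul ?_ ?_))
    · exact Continuous.const_cpow (by fun_prop) (Or.inl hN0)
    · exact Continuous.const_cpow (by fun_prop) (Or.inl hn0)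

private theorem swG_F_int (a : ℕ → ℂ) (β : ℝ) (hβ : 0 ≤ β) (N n : ℕ) (hN : 1 ≤ N) :
    Integrable (swG_F a β N n) := by
  refine Integrable.mono' ((KK_integrable β hβ).norm.const_mul ‖LSeries.term a (β : ℂ) n‖)
    (swG_F_cont a β hβ N n hN).aestronglyMeasurable (Filter.Eventually.of_forall fun t => ?_)
  rw [swG_norm_F a β N n hN t]

private theorem swG_identity (a : ℕ → ℂ) (β : ℝ) (hβ : 0 ≤ β) (N : ℕ) (hN : 1 ≤ N)
    (hs : LSeriesSummable a (β : ℂ)) :
    ∑ n ∈ Icc 1 N, a n * ((om ((n : ℝ) / N) : ℝ) : ℂ) =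
      (((N : ℝ) ^ β : ℝ) : ℂ) * (1 / (2 * Real.pi)) *
        ∫ t : ℝ, KK β t * ((N : ℂ) ^ (t * Complex.I) * LSeries a ((β : ℂ) + t * Complex.I)) := by
  have hN0 : (0 : ℝ) < N := by exact_mod_cast hN
  have h1 : HasSum (fun n => ∫ t, swG_F a β N n t) (∫ t, ∑' n, swG_F a β N n t) := by
    apply hasSum_integral_of_summable_integral_norm (swG_F_int a β hβ N · hN)
    have h2 : (fun n => ∫ t, ‖swG_F a β N n t‖) =
        fun n => ‖LSeries.term a (β : ℂ) n‖ * ∫ t, ‖KK β t‖ := by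
      funext n
      simp only [swG_norm_F a β N n hN]
      rw [integral_const_mul]
    rw [h2]
    exact (Summable.norm hs).mul_right _
  have h3 : ∀ t : ℝ, ∑' n, swG_F a β N n t =
      KK β t * ((N : ℂ) ^ (t * Complex.I) * LSeries a ((β : ℂ) + t * Complex.I)) := by
    intro t
    unfold swG_F LSeries
    rw [tsum_mul_left, tsum_mul_left]
  simp only [h3] at h1
  have h4 := h1.mul_left ((((N : ℝ) ^ β : ℝ) : ℂ) * (1 / (2 * Real.pi)))
  have hval : ∀ n : ℕ, 1 ≤ n → (((N : ℝ) ^ β : ℝ) : ℂ) * (1 / (2 * Real.pi)) *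
      (∫ t, swG_F a β N n t) = a n * ((om ((n : ℝ) / N) : ℝ) : ℂ) := by
    intro n hn
    have hn0 : (0 : ℝ) < n := by exact_mod_cast hn
    have e1 : ∫ t, swG_F a β N n t = (a n / (n : ℂ) ^ (β : ℂ)) *
        ∫ t : ℝ, KK β t * ((N : ℂ) ^ (t * Complex.I) * (n : ℂ) ^ (-(t * Complex.I))) := by
      simp only [swG_F_eq a β N n hn]
      rw [integral_const_mul]
    rw [e1, om_fourier' β hβ hN hn, Real.div_rpow hN0.le hn0.le]
    have e2 : (n : ℂ) ^ (β : ℂ) = (((n : ℝ) ^ β : ℝ) : ℂ) := by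
      rw [Complex.ofReal_cpow hn0.le]; simp
    rw [e2]
    push_cast
    ring
  have h5 : HasSum (fun n => (((N : ℝ) ^ β : ℝ) : ℂ) * (1 / (2 * Real.pi)) *
      (∫ t, swG_F a β N n t)) (∑ n ∈ Icc 1 N, (((N : ℝ) ^ β : ℝ) : ℂ) * (1 / (2 * Real.pi)) *
      (∫ t, swG_F a β N n t)) := by
    apply hasSum_sum_of_ne_finset_zero
    intro n hn
    rcases Nat.eq_zero_or_pos n with rfl | hn1
    · have : ∀ t, swG_F a β N 0 t = 0 := by
        intro t; unfold swG_F; rw [LSeries.term_zero, mul_zero, mul_zero]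
      simp only [this, integral_zero, mul_zero]
    · rw [hval n hn1]
      have hnN : N < n := by
        by_contra h
        exact hn (Finset.mem_Icc.2 ⟨hn1, not_lt.1 h⟩)
      rw [om_eq_zero, Complex.ofReal_zero, mul_zero]
      rw [le_div_iff₀ hN0, one_mul]
      exact_mod_cast hnN.le
  rw [← h5.unique h4]
  apply Finset.sum_congr rfl
  intro n hn
  rw [hval n (Finset.mem_Icc.1 hn).1]

theorem smooth_gen (K : ℕ) : ∃ C : ℝ, 0 < C ∧ ∀ (a : ℕ → ℂ) (B : ℝ), 0 ≤ B →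
    (∀ s : ℂ, 1 < s.re → s.re ≤ 2 → LSeriesSummable a s ∧
      ‖LSeries a s‖ ≤ B * Real.log (|s.im| + 3) ^ K) →
    ∀ N : ℕ, 2 ≤ N → ‖∑ n ∈ Icc 1 N, a n * ((om ((n : ℝ) / N) : ℝ) : ℂ)‖ ≤ C * B * N := by
  set C0 : ℝ := 1.7544 / (1 / (2 * ((K : ℝ) + 1))) ^ K with hC0
  have hC0pos : 0 < C0 := by positivity
  set I0 : ℝ := ∫ t : ℝ, (1 + ‖t‖) ^ (-(3 / 2 : ℝ)) with hI0
  have hI0nn : 0 ≤ I0 := integral_nonneg (fun t => by positivity)
  have hint : Integrable (fun t : ℝ => (1 + ‖t‖) ^ (-(3 / 2 : ℝ))) :=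
    integrable_one_add_norm (by simp; norm_num)
  refine ⟨C0 * I0 + 1, by positivity, ?_⟩
  intro a B hB h N hN
  have hN0 : (0 : ℝ) < N := by exact_mod_cast (by omega : 0 < N)
  have hlog : 0 < Real.log N := Real.log_pos (by exact_mod_cast (by omega : 1 < N))
  set β : ℝ := 1 + 1 / (1 + Real.log N) with hβ
  have hβ1 : 1 < β := by rw [hβ]; have : 0 < 1 / (1 + Real.log N) := by positivity
                         linarith
  have hβ2 : β ≤ 2 := by
    have : 1 / (1 + Real.log N) ≤ 1 := by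
      rw [div_le_one (by positivity)]; linarith
    linarith
  have hs : LSeriesSummable a (β : ℂ) := (h (β : ℂ) (by simpa using hβ1) (by simpa using hβ2)).1
  rw [swG_identity a β (by linarith) N (by omega) hs]
  have hpow : (N : ℝ) ^ β ≤ Real.exp 1 * N := by
    rw [hβ, Real.rpow_add hN0, Real.rpow_one, mul_comm]
    gcongr
    rw [Real.rpow_def_of_pos hN0, Real.exp_le_exp, mul_one_div, div_le_one (by positivity)]
    linarith
  have hbound : ‖∫ t : ℝ, KK β t * ((N : ℂ) ^ (t * Complex.I) *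
      LSeries a ((β : ℂ) + t * Complex.I))‖ ≤ ∫ t : ℝ, B * (C0 * (1 + ‖t‖) ^ (-(3 / 2 : ℝ))) := by
    apply norm_integral_le_of_norm_le ((hint.const_mul C0).const_mul B)
    refine Filter.Eventually.of_forall fun t => ?_
    rw [norm_mul, norm_mul, Complex.norm_natCast_cpow_of_pos (by omega)]
    have h1 : ((t : ℂ) * Complex.I).re = 0 := by simp
    have h2 := (h ((β : ℂ) + t * Complex.I) (by simpa using hβ1) (by simpa using hβ2)).2
    have h3 : ((β : ℂ) + t * Complex.I).im = t := by simp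
    rw [h3] at h2
    rw [h1, Real.rpow_zero, one_mul]
    have h4 := swG_kernel K β t (by linarith)
    calc ‖KK β t‖ * ‖LSeries a ((β : ℂ) + t * Complex.I)‖
        ≤ ‖KK β t‖ * (B * Real.log (|t| + 3) ^ K) := by gcongr
      _ = B * (‖KK β t‖ * Real.log (|t| + 3) ^ K) := by ring
      _ ≤ B * (C0 * (1 + ‖t‖) ^ (-(3 / 2 : ℝ))) := by
          apply mul_le_mul_of_nonneg_left h4 hB
  rw [integral_const_mul, integral_const_mul, ← hI0] at hbound
  have hpi : Real.exp 1 * (1 / (2 * Real.pi)) ≤ 1 := by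
    have h1 := Real.exp_one_lt_d9
    have h2 := Real.pi_gt_three
    rw [mul_one_div, div_le_one (by positivity)]
    linarith
  rw [norm_mul, norm_mul]
  have e1 : ‖(((N : ℝ) ^ β : ℝ) : ℂ)‖ = (N : ℝ) ^ β := by
    rw [Complex.norm_real, Real.norm_of_nonneg (by positivity)]
  have e2 : ‖(1 / (2 * Real.pi) : ℂ)‖ = 1 / (2 * Real.pi) := by
    have : (1 / (2 * Real.pi) : ℂ) = ((1 / (2 * Real.pi) : ℝ) : ℂ) := by push_cast; rfl
    rw [this, Complex.norm_real, Real.norm_of_nonneg (by positivity)]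
  rw [e1, e2]
  have hpi0 : 0 < 1 / (2 * Real.pi) := by positivity
  calc (N : ℝ) ^ β * (1 / (2 * Real.pi)) * ‖∫ t : ℝ, KK β t * ((N : ℂ) ^ (t * Complex.I) *
        LSeries a ((β : ℂ) + t * Complex.I))‖
      ≤ (Real.exp 1 * N) * (1 / (2 * Real.pi)) * (B * (C0 * I0)) := by gcongr
    _ = (Real.exp 1 * (1 / (2 * Real.pi))) * (C0 * I0 * B * N) := by ring
    _ ≤ 1 * (C0 * I0 * B * N) := by
        apply mul_le_mul_of_nonneg_right hpi (by positivity)
    _ ≤ (C0 * I0 + 1) * B * N := by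
        have : 0 ≤ B * N := by positivity
        nlinarith

end Pool.Agent.H91.EHA

end
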