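import Mathlib

/-! The parts of this file: H45.KC.Defs, H45.KC.DJ, H59.FD.Good, H66.AB.Move, H77.AB.MixVal, H85.AB.End, H59.AB.Char, H9.FC.Defs, H9.FC.JMod, H9.FC.NfEmb, H9.FC.OrdA, H9.FC.Red, H9.FC.Teich, H91.EHA.SwD1, H91.EHA.SwD2. -/

section

/-!
# KC (Kummer's criterion over number fields, MP_ef6a16_nt): definitions

Logarithmic derivatives at `1` for the derivation `θ = X d/dX` of `k[X]`, `k` a field.
`Nm G n` is the numerator of `θ^n (θ G / G)`: `θ^n (θ G / G) = Nm G n / G ^ (n + 1)`.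
`DL j G` (`j ≥ 1`) is the value at `1` of `θ^(j-1) (θ G / G)`, the `j`-th logarithmic derivative
of `G (e ^ v)` at `v = 0`.
`TB p b` is the set of the units `t` of `ZMod p` with `p < t + (b t mod p)` (`1 ≤ t < p`).
-/

open Polynomial

namespace H45KC

/-- `θ f = X f'` -/
noncomputable def th {k : Type*} [Field k] (f : k[X]) : k[X] := X * derivative f

/-- the numerator of `θ^n (θ G / G)` with denominator `G ^ (n + 1)` -/
noncomputable def Nm {k : Type*} [Field k] (G : k[X]) : ℕ → k[X]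
  | 0 => th G
  | n + 1 => G * th (Nm G n) - ((n + 1 : ℕ) : k[X]) * Nm G n * th G

/-- the `j`-th logarithmic derivative of `G` at `1` (`j ≥ 1`) -/
noncomputable def DL {k : Type*} [Field k] (j : ℕ) (G : k[X]) : k :=
  (Nm G (j - 1)).eval 1 / (G.eval 1) ^ j

end H45KC

end

section

/-!
# KC, module DJ: the calculus of the logarithmic derivatives `DL j`

`θ f = X f'` is a derivation of `k[X]`: `θ (f g) = θ f g + f θ g`, `θ (C c) = 0`, `θ X = X`.

PROOFS.
`Nm_mul`: `Nm (G H) n = Nm G n * H ^ (n+1) + Nm H n * G ^ (n+1)`, by induction on `n`: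
`n = 0` is the product rule.  With `j = n + 1`, `A = Nm G n`, `B = Nm H n`:
`G H θ (A H^j + B G^j) - j (A H^j + B G^j) θ (G H)`
`= G H (θA H^j + j A H^(j-1) θH + θB G^j + j B G^(j-1) θG) - j (A H^j + B G^j) (θG H + G θH)`
`= H^(j+1) (G θA - j A θG) + G^(j+1) (H θB - j B θH)` (the other terms cancel: `ring` after
`θ (H^j) = j H^(j-1) θH`, `derivative_pow`; write `H ^ j = H * H ^ n`).
`DL_mul`: divide by `(G H)(1)^j`.  `DL_pow`, `DL_prod`: induction (`DL j 1 = 0`).
`DL_comp`: `θ (f (X^i)) = i (θ f)(X^i)` (`derivative_comp`), so by induction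
`Nm (G (X^i)) n = i^(n+1) (Nm G n)(X^i)`; evaluate at `1` (`eval_comp`, `1 ^ i = 1`).
`DL_X`: `Nm X 0 = X`, `Nm X 1 = X θX - X θX = 0`, so `Nm X n = 0` for `n ≥ 1`.
`Nm_congr`: if `(X-1)^m ∣ G - H` then `(X-1)^(m-(n+1)) ∣ Nm G n - Nm H n`: `θ` lowers the divisibility
by one (`(X-1)^(m+1) ∣ f → (X-1)^m ∣ θ f`), induction on `n`.  `DL_congr`: with `m = j + 1` the
difference `Nm G (j-1) - Nm H (j-1)` is divisible by `X - 1` and `G(1) = H(1)`.
-/

open Polynomial

namespace H45KC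

variable {k : Type*} [Field k]

theorem th_mul (f g : k[X]) : th (f * g) = th f * g + f * th g := by
  rw [th, th, th, derivative_mul]
  ring

private theorem DJ_th_add (f g : k[X]) : th (f + g) = th f + th g := by
  simp [th, mul_add]

private theorem DJ_th_sub (f g : k[X]) : th (f - g) = th f - th g := by
  simp [th, mul_sub]

private theorem DJ_th_C (c : k) : th (C c) = 0 := by simp [th]

private theorem DJ_th_pow (f : k[X]) (n : ℕ) :
    th (f ^ (n + 1)) = ((n + 1 : ℕ) : k[X]) * f ^ n * th f := by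
  rw [th, derivative_pow, th, C_eq_natCast]
  simp only [Nat.add_sub_cancel]
  ring

theorem Nm_mul (G H : k[X]) (n : ℕ) :
    Nm (G * H) n = Nm G n * H ^ (n + 1) + Nm H n * G ^ (n + 1) := by
  induction n with
  | zero => simp only [Nm, th_mul]; ring
  | succ n ih =>
    rw [Nm, ih, DJ_th_add, th_mul (Nm G n), th_mul (Nm H n), DJ_th_pow, DJ_th_pow, th_mul G H,
      Nm, Nm]
    ring

theorem DL_mul (j : ℕ) (hj : 1 ≤ j) (G H : k[X]) (hG : G.eval 1 ≠ 0) (hH : H.eval 1 ≠ 0) :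
    DL j (G * H) = DL j G + DL j H := by
  obtain ⟨n, rfl⟩ : ∃ n, j = n + 1 := ⟨j - 1, by omega⟩
  rw [DL, DL, DL, Nat.add_sub_cancel, Nm_mul]
  simp only [eval_add, eval_mul, eval_pow]
  have h1 : (eval 1 G) ^ (n + 1) ≠ 0 := pow_ne_zero _ hG
  have h2 : (eval 1 H) ^ (n + 1) ≠ 0 := pow_ne_zero _ hH
  rw [mul_pow, div_add_div _ _ h1 h2]
  congr 1
  ring

private theorem DJ_Nm_C (c : k) (n : ℕ) : Nm (C c) n = 0 := by
  induction n with
  | zero => exact DJ_th_C c
  | succ n ih =>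
    rw [Nm, ih]
    simp [th]

theorem DL_C (j : ℕ) (hj : 1 ≤ j) (c : k) : DL j (C c) = 0 := by
  obtain ⟨n, rfl⟩ : ∃ n, j = n + 1 := ⟨j - 1, by omega⟩
  rw [DL, Nat.add_sub_cancel, DJ_Nm_C]
  simp

theorem DL_pow (j : ℕ) (hj : 1 ≤ j) (G : k[X]) (hG : G.eval 1 ≠ 0) (n : ℕ) :
    DL j (G ^ n) = n * DL j G := by
  induction n with
  | zero =>
    have := DL_C j hj (1 : k)
    rw [C_1] at this
    rw [pow_zero, this]
    simp
  | succ n ih =>
    rw [pow_succ, DL_mul j hj _ _ (by rw [eval_pow]; exact pow_ne_zero _ hG) hG, ih]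
    push_cast
    ring

theorem DL_prod (j : ℕ) (hj : 1 ≤ j) {ι : Type*} (s : Finset ι) (G : ι → k[X]) (n : ι → ℕ)
    (hG : ∀ i ∈ s, (G i).eval 1 ≠ 0) :
    DL j (∏ i ∈ s, G i ^ n i) = ∑ i ∈ s, (n i : k) * DL j (G i) := by
  classical
  induction s using Finset.induction_on with
  | empty =>
    have := DL_C j hj (1 : k)
    rw [C_1] at this
    simp [this]
  | insert a s ha ih =>
    have h1 : ∀ i ∈ s, (G i).eval 1 ≠ 0 := fun i hi => hG i (Finset.mem_insert_of_mem hi)
    have h2 : (G a).eval 1 ≠ 0 := hG a (Finset.mem_insert_self _ _)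
    rw [Finset.prod_insert ha, Finset.sum_insert ha, DL_mul j hj, DL_pow j hj _ h2, ih h1]
    · rw [eval_pow]
      exact pow_ne_zero _ h2
    · rw [eval_prod]
      refine Finset.prod_ne_zero_iff.mpr fun i hi => ?_
      rw [eval_pow]
      exact pow_ne_zero _ (h1 i hi)

private theorem DJ_th_comp (f : k[X]) (i : ℕ) :
    th (f.comp (X ^ i)) = (i : k[X]) * (th f).comp (X ^ i) := by
  rcases i with _ | i
  · simp [th, derivative_comp]
  · rw [th, derivative_comp, derivative_X_pow, th, mul_comp, X_comp, C_eq_natCast]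
    simp only [Nat.add_sub_cancel]
    ring

private theorem DJ_Nm_comp (G : k[X]) (i n : ℕ) :
    Nm (G.comp (X ^ i)) n = (i : k[X]) ^ (n + 1) * (Nm G n).comp (X ^ i) := by
  induction n with
  | zero => simp only [Nm, DJ_th_comp]; ring
  | succ n ih =>
    have h1 : th ((i : k[X]) ^ (n + 1) * (Nm G n).comp (X ^ i))
        = (i : k[X]) ^ (n + 2) * (th (Nm G n)).comp (X ^ i) := by
      have h2 : th ((i : k[X]) ^ (n + 1)) = 0 := by
        have : ((i : k[X]) ^ (n + 1)) = C ((i : k) ^ (n + 1)) := by simp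
        rw [this, DJ_th_C]
      rw [th_mul, h2, DJ_th_comp]
      ring
    rw [Nm, ih, h1, DJ_th_comp, Nm]
    simp only [sub_comp, mul_comp, natCast_comp]
    ring

theorem DL_comp (j : ℕ) (hj : 1 ≤ j) (G : k[X]) (i : ℕ) :
    DL j (G.comp (X ^ i)) = (i : k) ^ j * DL j G := by
  obtain ⟨n, rfl⟩ : ∃ n, j = n + 1 := ⟨j - 1, by omega⟩
  rw [DL, DL, Nat.add_sub_cancel, DJ_Nm_comp]
  simp only [eval_mul, eval_pow, eval_comp, eval_X, one_pow, eval_natCast]
  ring

private theorem DJ_Nm_X (n : ℕ) : Nm (X : k[X]) (n + 1) = 0 := by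
  induction n with
  | zero => simp [Nm, th]
  | succ n ih =>
    rw [Nm, ih]
    simp [th]

theorem DL_X (j : ℕ) (hj : 2 ≤ j) : DL j (X : k[X]) = 0 := by
  obtain ⟨n, rfl⟩ : ∃ n, j = n + 2 := ⟨j - 2, by omega⟩
  rw [DL, show n + 2 - 1 = n + 1 by omega, DJ_Nm_X]
  simp

private theorem DJ_th_dvd (f : k[X]) (m : ℕ) (h : (X - 1) ^ m ∣ f) : (X - 1) ^ (m - 1) ∣ th f := by
  rcases m with _ | m
  · simp
  · obtain ⟨g, rfl⟩ := h
    refine ⟨X * (((m + 1 : ℕ) : k[X]) * g + (X - 1) * derivative g), ?_⟩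
    have h1 : derivative ((X - 1 : k[X]) ^ (m + 1)) = ((m + 1 : ℕ) : k[X]) * (X - 1) ^ m := by
      rw [derivative_pow]
      simp
    rw [th, derivative_mul, h1]
    simp only [Nat.add_sub_cancel]
    ring

private theorem DJ_Nm_congr (G H : k[X]) (m : ℕ) (h : (X - 1) ^ m ∣ G - H) (n : ℕ) :
    (X - 1) ^ (m - (n + 1)) ∣ Nm G n - Nm H n := by
  induction n with
  | zero =>
    rw [Nm, Nm, ← DJ_th_sub]
    exact DJ_th_dvd _ _ h
  | succ n ih =>
    have h1 : (X - 1) ^ (m - (n + 1 + 1)) ∣ th (Nm G n) - th (Nm H n) := by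
      rw [← DJ_th_sub, ← Nat.sub_sub m (n + 1) 1]
      exact DJ_th_dvd _ _ ih
    have h2 : (X - 1) ^ (m - (n + 1 + 1)) ∣ th G - th H := by
      rw [← DJ_th_sub]
      exact dvd_trans (pow_dvd_pow _ (by omega)) (DJ_th_dvd _ _ h)
    have h3 : (X - 1) ^ (m - (n + 1 + 1)) ∣ G - H := dvd_trans (pow_dvd_pow _ (by omega)) h
    have h4 : (X - 1) ^ (m - (n + 1 + 1)) ∣ Nm G n - Nm H n :=
      dvd_trans (pow_dvd_pow _ (by omega)) ih
    have h5 : Nm G (n + 1) - Nm H (n + 1)
        = (G - H) * th (Nm G n) + H * (th (Nm G n) - th (Nm H n))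
          - (((n + 1 : ℕ) : k[X]) * (Nm G n - Nm H n) * th G
            + ((n + 1 : ℕ) : k[X]) * Nm H n * (th G - th H)) := by
      rw [Nm, Nm]
      ring
    rw [h5]
    refine dvd_sub (dvd_add (h3.mul_right _) (h1.mul_left _)) (dvd_add ?_ (h2.mul_left _))
    exact Dvd.dvd.mul_right (h4.mul_left _) _

theorem DL_congr (j : ℕ) (hj : 1 ≤ j) (G H : k[X]) (h : (X - 1) ^ (j + 1) ∣ G - H) :
    DL j G = DL j H := by
  obtain ⟨n, rfl⟩ : ∃ n, j = n + 1 := ⟨j - 1, by omega⟩
  have h1 := DJ_Nm_congr G H (n + 1 + 1) h n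
  rw [Nat.add_sub_cancel_left, pow_one] at h1
  have h2 : (Nm G n).eval 1 = (Nm H n).eval 1 := by
    obtain ⟨g, hg⟩ := h1
    have h3 := congrArg (eval 1) hg
    rw [eval_sub, eval_mul] at h3
    simp only [eval_sub, eval_X, eval_one, sub_self, zero_mul] at h3
    exact sub_eq_zero.mp h3
  have h4 : G.eval 1 = H.eval 1 := by
    obtain ⟨g, hg⟩ := h
    have h3 := congrArg (eval 1) hg
    rw [eval_sub, eval_mul, eval_pow] at h3
    simp only [eval_sub, eval_X, eval_one, sub_self, zero_mul, ne_eq, Nat.add_eq_zero_iff,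
      one_ne_zero, and_false, not_false_eq_true, zero_pow] at h3
    exact sub_eq_zero.mp h3
  rw [DL, DL, Nat.add_sub_cancel, h2, h4]

end H45KC

end

section

/-!
# FD, Step 2: a good prime

For a finite set `F` of nonzero algebraic numbers there is a prime `l > B` and an embedding of
`AlgebraicClosure ℚ` in `PadicAlgCl l` such that all the elements of `F` have norm one.
-/

open Finset

namespace H59FD

/-- integral elements have norm `≤ 1` -/
lemma norm_le_one_of_integral {l : ℕ} [Fact l.Prime] {x : PadicAlgCl l} (h : IsIntegral ℤ x) :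
    ‖x‖ ≤ 1 := by
  have h1 : IsIntegral (Valued.v : Valuation (PadicAlgCl l) NNReal).integer x := h.tower_top
  have h2 := (Valuation.integer.integers (Valued.v : Valuation (PadicAlgCl l) NNReal)).mem_of_integral h1
  rw [Valuation.mem_integer_iff, PadicAlgCl.valuation_def] at h2
  exact_mod_cast h2

/-- the good prime -/
theorem exists_good (B : ℕ) (F : Finset (AlgebraicClosure ℚ)) (hF : 0 ∉ F) :
    ∃ (l : ℕ) (_ : Fact l.Prime), B < l ∧ ∃ σ : AlgebraicClosure ℚ →+* PadicAlgCl l,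
      ∀ x ∈ F, ‖σ x‖ = 1 := by
  classical
  have : Algebra.IsAlgebraic ℚ (AlgebraicClosure ℚ) := AlgebraicClosure.isAlgebraic ℚ
  have halg : ∀ x : AlgebraicClosure ℚ, ∃ a : ℤ, a ≠ 0 ∧ IsIntegral ℤ (a • x) := by
    intro x
    have h1 : IsAlgebraic ℚ x := Algebra.IsAlgebraic.isAlgebraic x
    have h2 : IsAlgebraic ℤ x := (IsFractionRing.isAlgebraic_iff ℤ ℚ (AlgebraicClosure ℚ)).mpr h1
    exact h2.exists_integral_multiple
  choose a ha0 ha using halg
  obtain ⟨l, hl, hlp⟩ := Nat.exists_infinite_primes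
    (max (B + 1) (∏ x ∈ F, ((a x).natAbs * (a x⁻¹).natAbs) + 1))
  have : Fact l.Prime := ⟨hlp⟩
  have hlB : B < l := lt_of_lt_of_le (Nat.lt_succ_self B) ((le_max_left _ _).trans hl)
  have hlP : ∏ x ∈ F, ((a x).natAbs * (a x⁻¹).natAbs) < l :=
    lt_of_lt_of_le (Nat.lt_succ_self _) ((le_max_right _ _).trans hl)
  have hnorm : ∀ b : ℤ, b ≠ 0 → b.natAbs < l → ‖(b : PadicAlgCl l)‖ = 1 := by
    intro b hb hbl
    rw [← map_intCast (algebraMap ℚ_[l] (PadicAlgCl l)), PadicAlgCl.norm_extends]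
    have h1 : ¬ (‖(b : ℚ_[l])‖ < 1) := by
      rw [Padic.norm_intCast_lt_one_iff]
      intro h2
      have h3 : l ∣ b.natAbs := Int.natCast_dvd.mp h2
      exact absurd (Nat.le_of_dvd (Int.natAbs_pos.mpr hb) h3) (by omega)
    exact le_antisymm (Padic.norm_int_le_one b) (not_lt.mp h1)
  let σ : AlgebraicClosure ℚ →+* PadicAlgCl l := (IsAlgClosed.lift (M := PadicAlgCl l) (R := ℚ)
    (S := AlgebraicClosure ℚ)).toRingHom
  refine ⟨l, inferInstance, hlB, σ, fun x hx => ?_⟩
  have hx0 : x ≠ 0 := fun h => hF (h ▸ hx)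
  have hpos : 0 < ∏ x ∈ F, ((a x).natAbs * (a x⁻¹).natAbs) := Finset.prod_pos fun y _ =>
    Nat.mul_pos (Int.natAbs_pos.mpr (ha0 y)) (Int.natAbs_pos.mpr (ha0 _))
  have hdvd : (a x).natAbs * (a x⁻¹).natAbs ∣ ∏ x ∈ F, ((a x).natAbs * (a x⁻¹).natAbs) :=
    Finset.dvd_prod_of_mem _ hx
  have hle : ∀ y : AlgebraicClosure ℚ, (a y).natAbs < l → ‖σ y‖ ≤ 1 := by
    intro y hy
    have h1 : IsIntegral ℤ (σ (a y • y)) := map_isIntegral_int σ (ha y)
    have h2 := norm_le_one_of_integral h1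
    rw [zsmul_eq_mul, map_mul, map_intCast, norm_mul, hnorm _ (ha0 y) hy, one_mul] at h2
    exact h2
  have h1 : ‖σ x‖ ≤ 1 := hle x (by
    refine lt_of_le_of_lt (Nat.le_of_dvd hpos (dvd_trans (dvd_mul_right _ _) hdvd)) hlP)
  have h2 : ‖σ x⁻¹‖ ≤ 1 := hle x⁻¹ (by
    refine lt_of_le_of_lt (Nat.le_of_dvd hpos (dvd_trans (dvd_mul_left _ _) hdvd)) hlP)
  have h3 : ‖σ x‖ * ‖σ x⁻¹‖ = 1 := by
    rw [← norm_mul, ← map_mul, mul_inv_cancel₀ hx0, map_one, norm_one]
  refine le_antisymm h1 ?_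
  calc (1 : ℝ) = ‖σ x‖ * ‖σ x⁻¹‖ := h3.symm
    _ ≤ ‖σ x‖ * 1 := by gcongr
    _ = ‖σ x‖ := mul_one _

end H59FD

end

section

/-!
# Project AB, module Move

Moving lemma: an ideal `I ≠ ⊥` of a Dedekind domain and `n ≠ 0`; there is `β ∈ I` with
`(β) = I C`, `C` prime to `n`.
-/

namespace H66AB

theorem exists_moving {R : Type*} [CommRing R] [IsDedekindDomain R] (I : Ideal R) (hI : I ≠ ⊥)
    (n : R) (hn : n ≠ 0) :
    ∃ β ∈ I, ∃ C : Ideal R, Ideal.span {β} = I * C ∧ Ideal.span {n} ⊔ C = ⊤ := by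
  have hn' : Ideal.span {n} ≠ ⊥ := by rwa [Ne, Ideal.span_singleton_eq_bot]
  have h1 : I * Ideal.span {n} ≤ I := Ideal.mul_le_left
  have h2 : I * Ideal.span {n} ≠ 0 := mul_ne_zero hI hn'
  obtain ⟨β, hβ⟩ := IsDedekindDomain.exists_sup_span_eq h1 h2
  have h3 : Ideal.span {β} ≤ I := by
    rw [← hβ]
    exact le_sup_right
  obtain ⟨C, hC⟩ := Ideal.dvd_iff_le.2 h3
  refine ⟨β, h3 (Ideal.mem_span_singleton_self β), C, hC, ?_⟩
  rw [hC, ← Ideal.mul_sup] at hβ
  have h4 : I * (Ideal.span {n} ⊔ C) = I * ⊤ := by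
    rw [hβ, Ideal.mul_top]
  exact mul_left_cancel₀ hI h4

end H66AB

end

section

/-!
# Project AB, module MixVal: the logarithmic derivatives of the element of `Mix`

In `k[X]`, `k` of characteristic `p`: let `A F(X^(f(p-1))) ≡ c F(X^f)` modulo `(X-1)^(p-1)`, where
`F = (X-1)^μ H`, `H(1) ≠ 0`, `c ≠ 0`.  Then `DL j A = 2 f^j DL j H` for odd `j`, `3 ≤ j < p - 1 - μ`.

PROOF.  `X^f (X^(f(p-1)) - 1) ≡ - (X^f - 1)` modulo `(X-1)^p`; so
`(X^f - 1)^μ ((-1)^μ A H(X^(f(p-1))) - c X^(fμ) H(X^f)) ≡ 0` modulo `(X-1)^(p-1)`, and `X^f - 1` is `X - 1`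
times a polynomial prime to `X - 1`.
-/

open Polynomial

namespace H77AB

open H45KC

section
variable {k : Type*} [Field k]

private theorem MixVal_X1 : (X - 1 : k[X]) ≠ 0 := by
  have := X_sub_C_ne_zero (1 : k)
  rwa [C_1] at this

/-- cancellation of `(X^f - 1)^μ` -/
private theorem MixVal_cancel {p : ℕ} [Fact p.Prime] [CharP k p] {f : ℕ} (hf : ¬ p ∣ f) (μ N : ℕ)
    (W : k[X]) (h : (X - 1) ^ N ∣ (X ^ f - 1) ^ μ * W) : (X - 1) ^ (N - μ) ∣ W := by
  set S : k[X] := ∑ i ∈ Finset.range f, X ^ i with hS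
  have hXf : (X ^ f - 1 : k[X]) = (X - 1) * S := by
    have := geom_sum_mul (X : k[X]) f
    rw [← this, hS, mul_comm]
  have hS1 : S.eval 1 ≠ 0 := by
    rw [hS, eval_finsetSum]
    simp only [eval_pow, eval_X, one_pow, Finset.sum_const, Finset.card_range, nsmul_eq_mul, mul_one]
    intro h0
    exact hf ((CharP.cast_eq_zero_iff k p f).1 h0)
  have hcop : IsCoprime (X - 1 : k[X]) S := by
    have h1 : (X - 1 : k[X]) = X - C 1 := by rw [C_1]
    rw [h1]
    refine (irreducible_X_sub_C (1 : k)).coprime_iff_not_dvd.2 ?_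
    rw [dvd_iff_isRoot]
    exact hS1
  rw [hXf, mul_pow, mul_assoc] at h
  rcases Nat.lt_or_ge N μ with h1 | h1
  · rw [Nat.sub_eq_zero_of_le h1.le, pow_zero]
    exact one_dvd _
  · have h2 : (X - 1 : k[X]) ^ N = (X - 1) ^ μ * (X - 1) ^ (N - μ) := by
      rw [← pow_add, Nat.add_sub_cancel' h1]
    rw [h2] at h
    have h3 := (mul_dvd_mul_iff_left (pow_ne_zero μ (MixVal_X1 (k := k)))).1 h
    exact (hcop.pow (m := N - μ) (n := μ)).dvd_of_dvd_mul_left h3

theorem mix_val {p : ℕ} [Fact p.Prime] [CharP k p] (hp2 : p ≠ 2) {f : ℕ} (hf : ¬ p ∣ f) (A H : k[X])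
    (μ : ℕ) (e : k) (he : e ≠ 0) (hA : A.eval 1 ≠ 0) (hH : H.eval 1 ≠ 0)
    (h : (X - 1) ^ (p - 1) ∣ A * ((X - 1) ^ μ * H).comp (X ^ (f * (p - 1)))
      - C e * ((X - 1) ^ μ * H).comp (X ^ f))
    (j : ℕ) (hj : Odd j) (hj3 : 3 ≤ j) (hjμ : j + μ + 2 ≤ p) :
    DL j A = 2 * (f : k) ^ j * DL j H := by
  have hpp : p.Prime := Fact.out
  have hp1 : 1 ≤ p := hpp.one_le
  set Y : k[X] := X ^ (f * (p - 1)) with hY
  -- `X^f (Y - 1) ≡ -(X^f - 1)`
  have hY1 : (X - 1 : k[X]) ^ (p - 1) ∣ X ^ f * (Y - 1) + (X ^ f - 1) := by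
    have h1 : X ^ f * (Y - 1) + (X ^ f - 1) = (X ^ f - 1 : k[X]) ^ p := by
      rw [sub_pow_char, one_pow, hY, mul_sub, ← pow_add, ← pow_mul, mul_one]
      have h2 : f + f * (p - 1) = f * p := by
        obtain ⟨q, rfl⟩ : ∃ q, p = q + 1 := ⟨p - 1, by omega⟩
        rw [Nat.add_sub_cancel]
        ring
      rw [h2]
      ring
    rw [h1]
    refine (pow_dvd_pow _ (by omega : p - 1 ≤ p)).trans (pow_dvd_pow_of_dvd ?_ _)
    have h3 := sub_dvd_pow_sub_pow (X : k[X]) 1 f
    rwa [one_pow] at h3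
  have hpow : (X - 1 : k[X]) ^ (p - 1) ∣ (X ^ f * (Y - 1)) ^ μ - (-(X ^ f - 1)) ^ μ := by
    refine hY1.trans ?_
    have h3 := sub_dvd_pow_sub_pow (X ^ f * (Y - 1) : k[X]) (-(X ^ f - 1)) μ
    rwa [sub_neg_eq_add] at h3
  simp only [mul_comp, pow_comp, sub_comp, X_comp, one_comp] at h
  set HY : k[X] := H.comp Y with hHY
  set Hf : k[X] := H.comp (X ^ f) with hHf
  have h4 : (X - 1 : k[X]) ^ (p - 1) ∣
      (X ^ f - 1) ^ μ * ((-1) ^ μ * A * HY - C e * (X ^ f) ^ μ * Hf) := by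
    have h5 := dvd_sub (h.mul_left ((X ^ f) ^ μ)) (hpow.mul_right (A * HY))
    have h6 : (X ^ f) ^ μ * (A * ((Y - 1) ^ μ * HY) - C e * ((X ^ f - 1) ^ μ * Hf)) -
        ((X ^ f * (Y - 1)) ^ μ - (-(X ^ f - 1)) ^ μ) * (A * HY)
        = (X ^ f - 1) ^ μ * ((-1) ^ μ * A * HY - C e * (X ^ f) ^ μ * Hf) := by
      rw [neg_pow (X ^ f - 1 : k[X]) μ, mul_pow]
      ring
    rwa [h6] at h5
  have h7 := MixVal_cancel hf μ (p - 1) _ h4
  have h8 : (X - 1 : k[X]) ^ (j + 1) ∣ (-1) ^ μ * A * HY - C e * (X ^ f) ^ μ * Hf :=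
    (pow_dvd_pow _ (by omega)).trans h7
  have h9 := DL_congr j (by omega) _ _ h8
  have hj1 : 1 ≤ j := by omega
  have hHYe : HY.eval 1 ≠ 0 := by
    rw [hHY, hY, eval_comp, eval_pow, eval_X, one_pow]
    exact hH
  have hHfe : Hf.eval 1 ≠ 0 := by
    rw [hHf, eval_comp, eval_pow, eval_X, one_pow]
    exact hH
  have hm1 : ((-1 : k[X]) ^ μ) = C ((-1) ^ μ) := by
    rw [C_pow, C_neg, C_1]
  have hm10 : ((-1 : k) ^ μ) ≠ 0 := pow_ne_zero _ (neg_ne_zero.2 one_ne_zero)
  have hcm : ((f * (p - 1) : ℕ) : k) = - (f : k) := by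
    rw [Nat.cast_mul, Nat.cast_sub hp1, CharP.cast_eq_zero k p, Nat.cast_one]
    ring
  rw [hm1, DL_mul j hj1 _ _ (by rw [eval_mul, eval_C]; exact mul_ne_zero hm10 hA) hHYe,
    DL_mul j hj1 _ _ (by rw [eval_C]; exact hm10) hA, DL_C j hj1,
    DL_mul j hj1 _ _ (by
      rw [eval_mul, eval_C, eval_pow, eval_pow, eval_X, one_pow, one_pow, mul_one]
      exact he) hHfe,
    DL_mul j hj1 _ _ (by rw [eval_C]; exact he) (by
      rw [eval_pow, eval_pow, eval_X, one_pow, one_pow]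
      exact one_ne_zero), DL_C j hj1, ← pow_mul, DL_pow j hj1 _ (by
        rw [eval_X]
        exact one_ne_zero), DL_X j (by omega), hHY, hY, hHf, DL_comp j hj1, DL_comp j hj1, hcm,
    hj.neg_pow] at h9
  linear_combination h9

/-- the logarithmic derivative of order `j ≥ 2` of a product of linear factors: only the factors
`a + b X` with `a, b ≠ 0` contribute -/
theorem DL_lin_prod {ι : Type*} (s : Finset ι) (a b : ι → k) (h0 : ∀ i ∈ s, a i + b i ≠ 0)
    (j : ℕ) (hj : 2 ≤ j) [DecidableEq k] :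
    DL j (∏ i ∈ s, (C (a i) + X * C (b i)))
      = ∑ i ∈ s.filter (fun i => a i ≠ 0 ∧ b i ≠ 0), DL j (C (a i) + X * C (b i)) := by
  have h1 := DL_prod j (by omega) s (fun i => (C (a i) + X * C (b i) : k[X])) (fun _ => 1) (by
    intro i hi
    simpa using h0 i hi)
  simp only [pow_one, Nat.cast_one, one_mul] at h1
  rw [h1, Finset.sum_filter]
  refine Finset.sum_congr rfl fun i hi => ?_
  split_ifs with h
  · rfl
  · have h2 := h0 i hi
    by_cases ha : a i = 0
    · rw [ha, zero_add] at h2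
      rw [ha, C_0, zero_add, DL_mul j (by omega) _ _ (by simp) (by simpa using h2),
        DL_C j (by omega), DL_X j hj, add_zero]
    · have hb : b i = 0 := by
        by_contra hb
        exact h ⟨ha, hb⟩
      rw [hb, C_0, mul_zero, add_zero, DL_C j (by omega)]

end

end H77AB

end

section

/-!
# Project AB: Fourier inversion over a finite commutative group and the end of the proof

`G` is a finite commutative group (`(ℤ/f)ˣ` or a quotient of it), `c : G` (complex conjugation),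
`Ω` a field with enough roots of unity.
* `fourier`: a function `g : G → Ω` with `∑_w χ(w) g(w) = 0` for all `χ : G →* Ωˣ` is zero.
* `Twist π T c χ`: `∑_{T v = τ} χ(π v) = χ(c) ∑_{T v = τ⁻¹} χ(π v)` for all `τ`.
* `perm_of_twist` (characteristic zero): if this holds for all `χ`, there is a permutation `σ` of
  the index set with `π (σ v) = c π v`, `T (σ v) T v = 1`.
* `inv_of_twist` (any characteristic with `|G| ≠ 0`, `π = id`): `T (c w) T w = 1`.
* `six_of_two`: `T' T = 1` and `(1 - T') (1 - T) = 1` give `T² - T + 1 = 0`.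
-/

namespace H85AB

open Finset

section fourier

variable {G : Type*} [CommGroup G] [Fintype G] {Ω : Type*} [Field Ω]

/-- the sum of `χ(a)` over all characters vanishes for `a ≠ 1` -/
lemma sum_char [HasEnoughRootsOfUnity Ω (Monoid.exponent G)] [Fintype (G →* Ωˣ)] {a : G}
    (ha : a ≠ 1) : ∑ χ : G →* Ωˣ, ((χ a : Ωˣ) : Ω) = 0 := by
  obtain ⟨ψ, hψ⟩ := CommGroup.exists_apply_ne_one_of_hasEnoughRootsOfUnity G Ω ha
  have h : ∑ χ : G →* Ωˣ, ((χ a : Ωˣ) : Ω) = (ψ a : Ω) * ∑ χ : G →* Ωˣ, ((χ a : Ωˣ) : Ω) := by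
    rw [mul_sum, ← Equiv.sum_comp (Equiv.mulLeft ψ) (fun χ : G →* Ωˣ => ((χ a : Ωˣ) : Ω))]
    refine sum_congr rfl fun χ _ => ?_
    simp
  have h2 : ((ψ a : Ω) - 1) * ∑ χ : G →* Ωˣ, ((χ a : Ωˣ) : Ω) = 0 := by
    linear_combination -h
  rcases mul_eq_zero.mp h2 with h3 | h3
  · exfalso
    apply hψ
    have : ((ψ a : Ωˣ) : Ω) = 1 := by linear_combination h3
    exact Units.ext (by rw [this, Units.val_one])
  · exact h3

/-- Fourier inversion: characters separate functions. -/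
theorem fourier [HasEnoughRootsOfUnity Ω (Monoid.exponent G)] (hG : (Fintype.card G : Ω) ≠ 0)
    (g : G → Ω) (h : ∀ χ : G →* Ωˣ, ∑ w, ((χ w : Ωˣ) : Ω) * g w = 0) (v : G) : g v = 0 := by
  classical
  have : Finite (G →* Ωˣ) := by
    obtain ⟨e⟩ := CommGroup.monoidHom_mulEquiv_of_hasEnoughRootsOfUnity G Ω
    exact Finite.of_equiv G e.symm.toEquiv
  have : Fintype (G →* Ωˣ) := Fintype.ofFinite _
  have hcard : Fintype.card (G →* Ωˣ) = Fintype.card G := by
    rw [← Nat.card_eq_fintype_card, ← Nat.card_eq_fintype_card]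
    exact CommGroup.card_monoidHom_of_hasEnoughRootsOfUnity G Ω
  have h1 : ∑ χ : G →* Ωˣ, ((χ v⁻¹ : Ωˣ) : Ω) * ∑ w, ((χ w : Ωˣ) : Ω) * g w = 0 :=
    sum_eq_zero fun χ _ => by rw [h χ, mul_zero]
  have h2 : ∑ χ : G →* Ωˣ, ((χ v⁻¹ : Ωˣ) : Ω) * ∑ w, ((χ w : Ωˣ) : Ω) * g w
      = ∑ w, g w * ∑ χ : G →* Ωˣ, ((χ (v⁻¹ * w) : Ωˣ) : Ω) := by
    simp_rw [mul_sum]
    rw [sum_comm]
    refine sum_congr rfl fun w _ => sum_congr rfl fun χ _ => ?_
    rw [map_mul, Units.val_mul]
    ring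
  rw [h2, sum_eq_single v] at h1
  · rw [inv_mul_cancel] at h1
    simp only [map_one, Units.val_one, sum_const, card_univ, hcard, nsmul_eq_mul, mul_one] at h1
    rcases mul_eq_zero.mp h1 with h3 | h3
    · exact h3
    · exact absurd h3 hG
  · intro w _ hw
    rw [sum_char (fun h0 => hw ?_), mul_zero]
    exact (inv_mul_eq_one.mp h0).symm
  · intro hv
    exact absurd (mem_univ v) hv

end fourier

variable {G : Type*} [CommGroup G] [Fintype G] {Ω : Type*} [Field Ω] {α : Type*} [Fintype α]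

open Classical in
/-- the twisted symmetry for the character `χ` -/
def Twist (π : α → G) (T : α → Ω) (c : G) (χ : G →* Ωˣ) : Prop :=
  ∀ τ : Ω, ∑ v ∈ univ.filter (fun v => T v = τ), ((χ (π v) : Ωˣ) : Ω)
    = ((χ c : Ωˣ) : Ω) * ∑ v ∈ univ.filter (fun v => T v = τ⁻¹), ((χ (π v) : Ωˣ) : Ω)

open Classical in
/-- Fourier inversion of the twisted symmetries -/
theorem count_of_twist [HasEnoughRootsOfUnity Ω (Monoid.exponent G)]
    (hG : (Fintype.card G : Ω) ≠ 0) (π : α → G) (T : α → Ω) (c : G)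
    (h : ∀ χ : G →* Ωˣ, Twist π T c χ) (w : G) (τ : Ω) :
    ((univ.filter (fun v => T v = τ ∧ π v = w)).card : Ω)
      = ((univ.filter (fun v => T v = τ⁻¹ ∧ c * π v = w)).card : Ω) := by
  have key := fourier hG (fun w : G => ((univ.filter (fun v => T v = τ ∧ π v = w)).card : Ω)
    - ((univ.filter (fun v => T v = τ⁻¹ ∧ c * π v = w)).card : Ω)) ?_ w
  · exact sub_eq_zero.mp key
  intro χ
  have hχ := h χ τ
  -- fibrewise sums
  have e1 : ∑ w : G, ((χ w : Ωˣ) : Ω) * ((univ.filter (fun v => T v = τ ∧ π v = w)).card : Ω)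
      = ∑ v ∈ univ.filter (fun v => T v = τ), ((χ (π v) : Ωˣ) : Ω) := by
    rw [← sum_fiberwise (univ.filter (fun v => T v = τ)) π (fun v => ((χ (π v) : Ωˣ) : Ω))]
    refine sum_congr rfl fun w _ => ?_
    rw [filter_filter, sum_congr rfl (fun v hv => by rw [(mem_filter.mp hv).2.2]), sum_const,
      nsmul_eq_mul, mul_comm]
  have e2 : ∑ w : G, ((χ w : Ωˣ) : Ω) * ((univ.filter (fun v => T v = τ⁻¹ ∧ c * π v = w)).card : Ω)
      = ∑ v ∈ univ.filter (fun v => T v = τ⁻¹), ((χ (c * π v) : Ωˣ) : Ω) := by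
    rw [← sum_fiberwise (univ.filter (fun v => T v = τ⁻¹)) (fun v => c * π v)
      (fun v => ((χ (c * π v) : Ωˣ) : Ω))]
    refine sum_congr rfl fun w _ => ?_
    rw [filter_filter, sum_congr rfl (fun v hv => by rw [(mem_filter.mp hv).2.2]), sum_const,
      nsmul_eq_mul, mul_comm]
  have e3 : ∑ v ∈ univ.filter (fun v => T v = τ⁻¹), ((χ (c * π v) : Ωˣ) : Ω)
      = ((χ c : Ωˣ) : Ω) * ∑ v ∈ univ.filter (fun v => T v = τ⁻¹), ((χ (π v) : Ωˣ) : Ω) := by
    rw [mul_sum]
    refine sum_congr rfl fun v _ => ?_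
    rw [map_mul, Units.val_mul]
  simp_rw [mul_sub]
  rw [sum_sub_distrib, e1, e2, e3, hχ, sub_self]

/-- the end: `T' T = 1` and `(1 - T') (1 - T) = 1` -/
theorem six_of_two {x y : Ω} (h1 : y * x = 1) (h2 : (1 - y) * (1 - x) = 1) :
    x ^ 2 - x + 1 = 0 := by
  have hs : x + y = 1 := by linear_combination h1 - h2
  have hy : y = 1 - x := by linear_combination hs
  rw [hy] at h1
  linear_combination -h1

end H85AB

end

section

/-!
# Project AB, D1: characters of a finite commutative group with values in `Ω` come from characters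
with values in the roots of unity of `ℤ[ζ_N]`; the permutation in characteristic `p`
-/

open Finset NumberField

namespace H59AB

section chars

variable {N : ℕ} [NeZero N] {E : Type*} [Field E] [NumberField E] [IsCyclotomicExtension {N} ℚ E]

/-- the homomorphism `ℤ[ζ] → Ω`, `ζ ↦ z` -/
theorem exists_hom {Ω : Type*} [Field Ω] {z : Ω} (hz : IsPrimitiveRoot z N)
    {ζ : E} (hζ : IsPrimitiveRoot ζ N) :
    ∃ φ : 𝓞 E →+* Ω, φ hζ.toInteger = z := by
  have hN : 0 < N := Nat.pos_of_ne_zero (NeZero.ne N)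
  have h0 : Polynomial.aeval z (minpoly ℤ hζ.integralPowerBasis.gen) = 0 := by
    rw [hζ.integralPowerBasis_gen]
    have h1 : minpoly ℤ hζ.toInteger = Polynomial.cyclotomic N ℤ := by
      rw [Polynomial.cyclotomic_eq_minpoly hζ hN]
      exact (minpoly.algebraMap_eq (A := ℤ) (B := 𝓞 E) (B' := E) RingOfIntegers.coe_injective
        hζ.toInteger).symm
    rw [h1, Polynomial.aeval_def, Polynomial.eval₂_eq_eval_map, Polynomial.map_cyclotomic]
    exact hz.isRoot_cyclotomic hN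
  refine ⟨(hζ.integralPowerBasis.lift z h0).toRingHom, ?_⟩
  have h2 := hζ.integralPowerBasis.lift_gen z h0
  rw [hζ.integralPowerBasis_gen] at h2
  exact h2

/-- characters with values in `Ω` lift -/
theorem exists_char {G : Type*} [CommGroup G] (hG : Monoid.exponent G = N)
    {Ω : Type*} [Field Ω] {ζ : E} (hζ : IsPrimitiveRoot ζ N) (φ : 𝓞 E →+* Ω)
    (hz : IsPrimitiveRoot (φ hζ.toInteger) N) (χ : G →* Ωˣ) :
    ∃ κ : G →* rootsOfUnity N (𝓞 E), ∀ g, ((χ g : Ωˣ) : Ω) = φ ((κ g : (𝓞 E)ˣ) : 𝓞 E) := by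
  have hζ' := hζ.toInteger_isPrimitiveRoot
  have hc1 : Nat.card (rootsOfUnity N (𝓞 E)) = N := hζ'.card_rootsOfUnity
  have hc2 : Nat.card (rootsOfUnity N Ω) = N := hz.card_rootsOfUnity
  let ρ : rootsOfUnity N (𝓞 E) →* rootsOfUnity N Ω := restrictRootsOfUnity φ N
  have hf1 : Finite (rootsOfUnity N (𝓞 E)) := Nat.finite_of_card_ne_zero (by rw [hc1]; exact NeZero.ne N)
  have hf2 : Finite (rootsOfUnity N Ω) := Nat.finite_of_card_ne_zero (by rw [hc2]; exact NeZero.ne N)
  have hsurj : Function.Surjective ρ := by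
    intro y
    have hy : ((y : Ωˣ) : Ω) ^ N = 1 := by
      have := y.2
      rw [mem_rootsOfUnity'] at this
      exact this
    obtain ⟨i, -, hi⟩ := hz.eq_pow_of_pow_eq_one hy
    refine ⟨hζ'.toRootsOfUnity ^ i, ?_⟩
    apply Subtype.ext
    apply Units.ext
    rw [← hi]
    simp [ρ]
  have hbij : Function.Bijective ρ := by
    rw [Nat.bijective_iff_surjective_and_card]
    exact ⟨hsurj, by rw [hc1, hc2]⟩
  let e : rootsOfUnity N (𝓞 E) ≃* rootsOfUnity N Ω := MulEquiv.ofBijective ρ hbij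
  have hχ : ∀ g, χ g ∈ rootsOfUnity N Ω := by
    intro g
    rw [mem_rootsOfUnity, ← map_pow, ← hG, Monoid.pow_exponent_eq_one, map_one]
  let χ' : G →* rootsOfUnity N Ω := χ.codRestrict _ hχ
  refine ⟨e.symm.toMonoidHom.comp χ', fun g => ?_⟩
  have h1 : e (e.symm (χ' g)) = χ' g := e.apply_symm_apply _
  have h2 : ((e (e.symm (χ' g)) : Ωˣ) : Ω) = φ ((e.symm (χ' g) : (𝓞 E)ˣ) : 𝓞 E) := rfl
  rw [h1] at h2
  exact h2

/-- the values are powers of `ζ` -/
theorem exists_pow {G : Type*} [CommGroup G] {ζ : E} (hζ : IsPrimitiveRoot ζ N)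
    (κ : G →* rootsOfUnity N (𝓞 E)) (g : G) :
    ∃ i : ℕ, ((κ g : (𝓞 E)ˣ) : 𝓞 E) = hζ.toInteger ^ i := by
  have hy : (((κ g : rootsOfUnity N (𝓞 E)) : (𝓞 E)ˣ) : 𝓞 E) ^ N = 1 := by
    have := (κ g).2
    rw [mem_rootsOfUnity'] at this
    exact this
  obtain ⟨i, -, hi⟩ := hζ.toInteger_isPrimitiveRoot.eq_pow_of_pow_eq_one hy
  exact ⟨i, hi.symm⟩

end chars

open H85AB in
/-- characteristic `p > |α|`: the permutation -/
theorem perm_of_twist_p {G : Type*} [CommGroup G] [Fintype G] {Ω : Type*} [Field Ω] {α : Type*}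
    [Fintype α] {p : ℕ} [CharP Ω p] (hp : Fintype.card α < p)
    [HasEnoughRootsOfUnity Ω (Monoid.exponent G)] (hG : (Fintype.card G : Ω) ≠ 0) (π : α → G)
    (T : α → Ω) (c : G) (hT : ∀ v, T v ≠ 0) (h : ∀ χ : G →* Ωˣ, Twist π T c χ) :
    ∃ σ : Equiv.Perm α, ∀ v, π (σ v) = c * π v ∧ T (σ v) * T v = 1 := by
  classical
  have hc := count_of_twist hG π T c h
  let f : α → Ω × G := fun v => ((T v)⁻¹, c * π v)
  let g : α → Ω × G := fun v => (T v, π v)
  have hfg : ∀ x : Ω × G, Fintype.card {a // f a = x} = Fintype.card {b // g b = x} := by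
    rintro ⟨τ, w⟩
    rw [Fintype.card_subtype, Fintype.card_subtype]
    have h1 := hc w τ
    have hcard : ∀ s : Finset α, s.card ∈ Set.Iio p := fun s =>
      lt_of_le_of_lt (Finset.card_le_univ s) hp
    have h2 := CharP.natCast_injOn_Iio Ω p (hcard _) (hcard _) h1
    have e1 : (univ.filter (fun v => g v = (τ, w))) = univ.filter (fun v => T v = τ ∧ π v = w) := by
      ext v
      simp [g]
    have e2 : (univ.filter (fun v => f v = (τ, w)))
        = univ.filter (fun v => T v = τ⁻¹ ∧ c * π v = w) := by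
      ext v
      simp only [f, mem_filter, mem_univ, true_and, Prod.mk.injEq]
      rw [inv_eq_iff_eq_inv]
    rw [e1, e2, h2]
  let e : ∀ x : Ω × G, {a // f a = x} ≃ {b // g b = x} := fun x =>
    Fintype.equivOfCardEq (hfg x)
  refine ⟨Equiv.ofFiberEquiv e, fun v => ?_⟩
  have h1 := Equiv.ofFiberEquiv_map e v
  simp only [f, g, Prod.mk.injEq] at h1
  refine ⟨h1.2, ?_⟩
  rw [h1.1]
  exact inv_mul_cancel₀ (hT v)

end H59AB

end

section

/-!
# Project FC9, module Defs

Common definitions for the Fermat equation `a^p + b^p + c^p = 0` over number fields (methods of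
Eichler, Wieferich, Mirimanoff and Furtwängler).

* `nf K a b` : the polynomial `N_{K/ℚ}(a + b X) ∈ ℤ[X]` (`a, b ∈ 𝓞 K`), as the determinant of the
  multiplication matrix.
* `IsRedFam ψ` : the family of ring homomorphisms `ψ i : 𝓞 K → Ω` (`i < [K : ℚ]`) factors all the
  polynomials `nf K a b`; such a family is the reduction of the family of all embeddings of `K`.
* `mm K q x` : the sum of the local degrees `e f` of the primes of `K` above `q` which contain `x`.
* `ZZ ψ a b c` : the set of the `i` with `ψ i a, ψ i b, ψ i c ≠ 0`.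
* `ordI P I` : the exponent of the prime ideal `P` in the factorisation of the ideal `I`.
* `TS p M b` : the set of those `σ ∈ Gal(M/ℚ)`, `M = ℚ(ζ_p)`, `σ ζ = ζ ^ t`, `0 < t < p`, with
  `p < t + (b t mod p)`.
* `cj p M` : complex conjugation on `M = ℚ(ζ_p)`, as an element of `Gal(M/ℚ)`.
* `FSol K p a b c` : `a, b, c ∈ 𝓞 K` are different from `0` and `a^p + b^p + c^p = 0`.
* `CopAt K q a b c` : no prime ideal containing `q` contains all of `a, b, c`.
-/

namespace H9FC

open Polynomial NumberField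

/-- the polynomial `N_{K/ℚ}(a + b X)` -/
noncomputable def nf (K : Type*) [Field K] [NumberField K] (a b : 𝓞 K) : ℤ[X] :=
  Matrix.det ((Algebra.leftMulMatrix (RingOfIntegers.basis K) a).map (C : ℤ →+* ℤ[X])
    + (X : ℤ[X]) • (Algebra.leftMulMatrix (RingOfIntegers.basis K) b).map (C : ℤ →+* ℤ[X]))

/-- `ψ` is a reduction of the family of all embeddings of `K`: it factors all norm forms -/
def IsRedFam {K : Type*} [Field K] [NumberField K] {Ω : Type*} [Field Ω]
    (ψ : Fin (Module.finrank ℚ K) → (𝓞 K →+* Ω)) : Prop :=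
  ∀ a b : 𝓞 K, (nf K a b).map (Int.castRingHom Ω) = ∏ i, (C (ψ i a) + X * C (ψ i b))

/-- the sum of the local degrees `e f` of the primes `P ∣ q` of `K` with `x ∈ P` -/
noncomputable def mm (K : Type*) [Field K] [NumberField K] (q : ℕ) (x : 𝓞 K) : ℕ :=
  ∑ᶠ P ∈ {P : Ideal (𝓞 K) | P ∈ Ideal.primesOver (Ideal.span {(q : ℤ)}) (𝓞 K) ∧ x ∈ P},
    P.ramificationIdx ℤ * P.inertiaDeg ℤ

/-- exponent of the prime ideal `P` in the factorisation of the ideal `I` (`0` if `I = ⊥`) -/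
noncomputable def ordI {R : Type*} [CommRing R] [IsDedekindDomain R] (P I : Ideal R) : ℕ := by
  classical exact Multiset.count P (UniqueFactorizationMonoid.normalizedFactors I)

/-- nontrivial solutions of the Fermat equation of exponent `p` in algebraic integers of `K` -/
def FSol (K : Type*) [Field K] [NumberField K] (p : ℕ) (a b c : 𝓞 K) : Prop :=
  a ≠ 0 ∧ b ≠ 0 ∧ c ≠ 0 ∧ a ^ p + b ^ p + c ^ p = 0

/-- `a, b, c` have no common prime factor above `q` -/
def CopAt (K : Type*) [Field K] [NumberField K] (q : ℕ) (a b c : 𝓞 K) : Prop :=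
  ∀ P : Ideal (𝓞 K), P.IsPrime → (q : 𝓞 K) ∈ P → ¬ (a ∈ P ∧ b ∈ P ∧ c ∈ P)

end H9FC

end

section

/-!
# Project FC9, module JMod

Jacobi sums of powers of the Teichmüller character modulo the prime `L`, and binomial coefficients.

PROOF of `jac_mod`. Let `Q = |k|`.  Modulo `L`, `ω⁻¹ x ^ a ≡ ι(x)^(-a) = ι(x)^(Q-1-a)` for `x ≠ 0`, and
both sides are `0` for `x = 0` because `0 < a < Q - 1`.  So the Jacobi sum is congruent to
`∑_x ι(x)^(Q-1-a) ι(1-x)^(Q-1-b) = ι (∑_j (-1)^j C(Q-1-b, j) ∑_x x^(Q-1-a+j))`, `0 ≤ j ≤ Q-1-b`. By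
`FiniteField.sum_pow_lt_card_sub_one`, `FiniteField.sum_pow_units` the inner sum is `0` unless `Q-1`
divides `Q-1-a+j`; as `0 < Q-1-a+j < 2 (Q-1)` this happens only for `j = a` (if `a ≤ Q-1-b`; else
`C(Q-1-b,a) = 0`), and then it is `-1`.
PROOF of `choose_not_dvd` (Lucas, Mathlib `Choose.choose_modEq_prod_range_choose` or
`Choose.choose_modEq_choose_mod_mul_choose_div`): the base `l` digits of `l^f - 1 - l^i` are all
`l - 1`, except for the `i`-th, which is `l - 2`; so
`C(l^f-1-l^i, a) ≡ ∏_{j ≠ i} C(l-1, a_j) C(l-2, a_i)`, and no factor is divisible by `l` since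
`a_j ≤ l - 1`, `a_i ≤ l - 2`.  (Induction on `f` peeling off the lowest digit.)
-/

namespace H9FC

private theorem JMod_sum_pow {k : Type*} [Field k] [Fintype k] (i : ℕ) (hi : 0 < i) :
    ∑ x : k, x ^ i = if Fintype.card k - 1 ∣ i then -1 else 0 := by
  classical
  let φ : kˣ ↪ k := ⟨fun x ↦ x, Units.val_injective⟩
  have h1 : Finset.univ.map φ = Finset.univ \ {0} := by
    ext x
    simp only [Finset.mem_map, Finset.mem_univ, true_and, Finset.mem_sdiff,
      Finset.mem_singleton]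
    constructor
    · rintro ⟨u, rfl⟩
      exact u.ne_zero
    · intro hx
      exact ⟨Units.mk0 x hx, rfl⟩
  calc
    ∑ x : k, x ^ i = ∑ x ∈ Finset.univ \ {(0 : k)}, x ^ i := by
      rw [← Finset.sum_sdiff ({0} : Finset k).subset_univ, Finset.sum_singleton,
        zero_pow hi.ne', add_zero]
    _ = ∑ x : kˣ, (x ^ i : k) := by rw [← h1, Finset.sum_map]; rfl
    _ = _ := FiniteField.sum_pow_units k i

private theorem JMod_inv_pow {k : Type*} [Field k] [Fintype k] {a : ℕ} (ha : 0 < a)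
    (ha' : a < Fintype.card k - 1) (x : k) :
    (x⁻¹) ^ a = x ^ (Fintype.card k - 1 - a) := by
  by_cases hx : x = 0
  · rw [hx, inv_zero, zero_pow ha.ne', zero_pow (by omega)]
  · rw [inv_pow]
    refine inv_eq_of_mul_eq_one_right ?_
    rw [← pow_add, show a + (Fintype.card k - 1 - a) = Fintype.card k - 1 by omega]
    exact FiniteField.pow_card_sub_one_eq_one x hx

private theorem JMod_char {R : Type*} [CommRing R] {k : Type*} [Field k] [Fintype k]
    (L : Ideal R) (ι : k →+* (R ⧸ L)) (ω : MulChar k R)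
    (hω : ∀ x : k, Ideal.Quotient.mk L (ω x) = ι x) {a : ℕ} (ha : 0 < a)
    (ha' : a < Fintype.card k - 1) (x : k) :
    Ideal.Quotient.mk L ((ω⁻¹ ^ a) x) = ι (x ^ (Fintype.card k - 1 - a)) := by
  rw [MulChar.pow_apply' _ ha.ne', MulChar.inv_apply', map_pow, hω, ← map_pow, JMod_inv_pow ha ha']

private theorem JMod_sum {k : Type*} [Field k] [Fintype k] {a b : ℕ} (ha : 0 < a) (hb : 0 < b)
    (ha' : a < Fintype.card k - 1) (hb' : b < Fintype.card k - 1) :
    ∑ x : k, x ^ (Fintype.card k - 1 - a) * (1 - x) ^ (Fintype.card k - 1 - b) =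
      -((-1) ^ a * ((Nat.choose (Fintype.card k - 1 - b) a : ℕ) : k)) := by
  classical
  set Q := Fintype.card k with hQ
  set n := Q - 1 - b with hn
  have h1 : ∀ x : k, x ^ (Q - 1 - a) * (1 - x) ^ n =
      ∑ j ∈ Finset.range (n + 1), ((-1) ^ j * (Nat.choose n j : k)) * x ^ (Q - 1 - a + j) := by
    intro x
    have h2 : (1 - x) ^ n = ((-x) + 1) ^ n := by ring
    rw [h2, add_pow, Finset.mul_sum]
    refine Finset.sum_congr rfl fun j _ => ?_
    rw [one_pow, mul_one, neg_pow, pow_add]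
    ring
  rw [Finset.sum_congr rfl fun x _ => h1 x, Finset.sum_comm]
  have h3 : ∀ j ∈ Finset.range (n + 1),
      ∑ x : k, ((-1) ^ j * (Nat.choose n j : k)) * x ^ (Q - 1 - a + j) =
        if j = a then -((-1) ^ a * (Nat.choose n a : k)) else 0 := by
    intro j hj
    rw [Finset.mem_range] at hj
    rw [← Finset.mul_sum, JMod_sum_pow _ (by omega), ← hQ]
    by_cases hja : j = a
    · rw [if_pos hja, hja, if_pos (by rw [show Q - 1 - a + a = Q - 1 by omega])]
      ring
    · rw [if_neg hja, if_neg, mul_zero]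
      rintro ⟨c, hc⟩
      have hc1 : c = 1 := by
        have h5 : 0 < c := by
          rcases Nat.eq_zero_or_pos c with h | h
          · rw [h, mul_zero] at hc
            omega
          · exact h
        have h6 : c < 2 := by
          by_contra h7
          push Not at h7
          have h8 : (Q - 1) * 2 ≤ (Q - 1) * c := Nat.mul_le_mul_left _ h7
          omega
        omega
      rw [hc1, mul_one] at hc
      omega
  rw [Finset.sum_congr rfl h3, Finset.sum_ite_eq']
  split_ifs with h4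
  · rfl
  · rw [Finset.mem_range] at h4
    rw [Nat.choose_eq_zero_of_lt (by omega)]
    simp

theorem jac_mod {R : Type*} [CommRing R] [IsDomain R] {k : Type*} [Field k] [Fintype k]
    (L : Ideal R) (hL : L.IsPrime) (ι : k →+* (R ⧸ L)) (ω : MulChar k R)
    (hω : ∀ x : k, Ideal.Quotient.mk L (ω x) = ι x) (a b : ℕ) (ha : 0 < a) (hb : 0 < b)
    (ha' : a < Fintype.card k - 1) (hb' : b < Fintype.card k - 1) :
    Ideal.Quotient.mk L (jacobiSum (ω⁻¹ ^ a) (ω⁻¹ ^ b))
      = -((-1) ^ a * ((Nat.choose (Fintype.card k - 1 - b) a : ℕ) : R ⧸ L)) := by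
  rw [jacobiSum, map_sum]
  have h1 : ∀ x : k, Ideal.Quotient.mk L ((ω⁻¹ ^ a) x * (ω⁻¹ ^ b) (1 - x)) =
      ι (x ^ (Fintype.card k - 1 - a) * (1 - x) ^ (Fintype.card k - 1 - b)) := by
    intro x
    rw [map_mul, JMod_char L ι ω hω ha ha', JMod_char L ι ω hω hb hb', map_mul]
  rw [Finset.sum_congr rfl fun x _ => h1 x, ← map_sum, JMod_sum ha hb ha' hb', map_neg, map_mul,
    map_pow, map_neg, map_one, map_natCast]

private theorem JMod_small {l m k : ℕ} (hl : l.Prime) (hm : m < l) (hk : k ≤ m) :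
    ¬ l ∣ Nat.choose m k := by
  intro h
  have h1 := Nat.choose_mul_factorial_mul_factorial hk
  have h2 : l ∣ m.factorial := by
    rw [← h1, mul_assoc]
    exact h.mul_right _
  rw [hl.dvd_factorial] at h2
  omega

private theorem JMod_step {l : ℕ} [Fact l.Prime] {n k m c : ℕ} (hc : c < l) (hn : n = l * m + c)
    (hk : k % l ≤ c) (h : ¬ l ∣ Nat.choose m (k / l)) : ¬ l ∣ Nat.choose n k := by
  have hl : l.Prime := Fact.out
  have h1 := Choose.choose_modEq_choose_mod_mul_choose_div_nat (n := n) (k := k) (p := l)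
  have h2 : n % l = c := by rw [hn, Nat.mul_add_mod, Nat.mod_eq_of_lt hc]
  have h3 : n / l = m := by
    rw [hn, Nat.mul_add_div hl.pos, Nat.div_eq_of_lt hc, add_zero]
  rw [h2, h3] at h1
  intro h4
  have h5 := (Nat.modEq_zero_iff_dvd.1 (h1.symm.trans (Nat.modEq_zero_iff_dvd.2 h4)))
  rcases hl.dvd_mul.1 h5 with h6 | h6
  · exact JMod_small hl hc hk h6
  · exact h h6

private theorem JMod_full (l : ℕ) [Fact l.Prime] (f a : ℕ) (ha : a < l ^ f) :
    ¬ l ∣ Nat.choose (l ^ f - 1) a := by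
  have hl : l.Prime := Fact.out
  have hl2 := hl.two_le
  induction f generalizing a with
  | zero =>
    have : a = 0 := by simpa using ha
    rw [this]
    simp only [pow_zero, Nat.sub_self, Nat.choose_self, Nat.dvd_one]
    exact hl.one_lt.ne'
  | succ f ih =>
    have hpos : 0 < l ^ f := pow_pos hl.pos f
    have h1 : l ^ (f + 1) = l * l ^ f := by rw [pow_succ, mul_comm]
    refine JMod_step (m := l ^ f - 1) (c := l - 1) (by omega) ?_ ?_
      (ih (a / l) ((Nat.div_lt_iff_lt_mul hl.pos).2 (by rw [mul_comm, ← h1]; exact ha)))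
    · rw [h1, Nat.mul_sub, mul_one]
      have : l ≤ l * l ^ f := Nat.le_mul_of_pos_right _ hpos
      omega
    · have := Nat.mod_lt a hl.pos
      omega

theorem choose_not_dvd (l : ℕ) [Fact l.Prime] (f i a : ℕ) (hi : i < f) (ha : a < l ^ f)
    (hdig : (a / l ^ i) % l + 1 < l) : ¬ l ∣ Nat.choose (l ^ f - 1 - l ^ i) a := by
  have hl : l.Prime := Fact.out
  have hl2 := hl.two_le
  induction f generalizing i a with
  | zero => omega
  | succ f ih =>
    have hpos : 0 < l ^ f := pow_pos hl.pos f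
    have h1 : l ^ (f + 1) = l * l ^ f := by rw [pow_succ, mul_comm]
    have hle : l ≤ l * l ^ f := Nat.le_mul_of_pos_right _ hpos
    have hal : a / l < l ^ f :=
      (Nat.div_lt_iff_lt_mul hl.pos).2 (by rw [mul_comm, ← h1]; exact ha)
    rcases i with _ | i
    · rw [pow_zero, Nat.div_one] at hdig
      refine JMod_step (m := l ^ f - 1) (c := l - 2) (by omega) ?_ (by omega)
        (JMod_full l f (a / l) hal)
      rw [h1, Nat.mul_sub, mul_one, pow_zero]
      omega
    · have hi' : i < f := by omega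
      have hpi : l ^ (i + 1) = l * l ^ i := by rw [pow_succ, mul_comm]
      have hii : l ^ i + 1 ≤ l ^ f := by
        have : l ^ i < l ^ f := Nat.pow_lt_pow_right hl.one_lt hi'
        omega
      refine JMod_step (m := l ^ f - 1 - l ^ i) (c := l - 1) (by omega) ?_ ?_
        (ih i (a / l) hi' hal ?_)
      · rw [h1, hpi, Nat.mul_sub, Nat.mul_sub, mul_one]
        have h2 : l * (l ^ i + 1) ≤ l * l ^ f := Nat.mul_le_mul_left l hii
        rw [mul_add, mul_one] at h2
        omega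
      · have := Nat.mod_lt a hl.pos
        omega
      · rw [Nat.div_div_eq_div_mul, ← hpi]
        exact hdig

end H9FC

end

section

/-!
# Project FC9, module NfEmb

Factorisation of the norm form `nf K a b = N_{K/ℚ}(a + bX)` over a field `E` of characteristic `0`
which contains all conjugates of `K`, and elementary consequences.

PROOF. Let `E` be a field of characteristic zero with exactly `d = [K:ℚ]` homomorphisms `σ : K → E`.
For an integer `t` the matrix `M_a + t M_b` is the matrix of multiplication by `a + t b` in the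
basis `RingOfIntegers.basis K` (and in the basis `integralBasis K` of `K` over `ℚ`), hence
`(nf K a b)(t) = N_{K/ℚ}(a + t b)`.  In an algebraic closure `Ē` of `E` this norm is the product of
`σ(a) + t σ(b)` over all `σ : K → Ē` (Mathlib: `Algebra.norm_eq_prod_embeddings`), and these `σ`
are exactly the compositions of the `d` homomorphisms `K → E` with `E ⊆ Ē` (an injective map
between finite sets with `d` elements; `AlgHom.card`).  So both sides of `nf_map_prod` agree at all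
integers `t`, so they are equal (`E` is infinite).  The remaining statements are immediate:
evaluate, compare degrees, coefficients; for `nf_swap` and `nf_homog` use the product formula over
`ℂ` (or `AlgebraicClosure ℚ`): `x ^ d * F (y / x) = ∏ (σ(a) x + σ(b) y)`, or argue with the
determinant directly.  The derivative at `1` is `∑_σ σ(b) ∏_{τ ≠ σ} (τ(a) + τ(b))`, the coefficient
of `X` in `nf K 1 x` is `∑_σ σ(x) = Tr(x)`.
-/

namespace H9FC

open Polynomial NumberField

private theorem NfEmb_form (K : Type*) [Field K] [NumberField K] (a b : 𝓞 K) :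
    nf K a b = Matrix.det ((X : ℤ[X]) • (Algebra.leftMulMatrix (RingOfIntegers.basis K) b).map (C : ℤ →+* ℤ[X])
      + (Algebra.leftMulMatrix (RingOfIntegers.basis K) a).map (C : ℤ →+* ℤ[X])) := by
  unfold nf
  rw [add_comm]

private theorem NfEmb_eval (K : Type*) [Field K] [NumberField K] (a b : 𝓞 K) (t : ℤ) :
    (nf K a b).eval t = Algebra.norm ℤ (a + (t : 𝓞 K) * b) := by
  unfold nf
  rw [← coe_evalRingHom, RingHom.map_det, Algebra.norm_eq_matrix_det (RingOfIntegers.basis K)]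
  congr 1
  rw [map_add (Algebra.leftMulMatrix (RingOfIntegers.basis K)), map_mul (Algebra.leftMulMatrix (RingOfIntegers.basis K))]
  have h1 : Algebra.leftMulMatrix (RingOfIntegers.basis K) (t : 𝓞 K) = (t : Matrix _ _ ℤ) := by
    rw [map_intCast]
  have h2 : (t : Matrix (Module.Free.ChooseBasisIndex ℤ (𝓞 K)) (Module.Free.ChooseBasisIndex ℤ (𝓞 K)) ℤ) *
      (Algebra.leftMulMatrix (RingOfIntegers.basis K) b) = t • Algebra.leftMulMatrix (RingOfIntegers.basis K) b :=
    (zsmul_eq_mul _ _).symm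
  rw [h1, h2]
  ext i j
  simp only [RingHom.mapMatrix_apply, Matrix.map_apply, Matrix.add_apply, Matrix.smul_apply, coe_evalRingHom,
    eval_add, eval_C, smul_eq_mul, eval_mul, eval_X]

private theorem NfEmb_norm (K : Type*) [Field K] [NumberField K] (E : Type*) [Field E] [Algebra ℚ E]
    (hE : Fintype.card (K →ₐ[ℚ] E) = Module.finrank ℚ K) (x : 𝓞 K) :
    ((Algebra.norm ℤ x : ℤ) : E) = ∏ σ : K →ₐ[ℚ] E, σ (x : K) := by
  let A := AlgebraicClosure E
  have hinj : Function.Injective (algebraMap E A) := (algebraMap E A).injective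
  apply hinj
  rw [map_prod, map_intCast]
  have h1 : ((Algebra.norm ℤ x : ℤ) : A) = algebraMap ℚ A (Algebra.norm ℚ (x : K)) := by
    rw [← Algebra.coe_norm_int, map_intCast]
  rw [h1, Algebra.norm_eq_prod_embeddings ℚ A (x : K)]
  let F : (K →ₐ[ℚ] E) → (K →ₐ[ℚ] A) := fun σ => (IsScalarTower.toAlgHom ℚ E A).comp σ
  have hF : Function.Injective F := by
    intro σ τ h
    ext y
    apply hinj
    exact DFunLike.congr_fun h y
  have hF2 : Function.Bijective F := by
    rw [Fintype.bijective_iff_injective_and_card]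
    refine ⟨hF, ?_⟩
    rw [hE, AlgHom.card ℚ K A]
  exact (Fintype.prod_bijective F hF2 _ _ fun σ => rfl).symm

/-- the norm form splits over a field containing all conjugates of `K` -/
theorem nf_map_prod (K : Type*) [Field K] [NumberField K] (E : Type*) [Field E] [Algebra ℚ E]
    (hE : Fintype.card (K →ₐ[ℚ] E) = Module.finrank ℚ K) (a b : 𝓞 K) :
    (nf K a b).map (Int.castRingHom E)
      = ∏ σ : K →ₐ[ℚ] E, (C (σ (a : K)) + X * C (σ (b : K))) := by
  have hchar : CharZero E := algebraRat.charZero E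
  apply eq_of_infinite_eval_eq
  refine Set.Infinite.mono ?_ (Set.infinite_range_of_injective (Int.cast_injective (α := E)))
  rintro _ ⟨t, rfl⟩
  show ((nf K a b).map (Int.castRingHom E)).eval (t : E) = eval (t : E) (∏ σ : K →ₐ[ℚ] E, (C (σ (a : K)) + X * C (σ (b : K))))
  have h1 : ((nf K a b).map (Int.castRingHom E)).eval (t : E) = (((nf K a b).eval t : ℤ) : E) := by
    exact eval_intCast_map (Int.castRingHom E) (nf K a b) t
  rw [h1, NfEmb_eval, NfEmb_norm K E hE, eval_prod]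
  refine Finset.prod_congr rfl fun σ _ => ?_
  have h2 : ((a + (t : 𝓞 K) * b : 𝓞 K) : K) = (a : K) + (t : K) * (b : K) := by
    push_cast
    rfl
  rw [h2, map_add, map_mul, map_intCast]
  simp only [eval_add, eval_mul, eval_C, eval_X]

theorem nf_coeff_zero (K : Type*) [Field K] [NumberField K] (a b : 𝓞 K) :
    (nf K a b).coeff 0 = Algebra.norm ℤ a := by
  rw [NfEmb_form, coeff_det_X_add_C_zero, Algebra.norm_eq_matrix_det (RingOfIntegers.basis K)]

end H9FC

end

section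

/-!
# Project FC9, module OrdA

Elementary properties of `ordI P I`, the exponent of the prime `P` in the factorisation of `I`.

PROOFS. `ordI P I = Multiset.count P (normalizedFactors I)`; use `normalizedFactors_mul`,
`normalizedFactors_pow`, `normalizedFactors_irreducible`, `Ideal.normalizedFactors...`,
`Ideal.prime_of_isPrime`, `Associates`-free: for ideals `normalize = id`.  `le_ordI_iff` is
`Ideal.dvd_iff_le` with `UniqueFactorizationMonoid.le_emultiplicity_iff_replicate_le_normalizedFactors`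
or `count_normalizedFactors_eq`.  `ordI_ext`: the multisets of normalized factors agree
(their members are prime ideals `≠ ⊥`), `Ideal.prod_normalizedFactors_eq_self`.
`exists_pow_of_dvd_ordI`: take the product of `P^(ordI P I / n)` over the prime factors of `I`.
`ordI_map_equiv`: a ring isomorphism transports factorisations (or use `le_ordI_iff` twice).
-/

namespace H9FC

section
variable {R : Type*} [CommRing R] [IsDedekindDomain R]

open UniqueFactorizationMonoid in
private lemma OrdA_bot (P : Ideal R) : ordI P (⊥ : Ideal R) = 0 := by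
  unfold ordI
  have h : normalizedFactors (⊥ : Ideal R) = 0 := normalizedFactors_zero
  rw [h, Multiset.count_zero]

open UniqueFactorizationMonoid in
private lemma OrdA_one (P : Ideal R) : ordI P (1 : Ideal R) = 0 := by
  unfold ordI
  rw [normalizedFactors_one, Multiset.count_zero]

theorem ordI_mul (P I J : Ideal R) (hI : I ≠ ⊥) (hJ : J ≠ ⊥) :
    ordI P (I * J) = ordI P I + ordI P J := by
  classical
  unfold ordI
  rw [UniqueFactorizationMonoid.normalizedFactors_mul hI hJ, Multiset.count_add]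

theorem ordI_pow (P I : Ideal R) (n : ℕ) : ordI P (I ^ n) = n * ordI P I := by
  unfold ordI
  rw [UniqueFactorizationMonoid.normalizedFactors_pow, Multiset.count_nsmul]

theorem ordI_prod {ι : Type*} (P : Ideal R) (s : Finset ι) (f : ι → Ideal R)
    (hf : ∀ i ∈ s, f i ≠ ⊥) : ordI P (∏ i ∈ s, f i) = ∑ i ∈ s, ordI P (f i) := by
  classical
  induction s using Finset.induction_on with
  | empty => rw [Finset.prod_empty, Finset.sum_empty, OrdA_one]
  | insert i s hi ih =>
    have hf' : ∀ j ∈ s, f j ≠ ⊥ := fun j hj => hf j (Finset.mem_insert_of_mem hj)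
    have h0 : ∏ j ∈ s, f j ≠ ⊥ := by
      have : ∏ j ∈ s, f j ≠ 0 := Finset.prod_ne_zero_iff.2 hf'
      exact this
    rw [Finset.prod_insert hi, Finset.sum_insert hi,
      ordI_mul P _ _ (hf i (Finset.mem_insert_self i s)) h0, ih hf']

theorem ordI_self (P : Ideal R) (hP : P.IsPrime) (h0 : P ≠ ⊥) : ordI P P = 1 := by
  unfold ordI
  rw [UniqueFactorizationMonoid.normalizedFactors_irreducible
    (Ideal.prime_of_isPrime h0 hP).irreducible, normalize_eq, Multiset.count_singleton_self]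

theorem ordI_of_ne (P Q : Ideal R) (hP : P.IsPrime) (hP0 : P ≠ ⊥) (hQ : Q.IsPrime) (hQ0 : Q ≠ ⊥)
    (h : P ≠ Q) : ordI P Q = 0 := by
  unfold ordI
  rw [UniqueFactorizationMonoid.normalizedFactors_irreducible
    (Ideal.prime_of_isPrime hQ0 hQ).irreducible, normalize_eq, Multiset.count_singleton, if_neg h]

theorem le_ordI_iff (P I : Ideal R) (hP : P.IsPrime) (hP0 : P ≠ ⊥) (hI : I ≠ ⊥) (n : ℕ) :
    n ≤ ordI P I ↔ I ≤ P ^ n := by
  unfold ordI
  have h1 := UniqueFactorizationMonoid.le_emultiplicity_iff_replicate_le_normalizedFactors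
    (n := n) (Ideal.prime_of_isPrime hP0 hP).irreducible (b := I) hI
  rw [normalize_eq] at h1
  rw [Multiset.le_count_iff_replicate_le, ← h1, ← pow_dvd_iff_le_emultiplicity, Ideal.dvd_iff_le]

theorem ordI_span_eq_zero_iff (P : Ideal R) (hP : P.IsPrime) (hP0 : P ≠ ⊥) (x : R) (hx : x ≠ 0) :
    ordI P (Ideal.span {x}) = 0 ↔ x ∉ P := by
  have hI : Ideal.span {x} ≠ ⊥ := fun h => hx (Ideal.span_singleton_eq_bot.1 h)
  have h1 := le_ordI_iff P (Ideal.span {x}) hP hP0 hI 1
  rw [pow_one, Ideal.span_singleton_le_iff_mem] at h1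
  rw [← h1]
  omega

theorem ordI_ext (I J : Ideal R) (hI : I ≠ ⊥) (hJ : J ≠ ⊥)
    (h : ∀ P : Ideal R, P.IsPrime → P ≠ ⊥ → ordI P I = ordI P J) : I = J := by
  classical
  have h1 : UniqueFactorizationMonoid.normalizedFactors I =
      UniqueFactorizationMonoid.normalizedFactors J := by
    ext P
    by_cases hP : P.IsPrime ∧ P ≠ ⊥
    · have h2 := h P hP.1 hP.2
      unfold ordI at h2
      exact h2
    · have h2 : ∀ K : Ideal R, P ∉ UniqueFactorizationMonoid.normalizedFactors K := by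
        intro K hK
        have h3 := UniqueFactorizationMonoid.prime_of_normalized_factor P hK
        exact hP ⟨Ideal.isPrime_of_prime h3, h3.ne_zero⟩
      rw [Multiset.count_eq_zero_of_notMem (h2 I), Multiset.count_eq_zero_of_notMem (h2 J)]
  rw [← Ideal.prod_normalizedFactors_eq_self hI, h1, Ideal.prod_normalizedFactors_eq_self hJ]

theorem exists_pow_of_dvd_ordI (n : ℕ) (hn : n ≠ 0) (I : Ideal R) (hI : I ≠ ⊥)
    (h : ∀ P : Ideal R, P.IsPrime → P ≠ ⊥ → n ∣ ordI P I) : ∃ J : Ideal R, J ^ n = I := by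
  classical
  refine ⟨∏ P ∈ (UniqueFactorizationMonoid.normalizedFactors I).toFinset,
    P ^ ((UniqueFactorizationMonoid.normalizedFactors I).count P / n), ?_⟩
  have h1 := Ideal.prod_normalizedFactors_eq_self hI
  rw [Finset.prod_multiset_count] at h1
  rw [← Finset.prod_pow]
  refine Eq.trans (Finset.prod_congr rfl fun P hP => ?_) h1
  rw [Multiset.mem_toFinset] at hP
  have h3 := UniqueFactorizationMonoid.prime_of_normalized_factor P hP
  have h4 := h P (Ideal.isPrime_of_prime h3) h3.ne_zero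
  have h5 : n ∣ (UniqueFactorizationMonoid.normalizedFactors I).count P := by
    unfold ordI at h4
    exact h4
  rw [← pow_mul, Nat.div_mul_cancel h5]

theorem ordI_map_equiv {S : Type*} [CommRing S] [IsDedekindDomain S] (f : R ≃+* S)
    (P I : Ideal R) (hP : P.IsPrime) (hP0 : P ≠ ⊥) :
    ordI (P.map (f : R →+* S)) (I.map (f : R →+* S)) = ordI P I := by
  by_cases hI : I = ⊥
  · subst hI
    rw [Ideal.map_bot, OrdA_bot, OrdA_bot]
  have hinj : Function.Injective (f : R →+* S) := f.injective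
  have hmb : ∀ K : Ideal R, K ≠ ⊥ → K.map (f : R →+* S) ≠ ⊥ := by
    intro K hK h1
    exact hK ((Ideal.map_eq_bot_iff_of_injective hinj).1 h1)
  have hP' : (P.map (f : R →+* S)).IsPrime := Ideal.map_isPrime_of_equiv f
  have hle : ∀ K L : Ideal R, K.map (f : R →+* S) ≤ L.map (f : R →+* S) ↔ K ≤ L := by
    intro K L
    constructor
    · intro h1
      rw [Ideal.map_le_iff_le_comap, Ideal.comap_map_of_bijective (f : R →+* S) f.bijective] at h1
      exact h1
    · exact Ideal.map_mono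
  have key : ∀ n : ℕ, n ≤ ordI (P.map (f : R →+* S)) (I.map (f : R →+* S)) ↔ n ≤ ordI P I := by
    intro n
    rw [le_ordI_iff _ _ hP' (hmb P hP0) (hmb I hI), le_ordI_iff P I hP hP0 hI, ← Ideal.map_pow, hle]
  exact le_antisymm ((key _).1 le_rfl) ((key _).2 le_rfl)

open scoped Pointwise in
theorem ordI_smul {G : Type*} [Group G] [MulSemiringAction G R] (σ : G)
    (P I : Ideal R) (hP : P.IsPrime) (hP0 : P ≠ ⊥) :
    ordI (σ • P) (σ • I) = ordI P I := by
  have h1 : ∀ K : Ideal R,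
      σ • K = K.map ((MulSemiringAction.toRingEquiv G R σ : R ≃+* R) : R →+* R) := fun K => rfl
  rw [h1, h1]
  exact ordI_map_equiv _ P I hP hP0

end

end H9FC

end

section

/-!
# Project FC9, module Red

Reductions of the family of all embeddings of `K` modulo a prime number `q`.

PROOF of `exists_redFam`. Let `N` be a number field containing all conjugates of `K` (for instance
the splitting field over `ℚ` of the minimal polynomial of a primitive element of `K`, or the
normal closure of `K`; there are exactly `d = [K:ℚ]` homomorphisms `σ : K → N`), `𝔓` a prime of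
`𝓞 N` with `q ∈ 𝔓`. `𝓞 N ⧸ 𝔓` is a finite field of characteristic `q`, so it embeds into the
algebraically closed field `Ω` (`IsAlgClosed.lift`; `ZMod q`-algebras). Enumerate the `σ` by
`Fin d` and let `ψ_i` be the composition `𝓞 K → 𝓞 N → 𝓞 N ⧸ 𝔓 → Ω`
(`RingOfIntegers.mapRingHom σ`). By `nf_map_prod` in `N[X]`, hence in `𝓞 N[X]` (injectivity), the
norm form is `∏ (σ a + X σ b)`; apply the homomorphism `𝓞 N → Ω`.
PROOFS of the others. `redFam_norm`: coefficient `0` of the norm form (`nf_coeff_zero`), or its value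
at `0`. `redFam_trace`: coefficient of `X` in `nf K 1 x` (`nf_one_coeff_one`). `redFam_eval`: evaluate.
`fsol_hom`: `0 = a^p + b^p + c^p`, so `(ψ a + ψ b + ψ c)^p = 0` (`add_pow_char`).
`cop_hom`: the kernel of `ψ : 𝓞 K → Ω` is a prime ideal containing `q`; if two of the three values
vanish, so does the third one (`a^p + b^p + c^p = 0`).
`exists_redFam_ker`: every prime `P ∋ q` is the kernel of some `ψ_i`: let `y ∈ P` be such that
`y ∉ P'` for all other primes `P' ∋ q` (there are finitely many; `Ideal.subset_union_prime` or CRT);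
`N(y) ≡ 0` modulo `q` as `N(y) ∈ P ∩ ℤ`, so some `ψ_i y = 0` by `redFam_norm`, and `ker ψ_i` is a prime
containing `q` and `y`, so `ker ψ_i = P`.
-/

namespace H9FC

open Polynomial NumberField

private theorem Red_hom (N : Type*) [Field N] [NumberField N] (q : ℕ) [Fact q.Prime]
    (Ω : Type*) [Field Ω] [IsAlgClosed Ω] [CharP Ω q] : Nonempty (𝓞 N →+* Ω) := by
  have hqp : q.Prime := Fact.out
  have hprime : (Ideal.span {(q : ℤ)}).IsPrime := by
    rw [Ideal.span_singleton_prime (by exact_mod_cast hqp.ne_zero)]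
    exact Nat.prime_iff_prime_int.1 hqp
  obtain ⟨P, hP, hPl⟩ := (Ideal.span {(q : ℤ)}).nonempty_primesOver (S := 𝓞 N)
  have hqP : (q : 𝓞 N) ∈ P := by
    have h1 : (q : ℤ) ∈ P.under ℤ := by
      rw [← hPl.over]
      exact Ideal.mem_span_singleton_self _
    have h2 : algebraMap ℤ (𝓞 N) (q : ℤ) ∈ P := h1
    simpa using h2
  have hP0 : P ≠ ⊥ := by
    intro h
    rw [h, Ideal.mem_bot] at hqP
    have : q = 0 := by exact_mod_cast hqP
    exact hqp.ne_zero this
  have hmax : P.IsMaximal := hP.isMaximal hP0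
  let _ : Field (𝓞 N ⧸ P) := Ideal.Quotient.field P
  have hchar : CharP (𝓞 N ⧸ P) q := by
    have h1 : ((q : ℕ) : 𝓞 N ⧸ P) = 0 := by
      have : ((q : ℕ) : 𝓞 N ⧸ P) = Ideal.Quotient.mk P (q : 𝓞 N) := by simp
      rw [this, Ideal.Quotient.eq_zero_iff_mem]
      exact hqP
    obtain ⟨r, hr⟩ := CharP.exists (𝓞 N ⧸ P)
    have h2 : r ∣ q := (CharP.cast_eq_zero_iff (𝓞 N ⧸ P) r q).1 h1
    rcases (Nat.dvd_prime hqp).1 h2 with h3 | h3
    · exfalso
      rw [h3] at hr
      exact CharP.ringChar_ne_one (R := 𝓞 N ⧸ P) (CharP.eq _ (ringChar.charP _) hr)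
    · rw [← h3]
      exact hr
  let _ : Algebra (ZMod q) (𝓞 N ⧸ P) := ZMod.algebra _ q
  let _ : Algebra (ZMod q) Ω := ZMod.algebra _ q
  have hfin : Finite (𝓞 N ⧸ P) := Ideal.finiteQuotientOfFreeOfNeBot P hP0
  have halg : Algebra.IsAlgebraic (ZMod q) (𝓞 N ⧸ P) := by
    have : Module.Finite (ZMod q) (𝓞 N ⧸ P) := Module.Finite.of_finite
    infer_instance
  exact ⟨((IsAlgClosed.lift : (𝓞 N ⧸ P) →ₐ[ZMod q] Ω) : (𝓞 N ⧸ P) →+* Ω).comp (Ideal.Quotient.mk P)⟩

theorem exists_redFam (K : Type*) [Field K] [NumberField K] (q : ℕ) [Fact q.Prime]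
    (Ω : Type*) [Field Ω] [IsAlgClosed Ω] [CharP Ω q] :
    ∃ ψ : Fin (Module.finrank ℚ K) → (𝓞 K →+* Ω), IsRedFam ψ := by
  let N := IntermediateField.normalClosure ℚ K ℂ
  have hNf : NumberField N := { to_charZero := inferInstance, to_finiteDimensional := inferInstance }
  have hcard : Fintype.card (K →ₐ[ℚ] N) = Module.finrank ℚ K :=
    (Fintype.card_congr (normalClosure.algHomEquiv ℚ K ℂ)).trans (AlgHom.card ℚ K ℂ)
  obtain ⟨χ⟩ := Red_hom N q Ω
  let e : Fin (Module.finrank ℚ K) ≃ (K →ₐ[ℚ] N) := (Fintype.equivFinOfCardEq hcard).symm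
  refine ⟨fun i => χ.comp (RingOfIntegers.mapRingHom (e i : K →+* N)), fun a b => ?_⟩
  have h1 : (nf K a b).map (Int.castRingHom (𝓞 N)) = ∏ σ : K →ₐ[ℚ] N,
      (C (RingOfIntegers.mapRingHom (σ : K →+* N) a) + X * C (RingOfIntegers.mapRingHom (σ : K →+* N) b)) := by
    apply map_injective (algebraMap (𝓞 N) N) RingOfIntegers.coe_injective
    rw [map_map]
    have h2 : (algebraMap (𝓞 N) N).comp (Int.castRingHom (𝓞 N)) = Int.castRingHom N := RingHom.ext_int _ _
    rw [h2, nf_map_prod K N hcard, Polynomial.map_prod]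
    refine Finset.prod_congr rfl fun σ _ => ?_
    rw [Polynomial.map_add, Polynomial.map_mul, map_C, map_C, map_X]
    rfl
  have h3 : (Int.castRingHom Ω) = χ.comp (Int.castRingHom (𝓞 N)) := (RingHom.ext_int _ _)
  rw [h3, ← map_map, h1, Polynomial.map_prod]
  rw [← Equiv.prod_comp e]
  refine Finset.prod_congr rfl fun i _ => ?_
  rw [Polynomial.map_add, Polynomial.map_mul, map_C, map_C, map_X]
  rfl

section
variable {K : Type*} [Field K] [NumberField K] {Ω : Type*} [Field Ω]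
  {ψ : Fin (Module.finrank ℚ K) → (𝓞 K →+* Ω)}

theorem redFam_norm (hψ : IsRedFam ψ) (x : 𝓞 K) :
    ((Algebra.norm ℤ x : ℤ) : Ω) = ∏ i, ψ i x := by
  have h := congrArg (fun f => coeff f 0) (hψ x 0)
  simp only [coeff_map, nf_coeff_zero, coeff_zero_prod] at h
  rw [show ((Algebra.norm ℤ x : ℤ) : Ω) = (Int.castRingHom Ω) (Algebra.norm ℤ x) from rfl, h]
  refine Finset.prod_congr rfl fun i _ => ?_
  simp

omit [NumberField K] in
private theorem Red_qmem {q : ℕ} [CharP Ω q] (φ : 𝓞 K →+* Ω) : (q : 𝓞 K) ∈ RingHom.ker φ := by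
  rw [RingHom.mem_ker, map_natCast, CharP.cast_eq_zero]

private theorem Red_max {q : ℕ} (hq : q ≠ 0) (P : Ideal (𝓞 K)) (hP : P.IsPrime) (hqP : (q : 𝓞 K) ∈ P) :
    P.IsMaximal := by
  refine hP.isMaximal fun h => ?_
  rw [h, Ideal.mem_bot] at hqP
  exact hq (by exact_mod_cast hqP)

theorem exists_redFam_ker (hψ : IsRedFam ψ) (q : ℕ) [Fact q.Prime] [CharP Ω q]
    (P : Ideal (𝓞 K)) (hP : P.IsPrime) (hq : (q : 𝓞 K) ∈ P) : ∃ i, RingHom.ker (ψ i) = P := by
  have hqp : q.Prime := Fact.out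
  by_contra hcon
  push Not at hcon
  have hne : ¬ ∃ i ∈ (Finset.univ : Finset (Fin (Module.finrank ℚ K))), P ≤ RingHom.ker (ψ i) := by
    rintro ⟨i, _, hi⟩
    have hmax := Red_max hqp.ne_zero P hP hq
    exact hcon i (hmax.eq_of_le (RingHom.ker_isPrime (ψ i)).ne_top hi).symm
  have hd : 0 < Module.finrank ℚ K := Module.finrank_pos
  rw [← Ideal.subset_union_prime ⟨0, hd⟩ ⟨0, hd⟩ (fun i _ _ _ => RingHom.ker_isPrime (ψ i)), Set.not_subset] at hne
  obtain ⟨y, hyP, hy⟩ := hne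
  have h1 : ((Ideal.absNorm (Ideal.span {y}) : ℕ) : 𝓞 K) ∈ P :=
    ((Ideal.span_singleton_le_iff_mem _).2 hyP) (Ideal.absNorm_mem _)
  have h2 : q ∣ Ideal.absNorm (Ideal.span {y}) := by
    by_contra h3
    have h4 : Nat.Coprime q (Ideal.absNorm (Ideal.span {y})) := (Nat.Prime.coprime_iff_not_dvd hqp).2 h3
    have h5 : IsCoprime (q : ℤ) (Ideal.absNorm (Ideal.span {y}) : ℤ) := Nat.isCoprime_iff_coprime.2 h4
    obtain ⟨u, v, huv⟩ := h5
    apply hP.ne_top
    rw [Ideal.eq_top_iff_one]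
    have h6 : ((u * q + v * (Ideal.absNorm (Ideal.span {y}) : ℤ) : ℤ) : 𝓞 K) = 1 := by
      rw [huv]
      simp
    rw [← h6]
    push_cast
    exact P.add_mem (P.mul_mem_left _ hq) (P.mul_mem_left _ h1)
  rw [Ideal.absNorm_span_singleton, ← Int.natCast_dvd] at h2
  have h3 : ((Algebra.norm ℤ y : ℤ) : Ω) = 0 := (CharP.intCast_eq_zero_iff Ω q _).2 h2
  rw [redFam_norm hψ, Finset.prod_eq_zero_iff] at h3
  obtain ⟨i, _, hi⟩ := h3
  apply hy
  rw [Set.mem_iUnion₂]
  exact ⟨i, Finset.mem_coe.2 (Finset.mem_univ i), (RingHom.mem_ker).2 hi⟩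

end

theorem fsol_hom {K : Type*} [Field K] [NumberField K] {p : ℕ} [Fact p.Prime] {a b c : 𝓞 K}
    (h : FSol K p a b c) {Ω : Type*} [Field Ω] [CharP Ω p] (ψ : 𝓞 K →+* Ω) :
    ψ a + ψ b + ψ c = 0 := by
  have h1 : (ψ a + ψ b + ψ c) ^ p = 0 := by
    rw [add_pow_char, add_pow_char, ← map_pow, ← map_pow, ← map_pow, ← map_add, ← map_add, h.2.2.2, map_zero]
  exact pow_eq_zero_iff (Fact.out : p.Prime).ne_zero |>.1 h1

private theorem Red_third {K : Type*} [Field K] [NumberField K] {p : ℕ} [Fact p.Prime] {a b c : 𝓞 K}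
    (h : FSol K p a b c) {Ω : Type*} [Field Ω] (ψ : 𝓞 K →+* Ω) (ha : ψ a = 0) (hb : ψ b = 0) : ψ c = 0 := by
  have hp := (Fact.out : p.Prime).ne_zero
  have h1 : ψ (a ^ p + b ^ p + c ^ p) = 0 := by rw [h.2.2.2, map_zero]
  rw [map_add, map_add, map_pow, map_pow, map_pow, ha, hb, zero_pow hp, zero_add, zero_add] at h1
  exact pow_eq_zero_iff hp |>.1 h1

/-- the roles of `a, b, c` are symmetric -/
theorem FSol.rot {K : Type*} [Field K] [NumberField K] {p : ℕ} {a b c : 𝓞 K}
    (h : FSol K p a b c) : FSol K p b c a :=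
  ⟨h.2.1, h.2.2.1, h.1, by
    have h1 := h.2.2.2
    linear_combination h1⟩

theorem FSol.swap {K : Type*} [Field K] [NumberField K] {p : ℕ} {a b c : 𝓞 K}
    (h : FSol K p a b c) : FSol K p b a c :=
  ⟨h.2.1, h.1, h.2.2.1, by
    have h1 := h.2.2.2
    linear_combination h1⟩

theorem cop_hom {K : Type*} [Field K] [NumberField K] {p : ℕ} [Fact p.Prime] {a b c : 𝓞 K}
    (h : FSol K p a b c) {q : ℕ} [Fact q.Prime] (hc : CopAt K q a b c) {Ω : Type*} [Field Ω]
    [CharP Ω q] (ψ : 𝓞 K →+* Ω) :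
    ¬ (ψ a = 0 ∧ ψ b = 0) ∧ ¬ (ψ b = 0 ∧ ψ c = 0) ∧ ¬ (ψ c = 0 ∧ ψ a = 0) := by
  have h0 : ¬ (ψ a = 0 ∧ ψ b = 0 ∧ ψ c = 0) := by
    rintro ⟨h1, h2, h3⟩
    exact hc (RingHom.ker ψ) (RingHom.ker_isPrime ψ) (Red_qmem ψ)
      ⟨(RingHom.mem_ker).2 h1, (RingHom.mem_ker).2 h2, (RingHom.mem_ker).2 h3⟩
  refine ⟨?_, ?_, ?_⟩
  · rintro ⟨h1, h2⟩
    exact h0 ⟨h1, h2, Red_third h ψ h1 h2⟩
  · rintro ⟨h1, h2⟩
    exact h0 ⟨Red_third h.rot ψ h1 h2, h1, h2⟩
  · rintro ⟨h1, h2⟩
    exact h0 ⟨h2, Red_third h.rot.rot ψ h1 h2, h1⟩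

theorem CopAt.rot {K : Type*} [Field K] [NumberField K] {q : ℕ} {a b c : 𝓞 K}
    (h : CopAt K q a b c) : CopAt K q b c a :=
  fun P hP hq hh => h P hP hq ⟨hh.2.2, hh.1, hh.2.1⟩

theorem CopAt.swap {K : Type*} [Field K] [NumberField K] {q : ℕ} {a b c : 𝓞 K}
    (h : CopAt K q a b c) : CopAt K q b a c :=
  fun P hP hq hh => h P hP hq ⟨hh.2.1, hh.1, hh.2.2⟩

end H9FC

end

section

/-!
# Project FC9, module Teich

Teichmüller characters with values in a number field `E ⊇ M`, and additive characters.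

PROOF of `exists_teich`. Let `Q = |k|`, `l = ringChar k`, and `E = CyclotomicField ((Q-1) * l) M` (or
the splitting field of `X^((Q-1)l) - 1` over `M`); it is a number field and contains a primitive
`(Q-1)`-th root of unity `ξ` and a primitive `l`-th root of unity `z` (powers of a primitive root of
order `(Q-1) l`).  Let `𝔩 = ker π`; it is a prime ideal, not `⊥` (since `𝓞 M` is infinite and `k` is
finite, or since `l ∈ 𝔩`), and there is a prime `L` of `𝓞 E` over `𝔩` (integrality,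
`Ideal.exists_ideal_over_prime_of_isIntegral`). `ι` is the composition
`k ≃ 𝓞 M / 𝔩 → 𝓞 E / L`; it is injective. The powers `ξ^j`, `0 ≤ j < Q-1`, have different reductions
modulo `L` (for `0 < j < Q - 1` the product `∏_{0<i<Q-1} (1 - ξ^i) = Q - 1` is not in `L`, since
`Q ∈ L`), and these reductions are the `Q - 1` zeros of `X^(Q-1) - 1` in the field (or domain)
`𝓞 E / L`; the elements `ι x`, `x ≠ 0`, are such zeros. So for `x ≠ 0` there is a unique `j < Q-1`
with `ι x = ξ^j mod L`; put `ω x = ξ^j`, `ω 0 = 0`.  Uniqueness gives multiplicativity.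
PROOF of `exists_addChar`: `ψ x = z^(Tr x)`, `Tr` the trace from `k` to the prime field `ZMod l`;
compare `AddChar.FiniteField.primitiveChar` in Mathlib (there the target is a cyclotomic field, here
it is `R`; use `AddChar.zmodChar`, `AddChar.zmodChar_primitive_of_primitive_root`,
`compAddMonoidHom`, `IsPrimitive.of_ne_one`, `FiniteField.trace_to_zmod_nondegenerate`);
`Tr (x^l) = Tr x` because `x ↦ x^l` is an automorphism over the prime field.
`gaussSum_frob_inv`: `x ↦ x^l` is a bijection of `k`.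
-/

namespace H9FC

open NumberField

universe u w

/-- The multiplicative lift of a homomorphism of the units of a finite field into a quotient in
which a primitive root of unity of order `|k| - 1` stays primitive. -/
private theorem Teich_char {R : Type*} [CommRing R] [IsDomain R] {k : Type*} [Field k] [Fintype k]
    (L : Ideal R) [L.IsPrime] (ι : k →+* (R ⧸ L)) {ξ : R}
    (hξ : IsPrimitiveRoot ξ (Fintype.card k - 1))
    (hξ' : IsPrimitiveRoot (Ideal.Quotient.mk L ξ) (Fintype.card k - 1)) :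
    ∃ ω : MulChar k R, ∀ x : k, Ideal.Quotient.mk L (ω x) = ι x := by
  classical
  have hQ : 1 < Fintype.card k := Fintype.one_lt_card
  have : NeZero (Fintype.card k - 1) := ⟨by omega⟩
  have hj : ∀ x : kˣ, ∃ j < Fintype.card k - 1, (Ideal.Quotient.mk L ξ) ^ j = ι x := by
    intro x
    refine hξ'.eq_pow_of_pow_eq_one ?_
    rw [← map_pow, FiniteField.pow_card_sub_one_eq_one (x : k) x.ne_zero, map_one]
  choose j hj1 hj2 using hj
  have hu : IsUnit ξ := hξ.isUnit (by omega)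
  have key : ∀ a b : ℕ, (Ideal.Quotient.mk L ξ) ^ a = (Ideal.Quotient.mk L ξ) ^ b →
      hu.unit ^ a = hu.unit ^ b := by
    intro a b hab
    have h1 : IsPrimitiveRoot hu.unit (Fintype.card k - 1) :=
      IsPrimitiveRoot.of_map_of_injective (f := Units.coeHom R) (by simpa using hξ)
        Units.val_injective
    have hu' : IsUnit (Ideal.Quotient.mk L ξ) := hξ'.isUnit (by omega)
    have h2 : IsPrimitiveRoot hu'.unit (Fintype.card k - 1) :=
      IsPrimitiveRoot.of_map_of_injective (f := Units.coeHom (R ⧸ L)) (by simpa using hξ')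
        Units.val_injective
    have h3 : hu'.unit ^ a = hu'.unit ^ b := by
      apply Units.ext
      simpa using hab
    rw [pow_eq_pow_iff_modEq, ← h2.eq_orderOf] at h3
    rw [pow_eq_pow_iff_modEq, ← h1.eq_orderOf]
    exact h3
  let f : kˣ →* Rˣ :=
    { toFun := fun x => hu.unit ^ j x
      map_one' := by
        have h1 := key (j 1) 0 (by rw [hj2, pow_zero, Units.val_one, map_one])
        rw [h1, pow_zero]
      map_mul' := by
        intro x y
        rw [← pow_add]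
        apply key
        rw [hj2, pow_add, hj2, hj2, Units.val_mul, map_mul] }
  refine ⟨MulChar.ofUnitHom f, fun x => ?_⟩
  by_cases hx : x = 0
  · rw [hx, MulChar.map_zero, map_zero, map_zero]
  · have h1 := MulChar.ofUnitHom_coe f (Units.mk0 x hx)
    rw [Units.val_mk0] at h1
    rw [h1]
    change Ideal.Quotient.mk L ((hu.unit ^ j (Units.mk0 x hx) : Rˣ) : R) = ι x
    rw [Units.val_pow_eq_pow_val, IsUnit.unit_spec, map_pow, hj2, Units.val_mk0]

/-- Roots of unity of order `n` stay primitive modulo a prime which does not contain `n`. -/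
private theorem Teich_red {R : Type*} [CommRing R] [IsDomain R] (L : Ideal R) [L.IsPrime] {n : ℕ}
    (hn : 0 < n) (hnL : (n : R) ∉ L) {ξ : R} (hξ : IsPrimitiveRoot ξ n) :
    IsPrimitiveRoot (Ideal.Quotient.mk L ξ) n := by
  obtain ⟨m, rfl⟩ : ∃ m, n = m + 1 := ⟨n - 1, by omega⟩
  refine IsPrimitiveRoot.mk_of_lt _ hn ?_ ?_
  · rw [← map_pow, hξ.pow_eq_one, map_one]
  · intro i hi0 hi hi1
    apply hnL
    have h1 := IsPrimitiveRoot.prod_one_sub_pow_eq_order hξ
    have h2 : (1 - ξ ^ (i - 1 + 1)) ∈ L := by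
      rw [show i - 1 + 1 = i by omega, ← Ideal.Quotient.eq_zero_iff_mem, map_sub, map_one, map_pow,
        hi1, sub_self]
    have h3 : (1 - ξ ^ (i - 1 + 1)) ∣ ∏ k ∈ Finset.range m, (1 - ξ ^ (k + 1)) :=
      Finset.dvd_prod_of_mem (fun k => 1 - ξ ^ (k + 1)) (Finset.mem_range.2 (by omega))
    rw [h1] at h3
    have h4 := Ideal.mem_of_dvd _ h3 h2
    push_cast
    exact h4

theorem exists_teich (M : Type u) [Field M] [NumberField M] {k : Type w} [Field k] [Fintype k]
    (π : 𝓞 M →+* k) (hπ : Function.Surjective π) :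
    ∃ (E : Type u) (_ : Field E) (_ : NumberField E) (_ : Algebra M E) (L : Ideal (𝓞 E))
      (ι : k →+* (𝓞 E ⧸ L)) (ω : MulChar k (𝓞 E)) (z : 𝓞 E),
      L.IsPrime ∧ L ≠ ⊥ ∧
      (∀ x : 𝓞 M, ι (π x) = Ideal.Quotient.mk L (algebraMap (𝓞 M) (𝓞 E) x)) ∧
      (∀ x : k, Ideal.Quotient.mk L (ω x) = ι x) ∧ IsPrimitiveRoot z (ringChar k) := by
  classical
  have hQ : 1 < Fintype.card k := Fintype.one_lt_card
  have hl : (ringChar k).Prime := CharP.char_is_prime k _
  have : Fact (ringChar k).Prime := ⟨hl⟩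
  let n : ℕ := (Fintype.card k - 1) * ringChar k
  have hn : 0 < n := Nat.mul_pos (by omega) hl.pos
  have : NeZero n := ⟨hn.ne'⟩
  let E := CyclotomicField n M
  have hζ : IsPrimitiveRoot (IsCyclotomicExtension.zeta n M E) n :=
    IsCyclotomicExtension.zeta_spec n M E
  have hρ := hζ.toInteger_isPrimitiveRoot
  set ρ := hζ.toInteger with hρd
  have hξ : IsPrimitiveRoot (ρ ^ ringChar k) (Fintype.card k - 1) :=
    hρ.pow hn (by rw [mul_comm])
  have hz : IsPrimitiveRoot (ρ ^ (Fintype.card k - 1)) (ringChar k) := hρ.pow hn rfl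
  have hmax : (RingHom.ker π).IsMaximal := RingHom.ker_isMaximal_of_surjective π hπ
  obtain ⟨L, hLmax, hL⟩ := Ideal.exists_ideal_over_maximal_of_isIntegral (S := 𝓞 E)
    (RingHom.ker π) (by
      rw [(RingHom.injective_iff_ker_eq_bot _).1 (FaithfulSMul.algebraMap_injective (𝓞 M) (𝓞 E))]
      exact bot_le)
  have : L.IsPrime := hLmax.isPrime
  have hmem : ∀ x : 𝓞 M, algebraMap (𝓞 M) (𝓞 E) x ∈ L ↔ π x = 0 := by
    intro x
    rw [← Ideal.mem_comap, hL, RingHom.mem_ker]
  have hlL : ((ringChar k : ℕ) : 𝓞 E) ∈ L := by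
    have h1 := (hmem ((ringChar k : ℕ) : 𝓞 M)).2 (by rw [map_natCast, CharP.cast_eq_zero])
    rwa [map_natCast] at h1
  have hQL : ((Fintype.card k : ℕ) : 𝓞 E) ∈ L := by
    have h1 := (hmem ((Fintype.card k : ℕ) : 𝓞 M)).2 (by rw [map_natCast, FiniteField.cast_card_eq_zero])
    rwa [map_natCast] at h1
  have hLbot : L ≠ ⊥ := by
    intro h0
    rw [h0, Ideal.mem_bot] at hlL
    exact hl.ne_zero (by exact_mod_cast hlL)
  have hnL : ((Fintype.card k - 1 : ℕ) : 𝓞 E) ∉ L := by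
    intro h1
    have h2 : ((Fintype.card k : ℕ) : 𝓞 E) = ((Fintype.card k - 1 : ℕ) : 𝓞 E) + 1 := by
      rw [← Nat.cast_succ]
      congr 1
      omega
    rw [h2] at hQL
    have h3 := L.sub_mem hQL h1
    rw [add_sub_cancel_left] at h3
    exact hLmax.ne_top ((Ideal.eq_top_iff_one L).2 h3)
  have hξ' := Teich_red L (by omega) hnL hξ
  let g : 𝓞 M →+* (𝓞 E ⧸ L) := (Ideal.Quotient.mk L).comp (algebraMap (𝓞 M) (𝓞 E))
  have hg : RingHom.ker π ≤ RingHom.ker g := by
    intro x hx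
    rw [RingHom.mem_ker] at hx ⊢
    change Ideal.Quotient.mk L (algebraMap (𝓞 M) (𝓞 E) x) = 0
    rw [Ideal.Quotient.eq_zero_iff_mem]
    exact (hmem x).2 hx
  let ι : k →+* (𝓞 E ⧸ L) := RingHom.liftOfSurjective π hπ ⟨g, hg⟩
  obtain ⟨ω, hω⟩ := Teich_char L ι hξ hξ'
  refine ⟨E, inferInstance, inferInstance, inferInstance, L, ι, ω, ρ ^ (Fintype.card k - 1),
    inferInstance, hLbot, fun x => ?_, hω, hz⟩
  exact RingHom.liftOfSurjective_comp_apply π hπ ⟨g, hg⟩ x

theorem exists_addChar {k : Type*} [Field k] [Fintype k] {R : Type*} [CommRing R] [IsDomain R]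
    {z : R} (hz : IsPrimitiveRoot z (ringChar k)) :
    ∃ ψ : AddChar k R, ψ.IsPrimitive ∧ ∀ x, ψ (x ^ ringChar k) = ψ x := by
  classical
  have hl : (ringChar k).Prime := CharP.char_is_prime k _
  have : Fact (ringChar k).Prime := ⟨hl⟩
  let : Algebra (ZMod (ringChar k)) k := ZMod.algebra _ _
  let χ := AddChar.zmodChar (ringChar k) ((IsPrimitiveRoot.iff_def z (ringChar k)).mp hz).left
  have hχ : χ.IsPrimitive := AddChar.zmodChar_primitive_of_primitive_root (ringChar k) hz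
  let ψ := χ.compAddMonoidHom (Algebra.trace (ZMod (ringChar k)) k).toAddMonoidHom
  have hψ : ψ ≠ 1 := by
    obtain ⟨a, ha⟩ := FiniteField.trace_to_zmod_nondegenerate k one_ne_zero
    rw [one_mul] at ha
    exact AddChar.ne_one_iff.2
      ⟨a, fun hf => ha <| (hχ.zmod_char_eq_one_iff (ringChar k)
        (Algebra.trace (ZMod (ringChar k)) k a)).mp hf⟩
  refine ⟨ψ, AddChar.IsPrimitive.of_ne_one hψ, fun x => ?_⟩
  change χ (Algebra.trace (ZMod (ringChar k)) k (x ^ ringChar k)) =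
    χ (Algebra.trace (ZMod (ringChar k)) k x)
  congr 1
  have h1 := Algebra.trace_eq_of_algEquiv
    (FiniteField.frobeniusAlgEquivOfAlgebraic (ZMod (ringChar k)) k) x
  rw [FiniteField.coe_frobeniusAlgEquivOfAlgebraic] at h1
  simp only [ZMod.card] at h1
  exact h1

theorem gaussSum_frob_inv {k : Type*} [Field k] [Fintype k] {R : Type*} [CommRing R] [IsDomain R]
    (χ : MulChar k R) (ψ : AddChar k R) (hψ : ∀ x, ψ (x ^ ringChar k) = ψ x) :
    gaussSum (χ ^ ringChar k) ψ = gaussSum χ ψ := by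
  have hl : (ringChar k).Prime := CharP.char_is_prime k _
  have : Fact (ringChar k).Prime := ⟨hl⟩
  rw [gaussSum, gaussSum]
  have hbij : Function.Bijective (fun x : k => x ^ ringChar k) := by
    refine Finite.injective_iff_bijective.1 ?_
    exact frobenius_inj k (ringChar k)
  refine Fintype.sum_bijective _ hbij _ _ fun x => ?_
  rw [hψ, MulChar.pow_apply' _ hl.ne_zero, map_pow]

end H9FC

end

section

/-!
# Bounds for `L(s,χ)` in `Re s ≥ 1/2` (for Siegel's theorem)

`LF_le`: for `Re s > 1`, `L(s,χ) = s ∫_1^∞ S(u) u^{-s-1} du`, `S(u) = ∑_{n≤u} χ(n)`, `‖S(u)‖ ≤ q`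
(Mathlib: `LSeries_eq_mul_integral`, file `SumCoeff.lean`).  The right side is analytic for `Re s > 0`
and equals `LFunction χ` (entire for `χ ≠ 1`, `DirichletCharacter.differentiable_LFunction`)
by the identity theorem on the half plane.  So `‖L(s,χ)‖ ≤ ‖s‖ q / Re s ≤ 2 q ‖s‖`.
`LF1_le`: `A(u) = #{n ≤ u, (n,q)=1} = (φ(q)/q) u + E(u)`, `|E(u)| ≤ q`:
`(s-1) L(s,χ0) = (φ(q)/q) s + (s-1) s ∫ E(u) u^{-s-1} du`.
-/

set_option autoImplicit false

namespace Pool.Agent.H91.EHA

open Finset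

/-! ### partial sums of periodic functions -/

private lemma swd1_period (q : ℕ) (f : ℕ → ℂ) (hf : ∀ k, f (k + q) = f k) (N : ℕ) :
    ∑ k ∈ range (N + q), f k = ∑ k ∈ range N, f k + ∑ k ∈ range q, f k := by
  rw [add_comm N q, Finset.sum_range_add, add_comm]
  congr 1
  exact Finset.sum_congr rfl fun k _ => by rw [add_comm q k, hf]

/-- mean value of a periodic function -/
private noncomputable def swd1_mean (q : ℕ) (f : ℕ → ℂ) : ℂ := (∑ k ∈ range q, f k) / q

private lemma swd1_mean_le (q : ℕ) (hq : 0 < q) (f : ℕ → ℂ) (h1 : ∀ k, ‖f k‖ ≤ 1) :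
    ‖swd1_mean q f‖ ≤ 1 := by
  unfold swd1_mean
  rw [norm_div, Complex.norm_natCast]
  rw [div_le_one (by exact_mod_cast hq)]
  calc ‖∑ k ∈ range q, f k‖ ≤ ∑ k ∈ range q, ‖f k‖ := norm_sum_le _ _
    _ ≤ ∑ k ∈ range q, (1 : ℝ) := Finset.sum_le_sum fun k _ => h1 k
    _ = q := by simp

private lemma swd1_dev (q : ℕ) (hq : 0 < q) (f : ℕ → ℂ) (hf : ∀ k, f (k + q) = f k)
    (h1 : ∀ k, ‖f k‖ ≤ 1) (N : ℕ) :
    ‖∑ k ∈ range N, f k - swd1_mean q f * N‖ ≤ 2 * q := by
  induction N using Nat.strong_induction_on with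
  | _ N ih =>
    by_cases hN : N < q
    · have hm := swd1_mean_le q hq f h1
      have hNq : (N : ℝ) ≤ q := by exact_mod_cast hN.le
      calc ‖∑ k ∈ range N, f k - swd1_mean q f * N‖
          ≤ ‖∑ k ∈ range N, f k‖ + ‖swd1_mean q f * N‖ := norm_sub_le _ _
        _ ≤ (N : ℝ) + 1 * N := by
            refine add_le_add ?_ ?_
            · calc ‖∑ k ∈ range N, f k‖ ≤ ∑ k ∈ range N, ‖f k‖ := norm_sum_le _ _
                _ ≤ ∑ k ∈ range N, (1 : ℝ) := Finset.sum_le_sum fun k _ => h1 k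
                _ = N := by simp
            · rw [norm_mul, Complex.norm_natCast]
              exact mul_le_mul_of_nonneg_right hm (Nat.cast_nonneg _)
        _ ≤ 2 * q := by linarith
    · push Not at hN
      obtain ⟨M, rfl⟩ := Nat.exists_eq_add_of_le hN
      have hM : M < q + M := by omega
      have h := ih M hM
      have e : ∑ k ∈ range (q + M), f k - swd1_mean q f * ((q + M : ℕ) : ℂ)
          = ∑ k ∈ range M, f k - swd1_mean q f * M := by
        rw [add_comm q M, swd1_period q f hf M]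
        have hq' : (q : ℂ) ≠ 0 := by exact_mod_cast hq.ne'
        unfold swd1_mean
        push_cast
        field_simp
        ring
      rw [e]
      exact h

/-- the error term -/
private noncomputable def swd1_E (q : ℕ) (f : ℕ → ℂ) (t : ℝ) : ℂ :=
  ∑ k ∈ Icc 1 ⌊t⌋₊, f k - swd1_mean q f * t

private lemma swd1_E_le (q : ℕ) (hq : 0 < q) (f : ℕ → ℂ) (hf : ∀ k, f (k + q) = f k)
    (h1 : ∀ k, ‖f k‖ ≤ 1) (t : ℝ) (ht : 0 ≤ t) : ‖swd1_E q f t‖ ≤ 4 * q := by
  have hq1 : (1 : ℝ) ≤ q := by exact_mod_cast hq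
  have e0 : ∑ k ∈ Icc 1 ⌊t⌋₊, f k = ∑ k ∈ range (⌊t⌋₊ + 1), f k - f 0 := by
    rw [Finset.sum_range_succ', Finset.range_eq_Ico, Finset.sum_Ico_add' f 0 ⌊t⌋₊ 1]
    simp only [zero_add, add_sub_cancel_right]
    rfl
  have hm := swd1_mean_le q hq f h1
  have e : swd1_E q f t = (∑ k ∈ range (⌊t⌋₊ + 1), f k - swd1_mean q f * ((⌊t⌋₊ + 1 : ℕ) : ℂ))
      - f 0 + swd1_mean q f * (((⌊t⌋₊ + 1 : ℝ) - t : ℝ) : ℂ) := by
    unfold swd1_E
    rw [e0]
    push_cast
    ring
  rw [e]
  have hfl1 := Nat.floor_le ht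
  have hfl2 := Nat.lt_floor_add_one t
  have h3 : ‖(((⌊t⌋₊ + 1 : ℝ) - t : ℝ) : ℂ)‖ ≤ 1 := by
    rw [Complex.norm_real, Real.norm_eq_abs, abs_le]
    constructor <;> linarith
  calc ‖(∑ k ∈ range (⌊t⌋₊ + 1), f k - swd1_mean q f * ((⌊t⌋₊ + 1 : ℕ) : ℂ))
      - f 0 + swd1_mean q f * (((⌊t⌋₊ + 1 : ℝ) - t : ℝ) : ℂ)‖
      ≤ ‖(∑ k ∈ range (⌊t⌋₊ + 1), f k - swd1_mean q f * ((⌊t⌋₊ + 1 : ℕ) : ℂ))
      - f 0‖ + ‖swd1_mean q f * (((⌊t⌋₊ + 1 : ℝ) - t : ℝ) : ℂ)‖ := norm_add_le _ _
    _ ≤ (2 * q + 1) + 1 * 1 := by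
        refine add_le_add ((norm_sub_le _ _).trans
          (add_le_add (swd1_dev q hq f hf h1 _) (h1 0))) ?_
        rw [norm_mul]
        exact mul_le_mul hm h3 (norm_nonneg _) zero_le_one
    _ ≤ 4 * q := by linarith

private lemma swd1_E_meas (q : ℕ) (f : ℕ → ℂ) : Measurable (swd1_E q f) := by
  unfold swd1_E
  refine Measurable.sub ?_ ?_
  · have h : Measurable (fun n : ℕ => ∑ k ∈ Icc 1 n, f k) := measurable_from_top
    exact h.comp Nat.measurable_floor
  · exact measurable_const.mul Complex.measurable_ofReal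

/-! ### the integral -/

private noncomputable def swd1_G (E : ℝ → ℂ) (s : ℂ) : ℂ :=
  ∫ t in Set.Ioi (1 : ℝ), E t * (t : ℂ) ^ (-(s + 1))

private lemma swd1_int (E : ℝ → ℂ) (hE : Measurable E) (K : ℝ)
    (hK : ∀ t, 1 ≤ t → ‖E t‖ ≤ K) (s : ℂ) (hs : 0 < s.re) :
    MeasureTheory.IntegrableOn (fun t : ℝ => E t * (t : ℂ) ^ (-(s + 1))) (Set.Ioi 1) ∧
    ‖swd1_G E s‖ ≤ K / s.re := by
  have hr : -(s.re + 1) < -1 := by linarith
  have hi := integrableOn_Ioi_rpow_of_lt hr one_pos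
  have hb : ∀ t ∈ Set.Ioi (1 : ℝ), ‖E t * (t : ℂ) ^ (-(s + 1))‖ ≤ K * t ^ (-(s.re + 1)) := by
    intro t ht
    have ht1 : (1 : ℝ) < t := ht
    have ht0 : 0 < t := by linarith
    rw [norm_mul, Complex.norm_cpow_eq_rpow_re_of_pos ht0]
    have : (-(s + 1)).re = -(s.re + 1) := by simp
    rw [this]
    exact mul_le_mul_of_nonneg_right (hK t ht1.le) (Real.rpow_nonneg ht0.le _)
  have hmeas : Measurable (fun t : ℝ => E t * (t : ℂ) ^ (-(s + 1))) := by
    refine hE.mul ?_
    exact Complex.measurable_ofReal.pow_const _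
  refine ⟨?_, ?_⟩
  · refine MeasureTheory.Integrable.mono' (hi.const_mul K) hmeas.aestronglyMeasurable ?_
    exact (MeasureTheory.ae_restrict_iff' measurableSet_Ioi).mpr
      (Filter.Eventually.of_forall fun t ht => hb t ht)
  · unfold swd1_G
    have h1 : ‖∫ t in Set.Ioi (1 : ℝ), E t * (t : ℂ) ^ (-(s + 1))‖
        ≤ ∫ t in Set.Ioi (1 : ℝ), K * t ^ (-(s.re + 1)) := by
      refine MeasureTheory.norm_integral_le_of_norm_le (hi.const_mul K) ?_
      exact (MeasureTheory.ae_restrict_iff' measurableSet_Ioi).mpr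
        (Filter.Eventually.of_forall fun t ht => hb t ht)
    refine h1.trans (le_of_eq ?_)
    rw [MeasureTheory.integral_const_mul, integral_Ioi_rpow_of_lt hr one_pos]
    rw [Real.one_rpow]
    have : -(s.re + 1) + 1 = - s.re := by ring
    rw [this]
    field_simp

private lemma swd1_G_diff (E : ℝ → ℂ) (hE : Measurable E) (K : ℝ)
    (hK : ∀ t, 1 ≤ t → ‖E t‖ ≤ K) (s : ℂ) (hs : 0 < s.re) :
    DifferentiableAt ℂ (swd1_G E) s := by
  have hK0 : 0 ≤ K := (norm_nonneg _).trans (hK 1 le_rfl)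
  set F : ℝ → ℂ := (Set.Ioi (1 : ℝ)).indicator E with hF
  have hFm : Measurable F := hE.indicator measurableSet_Ioi
  have hFb : ∀ t, ‖F t‖ ≤ K := by
    intro t
    rw [hF]
    by_cases ht : t ∈ Set.Ioi (1 : ℝ)
    · rw [Set.indicator_of_mem ht]
      exact hK t (le_of_lt ht)
    · rw [Set.indicator_of_notMem ht, norm_zero]
      exact hK0
  have hG : ∀ z : ℂ, swd1_G E z = mellin F (-z) := by
    intro z
    unfold swd1_G mellin
    have h1 : Set.Ioi (1 : ℝ) ⊆ Set.Ioi 0 := Set.Ioi_subset_Ioi zero_le_one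
    rw [← MeasureTheory.integral_indicator measurableSet_Ioi,
      ← MeasureTheory.integral_indicator measurableSet_Ioi]
    refine MeasureTheory.integral_congr_ae (Filter.Eventually.of_forall fun t => ?_)
    by_cases ht : t ∈ Set.Ioi (1 : ℝ)
    · rw [Set.indicator_of_mem ht, Set.indicator_of_mem (h1 ht), hF, Set.indicator_of_mem ht,
        smul_eq_mul, mul_comm]
      congr 2
      ring
    · rw [Set.indicator_of_notMem ht]
      by_cases ht0 : t ∈ Set.Ioi (0 : ℝ)
      · rw [Set.indicator_of_mem ht0, hF, Set.indicator_of_notMem ht, smul_zero]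
      · rw [Set.indicator_of_notMem ht0]
  have hfun : swd1_G E = fun z => mellin F (-z) := funext hG
  rw [hfun]
  have hloc : MeasureTheory.LocallyIntegrableOn F (Set.Ioi 0) := by
    have h := (MeasureTheory.memLp_top_of_bound (μ := MeasureTheory.volume)
      hFm.aestronglyMeasurable K (Filter.Eventually.of_forall hFb)).locallyIntegrable le_top
    exact h.locallyIntegrableOn _
  have htop : F =O[Filter.atTop] (fun t : ℝ => t ^ (-(0 : ℝ))) := by
    refine Asymptotics.IsBigO.of_bound K (Filter.Eventually.of_forall fun t => ?_)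
    simp only [neg_zero, Real.rpow_zero, norm_one, mul_one]
    exact hFb t
  have hbot : F =O[nhdsWithin 0 (Set.Ioi 0)] (fun t : ℝ => t ^ (-(-(s.re + 1)))) := by
    have : F =ᶠ[nhdsWithin 0 (Set.Ioi 0)] (fun _ => (0 : ℂ)) := by
      have h1 : Set.Iio (1 : ℝ) ∈ nhdsWithin (0 : ℝ) (Set.Ioi 0) :=
        mem_nhdsWithin_of_mem_nhds (Iio_mem_nhds one_pos)
      filter_upwards [h1] with t ht
      rw [hF, Set.indicator_of_notMem]
      simp only [Set.mem_Ioi, not_lt]
      exact le_of_lt ht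
    exact this.trans_isBigO (Asymptotics.isBigO_zero _ _)
  have hd : DifferentiableAt ℂ (mellin F) (-s) := by
    refine mellin_differentiableAt_of_isBigO_rpow hloc htop ?_ hbot ?_
    · simp only [Complex.neg_re]; linarith
    · simp only [Complex.neg_re]; linarith
  exact hd.comp s differentiableAt_id.neg

/-! ### the L-function -/

private noncomputable def swd1_S (q : ℕ) (χ : DirichletCharacter ℂ q) : ℕ → ℂ :=
  fun n => χ (n : ZMod q)

private lemma swd1_S_per (q : ℕ) (χ : DirichletCharacter ℂ q) (k : ℕ) :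
    swd1_S q χ (k + q) = swd1_S q χ k := by
  unfold swd1_S
  push_cast
  rw [ZMod.natCast_self, add_zero]

private lemma swd1_S_norm (q : ℕ) (χ : DirichletCharacter ℂ q) (k : ℕ) :
    ‖swd1_S q χ k‖ ≤ 1 := by
  unfold swd1_S
  exact χ.norm_le_one _

private lemma swd1_rep (q : ℕ) [NeZero q] (χ : DirichletCharacter ℂ q) (s : ℂ) (hs : 1 < s.re) :
    DirichletCharacter.LFunction χ s
      = swd1_mean q (swd1_S q χ) * s / (s - 1) + s * swd1_G (swd1_E q (swd1_S q χ)) s := by
  have hq : 0 < q := Nat.pos_of_ne_zero (NeZero.ne q)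
  rw [DirichletCharacter.LFunction_eq_LSeries χ hs]
  have h0 : (0 : ℝ) < s.re := by linarith
  have hs1 : s - 1 ≠ 0 := by
    intro h
    have := congrArg Complex.re h
    simp at this
    linarith
  have hO : (fun n : ℕ => ∑ k ∈ Icc 1 n, swd1_S q χ k) =O[Filter.atTop]
      fun n : ℕ => (n : ℝ) ^ (1 : ℝ) := by
    refine Asymptotics.IsBigO.of_bound 1 (Filter.Eventually.of_forall fun n => ?_)
    rw [Real.rpow_one, one_mul, Real.norm_natCast]
    calc ‖∑ k ∈ Icc 1 n, swd1_S q χ k‖ ≤ ∑ k ∈ Icc 1 n, ‖swd1_S q χ k‖ := norm_sum_le _ _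
      _ ≤ ∑ k ∈ Icc 1 n, (1 : ℝ) := Finset.sum_le_sum fun k _ => swd1_S_norm q χ k
      _ = n := by simp
  have hsum := DirichletCharacter.LSeriesSummable_of_one_lt_re χ hs
  have h := LSeries_eq_mul_integral (swd1_S q χ) zero_le_one hs hsum hO
  have e1 : (fun n : ℕ => χ (n : ZMod q)) = swd1_S q χ := rfl
  rw [e1, h]
  obtain ⟨hi, -⟩ := swd1_int (swd1_E q (swd1_S q χ)) (swd1_E_meas q _) (4 * q)
    (fun t ht => swd1_E_le q hq _ (swd1_S_per q χ) (swd1_S_norm q χ) t (by linarith)) s h0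
  have hre : (-s).re < -1 := by simp only [Complex.neg_re]; linarith
  have hi2 : MeasureTheory.IntegrableOn (fun t : ℝ => swd1_mean q (swd1_S q χ) * (t : ℂ) ^ (-s))
      (Set.Ioi 1) := (integrableOn_Ioi_cpow_of_lt hre one_pos).const_mul _
  have hsplit : (∫ t in Set.Ioi (1 : ℝ), (∑ k ∈ Icc 1 ⌊t⌋₊, swd1_S q χ k) * (t : ℂ) ^ (-(s + 1)))
      = ∫ t in Set.Ioi (1 : ℝ), (swd1_mean q (swd1_S q χ) * (t : ℂ) ^ (-s)
        + swd1_E q (swd1_S q χ) t * (t : ℂ) ^ (-(s + 1))) := by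
    refine MeasureTheory.setIntegral_congr_fun measurableSet_Ioi fun t ht => ?_
    have ht1 : (1 : ℝ) < t := ht
    have ht0 : (t : ℂ) ≠ 0 := by
      exact_mod_cast (by linarith : t ≠ 0)
    have e2 : (t : ℂ) ^ (-s) = t * (t : ℂ) ^ (-(s + 1)) := by
      have : (-s : ℂ) = 1 + (-(s + 1)) := by ring
      rw [this, Complex.cpow_add _ _ ht0, Complex.cpow_one]
    rw [e2]
    unfold swd1_E
    ring
  rw [hsplit, MeasureTheory.integral_add hi2 hi, MeasureTheory.integral_const_mul,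
    integral_Ioi_cpow_of_lt hre one_pos]
  unfold swd1_G
  rw [Complex.ofReal_one, Complex.one_cpow]
  have e3 : (-s + 1 : ℂ) = -(s - 1) := by ring
  rw [e3]
  have hs1' : -(s - 1) ≠ 0 := neg_ne_zero.mpr hs1
  field_simp

private lemma swd1_halfplane : IsPreconnected {z : ℂ | 0 < z.re} :=
  (convex_halfSpace_re_gt 0).isPreconnected

private lemma swd1_open : IsOpen {z : ℂ | 0 < z.re} :=
  isOpen_lt continuous_const Complex.continuous_re

private lemma swd1_eqon (f g : ℂ → ℂ) (hf : ∀ s : ℂ, 0 < s.re → DifferentiableAt ℂ f s)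
    (hg : ∀ s : ℂ, 0 < s.re → DifferentiableAt ℂ g s) (h : ∀ s : ℂ, 1 < s.re → f s = g s)
    (s : ℂ) (hs : 0 < s.re) : f s = g s := by
  have hf' : AnalyticOnNhd ℂ f {z : ℂ | 0 < z.re} :=
    DifferentiableOn.analyticOnNhd (fun z hz => (hf z hz).differentiableWithinAt) swd1_open
  have hg' : AnalyticOnNhd ℂ g {z : ℂ | 0 < z.re} :=
    DifferentiableOn.analyticOnNhd (fun z hz => (hg z hz).differentiableWithinAt) swd1_open
  have h2 : (2 : ℂ) ∈ {z : ℂ | 0 < z.re} := by simp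
  refine hf'.eqOn_of_preconnected_of_eventuallyEq hg' swd1_halfplane h2 ?_ hs
  have : {z : ℂ | 1 < z.re} ∈ nhds (2 : ℂ) :=
    (isOpen_lt continuous_const Complex.continuous_re).mem_nhds (by simp)
  filter_upwards [this] with z hz
  exact h z hz

private lemma swd1_mean_zero (q : ℕ) [NeZero q] (χ : DirichletCharacter ℂ q) (hχ : χ ≠ 1) :
    swd1_mean q (swd1_S q χ) = 0 := by
  unfold swd1_mean swd1_S
  have h : ∑ k ∈ range q, χ ((k : ℕ) : ZMod q) = ∑ a : ZMod q, χ a := by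
    refine Finset.sum_bij' (fun k _ => ((k : ℕ) : ZMod q)) (fun a _ => a.val) ?_ ?_ ?_ ?_ ?_
    · intro k _; exact mem_univ _
    · intro a _; exact mem_range.mpr (ZMod.val_lt a)
    · intro k hk; exact ZMod.val_cast_of_lt (mem_range.mp hk)
    · intro a _; exact ZMod.natCast_zmod_val a
    · intro k _; rfl
  rw [h, MulChar.sum_eq_zero_of_ne_one hχ, zero_div]

theorem LF_le : ∃ C : ℝ, 1 ≤ C ∧ ∀ (q : ℕ) [NeZero q] (χ : DirichletCharacter ℂ q), χ ≠ 1 →
    ∀ s : ℂ, 1 / 2 ≤ s.re → ‖DirichletCharacter.LFunction χ s‖ ≤ C * q * ‖s‖ := by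
  refine ⟨8, by norm_num, ?_⟩
  intro q _ χ hχ s hs
  have hq : 0 < q := Nat.pos_of_ne_zero (NeZero.ne q)
  have hb : ∀ t : ℝ, 1 ≤ t → ‖swd1_E q (swd1_S q χ) t‖ ≤ 4 * q := fun t ht =>
    swd1_E_le q hq _ (swd1_S_per q χ) (swd1_S_norm q χ) t (by linarith)
  have hs0 : 0 < s.re := by linarith
  have h := swd1_eqon (DirichletCharacter.LFunction χ)
    (fun z => z * swd1_G (swd1_E q (swd1_S q χ)) z)
    (fun z _ => (DirichletCharacter.differentiable_LFunction hχ) z)
    (fun z hz => differentiableAt_id.mul (swd1_G_diff _ (swd1_E_meas q _) (4 * q) hb z hz))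
    (fun z hz => by
      rw [swd1_rep q χ z hz, swd1_mean_zero q χ hχ, zero_mul, zero_div, zero_add]) s hs0
  rw [h]
  simp only [norm_mul]
  have hG := (swd1_int _ (swd1_E_meas q (swd1_S q χ)) (4 * q) hb s hs0).2
  have h4 : (4 * q : ℝ) / s.re ≤ 8 * q := by
    rw [div_le_iff₀ hs0]
    have : (0 : ℝ) ≤ q := Nat.cast_nonneg q
    nlinarith
  calc ‖s‖ * ‖swd1_G (swd1_E q (swd1_S q χ)) s‖ ≤ ‖s‖ * (8 * q) :=
        mul_le_mul_of_nonneg_left (hG.trans h4) (norm_nonneg _)
    _ = 8 * q * ‖s‖ := by ring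

theorem LF1_le : ∃ C : ℝ, 1 ≤ C ∧ ∀ (q : ℕ) [NeZero q], ∀ s : ℂ, 1 / 2 ≤ s.re → s ≠ 1 →
    ‖(s - 1) * DirichletCharacter.LFunction (1 : DirichletCharacter ℂ q) s‖
      ≤ C * q * (1 + ‖s‖) ^ 2 := by
  refine ⟨9, by norm_num, ?_⟩
  intro q _ s hs hs1
  have hq : 0 < q := Nat.pos_of_ne_zero (NeZero.ne q)
  have hq1 : (1 : ℝ) ≤ q := by exact_mod_cast hq
  set f := swd1_S q (1 : DirichletCharacter ℂ q) with hf
  have hb : ∀ t : ℝ, 1 ≤ t → ‖swd1_E q f t‖ ≤ 4 * q := fun t ht =>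
    swd1_E_le q hq _ (swd1_S_per q _) (swd1_S_norm q _) t (by linarith)
  have hs0 : 0 < s.re := by linarith
  have h := swd1_eqon (DirichletCharacter.LFunctionTrivChar₁ q)
    (fun z => swd1_mean q f * z + (z - 1) * (z * swd1_G (swd1_E q f) z))
    (fun z _ => (DirichletCharacter.differentiable_LFunctionTrivChar₁ q) z)
    (fun z hz => (differentiableAt_id.const_mul _).add ((differentiableAt_id.sub_const 1).mul
      (differentiableAt_id.mul (swd1_G_diff _ (swd1_E_meas q _) (4 * q) hb z hz))))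
    (fun z hz => by
      have hz1 : z ≠ 1 := by
        rintro rfl
        simp at hz
      have hz1' : z - 1 ≠ 0 := sub_ne_zero.mpr hz1
      rw [DirichletCharacter.LFunctionTrivChar₁, Function.update_of_ne hz1]
      show (z - 1) * DirichletCharacter.LFunction (1 : DirichletCharacter ℂ q) z = _
      rw [swd1_rep q _ z hz]
      simp only [← hf]
      field_simp) s hs0
  rw [DirichletCharacter.LFunctionTrivChar₁, Function.update_of_ne hs1] at h
  have h' : (s - 1) * DirichletCharacter.LFunction (1 : DirichletCharacter ℂ q) s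
      = swd1_mean q f * s + (s - 1) * (s * swd1_G (swd1_E q f) s) := h
  rw [h']
  have hG := (swd1_int _ (swd1_E_meas q f) (4 * q) hb s hs0).2
  have h4 : (4 * q : ℝ) / s.re ≤ 8 * q := by
    rw [div_le_iff₀ hs0]
    nlinarith
  have hm := swd1_mean_le q hq f (swd1_S_norm q _)
  have hns := norm_nonneg s
  have hs1n : ‖s - 1‖ ≤ 1 + ‖s‖ := by
    calc ‖s - 1‖ ≤ ‖s‖ + ‖(1 : ℂ)‖ := norm_sub_le _ _
      _ = 1 + ‖s‖ := by rw [norm_one, add_comm]
  have hA : ‖(s - 1) * (s * swd1_G (swd1_E q f) s)‖ ≤ (1 + ‖s‖) * (‖s‖ * (8 * q)) := by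
    rw [norm_mul, norm_mul]
    exact mul_le_mul hs1n (mul_le_mul_of_nonneg_left (hG.trans h4) hns)
      (mul_nonneg hns (norm_nonneg _)) (by linarith)
  have hB : ‖swd1_mean q f * s‖ ≤ 1 * ‖s‖ := by
    rw [norm_mul]
    exact mul_le_mul_of_nonneg_right hm hns
  calc ‖swd1_mean q f * s + (s - 1) * (s * swd1_G (swd1_E q f) s)‖
      ≤ 1 * ‖s‖ + (1 + ‖s‖) * (‖s‖ * (8 * q)) := (norm_add_le _ _).trans (add_le_add hB hA)
    _ ≤ 9 * q * (1 + ‖s‖) ^ 2 := by nlinarith [mul_nonneg hns hns, mul_nonneg (sub_nonneg.mpr hq1) hns]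

end Pool.Agent.H91.EHA

end

section

/-!
# Estermann's lemma

`χ1, χ2` real characters mod `N` (possibly imprimitive), `F(s) = L(s,χ0)L(s,χ1)L(s,χ2)L(s,χ1χ2)`,
`λ = (φ(N)/N) L(1,χ1)L(1,χ2)L(1,χ1χ2)`.
(1) For `Re s > 1`, `F(s) = ∑ a(n) n^{-s}` with `a(n) ≥ 0`, `a(1) = 1`.  (For instance
`a = g * (χ2 g)`, `g = χ0 * χ1` (Dirichlet convolution), multiplicative; at prime powers the local factor is
`1/((1-z)(1-χ1(p)z)(1-χ2(p)z)(1-χ1χ2(p)z))`, `χ1(p),χ2(p) ∈ {±1}` for `p ∤ N` (equal to `1` for `p ∣ N`):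
`(1-z)^{-4}` or `(1-z²)^{-2}`.  Or: `log F` has nonnegative coefficients
`Λ(n)/log n (1+χ1(n))(1+χ2(n))` for `(n,N)=1`; whatever is easiest.  Mathlib: `DirichletCharacter.zetaMul`,
`Mathlib/NumberTheory/LSeries/Positivity.lean`.)
(2) `F(s) - λ/(s-1)` is analytic in `Re s ≥ 1/2` (removable singularity,
`DirichletCharacter.LFunctionTrivChar_residue_one`).  Its Taylor series at `2`:
`F(s) - λ/(s-1) = ∑ (b_m - λ)(2-s)^m` for `|s-2| < 3/2`, `b_m = (-1)^m F^{(m)}(2)/m! ≥ 0`, `b_0 ≥ 1`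
(since `1/(s-1) = ∑ (2-s)^m` for `|s-2|<1`).  By Cauchy and SwD1 `|b_m - λ| ≤ C N^4 (2/3)^m`.
(3) For `7/8 < s < 1`, `(2-s) ≤ 9/8`: tail `∑_{m≥M} |b_m-λ|(2-s)^m ≤ 4 C N^4 (3/4)^M ≤ 1/2` for
`M = ⌈(4 log N + C')/log(4/3)⌉`.  Hence `F(s) ≥ λ/(s-1) + b_0 - λ ∑_{m<M}(2-s)^m - 1/2
≥ 1/2 - λ (2-s)^M/(1-s)`, and `(2-s)^M ≤ e^{M(1-s)} ≤ C N^{14(1-s)}`.
(`λ` is real and `≥ 0`: each `L(1,χ)` is a limit of values at real `s>1`, which are `> 0`.)
-/

set_option autoImplicit false

namespace Pool.Agent.H91.EHA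

open Finset ArithmeticFunction DirichletCharacter
open scoped ComplexOrder

/-- the arithmetic function of a character -/
private noncomputable def swd2Af {N : ℕ} (χ : DirichletCharacter ℂ N) : ArithmeticFunction ℂ :=
  toArithmeticFunction (χ ·)

private theorem swd2_conv_nonneg {f g : ArithmeticFunction ℂ} {p : ℕ} (hp : p.Prime)
    (hf : ∀ k, 0 ≤ f (p ^ k)) (hg : ∀ k, 0 ≤ g (p ^ k)) (k : ℕ) : 0 ≤ (f * g) (p ^ k) := by
  rw [ArithmeticFunction.mul_apply]
  apply Finset.sum_nonneg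
  intro x hx
  rw [Nat.mem_divisorsAntidiagonal] at hx
  obtain ⟨i, _, hi⟩ := (Nat.dvd_prime_pow hp).mp (Dvd.intro _ hx.1)
  obtain ⟨j, _, hj⟩ := (Nat.dvd_prime_pow hp).mp (Dvd.intro_left _ hx.1)
  rw [hi, hj]
  exact mul_nonneg (hf i) (hg j)

private theorem swd2_geom_nonneg {f g : ArithmeticFunction ℂ} {p : ℕ} (hp : p.Prime) {e : ℂ}
    (he : e = 1 ∨ e = -1)
    (hf : ∀ k, f (p ^ k) = 1) (hg : ∀ k, g (p ^ k) = e ^ k) (k : ℕ) : 0 ≤ (f * g) (p ^ k) := by
  have h1 : (f * g) (p ^ k) = ∑ i ∈ range (k + 1), e ^ i := by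
    rw [ArithmeticFunction.mul_apply]
    have h2 : ∑ x ∈ (p ^ k).divisorsAntidiagonal, f x.1 * g x.2 =
        ∑ x ∈ (p ^ k).divisorsAntidiagonal, g x.2 := by
      apply Finset.sum_congr rfl
      intro x hx
      rw [Nat.mem_divisorsAntidiagonal] at hx
      obtain ⟨i, _, hi⟩ := (Nat.dvd_prime_pow hp).mp (Dvd.intro _ hx.1)
      rw [hi, hf, one_mul]
    rw [h2, Nat.sum_divisorsAntidiagonal' (f := fun _ y => g y), Nat.sum_divisors_prime_pow hp]
    exact Finset.sum_congr rfl fun i _ => hg i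
  rw [h1]
  rcases he with rfl | rfl
  · apply Finset.sum_nonneg
    intro i _
    rw [one_pow]
    exact zero_le_one
  · rw [neg_one_geom_sum]
    split_ifs
    exacts [le_rfl, zero_le_one]

private theorem swd2Af_pow {N : ℕ} (χ : DirichletCharacter ℂ N) {p : ℕ} (hp : p.Prime) (k : ℕ) :
    swd2Af χ (p ^ k) = χ p ^ k := by
  unfold swd2Af
  rw [← apply_eq_toArithmeticFunction_apply χ (pow_ne_zero k hp.ne_zero)]
  rw [Nat.cast_pow, map_pow]

/-- the coefficients -/
private noncomputable def swd2A {N : ℕ} (χ1 χ2 : DirichletCharacter ℂ N) : ArithmeticFunction ℂ :=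
  (swd2Af (1 : DirichletCharacter ℂ N) * swd2Af χ1) * (swd2Af χ2 * swd2Af (χ1 * χ2))

private theorem swd2A_mult {N : ℕ} (χ1 χ2 : DirichletCharacter ℂ N) :
    (swd2A χ1 χ2).IsMultiplicative :=
  ((isMultiplicative_toArithmeticFunction _).mul (isMultiplicative_toArithmeticFunction _)).mul
    ((isMultiplicative_toArithmeticFunction _).mul (isMultiplicative_toArithmeticFunction _))

private theorem swd2A_pow_nonneg {N : ℕ} {χ1 χ2 : DirichletCharacter ℂ N} (h1 : χ1 ^ 2 = 1)
    (h2 : χ2 ^ 2 = 1) {p : ℕ} (hp : p.Prime) (k : ℕ) : 0 ≤ swd2A χ1 χ2 (p ^ k) := by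
  have hmul : (χ1 * χ2) p = χ1 p * χ2 p := MulChar.mul_apply χ1 χ2 _
  by_cases hu : IsUnit (p : ZMod N)
  · have h0 : (1 : DirichletCharacter ℂ N) p = 1 := MulChar.one_apply hu
    have q1 : χ1 p = 1 ∨ χ1 p = -1 := by
      have h : χ1 p * χ1 p = 1 := by
        rw [← MulChar.mul_apply, ← pow_two, h1, MulChar.one_apply hu]
      exact mul_self_eq_one_iff.mp h
    have q2 : χ2 p = 1 ∨ χ2 p = -1 := by
      have h : χ2 p * χ2 p = 1 := by
        rw [← MulChar.mul_apply, ← pow_two, h2, MulChar.one_apply hu]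
      exact mul_self_eq_one_iff.mp h
    have f0 : ∀ k, swd2Af (1 : DirichletCharacter ℂ N) (p ^ k) = 1 := fun k => by
      rw [swd2Af_pow _ hp, h0, one_pow]
    rcases q2 with e2 | e2
    · -- `χ2 p = 1`
      have f2 : ∀ k, swd2Af χ2 (p ^ k) = 1 := fun k => by rw [swd2Af_pow _ hp, e2, one_pow]
      exact swd2_conv_nonneg hp (swd2_geom_nonneg hp q1 f0 (fun k => swd2Af_pow _ hp k))
        (swd2_geom_nonneg hp q1 f2 (fun k => by rw [swd2Af_pow _ hp, hmul, e2, mul_one])) k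
    · rcases q1 with e1 | e1
      · -- `χ1 p = 1`
        have f1 : ∀ k, swd2Af χ1 (p ^ k) = 1 := fun k => by rw [swd2Af_pow _ hp, e1, one_pow]
        have hre : swd2A χ1 χ2 = (swd2Af (1 : DirichletCharacter ℂ N) * swd2Af χ2) * (swd2Af χ1 * swd2Af (χ1 * χ2)) := by
          unfold swd2A; ring
        rw [hre]
        exact swd2_conv_nonneg hp (swd2_geom_nonneg hp (Or.inr rfl) f0
          (fun k => by rw [swd2Af_pow _ hp, e2]))
          (swd2_geom_nonneg hp (Or.inr rfl) f1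
            (fun k => by rw [swd2Af_pow _ hp, hmul, e1, e2, one_mul])) k
      · have f3 : ∀ k, swd2Af (χ1 * χ2) (p ^ k) = 1 := fun k => by
          rw [swd2Af_pow _ hp, hmul, e1, e2]; norm_num
        have hre : swd2A χ1 χ2 = (swd2Af (1 : DirichletCharacter ℂ N) * swd2Af χ1) * (swd2Af (χ1 * χ2) * swd2Af χ2) := by
          unfold swd2A; ring
        rw [hre]
        exact swd2_conv_nonneg hp (swd2_geom_nonneg hp (Or.inr rfl) f0
          (fun k => by rw [swd2Af_pow _ hp, e1]))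
          (swd2_geom_nonneg hp (Or.inr rfl) f3 (fun k => by rw [swd2Af_pow _ hp, e2])) k
  · have hz : ∀ (χ : DirichletCharacter ℂ N) (k : ℕ), 0 ≤ swd2Af χ (p ^ k) := by
      intro χ k
      rw [swd2Af_pow _ hp, MulChar.map_nonunit χ hu]
      exact pow_nonneg le_rfl k
    exact swd2_conv_nonneg hp (swd2_conv_nonneg hp (hz _) (hz _))
      (swd2_conv_nonneg hp (hz _) (hz _)) k

private theorem swd2A_nonneg {N : ℕ} {χ1 χ2 : DirichletCharacter ℂ N} (h1 : χ1 ^ 2 = 1)
    (h2 : χ2 ^ 2 = 1) (n : ℕ) : 0 ≤ swd2A χ1 χ2 n := by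
  rcases eq_or_ne n 0 with rfl | hn
  · simp only [ArithmeticFunction.map_zero, le_refl]
  · rw [(swd2A_mult χ1 χ2).multiplicative_factorization _ hn]
    exact Finset.prod_nonneg
        fun p hp ↦ swd2A_pow_nonneg h1 h2 (Nat.prime_of_mem_primeFactors hp) _

private theorem swd2_summable {N : ℕ} [NeZero N] (χ : DirichletCharacter ℂ N) {s : ℂ}
    (hs : 1 < s.re) : LSeriesSummable (swd2Af χ) s := by
  refine (LSeriesSummable_congr _ fun h ↦ (χ.apply_eq_toArithmeticFunction_apply h).symm).mpr <|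
      ZMod.LSeriesSummable_of_one_lt_re χ hs

private theorem swd2_LSeries {N : ℕ} [NeZero N] (χ : DirichletCharacter ℂ N) {s : ℂ}
    (hs : 1 < s.re) : LSeries (swd2Af χ) s = LFunction χ s := by
  rw [LFunction_eq_LSeries χ hs]
  exact (LSeries_congr χ.apply_eq_toArithmeticFunction_apply s).symm

private theorem swd2A_summable {N : ℕ} [NeZero N] (χ1 χ2 : DirichletCharacter ℂ N) {s : ℂ}
    (hs : 1 < s.re) : LSeriesSummable (swd2A χ1 χ2) s := by
  have h1 : LSeriesSummable (fun n => (swd2Af (1 : DirichletCharacter ℂ N) * swd2Af χ1) n) s :=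
    ArithmeticFunction.LSeriesSummable_mul (swd2_summable 1 hs) (swd2_summable χ1 hs)
  have h2 : LSeriesSummable (fun n => (swd2Af χ2 * swd2Af (χ1 * χ2)) n) s :=
    ArithmeticFunction.LSeriesSummable_mul (swd2_summable χ2 hs) (swd2_summable (χ1 * χ2) hs)
  exact ArithmeticFunction.LSeriesSummable_mul h1 h2

private theorem swd2A_LSeries {N : ℕ} [NeZero N] (χ1 χ2 : DirichletCharacter ℂ N) {s : ℂ}
    (hs : 1 < s.re) : LSeries (swd2A χ1 χ2) s =
      LFunction (1 : DirichletCharacter ℂ N) s * LFunction χ1 s * LFunction χ2 s *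
          LFunction (χ1 * χ2) s := by
  have e1 : LSeries (swd2A χ1 χ2) s =
      LSeries (fun n => (swd2Af (1 : DirichletCharacter ℂ N) * swd2Af χ1) n) s *
      LSeries (fun n => (swd2Af χ2 * swd2Af (χ1 * χ2)) n) s :=
    ArithmeticFunction.LSeries_mul'
      (ArithmeticFunction.LSeriesSummable_mul (swd2_summable 1 hs) (swd2_summable χ1 hs))
      (ArithmeticFunction.LSeriesSummable_mul (swd2_summable χ2 hs) (swd2_summable (χ1 * χ2) hs))
  have e2 : LSeries (fun n => (swd2Af (1 : DirichletCharacter ℂ N) * swd2Af χ1) n) s =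
      LSeries (swd2Af (1 : DirichletCharacter ℂ N)) s * LSeries (swd2Af χ1) s :=
    ArithmeticFunction.LSeries_mul' (swd2_summable 1 hs) (swd2_summable χ1 hs)
  have e3 : LSeries (fun n => (swd2Af χ2 * swd2Af (χ1 * χ2)) n) s =
      LSeries (swd2Af χ2) s * LSeries (swd2Af (χ1 * χ2)) s :=
    ArithmeticFunction.LSeries_mul' (swd2_summable χ2 hs) (swd2_summable (χ1 * χ2) hs)
  rw [e1, e2, e3, swd2_LSeries _ hs, swd2_LSeries _ hs, swd2_LSeries _ hs, swd2_LSeries _ hs]
  ring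

/-- the purely real part of the argument -/
private theorem swd2_real {r : ℕ → ℝ} {l B t S : ℝ} (hB : 0 ≤ B) (ht1 : 1 < t) (ht2 : t < 9 / 8)
    (hS : HasSum (fun m => r m * t ^ m) S) (hr : ∀ m, |r m| ≤ B * (2 / 3) ^ m)
    (h0 : ∀ m, 0 ≤ r m + l) (h1 : 1 ≤ r 0 + l) {M : ℕ} (hM : 1 ≤ M)
    (hBM : B * 4 * (3 / 4) ^ M ≤ 1 / 2) :
    1 / 2 - l * (t ^ M / (t - 1)) ≤ S - l / (t - 1) := by
  have hsplit := hS.summable.sum_add_tsum_nat_add M
  rw [hS.tsum_eq] at hsplit
  have ht0 : 0 < t := by linarith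
  have htail : |∑' i, r (i + M) * t ^ (i + M)| ≤ 1 / 2 := by
    have hg : HasSum (fun i : ℕ => B * (3 / 4) ^ M * (3 / 4) ^ i) (B * (3 / 4) ^ M * 4) := by
      have h := (hasSum_geometric_of_lt_one (r := (3 / 4 : ℝ)) (by norm_num)
        (by norm_num)).mul_left (B * (3 / 4) ^ M)
      norm_num at h
      norm_num
      exact h
    have hb : ∀ i, ‖r (i + M) * t ^ (i + M)‖ ≤ B * (3 / 4) ^ M * (3 / 4) ^ i := by
      intro i
      rw [Real.norm_eq_abs, abs_mul, abs_of_nonneg (pow_nonneg ht0.le _)]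
      have e1 : t ^ (i + M) ≤ (9 / 8) ^ (i + M) := pow_le_pow_left₀ ht0.le ht2.le _
      calc |r (i + M)| * t ^ (i + M) ≤ B * (2 / 3) ^ (i + M) * (9 / 8) ^ (i + M) :=
            mul_le_mul (hr _) e1 (pow_nonneg ht0.le _) (by positivity)
        _ = B * (3 / 4) ^ M * (3 / 4) ^ i := by
            rw [mul_assoc, ← mul_pow]
            norm_num
            rw [pow_add]
            ring
    have h := tsum_of_norm_bounded hg hb
    rw [Real.norm_eq_abs] at h
    linarith
  have hgeom : ∑ m ∈ Finset.range M, t ^ m = (t ^ M - 1) / (t - 1) := geom_sum_eq ht1.ne' M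
  have hfin : 1 - l * ((t ^ M - 1) / (t - 1)) ≤ ∑ m ∈ Finset.range M, r m * t ^ m := by
    rw [← hgeom]
    have e1 : ∑ m ∈ Finset.range M, r m * t ^ m + l * ∑ m ∈ Finset.range M, t ^ m =
        ∑ m ∈ Finset.range M, (r m + l) * t ^ m := by
      rw [Finset.mul_sum, ← Finset.sum_add_distrib]
      exact Finset.sum_congr rfl fun m _ => by ring
    have e2 : (r 0 + l) * t ^ 0 ≤ ∑ m ∈ Finset.range M, (r m + l) * t ^ m :=
      Finset.single_le_sum (f := fun m => (r m + l) * t ^ m)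
        (fun m _ => mul_nonneg (h0 m) (pow_nonneg ht0.le m)) (Finset.mem_range.mpr (by omega))
    rw [pow_zero, mul_one] at e2
    linarith
  have hlow := (abs_le.mp htail).1
  have htt : 0 < t - 1 := by linarith
  have e3 : l * (t ^ M / (t - 1)) = l * ((t ^ M - 1) / (t - 1)) + l / (t - 1) := by
    field_simp
    ring
  rw [e3]
  linarith

private theorem swd2_totient (N : ℕ) [NeZero N] :
    (∏ p ∈ N.primeFactors, (1 - (p : ℂ)⁻¹)) = (((N.totient : ℝ) / N : ℝ) : ℂ) := by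
  have h := Nat.totient_eq_mul_prod_factors N
  have hN : (N : ℂ) ≠ 0 := by exact_mod_cast NeZero.ne N
  have h2 : ((N.totient : ℚ) : ℂ) = ((N * ∏ p ∈ N.primeFactors, (1 - (p : ℚ)⁻¹) : ℚ) : ℂ) := by
    rw [h]
  push_cast at h2
  push_cast
  rw [h2]
  field_simp

private theorem swd2_iter_inv (m : ℕ) :
    iteratedDeriv m (fun s : ℂ => (s - 1)⁻¹) 2 = (-1) ^ m * (m.factorial : ℂ) := by
  have h := congrFun (iter_deriv_inv_linear_sub (𝕜 := ℂ) m 1 1) 2
  rw [iteratedDeriv_eq_iterate]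
  simp only [one_mul, one_pow, mul_one] at h
  rw [h]
  norm_num

private theorem swd2_ev {N : ℕ} [NeZero N] (χ1 χ2 : DirichletCharacter ℂ N) (s : ℂ) (hs : s ≠ 1) :
    DirichletCharacter.LFunctionTrivChar₁ N s * DirichletCharacter.LFunction χ1 s *
      DirichletCharacter.LFunction χ2 s * DirichletCharacter.LFunction (χ1 * χ2) s =
    (s - 1) * (DirichletCharacter.LFunction (1 : DirichletCharacter ℂ N) s *
      DirichletCharacter.LFunction χ1 s * DirichletCharacter.LFunction χ2 s *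
      DirichletCharacter.LFunction (χ1 * χ2) s) := by
  rw [show DirichletCharacter.LFunctionTrivChar₁ N s =
    (s - 1) * DirichletCharacter.LFunctionTrivChar N s from Function.update_of_ne hs ..]
  ring

private theorem swd2_core {C0 C1 : ℝ} (hC0 : 1 ≤ C0) (hC1 : 1 ≤ C1) {N : ℕ} [NeZero N]
    (hL : ∀ χ : DirichletCharacter ℂ N, χ ≠ 1 →
      ∀ s : ℂ, 1 / 2 ≤ s.re → ‖DirichletCharacter.LFunction χ s‖ ≤ C1 * N * ‖s‖)
    (hL0 : ∀ s : ℂ, 1 / 2 ≤ s.re → s ≠ 1 →
      ‖(s - 1) * DirichletCharacter.LFunction (1 : DirichletCharacter ℂ N) s‖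
      ≤ C0 * N * (1 + ‖s‖) ^ 2)
    (χ1 χ2 : DirichletCharacter ℂ N) (h1 : χ1 ^ 2 = 1) (h2 : χ2 ^ 2 = 1) (n1 : χ1 ≠ 1)
    (n2 : χ2 ≠ 1) (n3 : χ1 * χ2 ≠ 1) {s : ℝ} (hs1 : 7 / 8 < s) (hs2 : s < 1) {M : ℕ} (hM : 1 ≤ M)
    (hBM : 2000 * C0 * C1 ^ 3 * (N : ℝ) ^ 4 * 4 * (3 / 4) ^ M ≤ 1 / 2) :
    0 ≤ (((N.totient : ℝ) / N) *
        (DirichletCharacter.LFunction χ1 1 * DirichletCharacter.LFunction χ2 1 *
          DirichletCharacter.LFunction (χ1 * χ2) 1).re) ∧
    1 / 2 - (((N.totient : ℝ) / N) *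
        (DirichletCharacter.LFunction χ1 1 * DirichletCharacter.LFunction χ2 1 *
          DirichletCharacter.LFunction (χ1 * χ2) 1).re) * ((2 - s) ^ M / (1 - s))
      ≤ (DirichletCharacter.LFunction (1 : DirichletCharacter ℂ N) s *
          DirichletCharacter.LFunction χ1 s * DirichletCharacter.LFunction χ2 s *
          DirichletCharacter.LFunction (χ1 * χ2) s).re := by
  set W : ℂ → ℂ := fun s => DirichletCharacter.LFunctionTrivChar₁ N s *
    DirichletCharacter.LFunction χ1 s * DirichletCharacter.LFunction χ2 s *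
      DirichletCharacter.LFunction (χ1 * χ2) s with hW
  set F : ℂ → ℂ := fun s => DirichletCharacter.LFunction (1 : DirichletCharacter ℂ N) s *
    DirichletCharacter.LFunction χ1 s * DirichletCharacter.LFunction χ2 s *
      DirichletCharacter.LFunction (χ1 * χ2) s with hF
  have hN1 : (1 : ℝ) ≤ (N : ℝ) := by exact_mod_cast NeZero.one_le
  have hWd : Differentiable ℂ W :=
    (((DirichletCharacter.differentiable_LFunctionTrivChar₁ N).mul
      (DirichletCharacter.differentiable_LFunction n1)).mul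
      (DirichletCharacter.differentiable_LFunction n2)).mul
      (DirichletCharacter.differentiable_LFunction n3)
  have hWF : ∀ s : ℂ, s ≠ 1 → W s = (s - 1) * F s := fun s hs => swd2_ev χ1 χ2 s hs
  set lam : ℂ := W 1 with hlam
  have hlam2 : lam = (((N.totient : ℝ) / N : ℝ) : ℂ) *
      (DirichletCharacter.LFunction χ1 1 * DirichletCharacter.LFunction χ2 1 *
          DirichletCharacter.LFunction (χ1 * χ2) 1) := by
    rw [hlam, hW, ← swd2_totient N]
    simp only [Function.update_self]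
    ring
  have hlre : lam.re = (((N.totient : ℝ) / N) *
        (DirichletCharacter.LFunction χ1 1 * DirichletCharacter.LFunction χ2 1 *
          DirichletCharacter.LFunction (χ1 * χ2) 1).re) := by
    rw [hlam2, Complex.re_ofReal_mul]
  rw [← hlre]
  -- the entire function `H`
  set H : ℂ → ℂ := dslope W 1 with hH
  have hHd : Differentiable ℂ H := by
    rw [← differentiableOn_univ, hH, Complex.differentiableOn_dslope Filter.univ_mem,
      differentiableOn_univ]
    exact hWd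
  have hHF : ∀ s : ℂ, s ≠ 1 → H s = F s - lam * (s - 1)⁻¹ := by
    intro s hs
    have hs' : s - 1 ≠ 0 := sub_ne_zero.mpr hs
    rw [hH, dslope_of_ne _ hs, slope_def_field, hWF s hs, ← hlam]
    field_simp
  -- bound on the circle
  set B : ℝ := 2000 * C0 * C1 ^ 3 * (N : ℝ) ^ 4 with hB
  have hB0 : 0 ≤ B := by positivity
  have hsph : ∀ z ∈ Metric.sphere (2 : ℂ) (3 / 2), ‖H z‖ ≤ B := by
    intro z hz
    rw [mem_sphere_iff_norm] at hz
    have hre : |z.re - 2| ≤ 3 / 2 := by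
      have h := Complex.abs_re_le_norm (z - 2)
      rw [hz] at h
      simpa using h
    have hre1 : 1 / 2 ≤ z.re := by have := (abs_le.mp hre).1; linarith
    have hzn : ‖z‖ ≤ 7 / 2 := by
      have h := norm_add_le (z - 2) 2
      rw [hz, sub_add_cancel, Complex.norm_ofNat] at h
      linarith
    have hz1 : 1 / 2 ≤ ‖z - 1‖ := by
      have h := norm_sub_norm_le (z - 2) (-1)
      rw [hz, norm_neg, norm_one] at h
      have e : z - 2 - -1 = z - 1 := by ring
      rw [e] at h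
      linarith
    have hzne : z ≠ 1 := by
      rintro rfl
      norm_num at hz1
    have hz1' : 0 < ‖z - 1‖ := by linarith only [hz1]
    have e0 : ‖(z - 1) * DirichletCharacter.LFunction (1 : DirichletCharacter ℂ N) z‖ ≤
        C0 * N * (9 / 2) ^ 2 := by
      refine (hL0 z hre1 hzne).trans ?_
      apply mul_le_mul_of_nonneg_left _ (by positivity)
      apply pow_le_pow_left₀ (by positivity)
      linarith only [hzn]
    have e1 : ∀ χ : DirichletCharacter ℂ N, χ ≠ 1 →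
        ‖DirichletCharacter.LFunction χ z‖ ≤ C1 * N * (7 / 2) := by
      intro χ hχ
      refine (hL χ hχ z hre1).trans ?_
      apply mul_le_mul_of_nonneg_left hzn (by positivity)
    have e2 : ∀ χ : DirichletCharacter ℂ N, χ ≠ 1 →
        ‖DirichletCharacter.LFunction χ 1‖ ≤ C1 * N := by
      intro χ hχ
      have h := hL χ hχ 1 (by norm_num)
      rw [norm_one, mul_one] at h
      exact h
    have hWz : ‖W z‖ ≤ C0 * N * (9 / 2) ^ 2 * (C1 * N * (7 / 2)) * (C1 * N * (7 / 2)) *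
        (C1 * N * (7 / 2)) := by
      have e : W z = (z - 1) * DirichletCharacter.LFunction (1 : DirichletCharacter ℂ N) z *
        DirichletCharacter.LFunction χ1 z * DirichletCharacter.LFunction χ2 z *
          DirichletCharacter.LFunction (χ1 * χ2) z := by
        rw [hWF z hzne, hF]; ring
      rw [e, norm_mul, norm_mul, norm_mul]
      gcongr
      · exact e1 χ1 n1
      · exact e1 χ2 n2
      · exact e1 (χ1 * χ2) n3
    have hlamn : ‖lam‖ ≤ (C1 * N) * (C1 * N) * (C1 * N) := by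
      rw [hlam2, norm_mul, norm_mul, norm_mul]
      have et : ‖(((N.totient : ℝ) / N : ℝ) : ℂ)‖ ≤ 1 := by
        rw [Complex.norm_real, Real.norm_eq_abs, abs_of_nonneg (by positivity)]
        rw [div_le_one (by linarith only [hN1])]
        exact_mod_cast Nat.totient_le N
      calc _ ≤ 1 * ((C1 * N) * (C1 * N) * (C1 * N)) := by
            gcongr
            · exact e2 χ1 n1
            · exact e2 χ2 n2
            · exact e2 (χ1 * χ2) n3
        _ = _ := one_mul _
    rw [hH, dslope_of_ne _ hzne, slope_def_field, norm_div, div_le_iff₀ hz1', ← hlam]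
    have e3 : ‖W z - lam‖ ≤ ‖W z‖ + ‖lam‖ := norm_sub_le _ _
    have e4 : (C1 * N) * (C1 * N) * (C1 * N) ≤ C0 * C1 ^ 3 * (N : ℝ) ^ 4 := by
      have f1 : (1 : ℝ) ≤ C0 * N := by nlinarith only [hC0, hN1]
      have f2 : 0 ≤ (C1 * N) * (C1 * N) * (C1 * N) := by positivity
      have f3 : C0 * C1 ^ 3 * (N : ℝ) ^ 4 = (C1 * N) * (C1 * N) * (C1 * N) * (C0 * N) := by ring
      rw [f3]
      exact le_mul_of_one_le_right f2 f1
    have e5 : C0 * N * (9 / 2) ^ 2 * (C1 * N * (7 / 2)) * (C1 * N * (7 / 2)) *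
        (C1 * N * (7 / 2)) = 27783 / 32 * (C0 * C1 ^ 3 * (N : ℝ) ^ 4) := by ring
    have e6 : 0 ≤ C0 * C1 ^ 3 * (N : ℝ) ^ 4 := by positivity
    have e7 : B * (1 / 2) ≤ B * ‖z - 1‖ := mul_le_mul_of_nonneg_left hz1 hB0
    have e8 : B = 2000 * (C0 * C1 ^ 3 * (N : ℝ) ^ 4) := by rw [hB]; ring
    rw [e5] at hWz
    rw [e8] at e7 ⊢
    linarith only [hB0, hWz, hlamn, e3, e4, e7]
  -- derivatives at `2`
  have hder : ∀ m, ‖iteratedDeriv m H 2‖ ≤ m.factorial * B / (3 / 2) ^ m := fun m =>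
    Complex.norm_iteratedDeriv_le_of_forall_mem_sphere_norm_le m (by norm_num)
      hHd.diffContOnCl hsph
  have habs : LSeries.abscissaOfAbsConv (swd2A χ1 χ2) < ((2 : ℝ) : EReal) := by
    refine lt_of_le_of_lt (b := ((1 : ℝ) : EReal)) ?_ (by exact_mod_cast one_lt_two)
    exact LSeries.abscissaOfAbsConv_le_of_forall_lt_LSeriesSummable
      fun y hy => swd2A_summable χ1 χ2 (by simpa using hy)
  have hnonneg : ∀ m : ℕ, 0 ≤ (-1) ^ m * iteratedDeriv m (LSeries (swd2A χ1 χ2)) (2 : ℂ) := by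
    intro m
    have h := ArithmeticFunction.iteratedDeriv_LSeries_alternating (swd2A χ1 χ2)
      (swd2A_nonneg h1 h2) habs m
    simpa using h
  have hev : LSeries (swd2A χ1 χ2) =ᶠ[nhds (2 : ℂ)] fun z => H z + lam * (z - 1)⁻¹ := by
    have hopen : IsOpen {z : ℂ | 1 < z.re} := isOpen_lt continuous_const Complex.continuous_re
    filter_upwards [hopen.mem_nhds (show (2 : ℂ) ∈ {z : ℂ | 1 < z.re} by simp)] with z hz
    have hz' : z ≠ 1 := by
      rintro rfl
      simp at hz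
    rw [swd2A_LSeries χ1 χ2 hz, hHF z hz', hF]
    ring
  have hsm : ∀ m : ℕ, iteratedDeriv m (LSeries (swd2A χ1 χ2)) (2 : ℂ) =
      iteratedDeriv m H 2 + lam * ((-1) ^ m * (m.factorial : ℂ)) := by
    intro m
    rw [(hev.iteratedDeriv m).eq_of_nhds]
    have ha : ContDiffAt ℂ m H 2 := (hHd.contDiff).contDiffAt
    have hb' : ContDiffAt ℂ m (fun z : ℂ => (z - 1)⁻¹) 2 := by
      apply ContDiffAt.inv
      · exact contDiffAt_id.sub contDiffAt_const
      · norm_num
    have hb : ContDiffAt ℂ m (fun z : ℂ => lam * (z - 1)⁻¹) 2 := contDiffAt_const.mul hb'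
    rw [iteratedDeriv_fun_add ha hb, iteratedDeriv_const_mul_field, swd2_iter_inv]
  -- the real coefficients
  set r : ℕ → ℝ := fun m => ((-1) ^ m * iteratedDeriv m H 2).re / m.factorial with hr
  have hfac : ∀ m : ℕ, (0 : ℝ) < (m.factorial : ℝ) := fun m => by
    exact_mod_cast Nat.factorial_pos m
  have hrle : ∀ m, |r m| ≤ B * (2 / 3) ^ m := by
    intro m
    rw [hr]
    simp only
    rw [abs_div, abs_of_pos (hfac m), div_le_iff₀ (hfac m)]
    refine (Complex.abs_re_le_norm _).trans ?_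
    rw [norm_mul, norm_pow, norm_neg, norm_one, one_pow, one_mul]
    refine (hder m).trans (le_of_eq ?_)
    rw [div_eq_iff (by positivity)]
    have : ((2 : ℝ) / 3) ^ m * (3 / 2) ^ m = 1 := by
      rw [← mul_pow]; norm_num
    calc (m.factorial : ℝ) * B = B * m.factorial * 1 := by ring
      _ = B * m.factorial * (((2 : ℝ) / 3) ^ m * (3 / 2) ^ m) := by rw [this]
      _ = _ := by ring
  have hre_eq : ∀ m, ((-1) ^ m * iteratedDeriv m (LSeries (swd2A χ1 χ2)) (2 : ℂ)).re =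
      (r m + lam.re) * m.factorial := by
    intro m
    have e : (-1) ^ m * iteratedDeriv m (LSeries (swd2A χ1 χ2)) (2 : ℂ) =
        (-1) ^ m * iteratedDeriv m H 2 + ((m.factorial : ℝ) : ℂ) * lam := by
      rw [hsm m, mul_add]
      have : ((-1 : ℂ)) ^ m * (-1) ^ m = 1 := by
        rw [← mul_pow]; norm_num
      push_cast
      linear_combination (lam * (m.factorial : ℂ)) * this
    rw [e, Complex.add_re, Complex.re_ofReal_mul, hr]
    simp only
    have := (hfac m).ne'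
    field_simp
  have hr0 : ∀ m, 0 ≤ r m + lam.re := by
    intro m
    have h := (Complex.le_def.mp (hnonneg m)).1
    rw [hre_eq m, Complex.zero_re] at h
    exact nonneg_of_mul_nonneg_left h (hfac m)
  have hr1 : 1 ≤ r 0 + lam.re := by
    have h := hre_eq 0
    rw [pow_zero, one_mul, iteratedDeriv_zero, Nat.factorial_zero, Nat.cast_one, mul_one] at h
    rw [← h]
    have hsum : Summable (fun n => LSeries.term (swd2A χ1 χ2) 2 n) :=
      swd2A_summable χ1 χ2 (s := 2) (by norm_num)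
    have h3 := hsum.le_tsum 1 (fun n _ => by
      have := LSeries.term_nonneg (a := fun n => swd2A χ1 χ2 n) (n := n)
        (swd2A_nonneg h1 h2 n) 2
      simpa using this)
    have h4 : LSeries.term (swd2A χ1 χ2) 2 1 = 1 := by
      rw [LSeries.term_of_ne_zero one_ne_zero, (swd2A_mult χ1 χ2).map_one]
      simp
    rw [h4] at h3
    have h5 := (Complex.le_def.mp h3).1
    rw [Complex.one_re] at h5
    exact h5
  have hl0 : 0 ≤ lam.re := by
    by_contra hneg
    push Not at hneg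
    have ht : Filter.Tendsto (fun m : ℕ => B * (2 / 3 : ℝ) ^ m) Filter.atTop (nhds (B * 0)) :=
      (tendsto_pow_atTop_nhds_zero_of_lt_one (by norm_num) (by norm_num)).const_mul B
    rw [mul_zero] at ht
    obtain ⟨m, hm⟩ := (ht.eventually (gt_mem_nhds (show (0 : ℝ) < -lam.re by linarith))).exists
    have := hr0 m
    have h6 := (abs_le.mp (hrle m)).2
    linarith
  refine ⟨hl0, ?_⟩
  -- the Taylor series at real `s`
  have hsne : (s : ℂ) ≠ 1 := by
    intro h
    have : s = 1 := by exact_mod_cast h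
    linarith
  have hS : HasSum (fun m => r m * (2 - s) ^ m) (H s).re := by
    have h := Complex.hasSum_re (Complex.hasSum_taylorSeries_of_entire hHd 2 (s : ℂ))
    have hfun : (fun m => r m * (2 - s) ^ m) = fun m : ℕ =>
        (((m.factorial : ℂ))⁻¹ • ((s : ℂ) - 2) ^ m • iteratedDeriv m H 2).re := by
      funext m
      have e : (((m.factorial : ℂ))⁻¹ • ((s : ℂ) - 2) ^ m • iteratedDeriv m H 2) =
          (((m.factorial : ℝ)⁻¹ * (2 - s) ^ m : ℝ) : ℂ) * ((-1) ^ m * iteratedDeriv m H 2) := by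
        have e' : ((s : ℂ) - 2) ^ m = (-1) ^ m * (2 - (s : ℂ)) ^ m := by
          rw [← mul_pow]; congr 1; ring
        rw [smul_eq_mul, smul_eq_mul, e']
        push_cast
        ring
      rw [e, Complex.re_ofReal_mul, hr]
      simp only
      rw [div_eq_mul_inv]
      ring
    rw [hfun]
    exact h
  have hmain := swd2_real hB0 (t := 2 - s) (by linarith) (by linarith) hS hrle hr0 hr1 hM hBM
  have e9 : (2 : ℝ) - s - 1 = 1 - s := by ring
  rw [e9] at hmain
  refine hmain.trans (le_of_eq ?_)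
  have e10 : F s = H s + lam * ((s : ℂ) - 1)⁻¹ := by rw [hHF s hsne]; ring
  have e11 : ((s : ℂ) - 1)⁻¹ = (((s - 1)⁻¹ : ℝ) : ℂ) := by push_cast; ring
  show (H s).re - lam.re / (1 - s) = (F s).re
  rw [e10, e11, Complex.add_re, Complex.re_mul_ofReal]
  have e12 : (s - 1)⁻¹ = - (1 - s)⁻¹ := by
    rw [← inv_neg]; congr 1; ring
  rw [e12]
  ring

theorem estermann : ∃ C : ℝ, 1 ≤ C ∧ ∀ (N : ℕ) [NeZero N] (χ1 χ2 : DirichletCharacter ℂ N),
    χ1 ^ 2 = 1 → χ2 ^ 2 = 1 → χ1 ≠ 1 → χ2 ≠ 1 → χ1 * χ2 ≠ 1 → ∀ s : ℝ, 7 / 8 < s → s < 1 →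
    1 / 2 - C * (N : ℝ) ^ (C * (1 - s)) / (1 - s) * (((N.totient : ℝ) / N) *
        (DirichletCharacter.LFunction χ1 1 * DirichletCharacter.LFunction χ2 1 *
          DirichletCharacter.LFunction (χ1 * χ2) 1).re)
      ≤ (DirichletCharacter.LFunction (1 : DirichletCharacter ℂ N) s *
          DirichletCharacter.LFunction χ1 s * DirichletCharacter.LFunction χ2 s *
          DirichletCharacter.LFunction (χ1 * χ2) s).re := by
  obtain ⟨C1, hC1, hL⟩ := LF_le
  obtain ⟨C0, hC0, hL0⟩ := LF1_le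
  set K : ℝ := 2000 * C0 * C1 ^ 3 with hK
  have hC13 : (1 : ℝ) ≤ C1 ^ 3 := one_le_pow₀ hC1
  have hK1 : 2000 ≤ K := by
    have h := mul_le_mul hC0 hC13 zero_le_one (by linarith : (0 : ℝ) ≤ C0)
    rw [hK, mul_assoc]
    linarith
  have hEpos := Real.exp_pos (4 * Real.log (8 * K) + 1)
  refine ⟨16 + Real.exp (4 * Real.log (8 * K) + 1), by linarith, ?_⟩
  intro N _ χ1 χ2 h1 h2 n1 n2 n3 s hs1 hs2
  have hN1 : (1 : ℝ) ≤ (N : ℝ) := by exact_mod_cast NeZero.one_le
  have hN4 : (1 : ℝ) ≤ (N : ℝ) ^ 4 := one_le_pow₀ hN1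
  have hKN : 2000 ≤ K * (N : ℝ) ^ 4 := by nlinarith only [hK1, hN4]
  set Y : ℝ := 8 * (K * (N : ℝ) ^ 4) with hY
  have hY1 : 16000 ≤ Y := by rw [hY]; linarith
  have hY0 : 0 < Y := by linarith
  have hlogY : 0 < Real.log Y := Real.log_pos (by linarith)
  set M : ℕ := ⌈4 * Real.log Y⌉₊ with hMdef
  have hM0 : 4 * Real.log Y ≤ M := Nat.le_ceil _
  have hM2 : (M : ℝ) < 4 * Real.log Y + 1 := Nat.ceil_lt_add_one (by positivity)
  have hM1 : 1 ≤ M := by
    rw [hMdef, Nat.one_le_ceil_iff]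
    positivity
  have h43 : (1 : ℝ) / 4 ≤ Real.log (4 / 3) := by
    have h := Real.one_sub_inv_le_log_of_pos (show (0 : ℝ) < 4 / 3 by norm_num)
    norm_num at h ⊢
    linarith
  have hpow : Y ≤ (4 / 3 : ℝ) ^ M := by
    have e1 : (4 / 3 : ℝ) ^ M = Real.exp (M * Real.log (4 / 3)) := by
      rw [Real.exp_nat_mul, Real.exp_log (by norm_num)]
    have e2 : Real.log Y ≤ M * Real.log (4 / 3) := by nlinarith only [hM0, h43]
    calc Y = Real.exp (Real.log Y) := (Real.exp_log hY0).symm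
      _ ≤ Real.exp (M * Real.log (4 / 3)) := Real.exp_le_exp.mpr e2
      _ = _ := e1.symm
  have hBM : 2000 * C0 * C1 ^ 3 * (N : ℝ) ^ 4 * 4 * (3 / 4) ^ M ≤ 1 / 2 := by
    rw [← hK]
    have e1 : (3 / 4 : ℝ) ^ M * (4 / 3) ^ M = 1 := by rw [← mul_pow]; norm_num
    have e2 : 0 < (3 / 4 : ℝ) ^ M := by positivity
    have e3 : (3 / 4 : ℝ) ^ M * Y ≤ 1 := by
      rw [← e1]; exact mul_le_mul_of_nonneg_left hpow e2.le
    rw [hY] at e3
    nlinarith only [e3]
  obtain ⟨hl0, hmain⟩ := swd2_core hC0 hC1 (hL N) (hL0 N) χ1 χ2 h1 h2 n1 n2 n3 hs1 hs2 hM1 hBM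
  refine le_trans ?_ hmain
  set l : ℝ := (((N.totient : ℝ) / N) *
        (DirichletCharacter.LFunction χ1 1 * DirichletCharacter.LFunction χ2 1 *
          DirichletCharacter.LFunction (χ1 * χ2) 1).re) with hl
  have h1s : 0 < 1 - s := by linarith
  set C : ℝ := 16 + Real.exp (4 * Real.log (8 * K) + 1) with hC
  have hCbig : (2 - s) ^ M ≤ C * (N : ℝ) ^ (C * (1 - s)) := by
    have e1 : (2 - s) ≤ Real.exp (1 - s) := by
      have := Real.add_one_le_exp (1 - s)
      linarith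
    have e2 : (2 - s) ^ M ≤ Real.exp (M * (1 - s)) := by
      rw [Real.exp_nat_mul]
      exact pow_le_pow_left₀ (by linarith) e1 M
    have e3 : (M : ℝ) * (1 - s) ≤ (4 * Real.log (8 * K) + 1) + Real.log N * (16 * (1 - s)) := by
      have f1 : Real.log Y = Real.log (8 * K) + 4 * Real.log N := by
        rw [hY, ← mul_assoc, Real.log_mul (by positivity) (by positivity), Real.log_pow]
        push_cast
        ring
      have f2 : 0 ≤ Real.log N := Real.log_nonneg hN1
      have f3 : 0 ≤ Real.log (8 * K) := Real.log_nonneg (by linarith)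
      have f4 : (M : ℝ) * (1 - s) ≤ (4 * Real.log Y + 1) * (1 - s) :=
        mul_le_mul_of_nonneg_right hM2.le h1s.le
      rw [f1] at f4
      have f5 : (4 * Real.log (8 * K) + 1) * (1 - s) ≤ (4 * Real.log (8 * K) + 1) * 1 :=
        mul_le_mul_of_nonneg_left (by linarith only [hs1]) (by linarith)
      nlinarith only [f4, f5]
    have e4 : Real.exp (M * (1 - s)) ≤
        Real.exp (4 * Real.log (8 * K) + 1) * (N : ℝ) ^ (16 * (1 - s)) := by
      rw [Real.rpow_def_of_pos (by linarith), ← Real.exp_add]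
      exact Real.exp_le_exp.mpr e3
    have e5 : (N : ℝ) ^ (16 * (1 - s)) ≤ (N : ℝ) ^ (C * (1 - s)) := by
      apply Real.rpow_le_rpow_of_exponent_le hN1
      apply mul_le_mul_of_nonneg_right _ h1s.le
      linarith
    have e6 : 0 ≤ (N : ℝ) ^ (16 * (1 - s)) := by positivity
    calc (2 - s) ^ M ≤ Real.exp (4 * Real.log (8 * K) + 1) * (N : ℝ) ^ (16 * (1 - s)) :=
          e2.trans e4
      _ ≤ C * (N : ℝ) ^ (C * (1 - s)) := by
          apply mul_le_mul _ e5 e6 (by linarith)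
          linarith
  have e7 : l * ((2 - s) ^ M / (1 - s)) ≤ C * (N : ℝ) ^ (C * (1 - s)) / (1 - s) * l := by
    rw [mul_comm]
    apply mul_le_mul_of_nonneg_right _ hl0
    exact div_le_div_of_nonneg_right hCbig h1s.le
  linarith only [e7]

end Pool.Agent.H91.EHA

end
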