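import Pool.Agent.H71.TFC.M01
import Pool.Agent.H71.TFC.M02
import Pool.Agent.H71.TFC.M04

/-! The parts of this file: H59.FD.Whole, H59.FD.Inst, H71.AB.Phi, H87.AB.DLlin, H66.AB.ConjM, H9.AB.RelA, H72.AB.Desc, H9.AB.DecM, H77.AB.Unr, H9.AB.RelPow, H9.FC.OrdX, H9.FC.GVal, H9.AB.JValM, H9.AB.JIdealM, H91.EHA.SwJ2, H99.AB.Floor, H99.AB.Fourier, H99.AB.Lam. -/

section

/-!
# FD, Step 2: if `∑_v L_m(T_v) = 0` on a whole even class mod an even `N`, then `{T_v}` is
stable under inversion.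
-/

open Finset Filter Topology

namespace H59FD

open Pool.Agent.H42.FD (PE LL)

/-- the set where `1 - t e^(ζ z)` vanishes is countable -/
lemma countable_zero (t ζ : ℂ) (hζ : ζ ≠ 0) : {z : ℂ | t * Complex.exp (ζ * z) = 1}.Countable := by
  rcases Set.eq_empty_or_nonempty {z : ℂ | t * Complex.exp (ζ * z) = 1} with he | ⟨z₀, hz₀⟩
  · rw [he]; exact Set.countable_empty
  · have hsub : {z : ℂ | t * Complex.exp (ζ * z) = 1} ⊆
        Set.range (fun n : ℤ => z₀ + n * (2 * Real.pi * Complex.I) / ζ) := by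
      intro z hz
      simp only [Set.mem_setOf_eq] at hz hz₀
      have ht : t ≠ 0 := by
        rintro rfl; simp at hz
      have hexp : Complex.exp (ζ * z) = Complex.exp (ζ * z₀) :=
        mul_left_cancel₀ ht (hz.trans hz₀.symm)
      obtain ⟨n, hn⟩ := Complex.exp_eq_exp_iff_exists_int.mp hexp
      refine ⟨n, ?_⟩
      simp only
      field_simp
      rw [hn]
      ring
    exact (Set.countable_range _).mono hsub

/-- limit of `(z - z₀)/(1 - t e^(ζ z))` -/
lemma tendsto_res (t ζ z₀ : ℂ) (hζ : ζ ≠ 0) :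
    Tendsto (fun z => (z - z₀) * (1 / (1 - t * Complex.exp (ζ * z)))) (𝓝[≠] z₀)
      (𝓝 (if t * Complex.exp (ζ * z₀) = 1 then -ζ⁻¹ else 0)) := by
  have hcont : Continuous (fun z => 1 - t * Complex.exp (ζ * z)) := by fun_prop
  split_ifs with h
  · have hd : HasDerivAt (fun z => 1 - t * Complex.exp (ζ * z)) (-ζ) z₀ := by
      have h1 : HasDerivAt (fun z => ζ * z) ζ z₀ := by
        simpa using (hasDerivAt_id z₀).const_mul ζ
      have h2 := ((h1.cexp).const_mul t).const_sub 1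
      refine h2.congr_deriv ?_
      rw [← mul_assoc, h, one_mul]
    have hs := hasDerivAt_iff_tendsto_slope.mp hd
    have hs2 := hs.inv₀ (neg_ne_zero.mpr hζ)
    rw [← inv_neg] at *
    refine hs2.congr' ?_
    filter_upwards [self_mem_nhdsWithin] with z hz
    have hz' : z - z₀ ≠ 0 := sub_ne_zero.mpr hz
    rw [slope_def_field, h, sub_self, sub_zero, inv_div, div_eq_mul_one_div]
  · have hne : 1 - t * Complex.exp (ζ * z₀) ≠ 0 := sub_ne_zero.mpr (Ne.symm h)
    have h1 : Tendsto (fun z => (z - z₀) * (1 / (1 - t * Complex.exp (ζ * z)))) (𝓝 z₀)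
        (𝓝 ((z₀ - z₀) * (1 / (1 - t * Complex.exp (ζ * z₀))))) := by
      have : ContinuousAt (fun z => (z - z₀) * (1 / (1 - t * Complex.exp (ζ * z)))) z₀ := by
        refine ContinuousAt.mul (by fun_prop) ?_
        exact ContinuousAt.div continuousAt_const hcont.continuousAt hne
      exact this
    rw [sub_self, zero_mul] at h1
    exact h1.mono_left nhdsWithin_le_nhds

/-- a good `k` -/
lemma exists_k {n N : ℕ} (T : Fin n → ℂ) (ζ : ℕ → ℂ) (w : ℂ) :
    ∃ k : ℕ, ∀ j ∈ range N, (ζ j).im ≠ 0 → ∀ v,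
      T v * Complex.exp (ζ j * (w + k * (2 * Real.pi * Complex.I))) ≠ 1 := by
  have hfin : (⋃ j ∈ range N, ⋃ v : Fin n, {k : ℕ | (ζ j).im ≠ 0 ∧
      T v * Complex.exp (ζ j * (w + k * (2 * Real.pi * Complex.I))) = 1}).Finite := by
    refine Set.Finite.biUnion (range N).finite_toSet fun j _ => Set.finite_iUnion fun v => ?_
    refine Set.Subsingleton.finite ?_
    rintro k ⟨him, hk⟩ k' ⟨-, hk'⟩
    have hT : T v ≠ 0 := by
      intro h0; rw [h0, zero_mul] at hk; exact zero_ne_one hk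
    have he : Complex.exp (ζ j * (w + k * (2 * Real.pi * Complex.I))) =
        Complex.exp (ζ j * (w + k' * (2 * Real.pi * Complex.I))) :=
      mul_left_cancel₀ hT (hk.trans hk'.symm)
    have hn := congrArg norm he
    rw [Complex.norm_exp, Complex.norm_exp] at hn
    have hre := Real.exp_injective hn
    have e1 : ∀ q : ℕ, (ζ j * (w + q * (2 * Real.pi * Complex.I))).re =
        (ζ j * w).re - (ζ j).im * (q * (2 * Real.pi)) := by
      intro q
      rw [mul_add, Complex.add_re]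
      have : (ζ j * ((q : ℂ) * (2 * Real.pi * Complex.I))).re = - (ζ j).im * (q * (2 * Real.pi)) := by
        have : (q : ℂ) * (2 * Real.pi * Complex.I) = ((q * (2 * Real.pi) : ℝ) : ℂ) * Complex.I := by
          push_cast; ring
        rw [this, ← mul_assoc, mul_comm (ζ j), mul_assoc, Complex.re_ofReal_mul]
        simp
        ring
      rw [this]; ring
    rw [e1, e1] at hre
    have h2 : (ζ j).im * (2 * Real.pi) * ((k : ℝ) - k') = 0 := by linarith
    have h3 : (ζ j).im * (2 * Real.pi) ≠ 0 := mul_ne_zero him (by positivity)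
    have h4 := (mul_eq_zero.mp h2).resolve_left h3
    have h5 : (k : ℝ) = k' := by linarith
    exact_mod_cast h5
  obtain ⟨k, hk⟩ := hfin.infinite_compl.nonempty
  refine ⟨k, fun j hj him v he => hk ?_⟩
  simp only [Set.mem_iUnion]
  exact ⟨j, hj, v, him, he⟩

/-- the function is a polynomial near `0` -/
lemma near_zero {n : ℕ} (T w : Fin n → ℂ) (h1 : ∀ v, T v ≠ 1) {N : ℕ} (hN0 : 0 < N) (c : ℕ)
    (M₀ : ℕ) (hu : ∀ m, M₀ ≤ m → m ≡ c [MOD N] → ∑ v, w v * LL m (T v) = 0)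
    (ζ : ℂ) (hζ : IsPrimitiveRoot ζ N) :
    ∀ᶠ z in 𝓝 (0 : ℂ), ∑ j ∈ range N, (ζ ^ j) ^ ((N - 1) * c) *
      ∑ v, w v * (1 / (1 - T v * Complex.exp (ζ ^ j * z))) =
      ∑ m ∈ range M₀, ∑ j ∈ range N, (ζ ^ j) ^ ((N - 1) * c) *
        ∑ v, w v * ((m.factorial : ℂ)⁻¹ * (ζ ^ j * z) ^ m * LL m (T v)) := by
  have hnorm : ∀ j, ‖ζ ^ j‖ = 1 := by
    intro j
    rw [norm_pow, hζ.norm'_eq_one hN0.ne', one_pow]
  -- a ball
  have hopen : IsOpen {z : ℂ | ∀ v, T v * Complex.exp z ≠ 1} := by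
    have : {z : ℂ | ∀ v, T v * Complex.exp z ≠ 1} = ⋂ v, {z : ℂ | T v * Complex.exp z ≠ 1} := by
      ext z; simp
    rw [this]
    exact isOpen_iInter_of_finite fun v =>
      isOpen_ne_fun (continuous_const.mul Complex.continuous_exp) continuous_const
  have h0 : (0 : ℂ) ∈ {z : ℂ | ∀ v, T v * Complex.exp z ≠ 1} := by
    intro v; simpa using h1 v
  obtain ⟨r, hr, hball⟩ := Metric.isOpen_iff.mp hopen 0 h0
  have hsum : ∀ v, ∀ z ∈ Metric.ball (0 : ℂ) r,
      HasSum (fun m : ℕ => (m.factorial : ℂ)⁻¹ * z ^ m * LL m (T v))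
        (1 / (1 - T v * Complex.exp z)) := by
    intro v z hz
    have hd : DifferentiableOn ℂ (fun z => 1 / (1 - T v * Complex.exp z)) (Metric.ball 0 r) := by
      intro w hw
      have hw' := hball hw v
      have : DifferentiableAt ℂ (fun z => 1 / (1 - T v * Complex.exp z)) w := by
        refine DifferentiableAt.div (by fun_prop) (by fun_prop) ?_
        exact sub_ne_zero.mpr (Ne.symm hw')
      exact this.differentiableWithinAt
    have h2 := Complex.hasSum_taylorSeries_on_ball hd hz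
    have h3 : (fun m : ℕ => (m.factorial : ℂ)⁻¹ • (z - 0) ^ m •
        iteratedDeriv m (fun z => 1 / (1 - T v * Complex.exp z)) 0) =
        fun m : ℕ => (m.factorial : ℂ)⁻¹ * z ^ m * LL m (T v) := by
      funext m
      rw [iteratedDeriv_LL (T v) m 0 (by simpa using h1 v)]
      simp only [sub_zero, smul_eq_mul, Complex.exp_zero, mul_one]
      ring
    rw [h3] at h2
    exact h2
  filter_upwards [Metric.ball_mem_nhds (0 : ℂ) hr] with z hz
  have hzj : ∀ j, ζ ^ j * z ∈ Metric.ball (0 : ℂ) r := by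
    intro j
    rw [mem_ball_zero_iff] at hz ⊢
    rw [norm_mul, hnorm, one_mul]
    exact hz
  have hs : HasSum (fun m : ℕ => ∑ j ∈ range N, (ζ ^ j) ^ ((N - 1) * c) *
        ∑ v, w v * ((m.factorial : ℂ)⁻¹ * (ζ ^ j * z) ^ m * LL m (T v)))
      (∑ j ∈ range N, (ζ ^ j) ^ ((N - 1) * c) *
      ∑ v, w v * (1 / (1 - T v * Complex.exp (ζ ^ j * z)))) := by
    refine hasSum_sum fun j _ => ?_
    refine HasSum.mul_left _ ?_
    exact hasSum_sum fun v _ => (hsum v _ (hzj j)).mul_left _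
  have hz0 : ∀ m, m ∉ range M₀ → ∑ j ∈ range N, (ζ ^ j) ^ ((N - 1) * c) *
        ∑ v, w v * ((m.factorial : ℂ)⁻¹ * (ζ ^ j * z) ^ m * LL m (T v)) = 0 := by
    intro m hm
    have hm' : M₀ ≤ m := by simpa using hm
    have e1 : ∑ j ∈ range N, (ζ ^ j) ^ ((N - 1) * c) *
        ∑ v, w v * ((m.factorial : ℂ)⁻¹ * (ζ ^ j * z) ^ m * LL m (T v)) =
        (∑ j ∈ range N, (ζ ^ ((N - 1) * c + m)) ^ j) *
          ((m.factorial : ℂ)⁻¹ * z ^ m * ∑ v, w v * LL m (T v)) := by
      rw [Finset.sum_mul]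
      refine Finset.sum_congr rfl fun j _ => ?_
      have e0 : ∀ v, w v * ((m.factorial : ℂ)⁻¹ * (ζ ^ j * z) ^ m * LL m (T v)) =
          ((m.factorial : ℂ)⁻¹ * (ζ ^ j * z) ^ m) * (w v * LL m (T v)) := fun v => by ring
      simp only [e0]
      rw [← Finset.mul_sum, mul_pow, ← pow_mul, ← pow_mul, ← pow_mul]
      have : ζ ^ (((N - 1) * c + m) * j) = ζ ^ (j * ((N - 1) * c)) * ζ ^ (j * m) := by
        rw [← pow_add]; congr 1; ring
      rw [this]
      ring
    rw [e1]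
    by_cases hcl : m ≡ c [MOD N]
    · rw [hu m hm' hcl]; simp
    · have hx : ζ ^ ((N - 1) * c + m) ≠ 1 := by
        intro h
        apply hcl
        have hdvd := hζ.dvd_of_pow_eq_one _ h
        have h3 : (N - 1) * c + m ≡ 0 [MOD N] := (Nat.modEq_zero_iff_dvd).mpr hdvd
        have h4 : c + ((N - 1) * c + m) ≡ c + 0 [MOD N] := Nat.ModEq.add_left c h3
        have h5 : c + ((N - 1) * c + m) = N * c + m := by
          obtain ⟨q, rfl⟩ : ∃ q, N = q + 1 := ⟨N - 1, by omega⟩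
          simp; ring
        rw [h5, add_zero] at h4
        have h6 : N * c + m ≡ m [MOD N] := by
          have : N * c + m ≡ 0 + m [MOD N] :=
            Nat.ModEq.add_right m ((Nat.modEq_zero_iff_dvd).mpr (dvd_mul_right N c))
          simpa using this
        exact h6.symm.trans h4
      have hgeo := mul_neg_geom_sum (ζ ^ ((N - 1) * c + m)) N
      have hN1 : (ζ ^ ((N - 1) * c + m)) ^ N = 1 := by
        rw [← pow_mul, mul_comm, pow_mul, hζ.pow_eq_one, one_pow]
      rw [hN1, sub_self] at hgeo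
      have h7 : (1 - ζ ^ ((N - 1) * c + m)) ≠ 0 := sub_ne_zero.mpr (Ne.symm hx)
      rw [(mul_eq_zero.mp hgeo).resolve_left h7, zero_mul]
  exact hs.unique (hasSum_sum_of_ne_finset_zero hz0)

/-- **Whole class**, with weights and parity.  If `∑_v w_v L_m(T_v) = 0` for all large `m` in a
class `c` modulo an even `N`, then the weights at `t` and at `1/t` agree up to `(-1)^c`. -/
theorem whole_class_w {n : ℕ} (T w : Fin n → ℂ) (h1 : ∀ v, T v ≠ 1) {N : ℕ} (hN0 : 0 < N)
    (hN : Even N) (c : ℕ) (M₀ : ℕ)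
    (hu : ∀ m, M₀ ≤ m → m ≡ c [MOD N] → ∑ v, w v * LL m (T v) = 0) (t : ℂ) (ht : t ≠ 0) :
    ∑ v ∈ univ.filter (fun v => T v = t), w v =
      (-1) ^ c * ∑ v ∈ univ.filter (fun v => T v * t = 1), w v := by
  classical
  set ζ : ℂ := Complex.exp (2 * Real.pi * Complex.I / N) with hζd
  have hζ : IsPrimitiveRoot ζ N := Complex.isPrimitiveRoot_exp N hN0.ne'
  have hζ0 : ∀ j, ζ ^ j ≠ 0 := fun j => pow_ne_zero _ (hζ.ne_zero hN0.ne')
  have hnorm : ∀ j, ‖ζ ^ j‖ = 1 := by
    intro j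
    rw [norm_pow, hζ.norm'_eq_one hN0.ne', one_pow]
  set e := (N - 1) * c with he
  have hee : (-1 : ℂ) ^ e = (-1) ^ c := by
    have hodd : Odd (N - 1) := Nat.Even.sub_odd hN0 hN odd_one
    rw [he, pow_mul, hodd.neg_one_pow]
  -- the open dense set
  set g : ℂ → ℂ := fun z => ∑ j ∈ range N, (ζ ^ j) ^ e *
      ∑ v, w v * (1 / (1 - T v * Complex.exp (ζ ^ j * z))) with hg
  set q : ℂ → ℂ := fun z => ∑ m ∈ range M₀, ∑ j ∈ range N, (ζ ^ j) ^ e *
        ∑ v, w v * ((m.factorial : ℂ)⁻¹ * (ζ ^ j * z) ^ m * LL m (T v)) with hq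
  set P : Set ℂ := ⋃ j ∈ range N, ⋃ v : Fin n, {z : ℂ | T v * Complex.exp (ζ ^ j * z) = 1} with hP
  have hPc : P.Countable := by
    refine Set.Countable.biUnion (range N).countable_toSet fun j _ => Set.countable_iUnion fun v => ?_
    exact countable_zero _ _ (hζ0 j)
  have hPcl : IsClosed P := by
    refine Set.Finite.isClosed_biUnion (range N).finite_toSet fun j _ => ?_
    refine isClosed_iUnion_of_finite fun v => ?_
    exact isClosed_eq (by fun_prop) continuous_const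
  have hmem : ∀ z, z ∉ P ↔ ∀ j ∈ range N, ∀ v, T v * Complex.exp (ζ ^ j * z) ≠ 1 := by
    intro z; simp [hP]
  have hrank : 1 < Module.rank ℝ ℂ := by
    rw [Complex.rank_real_complex]; exact Nat.one_lt_ofNat
  have hU : IsPreconnected Pᶜ := (hPc.isPathConnected_compl_of_one_lt_rank hrank).isConnected.isPreconnected
  have h0U : (0 : ℂ) ∈ Pᶜ := by
    rw [Set.mem_compl_iff, hmem]
    intro j _ v
    simpa using h1 v
  have hgd : DifferentiableOn ℂ g Pᶜ := by
    intro z hz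
    have hz' := (hmem z).mp hz
    refine DifferentiableAt.differentiableWithinAt ?_
    refine DifferentiableAt.fun_sum fun j hj => ?_
    refine DifferentiableAt.const_mul ?_ _
    refine DifferentiableAt.fun_sum fun v _ => ?_
    refine DifferentiableAt.const_mul ?_ _
    refine DifferentiableAt.div (by fun_prop) (by fun_prop) ?_
    exact sub_ne_zero.mpr (Ne.symm (hz' j hj v))
  have hqd : Differentiable ℂ q := by
    simp only [hq]; fun_prop
  have hev : g =ᶠ[𝓝 (0 : ℂ)] q := near_zero T w h1 hN0 c M₀ hu ζ hζ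
  have hEq : Set.EqOn g q Pᶜ :=
    (hgd.analyticOnNhd hPcl.isOpen_compl).eqOn_of_preconnected_of_eventuallyEq
      (fun z _ => hqd.analyticAt z) hU h0U hev
  -- the point
  obtain ⟨k, hk⟩ := exists_k (N := N) T (fun j => ζ ^ j) (-Complex.log t)
  set z₀ : ℂ := -Complex.log t + k * (2 * Real.pi * Complex.I) with hz₀
  have hexp : Complex.exp z₀ = t⁻¹ := by
    rw [hz₀, Complex.exp_add, Complex.exp_neg, Complex.exp_log ht]
    have : (k : ℂ) * (2 * Real.pi * Complex.I) = ((k : ℤ) : ℂ) * (2 * Real.pi * Complex.I) := by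
      push_cast; ring
    rw [this, Complex.exp_int_mul_two_pi_mul_I, mul_one]
  -- the filter
  have hcount : (P ∪ {z₀}).Countable := hPc.union (Set.countable_singleton _)
  have hdense : Dense ((P ∪ {z₀})ᶜ) := hcount.dense_compl ℝ
  have : NeBot (𝓝[(P ∪ {z₀})ᶜ] z₀) := mem_closure_iff_nhdsWithin_neBot.mp (hdense z₀)
  have hle : 𝓝[(P ∪ {z₀})ᶜ] z₀ ≤ 𝓝[≠] z₀ :=
    nhdsWithin_mono _ (by
      intro z hz h
      exact hz (Or.inr h))
  have hlim1 : Tendsto (fun z => (z - z₀) * g z) (𝓝[(P ∪ {z₀})ᶜ] z₀)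
      (𝓝 (∑ j ∈ range N, (ζ ^ j) ^ e *
        ∑ v, w v * (if T v * Complex.exp (ζ ^ j * z₀) = 1 then -(ζ ^ j)⁻¹ else 0))) := by
    have : (fun z => (z - z₀) * g z) = fun z => ∑ j ∈ range N, (ζ ^ j) ^ e *
        ∑ v, w v * ((z - z₀) * (1 / (1 - T v * Complex.exp (ζ ^ j * z)))) := by
      funext z
      simp only [hg]
      rw [Finset.mul_sum]
      refine Finset.sum_congr rfl fun j _ => ?_
      rw [mul_left_comm, Finset.mul_sum]
      congr 1
      exact Finset.sum_congr rfl fun v _ => by ring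
    rw [this]
    refine tendsto_finsetSum _ fun j _ => ?_
    refine Tendsto.const_mul _ ?_
    refine tendsto_finsetSum _ fun v _ => ?_
    refine Tendsto.const_mul _ ?_
    exact (tendsto_res _ _ _ (hζ0 j)).mono_left hle
  have hlim2 : Tendsto (fun z => (z - z₀) * g z) (𝓝[(P ∪ {z₀})ᶜ] z₀) (𝓝 0) := by
    have h2 : Tendsto (fun z => (z - z₀) * q z) (𝓝 z₀) (𝓝 0) := by
      have : Continuous fun z => (z - z₀) * q z :=
        (continuous_id.sub continuous_const).mul hqd.continuous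
      have h3 := this.tendsto z₀
      simpa using h3
    refine (h2.mono_left nhdsWithin_le_nhds).congr' ?_
    filter_upwards [self_mem_nhdsWithin] with z hz
    have hzP : z ∈ Pᶜ := fun h => hz (Or.inl h)
    rw [hEq hzP]
  have hsum0 := tendsto_nhds_unique hlim1 hlim2
  -- only `j = 0` and `j = N/2`
  obtain ⟨N', hN'⟩ := hN
  have hN'0 : 0 < N' := by omega
  have hhalf : ζ ^ N' = -1 := by
    have h2 : (ζ ^ N') ^ 2 = 1 := by
      rw [← pow_mul, mul_two, ← hN', hζ.pow_eq_one]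
    have h3 : (ζ ^ N' - 1) * (ζ ^ N' + 1) = 0 := by linear_combination h2
    rcases mul_eq_zero.mp h3 with h | h
    · exfalso
      have h4 : ζ ^ N' = 1 := sub_eq_zero.mp h
      have h5 := hζ.dvd_of_pow_eq_one _ h4
      have h6 := Nat.le_of_dvd hN'0 h5
      omega
    · exact eq_neg_of_add_eq_zero_left h
  have hother : ∀ j ∈ range N, j ≠ 0 ∧ j ≠ N' → (ζ ^ j) ^ e *
        ∑ v, w v * (if T v * Complex.exp (ζ ^ j * z₀) = 1 then -(ζ ^ j)⁻¹ else 0) = 0 := by
    rintro j hj ⟨hj0, hjN⟩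
    have him : (ζ ^ j).im ≠ 0 := by
      intro him
      have hx : (ζ ^ j) = (((ζ ^ j).re : ℝ) : ℂ) := by
        apply Complex.ext <;> simp [him]
      have hn := hnorm j
      rw [hx, Complex.norm_real, Real.norm_eq_abs] at hn
      have h2 : (ζ ^ j) ^ 2 = 1 := by
        rw [hx]
        have : (ζ ^ j).re ^ 2 = 1 := by
          rw [← sq_abs, hn, one_pow]
        exact_mod_cast this
      rw [← pow_mul] at h2
      obtain ⟨q', hq'⟩ := hζ.dvd_of_pow_eq_one _ h2
      have hjN' : j < N := mem_range.mp hj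
      have hq1 : q' = 0 ∨ q' = 1 := by
        by_contra hcon
        push Not at hcon
        have : 2 ≤ q' := by omega
        have : N * 2 ≤ N * q' := Nat.mul_le_mul_left _ this
        omega
      rcases hq1 with rfl | rfl <;> omega
    rw [Finset.sum_eq_zero, mul_zero]
    intro v _
    rw [if_neg (hk j hj him v), mul_zero]
  rw [Finset.sum_eq_add 0 N' (by omega) hother (fun h => absurd (mem_range.mpr hN0) h)
    (fun h => absurd (mem_range.mpr (by omega)) h), hhalf, hee] at hsum0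
  have hexp' : Complex.exp (-1 * z₀) = t := by
    rw [neg_one_mul, Complex.exp_neg, hexp, inv_inv]
  rw [hexp'] at hsum0
  simp only [pow_zero, one_pow, one_mul, hexp, inv_one, neg_neg, inv_neg] at hsum0
  have hcond : ∀ v, (T v * t⁻¹ = 1) ↔ (T v = t) := by
    intro v
    rw [← div_eq_mul_inv, div_eq_one_iff_eq ht]
  simp only [hcond, mul_ite, mul_zero, mul_neg, mul_one] at hsum0
  rw [← Finset.sum_filter, ← Finset.sum_filter, Finset.sum_neg_distrib] at hsum0
  linear_combination -hsum0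

end H59FD

end

section

/-!
# FD, Step 2: the hypothesis `SparseMain` of Theorem M
-/

open Finset Polynomial

namespace H59FD

theorem eul_eq_PE (m : ℕ) : H69FD.eul m = Pool.Agent.H42.FD.PE m := by
  induction m with
  | zero => rfl
  | succ m ih =>
    rw [H69FD.eul_succ, Pool.Agent.H42.FD.PE, ih]
    simp

theorem LL_eq {F : Type*} [Field F] (m : ℕ) (t : F) : H69FD.LL m t = Pool.Agent.H42.FD.LL m t := by
  rw [H69FD.LL, Pool.Agent.H42.FD.LL, eul_eq_PE]

end H59FD

end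

section

/-!
# Project AB, module Phi (residue map)

`m = f * p`, `p` a prime with `p ∤ f`, `M = ℚ(ζ_m)`, `ζ ∈ 𝓞 M` a primitive `m`-th root of unity,
`k` a field of characteristic `p`, `e : 𝓞 M →+* k` a ring homomorphism, `g = e ζ` (a primitive `f`-th
root of unity).  `𝓞 M = ℤ[ζ]`, and `ζ ↦ g X` defines a ring homomorphism
`Φ_e : 𝓞 M → k[X]/(X - 1)^(p-1)`, because `Φ_m = Φ_f^(p-1)` modulo `p` and `X - 1 ∣ Φ_f (g X)`.
Modulo `X - 1` it is `e`.  `Lg ζ e j A` is the `j`-th logarithmic derivative at `1` of `Φ_e(A)`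
(`1 ≤ j ≤ p - 2`, `e A ≠ 0`), computed with an integer polynomial `F`, `A = F(ζ)`.

* `Lg_eq`       : `Lg ζ e j A = DL j (F (g X))` for every `F` with `F(ζ) = A`;
* `Lg_mul`, `Lg_pow`, `Lg_pow_p` (`= 0` on `p`-th powers), `Lg_prod`;
* `Lg_zeta`     : `Lg ζ e j (ζ^n) = 0` for `j ≥ 2`;
* `Lg_comp`     : `Lg ζ e j (τ A) = t^j Lg ζ (e ∘ τ) j A` for `τ : 𝓞 M →+* 𝓞 M` with `τ ζ = ζ^t`;
* `Lg_eval`     : `Lg ζ e j (P(ζ^f)) = f^j DL j (P^(e∘ι))` for `P ∈ R[X]`, `ι : R → ℤ[ζ^p]`;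
* `rel_stick`, `rel_eval` : the twisted relation from
  `J^p ∏_{σ ∈ S} σ⁻¹ A = ζ^n Y^p`.
-/

open Polynomial NumberField H45KC

namespace H71AB

/-- the value `F(x)` of an integer polynomial, as a ring homomorphism in `F` -/
noncomputable def iv {R : Type*} [CommRing R] (x : R) : ℤ[X] →+* R :=
  eval₂RingHom (Int.castRingHom R) x

theorem iv_X {R : Type*} [CommRing R] (x : R) : iv x X = x := by
  simp [iv]

/-- ring homomorphisms commute with the values of integer polynomials -/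
theorem map_iv {R S : Type*} [CommRing R] [CommRing S] (φ : R →+* S) (x : R) (F : ℤ[X]) :
    φ (iv x F) = iv (φ x) F := by
  rw [iv, iv, coe_eval₂RingHom, coe_eval₂RingHom, hom_eval₂]
  congr 1
  exact Subsingleton.elim _ _

theorem iv_comp {R : Type*} [CommRing R] (x : R) (F G : ℤ[X]) :
    iv x (F.comp G) = iv (iv x G) F := by
  simp only [iv, coe_eval₂RingHom]
  exact eval₂_comp _

section alg

variable {k : Type*} [Field k]

theorem gX_eval_one (g : k) (F : ℤ[X]) : (iv (C g * X : k[X]) F).eval 1 = iv g F := by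
  have h := map_iv (evalRingHom (1 : k)) (C g * X) F
  simpa using h

theorem gX_comp (g : k) (F : ℤ[X]) (t : ℕ) :
    iv (C g * X : k[X]) (F.comp (X ^ t)) = (iv (C (g ^ t) * X : k[X]) F).comp (X ^ t) := by
  have h := map_iv (compRingHom (X ^ t : k[X])) (C (g ^ t) * X) F
  rw [coe_compRingHom_apply] at h
  rw [h, iv_comp, coe_compRingHom_apply, map_pow, iv_X]
  simp [mul_pow]

/-- `Φ_{fp}(g X)` is divisible by `(X-1)^(p-1)` in characteristic `p` if `g` is a root of `Φ_{fp}` -/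
theorem dvd_cyc (p f : ℕ) [Fact p.Prime] (hpf : ¬ p ∣ f) [CharP k p] (g : k)
    (hg : iv g (cyclotomic (f * p) ℤ) = 0) :
    (X - 1 : k[X]) ^ (p - 1) ∣ iv (C g * X : k[X]) (cyclotomic (f * p) ℤ) := by
  have hp : p.Prime := Fact.out
  have h1 : iv (C g * X : k[X]) (cyclotomic (f * p) ℤ) =
      ((cyclotomic f k).comp (C g * X)) ^ (p - 1) := by
    rw [← pow_comp, ← cyclotomic_mul_prime_eq_pow_of_not_dvd k hpf, ← map_cyclotomic_int (f * p) k,
      comp, eval₂_map, iv, coe_eval₂RingHom]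
    congr 1
  rw [h1]
  refine pow_dvd_pow_of_dvd ?_ _
  have h2 : iv g (cyclotomic (f * p) ℤ) = ((cyclotomic f k).eval g) ^ (p - 1) := by
    have h3 := gX_eval_one g (cyclotomic (f * p) ℤ)
    rw [h1, eval_pow, eval_comp] at h3
    simpa using h3.symm
  rw [h2] at hg
  have h4 : (cyclotomic f k).eval g = 0 := by
    by_contra h
    exact pow_ne_zero _ h hg
  have h5 : (X - C (1 : k)) ∣ (cyclotomic f k).comp (C g * X) := by
    rw [dvd_iff_isRoot, IsRoot, eval_comp]
    simpa using h4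
  simpa using h5

end alg

section M

variable {p f m : ℕ} {M : Type*} [Field M] [NumberField M]

theorem exists_rp [NeZero m] [IsCyclotomicExtension {m} ℚ M] {ζ : 𝓞 M}
    (hζ : IsPrimitiveRoot ζ m) (A : 𝓞 M) : ∃ F : ℤ[X], iv ζ F = A := by
  have hζ' : IsPrimitiveRoot (ζ : M) m := hζ.map_of_injective RingOfIntegers.coe_injective
  obtain ⟨F, hF⟩ := (hζ'.integralPowerBasis).exists_eq_aeval' A
  refine ⟨F, ?_⟩
  rw [hF, IsPrimitiveRoot.integralPowerBasis_gen]
  rfl

/-- an integer polynomial `F` with `F(ζ) = A` -/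
noncomputable def rp (ζ A : 𝓞 M) : ℤ[X] := Classical.epsilon (fun F => iv ζ F = A)

theorem rp_spec [NeZero m] [IsCyclotomicExtension {m} ℚ M] {ζ : 𝓞 M}
    (hζ : IsPrimitiveRoot ζ m) (A : 𝓞 M) : iv ζ (rp ζ A) = A :=
  Classical.epsilon_spec (exists_rp hζ A)

variable {k : Type*} [Field k]

/-- the `j`-th logarithmic derivative of `A` at the place `e` -/
noncomputable def Lg (ζ : 𝓞 M) (e : 𝓞 M →+* k) (j : ℕ) (A : 𝓞 M) : k :=
  DL j (iv (C (e ζ) * X : k[X]) (rp ζ A))

theorem gX_sub [Fact p.Prime] [CharP k p] (hpf : ¬ p ∣ f) [NeZero m] (hm : m = f * p)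
    {ζ : 𝓞 M} (hζ : IsPrimitiveRoot ζ m) (e : 𝓞 M →+* k) (F G : ℤ[X])
    (h : iv ζ F = iv ζ G) :
    (X - 1 : k[X]) ^ (p - 1) ∣ iv (C (e ζ) * X : k[X]) F - iv (C (e ζ) * X : k[X]) G := by
  have hζ' : IsPrimitiveRoot (ζ : M) m := hζ.map_of_injective RingOfIntegers.coe_injective
  have hc : ∀ H : ℤ[X], iv ζ H = 0 ↔ cyclotomic m ℤ ∣ H := by
    intro H
    have h1 := map_iv (algebraMap (𝓞 M) M) ζ H
    have h2 : aeval (ζ : M) H = algebraMap (𝓞 M) M (iv ζ H) := h1.symm
    rw [cyclotomic_eq_minpoly hζ' (NeZero.pos m),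
      ← minpoly.isIntegrallyClosed_dvd_iff (hζ'.isIntegral (NeZero.pos m)), h2,
      map_eq_zero_iff _ RingOfIntegers.coe_injective]
  have h0 : iv (e ζ) (cyclotomic (f * p) ℤ) = 0 := by
    rw [← map_iv, ← hm, (hc _).2 dvd_rfl, map_zero]
  have h1 : cyclotomic m ℤ ∣ F - G := by
    rw [← hc, map_sub, h, sub_self]
  rw [← map_sub]
  refine (dvd_cyc p f hpf (e ζ) h0).trans ?_
  obtain ⟨H, hH⟩ := h1
  rw [hH, map_mul, hm]
  exact dvd_mul_right _ _

section L

variable [Fact p.Prime] [CharP k p] (hpf : ¬ p ∣ f) [NeZero m] (hm : m = f * p)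
    [IsCyclotomicExtension {m} ℚ M] {ζ : 𝓞 M} (hζ : IsPrimitiveRoot ζ m)

include hpf hm hζ

theorem Lg_eq (e : 𝓞 M →+* k) (j : ℕ) (hj : 1 ≤ j) (hj' : j + 2 ≤ p) (F : ℤ[X]) (A : 𝓞 M)
    (h : iv ζ F = A) : Lg ζ e j A = DL j (iv (C (e ζ) * X : k[X]) F) := by
  refine DL_congr j hj _ _ ((pow_dvd_pow _ (by omega)).trans
    (gX_sub hpf hm hζ e _ _ ?_))
  rw [rp_spec hζ, h]

omit hpf hm [Fact p.Prime] [CharP k p] in
theorem eval_rp (e : 𝓞 M →+* k) (A : 𝓞 M) :
    (iv (C (e ζ) * X : k[X]) (rp ζ A)).eval 1 = e A := by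
  rw [gX_eval_one, ← map_iv, rp_spec hζ]

theorem Lg_mul (e : 𝓞 M →+* k) (j : ℕ) (hj : 1 ≤ j) (hj' : j + 2 ≤ p) (A B : 𝓞 M)
    (hA : e A ≠ 0) (hB : e B ≠ 0) : Lg ζ e j (A * B) = Lg ζ e j A + Lg ζ e j B := by
  rw [Lg_eq hpf hm hζ e j hj hj' (rp ζ A * rp ζ B) (A * B)
    (by rw [map_mul, rp_spec hζ, rp_spec hζ]), map_mul, DL_mul j hj, Lg, Lg]
  · rwa [eval_rp hζ]
  · rwa [eval_rp hζ]

theorem Lg_pow (e : 𝓞 M →+* k) (j : ℕ) (hj : 1 ≤ j) (hj' : j + 2 ≤ p) (A : 𝓞 M)
    (hA : e A ≠ 0) (n : ℕ) : Lg ζ e j (A ^ n) = n * Lg ζ e j A := by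
  rw [Lg_eq hpf hm hζ e j hj hj' (rp ζ A ^ n) (A ^ n)
    (by rw [map_pow, rp_spec hζ]), map_pow, DL_pow j hj, Lg]
  rwa [eval_rp hζ]

theorem Lg_pow_p (e : 𝓞 M →+* k) (j : ℕ) (hj : 1 ≤ j) (hj' : j + 2 ≤ p) (A : 𝓞 M)
    (hA : e A ≠ 0) : Lg ζ e j (A ^ p) = 0 := by
  rw [Lg_pow hpf hm hζ e j hj hj' A hA, CharP.cast_eq_zero, zero_mul]

theorem Lg_prod (e : 𝓞 M →+* k) (j : ℕ) (hj : 1 ≤ j) (hj' : j + 2 ≤ p) {ι : Type*}
    (S : Finset ι) (A : ι → 𝓞 M) (hA : ∀ i ∈ S, e (A i) ≠ 0) :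
    Lg ζ e j (∏ i ∈ S, A i) = ∑ i ∈ S, Lg ζ e j (A i) := by
  classical
  induction S using Finset.induction_on with
  | empty =>
    have h := Lg_eq hpf hm hζ e j hj hj' 1 1 (map_one _)
    rw [Finset.prod_empty, Finset.sum_empty, h, map_one, ← C_1, DL_C j hj]
  | insert a s ha ih =>
    have h1 : ∀ i ∈ s, e (A i) ≠ 0 := fun i hi => hA i (Finset.mem_insert_of_mem hi)
    rw [Finset.prod_insert ha, Finset.sum_insert ha, Lg_mul hpf hm hζ e j hj hj', ih h1]
    · exact hA a (Finset.mem_insert_self _ _)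
    · rw [map_prod]
      exact Finset.prod_ne_zero_iff.2 h1

theorem Lg_zeta (e : 𝓞 M →+* k) (j : ℕ) (hj : 2 ≤ j) (hj' : j + 2 ≤ p) (n : ℕ) :
    Lg ζ e j (ζ ^ n) = 0 := by
  have hj1 : 1 ≤ j := by omega
  have h0 : e ζ ≠ 0 := ((hζ.isUnit (NeZero.ne m)).map e).ne_zero
  rw [Lg_pow hpf hm hζ e j hj1 hj' ζ h0, Lg_eq hpf hm hζ e j hj1 hj' X ζ (iv_X _), iv_X,
    DL_mul j hj1 _ _ (by simpa using h0) (by simp), DL_C j hj1, DL_X j hj, add_zero, mul_zero]

theorem Lg_comp (e : 𝓞 M →+* k) (j : ℕ) (hj : 1 ≤ j) (hj' : j + 2 ≤ p) (τ : 𝓞 M →+* 𝓞 M)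
    (t : ℕ) (hτ : τ ζ = ζ ^ t) (A : 𝓞 M) : Lg ζ e j (τ A) = (t : k) ^ j * Lg ζ (e.comp τ) j A := by
  have h1 : iv ζ ((rp ζ A).comp (X ^ t)) = τ A := by
    rw [iv_comp, map_pow, iv_X, ← hτ, ← map_iv, rp_spec hζ]
  rw [Lg_eq hpf hm hζ e j hj hj' _ _ h1, gX_comp, DL_comp j hj, Lg, RingHom.comp_apply, hτ,
    map_pow e]

/-- elements of `ℤ[ζ^p]` are constants -/
theorem gX_const (e : 𝓞 M →+* k) (x : 𝓞 M) (hx : x ∈ Algebra.adjoin ℤ {ζ ^ p}) :
    (X - 1 : k[X]) ^ (p - 1) ∣ iv (C (e ζ) * X : k[X]) (rp ζ x) - C (e x) := by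
  rw [Algebra.adjoin_singleton_eq_range_aeval] at hx
  obtain ⟨F, hF⟩ := hx
  have hF' : iv (ζ ^ p) F = x := hF
  have h1 : iv ζ (rp ζ x) = iv ζ (F.comp (X ^ p)) := by
    rw [rp_spec hζ, iv_comp, map_pow, iv_X, hF']
  have h2 := gX_sub hpf hm hζ e _ _ h1
  have h3 : (X - 1 : k[X]) ^ (p - 1) ∣ iv (C (e ζ) * X : k[X]) (F.comp (X ^ p)) - C (e x) := by
    rw [gX_comp]
    have h4 : (X - 1 : k[X]) ^ (p - 1) ∣ (X ^ p : k[X]) - 1 := by
      have h5 : (X ^ p : k[X]) - 1 = (X - 1) ^ p := by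
        rw [sub_pow_char, one_pow]
      rw [h5]
      exact pow_dvd_pow _ (Nat.sub_le _ _)
    have h6 : (X ^ p : k[X]) - 1 ∣ (iv (C (e ζ ^ p) * X : k[X]) F).comp (X ^ p) -
        C ((iv (C (e ζ ^ p) * X : k[X]) F).eval 1) := by
      have h7 := sub_dvd_eval_sub (X ^ p : k[X]) (C 1) ((iv (C (e ζ ^ p) * X : k[X]) F).map C)
      rw [eval_map, ← comp, eval_map, ← comp, comp_C, C_1] at h7
      exact h7
    rw [gX_eval_one] at h6
    have h8 : iv (e ζ ^ p) F = e x := by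
      rw [← hF', map_iv, map_pow]
    rw [h8] at h6
    exact h4.trans h6
  have h9 := dvd_add h2 h3
  rwa [sub_add_sub_cancel] at h9

omit hpf hm hζ [Fact p.Prime] [IsCyclotomicExtension {m} ℚ M] [NeZero m] [NumberField M] in
theorem ev_ne_zero (e : 𝓞 M →+* k) (A : 𝓞 M)
    (hA : ∀ P : Ideal (𝓞 M), P.IsPrime → (p : 𝓞 M) ∈ P → A ∉ P) : e A ≠ 0 := by
  intro h
  refine hA (RingHom.ker e) (RingHom.ker_isPrime e) ?_ h
  rw [RingHom.mem_ker, map_natCast, CharP.cast_eq_zero]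

/-- the action of an automorphism on the ring of integers, as a ring homomorphism -/
noncomputable def act (σ : M ≃ₐ[ℚ] M) : 𝓞 M →+* 𝓞 M := MulSemiringAction.toRingHom _ _ σ

omit hpf hm hζ [Fact p.Prime] [IsCyclotomicExtension {m} ℚ M] [NeZero m] in
theorem act_apply (σ : M ≃ₐ[ℚ] M) (x : 𝓞 M) : act σ x = σ • x := rfl

theorem rel_stick (e : 𝓞 M →+* k) (S : Finset (M ≃ₐ[ℚ] M)) (A J Y : 𝓞 M)
    (hA : ∀ P : Ideal (𝓞 M), P.IsPrime → (p : 𝓞 M) ∈ P → A ∉ P)
    (hJ : ∀ P : Ideal (𝓞 M), P.IsPrime → (p : 𝓞 M) ∈ P → J ∉ P)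
    (hY : ∀ P : Ideal (𝓞 M), P.IsPrime → (p : 𝓞 M) ∈ P → Y ∉ P)
    (n : ℕ) (h : J ^ p * ∏ σ ∈ S, σ⁻¹ • A = ζ ^ n * Y ^ p)
    (j : ℕ) (hj : 2 ≤ j) (hj' : j + 2 ≤ p) :
    ∑ σ ∈ S, (((IsCyclotomicExtension.Rat.galEquivZMod m M σ)⁻¹.val.val : ℕ) : k) ^ j *
      Lg ζ (e.comp (act σ⁻¹)) j A = 0 := by
  have hj1 : 1 ≤ j := by omega
  have h0 : e ζ ≠ 0 := ((hζ.isUnit (NeZero.ne m)).map e).ne_zero
  have hAσ : ∀ σ : M ≃ₐ[ℚ] M, e (σ⁻¹ • A) ≠ 0 := fun σ => ev_ne_zero (e.comp (act σ⁻¹)) A hA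
  have h1 : Lg ζ e j (∏ σ ∈ S, σ⁻¹ • A) = 0 := by
    have h2 := congrArg (Lg ζ e j) h
    rw [Lg_mul hpf hm hζ e j hj1 hj' _ _ (by rw [map_pow]; exact pow_ne_zero _ (ev_ne_zero e J hJ))
        (by rw [map_prod]; exact Finset.prod_ne_zero_iff.2 fun σ _ => hAσ σ),
      Lg_mul hpf hm hζ e j hj1 hj' _ _ (by rw [map_pow]; exact pow_ne_zero _ h0)
        (by rw [map_pow]; exact pow_ne_zero _ (ev_ne_zero e Y hY)),
      Lg_pow_p hpf hm hζ e j hj1 hj' _ (ev_ne_zero e J hJ),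
      Lg_pow_p hpf hm hζ e j hj1 hj' _ (ev_ne_zero e Y hY),
      Lg_zeta hpf hm hζ e j hj hj', zero_add, add_zero] at h2
    exact h2
  rw [Lg_prod hpf hm hζ e j hj1 hj' _ _ (fun σ _ => hAσ σ)] at h1
  rw [← h1]
  refine Finset.sum_congr rfl fun σ _ => ?_
  have h3 := Lg_comp hpf hm hζ e j hj1 hj' (act σ⁻¹)
    ((IsCyclotomicExtension.Rat.galEquivZMod m M σ)⁻¹.val.val) (by
      rw [act_apply, IsCyclotomicExtension.Rat.galEquivZMod_smul_of_pow_eq m M σ⁻¹ hζ.pow_eq_one,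
        map_inv]) A
  rw [act_apply] at h3
  rw [h3]

end L

end M

end H71AB

end

section

/-!
# AB: logarithmic derivatives of linear factors

`DL j (a + b X) = - L_{j-1}(-b/a)` for `j ≥ 2`.
-/

open Polynomial H45KC

namespace H87AB

variable {k : Type*} [Field k]

/-- `eul n (c X)` -/
noncomputable def eu (n : ℕ) (c : k) : k[X] :=
  ((H69FD.eul n).map (Int.castRingHom k)).comp (C c * X)

theorem th_eu (n : ℕ) (c : k) :
    th (eu n c) = (C c * X) * ((derivative (H69FD.eul n)).map (Int.castRingHom k)).comp (C c * X) := by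
  unfold th eu
  rw [derivative_comp, derivative_map, derivative_C_mul, derivative_X, mul_one]
  ring

theorem eu_succ (n : ℕ) (c : k) :
    eu (n + 1) c = (1 - C c * X) * th (eu n c) + ((n : k[X]) + 1) * (C c * X) * eu n c := by
  rw [th_eu]
  unfold eu
  rw [H69FD.eul_succ]
  simp only [Polynomial.map_mul, Polynomial.map_add, Polynomial.map_sub, Polynomial.map_one,
    Polynomial.map_X, Polynomial.map_natCast, mul_comp, add_comp, sub_comp, X_comp, one_comp,
    natCast_comp]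
  ring

theorem Nm_lin (a b : k) (ha : a ≠ 0) (n : ℕ) :
    Nm (C a + X * C b) (n + 1) = - (C (a ^ (n + 2)) * eu (n + 1) (-b / a)) := by
  have hG : (C a + X * C b : k[X]) = C a * (1 - C (-b / a) * X) := by
    have h : C a * C (-b / a) = (C (-b) : k[X]) := by rw [← C_mul]; congr 1; field_simp
    calc (C a + X * C b : k[X]) = C a - C (-b) * X := by rw [C_neg]; ring
      _ = C a - (C a * C (-b / a)) * X := by rw [h]
      _ = _ := by ring
  have hth : th (C a + X * C b : k[X]) = - (C a * (C (-b / a) * X)) := by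
    have h : C a * C (-b / a) = (C (-b) : k[X]) := by rw [← C_mul]; congr 1; field_simp
    have h1 : th (C a + X * C b : k[X]) = X * C b := by
      unfold th
      simp
    rw [h1, ← mul_assoc, h, C_neg]
    ring
  induction n with
  | zero =>
    have h1 : Nm (C a + X * C b : k[X]) (0 + 1) =
        (C a + X * C b) * th (th (C a + X * C b)) -
          ((0 + 1 : ℕ) : k[X]) * th (C a + X * C b) * th (C a + X * C b) := rfl
    have hz : th (- (C a * (C (-b / a) * X)) : k[X]) = - (C a * (C (-b / a) * X)) := by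
      unfold th
      simp
      ring
    have he : eu (0 + 1) (-b / a) = C (-b / a) * X := by
      rw [eu_succ]
      have h0 : eu 0 (-b / a) = (1 : k[X]) := by
        unfold eu; rw [H69FD.eul_zero]; simp
      rw [h0]
      unfold th
      simp
    rw [h1, hth, hz, hG, he]
    push_cast
    simp only [C_pow]
    ring
  | succ n ih =>
    have h1 : Nm (C a + X * C b : k[X]) (n + 1 + 1) =
        (C a + X * C b) * th (Nm (C a + X * C b) (n + 1)) -
          ((n + 1 + 1 : ℕ) : k[X]) * Nm (C a + X * C b) (n + 1) * th (C a + X * C b) := rfl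
    have h2 : th (- (C (a ^ (n + 2)) * eu (n + 1) (-b / a))) =
        - (C (a ^ (n + 2)) * th (eu (n + 1) (-b / a))) := by
      unfold th
      rw [derivative_neg, derivative_C_mul]
      ring
    rw [h1, ih, h2, hth, hG, eu_succ (n + 1)]
    push_cast
    simp only [C_pow]
    ring

/-- the logarithmic derivatives of a linear factor -/
theorem DL_lin (j : ℕ) (hj : 2 ≤ j) (a b : k) (ha : a ≠ 0) (hab : a + b ≠ 0) :
    DL j (C a + X * C b) = - H69FD.LL (j - 1) (-b / a) := by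
  obtain ⟨n, rfl⟩ : ∃ n, j = n + 2 := ⟨j - 2, by omega⟩
  have h1 : n + 2 - 1 = n + 1 := by omega
  unfold DL H69FD.LL
  rw [h1, Nm_lin a b ha n, eval_neg, eval_mul, eval_C, eval_add, eval_mul, eval_C, eval_X, eval_C,
    one_mul]
  have h2 : (eu (n + 1) (-b / a)).eval 1 = aeval (-b / a) (H69FD.eul (n + 1)) := by
    unfold eu
    rw [eval_comp, eval_mul, eval_C, eval_X, mul_one, eval_map]
    rfl
  have h3 : 1 - -b / a = (a + b) / a := by field_simp; ring
  rw [h2, h3, div_pow]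
  field_simp

end H87AB

end

section

/-!
# Project AB, module ConjM

Complex conjugation on `M = ℚ(ζ_m)` and roots of unity.
-/

namespace H66AB

open NumberField H9AB

private theorem ConjM_val (m : ℕ) [NeZero m] : ((-1 : (ZMod m)ˣ) : ZMod m).val = m - 1 ∨ m = 1 := by
  have hm : 0 < m := NeZero.pos m
  rw [Units.val_neg, Units.val_one]
  obtain ⟨n, rfl⟩ : ∃ n, m = n + 1 := ⟨m - 1, by omega⟩
  left
  exact ZMod.val_neg_one n

private theorem ConjM_coe (M : Type*) [Field M] [NumberField M] (σ : M ≃ₐ[ℚ] M) (x : 𝓞 M) :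
    ((σ • x : 𝓞 M) : M) = σ (x : M) := rfl

theorem galEquiv_cjM (m : ℕ) [NeZero m] (M : Type*) [Field M] [NumberField M]
    [IsCyclotomicExtension {m} ℚ M] :
    IsCyclotomicExtension.Rat.galEquivZMod m M (cjM m M) = -1 := by
  unfold cjM
  rw [MulEquiv.apply_symm_apply]

theorem cjM_mul_cjM (m : ℕ) [NeZero m] (M : Type*) [Field M] [NumberField M]
    [IsCyclotomicExtension {m} ℚ M] : cjM m M * cjM m M = 1 := by
  apply (IsCyclotomicExtension.Rat.galEquivZMod m M).injective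
  rw [map_mul, galEquiv_cjM, map_one, neg_mul_neg, mul_one]

theorem cjM_smul_cjM_smul (m : ℕ) [NeZero m] (M : Type*) [Field M] [NumberField M]
    [IsCyclotomicExtension {m} ℚ M] (x : 𝓞 M) : cjM m M • (cjM m M • x) = x := by
  rw [smul_smul, cjM_mul_cjM, one_smul]

theorem cjM_comm (m : ℕ) [NeZero m] (M : Type*) [Field M] [NumberField M]
    [IsCyclotomicExtension {m} ℚ M] (σ : M ≃ₐ[ℚ] M) (x : 𝓞 M) :
    σ • (cjM m M • x) = cjM m M • (σ • x) := by
  rw [smul_smul, smul_smul]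
  have h : σ * cjM m M = cjM m M * σ := by
    apply (IsCyclotomicExtension.Rat.galEquivZMod m M).injective
    rw [map_mul, map_mul, mul_comm]
  rw [h]

theorem map_cjM_eq_conj (m : ℕ) [NeZero m] (M : Type*) [Field M] [NumberField M]
    [IsCyclotomicExtension {m} ℚ M] (φ : M →+* ℂ) (x : M) :
    φ (cjM m M x) = (starRingEnd ℂ) (φ x) := by
  have hm : 0 < m := NeZero.pos m
  have hζ := IsCyclotomicExtension.zeta_spec m ℚ M
  let f : M →ₐ[ℚ] ℂ := (φ.comp ((cjM m M : M ≃+* M) : M →+* M)).toRatAlgHom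
  let g : M →ₐ[ℚ] ℂ := ((starRingEnd ℂ).comp φ).toRatAlgHom
  have hfg : f = g := by
    refine (hζ.powerBasis ℚ).algHom_ext ?_
    rw [hζ.powerBasis_gen ℚ]
    show φ (cjM m M (IsCyclotomicExtension.zeta m ℚ M)) =
      (starRingEnd ℂ) (φ (IsCyclotomicExtension.zeta m ℚ M))
    have h1 : φ (IsCyclotomicExtension.zeta m ℚ M) ^ m = 1 := by
      rw [← map_pow, hζ.pow_eq_one, map_one]
    have h2 : ‖φ (IsCyclotomicExtension.zeta m ℚ M)‖ = 1 :=
      Complex.norm_eq_one_of_pow_eq_one h1 hm.ne'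
    rw [IsCyclotomicExtension.Rat.galEquivZMod_apply_of_pow_eq m M _ hζ.pow_eq_one, galEquiv_cjM,
      map_pow, ← Complex.inv_eq_conj h2]
    rcases ConjM_val m with h3 | h3
    · rw [h3]
      exact (inv_eq_of_mul_eq_one_right (by rw [← pow_succ', Nat.sub_add_cancel hm, h1])).symm
    · subst h3
      rw [pow_one] at h1
      rw [h1, one_pow, inv_one]
  exact DFunLike.congr_fun hfg x

theorem norm_eq_one_of_mul_cjM (m : ℕ) [NeZero m] (M : Type*) [Field M] [NumberField M]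
    [IsCyclotomicExtension {m} ℚ M] (u : 𝓞 M) (hu : u * (cjM m M • u) = 1) (φ : M →+* ℂ) :
    ‖φ (u : M)‖ = 1 := by
  have h2 : φ (u : M) * (starRingEnd ℂ) (φ (u : M)) = 1 := by
    rw [← map_cjM_eq_conj m M φ, ← ConjM_coe, ← map_mul]
    have h3 : (u : M) * ((cjM m M • u : 𝓞 M) : M) = 1 := by
      have h4 := congrArg (fun z : 𝓞 M => (z : M)) hu
      simpa using h4
    rw [h3, map_one]
  rw [Complex.mul_conj, Complex.normSq_eq_norm_sq] at h2
  have h3 : ‖φ (u : M)‖ ^ 2 = 1 := by exact_mod_cast h2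
  nlinarith [norm_nonneg (φ (u : M))]

/-- `u * cj u = 1` implies that `u` is a root of unity of order dividing `2 m`. -/
theorem pow_eq_one_of_mul_cjM (m : ℕ) [NeZero m] (M : Type*) [Field M] [NumberField M]
    [IsCyclotomicExtension {m} ℚ M] (u : 𝓞 M) (hu : u * (cjM m M • u) = 1) :
    u ^ (2 * m) = 1 := by
  obtain ⟨n, hn, hx⟩ := NumberField.Embeddings.pow_eq_one_of_norm_eq_one M ℂ u.isIntegral_coe
    (norm_eq_one_of_mul_cjM m M u hu)
  have hx' : u ^ n = 1 := by
    apply RingOfIntegers.coe_injective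
    rw [map_pow, map_one]
    exact hx
  let v : (𝓞 M)ˣ := ⟨u, cjM m M • u, hu, by rw [mul_comm]; exact hu⟩
  have hv : v ^ n = 1 := by
    ext
    exact congrArg _ hx'
  have hvt : v ∈ NumberField.Units.torsion M := by
    refine (CommGroup.mem_torsion _).2 ?_
    exact isOfFinOrder_iff_pow_eq_one.2 ⟨n, hn, hv⟩
  have h1 : (⟨v, hvt⟩ : NumberField.Units.torsion M) ^ NumberField.Units.torsionOrder M = 1 := by
    unfold NumberField.Units.torsionOrder
    exact pow_card_eq_one'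
  have h2 : v ^ NumberField.Units.torsionOrder M = 1 := by
    have h3 := congrArg (fun z : NumberField.Units.torsion M => (z : (𝓞 M)ˣ)) h1
    exact h3
  have h4 : NumberField.Units.torsionOrder M ∣ 2 * m := by
    rw [IsCyclotomicExtension.Rat.torsionOrder_eq (n := m) (K := M)]
    split_ifs
    · exact dvd_mul_left _ _
    · exact dvd_rfl
  obtain ⟨k, hk⟩ := h4
  have h5 : v ^ (2 * m) = 1 := by
    rw [hk, pow_mul, h2, one_pow]
  have h6 := congrArg (fun z : (𝓞 M)ˣ => (z : 𝓞 M)) h5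
  exact h6

end H66AB

end

section

/-!
# Project AB, module RelA: the twisted Kummer relations

`f ≥ 1`, `p` an odd prime, `p ∤ f`, `L = ℚ(ζ_f) ⊆ K`, `(a, b, c)` a first case solution over `K` (`a` and `c`
prime to `p`), `w : 𝓞 L → Ω` (`Ω` algebraically closed of characteristic `p`), `w_g = w ∘ σ_g` for
`g ∈ (ℤ/f)ˣ`, `ψ g i : 𝓞 K → Ω`, `i < [K:L]`, the reduction of the `L`-embeddings of `K` over `w_g`
(`exists_relFam`).  For `1 ≤ c₀ < f p`, `2 ≤ j ≤ p - 2` and every character `χ : (ℤ/f)ˣ → Ωˣ`: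

  `∑_t ⌊c₀ t/(f p)⌋ t^{-j} χ(t) = 0`  or  `∑_g χ(g) ∑_i L_{j-1}(-ψ g i b / ψ g i a) = 0`.

PROOF. `P = N_{K/L}(a + bX)`, `A = P(ζ_p) P(1)^(p-1) ∈ ℤ[ζ_{fp}]` is prime to `p` and `(A) = I^p`
(`exists_pow_idealR`), `J^p ∏_{σ ∈ T_b} σ⁻¹ A = ζ_p^k Y^p` (`stick_pow`), logarithmic derivatives
(`rel_eval`), for all extensions of the place `w_g` to `ℤ[ζ_{fp}]`, sum over `b < c₀` and Fourier
transform (`fourier_rel`).
-/

namespace H9AB

open Polynomial NumberField H45KC
open scoped Pointwise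

universe u v w

/-- the automorphism `ζ_f ↦ ζ_f ^ g` of `L = ℚ(ζ_f)`, on `𝓞 L`, as a ring homomorphism -/
noncomputable def actL (f : ℕ) [NeZero f] (L : Type*) [Field L] [NumberField L]
    [IsCyclotomicExtension {f} ℚ L] (g : (ZMod f)ˣ) : 𝓞 L →+* 𝓞 L :=
  MulSemiringAction.toRingHom _ _ ((IsCyclotomicExtension.Rat.galEquivZMod f L).symm g)

theorem actL_mul (f : ℕ) [NeZero f] (L : Type*) [Field L] [NumberField L]
    [IsCyclotomicExtension {f} ℚ L] (g h : (ZMod f)ˣ) :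
    actL f L (g * h) = (actL f L g).comp (actL f L h) := by
  ext x
  unfold actL
  rw [map_mul]
  rfl

theorem actL_zeta (f : ℕ) [NeZero f] (L : Type*) [Field L] [NumberField L]
    [IsCyclotomicExtension {f} ℚ L] (g : (ZMod f)ˣ) (x : 𝓞 L) (hx : x ^ f = 1) :
    actL f L g x = x ^ (g.val.val) := by
  have h1 := IsCyclotomicExtension.Rat.galEquivZMod_smul_of_pow_eq f L
    ((IsCyclotomicExtension.Rat.galEquivZMod f L).symm g) hx
  rw [MulEquiv.apply_symm_apply] at h1
  exact h1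

/-- `ℚ(ζ_f)` embeds into `ℚ(ζ_{fp})` -/
theorem exists_emb (f p : ℕ) [NeZero f] [NeZero (f * p)] (L : Type*) [Field L] [NumberField L]
    [IsCyclotomicExtension {f} ℚ L] (M : Type*) [Field M] [NumberField M]
    [IsCyclotomicExtension {f * p} ℚ M] : Nonempty (L →ₐ[ℚ] M) := by
  have hM := IsCyclotomicExtension.zeta_spec (f * p) ℚ M
  have hL := IsCyclotomicExtension.zeta_spec f ℚ L
  have h1 : IsPrimitiveRoot (IsCyclotomicExtension.zeta (f * p) ℚ M ^ p) f :=
    hM.pow (NeZero.pos _) (mul_comm f p)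
  refine ⟨(hL.powerBasis ℚ).lift (IsCyclotomicExtension.zeta (f * p) ℚ M ^ p) ?_⟩
  rw [IsPrimitiveRoot.powerBasis_gen, ← Polynomial.cyclotomic_eq_minpoly_rat hL (NeZero.pos f)]
  have h2 := h1.isRoot_cyclotomic (NeZero.pos f)
  rw [aeval_def, eval₂_eq_eval_map, map_cyclotomic]
  exact h2

section

variable (f p : ℕ) [NeZero f] [NeZero (f * p)] (L : Type*) [Field L] [NumberField L]
    [IsCyclotomicExtension {f} ℚ L] (M : Type*) [Field M] [NumberField M]
    [IsCyclotomicExtension {f * p} ℚ M] [Algebra L M]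

omit [NumberField M] [IsCyclotomicExtension {f * p} ℚ M] in
theorem mem_adjoin {ζ : 𝓞 M} (hζ : IsPrimitiveRoot ζ (f * p)) (r : 𝓞 L) :
    algebraMap (𝓞 L) (𝓞 M) r ∈ Algebra.adjoin ℤ {ζ ^ p} := by
  have hL := IsCyclotomicExtension.zeta_spec f ℚ L
  obtain ⟨F, hF⟩ := (hL.integralPowerBasis).exists_eq_aeval' r
  rw [IsPrimitiveRoot.integralPowerBasis_gen] at hF
  have hz : IsPrimitiveRoot (ζ ^ p) f := hζ.pow (NeZero.pos _) (mul_comm f p)
  have h1 : (algebraMap (𝓞 L) (𝓞 M) hL.toInteger) ^ f = 1 := by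
    rw [← map_pow, hL.toInteger_isPrimitiveRoot.pow_eq_one, map_one]
  obtain ⟨i, -, hi⟩ := hz.eq_pow_of_pow_eq_one h1
  rw [hF, ← Polynomial.aeval_algebraMap_apply, ← hi]
  have h2 : Algebra.adjoin ℤ {(ζ ^ p) ^ i} ≤ Algebra.adjoin ℤ {ζ ^ p} := by
    rw [Algebra.adjoin_le_iff, Set.singleton_subset_iff]
    exact Subalgebra.pow_mem _ (Algebra.subset_adjoin (Set.mem_singleton _)) i
  exact h2 (Polynomial.aeval_mem_adjoin_singleton ℤ _)

theorem act_algebraMap (σ : M ≃ₐ[ℚ] M) (x : 𝓞 L) :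
    H71AB.act σ (algebraMap (𝓞 L) (𝓞 M) x) = algebraMap (𝓞 L) (𝓞 M)
      (actL f L (ZMod.unitsMap (dvd_mul_right f p)
        (IsCyclotomicExtension.Rat.galEquivZMod (f * p) M σ)) x) := by
  have hG : IsGalois ℚ L := IsCyclotomicExtension.isGalois {f} ℚ L
  have h1 := IsCyclotomicExtension.Rat.galEquivZMod_restrictNormal_apply (f * p) M L
    (dvd_mul_right f p) σ
  apply RingOfIntegers.coe_injective
  rw [← h1]
  show σ (algebraMap L M (x : L)) = algebraMap L M
    ((IsCyclotomicExtension.Rat.galEquivZMod f L).symm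
      (IsCyclotomicExtension.Rat.galEquivZMod f L (σ.restrictNormal L)) (x : L))
  rw [MulEquiv.symm_apply_apply]
  exact (AlgEquiv.restrictNormal_commutes σ L (x : L)).symm

end

end H9AB

end

section

/-!
# Project AB, module Desc: the relative norm form in towers

* `nfR_pow`: `N_{K'/F}(x + yX) = N_{K/F}(x + yX)^[K':K]` for `x, y ∈ 𝓞 K`.
* `nfR_prod`: `N_{K'/F}(x + yX) = ∏_{σ ∈ Gal(L/F)} σ(N_{K'/L}(x + yX))` for `x, y ∈ 𝓞 K'`.
* `exists_comp`: the compositum.
-/

namespace H72AB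

open Polynomial NumberField H9AB

universe u v w

section tower

variable (F K K' : Type*) [Field F] [NumberField F] [Field K] [NumberField K] [Field K'] [NumberField K']
  [Algebra F K] [Algebra K K'] [Algebra F K'] [IsScalarTower F K K']

theorem nfR_pow (x y : 𝓞 K) :
    nfR F K' (algebraMap (𝓞 K) (𝓞 K') x) (algebraMap (𝓞 K) (𝓞 K') y) =
      (nfR F K x y) ^ Module.finrank K K' := by
  apply map_injective (algebraMap (𝓞 F) F) RingOfIntegers.coe_injective
  rw [Polynomial.map_pow, nfR_map, nfR_map]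
  apply eq_of_infinite_eval_eq
  refine Set.Infinite.mono ?_ (Set.infinite_univ (α := F))
  intro t _
  show eval t (nfL F K' _ _) = eval t ((nfL F K _ _) ^ _)
  rw [eval_pow, nfL_eval, nfL_eval]
  have h1 : ((algebraMap (𝓞 K) (𝓞 K') x : 𝓞 K') : K') + t • ((algebraMap (𝓞 K) (𝓞 K') y : 𝓞 K') : K') =
      algebraMap K K' ((x : K) + t • (y : K)) := by
    rw [map_add, Algebra.smul_def, Algebra.smul_def, map_mul, IsScalarTower.algebraMap_apply F K K' t]
    rfl
  rw [h1, ← Algebra.norm_norm (R := F) (S := K), Algebra.norm_algebraMap, map_pow]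

end tower

section galois

variable (F L K' : Type*) [Field F] [NumberField F] [Field L] [NumberField L] [Field K'] [NumberField K']
  [Algebra F L] [Algebra L K'] [Algebra F K'] [IsScalarTower F L K'] [IsGalois F L]

theorem nfR_prod (x y : 𝓞 K') :
    (nfR F K' x y).map (algebraMap (𝓞 F) (𝓞 L)) =
      ∏ σ : L ≃ₐ[F] L, (nfR L K' x y).map (RingOfIntegers.mapRingHom (σ : L →+* L)) := by
  apply map_injective (algebraMap (𝓞 L) L) RingOfIntegers.coe_injective
  rw [Polynomial.map_prod, map_map]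
  have h2 : (algebraMap (𝓞 L) L).comp (algebraMap (𝓞 F) (𝓞 L)) =
      (algebraMap F L).comp (algebraMap (𝓞 F) F) := by
    ext x
    rfl
  rw [h2, ← map_map, nfR_map]
  have h3 : ∀ σ : L ≃ₐ[F] L, ((nfR L K' x y).map (RingOfIntegers.mapRingHom (σ : L →+* L))).map
      (algebraMap (𝓞 L) L) = (nfL L K' (x : K') (y : K')).map (σ : L →+* L) := by
    intro σ
    rw [← nfR_map, map_map, map_map]
    rfl
  simp only [h3]
  apply eq_of_infinite_eval_eq
  refine Set.Infinite.mono ?_ (Set.infinite_range_of_injective ((algebraMap F L).injective))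
  rintro _ ⟨t, rfl⟩
  show eval (algebraMap F L t) _ = eval (algebraMap F L t) _
  rw [eval_map_apply, nfL_eval, eval_prod, ← Algebra.norm_norm (R := F) (S := L),
    Algebra.norm_eq_prod_automorphisms]
  refine Finset.prod_congr rfl fun σ _ => ?_
  have h4 : algebraMap F L t = (σ : L →+* L) (algebraMap F L t) := (σ.commutes t).symm
  conv_rhs => rw [h4, eval_map_apply, nfL_eval]
  have h5 : t • (y : K') = (algebraMap F L t) • (y : K') := by
    rw [algebraMap_smul]
  rw [h5]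
  rfl

end galois

/-- the compositum of `K` and `L` over `F` -/
theorem exists_comp (F : Type u) (K : Type v) (L : Type w) [Field F] [NumberField F] [Field K] [NumberField K] [Field L] [NumberField L]
    [Algebra F K] [Algebra F L] :
    ∃ (K' : Type v) (_ : Field K') (_ : NumberField K') (_ : Algebra F K') (_ : Algebra K K') (_ : Algebra L K'),
      IsScalarTower F K K' ∧ IsScalarTower F L K' ∧
      Module.finrank F K' ≤ Module.finrank F K * Module.finrank F L := by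
  let E := AlgebraicClosure K
  let φK : K →ₐ[F] E := IsScalarTower.toAlgHom F K E
  have hFL : FiniteDimensional F L := Module.Finite.of_restrictScalars_finite ℚ F L
  have hFK : FiniteDimensional F K := Module.Finite.of_restrictScalars_finite ℚ F K
  let φL : L →ₐ[F] E := IsAlgClosed.lift
  let K' : IntermediateField F E := φK.fieldRange ⊔ φL.fieldRange
  have e1 : Module.finrank F φK.fieldRange = Module.finrank F K :=
    (AlgEquiv.ofInjectiveField φK).symm.toLinearEquiv.finrank_eq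
  have e2 : Module.finrank F φL.fieldRange = Module.finrank F L :=
    (AlgEquiv.ofInjectiveField φL).symm.toLinearEquiv.finrank_eq
  have f1 : FiniteDimensional F φK.fieldRange :=
    LinearEquiv.finiteDimensional (AlgEquiv.ofInjectiveField φK).toLinearEquiv
  have f2 : FiniteDimensional F φL.fieldRange :=
    LinearEquiv.finiteDimensional (AlgEquiv.ofInjectiveField φL).toLinearEquiv
  have hfin : FiniteDimensional F K' := IntermediateField.finiteDimensional_sup _ _
  have : CharZero K' := charZero_of_injective_algebraMap (algebraMap F K').injective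
  have hNf : NumberField K' := by
    refine { to_charZero := inferInstance, to_finiteDimensional := ?_ }
    have : IsScalarTower ℚ F K' := IsScalarTower.of_algebraMap_eq' (Subsingleton.elim _ _)
    exact Module.Finite.trans F K'
  let iK : K →ₐ[F] K' := φK.codRestrict K'.toSubalgebra fun x =>
    (le_sup_left : φK.fieldRange ≤ K') ⟨x, rfl⟩
  let iL : L →ₐ[F] K' := φL.codRestrict K'.toSubalgebra fun x =>
    (le_sup_right : φL.fieldRange ≤ K') ⟨x, rfl⟩
  refine ⟨K', inferInstance, hNf, inferInstance, iK.toRingHom.toAlgebra, iL.toRingHom.toAlgebra, ?_, ?_, ?_⟩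
  · let _ : Algebra K K' := iK.toRingHom.toAlgebra
    exact IsScalarTower.of_algebraMap_eq fun x => (iK.commutes x).symm
  · let _ : Algebra L K' := iL.toRingHom.toAlgebra
    exact IsScalarTower.of_algebraMap_eq fun x => (iL.commutes x).symm
  · refine (IntermediateField.finrank_sup_le _ _).trans ?_
    rw [e1, e2]

/-- the root multiplicities of a product of linear polynomials -/
theorem mult_prod {Ω : Type*} [Field Ω] [DecidableEq Ω] {ι : Type*} (s : Finset ι) (a b : ι → Ω)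
    (h : ∀ i ∈ s, a i ≠ 0 ∨ b i ≠ 0) (x : Ω) :
    rootMultiplicity x (∏ i ∈ s, (C (a i) + X * C (b i))) = (s.filter (fun i => a i + x * b i = 0)).card := by
  classical
  induction s using Finset.induction_on with
  | empty => simp
  | insert j s hj ih =>
    have h1 : ∀ i ∈ insert j s, (C (a i) + X * C (b i) : Polynomial Ω) ≠ 0 := by
      intro i hi h0
      have e0 := congrArg (fun P => coeff P 0) h0
      have e1 := congrArg (fun P => coeff P 1) h0
      simp only [coeff_add, coeff_C_zero, coeff_C_succ, mul_coeff_zero, coeff_X_zero, zero_mul, add_zero, coeff_zero,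
        coeff_X_mul, zero_add] at e0 e1
      rcases h i hi with h2 | h2
      · exact h2 e0
      · apply h2
        have e1' := congrArg (fun P => coeff P (0 + 1)) h0
        simp only [coeff_add, coeff_C_succ, coeff_X_mul, coeff_C_zero, zero_add, coeff_zero] at e1'
        exact e1'
    have h2 : (∏ i ∈ s, (C (a i) + X * C (b i)) : Polynomial Ω) ≠ 0 :=
      Finset.prod_ne_zero_iff.2 fun i hi => h1 i (Finset.mem_insert_of_mem hi)
    rw [Finset.prod_insert hj, rootMultiplicity_mul (mul_ne_zero (h1 j (Finset.mem_insert_self _ _)) h2),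
      ih fun i hi => h i (Finset.mem_insert_of_mem hi), Finset.filter_insert]
    have h3 : eval x (C (a j) + X * C (b j)) = a j + x * b j := by
      rw [eval_add, eval_C, eval_mul, eval_X, eval_C]
    by_cases hx : a j + x * b j = 0
    · rw [if_pos hx, Finset.card_insert_of_notMem (fun h4 => hj (Finset.mem_filter.1 h4).1), add_comm]
      congr 1
      have hb : b j ≠ 0 := by
        intro hb
        rw [hb, mul_zero, add_zero] at hx
        rcases h j (Finset.mem_insert_self _ _) with h5 | h5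
        · exact h5 hx
        · exact h5 hb
      have e : (C (a j) + X * C (b j) : Polynomial Ω) = C (b j) * (X - C x) := by
        have : a j = -(x * b j) := eq_neg_of_add_eq_zero_left hx
        rw [this, C_neg, C_mul]
        ring
      rw [e, rootMultiplicity_mul (by rw [← e]; exact h1 j (Finset.mem_insert_self _ _)), rootMultiplicity_C, zero_add,
        rootMultiplicity_X_sub_C_self]
    · rw [if_neg hx, rootMultiplicity_eq_zero (by rw [IsRoot, h3]; exact hx), zero_add]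

end H72AB

end

section

/-!
# Project AB, module DecM

Decomposition of a prime number `l ∤ m` in `M = ℚ(ζ_m)` (see H9.FC.Dec for `m` prime).
-/

namespace H9AB

open NumberField H9FC
open scoped Pointwise

private theorem DecM_ne_bot {M : Type*} [Field M] [NumberField M] {l : ℕ} (hl0 : l ≠ 0)
    {𝔩 : Ideal (𝓞 M)} (hl : (l : 𝓞 M) ∈ 𝔩) : 𝔩 ≠ ⊥ := by
  intro h
  rw [h, Ideal.mem_bot] at hl
  exact hl0 (by exact_mod_cast hl)

private theorem DecM_over {M : Type*} [Field M] [NumberField M] (l : ℕ) [hlp : Fact l.Prime]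
    (𝔩 : Ideal (𝓞 M)) (h𝔩 : 𝔩.IsPrime) (hl : (l : 𝓞 M) ∈ 𝔩) :
    𝔩.LiesOver (Ideal.span {(l : ℤ)}) := by
  constructor
  have h0 : (l : ℤ) ≠ 0 := by exact_mod_cast hlp.out.ne_zero
  have h1 : (Ideal.span {(l : ℤ)}).IsPrime := by
    rw [Ideal.span_singleton_prime h0]
    exact Nat.prime_iff_prime_int.mp hlp.out
  have h2 : (Ideal.span {(l : ℤ)}).IsMaximal := h1.isMaximal (by
    rw [Ne, Ideal.span_singleton_eq_bot]; exact h0)
  have h3 : Ideal.span {(l : ℤ)} ≤ 𝔩.under ℤ := by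
    rw [Ideal.span_singleton_le_iff_mem]
    show algebraMap ℤ (𝓞 M) (l : ℤ) ∈ 𝔩
    rw [map_natCast]
    exact hl
  have h4 : (𝔩.under ℤ) ≠ ⊤ := (Ideal.IsPrime.under ℤ 𝔩).ne_top
  exact h2.eq_of_le h4 h3

theorem decM_ord (m : ℕ) [NeZero m] (M : Type*) [Field M] [NumberField M]
    [IsCyclotomicExtension {m} ℚ M] (l : ℕ) [Fact l.Prime] (hlm : ¬ l ∣ m) (𝔩 : Ideal (𝓞 M))
    (h𝔩 : 𝔩.IsPrime) (hl : (l : 𝓞 M) ∈ 𝔩) : ordI 𝔩 (Ideal.span {(l : 𝓞 M)}) = 1 := by
  classical
  have h1 := DecM_over l 𝔩 h𝔩 hl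
  have h2 : (Ideal.span {(l : ℤ)}).map (algebraMap ℤ (𝓞 M)) = Ideal.span {(l : 𝓞 M)} := by
    rw [Ideal.map_span, Set.image_singleton, map_natCast]
  have h0 : (l : 𝓞 M) ≠ 0 := by exact_mod_cast (Fact.out : l.Prime).ne_zero
  have h3 : (Ideal.span {(l : ℤ)}).map (algebraMap ℤ (𝓞 M)) ≠ ⊥ := by
    rw [h2, Ne, Ideal.span_singleton_eq_bot]; exact h0
  have h4 := Ideal.IsDedekindDomain.ramificationIdx_eq_normalizedFactors_count
    (Ideal.span {(l : ℤ)}) 𝔩 h3
  rw [IsCyclotomicExtension.Rat.ramificationIdx_eq_of_not_dvd (m := m) l M 𝔩 hlm, h2] at h4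
  unfold ordI
  rw [h4]

theorem decM_card (m : ℕ) [NeZero m] (M : Type*) [Field M] [NumberField M]
    [IsCyclotomicExtension {m} ℚ M] (l : ℕ) [Fact l.Prime] (hlm : ¬ l ∣ m) (𝔩 : Ideal (𝓞 M))
    (h𝔩 : 𝔩.IsPrime) (hl : (l : 𝓞 M) ∈ 𝔩) :
    Nat.card (𝓞 M ⧸ 𝔩) = l ^ orderOf (l : ZMod m) := by
  have h1 := DecM_over l 𝔩 h𝔩 hl
  have h2 := Ideal.pow_inertiaDeg l 𝔩
  rw [IsCyclotomicExtension.Rat.inertiaDeg_eq_of_not_dvd (m := m) l M 𝔩 hlm] at h2
  rw [h2]
  rfl

theorem decM_stab (m : ℕ) [NeZero m] (M : Type*) [Field M] [NumberField M]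
    [IsCyclotomicExtension {m} ℚ M] (l : ℕ) [Fact l.Prime] (hlm : ¬ l ∣ m) (𝔩 : Ideal (𝓞 M))
    (h𝔩 : 𝔩.IsPrime) (hl : (l : 𝓞 M) ∈ 𝔩) (σ : M ≃ₐ[ℚ] M) :
    σ • 𝔩 = 𝔩 ↔ ∃ i < orderOf (l : ZMod m),
      ((IsCyclotomicExtension.Rat.galEquivZMod m M σ : (ZMod m)ˣ) : ZMod m) = (l : ZMod m) ^ i := by
  classical
  have h1 := DecM_over l 𝔩 h𝔩 hl
  have hmax : 𝔩.IsMaximal := h𝔩.isMaximal (DecM_ne_bot (Fact.out : l.Prime).ne_zero hl)
  have hcop : l.Coprime m :=
    (Nat.Prime.coprime_iff_not_dvd (Fact.out : l.Prime)).mpr hlm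
  have h2 := IsCyclotomicExtension.Rat.galEquivZMod_stabilizer m M l 𝔩 hcop
  have h3 : σ • 𝔩 = 𝔩 ↔ IsCyclotomicExtension.Rat.galEquivZMod m M σ ∈
      Subgroup.zpowers (ZMod.unitOfCoprime l hcop) := by
    rw [← h2]
    constructor
    · intro h
      exact ⟨σ, MulAction.mem_stabilizer_iff.mpr h, rfl⟩
    · rintro ⟨τ, hτ, hτ2⟩
      have h5 : τ = σ := (IsCyclotomicExtension.Rat.galEquivZMod m M).injective hτ2
      rw [← h5]
      exact MulAction.mem_stabilizer_iff.mp hτ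
  have h4 : orderOf (ZMod.unitOfCoprime l hcop) = orderOf (l : ZMod m) := by
    rw [← orderOf_units, ZMod.coe_unitOfCoprime]
  rw [h3, mem_zpowers_iff_mem_range_orderOf, Finset.mem_image]
  constructor
  · rintro ⟨i, hi, hi2⟩
    rw [Finset.mem_range, h4] at hi
    refine ⟨i, hi, ?_⟩
    rw [← hi2, Units.val_pow_eq_pow_val, ZMod.coe_unitOfCoprime]
  · rintro ⟨i, hi, hi2⟩
    refine ⟨i, ?_, ?_⟩
    · rw [Finset.mem_range, h4]; exact hi
    · apply Units.ext
      rw [Units.val_pow_eq_pow_val, ZMod.coe_unitOfCoprime, hi2]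

theorem decM_trans (m : ℕ) [NeZero m] (M : Type*) [Field M] [NumberField M]
    [IsCyclotomicExtension {m} ℚ M] (l : ℕ) [Fact l.Prime] (𝔩 𝔮 : Ideal (𝓞 M))
    (h𝔩 : 𝔩.IsPrime) (hl : (l : 𝓞 M) ∈ 𝔩) (h𝔮 : 𝔮.IsPrime) (hq : (l : 𝓞 M) ∈ 𝔮) :
    ∃ σ : M ≃ₐ[ℚ] M, σ • 𝔩 = 𝔮 := by
  have h1 := DecM_over l 𝔩 h𝔩 hl
  have h2 := DecM_over l 𝔮 h𝔮 hq
  have h3 : IsGalois ℚ M := IsCyclotomicExtension.isGalois {m} ℚ M
  exact Ideal.exists_smul_eq_of_isGaloisGroup (Ideal.span {(l : ℤ)}) 𝔩 𝔮 (M ≃ₐ[ℚ] M)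

end H9AB

end

section

/-!
# Project AB, module Unr: from `(α β^(p-1)) = I^p` to an element prime to `p`

`unr`: in a Dedekind domain let `α β^(p-1)` generate a `p`-th power of an ideal, and let `α, β` have the same
order at all primes containing `p`.  Then there are `A, y` outside all primes containing `p` with
`A β = y^p α`, and `A` generates a `p`-th power.

`smul_sub_mem`: an automorphism `s` of `M = ℚ(ζ_m)` with `s ζ_m = ζ_m η`, `η^p = 1`, is the identity modulo all primes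
containing `p`; so `α` and `s α` have the same order there (`ordI_smul_eq`).
-/

open NumberField H9FC
open scoped Pointwise

namespace H77AB

section
variable {R : Type*} [CommRing R] [IsDedekindDomain R]

omit [IsDedekindDomain R] in
private theorem Unr_ne (p : ℕ) (hp0 : (p : R) ≠ 0) (Q : Ideal R) (hpQ : (p : R) ∈ Q) : Q ≠ ⊥ := by
  rintro rfl
  exact hp0 (by simpa using hpQ)

theorem unr (p : ℕ) (hp : 1 ≤ p) (hp0 : (p : R) ≠ 0) {α β : R} (hα : α ≠ 0) (hβ : β ≠ 0) (I : Ideal R)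
    (hI : I ^ p = Ideal.span {α * β ^ (p - 1)})
    (hv : ∀ Q : Ideal R, Q.IsPrime → (p : R) ∈ Q →
      ordI Q (Ideal.span {α}) = ordI Q (Ideal.span {β})) :
    ∃ A y : R, A * β = y ^ p * α ∧ A ≠ 0 ∧ y ≠ 0 ∧
      (∀ Q : Ideal R, Q.IsPrime → (p : R) ∈ Q → A ∉ Q ∧ y ∉ Q) ∧
      ∃ J : Ideal R, J ^ p = Ideal.span {A} := by
  classical
  have hsα : Ideal.span {α} ≠ ⊥ := by rwa [Ne, Ideal.span_singleton_eq_bot]
  have hsβ : Ideal.span {β} ≠ ⊥ := by rwa [Ne, Ideal.span_singleton_eq_bot]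
  have hαβ : α * β ^ (p - 1) ≠ 0 := mul_ne_zero hα (pow_ne_zero _ hβ)
  have hI0 : I ≠ ⊥ := by
    rintro rfl
    have h1 : (⊥ : Ideal R) ^ p = ⊥ := by
      rw [← Ideal.zero_eq_bot]
      exact zero_pow (by omega)
    rw [h1] at hI
    exact hαβ (Ideal.span_singleton_eq_bot.1 hI.symm)
  -- the order of `I`
  have hordI : ∀ Q : Ideal R, Q.IsPrime → (p : R) ∈ Q → ordI Q I = ordI Q (Ideal.span {β}) := by
    intro Q hQ hpQ
    have h1 := congrArg (ordI Q) hI
    rw [ordI_pow, ← Ideal.span_singleton_mul_span_singleton, ← Ideal.span_singleton_pow,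
      ordI_mul Q _ _ hsα (pow_ne_zero _ hsβ), ordI_pow, hv Q hQ hpQ] at h1
    obtain ⟨q, rfl⟩ : ∃ q, p = q + 1 := ⟨p - 1, by omega⟩
    rw [Nat.add_sub_cancel] at h1
    have h2 : (q + 1) * ordI Q I = (q + 1) * ordI Q (Ideal.span {β}) := by
      rw [h1]
      ring
    exact Nat.eq_of_mul_eq_mul_left (Nat.succ_pos q) h2
  -- the part of `(β)` prime to `I`
  obtain ⟨B, hB⟩ : I ⊔ Ideal.span {β} ∣ Ideal.span {β} := Ideal.dvd_iff_le.2 le_sup_right
  obtain ⟨I', hI'⟩ : I ⊔ Ideal.span {β} ∣ I := Ideal.dvd_iff_le.2 le_sup_left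
  have hG0 : I ⊔ Ideal.span {β} ≠ ⊥ := by
    intro h0
    exact hI0 (le_bot_iff.1 (h0 ▸ le_sup_left))
  have hB0 : B ≠ ⊥ := by
    rintro rfl
    exact hsβ (by rw [hB, ← Ideal.zero_eq_bot, mul_zero])
  have hBI : B * I ≤ Ideal.span {β} := by
    rw [← Ideal.dvd_iff_le]
    refine ⟨I', ?_⟩
    calc B * I = B * ((I ⊔ Ideal.span {β}) * I') := by rw [← hI']
      _ = ((I ⊔ Ideal.span {β}) * B) * I' := by ring
      _ = Ideal.span {β} * I' := by rw [← hB]
  have hBQ : ∀ Q : Ideal R, Q.IsPrime → (p : R) ∈ Q → ¬ B ≤ Q := by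
    intro Q hQ hpQ hle
    have hQ0 := Unr_ne p hp0 Q hpQ
    have h1 : 1 ≤ ordI Q B := (le_ordI_iff Q B hQ hQ0 hB0 1).2 (by rwa [pow_one])
    have h2 : ordI Q (Ideal.span {β}) ≤ ordI Q (I ⊔ Ideal.span {β}) := by
      rw [le_ordI_iff Q _ hQ hQ0 hG0]
      refine sup_le ?_ ?_
      · rw [← le_ordI_iff Q _ hQ hQ0 hI0, hordI Q hQ hpQ]
      · rw [← le_ordI_iff Q _ hQ hQ0 hsβ]
    have h3 := congrArg (ordI Q) hB
    rw [ordI_mul Q _ _ hG0 hB0] at h3
    omega
  -- prime avoidance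
  obtain ⟨y, hyB, hy0, hyQ⟩ : ∃ y ∈ B, y ≠ 0 ∧ ∀ Q : Ideal R, Q.IsPrime → (p : R) ∈ Q → y ∉ Q := by
    by_cases hex : ∃ Q : Ideal R, Q.IsPrime ∧ (p : R) ∈ Q
    swap
    · obtain ⟨y, hyB, hy0⟩ := Submodule.exists_mem_ne_zero_of_ne_bot hB0
      exact ⟨y, hyB, hy0, fun Q hQ hpQ => (hex ⟨Q, hQ, hpQ⟩).elim⟩
    have hsp : Ideal.span {(p : R)} ≠ ⊥ := by rwa [Ne, Ideal.span_singleton_eq_bot]
    set S := (UniqueFactorizationMonoid.normalizedFactors (Ideal.span {(p : R)})).toFinset with hS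
    have hmem : ∀ Q : Ideal R, Q.IsPrime → (p : R) ∈ Q → Q ∈ S := by
      intro Q hQ hpQ
      have hQ0 := Unr_ne p hp0 Q hpQ
      have h1 : 1 ≤ ordI Q (Ideal.span {(p : R)}) :=
        (le_ordI_iff Q _ hQ hQ0 hsp 1).2 (by rw [pow_one]; exact (Ideal.span_singleton_le_iff_mem _).2 hpQ)
      rw [hS, Multiset.mem_toFinset, ← Multiset.one_le_count_iff_mem]
      unfold ordI at h1
      exact h1
    have hSp : ∀ Q ∈ S, Q.IsPrime := by
      intro Q hQ
      rw [hS, Multiset.mem_toFinset] at hQ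
      exact Ideal.isPrime_of_prime (UniqueFactorizationMonoid.prime_of_normalized_factor Q hQ)
    have hSm : ∀ Q ∈ S, (p : R) ∈ Q := by
      intro Q hQ
      rw [hS, Multiset.mem_toFinset] at hQ
      have h1 := UniqueFactorizationMonoid.dvd_of_mem_normalizedFactors hQ
      exact (Ideal.span_singleton_le_iff_mem _).1 (Ideal.dvd_iff_le.1 h1)
    suffices h0 : ∃ y ∈ B, ∀ Q : Ideal R, Q.IsPrime → (p : R) ∈ Q → y ∉ Q by
      obtain ⟨y, hyB, hyQ⟩ := h0
      refine ⟨y, hyB, ?_, hyQ⟩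
      rintro rfl
      obtain ⟨Q, hQ, hpQ⟩ := hex
      exact hyQ Q hQ hpQ (Ideal.zero_mem Q)
    by_contra hcon
    push Not at hcon
    have h1 : (B : Set R) ⊆ ⋃ Q ∈ (S : Set (Ideal R)), ((fun Q => Q) Q : Ideal R) := by
      intro y hy
      obtain ⟨Q, hQ, hpQ, hyQ⟩ := hcon y hy
      simp only [Set.mem_iUnion]
      exact ⟨Q, hmem Q hQ hpQ, hyQ⟩
    have h2 := (Ideal.subset_union_prime (f := fun Q : Ideal R => Q) ⊥ ⊥ (fun Q hQ _ _ => hSp Q hQ)).1 h1
    obtain ⟨Q, hQ, hle⟩ := h2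
    exact hBQ Q (hSp Q hQ) (hSm Q hQ) hle
  have hsy : Ideal.span {y} ≠ ⊥ := by rwa [Ne, Ideal.span_singleton_eq_bot]
  obtain ⟨J, hJ⟩ : Ideal.span {β} ∣ Ideal.span {y} * I := by
    rw [Ideal.dvd_iff_le]
    exact (Ideal.mul_mono_left ((Ideal.span_singleton_le_iff_mem _).2 hyB)).trans hBI
  have h1 : Ideal.span {y ^ p * α} = Ideal.span {β} * J ^ p := by
    have h2 : Ideal.span {y ^ p * α} * Ideal.span {β} ^ (p - 1)
        = (Ideal.span {β} * J ^ p) * Ideal.span {β} ^ (p - 1) := by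
      calc Ideal.span {y ^ p * α} * Ideal.span {β} ^ (p - 1)
          = Ideal.span {y} ^ p * Ideal.span {α * β ^ (p - 1)} := by
            simp only [← Ideal.span_singleton_mul_span_singleton, ← Ideal.span_singleton_pow]
            ring
        _ = (Ideal.span {y} * I) ^ p := by rw [← hI, mul_pow]
        _ = (Ideal.span {β} * J) ^ p := by rw [hJ]
        _ = Ideal.span {β} ^ p * J ^ p := mul_pow _ _ _
        _ = (Ideal.span {β} * Ideal.span {β} ^ (p - 1)) * J ^ p := by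
            rw [← pow_succ', Nat.sub_add_cancel hp]
        _ = _ := by ring
    exact mul_right_cancel₀ (pow_ne_zero _ hsβ) h2
  obtain ⟨A, hA⟩ : β ∣ y ^ p * α := by
    rw [← Ideal.span_singleton_le_span_singleton, h1]
    exact Ideal.mul_le_left (I := Ideal.span {β}) (J := J ^ p)
  have hA0 : A ≠ 0 := by
    rintro rfl
    rw [mul_zero] at hA
    exact mul_ne_zero (pow_ne_zero _ hy0) hα hA
  have hsA : Ideal.span {A} ≠ ⊥ := by rwa [Ne, Ideal.span_singleton_eq_bot]
  have hJA : J ^ p = Ideal.span {A} := by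
    rw [hA, ← Ideal.span_singleton_mul_span_singleton] at h1
    exact (mul_left_cancel₀ hsβ h1).symm
  refine ⟨A, y, by rw [hA, mul_comm], hA0, hy0, fun Q hQ hpQ => ⟨?_, hyQ Q hQ hpQ⟩, J, hJA⟩
  have hQ0 := Unr_ne p hp0 Q hpQ
  rw [← ordI_span_eq_zero_iff Q hQ hQ0 A hA0]
  have h3 : Ideal.span {β} * Ideal.span {A} = Ideal.span {y} ^ p * Ideal.span {α} := by
    rw [Ideal.span_singleton_pow, Ideal.span_singleton_mul_span_singleton,
      Ideal.span_singleton_mul_span_singleton, ← hA]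
  have h4 := congrArg (ordI Q) h3
  rw [ordI_mul Q _ _ hsβ hsA, ordI_mul Q _ _ (pow_ne_zero _ hsy) hsα, ordI_pow,
    (ordI_span_eq_zero_iff Q hQ hQ0 y hy0).2 (hyQ Q hQ hpQ), mul_zero, zero_add, hv Q hQ hpQ] at h4
  omega

end

section
variable (m : ℕ) [NeZero m] (M : Type*) [Field M] [NumberField M] [IsCyclotomicExtension {m} ℚ M]

theorem smul_sub_mem {ζ : 𝓞 M} (hζ : IsPrimitiveRoot ζ m) (p : ℕ) [Fact p.Prime] (s : M ≃ₐ[ℚ] M) (η : 𝓞 M)
    (hη : η ^ p = 1) (hs : s • ζ = ζ * η) (Q : Ideal (𝓞 M)) (hQ : Q.IsPrime) (hpQ : (p : 𝓞 M) ∈ Q)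
    (x : 𝓞 M) : s • x - x ∈ Q := by
  have hη1 : η - 1 ∈ Q := by
    have h1 : (Ideal.Quotient.mk Q (η - 1)) ^ p = 0 := by
      have : CharP (𝓞 M ⧸ Q) p := by
        refine (CharP.charP_iff_prime_eq_zero Fact.out).2 ?_
        rw [← map_natCast (Ideal.Quotient.mk Q), Ideal.Quotient.eq_zero_iff_mem]
        exact hpQ
      rw [map_sub, map_one, sub_pow_char, one_pow, ← map_pow, hη, map_one, sub_self]
    have h2 := pow_eq_zero_iff (Fact.out : p.Prime).ne_zero |>.1 h1
    rwa [Ideal.Quotient.eq_zero_iff_mem] at h2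
  have htop : Algebra.adjoin ℤ {ζ} = (⊤ : Subalgebra ℤ (𝓞 M)) := by
    have h := IsCyclotomicExtension.Rat.adjoin_singleton_eq_top
      (hζ.map_of_injective (f := algebraMap (𝓞 M) M) RingOfIntegers.coe_injective)
    rwa [IsPrimitiveRoot.toInteger_coe] at h
  have hx : x ∈ Algebra.adjoin ℤ {ζ} := by rw [htop]; exact Algebra.mem_top
  induction hx using Algebra.adjoin_induction with
  | mem x hx =>
    rw [Set.mem_singleton_iff] at hx
    rw [hx, hs]
    have : ζ * η - ζ = ζ * (η - 1) := by ring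
    rw [this]
    exact Q.mul_mem_left _ hη1
  | algebraMap r =>
    have : s • (algebraMap ℤ (𝓞 M) r) = algebraMap ℤ (𝓞 M) r := by
      rw [Algebra.algebraMap_eq_smul_one, smul_comm, smul_one]
    rw [this, sub_self]
    exact Q.zero_mem
  | add x y _ _ hx hy =>
    have : s • (x + y) - (x + y) = (s • x - x) + (s • y - y) := by
      rw [smul_add]
      ring
    rw [this]
    exact Q.add_mem hx hy
  | mul x y _ _ hx hy =>
    have : s • (x * y) - x * y = (s • x) * (s • y - y) + (s • x - x) * y := by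
      rw [smul_mul']
      ring
    rw [this]
    exact Q.add_mem (Q.mul_mem_left _ hy) (Q.mul_mem_right _ hx)

/-- `s` has the inertia property at the primes containing `p`: orders at these primes are preserved -/
theorem ordI_smul_eq {ζ : 𝓞 M} (hζ : IsPrimitiveRoot ζ m) (p : ℕ) [Fact p.Prime] (s : M ≃ₐ[ℚ] M) (η : 𝓞 M)
    (hη : η ^ p = 1) (hs : s • ζ = ζ * η) (Q : Ideal (𝓞 M)) (hQ : Q.IsPrime) (hpQ : (p : 𝓞 M) ∈ Q)
    (x : 𝓞 M) : ordI Q (Ideal.span {s • x}) = ordI Q (Ideal.span {x}) := by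
  have hQ0 : Q ≠ ⊥ := Unr_ne p (Nat.cast_ne_zero.2 (Fact.out : p.Prime).ne_zero) Q hpQ
  have hsQ : s • Q = Q := by
    ext z
    rw [Ideal.mem_pointwise_smul_iff_inv_smul_mem]
    have h1 := smul_sub_mem m M hζ p s η hη hs Q hQ hpQ (s⁻¹ • z)
    rw [smul_inv_smul] at h1
    constructor
    · intro h2
      have h3 := Q.add_mem h1 h2
      rwa [sub_add_cancel] at h3
    · intro h2
      have h3 := Q.sub_mem h2 h1
      rwa [sub_sub_cancel] at h3
  have hsp : s • (Ideal.span {x} : Ideal (𝓞 M)) = Ideal.span {s • x} := by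
    change Ideal.map (MulSemiringAction.toRingHom (M ≃ₐ[ℚ] M) (𝓞 M) s) (Ideal.span {x}) = _
    rw [Ideal.map_span, Set.image_singleton]
    rfl
  rw [← hsp]
  conv_lhs => rw [← hsQ]
  exact ordI_smul s Q _ hQ hQ0

end

end H77AB

end

section

/-!
# Project AB, module RelPow

For a first case solution `(a, b, c)` over `K ⊇ L` (only: `c` is prime to `p`), `P = nfR L K a b` and a
primitive `p`-th root of unity `ζ ∈ M ⊇ L`, the element `A = P(ζ) P(1)^(p-1)` of `𝓞 M` is prime to `p`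
and its ideal is a `p`-th power.

PROOF. Take `N ⊇ M` with `[K:L]` homomorphisms `σ : K → N` over `L` and `p ∤ [N:M]`.  The image of `A` in
`𝓞 N` is the product of the `(σ a + ζ σ b)(σ a + σ b)^(p-1)`.  For a prime `Q` of `𝓞 N`, `p ∉ Q`, all
`v_Q(σ a + μ σ b)`, `μ^p = 1`, are congruent modulo `p`; for `p ∈ Q` the factors are not in `Q`:
`ζ ≡ 1` and `(σ a + σ b)^p ≡ - (σ c)^p` modulo `Q`.  So all exponents of `A 𝓞_N` are divisible by `p`; descend.
-/

namespace H9AB

open Polynomial NumberField H9FC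

universe u v w

private theorem RelPow_ne {R : Type*} [CommRing R] [IsDomain R] (p : ℕ) [Fact p.Prime]
    (hp : p ≠ 2) {ζ : R} (hζ : ζ ^ p = 1) {α β γ : R} (h : α ^ p + β ^ p = γ ^ p)
    (hγ0 : γ ≠ 0) : α + ζ * β ≠ 0 := by
  intro h0
  have hodd : Odd p := Nat.Prime.odd_of_ne_two Fact.out hp
  have hα : α = -(ζ * β) := eq_neg_of_add_eq_zero_left h0
  rw [hα, hodd.neg_pow, mul_pow, hζ, one_mul, neg_add_cancel] at h
  exact hγ0 ((pow_eq_zero_iff (Nat.Prime.ne_zero Fact.out)).1 h.symm)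

private theorem RelPow_root {R : Type*} [CommRing R] (p : ℕ) [Fact p.Prime] {μ ν : R}
    (hμ : μ ^ p = 1) (hν : ν ^ p = 1) (P : Ideal R) (hP : P.IsPrime) (hpP : (p : R) ∉ P)
    [IsDomain R] (hne : μ ≠ ν) : μ - ν ∉ P := by
  intro hmem
  have hp0 : p ≠ 0 := Nat.Prime.ne_zero Fact.out
  have h1 : (∑ i ∈ Finset.range p, μ ^ i * ν ^ (p - 1 - i)) = 0 := by
    have h2 := geom_sum₂_mul μ ν p
    rw [hμ, hν, sub_self] at h2
    exact (mul_eq_zero.1 h2).resolve_right (sub_ne_zero.2 hne)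
  have h3 : Ideal.Quotient.mk P μ = Ideal.Quotient.mk P ν := Ideal.Quotient.eq.2 hmem
  have h4 := congrArg (Ideal.Quotient.mk P) h1
  rw [map_sum, map_zero] at h4
  have h5 : ∑ i ∈ Finset.range p, Ideal.Quotient.mk P (μ ^ i * ν ^ (p - 1 - i)) =
      ∑ i ∈ Finset.range p, Ideal.Quotient.mk P ν ^ (p - 1) := by
    refine Finset.sum_congr rfl fun i hi => ?_
    have hi' : i < p := Finset.mem_range.1 hi
    rw [map_mul, map_pow, map_pow, h3, ← pow_add]
    congr 1
    omega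
  rw [h5, Finset.sum_const, Finset.card_range, nsmul_eq_mul] at h4
  have h6 : (Ideal.Quotient.mk P) ((p : R) * ν ^ (p - 1)) = 0 := by
    rw [map_mul, map_natCast, map_pow]
    exact h4
  rw [Ideal.Quotient.eq_zero_iff_mem] at h6
  rcases hP.mem_or_mem h6 with h7 | h7
  · exact hpP h7
  · have h8 : ν ∈ P := hP.mem_of_pow_mem _ h7
    have h9 : ν ^ p ∈ P := Ideal.pow_mem_of_mem P h8 p (Nat.pos_of_ne_zero hp0)
    rw [hν] at h9
    exact hP.ne_top ((Ideal.eq_top_iff_one P).2 h9)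

private theorem RelPow_ord {R : Type*} [CommRing R] [IsDedekindDomain R] (p : ℕ) [Fact p.Prime]
    (hp : p ≠ 2) {ζ : R} (hζ : IsPrimitiveRoot ζ p) {α β γ : R} (h : α ^ p + β ^ p = γ ^ p)
    (hγ0 : γ ≠ 0) (P : Ideal R) (hP : P.IsPrime) (hP0 : P ≠ ⊥) (hpP : (p : R) ∉ P) :
    ∃ m : ℕ, ∀ μ : R, μ ^ p = 1 → ((ordI P (Ideal.span {α + μ * β}) : ℕ) : ZMod p) = m := by
  have hodd : Odd p := Nat.Prime.odd_of_ne_two Fact.out hp
  have hpos : 0 < p := Nat.Prime.pos Fact.out
  set v : R → ℕ := fun x => ordI P (Ideal.span {x}) with hv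
  have hx0 : ∀ μ : R, μ ^ p = 1 → α + μ * β ≠ 0 := fun μ hμ => RelPow_ne p hp hμ h hγ0
  have hvle : ∀ x : R, x ≠ 0 → ∀ n : ℕ, n ≤ v x ↔ x ∈ P ^ n := by
    intro x hx n
    rw [hv]
    show n ≤ ordI P (Ideal.span {x}) ↔ x ∈ P ^ n
    rw [le_ordI_iff P _ hP hP0 (by rwa [Ne, Ideal.span_singleton_eq_bot]),
      Ideal.span_singleton_le_iff_mem]
  set I : Ideal R := Ideal.span {α} ⊔ Ideal.span {β} with hI
  have hI0 : I ≠ ⊥ := by
    intro h0
    rw [hI, sup_eq_bot_iff, Ideal.span_singleton_eq_bot, Ideal.span_singleton_eq_bot] at h0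
    rw [h0.1, h0.2, zero_pow hpos.ne', zero_add] at h
    exact hγ0 ((pow_eq_zero_iff hpos.ne').1 h.symm)
  set m : ℕ := ordI P I with hm
  have hmle : ∀ n : ℕ, n ≤ m ↔ (α ∈ P ^ n ∧ β ∈ P ^ n) := by
    intro n
    rw [hm, le_ordI_iff P I hP hP0 hI0, hI, sup_le_iff, Ideal.span_singleton_le_iff_mem,
      Ideal.span_singleton_le_iff_mem]
  have hge : ∀ μ : R, μ ^ p = 1 → m ≤ v (α + μ * β) := by
    intro μ hμ
    rw [hvle _ (hx0 μ hμ)]
    obtain ⟨h1, h2⟩ := (hmle m).1 le_rfl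
    exact Ideal.add_mem _ h1 (Ideal.mul_mem_left _ _ h2)
  have hone : ∀ μ ν : R, μ ^ p = 1 → ν ^ p = 1 → μ ≠ ν → m < v (α + μ * β) →
      v (α + ν * β) = m := by
    intro μ ν hμ hν hne hlt
    by_contra hc
    have hlt' : m < v (α + ν * β) := lt_of_le_of_ne (hge ν hν) (Ne.symm hc)
    have h1 : α + μ * β ∈ P ^ (m + 1) := (hvle _ (hx0 μ hμ) _).1 hlt
    have h2 : α + ν * β ∈ P ^ (m + 1) := (hvle _ (hx0 ν hν) _).1 hlt'
    have hr := RelPow_root p hμ hν P hP hpP hne
    have h3 : (μ - ν) * β ∈ P ^ (m + 1) := by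
      have e : (μ - ν) * β = (α + μ * β) - (α + ν * β) := by ring
      rw [e]
      exact Ideal.sub_mem _ h1 h2
    have h4 : (μ - ν) * α ∈ P ^ (m + 1) := by
      have e : (μ - ν) * α = μ * (α + ν * β) - ν * (α + μ * β) := by ring
      rw [e]
      exact Ideal.sub_mem _ (Ideal.mul_mem_left _ _ h2) (Ideal.mul_mem_left _ _ h1)
    have h5 : m + 1 ≤ m := (hmle _).2
      ⟨(hP.mul_mem_pow _ h4).resolve_left hr, (hP.mul_mem_pow _ h3).resolve_left hr⟩
    omega
  refine ⟨m, fun μ hμ => ?_⟩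
  show ((v (α + μ * β) : ℕ) : ZMod p) = m
  by_cases hlt : m < v (α + μ * β)
  · have hprod := hζ.pow_add_pow_eq_prod_add_mul α β hodd
    rw [h] at hprod
    have hmemr : ∀ ν : R, ν ∈ Polynomial.nthRootsFinset p (1 : R) ↔ ν ^ p = 1 := fun ν => by
      rw [Polynomial.mem_nthRootsFinset hpos]
    have hsum : p * v γ = ∑ ν ∈ Polynomial.nthRootsFinset p (1 : R), v (α + ν * β) := by
      have h1 : v (γ ^ p) = p * v γ := by
        rw [hv]
        show ordI P (Ideal.span {γ ^ p}) = p * ordI P (Ideal.span {γ})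
        rw [← Ideal.span_singleton_pow, ordI_pow]
      rw [← h1, hprod, hv]
      show ordI P (Ideal.span {∏ ν ∈ Polynomial.nthRootsFinset p (1 : R), (α + ν * β)}) = _
      rw [← Ideal.prod_span_singleton, ordI_prod]
      intro ν hν
      rw [Ne, Ideal.span_singleton_eq_bot]
      exact hx0 ν ((hmemr ν).1 hν)
    classical
    have hμm := (hmemr μ).2 hμ
    rw [← Finset.add_sum_erase _ _ hμm] at hsum
    have h2 : ∑ ν ∈ (Polynomial.nthRootsFinset p (1 : R)).erase μ, v (α + ν * β) =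
        (p - 1) * m := by
      rw [Finset.sum_congr rfl (fun ν hν => hone μ ν hμ
        ((hmemr ν).1 (Finset.mem_of_mem_erase hν)) (Finset.ne_of_mem_erase hν).symm hlt),
        Finset.sum_const, Finset.card_erase_of_mem hμm, hζ.card_nthRootsFinset, smul_eq_mul]
    rw [h2] at hsum
    have h3 := congrArg (fun n : ℕ => (n : ZMod p)) hsum
    simp only [Nat.cast_mul, Nat.cast_add, CharP.cast_eq_zero, zero_mul] at h3
    rw [Nat.cast_sub (show 1 ≤ p from hpos), ZMod.natCast_self, Nat.cast_one] at h3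
    linear_combination -h3
  · have h1 := hge μ hμ
    have h2 : v (α + μ * β) = m := by omega
    rw [h2]

theorem ord_one {R : Type*} [CommRing R] [IsDedekindDomain R] (p : ℕ) [Fact p.Prime]
    (hp : p ≠ 2) {ζ : R} (hζ : IsPrimitiveRoot ζ p) {α β γ : R} (h : α ^ p + β ^ p = γ ^ p)
    (hγ0 : γ ≠ 0) (P : Ideal R) (hP : P.IsPrime) (hP0 : P ≠ ⊥) (hpP : (p : R) ∉ P) :
    p ∣ ordI P (Ideal.span {(α + ζ * β) * (α + β) ^ (p - 1)}) := by
  obtain ⟨m, hm⟩ := RelPow_ord p hp hζ h hγ0 P hP hP0 hpP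
  have hpos : 0 < p := Nat.Prime.pos Fact.out
  have hz1 : ζ ^ p = 1 := hζ.pow_eq_one
  have hb : ∀ μ : R, μ ^ p = 1 → Ideal.span {α + μ * β} ≠ ⊥ := by
    intro μ hμ
    rw [Ne, Ideal.span_singleton_eq_bot]
    exact RelPow_ne p hp hμ h hγ0
  have h1 := hm 1 (one_pow p)
  have hb1 := hb 1 (one_pow p)
  rw [one_mul] at h1 hb1
  rw [← Ideal.span_singleton_mul_span_singleton, ← Ideal.span_singleton_pow,
    ordI_mul P _ _ (hb ζ hz1) (pow_ne_zero _ hb1), ordI_pow,
    ← ZMod.natCast_eq_zero_iff, Nat.cast_add, Nat.cast_mul, hm ζ hz1, h1,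
    Nat.cast_sub (show 1 ≤ p from hpos), ZMod.natCast_self, Nat.cast_one]
  ring

private theorem RelPow_env (L : Type u) [Field L] [NumberField L] (K : Type v) [Field K]
    [NumberField K] [Algebra L K] (p : ℕ) [Fact p.Prime]
    (hd : Module.finrank L K < p) (M : Type w) [Field M] [NumberField M] [Algebra L M] (f : L[X])
    (pb : PowerBasis L K) (hf : f = minpoly L pb.gen)
    (N : Type w) [Field N] [NumberField N] [Algebra M N] [Algebra L N] [IsScalarTower L M N]
    [Polynomial.IsSplittingField M N (f.map (algebraMap L M))] :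
    ¬ p ∣ Module.finrank M N ∧ Fintype.card (K →ₐ[L] N) = Module.finrank L K := by
  classical
  set g := f.map (algebraMap L M) with hg
  have hfirr : Irreducible f := by rw [hf]; exact minpoly.irreducible (Algebra.IsIntegral.isIntegral _)
  have hfsep : f.Separable := hfirr.separable
  have hgsep : g.Separable := hfsep.map
  have hspl : (g.map (algebraMap M N)).Splits := Polynomial.IsSplittingField.splits N g
  have hdeg : g.natDegree = Module.finrank L K := by
    rw [hg, natDegree_map, hf, pb.natDegree_minpoly, pb.finrank]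
  constructor
  · have h1 : Module.finrank M N = Nat.card g.Gal := by
      rw [Polynomial.Gal.card_of_separable hgsep]
      exact (Polynomial.IsSplittingField.algEquiv N g).toLinearEquiv.finrank_eq
    have hfact : Fact ((g.map (algebraMap M N)).Splits) := ⟨hspl⟩
    have h2 : Nat.card g.Gal ∣ Nat.card (Equiv.Perm (g.rootSet N)) :=
      Subgroup.card_dvd_of_injective (Polynomial.Gal.galActionHom g N)
        (Polynomial.Gal.galActionHom_injective g N)
    have h3 : Nat.card (Equiv.Perm (g.rootSet N)) = (Fintype.card (g.rootSet N)).factorial := by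
      rw [Nat.card_eq_fintype_card, Fintype.card_perm]
    have h4 : Fintype.card (g.rootSet N) = Module.finrank L K := by
      rw [← hdeg]
      exact card_rootSet_eq_natDegree hgsep hspl
    intro hp
    rw [h1] at hp
    have h5 := hp.trans h2
    rw [h3, h4, (Fact.out : p.Prime).dvd_factorial] at h5
    omega
  · have h6 : ((minpoly L pb.gen).map (algebraMap L N)).Splits := by
      have h7 : (minpoly L pb.gen).map (algebraMap L N) = g.map (algebraMap M N) := by
        rw [← hf, hg, Polynomial.map_map]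
        congr 1
        exact IsScalarTower.algebraMap_eq L M N
      rw [h7]
      exact hspl
    rw [Fintype.card_eq_nat_card, AlgHom.natCard_of_powerBasis pb
      (by rw [IsSeparable, ← hf]; exact hfsep) h6, pb.finrank]

/-- a number field `N ⊇ M ⊇ L` with all the `L`-conjugates of `K` and `p ∤ [N : M]` -/
theorem exists_relEnv (L : Type u) [Field L] [NumberField L] (K : Type v) [Field K]
    [NumberField K] [Algebra L K] (p : ℕ) [Fact p.Prime]
    (hd : Module.finrank L K < p) (M : Type w) [Field M] [NumberField M] [Algebra L M] :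
    ∃ (N : Type w) (_ : Field N) (_ : NumberField N) (_ : Algebra M N) (_ : Algebra L N),
      IsScalarTower L M N ∧
      ¬ p ∣ Module.finrank M N ∧ Fintype.card (K →ₐ[L] N) = Module.finrank L K := by
  classical
  let pb := Field.powerBasisOfFiniteOfSeparable L K
  let f := minpoly L pb.gen
  let N := (f.map (algebraMap L M)).SplittingField
  have : CharZero N := charZero_of_injective_algebraMap (algebraMap M N).injective
  have : Module.Finite M N := Polynomial.IsSplittingField.finiteDimensional N (f.map (algebraMap L M))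
  have hN : NumberField N := by
    refine { to_charZero := inferInstance, to_finiteDimensional := ?_ }
    have : IsScalarTower ℚ M N := by
      refine IsScalarTower.of_algebraMap_eq' ?_
      exact Subsingleton.elim _ _
    exact Module.Finite.trans M N
  have hT : IsScalarTower L M N := inferInstance
  have h := RelPow_env L K p hd M f pb rfl N
  exact ⟨N, inferInstance, hN, inferInstance, inferInstance, hT, h⟩

end H9AB

end

section

/-!
# Project FC9, module OrdX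

Exponents of primes in an extension `E / M` of number fields.

PROOF. Let `𝔩 = L ∩ 𝓞 M`. Write `I = 𝔩^n I'` with `I'` not contained in `𝔩` (`n = ordI 𝔩 I`).
Then `I 𝓞_E = (𝔩 𝓞_E)^n (I' 𝓞_E)` and `I' 𝓞_E` is not contained in `L` (there is `x ∈ I' \ 𝔩`, and
`x ∉ L` because `L ∩ 𝓞 M = 𝔩`), so `ordI L (I' 𝓞_E) = 0`.  Finally `𝔩 𝓞_E ≤ L`, so the exponent of
`L` in it is positive. (`𝔩 ≠ ⊥` because `L ≠ ⊥`; `Ideal.map` of a nonzero ideal is nonzero because
`𝓞 M → 𝓞 E` is injective.)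
-/

namespace H9FC

open NumberField

private theorem OrdX_inj (M : Type*) [Field M] [NumberField M] (E : Type*) [Field E]
    [NumberField E] [Algebra M E] : Function.Injective (algebraMap (𝓞 M) (𝓞 E)) :=
  FaithfulSMul.algebraMap_injective _ _

private theorem OrdX_ne {M : Type*} [Field M] [NumberField M] (E : Type*) [Field E]
    [NumberField E] [Algebra M E] {I : Ideal (𝓞 M)} (hI : I ≠ ⊥) :
    I.map (algebraMap (𝓞 M) (𝓞 E)) ≠ ⊥ := by
  rwa [Ne, Ideal.map_eq_bot_iff_of_injective (OrdX_inj M E)]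

private theorem OrdX_comap_ne (M : Type*) [Field M] [NumberField M] {E : Type*} [Field E]
    [NumberField E] [Algebra M E] {L : Ideal (𝓞 E)} (hL0 : L ≠ ⊥) :
    L.comap (algebraMap (𝓞 M) (𝓞 E)) ≠ ⊥ := by
  intro h0
  have h1 : ((Ideal.absNorm L : ℕ) : 𝓞 M) ∈ L.comap (algebraMap (𝓞 M) (𝓞 E)) := by
    rw [Ideal.mem_comap, map_natCast]
    exact Ideal.absNorm_mem L
  rw [h0, Submodule.mem_bot, Nat.cast_eq_zero, Ideal.absNorm_eq_zero_iff] at h1
  exact hL0 h1

theorem ordI_algebraMap (M : Type*) [Field M] [NumberField M] (E : Type*) [Field E]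
    [NumberField E] [Algebra M E] (L : Ideal (𝓞 E)) (hL : L.IsPrime) (hL0 : L ≠ ⊥)
    (I : Ideal (𝓞 M)) (hI : I ≠ ⊥) :
    ordI L (I.map (algebraMap (𝓞 M) (𝓞 E)))
      = ordI L ((L.comap (algebraMap (𝓞 M) (𝓞 E))).map (algebraMap (𝓞 M) (𝓞 E)))
        * ordI (L.comap (algebraMap (𝓞 M) (𝓞 E))) I := by
  set l : Ideal (𝓞 M) := L.comap (algebraMap (𝓞 M) (𝓞 E)) with hl
  have hlp : l.IsPrime := Ideal.comap_isPrime _ _
  have hl0 : l ≠ ⊥ := OrdX_comap_ne M hL0
  have h1 : I ≤ l ^ (ordI l I) := (le_ordI_iff l I hlp hl0 hI _).1 le_rfl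
  obtain ⟨I', hI'⟩ := Ideal.dvd_iff_le.2 h1
  have hI'0 : I' ≠ ⊥ := by
    intro h0
    rw [h0, Ideal.mul_bot] at hI'
    exact hI hI'
  have hI'l : ¬ I' ≤ l := by
    intro h2
    obtain ⟨J, hJ⟩ := Ideal.dvd_iff_le.2 h2
    have h3 : I ≤ l ^ (ordI l I + 1) := by
      rw [← Ideal.dvd_iff_le]
      refine ⟨J, ?_⟩
      rw [pow_succ, mul_assoc, ← hJ]
      exact hI'
    have := (le_ordI_iff l I hlp hl0 hI _).2 h3
    omega
  have h4 : ordI L (I'.map (algebraMap (𝓞 M) (𝓞 E))) = 0 := by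
    by_contra h5
    have h6 := (le_ordI_iff L _ hL hL0 (OrdX_ne E hI'0) 1).1 (Nat.one_le_iff_ne_zero.2 h5)
    rw [pow_one, Ideal.map_le_iff_le_comap] at h6
    exact hI'l h6
  have h7 : I.map (algebraMap (𝓞 M) (𝓞 E)) =
      (l.map (algebraMap (𝓞 M) (𝓞 E))) ^ (ordI l I) * I'.map (algebraMap (𝓞 M) (𝓞 E)) := by
    rw [← Ideal.map_pow, ← Ideal.map_mul, ← hI']
  rw [h7, ordI_mul L _ _ (pow_ne_zero _ (OrdX_ne E hl0)) (OrdX_ne E hI'0), h4, add_zero,
    ordI_pow, mul_comm]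

theorem ordI_comap_map_pos (M : Type*) [Field M] [NumberField M] (E : Type*) [Field E]
    [NumberField E] [Algebra M E] (L : Ideal (𝓞 E)) (hL : L.IsPrime) (hL0 : L ≠ ⊥) :
    0 < ordI L ((L.comap (algebraMap (𝓞 M) (𝓞 E))).map (algebraMap (𝓞 M) (𝓞 E))) := by
  rw [← Nat.one_le_iff_ne_zero.trans Nat.pos_iff_ne_zero.symm,
    le_ordI_iff L _ hL hL0 (OrdX_ne E (OrdX_comap_ne M hL0)), pow_one]
  exact Ideal.map_comap_le

end H9FC

end

section

/-!
# Project FC9, module GVal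

Stickelberger's theorem on the valuation of Gauss sums.

PROOF. Let `Q = |k| = l^f`, `w(a) = ordI L (G_a)`, `G_a = gaussSum (ω⁻¹ ^ a) ψ`, `0 ≤ a < Q - 1`.
The character `ω` has order `Q - 1` (its values on `kˣ` have different reductions since `ι` is
injective), so `ω⁻¹ ^ a ≠ 1` for `0 < a < Q - 1`; all `G_a ≠ 0` (`G_a G'_a = Q ≠ 0` for `a > 0`,
`gaussSum_mul_gaussSum_eq_card`, and `G_0 = -1`, `gaussSum_one_left`).
(1) `w(0) = 0`.
(2) `w(a) + w(Q-1-a) = ordI L (Q) = f ordI L (l)` for `0 < a < Q-1`: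
`gaussSum_mul_gaussSum_eq_card`, and the Gauss sum for `ψ⁻¹ = mulShift ψ (-1)` differs from the one
for `ψ` by a factor `χ(-1) = ± 1` (`gaussSum_mulShift`).
(3) `w(l a) = w(a)`, in particular `w(l^i) = w(1)` for `i < f` (`gaussSum_frob_inv`).
(4) `w(a + l^i) = w(a) + w(l^i)` if `0 < a`, `a + l^i < Q - 1`, `i < f` and the `i`-th digit of `a` is
`≤ l - 2`: `G_{a + l^i} J = G_a G_{l^i}` with `J = jacobiSum (ω⁻¹^a) (ω⁻¹^(l^i))`
(`jacobiSum_mul_nontrivial`), and `J ∉ L` by `jac_mod`, `choose_not_dvd` (`l` generates the kernel of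
`ℤ → R/L`; `ι` shows that `R / L` has characteristic `l`).
(5) By induction on the digit sum: `w(a) = s(a) w(1)` for `0 ≤ a < Q - 1`, `s` = digit sum in base
`l` (`(Nat.digits l a).sum`): take away one unit from a nonzero digit.
(6) `s(Q - 2) = f (l - 1) - 1` (all digits `l-1` except the lowest, `l-2`), if `Q > 2`; with (2) for
`a = 1`: `w(1) (1 + f(l-1) - 1) = f ordI L (l)`, so `(l-1) w(1) = ordI L (l)`.
-/

namespace H9FC

private theorem GVal_span_mul {R : Type*} [CommRing R] [IsDedekindDomain R] (L : Ideal R) (x y : R)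
    (hx : x ≠ 0) (hy : y ≠ 0) : ordI L (Ideal.span {x * y}) =
      ordI L (Ideal.span {x}) + ordI L (Ideal.span {y}) := by
  rw [← Ideal.span_singleton_mul_span_singleton]
  refine ordI_mul L _ _ ?_ ?_
  · rw [Ne, Ideal.span_singleton_eq_bot]; exact hx
  · rw [Ne, Ideal.span_singleton_eq_bot]; exact hy

private theorem GVal_digits_dvd (l b : ℕ) (hl : 1 < l) (hb : 0 < b) :
    (Nat.digits l (l * b)).sum = (Nat.digits l b).sum := by
  rw [Nat.digits_base_mul hl hb]
  simp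

private theorem GVal_digits_succ (l a : ℕ) (hl : 1 < l) (ha : a % l + 1 < l) :
    (Nat.digits l (a + 1)).sum = (Nat.digits l a).sum + 1 := by
  have h1 : a + 1 = (a % l + 1) + l * (a / l) := by
    have := Nat.mod_add_div a l
    omega
  rw [h1]
  rw [Nat.digits_add l hl (a % l + 1) (a / l) ha (Or.inl (by omega))]
  rcases Nat.eq_zero_or_pos a with h0 | h0
  · subst h0
    simp
  · rw [Nat.digits_of_two_le_of_pos hl h0]
    simp only [List.sum_cons]
    ring

private theorem GVal_digits_top (l : ℕ) (hl : 1 < l) (f : ℕ) :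
    (Nat.digits l (l ^ f - 1)).sum = f * (l - 1) := by
  induction f with
  | zero => simp
  | succ f ih =>
    have hpos : 0 < l ^ f := by positivity
    have h1 : l ^ (f + 1) - 1 = (l - 1) + l * (l ^ f - 1) := by
      rw [pow_succ, Nat.mul_sub, mul_one, mul_comm (l ^ f) l]
      have : l ≤ l * l ^ f := Nat.le_mul_of_pos_right l hpos
      omega
    rw [h1, Nat.digits_add l hl (l - 1) (l ^ f - 1) (by omega) (Or.inl (by omega))]
    rw [List.sum_cons, ih]
    ring

private theorem GVal_digits_top' (l : ℕ) (hl : 1 < l) (f : ℕ) (hf : 0 < f) :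
    (Nat.digits l (l ^ f - 2)).sum + 1 = f * (l - 1) := by
  obtain ⟨e, rfl⟩ := Nat.exists_eq_succ_of_ne_zero hf.ne'
  rw [← GVal_digits_top l hl e.succ]
  have hpos : 0 < l ^ e := by positivity
  have h2 : l ^ (e + 1) = l * l ^ e := by rw [pow_succ, mul_comm]
  have hge : l ≤ l ^ (e + 1) := by rw [h2]; exact Nat.le_mul_of_pos_right l hpos
  have h1 : l ^ (e + 1) - 1 = (l ^ (e + 1) - 2) + 1 := by omega
  show (Nat.digits l (l ^ (e + 1) - 2)).sum + 1 = (Nat.digits l (l ^ (e + 1) - 1)).sum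
  rw [h1, GVal_digits_succ l (l ^ (e + 1) - 2) hl]
  have h3 : l ^ (e + 1) - 2 = (l - 2) + l * (l ^ e - 1) := by
    rw [h2, Nat.mul_sub, mul_one]
    have : l ≤ l * l ^ e := Nat.le_mul_of_pos_right l hpos
    omega
  rw [h3, Nat.add_mul_mod_self_left, Nat.mod_eq_of_lt (by omega)]
  omega

theorem gauss_val {R : Type*} [CommRing R] [IsDedekindDomain R] [CharZero R] {k : Type*} [Field k]
    [Fintype k] (L : Ideal R) (hL : L.IsPrime) (hL0 : L ≠ ⊥) (ι : k →+* (R ⧸ L))
    (ω : MulChar k R) (hω : ∀ x : k, Ideal.Quotient.mk L (ω x) = ι x) (ψ : AddChar k R)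
    (hψ : ψ.IsPrimitive) (hψ' : ∀ x, ψ (x ^ ringChar k) = ψ x) (l f : ℕ) (hl : ringChar k = l)
    (hcard : Fintype.card k = l ^ f) (a : ℕ) (ha : a < Fintype.card k - 1) :
    (l - 1) * ordI L (Ideal.span {gaussSum (ω⁻¹ ^ a) ψ})
      = (Nat.digits l a).sum * ordI L (Ideal.span {(l : R)}) := by
  classical
  haveI hdom : IsDomain (R ⧸ L) := Ideal.Quotient.isDomain L
  haveI hlp : Fact l.Prime := by
    rw [← hl]
    exact ⟨CharP.char_is_prime k (ringChar k)⟩
  haveI hchk : CharP k l := by rw [← hl]; exact ringChar.charP k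
  have hιi : Function.Injective ι := ι.injective
  haveI hchR : CharP (R ⧸ L) l := charP_of_injective_ringHom hιi l
  have hl1 : 1 < l := hlp.out.one_lt
  have hf : 0 < f := by
    rcases Nat.eq_zero_or_pos f with h | h
    · rw [h, pow_zero] at hcard
      have := Fintype.one_lt_card (α := k)
      omega
    · exact h
  set Q : ℕ := Fintype.card k with hQ
  have hQu : Fintype.card kˣ = Q - 1 := Fintype.card_units k
  have hQl : (Q : R) = (l : R) ^ f := by rw [hcard]; push_cast; ring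
  have hlR : (l : R) ≠ 0 := Nat.cast_ne_zero.2 (by omega)
  have hQR : (Q : R) ≠ 0 := by rw [hQl]; exact pow_ne_zero _ hlR
  -- the additive character is nontrivial
  have hψ1 : ψ ≠ 1 := by
    have h := hψ (one_ne_zero : (1 : k) ≠ 0)
    rwa [AddChar.mulShift_one] at h
  -- `ω⁻¹ ^ a ≠ 1`
  have hne : ∀ b : ℕ, 0 < b → b < Q - 1 → ω⁻¹ ^ b ≠ 1 := by
    intro b hb hb' h
    obtain ⟨g, hg⟩ := IsCyclic.exists_generator (α := kˣ)
    have hog : orderOf g = Q - 1 := by
      rw [orderOf_eq_card_of_forall_mem_zpowers hg, Nat.card_eq_fintype_card, hQu]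
    have h1 : (ω⁻¹ ^ b) (g⁻¹ : kˣ) = 1 := by
      rw [h, MulChar.one_apply_coe]
    rw [MulChar.pow_apply_coe, MulChar.inv_apply', Units.val_inv_eq_inv_val, inv_inv] at h1
    have h2 : ι ((g : k) ^ b) = ι 1 := by
      rw [map_pow, ← hω, ← map_pow, h1, map_one, map_one]
    have h3 : (g : k) ^ b = 1 := hιi h2
    have h4 : g ^ b = 1 := Units.ext (by simpa using h3)
    have h5 := orderOf_dvd_of_pow_eq_one h4
    rw [hog] at h5
    exact absurd (Nat.le_of_dvd hb h5) (by omega)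
  have hG0 : gaussSum (ω⁻¹ ^ 0) ψ = -1 := by
    rw [pow_zero, gaussSum_one_left hψ1]
  -- Gauss sums are nonzero
  have hGne : ∀ b : ℕ, b < Q - 1 → gaussSum (ω⁻¹ ^ b) ψ ≠ 0 := by
    intro b hb
    rcases Nat.eq_zero_or_pos b with h | h
    · rw [h, hG0]
      exact neg_ne_zero.2 one_ne_zero
    · intro h0
      have h1 := gaussSum_mul_gaussSum_eq_card (hne b h hb) hψ
      rw [h0, zero_mul] at h1
      exact hQR h1.symm
  let w : ℕ → ℕ := fun b => ordI L (Ideal.span {gaussSum (ω⁻¹ ^ b) ψ})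
  have hw0 : w 0 = 0 := by
    show ordI L (Ideal.span {gaussSum (ω⁻¹ ^ 0) ψ}) = 0
    rw [hG0, ordI_span_eq_zero_iff L hL hL0 _ (neg_ne_zero.2 one_ne_zero)]
    intro h
    exact hL.ne_top ((Ideal.eq_top_iff_one L).2 (by simpa using L.neg_mem h))
  -- Frobenius
  have hwl : ∀ b : ℕ, w (l * b) = w b := by
    intro b
    show ordI L (Ideal.span {gaussSum (ω⁻¹ ^ (l * b)) ψ}) =
      ordI L (Ideal.span {gaussSum (ω⁻¹ ^ b) ψ})
    have h := gaussSum_frob_inv (ω⁻¹ ^ b) ψ hψ'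
    rw [hl, ← pow_mul, mul_comm b l] at h
    rw [h]
  -- one more
  have hws : ∀ b : ℕ, 0 < b → b + 1 < Q - 1 → b % l + 1 < l → w (b + 1) = w b + w 1 := by
    intro b hb hb' hd
    have h1 : ω⁻¹ ^ b * ω⁻¹ ^ 1 ≠ 1 := by
      rw [← pow_add]
      exact hne (b + 1) (by omega) hb'
    have h2 := jacobiSum_mul_nontrivial h1 ψ
    rw [← pow_add] at h2
    have hJL : jacobiSum (ω⁻¹ ^ b) (ω⁻¹ ^ 1) ∉ L := by
      intro hJ
      have h3 := jac_mod L hL ι ω hω b 1 hb one_pos (by omega) (by omega)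
      rw [Ideal.Quotient.eq_zero_iff_mem.2 hJ] at h3
      have h4 : ((Nat.choose (Q - 1 - 1) b : ℕ) : R ⧸ L) = 0 := by
        have h5 := neg_eq_zero.1 h3.symm
        rcases mul_eq_zero.1 h5 with h6 | h6
        · exact absurd h6 (pow_ne_zero _ (neg_ne_zero.2 one_ne_zero))
        · exact h6
      rw [CharP.cast_eq_zero_iff (R ⧸ L) l] at h4
      have h7 := choose_not_dvd l f 0 b hf (by omega) (by simpa using hd)
      rw [pow_zero, ← hcard] at h7
      exact h7 h4
    have hJ0 : jacobiSum (ω⁻¹ ^ b) (ω⁻¹ ^ 1) ≠ 0 := by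
      intro h
      rw [h] at hJL
      exact hJL L.zero_mem
    have h3 : ordI L (Ideal.span {jacobiSum (ω⁻¹ ^ b) (ω⁻¹ ^ 1)}) = 0 :=
      (ordI_span_eq_zero_iff L hL hL0 _ hJ0).2 hJL
    have h4 := GVal_span_mul L _ _ (hGne (b + 1) hb') hJ0
    have h5 := GVal_span_mul L _ _ (hGne b (by omega)) (hGne 1 (by omega))
    rw [h2, h3, h5, add_zero] at h4
    exact h4.symm
  -- by induction
  have hwa : ∀ b : ℕ, b < Q - 1 → w b = (Nat.digits l b).sum * w 1 := by
    intro b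
    induction b using Nat.strong_induction_on with
    | _ b ih =>
      intro hb
      rcases Nat.eq_zero_or_pos b with h0 | h0
      · subst h0
        rw [hw0]
        simp
      · by_cases hd : l ∣ b
        · obtain ⟨c, rfl⟩ := hd
          have hc0 : 0 < c := Nat.pos_of_mul_pos_left h0
          have hc1 : c < l * c := by nlinarith
          rw [hwl, GVal_digits_dvd l c hl1 hc0]
          exact ih c hc1 (by omega)
        · have hm : 0 < b % l := Nat.pos_of_ne_zero fun h => hd (Nat.dvd_of_mod_eq_zero h)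
          have hm' : b % l < l := Nat.mod_lt _ (by omega)
          obtain ⟨c, rfl⟩ : ∃ c, b = c + 1 := ⟨b - 1, by omega⟩
          have hcl : c % l + 1 < l := by
            have h1 : c = ((c + 1) % l - 1) + l * ((c + 1) / l) := by
              have := Nat.mod_add_div (c + 1) l
              omega
            have h2 : c % l = (c + 1) % l - 1 := by
              conv_lhs => rw [h1]
              rw [Nat.add_mul_mod_self_left, Nat.mod_eq_of_lt (by omega)]
            omega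
          rw [GVal_digits_succ l c hl1 hcl]
          rcases Nat.eq_zero_or_pos c with h1 | h1
          · subst h1
            simp
          · rw [hws c h1 hb hcl, ih c (by omega) (by omega)]
            ring
  rcases Nat.eq_zero_or_pos a with h0 | h0
  · subst h0
    have h1 : ordI L (Ideal.span {gaussSum (ω⁻¹ ^ 0) ψ}) = 0 := hw0
    rw [h1]
    simp
  · have hQ2 : 1 < Q - 1 := by omega
    -- the relation for `1` and `Q - 2`
    have hrel : w 1 + w (Q - 2) = f * ordI L (Ideal.span {(l : R)}) := by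
      have h1 := gaussSum_mul_gaussSum_eq_card (hne 1 one_pos hQ2) hψ
      have h2 : (ω⁻¹ ^ 1)⁻¹ = ω⁻¹ ^ (Q - 2) := by
        have h3 : ω⁻¹ ^ (Q - 1) = 1 := by
          rw [← hQu]
          exact MulChar.pow_card_eq_one _
        have h4 : ω⁻¹ ^ 1 * ω⁻¹ ^ (Q - 2) = 1 := by
          rw [← pow_add, ← h3]
          congr 1
          omega
        exact inv_eq_of_mul_eq_one_right h4
      rw [h2] at h1
      have h3 := mul_gaussSum_inv_eq_gaussSum (ω⁻¹ ^ (Q - 2)) ψ
      have hu : IsUnit ((ω⁻¹ ^ (Q - 2)) (-1)) := by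
        refine IsUnit.map _ ?_
        exact isUnit_one.neg
      have h4 : w (Q - 2) = ordI L (Ideal.span {gaussSum (ω⁻¹ ^ (Q - 2)) ψ⁻¹}) := by
        show ordI L (Ideal.span {gaussSum (ω⁻¹ ^ (Q - 2)) ψ}) = _
        rw [← h3, Ideal.span_singleton_mul_left_unit hu]
      have h5 : gaussSum (ω⁻¹ ^ (Q - 2)) ψ⁻¹ ≠ 0 := by
        intro h
        rw [h, mul_zero] at h1
        exact hQR h1.symm
      have h6 := GVal_span_mul L _ _ (hGne 1 hQ2) h5
      rw [h1, hQl, ← Ideal.span_singleton_pow, ordI_pow] at h6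
      rw [h4]
      exact h6.symm
    have h2 := hwa (Q - 2) (by omega)
    have h3 : (Nat.digits l (Q - 2)).sum + 1 = f * (l - 1) := by
      rw [hcard]
      exact GVal_digits_top' l hl1 f hf
    have h4 : (f * (l - 1)) * w 1 = f * ordI L (Ideal.span {(l : R)}) := by
      rw [← h3, ← hrel, h2]
      ring
    have h5 : (l - 1) * w 1 = ordI L (Ideal.span {(l : R)}) := by
      rw [mul_assoc] at h4
      exact Nat.eq_of_mul_eq_mul_left hf h4
    have h6 := hwa a ha
    show (l - 1) * w a = _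
    rw [h6, ← h5]
    ring

end H9FC

end

section

/-!
# Project AB, module JValM

The exponent of `𝔩 = ker π` in the conjugates of the Jacobi sum `J = J(χ⁻¹, χ⁻ᵇ)` of the residue
character of order `m` (see H9.FC.JVal for `m` prime).
-/

namespace H9AB

open NumberField H9FC

private theorem JValM_inj {R : Type*} [CommRing R] [IsDomain R] (L : Ideal R) (n : ℕ) (hn : 0 < n)
    (hnL : ((n : ℕ) : R ⧸ L) ≠ 0) (x y : R) (hx : x ^ n = 1) (hy : y ^ n = 1)
    (h : Ideal.Quotient.mk L x = Ideal.Quotient.mk L y) : x = y := by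
  obtain ⟨e, rfl⟩ := Nat.exists_eq_succ_of_ne_zero hn.ne'
  set c : R := x * y ^ e with hc
  have hc1 : c ^ (e + 1) = 1 := by
    rw [hc, mul_pow, hx, one_mul, ← pow_mul, mul_comm, pow_mul, hy, one_pow]
  have hcL : Ideal.Quotient.mk L c = 1 := by
    rw [hc, map_mul, map_pow, h, ← pow_succ', ← map_pow, hy, map_one]
  have hc0 : c = 1 := by
    by_contra hne
    have h1 := mul_geom_sum c (e + 1)
    rw [hc1, sub_self] at h1
    have h2 : ∑ i ∈ Finset.range (e + 1), c ^ i = 0 := by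
      rcases mul_eq_zero.1 h1 with h3 | h3
      · exact absurd (sub_eq_zero.1 h3) hne
      · exact h3
    have h3 := congrArg (Ideal.Quotient.mk L) h2
    rw [map_sum, map_zero] at h3
    simp only [map_pow, hcL, one_pow, Finset.sum_const, Finset.card_range, nsmul_eq_mul,
      mul_one] at h3
    exact hnL h3
  have h4 : y ^ e * y = 1 := by rw [← pow_succ]; exact hy
  calc x = x * (y ^ e * y) := by rw [h4, mul_one]
    _ = c * y := by rw [hc]; ring
    _ = y := by rw [hc0, one_mul]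

private theorem JValM_ne {R : Type*} [CommRing R] {k : Type*} [Field k] [Fintype k]
    (L : Ideal R) [Nontrivial (R ⧸ L)] (ι : k →+* (R ⧸ L)) (ω : MulChar k R)
    (hω : ∀ x : k, Ideal.Quotient.mk L (ω x) = ι x) (b : ℕ) (hb : 0 < b)
    (hb' : b < Fintype.card k - 1) : ω⁻¹ ^ b ≠ 1 := by
  classical
  intro h
  have hQu : Fintype.card kˣ = Fintype.card k - 1 := Fintype.card_units k
  obtain ⟨g, hg⟩ := IsCyclic.exists_generator (α := kˣ)
  have hog : orderOf g = Fintype.card k - 1 := by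
    rw [orderOf_eq_card_of_forall_mem_zpowers hg, Nat.card_eq_fintype_card, hQu]
  have h1 : (ω⁻¹ ^ b) (g⁻¹ : kˣ) = 1 := by
    rw [h, MulChar.one_apply_coe]
  rw [MulChar.pow_apply_coe, MulChar.inv_apply', Units.val_inv_eq_inv_val, inv_inv] at h1
  have h2 : ι ((g : k) ^ b) = ι 1 := by
    rw [map_pow, ← hω, ← map_pow, h1, map_one, map_one]
  have h3 : (g : k) ^ b = 1 := ι.injective h2
  have h4 : g ^ b = 1 := Units.ext (by simpa using h3)
  have h5 := orderOf_dvd_of_pow_eq_one h4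
  rw [hog] at h5
  exact absurd (Nat.le_of_dvd hb h5) (by omega)

private theorem JValM_mod (p x y z : ℕ) (hx : x < p) (hy : y < p) (hz : z ≠ 0)
    (h : (x + y) % p = z) : x + y = z + if p < x + y then p else 0 := by
  rcases lt_or_ge (x + y) p with h1 | h1
  · rw [Nat.mod_eq_of_lt h1] at h
    rw [if_neg (by omega), h, add_zero]
  · have h2 : (x + y) % p = x + y - p := by
      rw [Nat.mod_eq_sub_mod h1, Nat.mod_eq_of_lt (by omega)]
    rw [h2] at h
    rw [if_pos (by omega)]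
    omega

/-- multiples of units are not zero modulo `m` -/
private theorem JValM_unit (m u c : ℕ) (hu : Nat.Coprime u m) (hc : 0 < c) (hc' : c < m) :
    (u * c) % m ≠ 0 := by
  intro h
  have h2 := Nat.dvd_of_mod_eq_zero h
  have h3 : m ∣ c := (Nat.Coprime.symm hu).dvd_of_dvd_mul_left h2
  exact absurd (Nat.le_of_dvd hc h3) (by omega)

private theorem JValM_sum (m : ℕ) (hmpos : 0 < m) (l f t b : ℕ) (hlm : Nat.Coprime l m)
    (ht : Nat.Coprime t m) (hb' : b + 2 ≤ m) :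
    (∑ i ∈ Finset.range f, (l ^ i * t) % m) + ∑ i ∈ Finset.range f, (l ^ i * (b * t)) % m =
      (∑ i ∈ Finset.range f, (l ^ i * ((b + 1) * t)) % m) +
        m * ((Finset.range f).filter (fun i =>
          m < (l ^ i * t) % m + (l ^ i * (b * t)) % m)).card := by
  rw [Finset.card_filter, Finset.mul_sum, ← Finset.sum_add_distrib, ← Finset.sum_add_distrib]
  refine Finset.sum_congr rfl fun i _ => ?_
  have h1 : (l ^ i * ((b + 1) * t)) % m ≠ 0 := by
    have h2 := JValM_unit m (l ^ i * t) (b + 1) (Nat.Coprime.mul_left (hlm.pow_left i) ht)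
      (by omega) (by omega)
    rwa [show l ^ i * t * (b + 1) = l ^ i * ((b + 1) * t) by ring] at h2
  have h2 : ((l ^ i * t) % m + (l ^ i * (b * t)) % m) % m = (l ^ i * ((b + 1) * t)) % m := by
    rw [← Nat.add_mod]
    congr 1
    ring
  have h3 := JValM_mod m _ _ _ (Nat.mod_lt _ hmpos) (Nat.mod_lt _ hmpos) h1 h2
  by_cases h4 : m < l ^ i * t % m + l ^ i * (b * t) % m
  · rw [if_pos h4] at h3 ⊢
    omega
  · rw [if_neg h4] at h3 ⊢
    omega

private theorem JValM_span_mul {R : Type*} [CommRing R] [IsDedekindDomain R] (L : Ideal R) (x y : R)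
    (hx : x ≠ 0) (hy : y ≠ 0) : ordI L (Ideal.span {x * y}) =
      ordI L (Ideal.span {x}) + ordI L (Ideal.span {y}) := by
  rw [← Ideal.span_singleton_mul_span_singleton]
  refine ordI_mul L _ _ ?_ ?_
  · rw [Ne, Ideal.span_singleton_eq_bot]; exact hx
  · rw [Ne, Ideal.span_singleton_eq_bot]; exact hy

/-- the computation in a Dedekind domain containing the roots of unity -/
private theorem JValM_core {R : Type*} [CommRing R] [IsDedekindDomain R] [CharZero R] {k : Type*}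
    [Field k] [Fintype k] (L : Ideal R) (hL : L.IsPrime) (hL0 : L ≠ ⊥) (ι : k →+* (R ⧸ L))
    (ω : MulChar k R) (hω : ∀ x : k, Ideal.Quotient.mk L (ω x) = ι x) (ψ : AddChar k R)
    (hψ : ψ.IsPrimitive) (hψ' : ∀ x, ψ (x ^ ringChar k) = ψ x) (l f : ℕ) (hl : ringChar k = l)
    (hcard : Fintype.card k = l ^ f) (p : ℕ) (hlp : Nat.Coprime l p) (m : ℕ) (hm0 : 0 < m)
    (hm : l ^ f - 1 = p * m) (b t : ℕ) (hb : 1 ≤ b) (hb' : b + 2 ≤ p) (ht : 0 < t) (htp : t < p)
    (htn : Nat.Coprime t p) :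
    ordI L (Ideal.span {jacobiSum (ω⁻¹ ^ (m * t)) (ω⁻¹ ^ (m * (b * t)))}) =
      ordI L (Ideal.span {(l : R)}) * ((Finset.range f).filter (fun i =>
          p < (l ^ i * t) % p + (l ^ i * (b * t)) % p)).card := by
  classical
  have hppos : 0 < p := by omega
  haveI hdom : IsDomain (R ⧸ L) := Ideal.Quotient.isDomain L
  haveI hlp' : Fact l.Prime := by
    rw [← hl]
    exact ⟨CharP.char_is_prime k (ringChar k)⟩
  have hl1 : 1 < l := hlp'.out.one_lt
  have hQm : Fintype.card k - 1 = p * m := by rw [hcard]; exact hm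
  have hQ0 : 0 < Fintype.card k := Fintype.card_pos
  have hpm : 0 < p * m := Nat.mul_pos hppos hm0
  have hQR : ((Fintype.card k : ℕ) : R) ≠ 0 := Nat.cast_ne_zero.2 (by omega)
  have hlt : ∀ s : ℕ, s < p → m * s < Fintype.card k - 1 := by
    intro s hs
    rw [hQm, mul_comm p m]
    exact Nat.mul_lt_mul_of_pos_left hs hm0
  have hne : ∀ s : ℕ, 0 < s → s < p → ω⁻¹ ^ (m * s) ≠ 1 := fun s hs hs' =>
    JValM_ne L ι ω hω (m * s) (Nat.mul_pos hm0 hs) (hlt s hs')
  have hGne : ∀ s : ℕ, 0 < s → s < p → gaussSum (ω⁻¹ ^ (m * s)) ψ ≠ 0 := by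
    intro s hs hs' h0
    have h1 := gaussSum_mul_gaussSum_eq_card (hne s hs hs') hψ
    rw [h0, zero_mul] at h1
    exact hQR h1.symm
  -- reduction of exponents
  have hred : ∀ s : ℕ, ω⁻¹ ^ (m * s) = ω⁻¹ ^ (m * (s % p)) := by
    intro s
    have h1 : ω⁻¹ ^ (p * m) = 1 := by
      have h2 := MulChar.pow_card_eq_one (ω⁻¹)
      rw [Fintype.card_units k, hQm] at h2
      exact h2
    have h2 : m * s = m * (s % p) + (p * m) * (s / p) := by
      conv_lhs => rw [← Nat.mod_add_div s p]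
      ring
    rw [h2, pow_add, pow_mul _ (p * m), h1, one_pow, mul_one]
  have hS : ∀ s : ℕ, 0 < s → s < p → p * ordI L (Ideal.span {gaussSum (ω⁻¹ ^ (m * s)) ψ}) =
      (∑ i ∈ Finset.range f, (l ^ i * s) % p) * ordI L (Ideal.span {(l : R)}) := by
    intro s hs hs'
    have h1 := gauss_val L hL hL0 ι ω hω ψ hψ hψ' l f hl hcard (m * s) (hlt s hs')
    have h2 := digsum l f p m s hm hm0 hs hs'
    have h3 : (l - 1) * (p * ordI L (Ideal.span {gaussSum (ω⁻¹ ^ (m * s)) ψ})) =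
        (l - 1) * ((∑ i ∈ Finset.range f, (l ^ i * s) % p) * ordI L (Ideal.span {(l : R)})) := by
      calc (l - 1) * (p * ordI L (Ideal.span {gaussSum (ω⁻¹ ^ (m * s)) ψ}))
          = p * ((l - 1) * ordI L (Ideal.span {gaussSum (ω⁻¹ ^ (m * s)) ψ})) := by ring
        _ = (p * (Nat.digits l (m * s)).sum) * ordI L (Ideal.span {(l : R)}) := by
            rw [h1]; ring
        _ = _ := by rw [h2]; ring
    exact Nat.eq_of_mul_eq_mul_left (by omega) h3
  set t₁ : ℕ := (b * t) % p with ht₁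
  set t₂ : ℕ := ((b + 1) * t) % p with ht₂
  have hpos : ∀ c : ℕ, 0 < c → c < p → 0 < (c * t) % p := by
    intro c hc hc'
    have h := JValM_unit p t c htn hc hc'
    rw [mul_comm] at h
    exact Nat.pos_of_ne_zero h
  have h1p : 0 < t₁ := hpos b (by omega) (by omega)
  have h1l : t₁ < p := Nat.mod_lt _ hppos
  have h2p : 0 < t₂ := hpos (b + 1) (by omega) (by omega)
  have h2l : t₂ < p := Nat.mod_lt _ hppos
  have e1 : ω⁻¹ ^ (m * (b * t)) = ω⁻¹ ^ (m * t₁) := hred (b * t)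
  have e2 : ω⁻¹ ^ (m * t) * ω⁻¹ ^ (m * (b * t)) = ω⁻¹ ^ (m * t₂) := by
    rw [← pow_add, ← hred ((b + 1) * t)]
    congr 1
    ring
  have h1 : ω⁻¹ ^ (m * t) * ω⁻¹ ^ (m * (b * t)) ≠ 1 := by
    rw [e2]
    exact hne t₂ h2p h2l
  have h2 := jacobiSum_mul_nontrivial h1 ψ
  rw [e2, e1] at h2
  rw [e1]
  have hJ0 : jacobiSum (ω⁻¹ ^ (m * t)) (ω⁻¹ ^ (m * t₁)) ≠ 0 := by
    intro h
    rw [h, mul_zero] at h2
    rcases mul_eq_zero.1 h2.symm with h3 | h3
    · exact hGne t ht htp h3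
    · exact hGne t₁ h1p h1l h3
  have h3 := JValM_span_mul L _ _ (hGne t₂ h2p h2l) hJ0
  have h4 := JValM_span_mul L _ _ (hGne t ht htp) (hGne t₁ h1p h1l)
  rw [h2, h4] at h3
  have s0 := hS t ht htp
  have s1 := hS t₁ h1p h1l
  have s2 := hS t₂ h2p h2l
  have s1' : ∑ i ∈ Finset.range f, (l ^ i * t₁) % p = ∑ i ∈ Finset.range f, (l ^ i * (b * t)) % p :=
    Finset.sum_congr rfl fun i _ => by rw [ht₁, Nat.mul_mod_mod]
  have s2' : ∑ i ∈ Finset.range f, (l ^ i * t₂) % p =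
      ∑ i ∈ Finset.range f, (l ^ i * ((b + 1) * t)) % p :=
    Finset.sum_congr rfl fun i _ => by rw [ht₂, Nat.mul_mod_mod]
  rw [s1'] at s1
  rw [s2'] at s2
  have hsum := JValM_sum p hppos l f t b hlp htn hb'
  set N : ℕ := ((Finset.range f).filter (fun i =>
          p < (l ^ i * t) % p + (l ^ i * (b * t)) % p)).card with hN
  set J : ℕ := ordI L (Ideal.span {jacobiSum (ω⁻¹ ^ (m * t)) (ω⁻¹ ^ (m * t₁))}) with hJ
  set o : ℕ := ordI L (Ideal.span {(l : R)}) with ho
  have h5 : p * J = p * (o * N) := by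
    have h6 : p * ordI L (Ideal.span {gaussSum (ω⁻¹ ^ (m * t)) ψ}) +
        p * ordI L (Ideal.span {gaussSum (ω⁻¹ ^ (m * t₁)) ψ}) =
        p * ordI L (Ideal.span {gaussSum (ω⁻¹ ^ (m * t₂)) ψ}) + p * J := by
      rw [← mul_add, h3, mul_add]
    rw [s0, s1, s2, ← add_mul, hsum, add_mul] at h6
    have h7 := Nat.add_left_cancel h6
    rw [← h7]
    ring
  exact Nat.eq_of_mul_eq_mul_left hppos h5

theorem jac_valM (p : ℕ) [NeZero p] (M : Type*) [Field M] [NumberField M]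
    [IsCyclotomicExtension {p} ℚ M] {k : Type*} [Field k] [Fintype k] (π : 𝓞 M →+* k)
    (hπ : Function.Surjective π) (hp : (p : k) ≠ 0) (l f : ℕ) (hl : ringChar k = l)
    (hcard : Fintype.card k = l ^ f) (χ : MulChar k (𝓞 M)) (hχ : orderOf χ = p)
    (hχπ : ∀ x : k, x ≠ 0 → π (χ x) = x ^ ((Fintype.card k - 1) / p)) (b : ℕ) (hb : 1 ≤ b)
    (hb' : b + 2 ≤ p) (σ : M ≃ₐ[ℚ] M) :
    ordI (RingHom.ker π) (Ideal.span {σ • jacobiSum χ⁻¹ (χ⁻¹ ^ b)})
      = ((Finset.range f).filter (fun i =>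
          p < (l ^ i * (IsCyclotomicExtension.Rat.galEquivZMod p M σ).val.val) % p
            + (l ^ i * (b * (IsCyclotomicExtension.Rat.galEquivZMod p M σ).val.val)) % p)).card := by
  classical
  have hppos : 0 < p := by omega
  have hχp : χ ^ p = 1 := by rw [← hχ]; exact pow_orderOf_eq_one χ
  haveI hlf : Fact l.Prime := by
    rw [← hl]
    exact ⟨CharP.char_is_prime k (ringChar k)⟩
  haveI hchk : CharP k l := by rw [← hl]; exact ringChar.charP k
  have hl1 : 1 < l := hlf.out.one_lt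
  have hlnp : ¬ l ∣ p := by
    intro h
    exact hp ((CharP.cast_eq_zero_iff k l p).2 h)
  have hlp : Nat.Coprime l p := (Nat.Prime.coprime_iff_not_dvd hlf.out).2 hlnp
  have hQ1 : 1 < Fintype.card k := Fintype.one_lt_card
  obtain ⟨m, hm⟩ := (exists_resCharM p M π hp).1
  have hm0 : 0 < m := by
    rcases Nat.eq_zero_or_pos m with h | h
    · rw [h, mul_zero] at hm
      omega
    · exact h
  have hmdiv : (Fintype.card k - 1) / p = m := by
    rw [hm]
    exact Nat.mul_div_cancel_left m hppos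
  have ht0 : 0 < (IsCyclotomicExtension.Rat.galEquivZMod p M σ).val.val :=
    val_posM p (by omega) _
  have htc : Nat.Coprime (IsCyclotomicExtension.Rat.galEquivZMod p M σ).val.val p :=
    ZMod.val_coe_unit_coprime _
  set t : ℕ := (IsCyclotomicExtension.Rat.galEquivZMod p M σ).val.val with ht
  have htp : t < p := ZMod.val_lt _
  rw [smul_jacM p (by omega) M χ hχp b σ, ← ht]
  obtain ⟨E, _, _, _, L, ι, ω, z, hLp, hL0, hιπ, hω, hz⟩ := exists_teich M π hπ
  obtain ⟨ψ, hψ, hψ'⟩ := exists_addChar hz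
  haveI hdom : IsDomain (𝓞 E ⧸ L) := Ideal.Quotient.isDomain L
  haveI hchR : CharP (𝓞 E ⧸ L) l := charP_of_injective_ringHom ι.injective l
  set i : 𝓞 M →+* 𝓞 E := algebraMap (𝓞 M) (𝓞 E) with hi
  -- `L` lies over `ker π`
  have hcomap : L.comap i = RingHom.ker π := by
    ext x
    rw [Ideal.mem_comap, RingHom.mem_ker, ← Ideal.Quotient.eq_zero_iff_mem, hi, ← hιπ x]
    constructor
    · intro h
      exact ι.injective (by rw [h, map_zero])
    · intro h
      rw [h, map_zero]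
  have hkp : (RingHom.ker π).IsPrime := RingHom.ker_isPrime π
  -- the residue character in terms of `ω`
  have hQu : Fintype.card kˣ = Fintype.card k - 1 := Fintype.card_units k
  have hf : f ≠ 0 := by
    rintro rfl
    rw [pow_zero] at hcard
    omega
  have hχω : χ.ringHomComp i = ω ^ m := by
    refine MulChar.ext fun x => ?_
    have hQL : (((Fintype.card k - 1 : ℕ) : ℕ) : 𝓞 E ⧸ L) ≠ 0 := by
      intro h
      rw [CharP.cast_eq_zero_iff (𝓞 E ⧸ L) l] at h
      have h2 : l ∣ Fintype.card k := by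
        rw [hcard]
        exact dvd_pow_self l hf
      have h3 : l ∣ 1 := by
        have := (Nat.dvd_sub h2 h)
        rwa [Nat.sub_sub_self (by omega)] at this
      exact absurd (Nat.le_of_dvd one_pos h3) (by omega)
    refine JValM_inj L (Fintype.card k - 1) (by omega) hQL _ _ ?_ ?_ ?_
    · rw [← MulChar.pow_apply_coe, ← hQu, MulChar.pow_card_eq_one, MulChar.one_apply_coe]
    · rw [← MulChar.pow_apply_coe, ← hQu, MulChar.pow_card_eq_one, MulChar.one_apply_coe]
    · rw [MulChar.ringHomComp_apply, MulChar.pow_apply_coe, map_pow, hω, hi, ← hιπ,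
        hχπ x x.ne_zero, hmdiv, map_pow]
  -- the image of the Jacobi sum
  have hc1 : ((χ ^ t)⁻¹).ringHomComp i = ω⁻¹ ^ (m * t) := by
    rw [← MulChar.ringHomComp_inv, ← MulChar.ringHomComp_pow, hχω, ← pow_mul, inv_pow]
  have hc2 : ((χ ^ t)⁻¹ ^ b).ringHomComp i = ω⁻¹ ^ (m * (b * t)) := by
    rw [← MulChar.ringHomComp_pow, hc1, ← pow_mul]
    congr 1
    ring
  have hJi : i (jacobiSum (χ ^ t)⁻¹ ((χ ^ t)⁻¹ ^ b)) =
      jacobiSum (ω⁻¹ ^ (m * t)) (ω⁻¹ ^ (m * (b * t))) := by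
    rw [← jacobiSum_ringHomComp, hc1, hc2]
  have hm' : l ^ f - 1 = p * m := by rw [← hcard]; exact hm
  have hcore := JValM_core L hLp hL0 ι ω hω ψ hψ hψ' l f hl hcard p hlp m hm0 hm' b t hb hb' ht0
    htp htc
  set N : ℕ := ((Finset.range f).filter (fun i =>
          p < (l ^ i * t) % p + (l ^ i * (b * t)) % p)).card with hN
  have hik : (l : 𝓞 M) ∈ RingHom.ker π := by
    rw [RingHom.mem_ker, map_natCast]
    exact CharP.cast_eq_zero k l
  have hlM : (l : 𝓞 M) ≠ 0 := Nat.cast_ne_zero.2 (by omega)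
  have hord1 := decM_ord p M l hlnp (RingHom.ker π) hkp hik
  set e : ℕ := ordI L ((L.comap i).map i) with he
  have hepos : 0 < e := ordI_comap_map_pos M E L hLp hL0
  have hspan : ∀ x : 𝓞 M, x ≠ 0 → ordI L (Ideal.span {i x}) =
      e * ordI (RingHom.ker π) (Ideal.span {x}) := by
    intro x hx
    have h1 := ordI_algebraMap M E L hLp hL0 (Ideal.span {x})
      (by rw [Ne, Ideal.span_singleton_eq_bot]; exact hx)
    rw [Ideal.map_span, Set.image_singleton] at h1
    rw [← hcomap]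
    exact h1
  have hol : ordI L (Ideal.span {((l : ℕ) : 𝓞 E)}) = e := by
    have h1 := hspan (l : 𝓞 M) hlM
    rw [hord1, mul_one, map_natCast] at h1
    exact h1
  have hJM : jacobiSum (χ ^ t)⁻¹ ((χ ^ t)⁻¹ ^ b) ≠ 0 := by
    intro h0
    rw [ht, ← smul_jacM p (by omega) M χ hχp b σ, smul_eq_zero_iff_eq] at h0
    have h1 := jac_mul_cjM p M χ hχ b hb hb'
    rw [h0, zero_mul] at h1
    exact absurd h1.symm (Nat.cast_ne_zero.2 (by omega))
  have h1 := hspan _ hJM
  rw [hJi, hcore, hol] at h1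
  exact (Nat.eq_of_mul_eq_mul_left hepos h1).symm

end H9AB

end

section

/-!
# Project AB, module JIdealM

Factorisation of the Jacobi sums attached to a prime ideal `𝔩` of `𝓞 M`, `M = ℚ(ζ_m)`, not
dividing `m` (see H9.FC.JIdeal for `m` prime), and the theorem of Stickelberger for the elements
`∑_{t} ([(b+1)t/m] - [bt/m]) σ_t⁻¹`, `1 ≤ b ≤ m - 2`.
-/

namespace H9AB

open NumberField H9FC
open scoped Pointwise

private theorem JIdealM_smul_span {R G : Type*} [CommRing R] [Group G] [MulSemiringAction G R]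
    (σ : G) (x : R) : σ • Ideal.span {x} = Ideal.span {σ • x} := by
  rw [Ideal.pointwise_smul_def, Ideal.map_span, Set.image_singleton]
  rfl

private theorem JIdealM_smul_natCast {R G : Type*} [CommRing R] [Group G] [MulSemiringAction G R]
    (σ : G) (n : ℕ) : σ • (n : R) = (n : R) := by
  have h := map_natCast (MulSemiringAction.toRingHom G R σ) n
  exact h

private theorem JIdealM_natCast_mem {R G : Type*} [CommRing R] [Group G] [MulSemiringAction G R]
    (σ : G) (I : Ideal R) (n : ℕ) : (n : R) ∈ σ • I ↔ (n : R) ∈ I := by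
  conv_lhs => rw [← JIdealM_smul_natCast σ n]
  exact Ideal.smul_mem_pointwise_smul_iff

private theorem JIdealM_smul_ne_bot {R G : Type*} [CommRing R] [Group G] [MulSemiringAction G R]
    (σ : G) (I : Ideal R) (h : I ≠ ⊥) : σ • I ≠ ⊥ := by
  intro h1
  apply h
  rw [eq_bot_iff]
  intro x hx
  have h2 : σ • x ∈ σ • I := Ideal.smul_mem_pointwise_smul_iff.2 hx
  rw [h1, Ideal.mem_bot, smul_eq_zero_iff_eq] at h2
  rw [h2]
  exact Ideal.zero_mem _

private theorem JIdealM_card (m : ℕ) [NeZero m] (M : Type*) [Field M] [NumberField M]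
    [IsCyclotomicExtension {m} ℚ M] (b l : ℕ) [Fact l.Prime] (hlm : ¬ l ∣ m) (𝔩 : Ideal (𝓞 M))
    (h𝔩 : 𝔩.IsPrime) (hl : (l : 𝓞 M) ∈ 𝔩) (τ : M ≃ₐ[ℚ] M) [DecidablePred fun σ : M ≃ₐ[ℚ] M =>
      σ⁻¹ • 𝔩 = τ⁻¹ • 𝔩] :
    ((TM m M b).filter (fun σ => σ⁻¹ • 𝔩 = τ⁻¹ • 𝔩)).card =
      ((Finset.range (orderOf (l : ZMod m))).filter (fun i =>
          m < (l ^ i * (IsCyclotomicExtension.Rat.galEquivZMod m M τ).val.val) % m
            + (l ^ i * (b * (IsCyclotomicExtension.Rat.galEquivZMod m M τ).val.val)) % m)).card := by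
  classical
  have hlf : l.Prime := Fact.out
  have hcop : Nat.Coprime l m := (Nat.Prime.coprime_iff_not_dvd hlf).2 hlm
  set g := IsCyclotomicExtension.Rat.galEquivZMod m M with hg
  set u : (ZMod m)ˣ := ZMod.unitOfCoprime l hcop with hu
  have huv : (u : ZMod m) = (l : ZMod m) := ZMod.coe_unitOfCoprime l hcop
  set t : ℕ := (g τ).val.val with ht
  have hval : ∀ i : ℕ, (u ^ i * g τ : (ZMod m)ˣ).val.val = (l ^ i * t) % m := by
    intro i
    have h1 : ((u ^ i * g τ : (ZMod m)ˣ) : ZMod m) = ((l ^ i * t : ℕ) : ZMod m) := by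
      rw [Units.val_mul, Units.val_pow_eq_pow_val, huv, Nat.cast_mul, Nat.cast_pow, ht,
        ZMod.natCast_zmod_val]
    rw [h1, ZMod.val_natCast]
  have hTM : ∀ σ : M ≃ₐ[ℚ] M, σ ∈ TM m M b ↔
      m < (g σ).val.val + (b * (g σ).val.val) % m := fun σ => mem_TM m M b σ
  have hcond : ∀ i : ℕ, g.symm (u ^ i * g τ) ∈ TM m M b ↔
      m < (l ^ i * t) % m + (l ^ i * (b * t)) % m := by
    intro i
    rw [hTM, MulEquiv.apply_symm_apply, hval]
    have h1 : (b * ((l ^ i * t) % m)) % m = (l ^ i * (b * t)) % m := by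
      rw [Nat.mul_mod_mod]
      congr 1
      ring
    rw [h1]
  have hstab : ∀ σ : M ≃ₐ[ℚ] M, σ⁻¹ • 𝔩 = τ⁻¹ • 𝔩 ↔
      ∃ i < orderOf (l : ZMod m), σ = g.symm (u ^ i * g τ) := by
    intro σ
    have h1 := decM_stab m M l hlm 𝔩 h𝔩 hl (σ * τ⁻¹)
    have h2 : (σ * τ⁻¹) • 𝔩 = 𝔩 ↔ σ⁻¹ • 𝔩 = τ⁻¹ • 𝔩 := by
      rw [mul_smul, smul_eq_iff_eq_inv_smul]
      exact eq_comm
    rw [← h2, h1]
    refine exists_congr fun i => and_congr_right fun _ => ?_
    rw [← hg, map_mul, map_inv]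
    constructor
    · intro h
      have h3 : g σ * (g τ)⁻¹ = u ^ i := by
        refine Units.ext ?_
        rw [h, Units.val_pow_eq_pow_val, huv]
      rw [← h3, inv_mul_cancel_right, MulEquiv.symm_apply_apply]
    · intro h
      rw [h, MulEquiv.apply_symm_apply, mul_inv_cancel_right, Units.val_pow_eq_pow_val, huv]
  symm
  refine Finset.card_bij (fun i _ => g.symm (u ^ i * g τ)) ?_ ?_ ?_
  · intro i hi
    rw [Finset.mem_filter, Finset.mem_range] at hi
    rw [Finset.mem_filter]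
    exact ⟨(hcond i).2 hi.2, (hstab _).2 ⟨i, hi.1, rfl⟩⟩
  · intro i hi j hj hij
    rw [Finset.mem_filter, Finset.mem_range] at hi hj
    have h1 := mul_right_cancel (g.symm.injective hij)
    have h2 : (l : ZMod m) ^ i = (l : ZMod m) ^ j := by
      have h3 := congrArg (fun x : (ZMod m)ˣ => (x : ZMod m)) h1
      simpa only [Units.val_pow_eq_pow_val, huv] using h3
    exact pow_injOn_Iio_orderOf hi.1 hj.1 h2
  · intro σ hσ
    rw [Finset.mem_filter] at hσ
    obtain ⟨i, hi, rfl⟩ := (hstab σ).1 hσ.2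
    exact ⟨i, Finset.mem_filter.2 ⟨Finset.mem_range.2 hi, (hcond i).1 hσ.1⟩, rfl⟩

private theorem JIdealM_core (m : ℕ) [NeZero m] (M : Type*) [Field M]
    [NumberField M] [IsCyclotomicExtension {m} ℚ M]
    (b : ℕ) (hb : 1 ≤ b) (hb' : b + 2 ≤ m) {k : Type*} [Field k] [Fintype k] (π : 𝓞 M →+* k)
    (hπ : Function.Surjective π) (hm : (m : k) ≠ 0) (h0 : RingHom.ker π ≠ ⊥) :
    ∃ J : 𝓞 M, Ideal.span {J} = ∏ σ ∈ TM m M b, σ⁻¹ • RingHom.ker π ∧
      J * (cjM m M • J) = (Fintype.card k : 𝓞 M) := by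
  classical
  obtain ⟨l, hl⟩ : ∃ l, ringChar k = l := ⟨_, rfl⟩
  have hlf : Fact l.Prime := by
    rw [← hl]
    exact ⟨CharP.char_is_prime k (ringChar k)⟩
  have hchk : CharP k l := by rw [← hl]; exact ringChar.charP k
  have hl1 : 1 < l := hlf.out.one_lt
  have hlnm : ¬ l ∣ m := by
    intro h
    exact hm ((CharP.cast_eq_zero_iff k l m).2 h)
  have hkp : (RingHom.ker π).IsPrime := RingHom.ker_isPrime π
  have hlk : (l : 𝓞 M) ∈ RingHom.ker π := by
    rw [RingHom.mem_ker, map_natCast]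
    exact CharP.cast_eq_zero k l
  have hcard : Fintype.card k = l ^ orderOf (l : ZMod m) := by
    rw [← decM_card m M l hlnm (RingHom.ker π) hkp hlk, ← Nat.card_eq_fintype_card]
    exact (Nat.card_congr (RingHom.quotientKerEquivOfSurjective hπ).toEquiv).symm
  obtain ⟨hdvd, χ, hχ, hχπ⟩ := exists_resCharM m M π hm
  have hJc := jac_mul_cjM m M χ hχ b hb hb'
  have hJv := jac_valM m M π hπ hm l (orderOf (l : ZMod m)) hl hcard χ hχ hχπ b hb hb'
  set J : 𝓞 M := jacobiSum χ⁻¹ (χ⁻¹ ^ b) with hJ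
  have hQ0 : ((Fintype.card k : ℕ) : 𝓞 M) ≠ 0 := Nat.cast_ne_zero.2 Fintype.card_ne_zero
  have hJ0 : J ≠ 0 := by
    intro h
    rw [h, zero_mul] at hJc
    exact hQ0 hJc.symm
  refine ⟨J, ?_, hJc⟩
  set 𝔩 : Ideal (𝓞 M) := RingHom.ker π with h𝔩
  have hne : ∀ σ : M ≃ₐ[ℚ] M, σ⁻¹ • 𝔩 ≠ ⊥ := fun σ => JIdealM_smul_ne_bot _ _ h0
  have hpr : ∀ σ : M ≃ₐ[ℚ] M, (σ⁻¹ • 𝔩).IsPrime := fun σ => (Ideal.IsPrime.smul_iff _).2 hkp
  have hspanJ : Ideal.span {J} ≠ ⊥ := by
    rw [Ne, Ideal.span_singleton_eq_bot]; exact hJ0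
  refine ordI_ext _ _ hspanJ ?_ ?_
  · rw [← Ideal.zero_eq_bot, Finset.prod_ne_zero_iff]
    intro σ _
    rw [Ideal.zero_eq_bot]
    exact hne σ
  · intro 𝔮 h𝔮 h𝔮0
    rw [ordI_prod 𝔮 _ _ fun σ _ => hne σ]
    have hterm : ∀ σ : M ≃ₐ[ℚ] M, ordI 𝔮 (σ⁻¹ • 𝔩) = if σ⁻¹ • 𝔩 = 𝔮 then 1 else 0 := by
      intro σ
      by_cases h : σ⁻¹ • 𝔩 = 𝔮
      · rw [if_pos h, h]
        exact ordI_self 𝔮 h𝔮 h𝔮0
      · rw [if_neg h]
        exact ordI_of_ne 𝔮 _ h𝔮 h𝔮0 (hpr σ) (hne σ) fun h1 => h h1.symm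
    rw [Finset.sum_congr rfl fun σ _ => hterm σ, ← Finset.card_filter]
    by_cases hlq : (l : 𝓞 M) ∈ 𝔮
    · obtain ⟨τ', hτ'⟩ := decM_trans m M l 𝔩 𝔮 hkp hlk h𝔮 hlq
      obtain ⟨τ, rfl⟩ : ∃ τ : M ≃ₐ[ℚ] M, τ' = τ⁻¹ := ⟨τ'⁻¹, (inv_inv τ').symm⟩
      subst hτ'
      rw [JIdealM_card m M b l hlnm 𝔩 hkp hlk τ, ← hJv τ, ← JIdealM_smul_span]
      have h1 := ordI_smul τ⁻¹ 𝔩 (τ • Ideal.span {J}) hkp h0
      rw [inv_smul_smul] at h1
      exact h1
    · have h1 : J ∉ 𝔮 := by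
        intro h
        have h2 : (l : 𝓞 M) ^ orderOf (l : ZMod m) ∈ 𝔮 := by
          have h3 := 𝔮.mul_mem_right (cjM m M • J) h
          rw [hJc, hcard] at h3
          push_cast at h3
          exact h3
        exact hlq (h𝔮.mem_of_pow_mem _ h2)
      rw [(ordI_span_eq_zero_iff 𝔮 h𝔮 h𝔮0 J hJ0).2 h1]
      symm
      rw [Finset.card_eq_zero, Finset.filter_eq_empty_iff]
      intro σ _ h
      apply hlq
      rw [← h, JIdealM_natCast_mem]
      exact hlk

theorem exists_stick_primeM (m : ℕ) [NeZero m] (M : Type*) [Field M]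
    [NumberField M] [IsCyclotomicExtension {m} ℚ M]
    (b : ℕ) (hb : 1 ≤ b) (hb' : b + 2 ≤ m)
    (𝔩 : Ideal (𝓞 M)) (h𝔩 : 𝔩.IsPrime) (h0 : 𝔩 ≠ ⊥) (hm𝔩 : (m : 𝓞 M) ∉ 𝔩) :
    ∃ J : 𝓞 M, Ideal.span {J} = ∏ σ ∈ TM m M b, σ⁻¹ • 𝔩 ∧
      J * (cjM m M • J) = (Ideal.absNorm 𝔩 : 𝓞 M) := by
  classical
  haveI hmax : 𝔩.IsMaximal := h𝔩.isMaximal h0
  letI : Field (𝓞 M ⧸ 𝔩) := Ideal.Quotient.field 𝔩
  haveI : Finite (𝓞 M ⧸ 𝔩) := Ideal.finiteQuotientOfFreeOfNeBot 𝔩 h0
  letI : Fintype (𝓞 M ⧸ 𝔩) := Fintype.ofFinite _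
  have hker : RingHom.ker (Ideal.Quotient.mk 𝔩) = 𝔩 := Ideal.mk_ker
  have hp : ((m : ℕ) : 𝓞 M ⧸ 𝔩) ≠ 0 := by
    intro h
    apply hm𝔩
    rw [← Ideal.Quotient.eq_zero_iff_mem, map_natCast]
    exact h
  obtain ⟨J, h1, h2⟩ := JIdealM_core m M b hb hb' (Ideal.Quotient.mk 𝔩)
    Ideal.Quotient.mk_surjective hp (by rw [hker]; exact h0)
  refine ⟨J, ?_, ?_⟩
  · rw [hker] at h1
    exact h1
  · rw [h2, ← Nat.card_eq_fintype_card]
    rfl

/-- the theorem of Stickelberger, with control of the absolute values -/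
theorem exists_stick_m (m : ℕ) [NeZero m] (M : Type*) [Field M]
    [NumberField M] [IsCyclotomicExtension {m} ℚ M]
    (b : ℕ) (hb : 1 ≤ b) (hb' : b + 2 ≤ m) (𝔞 : Ideal (𝓞 M)) (h0 : 𝔞 ≠ ⊥)
    (hp𝔞 : ∀ P : Ideal (𝓞 M), P.IsPrime → (m : 𝓞 M) ∈ P → ¬ 𝔞 ≤ P) :
    ∃ J : 𝓞 M, Ideal.span {J} = ∏ σ ∈ TM m M b, σ⁻¹ • 𝔞 ∧
      J * (cjM m M • J) = (Ideal.absNorm 𝔞 : 𝓞 M) := by
  classical
  induction 𝔞 using UniqueFactorizationMonoid.induction_on_prime with
  | h₁ => exact absurd rfl h0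
  | h₂ x hx =>
    rw [Ideal.isUnit_iff] at hx
    subst hx
    refine ⟨1, ?_, ?_⟩
    · have h1 : ∀ σ ∈ TM m M b, σ⁻¹ • (⊤ : Ideal (𝓞 M)) = 1 := by
        intro σ _
        rw [Ideal.one_eq_top, eq_top_iff]
        intro x _
        rw [Ideal.mem_pointwise_smul_iff_inv_smul_mem]
        trivial
      rw [Ideal.span_singleton_one, Finset.prod_congr rfl h1, Finset.prod_const_one,
        Ideal.one_eq_top]
    · rw [smul_one, mul_one, Ideal.absNorm_top, Nat.cast_one]
  | h₃ x P hx hP ih =>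
    have hP' : P.IsPrime := Ideal.isPrime_of_prime hP
    have hP0 : P ≠ ⊥ := hP.ne_zero
    have hpP : (m : 𝓞 M) ∉ P := fun h => hp𝔞 P hP' h Ideal.mul_le_left
    obtain ⟨J₁, h1, h2⟩ := exists_stick_primeM m M b hb hb' P hP' hP0 hpP
    obtain ⟨J₂, h4, h5⟩ := ih hx fun Q hQ hpQ hle =>
      hp𝔞 Q hQ hpQ (Ideal.mul_le_right.trans hle)
    refine ⟨J₁ * J₂, ?_, ?_⟩
    · rw [← Ideal.span_singleton_mul_span_singleton, h1, h4, ← Finset.prod_mul_distrib]
      refine Finset.prod_congr rfl fun σ _ => ?_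
      rw [smul_mul']
    · rw [smul_mul', map_mul, Nat.cast_mul, ← h2, ← h5]
      ring

end H9AB

end

section

/-!
# The series of `(Λ(n) - 1)(log n)^k` for `|Im s| ≤ 1`

The series is `(-1)^k G^{(k)}(s)`, `G = -ζ'/ζ - ζ`, and `G` extends to a function analytic in a neighbourhood of
`{1 ≤ Re s ≤ 2, |Im s| ≤ 1}`: `ζ(s) = h(s)/(s-1)` with `h` entire (removable singularity), `h(1) = 1`,
`h ≠ 0` on `Re s ≥ 1` (`riemannZeta_ne_zero_of_one_le_re`), so
`-ζ'/ζ - ζ = -h'/h + 1/(s-1) - h/(s-1) = -h'/h - (h(s)-h(1))/(s-1)`.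
A continuous function on a compact set is bounded.
-/

set_option autoImplicit false

namespace Pool.Agent.H91.EHA

open Finset

/-- The function `Λ - 1` with complex values. -/
private noncomputable def swj2F (n : ℕ) : ℂ := ((Lam n : ℝ) : ℂ) - 1

/-- The analytic continuation of `-ζ'/ζ - ζ`. -/
private noncomputable def swj2G (s : ℂ) : ℂ :=
  -(deriv riemannZeta₁ s / riemannZeta₁ s) - riemannZeta₀ s

private theorem swj2_ne (s : ℂ) (hs : 1 ≤ s.re) : riemannZeta₁ s ≠ 0 := by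
  by_cases h1 : s = 1
  · rw [h1, riemannZeta₁_one]
    exact one_ne_zero
  · intro h0
    have h2 := riemannZeta_ne_zero_of_one_le_re hs
    apply h2
    rw [riemannZeta_eq_inv_sub_mul h1, h0, mul_zero]

private theorem swj2_analytic (s : ℂ) (hs : 1 ≤ s.re) : AnalyticAt ℂ swj2G s := by
  have h1 : AnalyticAt ℂ riemannZeta₁ s := differentiable_riemannZeta₁.analyticAt s
  have h0 : AnalyticAt ℂ riemannZeta₀ s := differentiable_riemannZeta₀.analyticAt s
  exact ((h1.deriv.div h1 (swj2_ne s hs)).neg).sub h0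

private theorem swj2_summable (s : ℂ) (hs : 1 < s.re) : LSeriesSummable swj2F s := by
  have h1 : LSeriesSummable (fun n : ℕ => ((ArithmeticFunction.vonMangoldt n : ℝ) : ℂ)) s :=
    ArithmeticFunction.LSeriesSummable_vonMangoldt hs
  have h2 : LSeriesSummable (1 : ℕ → ℂ) s := LSeriesSummable_one_iff.mpr hs
  exact h1.sub h2

private theorem swj2_eq (s : ℂ) (hs : 1 < s.re) : LSeries swj2F s = swj2G s := by
  have h1 : LSeriesSummable (fun n : ℕ => ((ArithmeticFunction.vonMangoldt n : ℝ) : ℂ)) s :=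
    ArithmeticFunction.LSeriesSummable_vonMangoldt hs
  have h2 : LSeriesSummable (1 : ℕ → ℂ) s := LSeriesSummable_one_iff.mpr hs
  have h3 : LSeries swj2F s = LSeries (fun n : ℕ => ((ArithmeticFunction.vonMangoldt n : ℝ) : ℂ)) s -
      LSeries 1 s := LSeries_sub h1 h2
  have hne : s ≠ 1 := by
    intro h
    rw [h, Complex.one_re] at hs
    exact lt_irrefl _ hs
  have hz1 := swj2_ne s hs.le
  have hs1 : s - 1 ≠ 0 := sub_ne_zero.mpr hne
  rw [h3, ArithmeticFunction.LSeries_vonMangoldt_eq_deriv_riemannZeta_div hs,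
    LSeries_one_eq_riemannZeta hs, deriv_riemannZeta_eq_neg_inv_sub_sq_mul_add hne]
  have h4 : riemannZeta s = (s - 1)⁻¹ * riemannZeta₁ s := riemannZeta_eq_inv_sub_mul hne
  have h5 : riemannZeta s = (s - 1)⁻¹ + riemannZeta₀ s := riemannZeta_eq_inv_sub_add hne
  have h6 : riemannZeta₀ s = (s - 1)⁻¹ * riemannZeta₁ s - (s - 1)⁻¹ := by
    rw [← h4, h5]; ring
  unfold swj2G
  rw [h4, h6]
  field_simp
  ring

private theorem swj2_logMul (k n : ℕ) :
    (LSeries.logMul^[k] swj2F) n = Complex.log n ^ k * swj2F n := by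
  induction k generalizing n with
  | zero => simp
  | succ k ih =>
    rw [Function.iterate_succ_apply', LSeries.logMul, ih, pow_succ]
    ring

theorem zetaF_low (k : ℕ) : ∃ C : ℝ, 0 < C ∧ ∀ s : ℂ, 1 < s.re → s.re ≤ 2 → |s.im| ≤ 1 →
    ‖LSeries (fun n => (((Lam n - 1) * Real.log n ^ k : ℝ) : ℂ)) s‖ ≤ C := by
  have hK : IsCompact ((Set.Icc (1 : ℝ) 2) ×ℂ (Set.Icc (-1 : ℝ) 1)) :=
    isCompact_Icc.reProdIm isCompact_Icc
  have hc : ContinuousOn (iteratedDeriv k swj2G) ((Set.Icc (1 : ℝ) 2) ×ℂ (Set.Icc (-1 : ℝ) 1)) := by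
    intro s hs
    rw [iteratedDeriv_eq_iterate]
    exact ((swj2_analytic s hs.1.1).iterated_deriv k).continuousAt.continuousWithinAt
  obtain ⟨B, hB⟩ := hK.exists_bound_of_continuousOn hc
  refine ⟨|B| + 1, by positivity, fun s h1 h2 h3 => ?_⟩
  have hab : LSeries.abscissaOfAbsConv swj2F ≤ ((1 : ℝ) : EReal) := by
    refine LSeries.abscissaOfAbsConv_le_of_forall_lt_LSeriesSummable fun y hy => ?_
    exact swj2_summable y (by simpa using hy)
  have hab2 : LSeries.abscissaOfAbsConv swj2F < (s.re : EReal) :=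
    lt_of_le_of_lt hab (by exact_mod_cast h1)
  have h4 := LSeries_iteratedDeriv (f := swj2F) k hab2
  have h5 : LSeries swj2F =ᶠ[nhds s] swj2G := by
    have ho : IsOpen {z : ℂ | 1 < z.re} := isOpen_lt continuous_const Complex.continuous_re
    filter_upwards [ho.mem_nhds h1] with z hz
    exact swj2_eq z hz
  rw [h5.iteratedDeriv_eq k] at h4
  have h6 : LSeries (fun n => (((Lam n - 1) * Real.log n ^ k : ℝ) : ℂ)) s =
      LSeries (LSeries.logMul^[k] swj2F) s := by
    refine LSeries_congr (fun {n} _ => ?_) s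
    rw [swj2_logMul, Complex.ofReal_mul, Complex.ofReal_pow, Complex.ofReal_log (Nat.cast_nonneg n),
      Complex.ofReal_natCast]
    unfold swj2F
    push_cast
    ring
  have h7 : ‖LSeries (LSeries.logMul^[k] swj2F) s‖ = ‖iteratedDeriv k swj2G s‖ := by
    rw [h4, norm_mul, norm_pow, norm_neg, norm_one, one_pow, one_mul]
  rw [h6, h7]
  have hs : s ∈ (Set.Icc (1 : ℝ) 2) ×ℂ (Set.Icc (-1 : ℝ) 1) :=
    ⟨⟨h1.le, h2⟩, abs_le.mp h3⟩
  have h8 := hB s hs
  have h9 := le_abs_self B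
  linarith

end Pool.Agent.H91.EHA

end

section

/-!
Project AB: the elements `T_b` of the Stickelberger relations sum up to `⌊c t / m⌋`; the moments
of `⌊c t / m⌋` against a function on `ℤ/f` and their parity.
-/

namespace H99AB

open Finset

/-- `∑_{1 ≤ b < c} [m < t + (b t mod m)] = ⌊c t / m⌋` for `t` prime to `m`, `0 < t < m`, `c ≤ m - 1` -/
lemma sum_TM (m t : ℕ) (ht : t < m) (hcop : Nat.Coprime t m) (c : ℕ) (hc : 1 ≤ c) (hcm : c < m) :
    ∑ b ∈ Ico 1 c, (if m < t + (b * t) % m then 1 else 0) = c * t / m := by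
  induction c, hc using Nat.le_induction with
  | base => simp [Nat.div_eq_of_lt ht]
  | succ c hc ih =>
    rw [sum_Ico_succ_top hc, ih (by omega)]
    have hm : 0 < m := by omega
    have h1 : (c + 1) * t / m = c * t / m + (if m ≤ (c * t) % m + t then 1 else 0) := by
      rw [Nat.add_mul, one_mul, Nat.add_div hm, Nat.div_eq_of_lt ht, Nat.mod_eq_of_lt ht]
      simp
    rw [h1]
    congr 1
    have h2 : (c * t) % m + t ≠ m := by
      intro h
      have h3 : m ∣ (c + 1) * t := by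
        refine ⟨c * t / m + 1, ?_⟩
        have := Nat.div_add_mod (c * t) m
        calc (c + 1) * t = c * t + t := by ring
          _ = m * (c * t / m) + (c * t % m + t) := by omega
          _ = m * (c * t / m + 1) := by rw [h]; ring
      have h4 : m ∣ c + 1 := (Nat.Coprime.dvd_of_dvd_mul_right hcop.symm h3)
      exact absurd (Nat.le_of_dvd (by omega) h4) (by omega)
    by_cases h : m < t + (c * t) % m
    · rw [if_pos h, if_pos (by omega)]
    · rw [if_neg h, if_neg (by omega)]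

/-- `⌊c (m - t) / m⌋ + ⌊c t / m⌋ = c - 1` if `m` does not divide `c t` -/
lemma floor_neg (m t c : ℕ) (ht : t ≤ m) (hd : ¬ m ∣ c * t) :
    c * (m - t) / m + c * t / m + 1 = c := by
  have hm : 0 < m := by
    rcases Nat.eq_zero_or_pos m with rfl | h
    · exact absurd (by simp [Nat.le_zero.1 ht]) hd
    · exact h
  have h1 : c * (m - t) + c * t = c * m := by
    rw [← Nat.mul_add]
    congr 1
    omega
  have h2 : c * (m - t) % m + c * t % m = m := by
    have h3 : (c * (m - t) % m + c * t % m) % m = 0 := by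
      rw [← Nat.add_mod, h1, Nat.mul_mod_left]
    have h4 : 0 < c * t % m := by
      rcases Nat.eq_zero_or_pos (c * t % m) with h | h
      · exact absurd (Nat.dvd_of_mod_eq_zero h) hd
      · exact h
    have h5 : c * t % m < m := Nat.mod_lt _ hm
    have h6 : c * (m - t) % m < m := Nat.mod_lt _ hm
    obtain ⟨k, hk⟩ := Nat.dvd_of_mod_eq_zero h3
    have : k = 1 := by
      have : k < 2 := by
        by_contra hcon
        have : m * 2 ≤ m * k := Nat.mul_le_mul_left _ (by omega)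
        omega
      have : 0 < k := by
        rcases Nat.eq_zero_or_pos k with rfl | h
        · omega
        · exact h
      omega
    rw [hk, this, mul_one]
  have h3 := Nat.div_add_mod (c * (m - t)) m
  have h4 := Nat.div_add_mod (c * t) m
  have h5 : m * (c * (m - t) / m + c * t / m + 1) = m * c := by
    calc m * (c * (m - t) / m + c * t / m + 1)
        = m * (c * (m - t) / m) + m * (c * t / m) + m := by ring
      _ = m * (c * (m - t) / m) + m * (c * t / m) + (c * (m - t) % m + c * t % m) := by rw [h2]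
      _ = c * (m - t) + c * t := by omega
      _ = m * c := by rw [h1]; ring
  exact Nat.eq_of_mul_eq_mul_left hm h5

end H99AB

end

section

/-!
Project AB: summation of the relations over `b` and Fourier transform over `(ℤ/f)ˣ`.
-/

namespace H99AB

open Finset

variable {k : Type*} [Field k]

/-- the moments `β_j(ψ) = ∑_t ⌊c t / m⌋ t^{-j} ψ(t)`, `t ∈ (ℤ/(f p))ˣ` -/
noncomputable def beta (k : Type*) [Field k] (f p c j : ℕ) [NeZero (f * p)]
    (ψ : (ZMod f)ˣ →* kˣ) : k :=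
  ∑ t : (ZMod (f * p))ˣ, ((c * t.val.val / (f * p) : ℕ) : k) * ((t.val.val : k)⁻¹) ^ j *
    (ψ (ZMod.unitsMap (dvd_mul_right f p) t) : k)

/-- sum over `b` of the relations of the sets `T_b` -/
theorem sum_rel (m : ℕ) [NeZero m] (c : ℕ) (hc : 1 ≤ c) (hcm : c < m) (F : (ZMod m)ˣ → k)
    (H : ∀ b, 1 ≤ b → b < c →
      ∑ t : (ZMod m)ˣ, (if m < t.val.val + (b * t.val.val) % m then F t else 0) = 0) :
    ∑ t : (ZMod m)ˣ, ((c * t.val.val / m : ℕ) : k) * F t = 0 := by
  have h1 : ∀ t : (ZMod m)ˣ, ((c * t.val.val / m : ℕ) : k) * F t =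
      ∑ b ∈ Ico 1 c, (if m < t.val.val + (b * t.val.val) % m then F t else 0) := by
    intro t
    have hcop : Nat.Coprime t.val.val m := ZMod.val_coe_unit_coprime t
    rw [← sum_TM m t.val.val (ZMod.val_lt _) hcop c hc hcm]
    push_cast
    rw [sum_mul]
    refine sum_congr rfl fun b _ => ?_
    split_ifs <;> simp
  rw [sum_congr rfl fun t _ => h1 t, sum_comm]
  refine sum_eq_zero fun b hb => ?_
  rw [mem_Ico] at hb
  exact H b hb.1 hb.2

/-- convolution on a finite commutative group: Fourier transform along a homomorphism -/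
theorem fourier_conv {G H : Type*} [CommGroup G] [Fintype G] [Group H] [Fintype H] (π : H →* G)
    (F : H → k) (y : G → k) (hrel : ∀ w : G, ∑ t : H, F t * y (w * (π t)⁻¹) = 0)
    (ψ : G →* kˣ) :
    (∑ t : H, F t * (ψ (π t) : k)) * (∑ w : G, (ψ w : k) * y w) = 0 := by
  have h1 : ∑ w : G, (ψ w : k) * ∑ t : H, F t * y (w * (π t)⁻¹) = 0 :=
    sum_eq_zero fun w _ => by rw [hrel w, mul_zero]
  have h2 : ∑ w : G, (ψ w : k) * ∑ t : H, F t * y (w * (π t)⁻¹) =
      ∑ t : H, F t * ∑ w : G, (ψ w : k) * y (w * (π t)⁻¹) := by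
    simp only [mul_sum]
    rw [sum_comm]
    refine sum_congr rfl fun t _ => sum_congr rfl fun w _ => by ring
  have h3 : ∀ t : H, ∑ w : G, (ψ w : k) * y (w * (π t)⁻¹) =
      (ψ (π t) : k) * ∑ w : G, (ψ w : k) * y w := by
    intro t
    rw [mul_sum]
    refine Fintype.sum_equiv (Equiv.mulRight ((π t)⁻¹)) _ _ fun w => ?_
    rw [Equiv.coe_mulRight]
    have : (ψ w : k) = (ψ (π t) : k) * (ψ (w * (π t)⁻¹) : k) := by
      rw [← Units.val_mul, ← map_mul]
      congr 2
      rw [mul_comm w, mul_inv_cancel_left]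
    rw [this]
    ring
  rw [h2] at h1
  rw [sum_mul, ← h1]
  refine sum_congr rfl fun t _ => ?_
  rw [h3 t]
  ring

/-- **Fourier form of the relations**: if the relations hold for `1 ≤ b < c`, then for every
character the moment or the character component vanishes. -/
theorem fourier_rel {f p : ℕ} [NeZero (f * p)] (c j : ℕ) (hc : 1 ≤ c) [Fintype (ZMod f)ˣ]
    (hcm : c < f * p) (y : (ZMod f)ˣ → k)
    (H : ∀ b, 1 ≤ b → b < c → ∀ w : (ZMod f)ˣ,
      ∑ t : (ZMod (f * p))ˣ, (if f * p < t.val.val + (b * t.val.val) % (f * p) then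
        ((t.val.val : k)⁻¹) ^ j * y (w * (ZMod.unitsMap (dvd_mul_right f p) t)⁻¹) else 0) = 0)
    (ψ : (ZMod f)ˣ →* kˣ) :
    beta k f p c j ψ = 0 ∨ ∑ w : (ZMod f)ˣ, (ψ w : k) * y w = 0 := by
  have h1 := fourier_conv (ZMod.unitsMap (dvd_mul_right f p))
    (fun t : (ZMod (f * p))ˣ => ((c * t.val.val / (f * p) : ℕ) : k) * ((t.val.val : k)⁻¹) ^ j) y ?_ ψ
  · rcases mul_eq_zero.1 h1 with h | h
    · left
      rw [beta]
      exact h
    · right
      exact h
  · intro w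
    have h2 := sum_rel (k := k) (f * p) c hc hcm
      (fun t => ((t.val.val : k)⁻¹) ^ j * y (w * (ZMod.unitsMap (dvd_mul_right f p) t)⁻¹))
      (fun b hb hbc => H b hb hbc w)
    rw [← h2]
    refine sum_congr rfl fun t _ => ?_
    ring

lemma natCast_of_dvd {p m : ℕ} [CharP k p] (hm : p ∣ m) {a b : ℕ} (h : a % m = b % m) :
    (a : k) = (b : k) := by
  rw [CharP.natCast_eq_natCast k p]
  exact Nat.ModEq.of_dvd hm h

lemma cast_val_mul {p m : ℕ} [CharP k p] [NeZero m] (hm : p ∣ m) (s t : (ZMod m)ˣ) :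
    (((s * t : (ZMod m)ˣ).val.val : ℕ) : k) = (s.val.val : k) * (t.val.val : k) := by
  rw [← Nat.cast_mul]
  refine natCast_of_dvd hm ?_
  rw [Units.val_mul, ZMod.val_mul, Nat.mod_mod]

/-- `∑_t t^{-j} ψ(t) = 0` over the units modulo `f p` if `p - 1` does not divide `j` -/
theorem sum_pow_zero {f p : ℕ} [hp : Fact p.Prime] [CharP k p] [NeZero (f * p)] (j : ℕ)
    (hfp : Nat.Coprime f p) (hj : ¬ (p - 1) ∣ j) (ψ : (ZMod f)ˣ →* kˣ) :
    ∑ t : (ZMod (f * p))ˣ, ((t.val.val : k)⁻¹) ^ j *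
      (ψ (ZMod.unitsMap (dvd_mul_right f p) t) : k) = 0 := by
  classical
  have hfne : NeZero f := ⟨fun h => NeZero.ne (f * p) (by rw [h, zero_mul])⟩
  obtain ⟨u, hu⟩ := IsCyclic.exists_generator (α := (ZMod p)ˣ)
  have hord : orderOf u = p - 1 := by
    rw [orderOf_eq_card_of_forall_mem_zpowers hu, Nat.card_eq_fintype_card, ZMod.card_units]
  have huj : u ^ j ≠ 1 := by
    intro h
    exact hj (hord ▸ orderOf_dvd_of_pow_eq_one h)
  set g : (ZMod (f * p))ˣ := (Units.mapEquiv (ZMod.chineseRemainder hfp).toMulEquiv).symm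
    (MulEquiv.prodUnits.symm (1, u)) with hg
  have hg0 : ZMod.chineseRemainder hfp (g : ZMod (f * p)) = (1, (u : ZMod p)) := by
    have h1 : (Units.mapEquiv (ZMod.chineseRemainder hfp).toMulEquiv) g =
        MulEquiv.prodUnits.symm (1, u) := by
      rw [hg, MulEquiv.apply_symm_apply]
    have h2 := congrArg (fun x : (ZMod f × ZMod p)ˣ => (x : ZMod f × ZMod p)) h1
    exact h2
  have hgp : ((g.val.val : ℕ) : ZMod p) = (u : ZMod p) := by
    have h1 : ZMod.chineseRemainder hfp (g : ZMod (f * p)) =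
        ((g.val.val : ZMod f), (g.val.val : ZMod p)) := by
      conv_lhs => rw [← ZMod.natCast_zmod_val (g : ZMod (f * p))]
      rw [map_natCast]
      rfl
    rw [hg0] at h1
    exact (congrArg Prod.snd h1).symm
  have hgf : ZMod.unitsMap (dvd_mul_right f p) g = 1 := by
    have h1 : ZMod.chineseRemainder hfp (g : ZMod (f * p)) =
        ((g.val.val : ZMod f), (g.val.val : ZMod p)) := by
      conv_lhs => rw [← ZMod.natCast_zmod_val (g : ZMod (f * p))]
      rw [map_natCast]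
      rfl
    rw [hg0] at h1
    have h2 := (congrArg Prod.fst h1).symm
    ext
    rw [ZMod.unitsMap_def, Units.coe_map, Units.val_one]
    have h3 : (ZMod.castHom (dvd_mul_right f p) (ZMod f)) (g : ZMod (f * p)) =
        ((g.val.val : ℕ) : ZMod f) := by
      conv_lhs => rw [← ZMod.natCast_zmod_val (g : ZMod (f * p))]
      rw [map_natCast]
    exact h3.trans h2
  have hgk : ((g.val.val : k)) ^ j ≠ 1 := by
    intro h
    apply huj
    have h1 : (((g.val.val) ^ j : ℕ) : k) = ((1 : ℕ) : k) := by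
      push_cast
      exact h
    rw [CharP.natCast_eq_natCast k p] at h1
    have h2 : (((g.val.val) ^ j : ℕ) : ZMod p) = ((1 : ℕ) : ZMod p) :=
      (ZMod.natCast_eq_natCast_iff _ _ _).2 h1
    push_cast at h2
    rw [hgp] at h2
    ext
    push_cast
    exact h2
  have hpm : p ∣ f * p := dvd_mul_left p f
  set S0 := ∑ t : (ZMod (f * p))ˣ, ((t.val.val : k)⁻¹) ^ j *
      (ψ (ZMod.unitsMap (dvd_mul_right f p) t) : k) with hS0
  have h1 : S0 = ∑ t : (ZMod (f * p))ˣ, (((g * t : (ZMod (f * p))ˣ).val.val : k)⁻¹) ^ j *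
      (ψ (ZMod.unitsMap (dvd_mul_right f p) (g * t)) : k) :=
    (Fintype.sum_equiv (Equiv.mulLeft g) _ _ fun t => rfl).symm
  have h2 : ∀ t : (ZMod (f * p))ˣ, (((g * t : (ZMod (f * p))ˣ).val.val : k)⁻¹) ^ j *
      (ψ (ZMod.unitsMap (dvd_mul_right f p) (g * t)) : k) =
      ((g.val.val : k)⁻¹) ^ j * (((t.val.val : k)⁻¹) ^ j *
        (ψ (ZMod.unitsMap (dvd_mul_right f p) t) : k)) := by
    intro t
    rw [cast_val_mul hpm, mul_inv, mul_pow, map_mul, hgf, one_mul]
    ring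
  rw [sum_congr rfl fun t _ => h2 t, ← mul_sum, ← hS0] at h1
  by_contra hne
  have h3 : (1 : k) = ((g.val.val : k)⁻¹) ^ j := by
    apply mul_right_cancel₀ hne
    rw [one_mul]
    exact h1
  apply hgk
  rw [inv_pow] at h3
  rw [← inv_inv ((g.val.val : k) ^ j), ← h3, inv_one]

/-- parity: `β_j(ψ) = 0` if `ψ(-1) = (-1)^j` (`j` not divisible by `p - 1`, `c` prime to `f p`) -/
theorem beta_parity {f p : ℕ} [hp : Fact p.Prime] [CharP k p] [NeZero (f * p)] (c j : ℕ)
    (hcop : Nat.Coprime c (f * p)) (hfp : Nat.Coprime f p)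
    (hj : ¬ (p - 1) ∣ j) (ψ : (ZMod f)ˣ →* kˣ) (h2 : (2 : k) ≠ 0)
    (hpar : (ψ (-1) : k) = (-1) ^ j) :
    beta k f p c j ψ = 0 := by
  classical
  have hz := sum_pow_zero (k := k) j hfp hj ψ
  have hf1 : 1 < f * p := by
    have h3 := hp.out.two_le
    have h4 : f ≠ 0 := fun h => NeZero.ne (f * p) (by rw [h, zero_mul])
    have h5 : 0 < f := Nat.pos_of_ne_zero h4
    nlinarith
  set m := f * p with hm
  set π := ZMod.unitsMap (dvd_mul_right f p) with hπ
  have hneg : ∀ t : (ZMod m)ˣ, ((-t : (ZMod m)ˣ).val.val : ℕ) = m - t.val.val := by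
    intro t
    rw [Units.val_neg, ZMod.neg_val, if_neg]
    intro h
    have h3 := ZMod.val_coe_unit_coprime t
    rw [h, ZMod.val_zero, Nat.coprime_zero_left] at h3
    omega
  have hpk : ((m : ℕ) : k) = 0 := by
    rw [hm, Nat.cast_mul, CharP.cast_eq_zero k p, mul_zero]
  have hcast : ∀ t : (ZMod m)ˣ, (((-t : (ZMod m)ˣ).val.val : ℕ) : k) = - (t.val.val : k) := by
    intro t
    rw [hneg, Nat.cast_sub (ZMod.val_lt _).le, hpk, zero_sub]
  have hfl : ∀ t : (ZMod m)ˣ, ((c * (-t : (ZMod m)ˣ).val.val / m : ℕ) : k) =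
      (c : k) - 1 - ((c * t.val.val / m : ℕ) : k) := by
    intro t
    have h3 := floor_neg m t.val.val c (ZMod.val_lt _).le (by
      intro h
      have h4 : m ∣ t.val.val := (Nat.Coprime.dvd_of_dvd_mul_left hcop.symm h)
      have h5 := Nat.Coprime.eq_one_of_dvd (ZMod.val_coe_unit_coprime t).symm h4
      omega)
    rw [hneg]
    have h4 : (((c * (m - t.val.val) / m + c * t.val.val / m + 1 : ℕ)) : k) = (c : k) := by
      rw [h3]
    push_cast at h4
    rw [← h4]
    push_cast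
    ring
  have hψ : ∀ t : (ZMod m)ˣ, (ψ (π (-t)) : k) = (-1) ^ j * (ψ (π t) : k) := by
    intro t
    have h3 : π (-t) = (-1) * π t := by
      ext
      simp [hπ, ZMod.unitsMap_def]
    rw [h3, map_mul, Units.val_mul, hpar]
  have hsum : beta k f p c j ψ = ∑ t : (ZMod m)ˣ, ((c * (-t : (ZMod m)ˣ).val.val / m : ℕ) : k) *
      (((-t : (ZMod m)ˣ).val.val : k)⁻¹) ^ j * (ψ (π (-t)) : k) := by
    rw [beta]
    exact (Fintype.sum_equiv (Equiv.neg _) _ _ fun t => rfl).symm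
  have hterm : ∀ t : (ZMod m)ˣ, ((c * (-t : (ZMod m)ˣ).val.val / m : ℕ) : k) *
      (((-t : (ZMod m)ˣ).val.val : k)⁻¹) ^ j * (ψ (π (-t)) : k) =
      ((c : k) - 1) * (((t.val.val : k)⁻¹) ^ j * (ψ (π t) : k)) -
        ((c * t.val.val / m : ℕ) : k) * ((t.val.val : k)⁻¹) ^ j * (ψ (π t) : k) := by
    intro t
    rw [hfl, hcast, hψ, inv_neg, neg_pow]
    have h3 : ((-1 : k) ^ j) * (-1) ^ j = 1 := by
      rw [← mul_pow]
      simp
    calc ((c : k) - 1 - ((c * t.val.val / m : ℕ) : k)) * ((-1) ^ j * ((t.val.val : k)⁻¹) ^ j) *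
        ((-1) ^ j * (ψ (π t) : k))
        = ((c : k) - 1 - ((c * t.val.val / m : ℕ) : k)) * (((-1) ^ j * (-1) ^ j) *
          (((t.val.val : k)⁻¹) ^ j * (ψ (π t) : k))) := by ring
      _ = _ := by rw [h3]; ring
  rw [sum_congr rfl fun t _ => hterm t, sum_sub_distrib, ← mul_sum, hz, mul_zero, zero_sub] at hsum
  have h3 : (2 : k) * beta k f p c j ψ = 0 := by
    have h4 : beta k f p c j ψ = - beta k f p c j ψ := by
      conv_lhs => rw [hsum]
      rfl
    linear_combination h4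
  exact (mul_eq_zero.1 h3).resolve_left h2

end H99AB

end

section

/-!
Project AB: the bridge from the moments `β_j(ψ)` to the weighted gap theorem of project GW.
-/

namespace H99AB

open Finset Polynomial NumberField

variable {F : Type*} [Field F]

/-- the coefficient functions `∑_{i < p-1} y^{-(i+1)} X^i = (X^(p-1) - 1) / (X - y)` -/
noncomputable def Py (p : ℕ) (y : F) : F[X] := ∑ i ∈ range (p - 1), C ((y⁻¹) ^ (i + 1)) * X ^ i

lemma Py_mul (p : ℕ) {y : F} (hy : y ≠ 0) (hyp : y ^ (p - 1) = 1) :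
    (X - C y) * Py p y = X ^ (p - 1) - 1 := by
  have key : ∀ n : ℕ, (X - C y) * ∑ i ∈ range n, C ((y⁻¹) ^ (i + 1)) * X ^ i =
      C ((y⁻¹) ^ n) * X ^ n - 1 := by
    intro n
    induction n with
    | zero => simp
    | succ n ih =>
      rw [sum_range_succ, mul_add, ih]
      have h1 : C y * C (y⁻¹) = (1 : F[X]) := by
        rw [← C_mul, mul_inv_cancel₀ hy, C_1]
      have h2 : C ((y⁻¹) ^ (n + 1)) = C (y⁻¹) * C ((y⁻¹) ^ n) := by
        rw [← C_mul]
        congr 1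
        ring
      rw [h2]
      linear_combination (-(C ((y⁻¹) ^ n) * X ^ n)) * h1
  unfold Py
  rw [key]
  have : (y⁻¹) ^ (p - 1) = 1 := by rw [inv_pow, hyp, inv_one]
  rw [this, C_1, one_mul]

lemma Py_coeff (p : ℕ) (y : F) (j : ℕ) (hj : j < p - 1) : (Py p y).coeff j = (y⁻¹) ^ (j + 1) := by
  unfold Py
  rw [finsetSum_coeff]
  simp only [coeff_C_mul, coeff_X_pow]
  rw [sum_eq_single j]
  · simp
  · intro b _ hb
    rw [if_neg (Ne.symm hb), mul_zero]
  · intro h
    exact absurd (mem_range.2 hj) h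

/-- the function `Lam` attached to values `g` on `ℤ/p` -/
noncomputable def LamG (p : ℕ) [Fact p.Prime] [CharP F p] (g : ZMod p → F) : F[X] :=
  ∑ y ∈ univ.erase (0 : ZMod p), C (g y) * Py p (ZMod.castHom (dvd_refl p) F y)

lemma natDegree_LamG (p : ℕ) [hp : Fact p.Prime] [CharP F p] (hp3 : 3 ≤ p) (g : ZMod p → F) :
    (LamG p g).natDegree < p - 1 := by
  have h1 : (LamG p g).natDegree ≤ p - 2 := by
    unfold LamG Py
    refine natDegree_sum_le_of_forall_le _ _ fun y _ => ?_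
    refine le_trans (natDegree_C_mul_le _ _) ?_
    refine natDegree_sum_le_of_forall_le _ _ fun i hi => ?_
    rw [mem_range] at hi
    refine le_trans (natDegree_C_mul_X_pow_le _ _) ?_
    omega
  omega

lemma castHom_ne {p : ℕ} [hp : Fact p.Prime] [CharP F p] {y : ZMod p} (hy : y ≠ 0) :
    ZMod.castHom (dvd_refl p) F y ≠ 0 := by
  intro h
  exact hy ((ZMod.castHom (dvd_refl p) F).injective (by rw [h, map_zero]))

lemma castHom_pow {p : ℕ} [hp : Fact p.Prime] [CharP F p] {y : ZMod p} (hy : y ≠ 0) :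
    (ZMod.castHom (dvd_refl p) F y) ^ (p - 1) = 1 := by
  rw [← map_pow, ZMod.pow_card_sub_one_eq_one hy, map_one]

lemma aux1 {K : Type*} [Field K] (a b c : K) : a⁻¹ * b / c = b / (a * c) := by
  rw [inv_mul_eq_div, div_div]

lemma aux2 {K : Type*} [Field K] (a b : K) {c : K} (hc : c ≠ 0) : a * b = c * b * (a / c) := by
  field_simp

/-- **`LamOK`** from the jumps of `g` -/
theorem lamOK_of_jump (p q : ℕ) [hp : Fact p.Prime] [CharP F p] (hp3 : 3 ≤ p) (hq : q < p)
    (hq0 : 0 < q) (W : ℕ → F) (g : ZMod p → F) (hg0 : g 0 = 0)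
    (hg : ∀ y : ZMod p, (q : F) * (g (y + 1) - g y) =
      ∑ h ∈ Ioo 0 q, (if ((h : ℕ) : ZMod p) = -((q : ℕ) : ZMod p) * y then W h else 0)) :
    H22GW.LamOK p q W (LamG p g) := by
  classical
  refine ⟨natDegree_LamG p hp3 g, ?_⟩
  set ι := ZMod.castHom (dvd_refl p) F with hι
  have hqp : ((q : ℕ) : ZMod p) ≠ 0 := by
    intro h
    rw [ZMod.natCast_eq_zero_iff] at h
    exact absurd (Nat.le_of_dvd hq0 h) (by omega)
  have hqF : (q : F) ≠ 0 := by
    have := castHom_ne (F := F) hqp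
    rwa [map_natCast] at this
  let K := FractionRing (F[X])
  let φ : F[X] →+* K := algebraMap F[X] K
  have hφinj : Function.Injective φ := IsFractionRing.injective F[X] K
  apply hφinj
  set x : K := φ X with hx
  have hlin : ∀ a b : F, a ≠ 0 → φ (C a * X + C b) ≠ 0 := by
    intro a b ha h
    have h1 : C a * X + C b = (0 : F[X]) := hφinj (by rw [h, map_zero])
    have h2 := congrArg (fun r : F[X] => r.coeff 1) h1
    simp at h2
    exact ha h2
  have hxy : ∀ y : F, x - φ (C y) ≠ 0 := by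
    intro y h
    apply hlin 1 (-y) one_ne_zero
    rw [map_add, map_mul, C_1, map_one, one_mul, C_neg, map_neg, ← sub_eq_add_neg]
    exact h
  have hxy1 : ∀ y : F, x + 1 - φ (C y) ≠ 0 := by
    intro y h
    apply hxy (y - 1)
    rw [C_sub, C_1, map_sub, map_one]
    rw [← h]
    ring
  set A : K := φ (X ^ (p - 1) - 1) with hA
  set B : K := φ ((X + 1) ^ (p - 1) - 1) with hB
  -- values of `Py`
  have hPy : ∀ y : ZMod p, y ≠ 0 → φ (Py p (ι y)) = A / (x - φ (C (ι y))) := by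
    intro y hy
    rw [eq_div_iff (hxy _), hA, ← Py_mul p (castHom_ne hy) (castHom_pow hy), map_mul, map_sub]
    ring
  have hPy1 : ∀ y : ZMod p, y ≠ 0 → φ ((Py p (ι y)).comp (X + 1)) = B / (x + 1 - φ (C (ι y))) := by
    intro y hy
    rw [eq_div_iff (hxy1 _), hB]
    have h1 := congrArg (fun r : F[X] => r.comp (X + 1)) (Py_mul p (castHom_ne (F := F) hy)
      (castHom_pow hy))
    simp only [mul_comp, sub_comp, X_comp, C_comp, pow_comp, one_comp] at h1
    rw [← h1, map_mul, map_sub, map_add, map_one]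
    ring
  have hL : φ (LamG p g) = A * ∑ y : ZMod p, φ (C (g y)) / (x - φ (C (ι y))) := by
    unfold LamG
    rw [map_sum, mul_sum, ← add_sum_erase univ (fun y => A * (φ (C (g y)) / (x - φ (C (ι y)))))
      (mem_univ (0 : ZMod p)), hg0, C_0, map_zero, zero_div, mul_zero, zero_add]
    refine sum_congr rfl fun y hy => ?_
    rw [map_mul, hPy y (ne_of_mem_erase hy)]
    ring
  have hL1 : φ ((LamG p g).comp (X + 1)) = B * ∑ y : ZMod p, φ (C (g y)) / (x + 1 - φ (C (ι y))) := by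
    unfold LamG
    have hsc : (∑ y ∈ univ.erase (0 : ZMod p), C (g y) * Py p (ZMod.castHom (dvd_refl p) F y)).comp (X + 1) = ∑ y ∈ univ.erase (0 : ZMod p), (C (g y) * Py p (ZMod.castHom (dvd_refl p) F y)).comp (X + 1) := by
      simp only [Polynomial.comp]
      rw [eval₂_finsetSum]
    rw [hsc, map_sum, mul_sum, ← add_sum_erase univ
      (fun y => B * (φ (C (g y)) / (x + 1 - φ (C (ι y))))) (mem_univ (0 : ZMod p)), hg0, C_0,
      map_zero, zero_div, mul_zero, zero_add]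
    refine sum_congr rfl fun y hy => ?_
    rw [mul_comp, C_comp, map_mul, hPy1 y (ne_of_mem_erase hy)]
    ring
  have hshift : ∑ y : ZMod p, φ (C (g y)) / (x + 1 - φ (C (ι y))) =
      ∑ y : ZMod p, φ (C (g (y + 1))) / (x - φ (C (ι y))) := by
    symm
    refine Fintype.sum_equiv (Equiv.addRight (1 : ZMod p)) _ _ fun y => ?_
    rw [Equiv.coe_addRight, map_add ι, map_one, C_add, C_1, map_add φ, map_one]
    congr 1
    ring
  have hdiff : ∑ y : ZMod p, φ (C (g (y + 1))) / (x - φ (C (ι y))) -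
      ∑ y : ZMod p, φ (C (g y)) / (x - φ (C (ι y))) =
      ∑ h ∈ Ioo 0 q, φ (C (W h)) / (φ (C (q : F) * X + C (h : F))) := by
    rw [← sum_sub_distrib]
    have h1 : ∀ y : ZMod p, φ (C (g (y + 1))) / (x - φ (C (ι y))) -
        φ (C (g y)) / (x - φ (C (ι y))) =
        ∑ h ∈ Ioo 0 q, (if ((h : ℕ) : ZMod p) = -((q : ℕ) : ZMod p) * y then
          φ (C (W h)) / (φ (C (q : F) * X + C (h : F))) else 0) := by
      intro y
      rw [← sub_div, ← map_sub, ← C_sub]
      have h2 : φ (C (g (y + 1) - g y)) = (φ (C (q : F)))⁻¹ * ∑ h ∈ Ioo 0 q,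
          (if ((h : ℕ) : ZMod p) = -((q : ℕ) : ZMod p) * y then φ (C (W h)) else 0) := by
        have hqK : φ (C (q : F)) ≠ 0 := by
          intro h
          have h3 : (C (q : F) : F[X]) = 0 := hφinj (by rw [h, map_zero])
          exact hqF (C_eq_zero.1 h3)
        rw [eq_inv_mul_iff_mul_eq₀ hqK, ← map_mul, ← C_mul, hg y, map_sum C, map_sum φ]
        refine sum_congr rfl fun h _ => ?_
        split_ifs <;> simp
      rw [h2, mul_sum, sum_div]
      refine sum_congr rfl fun h _ => ?_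
      by_cases h3 : ((h : ℕ) : ZMod p) = -((q : ℕ) : ZMod p) * y
      · rw [if_pos h3, if_pos h3]
        have h4 : (h : F) = -(q : F) * ι y := by
          have h5 := congrArg ι h3
          rw [map_mul, map_neg, map_natCast, map_natCast] at h5
          exact h5
        have h5 : φ (C (q : F) * X + C (h : F)) = φ (C (q : F)) * (x - φ (C (ι y))) := by
          rw [h4, map_add, map_mul, C_mul, C_neg, map_mul, map_neg]
          ring
        rw [h5]
        have hqK : φ (C (q : F)) ≠ 0 := by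
          intro h
          have h3 : (C (q : F) : F[X]) = 0 := hφinj (by rw [h, map_zero])
          exact hqF (C_eq_zero.1 h3)
        exact aux1 _ _ _
      · rw [if_neg h3, if_neg h3]
        simp
    rw [sum_congr rfl fun y _ => h1 y, sum_comm]
    refine sum_congr rfl fun h _ => ?_
    rw [sum_eq_single (-((q : ZMod p))⁻¹ * (h : ZMod p))]
    · rw [if_pos]
      field_simp
    · intro y _ hy
      rw [if_neg]
      intro h3
      apply hy
      rw [h3]
      field_simp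
    · intro h3
      exact absurd (mem_univ _) h3
  have hnq : φ (H22GW.nq q W) = φ (H22GW.dq F q) *
      ∑ h ∈ Ioo 0 q, φ (C (W h)) / (φ (C (q : F) * X + C (h : F))) := by
    unfold H22GW.nq H22GW.dq
    rw [map_sum, mul_sum]
    refine sum_congr rfl fun h hh => ?_
    rw [← mul_prod_erase _ _ hh, map_mul, map_mul]
    exact aux2 _ _ (hlin (q : F) (h : F) hqF)
  rw [map_mul, map_mul, map_mul, map_sub, map_mul, map_mul, ← hA, ← hB, hnq, hL, hL1, hshift,
    ← hdiff]
  ring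

lemma coeff_LamG (p : ℕ) [hp : Fact p.Prime] [CharP F p] (g : ZMod p → F) (j : ℕ)
    (hj : j < p - 1) : (LamG p g).coeff j =
      ∑ y ∈ univ.erase (0 : ZMod p), g y * ((ZMod.castHom (dvd_refl p) F y)⁻¹) ^ (j + 1) := by
  unfold LamG
  rw [finsetSum_coeff]
  refine sum_congr rfl fun y _ => ?_
  rw [coeff_C_mul, Py_coeff p _ j hj]

lemma sum_inv_pow (p : ℕ) [hp : Fact p.Prime] [CharP F p] (j : ℕ) (hj0 : 0 < j)
    (hj : j < p - 1) :
    ∑ y ∈ univ.erase (0 : ZMod p), ((ZMod.castHom (dvd_refl p) F y)⁻¹) ^ j = 0 := by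
  have h1 : ∑ y ∈ univ.erase (0 : ZMod p), ((ZMod.castHom (dvd_refl p) F y)⁻¹) ^ j =
      ∑ y : ZMod p, ((ZMod.castHom (dvd_refl p) F y)⁻¹) ^ j := by
    rw [← add_sum_erase univ _ (mem_univ (0 : ZMod p)), map_zero, inv_zero, zero_pow hj0.ne',
      zero_add]
  have h2 : ∑ y : ZMod p, ((ZMod.castHom (dvd_refl p) F y)⁻¹) ^ j =
      ZMod.castHom (dvd_refl p) F (∑ y : ZMod p, y ^ j) := by
    rw [map_sum]
    refine Fintype.sum_equiv (Equiv.inv (ZMod p)) _ _ fun y => ?_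
    rw [Equiv.inv_apply, map_pow, map_inv₀]
  rw [h1, h2, FiniteField.sum_pow_lt_card_sub_one (ZMod p) j (by rw [ZMod.card]; exact hj),
    map_zero]

lemma sum_units {M : Type*} [AddCommMonoid M] (m : ℕ) [NeZero m] (A : ℕ → M) :
    ∑ t : (ZMod m)ˣ, A t.val.val = ∑ t ∈ (range m).filter (fun t => Nat.Coprime t m), A t := by
  refine Finset.sum_bij (fun t _ => t.val.val) ?_ ?_ ?_ ?_
  · intro t _
    exact mem_filter.2 ⟨mem_range.2 (ZMod.val_lt _), ZMod.val_coe_unit_coprime t⟩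
  · intro t _ s _ h
    exact Units.ext (ZMod.val_injective m h)
  · intro t ht
    rw [mem_filter, mem_range] at ht
    refine ⟨ZMod.unitOfCoprime t ht.2, mem_univ _, ?_⟩
    rw [ZMod.coe_unitOfCoprime, ZMod.val_natCast, Nat.mod_eq_of_lt ht.1]
  · intro t _
    rfl

lemma psi_unitsMap {f p : ℕ} [NeZero (f * p)] (ψ : (ZMod f)ˣ →* Fˣ) (t : (ZMod (f * p))ˣ) :
    (ψ (ZMod.unitsMap (dvd_mul_right f p) t) : F) =
      MulChar.ofUnitHom ψ ((t.val.val : ℕ) : ZMod f) := by
  have h1 : ((t.val.val : ℕ) : ZMod f) = (ZMod.unitsMap (dvd_mul_right f p) t : ZMod f) := by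
    rw [ZMod.unitsMap_def, Units.coe_map]
    have h2 : (ZMod.castHom (dvd_mul_right f p) (ZMod f)) (t : ZMod (f * p)) =
        ((t.val.val : ℕ) : ZMod f) := by
      conv_lhs => rw [← ZMod.natCast_zmod_val (t : ZMod (f * p))]
      rw [map_natCast]
    exact h2.symm
  rw [h1, MulChar.ofUnitHom_coe]

/-- the moments of `G` -/
theorem sum_GG (f p c j : ℕ) [hp : Fact p.Prime] [CharP F p] [NeZero (f * p)]
    (hfp : Nat.Coprime f p) (ψ : (ZMod f)ˣ →* Fˣ) :
    ∑ y ∈ univ.erase (0 : ZMod p), GG f p c (MulChar.ofUnitHom ψ) y *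
      ((ZMod.castHom (dvd_refl p) F y)⁻¹) ^ j = (f : F) ^ j * beta F f p c j ψ := by
  classical
  set X := MulChar.ofUnitHom ψ with hX
  set m := f * p with hm
  set ι := ZMod.castHom (dvd_refl p) F with hι
  have hfp0 : ((f : ℕ) : ZMod p) ≠ 0 := by
    intro h
    rw [ZMod.natCast_eq_zero_iff] at h
    have h1 := Nat.Coprime.eq_one_of_dvd hfp.symm h
    exact hp.out.one_lt.ne' h1
  have hfF : (f : F) ≠ 0 := by
    have := castHom_ne (F := F) hfp0
    rwa [map_natCast] at this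
  have h1 : ∑ y ∈ univ.erase (0 : ZMod p), GG f p c X y * ((ι y)⁻¹) ^ j =
      ∑ t ∈ range m, (if Nat.Coprime t m then ((c * t / m : ℕ) : F) * X ((t : ℕ) : ZMod f) *
        ((f : F) * ((t : F))⁻¹) ^ j else 0) := by
    unfold GG
    rw [← hm]
    simp only [sum_mul]
    rw [sum_comm]
    refine sum_congr rfl fun t _ => ?_
    by_cases hpt : p ∣ t
    · rw [if_neg]
      · refine sum_eq_zero fun y hy => ?_
        rw [if_neg, zero_mul]
        intro h2
        have h3 : ((t : ℕ) : ZMod p) = 0 := (ZMod.natCast_eq_zero_iff _ _).2 hpt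
        rw [h3] at h2
        exact (mul_ne_zero hfp0 (ne_of_mem_erase hy)) h2.symm
      · intro h2
        have h3 : p ∣ Nat.gcd t m := Nat.dvd_gcd hpt (dvd_mul_left p f)
        rw [h2] at h3
        exact hp.out.one_lt.ne' (Nat.dvd_one.1 h3)
    · have ht0 : ((t : ℕ) : ZMod p) ≠ 0 := fun h => hpt ((ZMod.natCast_eq_zero_iff _ _).1 h)
      by_cases hft : Nat.Coprime t f
      · have hcop : Nat.Coprime t m := by
          rw [hm]
          exact Nat.Coprime.mul_right hft ((Nat.Prime.coprime_iff_not_dvd hp.out).2 hpt).symm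
        rw [if_pos hcop, sum_eq_single ((f : ZMod p)⁻¹ * t)]
        · rw [if_pos (by field_simp)]
          congr 2
          rw [map_mul, map_inv₀, map_natCast, map_natCast, mul_inv, inv_inv]
        · intro y _ hy
          rw [if_neg, zero_mul]
          intro h2
          apply hy
          rw [h2]
          field_simp
        · intro h2
          exact absurd (mem_erase.2 ⟨mul_ne_zero (inv_ne_zero hfp0) ht0, mem_univ _⟩) h2
      · have hcop : ¬ Nat.Coprime t m := by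
          intro h2
          exact hft (Nat.Coprime.coprime_dvd_right (dvd_mul_right f p) h2)
        rw [if_neg hcop]
        have hXt : X ((t : ℕ) : ZMod f) = 0 := by
          apply MulChar.map_nonunit
          rw [ZMod.isUnit_iff_coprime]
          exact hft
        refine sum_eq_zero fun y _ => ?_
        rw [hXt, mul_zero, ite_self, zero_mul]
  rw [h1, ← sum_filter, beta, mul_sum]
  have h2 : ∀ t : (ZMod (f * p))ˣ, (f : F) ^ j * (((c * t.val.val / (f * p) : ℕ) : F) *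
      ((t.val.val : F)⁻¹) ^ j * (ψ (ZMod.unitsMap (dvd_mul_right f p) t) : F)) =
      (fun s : ℕ => ((c * s / m : ℕ) : F) * X ((s : ℕ) : ZMod f) *
        ((f : F) * ((s : F))⁻¹) ^ j) t.val.val := by
    intro t
    rw [psi_unitsMap ψ t, ← hX]
    simp only [← hm, mul_pow]
    ring
  rw [sum_congr rfl fun t _ => h2 t]
  exact (sum_units m _).symm

lemma map_ofUnitHom {R : Type*} [CommRing R] {f : ℕ} (φ : R →+* F) (ψ₀ : (ZMod f)ˣ →* Rˣ)
    (a : ZMod f) : φ (MulChar.ofUnitHom ψ₀ a) =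
      MulChar.ofUnitHom ((Units.map (φ : R →* F)).comp ψ₀) a := by
  classical
  by_cases ha : IsUnit a
  · obtain ⟨u, rfl⟩ := ha
    rw [MulChar.ofUnitHom_coe, MulChar.ofUnitHom_coe]
    rfl
  · rw [MulChar.map_nonunit _ ha, MulChar.map_nonunit _ ha, map_zero]

/-- **The bridge**: if the moments `β_(j+1)(ψ)` of the relevant parity vanish in the window
`w ≤ j < V`, then `p` is bad for the window in the sense of the gap theorem with weights
`ψ(h) (1 - c [c ∣ h])` of period `c f`. -/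
theorem badW_of_beta (E : Type*) [Field E] [NumberField E] (f c p : ℕ) [hp : Fact p.Prime]
    [NeZero (f * p)] (hc : c.Prime) (hcf : ¬ c ∣ f) (hf : 2 ≤ f) (hcp : c * f < p)
    (ψ₀ : (ZMod f)ˣ →* (𝓞 E)ˣ) (k : Type) [Field k] [CharP k p] (φ : 𝓞 E →+* k) (w V : ℕ)
    (hV : V + 1 < p)
    (h : ∀ j, w ≤ j → j < V → ((ψ₀ (-1) : (𝓞 E)ˣ) : 𝓞 E) = (-1) ^ j →
      beta k f p c (j + 1) ((Units.map (φ : 𝓞 E →* k)).comp ψ₀) = 0) :
    H22GW.BadW E (c * f) (wt f c (MulChar.ofUnitHom ψ₀)) w V p := by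
  classical
  set ψ := (Units.map (φ : 𝓞 E →* k)).comp ψ₀ with hψ
  set X := MulChar.ofUnitHom ψ with hX
  have hf0 : 0 < f := by omega
  have hc2 := hc.two_le
  have hfcf : f ≤ c * f := Nat.le_mul_of_pos_left f hc.pos
  have hccf : c ≤ c * f := Nat.le_mul_of_pos_right c hf0
  have hp3 : 3 ≤ p := by omega
  have hfp : Nat.Coprime f p := by
    refine (Nat.coprime_comm.1 ((Nat.Prime.coprime_iff_not_dvd hp.out).2 ?_))
    intro h2
    exact absurd (Nat.le_of_dvd hf0 h2) (by omega)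
  have hcop : Nat.Coprime c (f * p) := by
    refine Nat.Coprime.mul_right ((Nat.Prime.coprime_iff_not_dvd hc).2 hcf) ?_
    exact (Nat.coprime_primes hc hp.out).2 (by omega)
  have hq0 : 0 < c * f := Nat.mul_pos hc.pos hf0
  have hqk : ((c * f : ℕ) : k) ≠ 0 := by
    intro h2
    rw [CharP.cast_eq_zero_iff k p] at h2
    exact absurd (Nat.le_of_dvd hq0 h2) (by omega)
  have h2k : (2 : k) ≠ 0 := by
    intro h2
    have h3 : ((2 : ℕ) : k) = 0 := by exact_mod_cast h2
    rw [CharP.cast_eq_zero_iff k p] at h3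
    exact absurd (Nat.le_of_dvd (by norm_num) h3) (by omega)
  -- all moments vanish
  have hall : ∀ j, w ≤ j → j < V → beta k f p c (j + 1) ψ = 0 := by
    intro j hj1 hj2
    by_cases hpar : ((ψ₀ (-1) : (𝓞 E)ˣ) : 𝓞 E) = (-1) ^ j
    · exact h j hj1 hj2 hpar
    · apply beta_parity (k := k) c (j + 1) hcop hfp
      · intro h3
        exact absurd (Nat.le_of_dvd (by omega) h3) (by omega)
      · exact h2k
      · have h3 : ((ψ₀ (-1) : (𝓞 E)ˣ) : 𝓞 E) ^ 2 = 1 := by
          rw [← Units.val_pow_eq_pow_val, ← map_pow]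
          simp
        have h4 : ((ψ₀ (-1) : (𝓞 E)ˣ) : 𝓞 E) = (-1) ^ (j + 1) := by
          rcases sq_eq_one_iff.1 h3 with h5 | h5
          · rcases neg_one_pow_eq_or (𝓞 E) j with h6 | h6
            · exact absurd (h5.trans h6.symm) hpar
            · rw [h5, pow_succ, h6]
              ring
          · rcases neg_one_pow_eq_or (𝓞 E) j with h6 | h6
            · rw [h5, pow_succ, h6]
              ring
            · exact absurd (h5.trans h6.symm) hpar
        have h5 : (ψ (-1) : k) = φ ((ψ₀ (-1) : (𝓞 E)ˣ) : 𝓞 E) := rfl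
        rw [h5, h4, map_pow, map_neg, map_one]
  set κ : k := X (-1) * X ((c : ℕ) : ZMod f) with hκ
  set g : ZMod p → k := fun y => ((c * f : ℕ) : k)⁻¹ * (κ * (GG f p c X y - GG f p c X 0)) with hg
  refine ⟨k, inferInstance, inferInstance, φ, LamG p g, ?_, ?_⟩
  · have hwt : (fun h => φ (wt f c (MulChar.ofUnitHom ψ₀) h)) = wt f c X := by
      funext h
      unfold wt
      rw [map_mul, map_ofUnitHom, map_sub, map_one]
      congr 2
      split_ifs
      · rw [map_natCast]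
      · rw [map_zero]
    rw [hwt]
    apply lamOK_of_jump p (c * f) hp3 hcp hq0
    · simp [hg]
    · intro y
      have h3 := GG_step f p c hc hcf hcp hf X y
      rw [← h3, hg]
      field_simp
      ring
  · intro j hj1 hj2
    rw [coeff_LamG p g j (by omega)]
    have h3 := sum_GG (F := k) f p c (j + 1) hfp ψ
    rw [hall j hj1 hj2, mul_zero, ← hX] at h3
    have h4 := sum_inv_pow (F := k) p (j + 1) (by omega) (by omega)
    have h5 : ∀ y ∈ univ.erase (0 : ZMod p), g y * ((ZMod.castHom (dvd_refl p) k y)⁻¹) ^ (j + 1) =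
        ((c * f : ℕ) : k)⁻¹ * κ * (GG f p c X y * ((ZMod.castHom (dvd_refl p) k y)⁻¹) ^ (j + 1)) -
        ((c * f : ℕ) : k)⁻¹ * κ * GG f p c X 0 * ((ZMod.castHom (dvd_refl p) k y)⁻¹) ^ (j + 1) := by
      intro y _
      rw [hg]
      ring
    rw [sum_congr rfl h5, sum_sub_distrib, ← mul_sum, ← mul_sum, h3, h4]
    ring

/-- some weight is nonzero -/
lemma exists_wt_ne (E : Type*) [Field E] [NumberField E] (f c : ℕ) (hc : c.Prime) (hf : 2 ≤ f)
    (ψ₀ : (ZMod f)ˣ →* (𝓞 E)ˣ) :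
    ∃ h, 0 < h ∧ h < c * f ∧ wt f c (MulChar.ofUnitHom ψ₀) h ≠ 0 := by
  refine ⟨1, one_pos, ?_, ?_⟩
  · have := hc.two_le
    nlinarith
  · unfold wt
    rw [if_neg (fun h => hc.one_lt.ne' (Nat.dvd_one.1 h)), Nat.cast_one, map_one]
    simp

end H99AB

end
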