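import Pool.Agent.H71.TFC.M02

/-! The parts of this file: H91.EHA.SwB, H91.EHA.SwC. -/

section

/-!
# Upper bounds, principal characters

`L1_le`: `A(u) = #{n ≤ u : (n,q)=1} = (φ(q)/q) u + O(q)`.  With `M = q(|t|+2)`:
terms `n ≤ M` give at most `1 + log M`; terms `n > M` by partial summation:
`s ∫_M^∞ A(u) u^{-s-1} du - A(M) M^{-s}`, main term `(φ(q)/q)(M^{1-s}/(s-1))·(...)`, at most
`1/‖s-1‖ + C`.  (Any proof is fine; the constant `C` is free.)
`zeta_k_le`: the same for `q = 1` with `(log n)^k`: compare the sum over `n > M`, `M = |t| + 2`, with the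
integral `∫_M^∞ (log u)^k u^{-s} du`, which is `O((log M)^k)` since `‖s - 1‖ ≥ 1`
(integrate by parts `k+1` times or use the primitive).
Note that `Lk 1 1 k s` is the series of `(log n)^k` (all values of the character mod 1 are 1).
-/

set_option autoImplicit false

namespace Pool.Agent.H91.EHA

open Finset

/-- the summand as a function of a real variable -/
noncomputable def swB_g (s : ℂ) (k : ℕ) (u : ℝ) : ℂ :=
  ((Real.log u : ℝ) : ℂ) ^ k * (u : ℂ) ^ (-s)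

/-- a primitive of `swB_g s k` -/
noncomputable def swB_G (s : ℂ) : ℕ → ℝ → ℂ
  | 0, u => (u : ℂ) ^ (1 - s) / (1 - s)
  | (k + 1), u => (((Real.log u : ℝ) : ℂ) ^ (k + 1) * (u : ℂ) ^ (1 - s)
      - ((k : ℂ) + 1) * swB_G s k u) / (1 - s)

/-- derivative of `swB_g s k` -/
noncomputable def swB_g' (s : ℂ) (k : ℕ) (u : ℝ) : ℂ :=
  ((k : ℂ) * ((Real.log u : ℝ) : ℂ) ^ (k - 1) * ((u⁻¹ : ℝ) : ℂ)) * (u : ℂ) ^ (-s)
    + ((Real.log u : ℝ) : ℂ) ^ k * ((-s) * (u : ℂ) ^ (-s - 1))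

theorem swB_log_deriv {u : ℝ} (hu : 0 < u) :
    HasDerivAt (fun y : ℝ => ((Real.log y : ℝ) : ℂ)) ((u⁻¹ : ℝ) : ℂ) u :=
  (Real.hasDerivAt_log hu.ne').ofReal_comp

theorem swB_ne_one {s : ℂ} (hs : 1 < s.re) : (1 : ℂ) - s ≠ 0 := by
  intro h
  have h1 : (1 - s).re = 0 := by rw [h]; simp
  simp only [Complex.sub_re, Complex.one_re] at h1
  linarith

theorem swB_ne_zero {s : ℂ} (hs : 1 < s.re) : s ≠ 0 := by
  rintro rfl
  simp only [Complex.zero_re] at hs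
  linarith

theorem swB_g_deriv {s : ℂ} (hs : 1 < s.re) (k : ℕ) {u : ℝ} (hu : 0 < u) :
    HasDerivAt (swB_g s k) (swB_g' s k u) u := by
  have h1 := (swB_log_deriv hu).pow k
  have h2 : HasDerivAt (fun y : ℝ => (y : ℂ) ^ (-s)) ((-s) * (u : ℂ) ^ (-s - 1)) u :=
    hasDerivAt_ofReal_cpow_const hu.ne' (neg_ne_zero.mpr (swB_ne_zero hs))
  exact h1.mul h2

theorem swB_pow_deriv {s : ℂ} (hs : 1 < s.re) {u : ℝ} (hu : 0 < u) :
    HasDerivAt (fun y : ℝ => (y : ℂ) ^ (1 - s)) ((1 - s) * (u : ℂ) ^ (-s)) u := by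
  have h := hasDerivAt_ofReal_cpow_const (x := u) hu.ne' (swB_ne_one hs)
  have e : (1 : ℂ) - s - 1 = -s := by ring
  rw [e] at h
  exact h

theorem swB_G_deriv {s : ℂ} (hs : 1 < s.re) (k : ℕ) {u : ℝ} (hu : 0 < u) :
    HasDerivAt (swB_G s k) (swB_g s k u) u := by
  have hne := swB_ne_one hs
  induction k with
  | zero =>
    have h := (swB_pow_deriv hs hu).div_const (1 - s)
    have e : (1 - s) * (u : ℂ) ^ (-s) / (1 - s) = swB_g s 0 u := by
      unfold swB_g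
      rw [pow_zero, one_mul]
      field_simp
    rw [e] at h
    exact h
  | succ k ih =>
    have h1 := (swB_log_deriv hu).pow (k + 1)
    have h2 := (h1.mul (swB_pow_deriv hs hu)).sub (ih.const_mul ((k : ℂ) + 1))
    have h3 := h2.div_const (1 - s)
    have hu' : (u : ℂ) ≠ 0 := by exact_mod_cast hu.ne'
    have e1 : (u : ℂ) ^ (1 - s) = (u : ℂ) * (u : ℂ) ^ (-s) := by
      rw [show (1 : ℂ) - s = 1 + (-s) by ring, Complex.cpow_add _ _ hu', Complex.cpow_one]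
    have e2 : ((u⁻¹ : ℝ) : ℂ) * (u : ℂ) = 1 := by
      rw [Complex.ofReal_inv]
      exact inv_mul_cancel₀ hu'
    have e : ((((k + 1 : ℕ) : ℂ) * ((Real.log u : ℝ) : ℂ) ^ (k + 1 - 1) * ((u⁻¹ : ℝ) : ℂ))
        * (u : ℂ) ^ (1 - s) + ((Real.log u : ℝ) : ℂ) ^ (k + 1) * ((1 - s) * (u : ℂ) ^ (-s))
        - ((k : ℂ) + 1) * swB_g s k u) / (1 - s) = swB_g s (k + 1) u := by
      unfold swB_g
      rw [e1, Nat.add_sub_cancel]
      push_cast
      rw [div_eq_iff hne]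
      have e2' : ((u : ℂ))⁻¹ * (u : ℂ) = 1 := inv_mul_cancel₀ hu'
      linear_combination (((k : ℂ) + 1) * ((Real.log u : ℝ) : ℂ) ^ k * (u : ℂ) ^ (-s)) * e2'
    rw [← e]
    exact h3

theorem swB_one_le_log {u : ℝ} (hu : 3 ≤ u) : 1 ≤ Real.log u := by
  rw [Real.le_log_iff_exp_le (by linarith)]
  have := Real.exp_one_lt_d9
  linarith

theorem swB_norm_g' {s : ℂ} (hs : 1 < s.re) (k : ℕ) {u : ℝ} (hu : 3 ≤ u) :
    ‖swB_g' s k u‖ ≤ (k + ‖s‖) * Real.log u ^ k / u ^ 2 := by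
  have hu0 : 0 < u := by linarith
  have hl : 1 ≤ Real.log u := swB_one_le_log hu
  have hl0 : 0 ≤ Real.log u := by linarith
  have h1 : ‖(u : ℂ) ^ (-s)‖ ≤ u⁻¹ := by
    rw [Complex.norm_cpow_eq_rpow_re_of_pos hu0, ← Real.rpow_neg_one]
    apply Real.rpow_le_rpow_of_exponent_le (by linarith)
    rw [Complex.neg_re]
    linarith
  have h2 : ‖(u : ℂ) ^ (-s - 1)‖ ≤ (u ^ 2)⁻¹ := by
    rw [Complex.norm_cpow_eq_rpow_re_of_pos hu0]
    have e : (u ^ 2)⁻¹ = u ^ (-2 : ℝ) := by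
      rw [Real.rpow_neg hu0.le]
      norm_num
    rw [e]
    apply Real.rpow_le_rpow_of_exponent_le (by linarith)
    rw [Complex.sub_re, Complex.neg_re, Complex.one_re]
    linarith
  have h3 : ‖((Real.log u : ℝ) : ℂ)‖ = Real.log u := by
    rw [Complex.norm_real, Real.norm_of_nonneg hl0]
  have h4 : ‖((u⁻¹ : ℝ) : ℂ)‖ = u⁻¹ := by
    rw [Complex.norm_real, Real.norm_of_nonneg (inv_nonneg.mpr hu0.le)]
  have h5 : Real.log u ^ (k - 1) ≤ Real.log u ^ k := pow_le_pow_right₀ hl (Nat.sub_le k 1)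
  unfold swB_g'
  refine (norm_add_le _ _).trans ?_
  rw [norm_mul, norm_mul, norm_mul, norm_mul, norm_mul, norm_pow, norm_pow, h3, h4, norm_neg,
    Complex.norm_natCast]
  have hu2 : u⁻¹ * u⁻¹ = (u ^ 2)⁻¹ := by
    rw [sq, mul_inv]
  have hp : 0 ≤ Real.log u ^ k := pow_nonneg hl0 k
  have hui : 0 ≤ u⁻¹ := inv_nonneg.mpr hu0.le
  have t1 : (k : ℝ) * Real.log u ^ (k - 1) * u⁻¹ * ‖(u : ℂ) ^ (-s)‖
      ≤ (k : ℝ) * Real.log u ^ k * u⁻¹ * u⁻¹ := by
    have hk : (0 : ℝ) ≤ k := Nat.cast_nonneg k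
    gcongr
  have t2 : Real.log u ^ k * (‖s‖ * ‖(u : ℂ) ^ (-s - 1)‖) ≤ Real.log u ^ k * (‖s‖ * (u ^ 2)⁻¹) := by
    gcongr
  calc (k : ℝ) * Real.log u ^ (k - 1) * u⁻¹ * ‖(u : ℂ) ^ (-s)‖
        + Real.log u ^ k * (‖s‖ * ‖(u : ℂ) ^ (-s - 1)‖)
      ≤ (k : ℝ) * Real.log u ^ k * u⁻¹ * u⁻¹ + Real.log u ^ k * (‖s‖ * (u ^ 2)⁻¹) :=
        add_le_add t1 t2
    _ = (k + ‖s‖) * Real.log u ^ k / u ^ 2 := by
        rw [mul_assoc, hu2]
        ring

/-- the error bound of one step -/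
noncomputable def swB_e (s : ℂ) (k n : ℕ) : ℝ :=
  (k + ‖s‖) * Real.log ((n : ℝ) + 1) ^ k / (n : ℝ) ^ 2

theorem swB_g'_le {s : ℂ} (hs : 1 < s.re) (k n : ℕ) (hn : 3 ≤ n) {u : ℝ}
    (hu : u ∈ Set.Icc (n : ℝ) ((n : ℝ) + 1)) : ‖swB_g' s k u‖ ≤ swB_e s k n := by
  have hn' : (3 : ℝ) ≤ n := by exact_mod_cast hn
  have hu3 : 3 ≤ u := le_trans hn' hu.1
  refine (swB_norm_g' hs k hu3).trans ?_
  unfold swB_e
  have h1 : Real.log u ≤ Real.log ((n : ℝ) + 1) := Real.log_le_log (by linarith) hu.2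
  have h0 : 0 ≤ Real.log u := by linarith [swB_one_le_log hu3]
  have hks : 0 ≤ (k : ℝ) + ‖s‖ := by positivity
  have h2 : (n : ℝ) ^ 2 ≤ u ^ 2 := pow_le_pow_left₀ (by linarith) hu.1 2
  have h3 : Real.log u ^ k ≤ Real.log ((n : ℝ) + 1) ^ k := pow_le_pow_left₀ h0 h1 k
  have hn2 : 0 < (n : ℝ) ^ 2 := by positivity
  apply div_le_div₀ (mul_nonneg hks (pow_nonneg (h0.trans h1) k)) _ hn2 h2
  exact mul_le_mul_of_nonneg_left h3 hks

theorem swB_step_g {s : ℂ} (hs : 1 < s.re) (k n : ℕ) (hn : 3 ≤ n) {u : ℝ}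
    (hu : u ∈ Set.Icc (n : ℝ) ((n : ℝ) + 1)) : ‖swB_g s k u - swB_g s k n‖ ≤ swB_e s k n := by
  have hn' : (3 : ℝ) ≤ n := by exact_mod_cast hn
  have h := Convex.norm_image_sub_le_of_norm_hasDerivWithin_le (f := swB_g s k)
    (f' := swB_g' s k) (s := Set.Icc (n : ℝ) ((n : ℝ) + 1)) (C := swB_e s k n) (x := (n : ℝ))
    (y := u)
    (fun x hx => (swB_g_deriv hs k (by linarith [hx.1])).hasDerivWithinAt)
    (fun x hx => swB_g'_le hs k n hn hx) (convex_Icc _ _) ⟨le_refl _, by linarith⟩ hu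
  refine h.trans ?_
  have he : 0 ≤ swB_e s k n := le_trans (norm_nonneg _) (swB_g'_le hs k n hn hu)
  have h1 : ‖u - (n : ℝ)‖ ≤ 1 := by
    rw [Real.norm_eq_abs, abs_le]
    constructor <;> linarith [hu.1, hu.2]
  calc swB_e s k n * ‖u - (n : ℝ)‖ ≤ swB_e s k n * 1 := mul_le_mul_of_nonneg_left h1 he
    _ = swB_e s k n := mul_one _

theorem swB_step_G {s : ℂ} (hs : 1 < s.re) (k n : ℕ) (hn : 3 ≤ n) :
    ‖(swB_G s k ((n : ℝ) + 1) - swB_G s k n) - swB_g s k n‖ ≤ swB_e s k n := by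
  have hn' : (3 : ℝ) ≤ n := by exact_mod_cast hn
  have h := Convex.norm_image_sub_le_of_norm_hasDerivWithin_le
    (f := fun x : ℝ => swB_G s k x - (x : ℂ) * swB_g s k n)
    (f' := fun x : ℝ => swB_g s k x - swB_g s k n) (s := Set.Icc (n : ℝ) ((n : ℝ) + 1))
    (C := swB_e s k n) (x := (n : ℝ)) (y := (n : ℝ) + 1)
    (fun x hx => by
      have h1 := swB_G_deriv hs k (u := x) (by linarith [hx.1])
      have h2 : HasDerivAt (fun x : ℝ => (x : ℂ) * swB_g s k n) (1 * swB_g s k n) x := by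
        have := (hasDerivAt_id x).ofReal_comp
        exact this.mul_const _
      rw [one_mul] at h2
      exact (h1.sub h2).hasDerivWithinAt)
    (fun x hx => swB_step_g hs k n hn hx) (convex_Icc _ _) ⟨le_refl _, by linarith⟩
    ⟨by linarith, le_refl _⟩
  have e : (swB_G s k ((n : ℝ) + 1) - (((n : ℝ) + 1 : ℝ) : ℂ) * swB_g s k n)
      - (swB_G s k n - ((n : ℝ) : ℂ) * swB_g s k n)
      = (swB_G s k ((n : ℝ) + 1) - swB_G s k n) - swB_g s k n := by
    push_cast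
    ring
  rw [e] at h
  have e2 : ‖((n : ℝ) + 1) - (n : ℝ)‖ = 1 := by
    rw [add_sub_cancel_left]
    exact norm_one
  rw [e2, mul_one] at h
  exact h

theorem swB_sum_pow (N : ℕ) (hN : 1 ≤ N) (K : ℕ) (hK : N ≤ K) :
    ∑ n ∈ Ico N K, 1 / ((n : ℝ) * Real.sqrt n) ≤ 4 / Real.sqrt N - 4 / Real.sqrt K := by
  induction K, hK using Nat.le_induction with
  | base => simp
  | succ K hK ih =>
    rw [Finset.sum_Ico_succ_top hK]
    have hK1 : (1 : ℝ) ≤ K := by exact_mod_cast hN.trans hK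
    set a := Real.sqrt K with ha
    set b := Real.sqrt ((K + 1 : ℕ) : ℝ) with hb
    have ha2 : a * a = K := Real.mul_self_sqrt (by linarith)
    have hb2 : b * b = K + 1 := by
      rw [hb, Real.mul_self_sqrt (by positivity)]
      push_cast
      ring
    have ha1 : 1 ≤ a := by
      rw [ha]
      exact Real.one_le_sqrt.mpr hK1
    have hab : a ≤ b := by
      rw [ha, hb]
      apply Real.sqrt_le_sqrt
      push_cast
      linarith
    have hb0 : 0 < b := by linarith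
    have ha0 : 0 < a := by linarith
    have hb3 : b ≤ 3 / 2 * a := by
      by_contra hcon
      push Not at hcon
      nlinarith only [ha2, hb2, ha1, hcon]
    have key : 1 / ((K : ℝ) * a) ≤ 4 / a - 4 / b := by
      rw [div_sub_div _ _ ha0.ne' hb0.ne', div_le_div_iff₀ (by positivity) (by positivity)]
      have h1 : (b - a) * (b + a) = 1 := by nlinarith only [ha2, hb2]
      -- 1 * (a*b) <= 4 (b - a) K a
      have h2 : b * (b + a) ≤ 4 * K := by nlinarith only [ha2, hb2, ha1, hb3]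
      have h3 : 1 * (a * b) = (a * b) * ((b - a) * (b + a)) := by rw [h1]; ring
      rw [h3]
      have h4 : 0 ≤ b - a := by linarith
      nlinarith only [mul_le_mul_of_nonneg_left h2 (mul_nonneg ha0.le h4)]
    linarith

theorem swB_log_pow (k n : ℕ) (hn : 1 ≤ n) :
    Real.log ((n : ℝ) + 1) ^ k ≤ (2 : ℝ) ^ (k + 1) * (k.factorial : ℝ) * Real.sqrt n := by
  have hn' : (1 : ℝ) ≤ n := by exact_mod_cast hn
  set y := Real.log ((n : ℝ) + 1) with hy
  have hy0 : 0 ≤ y := Real.log_nonneg (by linarith)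
  have h1 := Real.pow_div_factorial_le_exp (x := y / 2) (by linarith) k
  have hk : (0 : ℝ) < k.factorial := by exact_mod_cast Nat.factorial_pos k
  have h2 : Real.exp (y / 2) = Real.sqrt ((n : ℝ) + 1) := by
    rw [hy, Real.exp_half, Real.exp_log (by linarith)]
  have h3 : Real.sqrt ((n : ℝ) + 1) ≤ 2 * Real.sqrt n := by
    rw [Real.sqrt_le_left (by positivity), mul_pow, Real.sq_sqrt (by linarith)]
    linarith
  rw [div_le_iff₀ hk, h2, div_pow, div_le_iff₀ (by positivity)] at h1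
  calc y ^ k ≤ Real.sqrt ((n : ℝ) + 1) * k.factorial * 2 ^ k := h1
    _ ≤ (2 * Real.sqrt n) * k.factorial * 2 ^ k := by gcongr
    _ = (2 : ℝ) ^ (k + 1) * (k.factorial : ℝ) * Real.sqrt n := by ring

/-- the total error -/
theorem swB_sum_e (s : ℂ) (k N K : ℕ) (hN : 1 ≤ N) (hK : N ≤ K) {X : ℝ} (hX : 0 < X)
    (hXN : X ^ 2 ≤ N) (hsX : ‖s‖ ≤ X) (hX1 : 1 ≤ X) :
    ∑ n ∈ Ico N K, swB_e s k n ≤ 4 * ((k : ℝ) + 1) * ((2 : ℝ) ^ (k + 1) * (k.factorial : ℝ)) := by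
  have hNr : (1 : ℝ) ≤ N := by exact_mod_cast hN
  have h1 : ∀ n ∈ Ico N K, swB_e s k n ≤ ((k + ‖s‖) * ((2 : ℝ) ^ (k + 1) * (k.factorial : ℝ)))
      * (1 / ((n : ℝ) * Real.sqrt n)) := by
    intro n hn
    have hn1 : 1 ≤ n := hN.trans (Finset.mem_Ico.mp hn).1
    have hn' : (1 : ℝ) ≤ n := by exact_mod_cast hn1
    unfold swB_e
    have h2 := swB_log_pow k n hn1
    have hks : 0 ≤ (k : ℝ) + ‖s‖ := by positivity
    have hsq : Real.sqrt n * Real.sqrt n = n := Real.mul_self_sqrt (by linarith)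
    have hsq0 : 0 < Real.sqrt n := Real.sqrt_pos.mpr (by linarith)
    rw [mul_one_div, div_le_div_iff₀ (by positivity) (by positivity)]
    calc (k + ‖s‖) * Real.log ((n : ℝ) + 1) ^ k * ((n : ℝ) * Real.sqrt n)
        ≤ (k + ‖s‖) * ((2 : ℝ) ^ (k + 1) * (k.factorial : ℝ) * Real.sqrt n)
            * ((n : ℝ) * Real.sqrt n) := by gcongr
      _ = (k + ‖s‖) * ((2 : ℝ) ^ (k + 1) * (k.factorial : ℝ)) * (n * (Real.sqrt n * Real.sqrt n)) := by
          ring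
      _ = (k + ‖s‖) * ((2 : ℝ) ^ (k + 1) * (k.factorial : ℝ)) * (n : ℝ) ^ 2 := by
          rw [hsq]
          ring
  refine (Finset.sum_le_sum h1).trans ?_
  rw [← Finset.mul_sum]
  have h3 := swB_sum_pow N hN K hK
  have hsN : X ≤ Real.sqrt N := Real.le_sqrt_of_sq_le hXN
  have h4 : ∑ n ∈ Ico N K, 1 / ((n : ℝ) * Real.sqrt n) ≤ 4 / X := by
    have h5 : (0 : ℝ) ≤ 4 / Real.sqrt K := by positivity
    have h6 : 4 / Real.sqrt N ≤ 4 / X := by gcongr
    linarith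
  have hc : 0 ≤ (k + ‖s‖) * ((2 : ℝ) ^ (k + 1) * (k.factorial : ℝ)) := by positivity
  refine (mul_le_mul_of_nonneg_left h4 hc).trans ?_
  have h7 : (k + ‖s‖) * (4 / X) ≤ 4 * ((k : ℝ) + 1) := by
    rw [mul_div_assoc', div_le_iff₀ hX]
    have hk : (0 : ℝ) ≤ k := Nat.cast_nonneg k
    nlinarith only [hsX, hX1]
  have hc2 : 0 ≤ (2 : ℝ) ^ (k + 1) * (k.factorial : ℝ) := by positivity
  calc (k + ‖s‖) * ((2 : ℝ) ^ (k + 1) * (k.factorial : ℝ)) * (4 / X)
      = ((k + ‖s‖) * (4 / X)) * ((2 : ℝ) ^ (k + 1) * (k.factorial : ℝ)) := by ring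
    _ ≤ (4 * ((k : ℝ) + 1)) * ((2 : ℝ) ^ (k + 1) * (k.factorial : ℝ)) :=
        mul_le_mul_of_nonneg_right h7 hc2
    _ = 4 * ((k : ℝ) + 1) * ((2 : ℝ) ^ (k + 1) * (k.factorial : ℝ)) := by ring

theorem swB_tail {s : ℂ} (hs : 1 < s.re) (k N K : ℕ) (hN : 3 ≤ N) (hK : N ≤ K) {X : ℝ}
    (hX : 0 < X) (hXN : X ^ 2 ≤ N) (hsX : ‖s‖ ≤ X) (hX1 : 1 ≤ X) :
    ‖∑ n ∈ Ico N K, swB_g s k n‖ ≤ ‖swB_G s k K‖ + ‖swB_G s k N‖
      + 4 * ((k : ℝ) + 1) * ((2 : ℝ) ^ (k + 1) * (k.factorial : ℝ)) := by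
  have h1 : ∑ n ∈ Ico N K, swB_g s k n
      = (swB_G s k K - swB_G s k N)
        - ∑ n ∈ Ico N K, ((swB_G s k ((n : ℝ) + 1) - swB_G s k n) - swB_g s k n) := by
    rw [Finset.sum_sub_distrib]
    have h2 : ∑ n ∈ Ico N K, (swB_G s k ((n : ℝ) + 1) - swB_G s k n)
        = swB_G s k K - swB_G s k N := by
      induction K, hK using Nat.le_induction with
      | base => simp
      | succ K hK ih =>
        rw [Finset.sum_Ico_succ_top hK, ih]
        push_cast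
        ring
    rw [h2]
    ring
  rw [h1]
  refine (norm_sub_le _ _).trans ?_
  refine add_le_add (norm_sub_le _ _) ?_
  refine (norm_sum_le _ _).trans ?_
  refine le_trans (Finset.sum_le_sum fun n hn => ?_)
    (swB_sum_e s k N K (by omega) hK hX hXN hsX hX1)
  exact swB_step_G hs k n (hN.trans (Finset.mem_Ico.mp hn).1)

/-- Abel summation against a function with bounded partial sums -/
theorem swB_abel {s : ℂ} (hs : 1 < s.re) (N K : ℕ) (hN : 3 ≤ N) (hK : N ≤ K) {X q : ℝ}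
    (hq : 0 < q) (hX : 0 < X) (hXN : X ^ 2 ≤ N) (hsX : q * ‖s‖ ≤ X) (hqX : q ≤ X) (_ : 1 ≤ X)
    (b : ℕ → ℂ) (hb : ∀ m, ‖∑ n ∈ range m, b n‖ ≤ q) :
    ‖∑ n ∈ Ico N K, b n * swB_g s 0 n‖ ≤ 10 := by
  set B : ℕ → ℂ := fun m => ∑ n ∈ range m, b n with hB
  have h1 : ∑ n ∈ Ico N K, b n * swB_g s 0 n
      = B K * swB_g s 0 K - B N * swB_g s 0 N
        - ∑ n ∈ Ico N K, B (n + 1) * (swB_g s 0 ((n : ℝ) + 1) - swB_g s 0 n) := by
    induction K, hK using Nat.le_induction with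
    | base => simp
    | succ K hK ih =>
      rw [Finset.sum_Ico_succ_top hK, Finset.sum_Ico_succ_top hK, ih]
      have h2 : B (K + 1) = B K + b K := by
        simp only [hB]
        rw [Finset.sum_range_succ]
      rw [h2]
      push_cast
      ring
  have hg : ∀ n : ℕ, N ≤ n → ‖B n * swB_g s 0 n‖ ≤ 1 := by
    intro n hn
    have hn3 : (3 : ℝ) ≤ n := by exact_mod_cast hN.trans hn
    have hn0 : (0 : ℝ) < n := by linarith
    rw [norm_mul]
    have h2 : ‖swB_g s 0 (n : ℝ)‖ ≤ ((n : ℝ))⁻¹ := by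
      unfold swB_g
      rw [pow_zero, one_mul, Complex.norm_cpow_eq_rpow_re_of_pos hn0, ← Real.rpow_neg_one]
      apply Real.rpow_le_rpow_of_exponent_le (by linarith)
      rw [Complex.neg_re]
      linarith
    have h3 : (N : ℝ) ≤ n := by exact_mod_cast hn
    calc ‖B n‖ * ‖swB_g s 0 (n : ℝ)‖ ≤ q * ((n : ℝ))⁻¹ :=
          mul_le_mul (hb n) h2 (norm_nonneg _) hq.le
      _ ≤ 1 := by
          rw [← div_eq_mul_inv, div_le_one hn0]
          nlinarith only [hXN, hqX, hn3, h3]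
  rw [h1]
  have hE : ‖∑ n ∈ Ico N K, B (n + 1) * (swB_g s 0 ((n : ℝ) + 1) - swB_g s 0 n)‖ ≤ 8 := by
    refine (norm_sum_le _ _).trans ?_
    have h2 : ∀ n ∈ Ico N K, ‖B (n + 1) * (swB_g s 0 ((n : ℝ) + 1) - swB_g s 0 n)‖
        ≤ (q * ‖s‖) * (1 / ((n : ℝ) * Real.sqrt n)) := by
      intro n hn
      have hn3 : 3 ≤ n := hN.trans (Finset.mem_Ico.mp hn).1
      have hn' : (3 : ℝ) ≤ n := by exact_mod_cast hn3
      rw [norm_mul]
      have h3 := swB_step_g hs 0 n hn3 (u := (n : ℝ) + 1) ⟨by linarith, le_refl _⟩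
      have h4 : swB_e s 0 n ≤ ‖s‖ * (1 / ((n : ℝ) * Real.sqrt n)) := by
        unfold swB_e
        have h5 : Real.sqrt n ≤ n := by
          rw [Real.sqrt_le_left (by linarith)]
          nlinarith only [hn']
        have h6 : 0 < Real.sqrt n := Real.sqrt_pos.mpr (by linarith)
        rw [pow_zero, mul_one, Nat.cast_zero, zero_add, mul_one_div]
        apply div_le_div_of_nonneg_left (norm_nonneg _) (by positivity)
        rw [sq]
        exact mul_le_mul_of_nonneg_left h5 (by linarith)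
      calc ‖B (n + 1)‖ * ‖swB_g s 0 ((n : ℝ) + 1) - swB_g s 0 n‖
          ≤ q * (‖s‖ * (1 / ((n : ℝ) * Real.sqrt n))) :=
            mul_le_mul (hb (n + 1)) (h3.trans h4) (norm_nonneg _) hq.le
        _ = (q * ‖s‖) * (1 / ((n : ℝ) * Real.sqrt n)) := by ring
    refine (Finset.sum_le_sum h2).trans ?_
    rw [← Finset.mul_sum]
    have h3 := swB_sum_pow N (by omega) K hK
    have hsN : X ≤ Real.sqrt N := Real.le_sqrt_of_sq_le hXN
    have h4 : ∑ n ∈ Ico N K, 1 / ((n : ℝ) * Real.sqrt n) ≤ 4 / X := by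
      have h5 : (0 : ℝ) ≤ 4 / Real.sqrt K := by positivity
      have h6 : 4 / Real.sqrt N ≤ 4 / X := by gcongr
      linarith
    calc (q * ‖s‖) * ∑ n ∈ Ico N K, 1 / ((n : ℝ) * Real.sqrt n)
        ≤ X * (4 / X) := by
          apply mul_le_mul hsX h4 _ hX.le
          exact Finset.sum_nonneg fun n _ => by positivity
      _ = 4 := by field_simp
      _ ≤ 8 := by norm_num
  calc ‖B K * swB_g s 0 K - B N * swB_g s 0 N
        - ∑ n ∈ Ico N K, B (n + 1) * (swB_g s 0 ((n : ℝ) + 1) - swB_g s 0 n)‖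
      ≤ ‖B K * swB_g s 0 K‖ + ‖B N * swB_g s 0 N‖
        + ‖∑ n ∈ Ico N K, B (n + 1) * (swB_g s 0 ((n : ℝ) + 1) - swB_g s 0 n)‖ :=
        (norm_sub_le _ _).trans (add_le_add (norm_sub_le _ _) (le_refl _))
    _ ≤ 1 + 1 + 8 := add_le_add (add_le_add (hg K hK) (hg N (le_refl _))) hE
    _ = 10 := by norm_num

/-- the head of the series -/
theorem swB_head (f : ℕ → ℂ) {s : ℂ} (hs : 1 < s.re) (k N : ℕ) (hN : 1 ≤ N)
    (hf : ∀ n, 1 ≤ n → n < N → ‖f n‖ ≤ Real.log N ^ k) :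
    ‖∑ n ∈ range N, LSeries.term f s n‖ ≤ Real.log N ^ k * (1 + Real.log N) := by
  have hN' : (1 : ℝ) ≤ N := by exact_mod_cast hN
  have hl : 0 ≤ Real.log N := Real.log_nonneg hN'
  have h1 : ∀ n ∈ range N, ‖LSeries.term f s n‖ ≤ Real.log N ^ k * ((n : ℝ))⁻¹ := by
    intro n hn
    rw [LSeries.norm_term_eq]
    by_cases h0 : n = 0
    · rw [if_pos h0, h0]
      simp
    · rw [if_neg h0]
      have hn1 : 1 ≤ n := Nat.one_le_iff_ne_zero.mpr h0
      have hn' : (1 : ℝ) ≤ n := by exact_mod_cast hn1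
      have h2 : (n : ℝ) ≤ (n : ℝ) ^ s.re := by
        calc (n : ℝ) = (n : ℝ) ^ (1 : ℝ) := (Real.rpow_one _).symm
          _ ≤ (n : ℝ) ^ s.re := Real.rpow_le_rpow_of_exponent_le hn' hs.le
      rw [← div_eq_mul_inv]
      exact div_le_div₀ (pow_nonneg hl k) (hf n hn1 (Finset.mem_range.mp hn)) (by linarith) h2
  refine (norm_sum_le _ _).trans ((Finset.sum_le_sum h1).trans ?_)
  rw [← Finset.mul_sum]
  apply mul_le_mul_of_nonneg_left _ (pow_nonneg hl k)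
  have h2 : ∑ n ∈ range N, ((n : ℝ))⁻¹ ≤ ((harmonic N : ℚ) : ℝ) := by
    obtain ⟨M, rfl⟩ : ∃ M, N = M + 1 := ⟨N - 1, by omega⟩
    rw [Finset.sum_range_succ']
    simp only [Nat.cast_zero, inv_zero, add_zero]
    unfold harmonic
    rw [Rat.cast_sum, Finset.sum_range_succ]
    have h3 : (0 : ℝ) ≤ (((((M + 1 : ℕ) : ℚ))⁻¹ : ℚ) : ℝ) := by
      push_cast
      positivity
    have h4 : ∑ i ∈ range M, (((i + 1 : ℕ) : ℝ))⁻¹
        = ∑ i ∈ range M, (((((i + 1 : ℕ) : ℚ))⁻¹ : ℚ) : ℝ) := by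
      refine Finset.sum_congr rfl fun i _ => ?_
      push_cast
      rfl
    rw [h4]
    linarith
  exact h2.trans (harmonic_le_one_add_log N)

theorem swB_norm_G0 {s : ℂ} (hs : 1 < s.re) {u : ℝ} (hu : 1 ≤ u) :
    ‖swB_G s 0 u‖ ≤ 1 / ‖s - 1‖ := by
  have hne := swB_ne_one hs
  unfold swB_G
  rw [norm_div, Complex.norm_cpow_eq_rpow_re_of_pos (by linarith), norm_sub_rev s 1]
  have h1 : u ^ (1 - s).re ≤ 1 := by
    apply Real.rpow_le_one_of_one_le_of_nonpos hu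
    rw [Complex.sub_re, Complex.one_re]
    linarith
  exact div_le_div_of_nonneg_right h1 (norm_nonneg _)

/-- constants for `swB_G_le` -/
noncomputable def swB_D : ℕ → ℝ
  | 0 => 1
  | (k + 1) => 1 + ((k : ℝ) + 1) * swB_D k

theorem swB_D_nonneg (k : ℕ) : 0 ≤ swB_D k := by
  induction k with
  | zero => exact zero_le_one
  | succ k ih =>
    unfold swB_D
    positivity

theorem swB_G_le {s : ℂ} (hs : 1 < s.re) (h1s : 1 ≤ ‖1 - s‖) (k : ℕ) {u : ℝ} (hu : 3 ≤ u) :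
    ‖swB_G s k u‖ ≤ swB_D k * Real.log u ^ k := by
  have hl := swB_one_le_log hu
  have hp : u ^ (1 - s).re ≤ 1 := by
    apply Real.rpow_le_one_of_one_le_of_nonpos (by linarith)
    rw [Complex.sub_re, Complex.one_re]
    linarith
  have hp0 : 0 ≤ u ^ (1 - s).re := Real.rpow_nonneg (by linarith) _
  have h3 : ‖((Real.log u : ℝ) : ℂ)‖ = Real.log u := by
    rw [Complex.norm_real, Real.norm_of_nonneg (by linarith)]
  induction k with
  | zero =>
    unfold swB_G swB_D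
    rw [norm_div, Complex.norm_cpow_eq_rpow_re_of_pos (by linarith), pow_zero, mul_one]
    rw [div_le_one (by linarith)]
    linarith
  | succ k ih =>
    unfold swB_G swB_D
    rw [norm_div, div_le_iff₀ (by linarith)]
    have h4 : ‖((Real.log u : ℝ) : ℂ) ^ (k + 1) * (u : ℂ) ^ (1 - s) - ((k : ℂ) + 1) * swB_G s k u‖
        ≤ Real.log u ^ (k + 1) + ((k : ℝ) + 1) * (swB_D k * Real.log u ^ k) := by
      refine (norm_sub_le _ _).trans (add_le_add ?_ ?_)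
      · rw [norm_mul, norm_pow, h3, Complex.norm_cpow_eq_rpow_re_of_pos (by linarith)]
        calc Real.log u ^ (k + 1) * u ^ (1 - s).re ≤ Real.log u ^ (k + 1) * 1 := by
              apply mul_le_mul_of_nonneg_left hp
              exact pow_nonneg (by linarith) _
          _ = Real.log u ^ (k + 1) := mul_one _
      · rw [norm_mul]
        have h5 : ‖(k : ℂ) + 1‖ = (k : ℝ) + 1 := by
          have : ((k : ℂ) + 1) = ((k + 1 : ℕ) : ℂ) := by push_cast; rfl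
          rw [this, Complex.norm_natCast]
          push_cast
          rfl
        rw [h5]
        exact mul_le_mul_of_nonneg_left ih (by positivity)
    have h6 : Real.log u ^ k ≤ Real.log u ^ (k + 1) := pow_le_pow_right₀ hl (Nat.le_succ k)
    have h7 : 0 ≤ Real.log u ^ (k + 1) := pow_nonneg (by linarith) _
    have h8 : Real.log u ^ (k + 1) + ((k : ℝ) + 1) * (swB_D k * Real.log u ^ k)
        ≤ (1 + ((k : ℝ) + 1) * swB_D k) * Real.log u ^ (k + 1) := by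
      have := mul_le_mul_of_nonneg_left h6
        (mul_nonneg (by positivity : (0 : ℝ) ≤ (k : ℝ) + 1) (swB_D_nonneg k))
      nlinarith
    have h9 : 0 ≤ (1 + ((k : ℝ) + 1) * swB_D k) * Real.log u ^ (k + 1) := by
      have := swB_D_nonneg k
      positivity
    calc _ ≤ _ := h4
      _ ≤ _ := h8
      _ ≤ (1 + ((k : ℝ) + 1) * swB_D k) * Real.log u ^ (k + 1) * ‖1 - s‖ := by
          nlinarith only [h1s, h9]

theorem swB_logpow_tendsto {s : ℂ} (hs : 1 < s.re) (k : ℕ) :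
    Filter.Tendsto (fun u : ℝ => ((Real.log u : ℝ) : ℂ) ^ k * (u : ℂ) ^ (1 - s)) Filter.atTop
      (nhds 0) := by
  rw [tendsto_zero_iff_norm_tendsto_zero]
  have h1 := (isLittleO_log_rpow_rpow_atTop (k : ℝ) (sub_pos.mpr hs)).tendsto_div_nhds_zero
  refine h1.congr' ?_
  filter_upwards [Filter.eventually_ge_atTop (1 : ℝ)] with u hu
  have hl : 0 ≤ Real.log u := Real.log_nonneg hu
  rw [norm_mul, norm_pow, Complex.norm_real, Real.norm_of_nonneg hl,
    Complex.norm_cpow_eq_rpow_re_of_pos (by linarith), Real.rpow_natCast, div_eq_mul_inv,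
    ← Real.rpow_neg (by linarith), Complex.sub_re, Complex.one_re, neg_sub]

theorem swB_G_tendsto {s : ℂ} (hs : 1 < s.re) (k : ℕ) :
    Filter.Tendsto (swB_G s k) Filter.atTop (nhds 0) := by
  induction k with
  | zero =>
    have h := (swB_logpow_tendsto hs 0).div_const (1 - s)
    rw [zero_div] at h
    refine h.congr fun u => ?_
    unfold swB_G
    rw [pow_zero, one_mul]
  | succ k ih =>
    have h := ((swB_logpow_tendsto hs (k + 1)).sub (ih.const_mul ((k : ℂ) + 1))).div_const (1 - s)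
    rw [mul_zero, sub_zero, zero_div] at h
    exact h

theorem swB_term (q : ℕ) (χ : DirichletCharacter ℂ q) (k : ℕ) (s : ℂ) (n : ℕ) (hn : n ≠ 0) :
    LSeries.term (fun n => ((Real.log n : ℝ) : ℂ) ^ k * χ (n : ZMod q)) s n
      = χ (n : ZMod q) * swB_g s k (n : ℝ) := by
  rw [LSeries.term_of_ne_zero hn]
  unfold swB_g
  rw [Complex.cpow_neg, Complex.ofReal_natCast, div_eq_mul_inv]
  ring

theorem swB_one (q : ℕ) (n : ℕ) :
    (1 : DirichletCharacter ℂ q) (n : ZMod q) = if Nat.Coprime n q then 1 else 0 := by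
  by_cases h : Nat.Coprime n q
  · rw [if_pos h, MulChar.one_apply ((ZMod.isUnit_iff_coprime n q).mpr h)]
  · rw [if_neg h, MulChar.map_nonunit _ (fun hu => h ((ZMod.isUnit_iff_coprime n q).mp hu))]

theorem swB_count (q : ℕ) (hq : 1 ≤ q) (m : ℕ) :
    |(((range m).filter (fun n => Nat.Coprime n q)).card : ℝ) - (q.totient : ℝ) / q * m| ≤ q := by
  have hq0 : (0 : ℝ) < q := by exact_mod_cast hq
  have hphi : (q.totient : ℝ) ≤ q := by exact_mod_cast Nat.totient_le q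
  have hphi0 : (0 : ℝ) ≤ q.totient := Nat.cast_nonneg _
  induction m using Nat.strong_induction_on with
  | _ m ih =>
    by_cases h : m < q
    · have h1 : (((range m).filter (fun n => Nat.Coprime n q)).card : ℝ) ≤ m := by
        exact_mod_cast (Finset.card_filter_le _ _).trans (Finset.card_range m).le
      have h2 : (0 : ℝ) ≤ (((range m).filter (fun n => Nat.Coprime n q)).card : ℝ) :=
        Nat.cast_nonneg _
      have h3 : (m : ℝ) ≤ q := by exact_mod_cast h.le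
      have h4 : (0 : ℝ) ≤ m := Nat.cast_nonneg _
      have h5 : (q.totient : ℝ) / q ≤ 1 := by
        rw [div_le_one hq0]
        exact hphi
      have h6 : 0 ≤ (q.totient : ℝ) / q := div_nonneg hphi0 hq0.le
      have h7 : (q.totient : ℝ) / q * m ≤ m := by nlinarith only [h5]
      have h8 : 0 ≤ (q.totient : ℝ) / q * m := mul_nonneg h6 h4
      rw [abs_le]
      constructor <;> linarith
    · obtain ⟨j, rfl⟩ : ∃ j, m = j + q := ⟨m - q, by omega⟩
      have h1 := ih j (by omega)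
      have h2 : ((range (j + q)).filter (fun n => Nat.Coprime n q)).card
          = ((range j).filter (fun n => Nat.Coprime n q)).card + q.totient := by
        rw [← Nat.filter_coprime_Ico_eq_totient q j, range_eq_Ico, range_eq_Ico,
          ← Finset.Ico_union_Ico_eq_Ico (Nat.zero_le j) (Nat.le_add_right j q),
          Finset.filter_union, Finset.card_union_of_disjoint]
        · congr 2
          ext x
          rw [Finset.mem_filter, Finset.mem_filter, Nat.coprime_comm]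
        · apply Finset.disjoint_filter_filter
          exact Finset.Ico_disjoint_Ico_consecutive 0 j (j + q)
      rw [h2]
      have e : (((((range j).filter (fun n => Nat.Coprime n q)).card + q.totient : ℕ) : ℝ)
          - (q.totient : ℝ) / q * ((j + q : ℕ) : ℝ))
          = (((range j).filter (fun n => Nat.Coprime n q)).card : ℝ) - (q.totient : ℝ) / q * j := by
        push_cast
        field_simp
        ring
      rw [e]
      exact h1

theorem swB_b (q : ℕ) (hq : 1 ≤ q) (m : ℕ) :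
    ‖∑ n ∈ range m, ((1 : DirichletCharacter ℂ q) (n : ZMod q)
      - (((q.totient : ℝ) / q : ℝ) : ℂ))‖ ≤ q := by
  have h := swB_count q hq m
  have e : ∑ n ∈ range m, ((1 : DirichletCharacter ℂ q) (n : ZMod q)
      - (((q.totient : ℝ) / q : ℝ) : ℂ))
      = (((((range m).filter (fun n => Nat.Coprime n q)).card : ℝ)
        - (q.totient : ℝ) / q * m : ℝ) : ℂ) := by
    rw [Finset.sum_sub_distrib, Finset.sum_const, Finset.card_range]
    have h1 : ∑ n ∈ range m, (1 : DirichletCharacter ℂ q) (n : ZMod q)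
        = (((range m).filter (fun n => Nat.Coprime n q)).card : ℂ) := by
      rw [Finset.sum_congr rfl fun n _ => swB_one q n, Finset.sum_boole]
    rw [h1, nsmul_eq_mul]
    push_cast
    ring
  rw [e, Complex.norm_real, Real.norm_eq_abs]
  exact h

theorem swB_norm_s {s : ℂ} (hs : 1 < s.re) (hs2 : s.re ≤ 2) : ‖s‖ ≤ |s.im| + 2 := by
  have h := Complex.norm_le_abs_re_add_abs_im s
  have h1 : |s.re| ≤ 2 := by
    rw [abs_of_pos (by linarith)]
    exact hs2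
  linarith

theorem L1_le : ∃ C : ℝ, 0 < C ∧ ∀ q : ℕ, 1 ≤ q → ∀ s : ℂ, 1 < s.re → s.re ≤ 2 →
      ‖Lk q 1 0 s‖ ≤ C * (1 / ‖s - 1‖ + Real.log (q * (|s.im| + 2))) := by
  refine ⟨40, by norm_num, fun q hq s hs hs2 => ?_⟩
  have hq1 : (1 : ℝ) ≤ q := by exact_mod_cast hq
  have ht : 0 ≤ |s.im| := abs_nonneg _
  set X : ℝ := q * (|s.im| + 2) with hX
  have hX2 : 2 ≤ X := by nlinarith only [hq1, ht]
  have hsn := swB_norm_s hs hs2
  have hqs : (q : ℝ) * ‖s‖ ≤ X := mul_le_mul_of_nonneg_left hsn (by linarith)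
  have hsX : ‖s‖ ≤ X := by nlinarith only [hq1, ht, hsn]
  have hqX : (q : ℝ) ≤ X := by nlinarith
  set N : ℕ := ⌈X ^ 2⌉₊ with hN
  have hXN : X ^ 2 ≤ N := Nat.le_ceil _
  have hNX : (N : ℝ) ≤ X ^ 2 + 1 := (Nat.ceil_lt_add_one (by positivity)).le
  have hN4 : (4 : ℝ) ≤ N := by nlinarith only [hX2, hXN]
  have hN3 : 3 ≤ N := by
    have : 4 ≤ N := by exact_mod_cast hN4
    omega
  have hlog2 := Real.log_two_gt_d9
  have hLX : Real.log 2 ≤ Real.log X := Real.log_le_log (by norm_num) hX2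
  have hLN : Real.log N ≤ 3 * Real.log X := by
    have h1 : (N : ℝ) ≤ X ^ 3 := by nlinarith only [hX2, hNX]
    calc Real.log N ≤ Real.log (X ^ 3) := Real.log_le_log (by linarith) h1
      _ = 3 * Real.log X := by
          rw [Real.log_pow]
          norm_num
  have hsum := Lk_summable q 1 0 s hs
  have htend := hsum.hasSum.tendsto_sum_nat.norm
  refine le_of_tendsto htend ((Filter.eventually_ge_atTop N).mono fun K hK => ?_)
  rw [← Finset.sum_range_add_sum_Ico _ hK]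
  have hhead := swB_head (fun n => ((Real.log n : ℝ) : ℂ) ^ 0 * (1 : DirichletCharacter ℂ q)
    (n : ZMod q)) hs 0 N (by omega) (fun n _ _ => by
      simp only [pow_zero, one_mul]
      exact DirichletCharacter.norm_le_one _ _)
  rw [pow_zero, one_mul] at hhead
  have htail : ‖∑ n ∈ Ico N K, LSeries.term (fun n => ((Real.log n : ℝ) : ℂ) ^ 0 *
      (1 : DirichletCharacter ℂ q) (n : ZMod q)) s n‖ ≤ 10 + (2 * (1 / ‖s - 1‖) + 8) := by
    have e : ∑ n ∈ Ico N K, LSeries.term (fun n => ((Real.log n : ℝ) : ℂ) ^ 0 *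
        (1 : DirichletCharacter ℂ q) (n : ZMod q)) s n
        = (∑ n ∈ Ico N K, ((1 : DirichletCharacter ℂ q) (n : ZMod q)
            - (((q.totient : ℝ) / q : ℝ) : ℂ)) * swB_g s 0 n)
          + (((q.totient : ℝ) / q : ℝ) : ℂ) * ∑ n ∈ Ico N K, swB_g s 0 n := by
      rw [Finset.mul_sum, ← Finset.sum_add_distrib]
      refine Finset.sum_congr rfl fun n hn => ?_
      rw [swB_term q 1 0 s n (by have := (Finset.mem_Ico.mp hn).1; omega)]
      ring
    rw [e]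
    refine (norm_add_le _ _).trans (add_le_add ?_ ?_)
    · exact swB_abel hs N K hN3 hK (by linarith) (by linarith) hXN hqs hqX (by linarith) _
        (swB_b q hq)
    · have h1 := swB_tail hs 0 N K hN3 hK (by linarith) hXN hsX (by linarith)
      have hK1 : (1 : ℝ) ≤ K := by
        have : 1 ≤ K := by omega
        exact_mod_cast this
      have h2 := swB_norm_G0 hs (u := (K : ℝ)) hK1
      have h3 := swB_norm_G0 hs (u := (N : ℝ)) (by linarith)
      have h4 : ‖(((q.totient : ℝ) / q : ℝ) : ℂ)‖ ≤ 1 := by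
        rw [Complex.norm_real, Real.norm_of_nonneg (by positivity), div_le_one (by linarith)]
        exact_mod_cast Nat.totient_le q
      rw [norm_mul]
      have h5 : ‖∑ n ∈ Ico N K, swB_g s 0 n‖ ≤ 2 * (1 / ‖s - 1‖) + 8 := by
        refine h1.trans ?_
        norm_num at h2 h3 ⊢
        linarith
      calc ‖(((q.totient : ℝ) / q : ℝ) : ℂ)‖ * ‖∑ n ∈ Ico N K, swB_g s 0 n‖
          ≤ 1 * ‖∑ n ∈ Ico N K, swB_g s 0 n‖ :=
            mul_le_mul_of_nonneg_right h4 (norm_nonneg _)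
        _ ≤ _ := by rw [one_mul]; exact h5
  refine (norm_add_le _ _).trans ((add_le_add hhead htail).trans ?_)
  have h0 : 0 ≤ 1 / ‖s - 1‖ := by positivity
  nlinarith only [hlog2, hLX, hLN, h0]

theorem zeta_k_le (k : ℕ) : ∃ C : ℝ, 0 < C ∧ ∀ s : ℂ, 1 < s.re → s.re ≤ 2 → 1 ≤ |s.im| →
      ‖Lk 1 1 k s‖ ≤ C * Real.log (|s.im| + 2) ^ (k + 1) := by
  have hD := swB_D_nonneg k
  refine ⟨4 * 3 ^ k + swB_D k * 3 ^ k + 4 * ((k : ℝ) + 1) * ((2 : ℝ) ^ (k + 1)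
    * (k.factorial : ℝ)), by positivity, fun s hs hs2 ht => ?_⟩
  set X : ℝ := |s.im| + 2 with hX
  have hX3 : 3 ≤ X := by linarith
  have hsX : ‖s‖ ≤ X := swB_norm_s hs hs2
  have h1s : 1 ≤ ‖1 - s‖ := by
    have h := Complex.abs_im_le_norm (1 - s)
    rw [Complex.sub_im, Complex.one_im, zero_sub, abs_neg] at h
    linarith
  set N : ℕ := ⌈X ^ 2⌉₊ with hN
  have hXN : X ^ 2 ≤ N := Nat.le_ceil _
  have hNX : (N : ℝ) ≤ X ^ 2 + 1 := (Nat.ceil_lt_add_one (by positivity)).le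
  have hN9 : (9 : ℝ) ≤ N := by nlinarith only [ht, hXN]
  have hN3 : 3 ≤ N := by
    have : 9 ≤ N := by exact_mod_cast hN9
    omega
  have hL1 : 1 ≤ Real.log X := swB_one_le_log hX3
  have hLN : Real.log N ≤ 3 * Real.log X := by
    have h1 : (N : ℝ) ≤ X ^ 3 := by nlinarith only [ht, hNX]
    calc Real.log N ≤ Real.log (X ^ 3) := Real.log_le_log (by linarith) h1
      _ = 3 * Real.log X := by
          rw [Real.log_pow]
          norm_num
  have hLN0 : 0 ≤ Real.log N := Real.log_nonneg (by linarith)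
  have hsum := Lk_summable 1 1 k s hs
  have htend := hsum.hasSum.tendsto_sum_nat.norm
  have hGt : Filter.Tendsto (fun K : ℕ => ‖swB_G s k (K : ℝ)‖) Filter.atTop (nhds 0) := by
    have := ((swB_G_tendsto hs k).comp tendsto_natCast_atTop_atTop).norm
    rw [norm_zero] at this
    exact this
  have hR := hGt.add_const ((4 * 3 ^ k + swB_D k * 3 ^ k + 4 * ((k : ℝ) + 1) * ((2 : ℝ) ^ (k + 1)
    * (k.factorial : ℝ))) * Real.log X ^ (k + 1))
  rw [zero_add] at hR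
  refine le_of_tendsto_of_tendsto htend hR ((Filter.eventually_ge_atTop N).mono fun K hK => ?_)
  beta_reduce
  rw [← Finset.sum_range_add_sum_Ico _ hK]
  have hone : ∀ n : ℕ, (1 : DirichletCharacter ℂ 1) (n : ZMod 1) = 1 := by
    intro n
    rw [swB_one, if_pos (Nat.coprime_one_right n)]
  have hhead := swB_head (fun n => ((Real.log n : ℝ) : ℂ) ^ k * (1 : DirichletCharacter ℂ 1)
    (n : ZMod 1)) hs k N (by omega) (fun n hn1 hnN => by
      have hn1' : (1 : ℝ) ≤ n := by exact_mod_cast hn1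
      have hnN' : (n : ℝ) ≤ N := by exact_mod_cast hnN.le
      have hl0 : 0 ≤ Real.log n := Real.log_nonneg hn1'
      rw [hone, mul_one, norm_pow, Complex.norm_real, Real.norm_of_nonneg hl0]
      exact pow_le_pow_left₀ hl0 (Real.log_le_log (by linarith) hnN') k)
  have hhead2 : Real.log N ^ k * (1 + Real.log N) ≤ 4 * 3 ^ k * Real.log X ^ (k + 1) := by
    have h1 : Real.log N ^ k ≤ (3 * Real.log X) ^ k := pow_le_pow_left₀ hLN0 hLN k
    calc Real.log N ^ k * (1 + Real.log N) ≤ (3 * Real.log X) ^ k * (4 * Real.log X) := by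
          apply mul_le_mul h1 (by linarith) (by linarith) (by positivity)
      _ = 4 * 3 ^ k * Real.log X ^ (k + 1) := by
          rw [mul_pow]
          ring
  have htail : ‖∑ n ∈ Ico N K, LSeries.term (fun n => ((Real.log n : ℝ) : ℂ) ^ k *
      (1 : DirichletCharacter ℂ 1) (n : ZMod 1)) s n‖ ≤ ‖swB_G s k K‖ + ‖swB_G s k N‖
      + 4 * ((k : ℝ) + 1) * ((2 : ℝ) ^ (k + 1) * (k.factorial : ℝ)) := by
    have e : ∑ n ∈ Ico N K, LSeries.term (fun n => ((Real.log n : ℝ) : ℂ) ^ k *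
        (1 : DirichletCharacter ℂ 1) (n : ZMod 1)) s n = ∑ n ∈ Ico N K, swB_g s k n := by
      refine Finset.sum_congr rfl fun n hn => ?_
      rw [swB_term 1 1 k s n (by have := (Finset.mem_Ico.mp hn).1; omega), hone, one_mul]
    rw [e]
    exact swB_tail hs k N K hN3 hK (by linarith) hXN hsX (by linarith)
  have hGN : ‖swB_G s k N‖ ≤ swB_D k * 3 ^ k * Real.log X ^ (k + 1) := by
    have h1 := swB_G_le hs h1s k (u := (N : ℝ)) (by linarith)
    have h2 : Real.log N ^ k ≤ (3 * Real.log X) ^ k := pow_le_pow_left₀ hLN0 hLN k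
    have h3 : Real.log X ^ k ≤ Real.log X ^ (k + 1) := pow_le_pow_right₀ hL1 (Nat.le_succ k)
    calc ‖swB_G s k N‖ ≤ swB_D k * Real.log N ^ k := h1
      _ ≤ swB_D k * (3 * Real.log X) ^ k := mul_le_mul_of_nonneg_left h2 hD
      _ = swB_D k * 3 ^ k * Real.log X ^ k := by
          rw [mul_pow]
          ring
      _ ≤ swB_D k * 3 ^ k * Real.log X ^ (k + 1) :=
          mul_le_mul_of_nonneg_left h3 (by positivity)
  have hc : 4 * ((k : ℝ) + 1) * ((2 : ℝ) ^ (k + 1) * (k.factorial : ℝ))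
      ≤ 4 * ((k : ℝ) + 1) * ((2 : ℝ) ^ (k + 1) * (k.factorial : ℝ)) * Real.log X ^ (k + 1) := by
    apply le_mul_of_one_le_right (by positivity)
    exact one_le_pow₀ hL1
  refine (norm_add_le _ _).trans ((add_le_add (hhead.trans hhead2) htail).trans ?_)
  linarith

end Pool.Agent.H91.EHA

end

section

/-!
# Lower bounds for `L(s,χ)` on `1 < Re s ≤ 2`

Write `ℓ = log(q(|t|+2)) ≥ 1`, `s = σ + i t`.
3-4-1 inequality in Mathlib: `DirichletCharacter.norm_LSeries_product_ge_one`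
(file `Mathlib/NumberTheory/LSeries/Nonvanishing.lean`):
`‖L(χ0,1+x)^3 L(χ,1+x+iy)^4 L(χ^2,1+x+2iy)‖ ≥ 1` for `x > 0`; `‖L(χ0,σ)‖ ≤ ζ(σ) ≤ 2/(σ-1)` for `1<σ≤2`.
Complex case: `‖L(σ+2it,χ²)‖ ≤ C ℓ` (SwA), so `‖L(σ+it)‖ ≥ c (σ-1)^{3/4} ℓ^{-1/4}`.  For `σ ≥ 1+η`,
`η = c' ℓ^{-9}`, fine; for `σ < 1+η` use `‖L(σ+it) - L(1+η+it)‖ ≤ η C ℓ²` (SwA, `k=1`, mean value
inequality): gives `‖L‖ ≥ c'' ℓ^{-7}`.
Real case (`χ² = 1`), `λ = ‖L(1,χ)‖ ≤ C ℓ` (limit of SwA; `LFunction χ` is continuous), `δ = λ/(2 C₁ ℓ²)` with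
`C₁` the constant of `Lk_le 1`.
 (i) `‖s-1‖ ≤ δ`: `‖L(s)‖ ≥ λ - C₁ℓ²‖s-1‖ ≥ λ/2` (mean value on the segment from `1+` to `s`).
 (ii) `σ-1 ≥ δ/2`: `‖L(s,χ)‖ ≥ c (σ-1)` (Euler product: `‖L(s,χ)‖⁻¹ = ‖∑ μ(n)χ(n)n^{-s}‖ ≤ ζ(σ)`;
   Mathlib has `LSeries` of `μ χ` times `LSeries χ` equal to 1, `DirichletCharacter.LSeries.mul_mu_eq_one`).
 (iii) `|t| ≥ δ/2`: 3-4-1 with `‖L(σ'+2it,χ0)‖ ≤ C(1/(2|t|) + ℓ) ≤ C' ℓ/δ` (SwB; `δ ≤ 1` may be assumed,
   otherwise enlarge `C₁`): `‖L(σ'+it)‖ ≥ c (σ'-1)^{3/4} (δ/ℓ)^{1/4}`; with `η = c' δ ℓ^{-9}` as before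
   `‖L(σ+it)‖ ≥ c'' δ ℓ^{-7}`.
`zeta_lower`: as the complex case, with `SwB` for `‖ζ(σ+2it)‖ ≤ C ℓ` and `‖ζ'‖ ≤ C ℓ²`, `|t| ≥ 1`.
-/

set_option autoImplicit false

namespace Pool.Agent.H91.EHA

open Finset

/-- abstract 3-4-1 argument -/
private theorem swc_core (F : ℝ → ℝ) (A D K : ℝ) (hA : 1 ≤ A) (hD : 1 ≤ D) (hK : 1 ≤ K)
    (h1 : ∀ σ, 1 < σ → σ ≤ 2 → (σ - 1) ^ 3 ≤ A ^ 3 * K * F σ ^ 4)
    (h2 : ∀ σ σ', 1 < σ → σ ≤ σ' → σ' ≤ 2 → F σ' ≤ F σ + D * (σ' - σ))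
    (h0 : ∀ σ, 1 < σ → σ ≤ 2 → 0 ≤ F σ) (σ : ℝ) (hσ : 1 < σ) (hσ2 : σ ≤ 2) :
    1 / (32 * D ^ 3 * A ^ 3 * K) ≤ F σ := by
  by_contra hcon
  push Not at hcon
  have hA3 : (1:ℝ) ≤ A ^ 3 := one_le_pow₀ hA
  have hD3 : (1:ℝ) ≤ D ^ 3 := one_le_pow₀ hD
  have hD4 : (1:ℝ) ≤ D ^ 4 := one_le_pow₀ hD
  have hAK : (1:ℝ) ≤ A ^ 3 * K := by nlinarith
  set P : ℝ := A ^ 3 * K with hP
  have hP0 : 0 < P := by linarith
  have hDp : 0 < D := by linarith
  set η : ℝ := 1 / (32 * D ^ 4 * P) with hη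
  have hη0 : 0 < η := by positivity
  have hη1 : η ≤ 1 / 32 := by
    rw [hη]
    apply one_div_le_one_div_of_le (by norm_num)
    nlinarith only [mul_le_mul hD4 hAK (by norm_num) (by positivity)]
  have hm : 1 / (32 * D ^ 3 * A ^ 3 * K) = D * η := by
    rw [hη, hP]; field_simp
  rw [hm] at hcon
  have hPη : 32 * D ^ 4 * P * η = 1 := by
    rw [hη]; field_simp
  have hF0 := h0 σ hσ hσ2
  rcases le_or_gt (1 + η) σ with hc | hc
  · have h := h1 σ hσ hσ2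
    have h4 : F σ ^ 4 ≤ (D * η) ^ 4 := pow_le_pow_left₀ hF0 hcon.le 4
    have h3 : η ^ 3 ≤ (σ - 1) ^ 3 := pow_le_pow_left₀ hη0.le (by linarith) 3
    have h5 : η ^ 3 ≤ P * (D * η) ^ 4 := by
      calc η ^ 3 ≤ (σ - 1) ^ 3 := h3
        _ ≤ P * F σ ^ 4 := h
        _ ≤ P * (D * η) ^ 4 := mul_le_mul_of_nonneg_left h4 hP0.le
    have h6 : P * (D * η) ^ 4 = η ^ 3 * (D ^ 4 * P * η) := by ring
    have h7 : D ^ 4 * P * η = 1 / 32 := by linarith
    rw [h6, h7] at h5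
    have : 0 < η ^ 3 := by positivity
    linarith
  · have h := h1 (1 + η) (by linarith) (by linarith)
    have hl := h2 σ (1 + η) hσ hc.le (by linarith)
    have hl2 : F (1 + η) ≤ 2 * (D * η) := by
      have : D * (1 + η - σ) ≤ D * η := mul_le_mul_of_nonneg_left (by linarith) hDp.le
      linarith
    have h4 : F (1 + η) ^ 4 ≤ (2 * (D * η)) ^ 4 :=
      pow_le_pow_left₀ (h0 _ (by linarith) (by linarith)) hl2 4
    have h5 : η ^ 3 ≤ P * (2 * (D * η)) ^ 4 := by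
      calc η ^ 3 = (1 + η - 1) ^ 3 := by ring
        _ ≤ P * F (1 + η) ^ 4 := h
        _ ≤ _ := mul_le_mul_of_nonneg_left h4 hP0.le
    have h6 : P * (2 * (D * η)) ^ 4 = η ^ 3 * (16 * (D ^ 4 * P * η)) := by ring
    have h7 : D ^ 4 * P * η = 1 / 32 := by linarith
    rw [h6, h7] at h5
    have : 0 < η ^ 3 := by positivity
    linarith

private theorem swc_Lk0 (q : ℕ) (χ : DirichletCharacter ℂ q) (s : ℂ) :
    Lk q χ 0 s = LSeries (fun n : ℕ => χ (n : ZMod q)) s := by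
  unfold Lk; simp

/-- every bounded Dirichlet series is at most zeta -/
private theorem swc_norm_le (f : ℕ → ℂ) (hf : ∀ n, ‖f n‖ ≤ 1) (s : ℂ) (hs : 1 < s.re) :
    ‖LSeries f s‖ ≤ ‖Lk 1 1 0 (s.re : ℂ)‖ := by
  have hz : Lk 1 1 0 (s.re : ℂ) = LSeries (fun _ => (1 : ℂ)) (s.re : ℂ) := by
    rw [swc_Lk0]
    congr 1
    funext n
    exact MulChar.one_apply (isUnit_of_subsingleton _)
  have hsum : LSeriesSummable (fun _ => (1 : ℂ)) (s.re : ℂ) := by
    have := LSeriesSummable_one_iff (s := (s.re : ℂ))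
    have h2 := this.2 (by simpa using hs)
    exact h2
  have hterm : ∀ n, ‖LSeries.term f s n‖ ≤ ‖LSeries.term (fun _ => (1 : ℂ)) (s.re : ℂ) n‖ := by
    intro n
    rw [LSeries.norm_term_eq, LSeries.norm_term_eq]
    split_ifs with h
    · exact le_rfl
    · simp only [Complex.ofReal_re, norm_one]
      exact div_le_div_of_nonneg_right (hf n) (by positivity)
  have hval : ∀ n, LSeries.term (fun _ => (1 : ℂ)) (s.re : ℂ) n
      = ((‖LSeries.term (fun _ => (1 : ℂ)) (s.re : ℂ) n‖ : ℝ) : ℂ) := by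
    intro n
    rw [LSeries.norm_term_eq]
    rw [LSeries.term_def]
    split_ifs with h
    · simp
    · simp only [Complex.ofReal_re, norm_one]
      push_cast
      rw [Complex.ofReal_cpow (by positivity)]
      simp
  rw [hz]
  have h1 : ‖LSeries f s‖ ≤ ∑' n, ‖LSeries.term (fun _ => (1 : ℂ)) (s.re : ℂ) n‖ := by
    unfold LSeries
    refine tsum_of_norm_bounded hsum.norm.hasSum hterm
  have h2 : LSeries (fun _ => (1 : ℂ)) (s.re : ℂ)
      = ((∑' n, ‖LSeries.term (fun _ => (1 : ℂ)) (s.re : ℂ) n‖ : ℝ) : ℂ) := by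
    rw [Complex.ofReal_tsum]
    unfold LSeries
    exact tsum_congr hval
  rw [h2]
  rw [Complex.norm_real]
  exact h1.trans (le_abs_self _)

private theorem swc_zeta : ∃ A : ℝ, 1 ≤ A ∧ ∀ σ : ℝ, 1 < σ → σ ≤ 2 →
    ‖Lk 1 1 0 (σ : ℂ)‖ ≤ A / (σ - 1) := by
  obtain ⟨C, hC, h⟩ := L1_le
  refine ⟨2 * C + 1, by linarith, fun σ h1 h2 => ?_⟩
  have := h 1 le_rfl (σ : ℂ) (by simpa using h1) (by simpa using h2)
  refine this.trans ?_
  have e1 : ‖(σ : ℂ) - 1‖ = σ - 1 := by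
    rw [show (σ : ℂ) - 1 = ((σ - 1 : ℝ) : ℂ) by push_cast; ring, Complex.norm_real]
    exact abs_of_pos (by linarith)
  rw [e1]
  have e2 : Real.log ((1 : ℕ) * (|(σ : ℂ).im| + 2)) ≤ 1 := by
    simp only [Nat.cast_one, Complex.ofReal_im, abs_zero, zero_add, one_mul]
    linarith [Real.log_two_lt_d9]
  have e3 : (1:ℝ) ≤ 1 / (σ - 1) := by
    rw [le_div_iff₀ (by linarith)]; linarith
  have e4 : (2 * C + 1) / (σ - 1) = (2 * C + 1) * (1 / (σ - 1)) := by ring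
  rw [e4]
  have e5 : C * (1 / (σ - 1) + Real.log ((1 : ℕ) * (|(σ : ℂ).im| + 2)))
      ≤ C * (1 / (σ - 1) + 1 / (σ - 1)) :=
    mul_le_mul_of_nonneg_left (add_le_add le_rfl (e2.trans e3)) hC.le
  have e6 : (2 * C + 1) * (1 / (σ - 1)) = C * (1 / (σ - 1) + 1 / (σ - 1)) + 1 / (σ - 1) := by ring
  linarith

private theorem swc_341 (A : ℝ) (hA1 : 1 ≤ A)
    (hA : ∀ σ : ℝ, 1 < σ → σ ≤ 2 → ‖Lk 1 1 0 (σ : ℂ)‖ ≤ A / (σ - 1))
    (q : ℕ) (χ : DirichletCharacter ℂ q) (σ t : ℝ) (h1 : 1 < σ) (h2 : σ ≤ 2) :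
    (σ - 1) ^ 3 ≤ A ^ 3 * ‖Lk q (χ ^ 2) 0 ⟨σ, 2 * t⟩‖ * ‖Lk q χ 0 ⟨σ, t⟩‖ ^ 4 := by
  have hx : 0 < σ - 1 := by linarith
  have h := DirichletCharacter.norm_LSeries_product_ge_one χ hx t
  have e1 : (1 + ((σ - 1 : ℝ) : ℂ)) = (σ : ℂ) := by push_cast; ring
  have e2 : (σ : ℂ) + Complex.I * t = ⟨σ, t⟩ := by
    apply Complex.ext <;> simp
  have e3 : (σ : ℂ) + 2 * Complex.I * t = ⟨σ, 2 * t⟩ := by
    apply Complex.ext <;> simp
  rw [e1, e2, e3] at h
  rw [norm_mul, norm_mul, norm_pow, norm_pow] at h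
  rw [swc_Lk0 q χ, swc_Lk0 q (χ ^ 2)]
  have hb : ‖LSeries (fun n : ℕ => (1 : DirichletCharacter ℂ q) (n : ZMod q)) (σ : ℂ)‖
      ≤ A / (σ - 1) := by
    have := swc_norm_le (fun n : ℕ => (1 : DirichletCharacter ℂ q) (n : ZMod q))
      (fun n => DirichletCharacter.norm_le_one _ _) (σ : ℂ) (by simpa using h1)
    refine this.trans ?_
    have := hA σ h1 h2
    simpa using this
  have hb3 := pow_le_pow_left₀ (norm_nonneg _) hb 3
  set a := ‖LSeries (fun n : ℕ => (1 : DirichletCharacter ℂ q) (n : ZMod q)) (σ : ℂ)‖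
  set b := ‖LSeries (fun n : ℕ => χ (n : ZMod q)) ⟨σ, t⟩‖
  set c := ‖LSeries (fun n : ℕ => (χ ^ 2) (n : ZMod q)) ⟨σ, 2 * t⟩‖
  have hc : 0 ≤ c := norm_nonneg _
  have hb0 : 0 ≤ b ^ 4 := by positivity
  have h3 : 1 ≤ (A / (σ - 1)) ^ 3 * b ^ 4 * c := by
    calc (1:ℝ) ≤ a ^ 3 * b ^ 4 * c := h
      _ ≤ _ := by gcongr
  have hx3 : 0 < (σ - 1) ^ 3 := by positivity
  calc (σ - 1) ^ 3 = (σ - 1) ^ 3 * 1 := by ring
    _ ≤ (σ - 1) ^ 3 * ((A / (σ - 1)) ^ 3 * b ^ 4 * c) := mul_le_mul_of_nonneg_left h3 hx3.le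
    _ = A ^ 3 * c * b ^ 4 := by field_simp

private theorem swc_lip (q : ℕ) (χ : DirichletCharacter ℂ q) (S : Set ℂ) (hS : Convex ℝ S)
    (h1 : ∀ w ∈ S, 1 < w.re) (D : ℝ) (hD : ∀ w ∈ S, ‖Lk q χ 1 w‖ ≤ D) (a b : ℂ) (ha : a ∈ S)
    (hb : b ∈ S) : ‖Lk q χ 0 b - Lk q χ 0 a‖ ≤ D * ‖b - a‖ := by
  refine Convex.norm_image_sub_le_of_norm_hasDerivWithin_le (f' := fun w => -(Lk q χ (0 + 1) w))
    (fun w hw => (Lk_hasDeriv q χ 0 w (h1 w hw)).hasDerivWithinAt) (fun w hw => ?_) hS ha hb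
  rw [norm_neg]
  exact hD w hw

/-- horizontal line -/
private theorem swc_horizontal (A : ℝ) (hA1 : 1 ≤ A)
    (hA : ∀ σ : ℝ, 1 < σ → σ ≤ 2 → ‖Lk 1 1 0 (σ : ℂ)‖ ≤ A / (σ - 1))
    (q : ℕ) (χ : DirichletCharacter ℂ q) (t D K : ℝ) (hD1 : 1 ≤ D) (hK1 : 1 ≤ K)
    (hD : ∀ σ : ℝ, 1 < σ → σ ≤ 2 → ‖Lk q χ 1 ⟨σ, t⟩‖ ≤ D)
    (hK : ∀ σ : ℝ, 1 < σ → σ ≤ 2 → ‖Lk q (χ ^ 2) 0 ⟨σ, 2 * t⟩‖ ≤ K)
    (σ : ℝ) (h1 : 1 < σ) (h2 : σ ≤ 2) :
    1 / (32 * D ^ 3 * A ^ 3 * K) ≤ ‖Lk q χ 0 ⟨σ, t⟩‖ := by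
  refine swc_core (fun σ => ‖Lk q χ 0 ⟨σ, t⟩‖) A D K hA1 hD1 hK1 ?_ ?_ (fun _ _ _ => norm_nonneg _)
    σ h1 h2
  · intro σ h1 h2
    refine (swc_341 A hA1 hA q χ σ t h1 h2).trans ?_
    have := hK σ h1 h2
    have hA0 : 0 ≤ A ^ 3 := by positivity
    exact mul_le_mul_of_nonneg_right (mul_le_mul_of_nonneg_left this hA0) (by positivity)
  · intro σ σ' h1 hle h2
    set S : Set ℂ := {w | 1 < w.re ∧ w.re ≤ 2 ∧ w.im = t} with hSdef
    have hS : Convex ℝ S := by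
      have e : S = {w | 1 < w.re} ∩ ({w | w.re ≤ 2} ∩ {w | w.im = t}) := by
        ext w; simp [hSdef]
      rw [e]
      refine Convex.inter (convex_halfSpace_re_gt 1) (Convex.inter (convex_halfSpace_re_le 2) ?_)
      have e2 : {w : ℂ | w.im = t} = {w | w.im ≤ t} ∩ {w | t ≤ w.im} := by
        ext w; simp [le_antisymm_iff]
      rw [e2]
      exact Convex.inter (convex_halfSpace_im_le t) (convex_halfSpace_im_ge t)
    have hb : ∀ w ∈ S, ‖Lk q χ 1 w‖ ≤ D := by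
      rintro ⟨a, b⟩ ⟨h1, h2, h3⟩
      simp only at h1 h2 h3
      subst h3
      exact hD a h1 h2
    have := swc_lip q χ S hS (fun w hw => hw.1) D hb ⟨σ, t⟩ ⟨σ', t⟩ ⟨h1, by simp; linarith, rfl⟩
      ⟨by simp; linarith, h2, rfl⟩
    have e : ‖(⟨σ', t⟩ : ℂ) - ⟨σ, t⟩‖ = σ' - σ := by
      have : (⟨σ', t⟩ : ℂ) - ⟨σ, t⟩ = ((σ' - σ : ℝ) : ℂ) := by
        apply Complex.ext <;> simp
      rw [this, Complex.norm_real]
      exact abs_of_nonneg (by linarith)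
    rw [e] at this
    have h4 := norm_sub_norm_le (Lk q χ 0 ⟨σ', t⟩) (Lk q χ 0 ⟨σ, t⟩)
    show ‖Lk q χ 0 ⟨σ', t⟩‖ ≤ ‖Lk q χ 0 ⟨σ, t⟩‖ + D * (σ' - σ)
    linarith

private theorem swc_log_one (q : ℕ) (hq : 2 ≤ q) (t : ℝ) : 1 ≤ Real.log (q * (|t| + 2)) := by
  have hq' : (2:ℝ) ≤ q := by exact_mod_cast hq
  have h4 : (4:ℝ) ≤ q * (|t| + 2) := by nlinarith [abs_nonneg t]
  have : Real.log 4 ≤ Real.log (q * (|t| + 2)) := Real.log_le_log (by norm_num) h4
  have h2 : Real.log 4 = 2 * Real.log 2 := by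
    rw [show (4:ℝ) = 2 ^ 2 by norm_num, Real.log_pow]; norm_num
  linarith [Real.log_two_gt_d9]

private theorem swc_log_double (Q : ℝ) (hQ : 1 ≤ Q) (t : ℝ) :
    Real.log (Q * (|2 * t| + 2)) ≤ 2 * Real.log (Q * (|t| + 2)) := by
  have h1 : Real.log ((Q * (|t| + 2)) ^ 2) = 2 * Real.log (Q * (|t| + 2)) := by
    rw [Real.log_pow]; norm_num
  rw [← h1]
  have ht := abs_nonneg t
  have e : |2 * t| = 2 * |t| := by rw [abs_mul]; norm_num
  apply Real.log_le_log (by positivity)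
  rw [e]
  nlinarith [mul_nonneg ht ht, mul_nonneg (sub_nonneg.2 hQ) ht, mul_nonneg (sub_nonneg.2 hQ) (mul_nonneg ht ht), mul_nonneg (sub_nonneg.2 hQ) (sub_nonneg.2 hQ)]

theorem L_lower_complex : ∃ c : ℝ, 0 < c ∧ ∀ q : ℕ, 2 ≤ q → ∀ χ : DirichletCharacter ℂ q, χ ≠ 1 →
    χ ^ 2 ≠ 1 → ∀ s : ℂ, 1 < s.re → s.re ≤ 2 →
      c / Real.log (q * (|s.im| + 2)) ^ 9 ≤ ‖Lk q χ 0 s‖ := by
  obtain ⟨A, hA1, hA⟩ := swc_zeta
  obtain ⟨C0, hC0, h0⟩ := Lk_le 0
  obtain ⟨C1, hC1, h1⟩ := Lk_le 1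
  set a := C0 + 1
  set b := C1 + 1
  have ha : 1 ≤ a := by simp only [a]; linarith
  have hb : 1 ≤ b := by simp only [b]; linarith
  refine ⟨1 / (64 * b ^ 3 * A ^ 3 * a), by positivity, fun q hq χ hχ hχ2 s hs1 hs2 => ?_⟩
  obtain ⟨σ, t⟩ := s
  simp only at hs1 hs2 ⊢
  have hl := swc_log_one q hq t
  set l := Real.log (q * (|t| + 2))
  have hl0 : 0 < l := by linarith
  have hl2 : 1 ≤ l ^ 2 := one_le_pow₀ hl
  have key := swc_horizontal A hA1 hA q χ t (b * l ^ 2) (2 * a * l) (by nlinarith) (by nlinarith)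
    (fun σ' h1' h2' => by
      have := h1 q hq χ hχ ⟨σ', t⟩ h1' h2'
      refine this.trans ?_
      show C1 * l ^ 2 ≤ b * l ^ 2
      exact mul_le_mul_of_nonneg_right (by simp only [b]; linarith) (by positivity))
    (fun σ' h1' h2' => by
      have := h0 q hq (χ ^ 2) hχ2 ⟨σ', 2 * t⟩ h1' h2'
      refine this.trans ?_
      have hd := swc_log_double (q : ℝ) (by exact_mod_cast (by omega : 1 ≤ q)) t
      simp only [zero_add, pow_one]
      calc C0 * Real.log (q * (|2 * t| + 2)) ≤ C0 * (2 * l) := mul_le_mul_of_nonneg_left hd hC0.le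
        _ ≤ a * (2 * l) := mul_le_mul_of_nonneg_right (by simp only [a]; linarith) (by positivity)
        _ = 2 * a * l := by ring)
    σ hs1 hs2
  refine le_trans ?_ key
  have e : 1 / (32 * (b * l ^ 2) ^ 3 * A ^ 3 * (2 * a * l)) = 1 / (64 * b ^ 3 * A ^ 3 * a) / l ^ 7 := by
    field_simp; ring
  rw [e]
  apply div_le_div_of_nonneg_left (by positivity) (by positivity)
  exact pow_le_pow_right₀ hl (by norm_num)

theorem L_lower_real : ∃ c : ℝ, 0 < c ∧ ∀ (q : ℕ) [NeZero q], 2 ≤ q →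
    ∀ χ : DirichletCharacter ℂ q, χ ≠ 1 → χ ^ 2 = 1 → ∀ s : ℂ, 1 < s.re → s.re ≤ 2 →
      c * ‖DirichletCharacter.LFunction χ 1‖ / Real.log (q * (|s.im| + 2)) ^ 9
        ≤ ‖Lk q χ 0 s‖ := by
  obtain ⟨A, hA1, hA⟩ := swc_zeta
  obtain ⟨C0, hC0, h0⟩ := Lk_le 0
  obtain ⟨C1, hC1, h1⟩ := Lk_le 1
  obtain ⟨C2, hC2, h2⟩ := L1_le
  -- `b` bounds both the function and its derivative
  set b := C0 + C1 + 1
  have hb : 1 ≤ b := by simp only [b]; linarith
  set a := C2 + 1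
  have ha : 1 ≤ a := by simp only [a]; linarith
  have hb0 : 0 < b := by linarith
  have ha0 : 0 < a := by linarith
  have hA0 : 0 < A := by linarith
  refine ⟨1 / (2 * (32 * b ^ 3 * A ^ 3 * (3 * a) * b)), by positivity,
    fun q _ hq χ hχ hχ2 s hs1 hs2 => ?_⟩
  obtain ⟨σ, t⟩ := s
  simp only at hs1 hs2 ⊢
  have hl := swc_log_one q hq t
  have hq1 : (1:ℝ) ≤ q := by exact_mod_cast (by omega : 1 ≤ q)
  have hmono : ∀ u : ℝ, |u| ≤ |t| → Real.log (q * (|u| + 2)) ≤ Real.log (q * (|t| + 2)) := by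
    intro u hu
    have := abs_nonneg u
    apply Real.log_le_log (by positivity)
    exact mul_le_mul_of_nonneg_left (by linarith) (by linarith)
  set l := Real.log (q * (|t| + 2))
  have hl0 : 0 < l := by linarith
  have hl2 : 1 ≤ l ^ 2 := one_le_pow₀ hl
  -- derivative bound on the rectangle
  have hder : ∀ w : ℂ, 1 < w.re → w.re ≤ 2 → |w.im| ≤ |t| → ‖Lk q χ 1 w‖ ≤ b * l ^ 2 := by
    intro w h1' h2' h3'
    refine (h1 q hq χ hχ w h1' h2').trans ?_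
    have h4 : Real.log (q * (|w.im| + 2)) ^ 2 ≤ l ^ 2 :=
      pow_le_pow_left₀ (by linarith [swc_log_one q hq w.im]) (hmono _ h3') 2
    show C1 * Real.log (q * (|w.im| + 2)) ^ 2 ≤ b * l ^ 2
    exact mul_le_mul (by simp only [b]; linarith) h4 (by positivity) hb0.le
  -- continuity at 1
  set lam := DirichletCharacter.LFunction χ 1 with hlam
  have hcont : Filter.Tendsto (fun x : ℝ => Lk q χ 0 ((1 + x : ℝ) : ℂ)) (nhdsWithin 0 (Set.Ioi 0))
      (nhds lam) := by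
    have hc : Continuous (fun x : ℝ => DirichletCharacter.LFunction χ ((1 + x : ℝ) : ℂ)) := by
      have := (DirichletCharacter.differentiable_LFunction hχ).continuous
      fun_prop
    have h3 := (hc.tendsto 0).mono_left (nhdsWithin_le_nhds (s := Set.Ioi (0:ℝ)))
    simp only [add_zero, Complex.ofReal_one] at h3
    refine h3.congr' ?_
    filter_upwards [self_mem_nhdsWithin] with x hx
    rw [Lk_zero_eq q χ _ (by
      have : (0:ℝ) < x := hx
      rw [Complex.ofReal_re]; linarith)]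
  have hev : ∀ᶠ x : ℝ in nhdsWithin 0 (Set.Ioi 0), 0 < x ∧ x ≤ 1 := by
    have : Set.Ioc (0:ℝ) 1 ∈ nhdsWithin 0 (Set.Ioi 0) := Ioc_mem_nhdsGT (by norm_num)
    filter_upwards [this] with x hx using hx
  have hlam_le : ‖lam‖ ≤ b * l := by
    refine le_of_tendsto hcont.norm ?_
    filter_upwards [hev] with x hx
    have h3 := h0 q hq χ hχ ((1 + x : ℝ) : ℂ) (by rw [Complex.ofReal_re]; linarith [hx.1])
      (by rw [Complex.ofReal_re]; linarith [hx.2])
    refine h3.trans ?_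
    rw [Complex.ofReal_im, zero_add, pow_one]
    have h4 := hmono 0 (by rw [abs_zero]; exact abs_nonneg t)
    calc C0 * Real.log (q * (|0| + 2)) ≤ C0 * l := mul_le_mul_of_nonneg_left h4 hC0.le
      _ ≤ b * l := mul_le_mul_of_nonneg_right (by simp only [b]; linarith) hl0.le
  have hdiff : ‖Lk q χ 0 ⟨σ, t⟩ - lam‖ ≤ b * l ^ 2 * ‖(⟨σ, t⟩ : ℂ) - 1‖ := by
    have hL : Filter.Tendsto (fun x : ℝ => ‖Lk q χ 0 ⟨σ, t⟩ - Lk q χ 0 ((1 + x : ℝ) : ℂ)‖)
        (nhdsWithin 0 (Set.Ioi 0)) (nhds ‖Lk q χ 0 ⟨σ, t⟩ - lam‖) :=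
      (hcont.const_sub _).norm
    have hR : Filter.Tendsto (fun x : ℝ => b * l ^ 2 * ‖(⟨σ, t⟩ : ℂ) - ((1 + x : ℝ) : ℂ)‖)
        (nhdsWithin 0 (Set.Ioi 0)) (nhds (b * l ^ 2 * ‖(⟨σ, t⟩ : ℂ) - 1‖)) := by
      have hc : Continuous (fun x : ℝ => b * l ^ 2 * ‖(⟨σ, t⟩ : ℂ) - ((1 + x : ℝ) : ℂ)‖) := by
        fun_prop
      have h3 := (hc.tendsto 0).mono_left (nhdsWithin_le_nhds (s := Set.Ioi (0:ℝ)))
      simpa only [add_zero, Complex.ofReal_one] using h3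
    refine le_of_tendsto_of_tendsto hL hR ?_
    filter_upwards [hev] with x hx
    set S : Set ℂ := {w | 1 < w.re} ∩ ({w | w.re ≤ 2} ∩ ({w | w.im ≤ |t|} ∩ {w | -|t| ≤ w.im}))
      with hSdef
    have hS : Convex ℝ S :=
      Convex.inter (convex_halfSpace_re_gt 1) (Convex.inter (convex_halfSpace_re_le 2)
        (Convex.inter (convex_halfSpace_im_le _) (convex_halfSpace_im_ge _)))
    refine swc_lip q χ S hS (fun w hw => hw.1) (b * l ^ 2)
      (fun w hw => hder w hw.1 hw.2.1 (abs_le.2 ⟨hw.2.2.2, hw.2.2.1⟩)) _ _ ?_ ?_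
    · refine ⟨?_, ?_, ?_, ?_⟩
      · show 1 < (((1 + x : ℝ) : ℂ)).re
        rw [Complex.ofReal_re]; linarith [hx.1]
      · show (((1 + x : ℝ) : ℂ)).re ≤ 2
        rw [Complex.ofReal_re]; linarith [hx.2]
      · show (((1 + x : ℝ) : ℂ)).im ≤ |t|
        rw [Complex.ofReal_im]; exact abs_nonneg t
      · show -|t| ≤ (((1 + x : ℝ) : ℂ)).im
        rw [Complex.ofReal_im]; linarith [abs_nonneg t]
    · exact ⟨hs1, hs2, le_abs_self t, neg_abs_le t⟩
  set L := ‖lam‖ with hLdef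
  have hL0 : 0 ≤ L := norm_nonneg _
  rcases hL0.eq_or_lt with hLz | hLpos
  · rw [← hLz]; simp
  set c := 1 / (2 * (32 * b ^ 3 * A ^ 3 * (3 * a) * b)) with hc
  set δ := L / (2 * b * l ^ 2) with hδ
  have hδ0 : 0 < δ := by positivity
  have hδ1 : δ ≤ 1 := by
    rw [hδ, div_le_one (by positivity)]
    calc L ≤ b * l := hlam_le
      _ ≤ b * l * (2 * l) := le_mul_of_one_le_right (by positivity) (by linarith)
      _ = 2 * b * l ^ 2 := by ring
  have hA3 : (1:ℝ) ≤ A ^ 3 := one_le_pow₀ hA1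
  have hb3 : (1:ℝ) ≤ b ^ 3 := one_le_pow₀ hb
  -- comparison of constants
  have hcc : c ≤ 1 / (4 * A * b) := by
    rw [hc]
    apply one_div_le_one_div_of_le (by positivity)
    have hA2 : A ≤ A ^ 3 := by nlinarith [mul_nonneg (sub_nonneg.2 hA1) (sub_nonneg.2 hA1)]
    calc 4 * A * b ≤ 4 * A ^ 3 * b := by gcongr
      _ = 4 * 1 * A ^ 3 * 1 * b := by ring
      _ ≤ 192 * b ^ 3 * A ^ 3 * a * b := by gcongr; norm_num
      _ = _ := by ring
  have hcc2 : 1 / (4 * A * b) ≤ 1 / 4 := by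
    apply one_div_le_one_div_of_le (by norm_num)
    nlinarith only [mul_le_mul hA1 hb (by norm_num) (by positivity)]
  have hc0 : 0 < c := by rw [hc]; positivity
  have hl9 : (1:ℝ) ≤ l ^ 9 := one_le_pow₀ hl
  rcases le_or_gt ‖(⟨σ, t⟩ : ℂ) - 1‖ δ with hcase | hcase
  · have h5 : b * l ^ 2 * ‖(⟨σ, t⟩ : ℂ) - 1‖ ≤ L / 2 := by
      calc b * l ^ 2 * ‖(⟨σ, t⟩ : ℂ) - 1‖ ≤ b * l ^ 2 * δ :=
            mul_le_mul_of_nonneg_left hcase (by positivity)
        _ = L / 2 := by rw [hδ]; field_simp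
    have h6 : L - ‖Lk q χ 0 ⟨σ, t⟩‖ ≤ ‖Lk q χ 0 ⟨σ, t⟩ - lam‖ := by
      rw [norm_sub_rev]; exact norm_sub_norm_le _ _
    have h7 : c * L / l ^ 9 ≤ L / 2 := by
      calc c * L / l ^ 9 ≤ c * L := div_le_self (by positivity) hl9
        _ ≤ (1 / 2) * L := mul_le_mul_of_nonneg_right (by linarith) hL0
        _ = L / 2 := by ring
    linarith
  · rcases le_or_gt (δ / 2) (σ - 1) with hcase2 | hcase2
    · -- Euler product
      have h5 := DirichletCharacter.LSeries.mul_mu_eq_one χ (s := ⟨σ, t⟩) hs1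
      have h6 : ‖LSeries ((fun n : ℕ => χ (n : ZMod q)) *
          fun n : ℕ => ((ArithmeticFunction.moebius n : ℤ) : ℂ)) ⟨σ, t⟩‖ ≤ A / (σ - 1) := by
        have := swc_norm_le ((fun n : ℕ => χ (n : ZMod q)) *
          fun n : ℕ => ((ArithmeticFunction.moebius n : ℤ) : ℂ)) (fun n => by
            rw [Pi.mul_apply, norm_mul]
            have e1 := DirichletCharacter.norm_le_one χ (n : ZMod q)
            have e2 : ‖((ArithmeticFunction.moebius n : ℤ) : ℂ)‖ ≤ 1 := by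
              rw [Complex.norm_intCast]
              have := ArithmeticFunction.abs_moebius_le_one (n := n)
              exact_mod_cast this
            calc _ ≤ (1:ℝ) * 1 := mul_le_mul e1 e2 (norm_nonneg _) (by norm_num)
              _ = 1 := by norm_num) ⟨σ, t⟩ hs1
        exact this.trans (hA σ hs1 hs2)
      rw [← swc_Lk0] at h5
      have h7 : 1 ≤ ‖Lk q χ 0 ⟨σ, t⟩‖ * (A / (σ - 1)) := by
        calc (1:ℝ) = ‖Lk q χ 0 ⟨σ, t⟩ * LSeries ((fun n : ℕ => χ (n : ZMod q)) *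
          fun n : ℕ => ((ArithmeticFunction.moebius n : ℤ) : ℂ)) ⟨σ, t⟩‖ := by rw [h5, norm_one]
          _ ≤ _ := by
            rw [norm_mul]
            exact mul_le_mul_of_nonneg_left h6 (norm_nonneg _)
      have h8 : (σ - 1) / A ≤ ‖Lk q χ 0 ⟨σ, t⟩‖ := by
        rw [div_le_iff₀ hA0]
        have h9 : (σ - 1) * 1 ≤ (σ - 1) * (‖Lk q χ 0 ⟨σ, t⟩‖ * (A / (σ - 1))) :=
          mul_le_mul_of_nonneg_left h7 (by linarith)
        have h10 : (σ - 1) * (‖Lk q χ 0 ⟨σ, t⟩‖ * (A / (σ - 1))) = ‖Lk q χ 0 ⟨σ, t⟩‖ * A := by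
          have : σ - 1 ≠ 0 := by linarith
          field_simp
        linarith
      refine le_trans ?_ h8
      have h9 : δ / 2 / A ≤ (σ - 1) / A := by gcongr
      refine le_trans ?_ h9
      have h10 : δ / 2 / A = 1 / (4 * A * b) * L / l ^ 2 := by rw [hδ]; field_simp; ring
      rw [h10]
      have h11 : c * L / l ^ 9 ≤ c * L / l ^ 2 :=
        div_le_div_of_nonneg_left (by positivity) (by positivity)
          (pow_le_pow_right₀ hl (by norm_num))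
      refine h11.trans ?_
      gcongr
    · -- 3-4-1
      have ht : δ / 2 ≤ |t| := by
        have h5 : ‖(⟨σ, t⟩ : ℂ) - 1‖ ≤ |((⟨σ, t⟩ : ℂ) - 1).re| + |((⟨σ, t⟩ : ℂ) - 1).im| :=
          Complex.norm_le_abs_re_add_abs_im _
        have h6 : ((⟨σ, t⟩ : ℂ) - 1).re = σ - 1 := by simp
        have h7 : ((⟨σ, t⟩ : ℂ) - 1).im = t := by simp
        rw [h6, h7, abs_of_pos (by linarith : 0 < σ - 1)] at h5
        linarith
      have key := swc_horizontal A hA1 hA q χ t (b * l ^ 2) (3 * a * l / δ) (by nlinarith only [hC0, hC1, hl2])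
        (by
          rw [le_div_iff₀ hδ0]
          nlinarith only [hC2, hl, hδ1])
        (fun σ' h1' h2' => hder ⟨σ', t⟩ h1' h2' le_rfl)
        (fun σ' h1' h2' => by
          rw [hχ2]
          have h5 := h2 q (by omega) ⟨σ', 2 * t⟩ h1' h2'
          refine h5.trans ?_
          have hd := swc_log_double (q : ℝ) hq1 t
          have h6 : δ ≤ ‖(⟨σ', 2 * t⟩ : ℂ) - 1‖ := by
            have h7 : |((⟨σ', 2 * t⟩ : ℂ) - 1).im| ≤ ‖(⟨σ', 2 * t⟩ : ℂ) - 1‖ :=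
              Complex.abs_im_le_norm _
            have h8 : ((⟨σ', 2 * t⟩ : ℂ) - 1).im = 2 * t := by simp
            rw [h8, abs_mul] at h7
            have : |(2:ℝ)| = 2 := by norm_num
            rw [this] at h7
            linarith
          have h7 : 1 / ‖(⟨σ', 2 * t⟩ : ℂ) - 1‖ ≤ 1 / δ := one_div_le_one_div_of_le hδ0 h6
          have h8 : 1 / δ ≤ l / δ := by gcongr
          have h9 : 2 * l ≤ 2 * l / δ := by
            rw [le_div_iff₀ hδ0]
            nlinarith only [hl, hδ1]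
          show C2 * (1 / ‖(⟨σ', 2 * t⟩ : ℂ) - 1‖ + Real.log (q * (|2 * t| + 2))) ≤ 3 * a * l / δ
          calc C2 * (1 / ‖(⟨σ', 2 * t⟩ : ℂ) - 1‖ + Real.log (q * (|2 * t| + 2)))
              ≤ C2 * (l / δ + 2 * l / δ) := mul_le_mul_of_nonneg_left (by linarith) hC2.le
            _ ≤ a * (l / δ + 2 * l / δ) :=
                mul_le_mul_of_nonneg_right (by simp only [a]; linarith) (by positivity)
            _ = 3 * a * l / δ := by ring)
        σ hs1 hs2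
      refine le_trans (le_of_eq ?_) key
      rw [hc, hδ]
      field_simp

theorem zeta_lower : ∃ c : ℝ, 0 < c ∧ ∀ s : ℂ, 1 < s.re → s.re ≤ 2 → 1 ≤ |s.im| →
      c / Real.log (|s.im| + 2) ^ 9 ≤ ‖Lk 1 1 0 s‖ := by
  obtain ⟨A, hA1, hA⟩ := swc_zeta
  obtain ⟨C0, hC0, h0⟩ := zeta_k_le 0
  obtain ⟨C1, hC1, h1⟩ := zeta_k_le 1
  set a := C0 + 1
  set b := C1 + 1
  have ha : 1 ≤ a := by simp only [a]; linarith
  have hb : 1 ≤ b := by simp only [b]; linarith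
  refine ⟨1 / (64 * b ^ 3 * A ^ 3 * a), by positivity, fun s hs1 hs2 hs3 => ?_⟩
  obtain ⟨σ, t⟩ := s
  simp only at hs1 hs2 hs3 ⊢
  have hl : 1 ≤ Real.log (|t| + 2) := by
    have : Real.log (Real.exp 1) ≤ Real.log (|t| + 2) :=
      Real.log_le_log (Real.exp_pos _) (by linarith [Real.exp_one_lt_d9])
    rwa [Real.log_exp] at this
  set l := Real.log (|t| + 2)
  have hl0 : 0 < l := by linarith
  have hl2 : 1 ≤ l ^ 2 := one_le_pow₀ hl
  have key := swc_horizontal A hA1 hA 1 1 t (b * l ^ 2) (2 * a * l) (by nlinarith) (by nlinarith)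
    (fun σ' h1' h2' => by
      have := h1 ⟨σ', t⟩ h1' h2' hs3
      refine this.trans ?_
      show C1 * l ^ 2 ≤ b * l ^ 2
      exact mul_le_mul_of_nonneg_right (by simp only [b]; linarith) (by positivity))
    (fun σ' h1' h2' => by
      have e : |2 * t| = 2 * |t| := by rw [abs_mul]; norm_num
      have := h0 ⟨σ', 2 * t⟩ h1' h2' (by show 1 ≤ |2 * t|; rw [e]; linarith)
      rw [one_pow]
      refine this.trans ?_
      have hd := swc_log_double (1 : ℝ) le_rfl t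
      simp only [one_mul] at hd
      simp only [zero_add, pow_one]
      calc C0 * Real.log (|2 * t| + 2) ≤ C0 * (2 * l) := mul_le_mul_of_nonneg_left hd hC0.le
        _ ≤ a * (2 * l) := mul_le_mul_of_nonneg_right (by simp only [a]; linarith) (by positivity)
        _ = 2 * a * l := by ring)
    σ hs1 hs2
  refine le_trans ?_ key
  have e : 1 / (32 * (b * l ^ 2) ^ 3 * A ^ 3 * (2 * a * l)) = 1 / (64 * b ^ 3 * A ^ 3 * a) / l ^ 7 := by
    field_simp; ring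
  rw [e]
  apply div_le_div_of_nonneg_left (by positivity) (by positivity)
  exact pow_le_pow_right₀ hl (by norm_num)

end Pool.Agent.H91.EHA

end
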