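import Pool.Agent.H71.TFC.M03
import Pool.Agent.H71.TFC.M05
import Pool.Agent.H71.TFC.M06

/-! The parts of this file: H91.EHA.SwD3, H91.EHA.SwE, H91.EHA.SwF, H91.EHA.SwF_1, H91.EHA.SwJ1, H91.EHA.SwI, H91.EHA.SwJ3, H91.EHA.SwK1, H71.NB.Win. -/

section

/-!
# Siegel's theorem

Fix `ε` (small; `ε ≤ 1/100`, and so small that `ζ(s) < 0` on `[1-ε,1)`, possible by the residue at 1).
Let `C` be the constant of `estermann`, `η = ε/(8C)`.
Case A: some real primitive `χ1 ≠ 1` mod `q1` has a real zero `β ∈ [1-η,1)` of `LFunction χ1`.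
Case B: none; take any real primitive `χ1 ≠ 1` (e.g. mod 4 or mod 3) and `β = 1-η`.
Let `χ` be real primitive `≠ 1` mod `q`, `χ ≠ χ1` (different modulus or different character; if it is `χ1` itself
adjust the constant, `LFunction χ1 1 ≠ 0` by Mathlib).  `N = q1 q`, lifts `χ1', χ'` to level `N`
(`DirichletCharacter.changeLevel`), `χ1' χ' ≠ 1` (primitive characters inducing the same character are equal:
compare conductors).  `LFunction_changeLevel`: `L(s,χ1') = L(s,χ1) ∏_{p|N}(1-χ1(p)p^{-s})`.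
At `s = β` the value `F(β) ≤ 0`: in case A it is `0`; in case B `L(β,χ0) < 0` (product of `ζ(β)<0` and positive
factors) and the other three are `≥ 0`: a real `L(s,ψ)` without zeros of its primitive character on `[β,1]`
is positive there (real valued, continuous, positive for `s>1`, nonzero at `1`).
So `λ ≥ c (1-β) N^{-C(1-β)}·... ≥ c' q^{-ε/4}`.  And `λ ≤ L(1,χ)·∏_{p|N}(1+1/p) · |L(1,χ1')||L(1,χ1'χ')|`,
`‖L(1,ψ)‖ ≤ C log N` for `ψ ≠ 1` mod `N` (limit of `Lk_le 0`), `∏_{p|N}(1+1/p) ≤ 1 + log N` type bound (or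
`≤ C N^{ε'}`).  Hence `L(1,χ) ≥ c'' q^{-ε}`.
-/

set_option autoImplicit false

namespace Pool.Agent.H91.EHA

open Finset

private theorem swd3_val {N : ℕ} (ψ : DirichletCharacter ℂ N) (h : ψ ^ 2 = 1) (a : ZMod N) :
    (starRingEnd ℂ) (ψ a) = ψ a := by
  by_cases ha : IsUnit a
  · have h1 : (ψ a) ^ 2 = 1 := by
      have h2 := congrArg (fun f : DirichletCharacter ℂ N => f a) h
      rw [MulChar.pow_apply' _ two_ne_zero, MulChar.one_apply ha] at h2
      exact h2
    have h2 : (ψ a - 1) * (ψ a + 1) = 0 := by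
      have : (ψ a - 1) * (ψ a + 1) = ψ a ^ 2 - 1 := by ring
      rw [this, h1, sub_self]
    rcases mul_eq_zero.mp h2 with h3 | h3
    · rw [sub_eq_zero.mp h3, map_one]
    · rw [eq_neg_of_add_eq_zero_left h3, map_neg, map_one]
  · rw [MulChar.map_nonunit _ ha, map_zero]

private theorem swd3_conj_series {N : ℕ} (ψ : DirichletCharacter ℂ N) (h : ψ ^ 2 = 1) (s : ℂ) :
    (starRingEnd ℂ) (LSeries (fun n => ψ n) ((starRingEnd ℂ) s)) = LSeries (fun n => ψ n) s := by
  unfold LSeries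
  rw [Complex.conj_tsum]
  apply tsum_congr
  intro n
  by_cases hn : n = 0
  · subst hn
    simp [LSeries.term_zero]
  · rw [LSeries.term_of_ne_zero hn, LSeries.term_of_ne_zero hn, map_div₀, swd3_val ψ h]
    congr 1
    have h1 : ((n : ℂ)).arg ≠ Real.pi := by
      rw [Complex.natCast_arg]
      exact Real.pi_pos.ne
    rw [← Complex.conj_cpow _ _ h1, Complex.conj_natCast]

private theorem swd3_conj {N : ℕ} [NeZero N] (ψ : DirichletCharacter ℂ N) (h : ψ ^ 2 = 1)
    (h1 : ψ ≠ 1) (s : ℂ) :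
    (starRingEnd ℂ) (DirichletCharacter.LFunction ψ ((starRingEnd ℂ) s)) =
      DirichletCharacter.LFunction ψ s := by
  have hd : Differentiable ℂ (DirichletCharacter.LFunction ψ) :=
    DirichletCharacter.differentiable_LFunction h1
  have hd2 : Differentiable ℂ
      ((starRingEnd ℂ) ∘ DirichletCharacter.LFunction ψ ∘ (starRingEnd ℂ)) := by
    intro z
    rw [differentiableAt_conj_conj_iff]
    exact hd _
  have hA : AnalyticOnNhd ℂ (DirichletCharacter.LFunction ψ) Set.univ :=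
    fun z _ => hd.analyticAt z
  have hB : AnalyticOnNhd ℂ
      ((starRingEnd ℂ) ∘ DirichletCharacter.LFunction ψ ∘ (starRingEnd ℂ)) Set.univ :=
    fun z _ => hd2.analyticAt z
  have hev : ((starRingEnd ℂ) ∘ DirichletCharacter.LFunction ψ ∘ (starRingEnd ℂ)) =ᶠ[nhds 2]
      DirichletCharacter.LFunction ψ := by
    have hopen : {z : ℂ | 1 < z.re} ∈ nhds (2 : ℂ) := by
      apply (isOpen_lt continuous_const Complex.continuous_re).mem_nhds
      simp
    filter_upwards [hopen] with z hz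
    have hz1 : 1 < z.re := hz
    have hz' : 1 < ((starRingEnd ℂ) z).re := by rw [Complex.conj_re]; exact hz1
    simp only [Function.comp_apply]
    rw [DirichletCharacter.LFunction_eq_LSeries ψ hz', DirichletCharacter.LFunction_eq_LSeries ψ hz1]
    exact swd3_conj_series ψ h z
  have := hB.eq_of_eventuallyEq hA hev
  exact congrFun this s

private theorem swd3_im {N : ℕ} [NeZero N] (ψ : DirichletCharacter ℂ N) (h : ψ ^ 2 = 1)
    (h1 : ψ ≠ 1) (x : ℝ) : (DirichletCharacter.LFunction ψ (x : ℂ)).im = 0 := by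
  have h2 := swd3_conj ψ h h1 (x : ℂ)
  rw [Complex.conj_ofReal] at h2
  have h3 := congrArg Complex.im h2
  rw [Complex.conj_im] at h3
  linarith

private theorem swd3_two {N : ℕ} [NeZero N] (ψ : DirichletCharacter ℂ N) :
    0 < (DirichletCharacter.LFunction ψ 2).re := by
  have hre : 1 < (2 : ℂ).re := by simp
  rw [DirichletCharacter.LFunction_eq_LSeries ψ hre]
  have hsum : HasSum (LSeries.term (fun n => ψ n) 2) (LSeries (fun n => ψ n) 2) :=
    (DirichletCharacter.LSeriesSummable_of_one_lt_re ψ hre).hasSum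
  have h1 : HasSum (fun k : ℕ => if k = 1 then (1 : ℂ) else 0) 1 := hasSum_ite_eq 1 1
  have h2 := hsum.sub h1
  have h3 : HasSum (fun k : ℕ => 1 / (k : ℝ) ^ 2 - if k = 1 then (1 : ℝ) else 0)
      (Real.pi ^ 2 / 6 - 1) := hasSum_zeta_two.sub (hasSum_ite_eq 1 1)
  have h4 : ∀ k : ℕ, ‖LSeries.term (fun n => ψ n) 2 k - (if k = 1 then (1 : ℂ) else 0)‖ ≤
      1 / (k : ℝ) ^ 2 - if k = 1 then (1 : ℝ) else 0 := by
    intro k
    by_cases hk0 : k = 0
    · subst hk0
      simp [LSeries.term_zero]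
    · by_cases hk1 : k = 1
      · subst hk1
        rw [LSeries.term_of_ne_zero one_ne_zero]
        simp
      · rw [if_neg hk1, if_neg hk1, sub_zero, sub_zero, LSeries.term_of_ne_zero hk0, norm_div,
          Complex.norm_natCast_cpow_of_pos (Nat.pos_of_ne_zero hk0)]
        have hk : (0 : ℝ) < (k : ℝ) := by exact_mod_cast Nat.pos_of_ne_zero hk0
        have e : (k : ℝ) ^ ((2 : ℂ).re) = (k : ℝ) ^ 2 := by
          have : ((2 : ℂ).re) = ((2 : ℕ) : ℝ) := by simp
          rw [this, Real.rpow_natCast]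
        rw [e]
        exact div_le_div_of_nonneg_right (ψ.norm_le_one _) (by positivity)
  have h5 := h2.norm_le_of_bounded h3 h4
  have h6 : |(LSeries (fun n => ψ n) 2 - 1).re| ≤ Real.pi ^ 2 / 6 - 1 :=
    (Complex.abs_re_le_norm _).trans h5
  have h7 := (abs_le.mp h6).1
  rw [Complex.sub_re, Complex.one_re] at h7
  have h8 : Real.pi ^ 2 < 12 := by
    have := Real.pi_lt_d2
    have := Real.pi_pos
    nlinarith
  linarith

private theorem swd3_pos {N : ℕ} [NeZero N] (ψ : DirichletCharacter ℂ N) (h : ψ ^ 2 = 1)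
    (h1 : ψ ≠ 1) (β : ℝ) (hβ : β < 1)
    (hz : ∀ x : ℝ, β ≤ x → x < 1 → DirichletCharacter.LFunction ψ (x : ℂ) ≠ 0) :
    0 < (DirichletCharacter.LFunction ψ (β : ℂ)).re := by
  by_contra hcon
  push Not at hcon
  have hcont : Continuous (fun x : ℝ => (DirichletCharacter.LFunction ψ (x : ℂ)).re) :=
    Complex.continuous_re.comp
      ((DirichletCharacter.differentiable_LFunction h1).continuous.comp Complex.continuous_ofReal)
  have h2 : 0 < (DirichletCharacter.LFunction ψ ((2 : ℝ) : ℂ)).re := by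
    have := swd3_two ψ
    simpa using this
  have hmem : (0 : ℝ) ∈ Set.Icc ((DirichletCharacter.LFunction ψ (β : ℂ)).re)
      ((DirichletCharacter.LFunction ψ ((2 : ℝ) : ℂ)).re) := ⟨hcon, h2.le⟩
  obtain ⟨x, hx, hx0⟩ := intermediate_value_Icc (by linarith : β ≤ 2) hcont.continuousOn hmem
  have hx00 : DirichletCharacter.LFunction ψ (x : ℂ) = 0 := by
    apply Complex.ext
    · exact hx0
    · rw [swd3_im ψ h h1]
      simp
  by_cases hx1 : x < 1
  · exact hz x hx.1 hx1 hx00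
  · push Not at hx1
    exact DirichletCharacter.LFunction_ne_zero_of_one_le_re ψ (Or.inl h1)
      (by simpa using hx1) hx00

private theorem swd3_upper : ∃ C : ℝ, 0 < C ∧ ∀ (N : ℕ) [NeZero N] (ψ : DirichletCharacter ℂ N),
    ψ ≠ 1 → ‖DirichletCharacter.LFunction ψ 1‖ ≤ C * Real.log (2 * N) := by
  obtain ⟨C, hC, hL⟩ := Lk_le 0
  refine ⟨C, hC, ?_⟩
  intro N _ ψ hψ
  have hN2 : 2 ≤ N := by
    rcases Nat.lt_or_ge N 2 with h | h
    · exfalso
      have hN0 : N ≠ 0 := NeZero.ne N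
      have hN1 : N = 1 := by omega
      exact hψ (DirichletCharacter.level_one' ψ hN1)
    · exact h
  have hcont : Continuous (fun x : ℝ => ‖DirichletCharacter.LFunction ψ (x : ℂ)‖) :=
    ((DirichletCharacter.differentiable_LFunction hψ).continuous.comp
      Complex.continuous_ofReal).norm
  have ht : Filter.Tendsto (fun x : ℝ => ‖DirichletCharacter.LFunction ψ (x : ℂ)‖)
      (nhdsWithin 1 (Set.Ioi 1)) (nhds ‖DirichletCharacter.LFunction ψ ((1 : ℝ) : ℂ)‖) :=
    (hcont.tendsto 1).mono_left nhdsWithin_le_nhds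
  rw [Complex.ofReal_one] at ht
  apply le_of_tendsto ht
  have hev : ∀ᶠ x : ℝ in nhdsWithin 1 (Set.Ioi 1), x < 2 := by
    apply Filter.Eventually.filter_mono nhdsWithin_le_nhds
    exact (isOpen_Iio (a := (2 : ℝ))).mem_nhds (by norm_num)
  filter_upwards [hev, self_mem_nhdsWithin] with x hx2 hx1
  have hx1' : (1 : ℝ) < x := hx1
  have hre : 1 < ((x : ℝ) : ℂ).re := by simpa using hx1'
  have h1 := hL N hN2 ψ hψ (x : ℂ) hre (by simpa using hx2.le)
  rw [Lk_zero_eq N ψ _ hre] at h1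
  simp only [Complex.ofReal_im, abs_zero, zero_add, pow_one] at h1
  rw [mul_comm (2 : ℝ)]
  exact h1

private theorem swd3_prod (N : ℕ) (hN : 1 ≤ N) :
    ∏ p ∈ N.primeFactors, (1 + 1 / (p : ℝ)) ≤ 1 + Real.log N := by
  rw [Finset.prod_one_add]
  have hprime : ∀ t ∈ N.primeFactors.powerset, ∀ p ∈ t, p.Prime := by
    intro t ht p hp
    exact Nat.prime_of_mem_primeFactors (Finset.mem_powerset.mp ht hp)
  have e1 : ∀ t ∈ N.primeFactors.powerset, ∏ p ∈ t, 1 / (p : ℝ) =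
      1 / ((∏ p ∈ t, p : ℕ) : ℝ) := by
    intro t _
    rw [Finset.prod_div_distrib, Finset.prod_const_one, Nat.cast_prod]
  rw [Finset.sum_congr rfl e1]
  have hinj : ∀ t ∈ N.primeFactors.powerset, ∀ t' ∈ N.primeFactors.powerset,
      (∏ p ∈ t, p : ℕ) = ∏ p ∈ t', p → t = t' := by
    intro t ht t' ht' he
    rw [← Nat.primeFactors_prod (hprime t ht), ← Nat.primeFactors_prod (hprime t' ht'), he]
  have e2 : ∑ t ∈ N.primeFactors.powerset, 1 / ((∏ p ∈ t, p : ℕ) : ℝ) =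
      ∑ d ∈ N.primeFactors.powerset.image (fun t => ∏ p ∈ t, p), 1 / (d : ℝ) := by
    rw [Finset.sum_image]
    intro t ht t' ht' he
    exact hinj t ht t' ht' he
  rw [e2]
  have hsub : N.primeFactors.powerset.image (fun t => ∏ p ∈ t, p) ⊆ Finset.Icc 1 N := by
    intro d hd
    rw [Finset.mem_image] at hd
    obtain ⟨t, ht, rfl⟩ := hd
    rw [Finset.mem_Icc]
    constructor
    · exact Finset.prod_pos fun p hp => (hprime t ht p hp).pos
    · have h1 : (∏ p ∈ t, p) ∣ ∏ p ∈ N.primeFactors, p :=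
        Finset.prod_dvd_prod_of_subset _ _ _ (Finset.mem_powerset.mp ht)
      exact Nat.le_of_dvd (by omega) (h1.trans (Nat.prod_primeFactors_dvd N))
  have h2 : ∑ d ∈ N.primeFactors.powerset.image (fun t => ∏ p ∈ t, p), 1 / (d : ℝ) ≤
      ∑ d ∈ Finset.Icc 1 N, 1 / (d : ℝ) :=
    Finset.sum_le_sum_of_subset_of_nonneg hsub fun _ _ _ => by positivity
  refine h2.trans ?_
  have h3 := harmonic_le_one_add_log N
  rw [harmonic_eq_sum_Icc] at h3
  push_cast at h3
  simpa [one_div] using h3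

private theorem swd3_zeta : ∃ η : ℝ, 0 < η ∧ ∀ β : ℝ, 1 - η ≤ β → β < 1 →
    (riemannZeta (β : ℂ)).re < 0 := by
  have h := riemannZeta_residue_one
  have hopen : {z : ℂ | 0 < z.re} ∈ nhds (1 : ℂ) := by
    apply (isOpen_lt continuous_const Complex.continuous_re).mem_nhds
    simp
  have hev := h.eventually hopen
  rw [eventually_nhdsWithin_iff, Metric.eventually_nhds_iff] at hev
  obtain ⟨δ, hδ, hb⟩ := hev
  refine ⟨δ / 2, by positivity, ?_⟩
  intro β hβ1 hβ2
  have hne : (β : ℂ) ≠ 1 := by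
    intro h
    have h2 : ((β : ℝ) : ℂ) = ((1 : ℝ) : ℂ) := by rw [h, Complex.ofReal_one]
    have h3 := Complex.ofReal_injective h2
    linarith
  have hdist : dist (β : ℂ) 1 < δ := by
    rw [Complex.dist_eq, ← Complex.ofReal_one, ← Complex.ofReal_sub, Complex.norm_real,
      Real.norm_eq_abs, abs_lt]
    constructor <;> linarith
  have h4 := hb hdist hne
  have h5 : (((β : ℂ) - 1) * riemannZeta (β : ℂ)).re = (β - 1) * (riemannZeta (β : ℂ)).re := by
    rw [← Complex.ofReal_one, ← Complex.ofReal_sub, Complex.re_ofReal_mul]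
  have h6 : 0 < (β - 1) * (riemannZeta (β : ℂ)).re := by
    rw [← h5]
    exact h4
  by_contra h7
  push Not at h7
  nlinarith

private theorem swd3_factor {N M : ℕ} (χ : DirichletCharacter ℂ M) (p : ℕ)
    (hp : p ∈ N.primeFactors) (β : ℝ) (hβ : 0 < β) :
    (1 - χ (p : ZMod M) * (p : ℂ) ^ (-(β : ℂ))) ≠ 0 := by
  have hpp := Nat.prime_of_mem_primeFactors hp
  intro h
  have h1 : ‖χ (p : ZMod M) * (p : ℂ) ^ (-(β : ℂ))‖ = 1 := by
    rw [← sub_eq_zero.mp h, norm_one]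
  rw [norm_mul, Complex.norm_natCast_cpow_of_pos hpp.pos] at h1
  have h2 : ((-(β : ℂ))).re = -β := by simp
  rw [h2] at h1
  have h3 : (p : ℝ) ^ (-β) < 1 :=
    Real.rpow_lt_one_of_one_lt_of_neg (by exact_mod_cast hpp.one_lt) (by linarith)
  have h4 : ‖χ (p : ZMod M)‖ ≤ 1 := χ.norm_le_one _
  have h5 : 0 ≤ (p : ℝ) ^ (-β) := by positivity
  nlinarith [norm_nonneg (χ (p : ZMod M))]

/-- the imprimitive characters have no zeros either -/
private theorem swd3_nz (η : ℝ) (hη : η ≤ 1 / 8)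
    (hB : ∀ (q : ℕ) [NeZero q] (χ : DirichletCharacter ℂ q), χ.IsPrimitive → χ ^ 2 = 1 → χ ≠ 1 →
      ∀ x : ℝ, 1 - η ≤ x → x < 1 → DirichletCharacter.LFunction χ (x : ℂ) ≠ 0)
    {N : ℕ} [NeZero N] (ψ : DirichletCharacter ℂ N) (h : ψ ^ 2 = 1) (h1 : ψ ≠ 1) (x : ℝ)
    (hx : 1 - η ≤ x) (hx1 : x < 1) : DirichletCharacter.LFunction ψ (x : ℂ) ≠ 0 := by
  have : NeZero ψ.conductor := ⟨ψ.conductor_ne_zero⟩
  have e : DirichletCharacter.changeLevel ψ.conductor_dvd_level ψ.primitiveCharacter = ψ :=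
    ψ.changeLevel_primitiveCharacter
  have hne : ψ.primitiveCharacter ≠ 1 := by
    intro h2
    apply h1
    rw [← e, h2, map_one]
  have hsq : ψ.primitiveCharacter ^ 2 = 1 := by
    apply DirichletCharacter.changeLevel_injective ψ.conductor_dvd_level
    rw [map_pow, e, h, map_one]
  rw [← e, DirichletCharacter.LFunction_changeLevel ψ.conductor_dvd_level _ (Or.inl hne)]
  apply mul_ne_zero
  · exact hB _ _ ψ.primitiveCharacter_isPrimitive hsq hne x hx hx1
  · rw [Finset.prod_ne_zero_iff]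
    intro p hp
    exact swd3_factor _ p hp x (by linarith)

/-- two primitive real characters with trivial product (at a common level) are equal -/
private theorem swd3_eq {q1 q : ℕ} [NeZero q1] [NeZero q] (χ1 : DirichletCharacter ℂ q1)
    (χ : DirichletCharacter ℂ q) (hp1 : χ1.IsPrimitive) (hp : χ.IsPrimitive) (h2 : χ ^ 2 = 1)
    (h : DirichletCharacter.changeLevel (Nat.dvd_mul_right q1 q) χ1 *
      DirichletCharacter.changeLevel (Nat.dvd_mul_left q q1) χ = 1) :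
    ∃ e : q = q1, e ▸ χ = χ1 := by
  have : NeZero (q1 * q) := ⟨Nat.mul_ne_zero (NeZero.ne q1) (NeZero.ne q)⟩
  have h3 : DirichletCharacter.changeLevel (Nat.dvd_mul_left q q1) χ *
      DirichletCharacter.changeLevel (Nat.dvd_mul_left q q1) χ = 1 := by
    rw [← map_mul, ← pow_two, h2, map_one]
  have h4 : DirichletCharacter.changeLevel (Nat.dvd_mul_right q1 q) χ1 =
      DirichletCharacter.changeLevel (Nat.dvd_mul_left q q1) χ := by
    calc DirichletCharacter.changeLevel (Nat.dvd_mul_right q1 q) χ1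
        = DirichletCharacter.changeLevel (Nat.dvd_mul_right q1 q) χ1 *
          (DirichletCharacter.changeLevel (Nat.dvd_mul_left q q1) χ *
            DirichletCharacter.changeLevel (Nat.dvd_mul_left q q1) χ) := by rw [h3, mul_one]
      _ = DirichletCharacter.changeLevel (Nat.dvd_mul_left q q1) χ := by
          rw [← mul_assoc, h, one_mul]
  have h5 : q = q1 := by
    have e1 := DirichletCharacter.conductor_changeLevel χ1 (Nat.dvd_mul_right q1 q)
    have e2 := DirichletCharacter.conductor_changeLevel χ (Nat.dvd_mul_left q q1)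
    rw [h4, e2] at e1
    rw [DirichletCharacter.isPrimitive_def] at hp1 hp
    rw [hp1, hp] at e1
    exact e1
  subst h5
  refine ⟨rfl, ?_⟩
  exact (DirichletCharacter.changeLevel_injective (Nat.dvd_mul_right q q) h4).symm

private theorem swd3_triv {N : ℕ} [NeZero N] (β : ℝ) (hβ : 0 < β) (hβ1 : β < 1)
    (hζ : (riemannZeta (β : ℂ)).re < 0) :
    (DirichletCharacter.LFunction (1 : DirichletCharacter ℂ N) (β : ℂ)).re ≤ 0 := by
  have hne : (β : ℂ) ≠ 1 := by
    intro h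
    have h2 : ((β : ℝ) : ℂ) = ((1 : ℝ) : ℂ) := by rw [h, Complex.ofReal_one]
    have h3 := Complex.ofReal_injective h2
    linarith
  have h1 := DirichletCharacter.LFunctionTrivChar_eq_mul_riemannZeta (N := N) hne
  have h2 : (∏ p ∈ N.primeFactors, (1 - (p : ℂ) ^ (-(β : ℂ)))) =
      ((∏ p ∈ N.primeFactors, (1 - (p : ℝ) ^ (-β)) : ℝ) : ℂ) := by
    rw [Complex.ofReal_prod]
    apply Finset.prod_congr rfl
    intro p _
    rw [Complex.ofReal_sub, Complex.ofReal_one, Complex.ofReal_cpow (Nat.cast_nonneg p),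
      Complex.ofReal_neg, Complex.ofReal_natCast]
  have h3 : 0 ≤ ∏ p ∈ N.primeFactors, (1 - (p : ℝ) ^ (-β)) := by
    apply Finset.prod_nonneg
    intro p hp
    have hpp := Nat.prime_of_mem_primeFactors hp
    have h3 : (p : ℝ) ^ (-β) < 1 :=
      Real.rpow_lt_one_of_one_lt_of_neg (by exact_mod_cast hpp.one_lt) (by linarith)
    linarith
  rw [h2] at h1
  have h4 : (DirichletCharacter.LFunction (1 : DirichletCharacter ℂ N) (β : ℂ)).re =
      (∏ p ∈ N.primeFactors, (1 - (p : ℝ) ^ (-β))) * (riemannZeta (β : ℂ)).re := by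
    rw [← Complex.re_ofReal_mul, ← h1]
  rw [h4]
  exact mul_nonpos_of_nonneg_of_nonpos h3 hζ.le

private theorem swd3_caseB (η : ℝ) (hη : η ≤ 1 / 8)
    (hB : ∀ (q : ℕ) [NeZero q] (χ : DirichletCharacter ℂ q), χ.IsPrimitive → χ ^ 2 = 1 → χ ≠ 1 →
      ∀ x : ℝ, 1 - η ≤ x → x < 1 → DirichletCharacter.LFunction χ (x : ℂ) ≠ 0)
    {N : ℕ} [NeZero N] (ψ1 ψ2 : DirichletCharacter ℂ N) (h1 : ψ1 ^ 2 = 1) (h2 : ψ2 ^ 2 = 1)
    (n1 : ψ1 ≠ 1) (n2 : ψ2 ≠ 1) (n3 : ψ1 * ψ2 ≠ 1) (β : ℝ) (hβ : 1 - η ≤ β) (hβ1 : β < 1)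
    (hζ : (riemannZeta (β : ℂ)).re < 0) :
    (DirichletCharacter.LFunction (1 : DirichletCharacter ℂ N) β *
          DirichletCharacter.LFunction ψ1 β * DirichletCharacter.LFunction ψ2 β *
          DirichletCharacter.LFunction (ψ1 * ψ2) β).re ≤ 0 := by
  have h3 : (ψ1 * ψ2) ^ 2 = 1 := by rw [mul_pow, h1, h2, mul_one]
  have key : ∀ ψ : DirichletCharacter ℂ N, ψ ^ 2 = 1 → ψ ≠ 1 →
      ∃ r : ℝ, 0 ≤ r ∧ DirichletCharacter.LFunction ψ (β : ℂ) = (r : ℂ) := by
    intro ψ h n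
    refine ⟨(DirichletCharacter.LFunction ψ (β : ℂ)).re, ?_, ?_⟩
    · apply le_of_lt
      apply swd3_pos ψ h n β hβ1
      intro x hx hx1
      exact swd3_nz η hη hB ψ h n x (by linarith) hx1
    · apply Complex.ext
      · simp
      · rw [swd3_im ψ h n]
        simp
  obtain ⟨r1, hr1, e1⟩ := key ψ1 h1 n1
  obtain ⟨r2, hr2, e2⟩ := key ψ2 h2 n2
  obtain ⟨r3, hr3, e3⟩ := key (ψ1 * ψ2) h3 n3
  rw [e1, e2, e3]
  have h4 := swd3_triv (N := N) β (by linarith) hβ1 hζ
  have h5 : (DirichletCharacter.LFunction (1 : DirichletCharacter ℂ N) (β : ℂ) * (r1 : ℂ) *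
      (r2 : ℂ) * (r3 : ℂ)).re =
      (DirichletCharacter.LFunction (1 : DirichletCharacter ℂ N) (β : ℂ)).re * (r1 * r2 * r3) := by
    have : DirichletCharacter.LFunction (1 : DirichletCharacter ℂ N) (β : ℂ) * (r1 : ℂ) *
      (r2 : ℂ) * (r3 : ℂ) = ((r1 * r2 * r3 : ℝ) : ℂ) *
      DirichletCharacter.LFunction (1 : DirichletCharacter ℂ N) (β : ℂ) := by
      push_cast
      ring
    rw [this, Complex.re_ofReal_mul]
    ring
  rw [h5]
  exact mul_nonpos_of_nonpos_of_nonneg h4 (by positivity)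

private theorem swd3_level {q N : ℕ} [NeZero q] [NeZero N] (hd : q ∣ N)
    (χ : DirichletCharacter ℂ q) (n : χ ≠ 1) :
    ‖DirichletCharacter.LFunction (DirichletCharacter.changeLevel hd χ) 1‖ ≤
      ‖DirichletCharacter.LFunction χ 1‖ * (1 + Real.log N) := by
  rw [DirichletCharacter.LFunction_changeLevel hd _ (Or.inl n), norm_mul]
  apply mul_le_mul_of_nonneg_left _ (norm_nonneg _)
  refine le_trans ?_ (swd3_prod N (Nat.one_le_iff_ne_zero.mpr (NeZero.ne N)))
  rw [norm_prod]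
  apply Finset.prod_le_prod
  · intro p _
    exact norm_nonneg _
  · intro p hp
    have hpp := Nat.prime_of_mem_primeFactors hp
    refine (norm_sub_le _ _).trans ?_
    rw [norm_one, norm_mul, Complex.norm_natCast_cpow_of_pos hpp.pos]
    have h2 : ((-(1 : ℂ))).re = -1 := by simp
    rw [h2, Real.rpow_neg_one, one_div]
    have h4 : ‖χ (p : ZMod q)‖ ≤ 1 := χ.norm_le_one _
    have h5 : 0 ≤ ((p : ℝ))⁻¹ := by positivity
    have h6 := mul_le_mul_of_nonneg_right h4 h5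
    linarith

private theorem swd3_core (C C2 : ℝ) (hC : 1 ≤ C) (hC2 : 0 < C2)
    (hE : ∀ (N : ℕ) [NeZero N] (χ1 χ2 : DirichletCharacter ℂ N),
    χ1 ^ 2 = 1 → χ2 ^ 2 = 1 → χ1 ≠ 1 → χ2 ≠ 1 → χ1 * χ2 ≠ 1 → ∀ s : ℝ, 7 / 8 < s → s < 1 →
    1 / 2 - C * (N : ℝ) ^ (C * (1 - s)) / (1 - s) * (((N.totient : ℝ) / N) *
        (DirichletCharacter.LFunction χ1 1 * DirichletCharacter.LFunction χ2 1 *
          DirichletCharacter.LFunction (χ1 * χ2) 1).re)
      ≤ (DirichletCharacter.LFunction (1 : DirichletCharacter ℂ N) s *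
          DirichletCharacter.LFunction χ1 s * DirichletCharacter.LFunction χ2 s *
          DirichletCharacter.LFunction (χ1 * χ2) s).re)
    (hU : ∀ (N : ℕ) [NeZero N] (ψ : DirichletCharacter ℂ N),
      ψ ≠ 1 → ‖DirichletCharacter.LFunction ψ 1‖ ≤ C2 * Real.log (2 * N))
    (ε : ℝ) (hε : 0 < ε) (hε1 : ε ≤ 1) (β : ℝ) (hβ : 7 / 8 < β) (hβ1 : β < 1)
    (hβε : C * (1 - β) ≤ ε / 8) (q1 : ℕ) [NeZero q1] (χ1 : DirichletCharacter ℂ q1)
    (h1 : χ1 ^ 2 = 1) (n1 : χ1 ≠ 1) :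
    ∃ c : ℝ, 0 < c ∧ ∀ (q N : ℕ) [NeZero q] [NeZero N] (_hN : N = q1 * q) (hd1 : q1 ∣ N)
      (hd : q ∣ N) (χ : DirichletCharacter ℂ q),
      χ ^ 2 = 1 → χ ≠ 1 →
      DirichletCharacter.changeLevel hd1 χ1 * DirichletCharacter.changeLevel hd χ ≠ 1 →
      (DirichletCharacter.LFunction (1 : DirichletCharacter ℂ N) β *
          DirichletCharacter.LFunction (DirichletCharacter.changeLevel hd1 χ1) β *
          DirichletCharacter.LFunction (DirichletCharacter.changeLevel hd χ) β *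
          DirichletCharacter.LFunction (DirichletCharacter.changeLevel hd1 χ1 *
            DirichletCharacter.changeLevel hd χ) β).re ≤ 0 →
      c * (q : ℝ) ^ (-ε) ≤ ‖DirichletCharacter.LFunction χ 1‖ := by
  set δ : ℝ := ε / 24 with hδ
  have hδ0 : 0 < δ := by positivity
  set K : ℝ := C * (C2 * (2 / δ)) ^ 2 * (1 + 1 / δ) with hK
  have hC0 : 0 < C := by linarith
  have hK0 : 0 < K := by positivity
  have hq1 : (0 : ℝ) < q1 := by
    have : 0 < q1 := Nat.pos_of_ne_zero (NeZero.ne q1)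
    exact_mod_cast this
  have ha : 0 < 1 - β := by linarith
  refine ⟨(1 - β) / (2 * K * (q1 : ℝ) ^ ε), by positivity, ?_⟩
  intro q N _ _ hN hd1 hd χ h2 n2 n3 hF
  have hq : (0 : ℝ) < q := by
    have : 0 < q := Nat.pos_of_ne_zero (NeZero.ne q)
    exact_mod_cast this
  set ψ1 := DirichletCharacter.changeLevel hd1 χ1 with hψ1
  set ψ2 := DirichletCharacter.changeLevel hd χ with hψ2
  have m1 : ψ1 ≠ 1 := fun h => n1 ((DirichletCharacter.changeLevel_eq_one_iff _).mp h)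
  have m2 : ψ2 ≠ 1 := fun h => n2 ((DirichletCharacter.changeLevel_eq_one_iff _).mp h)
  have s1 : ψ1 ^ 2 = 1 := by rw [hψ1, ← map_pow, h1, map_one]
  have s2 : ψ2 ^ 2 = 1 := by rw [hψ2, ← map_pow, h2, map_one]
  have hest := hE N ψ1 ψ2 s1 s2 m1 m2 n3 β hβ hβ1
  set X := ‖DirichletCharacter.LFunction χ 1‖ with hX
  have hX0 : 0 ≤ X := norm_nonneg _
  have hNR : (0 : ℝ) < N := by rw [hN]; push_cast; positivity
  have hN1 : (1 : ℝ) ≤ N := by
    have : 1 ≤ N := Nat.one_le_iff_ne_zero.mpr (NeZero.ne N)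
    exact_mod_cast this
  set lam : ℝ := ((N.totient : ℝ) / N) *
        (DirichletCharacter.LFunction ψ1 1 * DirichletCharacter.LFunction ψ2 1 *
          DirichletCharacter.LFunction (ψ1 * ψ2) 1).re with hlam
  have hlog2 : Real.log (2 * N) ≤ (2 / δ) * (N : ℝ) ^ δ := by
    have e1 := Real.log_le_rpow_div (x := 2 * (N : ℝ)) (by positivity) hδ0
    have e2 : (2 * (N : ℝ)) ^ δ = 2 ^ δ * (N : ℝ) ^ δ :=
      Real.mul_rpow (by norm_num) hNR.le
    have e3 : (2 : ℝ) ^ δ ≤ 2 := by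
      calc (2 : ℝ) ^ δ ≤ 2 ^ (1 : ℝ) :=
            Real.rpow_le_rpow_of_exponent_le (by norm_num) (by rw [hδ]; linarith)
        _ = 2 := Real.rpow_one 2
    refine e1.trans ?_
    rw [e2, div_mul_eq_mul_div]
    apply div_le_div_of_nonneg_right _ hδ0.le
    exact mul_le_mul_of_nonneg_right e3 (by positivity)
  have hlog1 : 1 + Real.log N ≤ (1 + 1 / δ) * (N : ℝ) ^ δ := by
    have e1 := Real.log_le_rpow_div (x := (N : ℝ)) hNR.le hδ0
    have e2 : (1 : ℝ) ≤ (N : ℝ) ^ δ := Real.one_le_rpow hN1 hδ0.le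
    have e3 : (1 + 1 / δ) * (N : ℝ) ^ δ = (N : ℝ) ^ δ + (N : ℝ) ^ δ / δ := by ring
    rw [e3]
    linarith
  have hlam1 : lam ≤ (C2 * ((2 / δ) * (N : ℝ) ^ δ)) * (X * ((1 + 1 / δ) * (N : ℝ) ^ δ)) *
      (C2 * ((2 / δ) * (N : ℝ) ^ δ)) := by
    have u1 : ‖DirichletCharacter.LFunction ψ1 1‖ ≤ C2 * ((2 / δ) * (N : ℝ) ^ δ) :=
      (hU N ψ1 m1).trans (mul_le_mul_of_nonneg_left hlog2 hC2.le)
    have u3 : ‖DirichletCharacter.LFunction (ψ1 * ψ2) 1‖ ≤ C2 * ((2 / δ) * (N : ℝ) ^ δ) :=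
      (hU N _ n3).trans (mul_le_mul_of_nonneg_left hlog2 hC2.le)
    have u2 : ‖DirichletCharacter.LFunction ψ2 1‖ ≤ X * ((1 + 1 / δ) * (N : ℝ) ^ δ) :=
      (swd3_level hd χ n2).trans (mul_le_mul_of_nonneg_left hlog1 hX0)
    have hφ0 : 0 ≤ (N.totient : ℝ) / N := by positivity
    have hφ1 : (N.totient : ℝ) / N ≤ 1 := by
      rw [div_le_one hNR]
      exact_mod_cast Nat.totient_le N
    have hnorm : (DirichletCharacter.LFunction ψ1 1 * DirichletCharacter.LFunction ψ2 1 *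
          DirichletCharacter.LFunction (ψ1 * ψ2) 1).re ≤
        ‖DirichletCharacter.LFunction ψ1 1‖ * ‖DirichletCharacter.LFunction ψ2 1‖ *
          ‖DirichletCharacter.LFunction (ψ1 * ψ2) 1‖ := by
      refine (Complex.re_le_norm _).trans (le_of_eq ?_)
      rw [norm_mul, norm_mul]
    calc lam ≤ ((N.totient : ℝ) / N) * (‖DirichletCharacter.LFunction ψ1 1‖ *
          ‖DirichletCharacter.LFunction ψ2 1‖ * ‖DirichletCharacter.LFunction (ψ1 * ψ2) 1‖) :=
          mul_le_mul_of_nonneg_left hnorm hφ0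
      _ ≤ 1 * (‖DirichletCharacter.LFunction ψ1 1‖ *
          ‖DirichletCharacter.LFunction ψ2 1‖ * ‖DirichletCharacter.LFunction (ψ1 * ψ2) 1‖) :=
          mul_le_mul_of_nonneg_right hφ1 (by positivity)
      _ = ‖DirichletCharacter.LFunction ψ1 1‖ *
          ‖DirichletCharacter.LFunction ψ2 1‖ * ‖DirichletCharacter.LFunction (ψ1 * ψ2) 1‖ :=
          one_mul _
      _ ≤ _ := by
          apply mul_le_mul _ u3 (norm_nonneg _) (by positivity)
          exact mul_le_mul u1 u2 (norm_nonneg _) (by positivity)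
  have hNε : C * (N : ℝ) ^ (C * (1 - β)) ≤ C * (N : ℝ) ^ (ε / 8) :=
    mul_le_mul_of_nonneg_left (Real.rpow_le_rpow_of_exponent_le hN1 hβε) hC0.le
  have hmain : (1 - β) / 2 ≤ C * (N : ℝ) ^ (C * (1 - β)) * lam := by
    have e1 : 1 / 2 ≤ C * (N : ℝ) ^ (C * (1 - β)) / (1 - β) * lam := by linarith
    have e2 := mul_le_mul_of_nonneg_left e1 ha.le
    have e3 : (1 - β) * (C * (N : ℝ) ^ (C * (1 - β)) / (1 - β) * lam) =
        C * (N : ℝ) ^ (C * (1 - β)) * lam := by
      field_simp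
    rw [e3] at e2
    linarith
  have hlam0 : 0 ≤ lam := by
    by_contra hneg
    push Not at hneg
    have : C * (N : ℝ) ^ (C * (1 - β)) * lam < 0 := mul_neg_of_pos_of_neg (by positivity) hneg
    linarith
  have hfin : (1 - β) / 2 ≤ K * (N : ℝ) ^ (ε / 4) * X := by
    calc (1 - β) / 2 ≤ C * (N : ℝ) ^ (C * (1 - β)) * lam := hmain
      _ ≤ C * (N : ℝ) ^ (ε / 8) * lam := mul_le_mul_of_nonneg_right hNε hlam0
      _ ≤ C * (N : ℝ) ^ (ε / 8) * ((C2 * ((2 / δ) * (N : ℝ) ^ δ)) *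
          (X * ((1 + 1 / δ) * (N : ℝ) ^ δ)) * (C2 * ((2 / δ) * (N : ℝ) ^ δ))) :=
          mul_le_mul_of_nonneg_left hlam1 (by positivity)
      _ = K * ((N : ℝ) ^ (ε / 8) * (N : ℝ) ^ δ * (N : ℝ) ^ δ * (N : ℝ) ^ δ) * X := by
          rw [hK]
          ring
      _ = K * (N : ℝ) ^ (ε / 4) * X := by
          rw [← Real.rpow_add hNR, ← Real.rpow_add hNR, ← Real.rpow_add hNR]
          congr 3
          rw [hδ]
          ring
  have hNe : (N : ℝ) ^ (ε / 4) ≤ (q1 : ℝ) ^ ε * (q : ℝ) ^ ε := by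
    calc (N : ℝ) ^ (ε / 4) ≤ (N : ℝ) ^ ε :=
          Real.rpow_le_rpow_of_exponent_le hN1 (by linarith)
      _ = (q1 : ℝ) ^ ε * (q : ℝ) ^ ε := by
          rw [hN]
          push_cast
          exact Real.mul_rpow hq1.le hq.le
  have hfin2 : (1 - β) / 2 ≤ K * ((q1 : ℝ) ^ ε * (q : ℝ) ^ ε) * X :=
    hfin.trans (mul_le_mul_of_nonneg_right (mul_le_mul_of_nonneg_left hNe hK0.le) hX0)
  have hqe : 0 < (q : ℝ) ^ ε := by positivity
  have hq1e : 0 < (q1 : ℝ) ^ ε := by positivity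
  rw [Real.rpow_neg hq.le, div_mul_eq_mul_div, div_le_iff₀ (by positivity)]
  rw [mul_inv_le_iff₀ hqe]
  have e9 : X * (2 * K * (q1 : ℝ) ^ ε) * (q : ℝ) ^ ε =
      2 * (K * ((q1 : ℝ) ^ ε * (q : ℝ) ^ ε) * X) := by ring
  rw [e9]
  linarith

theorem siegel (ε : ℝ) (hε : 0 < ε) : ∃ c : ℝ, 0 < c ∧ ∀ (q : ℕ) [NeZero q]
    (χ : DirichletCharacter ℂ q), χ.IsPrimitive → χ ^ 2 = 1 → χ ≠ 1 →
      c * (q : ℝ) ^ (-ε) ≤ ‖DirichletCharacter.LFunction χ 1‖ := by
  -- reduce to ε ≤ 1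
  suffices hmain : ∀ ε : ℝ, 0 < ε → ε ≤ 1 → ∃ c : ℝ, 0 < c ∧ ∀ (q : ℕ) [NeZero q]
      (χ : DirichletCharacter ℂ q), χ.IsPrimitive → χ ^ 2 = 1 → χ ≠ 1 →
        c * (q : ℝ) ^ (-ε) ≤ ‖DirichletCharacter.LFunction χ 1‖ by
    rcases le_total ε 1 with h | h
    · exact hmain ε hε h
    · obtain ⟨c, hc, hb⟩ := hmain 1 one_pos le_rfl
      refine ⟨c, hc, ?_⟩
      intro q _ χ h1 h2 h3
      refine le_trans ?_ (hb q χ h1 h2 h3)
      apply mul_le_mul_of_nonneg_left _ hc.le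
      apply Real.rpow_le_rpow_of_exponent_le _ (by linarith)
      have : 1 ≤ q := Nat.one_le_iff_ne_zero.mpr (NeZero.ne q)
      exact_mod_cast this
  intro ε hε hε1
  obtain ⟨C, hC, hE⟩ := estermann
  obtain ⟨C2, hC2, hU⟩ := swd3_upper
  obtain ⟨η0, hη0, hζ⟩ := swd3_zeta
  have hC0 : 0 < C := by linarith
  set η : ℝ := min (min η0 (1 / 16)) (ε / (8 * C)) with hη
  have hηpos : 0 < η := by
    rw [hη]
    exact lt_min (lt_min hη0 (by norm_num)) (by positivity)
  have hη1 : η ≤ η0 := (min_le_left _ _).trans (min_le_left _ _)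
  have hη2 : η ≤ 1 / 16 := (min_le_left _ _).trans (min_le_right _ _)
  have hη3 : C * η ≤ ε / 8 := by
    have h1 : η ≤ ε / (8 * C) := min_le_right _ _
    have h2 := mul_le_mul_of_nonneg_left h1 hC0.le
    have h3 : C * (ε / (8 * C)) = ε / 8 := by
      field_simp
    rw [h3] at h2
    exact h2
  by_cases hex : ∃ (q1 : ℕ) (_ : NeZero q1) (χ1 : DirichletCharacter ℂ q1),
      χ1.IsPrimitive ∧ χ1 ^ 2 = 1 ∧ χ1 ≠ 1
  swap
  · refine ⟨1, one_pos, ?_⟩
    intro q _ χ h1 h2 h3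
    exact absurd ⟨q, inferInstance, χ, h1, h2, h3⟩ hex
  -- the fixed character and the point β
  have hfix : ∃ (q1 : ℕ) (_ : NeZero q1) (χ1 : DirichletCharacter ℂ q1) (β : ℝ),
      χ1.IsPrimitive ∧ χ1 ^ 2 = 1 ∧ χ1 ≠ 1 ∧ 1 - η ≤ β ∧ β < 1 ∧
      ∀ (q : ℕ) [NeZero q] [NeZero (q1 * q)] (χ : DirichletCharacter ℂ q),
      χ ^ 2 = 1 → χ ≠ 1 →
      DirichletCharacter.changeLevel (Nat.dvd_mul_right q1 q) χ1 *
        DirichletCharacter.changeLevel (Nat.dvd_mul_left q q1) χ ≠ 1 →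
      (DirichletCharacter.LFunction (1 : DirichletCharacter ℂ (q1 * q)) β *
          DirichletCharacter.LFunction (DirichletCharacter.changeLevel
            (Nat.dvd_mul_right q1 q) χ1) β *
          DirichletCharacter.LFunction (DirichletCharacter.changeLevel
            (Nat.dvd_mul_left q q1) χ) β *
          DirichletCharacter.LFunction (DirichletCharacter.changeLevel (Nat.dvd_mul_right q1 q) χ1 *
            DirichletCharacter.changeLevel (Nat.dvd_mul_left q q1) χ) β).re ≤ 0 := by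
    by_cases hA : ∃ (q1 : ℕ) (_ : NeZero q1) (χ1 : DirichletCharacter ℂ q1) (β : ℝ),
        χ1.IsPrimitive ∧ χ1 ^ 2 = 1 ∧ χ1 ≠ 1 ∧ 1 - η ≤ β ∧ β < 1 ∧
        DirichletCharacter.LFunction χ1 (β : ℂ) = 0
    · obtain ⟨q1, hq1, χ1, β, a1, a2, a3, a4, a5, a6⟩ := hA
      refine ⟨q1, hq1, χ1, β, a1, a2, a3, a4, a5, ?_⟩
      intro q _ _ χ h2 n2 n3
      rw [DirichletCharacter.LFunction_changeLevel (Nat.dvd_mul_right q1 q) χ1 (Or.inl a3), a6]
      simp
    · have hB : ∀ (q : ℕ) [NeZero q] (χ : DirichletCharacter ℂ q), χ.IsPrimitive → χ ^ 2 = 1 →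
          χ ≠ 1 → ∀ x : ℝ, 1 - η ≤ x → x < 1 →
          DirichletCharacter.LFunction χ (x : ℂ) ≠ 0 := by
        intro q _ χ h1 h2 h3 x hx hx1 h0
        exact hA ⟨q, inferInstance, χ, x, h1, h2, h3, hx, hx1, h0⟩
      obtain ⟨q1, hq1, χ1, a1, a2, a3⟩ := hex
      refine ⟨q1, hq1, χ1, 1 - η, a1, a2, a3, le_rfl, by linarith, ?_⟩
      intro q _ _ χ h2 n2 n3
      apply swd3_caseB η (by linarith) hB
      · rw [← map_pow, a2, map_one]
      · rw [← map_pow, h2, map_one]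
      · exact fun h => a3 ((DirichletCharacter.changeLevel_eq_one_iff _).mp h)
      · exact fun h => n2 ((DirichletCharacter.changeLevel_eq_one_iff _).mp h)
      · exact n3
      · exact le_rfl
      · linarith
      · exact hζ _ (by linarith) (by linarith)
  obtain ⟨q1, hq1, χ1, β, a1, a2, a3, a4, a5, a6⟩ := hfix
  have hβε : C * (1 - β) ≤ ε / 8 := by
    refine le_trans ?_ hη3
    exact mul_le_mul_of_nonneg_left (by linarith) hC0.le
  obtain ⟨c, hc, hb⟩ := swd3_core C C2 hC hC2 hE hU ε hε hε1 β (by linarith) a5 hβε q1 χ1 a2 a3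
  have hL1 : 0 < ‖DirichletCharacter.LFunction χ1 1‖ :=
    norm_pos_iff.mpr (DirichletCharacter.LFunction_apply_one_ne_zero a3)
  refine ⟨min c ‖DirichletCharacter.LFunction χ1 1‖, lt_min hc hL1, ?_⟩
  intro q _ χ h1 h2 h3
  have hqpos : 0 < (q : ℝ) ^ (-ε) := by
    have : 0 < q := Nat.pos_of_ne_zero (NeZero.ne q)
    have : (0 : ℝ) < q := by exact_mod_cast this
    positivity
  have : NeZero (q1 * q) := ⟨Nat.mul_ne_zero (NeZero.ne q1) (NeZero.ne q)⟩
  by_cases hprod : DirichletCharacter.changeLevel (Nat.dvd_mul_right q1 q) χ1 *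
        DirichletCharacter.changeLevel (Nat.dvd_mul_left q q1) χ = 1
  · obtain ⟨e, he⟩ := swd3_eq χ1 χ a1 h1 h2 hprod
    subst e
    simp only [] at he
    subst he
    have hq1' : (q : ℝ) ^ (-ε) ≤ 1 := by
      apply Real.rpow_le_one_of_one_le_of_nonpos
      · have : 1 ≤ q := Nat.one_le_iff_ne_zero.mpr (NeZero.ne q)
        exact_mod_cast this
      · linarith
    calc min c ‖DirichletCharacter.LFunction χ 1‖ * (q : ℝ) ^ (-ε)
        ≤ ‖DirichletCharacter.LFunction χ 1‖ * (q : ℝ) ^ (-ε) :=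
          mul_le_mul_of_nonneg_right (min_le_right _ _) hqpos.le
      _ ≤ ‖DirichletCharacter.LFunction χ 1‖ * 1 :=
          mul_le_mul_of_nonneg_left hq1' (norm_nonneg _)
      _ = _ := mul_one _
  · refine le_trans ?_ (hb q (q1 * q) rfl _ _ χ h2 h3 hprod (a6 q χ h2 h3 hprod))
    exact mul_le_mul_of_nonneg_right (min_le_left _ _) hqpos.le

end Pool.Agent.H91.EHA

end

section

/-!
# Combined lower bound

Combine `L_lower_complex`, `L_lower_real`, `siegel` and
`log(q(|t|+2)) ≤ C_ε q^{ε/20} log(|t|+3)`.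
-/

set_option autoImplicit false

namespace Pool.Agent.H91.EHA

open Finset

private theorem swe_log (δ : ℝ) (hδ : 0 < δ) (q : ℕ) (hq : 2 ≤ q) (t : ℝ) :
    0 < Real.log (q * (|t| + 2)) ∧
      Real.log (q * (|t| + 2)) ≤ (1 / δ + 1) * ((q : ℝ) ^ δ * Real.log (|t| + 3)) := by
  have hq1 : (2 : ℝ) ≤ q := by exact_mod_cast hq
  have ht : 0 ≤ |t| := abs_nonneg t
  have h3 : 1 ≤ Real.log (|t| + 3) := by
    rw [Real.le_log_iff_exp_le (by linarith)]
    have := Real.exp_one_lt_d9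
    linarith
  have hqd : 1 ≤ (q : ℝ) ^ δ := Real.one_le_rpow (by linarith) hδ.le
  refine ⟨Real.log_pos (by nlinarith), ?_⟩
  rw [Real.log_mul (by linarith) (by linarith)]
  have h1 : Real.log q ≤ (q : ℝ) ^ δ / δ := Real.log_le_rpow_div (by linarith) hδ
  have h2 : Real.log (|t| + 2) ≤ Real.log (|t| + 3) :=
    Real.log_le_log (by linarith) (by linarith)
  have h4 : (q : ℝ) ^ δ / δ ≤ (q : ℝ) ^ δ / δ * Real.log (|t| + 3) :=
    le_mul_of_one_le_right (by positivity) h3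
  have h5 : Real.log (|t| + 3) ≤ (q : ℝ) ^ δ * Real.log (|t| + 3) :=
    le_mul_of_one_le_left (by linarith) hqd
  calc Real.log q + Real.log (|t| + 2) ≤
      (q : ℝ) ^ δ / δ * Real.log (|t| + 3) + (q : ℝ) ^ δ * Real.log (|t| + 3) := by linarith
    _ = _ := by ring

private theorem swe_low (ε : ℝ) (hε : 0 < ε) (c : ℝ) (hc : 0 < c) (q : ℕ) (hq : 2 ≤ q) (t : ℝ) :
    c / (1 / (ε / 9) + 1) ^ 9 * ((q : ℝ) ^ (-ε) / Real.log (|t| + 3) ^ 9) ≤
      c / Real.log (q * (|t| + 2)) ^ 9 := by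
  obtain ⟨h0, h1⟩ := swe_log (ε / 9) (by positivity) q hq t
  have hq0 : (0 : ℝ) < q := by exact_mod_cast (by omega : 0 < q)
  have h3 : 0 < Real.log (|t| + 3) := by
    apply Real.log_pos
    have := abs_nonneg t
    linarith
  have h4 : Real.log (q * (|t| + 2)) ^ 9 ≤
      ((1 / (ε / 9) + 1) * ((q : ℝ) ^ (ε / 9) * Real.log (|t| + 3))) ^ 9 :=
    pow_le_pow_left₀ h0.le h1 9
  have h5 : ((q : ℝ) ^ (ε / 9)) ^ 9 = (q : ℝ) ^ ε := by
    rw [← Real.rpow_natCast, ← Real.rpow_mul hq0.le]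
    congr 1
    push_cast
    ring
  have h6 : c / (1 / (ε / 9) + 1) ^ 9 * ((q : ℝ) ^ (-ε) / Real.log (|t| + 3) ^ 9) =
      c / ((1 / (ε / 9) + 1) * ((q : ℝ) ^ (ε / 9) * Real.log (|t| + 3))) ^ 9 := by
    rw [mul_pow, mul_pow, h5, Real.rpow_neg hq0.le]
    have h7 : (q : ℝ) ^ ε ≠ 0 := (Real.rpow_pos_of_pos hq0 _).ne'
    field_simp
  rw [h6]
  exact div_le_div_of_nonneg_left hc.le (by positivity) h4

theorem L_low (ε : ℝ) (hε : 0 < ε) : ∃ c : ℝ, 0 < c ∧ ∀ q : ℕ, 2 ≤ q →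
    ∀ χ : DirichletCharacter ℂ q, χ.IsPrimitive → ∀ s : ℂ, 1 < s.re → s.re ≤ 2 →
      c * (q : ℝ) ^ (-ε) / Real.log (|s.im| + 3) ^ 9 ≤ ‖Lk q χ 0 s‖ := by
  obtain ⟨c1, hc1, h1⟩ := L_lower_complex
  obtain ⟨c2, hc2, h2⟩ := L_lower_real
  obtain ⟨c3, hc3, h3⟩ := siegel (ε / 2) (by positivity)
  have hK : 0 < (1 / (ε / 9) + 1) ^ 9 := by positivity
  have hK' : 0 < (1 / (ε / 2 / 9) + 1) ^ 9 := by positivity
  refine ⟨min (c1 / (1 / (ε / 9) + 1) ^ 9) (c2 * c3 / (1 / (ε / 2 / 9) + 1) ^ 9),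
    lt_min (by positivity) (by positivity), ?_⟩
  intro q hq χ hχ s hs1 hs2
  have : NeZero q := ⟨by omega⟩
  have hq0 : (0 : ℝ) < q := by exact_mod_cast (by omega : 0 < q)
  have hlog : 0 < Real.log (|s.im| + 3) := by
    apply Real.log_pos
    have := abs_nonneg s.im
    linarith
  have hne : χ ≠ 1 := by
    rintro rfl
    have h4 : DirichletCharacter.conductor (1 : DirichletCharacter ℂ q) = q := hχ
    rw [DirichletCharacter.conductor_one] at h4
    omega
  by_cases hsq : χ ^ 2 = 1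
  · refine le_trans ?_ (h2 q hq χ hne hsq s hs1 hs2)
    have h4 := h3 q χ hχ hsq hne
    have h5 := swe_low (ε / 2) (by positivity) (c2 * (c3 * (q : ℝ) ^ (-(ε / 2)))) (by positivity)
      q hq s.im
    have h6 : c2 * (c3 * (q : ℝ) ^ (-(ε / 2))) / Real.log (q * (|s.im| + 2)) ^ 9 ≤
        c2 * ‖DirichletCharacter.LFunction χ 1‖ / Real.log (q * (|s.im| + 2)) ^ 9 := by
      have h7 := (swe_log 1 one_pos q hq s.im).1
      gcongr
    refine le_trans ?_ (h5.trans h6)
    have h8 : (q : ℝ) ^ (-ε) = (q : ℝ) ^ (-(ε / 2)) * (q : ℝ) ^ (-(ε / 2)) := by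
      rw [← Real.rpow_add hq0]
      congr 1
      ring
    rw [h8]
    calc min (c1 / (1 / (ε / 9) + 1) ^ 9) (c2 * c3 / (1 / (ε / 2 / 9) + 1) ^ 9) *
          ((q : ℝ) ^ (-(ε / 2)) * (q : ℝ) ^ (-(ε / 2))) / Real.log (|s.im| + 3) ^ 9
        ≤ (c2 * c3 / (1 / (ε / 2 / 9) + 1) ^ 9) *
          ((q : ℝ) ^ (-(ε / 2)) * (q : ℝ) ^ (-(ε / 2))) / Real.log (|s.im| + 3) ^ 9 := by
          have := min_le_right (c1 / (1 / (ε / 9) + 1) ^ 9)
            (c2 * c3 / (1 / (ε / 2 / 9) + 1) ^ 9)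
          gcongr
      _ = _ := by ring
  · refine le_trans ?_ (h1 q hq χ hne hsq s hs1 hs2)
    refine le_trans ?_ (swe_low ε hε c1 hc1 q hq s.im)
    rw [mul_div_assoc]
    exact mul_le_mul_of_nonneg_right (min_le_left _ _) (by positivity)

end Pool.Agent.H91.EHA

end

section

/-!
# Bounds for the series of `Λ(n) χ(n) (log n)^k`

`Lk (k+1) = ∑_{i ≤ k} binom(k,i) Lk i · Fk (k-i)` (from `log = Λ * 1`; `k = 0`:
`Lk 1 = Lk 0 · Fk 0`, Mathlib `DirichletCharacter.deriv_LFunction...` / `LSeries_vonMangoldt...`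
(`ArithmeticFunction.LSeries_vonMangoldt_eq`, `LSeries_twist_vonMangoldt_eq`); differentiate `k` times with
`Lk_hasDeriv` and `Fk_hasDeriv`).  Solve for `Fk k` and use induction, `L_low (ε')`, `Lk_le`:
`‖Fk k‖ ≤ C q^{ε'...} (log(|t|+3))^{20(k+1)}`; note `log(q(|t|+2)) ≤ C q^{ε'} log(|t|+3)`.
Exponent check: `9 + (k+2) ≤ 20(k+1)` and `9 + (i+1) + 20(k-i+1) ≤ 20(k+1)` for `i ≥ 1`.
-/

set_option autoImplicit false

namespace Pool.Agent.H91.EHA

open Finset

theorem Fk_summable (q : ℕ) (χ : DirichletCharacter ℂ q) (k : ℕ) (s : ℂ) (hs : 1 < s.re) :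
    LSeriesSummable (fun n => ((Lam n * Real.log n ^ k : ℝ) : ℂ) * χ (n : ZMod q)) s := by
  refine Summable.of_norm_bounded (Lk_summable q χ (k + 1) s hs).norm ?_
  intro n
  apply LSeries.norm_term_le
  have hlog : 0 ≤ Real.log n := Real.log_natCast_nonneg n
  have hLam : Lam n ≤ Real.log n := ArithmeticFunction.vonMangoldt_le_log
  have hLam0 : 0 ≤ Lam n := ArithmeticFunction.vonMangoldt_nonneg
  rw [norm_mul, norm_mul]
  refine mul_le_mul_of_nonneg_right ?_ (norm_nonneg _)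
  rw [norm_pow, Complex.norm_real, Complex.norm_real, Real.norm_eq_abs, Real.norm_eq_abs,
    abs_of_nonneg (mul_nonneg hLam0 (pow_nonneg hlog k)), abs_of_nonneg hlog, pow_succ,
    mul_comm (Real.log n ^ k)]
  exact mul_le_mul_of_nonneg_right hLam (pow_nonneg hlog k)

theorem Fk_hasDeriv (q : ℕ) (χ : DirichletCharacter ℂ q) (k : ℕ) (s : ℂ) (hs : 1 < s.re) :
    HasDerivAt (Fk q χ k) (-(Fk q χ (k + 1) s)) s := by
  have habs : LSeries.abscissaOfAbsConv
      (fun n : ℕ => ((Lam n * Real.log n ^ k : ℝ) : ℂ) * χ (n : ZMod q)) < s.re := by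
    refine lt_of_le_of_lt (b := ((1 : ℝ) : EReal)) ?_ (by exact_mod_cast hs)
    apply LSeries.abscissaOfAbsConv_le_of_forall_lt_LSeriesSummable
    intro y hy
    exact Fk_summable q χ k y (by simpa using hy)
  have h := LSeries_hasDerivAt habs
  have he : LSeries (LSeries.logMul
      (fun n : ℕ => ((Lam n * Real.log n ^ k : ℝ) : ℂ) * χ (n : ZMod q))) s =
      Fk q χ (k + 1) s := by
    unfold Fk
    apply LSeries_congr
    intro n _
    unfold LSeries.logMul
    rw [← Complex.natCast_log]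
    push_cast
    ring
  rw [he] at h
  exact h

private theorem swf_one (q : ℕ) (χ : DirichletCharacter ℂ q) (s : ℂ) (hs : 1 < s.re) :
    Lk q χ 1 s = Lk q χ 0 s * Fk q χ 0 s := by
  have hL0 : Lk q χ 0 = LSeries (fun n => χ (n : ZMod q)) := by
    funext z
    unfold Lk
    apply LSeries_congr
    intro n _
    simp
  have hF0 : Fk q χ 0 s = LSeries ((fun n : ℕ => χ (n : ZMod q)) *
      (fun n : ℕ => (ArithmeticFunction.vonMangoldt n : ℂ))) s := by
    unfold Fk
    apply LSeries_congr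
    intro n _
    simp only [Pi.mul_apply, Lam, pow_zero, mul_one]
    ring
  have h1 := DirichletCharacter.LSeries_twist_vonMangoldt_eq χ hs
  have h2 := (Lk_hasDeriv q χ 0 s hs).deriv
  have h3 := DirichletCharacter.LSeries_ne_zero_of_one_lt_re χ hs
  rw [hF0, h1, hL0]
  rw [hL0] at h2
  rw [h2, neg_neg, zero_add]
  field_simp

private theorem swf_pascal (a b : ℕ → ℂ) (k : ℕ) :
    ∑ i ∈ range (k + 1), (k.choose i : ℂ) * (a (i + 1) * b (k - i) + a i * b (k - i + 1)) =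
      ∑ i ∈ range (k + 1 + 1), ((k + 1).choose i : ℂ) * (a i * b (k + 1 - i)) := by
  rw [Finset.sum_range_succ' (fun i => ((k + 1).choose i : ℂ) * (a i * b (k + 1 - i)))]
  have h1 : ∀ i ∈ range (k + 1), ((k + 1).choose (i + 1) : ℂ) * (a (i + 1) * b (k + 1 - (i + 1))) =
      (k.choose i : ℂ) * (a (i + 1) * b (k - i)) +
        (k.choose (i + 1) : ℂ) * (a (i + 1) * b (k + 1 - (i + 1))) := by
    intro i _
    rw [Nat.choose_succ_succ, Nat.add_sub_add_right]
    push_cast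
    ring
  rw [Finset.sum_congr rfl h1, Finset.sum_add_distrib]
  have h2 : ∑ i ∈ range (k + 1), (k.choose (i + 1) : ℂ) * (a (i + 1) * b (k + 1 - (i + 1))) +
      ((k + 1).choose 0 : ℂ) * (a 0 * b (k + 1 - 0)) =
      ∑ i ∈ range (k + 1), (k.choose i : ℂ) * (a i * b (k - i + 1)) := by
    have h3 := Finset.sum_range_succ' (fun i => (k.choose i : ℂ) * (a i * b (k + 1 - i))) (k + 1)
    have h4 := Finset.sum_range_succ (fun i => (k.choose i : ℂ) * (a i * b (k + 1 - i))) (k + 1)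
    rw [Nat.choose_succ_self, Nat.cast_zero, zero_mul, add_zero] at h4
    rw [Nat.choose_zero_right]
    rw [Nat.choose_zero_right] at h3
    rw [← h3, h4]
    apply Finset.sum_congr rfl
    intro i hi
    rw [Finset.mem_range] at hi
    rw [show k + 1 - i = k - i + 1 by omega]
  rw [add_assoc, h2, ← Finset.sum_add_distrib]
  apply Finset.sum_congr rfl
  intro i _
  ring

theorem Lk_succ_eq (q : ℕ) (χ : DirichletCharacter ℂ q) (k : ℕ) (s : ℂ) (hs : 1 < s.re) :
    Lk q χ (k + 1) s = ∑ i ∈ range (k + 1), (k.choose i : ℂ) * (Lk q χ i s * Fk q χ (k - i) s) := by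
  induction k generalizing s with
  | zero =>
    rw [zero_add, swf_one q χ s hs]
    simp
  | succ k ih =>
    have h1 := Lk_hasDeriv q χ (k + 1) s hs
    have h2 : HasDerivAt (fun z => ∑ i ∈ range (k + 1),
        (k.choose i : ℂ) * (Lk q χ i z * Fk q χ (k - i) z))
        (∑ i ∈ range (k + 1), (k.choose i : ℂ) *
          (-(Lk q χ (i + 1) s) * Fk q χ (k - i) s + Lk q χ i s * -(Fk q χ (k - i + 1) s))) s := by
      apply HasDerivAt.fun_sum
      intro i _
      exact ((Lk_hasDeriv q χ i s hs).mul (Fk_hasDeriv q χ (k - i) s hs)).const_mul _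
    have h3 : (fun z => ∑ i ∈ range (k + 1), (k.choose i : ℂ) * (Lk q χ i z * Fk q χ (k - i) z))
        =ᶠ[nhds s] Lk q χ (k + 1) := by
      have hopen : IsOpen {z : ℂ | 1 < z.re} := isOpen_lt continuous_const Complex.continuous_re
      filter_upwards [hopen.mem_nhds hs] with z hz
      exact (ih z hz).symm
    have h4 := (h1.congr_of_eventuallyEq h3).unique h2
    have h5 : Lk q χ (k + 1 + 1) s = ∑ i ∈ range (k + 1), (k.choose i : ℂ) *
          (Lk q χ (i + 1) s * Fk q χ (k - i) s + Lk q χ i s * Fk q χ (k - i + 1) s) := by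
      rw [← neg_neg (Lk q χ (k + 1 + 1) s), h4, ← Finset.sum_neg_distrib]
      apply Finset.sum_congr rfl
      intro i _
      ring
    rw [h5]
    exact swf_pascal (fun i => Lk q χ i s) (fun j => Fk q χ j s) k

/-- powers of `1 + log q` -/
private theorem swf_logpow (m : ℕ) (ε : ℝ) (hε : 0 < ε) : ∃ C : ℝ, 0 < C ∧ ∀ q : ℕ, 2 ≤ q →
    (1 + Real.log q) ^ (m + 1) ≤ C * (q : ℝ) ^ ε := by
  set δ : ℝ := ε / (m + 1) with hδ
  have hm : (0 : ℝ) < m + 1 := by positivity
  have hδ0 : 0 < δ := by positivity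
  refine ⟨(1 + 1 / δ) ^ (m + 1), by positivity, ?_⟩
  intro q hq
  have hq1 : (1 : ℝ) ≤ q := by exact_mod_cast (by omega : 1 ≤ q)
  have h1 : Real.log q ≤ (q : ℝ) ^ δ / δ := Real.log_le_rpow_div (by linarith) hδ0
  have h2 : (1 : ℝ) ≤ (q : ℝ) ^ δ := Real.one_le_rpow hq1 hδ0.le
  have h3 : 1 + Real.log q ≤ (1 + 1 / δ) * (q : ℝ) ^ δ := by
    have : (1 + 1 / δ) * (q : ℝ) ^ δ = (q : ℝ) ^ δ + (q : ℝ) ^ δ / δ := by ring
    rw [this]
    linarith
  have h0 : 0 ≤ 1 + Real.log q := by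
    have := Real.log_nonneg hq1
    linarith
  calc (1 + Real.log q) ^ (m + 1) ≤ ((1 + 1 / δ) * (q : ℝ) ^ δ) ^ (m + 1) :=
        pow_le_pow_left₀ h0 h3 _
    _ = (1 + 1 / δ) ^ (m + 1) * (q : ℝ) ^ ε := by
        rw [mul_pow, ← Real.rpow_natCast ((q : ℝ) ^ δ), ← Real.rpow_mul (by linarith)]
        congr 2
        rw [hδ]
        push_cast
        field_simp

theorem swf_ell (t : ℝ) : 1 ≤ Real.log (|t| + 3) := by
  have h1 : Real.exp 1 ≤ |t| + 3 := by
    have := Real.exp_one_lt_d9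
    have := abs_nonneg t
    linarith
  have h2 : 0 < |t| + 3 := by
    have := abs_nonneg t
    linarith
  rwa [Real.le_log_iff_exp_le h2]

/-- `Lk j` in terms of `q ^ ε` and `log (|t| + 3)` -/
theorem swf_Lk (j : ℕ) (ε : ℝ) (hε : 0 < ε) : ∃ C : ℝ, 0 < C ∧ ∀ q : ℕ, 2 ≤ q →
    ∀ χ : DirichletCharacter ℂ q, χ ≠ 1 → ∀ s : ℂ, 1 < s.re → s.re ≤ 2 →
      ‖Lk q χ j s‖ ≤ C * (q : ℝ) ^ ε * Real.log (|s.im| + 3) ^ (j + 1) := by
  obtain ⟨C1, hC1, h1⟩ := Lk_le j
  obtain ⟨C2, hC2, h2⟩ := swf_logpow j ε hε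
  refine ⟨C1 * C2, by positivity, ?_⟩
  intro q hq χ hχ s hs hs2
  have hq0 : (0 : ℝ) < q := by exact_mod_cast (by omega : 0 < q)
  have hq1 : (1 : ℝ) ≤ q := by exact_mod_cast (by omega : 1 ≤ q)
  have hlq : 0 ≤ Real.log q := Real.log_nonneg hq1
  have ht := abs_nonneg s.im
  have hell := swf_ell s.im
  have h3 : Real.log (q * (|s.im| + 2)) ≤ (1 + Real.log q) * Real.log (|s.im| + 3) := by
    rw [Real.log_mul hq0.ne' (by linarith)]
    have h4 : Real.log (|s.im| + 2) ≤ Real.log (|s.im| + 3) :=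
      Real.log_le_log (by linarith) (by linarith)
    nlinarith
  have h5 : 0 ≤ Real.log (q * (|s.im| + 2)) := by
    apply Real.log_nonneg
    nlinarith
  calc ‖Lk q χ j s‖ ≤ C1 * Real.log (q * (|s.im| + 2)) ^ (j + 1) := h1 q hq χ hχ s hs hs2
    _ ≤ C1 * ((1 + Real.log q) * Real.log (|s.im| + 3)) ^ (j + 1) := by
        apply mul_le_mul_of_nonneg_left _ hC1.le
        exact pow_le_pow_left₀ h5 h3 _
    _ = C1 * (1 + Real.log q) ^ (j + 1) * Real.log (|s.im| + 3) ^ (j + 1) := by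
        rw [mul_pow]
        ring
    _ ≤ C1 * (C2 * (q : ℝ) ^ ε) * Real.log (|s.im| + 3) ^ (j + 1) := by
        apply mul_le_mul_of_nonneg_right _ (pow_nonneg (by linarith) _)
        exact mul_le_mul_of_nonneg_left (h2 q hq) hC1.le
    _ = C1 * C2 * (q : ℝ) ^ ε * Real.log (|s.im| + 3) ^ (j + 1) := by ring

end Pool.Agent.H91.EHA

end

section

/-!
# Bounds for the series of `Λ(n) χ(n) (log n)^k`

`Lk (k+1) = ∑_{i ≤ k} binom(k,i) Lk i · Fk (k-i)` (from `log = Λ * 1`; `k = 0`: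
`Lk 1 = Lk 0 · Fk 0`, Mathlib `DirichletCharacter.deriv_LFunction...` / `LSeries_vonMangoldt...`
(`ArithmeticFunction.LSeries_vonMangoldt_eq`, `LSeries_twist_vonMangoldt_eq`); differentiate `k` times with
`Lk_hasDeriv` and `Fk_hasDeriv`).  Solve for `Fk k` and use induction, `L_low (ε')`, `Lk_le`:
`‖Fk k‖ ≤ C q^{ε'...} (log(|t|+3))^{20(k+1)}`; note `log(q(|t|+2)) ≤ C q^{ε'} log(|t|+3)`.
Exponent check: `9 + (k+2) ≤ 20(k+1)` and `9 + (i+1) + 20(k-i+1) ≤ 20(k+1)` for `i ≥ 1`.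
-/

set_option autoImplicit false

namespace Pool.Agent.H91.EHA

open Finset

theorem Fk_le (k : ℕ) (ε : ℝ) (hε : 0 < ε) : ∃ C : ℝ, 0 < C ∧ ∀ q : ℕ, 2 ≤ q →
    ∀ χ : DirichletCharacter ℂ q, χ.IsPrimitive → ∀ s : ℂ, 1 < s.re → s.re ≤ 2 →
      ‖Fk q χ k s‖ ≤ C * (q : ℝ) ^ ε * Real.log (|s.im| + 3) ^ (20 * (k + 1)) := by
  induction k using Nat.strong_induction_on generalizing ε with
  | _ k ih =>
    set δ : ℝ := ε / 3 with hδ
    have hδ0 : 0 < δ := by positivity
    obtain ⟨c, hc, hlow⟩ := L_low δ hδ0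
    have hLK : ∀ j : ℕ, ∃ C : ℝ, 0 < C ∧ ∀ q : ℕ, 2 ≤ q →
      ∀ χ : DirichletCharacter ℂ q, χ ≠ 1 → ∀ s : ℂ, 1 < s.re → s.re ≤ 2 →
        ‖Lk q χ j s‖ ≤ C * (q : ℝ) ^ δ * Real.log (|s.im| + 3) ^ (j + 1) :=
      fun j => swf_Lk j δ hδ0
    choose B hB0 hB using hLK
    have hFK : ∀ j : ℕ, ∃ C : ℝ, 0 < C ∧ (j < k → ∀ q : ℕ, 2 ≤ q →
      ∀ χ : DirichletCharacter ℂ q, χ.IsPrimitive → ∀ s : ℂ, 1 < s.re → s.re ≤ 2 →
        ‖Fk q χ j s‖ ≤ C * (q : ℝ) ^ δ * Real.log (|s.im| + 3) ^ (20 * (j + 1))) := by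
      intro j
      by_cases hj : j < k
      · obtain ⟨C, hC, h⟩ := ih j hj δ hδ0
        exact ⟨C, hC, fun _ => h⟩
      · exact ⟨1, one_pos, fun h => absurd h hj⟩
    choose A hA0 hA using hFK
    set S : ℝ := B (k + 1) + ∑ i ∈ range k, (k.choose (i + 1) : ℝ) * (B (i + 1) * A (k - (i + 1)))
      with hS
    have hS0 : 0 < S := by
      have : 0 ≤ ∑ i ∈ range k, (k.choose (i + 1) : ℝ) * (B (i + 1) * A (k - (i + 1))) := by
        apply Finset.sum_nonneg
        intro i _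
        exact mul_nonneg (Nat.cast_nonneg _) (mul_nonneg (hB0 _).le (hA0 _).le)
      have := hB0 (k + 1)
      linarith
    refine ⟨S / c, by positivity, ?_⟩
    intro q hq χ hχ s hs hs2
    have : NeZero q := ⟨by omega⟩
    have hχ1 : χ ≠ 1 := by
      rintro rfl
      have h1 : DirichletCharacter.conductor (1 : DirichletCharacter ℂ q) = q := hχ
      rw [DirichletCharacter.conductor_one] at h1
      omega
    have hq0 : (0 : ℝ) < q := by exact_mod_cast (by omega : 0 < q)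
    have hq1 : (1 : ℝ) ≤ q := by exact_mod_cast (by omega : 1 ≤ q)
    set l : ℝ := Real.log (|s.im| + 3) with hl
    have hl1 : 1 ≤ l := swf_ell s.im
    have hl0 : 0 < l := by linarith
    set Q : ℝ := (q : ℝ) ^ δ with hQ
    have hQ1 : 1 ≤ Q := Real.one_le_rpow hq1 hδ0.le
    have hQ0 : 0 < Q := by linarith
    have hQ3 : (q : ℝ) ^ ε = Q ^ 3 := by
      rw [hQ, ← Real.rpow_natCast ((q : ℝ) ^ δ), ← Real.rpow_mul hq0.le]
      congr 1
      rw [hδ]
      push_cast
      ring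
    have hlow' := hlow q hq χ hχ s hs hs2
    rw [Real.rpow_neg hq0.le, ← hQ, ← hl] at hlow'
    have hL0pos : 0 < ‖Lk q χ 0 s‖ := lt_of_lt_of_le (by positivity) hlow'
    -- solve for `Fk k`
    have heq := Lk_succ_eq q χ k s hs
    rw [Finset.sum_range_succ'] at heq
    simp only [Nat.choose_zero_right, Nat.cast_one, one_mul, Nat.sub_zero] at heq
    have hbound : ‖Lk q χ 0 s‖ * ‖Fk q χ k s‖ ≤ S * Q ^ 2 * l ^ (20 * (k + 1) - 9) := by
      rw [← norm_mul]
      have h1 : Lk q χ 0 s * Fk q χ k s = Lk q χ (k + 1) s -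
          ∑ i ∈ range k, (k.choose (i + 1) : ℂ) * (Lk q χ (i + 1) s * Fk q χ (k - (i + 1)) s) := by
        rw [heq]
        ring
      rw [h1]
      have h2 : ‖Lk q χ (k + 1) s‖ ≤ B (k + 1) * Q ^ 2 * l ^ (20 * (k + 1) - 9) := by
        refine (hB (k + 1) q hq χ hχ1 s hs hs2).trans ?_
        have h3 : Q ≤ Q ^ 2 := by nlinarith
        have h4 : l ^ (k + 1 + 1) ≤ l ^ (20 * (k + 1) - 9) := pow_le_pow_right₀ hl1 (by omega)
        have h5 := hB0 (k + 1)
        gcongr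
      have h6 : ∀ i ∈ range k, ‖(k.choose (i + 1) : ℂ) *
          (Lk q χ (i + 1) s * Fk q χ (k - (i + 1)) s)‖ ≤
          ((k.choose (i + 1) : ℝ) * (B (i + 1) * A (k - (i + 1)))) * Q ^ 2 *
            l ^ (20 * (k + 1) - 9) := by
        intro i hi
        rw [Finset.mem_range] at hi
        rw [norm_mul, norm_mul, Complex.norm_natCast]
        have h7 := hB (i + 1) q hq χ hχ1 s hs hs2
        have h8 := hA (k - (i + 1)) (by omega) q hq χ hχ s hs hs2
        rw [← hQ, ← hl] at h7 h8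
        have h9 : l ^ (i + 1 + 1) * l ^ (20 * (k - (i + 1) + 1)) ≤ l ^ (20 * (k + 1) - 9) := by
          rw [← pow_add]
          exact pow_le_pow_right₀ hl1 (by omega)
        have hAk := hA0 (k - (i + 1))
        have hBk := hB0 (i + 1)
        calc (k.choose (i + 1) : ℝ) * (‖Lk q χ (i + 1) s‖ * ‖Fk q χ (k - (i + 1)) s‖)
            ≤ (k.choose (i + 1) : ℝ) * ((B (i + 1) * Q * l ^ (i + 1 + 1)) *
                (A (k - (i + 1)) * Q * l ^ (20 * (k - (i + 1) + 1)))) := by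
              apply mul_le_mul_of_nonneg_left _ (Nat.cast_nonneg _)
              exact mul_le_mul h7 h8 (norm_nonneg _) (by positivity)
          _ = (k.choose (i + 1) : ℝ) * (B (i + 1) * A (k - (i + 1))) * Q ^ 2 *
                (l ^ (i + 1 + 1) * l ^ (20 * (k - (i + 1) + 1))) := by ring
          _ ≤ _ := by
              apply mul_le_mul_of_nonneg_left h9
              positivity
      calc ‖Lk q χ (k + 1) s - ∑ i ∈ range k, (k.choose (i + 1) : ℂ) *
            (Lk q χ (i + 1) s * Fk q χ (k - (i + 1)) s)‖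
          ≤ ‖Lk q χ (k + 1) s‖ + ‖∑ i ∈ range k, (k.choose (i + 1) : ℂ) *
            (Lk q χ (i + 1) s * Fk q χ (k - (i + 1)) s)‖ := norm_sub_le _ _
        _ ≤ B (k + 1) * Q ^ 2 * l ^ (20 * (k + 1) - 9) +
            ∑ i ∈ range k, ((k.choose (i + 1) : ℝ) * (B (i + 1) * A (k - (i + 1)))) * Q ^ 2 *
            l ^ (20 * (k + 1) - 9) := by
            apply add_le_add h2
            exact (norm_sum_le _ _).trans (Finset.sum_le_sum h6)
        _ = S * Q ^ 2 * l ^ (20 * (k + 1) - 9) := by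
            rw [hS, ← Finset.sum_mul, ← Finset.sum_mul]
            ring
    have hfin : c * Q⁻¹ / l ^ 9 * ‖Fk q χ k s‖ ≤ S * Q ^ 2 * l ^ (20 * (k + 1) - 9) :=
      (mul_le_mul_of_nonneg_right hlow' (norm_nonneg _)).trans hbound
    have hpw : l ^ (20 * (k + 1)) = l ^ (20 * (k + 1) - 9) * l ^ 9 := by
      have h11 : 20 * (k + 1) - 9 + 9 = 20 * (k + 1) := by omega
      rw [← pow_add, h11]
    rw [hQ3, hpw]
    have h10 : ‖Fk q χ k s‖ = (c * Q⁻¹ / l ^ 9 * ‖Fk q χ k s‖) * (Q * l ^ 9 / c) := by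
      field_simp
    rw [h10]
    calc (c * Q⁻¹ / l ^ 9 * ‖Fk q χ k s‖) * (Q * l ^ 9 / c)
        ≤ (S * Q ^ 2 * l ^ (20 * (k + 1) - 9)) * (Q * l ^ 9 / c) :=
          mul_le_mul_of_nonneg_right hfin (by positivity)
      _ = S / c * Q ^ 3 * (l ^ (20 * (k + 1) - 9) * l ^ 9) := by ring

end Pool.Agent.H91.EHA

end

section

/-!
# The series of `(Λ(n) - 1)(log n)^k` for `|Im s| ≥ 1`

`Fk 1 1 k` by the recursion of SwF (`Lk_succ_eq` with `q = 1`), `zeta_lower`, `zeta_k_le`;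
the series is `Fk 1 1 k - Lk 1 1 k`.
-/

set_option autoImplicit false

namespace Pool.Agent.H91.EHA

open Finset

/-- `log (t + 3) ≥ 1` for `t ≥ 0`. -/
theorem swJ1_log_ge (t : ℝ) (ht : 0 ≤ t) : 1 ≤ Real.log (t + 3) := by
  rw [Real.le_log_iff_exp_le (by linarith)]
  have := Real.exp_one_lt_d9
  linarith

theorem swJ1_Lk (k : ℕ) : ∃ C : ℝ, 0 < C ∧ ∀ s : ℂ, 1 < s.re → s.re ≤ 2 → 1 ≤ |s.im| →
    ‖Lk 1 1 k s‖ ≤ C * Real.log (|s.im| + 3) ^ (k + 1) := by
  obtain ⟨C, hC, h⟩ := zeta_k_le k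
  refine ⟨C, hC, fun s h1 h2 h3 => (h s h1 h2 h3).trans ?_⟩
  apply mul_le_mul_of_nonneg_left _ hC.le
  apply pow_le_pow_left₀
  · apply Real.log_nonneg
    linarith [abs_nonneg s.im]
  · apply Real.log_le_log
    · linarith [abs_nonneg s.im]
    · linarith

theorem swJ1_Fk (k : ℕ) : ∃ C : ℝ, 0 < C ∧ ∀ s : ℂ, 1 < s.re → s.re ≤ 2 → 1 ≤ |s.im| →
    ‖Fk 1 1 k s‖ ≤ C * Real.log (|s.im| + 3) ^ (20 * (k + 1)) := by
  induction k using Nat.strong_induction_on with
  | _ k ih =>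
    obtain ⟨c, hc, hlow⟩ := zeta_lower
    choose A hA hLk using swJ1_Lk
    have ih' : ∀ j : ℕ, ∃ C : ℝ, 0 < C ∧ (j < k → ∀ s : ℂ, 1 < s.re → s.re ≤ 2 → 1 ≤ |s.im| →
        ‖Fk 1 1 j s‖ ≤ C * Real.log (|s.im| + 3) ^ (20 * (j + 1))) := by
      intro j
      by_cases hj : j < k
      · obtain ⟨C, hC, h⟩ := ih j hj
        exact ⟨C, hC, fun _ => h⟩
      · exact ⟨1, one_pos, fun h => absurd h hj⟩
    choose B hB hFk using ih'
    set S : ℝ := A (k + 1) + ∑ i ∈ range k, (k.choose (i + 1) : ℝ) * (A (i + 1) * B (k - (i + 1)))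
      with hS
    have hSpos : 0 < S := by
      have : 0 ≤ ∑ i ∈ range k, (k.choose (i + 1) : ℝ) * (A (i + 1) * B (k - (i + 1))) :=
        Finset.sum_nonneg (fun i _ => mul_nonneg (Nat.cast_nonneg _)
          (mul_nonneg (hA _).le (hB _).le))
      linarith [hA (k + 1)]
    refine ⟨S / c, div_pos hSpos hc, fun s h1 h2 h3 => ?_⟩
    set ℓ := Real.log (|s.im| + 3) with hℓ
    have hℓ1 : 1 ≤ ℓ := swJ1_log_ge _ (abs_nonneg _)
    have hℓ0 : 0 < ℓ := by linarith
    have hlow' : c / ℓ ^ 9 ≤ ‖Lk 1 1 0 s‖ := by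
      refine le_trans ?_ (hlow s h1 h2 h3)
      apply div_le_div_of_nonneg_left hc.le
      · apply pow_pos
        apply Real.log_pos
        linarith
      · apply pow_le_pow_left₀
        · apply Real.log_nonneg
          linarith
        · apply Real.log_le_log
          · linarith
          · linarith
    have hLpos : 0 < ‖Lk 1 1 0 s‖ := lt_of_lt_of_le (by positivity) hlow'
    have hrec := Lk_succ_eq 1 1 k s h1
    rw [Finset.sum_range_succ'] at hrec
    simp only [Nat.choose_zero_right, Nat.cast_one, one_mul, Nat.sub_zero] at hrec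
    have hnorm : ‖Lk 1 1 0 s‖ * ‖Fk 1 1 k s‖ ≤ S * ℓ ^ (20 * (k + 1) - 9) := by
      rw [← norm_mul]
      have e : Lk 1 1 0 s * Fk 1 1 k s = Lk 1 1 (k + 1) s
          - ∑ i ∈ range k, (k.choose (i + 1) : ℂ) * (Lk 1 1 (i + 1) s * Fk 1 1 (k - (i + 1)) s) := by
        rw [hrec]; ring
      rw [e]
      refine (norm_sub_le _ _).trans ?_
      rw [hS, add_mul]
      apply add_le_add
      · refine (hLk (k + 1) s h1 h2 h3).trans ?_
        apply mul_le_mul_of_nonneg_left _ (hA _).le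
        exact pow_le_pow_right₀ hℓ1 (by omega)
      · refine (norm_sum_le _ _).trans ?_
        rw [Finset.sum_mul]
        apply Finset.sum_le_sum
        intro i hi
        have hik : i < k := Finset.mem_range.mp hi
        rw [norm_mul, norm_mul, Complex.norm_natCast, mul_assoc]
        apply mul_le_mul_of_nonneg_left _ (Nat.cast_nonneg _)
        have g1 := hLk (i + 1) s h1 h2 h3
        have g2 := hFk (k - (i + 1)) (by omega) s h1 h2 h3
        calc ‖Lk 1 1 (i + 1) s‖ * ‖Fk 1 1 (k - (i + 1)) s‖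
            ≤ (A (i + 1) * ℓ ^ (i + 1 + 1)) *
              (B (k - (i + 1)) * ℓ ^ (20 * (k - (i + 1) + 1))) :=
              mul_le_mul g1 g2 (norm_nonneg _) (by have := hA (i + 1); positivity)
          _ = (A (i + 1) * B (k - (i + 1))) * ℓ ^ ((i + 1 + 1) + 20 * (k - (i + 1) + 1)) := by
              rw [pow_add]; ring
          _ ≤ (A (i + 1) * B (k - (i + 1))) * ℓ ^ (20 * (k + 1) - 9) := by
              apply mul_le_mul_of_nonneg_left _ (mul_nonneg (hA _).le (hB _).le)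
              exact pow_le_pow_right₀ hℓ1 (by omega)
    have h4 : c / ℓ ^ 9 * ‖Fk 1 1 k s‖ ≤ S * ℓ ^ (20 * (k + 1) - 9) :=
      (mul_le_mul_of_nonneg_right hlow' (norm_nonneg _)).trans hnorm
    have h5 : ‖Fk 1 1 k s‖ ≤ (S * ℓ ^ (20 * (k + 1) - 9)) / (c / ℓ ^ 9) := by
      rw [le_div_iff₀ (by positivity)]
      linarith [mul_comm (c / ℓ ^ 9) ‖Fk 1 1 k s‖]
    refine h5.trans (le_of_eq ?_)
    have h6 : 20 * (k + 1) = (20 * (k + 1) - 9) + 9 := by omega
    conv_rhs => rw [h6, pow_add]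
    field_simp

theorem zetaF_high (k : ℕ) : ∃ C : ℝ, 0 < C ∧ ∀ s : ℂ, 1 < s.re → s.re ≤ 2 → 1 ≤ |s.im| →
    ‖LSeries (fun n => (((Lam n - 1) * Real.log n ^ k : ℝ) : ℂ)) s‖
      ≤ C * Real.log (|s.im| + 3) ^ (20 * (k + 1)) := by
  obtain ⟨C1, hC1, h1⟩ := swJ1_Fk k
  obtain ⟨C2, hC2, h2⟩ := swJ1_Lk k
  refine ⟨C1 + C2, add_pos hC1 hC2, fun s hs1 hs2 hs3 => ?_⟩
  have hχ : ∀ n : ℕ, (1 : DirichletCharacter ℂ 1) (n : ZMod 1) = 1 := by
    intro n
    have : (n : ZMod 1) = 1 := Subsingleton.elim _ _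
    rw [this, map_one]
  have e : (fun n : ℕ => (((Lam n - 1) * Real.log n ^ k : ℝ) : ℂ)) =
      (fun n : ℕ => ((Lam n * Real.log n ^ k : ℝ) : ℂ) * (1 : DirichletCharacter ℂ 1) (n : ZMod 1))
      - (fun n : ℕ => ((Real.log n : ℝ) : ℂ) ^ k * (1 : DirichletCharacter ℂ 1) (n : ZMod 1)) := by
    funext n
    simp only [Pi.sub_apply, hχ, mul_one]
    push_cast
    ring
  have e2 : LSeries (fun n => (((Lam n - 1) * Real.log n ^ k : ℝ) : ℂ)) s
      = Fk 1 1 k s - Lk 1 1 k s := by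
    rw [e]
    exact LSeries_sub (Fk_summable 1 1 k s hs1) (Lk_summable 1 1 k s hs1)
  rw [e2]
  refine (norm_sub_le _ _).trans ?_
  rw [add_mul]
  apply add_le_add (h1 s hs1 hs2 hs3)
  refine (h2 s hs1 hs2 hs3).trans ?_
  apply mul_le_mul_of_nonneg_left _ hC2.le
  exact pow_le_pow_right₀ (swJ1_log_ge _ (abs_nonneg _)) (by omega)

end Pool.Agent.H91.EHA

end

section

/-!
# The Siegel-Walfisz theorem for primitive characters

`a_n = Λ(n)χ(n)(log n)^k`, `LSeries a = Fk q χ k`.  By `Fk_le k ε'` and `smooth_gen`, for `2 ≤ N ≤ 2z`: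
`‖∑ a_n om(n/N)‖ ≤ C q^{ε'} z` (`N = 1`: `a_1 = 0`).  `smooth_to_sharp` with `y = z`,
`H = log(2z)^{k+1}`, `P = 1`, `δ = 1/(2 (log y)^{c+1})`-like: for `√y ≤ z ≤ y`
`‖∑_{n≤z} a_n‖ ≤ C z (q^{ε'} δ^{-3} log z + (log 2z)^{k+1} δ) + ...`.
Abel summation divides by `(log n)^k` (for `n ≤ √y` use the trivial bound `√y log y`); take
`ε' = 1/(B+1)`, `k = 4c + 10`, so `q^{ε'} ≤ log y`.
For small `y` (bounded) enlarge the constant (`‖sum‖ ≤ y log y`).
-/

set_option autoImplicit false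

namespace Pool.Agent.H91.EHA

open Finset
open Pool.Agent.H91.PK

private theorem swI_abel (a : ℕ → ℂ) (f : ℕ → ℝ) (M : ℝ) (z0 y : ℕ) (hz : z0 + 1 ≤ y)
    (hf : ∀ n, z0 + 1 ≤ n → f (n + 1) ≤ f n) (hf0 : ∀ n, z0 + 1 ≤ n → 0 ≤ f n)
    (hA : ∀ z, z ≤ y → ‖∑ n ∈ Icc 1 z, a n‖ ≤ M) :
    ‖∑ n ∈ Ioc z0 y, (f n : ℂ) * a n‖ ≤ 2 * M * f (z0 + 1) := by
  have hM : 0 ≤ M := le_trans (norm_nonneg _) (hA 0 (by omega))
  have claim : ∀ m, z0 + 1 ≤ m → m ≤ y →
      ‖∑ n ∈ Ioc z0 m, (f n : ℂ) * a n - (f m : ℂ) * ∑ n ∈ Icc 1 m, a n‖ ≤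
        M * (2 * f (z0 + 1) - f m) := by
    intro m hm
    induction m, hm using Nat.le_induction with
    | base =>
      intro hy
      rw [Finset.sum_Icc_succ_top (by omega : 1 ≤ z0 + 1), mul_add,
        show Ioc z0 (z0 + 1) = {z0 + 1} by ext x; simp only [mem_Ioc, mem_singleton]; omega,
        Finset.sum_singleton]
      have e : (f (z0 + 1) : ℂ) * a (z0 + 1) - ((f (z0 + 1) : ℂ) * ∑ n ∈ Icc 1 z0, a n +
          (f (z0 + 1) : ℂ) * a (z0 + 1)) = -((f (z0 + 1) : ℂ) * ∑ n ∈ Icc 1 z0, a n) := by ring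
      rw [e, norm_neg, norm_mul, Complex.norm_real, Real.norm_eq_abs,
        abs_of_nonneg (hf0 _ le_rfl)]
      have := mul_le_mul_of_nonneg_left (hA z0 (by omega)) (hf0 _ (le_refl (z0 + 1)))
      linarith
    | succ m hm ih =>
      intro hy
      have ih' := ih (by omega)
      rw [Finset.sum_Ioc_succ_top (by omega : z0 ≤ m), Finset.sum_Icc_succ_top (by omega : 1 ≤ m + 1)]
      have e : ∑ n ∈ Ioc z0 m, (f n : ℂ) * a n + (f (m + 1) : ℂ) * a (m + 1) -
          (f (m + 1) : ℂ) * (∑ n ∈ Icc 1 m, a n + a (m + 1)) =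
          (∑ n ∈ Ioc z0 m, (f n : ℂ) * a n - (f m : ℂ) * ∑ n ∈ Icc 1 m, a n) +
            ((f m - f (m + 1) : ℝ) : ℂ) * ∑ n ∈ Icc 1 m, a n := by
        push_cast; ring
      rw [e]
      refine le_trans (norm_add_le _ _) ?_
      rw [norm_mul, Complex.norm_real, Real.norm_eq_abs, abs_of_nonneg (sub_nonneg.2 (hf m hm))]
      have := mul_le_mul_of_nonneg_left (hA m (by omega)) (sub_nonneg.2 (hf m hm))
      nlinarith
  have h1 := claim y hz le_rfl
  have h2 : ‖(f y : ℂ) * ∑ n ∈ Icc 1 y, a n‖ ≤ f y * M := by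
    rw [norm_mul, Complex.norm_real, Real.norm_eq_abs, abs_of_nonneg (hf0 y hz)]
    exact mul_le_mul_of_nonneg_left (hA y le_rfl) (hf0 y hz)
  have e : ∑ n ∈ Ioc z0 y, (f n : ℂ) * a n =
      (∑ n ∈ Ioc z0 y, (f n : ℂ) * a n - (f y : ℂ) * ∑ n ∈ Icc 1 y, a n) +
        (f y : ℂ) * ∑ n ∈ Icc 1 y, a n := by ring
  rw [e]
  refine le_trans (norm_add_le _ _) ?_
  linarith

private theorem swI_Lam_le {n : ℕ} : Lam n ≤ Real.log n := ArithmeticFunction.vonMangoldt_le_log

private theorem swI_Lam_nonneg {n : ℕ} : 0 ≤ Lam n := ArithmeticFunction.vonMangoldt_nonneg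

private theorem swI_pow_le (m : ℕ) {L : ℝ} (hL : 0 ≤ L) : L ^ m ≤ m.factorial * Real.exp L := by
  have h := Real.pow_div_factorial_le_exp L hL m
  have h0 : (0 : ℝ) < m.factorial := by exact_mod_cast m.factorial_pos
  rw [div_le_iff₀ h0] at h
  linarith

/-- The partial sums of `Λ(n) χ(n) (log n)^k`. -/
private theorem swI_partial (k : ℕ) (ε : ℝ) (hε : 0 < ε) : ∃ C : ℝ, 0 < C ∧ ∀ q : ℕ, 2 ≤ q →
    ∀ χ : DirichletCharacter ℂ q, χ.IsPrimitive → ∀ (y : ℕ) (δ : ℝ), 2 ≤ y → 0 < δ → δ ≤ 1 / 2 →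
      ∀ z ≤ y, ‖∑ n ∈ Icc 1 z, ((Lam n * Real.log n ^ k : ℝ) : ℂ) * χ (n : ZMod q)‖ ≤
        C * ((q : ℝ) ^ ε * y * (1 / δ ^ 3 + Real.log y) +
          Real.log (2 * y) ^ (k + 1) * (δ * y + Real.log y + 1 / δ ^ 3)) := by
  obtain ⟨C1, hC1, h1⟩ := Fk_le k ε hε
  obtain ⟨C2, hC2, h2⟩ := smooth_gen (20 * (k + 1))
  obtain ⟨C3, hC3, h3⟩ := smooth_to_sharp
  refine ⟨C3 * (2 * C2 * C1 + 1), by positivity, ?_⟩
  intro q hq χ hχ y δ hy hδ hδ2 z hz
  have hq0 : (0 : ℝ) < q := by exact_mod_cast (by omega : 0 < q)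
  have hqe : 0 < (q : ℝ) ^ ε := Real.rpow_pos_of_pos hq0 ε
  have hy0 : (0 : ℝ) < y := by exact_mod_cast (by omega : 0 < y)
  have hly : 0 ≤ Real.log y := Real.log_natCast_nonneg y
  have hl2y : 0 ≤ Real.log (2 * y) := Real.log_nonneg (by
    have : (2 : ℝ) ≤ y := by exact_mod_cast hy
    linarith)
  have hRHS : 0 ≤ C3 * (2 * C2 * C1 + 1) * ((q : ℝ) ^ ε * y * (1 / δ ^ 3 + Real.log y) +
          Real.log (2 * y) ^ (k + 1) * (δ * y + Real.log y + 1 / δ ^ 3)) := by positivity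
  set a : ℕ → ℂ := fun n => ((Lam n * Real.log n ^ k : ℝ) : ℂ) * χ (n : ZMod q) with ha
  have ha1 : a 1 = 0 := by
    simp [ha, Lam]
  rcases Nat.lt_or_ge z 2 with hz2 | hz2
  · have hzero : ∑ n ∈ Icc 1 z, a n = 0 := by
      apply Finset.sum_eq_zero
      intro n hn
      have := Finset.mem_Icc.1 hn
      have hn1 : n = 1 := by omega
      rw [hn1, ha1]
    rw [hzero, norm_zero]
    exact hRHS
  have hnorm : ∀ n, n ≤ 2 * y → ‖a n‖ ≤ Real.log (2 * y) ^ (k + 1) := by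
    intro n hn
    rw [ha]
    simp only
    rw [norm_mul, Complex.norm_real, Real.norm_eq_abs]
    have hl0 : 0 ≤ Real.log n := Real.log_natCast_nonneg n
    have hln : Real.log n ≤ Real.log (2 * y) := by
      rcases Nat.eq_zero_or_pos n with h0 | h0
      · subst h0; simpa using hl2y
      · apply Real.log_le_log (by exact_mod_cast h0)
        have : (n : ℝ) ≤ ((2 * y : ℕ) : ℝ) := by exact_mod_cast hn
        push_cast at this
        exact this
    rw [abs_of_nonneg (mul_nonneg swI_Lam_nonneg (pow_nonneg hl0 k))]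
    calc Lam n * Real.log n ^ k * ‖χ (n : ZMod q)‖ ≤ Lam n * Real.log n ^ k * 1 :=
          mul_le_mul_of_nonneg_left (DirichletCharacter.norm_le_one χ _)
            (mul_nonneg swI_Lam_nonneg (pow_nonneg hl0 k))
      _ ≤ Real.log n * Real.log n ^ k := by
          rw [mul_one]
          exact mul_le_mul_of_nonneg_right swI_Lam_le (pow_nonneg hl0 k)
      _ = Real.log n ^ (k + 1) := by ring
      _ ≤ Real.log (2 * y) ^ (k + 1) := pow_le_pow_left₀ hl0 hln _
  have key := h3 a (2 * C2 * C1 * ((q : ℝ) ^ ε) * y) (Real.log (2 * y) ^ (k + 1)) 1 z δ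
    (by positivity) (by positivity) le_rfl hz2 hδ hδ2 ?_ ?_
  · refine le_trans key ?_
    have hlz : Real.log z ≤ Real.log y := by
      apply Real.log_le_log (by exact_mod_cast (by omega : 0 < z))
      exact_mod_cast hz
    have hzy : (z : ℝ) ≤ y := by exact_mod_cast hz
    have hd3 : 0 < 1 / δ ^ 3 := by positivity
    have e1 : 2 * C2 * C1 * (q : ℝ) ^ ε * y * (1 / δ ^ 3 + Real.log z) ≤
        (2 * C2 * C1 + 1) * ((q : ℝ) ^ ε * y * (1 / δ ^ 3 + Real.log y)) := by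
      have e2 : (q : ℝ) ^ ε * y * (1 / δ ^ 3 + Real.log z) ≤
          (q : ℝ) ^ ε * y * (1 / δ ^ 3 + Real.log y) := by gcongr
      have e3 : 0 ≤ (q : ℝ) ^ ε * y * (1 / δ ^ 3 + Real.log y) := by positivity
      have e4 : 0 ≤ 2 * C2 * C1 := by positivity
      nlinarith [mul_le_mul_of_nonneg_left e2 e4]
    have e5 : Real.log (2 * y) ^ (k + 1) * (δ * z + Real.log z + 1 / δ ^ 3) ≤
        (2 * C2 * C1 + 1) *
          (Real.log (2 * y) ^ (k + 1) * (δ * y + Real.log y + 1 / δ ^ 3)) := by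
      have e6 : Real.log (2 * y) ^ (k + 1) * (δ * z + Real.log z + 1 / δ ^ 3) ≤
          Real.log (2 * y) ^ (k + 1) * (δ * y + Real.log y + 1 / δ ^ 3) := by gcongr
      have e7 : 0 ≤ Real.log (2 * y) ^ (k + 1) * (δ * y + Real.log y + 1 / δ ^ 3) := by positivity
      have e4 : 0 ≤ 2 * C2 * C1 := by positivity
      nlinarith [mul_nonneg e4 e7]
    have e8 := add_le_add e1 e5
    calc C3 * (2 * C2 * C1 * (q : ℝ) ^ ε * y * (1 / δ ^ 3 + Real.log z) +
          Real.log (2 * y) ^ (k + 1) * (δ * z + Real.log z + 1 / δ ^ 3))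
        ≤ C3 * ((2 * C2 * C1 + 1) * ((q : ℝ) ^ ε * y * (1 / δ ^ 3 + Real.log y)) +
          (2 * C2 * C1 + 1) *
          (Real.log (2 * y) ^ (k + 1) * (δ * y + Real.log y + 1 / δ ^ 3))) :=
          mul_le_mul_of_nonneg_left e8 hC3.le
      _ = _ := by ring
  · intro N hN1 hN2
    rcases Nat.lt_or_ge N 2 with hN | hN
    · have hN' : N = 1 := by omega
      subst hN'
      rw [Finset.Icc_self, Finset.sum_singleton, ha1, zero_mul, norm_zero]
      positivity
    · have h4 := h2 a (C1 * (q : ℝ) ^ ε) (by positivity) (fun s hs hs2 =>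
        ⟨Fk_summable q χ k s hs, h1 q hq χ hχ s hs hs2⟩) N hN
      refine le_trans h4 ?_
      have hN3 : (N : ℝ) ≤ 2 * y := by
        have : (N : ℝ) ≤ ((2 * y : ℕ) : ℝ) := by exact_mod_cast (by omega : N ≤ 2 * y)
        push_cast at this
        exact this
      calc C2 * (C1 * (q : ℝ) ^ ε) * N ≤ C2 * (C1 * (q : ℝ) ^ ε) * (2 * y) := by gcongr
        _ = 2 * C2 * C1 * (q : ℝ) ^ ε * y := by ring
  · intro u v huv hv
    calc ∑ n ∈ Ioc u v, ‖a n‖ ≤ ∑ n ∈ Ioc u v, Real.log (2 * y) ^ (k + 1) := by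
          apply Finset.sum_le_sum
          intro n hn
          exact hnorm n (by have := Finset.mem_Ioc.1 hn; omega)
      _ = ((v : ℝ) - u) * Real.log (2 * y) ^ (k + 1) := by
          rw [Finset.sum_const, Nat.card_Ioc, nsmul_eq_mul, Nat.cast_sub huv]
      _ ≤ Real.log (2 * y) ^ (k + 1) * ((v : ℝ) - u + 1) := by
          have : 0 ≤ Real.log (2 * y) ^ (k + 1) := by positivity
          nlinarith

theorem siegel_walfisz (B c : ℕ) : ∃ C : ℝ, 0 < C ∧ ∀ q : ℕ, 2 ≤ q →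
    ∀ χ : DirichletCharacter ℂ q, χ.IsPrimitive → ∀ y : ℕ, 2 ≤ y → (q : ℝ) ≤ Real.log y ^ B →
      ‖∑ n ∈ Icc 1 y, ((Lam n : ℝ) : ℂ) * χ (n : ZMod q)‖ ≤ C * y / Real.log y ^ c := by
  obtain ⟨C, hC, hpart⟩ := swI_partial (4 * c + 4) (1 / ((B : ℝ) + 1)) (by positivity)
  set k : ℕ := 4 * c + 4 with hk
  refine ⟨2 ^ (c + 1) * (c + 1).factorial + 2 ^ (k + 1) * (C * (9 + 2 ^ k +
    9 * 2 ^ (k + 1) * k.factorial)), by positivity, ?_⟩
  intro q hq χ hχ y hy hqy
  have hq2 : (2 : ℝ) ≤ q := by exact_mod_cast hq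
  have hy2 : (2 : ℝ) ≤ y := by exact_mod_cast hy
  have hy0 : (0 : ℝ) < y := by linarith
  set L : ℝ := Real.log y with hL
  have hL0 : 0 ≤ L := Real.log_natCast_nonneg y
  have hL1 : 1 < L := by
    by_contra h
    have := pow_le_one₀ (n := B) hL0 (not_lt.1 h)
    linarith
  have hLpos : 0 < L := by linarith
  -- the power of q
  have hqe : (q : ℝ) ^ (1 / ((B : ℝ) + 1)) ≤ L := by
    calc (q : ℝ) ^ (1 / ((B : ℝ) + 1)) ≤ (L ^ B) ^ (1 / ((B : ℝ) + 1)) :=
          Real.rpow_le_rpow (by linarith) hqy (by positivity)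
      _ = L ^ ((B : ℝ) * (1 / ((B : ℝ) + 1))) := by
          rw [← Real.rpow_natCast L B, ← Real.rpow_mul hL0]
      _ ≤ L ^ (1 : ℝ) := by
          apply Real.rpow_le_rpow_of_exponent_le hL1.le
          rw [mul_one_div, div_le_one (by positivity)]
          linarith
      _ = L := Real.rpow_one L
  set δ : ℝ := 1 / (2 * L ^ (c + 1)) with hδ
  have hLc : 1 ≤ L ^ (c + 1) := one_le_pow₀ hL1.le
  have hδ0 : 0 < δ := by positivity
  have hδ2 : δ ≤ 1 / 2 := by
    rw [hδ]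
    apply one_div_le_one_div_of_le (by norm_num)
    linarith
  have hδ3 : 1 / δ ^ 3 = 8 * L ^ (3 * c + 3) := by
    rw [hδ, one_div, one_div, inv_pow, inv_inv, mul_pow, ← pow_mul]
    rw [show (c + 1) * 3 = 3 * c + 3 by ring]
    norm_num
  have hl2y : Real.log (2 * y) ≤ 2 * L := by
    rw [Real.log_mul (by norm_num) (by positivity)]
    have : Real.log 2 ≤ L := Real.log_le_log (by norm_num) hy2
    linarith
  have hl2y0 : 0 ≤ Real.log (2 * y) := Real.log_nonneg (by linarith)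
  -- the bound for the partial sums
  set M : ℝ := C * (L * y * (9 * L ^ (3 * c + 3)) +
    (2 * L) ^ (k + 1) * (δ * y + 9 * L ^ (3 * c + 3))) with hM
  have hL33 : L ≤ L ^ (3 * c + 3) := by
    calc L = L ^ 1 := (pow_one L).symm
      _ ≤ L ^ (3 * c + 3) := pow_le_pow_right₀ hL1.le (by omega)
  have hA : ∀ z ≤ y, ‖∑ n ∈ Icc 1 z, ((Lam n * Real.log n ^ k : ℝ) : ℂ) * χ (n : ZMod q)‖ ≤ M := by
    intro z hz
    refine le_trans (hpart q hq χ hχ y δ hy hδ0 hδ2 z hz) ?_
    rw [hM, hδ3]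
    apply mul_le_mul_of_nonneg_left _ hC.le
    apply add_le_add
    · have e1 : 8 * L ^ (3 * c + 3) + L ≤ 9 * L ^ (3 * c + 3) := by linarith
      have e2 : (q : ℝ) ^ (1 / ((B : ℝ) + 1)) * y ≤ L * y :=
        mul_le_mul_of_nonneg_right hqe hy0.le
      exact mul_le_mul e2 e1 (by positivity) (by positivity)
    · have e1 : δ * y + L + 8 * L ^ (3 * c + 3) ≤ δ * y + 9 * L ^ (3 * c + 3) := by linarith
      exact mul_le_mul (pow_le_pow_left₀ hl2y0 hl2y _) e1 (by positivity) (by positivity)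
  -- Abel summation
  set z0 : ℕ := Nat.sqrt y with hz0
  have hz1 : 1 ≤ z0 := Nat.sqrt_pos.2 (by omega)
  have hzy : z0 + 1 ≤ y := by
    have : z0 < y := Nat.sqrt_lt_self (by omega)
    omega
  have hlogpos : ∀ n : ℕ, z0 + 1 ≤ n → 0 < Real.log n := by
    intro n hn
    exact Real.log_pos (by exact_mod_cast (by omega : 1 < n))
  have hab := swI_abel (fun n => ((Lam n * Real.log n ^ k : ℝ) : ℂ) * χ (n : ZMod q))
    (fun n => 1 / Real.log n ^ k) M z0 y hzy
    (by
      intro n hn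
      apply one_div_le_one_div_of_le (pow_pos (hlogpos n hn) k)
      apply pow_le_pow_left₀ (hlogpos n hn).le
      apply Real.log_le_log (by exact_mod_cast (by omega : 0 < n))
      push_cast
      linarith)
    (by
      intro n hn
      have := hlogpos n hn
      positivity)
    hA
  have hsplit : ∑ n ∈ Icc 1 y, ((Lam n : ℝ) : ℂ) * χ (n : ZMod q) =
      ∑ n ∈ Icc 1 z0, ((Lam n : ℝ) : ℂ) * χ (n : ZMod q) +
      ∑ n ∈ Ioc z0 y, ((1 / Real.log n ^ k : ℝ) : ℂ) *
        (((Lam n * Real.log n ^ k : ℝ) : ℂ) * χ (n : ZMod q)) := by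
    have e1 : Icc 1 y = Icc 1 z0 ∪ Ioc z0 y := by
      ext n; simp only [mem_Icc, mem_union, mem_Ioc]; omega
    have e2 : Disjoint (Icc 1 z0) (Ioc z0 y) := by
      rw [Finset.disjoint_left]
      intro n h1 h2
      have := Finset.mem_Icc.1 h1
      have := Finset.mem_Ioc.1 h2
      omega
    rw [e1, Finset.sum_union e2]
    congr 1
    apply Finset.sum_congr rfl
    intro n hn
    have hn' := hlogpos n (by have := Finset.mem_Ioc.1 hn; omega)
    rw [← mul_assoc, ← Complex.ofReal_mul]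
    congr 2
    field_simp
  have hz0r : (z0 : ℝ) ≤ Real.sqrt y := Real.nat_sqrt_le_real_sqrt
  have hz0r' : Real.sqrt y ≤ (z0 : ℝ) + 1 := Real.real_sqrt_le_nat_sqrt_succ
  have hfirst : ‖∑ n ∈ Icc 1 z0, ((Lam n : ℝ) : ℂ) * χ (n : ZMod q)‖ ≤ Real.sqrt y * L := by
    calc ‖∑ n ∈ Icc 1 z0, ((Lam n : ℝ) : ℂ) * χ (n : ZMod q)‖
        ≤ ∑ n ∈ Icc 1 z0, ‖((Lam n : ℝ) : ℂ) * χ (n : ZMod q)‖ := norm_sum_le _ _
      _ ≤ ∑ n ∈ Icc 1 z0, L := by
          apply Finset.sum_le_sum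
          intro n hn
          have hn' := Finset.mem_Icc.1 hn
          rw [norm_mul, Complex.norm_real, Real.norm_eq_abs, abs_of_nonneg swI_Lam_nonneg]
          calc Lam n * ‖χ (n : ZMod q)‖ ≤ Lam n * 1 :=
                mul_le_mul_of_nonneg_left (DirichletCharacter.norm_le_one χ _) swI_Lam_nonneg
            _ ≤ Real.log n := by rw [mul_one]; exact swI_Lam_le
            _ ≤ L := by
                apply Real.log_le_log (by exact_mod_cast (by omega : 0 < n))
                exact_mod_cast (by omega : n ≤ y)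
      _ = z0 * L := by rw [Finset.sum_const, Nat.card_Icc, nsmul_eq_mul]; simp
      _ ≤ Real.sqrt y * L := mul_le_mul_of_nonneg_right hz0r hL0
  have hlog0 : L / 2 ≤ Real.log ((z0 + 1 : ℕ) : ℝ) := by
    have e1 : Real.log (Real.sqrt y) = L / 2 := Real.log_sqrt hy0.le
    rw [← e1]
    apply Real.log_le_log (Real.sqrt_pos.2 hy0)
    push_cast
    exact hz0r'
  have hM0 : 0 ≤ M := by positivity
  have hsecond : ‖∑ n ∈ Ioc z0 y, ((1 / Real.log n ^ k : ℝ) : ℂ) *
        (((Lam n * Real.log n ^ k : ℝ) : ℂ) * χ (n : ZMod q))‖ ≤ 2 ^ (k + 1) * M / L ^ k := by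
    refine le_trans hab ?_
    have e1 : 1 / Real.log ((z0 + 1 : ℕ) : ℝ) ^ k ≤ 1 / (L / 2) ^ k := by
      apply one_div_le_one_div_of_le (by positivity)
      exact pow_le_pow_left₀ (by positivity) hlog0 k
    calc 2 * M * (1 / Real.log ((z0 + 1 : ℕ) : ℝ) ^ k) ≤ 2 * M * (1 / (L / 2) ^ k) :=
          mul_le_mul_of_nonneg_left e1 (by positivity)
      _ = 2 ^ (k + 1) * M / L ^ k := by
          rw [div_pow, pow_succ]
          field_simp
          try ring
  -- final estimates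
  have hexp : Real.exp L = y := Real.exp_log hy0
  have hexp2 : Real.exp (L / 2) = Real.sqrt y := by
    rw [show L / 2 = Real.log (Real.sqrt y) from (Real.log_sqrt hy0.le).symm,
      Real.exp_log (Real.sqrt_pos.2 hy0)]
  have hsq : Real.sqrt y * Real.sqrt y = y := Real.mul_self_sqrt hy0.le
  have hsq0 : 0 < Real.sqrt y := Real.sqrt_pos.2 hy0
  have f1 : Real.sqrt y * L * L ^ c ≤ 2 ^ (c + 1) * (c + 1).factorial * y := by
    have e1 := swI_pow_le (c + 1) (L := L / 2) (by positivity)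
    rw [hexp2, div_pow, div_le_iff₀ (by positivity)] at e1
    calc Real.sqrt y * L * L ^ c = Real.sqrt y * L ^ (c + 1) := by ring
      _ ≤ Real.sqrt y * ((c + 1).factorial * Real.sqrt y * 2 ^ (c + 1)) :=
          mul_le_mul_of_nonneg_left e1 hsq0.le
      _ = 2 ^ (c + 1) * (c + 1).factorial * (Real.sqrt y * Real.sqrt y) := by ring
      _ = 2 ^ (c + 1) * (c + 1).factorial * y := by rw [hsq]
  have f2 : M * L ^ c ≤ L ^ k * (C * (9 + 2 ^ k + 9 * 2 ^ (k + 1) * k.factorial)) * y := by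
    have e1 := swI_pow_le k hL0
    rw [hexp] at e1
    have g1 : L * y * (9 * L ^ (3 * c + 3)) * L ^ c = L ^ k * 9 * y := by
      rw [hk]; ring
    have g2 : (2 * L) ^ (k + 1) * (δ * y) * L ^ c = L ^ k * 2 ^ k * y := by
      rw [hδ, mul_pow]
      have : L ^ (c + 1) ≠ 0 := by positivity
      field_simp
      ring
    have g3 : (2 * L) ^ (k + 1) * (9 * L ^ (3 * c + 3)) * L ^ c ≤
        L ^ k * (9 * 2 ^ (k + 1) * k.factorial) * y := by
      calc (2 * L) ^ (k + 1) * (9 * L ^ (3 * c + 3)) * L ^ c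
          = L ^ k * (9 * 2 ^ (k + 1)) * L ^ (4 * c + 4) := by
            rw [mul_pow]; ring
        _ ≤ L ^ k * (9 * 2 ^ (k + 1)) * (k.factorial * y) :=
            mul_le_mul_of_nonneg_left e1 (by positivity)
        _ = L ^ k * (9 * 2 ^ (k + 1) * k.factorial) * y := by ring
    have g4 : M * L ^ c = C * (L * y * (9 * L ^ (3 * c + 3)) * L ^ c +
        (2 * L) ^ (k + 1) * (δ * y) * L ^ c +
        (2 * L) ^ (k + 1) * (9 * L ^ (3 * c + 3)) * L ^ c) := by
      rw [hM]; ring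
    rw [g4, g1, g2]
    calc C * (L ^ k * 9 * y + L ^ k * 2 ^ k * y +
          (2 * L) ^ (k + 1) * (9 * L ^ (3 * c + 3)) * L ^ c)
        ≤ C * (L ^ k * 9 * y + L ^ k * 2 ^ k * y +
          L ^ k * (9 * 2 ^ (k + 1) * k.factorial) * y) := by
          apply mul_le_mul_of_nonneg_left _ hC.le
          linarith
      _ = L ^ k * (C * (9 + 2 ^ k + 9 * 2 ^ (k + 1) * k.factorial)) * y := by ring
  rw [hsplit]
  refine le_trans (norm_add_le _ _) ?_
  refine le_trans (add_le_add hfirst hsecond) ?_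
  rw [le_div_iff₀ (by positivity), add_mul, add_mul]
  apply add_le_add f1
  rw [div_mul_eq_mul_div, div_le_iff₀ (by positivity)]
  calc 2 ^ (k + 1) * M * L ^ c = 2 ^ (k + 1) * (M * L ^ c) := by ring
    _ ≤ 2 ^ (k + 1) * (L ^ k * (C * (9 + 2 ^ k + 9 * 2 ^ (k + 1) * k.factorial)) * y) :=
        mul_le_mul_of_nonneg_left f2 (by positivity)
    _ = 2 ^ (k + 1) * (C * (9 + 2 ^ k + 9 * 2 ^ (k + 1) * k.factorial)) * y * L ^ k := by ring

end Pool.Agent.H91.EHA

end

section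

/-!
# The prime number theorem with log-power saving

Same argument as in SwI with `a_n = (Λ(n) - 1)(log n)^k`.
-/

set_option autoImplicit false

namespace Pool.Agent.H91.EHA

open Finset
open Pool.Agent.H91.PK

/-- Abel's inequality. -/
theorem swj3_abel (a g : ℕ → ℝ) (M : ℝ) (n : ℕ) (hg : Antitone g) (hg0 : ∀ i, 0 ≤ g i)
    (hM : ∀ j, j ≤ n → |∑ i ∈ range j, a i| ≤ M) :
    |∑ i ∈ range n, g i * a i| ≤ M * g 0 := by
  have hM0 : 0 ≤ M := by
    have := hM 0 (Nat.zero_le _)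
    simpa using this
  rcases Nat.eq_zero_or_pos n with rfl | hn
  · simp only [Finset.range_zero, Finset.sum_empty, abs_zero]
    exact mul_nonneg hM0 (hg0 0)
  have h1 := Finset.sum_range_by_parts (M := ℝ) g a n
  simp only [smul_eq_mul] at h1
  rw [h1]
  have h2 : |g (n - 1) * ∑ i ∈ range n, a i| ≤ M * g (n - 1) := by
    rw [abs_mul, abs_of_nonneg (hg0 _), mul_comm]
    exact mul_le_mul_of_nonneg_right (hM n le_rfl) (hg0 _)
  have h3 : |∑ i ∈ range (n - 1), (g (i + 1) - g i) * ∑ j ∈ range (i + 1), a j|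
      ≤ ∑ i ∈ range (n - 1), M * (g i - g (i + 1)) := by
    refine (Finset.abs_sum_le_sum_abs _ _).trans (Finset.sum_le_sum fun i hi => ?_)
    have hi' := Finset.mem_range.mp hi
    have h4 : 0 ≤ g i - g (i + 1) := sub_nonneg.mpr (hg (Nat.le_succ i))
    rw [abs_mul, abs_sub_comm, abs_of_nonneg h4, mul_comm]
    exact mul_le_mul_of_nonneg_right (hM (i + 1) (by omega)) h4
  have h5 : ∑ i ∈ range (n - 1), M * (g i - g (i + 1)) = M * (g 0 - g (n - 1)) := by
    rw [← Finset.mul_sum, Finset.sum_range_sub']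
  calc |g (n - 1) * ∑ i ∈ range n, a i
        - ∑ i ∈ range (n - 1), (g (i + 1) - g i) * ∑ j ∈ range (i + 1), a j|
      ≤ |g (n - 1) * ∑ i ∈ range n, a i|
        + |∑ i ∈ range (n - 1), (g (i + 1) - g i) * ∑ j ∈ range (i + 1), a j| := abs_sub _ _
    _ ≤ M * g (n - 1) + M * (g 0 - g (n - 1)) := add_le_add h2 (h3.trans h5.le)
    _ = M * g 0 := by ring

theorem swj3_Lam_nonneg (n : ℕ) : 0 ≤ Lam n := ArithmeticFunction.vonMangoldt_nonneg

theorem swj3_Lam_le (n : ℕ) : Lam n ≤ Real.log n := ArithmeticFunction.vonMangoldt_le_log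

theorem swj3_log_nonneg (n : ℕ) : 0 ≤ Real.log (n : ℝ) := Real.log_natCast_nonneg n

theorem swj3_a_le (k n : ℕ) :
    |(Lam n - 1) * Real.log n ^ k| ≤ (Real.log n + 1) ^ (k + 1) := by
  have h0 := swj3_log_nonneg n
  have h1 := swj3_Lam_nonneg n
  have h2 := swj3_Lam_le n
  have h3 : |Lam n - 1| ≤ Real.log n + 1 := by
    rw [abs_le]; constructor <;> linarith
  rw [abs_mul, abs_of_nonneg (pow_nonneg h0 k), pow_succ, mul_comm]
  refine mul_le_mul ?_ h3 (abs_nonneg _) (by positivity)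
  exact pow_le_pow_left₀ h0 (by linarith) k

/-- summability of the Dirichlet series -/
theorem swj3_summable (k : ℕ) (s : ℂ) (hs : 1 < s.re) :
    LSeriesSummable (fun n => (((Lam n - 1) * Real.log n ^ k : ℝ) : ℂ)) s := by
  set ε : ℝ := (s.re - 1) / 2 with hε
  have hε0 : 0 < ε := by rw [hε]; linarith
  set η : ℝ := ε / (k + 1) with hη
  have hη0 : 0 < η := by positivity
  refine LSeriesSummable_of_le_const_mul_rpow (x := 1 + ε) (by rw [hε]; linarith)
    ⟨(1 / η + 1) ^ (k + 1), fun n hn => ?_⟩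
  have hn1 : (1 : ℝ) ≤ n := by exact_mod_cast Nat.one_le_iff_ne_zero.mpr hn
  rw [Complex.norm_real, Real.norm_eq_abs]
  refine (swj3_a_le k n).trans ?_
  have h1 : Real.log n + 1 ≤ (1 / η + 1) * (n : ℝ) ^ η := by
    have h2 := Real.log_le_rpow_div (by positivity : (0 : ℝ) ≤ n) hη0
    have h3 : (1 : ℝ) ≤ (n : ℝ) ^ η := Real.one_le_rpow hn1 hη0.le
    have h4 : (n : ℝ) ^ η / η = 1 / η * (n : ℝ) ^ η := by ring
    rw [h4] at h2
    linarith
  have h5 : (n : ℝ) ^ (1 + ε - 1) = ((n : ℝ) ^ η) ^ (k + 1) := by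
    rw [← Real.rpow_natCast, ← Real.rpow_mul (by positivity)]
    congr 1
    rw [hη]
    push_cast
    field_simp
    ring
  rw [h5, ← mul_pow]
  refine pow_le_pow_left₀ ?_ h1 _
  have := swj3_log_nonneg n
  linarith

/-- the smooth sums -/
theorem swj3_smooth (k : ℕ) : ∃ C : ℝ, 0 < C ∧ ∀ N : ℕ, 1 ≤ N →
    ‖∑ n ∈ Icc 1 N, (((Lam n - 1) * Real.log n ^ k : ℝ) : ℂ) * ((om ((n : ℝ) / N) : ℝ) : ℂ)‖
      ≤ C * N := by
  obtain ⟨C₁, hC₁, h₁⟩ := zetaF_high k
  obtain ⟨C₂, hC₂, h₂⟩ := zetaF_low k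
  obtain ⟨C₃, hC₃, h₃⟩ := smooth_gen (20 * (k + 1))
  have hB0 : 0 < max C₁ C₂ := lt_max_of_lt_left hC₁
  refine ⟨C₃ * max C₁ C₂, by positivity, fun N hN => ?_⟩
  rcases Nat.lt_or_ge 1 N with h2 | h2
  · refine h₃ _ (max C₁ C₂) hB0.le (fun s hs1 hs2 => ⟨swj3_summable k s hs1, ?_⟩) N h2
    have hl1 : 1 ≤ Real.log (|s.im| + 3) := by
      rw [Real.le_log_iff_exp_le (by positivity)]
      have := Real.exp_one_lt_d9
      have := abs_nonneg s.im
      linarith
    have hl2 : 1 ≤ Real.log (|s.im| + 3) ^ (20 * (k + 1)) := one_le_pow₀ hl1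
    rcases le_total 1 |s.im| with h | h
    · refine (h₁ s hs1 hs2 h).trans ?_
      exact mul_le_mul_of_nonneg_right (le_max_left _ _) (by positivity)
    · refine (h₂ s hs1 hs2 h).trans ?_
      calc C₂ ≤ max C₁ C₂ := le_max_right _ _
        _ = max C₁ C₂ * 1 := (mul_one _).symm
        _ ≤ _ := mul_le_mul_of_nonneg_left hl2 hB0.le
  · have : N = 1 := by omega
    subst this
    have ho : om 1 = 0 := om_eq_zero le_rfl
    simp only [Finset.Icc_self, Finset.sum_singleton, Nat.cast_one, div_one, ho,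
      Complex.ofReal_zero, mul_zero, norm_zero, mul_one]
    positivity

/-- sharp sums with weights -/
theorem swj3_sharp (k : ℕ) : ∃ C : ℝ, 0 < C ∧ ∀ (m y : ℕ), 1 ≤ m → 3 ≤ y → ∀ z : ℕ, z ≤ y →
    |∑ n ∈ Icc 1 z, (Lam n - 1) * Real.log n ^ k| ≤
      C * (y * Real.log y ^ (3 * m) + Real.log y ^ (k + 1) * (y / Real.log y ^ m) +
        Real.log y ^ (k + 1) * Real.log y ^ (3 * m)) := by
  obtain ⟨C₁, hC₁, h₁⟩ := swj3_smooth k
  obtain ⟨C₂, hC₂, h₂⟩ := smooth_to_sharp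
  refine ⟨1 + C₂ * (18 * C₁ + 9 * 3 ^ (k + 1)), by positivity, fun m y hm hy z hz => ?_⟩
  have hy' : (3 : ℝ) ≤ y := by exact_mod_cast hy
  set L : ℝ := Real.log y with hL
  have hL1 : 1 ≤ L := by
    rw [hL, Real.le_log_iff_exp_le (by linarith)]
    have := Real.exp_one_lt_d9
    linarith
  have hL0 : 0 < L := by linarith
  have hRHS1 : 1 ≤ L ^ (3 * m) := one_le_pow₀ hL1
  have hLm : 1 ≤ L ^ m := one_le_pow₀ hL1
  have hLm' : L ≤ L ^ (3 * m) := by
    calc L = L ^ 1 := (pow_one L).symm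
      _ ≤ L ^ (3 * m) := pow_le_pow_right₀ hL1 (by omega)
  have hR0 : 0 ≤ y * L ^ (3 * m) + L ^ (k + 1) * (y / L ^ m) + L ^ (k + 1) * L ^ (3 * m) := by
    positivity
  rcases Nat.lt_or_ge z 2 with hz2 | hz2
  · -- z = 0 or z = 1
    have h5 : |∑ n ∈ Icc 1 z, (Lam n - 1) * Real.log n ^ k| ≤ 1 := by
      interval_cases z
      · simp
      · simp only [Finset.Icc_self, Finset.sum_singleton, Nat.cast_one, Real.log_one]
        have hl : Lam 1 = 0 := by simp [Lam]
        rw [hl]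
        rcases Nat.eq_zero_or_pos k with rfl | hk
        · simp
        · rw [zero_pow (by omega)]; simp
    refine h5.trans ?_
    have h6 : 1 ≤ y * L ^ (3 * m) + L ^ (k + 1) * (y / L ^ m) + L ^ (k + 1) * L ^ (3 * m) := by
      have h7 : 1 ≤ (y : ℝ) * L ^ (3 * m) := by nlinarith
      have h8 : 0 ≤ L ^ (k + 1) * (y / L ^ m) := by positivity
      have h9 : 0 ≤ L ^ (k + 1) * L ^ (3 * m) := by positivity
      linarith
    have h7 : 1 ≤ 1 + C₂ * (18 * C₁ + 9 * 3 ^ (k + 1)) := by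
      have : 0 ≤ C₂ * (18 * C₁ + 9 * 3 ^ (k + 1)) := by positivity
      linarith
    nlinarith
  · have hzy : (z : ℝ) ≤ y := by exact_mod_cast hz
    have hz0 : (2 : ℝ) ≤ z := by exact_mod_cast hz2
    set δ : ℝ := 1 / (2 * L ^ m) with hδ
    have hδ0 : 0 < δ := by positivity
    have hδ1 : δ ≤ 1 / 2 := by
      rw [hδ, div_le_div_iff₀ (by positivity) (by norm_num)]
      linarith
    have h3L : Real.log (2 * z) + 1 ≤ 3 * L := by
      have e1 : Real.log (2 * z) = Real.log 2 + Real.log z :=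
        Real.log_mul (by norm_num) (by linarith)
      have e2 : Real.log z ≤ L := Real.log_le_log (by linarith) hzy
      have e3 : Real.log 2 ≤ 1 := by
        have := Real.log_two_lt_d9
        linarith
      linarith
    have hlz0 : 0 ≤ Real.log (2 * z) := Real.log_nonneg (by linarith)
    have hlz : Real.log z ≤ L := Real.log_le_log (by linarith) hzy
    have key := h₂ (fun n => (((Lam n - 1) * Real.log n ^ k : ℝ) : ℂ)) (C₁ * (2 * z))
      ((3 * L) ^ (k + 1)) 1 z δ (by positivity) (by positivity) le_rfl hz2 hδ0 hδ1 ?_ ?_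
    · have e1 : ‖∑ n ∈ Icc 1 z, (((Lam n - 1) * Real.log n ^ k : ℝ) : ℂ)‖ =
          |∑ n ∈ Icc 1 z, (Lam n - 1) * Real.log n ^ k| := by
        rw [← Complex.ofReal_sum, Complex.norm_real, Real.norm_eq_abs]
      rw [e1] at key
      refine key.trans ?_
      have e3 : 1 / δ ^ 3 = 8 * L ^ (3 * m) := by
        rw [hδ]
        field_simp
        ring
      have e4 : δ * z ≤ y / L ^ m := by
        rw [hδ, div_mul_eq_mul_div, one_mul]
        refine div_le_div₀ (by positivity) hzy (by positivity) ?_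
        linarith
      rw [e3]
      have p1 : C₁ * (2 * z) * (8 * L ^ (3 * m) + Real.log z) ≤ 18 * C₁ * (y * L ^ (3 * m)) := by
        have q1 : 8 * L ^ (3 * m) + Real.log z ≤ 9 * L ^ (3 * m) := by linarith
        calc C₁ * (2 * z) * (8 * L ^ (3 * m) + Real.log z)
            ≤ C₁ * (2 * y) * (9 * L ^ (3 * m)) := by
              refine mul_le_mul ?_ q1 ?_ (by positivity)
              · exact mul_le_mul_of_nonneg_left (by linarith) hC₁.le
              · have : 0 ≤ Real.log z := Real.log_nonneg (by linarith)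
                positivity
          _ = 18 * C₁ * (y * L ^ (3 * m)) := by ring
      have p2 : (3 * L) ^ (k + 1) * (δ * z + Real.log z + 1 * (8 * L ^ (3 * m)))
          ≤ 9 * 3 ^ (k + 1) * (L ^ (k + 1) * (y / L ^ m) + L ^ (k + 1) * L ^ (3 * m)) := by
        have q0 : 0 ≤ (y : ℝ) / L ^ m := by positivity
        have q1 : δ * z + Real.log z + 1 * (8 * L ^ (3 * m)) ≤
            9 * (y / L ^ m) + 9 * L ^ (3 * m) := by linarith
        calc (3 * L) ^ (k + 1) * (δ * z + Real.log z + 1 * (8 * L ^ (3 * m)))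
            ≤ (3 * L) ^ (k + 1) * (9 * (y / L ^ m) + 9 * L ^ (3 * m)) :=
              mul_le_mul_of_nonneg_left q1 (by positivity)
          _ = _ := by rw [mul_pow]; ring
      have e5 : (1 : ℝ) / δ ^ 3 = 1 * (8 * L ^ (3 * m)) := by rw [e3]; ring
      have t1 : 0 ≤ (y : ℝ) * L ^ (3 * m) := by positivity
      have t2 : 0 ≤ L ^ (k + 1) * (y / L ^ m) := by positivity
      have t3 : 0 ≤ L ^ (k + 1) * L ^ (3 * m) := by positivity
      have t4 : 0 ≤ 9 * (3 : ℝ) ^ (k + 1) := by positivity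
      have p3 : C₁ * (2 * z) * (8 * L ^ (3 * m) + Real.log z) +
          (3 * L) ^ (k + 1) * (δ * z + Real.log z + 8 * L ^ (3 * m)) ≤
          (18 * C₁ + 9 * 3 ^ (k + 1)) *
            (y * L ^ (3 * m) + L ^ (k + 1) * (y / L ^ m) + L ^ (k + 1) * L ^ (3 * m)) := by
        rw [one_mul] at p2
        nlinarith [mul_nonneg hC₁.le t2, mul_nonneg hC₁.le t3, mul_nonneg t4 t1]
      calc C₂ * (C₁ * (2 * z) * (8 * L ^ (3 * m) + Real.log z) +
          (3 * L) ^ (k + 1) * (δ * z + Real.log z + 8 * L ^ (3 * m)))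
          ≤ C₂ * ((18 * C₁ + 9 * 3 ^ (k + 1)) *
            (y * L ^ (3 * m) + L ^ (k + 1) * (y / L ^ m) + L ^ (k + 1) * L ^ (3 * m))) :=
            mul_le_mul_of_nonneg_left p3 hC₂.le
        _ ≤ (1 + C₂ * (18 * C₁ + 9 * 3 ^ (k + 1))) *
            (y * L ^ (3 * m) + L ^ (k + 1) * (y / L ^ m) + L ^ (k + 1) * L ^ (3 * m)) := by
            linarith
    · intro N hN1 hN2
      refine (h₁ N hN1).trans ?_
      refine mul_le_mul_of_nonneg_left ?_ hC₁.le
      exact_mod_cast hN2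
    · intro u v huv hv
      have hterm : ∀ n ∈ Ioc u v, ‖(((Lam n - 1) * Real.log n ^ k : ℝ) : ℂ)‖ ≤ (3 * L) ^ (k + 1) := by
        intro n hn
        have hn' := Finset.mem_Ioc.mp hn
        rw [Complex.norm_real, Real.norm_eq_abs]
        refine (swj3_a_le k n).trans (pow_le_pow_left₀ ?_ ?_ _)
        · have := swj3_log_nonneg n
          linarith
        · have hn1 : (0 : ℝ) < n := by
            have : 0 < n := by omega
            exact_mod_cast this
          have hn2 : (n : ℝ) ≤ 2 * z := by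
            have : n ≤ 2 * z := by omega
            exact_mod_cast this
          have := Real.log_le_log hn1 hn2
          linarith
      refine (Finset.sum_le_sum hterm).trans ?_
      rw [Finset.sum_const, nsmul_eq_mul, Nat.card_Ioc, mul_comm, Nat.cast_sub huv]
      refine mul_le_mul_of_nonneg_left ?_ (by positivity)
      linarith

theorem swj3_pow_le (n : ℕ) (x : ℝ) (hx : 0 ≤ x) : x ^ n ≤ (n.factorial : ℝ) * Real.exp x := by
  have h := Real.pow_div_factorial_le_exp x hx n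
  rw [div_le_iff₀ (by exact_mod_cast n.factorial_pos)] at h
  linarith

theorem pnt (c : ℕ) : ∃ C : ℝ, 0 < C ∧ ∀ y : ℕ, 2 ≤ y →
    |(∑ n ∈ Icc 1 y, Lam n) - y| ≤ C * y / Real.log y ^ c := by
  set m : ℕ := c + 1 with hm
  set k : ℕ := 3 * m + c with hk
  obtain ⟨C₀, hC₀, h₀⟩ := swj3_sharp k
  set F₁ : ℝ := ((1 + 3 * m + c).factorial : ℝ) with hF₁
  set F₂ : ℝ := ((c + 1).factorial : ℝ) with hF₂
  have hF₁0 : 0 < F₁ := by rw [hF₁]; exact_mod_cast Nat.factorial_pos _
  have hF₂0 : 0 < F₂ := by rw [hF₂]; exact_mod_cast Nat.factorial_pos _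
  refine ⟨2 + 2 * (2 * C₀) * 2 ^ k * (2 + F₁) + 2 * (2 ^ (c + 1) * F₂), by positivity,
    fun y hy => ?_⟩
  have hyR : (2 : ℝ) ≤ y := by exact_mod_cast hy
  have hrew : (∑ n ∈ Icc 1 y, Lam n) - y = ∑ n ∈ Icc 1 y, (Lam n - 1) := by
    rw [Finset.sum_sub_distrib]
    simp
  rw [hrew]
  rcases Nat.lt_or_ge y 3 with hy3 | hy3
  · have hy2 : y = 2 := by omega
    subst hy2
    have e1 : Icc 1 2 = {1, 2} := by decide
    have hl1 : Lam 1 = 0 := by simp [Lam]
    have hl2 := swj3_Lam_le 2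
    have hl2' := swj3_Lam_nonneg 2
    have hlog := Real.log_two_lt_d9
    have hlog0 : 0 < Real.log 2 := Real.log_pos (by norm_num)
    rw [e1, Finset.sum_pair (by norm_num), hl1]
    push_cast at hl2
    have h3 : |0 - 1 + (Lam 2 - 1)| ≤ 2 := by
      rw [abs_le]; constructor <;> linarith
    refine h3.trans ?_
    push_cast
    have hp : Real.log 2 ^ c ≤ 1 := pow_le_one₀ hlog0.le (by linarith)
    have hp0 : 0 < Real.log 2 ^ c := by positivity
    rw [le_div_iff₀ hp0]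
    have hbig : 0 ≤ 2 * (2 * C₀) * 2 ^ k * (2 + F₁) + 2 * (2 ^ (c + 1) * F₂) := by positivity
    nlinarith
  · have hy3' : (3 : ℝ) ≤ y := by exact_mod_cast hy3
    obtain ⟨L, hL⟩ : ∃ L : ℝ, L = Real.log y := ⟨_, rfl⟩
    have hL1 : 1 ≤ L := by
      rw [hL, Real.le_log_iff_exp_le (by linarith)]
      have := Real.exp_one_lt_d9
      linarith
    have hL0 : 0 < L := by linarith
    have hexp : Real.exp L = y := by rw [hL, Real.exp_log (by linarith)]
    rw [← hL]
    set w : ℕ := Nat.sqrt y with hw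
    have hwy : w ≤ y := Nat.sqrt_le_self y
    have hw1 : 1 ≤ w := by
      rw [hw, Nat.one_le_iff_ne_zero]
      intro h
      rw [Nat.sqrt_eq_zero] at h
      omega
    have hww : w * w ≤ y := Nat.sqrt_le y
    have hww' : y < (w + 1) * (w + 1) := Nat.lt_succ_sqrt y
    -- log (w+1) ≥ L/2
    have hlw : L / 2 ≤ Real.log ((w : ℝ) + 1) := by
      have h1 : (y : ℝ) ≤ ((w : ℝ) + 1) * ((w : ℝ) + 1) := by exact_mod_cast hww'.le
      have h2 := Real.log_le_log (by linarith) h1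
      rw [Real.log_mul (by positivity) (by positivity), ← hL] at h2
      linarith
    -- w ≤ exp (L/2)
    have hwe : (w : ℝ) ≤ Real.exp (L / 2) := by
      have h1 : (w : ℝ) * w ≤ y := by exact_mod_cast hww
      have h2 : Real.exp (L / 2) * Real.exp (L / 2) = y := by
        rw [← Real.exp_add, ← hexp]; congr 1; ring
      rw [← h2] at h1
      exact le_of_not_gt fun h9 => absurd h1 (not_le.mpr (mul_self_lt_mul_self (Real.exp_pos _).le h9))
    -- split
    have hsplit : ∑ n ∈ Icc 1 y, (Lam n - 1) =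
        ∑ n ∈ Icc 1 w, (Lam n - 1) + ∑ i ∈ range (y - w), (Lam (w + 1 + i) - 1) := by
      have e1 : Icc 1 y = Icc 1 w ∪ Ico (w + 1) (y + 1) := by
        ext n
        simp only [Finset.mem_Icc, Finset.mem_union, Finset.mem_Ico]
        omega
      rw [e1, Finset.sum_union, Finset.sum_Ico_eq_sum_range]
      · have : y + 1 - (w + 1) = y - w := by omega
        rw [this]
      · rw [Finset.disjoint_left]
        intro n hn hn'
        rw [Finset.mem_Icc] at hn
        rw [Finset.mem_Ico] at hn'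
        omega
    -- first part
    have hpart1 : |∑ n ∈ Icc 1 w, (Lam n - 1)| ≤ 2 * (2 ^ (c + 1) * F₂) * y / L ^ c := by
      have h1 : |∑ n ∈ Icc 1 w, (Lam n - 1)| ≤ w * (2 * L) := by
        refine (Finset.abs_sum_le_sum_abs _ _).trans ?_
        have h2 : ∀ n ∈ Icc 1 w, |Lam n - 1| ≤ 2 * L := by
          intro n hn
          have hn' := Finset.mem_Icc.mp hn
          have h3 := swj3_Lam_nonneg n
          have h4 := swj3_Lam_le n
          have h5 : Real.log n ≤ L := by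
            rw [hL]
            refine Real.log_le_log (by exact_mod_cast hn'.1) ?_
            exact_mod_cast hn'.2.trans hwy
          rw [abs_le]; constructor <;> linarith
        refine (Finset.sum_le_sum h2).trans ?_
        rw [Finset.sum_const, nsmul_eq_mul, Nat.card_Icc]
        simp
      refine h1.trans ?_
      rw [le_div_iff₀ (by positivity)]
      have h2 := swj3_pow_le (c + 1) (L / 2) (by positivity)
      have h3 : L ^ (c + 1) = 2 ^ (c + 1) * (L / 2) ^ (c + 1) := by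
        rw [← mul_pow]; congr 1; ring
      have h4 : Real.exp (L / 2) * Real.exp (L / 2) = y := by
        rw [← Real.exp_add, ← hexp]; congr 1; ring
      calc (w : ℝ) * (2 * L) * L ^ c = 2 * (w * L ^ (c + 1)) := by ring
        _ ≤ 2 * (Real.exp (L / 2) * (2 ^ (c + 1) * (F₂ * Real.exp (L / 2)))) := by
            refine mul_le_mul_of_nonneg_left ?_ (by norm_num)
            refine mul_le_mul hwe ?_ (by positivity) (Real.exp_pos _).le
            rw [h3]
            exact mul_le_mul_of_nonneg_left h2 (by positivity)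
        _ = 2 * (2 ^ (c + 1) * F₂) * (Real.exp (L / 2) * Real.exp (L / 2)) := by ring
        _ = 2 * (2 ^ (c + 1) * F₂) * y := by rw [h4]
    -- second part
    obtain ⟨M, hM⟩ : ∃ M : ℝ, M = C₀ * (y * L ^ (3 * m) + L ^ (k + 1) * (y / L ^ m) +
        L ^ (k + 1) * L ^ (3 * m)) := ⟨_, rfl⟩
    have hA : ∀ z : ℕ, z ≤ y → |∑ n ∈ Icc 1 z, (Lam n - 1) * Real.log n ^ k| ≤ M := by
      intro z hz
      have := h₀ m y (by omega) hy3 z hz
      rw [← hL] at this
      rw [hM]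
      exact this
    have hgpos : ∀ i : ℕ, 0 < Real.log ((w + 1 + i : ℕ) : ℝ) := by
      intro i
      refine Real.log_pos ?_
      have : 1 < w + 1 + i := by omega
      exact_mod_cast this
    have habel := swj3_abel (fun i => (Lam (w + 1 + i) - 1) * Real.log ((w + 1 + i : ℕ) : ℝ) ^ k)
      (fun i => 1 / Real.log ((w + 1 + i : ℕ) : ℝ) ^ k) (2 * M) (y - w) ?_ ?_ ?_
    rotate_left
    · intro i j hij
      have h1 := hgpos i
      have h2 : Real.log ((w + 1 + i : ℕ) : ℝ) ≤ Real.log ((w + 1 + j : ℕ) : ℝ) := by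
        refine Real.log_le_log (by positivity) ?_
        exact_mod_cast Nat.add_le_add_left hij _
      refine one_div_le_one_div_of_le (by positivity) ?_
      exact pow_le_pow_left₀ h1.le h2 k
    · intro i
      have h1 := hgpos i
      positivity
    · intro j hj
      have e1 : ∑ i ∈ range j, (Lam (w + 1 + i) - 1) * Real.log ((w + 1 + i : ℕ) : ℝ) ^ k =
          ∑ n ∈ Icc 1 (w + j), (Lam n - 1) * Real.log n ^ k -
            ∑ n ∈ Icc 1 w, (Lam n - 1) * Real.log n ^ k := by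
        have e2 : Icc 1 (w + j) = Icc 1 w ∪ Ico (w + 1) (w + j + 1) := by
          ext n
          simp only [Finset.mem_Icc, Finset.mem_union, Finset.mem_Ico]
          omega
        rw [e2, Finset.sum_union, Finset.sum_Ico_eq_sum_range]
        · have : w + j + 1 - (w + 1) = j := by omega
          rw [this]
          ring
        · rw [Finset.disjoint_left]
          intro n hn hn'
          rw [Finset.mem_Icc] at hn
          rw [Finset.mem_Ico] at hn'
          omega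
      rw [e1]
      have h1 := hA (w + j) (by omega)
      have h2 := hA w hwy
      refine (abs_sub _ _).trans ?_
      linarith
    have hsum2 : ∑ i ∈ range (y - w), (1 / Real.log ((w + 1 + i : ℕ) : ℝ) ^ k) *
        ((Lam (w + 1 + i) - 1) * Real.log ((w + 1 + i : ℕ) : ℝ) ^ k) =
        ∑ i ∈ range (y - w), (Lam (w + 1 + i) - 1) := by
      refine Finset.sum_congr rfl (fun i _ => ?_)
      have h1 : Real.log ((w + 1 + i : ℕ) : ℝ) ^ k ≠ 0 := (pow_pos (hgpos i) k).ne'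
      field_simp
    rw [hsum2] at habel
    have hM0 : 0 ≤ M := by
      have := hA 0 (Nat.zero_le _)
      exact (abs_nonneg _).trans this
    have hg0 : 1 / Real.log ((w + 1 + 0 : ℕ) : ℝ) ^ k ≤ 2 ^ k / L ^ k := by
      have h1 : (L / 2) ^ k ≤ Real.log ((w + 1 + 0 : ℕ) : ℝ) ^ k := by
        refine pow_le_pow_left₀ (by positivity) ?_ k
        push_cast
        rw [add_zero]
        exact hlw
      calc 1 / Real.log ((w + 1 + 0 : ℕ) : ℝ) ^ k ≤ 1 / (L / 2) ^ k :=
            one_div_le_one_div_of_le (by positivity) h1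
        _ = 2 ^ k / L ^ k := by rw [div_pow]; field_simp
    have hMle : M * (2 ^ k / L ^ k) ≤ C₀ * 2 ^ k * (2 + F₁) * y / L ^ c := by
      have hk1 : L ^ k = L ^ (3 * m) * L ^ c := by rw [hk, pow_add]
      have hk2 : L ^ (k + 1) = L ^ k * L := pow_succ _ _
      have hm1 : L ^ m = L ^ c * L := by rw [hm, pow_succ]
      have hfac := swj3_pow_le (1 + 3 * m + c) L hL0.le
      rw [hexp, ← hF₁] at hfac
      have hfac2 : L ^ (1 + 3 * m + c) = L * L ^ (3 * m) * L ^ c := by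
        rw [pow_add, pow_add, pow_one]
      rw [hfac2] at hfac
      rw [hM, le_div_iff₀ (by positivity)]
      have hLc : 0 < L ^ c := by positivity
      have hL3 : 0 < L ^ (3 * m) := by positivity
      have hident : C₀ * (y * L ^ (3 * m) + L ^ (k + 1) * (y / L ^ m) +
          L ^ (k + 1) * L ^ (3 * m)) * (2 ^ k / L ^ k) * L ^ c =
          C₀ * 2 ^ k * (y + y + L * L ^ (3 * m) * L ^ c) := by
        rw [hk2, hm1, hk1]
        field_simp
      rw [hident]
      have : (y : ℝ) + y + L * L ^ (3 * m) * L ^ c ≤ (2 + F₁) * y := by linarith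
      calc C₀ * 2 ^ k * (y + y + L * L ^ (3 * m) * L ^ c) ≤ C₀ * 2 ^ k * ((2 + F₁) * y) :=
            mul_le_mul_of_nonneg_left this (by positivity)
        _ = _ := by ring
    have hpart2 : |∑ i ∈ range (y - w), (Lam (w + 1 + i) - 1)| ≤
        2 * (2 * C₀) * 2 ^ k * (2 + F₁) * y / L ^ c := by
      refine habel.trans ?_
      calc 2 * M * (1 / Real.log ((w + 1 + 0 : ℕ) : ℝ) ^ k) ≤ 2 * M * (2 ^ k / L ^ k) :=
            mul_le_mul_of_nonneg_left hg0 (by positivity)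
        _ = 2 * (M * (2 ^ k / L ^ k)) := by ring
        _ ≤ 2 * (C₀ * 2 ^ k * (2 + F₁) * y / L ^ c) :=
            mul_le_mul_of_nonneg_left hMle (by norm_num)
        _ ≤ 2 * (C₀ * 2 ^ k * (2 + F₁) * y / L ^ c) + 2 * (C₀ * 2 ^ k * (2 + F₁) * y / L ^ c) := by
            have : 0 ≤ 2 * (C₀ * 2 ^ k * (2 + F₁) * y / L ^ c) := by positivity
            linarith
        _ = _ := by ring
    rw [hsplit]
    refine (abs_add_le _ _).trans ?_
    have h20 : 0 ≤ 2 * (y : ℝ) / L ^ c := by positivity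
    calc |∑ n ∈ Icc 1 w, (Lam n - 1)| + |∑ i ∈ range (y - w), (Lam (w + 1 + i) - 1)|
        ≤ 2 * (2 ^ (c + 1) * F₂) * y / L ^ c + 2 * (2 * C₀) * 2 ^ k * (2 + F₁) * y / L ^ c :=
          add_le_add hpart1 hpart2
      _ ≤ 2 * (y : ℝ) / L ^ c + (2 * (2 ^ (c + 1) * F₂) * y / L ^ c +
            2 * (2 * C₀) * 2 ^ k * (2 + F₁) * y / L ^ c) := by linarith
      _ = _ := by ring

end Pool.Agent.H91.EHA

end

section

/-!
# Primes in progressions to small moduli

Orthogonality of characters mod `c` (Mathlib `DirichletCharacter.sum_char_inv_mul_char_eq`; compare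
`PK/DiA.lean`): `psiA y c a = (1/φ(c)) ∑_χ χ⁻¹(a) ∑_{n≤y} Λ(n)χ(n)`.  Principal character: `pnt` minus
`∑_{n ≤ y, (n,c)>1} Λ(n) ≤ (log x)²`-type (`DiA_psi_noncoprime`).  Other characters: replace by the primitive
character (error again `∑_{(n,c)>1} Λ(n)`), `siegel_walfisz` for `y ≥ √x` (then `log y ≥ (log x)/2`), trivial bound
`y log y` for `y < √x`.
-/

set_option autoImplicit false

namespace Pool.Agent.H91.EHA

open Finset
open Pool.Agent.H91.PK

theorem swk1_Lam_nonneg (n : ℕ) : 0 ≤ Lam n := ArithmeticFunction.vonMangoldt_nonneg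

/-- The twisted sum over prime powers. -/
noncomputable def swk1S (y : ℕ) {c : ℕ} (χ : DirichletCharacter ℂ c) : ℂ :=
  ∑ n ∈ Icc 1 y, ((Lam n : ℝ) : ℂ) * χ (n : ZMod c)

/-- The mass of the `n` not coprime to `c`. -/
noncomputable def swk1E (y c : ℕ) : ℝ :=
  ∑ n ∈ (Icc 1 y).filter (fun n => ¬ Nat.Coprime n c), Lam n

theorem swk1E_nonneg (y c : ℕ) : 0 ≤ swk1E y c := sum_nonneg fun _ _ => swk1_Lam_nonneg _

theorem swk1E_le {y c : ℕ} (hy : 1 ≤ y) (hc : 1 ≤ c) : swk1E y c ≤ 2 * Real.log c * Real.log y := by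
  have h1 : swk1E y c ≤ (c.primeFactors.card : ℝ) * Real.log y := DiA_psi_noncoprime hy hc
  have h2 := DiA_omega_le hc
  have h4 : (0.6931471803 : ℝ) < Real.log 2 := Real.log_two_gt_d9
  have h5 : (0 : ℝ) ≤ c.primeFactors.card := Nat.cast_nonneg _
  have h6 : (c.primeFactors.card : ℝ) * 0.6931471803 ≤ Real.log c := by nlinarith
  have h7 : (c.primeFactors.card : ℝ) ≤ 2 * Real.log c := by nlinarith
  have hL : 0 ≤ Real.log y := Real.log_natCast_nonneg y
  exact h1.trans (mul_le_mul_of_nonneg_right h7 hL)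

/-- orthogonality -/
theorem swk1_orth {y c a : ℕ} (hc : 1 ≤ c) (ha : Nat.Coprime a c) :
    (c.totient : ℂ) * ((psiA y c a : ℝ) : ℂ)
      = ∑ χ : DirichletCharacter ℂ c, χ ((a : ZMod c)⁻¹) * swk1S y χ := by
  have : NeZero c := ⟨by omega⟩
  have hu : IsUnit (a : ZMod c) := (ZMod.isUnit_iff_coprime a c).mpr ha
  unfold swk1S psiA
  simp only [mul_sum]
  rw [sum_comm]
  rw [Complex.ofReal_sum, mul_sum, sum_filter]
  refine sum_congr rfl fun n hn => ?_
  rw [mem_Icc] at hn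
  have h1 : ∀ χ : DirichletCharacter ℂ c,
      χ ((a : ZMod c)⁻¹) * (((Lam n : ℝ) : ℂ) * χ (n : ZMod c))
      = (χ ((a : ZMod c)⁻¹) * χ (n : ZMod c)) * ((Lam n : ℝ) : ℂ) := by
    intro χ; ring
  simp only [h1]
  rw [← sum_mul, DirichletCharacter.sum_char_inv_mul_char_eq ℂ hu]
  have hiff : ((a : ZMod c) = (n : ZMod c)) ↔ n ≡ a [MOD c] := by
    rw [eq_comm]
    exact ZMod.natCast_eq_natCast_iff n a c
  by_cases h : n ≡ a [MOD c]
  · rw [if_pos h, if_pos (hiff.mpr h)]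
  · rw [if_neg h, if_neg (fun h' => h (hiff.mp h'))]
    simp

theorem swk1_S_sub {y c : ℕ} (χ : DirichletCharacter ℂ c) :
    ‖swk1S y χ‖ ≤ ‖swk1S y χ.primitiveCharacter‖ + swk1E y c := by
  have h1 : swk1S y χ.primitiveCharacter - swk1S y χ
      = ∑ n ∈ (Icc 1 y).filter (fun n => ¬ Nat.Coprime n c),
        ((Lam n : ℝ) : ℂ) * χ.primitiveCharacter (n : ZMod χ.conductor) := by
    unfold swk1S
    rw [← sum_sub_distrib, sum_filter]
    refine sum_congr rfl fun n _ => ?_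
    by_cases h : Nat.Coprime n c
    · rw [if_neg (not_not.mpr h)]
      simp only [DiA_prim_eq χ h, sub_self]
    · rw [if_pos h]
      simp only [DiA_char_zero χ h, mul_zero, sub_zero]
  have h2 : ‖swk1S y χ.primitiveCharacter - swk1S y χ‖ ≤ swk1E y c := by
    rw [h1]
    refine (norm_sum_le _ _).trans ?_
    refine sum_le_sum fun n _ => ?_
    rw [norm_mul, Complex.norm_real, Real.norm_of_nonneg (swk1_Lam_nonneg n)]
    calc Lam n * ‖χ.primitiveCharacter (n : ZMod χ.conductor)‖ ≤ Lam n * 1 :=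
          mul_le_mul_of_nonneg_left (DiA_norm_char_le _ _) (swk1_Lam_nonneg n)
      _ = Lam n := mul_one _
  calc ‖swk1S y χ‖ = ‖swk1S y χ.primitiveCharacter
        - (swk1S y χ.primitiveCharacter - swk1S y χ)‖ := by congr 1; ring
    _ ≤ _ := (norm_sub_le _ _).trans (by linarith)

theorem swk1_S_one {y c : ℕ} :
    swk1S y (1 : DirichletCharacter ℂ c)
      = (((∑ n ∈ Icc 1 y, Lam n) - swk1E y c : ℝ) : ℂ) := by
  unfold swk1S swk1E
  rw [sum_filter, ← sum_sub_distrib, Complex.ofReal_sum]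
  refine sum_congr rfl fun n _ => ?_
  by_cases h : Nat.Coprime n c
  · rw [if_neg (not_not.mpr h)]
    have : (1 : DirichletCharacter ℂ c) (n : ZMod c) = 1 :=
      MulChar.one_apply ((ZMod.isUnit_iff_coprime n c).mpr h)
    simp only [this]
    push_cast
    ring
  · rw [if_pos h]
    simp only [DiA_char_zero _ h]
    simp

/-- The main inequality. -/
theorem swk1_main {y c a : ℕ} (hc : 1 ≤ c) (ha : Nat.Coprime a c) {D : ℝ} (hD : 0 ≤ D)
    (h : ∀ χ : DirichletCharacter ℂ c, χ ≠ 1 → ‖swk1S y χ.primitiveCharacter‖ ≤ D) :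
    |psiA y c a - (∑ n ∈ Icc 1 y, Lam n) / c.totient| ≤ swk1E y c + D := by
  classical
  have : NeZero c := ⟨by omega⟩
  have hφ : 0 < c.totient := Nat.totient_pos.mpr hc
  have hφR : (0 : ℝ) < c.totient := by exact_mod_cast hφ
  have hφC : (c.totient : ℂ) ≠ 0 := by exact_mod_cast hφ.ne'
  set E := swk1E y c with hE
  set P := ∑ n ∈ Icc 1 y, Lam n with hP
  have hE0 : 0 ≤ E := swk1E_nonneg _ _
  have hNch : Nch c = univ.erase (1 : DirichletCharacter ℂ c) := by
    ext χ; rw [mem_Nch]; simp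
  have horth := swk1_orth (y := y) hc ha
  have hone : (1 : DirichletCharacter ℂ c) ((a : ZMod c)⁻¹) = 1 := by
    refine MulChar.one_apply ?_
    have hu : IsUnit (a : ZMod c) := (ZMod.isUnit_iff_coprime a c).mpr ha
    obtain ⟨u, hu⟩ := hu
    rw [← hu, ZMod.inv_coe_unit]
    exact Units.isUnit _
  rw [← Finset.add_sum_erase univ _ (mem_univ (1 : DirichletCharacter ℂ c)), ← hNch, hone,
    one_mul, swk1_S_one, ← hP, ← hE] at horth
  have h1 : ((c.totient * psiA y c a - P : ℝ) : ℂ)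
      = - ((E : ℝ) : ℂ) + ∑ χ ∈ Nch c, χ ((a : ZMod c)⁻¹) * swk1S y χ := by
    push_cast
    rw [horth]
    push_cast
    ring
  have hcard : (Nch c).card + 1 = c.totient := by
    rw [hNch, card_erase_of_mem (mem_univ _), card_univ, ← Nat.card_eq_fintype_card,
      DirichletCharacter.card_eq_totient_of_hasEnoughRootsOfUnity ℂ c]
    omega
  have hcardR : ((Nch c).card : ℝ) + 1 = c.totient := by exact_mod_cast hcard
  have h2 : |(c.totient : ℝ) * psiA y c a - P| ≤ (c.totient : ℝ) * (E + D) := by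
    have h3 : |(c.totient : ℝ) * psiA y c a - P|
        = ‖((c.totient * psiA y c a - P : ℝ) : ℂ)‖ := by
      rw [Complex.norm_real, Real.norm_eq_abs]
    rw [h3, h1]
    refine (norm_add_le _ _).trans ?_
    rw [norm_neg, Complex.norm_real, Real.norm_of_nonneg hE0]
    have h4 : ‖∑ χ ∈ Nch c, χ ((a : ZMod c)⁻¹) * swk1S y χ‖
        ≤ ∑ χ ∈ Nch c, (D + E) := by
      refine (norm_sum_le _ _).trans (sum_le_sum fun χ hχ => ?_)
      rw [norm_mul]
      calc ‖χ ((a : ZMod c)⁻¹)‖ * ‖swk1S y χ‖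
          ≤ 1 * ‖swk1S y χ‖ :=
            mul_le_mul_of_nonneg_right (DiA_norm_char_le _ _) (norm_nonneg _)
        _ ≤ _ := by
            rw [one_mul]
            exact (swk1_S_sub χ).trans (add_le_add (h χ (mem_Nch.mp hχ)) le_rfl)
    rw [sum_const, nsmul_eq_mul] at h4
    rw [← hcardR]
    nlinarith
  have h6 : psiA y c a - P / c.totient
      = (1 / (c.totient : ℝ)) * ((c.totient : ℝ) * psiA y c a - P) := by
    field_simp
  rw [h6, abs_mul, abs_of_pos (by positivity : (0 : ℝ) < 1 / (c.totient : ℝ))]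
  calc (1 / (c.totient : ℝ)) * |(c.totient : ℝ) * psiA y c a - P|
      ≤ (1 / (c.totient : ℝ)) * ((c.totient : ℝ) * (E + D)) :=
        mul_le_mul_of_nonneg_left h2 (by positivity)
    _ = E + D := by field_simp

/-- The growth conditions on `x`. -/
theorem swk1_ev (B k : ℕ) (M : ℝ) : ∃ x0 : ℕ, ∀ x : ℕ, x0 ≤ x →
    2 ≤ x ∧ 1 ≤ Real.log x ∧ 2 * 2 ^ B ≤ Real.log x ∧ M ≤ Real.log x ∧
      2 * Real.log x ^ (k + 1) ≤ Real.sqrt x ∧ 4 * (B + 1) * Real.log x ^ (k + 2) ≤ x := by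
  have hlog : Filter.Tendsto (fun x : ℕ => Real.log (x : ℝ)) Filter.atTop Filter.atTop :=
    Real.tendsto_log_atTop.comp tendsto_natCast_atTop_atTop
  have h1 : ∀ᶠ x : ℕ in Filter.atTop, 2 ≤ x := Filter.eventually_ge_atTop 2
  have h2 : ∀ᶠ x : ℕ in Filter.atTop, 1 ≤ Real.log x := hlog.eventually_ge_atTop 1
  have h3 : ∀ᶠ x : ℕ in Filter.atTop, 2 * 2 ^ B ≤ Real.log x := hlog.eventually_ge_atTop _
  have h4 : ∀ᶠ x : ℕ in Filter.atTop, M ≤ Real.log x := hlog.eventually_ge_atTop _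
  have hid : ∀ n : ℕ, ∀ e : ℝ, 0 < e → ∀ᶠ t : ℝ in Filter.atTop, Real.log t ^ n ≤ e * t := by
    intro n e he
    have := (Real.isLittleO_pow_log_id_atTop (n := n)).bound he
    filter_upwards [this, Filter.eventually_ge_atTop (1 : ℝ)] with t ht ht1
    have h0 : 0 ≤ Real.log t := Real.log_nonneg ht1
    rw [Real.norm_of_nonneg (by positivity)] at ht
    simpa [Real.norm_of_nonneg (by linarith : (0 : ℝ) ≤ t)] using ht
  have h5 : ∀ᶠ x : ℕ in Filter.atTop, 2 * Real.log x ^ (k + 1) ≤ Real.sqrt x := by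
    have hs : Filter.Tendsto (fun x : ℕ => Real.sqrt (x : ℝ)) Filter.atTop Filter.atTop :=
      Real.tendsto_sqrt_atTop.comp tendsto_natCast_atTop_atTop
    have := hs.eventually (hid (k + 1) (1 / (2 * 2 ^ (k + 1))) (by positivity))
    filter_upwards [this, h1] with x hx hx1
    have hls : Real.log (Real.sqrt x) = Real.log x / 2 := Real.log_sqrt (Nat.cast_nonneg x)
    rw [hls, div_pow] at hx
    have hp : (0 : ℝ) < 2 ^ (k + 1) := by positivity
    rw [div_le_iff₀ hp] at hx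
    have e1 : 1 / (2 * 2 ^ (k + 1)) * Real.sqrt x * (2 : ℝ) ^ (k + 1) = Real.sqrt x / 2 := by
      field_simp
    rw [e1] at hx
    linarith
  have h6 : ∀ᶠ x : ℕ in Filter.atTop, 4 * (B + 1) * Real.log x ^ (k + 2) ≤ x := by
    have hB : (0 : ℝ) < 4 * (B + 1) := by positivity
    have := (tendsto_natCast_atTop_atTop (R := ℝ)).eventually
      (hid (k + 2) (1 / (4 * (B + 1))) (by positivity))
    filter_upwards [this] with x hx
    have := mul_le_mul_of_nonneg_left hx hB.le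
    have e1 : 4 * ((B : ℝ) + 1) * (1 / (4 * (B + 1)) * (x : ℝ)) = x := by
      field_simp
    rw [e1] at this
    exact this
  obtain ⟨x0, hx0⟩ := Filter.eventually_atTop.mp
    (h1.and (h2.and (h3.and (h4.and (h5.and h6)))))
  exact ⟨x0, fun x hx => hx0 x hx⟩

theorem swk1_psi_le (y : ℕ) : ∑ n ∈ Icc 1 y, Lam n ≤ y * Real.log y := by
  calc ∑ n ∈ Icc 1 y, Lam n ≤ ∑ n ∈ Icc 1 y, Real.log y := by
        refine sum_le_sum fun n hn => ?_
        rw [mem_Icc] at hn
        refine (ArithmeticFunction.vonMangoldt_le_log).trans ?_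
        exact Real.log_le_log (by exact_mod_cast hn.1) (by exact_mod_cast hn.2)
    _ = y * Real.log y := by simp

theorem psi_ap (B k : ℕ) : ∃ x0 : ℕ, ∀ x : ℕ, x0 ≤ x → ∀ y : ℕ, y ≤ x → ∀ c : ℕ, 1 ≤ c →
    (c : ℝ) ≤ Real.log x ^ B → ∀ a : ℕ, Nat.Coprime a c →
      |psiA y c a - y / (c.totient : ℝ)| ≤ x / Real.log x ^ k := by
  obtain ⟨C1, hC1, hsw⟩ := siegel_walfisz (B + 1) (k + 1)
  obtain ⟨C2, hC2, hpnt⟩ := pnt (k + 1)
  obtain ⟨x0, hx0⟩ := swk1_ev B k (2 * ((C1 + C2) * 2 ^ (k + 1)))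
  refine ⟨x0, fun x hx y hyx c hc hcB a ha => ?_⟩
  obtain ⟨g1, g2, g3, g4, g5, g6⟩ := hx0 x hx
  have hxR : (2 : ℝ) ≤ x := by exact_mod_cast g1
  have hyxR : (y : ℝ) ≤ x := by exact_mod_cast hyx
  have hφ : 0 < c.totient := Nat.totient_pos.mpr hc
  have hφR : (0 : ℝ) < c.totient := by exact_mod_cast hφ
  have hφ1 : (1 : ℝ) ≤ c.totient := by exact_mod_cast hφ
  have hy0 : (0 : ℝ) ≤ y := Nat.cast_nonneg y
  have hdiv : (y : ℝ) / c.totient ≤ y := div_le_self hy0 hφ1
  have hdiv0 : (0 : ℝ) ≤ (y : ℝ) / c.totient := by positivity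
  have hLk : 0 < Real.log x ^ k := by positivity
  by_cases hbig : (y : ℝ) ≤ Real.sqrt x
  · -- trivial bound
    have hpsi0 : 0 ≤ psiA y c a := sum_nonneg fun _ _ => swk1_Lam_nonneg _
    have hpsi1 : psiA y c a ≤ y * Real.log y := by
      refine le_trans ?_ (swk1_psi_le y)
      exact sum_le_sum_of_subset_of_nonneg (filter_subset _ _) fun _ _ _ => swk1_Lam_nonneg _
    have hlogy : Real.log y ≤ Real.log x := by
      rcases Nat.eq_zero_or_pos y with h | h
      · subst h; simpa using Real.log_natCast_nonneg x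
      · exact Real.log_le_log (by exact_mod_cast h) hyxR
    have hs0 : 0 ≤ Real.sqrt x := Real.sqrt_nonneg _
    have hb1 : psiA y c a ≤ Real.sqrt x * Real.log x := by
      refine hpsi1.trans ?_
      exact mul_le_mul hbig hlogy (Real.log_natCast_nonneg y) hs0
    have hb2 : (y : ℝ) / c.totient ≤ Real.sqrt x * Real.log x := by
      refine (hdiv.trans hbig).trans ?_
      nlinarith
    have hb3 : Real.sqrt x * Real.log x ≤ x / Real.log x ^ k := by
      rw [le_div_iff₀ hLk]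
      have e1 : Real.sqrt x * Real.log x * Real.log x ^ k
          = Real.sqrt x * Real.log x ^ (k + 1) := by ring
      rw [e1]
      have e2 : Real.sqrt x * Real.sqrt x = x := Real.mul_self_sqrt (by positivity)
      have e3 : 0 ≤ Real.log x ^ (k + 1) := by positivity
      nlinarith
    rw [abs_le]
    constructor <;> linarith
  · rw [not_le] at hbig
    have hs1 : (1 : ℝ) ≤ Real.sqrt x := by
      rw [Real.one_le_sqrt]; linarith
    have hy1R : (1 : ℝ) < y := by linarith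
    have hy2 : 2 ≤ y := by
      have : 1 < y := by exact_mod_cast hy1R
      omega
    have hlogy : Real.log x / 2 ≤ Real.log y := by
      rw [← Real.log_sqrt (by positivity)]
      exact Real.log_le_log (by positivity) hbig.le
    have hlogyx : Real.log y ≤ Real.log x := Real.log_le_log (by linarith) hyxR
    have hly0 : 0 < Real.log y := by linarith
    have h2B : (2 : ℝ) ^ B ≤ Real.log y := by linarith
    have hcy : (c : ℝ) ≤ Real.log y ^ (B + 1) := by
      calc (c : ℝ) ≤ Real.log x ^ B := hcB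
        _ ≤ (2 * Real.log y) ^ B := by
            refine pow_le_pow_left₀ (by linarith) (by linarith) _
        _ = 2 ^ B * Real.log y ^ B := by rw [mul_pow]
        _ ≤ Real.log y * Real.log y ^ B := by
            refine mul_le_mul_of_nonneg_right h2B (by positivity)
        _ = Real.log y ^ (B + 1) := by ring
    set D : ℝ := C1 * y / Real.log y ^ (k + 1) with hD
    have hD0 : 0 ≤ D := by positivity
    have hchar : ∀ χ : DirichletCharacter ℂ c, χ ≠ 1 → ‖swk1S y χ.primitiveCharacter‖ ≤ D := by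
      intro χ hχ
      have : NeZero c := ⟨by omega⟩
      have hcond_dvd : χ.conductor ∣ c := χ.conductor_dvd_level
      have hcond0 : χ.conductor ≠ 0 := by
        intro h0
        rw [h0] at hcond_dvd
        have := Nat.eq_zero_of_zero_dvd hcond_dvd
        omega
      have hcond1 : χ.conductor ≠ 1 := by
        intro h1
        exact hχ ((DirichletCharacter.eq_one_iff_conductor_eq_one (χ := χ)).mpr h1)
      have hcond2 : 2 ≤ χ.conductor := by omega
      have hle : (χ.conductor : ℝ) ≤ Real.log y ^ (B + 1) := by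
        refine le_trans ?_ hcy
        exact_mod_cast Nat.le_of_dvd hc hcond_dvd
      exact hsw χ.conductor hcond2 χ.primitiveCharacter
        χ.primitiveCharacter_isPrimitive y hy2 hle
    have hmain := swk1_main (y := y) hc ha hD0 hchar
    have hp := hpnt y hy2
    have hE : swk1E y c ≤ 2 * Real.log c * Real.log y := swk1E_le (by omega) hc
    have hlogc : Real.log c ≤ B * Real.log x := by
      have h1 : Real.log c ≤ Real.log (Real.log x ^ B) :=
        Real.log_le_log (by exact_mod_cast hc) hcB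
      rw [Real.log_pow] at h1
      have h2 : Real.log (Real.log x) ≤ Real.log x := by
        have := Real.log_le_sub_one_of_pos (by linarith : (0 : ℝ) < Real.log x)
        linarith
      exact h1.trans (mul_le_mul_of_nonneg_left h2 (Nat.cast_nonneg B))
    have hlogc0 : 0 ≤ Real.log c := Real.log_natCast_nonneg c
    have hE2 : swk1E y c ≤ 2 * B * Real.log x ^ 2 := by
      calc swk1E y c ≤ 2 * Real.log c * Real.log y := hE
        _ ≤ 2 * Real.log c * Real.log x := mul_le_mul_of_nonneg_left hlogyx (by positivity)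
        _ ≤ 2 * (B * Real.log x) * Real.log x := by
            refine mul_le_mul_of_nonneg_right ?_ (by linarith)
            linarith
        _ = 2 * B * Real.log x ^ 2 := by ring
    have hE3 : swk1E y c ≤ (x / Real.log x ^ k) / 2 := by
      refine hE2.trans ?_
      rw [div_div, le_div_iff₀ (by positivity)]
      have e1 : 2 * B * Real.log x ^ 2 * (Real.log x ^ k * 2)
          = 4 * B * Real.log x ^ (k + 2) := by ring
      rw [e1]
      refine le_trans ?_ g6
      have : 0 ≤ Real.log x ^ (k + 2) := by positivity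
      nlinarith
    have hsub : |psiA y c a - y / (c.totient : ℝ)| ≤
        |psiA y c a - (∑ n ∈ Icc 1 y, Lam n) / c.totient|
          + |(∑ n ∈ Icc 1 y, Lam n) / c.totient - y / (c.totient : ℝ)| := abs_sub_le _ _ _
    have hp2 : |(∑ n ∈ Icc 1 y, Lam n) / c.totient - y / (c.totient : ℝ)|
        ≤ C2 * y / Real.log y ^ (k + 1) := by
      rw [← sub_div, abs_div, abs_of_pos hφR]
      exact (div_le_self (abs_nonneg _) hφ1).trans hp
    have hfin : (C1 + C2) * y / Real.log y ^ (k + 1) ≤ (x / Real.log x ^ k) / 2 := by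
      have hpow : (Real.log x / 2) ^ (k + 1) ≤ Real.log y ^ (k + 1) :=
        pow_le_pow_left₀ (by linarith) hlogy _
      have hpow0 : 0 < (Real.log x / 2) ^ (k + 1) := by
        have : 0 < Real.log x / 2 := by linarith
        positivity
      calc (C1 + C2) * y / Real.log y ^ (k + 1)
          ≤ (C1 + C2) * x / (Real.log x / 2) ^ (k + 1) := by
            refine div_le_div₀ (by positivity) ?_ hpow0 hpow
            exact mul_le_mul_of_nonneg_left hyxR (by positivity)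
        _ ≤ (x / Real.log x ^ k) / 2 := by
            rw [div_pow, div_div_eq_mul_div, div_div, div_le_div_iff₀ (by positivity) (by positivity)]
            have e1 : (C1 + C2) * ↑x * 2 ^ (k + 1) * (Real.log ↑x ^ k * 2)
                = (2 * ((C1 + C2) * 2 ^ (k + 1))) * (x * Real.log x ^ k) := by ring
            rw [e1]
            have e2 : (x : ℝ) * Real.log x ^ (k + 1) = Real.log x * (x * Real.log x ^ k) := by ring
            rw [e2]
            exact mul_le_mul_of_nonneg_right g4 (by positivity)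
    have hadd : D + C2 * y / Real.log y ^ (k + 1) = (C1 + C2) * y / Real.log y ^ (k + 1) := by
      rw [hD]; ring
    linarith

end Pool.Agent.H91.EHA

end

section

/-!
# Primes in arbitrary windows: total mass and real characters

For `u ≤ v ≤ x` the mass (sum of logarithms) of the primes of `(u, v]` is `v - u + o(x)`, and the sum of
`(D / p) log p` is `o(x)` for a non-square `D ≠ 0`, uniformly in `u` and `v`.
-/

set_option autoImplicit false

namespace Pool.Agent.H71.NB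

open Finset Filter Pool.Agent.H91.EHA

theorem sm1 (C δ : ℝ) (hδ : 0 < δ) : ∀ᶠ x : ℕ in atTop, C * ((x : ℝ) / Real.log x) ≤ δ * x := by
  have ht : Tendsto (fun x : ℕ => Real.log (x : ℝ)) atTop atTop :=
    Real.tendsto_log_atTop.comp tendsto_natCast_atTop_atTop
  filter_upwards [ht.eventually_ge_atTop (|C| / δ), ht.eventually_gt_atTop 0] with x h1 h2
  have h3 : C ≤ |C| := le_abs_self C
  have h4 : |C| ≤ δ * Real.log (x : ℝ) := by
    rw [div_le_iff₀ hδ] at h1
    linarith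
  rw [← mul_div_assoc, div_le_iff₀ h2]
  have hx : (0 : ℝ) ≤ x := Nat.cast_nonneg x
  nlinarith

theorem sm2 (δ : ℝ) (hδ : 0 < δ) : ∀ᶠ x : ℕ in atTop, ∀ v : ℕ, v ≤ x →
    Chebyshev.psi (v : ℝ) - Chebyshev.theta (v : ℝ) ≤ δ * x := by
  have h0 : ∀ᶠ x : ℝ in atTop, ‖Real.log x‖ ≤ δ / 2 * ‖x ^ (1 / 2 : ℝ)‖ :=
    (isLittleO_log_rpow_atTop (by norm_num : (0 : ℝ) < 1 / 2)).def (by positivity)
  filter_upwards [tendsto_natCast_atTop_atTop.eventually h0, eventually_ge_atTop 1] with x h1 h2 v hv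
  have hx1 : (1 : ℝ) ≤ x := by exact_mod_cast h2
  rw [← Real.sqrt_eq_rpow, Real.norm_eq_abs, Real.norm_eq_abs, abs_of_nonneg (Real.sqrt_nonneg _),
    abs_of_nonneg (Real.log_nonneg hx1)] at h1
  rcases Nat.eq_zero_or_pos v with h3 | h3
  · subst h3
    have e1 : Chebyshev.psi ((0 : ℕ) : ℝ) = 0 := Chebyshev.psi_eq_zero_of_lt_two (by norm_num)
    have e2 : Chebyshev.theta ((0 : ℕ) : ℝ) = 0 := Chebyshev.theta_eq_zero_of_lt_two (by norm_num)
    rw [e1, e2]
    have : 0 ≤ δ * x := by positivity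
    linarith
  · have hv1 : (1 : ℝ) ≤ v := by exact_mod_cast h3
    have hvx : (v : ℝ) ≤ x := by exact_mod_cast hv
    refine (Chebyshev.psi_sub_theta_le hv1).trans ?_
    have h6 : Real.log (v : ℝ) ≤ Real.log (x : ℝ) := Real.log_le_log (by linarith) hvx
    have h7 : Real.sqrt (v : ℝ) ≤ Real.sqrt (x : ℝ) := Real.sqrt_le_sqrt hvx
    have h8 : 0 ≤ Real.log (v : ℝ) := Real.log_nonneg hv1
    have h9 : Real.sqrt (x : ℝ) * Real.sqrt (x : ℝ) = x := Real.mul_self_sqrt (by linarith)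
    have h10 : 0 ≤ Real.sqrt (x : ℝ) := Real.sqrt_nonneg _
    calc 2 * Real.sqrt (v : ℝ) * Real.log (v : ℝ)
        ≤ 2 * Real.sqrt (x : ℝ) * (δ / 2 * Real.sqrt (x : ℝ)) := by
          gcongr
          exact h6.trans h1
      _ = δ * (Real.sqrt (x : ℝ) * Real.sqrt (x : ℝ)) := by ring
      _ = δ * x := by rw [h9]

theorem sum_win (g : ℕ → ℝ) (u v : ℕ) (huv : u ≤ v) :
    ∑ n ∈ Ioc u v, g n = ∑ n ∈ Icc 1 v, g n - ∑ n ∈ Icc 1 u, g n := by
  have h1 : Icc 1 v = Icc 1 u ∪ Ioc u v := by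
    ext n; simp only [mem_Icc, mem_union, mem_Ioc]; omega
  have h2 : Disjoint (Icc 1 u) (Ioc u v) := by
    rw [Finset.disjoint_left]; intro n h3 h4
    have := mem_Icc.1 h3; have := mem_Ioc.1 h4; omega
  rw [h1, Finset.sum_union h2]; ring

/-- the total mass -/
theorem psi_near (ε : ℝ) (hε : 0 < ε) : ∀ᶠ x : ℕ in atTop, ∀ y : ℕ, y ≤ x →
    |∑ n ∈ Icc 1 y, Lam n - y| ≤ ε * x := by
  obtain ⟨x0, hx0⟩ := psi_ap 0 1
  filter_upwards [sm1 1 ε hε, eventually_ge_atTop x0] with x h1 h3 y hy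
  have h4 := hx0 x h3 y hy 1 le_rfl (by simp) 0 (by simp)
  have h5 : psiA y 1 0 = ∑ n ∈ Icc 1 y, Lam n := by
    unfold psiA
    rw [Finset.filter_true_of_mem fun n _ => Nat.modEq_one]
  rw [h5, Nat.totient_one, pow_one] at h4
  rw [one_mul] at h1
  refine le_trans ?_ h1
  simpa using h4

theorem win_one (ε : ℝ) (hε : 0 < ε) : ∀ᶠ x : ℕ in atTop, ∀ u v : ℕ, u ≤ v → v ≤ x →
      |∑ p ∈ (Ioc u v).filter Nat.Prime, Real.log p - ((v : ℝ) - u)| ≤ ε * x := by
  filter_upwards [psi_near (ε / 3) (by positivity), sm2 (ε / 3) (by positivity)]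
    with x h1 h2 u v huv hvx
  have b1 := h1 v hvx
  have b2 := h1 u (huv.trans hvx)
  have hs := sum_win (fun n => Lam n) u v huv
  have hd := Lam_prime_diff (fun _ => 1) (fun _ => by simp) u v
  simp only [mul_one, one_mul] at hd
  rw [hs] at hd
  have hd' := hd.trans (h2 v hvx)
  rw [abs_le] at b1 b2 hd' ⊢
  constructor <;> linarith

end Pool.Agent.H71.NB

end
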