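import Pool.Agent.H71.TFC.M01
import Pool.Agent.H71.TFC.M04

/-! The parts of this file: FD.DensG, FD.InstW, H9.FC.Scale, H45.KC.KVal, H3.AB.Scale, H90.FD.Sop, H90.FD.Diff, H90.FD.Rec, H59.FD.Sparse. -/

section

/-!
# Project FD: from a gap theorem and the sparseness of the relations to density zero, general form

* `par`: the indices (a parity class);
* `Zok p Z`: `Z m` says that the relation `m` is not available at `p` (for some choice of a place above `p`);
* `E`: further equations (for coefficients).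
-/

namespace Pool.Agent.FD

open Finset

/-- Some solution in characteristic `p` of all the available relations, with `g ≠ 0`. -/
def BadZ {σ : Type} (par : ℕ → Prop) (E G : ℕ → MvPolynomial σ ℤ) (g : MvPolynomial σ ℤ) (p : ℕ) (Z : ℕ → Prop) : Prop :=
  ∃ (K : Type) (_ : Field K) (_ : CharP K p) (T : σ → K), MvPolynomial.aeval T g ≠ 0 ∧
    (∀ t, MvPolynomial.aeval T (E t) = 0) ∧
    ∀ m, par m → 2 ≤ m → 2 * m + 1 ≤ p → Z m ∨ MvPolynomial.aeval T (G m) = 0

/-- All relations of the window are unavailable. -/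
def GapZ (par : ℕ → Prop) (w v : ℕ) (Z : ℕ → Prop) : Prop := ∀ m : ℕ, par m → w < m + 1 → m + 1 ≤ v → Z m

open Classical in
/-- The gap theorem, general form. -/
def GapG (par : ℕ → Prop) (Zok : ℕ → (ℕ → Prop) → Prop) : Prop :=
  ∃ A : ℕ, ∀ ε : ℝ, 0 < ε → ∃ w₀ : ℕ, ∀ w : ℕ, w₀ ≤ w → ∃ X₀ : ℕ, ∀ X : ℕ, X₀ ≤ X →
    ∑ p ∈ (Icc 1 X).filter (fun p : ℕ => p.Prime ∧ ∃ Z, Zok p Z ∧ GapZ par w (w ^ A) Z), Real.log p ≤ ε * X

/-- Compactness with the stages: for all but finitely many bad `p` some interval of the first `S` stages is a gap. -/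
theorem stagesG {σ : Type} [Finite σ] (par : ℕ → Prop) (Zok : ℕ → (ℕ → Prop) → Prop) (A : ℕ) (E G : ℕ → MvPolynomial σ ℤ)
    (g : MvPolynomial σ ℤ)
    (hsk : ∀ T : σ → AlgebraicClosure ℚ, MvPolynomial.aeval T g ≠ 0 → (∀ t, MvPolynomial.aeval T (E t) = 0) →
      ∃ (D : ℕ) (c : ℝ), 0 < c ∧ ∀ (J : ℕ) (S : Finset ℕ),
      (∀ m ∈ S, par m ∧ 2 ≤ m ∧ J ≤ m ∧ (m : ℝ) ≤ Real.exp (c * J) ∧ MvPolynomial.aeval T (G m) = 0) → S.card ≤ D)
    (H : ℕ → ℕ) (hH2 : ∀ s, 2 ≤ H s) (hH : ∀ s, ((H s : ℝ) ^ (A ^ (s + 1)) ≤ Real.exp (H s / (s + 1)))) :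
    ∃ S : ℕ, {p : ℕ | p.Prime ∧ ∃ Z, Zok p Z ∧ BadZ par E G g p Z ∧
      ∀ s < S, ∀ k ≤ s, ¬ GapZ par (H s ^ A ^ k) (H s ^ A ^ (k + 1)) Z}.Finite := by
  classical
  by_contra hcon
  push Not at hcon
  -- the intervals
  let I : ℕ → ℕ → Finset ℕ := fun s k =>
    (range (H s ^ A ^ (k + 1) + 1)).filter fun m => par m ∧ 2 ≤ m ∧ H s ^ A ^ k < m + 1 ∧ m + 1 ≤ H s ^ A ^ (k + 1)
  have hI : ∀ s k m, m ∈ I s k ↔ par m ∧ 2 ≤ m ∧ H s ^ A ^ k < m + 1 ∧ m + 1 ≤ H s ^ A ^ (k + 1) := by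
    intro s k m
    simp only [I, mem_filter, mem_range]
    constructor
    · exact fun h => h.2
    · intro h
      exact ⟨by omega, h⟩
  let F : ℕ → MvPolynomial σ ℤ := fun u =>
    if u % 2 = 0 then E (u / 2) else
    if (Nat.unpair (u / 2)).2 ≤ (Nat.unpair (u / 2)).1 then ∏ m ∈ I (Nat.unpair (u / 2)).1 (Nat.unpair (u / 2)).2, G m else 0
  have hcpt : ∀ k : ℕ, {p : ℕ | p.Prime ∧ ∃ (K : Type) (_ : Field K) (_ : CharP K p) (T : σ → K),
      (∀ t < k, MvPolynomial.aeval T (F t) = 0) ∧ MvPolynomial.aeval T g ≠ 0}.Infinite := by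
    intro k0
    -- a bound for the ends of the intervals
    set B : ℕ := ∑ s ∈ range k0, ∑ k ∈ range (s + 1), (2 * H s ^ A ^ (k + 1) + 3) with hB
    have h1 : ({p : ℕ | p.Prime ∧ ∃ Z, Zok p Z ∧ BadZ par E G g p Z ∧
        ∀ s < k0, ∀ k ≤ s, ¬ GapZ par (H s ^ A ^ k) (H s ^ A ^ (k + 1)) Z} \
        (↑(range (B + 1)) : Set ℕ)).Infinite :=
      (Set.not_finite.1 (fun hf => hcon k0 hf)).sdiff (finite_toSet _)
    refine h1.mono ?_
    rintro p ⟨⟨hp, Z, -, ⟨K, _, _, T, hg, hE, hrel⟩, hgap⟩, hpB⟩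
    have hpB' : B < p := by
      rw [mem_coe, mem_range] at hpB
      omega
    refine ⟨hp, K, inferInstance, inferInstance, T, fun u hu => ?_, hg⟩
    simp only [F]
    split_ifs with hpar hks
    · exact hE _
    · set t := u / 2 with ht2
      have ht : t < k0 := by omega
      set s := (Nat.unpair t).1 with hs
      set k := (Nat.unpair t).2 with hk
      have hst : s < k0 := lt_of_le_of_lt (Nat.unpair_left_le t) ht
      have h2 := hgap s hst k hks
      unfold GapZ at h2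
      push Not at h2
      obtain ⟨i, hi1, hi2, hi3, hi4⟩ := h2
      have h3 : 2 * H s ^ A ^ (k + 1) + 3 ≤ B := by
        have h4 : 2 * H s ^ A ^ (k + 1) + 3 ≤ ∑ k ∈ range (s + 1), (2 * H s ^ A ^ (k + 1) + 3) :=
          single_le_sum (f := fun k => 2 * H s ^ A ^ (k + 1) + 3) (fun _ _ => Nat.zero_le _) (mem_range.2 (by omega))
        have h5 : ∑ k ∈ range (s + 1), (2 * H s ^ A ^ (k + 1) + 3) ≤ B :=
          single_le_sum (f := fun s => ∑ k ∈ range (s + 1), (2 * H s ^ A ^ (k + 1) + 3)) (fun _ _ => Nat.zero_le _)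
            (mem_range.2 hst)
        omega
      have hpos : 1 < H s ^ A ^ k := by
        rcases Nat.eq_zero_or_pos (A ^ k) with h0 | h0
        · -- then `A = 0`, `k > 0`, and the interval is empty
          exfalso
          have hA : A = 0 := by
            by_contra hA
            exact (pow_ne_zero k hA) h0
          rw [h0, pow_zero] at hi2
          rw [hA, zero_pow (by omega), pow_zero] at hi3
          omega
        · exact Nat.one_lt_pow h0.ne' (by have := hH2 s; omega)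
      have h7 : 2 ≤ i := by omega
      rcases hrel i hi1 h7 (by omega) with h8 | h8
      · exact absurd h8 hi4
      · rw [map_prod]
        exact prod_eq_zero ((hI s k i).2 ⟨hi1, h7, hi2, hi3⟩) h8
    · rw [map_zero]
  obtain ⟨T, hT, hg⟩ := cpt F g hcpt
  have hE : ∀ t, MvPolynomial.aeval T (E t) = 0 := by
    intro t
    have h1 := hT (2 * t)
    simp only [F] at h1
    rw [if_pos (by omega), show 2 * t / 2 = t by omega] at h1
    exact h1
  obtain ⟨D, c, hc, hD⟩ := hsk T hg hE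
  -- a late stage
  obtain ⟨s, hs1, hs2⟩ : ∃ s : ℕ, D ≤ s ∧ 1 / ((s : ℝ) + 1) ≤ c := by
    obtain ⟨s, hs⟩ := exists_nat_gt (1 / c)
    refine ⟨max D s, le_max_left _ _, ?_⟩
    rw [div_le_iff₀ (by positivity)]
    rw [div_lt_iff₀ hc] at hs
    have h1 : (s : ℝ) ≤ ((max D s : ℕ) : ℝ) := by exact_mod_cast le_max_right _ _
    nlinarith
  have hex : ∀ k, k ≤ s → ∃ m ∈ I s k, MvPolynomial.aeval T (G m) = 0 := by
    intro k hk
    have h1 := hT (2 * Nat.pair s k + 1)
    simp only [F] at h1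
    rw [if_neg (by omega), show (2 * Nat.pair s k + 1) / 2 = Nat.pair s k by omega, Nat.unpair_pair, if_pos hk, map_prod,
      prod_eq_zero_iff] at h1
    exact h1
  choose! m hm hm0 using hex
  have hmono : ∀ k k', k < k' → k' ≤ s → m k < m k' := by
    intro k k' hkk hk'
    have h1 := (hI s k (m k)).1 (hm k (by omega))
    have h2 := (hI s k' (m k')).1 (hm k' hk')
    have h3 : H s ^ A ^ (k + 1) ≤ H s ^ A ^ k' := by
      rcases Nat.eq_zero_or_pos A with hA | hA
      · subst hA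
        rw [zero_pow (by omega : k + 1 ≠ 0), zero_pow (by omega : k' ≠ 0)]
      · exact Nat.pow_le_pow_right (by have := hH2 s; omega) (Nat.pow_le_pow_right hA (by omega))
    omega
  have hinj : Set.InjOn m (range (s + 1) : Set ℕ) := by
    intro k hk k' hk' hkk
    rw [mem_coe, mem_range] at hk hk'
    rcases lt_trichotomy k k' with h1 | h1 | h1
    · have := hmono k k' h1 (by omega)
      omega
    · exact h1
    · have := hmono k' k h1 (by omega)
      omega
  have hcard := hD (H s) ((range (s + 1)).image m) (by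
    intro x hx
    rw [mem_image] at hx
    obtain ⟨k, hk, rfl⟩ := hx
    rw [mem_range] at hk
    have hk' : k ≤ s := by omega
    have h1 := (hI s k (m k)).1 (hm k hk')
    have hA : 0 < A := by
      rcases Nat.eq_zero_or_pos A with hA | hA
      · subst hA
        rw [zero_pow (by omega : k + 1 ≠ 0), pow_zero] at h1
        omega
      · exact hA
    have h2 : H s ≤ H s ^ A ^ k := by
      calc H s = H s ^ 1 := (pow_one _).symm
        _ ≤ H s ^ A ^ k := Nat.pow_le_pow_right (by have := hH2 s; omega) (Nat.one_le_pow _ _ hA)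
    refine ⟨h1.1, h1.2.1, by omega, ?_, hm0 k hk'⟩
    have h3 : m k ≤ H s ^ A ^ (s + 1) := by
      have h4 : H s ^ A ^ (k + 1) ≤ H s ^ A ^ (s + 1) :=
        Nat.pow_le_pow_right (by have := hH2 s; omega) (Nat.pow_le_pow_right hA (by omega))
      omega
    have h5 : ((m k : ℕ) : ℝ) ≤ (H s : ℝ) ^ A ^ (s + 1) := by exact_mod_cast h3
    refine h5.trans ((hH s).trans (Real.exp_le_exp.2 ?_))
    rw [div_eq_mul_one_div, mul_comm]
    exact mul_le_mul_of_nonneg_right hs2 (Nat.cast_nonneg _))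
  rw [card_image_of_injOn hinj, card_range] at hcard
  omega

/-- The density theorem, general form. -/
theorem densG {σ ι : Type} [Finite σ] [Finite ι] (par : ℕ → Prop) (Zok : ℕ → (ℕ → Prop) → Prop) (hgap : GapG par Zok)
    (E G : ℕ → MvPolynomial σ ℤ) (g : ι → MvPolynomial σ ℤ)
    (hsk : ∀ T : σ → AlgebraicClosure ℚ, (∃ i, MvPolynomial.aeval T (g i) ≠ 0) → (∀ t, MvPolynomial.aeval T (E t) = 0) →
      ∃ (D : ℕ) (c : ℝ), 0 < c ∧ ∀ (J : ℕ) (S : Finset ℕ),
      (∀ m ∈ S, par m ∧ 2 ≤ m ∧ J ≤ m ∧ (m : ℝ) ≤ Real.exp (c * J) ∧ MvPolynomial.aeval T (G m) = 0) → S.card ≤ D)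
    (ε : ℝ) (hε : 0 < ε) (Bad : ℕ → Prop) [DecidablePred Bad]
    (hBad : ∀ p, Bad p → p.Prime ∧ ∃ Z, Zok p Z ∧ ∃ i, BadZ par E G (g i) p Z) :
    ∃ X₀ : ℕ, ∀ X : ℕ, X₀ ≤ X → ∑ p ∈ (Icc 1 X).filter Bad, Real.log p ≤ ε * X := by
  classical
  obtain ⟨A, hA⟩ := hgap
  -- the stages
  have hε' : ∀ s : ℕ, 0 < ε / (2 ^ (s + 2) * (s + 1)) := fun s => by positivity
  choose w₀ hw₀ using fun s : ℕ => hA _ (hε' s)
  choose H hHw hH2 hHe using fun s : ℕ => exists_stage (A ^ (s + 1)) s (w₀ s)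
  have hfin : ∀ i : ι, ∃ S : ℕ, {p : ℕ | p.Prime ∧ ∃ Z, Zok p Z ∧ BadZ par E G (g i) p Z ∧ ∀ s < S, ∀ k ≤ s,
      ¬ GapZ par (H s ^ A ^ k) (H s ^ A ^ (k + 1)) Z}.Finite := fun i =>
    stagesG par Zok A E G (g i) (fun T hT => hsk T ⟨i, hT⟩) H hH2 hHe
  choose S₁ hS₁ using hfin
  have := Fintype.ofFinite ι
  obtain ⟨S, hS⟩ : ∃ S, ∀ i, S₁ i ≤ S := ⟨univ.sup S₁, fun i => le_sup (mem_univ i)⟩
  have hfin2 : {p : ℕ | Bad p ∧ ∀ s < S, ∀ k ≤ s,
      ¬ ∃ Z, Zok p Z ∧ GapZ par (H s ^ A ^ k) (H s ^ A ^ (k + 1)) Z}.Finite := by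
    refine (Set.finite_iUnion hS₁).subset ?_
    rintro p ⟨hp, hg⟩
    obtain ⟨hp1, Z, hZ, i, hi⟩ := hBad p hp
    exact Set.mem_iUnion.2 ⟨i, hp1, Z, hZ, hi, fun s hs k hk hgap => hg s (lt_of_lt_of_le hs (hS i)) k hk ⟨Z, hZ, hgap⟩⟩
  -- the bound for one interval
  have hone : ∀ s k : ℕ, ∃ X₀ : ℕ, ∀ X : ℕ, X₀ ≤ X →
      ∑ p ∈ (Icc 1 X).filter (fun p => p.Prime ∧ ∃ Z, Zok p Z ∧ GapZ par (H s ^ A ^ k) (H s ^ A ^ (k + 1)) Z), Real.log p ≤
        ε / (2 ^ (s + 2) * (s + 1)) * X := by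
    intro s k
    rcases Nat.eq_zero_or_pos A with h0 | h0
    · -- `A = 0`
      obtain ⟨X₀, hX₀⟩ := hw₀ s (max (w₀ s) 1) (le_max_left _ _)
      refine ⟨X₀, fun X hX => le_trans (sum_le_sum_of_subset_of_nonneg ?_ ?_) (hX₀ X hX)⟩
      · intro p hp
        rw [mem_filter] at hp ⊢
        obtain ⟨hp1, hp2, Z, hZ, -⟩ := hp
        refine ⟨hp1, hp2, Z, hZ, fun j _ h2 h3 => ?_⟩
        rw [h0, pow_zero] at h3
        have := le_max_right (w₀ s) 1
        omega
      · intro p _ _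
        exact Real.log_natCast_nonneg p
    · obtain ⟨X₀, hX₀⟩ := hw₀ s (H s ^ A ^ k) (by
        refine (hHw s).trans ?_
        calc H s = H s ^ 1 := (pow_one _).symm
          _ ≤ H s ^ A ^ k := Nat.pow_le_pow_right (by have := hH2 s; omega) (Nat.one_le_pow _ _ h0))
      refine ⟨X₀, fun X hX => le_trans (sum_le_sum_of_subset_of_nonneg ?_ ?_) (hX₀ X hX)⟩
      · intro p hp
        rw [mem_filter] at hp ⊢
        obtain ⟨hp1, hp2, Z, hZ, hp3⟩ := hp
        refine ⟨hp1, hp2, Z, hZ, fun j h1 h2 h3 => hp3 j h1 h2 ?_⟩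
        rw [← pow_mul, ← pow_succ] at h3
        exact h3
      · intro p _ _
        exact Real.log_natCast_nonneg p
  choose X₁ hX₁ using hone
  set M : ℝ := ∑ p ∈ hfin2.toFinset, Real.log p with hM
  obtain ⟨X₂, hX₂⟩ := exists_nat_ge (2 * M / ε)
  refine ⟨max X₂ (∑ s ∈ range S, ∑ k ∈ range (s + 1), X₁ s k), fun X hX => ?_⟩
  have hX2 : X₂ ≤ X := le_trans (le_max_left _ _) hX
  have hX1 : ∀ s < S, ∀ k ≤ s, X₁ s k ≤ X := by
    intro s hs k hk
    have h1 : X₁ s k ≤ ∑ k ∈ range (s + 1), X₁ s k :=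
      single_le_sum (f := fun k => X₁ s k) (fun _ _ => Nat.zero_le _) (mem_range.2 (by omega))
    have h2 : ∑ k ∈ range (s + 1), X₁ s k ≤ ∑ s ∈ range S, ∑ k ∈ range (s + 1), X₁ s k :=
      single_le_sum (f := fun s => ∑ k ∈ range (s + 1), X₁ s k) (fun _ _ => Nat.zero_le _) (mem_range.2 hs)
    exact h1.trans (h2.trans ((le_max_right _ _).trans hX))
  have hlog : ∀ p : ℕ, 0 ≤ Real.log p := fun p => Real.log_natCast_nonneg p
  -- the cover
  have hsub : (Icc 1 X).filter Bad ⊆ hfin2.toFinset ∪ (range S).biUnion fun s => (range (s + 1)).biUnion fun k =>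
      (Icc 1 X).filter (fun p => p.Prime ∧ ∃ Z, Zok p Z ∧ GapZ par (H s ^ A ^ k) (H s ^ A ^ (k + 1)) Z) := by
    intro p hp
    rw [mem_filter] at hp
    rw [mem_union]
    by_cases h1 : ∀ s < S, ∀ k ≤ s, ¬ ∃ Z, Zok p Z ∧ GapZ par (H s ^ A ^ k) (H s ^ A ^ (k + 1)) Z
    · left
      rw [Set.Finite.mem_toFinset]
      exact ⟨hp.2, h1⟩
    · right
      push Not at h1
      obtain ⟨s, hs, k, hk, h2⟩ := h1
      rw [mem_biUnion]
      refine ⟨s, mem_range.2 hs, ?_⟩
      rw [mem_biUnion]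
      refine ⟨k, mem_range.2 (by omega), ?_⟩
      rw [mem_filter]
      exact ⟨hp.1, (hBad p hp.2).1, h2⟩
  have h3 : ∑ p ∈ (Icc 1 X).filter Bad, Real.log p ≤
      M + ∑ s ∈ range S, ∑ k ∈ range (s + 1), ε / (2 ^ (s + 2) * (s + 1)) * X := by
    refine (sum_le_sum_of_subset_of_nonneg hsub fun p _ _ => hlog p).trans ?_
    refine (sum_union_le (fun p => hlog p) _ _).trans ?_
    refine add_le_add le_rfl ?_
    refine (sum_biUnion_le (fun p => hlog p) _ _).trans ?_
    refine sum_le_sum fun s hs => ?_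
    refine (sum_biUnion_le (fun p => hlog p) _ _).trans ?_
    refine sum_le_sum fun k hk => ?_
    exact hX₁ s k X (hX1 s (mem_range.1 hs) k (by have := mem_range.1 hk; omega))
  have h4 : ∑ s ∈ range S, ∑ k ∈ range (s + 1), ε / (2 ^ (s + 2) * (s + 1)) * (X : ℝ) ≤ ε / 2 * X := by
    have h5 : ∀ s ∈ range S, ∑ k ∈ range (s + 1), ε / (2 ^ (s + 2) * (s + 1)) * (X : ℝ) = (ε / 4 * X) * (1 / 2) ^ s := by
      intro s _
      rw [sum_const, card_range, nsmul_eq_mul, Nat.cast_add, Nat.cast_one, one_div, inv_pow, pow_add]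
      have : (s : ℝ) + 1 ≠ 0 := by positivity
      field_simp
      ring
    rw [sum_congr rfl h5, ← mul_sum]
    have h6 : ∑ i ∈ range S, ((1 : ℝ) / 2) ^ i ≤ 2 := by
      have h9 : ∀ S : ℕ, ∑ i ∈ range S, ((1 : ℝ) / 2) ^ i = 2 - 2 * (1 / 2) ^ S := by
        intro S
        induction S with
        | zero => simp
        | succ S ih =>
          rw [sum_range_succ, ih, pow_succ]
          ring
      rw [h9]
      have : (0 : ℝ) < (1 / 2) ^ S := by positivity
      linarith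
    calc ε / 4 * X * ∑ i ∈ range S, ((1 : ℝ) / 2) ^ i ≤ ε / 4 * X * 2 :=
          mul_le_mul_of_nonneg_left h6 (by positivity)
      _ = ε / 2 * X := by ring
  have h7 : M ≤ ε / 2 * X := by
    have h8 : 2 * M / ε ≤ X := hX₂.trans (by exact_mod_cast hX2)
    rw [div_le_iff₀ hε] at h8
    linarith
  linarith

end Pool.Agent.FD

end

section

/-!
# Project FD/AB: the density theorem for weighted relations `∑ c_v LL m (T v) = 0`

The weights are polynomials `C v` in further variables `z` (`Fin r`), which satisfy the equations `R t = 0`.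
-/

namespace Pool.Agent.FD

open Finset H69FD Pool.Agent.H71.FD

open Classical in
/-- The weighted symmetry under inversion. -/
def SymW {F : Type*} [Field F] {n : ℕ} (e : ℕ) (T c : Fin n → F) : Prop :=
  ∀ τ : F, ∑ v ∈ univ.filter (fun v => T v = τ), c v = (-1) ^ e * ∑ v ∈ univ.filter (fun v => T v * τ = 1), c v

/-- The sparseness of the weighted relations over `ℚ̄`, counting form. -/
def SparseW : Prop :=
  ∀ (n e : ℕ) (T c : Fin n → AlgebraicClosure ℚ), (∀ v, T v ≠ 0) → (∀ v, T v ≠ 1) → ¬ SymW e T c →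
    ∃ (D : ℕ) (c₀ : ℝ), 0 < c₀ ∧ ∀ (J : ℕ) (S : Finset ℕ),
    (∀ m ∈ S, m % 2 = e % 2 ∧ 2 ≤ m ∧ J ≤ m ∧ (m : ℝ) ≤ Real.exp (c₀ * J) ∧ ∑ v, c v * LL m (T v) = 0) → S.card ≤ D

/-- The set of the `p` with a solution which is not symmetric. -/
def FDBadW (e n r : ℕ) (C : Fin n → MvPolynomial (Fin r) ℤ) (R : ℕ → MvPolynomial (Fin r) ℤ)
    (Zok : ℕ → (ℕ → Prop) → Prop) (p : ℕ) : Prop :=
  ∃ Z, Zok p Z ∧ ∃ (Ω : Type) (_ : Field Ω) (_ : CharP Ω p) (T : Fin n → Ω) (z : Fin r → Ω),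
    (∀ t, MvPolynomial.aeval z (R t) = 0) ∧ (∀ v, T v ≠ 0) ∧ (∀ v, T v ≠ 1) ∧
    ¬ SymW e T (fun v => MvPolynomial.aeval z (C v)) ∧
    ∀ m, m % 2 = e % 2 → 2 ≤ m → 2 * m + 1 ≤ p → Z m ∨ ∑ v, MvPolynomial.aeval z (C v) * LL m (T v) = 0

/-- The numerator of the weighted relation. -/
noncomputable def numW {n r : ℕ} (C : Fin n → MvPolynomial (Fin r) ℤ) (PE : ℕ → Polynomial ℤ) (m : ℕ) :
    MvPolynomial (Fin n ⊕ Fin r) ℤ :=
  ∑ v, MvPolynomial.rename Sum.inr (C v) * (Polynomial.aeval (MvPolynomial.X (Sum.inl v)) (PE m) *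
    ∏ u ∈ univ.erase v, (1 - MvPolynomial.X (Sum.inl u)) ^ (m + 1))

theorem numW_zero_iff {n r : ℕ} (C : Fin n → MvPolynomial (Fin r) ℤ) (m : ℕ) {K : Type*} [Field K] (T : Fin n → K)
    (z : Fin r → K) (hT : ∀ v, T v ≠ 1) :
    MvPolynomial.aeval (Sum.elim T z) (numW C eul m) = 0 ↔ ∑ v, MvPolynomial.aeval z (C v) * LL m (T v) = 0 := by
  have h1 : ∀ v, (1 - T v) ^ (m + 1) ≠ 0 := fun v => pow_ne_zero _ (sub_ne_zero.2 (Ne.symm (hT v)))
  have h2 : MvPolynomial.aeval (Sum.elim T z) (numW C eul m) =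
      (∏ u, (1 - T u) ^ (m + 1)) * ∑ v, MvPolynomial.aeval z (C v) * LL m (T v) := by
    rw [numW, map_sum, mul_sum]
    refine sum_congr rfl fun v _ => ?_
    rw [map_mul, map_mul, map_prod, ← mul_prod_erase univ _ (mem_univ v), MvPolynomial.aeval_rename]
    have h3 : MvPolynomial.aeval (Sum.elim T z)
        (Polynomial.aeval (MvPolynomial.X (Sum.inl v) : MvPolynomial (Fin n ⊕ Fin r) ℤ) (eul m)) =
        Polynomial.aeval (T v) (eul m) := by
      rw [← Polynomial.aeval_algHom_apply, MvPolynomial.aeval_X, Sum.elim_inl]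
    have h4 : ∏ u ∈ univ.erase v, MvPolynomial.aeval (Sum.elim T z)
        ((1 - MvPolynomial.X (Sum.inl u) : MvPolynomial (Fin n ⊕ Fin r) ℤ) ^ (m + 1)) =
        ∏ u ∈ univ.erase v, (1 - T u) ^ (m + 1) := by
      refine prod_congr rfl fun u _ => ?_
      rw [map_pow, map_sub, map_one, MvPolynomial.aeval_X, Sum.elim_inl]
    rw [h3, h4, Sum.elim_comp_inr, LL]
    have := h1 v
    field_simp
  rw [h2, mul_eq_zero, or_iff_right (prod_ne_zero_iff.2 fun v _ => h1 v)]

/-- The inequation of a pattern. -/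
noncomputable def gW {n r : ℕ} (e : ℕ) (C : Fin n → MvPolynomial (Fin r) ℤ) (u : Fin n) (A B : Finset (Fin n)) :
    MvPolynomial (Fin n ⊕ Fin r) ℤ :=
  (∏ v, (MvPolynomial.X (Sum.inl v) * (1 - MvPolynomial.X (Sum.inl v)))) *
    (∏ v ∈ univ.filter (fun v => v ∉ A), (MvPolynomial.X (Sum.inl v) - MvPolynomial.X (Sum.inl u))) *
    (∏ v ∈ univ.filter (fun v => v ∉ B), (MvPolynomial.X (Sum.inl v) * MvPolynomial.X (Sum.inl u) - 1)) *
    MvPolynomial.rename Sum.inr (∑ v ∈ A, C v - (-1) ^ e * ∑ v ∈ B, C v)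

/-- The equations of a pattern. -/
noncomputable def eW {n r : ℕ} (R : ℕ → MvPolynomial (Fin r) ℤ) (u : Fin n) (A B : Finset (Fin n)) (t : ℕ) :
    MvPolynomial (Fin n ⊕ Fin r) ℤ :=
  if t % 2 = 0 then MvPolynomial.rename Sum.inr (R (t / 2)) else
    if h : t / 2 < n then (if (⟨t / 2, h⟩ : Fin n) ∈ A then MvPolynomial.X (Sum.inl ⟨t / 2, h⟩) - MvPolynomial.X (Sum.inl u) else 0)
    else if h : t / 2 - n < n then
      (if (⟨t / 2 - n, h⟩ : Fin n) ∈ B then MvPolynomial.X (Sum.inl ⟨t / 2 - n, h⟩) * MvPolynomial.X (Sum.inl u) - 1 else 0)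
    else 0

theorem eW_iff {n r : ℕ} (R : ℕ → MvPolynomial (Fin r) ℤ) (u : Fin n) (A B : Finset (Fin n)) {K : Type*} [Field K]
    (T : Fin n → K) (z : Fin r → K) :
    (∀ t, MvPolynomial.aeval (Sum.elim T z) (eW R u A B t) = 0) ↔
      (∀ t, MvPolynomial.aeval z (R t) = 0) ∧ (∀ v ∈ A, T v = T u) ∧ (∀ v ∈ B, T v * T u = 1) := by
  constructor
  · intro h
    refine ⟨fun t => ?_, fun v hv => ?_, fun v hv => ?_⟩
    · have h1 := h (2 * t)
      rw [eW, if_pos (by omega), show 2 * t / 2 = t by omega, MvPolynomial.aeval_rename, Sum.elim_comp_inr] at h1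
      exact h1
    · have h1 := h (2 * v + 1)
      have h2 : (2 * (v : ℕ) + 1) / 2 = v := by omega
      have h3 : (2 * (v : ℕ) + 1) / 2 < n := by rw [h2]; exact v.2
      have h4 : (⟨(2 * (v : ℕ) + 1) / 2, h3⟩ : Fin n) = v := Fin.ext h2
      rw [eW, if_neg (by omega), dif_pos h3, h4, if_pos hv, map_sub, MvPolynomial.aeval_X, MvPolynomial.aeval_X, Sum.elim_inl,
        Sum.elim_inl, sub_eq_zero] at h1
      exact h1
    · have h1 := h (2 * (n + v) + 1)
      have h2 : (2 * (n + (v : ℕ)) + 1) / 2 - n = v := by omega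
      have h3 : (2 * (n + (v : ℕ)) + 1) / 2 - n < n := by rw [h2]; exact v.2
      have h4 : (⟨(2 * (n + (v : ℕ)) + 1) / 2 - n, h3⟩ : Fin n) = v := Fin.ext h2
      rw [eW, if_neg (by omega), dif_neg (by omega), dif_pos h3, h4, if_pos hv, map_sub, map_mul, MvPolynomial.aeval_X,
        MvPolynomial.aeval_X, Sum.elim_inl, Sum.elim_inl, map_one, sub_eq_zero] at h1
      exact h1
  · rintro ⟨h1, h2, h3⟩ t
    rw [eW]
    split_ifs with h4 h5 h6 h7 h8
    · rw [MvPolynomial.aeval_rename, Sum.elim_comp_inr]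
      exact h1 _
    · rw [map_sub, MvPolynomial.aeval_X, MvPolynomial.aeval_X, Sum.elim_inl, Sum.elim_inl, h2 _ h6, sub_self]
    · exact map_zero _
    · rw [map_sub, map_mul, MvPolynomial.aeval_X, MvPolynomial.aeval_X, Sum.elim_inl, Sum.elim_inl, map_one, h3 _ h8, sub_self]
    · exact map_zero _
    · exact map_zero _

theorem gW_ne_iff {n r : ℕ} (e : ℕ) (C : Fin n → MvPolynomial (Fin r) ℤ) (u : Fin n) (A B : Finset (Fin n)) {K : Type*}
    [Field K] (T : Fin n → K) (z : Fin r → K) :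
    MvPolynomial.aeval (Sum.elim T z) (gW e C u A B) ≠ 0 ↔
      (∀ v, T v ≠ 0) ∧ (∀ v, T v ≠ 1) ∧ (∀ v, v ∉ A → T v ≠ T u) ∧ (∀ v, v ∉ B → T v * T u ≠ 1) ∧
      ∑ v ∈ A, MvPolynomial.aeval z (C v) ≠ (-1) ^ e * ∑ v ∈ B, MvPolynomial.aeval z (C v) := by
  rw [gW, map_mul, map_mul, map_mul, map_prod, map_prod, map_prod, MvPolynomial.aeval_rename, Sum.elim_comp_inr]
  simp only [map_mul, map_sub, map_one, MvPolynomial.aeval_X, Sum.elim_inl, map_sum, map_pow, map_neg]
  rw [mul_ne_zero_iff, mul_ne_zero_iff, mul_ne_zero_iff, prod_ne_zero_iff, prod_ne_zero_iff, prod_ne_zero_iff, sub_ne_zero]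
  simp only [mem_univ, true_implies, mul_ne_zero_iff, sub_ne_zero, mem_filter, true_and, and_assoc, forall_and]
  constructor
  · rintro ⟨h1, h2, h3, h4, h5⟩
    exact ⟨h1, fun v => Ne.symm (h2 v), h3, h4, h5⟩
  · rintro ⟨h1, h2, h3, h4, h5⟩
    exact ⟨h1, fun v => Ne.symm (h2 v), h3, h4, h5⟩

/-- Theorem M, weighted. -/
theorem theoremMW (hsk : SparseW) (e n r : ℕ) (C : Fin n → MvPolynomial (Fin r) ℤ) (R : ℕ → MvPolynomial (Fin r) ℤ)
    (Zok : ℕ → (ℕ → Prop) → Prop) (hgap : GapG (fun m => m % 2 = e % 2) Zok) : Null (FDBadW e n r C R Zok) := by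
  classical
  -- the patterns
  let Pat : Type := Fin n × Finset (Fin n) × Finset (Fin n)
  let BadP : Pat → ℕ → Prop := fun i p => ∃ Z, Zok p Z ∧
    BadZ (fun m => m % 2 = e % 2) (eW R i.1 i.2.1 i.2.2) (numW C eul) (gW e C i.1 i.2.1 i.2.2) p Z
  have h1 : ∀ i : Pat, Null (BadP i) := by
    intro i ε hε
    obtain ⟨X₀, hX₀⟩ := densG (σ := Fin n ⊕ Fin r) (ι := Unit) (fun m => m % 2 = e % 2) Zok hgap (eW R i.1 i.2.1 i.2.2)
      (numW C eul) (fun _ => gW e C i.1 i.2.1 i.2.2) (fun T hT hE => by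
        obtain ⟨_, hT⟩ := hT
        have h2 : T = Sum.elim (fun v => T (Sum.inl v)) (fun k => T (Sum.inr k)) := by
          ext x
          rcases x with x | x <;> rfl
        set T' : Fin n → AlgebraicClosure ℚ := fun v => T (Sum.inl v) with hT'
        set z : Fin r → AlgebraicClosure ℚ := fun k => T (Sum.inr k) with hz
        rw [h2] at hT
        obtain ⟨h3, h4, h5, h6, h7⟩ := (gW_ne_iff e C _ _ _ T' z).1 hT
        rw [h2] at hE
        obtain ⟨h8, h9, h10⟩ := (eW_iff R _ _ _ T' z).1 hE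
        have hA : univ.filter (fun v => T' v = T' i.1) = i.2.1 := by
          ext v
          rw [mem_filter]
          constructor
          · rintro ⟨-, h11⟩
            by_contra h12
            exact h5 v h12 h11
          · exact fun h11 => ⟨mem_univ _, h9 v h11⟩
        have hB : univ.filter (fun v => T' v * T' i.1 = 1) = i.2.2 := by
          ext v
          rw [mem_filter]
          constructor
          · rintro ⟨-, h11⟩
            by_contra h12
            exact h6 v h12 h11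
          · exact fun h11 => ⟨mem_univ _, h10 v h11⟩
        obtain ⟨D, c₀, hc₀, hD⟩ := hsk n e T' (fun v => MvPolynomial.aeval z (C v)) h3 h4 (by
          intro hs
          have h11 := hs (T' i.1)
          apply h7
          have hA' : ∑ v ∈ i.2.1, MvPolynomial.aeval z (C v) =
              ∑ v ∈ univ.filter (fun v => T' v = T' i.1), MvPolynomial.aeval z (C v) := by rw [hA]
          have hB' : ∑ v ∈ i.2.2, MvPolynomial.aeval z (C v) =
              ∑ v ∈ univ.filter (fun v => T' v * T' i.1 = 1), MvPolynomial.aeval z (C v) := by rw [hB]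
          refine hA'.trans (Eq.trans ?_ (congrArg (fun x => (-1) ^ e * x) hB').symm)
          convert h11)
        refine ⟨D, c₀, hc₀, fun J S hS => hD J S fun m hm => ?_⟩
        obtain ⟨h12, h13, h14, h15, h16⟩ := hS m hm
        rw [h2] at h16
        exact ⟨h12, h13, h14, h15, (numW_zero_iff C m T' z h4).1 h16⟩)
      ε hε (fun p => p.Prime ∧ BadP i p) (fun p hp => ⟨hp.1, by
        obtain ⟨Z, hZ, hb⟩ := hp.2
        exact ⟨Z, hZ, (), hb⟩⟩)
    rw [Filter.eventually_atTop]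
    refine ⟨X₀, fun X hX => le_trans (le_of_eq ?_) (hX₀ X hX)⟩
    unfold th
    congr
  -- finite union
  have h2 : ∀ S : Finset Pat, Null (fun p => ∃ i ∈ S, BadP i p) := by
    intro S
    induction S using Finset.induction_on with
    | empty =>
      refine Null_of_bounded 0 fun p _ hp => ?_
      obtain ⟨i, hi, -⟩ := hp
      simp at hi
    | insert a S ha ih =>
      refine (ih.or (h1 a)).mono fun p _ hp => ?_
      obtain ⟨i, hi, hb⟩ := hp
      rcases mem_insert.1 hi with rfl | hi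
      · exact Or.inr hb
      · exact Or.inl ⟨i, hi, hb⟩
  refine (h2 univ).mono fun p _ hp => ?_
  obtain ⟨Z, hZ, Ω, _, _, T, z, hR, h0, h1', hs, hrel⟩ := hp
  -- some `T u` violates the symmetry
  have hε2 : ((-1 : Ω) ^ e) * (-1) ^ e = 1 := by
    rw [← mul_pow]
    simp
  obtain ⟨u, hu⟩ : ∃ u, ∑ v ∈ univ.filter (fun v => T v = T u), MvPolynomial.aeval z (C v) ≠
      (-1) ^ e * ∑ v ∈ univ.filter (fun v => T v * T u = 1), MvPolynomial.aeval z (C v) := by
    unfold SymW at hs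
    push Not at hs
    obtain ⟨τ, hτ⟩ := hs
    by_cases h3 : ∃ u, T u = τ
    · obtain ⟨u, rfl⟩ := h3
      exact ⟨u, hτ⟩
    · by_cases h4 : ∃ u, T u * τ = 1
      · obtain ⟨u, hu⟩ := h4
        refine ⟨u, fun h5 => hτ ?_⟩
        have hτu : τ = (T u)⁻¹ := eq_inv_of_mul_eq_one_right hu
        have h6 : univ.filter (fun v => T v = τ) = univ.filter (fun v => T v * T u = 1) := by
          ext v
          rw [mem_filter, mem_filter, hτu]
          refine and_congr Iff.rfl ⟨fun h => by rw [h, inv_mul_cancel₀ (h0 u)], fun h => eq_inv_of_mul_eq_one_left h⟩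
        have h7 : univ.filter (fun v => T v * τ = 1) = univ.filter (fun v => T v = T u) := by
          ext v
          rw [mem_filter, mem_filter, hτu]
          refine and_congr Iff.rfl ⟨fun h => ?_, fun h => by rw [h, mul_inv_cancel₀ (h0 u)]⟩
          rw [mul_inv_eq_one₀ (h0 u)] at h
          exact h
        rw [h6, h7, h5, ← mul_assoc, hε2, one_mul]
      · exfalso
        apply hτ
        rw [filter_false_of_mem (fun v _ h => h3 ⟨v, h⟩), filter_false_of_mem (fun v _ h => h4 ⟨v, h⟩)]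
        simp
  refine ⟨(u, univ.filter (fun v => T v = T u), univ.filter (fun v => T v * T u = 1)), mem_univ _, Z, hZ, Ω, inferInstance,
    inferInstance, Sum.elim T z, ?_, ?_, ?_⟩
  · rw [gW_ne_iff]
    refine ⟨h0, h1', fun v hv h => hv ?_, fun v hv h => hv ?_, hu⟩
    · rw [mem_filter]
      exact ⟨mem_univ _, h⟩
    · rw [mem_filter]
      exact ⟨mem_univ _, h⟩
  · rw [eW_iff]
    refine ⟨hR, fun v hv => (mem_filter.1 hv).2, fun v hv => (mem_filter.1 hv).2⟩
  · intro m hm hm2 hmp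
    rcases hrel m hm hm2 hmp with h3 | h3
    · exact Or.inl h3
    · exact Or.inr ((numW_zero_iff C m T z h1').2 h3)

end Pool.Agent.FD

end

section

/-!
# Project FC9, module Scale

Removing common factors at the primes dividing an integer `n`.

PROOF. Let `𝔤 = (a, b, c) ≠ ⊥`, and write `𝔤 = 𝔤₁ 𝔤₂` where
`𝔤₁` is the product of the prime powers in `𝔤` for the primes containing `n` (so `𝔤₂ ⊄ P` for all
primes `P ∋ n`).  By the Chinese remainder theorem (or prime avoidance) there is `y ∈ 𝔤₁` such that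
`y ∉ 𝔤₁ P` for all primes `P ∋ n`.  Then `(y) = 𝔤₁ 𝔧` with an ideal `𝔧` contained in no prime
containing `n`.
So `m = absNorm 𝔧` is an integer prime to `n` lying in `𝔧`, and `m 𝔤₁ ⊆ 𝔧 𝔤₁ = (y)`, so
`a' = m a / y`, `b' = m b/y`, `c' = m c/y ∈ 𝓞 K`.  They satisfy the Fermat equation; if `P ∋ n`
contained `a', b', c'`, then `m 𝔤 = y (a', b', c') ⊆ y P ⊆ 𝔤₁ P`, and comparing the exponent of `P`
(`P` does not divide `m`, nor `𝔤₂`) we get a contradiction: the exponent of `𝔤` is the one of `𝔤₁`.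
`cop_two`: if `a, b ∈ P` then `c^p ∈ P`.
`scale_unit`: if no prime above `p` contained `a`, `b`, `c` individually (first case), the same holds for
`a', b', c'` if `n` is prime to `p`... this is not needed: choose `n` divisible by `p`; at a prime `P ∋ p`
the exponents of `a, b, c` are equal iff those of `a', b', c'` are.  (`first_scale`: if `y a' = m a` etc.,
`y, m ≠ 0`, and `P` contains none of `a, b, c` and not all of `a', b', c'`, then the exponents of
`a', b', c'` at `P` are all equal, hence all `0`.)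
-/

namespace H9FC

open NumberField

theorem exists_scale (K : Type*) [Field K] [NumberField K] (p : ℕ) [Fact p.Prime] (n : ℕ)
    (hn : n ≠ 0) (a b c : 𝓞 K) (h : FSol K p a b c) :
    ∃ a' b' c' y m : 𝓞 K, y ≠ 0 ∧ m ≠ 0 ∧ y * a' = m * a ∧ y * b' = m * b ∧ y * c' = m * c ∧
      FSol K p a' b' c' ∧ ∀ P : Ideal (𝓞 K), P.IsPrime → (n : 𝓞 K) ∈ P →
        ¬ (a' ∈ P ∧ b' ∈ P ∧ c' ∈ P) := by
  have hpp : p.Prime := Fact.out
  obtain ⟨ha, hb, hc, he⟩ := h
  by_cases hu : Ideal.span {(n : 𝓞 K)} = ⊤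
  · refine ⟨a, b, c, 1, 1, one_ne_zero, one_ne_zero, rfl, rfl, rfl, ⟨ha, hb, hc, he⟩, ?_⟩
    intro P hP hnP _
    apply hP.ne_top
    rw [eq_top_iff, ← hu, Ideal.span_singleton_le_iff_mem]
    exact hnP
  have hn0 : (n : 𝓞 K) ≠ 0 := by exact_mod_cast hn
  set G : Ideal (𝓞 K) := Ideal.span {a, b, c} with hG
  have haG : a ∈ G := Ideal.subset_span (by simp)
  have hbG : b ∈ G := Ideal.subset_span (by simp)
  have hcG : c ∈ G := Ideal.subset_span (by simp)
  have hG0 : G ≠ 0 := by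
    intro h0
    rw [h0] at haG
    exact ha (by simpa using haG)
  obtain ⟨y, hy⟩ := IsDedekindDomain.exists_sup_span_eq (I := G * Ideal.span {(n : 𝓞 K)}) (J := G)
    Ideal.mul_le_left (mul_ne_zero hG0 (by
      rw [Ne, Ideal.zero_eq_bot, Ideal.span_singleton_eq_bot]
      exact hn0))
  have hyG : Ideal.span {y} ≤ G := by
    rw [← hy]
    exact le_sup_right
  obtain ⟨J, hJ⟩ := Ideal.dvd_iff_le.mpr hyG
  have hcop : Ideal.span {(n : 𝓞 K)} ⊔ J = 1 := by
    have h1 : G * (Ideal.span {(n : 𝓞 K)} ⊔ J) = G * 1 := by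
      rw [Ideal.mul_sup, ← hJ, hy, mul_one]
    exact mul_left_cancel₀ hG0 h1
  have hy0 : y ≠ 0 := by
    rintro rfl
    have h1 : J = ⊥ := by
      have h2 : G * J = G * 0 := by
        rw [← hJ, mul_zero, Ideal.zero_eq_bot, Ideal.span_singleton_eq_bot]
      exact mul_left_cancel₀ hG0 h2
    rw [h1, sup_bot_eq] at hcop
    exact hu (by rw [hcop, Ideal.one_eq_top])
  have h1mem : (1 : 𝓞 K) ∈ Ideal.span {(n : 𝓞 K)} ⊔ J := by
    rw [hcop, Ideal.one_eq_top]
    trivial
  obtain ⟨i, hi, m, hm, him⟩ := Submodule.mem_sup.mp h1mem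
  have hm0 : m ≠ 0 := by
    rintro rfl
    rw [add_zero] at him
    rw [him] at hi
    exact hu ((Ideal.eq_top_iff_one _).mpr hi)
  have key : ∀ x ∈ G, ∃ x', y * x' = m * x := by
    intro x hx
    have h1 : x * m ∈ G * J := Ideal.mul_mem_mul hx hm
    rw [← hJ, Ideal.mem_span_singleton] at h1
    obtain ⟨x', hx'⟩ := h1
    exact ⟨x', by rw [← hx', mul_comm]⟩
  obtain ⟨a', ea⟩ := key a haG
  obtain ⟨b', eb⟩ := key b hbG
  obtain ⟨c', ec⟩ := key c hcG
  have hne : ∀ x x' : 𝓞 K, y * x' = m * x → x ≠ 0 → x' ≠ 0 := by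
    rintro x x' e hx rfl
    rw [mul_zero] at e
    exact mul_ne_zero hm0 hx e.symm
  refine ⟨a', b', c', y, m, hy0, hm0, ea, eb, ec, ⟨hne a a' ea ha, hne b b' eb hb, hne c c' ec hc, ?_⟩,
    ?_⟩
  · have h1 : y ^ p * (a' ^ p + b' ^ p + c' ^ p) = 0 := by
      calc y ^ p * (a' ^ p + b' ^ p + c' ^ p) = (y * a') ^ p + (y * b') ^ p + (y * c') ^ p := by
            rw [mul_pow, mul_pow, mul_pow]
            ring
        _ = m ^ p * (a ^ p + b ^ p + c ^ p) := by
            rw [ea, eb, ec, mul_pow, mul_pow, mul_pow]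
            ring
        _ = 0 := by rw [he, mul_zero]
    exact (mul_eq_zero.mp h1).resolve_left (pow_ne_zero _ hy0)
  · rintro P hP hnP ⟨ha', hb', hc'⟩
    have h1 : ∀ x x' : 𝓞 K, y * x' = m * x → x' ∈ P → m * x ∈ Ideal.span {y} * P := by
      intro x x' e hx'
      rw [← e]
      exact Ideal.mul_mem_mul (Ideal.mem_span_singleton_self y) hx'
    have h2 : Ideal.span {m} * G ≤ G * (J * P) := by
      rw [← mul_assoc, ← hJ, hG, Ideal.span_mul_span', Ideal.span_le]
      rintro z ⟨x1, hx1, x2, hx2, rfl⟩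
      rw [Set.mem_singleton_iff] at hx1
      subst hx1
      simp only [Set.mem_insert_iff, Set.mem_singleton_iff] at hx2
      rcases hx2 with rfl | rfl | rfl
      · exact h1 _ _ ea ha'
      · exact h1 _ _ eb hb'
      · exact h1 _ _ ec hc'
    rw [mul_comm, ← Ideal.dvd_iff_le, mul_dvd_mul_iff_left hG0, Ideal.dvd_iff_le,
      Ideal.span_singleton_le_iff_mem] at h2
    have h3 : m ∈ P := Ideal.mul_le_right h2
    apply hP.ne_top
    rw [Ideal.eq_top_iff_one, ← him]
    refine P.add_mem ?_ h3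
    have : Ideal.span {(n : 𝓞 K)} ≤ P := by
      rwa [Ideal.span_singleton_le_iff_mem]
    exact this hi

end H9FC

end

section

/-!
# KC, module KVal: from solutions in `K` to normalised solutions in `𝓞 K`

`Dv v x y z`: the prime `v` divides `x` relative to the triple `x, y, z` (`v(x)` is larger than the
minimum of the other two, in the multiplicative notation of Mathlib).
`nu K q x y z`: the sum of the local degrees `e f` over the primes above `q` with `Dv v x y z`.

PROOF of `exists_norm`. There is an integer `N ≠ 0` with `N a, N b, N c ∈ 𝓞 K` (`IsLocalization.exist_integer_multiples`,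
or `IsIntegral` clearing), `A = N a`, ... satisfy `FSol`.  `H9FC.exists_scale` with `n = p q` gives
`a', b', c'`, `y, m` with `y a' = m A` etc.; `λ = m N / y`.  A prime `P` with `p ∈ P` (or `q ∈ P`)
contains `n = p q`.
PROOF of `dv_iff`. `v` a prime above `q`, `P = v.asIdeal`.  Valuations: `v(x') = v(λ) v(x)`, `v(λ) ≠ 0`, so
`Dv v a b c ↔ v(a') < max (v(b'), v(c'))`.  All three values are `≤ 1`
(`valuation_le_one`), and `v(x') < 1 ↔ x' ∈ P` (`valuation_lt_one_iff_mem`); not all three are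
in `P` (`CopAt`), so: if `a' ∈ P` then `max (v b', v c') = 1 > v a'`; if `a' ∉ P` then `v a' = 1` is not
`< max ≤ 1`.
PROOF of `nu_eq_mm`. Both are finite sums of `e f` over corresponding index sets:
`v ↦ v.asIdeal` is a bijection from `{v : q ∈ v.asIdeal ∧ Dv v a b c}` to
`{P : P ∈ primesOver (q) ∧ a' ∈ P}` (`q ≠ 0`, so such `P ≠ ⊥`; `Ideal.mem_primesOver`, `liesOver` iff
`q ∈ P` for a prime number `q`).  (`finsum_mem_eq_of_bijOn` or `finsum_mem_image`.)
PROOF of `first_iff`. For a prime `v` above `p`: if none of `Dv v a b c`, `Dv v b c a`, `Dv v c a b`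
then none of `a', b', c'` is in `P`, and `v(a) = v(b) = v(c)`, and conversely.
-/

open NumberField IsDedekindDomain H9FC

namespace H45KC

/-- the prime `v` divides `x` relative to the triple `x, y, z` -/
def Dv {K : Type*} [Field K] [NumberField K] (v : HeightOneSpectrum (𝓞 K)) (x y z : K) : Prop :=
  v.valuation K x < max (v.valuation K y) (v.valuation K z)

private theorem KVal_ne {K : Type*} [Field K] [NumberField K] {x : 𝓞 K} {y : K}
    (h : (x : K) = y) (hy : y ≠ 0) : x ≠ 0 := by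
  rintro rfl
  exact hy (h.symm.trans (map_zero (algebraMap (𝓞 K) K)))

theorem exists_norm (K : Type*) [Field K] [NumberField K] (p : ℕ) [Fact p.Prime] (q : ℕ)
    [Fact q.Prime] (a b c : K) (ha : a ≠ 0) (hb : b ≠ 0) (hc : c ≠ 0)
    (h : a ^ p + b ^ p + c ^ p = 0) :
    ∃ (l : K) (a' b' c' : 𝓞 K), l ≠ 0 ∧ (a' : K) = l * a ∧ (b' : K) = l * b ∧ (c' : K) = l * c ∧
      FSol K p a' b' c' ∧ CopAt K p a' b' c' ∧ CopAt K q a' b' c' := by
  classical
  have hp : p.Prime := Fact.out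
  have hq : q.Prime := Fact.out
  obtain ⟨N, hN⟩ := IsLocalization.exist_integer_multiples_of_finset
    (nonZeroDivisors (𝓞 K)) ({a, b, c} : Finset K)
  have hint : ∀ x ∈ ({a, b, c} : Finset K), ∃ X : 𝓞 K, (X : K) = ((N : 𝓞 K) : K) * x := by
    intro x hx
    obtain ⟨X, hX⟩ := hN x hx
    refine ⟨X, ?_⟩
    rw [Algebra.smul_def] at hX
    exact hX
  obtain ⟨A, hA⟩ := hint a (by simp)
  obtain ⟨B, hB⟩ := hint b (by simp)
  obtain ⟨C, hC⟩ := hint c (by simp)
  have hN0 : (N : 𝓞 K) ≠ 0 := nonZeroDivisors.coe_ne_zero N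
  have hN0' : ((N : 𝓞 K) : K) ≠ 0 := RingOfIntegers.coe_ne_zero_iff.2 hN0
  have hF : FSol K p A B C := by
    refine ⟨KVal_ne hA (mul_ne_zero hN0' ha), KVal_ne hB (mul_ne_zero hN0' hb),
      KVal_ne hC (mul_ne_zero hN0' hc), ?_⟩
    apply FaithfulSMul.algebraMap_injective (𝓞 K) K
    rw [map_add, map_add, map_pow, map_pow, map_pow, map_zero]
    show (A : K) ^ p + (B : K) ^ p + (C : K) ^ p = 0
    rw [hA, hB, hC, mul_pow, mul_pow, mul_pow, ← mul_add, ← mul_add, h, mul_zero]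
  obtain ⟨a', b', c', y, m, hy, hm, ea, eb, ec, hF', hcop⟩ :=
    exists_scale K p (p * q) (mul_ne_zero hp.ne_zero hq.ne_zero) A B C hF
  have hy' : (y : K) ≠ 0 := RingOfIntegers.coe_ne_zero_iff.2 hy
  have hm' : (m : K) ≠ 0 := RingOfIntegers.coe_ne_zero_iff.2 hm
  have key : ∀ (x : K) (X x' : 𝓞 K), (X : K) = ((N : 𝓞 K) : K) * x → y * x' = m * X →
      (x' : K) = (m : K) * ((N : 𝓞 K) : K) / (y : K) * x := by
    intro x X x' hX hx'
    have h1 : (y : K) * (x' : K) = (m : K) * (X : K) := by exact_mod_cast congrArg (algebraMap (𝓞 K) K) hx'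
    rw [hX] at h1
    field_simp
    linear_combination h1
  refine ⟨(m : K) * ((N : 𝓞 K) : K) / (y : K), a', b', c', div_ne_zero (mul_ne_zero hm' hN0') hy',
    key a A a' hA ea, key b B b' hB eb, key c C c' hC ec, hF', ?_, ?_⟩
  · intro P hP hpP
    refine hcop P hP ?_
    rw [Nat.cast_mul]
    exact P.mul_mem_right _ hpP
  · intro P hP hpP
    refine hcop P hP ?_
    rw [Nat.cast_mul]
    exact P.mul_mem_left _ hpP

theorem dv_iff {K : Type*} [Field K] [NumberField K] {q : ℕ} {a b c l : K} (hl : l ≠ 0)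
    {a' b' c' : 𝓞 K} (ea : (a' : K) = l * a) (eb : (b' : K) = l * b) (ec : (c' : K) = l * c)
    (hcq : CopAt K q a' b' c') (v : HeightOneSpectrum (𝓞 K)) (hv : (q : 𝓞 K) ∈ v.asIdeal) :
    Dv v a b c ↔ a' ∈ v.asIdeal := by
  have hvl : v.valuation K l ≠ 0 := (Valuation.ne_zero_iff _).2 hl
  have hvl0 : 0 < v.valuation K l := zero_lt_iff.2 hvl
  have h1 : Dv v a b c ↔
      v.valuation K (a' : K) < max (v.valuation K (b' : K)) (v.valuation K (c' : K)) := by
    unfold Dv
    rw [ea, eb, ec, map_mul, map_mul, map_mul, ← mul_max, mul_lt_mul_iff_right₀ hvl0]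
  have hle : ∀ x : 𝓞 K, v.valuation K (x : K) ≤ 1 := fun x => v.valuation_le_one x
  have hmem : ∀ x : 𝓞 K, v.valuation K (x : K) < 1 ↔ x ∈ v.asIdeal :=
    fun x => v.valuation_lt_one_iff_mem x
  have heq : ∀ x : 𝓞 K, x ∉ v.asIdeal → v.valuation K (x : K) = 1 := fun x hx =>
    le_antisymm (hle x) (not_lt.1 fun h => hx ((hmem x).1 h))
  rw [h1]
  constructor
  · intro h2
    rw [← hmem]
    exact h2.trans_le (max_le (hle b') (hle c'))
  · intro h2
    have h3 := hcq v.asIdeal v.isPrime hv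
    have h4 := (hmem a').2 h2
    by_cases hb : b' ∈ v.asIdeal
    · have hc : c' ∉ v.asIdeal := fun hc => h3 ⟨h2, hb, hc⟩
      exact lt_max_of_lt_right (by rw [heq c' hc]; exact h4)
    · exact lt_max_of_lt_left (by rw [heq b' hb]; exact h4)

/-- `v` divides none of `a, b, c` iff the three valuations are equal -/
theorem not_dv_iff {K : Type*} [Field K] [NumberField K] {p : ℕ} [Fact p.Prime] {a b c : K}
    (ha : a ≠ 0) (hb : b ≠ 0) (hc : c ≠ 0) (h : a ^ p + b ^ p + c ^ p = 0)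
    (v : HeightOneSpectrum (𝓞 K)) :
    (¬ Dv v a b c ∧ ¬ Dv v b c a ∧ ¬ Dv v c a b) ↔
      (v.valuation K a = v.valuation K b ∧ v.valuation K b = v.valuation K c) := by
  unfold Dv
  constructor
  · rintro ⟨h1, h2, h3⟩
    rw [not_lt, max_le_iff] at h1 h2 h3
    exact ⟨le_antisymm h2.2 h1.1, le_antisymm h3.2 h2.1⟩
  · rintro ⟨h1, h2⟩
    rw [h1, h2, max_self]
    exact ⟨lt_irrefl _, lt_irrefl _, lt_irrefl _⟩

end H45KC

end

section

/-!
# Project AB, module Scale: solutions in `K` with some good places above `p`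

A prime `v` above `p` is good for `(a, b, c)` if `v(a) = v(b) = v(c)`.

* `scale_mixed`: every solution in `K` is proportional to an integral one `(a', b', c')` without common
  factor above `p`, and `v` is good iff none of `a', b', c'` is in `v`.
* `scale_at`: the form used in the assembly.
* `exists_hom_ker`: every prime above `p` is the kernel of a homomorphism to an algebraically closed field
  of characteristic `p`.
* `scale_good`: the two combined for a good place.
* `good_of_hom`: conversely.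
* `FSol_map`, `CopAt_map`, `notMem_map`: extension of the field.
-/

open NumberField IsDedekindDomain H9FC H45KC

namespace H3AB

/-- scaling, mixed case -/
theorem scale_mixed {K : Type*} [Field K] [NumberField K] {p : ℕ} [Fact p.Prime]
    {a b c : K} (ha : a ≠ 0) (hb : b ≠ 0) (hc : c ≠ 0) (h : a ^ p + b ^ p + c ^ p = 0) :
    ∃ (l : K) (a' b' c' : 𝓞 K), l ≠ 0 ∧ (a' : K) = l * a ∧ (b' : K) = l * b ∧ (c' : K) = l * c ∧
      FSol K p a' b' c' ∧ CopAt K p a' b' c' ∧
      ∀ v : HeightOneSpectrum (𝓞 K), (p : 𝓞 K) ∈ v.asIdeal →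
        ((v.valuation K a = v.valuation K b ∧ v.valuation K b = v.valuation K c) ↔
          (a' ∉ v.asIdeal ∧ b' ∉ v.asIdeal ∧ c' ∉ v.asIdeal)) := by
  obtain ⟨l, a', b', c', hl, ea, eb, ec, hF, hcp, -⟩ := exists_norm K p p a b c ha hb hc h
  refine ⟨l, a', b', c', hl, ea, eb, ec, hF, hcp, fun v hv => ?_⟩
  rw [← not_dv_iff ha hb hc h v, dv_iff hl ea eb ec hcp v hv, dv_iff hl eb ec ea hcp.rot v hv,
    dv_iff hl ec ea eb hcp.rot.rot v hv]

/-- the form used in the assembly: an integral solution proportional to the given one, without common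
factor above `p` and prime to the good place `v` -/
theorem scale_at {K : Type*} [Field K] [NumberField K] {p : ℕ} [Fact p.Prime]
    {a b c : K} (ha : a ≠ 0) (hb : b ≠ 0) (hc : c ≠ 0) (h : a ^ p + b ^ p + c ^ p = 0)
    (v : HeightOneSpectrum (𝓞 K)) (hv : (p : 𝓞 K) ∈ v.asIdeal)
    (hg : v.valuation K a = v.valuation K b ∧ v.valuation K b = v.valuation K c) :
    ∃ a' b' c' : 𝓞 K, FSol K p a' b' c' ∧ CopAt K p a' b' c' ∧
      a' ∉ v.asIdeal ∧ b' ∉ v.asIdeal ∧ c' ∉ v.asIdeal ∧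
      (a' : K) * b = (b' : K) * a ∧ (a' : K) * c = (c' : K) * a := by
  obtain ⟨l, a', b', c', -, ea, eb, ec, hF, hcp, hall⟩ := scale_mixed ha hb hc h
  obtain ⟨h1, h2, h3⟩ := (hall v hv).1 hg
  refine ⟨a', b', c', hF, hcp, h1, h2, h3, ?_, ?_⟩
  · rw [ea, eb]; ring
  · rw [ea, ec]; ring

/-- every prime above `p` is the kernel of a homomorphism to `Ω` -/
theorem exists_hom_ker {K : Type*} [Field K] [NumberField K] (p : ℕ) [Fact p.Prime]
    (Ω : Type*) [Field Ω] [IsAlgClosed Ω] [CharP Ω p] (P : Ideal (𝓞 K)) (hP : P.IsPrime)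
    (hpP : (p : 𝓞 K) ∈ P) : ∃ φ : 𝓞 K →+* Ω, RingHom.ker φ = P := by
  obtain ⟨ψ, hψ⟩ := exists_redFam K p Ω
  obtain ⟨i, hi⟩ := exists_redFam_ker hψ p P hP hpP
  exact ⟨ψ i, hi⟩

/-- a solution in `K` with a good place `v` above `p`: integral solution and homomorphism with
kernel `v` at which none of the three numbers vanishes -/
theorem scale_good {K : Type*} [Field K] [NumberField K] {p : ℕ} [Fact p.Prime]
    (Ω : Type*) [Field Ω] [IsAlgClosed Ω] [CharP Ω p]
    {a b c : K} (ha : a ≠ 0) (hb : b ≠ 0) (hc : c ≠ 0) (h : a ^ p + b ^ p + c ^ p = 0)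
    (v : HeightOneSpectrum (𝓞 K)) (hv : (p : 𝓞 K) ∈ v.asIdeal)
    (hg : v.valuation K a = v.valuation K b ∧ v.valuation K b = v.valuation K c) :
    ∃ (l : K) (a' b' c' : 𝓞 K), l ≠ 0 ∧ (a' : K) = l * a ∧ (b' : K) = l * b ∧ (c' : K) = l * c ∧
      FSol K p a' b' c' ∧ CopAt K p a' b' c' ∧
      ∃ φ : 𝓞 K →+* Ω, RingHom.ker φ = v.asIdeal ∧ φ a' ≠ 0 ∧ φ b' ≠ 0 ∧ φ c' ≠ 0 := by
  obtain ⟨l, a', b', c', hl, ea, eb, ec, hF, hcp, hall⟩ := scale_mixed ha hb hc h
  obtain ⟨φ, hφ⟩ := exists_hom_ker p Ω v.asIdeal v.isPrime hv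
  obtain ⟨h1, h2, h3⟩ := (hall v hv).1 hg
  rw [← hφ, RingHom.mem_ker] at h1 h2 h3
  exact ⟨l, a', b', c', hl, ea, eb, ec, hF, hcp, φ, hφ, h1, h2, h3⟩

/-- solutions in an extension -/
theorem FSol_map {K L : Type*} [Field K] [NumberField K] [Field L] [NumberField L] (ι : K →+* L)
    {p : ℕ} {a b c : 𝓞 K} (h : FSol K p a b c) :
    FSol L p (RingOfIntegers.mapRingHom ι a) (RingOfIntegers.mapRingHom ι b)
      (RingOfIntegers.mapRingHom ι c) := by
  have hinj : Function.Injective (RingOfIntegers.mapRingHom ι) := by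
    intro x y hxy
    apply RingOfIntegers.ext
    apply ι.injective
    exact congrArg (fun z : 𝓞 L => (z : L)) hxy
  refine ⟨?_, ?_, ?_, ?_⟩
  · exact (map_ne_zero_iff _ hinj).2 h.1
  · exact (map_ne_zero_iff _ hinj).2 h.2.1
  · exact (map_ne_zero_iff _ hinj).2 h.2.2.1
  · rw [← map_pow, ← map_pow, ← map_pow, ← map_add, ← map_add, h.2.2.2, map_zero]

/-- no common factor above `p` in an extension -/
theorem CopAt_map {K L : Type*} [Field K] [NumberField K] [Field L] [NumberField L]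
    (g : 𝓞 K →+* 𝓞 L) {p : ℕ} {a b c : 𝓞 K} (h : CopAt K p a b c) :
    CopAt L p (g a) (g b) (g c) := by
  intro P hP hpP hcon
  refine h (P.comap g) (Ideal.comap_isPrime g P) ?_ hcon
  rw [Ideal.mem_comap, map_natCast]
  exact hpP

end H3AB

end

section

/-!
# Project FD (MP_ef6a16_nt), step 2: the summation operator

For a sequence `q` which is a polynomial function of degree `< d` (that is `Δ^d q = 0`) the number
`S d q t = ∑_{r<d} (Δ^r q)(0) t^r / (1-t)^(r+1)` is the value at `t` of the rational function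
`∑ q(n) t^n`.  Everything is elementary algebra over a field: functional equation, splitting into
residue classes, independence of `d`.
-/

open Finset

namespace H90FD

section alg

variable {E : Type*} [Field E]

/-- `S d q t = ∑_{r<d} (Δ^r q)(0) t^r / (1-t)^(r+1)` -/
def S (d : ℕ) (q : ℕ → E) (t : E) : E :=
  ∑ r ∈ range d, ((fwdDiff 1)^[r] q) 0 * t ^ r / (1 - t) ^ (r + 1)

/-- `q` is a polynomial function of degree `< d` -/
def Pol (d : ℕ) (q : ℕ → E) : Prop := (fwdDiff 1)^[d] q = 0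

/-- `LL m t = ∑ n^m t^n` -/
def LL (m : ℕ) (t : E) : E := S (m + 1) (fun n => (n : E) ^ m) t

theorem iter_zero (r : ℕ) : ((fwdDiff 1)^[r] (0 : ℕ → E)) = 0 := by
  induction r with
  | zero => rfl
  | succ r ih =>
    rw [Function.iterate_succ_apply', ih]
    funext n
    simp [fwdDiff]

theorem iter_add (r : ℕ) (p q : ℕ → E) :
    (fwdDiff 1)^[r] (fun n => p n + q n) = fun n => ((fwdDiff 1)^[r] p) n + ((fwdDiff 1)^[r] q) n := by
  have h := fwdDiff_iter_add (h := (1 : ℕ)) p q r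
  have e : (fun n => p n + q n) = p + q := rfl
  rw [e, h]
  rfl

theorem iter_mul (r : ℕ) (c : E) (q : ℕ → E) :
    (fwdDiff 1)^[r] (fun n => c * q n) = fun n => c * ((fwdDiff 1)^[r] q) n := by
  have h := fwdDiff_iter_const_smul (h := (1 : ℕ)) c q r
  have e : (fun n => c * q n) = c • q := rfl
  rw [e, h]
  rfl

theorem iter_sum (r : ℕ) {ι : Type*} (s : Finset ι) (q : ι → ℕ → E) :
    (fwdDiff 1)^[r] (fun n => ∑ i ∈ s, q i n) = fun n => ∑ i ∈ s, ((fwdDiff 1)^[r] (q i)) n := by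
  classical
  induction s using Finset.induction_on with
  | empty =>
    simp only [Finset.sum_empty]
    exact iter_zero (E := E) r
  | insert a s ha ih =>
    have e : (fun n => ∑ i ∈ insert a s, q i n) = fun n => q a n + ∑ i ∈ s, q i n := by
      funext n
      rw [Finset.sum_insert ha]
    rw [e, iter_add, ih]
    funext n
    rw [Finset.sum_insert ha]

theorem iter_shift (r : ℕ) (q : ℕ → E) :
    (fwdDiff 1)^[r] (fun n => q (n + 1)) = fun n => ((fwdDiff 1)^[r] q) (n + 1) := by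
  induction r with
  | zero => rfl
  | succ r ih =>
    rw [Function.iterate_succ_apply', ih, Function.iterate_succ_apply']
    rfl

theorem iter_succ_zero (r : ℕ) (q : ℕ → E) :
    ((fwdDiff 1)^[r] q) 1 = ((fwdDiff 1)^[r] q) 0 + ((fwdDiff 1)^[r + 1] q) 0 := by
  rw [Function.iterate_succ_apply']
  simp [fwdDiff]

theorem iter_cast (f : E → E) (r : ℕ) :
    (fwdDiff 1)^[r] (fun n : ℕ => f n) = fun n : ℕ => ((fwdDiff 1)^[r] f) (n : E) := by
  induction r with
  | zero => rfl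
  | succ r ih =>
    rw [Function.iterate_succ_apply', ih, Function.iterate_succ_apply']
    funext n
    simp [fwdDiff]

theorem Pol.mono {d d' : ℕ} {q : ℕ → E} (h : Pol d q) (hd : d ≤ d') : Pol d' q := by
  obtain ⟨k, rfl⟩ := Nat.exists_eq_add_of_le hd
  unfold Pol at *
  rw [add_comm, Function.iterate_add_apply, h, iter_zero]

theorem Pol.sum {d : ℕ} {ι : Type*} {s : Finset ι} {q : ι → ℕ → E} (h : ∀ i ∈ s, Pol d (q i)) :
    Pol d (fun n => ∑ i ∈ s, q i n) := by
  unfold Pol at *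
  rw [iter_sum]
  funext n
  exact Finset.sum_eq_zero fun i hi => by rw [h i hi]; rfl

theorem Pol.diff {d : ℕ} {q : ℕ → E} (h : Pol (d + 1) q) : Pol d (fun n => q (n + 1) - q n) := by
  unfold Pol at *
  rw [Function.iterate_succ_apply] at h
  exact h

theorem Pol.of_diff {d : ℕ} {q : ℕ → E} (h : Pol d (fun n => q (n + 1) - q n)) :
    Pol (d + 1) q := by
  unfold Pol at *
  rw [Function.iterate_succ_apply]
  exact h

theorem Pol.comp {d : ℕ} : ∀ {q : ℕ → E}, Pol d q → ∀ m b : ℕ, Pol d (fun n => q (m * n + b)) := by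
  induction d with
  | zero =>
    intro q h m b
    have h' : q = 0 := h
    subst h'
    exact rfl
  | succ d ih =>
    intro q h m b
    apply Pol.of_diff
    have e : (fun n => q (m * (n + 1) + b) - q (m * n + b)) =
        fun n => ∑ i ∈ range m, (fun k => q (k + 1) - q k) (m * n + (b + i)) := by
      funext n
      have := Finset.sum_range_sub (fun i => q (m * n + (b + i))) m
      simp only [add_zero] at this
      rw [show m * (n + 1) + b = m * n + (b + m) by ring, ← this]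
      exact Finset.sum_congr rfl fun i _ => by rw [show m * n + (b + (i + 1)) = m * n + (b + i) + 1 by ring]
    rw [e]
    exact Pol.sum fun i _ => ih h.diff m (b + i)

/-- polynomials give polynomial functions -/
theorem pol_eval (P : Polynomial E) {d : ℕ} (hd : P.natDegree < d) :
    Pol d (fun n : ℕ => P.eval (n : E)) := by
  have h := P.fwdDiff_iter_eq_zero_of_degree_lt hd
  unfold Pol
  rw [iter_cast (fun x => P.eval x)]
  funext n
  have : ((fwdDiff 1)^[d] fun x => P.eval x) = 0 := h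
  rw [this]
  rfl

theorem pol_pow (m : ℕ) {d : ℕ} (hd : m < d) : Pol d (fun n : ℕ => (n : E) ^ m) := by
  have := pol_eval (E := E) (Polynomial.X ^ m) (d := d) (by
    rw [Polynomial.natDegree_X_pow]; exact hd)
  simpa using this

/-! ### the operator -/

theorem S_add (d : ℕ) (p q : ℕ → E) (t : E) :
    S d (fun n => p n + q n) t = S d p t + S d q t := by
  unfold S
  rw [← Finset.sum_add_distrib]
  refine Finset.sum_congr rfl fun r _ => ?_
  rw [iter_add]
  ring

theorem S_mul (d : ℕ) (c : E) (q : ℕ → E) (t : E) :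
    S d (fun n => c * q n) t = c * S d q t := by
  unfold S
  rw [Finset.mul_sum]
  refine Finset.sum_congr rfl fun r _ => ?_
  rw [iter_mul]
  ring

theorem S_sum (d : ℕ) {ι : Type*} (s : Finset ι) (q : ι → ℕ → E) (t : E) :
    S d (fun n => ∑ i ∈ s, q i n) t = ∑ i ∈ s, S d (q i) t := by
  unfold S
  rw [Finset.sum_comm]
  refine Finset.sum_congr rfl fun r _ => ?_
  rw [iter_sum, Finset.sum_mul, Finset.sum_div]

theorem S_mono {d d' : ℕ} {q : ℕ → E} (h : Pol d q) (hd : d ≤ d') (t : E) :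
    S d' q t = S d q t := by
  unfold S
  symm
  apply Finset.sum_subset (Finset.range_mono hd)
  intro r _ hr
  have h' : Pol r q := h.mono (by simpa using hr)
  have h'' : (fwdDiff 1)^[r] q = 0 := h'
  rw [h'']
  simp

/-- the functional equation -/
theorem S_step {d : ℕ} {q : ℕ → E} (h : Pol d q) {t : E} (ht : t ≠ 1) :
    S d q t = q 0 + t * S d (fun n => q (n + 1)) t := by
  have h1 : (1 : E) - t ≠ 0 := sub_ne_zero.2 (Ne.symm ht)
  cases d with
  | zero =>
    have h' : q = 0 := h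
    subst h'
    simp [S]
  | succ d =>
    have hd0 : ((fwdDiff 1)^[d + 1] q) 0 = 0 := by
      have h' : (fwdDiff 1)^[d + 1] q = 0 := h
      rw [h']
      rfl
    -- `t * S (E q) = ∑ (δ_r + δ_{r+1}) t^(r+1)/(1-t)^(r+1)`
    have e1 : t * S (d + 1) (fun n => q (n + 1)) t =
        ∑ r ∈ range (d + 1), (((fwdDiff 1)^[r] q) 0 * (t ^ (r + 1) / (1 - t) ^ (r + 1)) +
          ((fwdDiff 1)^[r + 1] q) 0 * (t ^ (r + 1) / (1 - t) ^ (r + 1))) := by
      unfold S
      rw [Finset.mul_sum]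
      refine Finset.sum_congr rfl fun r _ => ?_
      rw [iter_shift]
      show t * (((fwdDiff 1)^[r] q) (0 + 1) * t ^ r / (1 - t) ^ (r + 1)) = _
      rw [zero_add, iter_succ_zero]
      ring
    have e2 : ∑ r ∈ range (d + 1), ((fwdDiff 1)^[r + 1] q) 0 * (t ^ (r + 1) / (1 - t) ^ (r + 1)) =
        ∑ r ∈ range (d + 1), ((fwdDiff 1)^[r] q) 0 * (t ^ r / (1 - t) ^ r) - q 0 := by
      have := Finset.sum_range_succ' (fun r => ((fwdDiff 1)^[r] q) 0 * (t ^ r / (1 - t) ^ r)) (d + 1)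
      have h2 := Finset.sum_range_succ (fun r => ((fwdDiff 1)^[r] q) 0 * (t ^ r / (1 - t) ^ r)) (d + 1)
      rw [h2, hd0] at this
      simp only [Function.iterate_zero, id_eq, pow_zero, div_one, mul_one, zero_mul,
        add_zero] at this
      rw [this]
      ring
    rw [e1, Finset.sum_add_distrib, e2]
    unfold S
    rw [show q 0 + (∑ r ∈ range (d + 1), ((fwdDiff 1)^[r] q) 0 * (t ^ (r + 1) / (1 - t) ^ (r + 1)) +
        (∑ r ∈ range (d + 1), ((fwdDiff 1)^[r] q) 0 * (t ^ r / (1 - t) ^ r) - q 0)) =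
        ∑ r ∈ range (d + 1), ((fwdDiff 1)^[r] q) 0 * (t ^ (r + 1) / (1 - t) ^ (r + 1)) +
        ∑ r ∈ range (d + 1), ((fwdDiff 1)^[r] q) 0 * (t ^ r / (1 - t) ^ r) by ring,
      ← Finset.sum_add_distrib]
    refine Finset.sum_congr rfl fun r _ => ?_
    field_simp
    ring

/-- splitting into residue classes mod `m` -/
theorem S_split {d : ℕ} {q : ℕ → E} (h : Pol d q) {m : ℕ} {t : E} (ht : t ^ m ≠ 1) :
    S d q t = ∑ b ∈ range m, t ^ b * S d (fun n => q (m * n + b)) (t ^ m) := by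
  have ht1 : t ≠ 1 := fun h => ht (by rw [h, one_pow])
  -- the functional equation of the right hand side
  have hA : ∀ q : ℕ → E, Pol d q →
      ∑ b ∈ range m, t ^ b * S d (fun n => q (m * n + b)) (t ^ m) = q 0 +
        t * ∑ b ∈ range m, t ^ b * S d (fun n => q (m * n + b + 1)) (t ^ m) := by
    intro q hq
    have e0 := Finset.sum_range_succ'
      (fun b => t ^ b * S d (fun n => q (m * n + b)) (t ^ m)) m
    have e1 := Finset.sum_range_succ
      (fun b => t ^ b * S d (fun n => q (m * n + b)) (t ^ m)) m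
    have e2 : S d (fun n => q (m * n + 0)) (t ^ m) =
        q 0 + t ^ m * S d (fun n => q (m * n + m)) (t ^ m) := by
      have := S_step (hq.comp m 0) ht
      simp only [mul_zero, add_zero, mul_add, mul_one] at this
      simpa only [add_zero] using this
    have e3 : t * ∑ b ∈ range m, t ^ b * S d (fun n => q (m * n + b + 1)) (t ^ m) =
        ∑ b ∈ range m, t ^ (b + 1) * S d (fun n => q (m * n + (b + 1))) (t ^ m) := by
      rw [Finset.mul_sum]
      refine Finset.sum_congr rfl fun b _ => ?_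
      rw [pow_succ]
      simp only [add_assoc]
      ring
    rw [e3]
    rw [e1] at e0
    simp only [pow_zero, one_mul] at e0
    rw [e2] at e0
    linear_combination e0
  -- induction on the degree
  have key : ∀ e : ℕ, e ≤ d → ∀ q : ℕ → E, Pol e q →
      S d q t = ∑ b ∈ range m, t ^ b * S d (fun n => q (m * n + b)) (t ^ m) := by
    intro e
    induction e with
    | zero =>
      intro _ q hq
      have h' : q = 0 := hq
      subst h'
      have : ∀ (x : E), S d (fun _ => (0 : ℕ → E) 0) x = 0 := by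
        intro x
        have := S_mul d (0 : E) (fun _ => (0 : E)) x
        simpa using this
      have h3 : ∀ x : E, S d (0 : ℕ → E) x = 0 := this
      rw [h3]
      symm
      apply Finset.sum_eq_zero
      intro b _
      have h4 := this (t ^ m)
      simp only [Pi.zero_apply] at h4 ⊢
      rw [h4, mul_zero]
    | succ e ih =>
      intro he q hq
      have hq' : Pol d q := hq.mono he
      have i1 := ih (by omega) _ hq.diff
      have s1 := S_step hq' ht1
      have s2 := hA q hq'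
      have s3 : S d (fun n => q (n + 1)) t = S d q t + S d (fun n => q (n + 1) - q n) t := by
        rw [← S_add]
        congr 1
        funext n
        ring
      have s4 : ∀ b, S d (fun n => q (m * n + b + 1)) (t ^ m) =
          S d (fun n => q (m * n + b)) (t ^ m) +
          S d (fun n => q (m * n + b + 1) - q (m * n + b)) (t ^ m) := by
        intro b
        rw [← S_add]
        congr 1
        funext n
        ring
      have s5 : ∑ b ∈ range m, t ^ b * S d (fun n => q (m * n + b + 1)) (t ^ m) =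
          ∑ b ∈ range m, t ^ b * S d (fun n => q (m * n + b)) (t ^ m) +
          ∑ b ∈ range m, t ^ b * S d (fun n => q (m * n + b + 1) - q (m * n + b)) (t ^ m) := by
        rw [← Finset.sum_add_distrib]
        exact Finset.sum_congr rfl fun b _ => by rw [s4 b, mul_add]
      rw [s5] at s2
      rw [s3, i1] at s1
      have h1 : (1 : E) - t ≠ 0 := sub_ne_zero.2 (Ne.symm ht1)
      apply mul_left_cancel₀ h1
      linear_combination s1 - s2
  exact key d le_rfl q h

theorem LL_eq (m : ℕ) {d : ℕ} (hd : m < d) (t : E) : S d (fun n => (n : E) ^ m) t = LL m t :=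
  S_mono (pol_pow m (Nat.lt_succ_self m)) hd t

end alg

end H90FD

end

section

/-!
# Project FD, step 2: `l`-adic size of the differences

`HH l m T = ∑_v (LL m (T v) - l^m LL m (T v ^ l))` is the value of `∑_{l ∤ n} n^m T^n`.  On a residue
class `m = c + (l-1) s` its `r`-th difference in `s` is divisible by `l^r`.
-/

open Finset

namespace H90FD

section alg

variable {E : Type*} [Field E]

/-- `∑_v (LL m (T v) - l^m LL m (T v ^ l))` -/
def HH {ι : Type*} [Fintype ι] (l m : ℕ) (T : ι → E) : E :=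
  ∑ v, (LL m (T v) - (l : E) ^ m * LL m (T v ^ l))

theorem hh_one {l : ℕ} (hl : 1 ≤ l) {m d : ℕ} (hd : m < d) {t : E} (ht : t ^ l ≠ 1) :
    LL m t - (l : E) ^ m * LL m (t ^ l) =
      ∑ b ∈ Ico 1 l, t ^ b * S d (fun n => ((l * n + b : ℕ) : E) ^ m) (t ^ l) := by
  have h := S_split (pol_pow (E := E) m hd) ht
  rw [LL_eq m hd] at h
  have e0 : S d (fun n => ((l * n + 0 : ℕ) : E) ^ m) (t ^ l) = (l : E) ^ m * LL m (t ^ l) := by
    rw [← LL_eq m hd, ← S_mul]
    congr 1
    funext n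
    push_cast
    ring
  rw [h, Finset.range_eq_Ico, Finset.sum_eq_sum_Ico_succ_bot (by omega)]
  rw [pow_zero, one_mul, e0]
  ring

end alg

section norm

variable {E : Type*} [NormedField E] [IsUltrametricDist E]

theorem norm_fwd (C : ℝ) (r : ℕ) : ∀ (q : ℕ → E), (∀ n, ‖q n‖ ≤ C) → ∀ n,
    ‖((fwdDiff 1)^[r] q) n‖ ≤ C := by
  induction r with
  | zero => intro q h n; simpa using h n
  | succ r ih =>
    intro q h n
    rw [Function.iterate_succ_apply]
    apply ih
    intro k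
    show ‖q (k + 1) - q k‖ ≤ C
    rw [sub_eq_add_neg]
    refine (IsUltrametricDist.norm_add_le_max _ _).trans (max_le (h _) ?_)
    rw [norm_neg]
    exact h _

theorem norm_S {C : ℝ} (hC : 0 ≤ C) (d : ℕ) {q : ℕ → E} (h : ∀ n, ‖q n‖ ≤ C) {t : E}
    (ht : ‖t‖ ≤ 1) (ht1 : ‖1 - t‖ = 1) : ‖S d q t‖ ≤ C := by
  unfold S
  apply IsUltrametricDist.norm_sum_le_of_forall_le_of_nonneg hC
  intro r _
  rw [norm_div, norm_mul, norm_pow, norm_pow, ht1, one_pow, div_one]
  calc ‖(fwdDiff 1)^[r] q 0‖ * ‖t‖ ^ r ≤ C * 1 := by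
        apply mul_le_mul (norm_fwd C r q h 0) (pow_le_one₀ (norm_nonneg _) ht) (by positivity) hC
    _ = C := mul_one C

theorem norm_natCast_dvd {l : ℕ} {n : ℤ} (h : (l : ℤ) ∣ n) : ‖(n : E)‖ ≤ ‖(l : E)‖ := by
  obtain ⟨k, rfl⟩ := h
  push_cast
  rw [norm_mul]
  calc ‖(l : E)‖ * ‖(k : E)‖ ≤ ‖(l : E)‖ * 1 := by
        apply mul_le_mul_of_nonneg_left (IsUltrametricDist.norm_intCast_le_one E k) (norm_nonneg _)
    _ = _ := mul_one _

/-- the differences of `s ↦ HH l (c + (l-1) s) T` -/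
theorem norm_diff {ι : Type*} [Fintype ι] {l : ℕ} [hl : Fact l.Prime] (c : ℕ) (T : ι → E)
    (h0 : ∀ v, ‖T v‖ ≤ 1) (h1 : ∀ v, ‖1 - T v ^ l‖ = 1) (r : ℕ) :
    ‖(fwdDiff 1)^[r] (fun s : ℕ => HH l (c + (l - 1) * s) T) 0‖ ≤ ‖(l : E)‖ ^ r := by
  have hlp : 1 ≤ l := hl.out.one_lt.le
  set d := c + (l - 1) * r + 1 with hd
  have hne : ∀ v, T v ^ l ≠ 1 := by
    intro v h
    have := h1 v
    rw [h, sub_self, norm_zero] at this
    exact zero_ne_one this
  -- the difference as a sum of values of `S`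
  have key : (fwdDiff 1)^[r] (fun s : ℕ => HH l (c + (l - 1) * s) T) 0 =
      ∑ v, ∑ b ∈ Ico 1 l, T v ^ b * S d (fun n => ((l * n + b : ℕ) : E) ^ c *
        (((l * n + b : ℕ) : E) ^ (l - 1) - 1) ^ r) (T v ^ l) := by
    rw [fwdDiff_iter_eq_sum_shift]
    have e1 : ∀ k ∈ range (r + 1), HH l (c + (l - 1) * k) T =
        ∑ v, ∑ b ∈ Ico 1 l, T v ^ b * S d (fun n => ((l * n + b : ℕ) : E) ^ (c + (l - 1) * k))
          (T v ^ l) := by
      intro k hk
      unfold HH
      refine Finset.sum_congr rfl fun v _ => hh_one hlp ?_ (hne v)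
      have : (l - 1) * k ≤ (l - 1) * r :=
        Nat.mul_le_mul_left _ (Nat.lt_succ_iff.1 (Finset.mem_range.1 hk))
      omega
    have e2 : ∑ k ∈ range (r + 1), ((-1 : ℤ) ^ (r - k) * (r.choose k : ℤ)) •
        (fun s : ℕ => HH l (c + (l - 1) * s) T) (0 + k • 1) =
        ∑ k ∈ range (r + 1), ∑ v, ∑ b ∈ Ico 1 l,
          T v ^ b * (((-1 : E) ^ (r - k) * (r.choose k : E)) *
            S d (fun n => ((l * n + b : ℕ) : E) ^ (c + (l - 1) * k)) (T v ^ l)) := by
      refine Finset.sum_congr rfl fun k hk => ?_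
      simp only [smul_eq_mul, mul_one, zero_add]
      rw [e1 k hk, zsmul_eq_mul, Finset.mul_sum]
      refine Finset.sum_congr rfl fun v _ => ?_
      rw [Finset.mul_sum]
      refine Finset.sum_congr rfl fun b _ => ?_
      push_cast
      ring
    rw [e2, Finset.sum_comm]
    refine Finset.sum_congr rfl fun v _ => ?_
    rw [Finset.sum_comm]
    refine Finset.sum_congr rfl fun b _ => ?_
    rw [← Finset.mul_sum]
    congr 1
    have e3 : ∀ k ∈ range (r + 1), ((-1 : E) ^ (r - k) * (r.choose k : E)) *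
        S d (fun n => ((l * n + b : ℕ) : E) ^ (c + (l - 1) * k)) (T v ^ l) =
        S d (fun n => ((-1 : E) ^ (r - k) * (r.choose k : E)) *
          ((l * n + b : ℕ) : E) ^ (c + (l - 1) * k)) (T v ^ l) := by
      intro k _
      rw [S_mul]
    rw [Finset.sum_congr rfl e3, ← S_sum]
    congr 1
    funext n
    rw [sub_eq_add_neg, (Commute.all _ _).add_pow, Finset.mul_sum]
    refine Finset.sum_congr rfl fun k _ => ?_
    rw [pow_add, pow_mul]
    ring
  rw [key]
  have hn : 0 ≤ ‖(l : E)‖ ^ r := by positivity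
  apply IsUltrametricDist.norm_sum_le_of_forall_le_of_nonneg hn
  intro v _
  apply IsUltrametricDist.norm_sum_le_of_forall_le_of_nonneg hn
  intro b hb
  rw [norm_mul, norm_pow]
  have hb' := Finset.mem_Ico.1 hb
  have h2 : ‖S d (fun n => ((l * n + b : ℕ) : E) ^ c *
        (((l * n + b : ℕ) : E) ^ (l - 1) - 1) ^ r) (T v ^ l)‖ ≤ ‖(l : E)‖ ^ r := by
    apply norm_S hn
    · intro n
      rw [norm_mul, norm_pow, norm_pow]
      have i1 : ‖((l * n + b : ℕ) : E)‖ ^ c ≤ 1 :=
        pow_le_one₀ (norm_nonneg _) (IsUltrametricDist.norm_natCast_le_one E _)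
      have i2 : ‖((l * n + b : ℕ) : E) ^ (l - 1) - 1‖ ≤ ‖(l : E)‖ := by
        have hdvd : (l : ℤ) ∣ ((l * n + b : ℕ) : ℤ) ^ (l - 1) - 1 := by
          have hc : IsCoprime ((l * n + b : ℕ) : ℤ) (l : ℤ) := by
            rw [Nat.isCoprime_iff_coprime]
            have : Nat.Coprime b l := by
              apply Nat.Coprime.symm
              rw [Nat.Prime.coprime_iff_not_dvd hl.out]
              intro hdiv
              exact absurd (Nat.le_of_dvd (by omega) hdiv) (by omega)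
            rw [add_comm]
            exact (Nat.coprime_add_mul_left_left b l n).2 this
          have := Int.ModEq.pow_card_sub_one_eq_one hl.out hc
          exact (Int.ModEq.symm this).dvd
        have := norm_natCast_dvd (E := E) hdvd
        push_cast at this
        push_cast
        exact this
      calc ‖((l * n + b : ℕ) : E)‖ ^ c * ‖((l * n + b : ℕ) : E) ^ (l - 1) - 1‖ ^ r
          ≤ 1 * ‖(l : E)‖ ^ r := by
            apply mul_le_mul i1 (pow_le_pow_left₀ (norm_nonneg _) i2 r) (by positivity) (by norm_num)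
        _ = _ := one_mul _
    · rw [norm_pow]
      exact pow_le_one₀ (norm_nonneg _) (h0 v)
    · exact h1 v
  calc ‖T v‖ ^ b * _ ≤ 1 * ‖(l : E)‖ ^ r := by
        apply mul_le_mul (pow_le_one₀ (norm_nonneg _) (h0 v)) h2 (norm_nonneg _) (by norm_num)
    _ = _ := one_mul _

end norm

end H90FD

end

section

/-!
# Project FD, step 2: `LL` through the Eulerian polynomials
-/

open Finset Polynomial

namespace H90FD

variable {E : Type*} [Field E]

/-- Leibniz rule for the multiplication with `n` -/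
theorem iter_nmul (q : ℕ → E) (r : ℕ) :
    ((fwdDiff 1)^[r + 1] (fun n : ℕ => (n : E) * q n)) =
      fun n : ℕ => (n : E) * ((fwdDiff 1)^[r + 1] q) n + (r + 1) * ((fwdDiff 1)^[r] q) (n + 1) := by
  induction r with
  | zero =>
    funext n
    simp [fwdDiff]
    ring
  | succ r ih =>
    rw [Function.iterate_succ_apply', ih]
    funext n
    rw [Function.iterate_succ_apply' _ (r + 1) q]
    show ((n + 1 : ℕ) : E) * ((fwdDiff 1)^[r + 1] q) (n + 1) +
        (r + 1) * ((fwdDiff 1)^[r] q) (n + 1 + 1) -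
        ((n : E) * ((fwdDiff 1)^[r + 1] q) n + (r + 1) * ((fwdDiff 1)^[r] q) (n + 1)) =
      (n : E) * (((fwdDiff 1)^[r + 1] q) (n + 1) - ((fwdDiff 1)^[r + 1] q) n) +
        (((r + 1 : ℕ) : E) + 1) * ((fwdDiff 1)^[r + 1] q) (n + 1)
    have h : ((fwdDiff 1)^[r + 1] q) (n + 1) =
        ((fwdDiff 1)^[r] q) (n + 1 + 1) - ((fwdDiff 1)^[r] q) (n + 1) := by
      rw [Function.iterate_succ_apply' _ r q]
      rfl
    push_cast
    linear_combination (-(r : E) - 1) * h

theorem iter_nmul_zero (q : ℕ → E) (r : ℕ) :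
    ((fwdDiff 1)^[r + 1] (fun n : ℕ => (n : E) * q n)) 0 =
      (r + 1) * (((fwdDiff 1)^[r] q) 0 + ((fwdDiff 1)^[r + 1] q) 0) := by
  rw [iter_nmul]
  simp only [Nat.cast_zero, zero_mul, zero_add]
  rw [iter_succ_zero]

/-- the numbers `Δ^r (n^m) (0)` -/
def st (E : Type*) [Field E] (m r : ℕ) : E := ((fwdDiff 1)^[r] (fun n : ℕ => (n : E) ^ m)) 0

theorem st_succ_zero (m : ℕ) : st E (m + 1) 0 = 0 := by
  simp [st]

theorem st_succ (m r : ℕ) : st E (m + 1) (r + 1) = (r + 1) * (st E m r + st E m (r + 1)) := by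
  unfold st
  rw [← iter_nmul_zero]
  have e : (fun n : ℕ => (n : E) ^ (m + 1)) = fun n : ℕ => (n : E) * (n : E) ^ m := by
    funext n
    ring
  rw [e]

theorem st_top (m : ℕ) : st E m (m + 1) = 0 := by
  unfold st
  have h : (fwdDiff 1)^[m + 1] (fun n : ℕ => (n : E) ^ m) = 0 := pol_pow m (Nat.lt_succ_self m)
  rw [h]
  rfl

theorem PE_map (PE : ℕ → ℤ[X]) (h0 : PE 0 = 1)
    (hs : ∀ m, PE (m + 1) = X * ((1 - X) * derivative (PE m) + ((m : ℤ[X]) + 1) * PE m)) (m : ℕ) :
    (PE m).map (Int.castRingHom E) =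
      ∑ r ∈ range (m + 1), C (st E m r) * X ^ r * (1 - X) ^ (m - r) := by
  induction m with
  | zero => simp [h0, st]
  | succ m ih =>
    rw [hs, Polynomial.map_mul, Polynomial.map_add, Polynomial.map_mul, Polynomial.map_mul,
      ← Polynomial.derivative_map, ih]
    simp only [Polynomial.map_X, Polynomial.map_sub, Polynomial.map_one, Polynomial.map_add,
      Polynomial.map_natCast]
    rw [derivative_sum, Finset.mul_sum, Finset.mul_sum, ← Finset.sum_add_distrib, Finset.mul_sum]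
    have e1 : ∀ r ∈ range (m + 1),
        X * ((1 - X) * derivative (C (st E m r) * X ^ r * (1 - X) ^ (m - r)) +
          ((m : E[X]) + 1) * (C (st E m r) * X ^ r * (1 - X) ^ (m - r))) =
        C (st E m r) * ((r : E[X]) * X ^ r * (1 - X) ^ (m + 1 - r)) +
        C (st E m r) * (((r : E[X]) + 1) * X ^ (r + 1) * (1 - X) ^ (m - r)) := by
      intro r hr
      have hr' : r ≤ m := Nat.lt_succ_iff.1 (Finset.mem_range.1 hr)
      obtain ⟨k, rfl⟩ := Nat.exists_eq_add_of_le hr'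
      rw [show r + k - r = k by omega, show r + k + 1 - r = k + 1 by omega]
      rw [derivative_mul, derivative_mul, derivative_C, derivative_X_pow, derivative_pow]
      simp only [derivative_sub, derivative_one, derivative_X]
      rcases r with _ | r
      · rcases k with _ | k
        · simp
        · simp
          ring
      · rcases k with _ | k
        · simp
          ring
        · simp
          ring
    rw [Finset.sum_congr rfl e1, Finset.sum_add_distrib]
    rw [Finset.sum_range_succ' (fun r => C (st E (m + 1) r) * X ^ r * (1 - X) ^ (m + 1 - r))]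
    rw [st_succ_zero]
    have e2 : ∀ r ∈ range (m + 1), C (st E (m + 1) (r + 1)) * X ^ (r + 1) *
        (1 - X) ^ (m + 1 - (r + 1)) =
        C (st E m r) * (((r : E[X]) + 1) * X ^ (r + 1) * (1 - X) ^ (m - r)) +
        C (st E m (r + 1)) * (((r + 1 : ℕ) : E[X]) * X ^ (r + 1) * (1 - X) ^ (m + 1 - (r + 1))) := by
      intro r _
      rw [st_succ, show m + 1 - (r + 1) = m - r by omega]
      simp only [C_mul, C_add, C_1, Nat.cast_add, Nat.cast_one]
      rw [show (C (r : E) : E[X]) = (r : E[X]) from rfl]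
      ring
    rw [Finset.sum_congr rfl e2, Finset.sum_add_distrib]
    have e3 := Finset.sum_range_succ'
      (fun r => C (st E m r) * ((r : E[X]) * X ^ r * (1 - X) ^ (m + 1 - r))) (m + 1)
    have e4 := Finset.sum_range_succ
      (fun r => C (st E m r) * ((r : E[X]) * X ^ r * (1 - X) ^ (m + 1 - r))) (m + 1)
    rw [e4, st_top] at e3
    simp only [C_0, zero_mul, add_zero, Nat.cast_zero, mul_zero] at e3 ⊢
    rw [e3]
    ring

/-- **The bridge** to the Eulerian polynomials. -/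
theorem LL_eq_PE (PE : ℕ → ℤ[X]) (h0 : PE 0 = 1)
    (hs : ∀ m, PE (m + 1) = X * ((1 - X) * derivative (PE m) + ((m : ℤ[X]) + 1) * PE m))
    (m : ℕ) (t : E) : LL m t = aeval t (PE m) / (1 - t) ^ (m + 1) := by
  have h := PE_map (E := E) PE h0 hs m
  have h1 : aeval t (PE m) = ∑ r ∈ range (m + 1), st E m r * t ^ r * (1 - t) ^ (m - r) := by
    have := congrArg (Polynomial.eval t) h
    rw [Polynomial.eval_map, Polynomial.eval_finsetSum] at this
    simp only [eval_mul, eval_C, eval_pow, eval_X, eval_sub, eval_one] at this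
    rw [← this, Polynomial.aeval_def]
    rfl
  rw [h1]
  unfold LL S
  rw [Finset.sum_div]
  refine Finset.sum_congr rfl fun r hr => ?_
  have hr' : r ≤ m := Nat.lt_succ_iff.1 (Finset.mem_range.1 hr)
  show st E m r * t ^ r / (1 - t) ^ (r + 1) = _
  by_cases ht : (1 : E) - t = 0
  · rw [ht]
    simp
  · rw [show m + 1 = (m - r) + (r + 1) by omega, pow_add]
    field_simp
    ring

end H90FD

end

section

/-!
# FD, Step 2: one residue class
-/

open Finset Filter Topology

namespace H59FD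

open H90FD (HH norm_diff)
open Pool.Agent.H42.FD (PE LL)

/-- the two definitions of `L_m` agree -/
lemma LL_bridge {E : Type*} [Field E] (m : ℕ) (t : E) : H90FD.LL m t = LL m t := by
  refine H90FD.LL_eq_PE PE rfl (fun m => ?_) m t
  rw [PE]
  simp

section basic

variable {l : ℕ} [hl : Fact l.Prime]

lemma norm_nat (n : ℕ) : ‖(n : PadicAlgCl l)‖ = ‖(n : ℚ_[l])‖ := by
  rw [← map_natCast (algebraMap ℚ_[l] (PadicAlgCl l)), PadicAlgCl.norm_extends]

lemma norm_l : ‖(l : PadicAlgCl l)‖ = (l : ℝ)⁻¹ := by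
  rw [norm_nat, Padic.norm_p]

lemma norm_nat_eq (n : ℕ) (hn : n ≠ 0) :
    ‖(n : PadicAlgCl l)‖ = (l : ℝ)⁻¹ ^ padicValNat l n := by
  rw [norm_nat, Padic.norm_eq_zpow_neg_valuation (by exact_mod_cast hn), Padic.valuation_natCast,
    zpow_neg, zpow_natCast, inv_pow]

lemma norm_nat_ge (n : ℕ) (hn : n ≠ 0) : 1 / (n : ℝ) ≤ ‖(n : PadicAlgCl l)‖ := by
  rw [norm_nat_eq n hn, inv_pow, one_div]
  have h1 : l ^ padicValNat l n ≤ n := Nat.le_of_dvd (Nat.pos_of_ne_zero hn) pow_padicValNat_dvd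
  have h2 : (0 : ℝ) < (l : ℝ) ^ padicValNat l n := by
    have := hl.out.pos
    positivity
  apply inv_anti₀ h2
  exact_mod_cast h1

/-- `‖r!‖ ≥ l^(-r/2)`, squared -/
lemma norm_fac (hl3 : 3 ≤ l) (r : ℕ) : (l : ℝ)⁻¹ ^ r ≤ ‖(r.factorial : PadicAlgCl l)‖ ^ 2 := by
  rw [norm_nat_eq _ (Nat.factorial_ne_zero r), ← pow_mul]
  have h1 : (l - 1) * padicValNat l r.factorial ≤ r := by
    rw [sub_one_mul_padicValNat_factorial]
    exact Nat.sub_le _ _
  have h2 : padicValNat l r.factorial * 2 ≤ r := by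
    refine le_trans ?_ h1
    rw [mul_comm]
    exact Nat.mul_le_mul_right _ (by omega)
  have h3 : (1 : ℝ) ≤ l := by exact_mod_cast hl.out.one_lt.le
  exact pow_le_pow_of_le_one (by positivity) (inv_le_one_of_one_le₀ h3) h2

lemma good_pow {t : PadicAlgCl l} (h0 : ‖t‖ ≤ 1) (h1 : ‖1 - t‖ = 1) (hodd : Odd l) :
    ‖1 - t ^ l‖ = 1 := by
  have hb : ∃ r : PadicAlgCl l, ‖r‖ ≤ 1 ∧ (1 + (-t)) ^ l = 1 - t ^ l + l * r := by
    refine ⟨1 * (-t) * ∑ k ∈ Ioo 0 l, 1 ^ (k - 1) * (-t) ^ (l - k - 1) * ((l.choose k / l : ℕ) : PadicAlgCl l), ?_, ?_⟩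
    · rw [one_mul, norm_mul, norm_neg]
      refine mul_le_one₀ h0 (norm_nonneg _) ?_
      refine IsUltrametricDist.norm_sum_le_of_forall_le_of_nonneg (by norm_num) fun k _ => ?_
      rw [one_pow, one_mul, norm_mul, norm_pow, norm_neg]
      exact mul_le_one₀ (pow_le_one₀ (norm_nonneg _) h0) (norm_nonneg _)
        (IsUltrametricDist.norm_natCast_le_one _ _)
    · rw [add_pow_prime_eq hl.out, one_pow, hodd.neg_pow]
      ring
  obtain ⟨r, hr, he⟩ := hb
  have h2 : ‖(1 + (-t)) ^ l‖ = 1 := by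
    rw [norm_pow, ← sub_eq_add_neg, h1, one_pow]
  have h3 : ‖(l : PadicAlgCl l) * r‖ < 1 := by
    rw [norm_mul, norm_l]
    have h4 : (l : ℝ)⁻¹ < 1 := inv_lt_one_of_one_lt₀ (by exact_mod_cast hl.out.one_lt)
    calc (l : ℝ)⁻¹ * ‖r‖ ≤ (l : ℝ)⁻¹ * 1 := by gcongr
      _ < 1 := by rw [mul_one]; exact h4
  have h5 : 1 - t ^ l = (1 + (-t)) ^ l + (-(l * r)) := by rw [he]; ring
  rw [h5, IsUltrametricDist.norm_add_eq_max_of_norm_ne_norm, h2, norm_neg, max_eq_left h3.le]
  rw [h2, norm_neg]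
  exact (ne_of_lt h3).symm

lemma good_iter {t : PadicAlgCl l} (h0 : ‖t‖ ≤ 1) (h1 : ‖1 - t‖ = 1) (hodd : Odd l) (i : ℕ) :
    ‖t ^ l ^ i‖ ≤ 1 ∧ ‖1 - t ^ l ^ i‖ = 1 := by
  induction i with
  | zero => simpa using ⟨h0, h1⟩
  | succ i ih =>
    rw [pow_succ, pow_mul]
    refine ⟨?_, good_pow ih.1 ih.2 hodd⟩
    rw [norm_pow]
    exact pow_le_one₀ (norm_nonneg _) ih.1

end basic

section main

variable {l : ℕ} [hl : Fact l.Prime] {ι : Type*} [Fintype ι]

/-- norm of `L_m` -/
lemma norm_LL_le (m : ℕ) {t : PadicAlgCl l} (h0 : ‖t‖ ≤ 1) (h1 : ‖1 - t‖ = 1) :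
    ‖LL m t‖ ≤ 1 := by
  rw [← LL_bridge]
  apply H90FD.norm_S (by norm_num)
  · intro n
    rw [norm_pow]
    exact pow_le_one₀ (norm_nonneg _) (IsUltrametricDist.norm_natCast_le_one _ _)
  · exact h0
  · exact h1

/-- norm of the weighted sum -/
lemma norm_sum_LL_le (m : ℕ) (T w : ι → PadicAlgCl l) (hw : ∀ v, ‖w v‖ ≤ 1)
    (h0 : ∀ v, ‖T v‖ ≤ 1) (h1 : ∀ v, ‖1 - T v‖ = 1) : ‖∑ v, w v * LL m (T v)‖ ≤ 1 := by
  apply IsUltrametricDist.norm_sum_le_of_forall_le_of_nonneg (by norm_num)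
  intro v _
  rw [norm_mul]
  exact mul_le_one₀ (hw v) (norm_nonneg _) (norm_LL_le m (h0 v) (h1 v))

/-- **one residue class**, with weights -/
theorem sparse_class_w (hl3 : 3 ≤ l) (T w : ι → PadicAlgCl l) (hw : ∀ v, ‖w v‖ ≤ 1)
    (h0 : ∀ v, ‖T v‖ ≤ 1) (h1 : ∀ v, ‖1 - T v‖ = 1) {c : ℕ} (hc : 1 ≤ c) :
    (∀ s, ∑ v, w v * LL (c + (l - 1) * s) (T v) = 0) ∨
    ∃ D : ℕ, ∃ c₀ : ℝ, 0 < c₀ ∧ ∃ J₀ : ℕ, ∀ J, J₀ ≤ J → ∀ S : Finset ℕ,
      (∀ s ∈ S, J ≤ c + (l - 1) * s ∧ ((c + (l - 1) * s : ℕ) : ℝ) ≤ Real.exp (c₀ * J) ∧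
        ∑ v, w v * LL (c + (l - 1) * s) (T v) = 0) → S.card ≤ D := by
  classical
  have hodd : Odd l := hl.out.odd_of_ne_two (by omega)
  have hl1 : (1 : ℝ) < l := by exact_mod_cast hl.out.one_lt
  have hl0 : (l : PadicAlgCl l) ≠ 0 := by exact_mod_cast hl.out.ne_zero
  set U : ℕ → ι → PadicAlgCl l := fun i v => T v ^ l ^ i with hU
  have hU0 : ∀ i v, ‖U i v‖ ≤ 1 := fun i v => (good_iter (h0 v) (h1 v) hodd i).1
  have hU1 : ∀ i v, ‖1 - U i v‖ = 1 := fun i v => (good_iter (h0 v) (h1 v) hodd i).2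
  have hUs : ∀ i v, U i v ^ l = U (i + 1) v := by
    intro i v; simp only [hU]; rw [← pow_mul, ← pow_succ]
  set u : ℕ → ℕ → PadicAlgCl l := fun i m => ∑ v, w v * LL m (U i v) with hu
  set x : ℕ → ℕ → PadicAlgCl l := fun i =>
    ∑ v, w v • (fun s : ℕ => HH l (c + (l - 1) * s) (fun _ : Unit => U i v)) with hx
  have hxv : ∀ i s, x i s = ∑ v, w v * (LL (c + (l - 1) * s) (U i v) -
      (l : PadicAlgCl l) ^ (c + (l - 1) * s) * LL (c + (l - 1) * s) (U (i + 1) v)) := by
    intro i s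
    simp only [hx, Finset.sum_apply, Pi.smul_apply, smul_eq_mul]
    refine Finset.sum_congr rfl fun v _ => ?_
    simp only [HH, LL_bridge, Finset.univ_unique, Finset.sum_singleton, hUs]
  have hstep : ∀ i s, u i (c + (l - 1) * s) = x i s + (l : PadicAlgCl l) ^ (c + (l - 1) * s) *
      u (i + 1) (c + (l - 1) * s) := by
    intro i s
    rw [hxv]
    simp only [hu, Finset.mul_sum]
    rw [← Finset.sum_add_distrib]
    exact Finset.sum_congr rfl fun v _ => by ring
  have hu0 : ∀ m, u 0 m = ∑ v, w v * LL m (T v) := by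
    intro m; simp [hu, hU]
  by_cases hall : ∀ i s, x i s = 0
  · left
    intro s
    rw [← hu0]
    have hit : ∀ i, u 0 (c + (l - 1) * s) =
        ((l : PadicAlgCl l) ^ (c + (l - 1) * s)) ^ i * u i (c + (l - 1) * s) := by
      intro i
      induction i with
      | zero => simp
      | succ i ih => rw [ih, hstep i s, hall i s, zero_add, pow_succ, mul_assoc]
    have hn : ∀ i : ℕ, ‖u 0 (c + (l - 1) * s)‖ ≤ ((l : ℝ)⁻¹) ^ i := by
      intro i
      rw [hit i, norm_mul, norm_pow, norm_pow, norm_l]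
      have e1 : ‖u i (c + (l - 1) * s)‖ ≤ 1 := norm_sum_LL_le _ _ _ hw (hU0 i) (hU1 i)
      have e2 : (((l : ℝ)⁻¹) ^ (c + (l - 1) * s)) ^ i ≤ ((l : ℝ)⁻¹) ^ i := by
        apply pow_le_pow_left₀ (by positivity)
        calc ((l : ℝ)⁻¹) ^ (c + (l - 1) * s) ≤ ((l : ℝ)⁻¹) ^ 1 :=
              pow_le_pow_of_le_one (by positivity) (inv_le_one_of_one_le₀ hl1.le) (by omega)
          _ = _ := pow_one _
      calc _ ≤ ((l : ℝ)⁻¹) ^ i * 1 := by
            apply mul_le_mul e2 e1 (norm_nonneg _) (by positivity)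
        _ = _ := mul_one _
    have ht : Tendsto (fun i : ℕ => ((l : ℝ)⁻¹) ^ i) atTop (𝓝 0) :=
      tendsto_pow_atTop_nhds_zero_of_lt_one (by positivity) (inv_lt_one_of_one_lt₀ hl1)
    have h2 : ‖u 0 (c + (l - 1) * s)‖ ≤ 0 := ge_of_tendsto' ht hn
    exact norm_le_zero_iff.mp h2
  · right
    push Not at hall
    set i := Nat.find hall with hi
    obtain ⟨s₁, hs₁⟩ := Nat.find_spec hall
    rw [← hi] at hs₁
    have hmin : ∀ j, j < i → ∀ s, x j s = 0 := by
      intro j hj s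
      by_contra h
      exact Nat.find_min hall hj ⟨s, h⟩
    have hit : ∀ s, ∀ j, j ≤ i → u 0 (c + (l - 1) * s) =
        ((l : PadicAlgCl l) ^ (c + (l - 1) * s)) ^ j * u j (c + (l - 1) * s) := by
      intro s j
      induction j with
      | zero => intro _; simp
      | succ j ih =>
        intro hj
        rw [ih (by omega), hstep j s, hmin j (by omega) s, zero_add, pow_succ, mul_assoc]
    have hzero : ∀ s, u 0 (c + (l - 1) * s) = 0 → ‖x i s‖ ≤ (l : ℝ)⁻¹ ^ (c + (l - 1) * s) := by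
      intro s hs
      rw [hit s i le_rfl] at hs
      have h2 : u i (c + (l - 1) * s) = 0 :=
        (mul_eq_zero.mp hs).resolve_left (pow_ne_zero _ (pow_ne_zero _ hl0))
      have h3 := hstep i s
      rw [h2] at h3
      have h4 : x i s = -((l : PadicAlgCl l) ^ (c + (l - 1) * s) * u (i + 1) (c + (l - 1) * s)) := by
        linear_combination -h3
      rw [h4, norm_neg, norm_mul, norm_pow, norm_l]
      have e1 : ‖u (i + 1) (c + (l - 1) * s)‖ ≤ 1 :=
        norm_sum_LL_le _ _ _ hw (hU0 (i + 1)) (hU1 (i + 1))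
      calc _ ≤ (l : ℝ)⁻¹ ^ (c + (l - 1) * s) * 1 := by gcongr
        _ = _ := mul_one _
    -- Strassmann
    set d : ℕ → PadicAlgCl l := fun r => (fwdDiff 1)^[r] (x i) 0 / (r.factorial : PadicAlgCl l) with hd
    have hnd : ∀ r, ‖d r‖ ^ 2 ≤ (l : ℝ)⁻¹ ^ r := by
      intro r
      have e1 : ‖(fwdDiff 1)^[r] (x i) 0‖ ≤ (l : ℝ)⁻¹ ^ r := by
        simp only [hx]
        rw [fwdDiff_iter_finsetSum, Finset.sum_apply]
        apply IsUltrametricDist.norm_sum_le_of_forall_le_of_nonneg (by positivity)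
        intro v _
        rw [fwdDiff_iter_const_smul, Pi.smul_apply, smul_eq_mul, norm_mul]
        have e2 := norm_diff (l := l) c (fun _ : Unit => U i v) (fun _ => hU0 i v)
          (fun _ => by rw [hUs]; exact hU1 (i + 1) v) r
        rw [norm_l] at e2
        calc _ ≤ 1 * (l : ℝ)⁻¹ ^ r := by
              apply mul_le_mul (hw v) e2 (norm_nonneg _) (by norm_num)
          _ = _ := one_mul _
      have e2 := norm_fac hl3 r
      have e3 : 0 < (l : ℝ)⁻¹ ^ r := by positivity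
      simp only [hd]
      rw [norm_div, div_pow, div_le_iff₀ (lt_of_lt_of_le e3 e2)]
      calc ‖(fwdDiff 1)^[r] (x i) 0‖ ^ 2 ≤ ((l : ℝ)⁻¹ ^ r) ^ 2 := by gcongr
        _ = (l : ℝ)⁻¹ ^ r * (l : ℝ)⁻¹ ^ r := by ring
        _ ≤ (l : ℝ)⁻¹ ^ r * ‖(r.factorial : PadicAlgCl l)‖ ^ 2 := by gcongr
    have htend : Tendsto (fun r => ‖d r‖) atTop (𝓝 0) := by
      have ht : Tendsto (fun i : ℕ => ((l : ℝ)⁻¹) ^ i) atTop (𝓝 0) :=
        tendsto_pow_atTop_nhds_zero_of_lt_one (by positivity) (inv_lt_one_of_one_lt₀ hl1)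
      have h2 : Tendsto (fun r => ‖d r‖ ^ 2) atTop (𝓝 0) :=
        squeeze_zero (fun r => by positivity) hnd ht
      have h3 := (Real.continuous_sqrt.tendsto 0).comp h2
      rw [Real.sqrt_zero] at h3
      refine h3.congr fun r => ?_
      simp only [Function.comp]
      exact Real.sqrt_sq (norm_nonneg _)
    have hnewton : ∀ s, x i s = ∑ r ∈ range (s + 1), d r * (s.descFactorial r : PadicAlgCl l) := by
      intro s
      have h2 := shift_eq_sum_fwdDiff_iter 1 (x i) s 0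
      simp only [smul_eq_mul, mul_one, zero_add] at h2
      rw [h2]
      refine Finset.sum_congr rfl fun r _ => ?_
      simp only [hd]
      have hf : (r.factorial : PadicAlgCl l) ≠ 0 := by exact_mod_cast Nat.factorial_ne_zero r
      rw [Nat.descFactorial_eq_factorial_mul_choose, Nat.cast_mul, nsmul_eq_mul]
      field_simp
    have hdne : ∃ r, d r ≠ 0 := by
      by_contra hcon
      push Not at hcon
      apply hs₁
      rw [hnewton s₁]
      exact Finset.sum_eq_zero fun r _ => by rw [hcon r, zero_mul]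
    obtain ⟨D, C, hC, hS⟩ := H87FD.strass (fun n hn => norm_nat_ge n hn) d htend hdne (x i) hnewton
    have hlog : 0 < Real.log l := Real.log_pos hl1
    refine ⟨D, Real.log l / (2 * (D + 1)), by positivity, ?_⟩
    -- choose `J₀`
    obtain ⟨J₀, hJ₀⟩ : ∃ J₀ : ℕ, ∀ J : ℕ, J₀ ≤ J → Real.exp (-(J * (Real.log l / 2))) < C := by
      have ht : Tendsto (fun J : ℕ => Real.exp (-((J : ℝ) * (Real.log l / 2)))) atTop (𝓝 0) := by
        apply Real.tendsto_exp_neg_atTop_nhds_zero.comp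
        exact Tendsto.atTop_mul_const (by positivity) tendsto_natCast_atTop_atTop
      exact eventually_atTop.mp (ht.eventually (gt_mem_nhds hC))
    refine ⟨J₀, fun J hJ S hSm => ?_⟩
    by_contra hcard
    push Not at hcard
    obtain ⟨A, hAS, hAc⟩ := Finset.exists_subset_card_eq (n := D + 1) (by omega : D + 1 ≤ S.card)
    set X := Real.exp (Real.log l / (2 * (D + 1)) * J) with hX
    have hX0 : 0 < X := Real.exp_pos _
    obtain ⟨s, hsA, hsC⟩ := hS A hAc ⌊X⌋₊ (by
      intro s hs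
      apply Nat.le_floor
      have h2 := (hSm s (hAS hs)).2.1
      refine le_trans ?_ h2
      have h3 : s ≤ c + (l - 1) * s := by
        have : 1 * s ≤ (l - 1) * s := Nat.mul_le_mul_right _ (by omega)
        omega
      exact_mod_cast h3)
    obtain ⟨hs1, hs2, hs3⟩ := hSm s (hAS hsA)
    have h4 : ‖x i s‖ ≤ (l : ℝ)⁻¹ ^ J := by
      refine (hzero s (by rw [hu0]; exact hs3)).trans ?_
      exact pow_le_pow_of_le_one (by positivity) (inv_le_one_of_one_le₀ hl1.le) hs1
    have h5 : ((⌊X⌋₊ : ℕ) : ℝ) ^ D ≤ X ^ D := by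
      apply pow_le_pow_left₀ (by positivity)
      exact Nat.floor_le hX0.le
    have h6 : C ≤ (l : ℝ)⁻¹ ^ J * X ^ D := by
      refine hsC.trans ?_
      apply mul_le_mul h4 h5 (by positivity) (by positivity)
    have h7 : (l : ℝ)⁻¹ ^ J * X ^ D ≤ Real.exp (-(J * (Real.log l / 2))) := by
      have e1 : (l : ℝ)⁻¹ ^ J = Real.exp (-(J * Real.log l)) := by
        rw [inv_pow, Real.exp_neg, mul_comm, Real.exp_mul, Real.exp_log (by linarith),
          Real.rpow_natCast]
      have e2 : X ^ D = Real.exp (Real.log l / (2 * (D + 1)) * J * D) := by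
        rw [hX, ← Real.exp_nat_mul]; ring_nf
      rw [e1, e2, ← Real.exp_add]
      apply Real.exp_le_exp.mpr
      have e3 : Real.log l / (2 * (D + 1)) * J * D ≤ Real.log l / 2 * J := by
        have hD1 : (0 : ℝ) < (D : ℝ) + 1 := by positivity
        rw [show Real.log l / (2 * ((D : ℝ) + 1)) * J * D = (Real.log l / 2 * J) * (D / (D + 1)) by
          field_simp]
        have : (D : ℝ) / (D + 1) ≤ 1 := by
          rw [div_le_one hD1]; linarith
        calc (Real.log l / 2 * J) * (D / (D + 1)) ≤ (Real.log l / 2 * J) * 1 := by gcongr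
          _ = _ := mul_one _
      nlinarith
    exact absurd (h6.trans h7) (not_le.mpr (hJ₀ J hJ))

end main

end H59FD

end
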