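import Pool.Agent.H71.TFC.M05
import Pool.Agent.H71.TFC.M08

/-! The parts of this file: H22.GW.ArithK, H22.GW.DenSize, H22.GW.LamShift, H22.GW.RedMat, H22.GW.RRs, H22.GW.RsStep, H22.GW.Integr, H65.FD.KerGen, H22.GW.KerMod, H22.GW.Ind, H83.FD.AddMain, H83.FD.AddEst, H22.GW.Zero, H22.GW.KerRat, H22.GW.Gap, H72.AB.Count, H77.AB.Mix, H77.AB.MixRel, H66.AB.StickElM, H66.AB.StickP, H59.FD.Main, H59.FD.InstW, H59.AB.Main, H9.AB.RelG, H77.AB.MixMain, H77.AB.MixL, H59.AB.Inst, H72.AB.Master. -/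

section

/-!
# GW ArithK.
PROOF. As H22OD.arith: a maximal nonzero minor `Δ ∈ 𝓞 k` of `D A`; `|σ Δ| ≤ N! T^N` for all `σ`, so
`|Norm Δ| ≤ (N! T^N)^[k:ℚ]`. For `p ∈ S`, `φ : 𝓞 k → Ω`, `I = ker φ` is maximal (it contains `p`, `I ≠ ⊥`),
`𝔽 = φ(𝓞 k) ⊆ Ω` a subfield; the reduction of `D A(f ·,·)` has its entries in `𝔽`, the dimension of its
kernel over `𝔽` is the one over `Ω`: `Δ ∈ I^κ` (`corank_ideal`), `Norm I = p^f`, `p^κ ∣ Norm Δ`
(`Ideal.absNorm`).
-/

namespace H22GW

open NumberField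

theorem exists_minorK {k : Type*} [Field k] {R N : Type*} [Fintype R] [DecidableEq R] [Fintype N]
    [DecidableEq N] (A : Matrix R N k) (h : ∀ v : N → k, A.mulVec v = 0 → v = 0) :
    ∃ f : N → R, (A.submatrix f id).det ≠ 0 := by
  classical
  have hrank : A.rank = Fintype.card N := by
    unfold Matrix.rank
    have hinj : Function.Injective A.mulVecLin := by
      rw [← LinearMap.ker_eq_bot, LinearMap.ker_eq_bot']
      intro v hv
      exact h v hv
    rw [LinearMap.finrank_range_of_inj hinj, Module.finrank_fintype_fun_eq_card]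
  rw [Matrix.rank_eq_finrank_span_row] at hrank
  have htop : Submodule.span k (Set.range A.row) = ⊤ := by
    apply Submodule.eq_top_of_finrank_eq
    rw [hrank, Module.finrank_fintype_fun_eq_card]
  obtain ⟨b, hb, hbs, hbi⟩ := exists_linearIndependent k (Set.range A.row)
  have hfin : b.Finite := (Set.finite_range A.row).subset hb
  have : Fintype b := hfin.fintype
  have hspan : (⊤ : Submodule k (N → k)) ≤ Submodule.span k (Set.range ((↑) : b → (N → k))) := by
    rw [Subtype.range_coe, hbs, htop]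
  let B := Module.Basis.mk hbi hspan
  have hcard : Fintype.card N = Fintype.card b := by
    have := Module.finrank_eq_card_basis B
    rw [Module.finrank_fintype_fun_eq_card] at this
    exact this
  let e : N ≃ b := Fintype.equivOfCardEq hcard
  choose g hg using fun x : b => hb x.2
  refine ⟨fun i => g (e i), ?_⟩
  have hli : LinearIndependent k (A.submatrix (fun i => g (e i)) id).row := by
    have h1 : (A.submatrix (fun i => g (e i)) id).row = (fun x : b => (x : N → k)) ∘ e := by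
      ext i j
      have := congrFun (hg (e i)) j
      simpa [Matrix.row] using this
    rw [h1]
    exact hbi.comp e e.injective
  rw [Matrix.linearIndependent_rows_iff_isUnit, Matrix.isUnit_iff_isUnit_det] at hli
  exact hli.ne_zero

/-- the rank is invariant under field extensions -/
theorem rank_map_field {K L ι : Type*} [Field K] [Field L] [Fintype ι] [DecidableEq ι]
    (ψ : K →+* L) (M : Matrix ι ι K) : (M.map ψ).rank = M.rank := by
  classical
  obtain ⟨L₁, L₂, D, hM⟩ := Matrix.Pivot.exists_list_transvec_mul_diagonal_mul_list_transvec M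
  set P := (L₁.map Matrix.TransvectionStruct.toMatrix).prod with hP
  set Q := (L₂.map Matrix.TransvectionStruct.toMatrix).prod with hQ
  have hP1 : P.det = 1 := Matrix.TransvectionStruct.det_toMatrix_prod L₁
  have hQ1 : Q.det = 1 := Matrix.TransvectionStruct.det_toMatrix_prod L₂
  have hPu : IsUnit P.det := by rw [hP1]; exact isUnit_one
  have hQu : IsUnit Q.det := by rw [hQ1]; exact isUnit_one
  have hPu' : IsUnit (P.map ψ).det := by
    have : (P.map ψ).det = ψ P.det := (RingHom.map_det ψ P).symm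
    rw [this, hP1, map_one]; exact isUnit_one
  have hQu' : IsUnit (Q.map ψ).det := by
    have : (Q.map ψ).det = ψ Q.det := (RingHom.map_det ψ Q).symm
    rw [this, hQ1, map_one]; exact isUnit_one
  have hM' : M.map ψ = P.map ψ * Matrix.diagonal (fun i => ψ (D i)) * Q.map ψ := by
    rw [hM, Matrix.map_mul, Matrix.map_mul, Matrix.diagonal_map (map_zero ψ)]
  rw [hM', Matrix.rank_mul_eq_left_of_isUnit_det _ _ hQu',
    Matrix.rank_mul_eq_right_of_isUnit_det _ _ hPu', Matrix.rank_diagonal]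
  conv_rhs => rw [hM, Matrix.rank_mul_eq_left_of_isUnit_det _ _ hQu,
    Matrix.rank_mul_eq_right_of_isUnit_det _ _ hPu, Matrix.rank_diagonal]
  apply Fintype.card_congr
  exact Equiv.subtypeEquivRight fun i => not_congr (map_eq_zero ψ)

theorem finrank_ker_eq {K ι : Type*} [Field K] [Fintype ι] [DecidableEq ι] (M : Matrix ι ι K) :
    M.rank + Module.finrank K (LinearMap.ker M.mulVecLin) = Fintype.card ι := by
  have := LinearMap.finrank_range_add_finrank_ker M.mulVecLin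
  rwa [Module.finrank_fintype_fun_eq_card] at this

/-- the local divisibility -/
theorem arithK_local {k : Type*} [Field k] [NumberField k] {N : Type*} [Fintype N]
    [DecidableEq N] (M : Matrix N N (𝓞 k)) (p κ : ℕ) (hp : p.Prime) {Ω : Type*} [Field Ω]
    [CharP Ω p] (φ : 𝓞 k →+* Ω)
    (hκ : κ ≤ Module.finrank Ω (LinearMap.ker (M.map φ).mulVecLin)) :
    p ^ κ ∣ Ideal.absNorm (Ideal.span {M.det}) := by
  classical
  set I : Ideal (𝓞 k) := RingHom.ker φ with hI
  have hpI : (p : 𝓞 k) ∈ I := by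
    rw [hI, RingHom.mem_ker, map_natCast, CharP.cast_eq_zero]
  have hIne : I ≠ ⊥ := by
    intro h
    rw [h, Ideal.mem_bot] at hpI
    have : p = 0 := by exact_mod_cast hpI
    exact hp.ne_zero this
  have hprime : I.IsPrime := RingHom.ker_isPrime φ
  have hmax : I.IsMaximal := hprime.isMaximal hIne
  let _ : Field (𝓞 k ⧸ I) := Ideal.Quotient.field I
  have hmem : M.det ∈ I ^ κ := by
    apply corank_ideal I (Ideal.Quotient.mk I) Ideal.Quotient.mk_surjective Ideal.mk_ker M κ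
    refine hκ.trans ?_
    have e : M.map φ = (M.map (Ideal.Quotient.mk I)).map (RingHom.kerLift φ) := by
      ext i j
      rfl
    have h1 := finrank_ker_eq (M.map φ)
    have h2 := finrank_ker_eq (M.map (Ideal.Quotient.mk I))
    have h3 := rank_map_field (RingHom.kerLift φ) (M.map (Ideal.Quotient.mk I))
    rw [← e] at h3
    omega
  have h1 : Ideal.absNorm I ^ κ ∣ Ideal.absNorm (Ideal.span {M.det}) := by
    rw [← map_pow]
    apply Ideal.absNorm_dvd_absNorm_of_le
    rw [Ideal.span_singleton_le_iff_mem]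
    exact hmem
  refine (pow_dvd_pow_of_dvd ?_ κ).trans h1
  -- `p` divides the norm of `I`
  have h2 : Ideal.absNorm I ∣ p ^ Module.finrank ℤ (𝓞 k) := by
    rw [← Ideal.absNorm_span_natCast]
    apply Ideal.absNorm_dvd_absNorm_of_le
    rw [Ideal.span_singleton_le_iff_mem]
    exact hpI
  obtain ⟨j, -, hj⟩ := (Nat.dvd_prime_pow hp).mp h2
  rw [hj]
  cases j with
  | zero =>
    exfalso
    rw [pow_zero, Ideal.absNorm_eq_one_iff] at hj
    exact hprime.ne_top hj
  | succ j => exact dvd_pow_self p (Nat.succ_ne_zero j)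

theorem arithK {k : Type*} [Field k] [NumberField k] {R N : Type*} [Fintype R] [DecidableEq R]
    [Fintype N] [DecidableEq N]
    (A : Matrix R N k) (h : ∀ v : N → k, A.mulVec v = 0 → v = 0) (D : ℕ) (hD : 0 < D) (T : ℝ)
    (hT : 1 ≤ T) (hI : ∀ r c, IsIntegral ℤ ((D : k) * A r c))
    (hs : ∀ r c (σ : k →+* ℂ), (D : ℝ) * ‖σ (A r c)‖ ≤ T) (S : Finset ℕ) (κ : ℕ)
    (hS : ∀ p ∈ S, p.Prime ∧ ¬ p ∣ D ∧ ∃ (Ω : Type) (_ : Field Ω) (_ : CharP Ω p) (φ : 𝓞 k →+* Ω)
      (B : Matrix R N Ω), (∀ r c, RedK φ (A r c) (B r c)) ∧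
      κ ≤ Module.finrank Ω (LinearMap.ker B.mulVecLin)) :
    (κ : ℝ) * ∑ p ∈ S, Real.log p ≤ (Module.finrank ℚ k : ℝ) *
      (Real.log ((Fintype.card N).factorial : ℝ) + Fintype.card N * Real.log T) := by
  classical
  obtain ⟨f, hf⟩ := exists_minorK A h
  -- the integral matrix
  let a : R → N → 𝓞 k := fun r c => ⟨(D : k) * A r c, hI r c⟩
  have ha : ∀ r c, ((a r c : 𝓞 k) : k) = (D : k) * A r c := fun r c => rfl
  set M : Matrix N N (𝓞 k) := Matrix.of fun i j => a (f i) j with hM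
  have hMmap : M.map (algebraMap (𝓞 k) k) = (D : k) • A.submatrix f id := by
    ext i j
    simp only [Matrix.map_apply, hM, Matrix.of_apply, Matrix.smul_apply, Matrix.submatrix_apply,
      id_eq, smul_eq_mul]
    exact ha _ _
  have hDk : (D : k) ≠ 0 := by exact_mod_cast hD.ne'
  have hdet : algebraMap (𝓞 k) k M.det ≠ 0 := by
    rw [RingHom.map_det]
    change (M.map (algebraMap (𝓞 k) k)).det ≠ 0
    rw [hMmap, Matrix.det_smul]
    exact mul_ne_zero (pow_ne_zero _ hDk) hf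
  have hdet0 : M.det ≠ 0 := by
    intro h0
    rw [h0, map_zero] at hdet
    exact hdet rfl
  set Nn : ℕ := Ideal.absNorm (Ideal.span {M.det}) with hNn
  have hNn' : Nn = (Algebra.norm ℤ M.det).natAbs := Ideal.absNorm_span_singleton _
  have hNn0 : Nn ≠ 0 := by
    rw [hNn', Int.natAbs_ne_zero]
    exact Algebra.norm_ne_zero_iff.mpr hdet0
  -- divisibility
  have hdvd : ∀ p ∈ S, p ^ κ ∣ Nn := by
    intro p hp
    obtain ⟨hpp, hpD, Ω, hΩ, hchar, φ, B, hB, hκ⟩ := hS p hp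
    have : Fact p.Prime := ⟨hpp⟩
    apply arithK_local M p κ hpp φ
    refine hκ.trans ?_
    have hent : ∀ r c, φ (a r c) = (D : Ω) * B r c := by
      intro r c
      obtain ⟨n, α, hn, h1, h2⟩ := hB r c
      have h3 : (n : 𝓞 k) * a r c = (D : 𝓞 k) * α := by
        apply RingOfIntegers.coe_injective
        rw [map_mul, map_mul, map_natCast, map_natCast]
        change (n : k) * ((D : k) * A r c) = (D : k) * (α : k)
        rw [← h1]
        ring
      have h4 := congrArg φ h3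
      rw [map_mul, map_mul, map_natCast, map_natCast, h2] at h4
      exact mul_left_cancel₀ hn (by rw [h4]; ring)
    apply Submodule.finrank_mono
    intro v hv
    rw [LinearMap.mem_ker, Matrix.mulVecLin_apply] at hv ⊢
    ext i
    have h5 := congrFun hv (f i)
    simp only [Matrix.mulVec, dotProduct, Pi.zero_apply, Matrix.map_apply] at h5 ⊢
    have h6 : ∀ j, φ (M i j) * v j = (D : Ω) * (B (f i) j * v j) := by
      intro j
      rw [hM, Matrix.of_apply, hent]
      ring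
    rw [Finset.sum_congr rfl fun j _ => h6 j, ← Finset.mul_sum, h5, mul_zero]
  have hprod : ∏ p ∈ S, p ^ κ ∣ Nn := by
    apply Finset.prod_dvd_of_isRelPrime
    · intro p hp q hq hpq
      rw [Function.onFun, ← Nat.coprime_iff_isRelPrime]
      exact Nat.Coprime.pow κ κ ((Nat.coprime_primes (hS p hp).1 (hS q hq).1).mpr hpq)
    · exact hdvd
  have hlow : (κ : ℝ) * ∑ p ∈ S, Real.log p ≤ Real.log Nn := by
    have h1 : ((∏ p ∈ S, p ^ κ : ℕ) : ℝ) ≤ (Nn : ℝ) := by
      exact_mod_cast Nat.le_of_dvd (Nat.pos_of_ne_zero hNn0) hprod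
    have h2 : Real.log ((∏ p ∈ S, p ^ κ : ℕ) : ℝ) = (κ : ℝ) * ∑ p ∈ S, Real.log p := by
      push_cast
      rw [Real.log_prod, Finset.mul_sum]
      · refine Finset.sum_congr rfl fun p _ => ?_
        rw [Real.log_pow]
      · intro p hp
        have : (p : ℝ) ≠ 0 := by exact_mod_cast (hS p hp).1.ne_zero
        exact pow_ne_zero _ this
    rw [← h2]
    apply Real.log_le_log _ h1
    have : 0 < ∏ p ∈ S, p ^ κ := Finset.prod_pos fun p hp => pow_pos (hS p hp).1.pos _
    exact_mod_cast this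
  refine hlow.trans ?_
  -- the upper bound
  have hT0 : (0 : ℝ) < T := by linarith
  have hbound : ∀ σ : k →+* ℂ, ‖σ (algebraMap (𝓞 k) k M.det)‖ ≤
      (Fintype.card N).factorial * T ^ Fintype.card N := by
    intro σ
    have e1 : σ (algebraMap (𝓞 k) k M.det) =
        ((M.map (algebraMap (𝓞 k) k)).map σ).det := by
      rw [RingHom.map_det, RingHom.map_det]
      rfl
    rw [e1]
    have h1 := Matrix.det_le (A := (M.map (algebraMap (𝓞 k) k)).map σ)
      (abv := NormedField.toAbsoluteValue ℂ) (x := T) (fun i j => by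
        change ‖σ ((D : k) * A (f i) j)‖ ≤ T
        rw [map_mul, map_natCast, norm_mul, Complex.norm_natCast]
        exact hs (f i) j σ)
    rw [nsmul_eq_mul] at h1
    exact h1
  have hnorm : (Nn : ℝ) ≤ ((Fintype.card N).factorial * T ^ Fintype.card N) ^
      Module.finrank ℚ k := by
    have e1 : (Nn : ℝ) = ‖((Algebra.norm ℚ (algebraMap (𝓞 k) k M.det) : ℚ) : ℂ)‖ := by
      have e2 : Algebra.norm ℚ (algebraMap (𝓞 k) k M.det) = ((Algebra.norm ℤ M.det : ℤ) : ℚ) :=
        (Algebra.coe_norm_int M.det).symm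
      rw [e2, hNn', Rat.cast_intCast, Complex.norm_intCast, Nat.cast_natAbs, Int.cast_abs]
    have e3 : ((Algebra.norm ℚ (algebraMap (𝓞 k) k M.det) : ℚ) : ℂ) =
        ∏ σ : k →ₐ[ℚ] ℂ, σ (algebraMap (𝓞 k) k M.det) := by
      have := Algebra.norm_eq_prod_embeddings ℚ ℂ (algebraMap (𝓞 k) k M.det)
      rw [← this]
      rfl
    rw [e1, e3, norm_prod]
    have hc : Fintype.card (k →ₐ[ℚ] ℂ) = Module.finrank ℚ k := AlgHom.card ℚ k ℂ
    have e4 : ((Fintype.card N).factorial * T ^ Fintype.card N : ℝ) ^ Module.finrank ℚ k =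
        ∏ _σ : k →ₐ[ℚ] ℂ, ((Fintype.card N).factorial * T ^ Fintype.card N : ℝ) := by
      rw [Finset.prod_const, Finset.card_univ, hc]
    rw [e4]
    apply Finset.prod_le_prod
    · intro σ _
      exact norm_nonneg _
    · intro σ _
      exact hbound (σ : k →+* ℂ)
  have hfac : (0 : ℝ) < ((Fintype.card N).factorial : ℝ) := by
    exact_mod_cast Nat.factorial_pos _
  calc Real.log Nn ≤ Real.log (((Fintype.card N).factorial * T ^ Fintype.card N) ^
      Module.finrank ℚ k) := by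
        apply Real.log_le_log _ hnorm
        exact_mod_cast Nat.pos_of_ne_zero hNn0
    _ = (Module.finrank ℚ k : ℝ) *
      (Real.log ((Fintype.card N).factorial : ℝ) + Fintype.card N * Real.log T) := by
        rw [Real.log_pow, Real.log_mul hfac.ne' (pow_ne_zero _ hT0.ne'), Real.log_pow]

end H22GW

end

section

/-!
# GW DenSize: the common denominator
-/

namespace H22GW

open Finset Polynomial

private theorem log_lcm_le (n : ℕ) (y : ℝ) (h : (n : ℝ) ≤ y) :
    Real.log (Nat.lcmUpto n) ≤ (Real.log 4 + 4) * y := by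
  rw [← Chebyshev.psi_eq_log_lcmUpto]
  have h1 := Chebyshev.psi_le_const_mul_self (x := (n : ℝ)) (Nat.cast_nonneg n)
  have h2 : (0 : ℝ) ≤ Real.log 4 := Real.log_nonneg (by norm_num)
  nlinarith

theorem den_size (q : ℕ) (hq : 1 ≤ q) : ∃ C₀ : ℝ, 0 < C₀ ∧ ∀ w : ℕ, 4 ≤ w → ∀ x : ℕ, 1 ≤ x →
    Real.log (Dn q w x) ≤ C₀ * w ^ 3 * (1 + Real.log w) * x := by
  have hl4 : (0 : ℝ) ≤ Real.log 4 := Real.log_nonneg (by norm_num)
  have hq1 : (1 : ℝ) ≤ q := by exact_mod_cast hq
  refine ⟨(1 + 3 * q) * (Real.log 4 + 4), by positivity, fun w hw x hx => ?_⟩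
  set c : ℝ := Real.log 4 + 4 with hc
  have hc0 : 0 < c := by rw [hc]; linarith
  have hw1 : (1 : ℝ) ≤ w := by exact_mod_cast (by omega : 1 ≤ w)
  have hx0 : (0 : ℝ) ≤ x := Nat.cast_nonneg x
  have hlw : (0 : ℝ) ≤ Real.log w := Real.log_nonneg hw1
  have hne : ∀ n : ℕ, ((Nat.lcmUpto n : ℕ) : ℝ) ≠ 0 := fun n => by
    exact_mod_cast Nat.lcmUpto_ne_zero n
  have h1 : Real.log (Dn q w x) = (w ^ 3 : ℕ) * Real.log (Nat.lcmUpto x) +
      ∑ k ∈ range (w ^ 3), Real.log (Nat.lcmUpto (q * w * (w * x) / (k + 1))) := by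
    rw [Dn, Nat.cast_mul, Real.log_mul (by
      rw [Nat.cast_pow]
      exact pow_ne_zero _ (hne x)) (by
      rw [Nat.cast_prod]
      exact prod_ne_zero_iff.2 fun k _ => hne _), Nat.cast_pow, Real.log_pow, Nat.cast_prod,
      Real.log_prod (fun k _ => hne _)]
  have h2 : ∑ k ∈ range (w ^ 3), Real.log (Nat.lcmUpto (q * w * (w * x) / (k + 1))) ≤
      ∑ k ∈ range (w ^ 3), c * (q * w ^ 2 * x) * ((k + 1 : ℕ) : ℝ)⁻¹ := by
    refine sum_le_sum fun k _ => ?_
    have h3 : (((q * w * (w * x) / (k + 1) : ℕ)) : ℝ) ≤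
        (q * (w : ℝ) ^ 2 * x) * ((k + 1 : ℕ) : ℝ)⁻¹ := by
      have h4 := Nat.cast_div_le (α := ℝ) (m := q * w * (w * x)) (n := k + 1)
      refine h4.trans (le_of_eq ?_)
      push_cast
      rw [div_eq_mul_inv]
      ring
    refine (log_lcm_le _ _ h3).trans (le_of_eq ?_)
    ring
  have h5 : ∑ k ∈ range (w ^ 3), ((k + 1 : ℕ) : ℝ)⁻¹ ≤ 3 * (1 + Real.log w) := by
    have h6 := harmonic_le_one_add_log (w ^ 3)
    have h7 : ((harmonic (w ^ 3) : ℚ) : ℝ) = ∑ k ∈ range (w ^ 3), ((k + 1 : ℕ) : ℝ)⁻¹ := by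
      rw [harmonic]
      push_cast
      rfl
    rw [← h7]
    refine h6.trans ?_
    rw [Nat.cast_pow, Real.log_pow]
    push_cast
    linarith
  have h8 : Real.log (Nat.lcmUpto x) ≤ c * x := log_lcm_le x x le_rfl
  have h9 : (0 : ℝ) ≤ c * (q * w ^ 2 * x) := by positivity
  have h10 : Real.log (Dn q w x) ≤ (w : ℝ) ^ 3 * (c * x) +
      c * (q * w ^ 2 * x) * (3 * (1 + Real.log w)) := by
    rw [h1]
    have h11 : ((w ^ 3 : ℕ) : ℝ) = (w : ℝ) ^ 3 := by push_cast; rfl
    rw [h11]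
    refine add_le_add (mul_le_mul_of_nonneg_left h8 (by positivity)) ?_
    refine h2.trans ?_
    rw [← mul_sum]
    exact mul_le_mul_of_nonneg_left h5 h9
  refine h10.trans ?_
  have h12 : (w : ℝ) ^ 2 ≤ w ^ 3 := by
    have := mul_le_mul_of_nonneg_left hw1 (by positivity : (0 : ℝ) ≤ (w : ℝ) ^ 2)
    nlinarith
  have h13 : c * (q * w ^ 2 * x) * (3 * (1 + Real.log w)) ≤
      3 * q * c * w ^ 3 * (1 + Real.log w) * x := by
    have h14 : (0 : ℝ) ≤ 3 * q * c * (1 + Real.log w) * x := by positivity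
    nlinarith [mul_le_mul_of_nonneg_left h12 h14]
  have h15 : (w : ℝ) ^ 3 * (c * x) ≤ c * w ^ 3 * (1 + Real.log w) * x := by
    have h16 : (0 : ℝ) ≤ c * w ^ 3 * x := by positivity
    nlinarith [mul_nonneg h16 hlw]
  have h17 : (1 + 3 * q) * c * w ^ 3 * (1 + Real.log w) * x =
      c * w ^ 3 * (1 + Real.log w) * x + 3 * q * c * w ^ 3 * (1 + Real.log w) * x := by ring
  rw [h17]
  exact add_le_add h15 h13

private theorem not_dvd_lcm {p n : ℕ} (hpp : p.Prime) (h : n < p) : ¬ p ∣ Nat.lcmUpto n := by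
  intro h1
  have h2 := h1.trans (Nat.lcmUpto_dvd_factorial n)
  rw [hpp.dvd_factorial] at h2
  omega

theorem den_prime (q w x p : ℕ) (hpp : p.Prime) (hp : q * w * (w * x) < p) (hx : x < p) :
    ¬ p ∣ Dn q w x := by
  rw [Dn, hpp.dvd_mul, not_or]
  refine ⟨fun h => not_dvd_lcm hpp hx (hpp.dvd_of_dvd_pow h), fun h => ?_⟩
  obtain ⟨k, -, hk⟩ := (hpp.prime.dvd_finsetProd_iff _).1 h
  exact not_dvd_lcm hpp (lt_of_le_of_lt (Nat.div_le_self _ _) hp) hk

theorem den_pos (q w x : ℕ) : 0 < Dn q w x := by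
  rw [Dn]
  exact Nat.mul_pos (pow_pos (Nat.lcmUpto_pos _) _) (prod_pos fun k _ => Nat.lcmUpto_pos _)

end H22GW

end

section

/-!
# GW LamShift (port of OD LamShift from step (3)): iterate `LamOK`, then `z = cX`, `b = ca`, `c^(p-1) = 1`.
-/

namespace H22GW

open Finset Polynomial

section LamShift

variable {Ω : Type*} [Field Ω] {K : Type*} [Field K] [Algebra Ω K]

/-- `Lam(z) / (z^(p-1) - 1)` -/
noncomputable def lamK (p : ℕ) (Lam : Polynomial Ω) (z : K) : K :=
  aeval z Lam / (z ^ (p - 1) - 1)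

theorem aeval_dq (q : ℕ) (z : K) :
    aeval z (dq Ω q) = ∏ h ∈ Ioo 0 q, ((q : K) * z + (h : K)) := by
  unfold dq
  rw [map_prod]
  refine Finset.prod_congr rfl fun h _ => ?_
  rw [map_add, map_mul, aeval_C, aeval_C, aeval_X, map_natCast, map_natCast]

theorem aeval_nq (q : ℕ) (W : ℕ → Ω) (z : K) :
    aeval z (nq q W) = ∑ h ∈ Ioo 0 q, algebraMap Ω K (W h) *
      ∏ k ∈ (Ioo 0 q).erase h, ((q : K) * z + (k : K)) := by
  unfold nq
  rw [map_sum]
  refine Finset.sum_congr rfl fun h _ => ?_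
  rw [map_mul, aeval_C, map_prod]
  congr 1
  refine Finset.prod_congr rfl fun h _ => ?_
  rw [map_add, map_mul, aeval_C, aeval_C, aeval_X, map_natCast, map_natCast]

theorem lamK_succ {p q : ℕ} {W : ℕ → Ω} {Lam : Polynomial Ω} (hL : LamOK p q W Lam) (z : K)
    (h1 : z ^ (p - 1) - 1 ≠ 0) (h2 : (z + 1) ^ (p - 1) - 1 ≠ 0)
    (h3 : ∀ h : ℕ, (q : K) * z + h ≠ 0) :
    lamK p Lam (z + 1) - lamK p Lam z
      = ∑ h ∈ Ioo 0 q, algebraMap Ω K (W h) / ((q : K) * z + h) := by
  have hd : (∏ h ∈ Ioo 0 q, ((q : K) * z + (h : K))) ≠ 0 := prod_ne_zero_iff.2 fun h _ => h3 h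
  have hs : (∏ h ∈ Ioo 0 q, ((q : K) * z + (h : K))) *
      (∑ h ∈ Ioo 0 q, algebraMap Ω K (W h) / ((q : K) * z + h)) = aeval z (nq q W) := by
    rw [aeval_nq, Finset.mul_sum]
    refine Finset.sum_congr rfl fun h hh => ?_
    rw [← Finset.mul_prod_erase _ _ hh, mul_comm ((q : K) * z + (h : K)), mul_assoc,
      mul_div_cancel₀ _ (h3 h), mul_comm]
  have h4 := congrArg (aeval z) hL.2
  simp only [map_mul, map_sub, map_pow, map_one, map_add, aeval_comp, aeval_X] at h4
  rw [aeval_dq, ← hs] at h4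
  have h5 : (∏ h ∈ Ioo 0 q, ((q : K) * z + (h : K))) *
      (lamK p Lam (z + 1) - lamK p Lam z)
      = (∏ h ∈ Ioo 0 q, ((q : K) * z + (h : K))) *
      (∑ h ∈ Ioo 0 q, algebraMap Ω K (W h) / ((q : K) * z + h)) := by
    unfold lamK
    rw [div_sub_div _ _ h2 h1, mul_div_assoc', div_eq_iff (mul_ne_zero h2 h1)]
    linear_combination h4
  exact mul_left_cancel₀ hd h5

theorem lamK_add {p q : ℕ} {W : ℕ → Ω} {Lam : Polynomial Ω} (hL : LamOK p q W Lam)
    (z : K) (h1 : ∀ n : ℕ, (z + n) ^ (p - 1) - 1 ≠ 0) (h3 : ∀ h : ℕ, (q : K) * z + h ≠ 0) (b : ℕ) :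
    lamK p Lam (z + b) - lamK p Lam z
      = ∑ h ∈ range (q * b), algebraMap Ω K (wg q W h) / ((q : K) * z + h) := by
  induction b with
  | zero => simp
  | succ b ih =>
    have h4 := lamK_succ hL (z + b) (h1 b) (by have := h1 (b + 1); push_cast at this
                                               rwa [← add_assoc] at this)
      (fun h => by
        have := h3 (q * b + h)
        push_cast at this
        intro h0
        apply this
        linear_combination h0)
    have h2 : lamK p Lam (z + ((b + 1 : ℕ) : K)) - lamK p Lam z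
        = (lamK p Lam (z + b + 1) - lamK p Lam (z + b)) + (lamK p Lam (z + b) - lamK p Lam z) := by
      push_cast
      rw [← add_assoc]
      ring
    rw [h2, ih, h4, show q * (b + 1) = q * b + q by ring, Finset.sum_range_add, add_comm]
    congr 1
    have hsub : Ioo 0 q ⊆ range q := by
      intro h hh
      rw [mem_Ioo] at hh
      exact mem_range.2 hh.2
    rw [← Finset.sum_subset hsub]
    · refine Finset.sum_congr rfl fun h hh => ?_
      rw [mem_Ioo] at hh
      have hw : wg q W (q * b + h) = W h := by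
        unfold wg
        rw [Nat.mul_add_mod, Nat.mod_eq_of_lt hh.2, if_neg hh.1.ne']
      rw [hw]
      push_cast
      congr 1
      ring
    · intro h h5 h6
      rw [mem_Ioo, mem_range] at *
      have h0 : h = 0 := by omega
      subst h0
      have hw : wg q W (q * b + 0) = 0 := by
        unfold wg
        rw [add_zero, Nat.mul_mod_right, if_pos rfl]
      rw [hw]
      simp

theorem aeval_bn (N : ℕ) (z : K) : aeval z (bn Ω N)
    = algebraMap Ω K ((N.factorial : Ω)⁻¹) * ∏ i ∈ range N, (z - (i : K)) := by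
  unfold bn
  rw [map_mul, aeval_C, map_prod]
  congr 1
  refine Finset.prod_congr rfl fun i _ => ?_
  rw [map_sub, aeval_X, aeval_C, map_natCast]

theorem aeval_RR (q : ℕ) (W : ℕ → Ω) (m c a : ℕ) (t : K) : aeval t (RR q W m c a)
    = algebraMap Ω K (((q * c * m).factorial : Ω)⁻¹) * ∑ h ∈ Ioo 0 (q * c * a),
      algebraMap Ω K (wg q W h) * ∏ k ∈ (range (q * c * m)).erase (q * c * a - h),
        (((q * c : ℕ) : K) * (t + (a : K)) - (k : K)) := by
  unfold RR
  rw [map_mul, aeval_C, map_sum]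
  congr 1
  refine Finset.sum_congr rfl fun h _ => ?_
  rw [map_mul, aeval_C, map_prod]
  congr 1
  refine Finset.prod_congr rfl fun i _ => ?_
  rw [map_sub, map_mul, map_add, aeval_X, aeval_C, aeval_C, aeval_C, map_natCast, map_natCast,
    map_natCast]

theorem bn_RR (q : ℕ) (W : ℕ → Ω) (m c a : ℕ) (ha : a ≤ m) (t : K)
    (ht : ∀ h : ℕ, (q : K) * (c * t) + h ≠ 0) :
    aeval (((q * c : ℕ) : K) * (t + a)) (bn Ω (q * c * m)) *
      (∑ h ∈ range (q * (c * a)), algebraMap Ω K (wg q W h) / ((q : K) * ((c : K) * t) + h))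
      = aeval t (RR q W m c a) := by
  rw [aeval_bn, aeval_RR, mul_assoc]
  congr 1
  rw [Finset.mul_sum]
  have hr : range (q * (c * a)) = (range (q * c * a)) := by rw [mul_assoc]
  rw [hr]
  have hsub : Ioo 0 (q * c * a) ⊆ range (q * c * a) := by
    intro h hh
    rw [mem_Ioo] at hh
    exact mem_range.2 hh.2
  rw [← Finset.sum_subset hsub]
  · refine Finset.sum_congr rfl fun h hh => ?_
    rw [mem_Ioo] at hh
    have hle : q * c * a ≤ q * c * m := Nat.mul_le_mul_left _ ha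
    have hmem : q * c * a - h ∈ range (q * c * m) := mem_range.2 (by omega)
    rw [← Finset.mul_prod_erase _ _ hmem]
    have hfac : ((q * c : ℕ) : K) * (t + (a : K)) - ((q * c * a - h : ℕ) : K)
        = q * (c * t) + h := by
      rw [Nat.cast_sub hh.2.le]
      push_cast
      ring
    rw [hfac, mul_comm ((q : K) * ((c : K) * t) + h), mul_assoc, mul_div_cancel₀ _ (ht h),
      mul_comm]
  · intro h h1 h2
    rw [mem_Ioo, mem_range] at *
    have h0 : h = 0 := by omega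
    subst h0
    have w0 : wg q W 0 = 0 := by simp [wg]
    rw [w0]
    simp

theorem cast_pow_sub_one {p : ℕ} [Fact p.Prime] [CharP Ω p] {c : ℕ} (hc : (c : Ω) ≠ 0) :
    (c : Ω) ^ (p - 1) = 1 := by
  have hc0 : (c : ZMod p) ≠ 0 := by
    intro h
    apply hc
    rw [ZMod.natCast_eq_zero_iff] at h
    exact (CharP.cast_eq_zero_iff Ω p c).2 h
  have h := ZMod.pow_card_sub_one_eq_one hc0
  have h' := congrArg (ZMod.castHom (dvd_refl p) Ω) h
  rwa [map_pow, map_natCast, map_one] at h'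

end LamShift

theorem lam_shift {Ω : Type*} [Field Ω] (p : ℕ) [Fact p.Prime] [CharP Ω p] (q : ℕ) (hq : 1 ≤ q)
    (W : ℕ → Ω) (Lam : Polynomial Ω) (hL : LamOK p q W Lam) (m c a : ℕ) (hc : 1 ≤ c) (ha : a < m)
    (hm : q * c * m < p) :
    (bn Ω (q * c * m)).comp (C ((q * c : ℕ) : Ω) * (X + C (a : Ω))) *
      ((X ^ (p - 1) - 1) * Lam.comp (C (c : Ω) * (X + C (a : Ω)))
        - ((X + C (a : Ω)) ^ (p - 1) - 1) * Lam.comp (C (c : Ω) * X))
    = (X ^ (p - 1) - 1) * ((X + C (a : Ω)) ^ (p - 1) - 1) * RR q W m c a := by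
  have hpp : p.Prime := Fact.out
  have hp2 := hpp.two_le
  have hqc : q * c < p := by
    have h1 : q * c * 1 ≤ q * c * m := Nat.mul_le_mul_left _ (by omega)
    omega
  have hqc1 : 1 * c ≤ q * c := Nat.mul_le_mul_right c hq
  have hqc2 : q * 1 ≤ q * c := Nat.mul_le_mul_left q hc
  have hne : ∀ n : ℕ, 1 ≤ n → n < p → (n : Ω) ≠ 0 := by
    intro n hn1 hn2
    rw [Ne, CharP.cast_eq_zero_iff Ω p n]
    intro h
    have := Nat.le_of_dvd (by omega) h
    omega
  have hc0 : (c : Ω) ≠ 0 := hne c hc (by omega)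
  have hq0 : (q : Ω) ≠ 0 := hne q hq (by omega)
  have hι : Function.Injective (algebraMap (Polynomial Ω) (FractionRing (Polynomial Ω))) :=
    IsFractionRing.injective _ _
  have hιa : ∀ f : (Polynomial Ω), algebraMap (Polynomial Ω) (FractionRing (Polynomial Ω)) f
      = aeval (algebraMap (Polynomial Ω) (FractionRing (Polynomial Ω)) X) f := by
    intro f
    rw [aeval_algebraMap_apply, aeval_X_left_apply]
  generalize ht : algebraMap (Polynomial Ω) (FractionRing (Polynomial Ω)) X = t at hιa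
  have hinj : ∀ f : (Polynomial Ω), f ≠ 0 → aeval t f ≠ 0 := by
    intro f hf h
    rw [← hιa, ← map_zero (algebraMap (Polynomial Ω) (FractionRing (Polynomial Ω)))] at h
    exact hf (hι h)
  have hz1 : ∀ n : ℕ, ((c : FractionRing (Polynomial Ω)) * t + n) ^ (p - 1) - 1 ≠ 0 := by
    intro n
    have h1 : ((C (c : Ω) * X + C (n : Ω)) ^ (p - 1) - 1  : Polynomial Ω) ≠ 0 := by
      intro h
      have h2 : ((C (c : Ω) * X + C (n : Ω)) ^ (p - 1)  : Polynomial Ω).natDegree = p - 1 := by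
        rw [natDegree_pow, natDegree_linear hc0, mul_one]
      rw [sub_eq_zero.1 h, natDegree_one] at h2
      omega
    have h3 := hinj _ h1
    simpa only [map_sub, map_pow, map_add, map_mul, map_one, aeval_X, aeval_C, map_natCast]
      using h3
  have hz3 : ∀ h : ℕ, (q : FractionRing (Polynomial Ω)) * (c * t) + h ≠ 0 := by
    intro n
    have h1 : (C (q : Ω) * (C (c : Ω) * X) + C (n : Ω)  : Polynomial Ω) ≠ 0 := by
      intro h
      have h2 := congrArg (fun f => coeff f 1) h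
      simp only [coeff_add, coeff_C_mul, coeff_X_one, coeff_C_of_ne_zero (by norm_num : (1 : ℕ) ≠ 0),
        mul_one, add_zero, coeff_zero] at h2
      exact mul_ne_zero hq0 hc0 h2
    have h3 := hinj _ h1
    simpa only [map_add, map_mul, aeval_X, aeval_C, map_natCast] using h3
  have hadd := lamK_add hL ((c : FractionRing (Polynomial Ω)) * t) hz1 hz3 (c * a)
  have hbn := bn_RR q W m c a ha.le t hz3
  rw [← hadd] at hbn
  have hzz : (c : FractionRing (Polynomial Ω)) * t + ((c * a : ℕ) : FractionRing (Polynomial Ω))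
      = (c : FractionRing (Polynomial Ω)) * (t + a) := by
    rw [Nat.cast_mul]
    ring
  have hz1a := hz1 (c * a)
  have hz10 := hz1 0
  rw [hzz] at hbn hz1a
  rw [Nat.cast_zero, add_zero] at hz10
  have hcpow : (c : FractionRing (Polynomial Ω)) ^ (p - 1) = 1 := by
    have h' := congrArg (algebraMap Ω (FractionRing (Polynomial Ω))) (cast_pow_sub_one (p := p) hc0)
    rwa [map_pow, map_natCast, map_one] at h'
  rw [mul_pow, hcpow, one_mul] at hz1a hz10
  unfold lamK at hbn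
  rw [mul_pow, mul_pow, hcpow, one_mul, one_mul, div_sub_div _ _ hz1a hz10] at hbn
  apply hι
  rw [hιa (_ * RR _ _ _ _ _), hιa]
  simp only [map_mul, map_sub, map_add, map_pow, map_one, aeval_comp, aeval_X, map_natCast]
  rw [← hbn]
  field_simp

end H22GW

end

section

/-!
# GW RedMat (port of OD RedMat with `RedK`)
-/

namespace H22GW

open Finset Polynomial NumberField

section

variable {k Ω : Type*} [Field k] [NumberField k] [Field Ω] {φ : 𝓞 k →+* Ω}

theorem RedK.coe (a : 𝓞 k) : RedK φ (a : k) (φ a) :=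
  ⟨1, a, by simp, by simp, by simp⟩

theorem RedK.nat (n : ℕ) : RedK φ (n : k) (n : Ω) := by
  have h := RedK.coe (φ := φ) ((n : ℕ) : 𝓞 k)
  simpa using h

theorem RedK.zero : RedK φ (0 : k) (0 : Ω) := by simpa using RedK.nat (φ := φ) 0

theorem RedK.one : RedK φ (1 : k) (1 : Ω) := by simpa using RedK.nat (φ := φ) 1

theorem RedK.add {y y' : k} {z z' : Ω} (h : RedK φ y z) (h' : RedK φ y' z') :
    RedK φ (y + y') (z + z') := by
  obtain ⟨n, a, h1, h2, h3⟩ := h
  obtain ⟨m, b, g1, g2, g3⟩ := h'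
  refine ⟨n * m, m * a + n * b, ?_, ?_, ?_⟩
  · rw [Nat.cast_mul]
    exact mul_ne_zero h1 g1
  · show ((n * m : ℕ) : k) * (y + y') = algebraMap (𝓞 k) k (m * a + n * b)
    rw [Nat.cast_mul, map_add, map_mul, map_mul, map_natCast, map_natCast]
    linear_combination (m : k) * h2 + (n : k) * g2
  · rw [map_add, map_mul, map_mul, map_natCast, map_natCast, h3, g3, Nat.cast_mul]
    ring

theorem RedK.neg {y : k} {z : Ω} (h : RedK φ y z) : RedK φ (-y) (-z) := by
  obtain ⟨n, a, h1, h2, h3⟩ := h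
  refine ⟨n, -a, h1, ?_, ?_⟩
  · show (n : k) * (-y) = algebraMap (𝓞 k) k (-a)
    rw [map_neg]
    linear_combination -h2
  · rw [map_neg, h3]
    ring

theorem RedK.sub {y y' : k} {z z' : Ω} (h : RedK φ y z) (h' : RedK φ y' z') :
    RedK φ (y - y') (z - z') := by
  rw [sub_eq_add_neg, sub_eq_add_neg]
  exact h.add h'.neg

theorem RedK.mul {y y' : k} {z z' : Ω} (h : RedK φ y z) (h' : RedK φ y' z') :
    RedK φ (y * y') (z * z') := by
  obtain ⟨n, a, h1, h2, h3⟩ := h
  obtain ⟨m, b, g1, g2, g3⟩ := h'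
  refine ⟨n * m, a * b, ?_, ?_, ?_⟩
  · rw [Nat.cast_mul]
    exact mul_ne_zero h1 g1
  · show ((n * m : ℕ) : k) * (y * y') = algebraMap (𝓞 k) k (a * b)
    rw [Nat.cast_mul, map_mul]
    linear_combination ((m : k) * y') * h2 + (algebraMap (𝓞 k) k a) * g2
  · rw [map_mul, h3, g3, Nat.cast_mul]
    ring

theorem RedK.inv_nat {n : ℕ} (hn : (n : Ω) ≠ 0) : RedK φ ((n : k)⁻¹) ((n : Ω)⁻¹) := by
  have hn0 : n ≠ 0 := by
    rintro rfl
    exact hn Nat.cast_zero
  refine ⟨n, 1, hn, ?_, ?_⟩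
  · show (n : k) * (n : k)⁻¹ = algebraMap (𝓞 k) k 1
    rw [map_one]
    exact mul_inv_cancel₀ (Nat.cast_ne_zero.mpr hn0)
  · rw [map_one]
    exact (mul_inv_cancel₀ hn).symm

theorem RedK.sum {ι : Type*} (s : Finset ι) {f : ι → k} {g : ι → Ω}
    (h : ∀ i ∈ s, RedK φ (f i) (g i)) : RedK φ (∑ i ∈ s, f i) (∑ i ∈ s, g i) := by
  classical
  induction s using Finset.induction_on with
  | empty => simpa using RedK.zero
  | insert a s ha ih =>
    rw [Finset.sum_insert ha, Finset.sum_insert ha]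
    exact (h a (Finset.mem_insert_self a s)).add
      (ih fun i hi => h i (Finset.mem_insert_of_mem hi))

/-- all coefficients reduce -/
def RedP (φ : 𝓞 k →+* Ω) (f : k[X]) (g : Polynomial Ω) : Prop := ∀ i, RedK φ (f.coeff i) (g.coeff i)

theorem RedP.C {a : k} {b : Ω} (h : RedK φ a b) :
    RedP φ (Polynomial.C a) (Polynomial.C b) := by
  intro i
  rw [coeff_C, coeff_C]
  split_ifs
  · exact h
  · exact RedK.zero

theorem RedP.X : RedP φ (Polynomial.X) (Polynomial.X) := by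
  intro i
  rw [coeff_X, coeff_X]
  split_ifs
  · exact RedK.one
  · exact RedK.zero

theorem RedP.one : RedP φ 1 1 := by
  simpa using RedP.C (RedK.one (φ := φ))

theorem RedP.add {f f' : k[X]} {g g' : Polynomial Ω} (h : RedP φ f g) (h' : RedP φ f' g') :
    RedP φ (f + f') (g + g') := by
  intro i
  rw [coeff_add, coeff_add]
  exact (h i).add (h' i)

theorem RedP.sub {f f' : k[X]} {g g' : Polynomial Ω} (h : RedP φ f g) (h' : RedP φ f' g') :
    RedP φ (f - f') (g - g') := by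
  intro i
  rw [coeff_sub, coeff_sub]
  exact (h i).sub (h' i)

theorem RedP.mul {f f' : k[X]} {g g' : Polynomial Ω} (h : RedP φ f g) (h' : RedP φ f' g') :
    RedP φ (f * f') (g * g') := by
  intro i
  rw [coeff_mul, coeff_mul]
  exact RedK.sum _ fun x _ => (h _).mul (h' _)

theorem RedP.pow {f : k[X]} {g : Polynomial Ω} (h : RedP φ f g) (n : ℕ) :
    RedP φ (f ^ n) (g ^ n) := by
  induction n with
  | zero => simpa using RedP.one
  | succ n ih => rw [pow_succ, pow_succ]; exact ih.mul h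

theorem RedP.sum {ι : Type*} (s : Finset ι) {f : ι → k[X]} {g : ι → Polynomial Ω}
    (h : ∀ i ∈ s, RedP φ (f i) (g i)) : RedP φ (∑ i ∈ s, f i) (∑ i ∈ s, g i) := by
  intro i
  rw [finsetSum_coeff, finsetSum_coeff]
  exact RedK.sum _ fun j hj => h j hj i

theorem RedP.prod {ι : Type*} (s : Finset ι) {f : ι → k[X]} {g : ι → Polynomial Ω}
    (h : ∀ i ∈ s, RedP φ (f i) (g i)) : RedP φ (∏ i ∈ s, f i) (∏ i ∈ s, g i) := by
  classical
  induction s using Finset.induction_on with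
  | empty => simpa using RedP.one
  | insert a s ha ih =>
    rw [Finset.prod_insert ha, Finset.prod_insert ha]
    exact (h a (Finset.mem_insert_self a s)).mul
      (ih fun i hi => h i (Finset.mem_insert_of_mem hi))

theorem RedP.comp {f f' : k[X]} {g g' : Polynomial Ω} (h : RedP φ f g) (h' : RedP φ f' g') :
    RedP φ (f.comp f') (g.comp g') := by
  unfold Polynomial.comp
  rw [eval₂_eq_sum_range' (n := max f.natDegree g.natDegree + 1) _ (by omega),
    eval₂_eq_sum_range' (n := max f.natDegree g.natDegree + 1) _ (by omega)]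
  exact RedP.sum _ fun i _ => (RedP.C (h i)).mul (h'.pow i)

theorem fact_ne (p : ℕ) [hpf : Fact p.Prime] [CharP Ω p] {N : ℕ} (h : N < p) :
    ((N.factorial : ℕ) : Ω) ≠ 0 := by
  rw [Ne, CharP.cast_eq_zero_iff Ω p, hpf.out.dvd_factorial]
  omega

theorem redP_bn (p : ℕ) [hpf : Fact p.Prime] [CharP Ω p] {N : ℕ} (h : N < p) :
    RedP φ (bn k N) (bn Ω N) := by
  unfold bn
  exact (RedP.C (RedK.inv_nat (fact_ne p h))).mul
    (RedP.prod _ fun i _ => RedP.X.sub (RedP.C (RedK.nat i)))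

theorem redP_PB (p : ℕ) [hpf : Fact p.Prime] [CharP Ω p] {x i : ℕ} (hx0 : 0 < x) (hx : x < p) :
    RedP φ (PB k x i) (PB Ω x i) := by
  unfold PB
  exact ((redP_bn p hx).pow _).mul (redP_bn p ((Nat.mod_lt i hx0).trans hx))

theorem redP_XC (a : ℕ) :
    RedP φ (Polynomial.X + Polynomial.C (a : k)) (Polynomial.X + Polynomial.C (a : Ω)) :=
  RedP.X.add (RedP.C (RedK.nat a))

theorem redK_wg (q : ℕ) (W : ℕ → 𝓞 k) (h : ℕ) :
    RedK φ (wg q (fun h => (W h : k)) h) (wg q (fun h => φ (W h)) h) := by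
  unfold wg
  split_ifs
  · exact RedK.zero
  · exact RedK.coe _

theorem redP_RR (p : ℕ) [hpf : Fact p.Prime] [CharP Ω p] (q : ℕ) (W : ℕ → 𝓞 k) {m c a : ℕ}
    (h : q * c * m < p) :
    RedP φ (RR q (fun h => (W h : k)) m c a) (RR q (fun h => φ (W h)) m c a) := by
  unfold RR
  refine (RedP.C (RedK.inv_nat (fact_ne p h))).mul (RedP.sum _ fun j _ => ?_)
  refine (RedP.C (redK_wg q W j)).mul (RedP.prod _ fun k _ => ?_)
  exact ((RedP.C (RedK.nat _)).mul (redP_XC a)).sub (RedP.C (RedK.nat k))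

end

theorem mat_red {k Ω : Type*} [Field k] [NumberField k] [Field Ω] (φ : 𝓞 k →+* Ω) (p : ℕ)
    [Fact p.Prime] [CharP Ω p] (q : ℕ) (W : ℕ → 𝓞 k) (w x : ℕ) (hp : q * w * (w * x) < p)
    (hx : x < p) (r : Row w x) (c : Col q w x) :
    RedK φ (Mat q (fun h => (W h : k)) w x r c) (Mat q (fun h => φ (W h)) w x r c) := by
  rcases c with ⟨e, i⟩ | ⟨c, i⟩
  · have hx0 : 0 < x := by
      rcases Nat.eq_zero_or_pos x with h | h
      · subst h
        exact absurd i.2 (by simp)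
      · exact h
    exact ((redP_PB p hx0 hx).comp (redP_XC _)).mul (RedP.X.pow _) _
  · have hx0 : 0 < x := by
      rcases Nat.eq_zero_or_pos x with h | h
      · subst h
        exact absurd i.2 (by simp)
      · exact h
    have hc : q * (c.val + 1) * (w * x) < p := by
      refine lt_of_le_of_lt ?_ hp
      exact Nat.mul_le_mul_right _ (Nat.mul_le_mul_left _ (by have := c.2; omega))
    exact ((redP_PB p hx0 hx).comp (redP_XC _)).mul (redP_RR p q W hc) _

end H22GW

end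

section

/-!
# GW RRs.
PROOF. `(qcX + h) * ∏_{k ≠ qca-h} (qc(X+a) - k) = ∏_{k<qcm} (qc(X+a) - k)` for `0 < h < qca`, `a < m`.
-/

namespace H22GW

open Finset Polynomial

theorem RR_eq {F : Type*} [Field F] [CharZero F] (q : ℕ) (hq : 1 ≤ q) (W : ℕ → F) (m c a : ℕ)
    (hc : 1 ≤ c) (ha : a < m) :
    ((RR q W m c a : F[X]) : PowerSeries F) =
      (((bn F (q * c * m)).comp (C ((q * c : ℕ) : F) * (X + C (a : F))) : F[X]) : PowerSeries F)
        * rs q W c a := by
  have hcomp : (bn F (q * c * m)).comp (C ((q * c : ℕ) : F) * (X + C (a : F))) =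
      C (((q * c * m).factorial : F)⁻¹) *
        ∏ k ∈ range (q * c * m), (C ((q * c : ℕ) : F) * (X + C (a : F)) - C (k : F)) := by
    unfold bn
    rw [mul_comp, C_comp, Polynomial.prod_comp]
    congr 1
    refine Finset.prod_congr rfl fun k _ => ?_
    rw [sub_comp, X_comp, C_comp]
  rw [hcomp]
  unfold RR rs
  rw [Polynomial.coe_mul, Polynomial.coe_mul, Polynomial.coe_C, mul_assoc (PowerSeries.C _)]
  congr 1
  rw [Finset.mul_sum, ← Polynomial.coeToPowerSeries.ringHom_apply, map_sum]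
  refine Finset.sum_congr rfl fun h hh => ?_
  rw [Finset.mem_Ioo] at hh
  have hlt : q * c * a < q * c * m := by
    apply Nat.mul_lt_mul_of_pos_left ha
    positivity
  have hk : q * c * a - h ∈ range (q * c * m) := by
    rw [Finset.mem_range]
    omega
  rw [← Finset.mul_prod_erase (range (q * c * m)) _ hk]
  have hfac : (C ((q * c : ℕ) : F) * (X + C (a : F)) - C (((q * c * a - h : ℕ)) : F) : F[X]) =
      C (h : F) + C ((q * c : ℕ) : F) * X := by
    have h1 : (((q * c * a - h : ℕ)) : F) = ((q * c : ℕ) : F) * a - h := by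
      rw [Nat.cast_sub hh.2.le]
      push_cast
      ring
    rw [h1, C_sub, C_mul]
    ring
  rw [hfac]
  rw [Polynomial.coeToPowerSeries.ringHom_apply, Polynomial.coe_mul, Polynomial.coe_C,
    Polynomial.coe_mul, Polynomial.coe_add, Polynomial.coe_mul, Polynomial.coe_C,
    Polynomial.coe_C, Polynomial.coe_X]
  have hne : PowerSeries.constantCoeff (PowerSeries.C (h : F) +
      PowerSeries.C ((q * c : ℕ) : F) * PowerSeries.X) ≠ 0 := by
    simp only [map_add, PowerSeries.constantCoeff_C, map_mul, PowerSeries.constantCoeff_X,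
      mul_zero, add_zero]
    exact_mod_cast hh.1.ne'
  have hinv := PowerSeries.mul_inv_cancel _ hne
  linear_combination (-(PowerSeries.C (wg q W h)) *
    ((∏ k ∈ (range (q * c * m)).erase (q * c * a - h),
      (C ((q * c : ℕ) : F) * (X + C (a : F)) - C (k : F)) : F[X]) : PowerSeries F)) * hinv

end H22GW

end

section

/-!
# GW RsStep: the recursion `rs (c+1) (a+1) - rs (c+1) a = ρ_(c+1)(a+X)`, cleared of denominators.
-/

namespace H22GW

open Finset Polynomial

variable {F : Type*} [Field F]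

private theorem wg_add (q : ℕ) (W : ℕ → F) (h k : ℕ) : wg q W (h + q * k) = wg q W h := by
  unfold wg
  rw [Nat.add_mul_mod_self_left]

private theorem wg_mul (q : ℕ) (W : ℕ → F) (k : ℕ) : wg q W (q * k) = 0 := by
  unfold wg
  rw [Nat.mul_mod_right]
  simp

/-- the factor `qc(a+X) + h` -/
private theorem lin_comp (q c a h : ℕ) :
    (((C ((q * (c + 1) : ℕ) : F) * X + C (h : F)).comp (X + C (a : F)) : F[X]) : PowerSeries F)
      = PowerSeries.C ((q * (c + 1) * a + h : ℕ) : F)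
        + PowerSeries.C ((q * (c + 1) : ℕ) : F) * PowerSeries.X := by
  rw [add_comp, mul_comp, C_comp, X_comp, C_comp]
  rw [Polynomial.coe_add, Polynomial.coe_mul, Polynomial.coe_add, Polynomial.coe_C,
    Polynomial.coe_C, Polynomial.coe_X, Polynomial.coe_C]
  have : ((q * (c + 1) * a + h : ℕ) : F) = ((q * (c + 1) : ℕ) : F) * (a : F) + (h : F) := by
    push_cast
    ring
  rw [this, map_add, map_mul]
  ring

theorem rs_diff (q : ℕ) (W : ℕ → F) (c a : ℕ) (hq : 1 ≤ q) : rs q W (c + 1) (a + 1) - rs q W (c + 1) a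
    = ∑ h ∈ Ioo 0 (q * (c + 1)), PowerSeries.C (wg q W h) *
      (PowerSeries.C ((q * (c + 1) * a + h : ℕ) : F)
        + PowerSeries.C ((q * (c + 1) : ℕ) : F) * PowerSeries.X)⁻¹ := by
  classical
  set G : ℕ → PowerSeries F := fun h => PowerSeries.C (wg q W h) *
    (PowerSeries.C (h : F) + PowerSeries.C ((q * (c + 1) : ℕ) : F) * PowerSeries.X)⁻¹ with hG
  have h0 : ∀ k : ℕ, G (q * k) = 0 := by
    intro k
    rw [hG]
    simp only
    rw [wg_mul]
    simp
  have hrs : ∀ b : ℕ, rs q W (c + 1) b = ∑ h ∈ range (q * (c + 1) * b), G h := by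
    intro b
    rcases Nat.eq_zero_or_pos b with rfl | hb
    · simp [rs]
    · have h1 : range (q * (c + 1) * b) = insert 0 (Ioo 0 (q * (c + 1) * b)) := by
        ext x
        have : 0 < q * (c + 1) * b := by positivity
        simp only [mem_range, mem_insert, mem_Ioo]
        omega
      rw [h1, sum_insert (by simp), show G 0 = 0 by simpa using h0 0, zero_add]
      rfl
  rw [hrs, hrs, show q * (c + 1) * (a + 1) = q * (c + 1) * a + q * (c + 1) by ring,
    sum_range_add_sub_sum_range]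
  have h2 : range (q * (c + 1)) = insert 0 (Ioo 0 (q * (c + 1))) := by
    ext x
    have : 0 < q * (c + 1) := by positivity
    simp only [mem_range, mem_insert, mem_Ioo]
    omega
  rw [h2, sum_insert (by simp)]
  have h3 : G (q * (c + 1) * a + 0) = 0 := by
    have := h0 ((c + 1) * a)
    rwa [← mul_assoc] at this
  rw [h3, zero_add]
  refine sum_congr rfl fun h _ => ?_
  rw [hG]
  simp only
  rw [show q * (c + 1) * a + h = h + q * ((c + 1) * a) by ring, wg_add]

theorem rs_step [CharZero F] (q : ℕ) (W : ℕ → F) (c a : ℕ) (hq : 1 ≤ q) :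
    (rs q W (c + 1) (a + 1) - rs q W (c + 1) a) *
        (((denC F q c).comp (X + C (a : F)) : F[X]) : PowerSeries F)
      = (((numC q W c).comp (X + C (a : F)) : F[X]) : PowerSeries F) := by
  classical
  have hden : (((denC F q c).comp (X + C (a : F)) : F[X]) : PowerSeries F)
      = ∏ h ∈ Ioo 0 (q * (c + 1)), (PowerSeries.C ((q * (c + 1) * a + h : ℕ) : F)
        + PowerSeries.C ((q * (c + 1) : ℕ) : F) * PowerSeries.X) := by
    rw [denC, Polynomial.prod_comp, ← Polynomial.coeToPowerSeries.ringHom_apply, map_prod]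
    refine prod_congr rfl fun h _ => ?_
    rw [Polynomial.coeToPowerSeries.ringHom_apply, lin_comp]
  have hnum : (((numC q W c).comp (X + C (a : F)) : F[X]) : PowerSeries F)
      = ∑ h ∈ Ioo 0 (q * (c + 1)), PowerSeries.C (wg q W h) *
        ∏ k ∈ (Ioo 0 (q * (c + 1))).erase h, (PowerSeries.C ((q * (c + 1) * a + k : ℕ) : F)
        + PowerSeries.C ((q * (c + 1) : ℕ) : F) * PowerSeries.X) := by
    rw [numC, ← Polynomial.coe_compRingHom_apply, map_sum,
      ← Polynomial.coeToPowerSeries.ringHom_apply, map_sum]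
    refine sum_congr rfl fun h _ => ?_
    rw [Polynomial.coe_compRingHom_apply, mul_comp, C_comp, map_mul, Polynomial.prod_comp, map_prod]
    rw [Polynomial.coeToPowerSeries.ringHom_apply, Polynomial.coe_C]
    congr 1
    refine prod_congr rfl fun k _ => ?_
    rw [Polynomial.coeToPowerSeries.ringHom_apply, lin_comp]
  rw [hden, hnum, rs_diff q W c a hq, sum_mul]
  refine sum_congr rfl fun h hh => ?_
  rw [← mul_prod_erase _ _ hh, mul_assoc, ← mul_assoc _⁻¹, PowerSeries.inv_mul_cancel, one_mul]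
  rw [map_add, map_mul, PowerSeries.constantCoeff_X, mul_zero, add_zero,
    PowerSeries.constantCoeff_C]
  rw [mem_Ioo] at hh
  exact_mod_cast (by omega : q * (c + 1) * a + h ≠ 0)

end H22GW

end

section

/-!
# GW Integr (port of OD Integr; `lemG`).  Weights: `W h` integral, all other numbers rational.
-/

namespace H22GW

open Finset Polynomial NumberField

section
variable {F : Type*} [Field F]

/-- `N ^ i * coeff i` is integral for all `i` -/
private def CI (N : ℕ) (f : F[X]) : Prop := ∀ i : ℕ, IsIntegral ℤ ((N : F) ^ i * f.coeff i)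

private theorem int_nat (n : ℕ) : IsIntegral ℤ (n : F) := by
  have := isIntegral_algebraMap (R := ℤ) (A := F) (x := (n : ℤ))
  simpa using this

private theorem int_int (n : ℤ) : IsIntegral ℤ (n : F) := by
  have := isIntegral_algebraMap (R := ℤ) (A := F) (x := n)
  simpa using this

private theorem CI.mul {N : ℕ} {f g : F[X]} (hf : CI N f) (hg : CI N g) : CI N (f * g) := by
  intro i
  rw [coeff_mul, mul_sum]
  refine IsIntegral.sum _ fun x hx => ?_
  have hx' := mem_antidiagonal.1 hx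
  have : (N : F) ^ i * (f.coeff x.1 * g.coeff x.2) =
      ((N : F) ^ x.1 * f.coeff x.1) * ((N : F) ^ x.2 * g.coeff x.2) := by
    rw [← hx', pow_add]
    ring
  rw [this]
  exact (hf _).mul (hg _)

private theorem CI.add {N : ℕ} {f g : F[X]} (hf : CI N f) (hg : CI N g) : CI N (f + g) := by
  intro i
  rw [coeff_add, mul_add]
  exact (hf i).add (hg i)

private theorem CI.one {N : ℕ} : CI N (1 : F[X]) := by
  intro i
  rw [coeff_one]
  split_ifs with h
  · rw [mul_one]
    exact (int_nat N).pow i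
  · rw [mul_zero]
    exact isIntegral_zero

private theorem CI.pow {N : ℕ} {f : F[X]} (hf : CI N f) (n : ℕ) : CI N (f ^ n) := by
  induction n with
  | zero => rw [pow_zero]; exact CI.one
  | succ n ih => rw [pow_succ]; exact ih.mul hf

private theorem CI.prod {N : ℕ} {ι : Type*} (s : Finset ι) (f : ι → F[X]) (h : ∀ i ∈ s, CI N (f i)) :
    CI N (∏ i ∈ s, f i) := by
  classical
  induction s using Finset.induction_on with
  | empty => rw [prod_empty]; exact CI.one
  | insert a s ha ih =>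
    rw [prod_insert ha]
    exact (h a (mem_insert_self a s)).mul (ih fun i hi => h i (mem_insert_of_mem hi))

variable [CharZero F]

/-- a linear polynomial `X / i + C b`, `i ∣ N`, `b` integral -/
private theorem CI.lin {N i : ℕ} (hi : 1 ≤ i) (h : i ∣ N) (b : ℤ) :
    CI N (C ((i : F)⁻¹) * X + C (b : F)) := by
  intro j
  have hi0 : (i : F) ≠ 0 := by exact_mod_cast (by omega : i ≠ 0)
  rw [coeff_add, coeff_C_mul, coeff_X, coeff_C]
  rcases j with _ | _ | j
  · have e : ((N : F) ^ 0 * ((i : F)⁻¹ * (if (1 : ℕ) = 0 then 1 else 0) + if (0 : ℕ) = 0 then (b : F) else 0)) = (b : F) := by simp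
    rw [e]
    exact int_int b
  · obtain ⟨d, rfl⟩ := h
    simp only [zero_add, if_true, mul_one, one_ne_zero, if_false, add_zero, pow_one]
    have : ((i * d : ℕ) : F) * (i : F)⁻¹ = (d : F) := by
      push_cast
      field_simp
    rw [this]
    exact int_nat d
  · have h1 : (1 : ℕ) ≠ j + 1 + 1 := by omega
    simp only [h1, if_false, mul_zero, zero_add]
    have h2 : j + 1 + 1 ≠ 0 := by omega
    simp only [h2, if_false, mul_zero]
    exact isIntegral_zero

private theorem bn_zero : bn F 0 = 1 := by simp [bn]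

private theorem dvd_lcmUpto {x i : ℕ} (h1 : 1 ≤ i) (h2 : i ≤ x) : i ∣ Nat.lcmUpto x :=
  Finset.dvd_lcm (f := id) (Finset.mem_Icc.2 ⟨h1, h2⟩)

private theorem lcmUpto_mono {m n : ℕ} (h : m ≤ n) : Nat.lcmUpto m ∣ Nat.lcmUpto n :=
  Finset.lcm_dvd fun i hi => by
    have := Finset.mem_Icc.1 hi
    exact dvd_lcmUpto this.1 (this.2.trans h)

/-- `binom(y, t+1) = (y/(t+1)) ∏_{0<i≤t} (y/i - 1)` -/
private theorem bn_succ_eq (t : ℕ) : bn F (t + 1) =
    (C (((t + 1 : ℕ) : F)⁻¹) * X + C ((0 : ℤ) : F)) *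
      ∏ i ∈ range t, (C (((i + 1 : ℕ) : F)⁻¹) * X + C ((-1 : ℤ) : F)) := by
  have h : ∀ t : ℕ, ∏ i ∈ range t, (C (((i + 1 : ℕ) : F)⁻¹) * X + C ((-1 : ℤ) : F)) =
      C ((t.factorial : F)⁻¹) * ∏ i ∈ range t, (X - C (((i + 1 : ℕ) : F))) := by
    intro t
    induction t with
    | zero => simp
    | succ t ih =>
      rw [prod_range_succ, ih, prod_range_succ, Nat.factorial_succ]
      have h0 : ((t + 1 : ℕ) : F) ≠ 0 := by exact_mod_cast Nat.succ_ne_zero t
      have h1 : C (((t + 1 : ℕ) : F)⁻¹) * C ((t + 1 : ℕ) : F) = (1 : F[X]) := by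
        rw [← C_mul, inv_mul_cancel₀ h0, C_1]
      have h2 : C (((((t + 1) * t.factorial : ℕ)) : F)⁻¹) =
          C (((t + 1 : ℕ) : F)⁻¹) * C ((t.factorial : F)⁻¹) := by
        rw [← C_mul, Nat.cast_mul, mul_inv]
      rw [h2]
      have h3 : C (((-1 : ℤ)) : F) = -(C (((t + 1 : ℕ) : F)⁻¹) * C ((t + 1 : ℕ) : F)) := by
        rw [h1]; simp
      rw [h3]
      ring
  rw [h, bn, prod_range_succ', Nat.factorial_succ]
  have h2 : C (((((t + 1) * t.factorial : ℕ)) : F)⁻¹) =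
      C (((t + 1 : ℕ) : F)⁻¹) * C ((t.factorial : F)⁻¹) := by
    rw [← C_mul, Nat.cast_mul, mul_inv]
  rw [h2]
  simp only [Int.cast_zero, C_0, add_zero, Nat.cast_zero, sub_zero]
  ring

/-- Pascal -/
private theorem bn_pascal (t : ℕ) : (bn F (t + 1)).comp (X + 1) = bn F (t + 1) + bn F t := by
  have e1 : ∏ i ∈ range (t + 1), ((X + 1 : F[X]) - C ((i : ℕ) : F)) =
      (X + 1) * ∏ i ∈ range t, (X - C ((i : ℕ) : F)) := by
    rw [prod_range_succ', mul_comm]
    congr 1
    · simp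
    · refine prod_congr rfl fun i _ => ?_
      simp only [Nat.cast_add, Nat.cast_one, C_add, C_1]
      ring
  have e2 : (bn F (t + 1)).comp (X + 1) = C (((t + 1).factorial : F)⁻¹) *
      ∏ i ∈ range (t + 1), ((X + 1 : F[X]) - C ((i : ℕ) : F)) := by
    rw [bn, mul_comp, C_comp, Polynomial.prod_comp]
    congr 1
    refine prod_congr rfl fun i _ => ?_
    rw [sub_comp, X_comp, C_comp]
  rw [e2, e1, bn, bn, prod_range_succ, Nat.factorial_succ]
  have h0 : ((t + 1 : ℕ) : F) ≠ 0 := by exact_mod_cast Nat.succ_ne_zero t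
  have h1 : C (((t + 1 : ℕ) : F)⁻¹) * C ((t + 1 : ℕ) : F) = (1 : F[X]) := by
    rw [← C_mul, inv_mul_cancel₀ h0, C_1]
  have h2 : C (((((t + 1) * t.factorial : ℕ)) : F)⁻¹) =
      C (((t + 1 : ℕ) : F)⁻¹) * C ((t.factorial : F)⁻¹) := by
    rw [← C_mul, Nat.cast_mul, mul_inv]
  have h3 : C ((t + 1 : ℕ) : F) = C (t : F) + 1 := by simp
  rw [h2]
  rw [h3] at h1
  linear_combination (C ((t.factorial : F)⁻¹) * ∏ i ∈ range t, (X - C ((i : ℕ) : F))) * h1

private theorem CI_bn {x : ℕ} (a : ℕ) : ∀ t ≤ x, CI (Nat.lcmUpto x) ((bn F t).comp (X + C (a : F))) := by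
  induction a with
  | zero =>
    intro t ht
    have : (X + C ((0 : ℕ) : F)) = (X : F[X]) := by simp
    rw [this, comp_X]
    rcases t with _ | t
    · rw [bn_zero]; exact CI.one
    · rw [bn_succ_eq]
      refine (CI.lin (by omega) (dvd_lcmUpto (by omega) ht) 0).mul (CI.prod _ _ fun i hi => ?_)
      have := mem_range.1 hi
      exact CI.lin (by omega) (dvd_lcmUpto (by omega) (by omega)) (-1)
  | succ a ih =>
    intro t ht
    rcases t with _ | t
    · rw [bn_zero, one_comp]; exact CI.one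
    · have : (bn F (t + 1)).comp (X + C (((a + 1 : ℕ)) : F)) =
          (bn F (t + 1)).comp (X + C (a : F)) + (bn F t).comp (X + C (a : F)) := by
        have h1 : (X + C (((a + 1 : ℕ)) : F) : F[X]) = (X + 1 : F[X]).comp (X + C (a : F)) := by
          rw [add_comp, X_comp, one_comp]
          simp only [Nat.cast_add, Nat.cast_one, C_add, C_1]
          ring
        rw [h1, ← comp_assoc, bn_pascal, add_comp]
      rw [this]
      exact (ih _ ht).add (ih _ (by omega))

private theorem CI_PB {x : ℕ} (hx : 1 ≤ x) (a i : ℕ) :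
    CI (Nat.lcmUpto x) ((PB F x i).comp (X + C (a : F))) := by
  rw [PB, mul_comp, pow_comp]
  exact ((CI_bn a x le_rfl).pow _).mul (CI_bn a _ (Nat.mod_lt _ hx).le)

private theorem CI.coeff {N V : ℕ} {f : F[X]} (hf : CI N f) {i : ℕ} (h : i ≤ V) :
    IsIntegral ℤ ((N : F) ^ V * f.coeff i) := by
  have : (N : F) ^ V * f.coeff i = (N : F) ^ (V - i) * ((N : F) ^ i * f.coeff i) := by
    rw [← mul_assoc, ← pow_add]
    congr 2
    omega
  rw [this]
  exact ((int_nat N).pow _).mul (hf i)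

/-- the coefficients of a product of linear polynomials -/
private theorem coeff_prod_lin {ι : Type*} [DecidableEq ι] (T : Finset ι) (b : F) (g : ι → F) (l : ℕ) :
    (∏ k ∈ T, (C b * X + C (g k))).coeff l =
      ∑ S ∈ T.powerset.filter (fun S => S.card = l), b ^ l * ∏ k ∈ T \ S, g k := by
  rw [prod_add]
  rw [finsetSum_coeff, sum_filter]
  refine sum_congr rfl fun S hS => ?_
  have e : (∏ k ∈ S, (C b * X : F[X])) * ∏ k ∈ T \ S, C (g k) =
      C (b ^ S.card * ∏ k ∈ T \ S, g k) * X ^ S.card := by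
    rw [prod_const, mul_pow, C_mul, C_pow, map_prod]
    ring
  rw [e, coeff_C_mul, coeff_X_pow]
  split_ifs with h1 h2 h3
  · rw [mul_one, h1]
  · exact absurd h1.symm h2
  · exact absurd h3.symm h1
  · rw [mul_zero]

/-- the key integrality: one summand of `RR` -/
private theorem int_prod (q c m a s l : ℕ) (P : ℕ) (hs : s < q * c * m)
    (hP : (∏ k ∈ range (l + 1), Nat.lcmUpto (q * c * m / (k + 1))) ∣ P) :
    IsIntegral ℤ ((P : F) * (((q * c * m).factorial : F)⁻¹ *
      (∏ k ∈ (range (q * c * m)).erase s,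
        (C ((q * c : ℕ) : F) * (X + C (a : F)) - C (k : F))).coeff l)) := by
  classical
  have e : ∏ k ∈ (range (q * c * m)).erase s,
      (C ((q * c : ℕ) : F) * (X + C (a : F)) - C (k : F)) =
      ∏ k ∈ (range (q * c * m)).erase s,
        (C ((q * c : ℕ) : F) * X + C ((((q * c * a : ℕ) : ℤ) - (k : ℤ) : ℤ) : F)) := by
    refine prod_congr rfl fun k _ => ?_
    rw [Int.cast_sub, C_sub, Int.cast_natCast, Int.cast_natCast, Nat.cast_mul (q * c) a, C_mul]
    ring
  rw [e, coeff_prod_lin, mul_sum, mul_sum]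
  refine IsIntegral.sum _ fun S hS => ?_
  obtain ⟨hS1, hS2⟩ := mem_filter.1 hS
  rw [mem_powerset] at hS1
  have hsS : s ∉ S := fun h => (mem_erase.1 (hS1 h)).1 rfl
  have hsub : insert s S ⊆ range (q * c * m) := by
    intro k hk
    rcases mem_insert.1 hk with rfl | hk
    · exact mem_range.2 hs
    · exact (mem_erase.1 (hS1 hk)).2
  have hset : (range (q * c * m)).erase s \ S = range (q * c * m) \ insert s S := by
    ext k
    simp only [mem_sdiff, mem_erase, mem_insert, ne_eq, not_or]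
    tauto
  have hG := H22OD.lemG (q * c * m) ((q * c * a : ℕ) : ℤ) (insert s S) hsub
  rw [card_insert_of_notMem hsS, hS2] at hG
  obtain ⟨d, hd⟩ := hP
  obtain ⟨z, hz⟩ := hG
  rw [hset]
  have hM : ((q * c * m).factorial : F) ≠ 0 := by exact_mod_cast Nat.factorial_ne_zero _
  have hz' : (∏ k ∈ range (l + 1), (Nat.lcmUpto (q * c * m / (k + 1)) : F)) *
      ∏ k ∈ range (q * c * m) \ insert s S, ((((q * c * a : ℕ) : ℤ) - (k : ℤ) : ℤ) : F) =
      ((q * c * m).factorial : F) * (z : F) := by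
    have := congrArg (Int.cast : ℤ → F) hz
    push_cast at this ⊢
    exact this
  have hfin : (P : F) * (((q * c * m).factorial : F)⁻¹ * (((q * c : ℕ) : F) ^ l *
      ∏ k ∈ range (q * c * m) \ insert s S, ((((q * c * a : ℕ) : ℤ) - (k : ℤ) : ℤ) : F))) =
      (d : F) * ((q * c : ℕ) : F) ^ l * (z : F) := by
    have hPd : (P : F) = (∏ k ∈ range (l + 1), (Nat.lcmUpto (q * c * m / (k + 1)) : F)) * (d : F) := by
      rw [hd, Nat.cast_mul, Nat.cast_prod]
    rw [hPd]
    have : (∏ k ∈ range (l + 1), (Nat.lcmUpto (q * c * m / (k + 1)) : F)) * (d : F) *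
        (((q * c * m).factorial : F)⁻¹ * (((q * c : ℕ) : F) ^ l *
        ∏ k ∈ range (q * c * m) \ insert s S, ((((q * c * a : ℕ) : ℤ) - (k : ℤ) : ℤ) : F))) =
        (d : F) * ((q * c : ℕ) : F) ^ l * (((q * c * m).factorial : F)⁻¹ *
        ((∏ k ∈ range (l + 1), (Nat.lcmUpto (q * c * m / (k + 1)) : F)) *
        ∏ k ∈ range (q * c * m) \ insert s S, ((((q * c * a : ℕ) : ℤ) - (k : ℤ) : ℤ) : F))) := by
      ring
    rw [this, hz', ← mul_assoc, ← mul_assoc, mul_assoc _ (_)⁻¹ _, inv_mul_cancel₀ hM, mul_one]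
  rw [hfin]
  exact ((int_nat d).mul ((int_nat _).pow l)).mul (int_int z)

end

theorem mat_int {k : Type*} [Field k] [NumberField k] (q : ℕ) (W : ℕ → 𝓞 k) (w x : ℕ) (r : Row w x)
    (c : Col q w x) :
    IsIntegral ℤ ((Dn q w x : k) * Mat q (fun h => (W h : k)) w x r c) := by
  classical
  obtain ⟨a, j⟩ := r
  have hx : 1 ≤ x := by
    rcases Nat.eq_zero_or_pos x with h | h
    · have h1 := a.2
      have h2 : w * x = 0 := by rw [h, mul_zero]
      omega
    · exact h
  have hW : ∀ h, IsIntegral ℤ (wg q (fun h => (W h : k)) h) := by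
    intro h
    unfold wg
    split_ifs
    · exact isIntegral_zero
    · exact (W (h % q)).isIntegral_coe
  rw [Dn, Nat.cast_mul, Nat.cast_pow]
  rcases c with ⟨e, i⟩ | ⟨c, i⟩
  · simp only [Mat]
    rw [coeff_mul_X_pow']
    split_ifs with h
    · have h1 := (CI_PB (F := k) hx a.val i.val).coeff (V := w ^ 3) (i := j.val - e.val) (by omega)
      have : (Nat.lcmUpto x : k) ^ (w ^ 3) *
          ((∏ k ∈ range (w ^ 3), Nat.lcmUpto (q * w * (w * x) / (k + 1)) : ℕ) : k) *
          (((PB k x i.val).comp (X + C ((a.val : ℕ) : k))).coeff (j.val - e.val)) =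
          ((∏ k ∈ range (w ^ 3), Nat.lcmUpto (q * w * (w * x) / (k + 1)) : ℕ) : k) *
          ((Nat.lcmUpto x : k) ^ (w ^ 3) *
          (((PB k x i.val).comp (X + C ((a.val : ℕ) : k))).coeff (j.val - e.val))) := by ring
      rw [this]
      exact (int_nat _).mul h1
    · rw [mul_zero]
      exact isIntegral_zero
  · simp only [Mat]
    rw [coeff_mul, mul_sum]
    refine IsIntegral.sum _ fun y hy => ?_
    have hy' := mem_antidiagonal.1 hy
    have hj := j.2
    have h1 := (CI_PB (F := k) hx a.val i.val).coeff (V := w ^ 3) (i := y.1) (by omega)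
    have h2 : IsIntegral ℤ (((∏ k ∈ range (w ^ 3), Nat.lcmUpto (q * w * (w * x) / (k + 1)) : ℕ) : k) *
        (RR q (fun h => (W h : k)) (w * x) (c.val + 1) a.val).coeff y.2) := by
      rw [RR, coeff_C_mul, finsetSum_coeff, mul_sum, mul_sum]
      refine IsIntegral.sum _ fun h hh => ?_
      obtain ⟨hh1, hh2⟩ := mem_Ioo.1 hh
      rw [coeff_C_mul]
      have hs : q * (c.val + 1) * a.val - h < q * (c.val + 1) * (w * x) := by
        have : q * (c.val + 1) * a.val ≤ q * (c.val + 1) * (w * x) := Nat.mul_le_mul_left _ a.2.le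
        omega
      have hP : (∏ k ∈ range (y.2 + 1), Nat.lcmUpto (q * (c.val + 1) * (w * x) / (k + 1))) ∣
          ∏ k ∈ range (w ^ 3), Nat.lcmUpto (q * w * (w * x) / (k + 1)) := by
        refine dvd_trans (prod_dvd_prod_of_dvd _ _ fun k _ => ?_)
          (prod_dvd_prod_of_subset _ _ _ (range_subset_range.2 (by omega : y.2 + 1 ≤ w ^ 3)))
        refine lcmUpto_mono (Nat.div_le_div_right ?_)
        exact Nat.mul_le_mul_right _ (Nat.mul_le_mul_left _ (by have := c.2; omega))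
      have h3 := int_prod (F := k) q (c.val + 1) (w * x) a.val _ y.2 _ hs hP
      have : ((∏ k ∈ range (w ^ 3), Nat.lcmUpto (q * w * (w * x) / (k + 1)) : ℕ) : k) *
          ((((q * (c.val + 1) * (w * x)).factorial : k))⁻¹ *
          (wg q (fun h => (W h : k)) h *
          (∏ k' ∈ (range (q * (c.val + 1) * (w * x))).erase (q * (c.val + 1) * a.val - h),
            (C ((q * (c.val + 1) : ℕ) : k) * (X + C ((a.val : ℕ) : k)) - C (k' : k))).coeff y.2)) =
          wg q (fun h => (W h : k)) h *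
          (((∏ k ∈ range (w ^ 3), Nat.lcmUpto (q * w * (w * x) / (k + 1)) : ℕ) : k) *
          ((((q * (c.val + 1) * (w * x)).factorial : k))⁻¹ *
          (∏ k' ∈ (range (q * (c.val + 1) * (w * x))).erase (q * (c.val + 1) * a.val - h),
            (C ((q * (c.val + 1) : ℕ) : k) * (X + C ((a.val : ℕ) : k)) - C (k' : k))).coeff y.2)) := by
        ring
      rw [this]
      exact (hW h).mul h3
    have : (Nat.lcmUpto x : k) ^ (w ^ 3) *
        ((∏ k ∈ range (w ^ 3), Nat.lcmUpto (q * w * (w * x) / (k + 1)) : ℕ) : k) *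
        ((((PB k x i.val).comp (X + C ((a.val : ℕ) : k))).coeff y.1) *
        (RR q (fun h => (W h : k)) (w * x) (c.val + 1) a.val).coeff y.2) =
        ((Nat.lcmUpto x : k) ^ (w ^ 3) *
        (((PB k x i.val).comp (X + C ((a.val : ℕ) : k))).coeff y.1)) *
        (((∏ k ∈ range (w ^ 3), Nat.lcmUpto (q * w * (w * x) / (k + 1)) : ℕ) : k) *
        (RR q (fun h => (W h : k)) (w * x) (c.val + 1) a.val).coeff y.2) := by ring
    rw [this]
    exact h1.mul h2

end H22GW

end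

section

/-!
# The kernel of the matrix of jets modulo a bad prime, in general form

`F` a field, `Z = X^P - 1`, polynomials `Λ c` of degree `≤ P` with vanishing coefficients in `[E, W)`,
blocks `Π c`, shifts `s a` and polynomials `R c a` with
`Π_c(X+s_a) (Z(X) Λ_c(X+s_a) - Z(X+s_a) Λ_c(X)) = Z(X) Z(X+s_a) R_{c,a}(X)`.  The matrix of the conditions
`∑_e C_e(s_a+y) y^e + ∑_c B'_c(s_a+y) R_{c,a}(y) = O(y^W)` (`a < m`, `deg C_e < n`, `deg B'_c < n_c`) has a
kernel of dimension at least `∑ n_c - P` (`ker_gen`).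
-/

namespace H65FD

open Finset Polynomial

theorem kg_exists {F : Type*} [Field F] (P : ℕ → F[X]) :
    ∀ N : ℕ, (∀ i < N, (P i).degree = (i : ℕ)) → ∀ Q : F[X], Q.degree < (N : ℕ) →
      ∃ c : ℕ → F, Q = ∑ i ∈ range N, C (c i) * P i := by
  intro N
  induction N with
  | zero =>
    intro _ Q hQ
    refine ⟨fun _ => 0, ?_⟩
    rw [range_zero, sum_empty]
    rw [Nat.cast_zero] at hQ
    exact degree_eq_bot.1 ((Nat.WithBot.lt_zero_iff).1 hQ)
  | succ N ih =>
    intro hP Q hQ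
    have hPN : (P N).degree = (N : ℕ) := hP N (Nat.lt_succ_self N)
    have hPc : (P N).coeff N ≠ 0 := by
      have h0 : (P N).natDegree = N := natDegree_eq_of_degree_eq_some hPN
      intro h1
      have h2 : (P N).leadingCoeff = 0 := by rw [leadingCoeff, h0, h1]
      rw [leadingCoeff_eq_zero] at h2
      rw [h2, degree_zero] at hPN
      exact absurd hPN (WithBot.bot_ne_natCast N)
    have hQ' : (Q - C (Q.coeff N / (P N).coeff N) * P N).degree < (N : ℕ) := by
      rw [degree_lt_iff_coeff_zero]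
      intro m hm
      rw [coeff_sub, coeff_C_mul]
      rcases Nat.eq_or_lt_of_le hm with h | h
      · rw [← h, div_mul_cancel₀ _ hPc, sub_self]
      · have h1 : Q.coeff m = 0 :=
          coeff_eq_zero_of_degree_lt (lt_of_lt_of_le hQ (by exact_mod_cast h))
        have h2 : (P N).coeff m = 0 :=
          coeff_eq_zero_of_degree_lt (by rw [hPN]; exact_mod_cast h)
        rw [h1, h2, mul_zero, sub_zero]
    obtain ⟨c, hc⟩ := ih (fun i hi => hP i (by omega)) _ hQ'
    refine ⟨fun i => if i = N then Q.coeff N / (P N).coeff N else c i, ?_⟩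
    rw [sum_range_succ]
    beta_reduce
    rw [if_pos rfl]
    have h1 : ∑ i ∈ range N, C (if i = N then Q.coeff N / (P N).coeff N else c i) * P i
        = ∑ i ∈ range N, C (c i) * P i := by
      refine sum_congr rfl fun i hi => ?_
      rw [if_neg (by rw [mem_range] at hi; omega)]
    rw [h1, ← hc]
    ring

/-- the matrix of the conditions -/
noncomputable def KMat {F : Type*} [Field F] (E K n m W : ℕ) (nc : Fin K → ℕ) (Q : ℕ → F[X])
    (s : ℕ → F) (R : Fin K → ℕ → F[X]) :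
    Matrix (Fin m × Fin W) ((Fin E × Fin n) ⊕ (Σ c : Fin K, Fin (nc c))) F := fun r c =>
  match c with
  | Sum.inl (e, i) => ((Q i).comp (X + C (s r.1.val)) * X ^ e.val).coeff r.2.val
  | Sum.inr ⟨c, i⟩ => ((Q i).comp (X + C (s r.1.val)) * R c r.1.val).coeff r.2.val

theorem kg_row {F : Type*} [Field F] (E K n m W : ℕ) (nc : Fin K → ℕ) (Q : ℕ → F[X])
    (s : ℕ → F) (R : Fin K → ℕ → F[X]) (v : (Fin E × Fin n) ⊕ (Σ c : Fin K, Fin (nc c)) → F)
    (r : Fin m × Fin W) :
    (KMat E K n m W nc Q s R).mulVec v r =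
      (∑ e : Fin E, (∑ j : Fin n, C (v (Sum.inl (e, j))) * Q j).comp (X + C (s r.1.val)) * X ^ e.val +
        ∑ c : Fin K, (∑ j : Fin (nc c), C (v (Sum.inr ⟨c, j⟩)) * Q j).comp (X + C (s r.1.val)) *
            R c r.1.val).coeff r.2.val := by
  rw [Matrix.mulVec, dotProduct, Fintype.sum_sum_type, Fintype.sum_prod_type, Fintype.sum_sigma,
    coeff_add, finsetSum_coeff, finsetSum_coeff]
  congr 1
  · refine sum_congr rfl fun e _ => ?_
    rw [Polynomial.sum_comp, sum_mul, finsetSum_coeff]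
    refine sum_congr rfl fun j _ => ?_
    rw [mul_comp, C_comp, mul_assoc, coeff_C_mul, mul_comm]
    rfl
  · refine sum_congr rfl fun c _ => ?_
    rw [Polynomial.sum_comp, sum_mul, finsetSum_coeff]
    refine sum_congr rfl fun j _ => ?_
    rw [mul_comp, C_comp, mul_assoc, coeff_C_mul, mul_comm]
    rfl

/-- coefficients of `B L` below `W` only depend on the coefficients of `L` below `W` -/
theorem kg_coeff_mul {F : Type*} [Field F] (B L L' : F[X]) (W i : ℕ) (hi : i < W)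
    (h : ∀ j < W, L.coeff j = L'.coeff j) : (B * L).coeff i = (B * L').coeff i := by
  rw [coeff_mul, coeff_mul]
  refine sum_congr rfl fun q hq => ?_
  rw [HasAntidiagonal.mem_antidiagonal] at hq
  rw [h q.2 (by omega)]

/-- the solution of the conditions attached to `B'` with `Z ∣ U` -/
theorem kg_key {F : Type*} [Field F] (E K n m W P : ℕ) (hE : 1 ≤ E) (hW : 1 ≤ W) (hWP : W ≤ P)
    (nc : Fin K → ℕ) (Pi Λ : Fin K → F[X]) (s : ℕ → F) (R : Fin K → ℕ → F[X])
    (hPi : ∀ c, 0 < nc c → (Pi c).natDegree + nc c ≤ n) (hΛ : ∀ c, (Λ c).natDegree ≤ P)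
    (hlow : ∀ c j, E ≤ j → j < W → (Λ c).coeff j = 0)
    (hs : ∀ c, ∀ a < m, (Pi c).comp (X + C (s a)) *
      ((X ^ P - 1) * (Λ c).comp (X + C (s a)) - ((X + C (s a)) ^ P - 1) * Λ c) =
        (X ^ P - 1) * ((X + C (s a)) ^ P - 1) * R c a)
    (B : Fin K → F[X]) (hB : ∀ c, (B c).degree < ((nc c : ℕ) : WithBot ℕ))
    (hU : (X ^ P - 1 : F[X]) ∣ ∑ c, Pi c * B c * Λ c) :
    ∃ A : Fin E → F[X], (∀ e, (A e).degree < ((n : ℕ) : WithBot ℕ)) ∧
      ∀ a < m, ∀ i < W,
        (∑ e : Fin E, (A e).comp (X + C (s a)) * X ^ e.val +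
          ∑ c, (B c).comp (X + C (s a)) * R c a).coeff i = 0 := by
  obtain ⟨G, hG⟩ := hU
  obtain ⟨Bc, hBc⟩ : ∃ Bc : Fin K → F[X], ∀ c, Bc c = Pi c * B c := ⟨_, fun _ => rfl⟩
  have hP0 : 0 < P := by omega
  have hBcd : ∀ c, (Bc c).degree < ((n : ℕ) : WithBot ℕ) := by
    intro c
    by_cases h0 : B c = 0
    · rw [hBc, h0, mul_zero, degree_zero]
      exact WithBot.bot_lt_natCast _
    · have h1 := hB c
      rw [degree_eq_natDegree h0] at h1
      have h2 : (B c).natDegree < nc c := by exact_mod_cast h1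
      have h3 := hPi c (by omega)
      have h5 : (Bc c).natDegree < n := by
        rw [hBc]
        refine lt_of_le_of_lt natDegree_mul_le ?_
        omega
      exact lt_of_le_of_lt degree_le_natDegree (by exact_mod_cast h5)
  have hX1 : (X ^ P - 1 : F[X]).degree = ((P : ℕ) : WithBot ℕ) := by
    rw [← C_1]
    exact degree_X_pow_sub_C hP0 1
  have hGd : G.degree < ((n : ℕ) : WithBot ℕ) := by
    by_cases h0 : G = 0
    · rw [h0, degree_zero]
      exact WithBot.bot_lt_natCast _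
    · have h1 : ((X ^ P - 1 : F[X]) * G) ∈ degreeLT F (n + P) := by
        rw [← hG]
        refine Submodule.sum_mem _ fun c _ => ?_
        rw [mem_degreeLT, ← hBc]
        by_cases h2 : Bc c = 0
        · rw [h2, zero_mul, degree_zero]
          exact WithBot.bot_lt_natCast _
        · have h3 := hBcd c
          rw [degree_eq_natDegree h2] at h3
          have h4 : (Bc c).natDegree < n := by exact_mod_cast h3
          have h5 := hΛ c
          have h7 : (Bc c * Λ c).natDegree < n + P := by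
            refine lt_of_le_of_lt natDegree_mul_le ?_
            omega
          exact lt_of_le_of_lt degree_le_natDegree (by exact_mod_cast h7)
      rw [mem_degreeLT, degree_mul, hX1, degree_eq_natDegree h0] at h1
      rw [degree_eq_natDegree h0]
      have h2 : P + G.natDegree < n + P := by exact_mod_cast h1
      exact_mod_cast (by omega : G.natDegree < n)
  refine ⟨fun e => (if e.val = 0 then -G else 0) - ∑ c, C ((Λ c).coeff e.val) * Bc c,
    fun e => ?_, fun a ha i hi => ?_⟩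
  · rw [← mem_degreeLT]
    refine Submodule.sub_mem _ ?_ ?_
    · split_ifs with h
      · exact Submodule.neg_mem _ (mem_degreeLT.2 hGd)
      · exact Submodule.zero_mem _
    · refine Submodule.sum_mem _ fun c _ => ?_
      rw [← smul_eq_C_mul]
      exact Submodule.smul_mem _ _ (mem_degreeLT.2 (hBcd c))
  · obtain ⟨z, hz⟩ : ∃ z : F[X], z = X + C (s a) := ⟨_, rfl⟩
    have hTa : (z ^ P - 1 : F[X]) ≠ 0 := by
      intro h0
      have h1 : z.degree = 1 := by rw [hz]; exact degree_X_add_C _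
      have h2 : (z ^ P).degree = ((P : ℕ) : WithBot ℕ) := by
        rw [degree_pow, h1, nsmul_one]
      rw [sub_eq_zero.1 h0, degree_one] at h2
      have h3 : (0 : ℕ) = P := by exact_mod_cast h2
      omega
    have hUc : (z ^ P - 1) * G.comp z = ∑ c, (Bc c).comp z * (Λ c).comp z := by
      have h1 := congrArg (fun q : F[X] => q.comp z) hG
      beta_reduce at h1
      rw [mul_comp, sub_comp, pow_comp, X_comp, one_comp] at h1
      rw [← h1, Polynomial.sum_comp]
      refine sum_congr rfl fun c _ => ?_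
      rw [← hBc, mul_comp]
    have hE1 : (X ^ P - 1) * G.comp z - ∑ c, (Bc c).comp z * Λ c
        = (X ^ P - 1) * ∑ c, (B c).comp z * R c a := by
      refine mul_left_cancel₀ hTa ?_
      have h1 : (z ^ P - 1) * ((X ^ P - 1) * G.comp z - ∑ c, (Bc c).comp z * Λ c)
          = (X ^ P - 1) * ((z ^ P - 1) * G.comp z) - (z ^ P - 1) *
            ∑ c, (Bc c).comp z * Λ c := by ring
      rw [h1, hUc, mul_sum, mul_sum, ← sum_sub_distrib, mul_sum, mul_sum]
      refine sum_congr rfl fun c _ => ?_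
      have h2 := hs c a ha
      rw [← hz] at h2
      rw [hBc, mul_comp]
      linear_combination (B c).comp z * h2
    have hcf : ∀ Q : F[X], ((X ^ P - 1) * Q).coeff i = - Q.coeff i := by
      intro Q
      rw [sub_mul, one_mul, coeff_sub, coeff_X_pow_mul', if_neg (by omega), zero_sub]
    have hE2 := congrArg (fun q : F[X] => q.coeff i) hE1
    beta_reduce at hE2
    rw [coeff_sub, hcf, hcf] at hE2
    have hlow' : (∑ c, (Bc c).comp z * Λ c).coeff i
        = (∑ c, (Bc c).comp z * ∑ e : Fin E, C ((Λ c).coeff e.val) * X ^ e.val).coeff i := by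
      rw [finsetSum_coeff, finsetSum_coeff]
      refine sum_congr rfl fun c _ => ?_
      refine kg_coeff_mul _ _ _ W i hi fun j hj => ?_
      rw [finsetSum_coeff]
      by_cases hjw : j < E
      · rw [sum_eq_single (⟨j, hjw⟩ : Fin E)]
        · rw [coeff_C_mul_X_pow, if_pos rfl]
        · intro b _ hb
          rw [coeff_C_mul_X_pow, if_neg]
          intro h
          exact hb (Fin.ext h.symm)
        · intro h
          exact absurd (mem_univ _) h
      · rw [hlow c j (not_lt.1 hjw) hj]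
        symm
        refine sum_eq_zero fun b _ => ?_
        rw [coeff_C_mul_X_pow, if_neg]
        have := b.isLt
        omega
    rw [← hz]
    have hfin : ∑ e : Fin E, ((if e.val = 0 then -G else 0) -
        ∑ c, C ((Λ c).coeff e.val) * Bc c).comp z * X ^ e.val
        = - G.comp z - ∑ c, (Bc c).comp z * ∑ e : Fin E, C ((Λ c).coeff e.val) * X ^ e.val := by
      have h1 : ∑ c, (Bc c).comp z * ∑ e : Fin E, C ((Λ c).coeff e.val) * X ^ e.val
          = ∑ e : Fin E, (∑ c, C ((Λ c).coeff e.val) * (Bc c).comp z) * X ^ e.val := by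
        simp only [mul_sum, sum_mul]
        rw [sum_comm]
        refine sum_congr rfl fun e _ => sum_congr rfl fun c _ => ?_
        ring
      have h2 : ∑ e : Fin E, (if e.val = 0 then -G else 0).comp z * X ^ e.val = - G.comp z := by
        rw [sum_eq_single (⟨0, by omega⟩ : Fin E)]
        · rw [if_pos rfl, neg_comp, pow_zero, mul_one]
        · intro b _ hb
          rw [if_neg, zero_comp, zero_mul]
          intro h
          exact hb (Fin.ext h)
        · intro h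
          exact absurd (mem_univ _) h
      rw [h1, ← h2, ← sum_sub_distrib]
      refine sum_congr rfl fun e _ => ?_
      rw [sub_comp, Polynomial.sum_comp, sub_mul]
      congr 3
      funext c
      rw [mul_comp, C_comp]
    rw [hfin, coeff_add, coeff_sub, coeff_neg]
    rw [hlow'] at hE2
    linear_combination hE2

theorem ker_gen {F : Type*} [Field F] (E K n m W P : ℕ) (hE : 1 ≤ E) (hW : 1 ≤ W) (hWP : W ≤ P)
    (nc : Fin K → ℕ) (hnc : ∀ c, nc c ≤ n) (Q : ℕ → F[X]) (hQ : ∀ i < n, (Q i).degree = (i : ℕ))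
    (Pi Λ : Fin K → F[X]) (s : ℕ → F) (R : Fin K → ℕ → F[X])
    (hPi : ∀ c, 0 < nc c → (Pi c).natDegree + nc c ≤ n) (hΛ : ∀ c, (Λ c).natDegree ≤ P)
    (hlow : ∀ c j, E ≤ j → j < W → (Λ c).coeff j = 0)
    (hs : ∀ c, ∀ a < m, (Pi c).comp (X + C (s a)) *
      ((X ^ P - 1) * (Λ c).comp (X + C (s a)) - ((X + C (s a)) ^ P - 1) * Λ c) =
        (X ^ P - 1) * ((X + C (s a)) ^ P - 1) * R c a) :
    ∑ c, nc c ≤ Module.finrank F (LinearMap.ker (KMat E K n m W nc Q s R).mulVecLin) + P := by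
  classical
  have hP0 : 0 < P := by omega
  -- the map `u ↦ U`
  let L : ((Σ c : Fin K, Fin (nc c)) → F) →ₗ[F] F[X] :=
    { toFun := fun u => ∑ c, Pi c * (∑ j : Fin (nc c), C (u ⟨c, j⟩) * Q j) * Λ c
      map_add' := fun u v => by
        rw [← sum_add_distrib]
        refine sum_congr rfl fun c _ => ?_
        rw [← add_mul, ← mul_add, ← sum_add_distrib]
        congr 2
        refine sum_congr rfl fun j _ => ?_
        rw [_root_.Pi.add_apply, C_add, add_mul]
      map_smul' := fun r u => by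
        rw [RingHom.id_apply, smul_sum]
        refine sum_congr rfl fun c _ => ?_
        rw [← smul_mul_assoc, ← mul_smul_comm, smul_sum]
        congr 2
        refine sum_congr rfl fun j _ => ?_
        rw [_root_.Pi.smul_apply, smul_eq_mul, C_mul, smul_eq_C_mul, mul_assoc] }
  let ρ : ((Σ c : Fin K, Fin (nc c)) → F) →ₗ[F] (Fin P → F) :=
    LinearMap.pi fun j => (lcoeff F j.val).comp ((modByMonicHom (X ^ P - 1 : F[X])).comp L)
  have hZm : (X ^ P - 1 : F[X]).Monic := by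
    rw [← C_1]
    exact monic_X_pow_sub_C 1 hP0.ne'
  have hZd : (X ^ P - 1 : F[X]).degree = ((P : ℕ) : WithBot ℕ) := by
    rw [← C_1]
    exact degree_X_pow_sub_C hP0 1
  have hρ : ∀ u, ρ u = 0 → (X ^ P - 1 : F[X]) ∣ L u := by
    intro u hu
    rw [← modByMonic_eq_zero_iff_dvd hZm]
    ext k
    rw [coeff_zero]
    by_cases hk : k < P
    · exact congrFun hu ⟨k, hk⟩
    · refine coeff_eq_zero_of_degree_lt ?_
      refine lt_of_lt_of_le (degree_modByMonic_lt _ hZm) ?_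
      rw [hZd]
      exact_mod_cast not_lt.1 hk
  have hle : LinearMap.ker ρ ≤ (LinearMap.ker (KMat E K n m W nc Q s R).mulVecLin).map
      (LinearMap.funLeft F F Sum.inr) := by
    intro u hu
    rw [LinearMap.mem_ker] at hu
    obtain ⟨A, hA, hA2⟩ := kg_key E K n m W P hE hW hWP nc Pi Λ s R hPi hΛ hlow hs
      (fun c => ∑ j : Fin (nc c), C (u ⟨c, j⟩) * Q j) (fun c => by
        rw [← mem_degreeLT]
        refine Submodule.sum_mem _ fun j _ => ?_
        rw [← smul_eq_C_mul]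
        refine Submodule.smul_mem _ _ ?_
        rw [mem_degreeLT, hQ j.val (lt_of_lt_of_le j.isLt (hnc c))]
        exact_mod_cast j.isLt) (hρ u hu)
    have hco : ∀ e : Fin E, ∃ q : ℕ → F, A e = ∑ i ∈ range n, C (q i) * Q i :=
      fun e => kg_exists Q n hQ (A e) (hA e)
    choose q hq using hco
    refine Submodule.mem_map.2 ⟨Sum.elim (fun t => q t.1 t.2.val) u, ?_, ?_⟩
    · rw [LinearMap.mem_ker]
      funext r
      rw [Matrix.mulVecLin_apply, kg_row, _root_.Pi.zero_apply]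
      have h1 := hA2 r.1.val r.1.isLt r.2.val r.2.isLt
      rw [← h1]
      congr 2
      refine sum_congr rfl fun e _ => ?_
      rw [hq e, ← Fin.sum_univ_eq_sum_range (fun i => C (q e i) * Q i)]
      rfl
    · funext t
      rfl
  have h1 : Module.finrank F (LinearMap.ker ρ) ≤
      Module.finrank F (LinearMap.ker (KMat E K n m W nc Q s R).mulVecLin) :=
    (Submodule.finrank_mono hle).trans (Submodule.finrank_map_le _ _)
  have h2 := LinearMap.finrank_range_add_finrank_ker ρ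
  have h3 : Module.finrank F (LinearMap.range ρ) ≤ P := by
    have h4 := Submodule.finrank_le (LinearMap.range ρ)
    rwa [Module.finrank_fintype_fun_eq_card, Fintype.card_fin] at h4
  rw [Module.finrank_fintype_fun_eq_card, Fintype.card_sigma] at h2
  have h5 : ∑ c : Fin K, Fintype.card (Fin (nc c)) = ∑ c, nc c :=
    sum_congr rfl fun c _ => Fintype.card_fin _
  rw [h5] at h2
  omega

end H65FD

end

section

/-!
# GW KerMod (port of OD KerMod; the linear algebra is `H65FD.ker_gen`)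
-/

namespace H22GW

open Finset Polynomial

private theorem km_bn_degree {F : Type*} [Field F] (N : ℕ) (h : (N.factorial : F) ≠ 0) :
    (bn F N).degree = (N : ℕ) := by
  unfold bn
  rw [degree_C_mul (inv_ne_zero h), degree_prod]
  simp only [degree_X_sub_C, sum_const, card_range, nsmul_one]

private theorem km_PB_degree {F : Type*} [Field F] (x i : ℕ) (hx : 0 < x)
    (h : ∀ N ≤ x, (N.factorial : F) ≠ 0) : (PB F x i).degree = (i : ℕ) := by
  unfold PB
  rw [degree_mul, degree_pow, km_bn_degree x (h x le_rfl),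
    km_bn_degree (i % x) (h _ (Nat.mod_lt i hx).le), nsmul_eq_mul, ← Nat.cast_mul, ← Nat.cast_add,
    Nat.div_add_mod' i x]

private theorem km_mat {F : Type*} [Field F] (q : ℕ) (W : ℕ → F) (w x : ℕ) :
    Mat q W w x = H65FD.KMat w w (w ^ 3 / 4 * x) (w * x) (w ^ 3)
      (fun c => w ^ 3 / 4 * x - q * (c.val + 1) * (w * x)) (PB F x) (fun a => ((a : ℕ) : F))
      (fun c a => RR q W (w * x) (c.val + 1) a) := by
  funext r c
  rcases c with ⟨e, i⟩ | ⟨c, i⟩
  · rfl
  · rfl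

theorem ker_mod {Ω : Type*} [Field Ω] (p : ℕ) [Fact p.Prime] [CharP Ω p] (q : ℕ) (hq : 1 ≤ q)
    (W : ℕ → Ω) (Lam : Polynomial Ω) (hL : LamOK p q W Lam) (w x : ℕ) (hw : 2 ≤ w)
    (hp : q * w * (w * x) < p) (hx : x < p) (hpw : w ^ 3 + 2 ≤ p)
    (hE : ∀ j : ℕ, w ≤ j → j < w ^ 3 → Lam.coeff j = 0) :
    ∑ c ∈ range w, (w ^ 3 / 4 * x - q * (c + 1) * (w * x)) + 1 ≤
      Module.finrank Ω (LinearMap.ker (Mat q W w x).mulVecLin) + p := by
  have hfac : ∀ N < p, ((N.factorial : ℕ) : Ω) ≠ 0 := by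
    intro N hN h0
    rw [CharP.cast_eq_zero_iff Ω p] at h0
    exact absurd ((Nat.Prime.dvd_factorial Fact.out).1 h0) (not_le.2 hN)
  have hN : ∀ c : Fin w, q * (c.val + 1) * (w * x) < p := fun c =>
    lt_of_le_of_lt (Nat.mul_le_mul_right _ (Nat.mul_le_mul_left _ c.isLt)) hp
  have hCX : ∀ r : Ω, (C r * X : Polynomial Ω).natDegree ≤ 1 := fun r =>
    (natDegree_C_mul_le _ _).trans natDegree_X_le
  have h := H65FD.ker_gen w w (w ^ 3 / 4 * x) (w * x) (w ^ 3) (p - 1) (by omega)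
    (Nat.one_le_iff_ne_zero.2 (pow_ne_zero _ (by omega))) (by omega)
    (fun c => w ^ 3 / 4 * x - q * (c.val + 1) * (w * x)) (fun c => Nat.sub_le _ _) (PB Ω x)
    (fun i hi => by
      have hx0 : 0 < x := by
        rcases Nat.eq_zero_or_pos x with h | h
        · rw [h, mul_zero] at hi
          omega
        · exact h
      exact km_PB_degree x i hx0 fun N hN => hfac N (lt_of_le_of_lt hN hx))
    (fun c => (bn Ω (q * (c.val + 1) * (w * x))).comp (C ((q * (c.val + 1) : ℕ) : Ω) * X))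
    (fun c => Lam.comp (C ((c.val + 1 : ℕ) : Ω) * X)) (fun a => ((a : ℕ) : Ω))
    (fun c a => RR q W (w * x) (c.val + 1) a)
    (fun c hc => by
      have h3 : (bn Ω (q * (c.val + 1) * (w * x))).natDegree = q * (c.val + 1) * (w * x) :=
        natDegree_eq_of_degree_eq_some (km_bn_degree _ (hfac _ (hN c)))
      have h4 : ((bn Ω (q * (c.val + 1) * (w * x))).comp
          (C ((q * (c.val + 1) : ℕ) : Ω) * X)).natDegree ≤ q * (c.val + 1) * (w * x) := by
        refine natDegree_comp_le.trans ?_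
        rw [h3]
        exact (Nat.mul_le_mul_left _ (hCX _)).trans (mul_one _).le
      omega)
    (fun c => by
      refine natDegree_comp_le.trans ?_
      exact (Nat.mul_le_mul hL.1.le (hCX _)).trans (mul_one _).le)
    (fun c j h1 h2 => by
      rw [comp_C_mul_X_coeff, hE j h1 h2, zero_mul])
    (fun c a ha => by
      have h2 := lam_shift p q hq W Lam hL (w * x) (c.val + 1) a (by omega) ha (hN c)
      rw [comp_assoc, comp_assoc, mul_comp, mul_comp, C_comp, C_comp, X_comp]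
      exact h2)
  rw [← km_mat] at h
  have h5 : ∑ c : Fin w, (w ^ 3 / 4 * x - q * (c.val + 1) * (w * x))
      = ∑ c ∈ range w, (w ^ 3 / 4 * x - q * (c + 1) * (w * x)) :=
    Fin.sum_univ_eq_sum_range (fun c => w ^ 3 / 4 * x - q * (c + 1) * (w * x)) w
  have h6 : ∑ c ∈ range w, (w ^ 3 / 4 * x - q * (c + 1) * (w * x)) ≤
      Module.finrank Ω (LinearMap.ker (Mat q W w x).mulVecLin) + (p - 1) := by
    rw [← h5]
    exact h
  have hp1 : 1 ≤ p := by omega
  omega

end H22GW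

end

section

/-!
# GW Ind: the functions `ρ_c = ∑_{0<h<qc} wg_h/(qcX+h)`, `1 ≤ c ≤ w`, are linearly independent modulo the
differences `y(X+1) - y(X)`

Write the combination as `N/D`, `D` the product over the set of all the points `-h/(qc)`, in `(-1,0)`;
`telescope`: `N = 0`.  Evaluate `N` at `-h₀/(q c)`, `c` the largest index with nonzero coefficient and `h₀` the
least index with `W h₀ ≠ 0`: the other terms with this pole have `h (c+1) = h₀ (c'+1)`, `c' < c`, so `h < h₀`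
and `W h = 0`.
-/

namespace H22GW

open Finset Polynomial

/-- the points -/
noncomputable def indPt (q c h : ℕ) : ℚ := -(h : ℚ) / ((q * (c + 1) : ℕ) : ℚ)

open Classical in
/-- the set of the points -/
noncomputable def indA (q w : ℕ) : Finset ℚ :=
  (univ : Finset (Fin w)).biUnion fun c => (Ioo 0 (q * (c.val + 1))).image (indPt q c.val)

/-- the numerator -/
noncomputable def indN {F : Type*} [Field F] (q : ℕ) (W : ℕ → F) (w : ℕ) (β : Fin w → F) : F[X] :=
  ∑ c : Fin w, ∑ h ∈ Ioo 0 (q * (c.val + 1)),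
    C (β c * wg q W h / ((q * (c.val + 1) : ℕ) : F)) *
      ∏ a ∈ (indA q w).erase (indPt q c.val h), (X - C ((a : ℚ) : F))

theorem ind_mem (q w : ℕ) (c : Fin w) (h : ℕ) (hh : h ∈ Ioo 0 (q * (c.val + 1))) :
    indPt q c.val h ∈ indA q w := by
  classical
  unfold indA
  rw [mem_biUnion]
  exact ⟨c, mem_univ c, mem_image_of_mem _ hh⟩

theorem ind_cast_ne (F : Type*) [Field F] [CharZero F] {q : ℕ} (hq : 0 < q) (c : ℕ) :
    ((q * (c + 1) : ℕ) : F) ≠ 0 :=
  Nat.cast_ne_zero.2 (by positivity)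

theorem ind_range {q : ℕ} (hq : 0 < q) (w : ℕ) (a : ℚ) (ha : a ∈ indA q w) : -1 < a ∧ a < 0 := by
  classical
  unfold indA at ha
  rw [mem_biUnion] at ha
  obtain ⟨c, -, hc⟩ := ha
  rw [mem_image] at hc
  obtain ⟨h, hh, rfl⟩ := hc
  rw [mem_Ioo] at hh
  have h1 : (0 : ℚ) < (h : ℚ) := by exact_mod_cast hh.1
  have h2 : (h : ℚ) < ((q * (c.val + 1) : ℕ) : ℚ) := by exact_mod_cast hh.2
  have h3 : (0 : ℚ) < ((q * (c.val + 1) : ℕ) : ℚ) := by positivity
  unfold indPt
  constructor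
  · rw [lt_div_iff₀ h3]; linarith
  · rw [div_lt_iff₀ h3]; linarith

theorem ind_eq {F : Type*} [Field F] [CharZero F] {q : ℕ} (hq : 0 < q) (W : ℕ → F) (w : ℕ)
    (β : Fin w → F) :
    ∑ c : Fin w, algebraMap F[X] (FractionRing F[X]) (C (β c)) *
      (algebraMap F[X] (FractionRing F[X]) (numC q W c) /
        algebraMap F[X] (FractionRing F[X]) (denC F q c)) =
    algebraMap F[X] (FractionRing F[X]) (indN q W w β) /
      algebraMap F[X] (FractionRing F[X]) (∏ a ∈ indA q w, (X - C ((a : ℚ) : F))) := by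
  classical
  have hinj := IsFractionRing.injective F[X] (FractionRing F[X])
  have hne : ∀ P : F[X], P ≠ 0 → algebraMap F[X] (FractionRing F[X]) P ≠ 0 := fun P hP h0 =>
    hP (hinj (h0.trans (map_zero _).symm))
  unfold indN
  rw [map_sum, sum_div]
  refine sum_congr rfl fun c _ => ?_
  rw [map_sum, sum_div]
  have hcn := ind_cast_ne F hq c.val
  have hcnQ := ind_cast_ne ℚ hq c.val
  have hL : ∀ h : ℕ, (C ((q * (c.val + 1) : ℕ) : F) * X + C (h : F) : F[X]) =
      C ((q * (c.val + 1) : ℕ) : F) * (X - C ((indPt q c.val h : ℚ) : F)) := by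
    intro h
    have h1 : (h : F) = -(((q * (c.val + 1) : ℕ) : F) * ((indPt q c.val h : ℚ) : F)) := by
      have h2 : (h : ℚ) = -(((q * (c.val + 1) : ℕ) : ℚ) * indPt q c.val h) := by
        unfold indPt
        rw [mul_div_cancel₀ _ hcnQ, neg_neg]
      have h3 := congrArg (fun z : ℚ => (z : F)) h2
      simpa only [Rat.cast_natCast, Rat.cast_neg, Rat.cast_mul] using h3
    conv_lhs => rw [h1]
    rw [C_neg, C_mul]
    ring
  have hLne : ∀ h : ℕ, (C ((q * (c.val + 1) : ℕ) : F) * X + C (h : F) : F[X]) ≠ 0 := by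
    intro h
    rw [hL]
    exact mul_ne_zero (C_ne_zero.mpr hcn) (X_sub_C_ne_zero _)
  have hden : denC F q c = ∏ h ∈ Ioo 0 (q * (c.val + 1)),
      (C ((q * (c.val + 1) : ℕ) : F) * X + C (h : F)) := rfl
  have hnum : numC q W c = ∑ h ∈ Ioo 0 (q * (c.val + 1)), C (wg q W h) *
      ∏ k ∈ (Ioo 0 (q * (c.val + 1))).erase h,
        (C ((q * (c.val + 1) : ℕ) : F) * X + C (k : F)) := rfl
  rw [hden, hnum, map_sum, sum_div, mul_sum]
  refine sum_congr rfl fun h hh => ?_
  rw [← mul_prod_erase _ _ hh, ← mul_prod_erase _ _ (ind_mem q w c h hh)]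
  have e1 : algebraMap F[X] (FractionRing F[X]) (∏ k ∈ (Ioo 0 (q * (c.val + 1))).erase h,
        (C ((q * (c.val + 1) : ℕ) : F) * X + C (k : F))) ≠ 0 :=
    hne _ (prod_ne_zero_iff.mpr fun k _ => hLne k)
  have e2 : algebraMap F[X] (FractionRing F[X])
      (∏ a ∈ (indA q w).erase (indPt q c.val h), (X - C ((a : ℚ) : F))) ≠ 0 :=
    hne _ (prod_ne_zero_iff.mpr fun k _ => X_sub_C_ne_zero _)
  have e3 := hne _ (hLne h)
  have e4 := hne _ (X_sub_C_ne_zero ((indPt q c.val h : ℚ) : F))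
  have e5 : algebraMap F[X] (FractionRing F[X]) (C ((q * (c.val + 1) : ℕ) : F)) ≠ 0 :=
    hne _ (C_ne_zero.mpr hcn)
  rw [hL h, map_mul, map_mul, map_mul, map_mul, map_mul]
  have e6 : algebraMap F[X] (FractionRing F[X])
      (C (β c * wg q W h / ((q * (c.val + 1) : ℕ) : F)))
      = algebraMap F[X] (FractionRing F[X]) (C (β c)) *
        algebraMap F[X] (FractionRing F[X]) (C (wg q W h)) /
        algebraMap F[X] (FractionRing F[X]) (C ((q * (c.val + 1) : ℕ) : F)) := by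
    rw [eq_div_iff e5, ← map_mul, ← C_mul, div_mul_cancel₀ _ hcn, C_mul, map_mul]
  rw [e6]
  field_simp

theorem ind_deg {F : Type*} [Field F] {q : ℕ} (hq : 1 < q) (W : ℕ → F) (w : ℕ) (β : Fin w → F) :
    (indN q W w β).natDegree < (indA q w).card ∨ indN q W w β = 0 := by
  classical
  rcases Nat.eq_zero_or_pos w with h0 | h0
  · right
    subst h0
    unfold indN
    simp
  · left
    have hpos : 0 < (indA q w).card := by
      rw [card_pos]
      exact ⟨_, ind_mem q w ⟨0, h0⟩ 1 (by rw [mem_Ioo]; simp only [Nat.zero_add, Nat.mul_one]; omega)⟩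
    have h1 : (indN q W w β).natDegree ≤ (indA q w).card - 1 := by
      unfold indN
      refine natDegree_sum_le_of_forall_le _ _ fun c _ => ?_
      refine natDegree_sum_le_of_forall_le _ _ fun h hh => ?_
      refine (natDegree_C_mul_le _ _).trans ?_
      rw [natDegree_prod_of_monic _ _ (fun a _ => monic_X_sub_C _)]
      simp only [natDegree_X_sub_C, sum_const, smul_eq_mul, mul_one]
      rw [card_erase_of_mem (ind_mem q w c h hh)]
    omega

theorem ind_gw {F : Type*} [Field F] [CharZero F] (q : ℕ) (W : ℕ → F)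
    (hW : ∃ h, 0 < h ∧ h < q ∧ W h ≠ 0) (w : ℕ) (β : Fin w → F) (y : FractionRing F[X])
    (hy : Pool.Agent.H83.FD.shK F y - y = ∑ c, algebraMap F[X] (FractionRing F[X]) (C (β c)) *
      (algebraMap F[X] (FractionRing F[X]) (numC q W c) /
        algebraMap F[X] (FractionRing F[X]) (denC F q c))) : β = 0 := by
  classical
  -- the least index of a nonzero weight
  obtain ⟨h₀, ⟨hh₀, hh₀q, hWh₀⟩, hmin⟩ : ∃ h₀, (0 < h₀ ∧ h₀ < q ∧ W h₀ ≠ 0) ∧
      ∀ h, h < h₀ → ¬ (0 < h ∧ h < q ∧ W h ≠ 0) :=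
    ⟨Nat.find hW, Nat.find_spec hW, fun h hh => Nat.find_min hW hh⟩
  have hq : 0 < q := by omega
  have hq1 : 1 < q := by omega
  have hinj := IsFractionRing.injective F[X] (FractionRing F[X])
  have hne : ∀ P : F[X], P ≠ 0 → algebraMap F[X] (FractionRing F[X]) P ≠ 0 := fun P hP h0 =>
    hP (hinj (h0.trans (map_zero _).symm))
  -- the numerator is zero
  have hN : indN q W w β = 0 := by
    rw [ind_eq hq] at hy
    obtain ⟨P, Q, hQ, rfl⟩ := IsFractionRing.div_surjective (A := F[X]) y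
    have hQ0 : Q ≠ 0 := nonZeroDivisors.ne_zero hQ
    have hQ1 : Q.comp (X + C 1) ≠ 0 := Pool.Agent.H83.FD.comp_ne_zero' hQ0 1
    have hD : (∏ a ∈ indA q w, (X - C ((a : ℚ) : F)) : F[X]) ≠ 0 :=
      prod_ne_zero_iff.mpr fun a _ => X_sub_C_ne_zero _
    rw [map_div₀, Pool.Agent.H83.FD.shK_map, Pool.Agent.H83.FD.shK_map,
      div_sub_div _ _ (hne _ hQ1) (hne _ hQ0), div_eq_div_iff (mul_ne_zero (hne _ hQ1) (hne _ hQ0))
        (hne _ hD)] at hy
    apply telescope P Q (indN q W w β) (indA q w) hQ0 (ind_range hq w) (ind_deg hq1 W w β)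
    apply hinj
    rw [← C_1]
    simp only [map_mul, map_sub]
    linear_combination -hy
  by_contra hβ
  -- the largest index
  have hex : ∃ c₀ : Fin w, β c₀ ≠ 0 ∧ ∀ c, c₀ < c → β c = 0 := by
    have hne' : ((univ : Finset (Fin w)).filter fun c => β c ≠ 0).Nonempty := by
      obtain ⟨c, hc⟩ := Function.ne_iff.mp hβ
      exact ⟨c, by simpa using hc⟩
    obtain ⟨c₀, hc₀, hmax⟩ := exists_max_image _ (fun c => c) hne'
    refine ⟨c₀, (mem_filter.mp hc₀).2, fun c hc => ?_⟩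
    by_contra h
    exact absurd (hmax c (mem_filter.mpr ⟨mem_univ c, h⟩)) (not_le.mpr hc)
  obtain ⟨c₀, hc₀, hmax⟩ := hex
  set a₀ : ℚ := indPt q c₀.val h₀ with ha₀
  have h2mem : h₀ ∈ Ioo 0 (q * (c₀.val + 1)) := by
    rw [mem_Ioo]
    exact ⟨hh₀, hh₀q.trans_le (Nat.le_mul_of_pos_right q (Nat.succ_pos _))⟩
  have ha₀mem : a₀ ∈ indA q w := ind_mem q w c₀ h₀ h2mem
  have hev : ∀ a : ℚ, (∏ a' ∈ (indA q w).erase a, (X - C ((a' : ℚ) : F)) : F[X]).eval (a₀ : F) =
      if a = a₀ then ∏ a' ∈ (indA q w).erase a₀, ((a₀ : F) - (a' : F)) else 0 := by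
    intro a
    rw [eval_prod]
    split_ifs with h
    · rw [h]; exact prod_congr rfl fun a' _ => by simp
    · exact prod_eq_zero (mem_erase.mpr ⟨fun h' => h h'.symm, ha₀mem⟩) (by simp)
  have hsum := congrArg (eval (a₀ : F)) hN
  unfold indN at hsum
  rw [eval_finsetSum, eval_zero, sum_eq_single c₀, eval_finsetSum, sum_eq_single h₀] at hsum
  · rw [eval_mul, eval_C, hev, if_pos rfl] at hsum
    have hw2 : wg q W h₀ = W h₀ := by
      unfold wg
      rw [Nat.mod_eq_of_lt hh₀q, if_neg hh₀.ne']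
    rw [hw2] at hsum
    rcases mul_eq_zero.mp hsum with h | h
    · rw [div_eq_zero_iff] at h
      rcases h with h | h
      · rcases mul_eq_zero.mp h with h | h
        · exact hc₀ h
        · exact hWh₀ h
      · exact ind_cast_ne F hq c₀.val h
    · rw [prod_eq_zero_iff] at h
      obtain ⟨a', ha', h'⟩ := h
      exact (mem_erase.mp ha').1 (Rat.cast_injective (sub_eq_zero.mp h')).symm
  · intro h hh hne2
    rw [eval_mul, hev, if_neg, mul_zero]
    intro he
    apply hne2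
    rw [ha₀] at he
    unfold indPt at he
    have h3 := ind_cast_ne ℚ hq c₀.val
    rw [div_left_inj' h3, neg_inj] at he
    exact_mod_cast he
  · intro h
    exact absurd h2mem h
  · intro c _ hc
    rw [eval_finsetSum]
    refine sum_eq_zero fun h hh => ?_
    rw [eval_mul, eval_C, hev]
    rcases lt_or_gt_of_ne hc with hlt | hgt
    · split_ifs with he
      · rw [ha₀] at he
        unfold indPt at he
        have h3 := ind_cast_ne ℚ hq c₀.val
        have h4 := ind_cast_ne ℚ hq c.val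
        rw [div_eq_div_iff h4 h3, neg_mul, neg_mul, neg_inj] at he
        have h5 : h * (q * (c₀.val + 1)) = h₀ * (q * (c.val + 1)) := by exact_mod_cast he
        have h6 : c.val < c₀.val := hlt
        have h7 : h < h₀ := by
          by_contra h7
          push Not at h7
          have h8 : h₀ * (q * (c₀.val + 1)) ≤ h * (q * (c₀.val + 1)) := Nat.mul_le_mul_right _ h7
          have h9 : h₀ * (q * (c.val + 1)) < h₀ * (q * (c₀.val + 1)) :=
            Nat.mul_lt_mul_of_pos_left (Nat.mul_lt_mul_of_pos_left (by omega) hq) hh₀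
          omega
        rw [mem_Ioo] at hh
        have h8 : wg q W h = 0 := by
          unfold wg
          rw [Nat.mod_eq_of_lt (h7.trans hh₀q), if_neg hh.1.ne']
          by_contra h9
          exact hmin h h7 ⟨hh.1, h7.trans hh₀q, h9⟩
        rw [h8, mul_zero, zero_div, zero_mul]
      · rw [mul_zero]
    · rw [hmax c hgt, zero_mul, zero_div, zero_mul]
  · intro h
    exact absurd (mem_univ c₀) h

end H22GW

end

section

/-!
# FD AddMain: the additive zero estimate, assembly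
-/

set_option autoImplicit false

noncomputable section

open Polynomial Finset

namespace Pool.Agent.H83.FD

variable {F : Type*} [Field F]

/-- Polynomials as power series. -/
def kp (F : Type*) [Field F] : F[X] →+* PowerSeries F := coeToPowerSeries.ringHom

theorem kp_apply (P : F[X]) : kp F P = (P : PowerSeries F) := rfl

theorem kp_dvd {P : F[X]} {W : ℕ} (h : (PowerSeries.X : PowerSeries F) ^ W ∣ kp F P) : X ^ W ∣ P := by
  rw [X_pow_dvd_iff]
  intro d hd
  have h1 := PowerSeries.X_pow_dvd_iff.1 h d hd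
  rwa [kp_apply, coeff_coe] at h1

section Bord

variable {t : ℕ} {ι : Type*} [Fintype ι] [DecidableEq ι] (E : Fin t → F[X]) (β : Fin t → ι → F) (num den : ι → F[X])

/-- The last column in the power series ring. -/
theorem bN_tele (R : ι → ℕ → PowerSeries F) {m : ℕ}
    (hR : ∀ c a, a + 1 < m → kp F (sh (a : F) (den c)) * (R c (a + 1) - R c a) = kp F (sh (a : F) (num c)))
    {a i : ℕ} (hi : i ≤ t) (ha : a + i < m) :
    kp F (bN E β num den (a : F) i) = kp F (bQ t den (a : F)) * ∑ k, kp F (sh ((a : F) + (i : ℕ)) (E k)) *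
      ∑ c, kp F (C (β k c)) * (R c (a + i) - R c a) := by
  unfold bN
  rw [map_sum, mul_sum]
  refine sum_congr rfl fun k _ => ?_
  rw [map_mul, map_sum]
  have h1 : ∀ j ∈ range i, kp F (∑ c, C (β k c) * (sh ((a : F) + (j : ℕ)) (num c) * bE t den (a : F) c j)) =
      kp F (bQ t den (a : F)) * ∑ c, kp F (C (β k c)) * (R c (a + (j + 1)) - R c (a + j)) := by
    intro j hj
    rw [mem_range] at hj
    rw [map_sum, mul_sum]
    refine sum_congr rfl fun c _ => ?_
    have h2 := hR c (a + j) (by omega)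
    push_cast at h2
    rw [bQ_eq den (a : F) c (by omega : j < t), map_mul, map_mul, map_mul, ← add_assoc a j 1]
    linear_combination (-(kp F (C (β k c)) * kp F (bE t den (a : F) c j))) * h2
  rw [sum_congr rfl h1, ← mul_sum, sum_comm]
  have h3 : ∀ c, ∑ j ∈ range i, kp F (C (β k c)) * (R c (a + (j + 1)) - R c (a + j)) =
      kp F (C (β k c)) * (R c (a + i) - R c a) := by
    intro c
    rw [← mul_sum, Finset.sum_range_sub (fun j => R c (a + j)), add_zero]
  rw [sum_congr rfl fun c _ => h3 c]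
  ring

/-- Vanishing of the bordered determinant at the node `a`. -/
theorem bM_order (R : ι → ℕ → PowerSeries F) {m W : ℕ}
    (hR : ∀ c a, a + 1 < m → kp F (sh (a : F) (den c)) * (R c (a + 1) - R c a) = kp F (sh (a : F) (num c)))
    (g : Fin t → PowerSeries F)
    (hz : ∀ a < m, (PowerSeries.X : PowerSeries F) ^ W ∣
      ∑ k, kp F (sh (a : F) (E k)) * (g k + ∑ c, kp F (C (β k c)) * R c a)) {a : ℕ} (ha : a + t < m) :
    X ^ W ∣ (bM E β num den (a : F)).det := by
  apply kp_dvd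
  set M := (kp F).mapMatrix (bM E β num den (a : F)) with hM
  rw [RingHom.map_det, ← hM]
  set v : Fin (t + 1) → PowerSeries F :=
    Fin.snoc (α := fun _ => PowerSeries F) (fun k : Fin t => kp F (bQ t den (a : F)) *
      (g k + ∑ c, kp F (C (β k c)) * R c a)) 1 with hv
  have hrow : ∀ i, (PowerSeries.X : PowerSeries F) ^ W ∣ M.mulVec v i := by
    intro i
    have hi := i.isLt
    have h1 : M.mulVec v i = kp F (bQ t den (a : F)) * ∑ k, kp F (sh ((a + (i : ℕ) : ℕ) : F) (E k)) *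
        (g k + ∑ c, kp F (C (β k c)) * R c (a + i)) := by
      rw [Matrix.mulVec, dotProduct, Fin.sum_univ_castSucc]
      have h2 : ∀ k : Fin t, M i k.castSucc * v k.castSucc = kp F (sh ((a : F) + (i : ℕ)) (E k)) *
          (kp F (bQ t den (a : F)) * (g k + ∑ c, kp F (C (β k c)) * R c a)) := by
        intro k
        have h3 : M i k.castSucc = kp F (sh ((a : F) + (i : ℕ)) (E k)) := by
          show kp F (bM E β num den (a : F) i k.castSucc) = _
          unfold bM
          rw [Fin.snoc_castSucc]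
        have h4 : v k.castSucc = kp F (bQ t den (a : F)) * (g k + ∑ c, kp F (C (β k c)) * R c a) := by
          rw [hv, Fin.snoc_castSucc]
        rw [h3, h4]
      have h5 : M i (Fin.last t) * v (Fin.last t) = kp F (bN E β num den (a : F) i) := by
        have h3 : M i (Fin.last t) = kp F (bN E β num den (a : F) i) := by
          show kp F (bM E β num den (a : F) i (Fin.last t)) = _
          unfold bM
          rw [Fin.snoc_last]
        have h4 : v (Fin.last t) = 1 := by rw [hv, Fin.snoc_last]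
        rw [h3, h4, mul_one]
      rw [sum_congr rfl fun k _ => h2 k, h5, bN_tele E β num den R hR (by omega) (by omega), mul_sum, mul_sum,
        ← sum_add_distrib]
      refine sum_congr rfl fun k _ => ?_
      have h6 : ∑ c, kp F (C (β k c)) * (R c (a + i) - R c a) =
          ∑ c, kp F (C (β k c)) * R c (a + i) - ∑ c, kp F (C (β k c)) * R c a := by
        rw [← sum_sub_distrib]
        exact sum_congr rfl fun c _ => by ring
      rw [h6]
      push_cast
      ring
    rw [h1]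
    exact (hz (a + i) (by omega)).mul_left _
  have h1 : M.det * v (Fin.last t) = ∑ j, M.adjugate (Fin.last t) j * M.mulVec v j := by
    have h2 : M.adjugate.mulVec (M.mulVec v) (Fin.last t) = M.det * v (Fin.last t) := by
      rw [Matrix.mulVec_mulVec, Matrix.adjugate_mul, Matrix.smul_mulVec, Matrix.one_mulVec]
      rfl
    rw [← h2]
    rfl
  have h4 : v (Fin.last t) = 1 := by rw [hv, Fin.snoc_last]
  rw [h4, mul_one] at h1
  rw [h1]
  exact dvd_sum fun j _ => (hrow j).mul_left _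

/-- The bordered determinant is `0`. -/
theorem bM_zero [CharZero F] (R : ι → ℕ → PowerSeries F) {m W n d : ℕ}
    (hE : ∀ k, (E k).natDegree < n) (hnd : ∀ c, (num c).natDegree ≤ d) (hdd : ∀ c, (den c).natDegree ≤ d)
    (hR : ∀ c a, a + 1 < m → kp F (sh (a : F) (den c)) * (R c (a + 1) - R c a) = kp F (sh (a : F) (num c)))
    (g : Fin t → PowerSeries F)
    (hz : ∀ a < m, (PowerSeries.X : PowerSeries F) ^ W ∣
      ∑ k, kp F (sh (a : F) (E k)) * (g k + ∑ c, kp F (C (β k c)) * R c a))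
    (hcount : (t + 1) * (n - 1) + t * Fintype.card ι * d < (m - t) * W) :
    (bM E β num den 0).det = 0 := by
  classical
  by_contra hD0
  set D := (bM E β num den 0).det with hD
  have h1 : ∀ a ∈ range (m - t), W ≤ D.roots.count (a : F) := by
    intro a ha
    rw [mem_range] at ha
    rw [count_roots, le_rootMultiplicity_iff hD0]
    have h2 := bM_order E β num den R hR g hz (a := a) (by omega)
    rw [← bM_comp, ← hD] at h2
    obtain ⟨q, hq⟩ := h2
    have h4 : (D.comp (X + C (a : F))).comp (X + C (-(a : F))) = D := by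
      rw [comp_add_comp, neg_add_cancel, C_0, add_zero, comp_X]
    rw [hq, mul_comp, pow_comp, X_comp, C_neg, ← sub_eq_add_neg] at h4
    exact ⟨_, h4.symm⟩
  have h5 : (m - t) * W ≤ D.natDegree := by
    calc (m - t) * W = ∑ _a ∈ range (m - t), W := by rw [sum_const, card_range, smul_eq_mul]
      _ ≤ ∑ a ∈ range (m - t), D.roots.count (a : F) := sum_le_sum h1
      _ = ∑ x ∈ (range (m - t)).map ⟨fun a : ℕ => (a : F), Nat.cast_injective⟩, D.roots.count x := by
          rw [sum_map]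
          rfl
      _ ≤ D.roots.card := sum_count_le _
      _ ≤ D.natDegree := card_roots' D
  have h6 := bM_deg E β num den hE hnd hdd
  rw [← hD] at h6
  omega

/-- The telescoping equations. -/
theorem tele_of_det [CharZero F] (hEi : LinearIndependent F E) (hden : ∀ c, den c ≠ 0)
    (hdet : (bM E β num den 0).det = 0) (k : Fin t) :
    ∃ y : FractionRing F[X], shK F y - y = ∑ c, algebraMap F[X] (FractionRing F[X]) (C (β k c)) *
      (algebraMap F[X] (FractionRing F[X]) (num c) / algebraMap F[X] (FractionRing F[X]) (den c)) := by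
  have hinj := IsFractionRing.injective F[X] (FractionRing F[X])
  set φ := algebraMap F[X] (FractionRing F[X]) with hφ
  have hne : ∀ P : F[X], P ≠ 0 → φ P ≠ 0 := fun P hP h0 => hP (hinj (h0.trans (map_zero _).symm))
  obtain ⟨x, hx0, hx⟩ := Matrix.exists_mulVec_eq_zero_iff.2 hdet
  have hQ : φ (bQ t den 0) ≠ 0 := hne _ (prod_ne_zero_iff.2 fun q _ => sh_ne (hden _) _)
  refine tele_of_kernel E hEi (fun k => ∑ c, φ (C (β k c)) * (φ (num c) / φ (den c)))
    (fun k i => ∑ j ∈ range i, ∑ c, φ (C (β k c)) * (φ (sh ((j : ℕ) : F) (num c)) / φ (sh ((j : ℕ) : F) (den c)))) ?_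
    (fun k => φ (x k.castSucc)) (φ (x (Fin.last t)) * φ (bQ t den 0)) ?_ ?_ k
  · intro k i
    have h1 : ∀ (j : ℕ) (P : F[X]), shK F (φ (sh ((j : ℕ) : F) P)) = φ (sh ((j + 1 : ℕ) : F) P) := by
      intro j P
      have h1 := sh_sh P ((j : ℕ) : F) 1
      rw [show (1 : F) + ((j : ℕ) : F) = ((j + 1 : ℕ) : F) by push_cast; ring] at h1
      rw [hφ, shK_map]
      exact congrArg _ h1
    rw [sum_range_succ', add_comm, map_sum]
    congr 1
    · refine sum_congr rfl fun c _ => ?_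
      rw [Nat.cast_zero, sh, sh, C_0, add_zero, comp_X, comp_X]
    · refine sum_congr rfl fun j _ => ?_
      rw [map_sum]
      refine sum_congr rfl fun c _ => ?_
      rw [map_mul, map_div₀, h1, h1, hφ, shK_map, C_comp]
  · by_contra hcon
    push Not at hcon
    apply hx0
    ext1 i
    refine Fin.lastCases ?_ (fun k => ?_) i
    · exact hinj (((mul_eq_zero.1 hcon.2).resolve_right hQ).trans (map_zero _).symm)
    · exact hinj ((congrFun hcon.1 k).trans (map_zero _).symm)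
  · intro i hi
    have h1 := congrArg φ (congrFun hx ⟨i, by omega⟩)
    rw [Pi.zero_apply, map_zero, Matrix.mulVec, dotProduct, Fin.sum_univ_castSucc, map_add, map_sum] at h1
    have h2 : φ (bM E β num den 0 ⟨i, by omega⟩ (Fin.last t) * x (Fin.last t)) =
        ∑ k, φ (sh ((i : ℕ) : F) (E k)) * (φ (x (Fin.last t)) * φ (bQ t den 0) *
          ∑ j ∈ range i, ∑ c, φ (C (β k c)) * (φ (sh ((j : ℕ) : F) (num c)) / φ (sh ((j : ℕ) : F) (den c)))) := by
      have h3 : bM E β num den 0 ⟨i, by omega⟩ (Fin.last t) = bN E β num den 0 i := by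
        unfold bM
        rw [Fin.snoc_last]
      rw [h3, map_mul]
      unfold bN
      rw [map_sum, sum_mul]
      refine sum_congr rfl fun k _ => ?_
      rw [map_mul, map_sum, zero_add]
      have h4 : ∀ j ∈ range i, φ (∑ c, C (β k c) * (sh ((0 : F) + (j : ℕ)) (num c) * bE t den 0 c j)) =
          φ (bQ t den 0) * ∑ c, φ (C (β k c)) * (φ (sh ((j : ℕ) : F) (num c)) / φ (sh ((j : ℕ) : F) (den c))) := by
        intro j hj
        rw [mem_range] at hj
        rw [map_sum, mul_sum]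
        refine sum_congr rfl fun c _ => ?_
        have h5 := hne _ (sh_ne (hden c) ((j : ℕ) : F))
        rw [bQ_eq den 0 c (by omega : j < t), map_mul, map_mul, map_mul, zero_add]
        field_simp
      rw [sum_congr rfl h4, ← mul_sum]
      ring
    rw [h2, ← sum_add_distrib] at h1
    rw [← h1]
    refine sum_congr rfl fun k _ => ?_
    have h3 : bM E β num den 0 ⟨i, by omega⟩ k.castSucc = sh ((i : ℕ) : F) (E k) := by
      unfold bM
      rw [Fin.snoc_castSucc, zero_add]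
    rw [h3, map_mul]
    ring

end Bord

end Pool.Agent.H83.FD

end
end

section

/-!
# FD AddEst: the additive zero estimate, final form
-/

set_option autoImplicit false

noncomputable section

open Polynomial Finset

namespace Pool.Agent.H83.FD

variable {F : Type*} [Field F]

/-- The Casorati determinant of independent polynomials. -/
theorem casM_one_det_ne [CharZero F] {t : ℕ} (E : Fin t → F[X]) (hE : LinearIndependent F E) :
    (casM E (fun _ => 1) (fun _ => 1) 0).det ≠ 0 := by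
  intro hdet
  have hinj := IsFractionRing.injective F[X] (FractionRing F[X])
  obtain ⟨x, hx0, hx⟩ := Matrix.exists_mulVec_eq_zero_iff.2 hdet
  have h1 : (fun κ => algebraMap F[X] (FractionRing F[X]) (x κ)) = 0 := by
    refine poly_indep E hE _ fun j hj => ?_
    have h2 := congrArg (algebraMap F[X] (FractionRing F[X])) (congrFun hx ⟨j, hj⟩)
    rw [Pi.zero_apply, map_zero, Matrix.mulVec, dotProduct, map_sum] at h2
    rw [← h2]
    refine sum_congr rfl fun κ _ => ?_
    have h3 : casM E (fun _ => 1) (fun _ => 1) 0 ⟨j, hj⟩ κ = sh ((j : ℕ) : F) (E κ) := by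
      unfold casM
      have h4 : ∀ a : F, sh a (1 : F[X]) = 1 := fun a => one_comp
      simp only [h4, prod_const_one, mul_one, zero_add]
    rw [h3, map_mul, mul_comm]
  apply hx0
  ext1 κ
  exact hinj ((congrFun h1 κ).trans (map_zero _).symm)

theorem casM_one_order {t : ℕ} (E : Fin t → F[X]) (G : Fin t → F[X]) {m w W : ℕ} (ht : 0 < t)
    (k₀ : Fin t) (hG : ¬ X ^ (w + 1) ∣ G k₀)
    (hz : ∀ a < m, X ^ W ∣ ∑ k, sh (a : F) (E k) * G k) {a : ℕ} (ha : a + t ≤ m) :
    X ^ (W - w) ∣ (casM E (fun _ => 1) (fun _ => 1) (a : F)).det := by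
  refine casM_order E (fun _ => 1) (fun _ => 1) (P := fun k _ => G k) ht (fun _ _ _ => rfl) (fun _ a _ => ?_)
    (fun _ _ => ⟨k₀, hG⟩) hz ha
  rw [eval_one]
  exact one_ne_zero

/-- THE ADDITIVE ZERO ESTIMATE. -/
theorem add_est [CharZero F] {w n d m W : ℕ} {ι : Type*} [Fintype ι] [DecidableEq ι] (Ce : Fin w → F[X])
    (B : ι → F[X]) (hC : ∀ e, (Ce e).natDegree < n) (hB : ∀ c, (B c).natDegree < n) (num den : ι → F[X])
    (hnd : ∀ c, (num c).natDegree ≤ d) (hdd : ∀ c, (den c).natDegree ≤ d) (hden : ∀ c, den c ≠ 0)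
    (R : ι → ℕ → PowerSeries F)
    (hR : ∀ c a, a + 1 < m → kp F (sh (a : F) (den c)) * (R c (a + 1) - R c a) = kp F (sh (a : F) (num c)))
    (hind : ∀ β : ι → F, (∃ y : FractionRing F[X], shK F y - y =
      ∑ c, algebraMap F[X] (FractionRing F[X]) (C (β c)) *
        (algebraMap F[X] (FractionRing F[X]) (num c) / algebraMap F[X] (FractionRing F[X]) (den c))) → β = 0)
    (hz : ∀ a < m, (PowerSeries.X : PowerSeries F) ^ W ∣
      ∑ e, kp F (sh (a : F) (Ce e)) * PowerSeries.X ^ (e : ℕ) + ∑ c, kp F (sh (a : F) (B c)) * R c a)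
    (hcount : (w + Fintype.card ι + 1) * (n - 1) + (w + Fintype.card ι) * Fintype.card ι * d <
      (m - (w + Fintype.card ι)) * (W - w)) :
    (∀ e, Ce e = 0) ∧ ∀ c, B c = 0 := by
  classical
  set V := Submodule.span F (Set.range (Sum.elim Ce B)) with hV
  have hfin : Module.Finite F V := Module.Finite.span_of_finite F (Set.finite_range _)
  have hfr : Module.finrank F V ≤ w + Fintype.card ι := by
    have h1 := finrank_range_le_card (R := F) (Sum.elim Ce B)
    rw [Fintype.card_sum, Fintype.card_fin] at h1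
    exact h1
  set t := Module.finrank F V with ht
  set b : Module.Basis (Fin t) F V := Module.finBasis F V with hb
  set E : Fin t → F[X] := fun k => (b k : F[X]) with hE
  have hEi : LinearIndependent F E := b.linearIndependent.map' V.subtype (Submodule.ker_subtype V)
  have hmC : ∀ e, Ce e ∈ V := fun e => Submodule.subset_span ⟨Sum.inl e, rfl⟩
  have hmB : ∀ c, B c ∈ V := fun c => Submodule.subset_span ⟨Sum.inr c, rfl⟩
  have hdegP : ∀ P : F[X], P.natDegree < n → P ∈ degreeLT F n := by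
    intro P hP
    rw [mem_degreeLT]
    exact degree_le_natDegree.trans_lt (by exact_mod_cast hP)
  have hVd : V ≤ degreeLT F n := by
    rw [hV, Submodule.span_le]
    rintro _ ⟨i, rfl⟩
    rcases i with e | c
    · exact hdegP _ (hC e)
    · exact hdegP _ (hB c)
  have hEd : ∀ k, (E k).natDegree < n := by
    intro k
    have h1 := mem_degreeLT.1 (hVd (b k).2)
    exact (natDegree_lt_iff_degree_lt (hEi.ne_zero k)).2 h1
  set α : Fin t → Fin w → F := fun k e => b.repr ⟨Ce e, hmC e⟩ k with hα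
  set β : Fin t → ι → F := fun k c => b.repr ⟨B c, hmB c⟩ k with hβ
  have hCe : ∀ e, Ce e = ∑ k, C (α k e) * E k := by
    intro e
    have h1 := congrArg (fun v : V => (v : F[X])) (b.sum_repr ⟨Ce e, hmC e⟩)
    simp only [Submodule.coe_sum, Submodule.coe_smul] at h1
    rw [← h1]
    exact sum_congr rfl fun k _ => smul_eq_C_mul _
  have hBe : ∀ c, B c = ∑ k, C (β k c) * E k := by
    intro c
    have h1 := congrArg (fun v : V => (v : F[X])) (b.sum_repr ⟨B c, hmB c⟩)
    simp only [Submodule.coe_sum, Submodule.coe_smul] at h1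
    rw [← h1]
    exact sum_congr rfl fun k _ => smul_eq_C_mul _
  set G : Fin t → F[X] := fun k => ∑ e, C (α k e) * X ^ (e : ℕ) with hG
  have hz' : ∀ a < m, (PowerSeries.X : PowerSeries F) ^ W ∣
      ∑ k, kp F (sh (a : F) (E k)) * (kp F (G k) + ∑ c, kp F (C (β k c)) * R c a) := by
    intro a ha
    have h1 : ∑ k, kp F (sh (a : F) (E k)) * (kp F (G k) + ∑ c, kp F (C (β k c)) * R c a) =
        ∑ e, kp F (sh (a : F) (Ce e)) * PowerSeries.X ^ (e : ℕ) + ∑ c, kp F (sh (a : F) (B c)) * R c a := by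
      have h2 : ∀ e, kp F (sh (a : F) (Ce e)) * PowerSeries.X ^ (e : ℕ) =
          ∑ k, kp F (sh (a : F) (E k)) * (kp F (C (α k e)) * PowerSeries.X ^ (e : ℕ)) := by
        intro e
        rw [hCe e, sh_sum, map_sum, sum_mul]
        refine sum_congr rfl fun k _ => ?_
        rw [sh_mul, sh_C, map_mul]
        ring
      have h3 : ∀ c, kp F (sh (a : F) (B c)) * R c a =
          ∑ k, kp F (sh (a : F) (E k)) * (kp F (C (β k c)) * R c a) := by
        intro c
        rw [hBe c, sh_sum, map_sum, sum_mul]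
        refine sum_congr rfl fun k _ => ?_
        rw [sh_mul, sh_C, map_mul]
        ring
      rw [sum_congr rfl fun e _ => h2 e, sum_congr rfl fun c _ => h3 c, sum_comm, sum_comm (s := (univ : Finset ι)),
        ← sum_add_distrib]
      refine sum_congr rfl fun k _ => ?_
      rw [← mul_sum, ← mul_sum, ← mul_add]
      congr 2
      simp only [hG]
      rw [map_sum]
      refine sum_congr rfl fun e _ => ?_
      rw [map_mul, map_pow]
      congr 2
      rw [kp_apply, coe_X]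
    rw [h1]
    exact hz a ha
  have hcount1 : (t + 1) * (n - 1) + t * Fintype.card ι * d < (m - t) * W := by
    calc (t + 1) * (n - 1) + t * Fintype.card ι * d
        ≤ (w + Fintype.card ι + 1) * (n - 1) + (w + Fintype.card ι) * Fintype.card ι * d :=
          Nat.add_le_add (Nat.mul_le_mul_right _ (by omega)) (Nat.mul_le_mul_right _ (Nat.mul_le_mul_right _ hfr))
      _ < (m - (w + Fintype.card ι)) * (W - w) := hcount
      _ ≤ (m - t) * W := Nat.mul_le_mul (by omega) (by omega)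
  have hdet := bM_zero E β num den R hEd hnd hdd hR (fun k => kp F (G k)) hz' hcount1
  have hβ0 : ∀ k, β k = 0 := fun k => hind _ (tele_of_det E β num den hEi hden hdet k)
  have hB0 : ∀ c, B c = 0 := by
    intro c
    rw [hBe c]
    refine sum_eq_zero fun k _ => ?_
    rw [congrFun (hβ0 k) c, Pi.zero_apply, C_0, zero_mul]
  refine ⟨?_, hB0⟩
  rcases Nat.eq_zero_or_pos t with ht0 | htpos
  · intro e
    rw [hCe e]
    refine sum_eq_zero fun k _ => ?_
    exact absurd k.isLt (by omega)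
  exfalso
  set k₀ : Fin t := ⟨0, htpos⟩ with hk₀
  obtain ⟨e₀, he₀⟩ : ∃ e, α k₀ e ≠ 0 := by
    by_contra hcon
    push Not at hcon
    have h1 : V ≤ (LinearMap.ker (b.coord k₀)).map V.subtype := by
      conv_lhs => rw [hV]
      rw [Submodule.span_le]
      rintro _ ⟨i, rfl⟩
      rcases i with e | c
      · exact ⟨⟨Ce e, hmC e⟩, hcon e, rfl⟩
      · exact ⟨⟨B c, hmB c⟩, congrFun (hβ0 k₀) c, rfl⟩
    obtain ⟨v, hv, hv2⟩ := h1 (b k₀).2
    have h2 : v = b k₀ := Subtype.ext hv2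
    rw [h2, SetLike.mem_coe, LinearMap.mem_ker, Module.Basis.coord_apply, Module.Basis.repr_self,
      Finsupp.single_eq_same] at hv
    exact one_ne_zero hv
  have hw := e₀.isLt
  have hGn : ¬ X ^ ((w - 1) + 1) ∣ G k₀ := by
    rw [X_pow_dvd_iff]
    push Not
    refine ⟨e₀, by omega, ?_⟩
    simp only [hG]
    rw [finsetSum_coeff, sum_eq_single e₀]
    · rw [coeff_C_mul, coeff_X_pow, if_pos rfl, mul_one]
      exact he₀
    · intro e _ he
      rw [coeff_C_mul, coeff_X_pow, if_neg fun h => he (Fin.ext h.symm), mul_zero]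
    · exact fun h => absurd (mem_univ _) h
  have hz2 : ∀ a < m, X ^ W ∣ ∑ k, sh (a : F) (E k) * G k := by
    intro a ha
    apply kp_dvd
    have h1 := hz' a ha
    have h2 : ∑ k, kp F (sh (a : F) (E k)) * (kp F (G k) + ∑ c, kp F (C (β k c)) * R c a) =
        kp F (∑ k, sh (a : F) (E k) * G k) := by
      rw [map_sum]
      refine sum_congr rfl fun k _ => ?_
      have h3 : ∑ c, kp F (C (β k c)) * R c a = 0 := by
        refine sum_eq_zero fun c _ => ?_
        rw [congrFun (hβ0 k) c, Pi.zero_apply, C_0, map_zero, zero_mul]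
      rw [h3, add_zero, map_mul]
    rw [h2] at h1
    exact h1
  set D := (casM E (fun _ => 1) (fun _ => 1) 0).det with hD
  have hD0 : D ≠ 0 := casM_one_det_ne E hEi
  have h1 : ∀ a ∈ range (m + 1 - t), W - (w - 1) ≤ D.roots.count (a : F) := by
    intro a ha
    rw [mem_range] at ha
    rw [count_roots, le_rootMultiplicity_iff hD0]
    have h2 := casM_one_order E G htpos k₀ hGn hz2 (a := a) (by omega)
    rw [← casM_comp, ← hD] at h2
    obtain ⟨q, hq⟩ := h2
    have h4 : (D.comp (X + C (a : F))).comp (X + C (-(a : F))) = D := by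
      rw [comp_add_comp, neg_add_cancel, C_0, add_zero, comp_X]
    rw [hq, mul_comp, pow_comp, X_comp, C_neg, ← sub_eq_add_neg] at h4
    exact ⟨_, h4.symm⟩
  have h5 : (m + 1 - t) * (W - (w - 1)) ≤ D.natDegree := by
    calc (m + 1 - t) * (W - (w - 1)) = ∑ _a ∈ range (m + 1 - t), (W - (w - 1)) := by
          rw [sum_const, card_range, smul_eq_mul]
      _ ≤ ∑ a ∈ range (m + 1 - t), D.roots.count (a : F) := sum_le_sum h1
      _ = ∑ x ∈ (range (m + 1 - t)).map ⟨fun a : ℕ => (a : F), Nat.cast_injective⟩, D.roots.count x := by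
          rw [sum_map]
          rfl
      _ ≤ D.roots.card := sum_count_le _
      _ ≤ D.natDegree := card_roots' D
  have h6 := casM_deg E (fun _ => 1) (fun _ => 1) (n0 := n) (d := 0) hEd (fun _ => by rw [natDegree_one])
    (fun _ => by rw [natDegree_one])
  rw [← hD, mul_zero, add_zero] at h6
  have h7 : t * (n - 1) < (m + 1 - t) * (W - (w - 1)) := by
    calc t * (n - 1) ≤ (w + Fintype.card ι + 1) * (n - 1) := Nat.mul_le_mul_right _ (by omega)
      _ ≤ (w + Fintype.card ι + 1) * (n - 1) + (w + Fintype.card ι) * Fintype.card ι * d := Nat.le_add_right _ _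
      _ < (m - (w + Fintype.card ι)) * (W - w) := hcount
      _ ≤ (m + 1 - t) * (W - (w - 1)) := Nat.mul_le_mul (by omega) (by omega)
  omega

end Pool.Agent.H83.FD

end
end

section

/-!
# GW Zero: the zero estimate

`add_est` (H83/FD/AddEst.lean: bordered Casorati matrix, telescoping equation), `rs_step` (the local relation),
`ind_gw` (the functions `numC c / denC c` have no nontrivial telescoping combination).
-/

namespace H22GW

open Finset Polynomial

variable {F : Type*} [Field F]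

private theorem denC_deg (q c : ℕ) : (denC F q c).natDegree ≤ q * (c + 1) := by
  unfold denC
  refine (natDegree_prod_le _ _).trans ?_
  refine (sum_le_card_nsmul _ _ 1 fun h _ => natDegree_linear_le).trans ?_
  rw [Nat.card_Ioo, smul_eq_mul]
  omega

private theorem numC_deg (q : ℕ) (W : ℕ → F) (c : ℕ) : (numC q W c).natDegree ≤ q * (c + 1) := by
  unfold numC
  refine natDegree_sum_le_of_forall_le _ _ fun h _ => ?_
  refine (natDegree_C_mul_le _ _).trans ?_
  refine (natDegree_prod_le _ _).trans ?_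
  refine (sum_le_card_nsmul _ _ 1 fun h _ => natDegree_linear_le).trans ?_
  refine (Nat.mul_le_mul_right _ (card_erase_le)).trans ?_
  rw [Nat.card_Ioo]
  omega

private theorem denC_ne [CharZero F] (q c : ℕ) (hq : 1 ≤ q) : denC F q c ≠ 0 := by
  unfold denC
  rw [prod_ne_zero_iff]
  intro h _ h0
  have h1 := congrArg (fun P : F[X] => P.coeff 1) h0
  simp only [coeff_add, coeff_C_mul, coeff_X_one, mul_one, coeff_C_succ, add_zero, coeff_zero] at h1
  have h2 : ((q * (c + 1) : ℕ) : F) ≠ 0 := Nat.cast_ne_zero.2 (by positivity)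
  exact h2 h1

theorem zero_gw [CharZero F] (q : ℕ) (W : ℕ → F) (hW : ∃ h, 0 < h ∧ h < q ∧ W h ≠ 0) (w m n L : ℕ)
    (Ce B : Fin w → F[X])
    (hC : ∀ e, (Ce e).natDegree < n) (hB : ∀ c, (B c).natDegree < n)
    (hnum : (2 * w + 1) * n + 2 * w ^ 2 * (q * w) < (m - 2 * w) * (L - w))
    (h : ∀ a < m, (PowerSeries.X : PowerSeries F) ^ L ∣
      ∑ e, (((Ce e).comp (X + C (a : F)) * X ^ e.val : F[X]) : PowerSeries F)
        + ∑ c, (((B c).comp (X + C (a : F)) : F[X]) : PowerSeries F) * rs q W (c.val + 1) a) :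
    (∀ e, Ce e = 0) ∧ ∀ c, B c = 0 := by
  have hq : 1 ≤ q := by
    obtain ⟨h0, h1, h2, -⟩ := hW
    omega
  refine Pool.Agent.H83.FD.add_est (d := q * w) (m := m) (W := L) Ce B hC hB (fun c => numC q W c)
    (fun c => denC F q c)
    (fun c => (numC_deg q W c).trans (Nat.mul_le_mul_left q c.isLt))
    (fun c => (denC_deg q c).trans (Nat.mul_le_mul_left q c.isLt))
    (fun c => denC_ne q c hq) (fun c a => rs q W (c.val + 1) a) ?_ ?_ ?_ ?_
  · intro c a _
    rw [mul_comm]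
    exact rs_step q W c a hq
  · rintro β ⟨y, hy⟩
    exact ind_gw q W hW w β y hy
  · intro a ha
    have h1 := h a ha
    have h2 : ∀ e : Fin w, (((Ce e).comp (X + C (a : F)) * X ^ e.val : F[X]) : PowerSeries F) =
        Pool.Agent.H83.FD.kp F (Pool.Agent.H83.FD.sh (a : F) (Ce e)) * PowerSeries.X ^ (e : ℕ) := by
      intro e
      rw [Polynomial.coe_mul, Polynomial.coe_pow, Polynomial.coe_X]
      rfl
    rw [sum_congr rfl fun e _ => h2 e] at h1
    exact h1
  · rw [Fintype.card_fin]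
    have h1 : (w + w + 1) * (n - 1) ≤ (2 * w + 1) * n := Nat.mul_le_mul (by omega) (by omega)
    have h2 : (w + w) * w * (q * w) = 2 * w ^ 2 * (q * w) := by ring
    have h3 : m - (w + w) = m - 2 * w := by omega
    rw [h3, h2]
    omega

end H22GW

end

section

/-!
# GW KerRat (port of OD Ind, RsStep, RRs, Zero, KerRat on top of H83FD add_est, over a field of
characteristic 0).  The pole of `ρ_c(X) = ∑_{0<h<qc, q ∤ h} W_(h mod q)/(qcX+h)` nearest to `0` is
`-h₀/(qc)`, `h₀ = min {h : 0 < h < q, W h ≠ 0}`.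
PROOF. `C_e = ∑_i v(inl (e,i)) PB_i`, `B'_c = ∑_i v(inr (c,i)) PB_i`, `B_c = B'_c (bn (q(c+1)m)).comp (C (q(c+1)) X)`
of degree `< n`; `zero_gw` with `m = w x`, `n = w^3/4 x`, `L = w^3` (numerical condition for `w ≥ 4`,
`x ≥ 8 q + 9`); `PB_i` has degree exactly `i`, so `v = 0`.
-/

namespace H22GW

open Finset Polynomial

section
variable {F : Type*} [Field F] [CharZero F]

theorem KerRat_bn_degree (N : ℕ) : (bn F N).degree = N := by
  unfold bn
  rw [degree_mul, degree_C (inv_ne_zero (by exact_mod_cast N.factorial_ne_zero)), zero_add,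
    degree_prod, sum_congr rfl fun k _ => degree_X_sub_C ((k : ℕ) : F)]
  simp

theorem KerRat_bn_ne (N : ℕ) : bn F N ≠ 0 := by
  intro h
  have := KerRat_bn_degree (F := F) N
  rw [h, degree_zero] at this
  exact absurd this (by simp)

theorem KerRat_PB_degree (x : ℕ) (i : ℕ) : (PB F x i).degree = i := by
  unfold PB
  rw [degree_mul, degree_pow, KerRat_bn_degree, KerRat_bn_degree]
  have h := Nat.div_add_mod i x
  calc (i / x) • (x : WithBot ℕ) + ((i % x : ℕ) : WithBot ℕ)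
      = ((x * (i / x) + i % x : ℕ) : WithBot ℕ) := by
        rw [nsmul_eq_mul]
        push_cast
        ring
    _ = i := by rw [h]

/-- the sequence of the `PB` -/
noncomputable def KerRat_seq (F : Type*) [Field F] [CharZero F] (x : ℕ) : Polynomial.Sequence F where
  elems' := PB F x
  degree_eq' := KerRat_PB_degree x

/-- combinations of the basis -/
noncomputable def KerRat_cmb (x n : ℕ) (v : Fin n → F) : F[X] := ∑ i, C (v i) * PB F x i

theorem KerRat_cmb_zero {x n : ℕ} {v : Fin n → F} (h : KerRat_cmb x n v = 0) : v = 0 := by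
  have h1 : LinearIndependent F (KerRat_seq F x : ℕ → F[X]) := Sequence.linearIndependent _
  have h2 : LinearIndependent F (fun i : Fin n => (KerRat_seq F x : ℕ → F[X]) i.val) :=
    h1.comp _ Fin.val_injective
  rw [Fintype.linearIndependent_iff] at h2
  funext i
  refine h2 v ?_ i
  rw [← h]
  unfold KerRat_cmb
  refine sum_congr rfl fun i _ => ?_
  rw [smul_eq_C_mul]
  rfl

theorem KerRat_cmb_degree {x n : ℕ} (v : Fin n → F) : (KerRat_cmb x n v).degree < n := by
  unfold KerRat_cmb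
  refine (degree_sum_le _ _).trans_lt ((Finset.sup_lt_iff (WithBot.bot_lt_coe n)).2 ?_)
  intro i _
  by_cases h : v i = 0
  · rw [h, C_0, zero_mul, degree_zero]
    exact WithBot.bot_lt_coe n
  · rw [degree_C_mul h, KerRat_PB_degree]
    exact WithBot.coe_lt_coe.2 i.isLt

end

theorem KerRat_num (q w x : ℕ) (hw : 4 ≤ w) (hx : 8 * q + 9 ≤ x) :
    (2 * w + 1) * (w ^ 3 / 4 * x) + 2 * w ^ 2 * (q * w) < (w * x - 2 * w) * (w ^ 3 - w) := by
  have h1 : 4 * (w ^ 3 / 4) ≤ w ^ 3 := Nat.mul_div_le _ _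
  obtain ⟨z, rfl⟩ : ∃ z, x = z + 2 := ⟨x - 2, by omega⟩
  obtain ⟨v, hv⟩ : ∃ v, w ^ 2 = v + 1 := ⟨w ^ 2 - 1, by
    have : 0 < w ^ 2 := by positivity
    omega⟩
  obtain ⟨Q, hQ⟩ : ∃ Q, Q = w ^ 3 / 4 := ⟨_, rfl⟩
  rw [← hQ] at h1 ⊢
  have e1 : w * (z + 2) - 2 * w = w * z := by
    rw [Nat.sub_eq_iff_eq_add (by nlinarith)]
    ring
  have e2 : w ^ 3 - w = w * v := by
    have : w ^ 3 = w * v + w := by
      rw [pow_succ, hv]
      ring
    omega
  rw [e1, e2]
  have h2 : 4 * ((2 * w + 1) * (Q * (z + 2))) ≤ (2 * w + 1) * (w ^ 3 * (z + 2)) := by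
    calc 4 * ((2 * w + 1) * (Q * (z + 2))) = (2 * w + 1) * ((4 * Q) * (z + 2)) := by ring
      _ ≤ _ := by gcongr
  have hz : 8 * q + 7 ≤ z := by omega
  have h5 : (2 * w + 1) * w * (z + 2) + 8 * q * w < 4 * z * v := by
    have h6 : 4 * z * v + 4 * z = 4 * z * w ^ 2 := by rw [hv]; ring
    have h7 : 4 * (w * z) ≤ w ^ 2 * z := by nlinarith
    have h8 : w ^ 2 * (8 * q + 7) ≤ w ^ 2 * z := Nat.mul_le_mul_left _ hz
    have h9 : w * q ≤ w ^ 2 * q := by nlinarith [Nat.zero_le (w * q)]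
    have h10 : 4 * w ≤ w ^ 2 := by nlinarith
    have h11 : 4 * z ≤ w * z := Nat.mul_le_mul_right _ hw
    nlinarith
  have h3 : (2 * w + 1) * (w ^ 3 * (z + 2)) + 4 * (2 * w ^ 2 * (q * w)) < 4 * (w * z * (w * v)) := by
    have hw2 : 0 < w ^ 2 := by positivity
    calc (2 * w + 1) * (w ^ 3 * (z + 2)) + 4 * (2 * w ^ 2 * (q * w))
        = w ^ 2 * ((2 * w + 1) * w * (z + 2) + 8 * q * w) := by ring
      _ < w ^ 2 * (4 * z * v) := Nat.mul_lt_mul_of_pos_left h5 hw2
      _ = _ := by ring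
  omega

theorem ker_rat {F : Type*} [Field F] [CharZero F] (q : ℕ) (W : ℕ → F)
    (hW : ∃ h, 0 < h ∧ h < q ∧ W h ≠ 0) : ∃ w₁ : ℕ, ∀ w : ℕ, w₁ ≤ w → ∃ x₁ : ℕ, ∀ x : ℕ, x₁ ≤ x →
    ∀ v : Col q w x → F, (Mat q W w x).mulVec v = 0 → v = 0 := by
  refine ⟨4, fun w hw => ⟨8 * q + 9, fun x hx v hv => ?_⟩⟩
  have hq : 1 ≤ q := by
    obtain ⟨h0, h1, h2, -⟩ := hW
    omega
  set n := w ^ 3 / 4 * x with hn
  set m := w * x with hm
  have hn0 : 0 < n := by
    have h1 : 4 ≤ w ^ 3 := by nlinarith [pow_pos (show 0 < w by omega) 2]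
    have : 0 < w ^ 3 / 4 := Nat.div_pos h1 (by norm_num)
    have hx0 : 0 < x := by omega
    positivity
  set Ce : Fin w → F[X] := fun e => KerRat_cmb x n (fun i => v (Sum.inl (e, i))) with hCe
  set B' : Fin w → F[X] := fun c =>
    KerRat_cmb x (n - q * (c.val + 1) * m) (fun i => v (Sum.inr ⟨c, i⟩)) with hB'
  set B : Fin w → F[X] := fun c =>
    B' c * (bn F (q * (c.val + 1) * m)).comp (C ((q * (c.val + 1) : ℕ) : F) * X) with hB
  have hdC : ∀ e, (Ce e).natDegree < n := fun e => by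
    by_cases h0 : Ce e = 0
    · rw [h0, natDegree_zero]
      exact hn0
    · exact (natDegree_lt_iff_degree_lt h0).2 (KerRat_cmb_degree _)
  have hcne : ∀ c : Fin w, (C ((q * (c.val + 1) : ℕ) : F) * X : F[X]).natDegree = 1 := fun c =>
    natDegree_C_mul_X _ (Nat.cast_ne_zero.2 (by positivity))
  have hbne : ∀ c : Fin w, (bn F (q * (c.val + 1) * m)).comp
      (C ((q * (c.val + 1) : ℕ) : F) * X) ≠ 0 := by
    intro c h0
    rcases comp_eq_zero_iff.1 h0 with h1 | h1
    · exact KerRat_bn_ne _ h1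
    · have := hcne c
      rw [h1.2, natDegree_C] at this
      exact absurd this (by norm_num)
  have hdB : ∀ c, (B c).natDegree < n := fun c => by
    by_cases h0 : B' c = 0
    · simp only [hB, h0, zero_mul, natDegree_zero]
      exact hn0
    · have h1 : (B' c).natDegree < n - q * (c.val + 1) * m :=
        (natDegree_lt_iff_degree_lt h0).2 (KerRat_cmb_degree _)
      simp only [hB]
      rw [natDegree_mul h0 (hbne c), natDegree_comp, hcne c, mul_one,
        natDegree_eq_of_degree_eq_some (KerRat_bn_degree _)]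
      omega
  have key := zero_gw q W hW w m n (w ^ 3) Ce B hdC hdB (KerRat_num q w x hw hx) ?_
  · obtain ⟨hC0, hB0⟩ := key
    have hB'0 : ∀ c, B' c = 0 := fun c => by
      rcases mul_eq_zero.1 (hB0 c) with h | h
      · exact h
      · exact absurd h (hbne c)
    funext z
    rcases z with ⟨e, i⟩ | ⟨c, i⟩
    · exact congrFun (KerRat_cmb_zero (hC0 e)) i
    · exact congrFun (KerRat_cmb_zero (hB'0 c)) i
  · intro a ha
    have e1 : ∑ e, (((Ce e).comp (X + C (a : F)) * X ^ e.val : F[X]) : PowerSeries F)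
        + ∑ c, (((B c).comp (X + C (a : F)) : F[X]) : PowerSeries F) * rs q W (c.val + 1) a =
        ((∑ e, (Ce e).comp (X + C (a : F)) * X ^ e.val +
          ∑ c, (B' c).comp (X + C (a : F)) * RR q W m (c.val + 1) a : F[X]) : PowerSeries F) := by
      rw [← Polynomial.coeToPowerSeries.ringHom_apply, map_add, map_sum, map_sum]
      simp only [Polynomial.coeToPowerSeries.ringHom_apply]
      congr 1
      refine sum_congr rfl fun c _ => ?_
      rw [Polynomial.coe_mul, RR_eq q hq W m (c.val + 1) a (by omega) ha, ← mul_assoc,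
        ← Polynomial.coe_mul]
      congr 2
      simp only [hB]
      rw [mul_comp, comp_assoc, mul_comp, C_comp, X_comp]
    rw [e1, PowerSeries.X_pow_dvd_iff]
    intro i hi
    rw [Polynomial.coeff_coe]
    have h2 := congrFun hv (⟨a, ha⟩, ⟨i, hi⟩)
    rw [Matrix.mulVec, dotProduct, Fintype.sum_sum_type, Fintype.sum_prod_type,
      Fintype.sum_sigma] at h2
    rw [coeff_add, finsetSum_coeff, finsetSum_coeff]
    refine Eq.trans ?_ h2
    congr 1
    · refine sum_congr rfl fun e _ => ?_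
      simp only [hCe, KerRat_cmb]
      rw [Polynomial.sum_comp, sum_mul, finsetSum_coeff]
      refine sum_congr rfl fun j _ => ?_
      rw [mul_comp, C_comp, mul_assoc, coeff_C_mul, mul_comm]
      rfl
    · refine sum_congr rfl fun c _ => ?_
      simp only [hB', KerRat_cmb]
      rw [Polynomial.sum_comp, sum_mul, finsetSum_coeff]
      refine sum_congr rfl fun j _ => ?_
      rw [mul_comp, C_comp, mul_assoc, coeff_C_mul, mul_comm]
      rfl

end H22GW

end

section

/-!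
# GW Gap: assembly
-/

namespace H22GW

open Finset Polynomial NumberField

private theorem card_col (q w x : ℕ) :
    Fintype.card (Col q w x) = w * (w ^ 3 / 4 * x)
      + ∑ c ∈ range w, (w ^ 3 / 4 * x - q * (c + 1) * (w * x)) := by
  simp only [Col, Fintype.card_sum, Fintype.card_prod, Fintype.card_fin, Fintype.card_sigma]
  rw [Finset.sum_range]

private theorem card_col_le (q w x : ℕ) (h4 : 4 ∣ w) :
    (Fintype.card (Col q w x) : ℝ) ≤ (w : ℝ) ^ 4 * x / 2 := by
  have h1 : Fintype.card (Col q w x) ≤ 2 * (w * (w ^ 3 / 4 * x)) := by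
    rw [card_col]
    have h2 : ∑ c ∈ range w, (w ^ 3 / 4 * x - q * (c + 1) * (w * x)) ≤
        ∑ c ∈ range w, (w ^ 3 / 4 * x) := Finset.sum_le_sum fun c _ => Nat.sub_le _ _
    rw [Finset.sum_const, card_range, smul_eq_mul] at h2
    omega
  have h3 : 4 ∣ w ^ 3 := dvd_pow h4 (by norm_num)
  have h5 : ((w ^ 3 / 4 : ℕ) : ℝ) = (w : ℝ) ^ 3 / 4 := by
    rw [Nat.cast_div h3 (by norm_num)]
    push_cast
    ring
  have h6 : (Fintype.card (Col q w x) : ℝ) ≤ ((2 * (w * (w ^ 3 / 4 * x)) : ℕ) : ℝ) := by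
    exact_mod_cast h1
  refine h6.trans (le_of_eq ?_)
  push_cast [h5]
  ring

private theorem sum_c (q w : ℕ) : 2 * ∑ c ∈ range w, q * (c + 1) = q * w * (w + 1) := by
  induction w with
  | zero => simp
  | succ n ih =>
    rw [Finset.sum_range_succ, Nat.mul_add, ih]
    ring

private theorem kappa_ge (q w x N : ℕ) (h4 : 4 ∣ w) (hw : 5 * q + 5 ≤ w)
    (hx : 32 * N ≤ w ^ 4 * x) :
    4 * N ≤ ∑ c ∈ range w, (w ^ 3 / 4 * x - q * (c + 1) * (w * x)) := by
  obtain ⟨v, rfl⟩ := h4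
  have h3 : (4 * v) ^ 3 / 4 = 16 * v ^ 3 := by
    rw [show (4 * v) ^ 3 = 4 * (16 * v ^ 3) by ring]
    exact Nat.mul_div_cancel_left _ (by norm_num)
  rw [h3]
  have h1 : ∑ c ∈ range (4 * v), (16 * v ^ 3 * x) ≤
      ∑ c ∈ range (4 * v), (16 * v ^ 3 * x - q * (c + 1) * (4 * v * x))
        + ∑ c ∈ range (4 * v), q * (c + 1) * (4 * v * x) := by
    rw [← Finset.sum_add_distrib]
    exact Finset.sum_le_sum fun c _ => le_tsub_add
  rw [Finset.sum_const, card_range, smul_eq_mul, ← Finset.sum_mul] at h1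
  have hs := sum_c q (4 * v)
  set S := ∑ c ∈ range (4 * v), q * (c + 1) with hS
  have e0 : 2 * (S * (4 * v * x)) = 16 * q * (4 * v + 1) * (v ^ 2 * x) := by
    calc 2 * (S * (4 * v * x)) = (2 * S) * (4 * v * x) := by ring
      _ = q * (4 * v) * (4 * v + 1) * (4 * v * x) := by rw [hs]
      _ = _ := by ring
  have h2 : S * (4 * v * x) + 4 * N ≤ 4 * v * (16 * v ^ 3 * x) := by
    have e1 : (4 * v) ^ 4 * x = 256 * (v ^ 4 * x) := by ring
    rw [e1] at hx
    have e2 : 4 * N ≤ 32 * (v ^ 4 * x) := by omega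
    have e3 : 16 * q * (4 * v + 1) * (v ^ 2 * x) ≤ 64 * (v ^ 4 * x) := by
      have e5 : 64 * (v ^ 4 * x) = (64 * v ^ 2) * (v ^ 2 * x) := by ring
      rw [e5]
      refine Nat.mul_le_mul_right _ ?_
      nlinarith
    have e6 : 4 * v * (16 * v ^ 3 * x) = 64 * (v ^ 4 * x) := by ring
    omega
  omega

private theorem thmB (k : Type*) [Field k] [NumberField k] (q : ℕ) (W : ℕ → 𝓞 k)
    (hW : ∃ h, 0 < h ∧ h < q ∧ W h ≠ 0) :
    ∃ (C₁ : ℝ) (w₁ : ℕ), 0 < C₁ ∧ ∀ w : ℕ, w₁ ≤ w → 4 ∣ w → ∃ X₀ : ℕ, ∀ N : ℕ, X₀ ≤ N →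
    ∀ T : Finset ℕ, (∀ p ∈ T, p.Prime ∧ N < p ∧ p ≤ 2 * N ∧ BadW k q W w (w ^ 3) p) →
      ∑ p ∈ T, Real.log p ≤ C₁ / Real.sqrt w * N := by
  have hq1 : 1 ≤ q := by
    obtain ⟨h, h1, h2, -⟩ := hW
    omega
  have hWk : ∃ h, 0 < h ∧ h < q ∧ ((W h : 𝓞 k) : k) ≠ 0 := by
    obtain ⟨h, h1, h2, h3⟩ := hW
    exact ⟨h, h1, h2, fun h0 => h3 (by exact_mod_cast h0)⟩
  obtain ⟨C₀, hC0, hS⟩ := mat_size (k := k) q hq1 W
  obtain ⟨C₂, hC2, hDs⟩ := den_size q hq1
  obtain ⟨w₂, hw2⟩ := ker_rat (F := k) q (fun h => ((W h : 𝓞 k) : k)) hWk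
  obtain ⟨δ, hδ⟩ : ∃ δ : ℕ, δ = Module.finrank ℚ k := ⟨_, rfl⟩
  refine ⟨2048 * (1 + C₀ + C₂) * (δ + 1), max w₂ (64 * q + 26), by positivity, fun w hw' h4 => ?_⟩
  have hw : 64 * q + 26 ≤ w := (le_max_right _ _).trans hw'
  obtain ⟨x₁, hx1⟩ := hw2 w ((le_max_left _ _).trans hw')
  refine ⟨x₁ * w ^ 4 + 2 * q * w ^ 2 + w ^ 4 + w ^ 3 + 2, fun N hN T hT => ?_⟩
  -- parameters
  obtain ⟨x, hx⟩ : ∃ x : ℕ, x = 32 * N / w ^ 4 + 1 := ⟨_, rfl⟩
  have hw4 : 0 < w ^ 4 := by
    have : 0 < w := by omega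
    positivity
  have hxl : 32 * N ≤ w ^ 4 * x := by
    rw [hx]
    have := Nat.div_add_mod (32 * N) (w ^ 4)
    have h2 := Nat.mod_lt (32 * N) hw4
    rw [Nat.mul_add]
    omega
  have hxu : w ^ 4 * x ≤ 32 * N + w ^ 4 := by
    rw [hx, Nat.mul_add, mul_one]
    have := Nat.mul_div_le (32 * N) (w ^ 4)
    omega
  have hxx1 : x₁ ≤ x := by
    have h1 : w ^ 4 * x₁ ≤ w ^ 4 * x := by
      have : x₁ * w ^ 4 ≤ N := by omega
      rw [mul_comm (w ^ 4) x₁]
      omega
    exact Nat.le_of_mul_le_mul_left h1 hw4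
  have hx1' : 1 ≤ x := by
    rw [hx]
    exact Nat.le_add_left 1 _
  have hw26 : 26 ≤ w := by omega
  have hwR : (26 : ℝ) ≤ w := by exact_mod_cast hw26
  have hlog0 : 0 ≤ Real.log w := Real.log_nonneg (by linarith)
  have hxR : (1 : ℝ) ≤ x := by exact_mod_cast hx1'
  -- the size
  have key := arithK (Mat q (fun h => ((W h : 𝓞 k) : k)) w x) (hx1 x hxx1) (Dn q w x)
    (den_pos q w x)
    (Real.exp ((C₀ + C₂) * w ^ 3 * (1 + Real.log w) * x)) ?_ (mat_int q W w x) ?_ T (2 * N) ?_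
  · -- conclusion
    set S := ∑ p ∈ T, Real.log p with hSdef
    set L := 1 + Real.log w with hL
    have hL1 : 1 ≤ L := by linarith
    rw [Real.log_exp] at key
    have hcard := card_col_le q w x h4
    set c : ℝ := (Fintype.card (Col q w x) : ℝ) with hc
    have hc0 : 0 ≤ c := by positivity
    have hf : Real.log ((Fintype.card (Col q w x)).factorial : ℝ) ≤ c * ((w : ℝ) ^ 3 * L * x) := by
      have h1 : ((Fintype.card (Col q w x)).factorial : ℝ) ≤ c ^ (Fintype.card (Col q w x)) := by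
        rw [hc]
        exact_mod_cast Nat.factorial_le_pow _
      rcases Nat.eq_zero_or_pos (Fintype.card (Col q w x)) with h0 | h0
      · rw [h0]
        simp only [Nat.factorial_zero, Nat.cast_one, Real.log_one]
        positivity
      have hc1 : 1 ≤ c := by
        rw [hc]
        exact_mod_cast h0
      have h2 : Real.log ((Fintype.card (Col q w x)).factorial : ℝ) ≤ c * Real.log c := by
        refine (Real.log_le_log (by exact_mod_cast Nat.factorial_pos _) h1).trans ?_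
        rw [Real.log_pow]
      refine h2.trans (mul_le_mul_of_nonneg_left ?_ hc0)
      have h3 : Real.log c ≤ Real.log ((w : ℝ) ^ 4 * x) := by
        refine Real.log_le_log (by linarith) (hcard.trans ?_)
        have : 0 ≤ (w : ℝ) ^ 4 * x := by positivity
        linarith
      rw [Real.log_mul (by positivity) (by positivity), Real.log_pow] at h3
      have h4' : Real.log x ≤ x := (Real.log_le_sub_one_of_pos (by linarith)).trans (by linarith)
      have h5 : Real.log w ≤ w := (Real.log_le_sub_one_of_pos (by linarith)).trans (by linarith)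
      have h6 : (4 : ℝ) * w + x ≤ w ^ 3 * x := by
        have e1 : (1 : ℝ) ≤ w := by linarith
        have e2 : (5 : ℝ) * w ≤ w ^ 3 := by nlinarith [mul_nonneg (sub_nonneg.2 e1) (sub_nonneg.2 e1)]
        have e3 : (5 : ℝ) * w * x ≤ w ^ 3 * x := mul_le_mul_of_nonneg_right e2 (by linarith)
        have e4 : (w : ℝ) ≤ w * x := by nlinarith
        have e5 : (x : ℝ) ≤ w * x := by nlinarith
        linarith
      have h7 : (w : ℝ) ^ 3 * x ≤ w ^ 3 * L * x := by
        have : 0 ≤ (w : ℝ) ^ 3 * x := by positivity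
        nlinarith
      push_cast at h3
      linarith
    have h8 : (2 * (N : ℝ)) * S ≤ (δ + 1) * (c * ((w : ℝ) ^ 3 * L * x * (1 + C₀ + C₂))) := by
      have := key
      rw [← hδ] at this
      push_cast at this
      have h20 : Real.log ((Fintype.card (Col q w x)).factorial : ℝ)
          + c * ((C₀ + C₂) * w ^ 3 * L * x) ≤ c * ((w : ℝ) ^ 3 * L * x * (1 + C₀ + C₂)) := by
        calc _ ≤ c * ((w : ℝ) ^ 3 * L * x) + c * ((C₀ + C₂) * w ^ 3 * L * x) := by gcongr
          _ = _ := by ring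
      have h21 : 0 ≤ c * ((w : ℝ) ^ 3 * L * x * (1 + C₀ + C₂)) := by positivity
      calc (2 * (N : ℝ)) * S ≤ _ := this
        _ ≤ (δ : ℝ) * (c * ((w : ℝ) ^ 3 * L * x * (1 + C₀ + C₂))) :=
            mul_le_mul_of_nonneg_left h20 (Nat.cast_nonneg _)
        _ ≤ _ := by nlinarith
    have hNpos : (0 : ℝ) < N := by
      have : 0 < N := by omega
      exact_mod_cast this
    have h9 : (w : ℝ) ^ 4 * x ≤ 64 * N := by
      have h10 : w ^ 4 * x ≤ 64 * N := by omega
      exact_mod_cast h10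
    have hwpos : (0 : ℝ) < w := by linarith
    have h11 : c * ((w : ℝ) ^ 3 * L * x * (1 + C₀ + C₂)) ≤ 2048 * N ^ 2 * L / w * (1 + C₀ + C₂) := by
      have h12 : c * ((w : ℝ) ^ 3 * L * x) ≤ 2048 * N ^ 2 * L / w := by
        rw [le_div_iff₀ hwpos]
        calc c * ((w : ℝ) ^ 3 * L * x) * w ≤ ((w : ℝ) ^ 4 * x / 2) * ((w : ℝ) ^ 3 * L * x) * w := by
              gcongr
          _ = ((w : ℝ) ^ 4 * x) ^ 2 / 2 * L := by ring
          _ ≤ (64 * (N : ℝ)) ^ 2 / 2 * L := by gcongr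
          _ = 2048 * (N : ℝ) ^ 2 * L := by ring
      calc c * ((w : ℝ) ^ 3 * L * x * (1 + C₀ + C₂)) = c * ((w : ℝ) ^ 3 * L * x) * (1 + C₀ + C₂) := by
            ring
        _ ≤ _ := mul_le_mul_of_nonneg_right h12 (by positivity)
    have hsq : Real.sqrt w ^ 2 = w := Real.sq_sqrt hwpos.le
    have hspos : 0 < Real.sqrt w := Real.sqrt_pos.2 hwpos
    have h13 : L ≤ 2 * Real.sqrt w := by
      have h14 : Real.log w = 2 * Real.log (Real.sqrt w) := by
        rw [Real.log_sqrt hwpos.le]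
        ring
      have h15 := Real.log_le_sub_one_of_pos hspos
      rw [hL, h14]
      linarith
    have h16 : (2 * (N : ℝ)) * S ≤
        (2 * (N : ℝ)) * (2048 * (1 + C₀ + C₂) * (δ + 1) / Real.sqrt w * N) := by
      refine (h8.trans (mul_le_mul_of_nonneg_left h11 (by positivity))).trans ?_
      have h17 : L / w ≤ 2 / Real.sqrt w := by
        rw [div_le_div_iff₀ hwpos hspos]
        calc L * Real.sqrt w ≤ 2 * Real.sqrt w * Real.sqrt w := by gcongr
          _ = 2 * w := by rw [mul_assoc, ← sq, hsq]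
      calc ((δ : ℝ) + 1) * (2048 * (N : ℝ) ^ 2 * L / w * (1 + C₀ + C₂))
          = 2048 * (N : ℝ) ^ 2 * (1 + C₀ + C₂) * (δ + 1) * (L / w) := by ring
        _ ≤ 2048 * (N : ℝ) ^ 2 * (1 + C₀ + C₂) * (δ + 1) * (2 / Real.sqrt w) := by gcongr
        _ = (2 * (N : ℝ)) * (2048 * (1 + C₀ + C₂) * (δ + 1) / Real.sqrt w * N) := by ring
    exact le_of_mul_le_mul_left h16 (by linarith)
  · refine Real.one_le_exp ?_
    positivity
  · intro r c σ
    have h1 := hS w (by omega) x hx1' r c σ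
    have h2 := hDs w (by omega) x hx1'
    have hDpos : 0 < (Dn q w x : ℝ) := by exact_mod_cast den_pos q w x
    have h3 : (Dn q w x : ℝ) ≤ Real.exp (C₂ * w ^ 3 * (1 + Real.log w) * x) := by
      rw [← Real.log_le_iff_le_exp hDpos]
      exact h2
    calc (Dn q w x : ℝ) * ‖σ (Mat q (fun h => ((W h : 𝓞 k) : k)) w x r c)‖
        ≤ Real.exp (C₂ * w ^ 3 * (1 + Real.log w) * x) *
          Real.exp (C₀ * w ^ 3 * (1 + Real.log w) * x) := by gcongr
      _ = Real.exp ((C₀ + C₂) * w ^ 3 * (1 + Real.log w) * x) := by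
          rw [← Real.exp_add]
          congr 1
          ring
  · intro p hp
    obtain ⟨hpp, hpN, hp2, Ω, iF, iC, φ, Lam, hLam, hE⟩ := hT p hp
    have hfact : Fact p.Prime := ⟨hpp⟩
    have hb1 : q * w * (w * x) < p := by
      have h1 : w ^ 2 * (q * w * (w * x)) = q * (w ^ 4 * x) := by ring
      have h2 : w ^ 2 * (q * w * (w * x)) ≤ q * (32 * N + w ^ 4) := by
        rw [h1]
        exact Nat.mul_le_mul_left _ hxu
      have h3 : q * (32 * N + w ^ 4) ≤ w ^ 2 * N := by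
        have h4 : 64 * q ≤ w ^ 2 := by nlinarith
        have h5 : 2 * q * w ^ 2 ≤ N := by omega
        have h6 : q * w ^ 4 = q * w ^ 2 * w ^ 2 := by ring
        have h7 : q * (32 * N + w ^ 4) = 32 * q * N + q * w ^ 2 * w ^ 2 := by rw [← h6]; ring
        rw [h7]
        nlinarith
      have h4 : q * w * (w * x) ≤ N := Nat.le_of_mul_le_mul_left (h2.trans h3)
        (by have : 0 < w := by omega
            positivity)
      omega
    have hb2 : x < p := by
      have : x ≤ q * w * (w * x) := by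
        have h1 : 1 ≤ q * w * w := by
          have h2 : 1 ≤ w := by omega
          exact Nat.succ_le_of_lt (by positivity)
        calc x = 1 * x := (one_mul x).symm
          _ ≤ q * w * w * x := Nat.mul_le_mul_right _ h1
          _ = _ := by ring
      omega
    refine ⟨hpp, den_prime q w x p hpp hb1 hb2, Ω, iF, iC, φ, Mat q (fun h => φ (W h)) w x,
      mat_red φ p q W w x hb1 hb2, ?_⟩
    have hk := ker_mod p q hq1 (fun h => φ (W h)) Lam hLam w x (by omega) hb1 hb2 (by omega) hE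
    have hk2 := kappa_ge q w x N h4 (by omega) hxl
    omega

private theorem gap_aux (E : ℕ → Prop) [DecidablePred E] (ε : ℝ) (hε : 0 < ε) (X₀ : ℕ)
    (h : ∀ N : ℕ, X₀ ≤ N → ∀ T : Finset ℕ, (∀ p ∈ T, p.Prime ∧ N < p ∧ p ≤ 2 * N ∧ E p) →
      ∑ p ∈ T, Real.log p ≤ ε / 4 * N) :
    ∃ X₁ : ℕ, ∀ X : ℕ, X₁ ≤ X →
      ∑ p ∈ (Icc 1 X).filter (fun p => p.Prime ∧ E p), Real.log p ≤ ε * X := by
  set F : ℕ → ℝ := fun X => ∑ p ∈ (Icc 1 X).filter (fun p => p.Prime ∧ E p), Real.log p with hF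
  have hmono : ∀ X Y : ℕ, X ≤ Y → F X ≤ F Y := by
    intro X Y hXY
    refine Finset.sum_le_sum_of_subset_of_nonneg ?_ fun p _ _ => Real.log_natCast_nonneg p
    intro p hp
    rw [mem_filter, mem_Icc] at hp ⊢
    exact ⟨⟨hp.1.1, hp.1.2.trans hXY⟩, hp.2⟩
  set B := 2 * X₀ + 3 with hB
  have hF0 : 0 ≤ F B := Finset.sum_nonneg fun p _ => Real.log_natCast_nonneg p
  have main : ∀ X : ℕ, F X ≤ F B + ε / 2 * X := by
    intro X
    induction X using Nat.strong_induction_on with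
    | _ X ih =>
      rcases Nat.lt_or_ge X B with hX | hX
      · have h1 := hmono X B hX.le
        have h2 : 0 ≤ ε / 2 * (X : ℝ) := by positivity
        linarith
      · obtain ⟨N, hN⟩ : ∃ N : ℕ, N = (X + 1) / 2 := ⟨_, rfl⟩
        have hNX : N < X := by omega
        have hX2 : X ≤ 2 * N := by omega
        have h3 := ih N hNX
        have h4 := h N (by omega) (((Icc 1 X).filter (fun p => p.Prime ∧ E p)).filter
          (fun p => N < p)) (by
            intro p hp
            rw [mem_filter, mem_filter, mem_Icc] at hp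
            exact ⟨hp.1.2.1, hp.2, by omega, hp.1.2.2⟩)
        have h5 : F X = ∑ p ∈ ((Icc 1 X).filter (fun p => p.Prime ∧ E p)).filter (fun p => N < p),
            Real.log p + ∑ p ∈ ((Icc 1 X).filter (fun p => p.Prime ∧ E p)).filter
              (fun p => ¬ N < p), Real.log p := (Finset.sum_filter_add_sum_filter_not _ _ _).symm
        have h6 : ∑ p ∈ ((Icc 1 X).filter (fun p => p.Prime ∧ E p)).filter
              (fun p => ¬ N < p), Real.log p ≤ F N := by
          refine Finset.sum_le_sum_of_subset_of_nonneg ?_ fun p _ _ => Real.log_natCast_nonneg p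
          intro p hp
          rw [mem_filter, mem_filter, mem_Icc] at hp
          rw [mem_filter, mem_Icc]
          exact ⟨⟨hp.1.1.1, by omega⟩, hp.1.2⟩
        have h7 : (N : ℝ) ≤ 2 / 3 * X := by
          have : 3 * N ≤ 2 * X := by omega
          have h8 : (3 : ℝ) * N ≤ 2 * X := by exact_mod_cast this
          linarith
        have h9 : ε / 2 * (N : ℝ) + ε / 4 * N ≤ ε / 2 * X := by nlinarith
        linarith
  refine ⟨⌈2 * F B / ε⌉₊, fun X hX => ?_⟩
  have h1 := main X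
  have h2 : 2 * F B / ε ≤ X := (Nat.le_ceil _).trans (by exact_mod_cast hX)
  rw [div_le_iff₀ hε] at h2
  have h3 : F X ≤ ε * X := by nlinarith
  exact h3

open Classical in
/-- **The gap theorem with weights.** -/
theorem gapW (k : Type*) [Field k] [NumberField k] (q : ℕ) (W : ℕ → 𝓞 k)
    (hW : ∃ h, 0 < h ∧ h < q ∧ W h ≠ 0) (ε : ℝ) (hε : 0 < ε) : ∃ w₀ : ℕ, ∀ w : ℕ, w₀ ≤ w →
    ∃ X₀ : ℕ, ∀ X : ℕ, X₀ ≤ X →
    ∑ p ∈ (Finset.Icc 1 X).filter (fun p : ℕ => p.Prime ∧ BadW k q W w (w ^ 4) p), Real.log p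
      ≤ ε * X := by
  obtain ⟨C₁, w₁, hC1, hB⟩ := thmB k q W hW
  obtain ⟨M, hM⟩ := exists_nat_ge ((4 * C₁ / ε) ^ 2)
  refine ⟨max (max w₁ M) 5, fun w hw => ?_⟩
  have hw5 : 5 ≤ w := (le_max_right _ _).trans hw
  have hwM : M ≤ w := (le_max_right _ _).trans ((le_max_left _ _).trans hw)
  have hw1 : w₁ ≤ w := (le_max_left _ _).trans ((le_max_left _ _).trans hw)
  obtain ⟨v, hv⟩ : ∃ v : ℕ, v = 4 * ((w + 3) / 4) := ⟨_, rfl⟩
  have hv4 : 4 ∣ v := ⟨_, hv⟩
  have hwv : w ≤ v := by omega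
  have hvw : v ≤ w + 3 := by omega
  obtain ⟨X₀, hX0⟩ := hB v (hw1.trans hwv) hv4
  have hvpow : v ^ 3 ≤ w ^ 4 := by
    have h1 : v ^ 3 ≤ (w + 3) ^ 3 := Nat.pow_le_pow_left hvw 3
    have h2 : (w + 3) ^ 3 ≤ w ^ 4 := by
      obtain ⟨u, rfl⟩ : ∃ u, w = u + 5 := ⟨w - 5, by omega⟩
      have e1 : (u + 5 + 3) ^ 3 = u ^ 3 + 24 * u ^ 2 + 192 * u + 512 := by ring
      have e2 : (u + 5) ^ 4 = u ^ 4 + 20 * u ^ 3 + 150 * u ^ 2 + 500 * u + 625 := by ring
      rw [e1, e2]
      omega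
    exact h1.trans h2
  have hvR : ((4 * C₁ / ε) ^ 2 : ℝ) ≤ v := by
    refine hM.trans ?_
    exact_mod_cast hwM.trans hwv
  have hsqrt : C₁ / Real.sqrt v ≤ ε / 4 := by
    have h1 : 4 * C₁ / ε ≤ Real.sqrt v := by
      rw [← Real.sqrt_sq (show 0 ≤ 4 * C₁ / ε by positivity)]
      exact Real.sqrt_le_sqrt hvR
    have h2 : 0 < 4 * C₁ / ε := by positivity
    calc C₁ / Real.sqrt v ≤ C₁ / (4 * C₁ / ε) := div_le_div_of_nonneg_left hC1.le h2 h1
      _ = ε / 4 := by
        field_simp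
  obtain ⟨X₁, hX1⟩ := gap_aux (fun p => BadW k q W w (w ^ 4) p) ε hε X₀ (by
    intro N hN T hT
    refine (hX0 N hN T fun p hp => ?_).trans ?_
    · obtain ⟨h1, h2, h3, Ω, iF, iC, φ, Lam, hLam, hE⟩ := hT p hp
      exact ⟨h1, h2, h3, Ω, iF, iC, φ, Lam, hLam, fun j h5 h6 =>
        hE j (by omega) (lt_of_lt_of_le h6 hvpow)⟩
    · exact mul_le_mul_of_nonneg_right hsqrt (Nat.cast_nonneg N))
  exact ⟨X₁, hX1⟩

end H22GW

end

section

/-!
# Project AB, module Count: root multiplicities of the relative norm form over `F ⊆ L = ℚ(ζ_f)`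
-/

namespace H72AB

open Polynomial NumberField H9AB

universe u v w

theorem mult_pow {Ω : Type*} [Field Ω] (P : Polynomial Ω) (hP : P ≠ 0) (x : Ω) (n : ℕ) :
    rootMultiplicity x (P ^ n) = n * rootMultiplicity x P := by
  induction n with
  | zero => simp
  | succ n ih =>
    rw [pow_succ, rootMultiplicity_mul (mul_ne_zero (pow_ne_zero n hP) hP), ih]
    ring

/-- the elements of `(ℤ/f)ˣ` whose automorphism fixes `F` -/
noncomputable def HF (f : ℕ) [NeZero f] (F : Type*) [Field F] (L : Type*) [Field L] [NumberField L]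
    [IsCyclotomicExtension {f} ℚ L] [Algebra F L] : Finset (ZMod f)ˣ := by
  classical
  exact Finset.univ.filter fun g => ∀ x : F,
    (IsCyclotomicExtension.Rat.galEquivZMod f L).symm g (algebraMap F L x) = algebraMap F L x

theorem mem_HF (f : ℕ) [NeZero f] (F : Type*) [Field F] (L : Type*) [Field L] [NumberField L]
    [IsCyclotomicExtension {f} ℚ L] [Algebra F L] (g : (ZMod f)ˣ) :
    g ∈ HF f F L ↔ ∀ x : F,
      (IsCyclotomicExtension.Rat.galEquivZMod f L).symm g (algebraMap F L x) = algebraMap F L x := by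
  classical
  unfold HF
  rw [Finset.mem_filter]
  exact ⟨fun h => h.2, fun h => ⟨Finset.mem_univ _, h⟩⟩

section

variable (f : ℕ) [NeZero f] (F : Type*) [Field F] [NumberField F] (L : Type*) [Field L] [NumberField L]
    [IsCyclotomicExtension {f} ℚ L] [Algebra F L]

theorem prod_HF {M : Type*} [CommMonoid M] (Q : (𝓞 L →+* 𝓞 L) → M) :
    ∏ σ : L ≃ₐ[F] L, Q (RingOfIntegers.mapRingHom (σ : L →+* L)) = ∏ g ∈ HF f F L, Q (actL f L g) := by
  classical
  have hst : IsScalarTower ℚ F L := IsScalarTower.of_algebraMap_eq' (Subsingleton.elim _ _)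
  let e := IsCyclotomicExtension.Rat.galEquivZMod f L
  refine Finset.prod_bij (fun σ _ => e (σ.restrictScalars ℚ)) ?_ ?_ ?_ ?_
  · intro σ _
    rw [mem_HF]
    intro x
    show e.symm (e (σ.restrictScalars ℚ)) (algebraMap F L x) = _
    rw [MulEquiv.symm_apply_apply]
    exact σ.commutes x
  · intro σ _ τ _ h
    have h1 := e.injective h
    ext x
    exact DFunLike.congr_fun h1 x
  · intro g hg
    rw [mem_HF] at hg
    refine ⟨AlgEquiv.ofRingEquiv (f := (e.symm g : L ≃ₐ[ℚ] L).toRingEquiv) (fun x => hg x), Finset.mem_univ _, ?_⟩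
    have h1 : (AlgEquiv.ofRingEquiv (f := (e.symm g : L ≃ₐ[ℚ] L).toRingEquiv) (fun x => hg x) : L ≃ₐ[F] L).restrictScalars ℚ
        = e.symm g := by
      ext x
      rfl
    rw [h1]
    exact e.apply_symm_apply g
  · intro σ _
    congr 1
    ext x
    show σ (x : L) = e.symm (e (σ.restrictScalars ℚ)) (x : L)
    rw [MulEquiv.symm_apply_apply]
    rfl

end

/-- **the counting lemma** -/
theorem mult_count (f : ℕ) [NeZero f] (F : Type*) [Field F] [NumberField F] (L : Type*) [Field L] [NumberField L]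
    [IsCyclotomicExtension {f} ℚ L] [Algebra F L] (K K' : Type*) [Field K] [NumberField K] [Field K'] [NumberField K']
    [Algebra F K] [Algebra K K'] [Algebra F K'] [IsScalarTower F K K'] [Algebra L K'] [IsScalarTower F L K']
    {Ω : Type*} [Field Ω] [DecidableEq Ω] (w : 𝓞 F →+* Ω) (w₀ : 𝓞 L →+* Ω)
    (hw : w₀.comp (algebraMap (𝓞 F) (𝓞 L)) = w) {n : ℕ}
    (ψ : (ZMod f)ˣ → Fin n → (𝓞 K' →+* Ω))
    (hψ : ∀ g, ∀ x y : 𝓞 K', (nfR L K' x y).map (w₀.comp (actL f L g)) = ∏ i, (C (ψ g i x) + X * C (ψ g i y)))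
    (a b : 𝓞 K) (hab : ∀ g i, ψ g i (algebraMap (𝓞 K) (𝓞 K') a) ≠ 0 ∨ ψ g i (algebraMap (𝓞 K) (𝓞 K') b) ≠ 0)
    (x : Ω) :
    Module.finrank K K' * rootMultiplicity x ((nfR F K a b).map w) =
      (Finset.univ.filter fun v : (ZMod f)ˣ × Fin n => v.1 ∈ HF f F L ∧
        ψ v.1 v.2 (algebraMap (𝓞 K) (𝓞 K') a) + x * ψ v.1 v.2 (algebraMap (𝓞 K) (𝓞 K') b) = 0).card := by
  classical
  have hst : IsScalarTower ℚ F L := IsScalarTower.of_algebraMap_eq' (Subsingleton.elim _ _)
  have hG : IsGalois ℚ L := IsCyclotomicExtension.isGalois {f} ℚ L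
  have hGF : IsGalois F L := IsGalois.tower_top_of_isGalois ℚ F L
  set a' := algebraMap (𝓞 K) (𝓞 K') a with ha'
  set b' := algebraMap (𝓞 K) (𝓞 K') b with hb'
  have h1 : ((nfR F K a b).map w) ^ Module.finrank K K' =
      ∏ v ∈ HF f F L ×ˢ (Finset.univ : Finset (Fin n)), (C (ψ v.1 v.2 a') + X * C (ψ v.1 v.2 b')) := by
    rw [← Polynomial.map_pow, ← nfR_pow F K K' a b, ← hw, ← map_map, nfR_prod F L K', Polynomial.map_prod,
      prod_HF f F L (fun s => ((nfR L K' a' b').map s).map w₀), Finset.prod_product]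
    refine Finset.prod_congr rfl fun g _ => ?_
    rw [map_map, hψ g a' b']
  have h2 : ∀ v ∈ HF f F L ×ˢ (Finset.univ : Finset (Fin n)), ψ v.1 v.2 a' ≠ 0 ∨ ψ v.1 v.2 b' ≠ 0 :=
    fun v _ => hab v.1 v.2
  have h3 := mult_prod (HF f F L ×ˢ (Finset.univ : Finset (Fin n))) (fun v => ψ v.1 v.2 a') (fun v => ψ v.1 v.2 b') h2 x
  have hfin : FiniteDimensional K K' := Module.Finite.of_restrictScalars_finite ℚ K K'
  have hpos : 0 < Module.finrank K K' := Module.finrank_pos
  have hne : (nfR F K a b).map w ≠ 0 := by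
    intro h0
    rw [h0, zero_pow hpos.ne'] at h1
    have h4 := h1.symm
    rw [Finset.prod_eq_zero_iff] at h4
    obtain ⟨v, hv, h5⟩ := h4
    have e0 := congrArg (eval 0) h5
    have e1 := congrArg (eval 1) h5
    rw [eval_add, eval_C, eval_mul, eval_X, eval_C, zero_mul, add_zero, eval_zero] at e0
    rw [eval_add, eval_C, eval_mul, eval_X, eval_C, one_mul, eval_zero, e0, zero_add] at e1
    rcases h2 v hv with h6 | h6
    · exact h6 e0
    · exact h6 e1
  rw [← mult_pow _ hne, h1, h3]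
  congr 1
  ext v
  simp only [Finset.mem_filter, Finset.mem_product, Finset.mem_univ, and_true, true_and]

/-- counting by a permutation of a subset -/
theorem card_le_of_perm {A : Type*} [Fintype A] (P Q : A → Prop) [DecidablePred P] [DecidablePred Q] (S : Finset A)
    (hP : ∀ v, P v → v ∈ S) (σ : Equiv.Perm S) (hσ : ∀ v : S, P v → Q (σ v)) :
    (Finset.univ.filter P).card ≤ (Finset.univ.filter Q).card := by
  classical
  refine Finset.card_le_card_of_injOn (fun v => if h : v ∈ S then (σ ⟨v, h⟩ : A) else v) ?_ ?_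
  · intro v hv
    rw [Finset.mem_coe, Finset.mem_filter] at hv
    have h1 := hP v hv.2
    simp only [Finset.coe_filter, Finset.mem_univ, true_and, Set.mem_ofPred_eq, h1, dif_pos]
    exact hσ ⟨v, h1⟩ hv.2
  · intro v hv u hu huv
    rw [Finset.mem_coe, Finset.mem_filter] at hv hu
    have h1 := hP v hv.2
    have h2 := hP u hu.2
    simp only [h1, h2, dif_pos] at huv
    have h3 := σ.injective (Subtype.ext huv)
    exact congrArg Subtype.val h3

end H72AB

end

section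

/-!
# Project AB, module Mix: the element of `ℚ(ζ_(fp))` attached to an arbitrary solution

`L = ℚ(ζ_f) ⊆ K`, `M = ℚ(ζ_(fp))`, `P = nfR L K a b`, `ζ = ζ_(fp)^f`.  For any solution `(a, b, c)`
(no condition at the primes above `p`) there are `A, y ∈ 𝓞 M` outside all primes containing `p` such that
`A P(ζ⁻¹) = y^p P(ζ)` and `(A)` is a `p`-th power of an ideal.

PROOF.  Away from `p` all the `v(σ a + μ σ b)`, `μ^p = 1`, are congruent modulo `p`
(`H9AB.RelPow`); at `p` the automorphism `s : ζ ↦ ζ⁻¹` over `L` preserves all the primes, so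
`P(ζ)` and `P(ζ⁻¹) = s P(ζ)` have the same order.  So `P(ζ) P(ζ⁻¹)^(p-1)` generates a `p`-th power in a
field `N ⊇ M` with `p ∤ [N : M]`; descend, and `unr`.
-/

open Polynomial NumberField H9FC H9AB
open scoped Pointwise

namespace H77AB

universe u v w

private theorem Mix_ne {R : Type*} [CommRing R] [IsDomain R] (p : ℕ) [Fact p.Prime]
    (hp : p ≠ 2) {ζ : R} (hζ : ζ ^ p = 1) {α β γ : R} (h : α ^ p + β ^ p = γ ^ p)
    (hγ0 : γ ≠ 0) : α + ζ * β ≠ 0 := by
  intro h0
  have hodd : Odd p := Nat.Prime.odd_of_ne_two Fact.out hp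
  have hα : α = -(ζ * β) := eq_neg_of_add_eq_zero_left h0
  rw [hα, hodd.neg_pow, mul_pow, hζ, one_mul, neg_add_cancel] at h
  exact hγ0 ((pow_eq_zero_iff (Nat.Prime.ne_zero Fact.out)).1 h.symm)

/-- away from `p`: the product over two `p`-th roots of unity -/
theorem ord_two {R : Type*} [CommRing R] [IsDedekindDomain R] (p : ℕ) [Fact p.Prime]
    (hp : p ≠ 2) {ζ : R} (hζ : IsPrimitiveRoot ζ p) {α β γ : R} (h : α ^ p + β ^ p = γ ^ p)
    (hγ0 : γ ≠ 0) (P : Ideal R) (hP : P.IsPrime) (hP0 : P ≠ ⊥) (hpP : (p : R) ∉ P) :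
    p ∣ ordI P (Ideal.span {(α + ζ * β) * (α + ζ ^ (p - 1) * β) ^ (p - 1)}) := by
  have hpos : 0 < p := Nat.Prime.pos Fact.out
  have hpp : p.Prime := Fact.out
  have h1 := ord_one p hp hζ h hγ0 P hP hP0 hpP
  have hcop : (p - 1).Coprime p := (Nat.coprime_self_sub_left hpp.one_le).2 (Nat.coprime_one_left p)
  have hζ' : IsPrimitiveRoot (ζ ^ (p - 1)) p := hζ.pow_of_coprime (p - 1) hcop
  have h2 := ord_one p hp hζ' h hγ0 P hP hP0 hpP
  have e1 : Ideal.span {α + ζ * β} ≠ ⊥ := by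
    rw [Ne, Ideal.span_singleton_eq_bot]
    exact Mix_ne p hp hζ.pow_eq_one h hγ0
  have e2 : Ideal.span {α + ζ ^ (p - 1) * β} ≠ ⊥ := by
    rw [Ne, Ideal.span_singleton_eq_bot]
    exact Mix_ne p hp hζ'.pow_eq_one h hγ0
  have e3 : Ideal.span {α + β} ≠ ⊥ := by
    rw [Ne, Ideal.span_singleton_eq_bot]
    have := Mix_ne p hp (one_pow p) h hγ0
    rwa [one_mul] at this
  rw [← Ideal.span_singleton_mul_span_singleton, ← Ideal.span_singleton_pow,
    ordI_mul P _ _ e1 (pow_ne_zero _ e3), ordI_pow] at h1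
  rw [← Ideal.span_singleton_mul_span_singleton, ← Ideal.span_singleton_pow,
    ordI_mul P _ _ e2 (pow_ne_zero _ e3), ordI_pow] at h2
  rw [← Ideal.span_singleton_mul_span_singleton, ← Ideal.span_singleton_pow,
    ordI_mul P _ _ e1 (pow_ne_zero _ e2), ordI_pow]
  rw [← ZMod.natCast_eq_zero_iff] at h1 h2 ⊢
  have h3 : ((p - 1 : ℕ) : ZMod p) = -1 := by
    rw [Nat.cast_sub (show 1 ≤ p from hpos), ZMod.natCast_self, Nat.cast_one, zero_sub]
  rw [Nat.cast_add, Nat.cast_mul, h3] at h1 h2 ⊢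
  linear_combination h1 - h2

theorem pow_ideal_gen (L : Type u) [Field L] [NumberField L] (K : Type v) [Field K]
    [NumberField K] [Algebra L K] (p : ℕ) [Fact p.Prime]
    (hp : p ≠ 2) (hd : Module.finrank L K < p) (a b c : 𝓞 K) (h : FSol K p a b c)
    (M : Type w) [Field M] [NumberField M] [Algebra L M] {ζ : 𝓞 M} (hζ : IsPrimitiveRoot ζ p)
    (hord : ∀ Q : Ideal (𝓞 M), Q.IsPrime → (p : 𝓞 M) ∈ Q →
      ordI Q (Ideal.span {(nfR L K a b).eval₂ (algebraMap (𝓞 L) (𝓞 M)) ζ}) =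
      ordI Q (Ideal.span {(nfR L K a b).eval₂ (algebraMap (𝓞 L) (𝓞 M)) (ζ ^ (p - 1))})) :
    (nfR L K a b).eval₂ (algebraMap (𝓞 L) (𝓞 M)) ζ ≠ 0 ∧
    (nfR L K a b).eval₂ (algebraMap (𝓞 L) (𝓞 M)) (ζ ^ (p - 1)) ≠ 0 ∧
    ∃ I : Ideal (𝓞 M), I ^ p = Ideal.span {(nfR L K a b).eval₂ (algebraMap (𝓞 L) (𝓞 M)) ζ *
        ((nfR L K a b).eval₂ (algebraMap (𝓞 L) (𝓞 M)) (ζ ^ (p - 1))) ^ (p - 1)} := by
  classical
  have hpp : p.Prime := Fact.out
  have hodd : Odd p := hpp.odd_of_ne_two hp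
  obtain ⟨N, _, _, _, _, hT, hN, hcard⟩ := exists_relEnv L K p hd M
  obtain ⟨ha, hb, hc0, habc⟩ := h
  set F := nfR L K a b with hF
  set Z : 𝓞 N := algebraMap (𝓞 M) (𝓞 N) ζ with hZ
  have hinj : Function.Injective (algebraMap (𝓞 M) (𝓞 N)) :=
    FaithfulSMul.algebraMap_injective (𝓞 M) (𝓞 N)
  have hZp : IsPrimitiveRoot Z p := hζ.map_of_injective hinj
  have hcop : (p - 1).Coprime p := (Nat.coprime_self_sub_left hpp.one_le).2 (Nat.coprime_one_left p)
  have hZp' : IsPrimitiveRoot (Z ^ (p - 1)) p := hZp.pow_of_coprime (p - 1) hcop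
  set α : (K →ₐ[L] N) → 𝓞 N := fun σ => RingOfIntegers.mapRingHom (σ : K →+* N) a with hα
  set β : (K →ₐ[L] N) → 𝓞 N := fun σ => RingOfIntegers.mapRingHom (σ : K →+* N) b with hβ
  set γ : (K →ₐ[L] N) → 𝓞 N := fun σ => - RingOfIntegers.mapRingHom (σ : K →+* N) c with hγ
  have hfer : ∀ σ, α σ ^ p + β σ ^ p = γ σ ^ p := by
    intro σ
    have h1 := congrArg (RingOfIntegers.mapRingHom (σ : K →+* N)) habc
    rw [map_add, map_add, map_pow, map_pow, map_pow, map_zero] at h1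
    rw [hγ]
    change α σ ^ p + β σ ^ p = (- RingOfIntegers.mapRingHom (σ : K →+* N) c) ^ p
    rw [hodd.neg_pow]
    exact eq_neg_of_add_eq_zero_left h1
  have hγ0 : ∀ σ, γ σ ≠ 0 := by
    intro σ h1
    have h2 : RingOfIntegers.mapRingHom (σ : K →+* N) c = 0 := neg_eq_zero.1 h1
    have h3 : (σ : K →+* N) (c : K) = 0 := by
      have := congrArg (fun t : 𝓞 N => (t : N)) h2
      exact this
    have h4 : (c : K) = 0 := (map_eq_zero _).1 h3
    exact hc0 (RingOfIntegers.coe_injective (h4.trans (map_zero (algebraMap (𝓞 K) K)).symm))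
  have hmapT : ∀ z : 𝓞 M, algebraMap (𝓞 M) (𝓞 N) (F.eval₂ (algebraMap (𝓞 L) (𝓞 M)) z) =
      ∏ σ, (α σ + algebraMap (𝓞 M) (𝓞 N) z * β σ) := by
    intro z
    rw [Polynomial.hom_eval₂]
    have h1 : (algebraMap (𝓞 M) (𝓞 N)).comp (algebraMap (𝓞 L) (𝓞 M)) =
        algebraMap (𝓞 L) (𝓞 N) := by
      ext x
      show algebraMap M N (algebraMap L M (x : L)) = algebraMap L N (x : L)
      exact (IsScalarTower.algebraMap_apply L M N _).symm
    rw [h1, hF, nfR_eval_prod L K N hcard]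
  set x₁ : 𝓞 M := F.eval₂ (algebraMap (𝓞 L) (𝓞 M)) ζ with hx₁
  set x₂ : 𝓞 M := F.eval₂ (algebraMap (𝓞 L) (𝓞 M)) (ζ ^ (p - 1)) with hx₂
  have hf1 : ∀ σ, α σ + Z * β σ ≠ 0 := fun σ => Mix_ne p hp hZp.pow_eq_one (hfer σ) (hγ0 σ)
  have hf2 : ∀ σ, α σ + Z ^ (p - 1) * β σ ≠ 0 := fun σ =>
    Mix_ne p hp hZp'.pow_eq_one (hfer σ) (hγ0 σ)
  have hx₁N : algebraMap (𝓞 M) (𝓞 N) x₁ = ∏ σ, (α σ + Z * β σ) := hmapT ζ
  have hx₂N : algebraMap (𝓞 M) (𝓞 N) x₂ = ∏ σ, (α σ + Z ^ (p - 1) * β σ) := by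
    rw [hx₂, hmapT, map_pow]
  have hx₁0 : x₁ ≠ 0 := by
    intro h0
    rw [h0, map_zero] at hx₁N
    exact Finset.prod_ne_zero_iff.2 (fun σ _ => hf1 σ) hx₁N.symm
  have hx₂0 : x₂ ≠ 0 := by
    intro h0
    rw [h0, map_zero] at hx₂N
    exact Finset.prod_ne_zero_iff.2 (fun σ _ => hf2 σ) hx₂N.symm
  refine ⟨hx₁0, hx₂0, ?_⟩
  set x : 𝓞 M := x₁ * x₂ ^ (p - 1) with hx
  have hx0 : x ≠ 0 := mul_ne_zero hx₁0 (pow_ne_zero _ hx₂0)
  have hxN : algebraMap (𝓞 M) (𝓞 N) x =
      ∏ σ, ((α σ + Z * β σ) * (α σ + Z ^ (p - 1) * β σ) ^ (p - 1)) := by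
    rw [hx, map_mul, map_pow, hx₁N, hx₂N, Finset.prod_mul_distrib, Finset.prod_pow]
  have hxN0 : algebraMap (𝓞 M) (𝓞 N) x ≠ 0 := by
    intro h0
    exact hx0 (hinj (h0.trans (map_zero _).symm))
  have hs1 : Ideal.span {x₁} ≠ ⊥ := by rwa [Ne, Ideal.span_singleton_eq_bot]
  have hs2 : Ideal.span {x₂} ≠ ⊥ := by rwa [Ne, Ideal.span_singleton_eq_bot]
  have hsx : Ideal.span {x} ≠ ⊥ := by rwa [Ne, Ideal.span_singleton_eq_bot]
  have hmap : (Ideal.span {x}).map (algebraMap (𝓞 M) (𝓞 N)) =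
      Ideal.span {algebraMap (𝓞 M) (𝓞 N) x} := by
    rw [Ideal.map_span, Set.image_singleton]
  have hall : ∀ Q : Ideal (𝓞 N), Q.IsPrime → Q ≠ ⊥ →
      p ∣ ordI Q (Ideal.span {algebraMap (𝓞 M) (𝓞 N) x}) := by
    intro Q hQ hQ0
    by_cases hpQ : (p : 𝓞 N) ∈ Q
    · rw [← hmap, ordI_algebraMap M N Q hQ hQ0 _ hsx]
      refine Dvd.dvd.mul_left ?_ _
      have hq : (Q.comap (algebraMap (𝓞 M) (𝓞 N))).IsPrime := Ideal.comap_isPrime _ _
      have hpq : (p : 𝓞 M) ∈ Q.comap (algebraMap (𝓞 M) (𝓞 N)) := by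
        rw [Ideal.mem_comap, map_natCast]
        exact hpQ
      rw [hx, ← Ideal.span_singleton_mul_span_singleton, ← Ideal.span_singleton_pow,
        ordI_mul _ _ _ hs1 (pow_ne_zero _ hs2), ordI_pow, hord _ hq hpq]
      refine ⟨ordI (Q.comap (algebraMap (𝓞 M) (𝓞 N))) (Ideal.span {x₂}), ?_⟩
      obtain ⟨q, rfl⟩ : ∃ q, p = q + 1 := ⟨p - 1, by have := hpp.one_le; omega⟩
      rw [Nat.add_sub_cancel]
      ring
    · rw [hxN, ← Ideal.prod_span_singleton, ordI_prod]
      · refine Finset.dvd_sum fun σ _ => ?_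
        exact ord_two p hp hZp (hfer σ) (hγ0 σ) Q hQ hQ0 hpQ
      · intro σ _ h1
        exact mul_ne_zero (hf1 σ) (pow_ne_zero _ (hf2 σ)) (Ideal.span_singleton_eq_bot.1 h1)
  obtain ⟨J, hJ⟩ := exists_pow_of_dvd_ordI p hpp.ne_zero _
    (fun h1 => hxN0 (Ideal.span_singleton_eq_bot.1 h1)) hall
  exact descend M N p hN (Ideal.span {x}) J (by rw [hJ, hmap])

end H77AB

end

section

/-!
# Project AB, module MixRel: the twisted Kummer relations for ALL solutions

As in `H9AB.RelA`, but for an arbitrary solution `(a, b, c)` (coprime at `p`), for odd `j` and even characters: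

  `∑_t ⌊c₀ t/(f p)⌋ t^{-j} χ(t) = 0`  or  `∑_g χ(g) ∑_{i good} L_{j-1}(-ψ g i b / ψ g i a) = 0`,

where `i` is good for `g` if none of `ψ g i a`, `ψ g i b`, `ψ g i c` vanishes.

PROOF.  `A` of `Mix` (`A P(ζ⁻¹) = y^p P(ζ)`, `(A) = J^p`, `A` prime to `p`) instead of `P(ζ) P(1)^(p-1)`; the
logarithmic derivatives of `A` of odd order are `2 f^j` times those of the part of `w(P)` prime to `X - 1`
(`mix_val`), to which only the good places contribute (`DL_lin_prod`).
-/

namespace H77AB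

open Polynomial NumberField H9FC H45KC H9AB
open scoped Pointwise

universe u v w

section elem

variable (f p : ℕ) [NeZero f] [NeZero (f * p)] (L : Type u) [Field L] [NumberField L]
    [IsCyclotomicExtension {f} ℚ L] (M : Type w) [Field M] [NumberField M]
    [IsCyclotomicExtension {f * p} ℚ M] [Algebra L M]

/-- the automorphism `ζ_p ↦ ζ_p⁻¹` over `L` -/
theorem exists_inv [hp : Fact p.Prime] (hpf : ¬ p ∣ f) {ζ : 𝓞 M} (hζ : IsPrimitiveRoot ζ (f * p)) :
    ∃ (s : M ≃ₐ[ℚ] M) (η : 𝓞 M), η ^ p = 1 ∧ s • ζ = ζ * η ∧ s • (ζ ^ f) = (ζ ^ f) ^ (p - 1) ∧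
      ∀ x : 𝓞 L, s • (algebraMap (𝓞 L) (𝓞 M) x) = algebraMap (𝓞 L) (𝓞 M) x := by
  have hpp : p.Prime := hp.out
  have hf0 : 0 < f := NeZero.pos f
  have hcop : Nat.Coprime f p := ((Nat.Prime.coprime_iff_not_dvd hpp).2 hpf).symm
  obtain ⟨t, ht1, ht2⟩ := Nat.chineseRemainder hcop 1 (p - 1)
  have htf : Nat.Coprime t f := by
    have h1 : Nat.gcd t f = Nat.gcd 1 f := Nat.ModEq.gcd_eq ht1
    rw [Nat.Coprime, h1, Nat.gcd_one_left]
  have htp : Nat.Coprime t p := by
    have h1 : Nat.gcd t p = Nat.gcd (p - 1) p := Nat.ModEq.gcd_eq ht2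
    have h2 : (p - 1).Coprime p := (Nat.coprime_self_sub_left hpp.one_le).2 (Nat.coprime_one_left p)
    rw [Nat.Coprime, h1]
    exact h2
  have htm : Nat.Coprime t (f * p) := Nat.Coprime.mul_right htf htp
  set u : (ZMod (f * p))ˣ := ZMod.unitOfCoprime t htm with hu
  set s : M ≃ₐ[ℚ] M := (IsCyclotomicExtension.Rat.galEquivZMod (f * p) M).symm u with hs
  have hsu : IsCyclotomicExtension.Rat.galEquivZMod (f * p) M s = u := by
    rw [hs, MulEquiv.apply_symm_apply]
  set n : ℕ := u.val.val with hn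
  have hnt : n = t % (f * p) := by
    rw [hn, hu, ZMod.coe_unitOfCoprime, ZMod.val_natCast]
  have hn1 : n ≡ 1 [MOD f] := by
    have h1 : n ≡ t [MOD f * p] := by rw [hnt]; exact Nat.mod_modEq _ _
    exact (h1.of_dvd (dvd_mul_right f p)).trans ht1
  have hn2 : n ≡ p - 1 [MOD p] := by
    have h1 : n ≡ t [MOD f * p] := by rw [hnt]; exact Nat.mod_modEq _ _
    exact (h1.of_dvd (dvd_mul_left p f)).trans ht2
  have hn0 : 1 ≤ n := by
    by_contra h0
    have h1 : n = 0 := by omega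
    rw [h1] at hn2
    have h2 : (p - 1) % p = 0 := hn2.symm
    have h3 := hpp.two_le
    rw [Nat.mod_eq_of_lt (by omega)] at h2
    omega
  have hfn : f ∣ n - 1 := (Nat.modEq_iff_dvd' hn0).1 hn1.symm
  have hsz : s • ζ = ζ ^ n := by
    have h4 := IsCyclotomicExtension.Rat.galEquivZMod_smul_of_pow_eq (f * p) M s hζ.pow_eq_one
    rw [hsu] at h4
    exact h4
  have hζp : (ζ ^ f) ^ p = 1 := by rw [← pow_mul]; exact hζ.pow_eq_one
  refine ⟨s, ζ ^ (n - 1), ?_, ?_, ?_, ?_⟩
  · obtain ⟨r, hr⟩ := hfn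
    rw [hr, ← pow_mul, show f * r * p = (f * p) * r by ring, pow_mul, hζ.pow_eq_one, one_pow]
  · rw [hsz, ← pow_succ', Nat.sub_add_cancel hn0]
  · rw [smul_pow', hsz, ← pow_mul, mul_comm n f, pow_mul]
    exact pow_eq_pow_of_modEq hn2 hζp
  · intro x
    have hx := mem_adjoin f p L M hζ x
    generalize algebraMap (𝓞 L) (𝓞 M) x = w at hx
    induction hx using Algebra.adjoin_induction with
    | mem z hz =>
      rw [Set.mem_singleton_iff] at hz
      rw [hz, smul_pow', hsz, ← pow_mul]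
      have h5 : n * p = p + (n - 1) * p := by
        obtain ⟨r, hr⟩ : ∃ r, n = r + 1 := ⟨n - 1, by omega⟩
        rw [hr, Nat.add_sub_cancel]
        ring
      rw [h5, pow_add]
      obtain ⟨r, hr⟩ := hfn
      rw [hr, show f * r * p = (f * p) * r by ring, pow_mul ζ (f * p) r, hζ.pow_eq_one, one_pow,
        mul_one]
    | algebraMap r =>
      rw [Algebra.algebraMap_eq_smul_one, smul_comm, smul_one]
    | add x y _ _ hx hy => rw [smul_add, hx, hy]
    | mul x y _ _ hx hy => rw [smul_mul', hx, hy]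

/-- the element attached to an arbitrary solution -/
theorem exists_mix (K : Type v) [Field K] [NumberField K] [Algebra L K] [hp : Fact p.Prime]
    (hp2 : p ≠ 2) (hpf : ¬ p ∣ f) (hd : Module.finrank L K < p) (a b c : 𝓞 K)
    (h : FSol K p a b c) {ζ : 𝓞 M} (hζ : IsPrimitiveRoot ζ (f * p)) :
    ∃ (A y : 𝓞 M), A * (nfR L K a b).eval₂ (algebraMap (𝓞 L) (𝓞 M)) ((ζ ^ f) ^ (p - 1))
        = y ^ p * (nfR L K a b).eval₂ (algebraMap (𝓞 L) (𝓞 M)) (ζ ^ f) ∧
      (∀ Q : Ideal (𝓞 M), Q.IsPrime → (p : 𝓞 M) ∈ Q → A ∉ Q ∧ y ∉ Q) ∧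
      ∃ J : Ideal (𝓞 M), J ^ p = Ideal.span {A} := by
  have hpp : p.Prime := hp.out
  obtain ⟨s, η, hη, hs, hsf, hsL⟩ := exists_inv f p L M hpf hζ
  have hζp : IsPrimitiveRoot (ζ ^ f) p := hζ.pow (NeZero.pos _) rfl
  have hsF : s • ((nfR L K a b).eval₂ (algebraMap (𝓞 L) (𝓞 M)) (ζ ^ f))
      = (nfR L K a b).eval₂ (algebraMap (𝓞 L) (𝓞 M)) ((ζ ^ f) ^ (p - 1)) := by
    have h1 := Polynomial.hom_eval₂ (nfR L K a b) (algebraMap (𝓞 L) (𝓞 M)) (H71AB.act s) (ζ ^ f)
    rw [H71AB.act_apply, H71AB.act_apply, hsf] at h1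
    rw [h1]
    congr 1
    ext1 x
    exact hsL x
  have hord : ∀ Q : Ideal (𝓞 M), Q.IsPrime → (p : 𝓞 M) ∈ Q →
      ordI Q (Ideal.span {(nfR L K a b).eval₂ (algebraMap (𝓞 L) (𝓞 M)) (ζ ^ f)}) =
      ordI Q (Ideal.span {(nfR L K a b).eval₂ (algebraMap (𝓞 L) (𝓞 M)) ((ζ ^ f) ^ (p - 1))}) := by
    intro Q hQ hpQ
    rw [← hsF]
    exact (ordI_smul_eq (f * p) M hζ p s η hη hs Q hQ hpQ _).symm
  obtain ⟨h1, h2, I, hI⟩ := pow_ideal_gen L K p hp2 hd a b c h M hζp hord
  obtain ⟨A, y, hAy, -, -, hAQ, hJ⟩ := unr p hpp.one_le (Nat.cast_ne_zero.2 hpp.ne_zero) h1 h2 I hI hord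
  exact ⟨A, y, hAy, hAQ, hJ⟩

end elem

section red

variable {f p m : ℕ} [Fact p.Prime] (hpf : ¬ p ∣ f) [NeZero m] (hm : m = f * p)
  {M : Type*} [Field M] [NumberField M] [IsCyclotomicExtension {m} ℚ M] {ζ : 𝓞 M}
  (hζ : IsPrimitiveRoot ζ m) {k : Type*} [Field k] [CharP k p]

open H71AB

include hpf hm hζ

/-- the reduction of `P(ζ_p)`, `P ∈ (𝓞 L)[X]` -/
theorem key_red (e : 𝓞 M →+* k) {R : Type*} [CommRing R]
    (ι : R →+* 𝓞 M) (hι : ∀ r, ι r ∈ Algebra.adjoin ℤ {ζ ^ p}) (P : R[X]) :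
    ∃ F : ℤ[X], iv ζ F = P.eval₂ ι (ζ ^ f) ∧
      (X - 1 : k[X]) ^ (p - 1) ∣ iv (C (e ζ) * X : k[X]) F - (P.map (e.comp ι)).comp (X ^ f) := by
  have hgf : e ζ ^ f = 1 := by
    have h1 : (e ζ ^ f) ^ p = 1 := by
      rw [← pow_mul, ← hm, ← map_pow, hζ.pow_eq_one, map_one]
    have h2 : (e ζ ^ f - 1) ^ p = 0 := by
      rw [sub_pow_char, h1, one_pow, sub_self]
    exact sub_eq_zero.1 (eq_zero_of_pow_eq_zero h2)
  induction P using Polynomial.induction_on' with
  | add P Q hP hQ =>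
    obtain ⟨F, hF1, hF2⟩ := hP
    obtain ⟨G, hG1, hG2⟩ := hQ
    refine ⟨F + G, by rw [map_add, hF1, hG1, eval₂_add], ?_⟩
    have h := dvd_add hF2 hG2
    rw [Polynomial.map_add, add_comp, map_add]
    have h3 : iv (C (e ζ) * X : k[X]) F + iv (C (e ζ) * X : k[X]) G -
        ((P.map (e.comp ι)).comp (X ^ f) + (Q.map (e.comp ι)).comp (X ^ f)) =
        iv (C (e ζ) * X : k[X]) F - (P.map (e.comp ι)).comp (X ^ f) +
        (iv (C (e ζ) * X : k[X]) G - (Q.map (e.comp ι)).comp (X ^ f)) := by ring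
    rw [h3]
    exact h
  | monomial n c =>
    refine ⟨rp ζ (ι c) * X ^ (f * n), ?_, ?_⟩
    · rw [map_mul, map_pow, iv_X, rp_spec hζ, eval₂_monomial, ← pow_mul]
    · rw [map_mul, map_pow, iv_X, map_monomial, ← C_mul_X_pow_eq_monomial, mul_comp, C_comp,
        X_pow_comp, mul_pow, ← C_pow, pow_mul (e ζ), hgf, one_pow, C_1, one_mul, pow_mul X,
        ← sub_mul]
      exact (gX_const hpf hm hζ e (ι c) (hι c)).mul_right _

/-- the logarithmic derivatives of odd order of the element of `exists_mix` -/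
theorem Lg_mix (hp2 : p ≠ 2) (e : 𝓞 M →+* k) {R : Type*} [CommRing R]
    (ι : R →+* 𝓞 M) (hι : ∀ r, ι r ∈ Algebra.adjoin ℤ {ζ ^ p}) (F : R[X]) (A y : 𝓞 M)
    (hA : e A ≠ 0) (hy : e y ≠ 0)
    (hAy : A * F.eval₂ ι ((ζ ^ f) ^ (p - 1)) = y ^ p * F.eval₂ ι (ζ ^ f))
    (μ : ℕ) (H : k[X]) (hH : H.eval 1 ≠ 0) (hF : F.map (e.comp ι) = (X - 1) ^ μ * H)
    (j : ℕ) (hj : Odd j) (hj3 : 3 ≤ j) (hjμ : j + μ + 2 ≤ p) :
    Lg ζ e j A = 2 * (f : k) ^ j * DL j H := by
  have hpp : p.Prime := Fact.out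
  obtain ⟨F1, hF1, hF1'⟩ := key_red hpf hm hζ e ι hι F
  obtain ⟨F2, hF2, hF2'⟩ := key_red hpf hm hζ e ι hι (F.comp (X ^ (p - 1)))
  have hev : (F.comp (X ^ (p - 1))).eval₂ ι (ζ ^ f) = F.eval₂ ι ((ζ ^ f) ^ (p - 1)) := by
    rw [eval₂_comp, eval₂_X_pow]
  rw [hev] at hF2
  rw [Polynomial.map_comp, Polynomial.map_pow, map_X, comp_assoc, X_pow_comp, ← pow_mul] at hF2'
  have h1 := gX_sub hpf hm hζ e (rp ζ A * F2) (rp ζ y ^ p * F1) (by
    rw [map_mul, map_mul, map_pow, rp_spec hζ, rp_spec hζ, hF1, hF2, hAy])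
  rw [map_mul, map_mul, map_pow] at h1
  set a : k[X] := iv (C (e ζ) * X : k[X]) (rp ζ A) with ha
  set b : k[X] := iv (C (e ζ) * X : k[X]) (rp ζ y) with hb
  have hae : a.eval 1 = e A := eval_rp hζ e A
  have hbe : b.eval 1 = e y := eval_rp hζ e y
  have hbp : (X - 1 : k[X]) ^ (p - 1) ∣ b ^ p - C ((e y) ^ p) := by
    have h2 : b ^ p - C ((e y) ^ p) = (b - C (e y)) ^ p := by
      rw [sub_pow_char, C_pow]
    rw [h2]
    refine (pow_dvd_pow _ (by omega : p - 1 ≤ p)).trans (pow_dvd_pow_of_dvd ?_ _)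
    have h3 : (X - 1 : k[X]) = X - C 1 := by rw [C_1]
    rw [h3, dvd_iff_isRoot, IsRoot.def, eval_sub, hbe, eval_C, sub_self]
  refine mix_val hp2 hpf a H μ ((e y) ^ p) (pow_ne_zero _ hy) (by rw [hae]; exact hA) hH ?_ j hj hj3 hjμ
  rw [← hF]
  have h4 : a * (F.map (e.comp ι)).comp (X ^ (f * (p - 1))) -
      C ((e y) ^ p) * (F.map (e.comp ι)).comp (X ^ f)
      = (a * iv (C (e ζ) * X : k[X]) F2 - b ^ p * iv (C (e ζ) * X : k[X]) F1)
        - a * (iv (C (e ζ) * X : k[X]) F2 - (F.map (e.comp ι)).comp (X ^ (f * (p - 1))))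
        + b ^ p * (iv (C (e ζ) * X : k[X]) F1 - (F.map (e.comp ι)).comp (X ^ f))
        + (b ^ p - C ((e y) ^ p)) * (F.map (e.comp ι)).comp (X ^ f) := by ring
  rw [h4]
  exact dvd_add (dvd_add (dvd_sub h1 (hF2'.mul_left _)) (hF1'.mul_left _)) (hbp.mul_right _)

end red

/-- the factors `X - 1` of a product of linear factors -/
theorem lin_fact {k : Type*} [Field k] {ι : Type*} [Fintype ι] [DecidableEq k] (a b c : ι → k)
    (h : ∀ i, a i + b i + c i = 0) (hac : ∀ i, ¬ (a i = 0 ∧ c i = 0)) :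
    ∃ u : k, u ≠ 0 ∧ ∏ i, (C (a i) + X * C (b i))
      = (X - 1) ^ (Finset.univ.filter (fun i => c i = 0)).card
        * (C u * ∏ i ∈ Finset.univ.filter (fun i => ¬ c i = 0), (C (a i) + X * C (b i))) := by
  refine ⟨∏ i ∈ Finset.univ.filter (fun i => c i = 0), (-(a i)), ?_, ?_⟩
  · refine Finset.prod_ne_zero_iff.2 fun i hi => ?_
    rw [Finset.mem_filter] at hi
    exact neg_ne_zero.2 fun h1 => hac i ⟨h1, hi.2⟩
  · rw [← Finset.prod_filter_mul_prod_filter_not Finset.univ (fun i => c i = 0), ← mul_assoc]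
    congr 1
    rw [map_prod, ← Finset.prod_const, ← Finset.prod_mul_distrib]
    refine Finset.prod_congr rfl fun i hi => ?_
    rw [Finset.mem_filter] at hi
    have h1 := h i
    rw [hi.2, add_zero] at h1
    have h2 : b i = - a i := by linear_combination h1
    rw [h2, C_neg]
    ring

end H77AB

end

section

/-!
# Project AB, module StickElM

Stickelberger relation in `M = ℚ(ζ_m)` for an element `A` whose ideal is a `p`-th power, `p ∣ m`.

PROOF. `(A) = I^p`. Choose `β ∈ I` with `(β) = I C`, `C` prime to `m` (`exists_moving`);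
`A'' = β^p / A` is integral, `(A'') = C^p`. `J` from `exists_stick_m` for `C`, `B = ∏ σ⁻¹ A''`;
`(B) = (J^p)`, `B (c B) = N(A'') > 0`, `(J (c J))^p = N(C)^p = |N(A'')|`, so `B = u J^p` with
`u (c u) = 1`, hence `u^(2m) = 1`.
-/

namespace H66AB

open NumberField H9AB
open scoped Pointwise

theorem cjM_mul_mem_TM (m : ℕ) [NeZero m] (M : Type*) [Field M] [NumberField M]
    [IsCyclotomicExtension {m} ℚ M] (b : ℕ) (hb : 1 ≤ b) (hb' : b + 2 ≤ m) (σ : M ≃ₐ[ℚ] M) :
    cjM m M * σ ∈ TM m M b ↔ σ ∉ TM m M b := by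
  classical
  have hm : 0 < m := NeZero.pos m
  set g := IsCyclotomicExtension.Rat.galEquivZMod m M with hg
  rw [mem_TM, mem_TM, ← hg]
  have h1 : g (cjM m M * σ) = -(g σ) := by
    rw [map_mul, hg, galEquiv_cjM, neg_one_mul]
  rw [h1, Units.val_neg]
  have : Fact (1 < m) := ⟨by omega⟩
  set t : ℕ := (g σ).val.val with ht
  have htc : Nat.Coprime t m := ZMod.val_coe_unit_coprime (g σ)
  have ht0 : 0 < t := by
    refine Nat.pos_of_ne_zero fun h => ?_
    rw [h, Nat.coprime_zero_left] at htc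
    omega
  have htm : t < m := ZMod.val_lt _
  have h2 : (-((g σ : (ZMod m)ˣ) : ZMod m)).val = m - t := by
    rw [ZMod.neg_val, if_neg (Units.ne_zero _)]
  rw [h2]
  have hnd : ∀ c : ℕ, 0 < c → c < m → ¬ m ∣ c * t := by
    intro c hc hc' h
    exact absurd (Nat.le_of_dvd hc (htc.symm.dvd_of_dvd_mul_right h)) (by omega)
  set r : ℕ := (b * t) % m with hr
  have hr0 : r ≠ 0 := fun h => hnd b (by omega) (by omega) (Nat.dvd_of_mod_eq_zero h)
  have hrp : r < m := Nat.mod_lt _ hm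
  have h3 : (b * (m - t)) % m = m - r := by
    have h4 : b * (m - t) + b * t = b * m := by
      rw [← mul_add, Nat.sub_add_cancel htm.le]
    have h5 : (b * (m - t) + r) % m = 0 := by
      rw [hr, Nat.add_mod_mod, h4]
      exact Nat.mul_mod_left _ _
    have h6 : ((b * (m - t)) % m + r) % m = 0 := by
      rw [Nat.mod_add_mod]
      exact h5
    have h7 : (b * (m - t)) % m < m := Nat.mod_lt _ hm
    obtain ⟨c, hc⟩ := Nat.dvd_of_mod_eq_zero h6
    have hc1 : c = 1 := by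
      have : m * c < m * 2 := by omega
      have h8 : c < 2 := Nat.lt_of_mul_lt_mul_left this
      rcases Nat.eq_zero_or_pos c with h9 | h9
      · rw [h9, mul_zero] at hc
        omega
      · omega
    rw [hc1, mul_one] at hc
    omega
  rw [h3]
  have h4 : t + r ≠ m := by
    intro h
    apply hnd (b + 1) (by omega) (by omega)
    have h5 : (t + r) % m = ((b + 1) * t) % m := by
      rw [hr, Nat.add_mod_mod]
      congr 1
      ring
    rw [h, Nat.mod_self] at h5
    exact Nat.dvd_of_mod_eq_zero h5.symm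
  omega

private theorem smul_span' {R G : Type*} [CommRing R] [Group G] [MulSemiringAction G R]
    (σ : G) (x : R) : σ • Ideal.span {x} = Ideal.span {σ • x} := by
  rw [Ideal.pointwise_smul_def, Ideal.map_span, Set.image_singleton]
  rfl

private theorem smul_intCast' {R G : Type*} [CommRing R] [Group G] [MulSemiringAction G R]
    (σ : G) (n : ℤ) : σ • (n : R) = (n : R) := by
  have h := map_intCast (MulSemiringAction.toRingHom G R σ) n
  exact h

private theorem natCast_mem' {R G : Type*} [CommRing R] [Group G] [MulSemiringAction G R]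
    (σ : G) (I : Ideal R) (n : ℕ) : (n : R) ∈ σ • I ↔ (n : R) ∈ I := by
  have h : σ • (n : R) = (n : R) := by
    have h := smul_intCast' (R := R) σ (n : ℤ)
    simpa using h
  conv_lhs => rw [← h]
  exact Ideal.smul_mem_pointwise_smul_iff

private theorem norm_prod (M : Type*) [Field M] [NumberField M] [IsGalois ℚ M] (A : 𝓞 M) :
    ∏ σ : M ≃ₐ[ℚ] M, σ • A = ((Algebra.norm ℤ A : ℤ) : 𝓞 M) := by
  apply FaithfulSMul.algebraMap_injective (𝓞 M) M
  rw [map_prod, map_intCast]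
  have h1 := Algebra.norm_eq_prod_automorphisms ℚ (algebraMap (𝓞 M) M A)
  have h2 := Algebra.coe_norm_int A
  have h3 : ((Algebra.norm ℤ A : ℤ) : M) = algebraMap ℚ M ((Algebra.norm ℤ A : ℤ) : ℚ) := by
    rw [map_intCast]
  rw [h3, h2]
  exact h1.symm

theorem prod_TM_mul_cjM (m : ℕ) [NeZero m] (M : Type*) [Field M] [NumberField M]
    [IsCyclotomicExtension {m} ℚ M] (b : ℕ) (hb : 1 ≤ b) (hb' : b + 2 ≤ m) (A : 𝓞 M) :
    (∏ σ ∈ TM m M b, σ⁻¹ • A) * (cjM m M • ∏ σ ∈ TM m M b, σ⁻¹ • A) =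
      ((Algebra.norm ℤ A : ℤ) : 𝓞 M) := by
  classical
  have : IsGalois ℚ M := IsCyclotomicExtension.isGalois {m} ℚ M
  rw [← norm_prod M A]
  have h1 : ∏ σ : M ≃ₐ[ℚ] M, σ • A = ∏ σ : M ≃ₐ[ℚ] M, σ⁻¹ • A :=
    Fintype.prod_equiv (Equiv.inv _) _ _ fun σ => by simp
  rw [h1, ← Finset.prod_mul_prod_compl (TM m M b), Finset.smul_prod']
  congr 1
  refine Finset.prod_bij (fun σ _ => cjM m M * σ) ?_ ?_ ?_ ?_
  · intro σ hσ
    rw [Finset.mem_compl]
    intro h
    exact (cjM_mul_mem_TM m M b hb hb' σ).1 h hσ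
  · intro σ _ τ _ h
    exact mul_left_cancel h
  · intro σ hσ
    rw [Finset.mem_compl] at hσ
    refine ⟨cjM m M * σ, (cjM_mul_mem_TM m M b hb hb' σ).2 hσ, ?_⟩
    rw [← mul_assoc, cjM_mul_cjM, one_mul]
  · intro σ _
    have h2 : (cjM m M)⁻¹ • A = cjM m M • A := by
      conv_lhs => rw [← cjM_smul_cjM_smul m M A]
      rw [inv_smul_smul]
    rw [mul_inv_rev, mul_smul, h2, cjM_comm]

/-- the case of an ideal prime to `m` -/
theorem stick_coprime_m (m : ℕ) [NeZero m] (M : Type*) [Field M] [NumberField M]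
    [IsCyclotomicExtension {m} ℚ M] (b : ℕ) (hb : 1 ≤ b) (hb' : b + 2 ≤ m) (p : ℕ) (hp : p ≠ 0)
    (A : 𝓞 M) (hA : A ≠ 0) (C : Ideal (𝓞 M)) (hC : C ^ p = Ideal.span {A})
    (hCm : ∀ P : Ideal (𝓞 M), P.IsPrime → (m : 𝓞 M) ∈ P → ¬ C ≤ P) :
    ∃ u J : 𝓞 M, u ^ (2 * m) = 1 ∧ ∏ σ ∈ TM m M b, σ⁻¹ • A = u * J ^ p := by
  classical
  have hspanA : Ideal.span {A} ≠ ⊥ := by
    rw [Ne, Ideal.span_singleton_eq_bot]; exact hA
  have hC0 : C ≠ ⊥ := by
    rintro rfl
    apply hspanA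
    rw [← hC, ← Ideal.zero_eq_bot, zero_pow hp]
  obtain ⟨J, hJ1, hJ2⟩ := exists_stick_m m M b hb hb' C hC0 hCm
  set B : 𝓞 M := ∏ σ ∈ TM m M b, σ⁻¹ • A with hB
  have hBJ : Ideal.span {J ^ p} = Ideal.span {B} := by
    rw [← Ideal.span_singleton_pow, hJ1, ← Finset.prod_pow]
    rw [hB, ← Ideal.prod_span_singleton]
    refine Finset.prod_congr rfl fun σ _ => ?_
    rw [← smul_span', ← hC, smul_pow']
  obtain ⟨u, hu⟩ := Ideal.span_singleton_eq_span_singleton.1 hBJ
  have hN := prod_TM_mul_cjM m M b hb hb' A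
  rw [← hB] at hN
  set n : ℤ := Algebra.norm ℤ A with hn
  have hn0 : n ≠ 0 := by
    rw [hn]
    exact Algebra.norm_ne_zero_iff.2 hA
  have hnpos : 0 ≤ n := by
    obtain ⟨φ⟩ : Nonempty (M →+* ℂ) := inferInstance
    have h1 := congrArg (fun x : 𝓞 M => φ (algebraMap (𝓞 M) M x)) hN
    simp only [map_mul, map_intCast] at h1
    have h2 : algebraMap (𝓞 M) M (cjM m M • B) = cjM m M (algebraMap (𝓞 M) M B) := rfl
    rw [h2, map_cjM_eq_conj, Complex.mul_conj] at h1
    have h3 : Complex.normSq (φ (algebraMap (𝓞 M) M B)) = (n : ℝ) := by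
      exact_mod_cast h1
    have h4 : (0 : ℝ) ≤ (n : ℝ) := by
      rw [← h3]
      exact Complex.normSq_nonneg _
    exact_mod_cast h4
  have hJp : J ^ p * (cjM m M • J ^ p) = (n : 𝓞 M) := by
    rw [smul_pow', ← mul_pow, hJ2, ← Nat.cast_pow, ← map_pow, hC, Ideal.absNorm_span_singleton,
      ← hn]
    have h1 : ((n.natAbs : ℕ) : ℤ) = n := Int.natAbs_of_nonneg hnpos
    calc ((n.natAbs : ℕ) : 𝓞 M) = (((n.natAbs : ℕ) : ℤ) : 𝓞 M) := (Int.cast_natCast _).symm
      _ = _ := by rw [h1]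
  have hucj : (u : 𝓞 M) * (cjM m M • (u : 𝓞 M)) = 1 := by
    have h1 : (n : 𝓞 M) ≠ 0 := Int.cast_ne_zero.2 hn0
    have h2 : (n : 𝓞 M) * ((u : 𝓞 M) * (cjM m M • (u : 𝓞 M))) = (n : 𝓞 M) * 1 := by
      calc (n : 𝓞 M) * ((u : 𝓞 M) * (cjM m M • (u : 𝓞 M)))
          = J ^ p * (cjM m M • J ^ p) * ((u : 𝓞 M) * (cjM m M • (u : 𝓞 M))) := by rw [hJp]
        _ = (J ^ p * u) * ((cjM m M • J ^ p) * (cjM m M • (u : 𝓞 M))) := by ring
        _ = (J ^ p * u) * (cjM m M • (J ^ p * u)) := by rw [smul_mul']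
        _ = (n : 𝓞 M) * 1 := by rw [hu, hN, mul_one]
    exact mul_left_cancel₀ h1 h2
  exact ⟨u, J, pow_eq_one_of_mul_cjM m M u hucj, by rw [← hu, mul_comm]⟩

/-- the Stickelberger relation for an element whose ideal is a `p`-th power -/
theorem stick_elem_m (m : ℕ) [NeZero m] (M : Type*) [Field M] [NumberField M]
    [IsCyclotomicExtension {m} ℚ M] (b : ℕ) (hb : 1 ≤ b) (hb' : b + 2 ≤ m) (p : ℕ) (hp : p.Prime)
    (hpm : p ∣ m) (A : 𝓞 M) (hA : ∀ P : Ideal (𝓞 M), P.IsPrime → (p : 𝓞 M) ∈ P → A ∉ P)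
    (I : Ideal (𝓞 M)) (hI : I ^ p = Ideal.span {A}) :
    ∃ u x J : 𝓞 M, u ^ (2 * m) = 1 ∧
      (∀ P : Ideal (𝓞 M), P.IsPrime → (p : 𝓞 M) ∈ P → x ∉ P ∧ J ∉ P) ∧
      (∏ σ ∈ TM m M b, σ⁻¹ • A) * J ^ p = u * x ^ p := by
  classical
  have hp0 : p ≠ 0 := hp.ne_zero
  have hm0 : m ≠ 0 := NeZero.ne m
  -- there is a prime above `p`
  obtain ⟨P₀, hP₀, hpP₀⟩ : ∃ P : Ideal (𝓞 M), P.IsPrime ∧ (p : 𝓞 M) ∈ P := by
    have h0 : (p : ℤ) ≠ 0 := by exact_mod_cast hp0
    have h1 : (Ideal.span {(p : ℤ)}).IsPrime := by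
      rw [Ideal.span_singleton_prime h0]
      exact Nat.prime_iff_prime_int.mp hp
    have h2 : (Ideal.span {(p : ℤ)}).IsMaximal := h1.isMaximal (by
      rw [Ne, Ideal.span_singleton_eq_bot]; exact h0)
    obtain ⟨P, hP, hpP⟩ := Ideal.exists_ideal_over_maximal_of_isIntegral (S := 𝓞 M)
      (Ideal.span {(p : ℤ)}) (by
        rw [(RingHom.injective_iff_ker_eq_bot _).1 (FaithfulSMul.algebraMap_injective ℤ (𝓞 M))]
        exact bot_le)
    refine ⟨P, hP.isPrime, ?_⟩
    have h3 : (p : ℤ) ∈ P.comap (algebraMap ℤ (𝓞 M)) := by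
      rw [hpP]
      exact Ideal.mem_span_singleton_self _
    rw [Ideal.mem_comap, map_natCast] at h3
    exact h3
  have hA0 : A ≠ 0 := by
    intro h
    apply hA P₀ hP₀ hpP₀
    rw [h]
    exact Ideal.zero_mem _
  have hspanA : Ideal.span {A} ≠ ⊥ := by
    rw [Ne, Ideal.span_singleton_eq_bot]; exact hA0
  have hI0 : I ≠ ⊥ := by
    rintro rfl
    apply hspanA
    rw [← hI, ← Ideal.zero_eq_bot, zero_pow hp0]
  obtain ⟨β, hβI, C, hC1, hC2⟩ := exists_moving I hI0 (m : 𝓞 M) (Nat.cast_ne_zero.2 hm0)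
  -- `β ^ p = A * A'`
  have h1 : Ideal.span {β ^ p} = Ideal.span {A} * C ^ p := by
    rw [← Ideal.span_singleton_pow, hC1, mul_pow, hI]
  have h2 : A ∣ β ^ p := by
    rw [← Ideal.span_singleton_le_span_singleton, h1]
    exact Ideal.mul_le_left
  obtain ⟨A', hA'⟩ := h2
  obtain ⟨k, hk⟩ := hpm
  have hmP : ∀ P : Ideal (𝓞 M), (p : 𝓞 M) ∈ P → (m : 𝓞 M) ∈ P := by
    intro P hP
    rw [hk, Nat.cast_mul]
    exact P.mul_mem_right _ hP
  have hCP : ∀ P : Ideal (𝓞 M), P.IsPrime → (m : 𝓞 M) ∈ P → ¬ C ≤ P := by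
    intro P hP hmP' hle
    apply hP.ne_top
    rw [eq_top_iff, ← hC2]
    exact sup_le ((Ideal.span_singleton_le_iff_mem _).2 hmP') hle
  have hC0 : C ≠ ⊥ := by
    rintro rfl
    exact hCP P₀ hP₀ (hmP P₀ hpP₀) bot_le
  have hCp : C ^ p = Ideal.span {A'} := by
    rw [hA', ← Ideal.span_singleton_mul_span_singleton] at h1
    exact (mul_left_cancel₀ hspanA h1).symm
  have hA'0 : A' ≠ 0 := by
    intro h
    rw [h, Ideal.span_singleton_eq_bot.2 rfl, ← Ideal.zero_eq_bot] at hCp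
    exact hC0 (pow_eq_zero_iff hp0 |>.1 hCp)
  obtain ⟨u, J, hu, hJ⟩ := stick_coprime_m m M b hb hb' p hp0 A' hA'0 C hCp hCP
  have hm1 : 2 * m = (2 * m - 1) + 1 := by omega
  have huu : u ^ (2 * m - 1) * u = 1 := by
    rw [← pow_succ, ← hm1, hu]
  have hx : (∏ σ ∈ TM m M b, σ⁻¹ • A) * (u * J ^ p) = (∏ σ ∈ TM m M b, σ⁻¹ • β) ^ p := by
    rw [← hJ, ← Finset.prod_mul_distrib, ← Finset.prod_pow]
    refine Finset.prod_congr rfl fun σ _ => ?_
    rw [← smul_mul', ← hA', smul_pow']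
  have hxP : ∀ P : Ideal (𝓞 M), P.IsPrime → (p : 𝓞 M) ∈ P → ∏ σ ∈ TM m M b, σ⁻¹ • β ∉ P := by
    intro P hP hpP h
    rw [Ideal.IsPrime.prod_mem_iff] at h
    obtain ⟨σ, _, h3⟩ := h
    have h4 : β ∈ σ • P := by
      rw [Ideal.mem_pointwise_smul_iff_inv_smul_mem]
      exact h3
    have hQ : (σ • P).IsPrime := (Ideal.IsPrime.smul_iff σ).2 hP
    have hpQ : (p : 𝓞 M) ∈ σ • P := (natCast_mem' σ _ p).2 hpP
    rw [← Ideal.span_singleton_le_iff_mem, hC1, hQ.mul_le] at h4
    rcases h4 with h5 | h5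
    · apply hA _ hQ hpQ
      have h6 : A ∈ I ^ p := by
        rw [hI]
        exact Ideal.mem_span_singleton_self A
      exact h5 (Ideal.pow_le_self hp0 h6)
    · exact hCP _ hQ (hmP _ hpQ) h5
  have hfin : (∏ σ ∈ TM m M b, σ⁻¹ • A) * J ^ p =
      u ^ (2 * m - 1) * (∏ σ ∈ TM m M b, σ⁻¹ • β) ^ p := by
    rw [← hx]
    linear_combination (-((∏ σ ∈ TM m M b, σ⁻¹ • A) * J ^ p)) * huu
  refine ⟨u ^ (2 * m - 1), ∏ σ ∈ TM m M b, σ⁻¹ • β, J, ?_, ?_, hfin⟩
  · rw [← pow_mul, mul_comm, pow_mul, hu, one_pow]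
  · intro P hP hpP
    refine ⟨hxP P hP hpP, fun hJP => hxP P hP hpP ?_⟩
    have h3 : (∏ σ ∈ TM m M b, σ⁻¹ • β) ^ p ∈ P := by
      rw [← hx]
      exact P.mul_mem_left _ (P.mul_mem_left _ (P.pow_mem_of_mem hJP p hp.pos))
    exact hP.mem_of_pow_mem _ h3

end H66AB

end

section

/-!
# Project AB, module StickP

The Stickelberger relation in `M = ℚ(ζ_m)`, `p ∣ m`, `p² ∤ m`, in helper72's form.
-/

namespace H66AB

open NumberField H9AB
open scoped Pointwise

/-- Let `M = ℚ(ζ_m)`, `p` an odd prime with `p ∣ m`, `p² ∤ m`, `A ∈ 𝓞 M` prime to `p` with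
`(A) = 𝔞^p`. Then `J^p ∏_{σ ∈ TM m M b} σ⁻¹ A = ζ_p^k Y^p` with `J`, `Y` prime to `p`. -/
theorem stick_pow (m p : ℕ) [NeZero m] (hp : p.Prime) (hp2 : p ≠ 2) (hpm : p ∣ m)
    (hpm2 : ¬ p ^ 2 ∣ m) (M : Type*) [Field M] [NumberField M] [IsCyclotomicExtension {m} ℚ M]
    {ζ : 𝓞 M} (hζ : IsPrimitiveRoot ζ p)
    (A : 𝓞 M) (hA : ∀ P : Ideal (𝓞 M), P.IsPrime → (p : 𝓞 M) ∈ P → A ∉ P)
    (𝔞 : Ideal (𝓞 M)) (h𝔞 : 𝔞 ^ p = Ideal.span {A}) (b : ℕ) (hb : 1 ≤ b) (hb' : b + 2 ≤ m) :
    ∃ (J Y : 𝓞 M) (k : ℕ),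
      (∀ P : Ideal (𝓞 M), P.IsPrime → (p : 𝓞 M) ∈ P → J ∉ P) ∧
      (∀ P : Ideal (𝓞 M), P.IsPrime → (p : 𝓞 M) ∈ P → Y ∉ P) ∧
      J ^ p * ∏ σ ∈ TM m M b, σ⁻¹ • A = ζ ^ k * Y ^ p := by
  classical
  have : NeZero p := ⟨hp.ne_zero⟩
  obtain ⟨f, hf⟩ := hpm
  obtain ⟨u, x, J, hu, hxJ, h⟩ := stick_elem_m m M b hb hb' p hp ⟨f, hf⟩ A hA 𝔞 h𝔞
  have hpf : ¬ p ∣ f := by
    rintro ⟨g, rfl⟩
    exact hpm2 ⟨g, by rw [hf]; ring⟩
  have hcop : Nat.Coprime (2 * f) p := by
    refine Nat.Coprime.mul_left ?_ ?_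
    · exact (Nat.coprime_primes Nat.prime_two hp).2 (Ne.symm hp2)
    · exact ((Nat.Prime.coprime_iff_not_dvd hp).2 hpf).symm
  obtain ⟨r, hr⟩ : ∃ r : ℕ, (2 * f * r) % p = 1 := by
    obtain ⟨r, -, hr⟩ := Nat.exists_mul_mod_eq_one_of_coprime hcop hp.one_lt
    exact ⟨r, hr⟩
  set s : ℕ := (2 * f * r) / p with hs
  have hrs : 2 * f * r = 1 + p * s := by
    have := Nat.mod_add_div (2 * f * r) p
    rw [hr] at this
    exact this.symm
  have h1 : (u * (u ^ s) ^ p) ^ p = 1 := by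
    have h2 : u * (u ^ s) ^ p = u ^ (2 * f * r) := by
      rw [hrs, pow_add, pow_one, ← pow_mul, mul_comm s p]
    rw [h2, ← pow_mul, show 2 * f * r * p = 2 * m * r by rw [hf]; ring, pow_mul, hu, one_pow]
  obtain ⟨i, -, hi⟩ := hζ.eq_pow_of_pow_eq_one h1
  have hm0 : 0 < m := NeZero.pos _
  have huu : IsUnit u := by
    refine IsUnit.of_mul_eq_one (u ^ (2 * m - 1)) ?_
    rw [← pow_succ', show 2 * m - 1 + 1 = 2 * m by omega, hu]
  refine ⟨J * u ^ s, x, i, ?_, ?_, ?_⟩
  · intro P hP hpP h4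
    rcases hP.mem_or_mem h4 with h5 | h5
    · exact (hxJ P hP hpP).2 h5
    · exact hP.ne_top (Ideal.eq_top_of_isUnit_mem _ (hP.mem_of_pow_mem _ h5) huu)
  · intro P hP hpP
    exact (hxJ P hP hpP).1
  · rw [hi, mul_pow]
    linear_combination (u ^ s) ^ p * h

end H66AB

end

section

/-!
# FD, Step 2: the sparseness theorem
-/

open Finset Filter Topology

namespace H59FD

open Pool.Agent.H42.FD (PE LL)

open Classical in
/-- a whole class over `AlgebraicClosure ℚ` -/
theorem whole_alg {n : ℕ} (T w : Fin n → AlgebraicClosure ℚ) (h1 : ∀ v, T v ≠ 1) {N : ℕ}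
    (hN0 : 0 < N) (hN : Even N) (c : ℕ)
    (hu : ∀ s, ∑ v, w v * LL (c + N * s) (T v) = 0) (t : AlgebraicClosure ℚ) (ht : t ≠ 0) :
    ∑ v ∈ univ.filter (fun v => T v = t), w v =
      (-1) ^ c * ∑ v ∈ univ.filter (fun v => T v * t = 1), w v := by
  have : Algebra.IsAlgebraic ℚ (AlgebraicClosure ℚ) := AlgebraicClosure.isAlgebraic ℚ
  let φ : AlgebraicClosure ℚ →+* ℂ := (IsAlgClosed.lift (M := ℂ) (R := ℚ)
    (S := AlgebraicClosure ℚ)).toRingHom
  have hinj : Function.Injective φ := φ.injective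
  have h2 := whole_class_w (fun v => φ (T v)) (fun v => φ (w v))
    (fun v h => h1 v (hinj (by rw [h, map_one]))) hN0 hN c c (by
      intro m hm hmc
      obtain ⟨s, rfl⟩ : ∃ s, m = c + N * s := by
        have h3 : N ∣ m - c := (Nat.modEq_iff_dvd' hm).mp hmc.symm
        obtain ⟨s, hs⟩ := h3
        exact ⟨s, by omega⟩
      have h4 := congrArg φ (hu s)
      rw [map_sum, map_zero] at h4
      rw [← h4]
      refine Finset.sum_congr rfl fun v _ => ?_
      rw [map_mul, map_LL]) (φ t) (by rwa [Ne, map_eq_zero])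
  apply hinj
  rw [map_sum, map_mul, map_sum, map_pow, map_neg, map_one]
  have e1 : univ.filter (fun v => φ (T v) = φ t) = univ.filter (fun v => T v = t) := by
    ext v; simp [hinj.eq_iff]
  have e2 : univ.filter (fun v => φ (T v) * φ t = 1) = univ.filter (fun v => T v * t = 1) := by
    ext v
    simp only [mem_filter, mem_univ, true_and]
    rw [← map_mul, map_eq_one_iff φ hinj]
  rw [← e1, ← e2]
  convert h2

open Classical in
/-- **Sparseness**, with weights `w` and parity `r`. -/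
theorem sparse_main_w {n : ℕ} (T w : Fin n → AlgebraicClosure ℚ)
    (h0 : ∀ v, T v ≠ 0) (h1 : ∀ v, T v ≠ 1) (r : ℕ)
    (hns : ¬ ∀ t, t ≠ 0 → ∑ v ∈ univ.filter (fun v => T v = t), w v =
      (-1) ^ r * ∑ v ∈ univ.filter (fun v => T v * t = 1), w v) :
    ∃ D : ℕ, ∃ c₀ : ℝ, 0 < c₀ ∧ ∀ (J : ℕ) (S : Finset ℕ),
      (∀ m ∈ S, m % 2 = r % 2 ∧ 1 ≤ m ∧ J ≤ m ∧ (m : ℝ) ≤ Real.exp (c₀ * J) ∧
        ∑ v, w v * LL m (T v) = 0) → S.card ≤ D := by
  obtain ⟨l, hl, hl3, σ, hσ⟩ := exists_good 2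
    ((univ.image T ∪ univ.image (fun v => 1 - T v)) ∪ (univ.image w).filter (fun x => x ≠ 0)) (by
      simp only [mem_union, mem_image, mem_univ, true_and, mem_filter, ne_eq, not_true_eq_false,
        and_false, or_false, not_or, not_exists]
      exact ⟨fun v => h0 v, fun v h => h1 v (by rw [sub_eq_zero] at h; exact h.symm)⟩)
  have hT0 : ∀ v, ‖σ (T v)‖ ≤ 1 := fun v => (hσ _ (by simp)).le
  have hT1 : ∀ v, ‖1 - σ (T v)‖ = 1 := by
    intro v
    have := hσ (1 - T v) (by simp)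
    rwa [map_sub, map_one] at this
  have hw : ∀ v, ‖σ (w v)‖ ≤ 1 := by
    intro v
    by_cases h : w v = 0
    · rw [h, map_zero, norm_zero]; norm_num
    · refine (hσ _ ?_).le
      simp only [mem_union, mem_image, mem_univ, true_and, mem_filter]
      exact Or.inr ⟨⟨v, rfl⟩, h⟩
  have hl2 : 0 < l - 1 := by omega
  have hodd : Odd l := hl.out.odd_of_ne_two (by omega)
  have heven : Even (l - 1) := Nat.Odd.sub_odd hodd odd_one
  have hsig : ∀ m, ∑ v, σ (w v) * LL m (σ (T v)) = σ (∑ v, w v * LL m (T v)) := by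
    intro m
    rw [map_sum]
    exact Finset.sum_congr rfl fun v _ => by rw [map_mul, map_LL]
  -- each class is sparse
  have hcl : ∀ c, ∃ D : ℕ, ∃ c₀ : ℝ, 0 < c₀ ∧ ∃ J₀ : ℕ, 1 ≤ c → c % 2 = r % 2 →
      ∀ J, J₀ ≤ J → ∀ S : Finset ℕ,
      (∀ s ∈ S, J ≤ c + (l - 1) * s ∧ ((c + (l - 1) * s : ℕ) : ℝ) ≤ Real.exp (c₀ * J) ∧
        ∑ v, w v * LL (c + (l - 1) * s) (T v) = 0) → S.card ≤ D := by
    intro c
    by_cases hc : 1 ≤ c ∧ c % 2 = r % 2
    · rcases sparse_class_w hl3 (fun v => σ (T v)) (fun v => σ (w v)) hw hT0 hT1 hc.1 with h | h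
      · exfalso
        apply hns
        have h2 : ∀ s, ∑ v, w v * LL (c + (l - 1) * s) (T v) = 0 := by
          intro s
          have h3 := h s
          rw [hsig] at h3
          exact (map_eq_zero σ).mp h3
        intro t ht
        rw [whole_alg T w h1 hl2 heven c h2 t ht]
        congr 1
        rw [neg_one_pow_eq_pow_mod_two, hc.2, ← neg_one_pow_eq_pow_mod_two]
      · obtain ⟨D, c₀, hc₀, J₀, hJ⟩ := h
        refine ⟨D, c₀, hc₀, J₀, fun _ _ J hJJ S hS => hJ J hJJ S fun s hs => ?_⟩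
        obtain ⟨a1, a2, a3⟩ := hS s hs
        refine ⟨a1, a2, ?_⟩
        rw [hsig, a3, map_zero]
    · refine ⟨0, 1, one_pos, 0, fun h1 h2 => absurd ⟨h1, h2⟩ hc⟩
  choose D c₀ hc₀ J₀ hcl using hcl
  -- the constants
  set cc := (Icc 1 (l - 1)).inf' ⟨1, by rw [mem_Icc]; omega⟩ c₀ with hcc
  have hccpos : 0 < cc := by
    rw [hcc, Finset.lt_inf'_iff]
    exact fun c _ => hc₀ c
  set JJ := (Icc 1 (l - 1)).sup J₀ with hJJ
  refine ⟨∑ c ∈ Icc 1 (l - 1), D c + (⌊Real.exp (cc * JJ)⌋₊ + 1), cc, hccpos, fun J S hS => ?_⟩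
  by_cases hJ : JJ ≤ J
  · refine le_trans ?_ (Nat.le_add_right _ _)
    have hcov : S ⊆ (Icc 1 (l - 1)).biUnion (fun c => S.filter (fun m => (m - 1) % (l - 1) + 1 = c)) := by
      intro m hm
      rw [mem_biUnion]
      refine ⟨(m - 1) % (l - 1) + 1, ?_, ?_⟩
      · rw [mem_Icc]
        have := Nat.mod_lt (m - 1) hl2
        omega
      · rw [mem_filter]; exact ⟨hm, rfl⟩
    refine (card_le_card hcov).trans (card_biUnion_le.trans (Finset.sum_le_sum fun c hc => ?_))
    by_cases hpar : c % 2 = r % 2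
    · have hc1 : 1 ≤ c := (mem_Icc.mp hc).1
      have hform : ∀ m ∈ S.filter (fun m => (m - 1) % (l - 1) + 1 = c),
          m = c + (l - 1) * ((m - 1) / (l - 1)) := by
        intro m hm
        rw [mem_filter] at hm
        have h2 := Nat.mod_add_div (m - 1) (l - 1)
        have h3 := (hS m hm.1).2.1
        omega
      have hinjOn : Set.InjOn (fun m => (m - 1) / (l - 1))
          (S.filter (fun m => (m - 1) % (l - 1) + 1 = c) : Set ℕ) := by
        intro a ha b hb hab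
        rw [hform a ha, hform b hb]
        simp only at hab
        rw [hab]
      rw [← card_image_of_injOn hinjOn]
      refine hcl c hc1 hpar J (le_trans (Finset.le_sup hc) hJ) _ fun s hs => ?_
      rw [mem_image] at hs
      obtain ⟨m, hm, rfl⟩ := hs
      rw [← hform m hm]
      rw [mem_filter] at hm
      obtain ⟨a1, a2, a3, a4, a5⟩ := hS m hm.1
      refine ⟨a3, a4.trans (Real.exp_le_exp.mpr ?_), a5⟩
      exact mul_le_mul_of_nonneg_right (Finset.inf'_le _ hc) (by positivity)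
    · have : S.filter (fun m => (m - 1) % (l - 1) + 1 = c) = ∅ := by
        rw [Finset.filter_eq_empty_iff]
        intro m hm h2
        obtain ⟨a1, a2, -⟩ := hS m hm
        apply hpar
        rw [← a1, ← h2]
        have h3 := Nat.mod_add_div (m - 1) (l - 1)
        obtain ⟨k, hk⟩ := heven
        have h4 : m = (m - 1) % (l - 1) + 1 + 2 * (k * ((m - 1) / (l - 1))) := by
          have : (l - 1) * ((m - 1) / (l - 1)) = 2 * (k * ((m - 1) / (l - 1))) := by
            generalize (m - 1) / (l - 1) = q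
            rw [hk]; ring
          omega
        conv_rhs => rw [h4]
        rw [Nat.add_mul_mod_self_left]
      rw [this]; simp
  · push Not at hJ
    refine le_trans ?_ (Nat.le_add_left _ _)
    have hsub : S ⊆ range (⌊Real.exp (cc * JJ)⌋₊ + 1) := by
      intro m hm
      rw [mem_range, Nat.lt_succ_iff]
      apply Nat.le_floor
      refine (hS m hm).2.2.2.1.trans (Real.exp_le_exp.mpr ?_)
      apply mul_le_mul_of_nonneg_left _ hccpos.le
      exact_mod_cast hJ.le
    exact (card_le_card hsub).trans (by rw [card_range])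

end H59FD

end

section

/-!
# AB, Step 2: the hypothesis `SparseW` of the weighted Theorem M
-/

open Finset Polynomial

namespace H59FD

open Classical in
/-- **Sparseness of the weighted Kummer relations.** -/
theorem sparseW : Pool.Agent.FD.SparseW := by
  intro n e T c h0 h1 hns
  obtain ⟨D, c₀, hc₀, h⟩ := sparse_main_w T c h0 h1 e (by
    intro hall
    apply hns
    intro τ
    by_cases hτ : τ = 0
    · subst hτ
      rw [Finset.filter_false_of_mem (fun v _ => h0 v), Finset.filter_false_of_mem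
        (fun v _ => by rw [mul_zero]; exact zero_ne_one), Finset.sum_empty, mul_zero]
    · exact hall τ hτ)
  refine ⟨D, c₀, hc₀, fun J S hS => h J S fun m hm => ?_⟩
  obtain ⟨a1, a2, a3, a4, a5⟩ := hS m hm
  refine ⟨a1, by omega, a3, a4, ?_⟩
  rw [← a5]
  exact Finset.sum_congr rfl fun v _ => by rw [LL_eq]

/-- The weighted Theorem M with the gap property as its only hypothesis. -/
theorem theoremMW (e n r : ℕ) (C : Fin n → MvPolynomial (Fin r) ℤ) (R : ℕ → MvPolynomial (Fin r) ℤ)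
    (Zok : ℕ → (ℕ → Prop) → Prop) (hgap : Pool.Agent.FD.GapG (fun m => m % 2 = e % 2) Zok) :
    Pool.Agent.H71.FD.Null (Pool.Agent.FD.FDBadW e n r C R Zok) :=
  Pool.Agent.FD.theoremMW sparseW e n r C R Zok hgap

end H59FD

end

section

/-!
# Project AB, D1: the twisted Kummer relations and inversion stability, density form

* `BadC f c n e p`: for some `Ω` (algebraically closed, characteristic `p`), a family `T v` of at most `n`
  elements, labels `π v ∈ (ℤ/f)ˣ` and a character `χ` with `χ(-1) = (-1)^e` all the relations with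
  `m ≡ e (mod 2)` hold, but the weighted symmetry fails.
* `null_BadC`: density zero, from the gap theorem with weights (`GapWStmt`) and the bridge (`BetaBad`).
-/

open Finset NumberField

namespace H59AB

open H69FD (LL)
open Pool.Agent.FD
open Pool.Agent.H71.FD

open Classical in
/-- the gap theorem with weights -/
def GapWStmt : Prop :=
  ∀ (k : Type) [Field k] [NumberField k] (q : ℕ) (W : ℕ → 𝓞 k),
    (∃ h, 0 < h ∧ h < q ∧ W h ≠ 0) → ∀ ε : ℝ, 0 < ε → ∃ w₀ : ℕ, ∀ w : ℕ, w₀ ≤ w →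
    ∃ X₀ : ℕ, ∀ X : ℕ, X₀ ≤ X →
    ∑ p ∈ (Finset.Icc 1 X).filter (fun p : ℕ => p.Prime ∧ H22GW.BadW k q W w (w ^ 4) p), Real.log p
      ≤ ε * X

/-- the bridge between the sums `beta` and the gap theorem -/
def BetaBad (f c : ℕ) : Prop :=
  ∀ (k : Type) [Field k] [NumberField k] (ψ : (ZMod f)ˣ →* (𝓞 k)ˣ),
    ∃ (q : ℕ) (W : ℕ → 𝓞 k), (∃ h, 0 < h ∧ h < q ∧ W h ≠ 0) ∧ ∃ B : ℕ, ∀ p : ℕ, p.Prime → B < p →
    ∀ (_ : NeZero (f * p)) (Ω : Type) (_ : Field Ω) (_ : CharP Ω p) (φ : 𝓞 k →+* Ω) (w V : ℕ),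
    V + 2 ≤ p → (∀ j, w ≤ j → j < V → ψ (-1) = (-1) ^ j →
      H99AB.beta Ω f p c (j + 1) ((Units.map φ.toMonoidHom).comp ψ) = 0) →
    H22GW.BadW k q W w V p

/-- one character -/
def BadC (f c n e p : ℕ) : Prop :=
  ∃ (_ : NeZero (f * p)) (n' : ℕ), n' ≤ n ∧ ∃ (Ω : Type) (_ : Field Ω) (_ : IsAlgClosed Ω)
    (_ : CharP Ω p) (π : Fin n' → (ZMod f)ˣ) (T : Fin n' → Ω) (χ : (ZMod f)ˣ →* Ωˣ),
    χ (-1) = (-1) ^ e ∧ (∀ v, T v ≠ 0) ∧ (∀ v, T v ≠ 1) ∧
    (¬ SymW e T (fun v => ((χ (π v) : Ωˣ) : Ω))) ∧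
    ∀ m, m % 2 = e % 2 → 2 ≤ m → 2 * m + 1 ≤ p →
      H99AB.beta Ω f p c (m + 1) χ = 0 ∨ ∑ v, ((χ (π v) : Ωˣ) : Ω) * LL m (T v) = 0

section

variable {f c : ℕ} {k : Type} [Field k] [NumberField k]

/-- the vanishing set of the sums for the character `ψ` -/
def ZokC (f c : ℕ) {k : Type} [Field k] [NumberField k] (ψ : (ZMod f)ˣ →* (𝓞 k)ˣ) (p : ℕ)
    (Z : ℕ → Prop) : Prop :=
  ∃ (_ : NeZero (f * p)) (Ω : Type) (_ : Field Ω) (_ : CharP Ω p) (φ : 𝓞 k →+* Ω),
    ∀ m, Z m → H99AB.beta Ω f p c (m + 1) ((Units.map φ.toMonoidHom).comp ψ) = 0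

/-- `(-1)^i = (-1)^j` in the units of a number ring -/
theorem parity_of_eq {i j : ℕ} (h : ((-1 : (𝓞 k)ˣ)) ^ i = (-1) ^ j) : i % 2 = j % 2 := by
  have h1 : ((-1 : 𝓞 k)) ^ i = (-1) ^ j := by
    have := congrArg (fun u : (𝓞 k)ˣ => (u : 𝓞 k)) h
    simpa using this
  rcases Nat.even_or_odd i with hi | hi <;> rcases Nat.even_or_odd j with hj | hj
  · rw [Nat.even_iff.mp hi, Nat.even_iff.mp hj]
  · rw [hi.neg_one_pow, hj.neg_one_pow] at h1
    exfalso
    have h2 : (2 : 𝓞 k) = 0 := by linear_combination h1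
    exact two_ne_zero h2
  · rw [hi.neg_one_pow, hj.neg_one_pow] at h1
    exfalso
    have h2 : (2 : 𝓞 k) = 0 := by linear_combination -h1
    exact two_ne_zero h2
  · rw [Nat.odd_iff.mp hi, Nat.odd_iff.mp hj]

/-- the gap property for the character `ψ` -/
theorem gapG_char (hG : GapWStmt) (hB : BetaBad f c) (ψ : (ZMod f)ˣ →* (𝓞 k)ˣ) (e : ℕ)
    (he : ψ (-1) = (-1) ^ e) : GapG (fun m => m % 2 = e % 2) (ZokC f c ψ) := by
  classical
  obtain ⟨q, W, hW, B, hbad⟩ := hB k ψ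
  refine ⟨4, fun ε hε => ?_⟩
  obtain ⟨w₀, hw₀⟩ := hG k q W hW (ε / 2) (by linarith)
  refine ⟨w₀, fun w hw => ?_⟩
  obtain ⟨X₀, hX₀⟩ := hw₀ w hw
  set B' := max B (w ^ 4 + 2) with hB'
  set C := ∑ p ∈ Icc 1 B', Real.log p with hC
  obtain ⟨X₁, hX₁⟩ := exists_nat_ge (C / (ε / 2))
  refine ⟨max X₀ X₁, fun X hX => ?_⟩
  have h1 := hX₀ X ((le_max_left _ _).trans hX)
  have h2 : C ≤ ε / 2 * X := by
    have h3 : C / (ε / 2) ≤ X := hX₁.trans (by exact_mod_cast (le_max_right _ _).trans hX)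
    rw [div_le_iff₀ (by linarith)] at h3
    linarith
  have hsub : (Icc 1 X).filter (fun p : ℕ => p.Prime ∧ ∃ Z, ZokC f c ψ p Z ∧
      GapZ (fun m => m % 2 = e % 2) w (w ^ 4) Z) ⊆
      Icc 1 B' ∪ (Icc 1 X).filter (fun p : ℕ => p.Prime ∧ H22GW.BadW k q W w (w ^ 4) p) := by
    intro p hp
    rw [mem_filter] at hp
    obtain ⟨hp1, hpp, Z, hZ, hgap⟩ := hp
    rw [mem_union]
    by_cases hpB : p ≤ B'
    · left
      rw [mem_Icc] at hp1 ⊢
      exact ⟨hp1.1, hpB⟩
    · right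
      push Not at hpB
      rw [mem_filter]
      refine ⟨hp1, hpp, ?_⟩
      obtain ⟨hne, Ω, hF, hch, φ, hφ⟩ := hZ
      refine hbad p hpp (lt_of_le_of_lt (le_max_left _ _) hpB) hne Ω hF hch φ w (w ^ 4)
        (le_of_lt (lt_of_le_of_lt (le_max_right _ _) hpB)) fun j hj1 hj2 hj3 => ?_
      apply hφ
      apply hgap j
      · rw [he] at hj3
        exact (parity_of_eq hj3).symm
      · omega
      · omega
  have h3 : ∑ p ∈ (Icc 1 X).filter (fun p : ℕ => p.Prime ∧ ∃ Z, ZokC f c ψ p Z ∧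
      GapZ (fun m => m % 2 = e % 2) w (w ^ 4) Z), Real.log p ≤
      C + ∑ p ∈ (Icc 1 X).filter (fun p : ℕ => p.Prime ∧ H22GW.BadW k q W w (w ^ 4) p), Real.log p := by
    refine (Finset.sum_le_sum_of_subset_of_nonneg hsub fun p _ _ =>
      Real.log_natCast_nonneg p).trans ?_
    rw [hC, ← Finset.sum_union_inter]
    exact le_add_of_nonneg_right (Finset.sum_nonneg fun p _ => Real.log_natCast_nonneg p)
  calc _ ≤ _ := h3
    _ ≤ ε / 2 * X + ε / 2 * X := add_le_add h2 h1
    _ = ε * X := by ring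

end

/-- finite unions -/
theorem null_iUnion {ι : Type*} [Finite ι] (G : ι → ℕ → Prop) (h : ∀ i, Null (G i)) :
    Null (fun p => ∃ i, G i p) := by
  classical
  have := Fintype.ofFinite ι
  have h1 := UD_biUnion Finset.univ G (fun _ => 0) (fun i _ => h i)
  rw [Finset.sum_const_zero] at h1
  exact UD.mono (e := 0) (e' := 0) h1 (fun p _ hp => by
    obtain ⟨i, hi⟩ := hp
    exact ⟨i, Finset.mem_univ i, hi⟩) le_rfl

/-- **The weighted symmetry holds for almost all primes.** -/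
theorem null_BadC {f c : ℕ} [NeZero f] (hG : GapWStmt) (hB : BetaBad f c) (n e : ℕ) :
    Null (BadC f c n e) := by
  classical
  set N := Monoid.exponent (ZMod f)ˣ with hN
  have hN0 : N ≠ 0 := Monoid.exponent_ne_zero_of_finite
  have : NeZero N := ⟨hN0⟩
  obtain ⟨E, _, _, hcyc⟩ : ∃ (E : Type) (_ : Field E) (_ : NumberField E),
      IsCyclotomicExtension {N} ℚ E :=
    ⟨CyclotomicField N ℚ, inferInstance, inferInstance, CyclotomicField.isCyclotomicExtension N ℚ⟩
  obtain ⟨ζ, hζ⟩ : ∃ ζ : E, IsPrimitiveRoot ζ N :=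
    ⟨IsCyclotomicExtension.zeta N ℚ E, IsCyclotomicExtension.zeta_spec N ℚ E⟩
  have hc1 : Nat.card (rootsOfUnity N (𝓞 E)) = N := hζ.toInteger_isPrimitiveRoot.card_rootsOfUnity
  have hf1 : Finite (rootsOfUnity N (𝓞 E)) :=
    Nat.finite_of_card_ne_zero (by rw [hc1]; exact NeZero.ne N)
  have hf2 : Finite ((ZMod f)ˣ →* rootsOfUnity N (𝓞 E)) :=
    Finite.of_injective (fun κ => (κ : (ZMod f)ˣ → rootsOfUnity N (𝓞 E))) DFunLike.coe_injective
  -- the exponents
  have hpow : ∀ (κ : (ZMod f)ˣ →* rootsOfUnity N (𝓞 E)) (g : (ZMod f)ˣ), ∃ i : ℕ,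
      ((κ g : (𝓞 E)ˣ) : 𝓞 E) = hζ.toInteger ^ i := fun κ g => exists_pow hζ κ g
  choose ex hex using hpow
  let ψ : ((ZMod f)ˣ →* rootsOfUnity N (𝓞 E)) → ((ZMod f)ˣ →* (𝓞 E)ˣ) :=
    fun κ => (rootsOfUnity N (𝓞 E)).subtype.comp κ
  let I := Σ n' : Fin (n + 1), ((Fin n'.val → (ZMod f)ˣ) × ((ZMod f)ˣ →* rootsOfUnity N (𝓞 E)))
  let G : I → ℕ → Prop := fun i p => (ψ i.2.2) (-1) = (-1) ^ e ∧
    FDBadW e i.1.val 1 (fun v => MvPolynomial.X 0 ^ (ex i.2.2 (i.2.1 v)))
      (fun t => if t = 0 then Polynomial.aeval (MvPolynomial.X 0) (Polynomial.cyclotomic N ℤ) else 0)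
      (ZokC f c (ψ i.2.2)) p
  have hnull : ∀ i, Null (G i) := by
    intro i
    by_cases hi : (ψ i.2.2) (-1) = (-1) ^ e
    · refine Null.mono (H59FD.theoremMW e i.1.val 1 _ _ _
        (gapG_char hG hB (ψ i.2.2) e hi)) fun p _ hp => hp.2
    · exact Null_of_bounded 0 fun p _ hp => absurd hp.1 hi
  have hall := (null_iUnion G hnull).or (Null_of_bounded (G := fun p => p ≤ max 2 N) (max 2 N)
    fun p _ hp => hp)
  refine hall.mono fun p hpp hp => ?_
  by_cases hpN : p ≤ max 2 N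
  · exact Or.inr hpN
  left
  push Not at hpN
  obtain ⟨hne, n', hn', Ω, hF, hAC, hch, π, T, χ, hχ, h0, h1, hns, hrel⟩ := hp
  have hNΩ : (N : Ω) ≠ 0 := by
    intro h
    rw [CharP.cast_eq_zero_iff Ω p] at h
    exact absurd (Nat.le_of_dvd (Nat.pos_of_ne_zero hN0) h)
      (not_le.mpr (lt_of_le_of_lt (le_max_right _ _) hpN))
  have : NeZero (N : Ω) := ⟨hNΩ⟩
  obtain ⟨z, hz⟩ := HasEnoughRootsOfUnity.exists_primitiveRoot Ω N
  obtain ⟨φ, hφ⟩ := exists_hom hz hζ
  obtain ⟨κ, hκ⟩ := exists_char hN.symm hζ φ (by rw [hφ]; exact hz) χ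
  have hχκ : χ = (Units.map φ.toMonoidHom).comp (ψ κ) := by
    ext g
    exact hκ g
  have hκ1 : ψ κ (-1) = (-1) ^ e := by
    have h2 : (ψ κ (-1)) ^ 2 = 1 := by rw [← map_pow, neg_one_sq, map_one]
    have h3 : ((ψ κ (-1) : (𝓞 E)ˣ) : 𝓞 E) ^ 2 = 1 := by
      have := congrArg (fun u : (𝓞 E)ˣ => (u : 𝓞 E)) h2
      simpa using this
    have h4 : φ ((ψ κ (-1) : (𝓞 E)ˣ) : 𝓞 E) = (-1) ^ e := by
      have h5 := congrArg (fun u : Ωˣ => (u : Ω)) hχ
      rw [hχκ] at h5
      simpa using h5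
    have hp2 : (2 : Ω) ≠ 0 := by
      intro h
      have h6 : ((2 : ℕ) : Ω) = 0 := by exact_mod_cast h
      rw [CharP.cast_eq_zero_iff Ω p] at h6
      exact absurd (Nat.le_of_dvd (by norm_num) h6)
        (not_le.mpr (lt_of_le_of_lt (le_max_left _ _) hpN))
    rw [sq, mul_self_eq_one_iff] at h3
    rcases h3 with h5 | h5
    · rw [h5, map_one] at h4
      rcases Nat.even_or_odd e with h6 | h6
      · rw [h6.neg_one_pow]
        exact Units.ext h5
      · rw [h6.neg_one_pow] at h4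
        exact absurd (by linear_combination h4 : (2 : Ω) = 0) hp2
    · rw [h5, map_neg, map_one] at h4
      rcases Nat.even_or_odd e with h6 | h6
      · rw [h6.neg_one_pow] at h4
        exact absurd (by linear_combination -h4 : (2 : Ω) = 0) hp2
      · rw [h6.neg_one_pow]
        exact Units.ext (by rw [h5]; simp)
  have hw : ∀ v, MvPolynomial.aeval (fun _ : Fin 1 => z)
      ((MvPolynomial.X 0 : MvPolynomial (Fin 1) ℤ) ^ (ex κ (π v))) = ((χ (π v) : Ωˣ) : Ω) := by
    intro v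
    rw [map_pow, MvPolynomial.aeval_X, hκ, hex, map_pow, hφ]
  refine ⟨⟨⟨n', by omega⟩, π, κ⟩, hκ1, ?_⟩
  refine ⟨fun m => H99AB.beta Ω f p c (m + 1) χ = 0, ⟨hne, Ω, hF, hch, φ, fun m hm => ?_⟩,
    Ω, hF, hch, T, fun _ => z, ?_, h0, h1, ?_, ?_⟩
  · rw [← hχκ]; exact hm
  · intro t
    dsimp only
    by_cases ht : t = 0
    · rw [if_pos ht, ← Polynomial.aeval_algHom_apply, MvPolynomial.aeval_X, Polynomial.aeval_def,
        Polynomial.eval₂_eq_eval_map, Polynomial.map_cyclotomic]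
      exact hz.isRoot_cyclotomic (Nat.pos_of_ne_zero hN0)
    · rw [if_neg ht, map_zero]
  · simp only [hw]
    exact hns
  · intro m hm1 hm2 hm3
    simp only [hw]
    exact hrel m hm1 hm2 hm3

/-- the twisted relation of index `m + 1`, even characters -/
def RelE (f p c : ℕ) [NeZero (f * p)] {Ω : Type*} [Field Ω] {n : ℕ} (π : Fin n → (ZMod f)ˣ)
    (T : Fin n → Ω) (m : ℕ) : Prop :=
  ∀ χ : (ZMod f)ˣ →* Ωˣ, χ (-1) = 1 → H99AB.beta Ω f p c (m + 1) χ = 0 ∨
    ∑ v, ((χ (π v) : Ωˣ) : Ω) * LL m (T v) = 0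

/-- the bad primes for the even relations -/
def ABBadE (f c n p : ℕ) : Prop :=
  ∃ (_ : NeZero (f * p)) (n' : ℕ), n' ≤ n ∧ ∃ (Ω : Type) (_ : Field Ω) (_ : IsAlgClosed Ω)
    (_ : CharP Ω p) (π : Fin n' → (ZMod f)ˣ) (T : Fin n' → Ω),
    (∀ v, T v ≠ 0) ∧ (∀ v, T v ≠ 1) ∧
    (∀ m, Even m → 2 ≤ m → 2 * m + 1 ≤ p → RelE f p c π T m) ∧
    ¬ ∃ σ : Equiv.Perm (Fin n'), ∀ v, (π (σ v) = π v ∨ π (σ v) = -π v) ∧ T (σ v) * T v = 1

/-- `SymW` is `Twist` -/
theorem twist_of_symW {G : Type*} [CommGroup G] {Ω : Type*} [Field Ω] {n e : ℕ} (π : Fin n → G)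
    (T : Fin n → Ω) (hT : ∀ v, T v ≠ 0) (c : G) (χ : G →* Ωˣ) (hχ : ((χ c : Ωˣ) : Ω) = (-1) ^ e)
    (h : SymW e T (fun v => ((χ (π v) : Ωˣ) : Ω))) : H85AB.Twist π T c χ := by
  classical
  intro τ
  by_cases hτ : τ = 0
  · subst hτ
    rw [inv_zero, Finset.filter_false_of_mem (fun v _ => hT v), Finset.sum_empty, mul_zero]
  · have h1 := h τ
    rw [hχ]
    have h2 : univ.filter (fun v => T v = τ⁻¹) = univ.filter (fun v => T v * τ = 1) := by
      ext v
      simp only [mem_filter, mem_univ, true_and]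
      rw [mul_eq_one_iff_eq_inv₀ hτ]
    convert h1 using 3

/-- **D1, even characters**: inversion stability up to complex conjugation for almost all primes. -/
theorem null_ABBadE {f c : ℕ} [NeZero f] (hG : GapWStmt) (hB : BetaBad f c) (n : ℕ) :
    Null (ABBadE f c n) := by
  classical
  let H : Subgroup (ZMod f)ˣ := Subgroup.zpowers (-1)
  let Q := (ZMod f)ˣ ⧸ H
  have hQf : Finite Q := inferInstance
  have hQF : Fintype Q := Fintype.ofFinite Q
  set M := max (max 2 n) (max (Monoid.exponent Q) (Fintype.card Q)) with hM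
  have hall := (null_BadC hG hB n 0).or
    (Null_of_bounded (G := fun p => p ≤ M) M fun p _ hp => hp)
  refine hall.mono fun p hpp hp => ?_
  by_contra hcon
  push Not at hcon
  obtain ⟨hb0, hpM⟩ := hcon
  obtain ⟨hne, n', hn', Ω, hF, hAC, hch, π, T, h0, h1, hrel, hns⟩ := hp
  have hcast : ∀ a : ℕ, a ≠ 0 → a ≤ M → (a : Ω) ≠ 0 := by
    intro a ha haM h
    rw [CharP.cast_eq_zero_iff Ω p] at h
    exact absurd (Nat.le_of_dvd (Nat.pos_of_ne_zero ha) h) (by omega)
  have hexQ : Monoid.exponent Q ≠ 0 := Monoid.exponent_ne_zero_of_finite (G := Q)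
  have hex : NeZero ((Monoid.exponent Q : ℕ) : Ω) :=
    ⟨hcast _ hexQ ((le_max_left _ _).trans (le_max_right _ _))⟩
  have hcd : ((Fintype.card Q : ℕ) : Ω) ≠ 0 :=
    hcast _ Fintype.card_ne_zero ((le_max_right _ _).trans (le_max_right _ _))
  apply hns
  have hn2 : n ≤ M := (le_max_right _ _).trans (le_max_left _ _)
  have hlt : Fintype.card (Fin n') < p := by
    rw [Fintype.card_fin]; omega
  have hneg : (-1 : (ZMod f)ˣ) ∈ H := Subgroup.mem_zpowers _
  have hsym : ∀ χ : Q →* Ωˣ, H85AB.Twist (fun v => (QuotientGroup.mk (π v) : Q)) T 1 χ := by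
    intro χ
    set χ' : (ZMod f)ˣ →* Ωˣ := χ.comp (QuotientGroup.mk' H) with hχ'
    have h2 : χ' (-1) = 1 := by
      rw [hχ', MonoidHom.comp_apply, QuotientGroup.mk'_apply,
        (QuotientGroup.eq_one_iff (-1 : (ZMod f)ˣ)).mpr hneg, map_one]
    refine twist_of_symW (G := Q) (e := 0) (fun v => (QuotientGroup.mk (π v) : Q)) T h0 1 χ
      (by rw [map_one, Units.val_one, pow_zero]) ?_
    by_contra hns2
    exact hb0 ⟨hne, n', hn', Ω, hF, hAC, hch, π, T, χ', by rw [h2, pow_zero], h0, h1, hns2,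
      fun m hm1 hm2 hm3 => hrel m (Nat.even_iff.mpr hm1) hm2 hm3 χ' h2⟩
  obtain ⟨σ, hσ⟩ := perm_of_twist_p hlt hcd (fun v => (QuotientGroup.mk (π v) : Q)) T 1 h0 hsym
  refine ⟨σ, fun v => ⟨?_, (hσ v).2⟩⟩
  have h3 : (QuotientGroup.mk (π (σ v)) : Q) = QuotientGroup.mk (π v) :=
    ((hσ v).1).trans (one_mul (M := Q) _)
  rw [QuotientGroup.eq] at h3
  obtain ⟨i, hi⟩ := Subgroup.mem_zpowers_iff.mp h3
  have h4 : π v = π (σ v) * (-1) ^ i := by rw [hi]; group
  rcases Int.even_or_odd i with h5 | h5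
  · rw [h5.neg_one_zpow, mul_one] at h4
    exact Or.inl h4.symm
  · rw [h5.neg_one_zpow, mul_neg_one] at h4
    exact Or.inr (by rw [h4, neg_neg])

end H59AB

end

section

/-!
# Project AB, module RelG: the twisted relations for an arbitrary element of `ℚ(ζ_(fp))`

* `red_eval`: the reduction of a value `P((ζ^f)^n)`, `P ∈ R[X]`, `ι : R → ℤ[ζ^p]`, at a place `e`.
* `rel_gen`: the relations of the sets `T_b` for `A ∈ 𝓞 M` prime to `p` with `(A) = I^p`.
* `kummer_gen`: their Fourier transform.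
-/

namespace H9AB

open Polynomial NumberField H9FC H45KC
open scoped Pointwise

section red

variable {p f m : ℕ} {M : Type*} [Field M] [NumberField M] {k : Type*} [Field k]
variable [Fact p.Prime] [CharP k p] (hpf : ¬ p ∣ f) [NeZero m] (hm : m = f * p)
    [IsCyclotomicExtension {m} ℚ M] {ζ : 𝓞 M} (hζ : IsPrimitiveRoot ζ m)

include hpf hm hζ

end red

section

variable (f p : ℕ) [NeZero f] [NeZero (f * p)] (M : Type*) [Field M] [NumberField M]
    [IsCyclotomicExtension {f * p} ℚ M]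

theorem rel_gen [hp : Fact p.Prime] (hp2 : p ≠ 2) (hpf : ¬ p ∣ f) {ζ : 𝓞 M}
    (hζ : IsPrimitiveRoot ζ (f * p)) (A : 𝓞 M)
    (hA : ∀ P : Ideal (𝓞 M), P.IsPrime → (p : 𝓞 M) ∈ P → A ∉ P) (I : Ideal (𝓞 M))
    (hI : I ^ p = Ideal.span {A})
    {Ω : Type*} [Field Ω] [CharP Ω p] (e : 𝓞 M →+* Ω) (j : ℕ) (hj : 2 ≤ j) (hj' : j + 2 ≤ p)
    (Y : (ZMod f)ˣ → Ω)
    (hY : ∀ σ : M ≃ₐ[ℚ] M, H71AB.Lg ζ (e.comp (H71AB.act σ)) j A =
      Y (ZMod.unitsMap (dvd_mul_right f p) (IsCyclotomicExtension.Rat.galEquivZMod (f * p) M σ)))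
    (β : ℕ) (hβ : 1 ≤ β) (hβ' : β + 2 ≤ f * p) (g : (ZMod f)ˣ) :
    ∑ t : (ZMod (f * p))ˣ, (if f * p < t.val.val + (β * t.val.val) % (f * p) then
        ((t.val.val : Ω)⁻¹) ^ j * Y (g * (ZMod.unitsMap (dvd_mul_right f p) t)⁻¹) else 0) = 0 := by
  classical
  have hpp : p.Prime := hp.out
  have hm1 : 1 < f * p := by omega
  have hm1' : Fact (1 < f * p) := ⟨hm1⟩
  have hζp : IsPrimitiveRoot (ζ ^ f) p := hζ.pow (NeZero.pos _) rfl
  have hpm2 : ¬ p ^ 2 ∣ f * p := by
    rw [pow_two]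
    intro h1
    exact hpf (Nat.dvd_of_mul_dvd_mul_right hpp.pos h1)
  obtain ⟨J, Z, k, hJ, hZ, hrel⟩ := H66AB.stick_pow (f * p) p hpp hp2 (dvd_mul_left p f) hpm2 M
    hζp A hA I hI β hβ hβ'
  obtain ⟨u, hu⟩ := ZMod.unitsMap_surjective (dvd_mul_right f p) g
  set τ : M ≃ₐ[ℚ] M := (IsCyclotomicExtension.Rat.galEquivZMod (f * p) M).symm u with hτ
  have hτu : IsCyclotomicExtension.Rat.galEquivZMod (f * p) M τ = u := by
    rw [hτ, MulEquiv.apply_symm_apply]
  have hmain := H71AB.rel_stick hpf rfl hζ (e.comp (H71AB.act τ)) (TM (f * p) M β) A J Z hA hJ hZ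
    (f * k) (by rw [hrel, pow_mul]) j hj hj'
  have hLg : ∀ σ : M ≃ₐ[ℚ] M,
      H71AB.Lg ζ ((e.comp (H71AB.act τ)).comp (H71AB.act σ⁻¹)) j A =
        Y (g * (ZMod.unitsMap (dvd_mul_right f p)
          (IsCyclotomicExtension.Rat.galEquivZMod (f * p) M σ))⁻¹) := by
    intro σ
    have h1 : (e.comp (H71AB.act τ)).comp (H71AB.act σ⁻¹) = e.comp (H71AB.act (τ * σ⁻¹)) := by
      ext x
      show e (τ • (σ⁻¹ • x)) = e ((τ * σ⁻¹) • x)
      rw [mul_smul]
    rw [h1, hY, map_mul, map_inv, hτu, map_mul, hu, map_inv]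
  have hcoef : ∀ t : (ZMod (f * p))ˣ, ((t⁻¹.val.val : ℕ) : Ω) = (t.val.val : Ω)⁻¹ := by
    intro t
    have h1 := H99AB.cast_val_mul (k := Ω) (p := p) (dvd_mul_left p f) t⁻¹ t
    rw [inv_mul_cancel, Units.val_one, ZMod.val_one, Nat.cast_one] at h1
    exact eq_inv_of_mul_eq_one_left h1.symm
  rw [← Finset.sum_filter]
  refine Eq.trans ?_ hmain
  symm
  refine Finset.sum_bij (fun σ _ => IsCyclotomicExtension.Rat.galEquivZMod (f * p) M σ) ?_ ?_ ?_ ?_
  · intro σ hσ
    rw [Finset.mem_filter]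
    exact ⟨Finset.mem_univ _, (mem_TM (f * p) M β σ).1 hσ⟩
  · intro σ _ σ' _ hh
    exact (IsCyclotomicExtension.Rat.galEquivZMod (f * p) M).injective hh
  · intro t ht
    rw [Finset.mem_filter] at ht
    refine ⟨(IsCyclotomicExtension.Rat.galEquivZMod (f * p) M).symm t, ?_, ?_⟩
    · rw [mem_TM, MulEquiv.apply_symm_apply]
      exact ht.2
    · rw [MulEquiv.apply_symm_apply]
  · intro σ _
    rw [hLg, hcoef]

theorem kummer_gen [hp : Fact p.Prime] (hp2 : p ≠ 2) (hpf : ¬ p ∣ f) {ζ : 𝓞 M}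
    (hζ : IsPrimitiveRoot ζ (f * p)) (A : 𝓞 M)
    (hA : ∀ P : Ideal (𝓞 M), P.IsPrime → (p : 𝓞 M) ∈ P → A ∉ P) (I : Ideal (𝓞 M))
    (hI : I ^ p = Ideal.span {A})
    {Ω : Type*} [Field Ω] [CharP Ω p] (e : 𝓞 M →+* Ω) (j : ℕ) (hj : 2 ≤ j) (hj' : j + 2 ≤ p)
    (Y : (ZMod f)ˣ → Ω)
    (hY : ∀ σ : M ≃ₐ[ℚ] M, H71AB.Lg ζ (e.comp (H71AB.act σ)) j A =
      Y (ZMod.unitsMap (dvd_mul_right f p) (IsCyclotomicExtension.Rat.galEquivZMod (f * p) M σ)))
    (c₀ : ℕ) (hc₀ : 1 ≤ c₀) (hc₀' : c₀ < f * p) (χ : (ZMod f)ˣ →* Ωˣ) :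
    H99AB.beta Ω f p c₀ j χ = 0 ∨ ∑ g : (ZMod f)ˣ, (χ g : Ω) * Y g = 0 := by
  classical
  exact H99AB.fourier_rel (k := Ω) (f := f) (p := p) c₀ j hc₀ hc₀' Y
    (fun β hβ hβ' g => rel_gen f p M hp2 hpf hζ A hA I hI e j hj hj' Y hY β hβ (by omega) g) χ

end

end H9AB

end

section

/-!
# Project AB, module MixMain: twisted Kummer relations for all solutions (odd `j`)
-/

namespace H77AB

open Polynomial NumberField H9FC H45KC H9AB
open scoped Pointwise

universe u v w

/-- the good indices -/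
noncomputable def GG {K : Type*} [Field K] {n : ℕ} {Ω : Type*} [Field Ω]
    (ψ : Fin n → (𝓞 K →+* Ω)) (a b c : 𝓞 K) : Finset (Fin n) := by
  classical
  exact Finset.univ.filter (fun i => ψ i a ≠ 0 ∧ ψ i b ≠ 0 ∧ ψ i c ≠ 0)

theorem mem_GG {K : Type*} [Field K] {n : ℕ} {Ω : Type*} [Field Ω]
    (ψ : Fin n → (𝓞 K →+* Ω)) (a b c : 𝓞 K) (i : Fin n) :
    i ∈ GG ψ a b c ↔ ψ i a ≠ 0 ∧ ψ i b ≠ 0 ∧ ψ i c ≠ 0 := by
  simp [GG]

/-- **Twisted Kummer relations for all solutions** -/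
theorem twisted_kummer_mixed (f p : ℕ) [NeZero f] [NeZero (f * p)] [hp : Fact p.Prime] (hp2 : p ≠ 2)
    (hpf : ¬ p ∣ f) (L : Type u) [Field L] [NumberField L] [IsCyclotomicExtension {f} ℚ L]
    (K : Type v) [Field K] [NumberField K] [Algebra L K]
    (a b c : 𝓞 K) (h : FSol K p a b c) (hcp : CopAt K p a b c)
    (Ω : Type w) [Field Ω] [IsAlgClosed Ω] [CharP Ω p] (w₀ : 𝓞 L →+* Ω)
    (ψ : (ZMod f)ˣ → Fin (Module.finrank L K) → (𝓞 K →+* Ω))
    (hψ : ∀ g, ∀ x y : 𝓞 K, (nfR L K x y).map (w₀.comp (actL f L g))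
      = ∏ i, (C (ψ g i x) + X * C (ψ g i y)))
    (c₀ : ℕ) (hc₀ : 1 ≤ c₀) (hc₀' : c₀ < f * p) (j : ℕ) (hj : Odd j) (hj3 : 3 ≤ j)
    (hj' : j + Module.finrank L K + 2 ≤ p) (χ : (ZMod f)ˣ →* Ωˣ) :
    H99AB.beta Ω f p c₀ j χ = 0 ∨
      ∑ g : (ZMod f)ˣ, (χ g : Ω) *
        ∑ i ∈ GG (ψ g) a b c, H69FD.LL (j - 1) (-(ψ g i b) / ψ g i a) = 0 := by
  classical
  have hpp : p.Prime := hp.out
  have hfp : NeZero (((f * p : ℕ) : ℕ) : ℚ) := ⟨Nat.cast_ne_zero.2 (NeZero.ne (f * p))⟩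
  have hcyc : IsCyclotomicExtension {f * p} ℚ (CyclotomicField (f * p) ℚ) :=
    CyclotomicField.isCyclotomicExtension (f * p) ℚ
  obtain ⟨φ⟩ := exists_emb f p L (CyclotomicField (f * p) ℚ)
  let _ : Algebra L (CyclotomicField (f * p) ℚ) := φ.toRingHom.toAlgebra
  obtain ⟨e, he⟩ := exists_lift_hom L (CyclotomicField (f * p) ℚ) Ω w₀
  obtain ⟨ζ, hζ⟩ : ∃ ζ : 𝓞 (CyclotomicField (f * p) ℚ), IsPrimitiveRoot ζ (f * p) :=
    ⟨_, (IsCyclotomicExtension.zeta_spec (f * p) ℚ (CyclotomicField (f * p) ℚ)).toInteger_isPrimitiveRoot⟩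
  obtain ⟨A, y, hAy, hAQ, J, hJ⟩ := exists_mix f p L (CyclotomicField (f * p) ℚ) K hp2 hpf
    (by omega) a b c h hζ
  have hsum : ∀ g i, ψ g i a + ψ g i b + ψ g i c = 0 := fun g i => fsol_hom h (ψ g i)
  have hac : ∀ g i, ¬ (ψ g i a = 0 ∧ ψ g i c = 0) := fun g i h0 =>
    (cop_hom h hcp (ψ g i)).2.2 ⟨h0.2, h0.1⟩
  have hab : ∀ g i, ψ g i c ≠ 0 → ψ g i a + ψ g i b ≠ 0 := by
    intro g i hc h0
    have h1 := hsum g i
    rw [h0, zero_add] at h1
    exact hc h1
  have hf0 : (f : Ω) ≠ 0 := by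
    intro h0
    exact hpf ((CharP.cast_eq_zero_iff Ω p f).1 h0)
  have h20 : (2 : Ω) ≠ 0 := by
    intro h0
    have h1 : ((2 : ℕ) : Ω) = 0 := by exact_mod_cast h0
    rw [CharP.cast_eq_zero_iff Ω p] at h1
    exact hp2 ((Nat.prime_dvd_prime_iff_eq hpp Nat.prime_two).1 h1)
  have hval : ∀ σ, H71AB.Lg ζ (e.comp (H71AB.act σ)) j A =
      -(2 * (f : Ω) ^ j) * ∑ i ∈ GG (ψ (ZMod.unitsMap (dvd_mul_right f p)
        (IsCyclotomicExtension.Rat.galEquivZMod (f * p) (CyclotomicField (f * p) ℚ) σ))) a b c,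
        H69FD.LL (j - 1) (-(ψ (ZMod.unitsMap (dvd_mul_right f p)
        (IsCyclotomicExtension.Rat.galEquivZMod (f * p) (CyclotomicField (f * p) ℚ) σ)) i b) /
          ψ (ZMod.unitsMap (dvd_mul_right f p)
        (IsCyclotomicExtension.Rat.galEquivZMod (f * p) (CyclotomicField (f * p) ℚ) σ)) i a) := by
    intro σ
    set g : (ZMod f)ˣ := ZMod.unitsMap (dvd_mul_right f p)
        (IsCyclotomicExtension.Rat.galEquivZMod (f * p) (CyclotomicField (f * p) ℚ) σ) with hg
    have hhom : (e.comp (H71AB.act σ)).comp (algebraMap (𝓞 L) (𝓞 (CyclotomicField (f * p) ℚ))) =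
        w₀.comp (actL f L g) := by
      rw [← he]
      ext x
      show e (H71AB.act σ (algebraMap (𝓞 L) (𝓞 (CyclotomicField (f * p) ℚ)) x)) = _
      rw [act_algebraMap f p L (CyclotomicField (f * p) ℚ)]
      rfl
    obtain ⟨u, hu, hfac⟩ := lin_fact (fun i => ψ g i a) (fun i => ψ g i b) (fun i => ψ g i c)
      (hsum g) (hac g)
    set H : Polynomial Ω := C u * ∏ i ∈ Finset.univ.filter (fun i => ¬ ψ g i c = 0),
      (C (ψ g i a) + X * C (ψ g i b)) with hH
    have hne : ∀ i ∈ Finset.univ.filter (fun i => ¬ ψ g i c = 0),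
        (C (ψ g i a) + X * C (ψ g i b) : Polynomial Ω).eval 1 ≠ 0 := by
      intro i hi
      rw [Finset.mem_filter] at hi
      simp only [eval_add, eval_C, eval_mul, eval_X, one_mul]
      exact hab g i hi.2
    have hHe : H.eval 1 ≠ 0 := by
      rw [hH, eval_mul, eval_C, eval_prod]
      exact mul_ne_zero hu (Finset.prod_ne_zero_iff.2 hne)
    have hμ : (Finset.univ.filter (fun i => ψ g i c = 0)).card ≤ Module.finrank L K := by
      refine (Finset.card_le_univ _).trans ?_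
      rw [Fintype.card_fin]
    have h1 := Lg_mix hpf rfl hζ hp2 (e.comp (H71AB.act σ))
      (algebraMap (𝓞 L) (𝓞 (CyclotomicField (f * p) ℚ)))
      (mem_adjoin f p L (CyclotomicField (f * p) ℚ) hζ) (nfR L K a b) A y
      (H71AB.ev_ne_zero _ A fun Q hQ hpQ => (hAQ Q hQ hpQ).1)
      (H71AB.ev_ne_zero _ y fun Q hQ hpQ => (hAQ Q hQ hpQ).2) hAy
      (Finset.univ.filter (fun i => ψ g i c = 0)).card H hHe (by rw [hhom, hψ g a b, hfac]) j hj hj3
      (by omega)
    have h2 : DL j H = - ∑ i ∈ GG (ψ g) a b c, H69FD.LL (j - 1) (-(ψ g i b) / ψ g i a) := by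
      rw [hH, DL_mul j (by omega) _ _ (by simpa using hu) (by
        rw [eval_prod]
        exact Finset.prod_ne_zero_iff.2 hne), DL_C j (by omega), zero_add,
        DL_lin_prod _ (fun i => ψ g i a) (fun i => ψ g i b) (by
          intro i hi
          rw [Finset.mem_filter] at hi
          exact hab g i hi.2) j (by omega), ← Finset.sum_neg_distrib]
      have h3 : (Finset.univ.filter (fun i => ¬ ψ g i c = 0)).filter
          (fun i => ψ g i a ≠ 0 ∧ ψ g i b ≠ 0) = GG (ψ g) a b c := by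
        ext i
        rw [Finset.mem_filter, Finset.mem_filter, mem_GG]
        constructor
        · rintro ⟨⟨-, h4⟩, h5, h6⟩
          exact ⟨h5, h6, h4⟩
        · rintro ⟨h5, h6, h4⟩
          exact ⟨⟨Finset.mem_univ _, h4⟩, h5, h6⟩
      rw [h3]
      refine Finset.sum_congr rfl fun i hi => ?_
      rw [mem_GG] at hi
      exact H87AB.DL_lin j (by omega) _ _ hi.1 (hab g i hi.2.2)
    rw [h1, h2]
    ring
  rcases kummer_gen f p (CyclotomicField (f * p) ℚ) hp2 hpf hζ A (fun Q hQ hpQ => (hAQ Q hQ hpQ).1)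
    J hJ e j (by omega) (by omega) (fun g => -(2 * (f : Ω) ^ j) *
      ∑ i ∈ GG (ψ g) a b c, H69FD.LL (j - 1) (-(ψ g i b) / ψ g i a)) hval c₀ hc₀ hc₀' χ with h1 | h1
  · exact Or.inl h1
  · right
    have h2 : ∑ g : (ZMod f)ˣ, (χ g : Ω) * (-(2 * (f : Ω) ^ j) *
        ∑ i ∈ GG (ψ g) a b c, H69FD.LL (j - 1) (-(ψ g i b) / ψ g i a)) =
        -(2 * (f : Ω) ^ j) * ∑ g : (ZMod f)ˣ, (χ g : Ω) *
        ∑ i ∈ GG (ψ g) a b c, H69FD.LL (j - 1) (-(ψ g i b) / ψ g i a) := by
      rw [Finset.mul_sum]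
      exact Finset.sum_congr rfl fun g _ => by ring
    rw [h2] at h1
    exact (mul_eq_zero.1 h1).resolve_left (neg_ne_zero.2 (mul_ne_zero h20 (pow_ne_zero _ hf0)))

end H77AB

end

section

/-!
# Project AB, module MixL: the mixed relation for `K = L`, and in the form of an index set

* `relL`: `H88AB.RelL f L p c₀ Ω` for `7 ≤ p`, `p ∤ f`, `1 ≤ c₀ < f p`.
* `good_rel`: the relation for a general `K ⊇ L`, index set `Fin n'`, in the form `H59AB.RelE` (all characters).
-/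

namespace H77AB

open Polynomial NumberField H9FC H45KC H9AB
open scoped Pointwise

universe u v w

/-- the good places, over all `g` -/
noncomputable def GP {f : ℕ} [NeZero f] {K : Type*} [Field K] {n : ℕ} {Ω : Type*} [Field Ω]
    (ψ : (ZMod f)ˣ → Fin n → (𝓞 K →+* Ω)) (a b c : 𝓞 K) : Finset ((ZMod f)ˣ × Fin n) := by
  classical
  exact Finset.univ.filter (fun x => x.2 ∈ GG (ψ x.1) a b c)

theorem mem_GP {f : ℕ} [NeZero f] {K : Type*} [Field K] {n : ℕ} {Ω : Type*} [Field Ω]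
    (ψ : (ZMod f)ˣ → Fin n → (𝓞 K →+* Ω)) (a b c : 𝓞 K) (x : (ZMod f)ˣ × Fin n) :
    x ∈ GP ψ a b c ↔ ψ x.1 x.2 a ≠ 0 ∧ ψ x.1 x.2 b ≠ 0 ∧ ψ x.1 x.2 c ≠ 0 := by
  classical
  simp [GP, mem_GG]

theorem card_GP {f : ℕ} [NeZero f] {K : Type*} [Field K] {n : ℕ} {Ω : Type*} [Field Ω]
    (ψ : (ZMod f)ˣ → Fin n → (𝓞 K →+* Ω)) (a b c : 𝓞 K) :
    (GP ψ a b c).card ≤ Fintype.card (ZMod f)ˣ * n := by
  refine (Finset.card_le_univ _).trans ?_
  rw [Fintype.card_prod, Fintype.card_fin]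

theorem sum_GP {f : ℕ} [NeZero f] {K : Type*} [Field K] {n : ℕ} {Ω : Type*} [Field Ω]
    (ψ : (ZMod f)ˣ → Fin n → (𝓞 K →+* Ω)) (a b c : 𝓞 K) (χ : (ZMod f)ˣ →* Ωˣ)
    (F : (ZMod f)ˣ → Fin n → Ω) :
    ∑ x ∈ GP ψ a b c, (χ x.1 : Ω) * F x.1 x.2 = ∑ g : (ZMod f)ˣ, (χ g : Ω) * ∑ i ∈ GG (ψ g) a b c, F g i := by
  classical
  unfold GP
  rw [Finset.sum_filter, Fintype.sum_prod_type]
  refine Finset.sum_congr rfl fun g _ => ?_
  rw [Finset.mul_sum, ← Finset.sum_filter]
  simp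

/-- **the mixed relation with an index set**: all characters, even `m` -/
theorem good_rel (f p : ℕ) [NeZero f] [NeZero (f * p)] [hp : Fact p.Prime] (hp2 : p ≠ 2)
    (hpf : ¬ p ∣ f) (L : Type u) [Field L] [NumberField L] [IsCyclotomicExtension {f} ℚ L]
    (K : Type v) [Field K] [NumberField K] [Algebra L K]
    (a b c : 𝓞 K) (h : FSol K p a b c) (hcp : CopAt K p a b c)
    (Ω : Type w) [Field Ω] [IsAlgClosed Ω] [CharP Ω p] (w₀ : 𝓞 L →+* Ω)
    (ψ : (ZMod f)ˣ → Fin (Module.finrank L K) → (𝓞 K →+* Ω))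
    (hψ : ∀ g, ∀ x y : 𝓞 K, (nfR L K x y).map (w₀.comp (actL f L g))
      = ∏ i, (C (ψ g i x) + X * C (ψ g i y)))
    (c₀ : ℕ) (hc₀ : 1 ≤ c₀) (hc₀' : c₀ < f * p) (m : ℕ) (hm : Even m) (hm2 : 2 ≤ m)
    (hmp : m + Module.finrank L K + 3 ≤ p) {n' : ℕ} (e : Fin n' ≃ GP ψ a b c) (χ : (ZMod f)ˣ →* Ωˣ) :
    H99AB.beta Ω f p c₀ (m + 1) χ = 0 ∨
      ∑ v : Fin n', (χ (e v).1.1 : Ω) * H69FD.LL m (-(ψ (e v).1.1 (e v).1.2 b) / ψ (e v).1.1 (e v).1.2 a) = 0 := by
  classical
  have h1 := twisted_kummer_mixed f p hp2 hpf L K a b c h hcp Ω w₀ ψ hψ c₀ hc₀ hc₀' (m + 1)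
    hm.add_one (by omega) (by omega) χ
  rw [Nat.add_sub_cancel] at h1
  refine h1.imp id fun h2 => ?_
  rw [← h2, ← sum_GP ψ a b c χ (fun g i => H69FD.LL m (-(ψ g i b) / ψ g i a)),
    ← Finset.sum_coe_sort (GP ψ a b c), ← Equiv.sum_comp e]

/-- **symmetry of the good places**, from `H59AB.ABBadE` -/
theorem symE_mixed (f p : ℕ) [NeZero f] [NeZero (f * p)] [hp : Fact p.Prime]
    (hpf : ¬ p ∣ f) (L : Type u) [Field L] [NumberField L] [IsCyclotomicExtension {f} ℚ L]
    (K : Type v) [Field K] [NumberField K] [Algebra L K] (hpn : 2 * Module.finrank L K + 5 ≤ p)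
    (a b c : 𝓞 K) (h : FSol K p a b c) (hcp : CopAt K p a b c)
    (Ω : Type) [Field Ω] [IsAlgClosed Ω] [CharP Ω p] (w₀ : 𝓞 L →+* Ω)
    (ψ : (ZMod f)ˣ → Fin (Module.finrank L K) → (𝓞 K →+* Ω))
    (hψ : ∀ g, ∀ x y : 𝓞 K, (nfR L K x y).map (w₀.comp (actL f L g))
      = ∏ i, (C (ψ g i x) + X * C (ψ g i y)))
    (c₀ : ℕ) (hc₀ : 1 ≤ c₀) (hc₀' : c₀ < f * p) (N : ℕ)
    (hN : Fintype.card (ZMod f)ˣ * Module.finrank L K ≤ N) (hbad : ¬ H59AB.ABBadE f c₀ N p) :
    ∃ σ : Equiv.Perm (GP ψ a b c), ∀ v, ((σ v).1.1 = v.1.1 ∨ (σ v).1.1 = -v.1.1) ∧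
      (-(ψ (σ v).1.1 (σ v).1.2 b) / ψ (σ v).1.1 (σ v).1.2 a) * (-(ψ v.1.1 v.1.2 b) / ψ v.1.1 v.1.2 a) = 1 := by
  classical
  have hn1 : 0 < Module.finrank L K := by
    have : FiniteDimensional L K := Module.Finite.of_restrictScalars_finite ℚ L K
    exact Module.finrank_pos
  set e : Fin (GP ψ a b c).card ≃ GP ψ a b c := (GP ψ a b c).equivFin.symm with he
  set T : Fin (GP ψ a b c).card → Ω := fun v => -(ψ (e v).1.1 (e v).1.2 b) / ψ (e v).1.1 (e v).1.2 a with hT
  have hT0 : ∀ v, T v ≠ 0 := by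
    intro v
    obtain ⟨h1, h2, -⟩ := (mem_GP ψ a b c _).1 (e v).2
    exact div_ne_zero (neg_ne_zero.2 h2) h1
  have hT1 : ∀ v, T v ≠ 1 := by
    intro v h1
    obtain ⟨h2, -, h3⟩ := (mem_GP ψ a b c _).1 (e v).2
    simp only [hT] at h1
    rw [div_eq_one_iff_eq h2] at h1
    have h4 := fsol_hom h (ψ (e v).1.1 (e v).1.2)
    apply h3
    linear_combination h4 + h1
  by_cases hex : ∃ σ : Equiv.Perm (Fin (GP ψ a b c).card),
      ∀ v, ((e (σ v)).1.1 = (e v).1.1 ∨ (e (σ v)).1.1 = -(e v).1.1) ∧ T (σ v) * T v = 1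
  · obtain ⟨σ, hσ⟩ := hex
    refine ⟨(e.symm.trans σ).trans e, fun v => ?_⟩
    have h1 := hσ (e.symm v)
    simp only [hT, Equiv.apply_symm_apply] at h1
    exact h1
  · exfalso
    apply hbad
    refine ⟨inferInstance, _, (card_GP ψ a b c).trans hN, Ω, inferInstance, inferInstance,
      inferInstance, fun v => (e v).1.1, T, hT0, hT1, ?_, hex⟩
    intro m hm h2m hmp χ _
    exact good_rel f p (by omega) hpf L K a b c h hcp Ω w₀ ψ hψ c₀ hc₀ hc₀' m hm h2m (by omega) e χ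

end H77AB

end

section

/-!
# Project AB, D1: the bridge of helper99
-/

open Finset NumberField

namespace H59AB

open Pool.Agent.H71.FD

/-- the bridge -/
theorem betaBad {f c : ℕ} (hc : c.Prime) (hcf : ¬ c ∣ f) (hf : 2 ≤ f) : BetaBad f c := by
  intro k _ _ ψ
  refine ⟨c * f, H99AB.wt f c (MulChar.ofUnitHom ψ), H99AB.exists_wt_ne k f c hc hf ψ, c * f,
    fun p hp hpB hne Ω hF hch φ w V hV h => ?_⟩
  have : Fact p.Prime := ⟨hp⟩
  refine H99AB.badW_of_beta k f c p hc hcf hf hpB ψ Ω φ w V (by omega) fun j h1 h2 h3 => ?_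
  exact h j h1 h2 (Units.ext (by rw [h3]; simp))

/-- **D1**, even characters, from the gap theorem -/
theorem null_ABE {f c : ℕ} (hG : GapWStmt) (hc : c.Prime) (hcf : ¬ c ∣ f) (hf : 2 ≤ f) (n : ℕ) :
    Null (ABBadE f c n) :=
  have : NeZero f := ⟨by omega⟩
  null_ABBadE hG (betaBad hc hcf hf) n

end H59AB

end

section

/-!
# Project FD, version 2: the relative master theorem

`F ⊆ ℚ(ζ_f)`, `K ⊇ F`, `P = N_{K/F}(a + bX) ∈ 𝓞_F[X]`, `w : 𝓞_F → Ω`. Outside a set of primes of density zero, which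
depends only on `f` and `[K:F]`:
* `master_real`: `F` totally real, every solution (`CopAt`): the multiplicities of `x`, `1/x`, `1-x` as roots of
  `w(P)` are equal, `x ≠ 0, 1`.
* `master_first`: first case, `F` arbitrary with complex conjugation `j`: the multiplicity of `x` as a root of
  `(w ∘ j)(P)` is the one of `1/x` and of `1-x` as a root of `w(P)`.
-/

namespace H72AB

open Polynomial NumberField H9FC H9AB Pool.Agent.H71.FD

universe u v w

/-- complex conjugation of `L` extends the one of `F` -/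
theorem cj_ext (f : ℕ) [NeZero f] (F : Type*) [Field F] (L : Type*) [Field L] [NumberField L]
    [IsCyclotomicExtension {f} ℚ L] [Algebra F L] (j : F →+* F)
    (hj : ∀ φ : F →+* ℂ, ∀ x, φ (j x) = (starRingEnd ℂ) (φ x)) (x : F) :
    cjM f L (algebraMap F L x) = algebraMap F L (j x) := by
  obtain ⟨φ⟩ : Nonempty (L →+* ℂ) := inferInstance
  apply φ.injective
  rw [H66AB.map_cjM_eq_conj f L φ]
  exact (hj (φ.comp (algebraMap F L)) x).symm

section

variable {K : Type*} [Field K] [NumberField K] {p : ℕ} {Ω : Type*} [Field Ω] [CharP Ω p]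

omit [NumberField K] [CharP Ω p] in
theorem not_both {a b c : 𝓞 K} (χ : 𝓞 K →+* Ω) (hs : χ a + χ b + χ c = 0) (hC : ¬ (χ a = 0 ∧ χ b = 0 ∧ χ c = 0)) :
    χ a ≠ 0 ∨ χ b ≠ 0 := by
  by_contra hcon
  push Not at hcon
  obtain ⟨h1, h2⟩ := hcon
  rw [h1, h2, zero_add, zero_add] at hs
  exact hC ⟨h1, h2, hs⟩

theorem cop_hom' [Fact p.Prime] {a b c : 𝓞 K} (hC : CopAt K p a b c) (χ : 𝓞 K →+* Ω) :
    ¬ (χ a = 0 ∧ χ b = 0 ∧ χ c = 0) := by
  rintro ⟨h1, h2, h3⟩
  refine hC (RingHom.ker χ) (RingHom.ker_isPrime χ) ?_ ⟨h1, h2, h3⟩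
  rw [RingHom.mem_ker, map_natCast]
  exact CharP.cast_eq_zero Ω p

end

/-- the values at a zero `a + x b = 0`, `x ≠ 0, 1` -/
theorem vals {Ω : Type*} [Field Ω] {α β γ x : Ω} (hs : α + β + γ = 0) (hC : ¬ (α = 0 ∧ β = 0 ∧ γ = 0))
    (hx0 : x ≠ 0) (hx1 : x ≠ 1) (h : α + x * β = 0) : α ≠ 0 ∧ β ≠ 0 ∧ γ ≠ 0 := by
  have hβ : β ≠ 0 := by
    intro h0
    rw [h0, mul_zero, add_zero] at h
    rw [h, h0, zero_add, zero_add] at hs
    exact hC ⟨h, h0, hs⟩
  have hα : α = -(x * β) := eq_neg_of_add_eq_zero_left h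
  have hγ : γ = (x - 1) * β := by linear_combination hs - h
  refine ⟨?_, hβ, ?_⟩
  · rw [hα]
    exact neg_ne_zero.2 (mul_ne_zero hx0 hβ)
  · rw [hγ]
    exact mul_ne_zero (sub_ne_zero.2 hx1) hβ

/-- `T T' = 1` for the type `-b/a` -/
theorem move_inv {Ω : Type*} [Field Ω] {α β α' β' x : Ω} (hα : α ≠ 0) (hα' : α' ≠ 0) (hx0 : x ≠ 0)
    (h : α + x * β = 0) (hT : -β' / α' * (-β / α) = 1) : α' + x⁻¹ * β' = 0 := by
  field_simp at hT ⊢
  have h1 : α' * α = β' * β := by linear_combination -hT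
  have hβ : β ≠ 0 := by
    intro h0
    rw [h0, mul_zero, add_zero] at h
    exact hα h
  have h2 : β * (α' * x + β') = 0 := by linear_combination α' * h - h1
  have h3 := (mul_eq_zero.1 h2).resolve_left hβ
  linear_combination h3

/-- `(1 - T) (1 - T') = 1`, type `-c/a` -/
theorem move_sub {Ω : Type*} [Field Ω] {α β γ α' β' γ' x : Ω} (hs : α + β + γ = 0) (hs' : α' + β' + γ' = 0)
    (hα : α ≠ 0) (hα' : α' ≠ 0) (h : α + x * β = 0) (hT : -γ' / α' * (-γ / α) = 1) :
    α' + (1 - x) * β' = 0 := by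
  field_simp at hT
  have h1 : γ' * γ = α' * α := by linear_combination hT
  have hβ : β ≠ 0 := by
    intro h0
    rw [h0, mul_zero, add_zero] at h
    exact hα h
  have hγ : γ = (x - 1) * β := by linear_combination hs - h
  have h2 : β * (α' + (1 - x) * β') = 0 := by
    have h3 : γ' = -α' - β' := by linear_combination hs'
    rw [hγ, h3] at h1
    linear_combination h1 + α' * h
  exact (mul_eq_zero.1 h2).resolve_left hβ

section env

variable (f : ℕ) [NeZero f]

/-- the compositum with `L = ℚ(ζ_f)` and the families of the places -/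
theorem exists_env (F : Type u) (K : Type v) (L : Type w) [Field F] [NumberField F] [Field K] [NumberField K]
    [Field L] [NumberField L] [IsCyclotomicExtension {f} ℚ L] [Algebra F K] [Algebra F L] :
    ∃ (K' : Type v) (_ : Field K') (_ : NumberField K') (_ : Algebra F K') (_ : Algebra K K') (_ : Algebra L K'),
      IsScalarTower F K K' ∧ IsScalarTower F L K' ∧ Module.finrank L K' ≤ Module.finrank F K * f ∧
      ∀ (Ω : Type) [Field Ω] [IsAlgClosed Ω] (w : 𝓞 F →+* Ω), ∃ (w₀ : 𝓞 L →+* Ω)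
        (ψ : (ZMod f)ˣ → Fin (Module.finrank L K') → (𝓞 K' →+* Ω)),
        w₀.comp (algebraMap (𝓞 F) (𝓞 L)) = w ∧
        ∀ g, ∀ x y : 𝓞 K', (nfR L K' x y).map (w₀.comp (actL f L g)) = ∏ i, (C (ψ g i x) + X * C (ψ g i y)) := by
  obtain ⟨K', iF, iN, iA, iK, iL, hs1, hs2, hd⟩ := exists_comp F K L
  have hst : IsScalarTower ℚ F L := IsScalarTower.of_algebraMap_eq' (Subsingleton.elim _ _)
  have hfF : FiniteDimensional F L := Module.Finite.of_restrictScalars_finite ℚ F L
  refine ⟨K', iF, iN, iA, iK, iL, hs1, hs2, ?_, ?_⟩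
  · have h1 : Module.finrank F L * Module.finrank L K' = Module.finrank F K' := Module.finrank_mul_finrank F L K'
    have h2 : Module.finrank ℚ F * Module.finrank F L = Module.finrank ℚ L := Module.finrank_mul_finrank ℚ F L
    have h3 : Module.finrank ℚ L = f.totient := IsCyclotomicExtension.Rat.finrank f L
    have h4 : Module.finrank F L ≤ f := by
      have h5 : 0 < Module.finrank ℚ F := Module.finrank_pos
      calc Module.finrank F L ≤ Module.finrank ℚ F * Module.finrank F L := Nat.le_mul_of_pos_left _ h5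
        _ = f.totient := by rw [h2, h3]
        _ ≤ f := Nat.totient_le f
    have h6 : 0 < Module.finrank F L := Module.finrank_pos
    calc Module.finrank L K' ≤ Module.finrank F L * Module.finrank L K' := Nat.le_mul_of_pos_left _ h6
      _ = Module.finrank F K' := h1
      _ ≤ Module.finrank F K * Module.finrank F L := hd
      _ ≤ Module.finrank F K * f := Nat.mul_le_mul_left _ h4
  · intro Ω _ _ w
    obtain ⟨w₀, hw₀⟩ := exists_lift_hom F L Ω w
    choose ψ hψ using fun g => exists_relFam L K' Ω (w₀.comp (actL f L g))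
    exact ⟨w₀, ψ, hw₀, fun g => (hψ g).2⟩

theorem neg_mem_HF (F : Type*) [Field F] (L : Type*) [Field L] [NumberField L]
    [IsCyclotomicExtension {f} ℚ L] [Algebra F L] (hreal : ∀ φ : F →+* ℂ, (starRingEnd ℂ).comp φ = φ)
    (g : (ZMod f)ˣ) (hg : g ∈ HF f F L) : -g ∈ HF f F L := by
  rw [mem_HF] at hg ⊢
  intro x
  have h1 : -g = -1 * g := by rw [neg_mul, one_mul]
  rw [h1, map_mul]
  show cjM f L ((IsCyclotomicExtension.Rat.galEquivZMod f L).symm g (algebraMap F L x)) = _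
  rw [hg x, cj_ext f F L (RingHom.id F) fun φ y => (DFunLike.congr_fun (hreal φ) y).symm]
  rfl

end env

open Classical in
/-- **The relative master theorem**, `F` totally real, all solutions. -/
theorem master_real (f : ℕ) (hf : 2 ≤ f) (d : ℕ) : ∃ B : ℕ → Prop, Null B ∧ ∀ p : ℕ, p.Prime → ¬ B p →
    ∀ (F : Type u) (K : Type v) [Field F] [NumberField F] [Field K] [NumberField K] [Algebra F K],
    Nonempty (F →+* CyclotomicField f ℚ) → (∀ φ : F →+* ℂ, (starRingEnd ℂ).comp φ = φ) →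
    Module.finrank F K ≤ d → ∀ a b c : 𝓞 K, FSol K p a b c → CopAt K p a b c →
    ∀ (Ω : Type) [Field Ω] [IsAlgClosed Ω] [CharP Ω p] (w : 𝓞 F →+* Ω) (x : Ω), x ≠ 0 → x ≠ 1 →
      rootMultiplicity x ((nfR F K a b).map w) = rootMultiplicity x⁻¹ ((nfR F K a b).map w) ∧
      rootMultiplicity x ((nfR F K a b).map w) = rootMultiplicity (1 - x) ((nfR F K a b).map w) := by
  have hfne : NeZero f := ⟨by omega⟩
  have hfq : NeZero ((f : ℕ) : ℚ) := ⟨Nat.cast_ne_zero.2 (NeZero.ne f)⟩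
  have hcyc : IsCyclotomicExtension {f} ℚ (CyclotomicField f ℚ) := CyclotomicField.isCyclotomicExtension f ℚ
  obtain ⟨c₀, hc₀, hc₀p⟩ := Nat.exists_infinite_primes (f + 1)
  have hc₀f : ¬ c₀ ∣ f := fun h => absurd (Nat.le_of_dvd (by omega) h) (by omega)
  refine ⟨fun p => H59AB.ABBadE f c₀ (Fintype.card (ZMod f)ˣ * (d * f)) p ∨ p ≤ max (max c₀ f) (2 * (d * f) + 5),
    ?_, ?_⟩
  · refine Null.or (H59AB.null_ABE (fun k _ _ => H22GW.gapW k) hc₀p hc₀f hf _) ?_
    exact UD_of_bounded _ fun p _ hp => hp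
  intro p hp hB F K _ _ _ _ _ ⟨ι⟩ hreal hdim a b c hF hC Ω _ _ _ w
  rw [not_or, not_le] at hB
  obtain ⟨hbad, hbig⟩ := hB
  have hfact : Fact p.Prime := ⟨hp⟩
  have hne : NeZero (f * p) := ⟨mul_ne_zero (NeZero.ne f) hp.ne_zero⟩
  have hp1 : c₀ < p := lt_of_le_of_lt ((le_max_left _ _).trans (le_max_left _ _)) hbig
  have hp2 : f < p := lt_of_le_of_lt ((le_max_right _ _).trans (le_max_left _ _)) hbig
  have hp3 : 2 * (d * f) + 5 < p := lt_of_le_of_lt (le_max_right _ _) hbig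
  have hpf : ¬ p ∣ f := fun h => absurd (Nat.le_of_dvd (by omega) h) (by omega)
  let _ : Algebra F (CyclotomicField f ℚ) := ι.toAlgebra
  obtain ⟨K', _, _, _, _, _, _, _, hn, henv⟩ := exists_env f F K (CyclotomicField f ℚ)
  obtain ⟨w₀, ψ, hw₀, hψ⟩ := henv Ω w
  have hnd : Module.finrank (CyclotomicField f ℚ) K' ≤ d * f := hn.trans (Nat.mul_le_mul_right _ hdim)
  let m : 𝓞 K →+* 𝓞 K' := algebraMap (𝓞 K) (𝓞 K')
  have hmι : ∀ z, m z = RingOfIntegers.mapRingHom (algebraMap K K') z := fun z => by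
    apply RingOfIntegers.coe_injective
    rfl
  have hF' : FSol K' p (m a) (m b) (m c) := by
    rw [hmι, hmι, hmι]
    exact H3AB.FSol_map (algebraMap K K') hF
  have hC' : CopAt K' p (m a) (m b) (m c) := H3AB.CopAt_map m hC
  have hs : ∀ g i, ψ g i (m a) + ψ g i (m b) + ψ g i (m c) = 0 := fun g i => fsol_hom hF' (ψ g i)
  have hcop : ∀ g i, ¬ (ψ g i (m a) = 0 ∧ ψ g i (m b) = 0 ∧ ψ g i (m c) = 0) := fun g i => cop_hom' hC' (ψ g i)
  have hcount := mult_count f F (CyclotomicField f ℚ) K K' w w₀ hw₀ ψ hψ a b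
    (fun g i => not_both (ψ g i) (hs g i) (hcop g i))
  have hpos : 0 < Module.finrank K K' := by
    have hfin : FiniteDimensional K K' := Module.Finite.of_restrictScalars_finite ℚ K K'
    exact Module.finrank_pos
  have hc₀' : c₀ < f * p := lt_of_lt_of_le hp1 (Nat.le_mul_of_pos_left p (by omega))
  obtain ⟨σ₁, hσ₁⟩ := H77AB.symE_mixed f p hpf (CyclotomicField f ℚ) K' (by omega) (m a) (m b) (m c) hF' hC' Ω w₀ ψ hψ
    c₀ hc₀p.one_lt.le hc₀' _ (Nat.mul_le_mul_left _ hnd) hbad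
  obtain ⟨σ₂, hσ₂⟩ := H77AB.symE_mixed f p hpf (CyclotomicField f ℚ) K' (by omega) (m a) (m c) (m b) hF'.rot.rot.swap
    hC'.rot.rot.swap Ω w₀ ψ hψ c₀ hc₀p.one_lt.le hc₀' _ (Nat.mul_le_mul_left _ hnd) hbad
  have hle : ∀ x : Ω, x ≠ 0 → x ≠ 1 →
      Module.finrank K K' * rootMultiplicity x ((nfR F K a b).map w) ≤
        Module.finrank K K' * rootMultiplicity x⁻¹ ((nfR F K a b).map w) ∧
      Module.finrank K K' * rootMultiplicity x ((nfR F K a b).map w) ≤
        Module.finrank K K' * rootMultiplicity (1 - x) ((nfR F K a b).map w) := by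
    intro x hx0 hx1
    constructor
    · rw [hcount, hcount]
      refine card_le_of_perm _ _ (H77AB.GP ψ (m a) (m b) (m c)) ?_ σ₁ ?_
      · intro v hv
        rw [H77AB.mem_GP]
        exact vals (hs v.1 v.2) (hcop v.1 v.2) hx0 hx1 hv.2
      · intro v hv
        obtain ⟨h1, h2⟩ := hσ₁ v
        obtain ⟨ha1, -, -⟩ := (H77AB.mem_GP ψ (m a) (m b) (m c) _).1 v.2
        obtain ⟨ha2, -, -⟩ := (H77AB.mem_GP ψ (m a) (m b) (m c) _).1 (σ₁ v).2
        refine ⟨?_, move_inv ha1 ha2 hx0 hv.2 h2⟩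
        rcases h1 with h1 | h1
        · rw [h1]; exact hv.1
        · rw [h1]; exact neg_mem_HF f F _ hreal _ hv.1
    · rw [hcount, hcount]
      refine card_le_of_perm _ _ (H77AB.GP ψ (m a) (m c) (m b)) ?_ σ₂ ?_
      · intro v hv
        rw [H77AB.mem_GP]
        obtain ⟨h1, h2, h3⟩ := vals (hs v.1 v.2) (hcop v.1 v.2) hx0 hx1 hv.2
        exact ⟨h1, h3, h2⟩
      · intro v hv
        obtain ⟨h1, h2⟩ := hσ₂ v
        obtain ⟨ha1, -, -⟩ := (H77AB.mem_GP ψ (m a) (m c) (m b) _).1 v.2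
        obtain ⟨ha2, -, -⟩ := (H77AB.mem_GP ψ (m a) (m c) (m b) _).1 (σ₂ v).2
        refine ⟨?_, move_sub (hs _ _) (hs _ _) ha1 ha2 hv.2 h2⟩
        rcases h1 with h1 | h1
        · rw [h1]; exact hv.1
        · rw [h1]; exact neg_mem_HF f F _ hreal _ hv.1
  intro x hx0 hx1
  have hi0 : x⁻¹ ≠ 0 := inv_ne_zero hx0
  have hi1 : x⁻¹ ≠ 1 := fun h => hx1 (inv_eq_one.1 h)
  have hj0 : 1 - x ≠ 0 := sub_ne_zero.2 (Ne.symm hx1)
  have hj1 : 1 - x ≠ 1 := fun h => hx0 (by linear_combination -h)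
  have h1 := (hle x hx0 hx1).1
  have h2 := (hle x⁻¹ hi0 hi1).1
  have h3 := (hle x hx0 hx1).2
  have h4 := (hle (1 - x) hj0 hj1).2
  rw [inv_inv] at h2
  rw [sub_sub_cancel] at h4
  exact ⟨Nat.eq_of_mul_eq_mul_left hpos (le_antisymm h1 h2), Nat.eq_of_mul_eq_mul_left hpos (le_antisymm h3 h4)⟩

end H72AB

end
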