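import Pool.Agent.H71.TFC.M07
import Pool.Agent.H71.TFC.M09

/-! The parts of this file: H83.AB.CardH, H83.AB.Good, H83.AB.GoodGrp, H42.AB.Good2, H87.AB.Abel0, H87.AB.AbelS, H2.N3.Pnt, H29.AB.Ap, H87.AB.AbelG, H88.AB.Real, H72.AB.Strong, H88.AB.RealN, H88.AB.RelId, H72.AB.StrongK, H72.AB.StrongC, H87.AB.Null. -/

section

/-!
# AB CardH (module D2c): the number of classes `g` modulo `f`, fixing `K`, with `g = 2` modulo `3`

`K` in `L = ℚ(ζ_f)`, `3 ∣ f`, no primitive cube root of unity in `K`: among the `φ(f)/[K:ℚ]` classes of `(ZMod f)ˣ`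
which fix `K` exactly one half is `2` modulo `3`.
-/

set_option autoImplicit false

namespace Pool.Agent.H83.AB

open Finset

open scoped Classical in
theorem card_good (f : ℕ) [NeZero f] (h3 : 3 ∣ f) (L : Type*) [Field L] [NumberField L]
    [IsCyclotomicExtension {f} ℚ L] (K : Type*) [Field K] [NumberField K] (ι : K →+* L)
    (hω : ∀ x : K, x ^ 2 + x + 1 ≠ 0) :
    2 * Module.finrank ℚ K *
      ((univ.filter fun g : (ZMod f)ˣ =>
        (∀ x : K, (IsCyclotomicExtension.Rat.galEquivZMod f L).symm g (ι x) = ι x) ∧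
          (g : ZMod f).val % 3 = 2).card) = f.totient := by
  have hf : f ≠ 0 := NeZero.ne f
  have hgal : IsGalois ℚ L := IsCyclotomicExtension.isGalois {f} ℚ L
  set e := IsCyclotomicExtension.Rat.galEquivZMod f L with he
  set φ : K →ₐ[ℚ] L := ι.toRatAlgHom with hφ
  have hφι : ∀ x, φ x = ι x := fun _ => rfl
  set M : IntermediateField ℚ L := φ.fieldRange with hM
  set H : Subgroup Gal(L/ℚ) := M.fixingSubgroup with hH
  -- the cube root of unity
  have hprim := IsCyclotomicExtension.zeta_spec f ℚ L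
  obtain ⟨m, hm⟩ := h3
  have hm0 : m ≠ 0 := by rintro rfl; simp at hm; exact hf hm
  set ω : L := (IsCyclotomicExtension.zeta f ℚ L) ^ m with hωdef
  have hωp : IsPrimitiveRoot ω 3 := hprim.pow (Nat.pos_of_ne_zero hf) (by rw [hm, mul_comm])
  have hω3 : ω ^ 3 = 1 := hωp.pow_eq_one
  have hω1 : ω ≠ 1 := hωp.ne_one (by norm_num)
  have hω2 : ω ^ 2 ≠ ω := by
    intro h
    apply hω1
    have h0 : ω ≠ 0 := hωp.ne_zero (by norm_num)
    have h1 : ω * ω = ω * 1 := by rw [mul_one, ← sq, h]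
    exact mul_left_cancel₀ h0 h1
  have hωq : ω ^ 2 + ω + 1 = 0 := by
    have h1 : (ω - 1) * (ω ^ 2 + ω + 1) = 0 := by
      have : (ω - 1) * (ω ^ 2 + ω + 1) = ω ^ 3 - 1 := by ring
      rw [this, hω3, sub_self]
    exact (mul_eq_zero.1 h1).resolve_left (sub_ne_zero.2 hω1)
  have hact : ∀ σ : Gal(L/ℚ), σ ω = ω ^ ((e σ : ZMod f).val) := by
    intro σ
    refine IsCyclotomicExtension.Rat.galEquivZMod_apply_of_pow_eq f L σ ?_
    rw [hωdef, ← pow_mul, mul_comm m f, pow_mul, hprim.pow_eq_one, one_pow]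
  have hcop : ∀ g : (ZMod f)ˣ, (g : ZMod f).val % 3 = 1 ∨ (g : ZMod f).val % 3 = 2 := by
    intro g
    have h1 : ((g : ZMod f).val).Coprime f := ZMod.val_coe_unit_coprime g
    have h2 : ((g : ZMod f).val).Coprime 3 := Nat.Coprime.coprime_dvd_right ⟨m, hm⟩ h1
    have h4 : ¬ 3 ∣ (g : ZMod f).val := by
      intro h
      have := Nat.dvd_gcd h (dvd_refl 3)
      rw [h2] at this
      omega
    omega
  have hpow : ∀ a : ℕ, ω ^ a = ω ^ (a % 3) := by
    intro a
    conv_lhs => rw [← Nat.div_add_mod a 3]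
    rw [pow_add, pow_mul, hω3, one_pow, one_mul]
  have hσ1 : ∀ σ : Gal(L/ℚ), σ ω = ω ↔ ((e σ : ZMod f).val) % 3 = 1 := by
    intro σ
    rw [hact σ, hpow]
    rcases hcop (e σ) with h | h
    · rw [h, pow_one]; simp
    · rw [h]
      constructor
      · intro h'; exact absurd h' hω2
      · intro h'; omega
  have hσ2 : ∀ σ : Gal(L/ℚ), σ ω ≠ ω → σ ω = ω ^ 2 := by
    intro σ hσ
    rw [hact σ, hpow]
    rcases hcop (e σ) with h | h
    · exact absurd ((hσ1 σ).2 h) hσ
    · rw [h]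
  -- some element of `H` moves `ω`
  obtain ⟨h₀, hh₀, hmove⟩ : ∃ h₀ ∈ H, h₀ ω ≠ ω := by
    by_contra hcon
    push Not at hcon
    have h1 : ω ∈ IntermediateField.fixedField H := by
      rw [IntermediateField.mem_fixedField_iff]
      exact hcon
    rw [hH, IsGalois.fixedField_fixingSubgroup] at h1
    obtain ⟨x, hx⟩ := h1
    apply hω x
    apply ι.injective
    rw [map_add, map_add, map_pow, map_one, map_zero]
    have hx' : ι x = ω := hx
    rw [hx', hωq]
  -- the two halves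
  have hHmem : ∀ σ : Gal(L/ℚ), σ ∈ H ↔ ∀ x : K, σ (ι x) = ι x := by
    intro σ
    rw [hH, IntermediateField.mem_fixingSubgroup_iff]
    constructor
    · intro h x
      exact h (ι x) ⟨x, rfl⟩
    · rintro h _ ⟨x, rfl⟩
      exact h x
  set S1 : Finset Gal(L/ℚ) := univ.filter fun σ => σ ∈ H ∧ σ ω = ω with hS1
  set S2 : Finset Gal(L/ℚ) := univ.filter fun σ => σ ∈ H ∧ σ ω ≠ ω with hS2
  have hcard12 : S1.card = S2.card := by
    refine Finset.card_bij (fun σ _ => h₀ * σ) ?_ ?_ ?_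
    · intro σ hσ
      rw [hS1, mem_filter] at hσ
      rw [hS2, mem_filter]
      refine ⟨mem_univ _, H.mul_mem hh₀ hσ.2.1, ?_⟩
      rw [AlgEquiv.mul_apply, hσ.2.2]
      exact hmove
    · intro σ _ τ _ h
      exact mul_left_cancel h
    · intro τ hτ
      rw [hS2, mem_filter] at hτ
      refine ⟨h₀⁻¹ * τ, ?_, by simp⟩
      rw [hS1, mem_filter]
      refine ⟨mem_univ _, H.mul_mem (H.inv_mem hh₀) hτ.2.1, ?_⟩
      have h1 : τ ω = h₀ ω := by rw [hσ2 τ hτ.2.2, hσ2 h₀ hmove]
      rw [AlgEquiv.mul_apply, h1]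
      exact h₀.symm_apply_apply ω
  have hcardH : Nat.card H = S1.card + S2.card := by
    have h1 : Nat.card H = (univ.filter fun σ : Gal(L/ℚ) => σ ∈ H).card := by
      rw [Nat.card_eq_fintype_card, Fintype.card_subtype]
    rw [h1, hS1, hS2, ← Finset.card_filter_add_card_filter_not (s := univ.filter fun σ : Gal(L/ℚ) => σ ∈ H)
      (fun σ => σ ω = ω), filter_filter, filter_filter]
  have hfin : Module.finrank ℚ K * Nat.card H = f.totient := by
    rw [hH, IsGalois.card_fixingSubgroup_eq_finrank]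
    have h1 : Module.finrank ℚ K = Module.finrank ℚ M :=
      (AlgEquiv.ofInjectiveField φ).toLinearEquiv.finrank_eq
    rw [h1, Module.finrank_mul_finrank, IsCyclotomicExtension.finrank L
      (Polynomial.cyclotomic.irreducible_rat (Nat.pos_of_ne_zero hf))]
  have hset : (univ.filter fun g : (ZMod f)ˣ => (∀ x : K, e.symm g (ι x) = ι x) ∧
      (g : ZMod f).val % 3 = 2).card = S2.card := by
    refine Finset.card_bij (fun g _ => e.symm g) ?_ ?_ ?_
    · intro g hg
      rw [mem_filter] at hg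
      rw [hS2, mem_filter]
      refine ⟨mem_univ _, (hHmem _).2 hg.2.1, ?_⟩
      intro h
      rw [hσ1, MulEquiv.apply_symm_apply] at h
      omega
    · intro g _ g' _ h
      exact e.symm.injective h
    · intro σ hσ
      rw [hS2, mem_filter] at hσ
      refine ⟨e σ, ?_, by simp⟩
      rw [mem_filter]
      refine ⟨mem_univ _, ?_, ?_⟩
      · intro x
        rw [MulEquiv.symm_apply_apply]
        exact (hHmem σ).1 hσ.2.1 x
      · rcases hcop (e σ) with h | h
        · exact absurd ((hσ1 σ).2 h) hσ.2.2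
        · exact h
  rw [hset, ← hfin, hcardH, hcard12]
  ring

/-- the set of the residues: same number of elements, all below `f` and prime to `f` -/
theorem card_image_val (f : ℕ) [NeZero f] (S : Finset (ZMod f)ˣ) :
    (S.image fun g : (ZMod f)ˣ => (g : ZMod f).val).card = S.card ∧
      ∀ a ∈ S.image fun g : (ZMod f)ˣ => (g : ZMod f).val, a < f ∧ a.Coprime f := by
  constructor
  · refine Finset.card_image_of_injective _ fun g g' h => ?_
    exact Units.ext (ZMod.val_injective f h)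
  · intro a ha
    obtain ⟨g, -, rfl⟩ := mem_image.1 ha
    exact ⟨ZMod.val_lt _, ZMod.val_coe_unit_coprime g⟩

end Pool.Agent.H83.AB

end

section

/-!
# AB Good: the good classes modulo `f`

`K` in `L = ℚ(ζ_f)`, `3 ∣ f`, no primitive cube root of unity in `K`.  A class `g` modulo `f` is good if some `h = g ^ k` or
`h = -g ^ k` fixes `K` and is `2` modulo `3`.  The good classes have density at least `1 / [K:ℚ]`; at least `1 - 1 / 2 ^ m` if
`K` is cyclic and `2 ^ m ∣ [K:ℚ]`; all classes are good if `K` is real.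
-/

set_option autoImplicit false

namespace Pool.Agent.H83.AB

open Finset

section
variable (f : ℕ) [NeZero f]

omit [NeZero f] in
theorem val_mod_three (h3 : 3 ∣ f) (g : (ZMod f)ˣ) :
    (g : ZMod f).val % 3 = 1 ∨ (g : ZMod f).val % 3 = 2 := by
  have h1 : ((g : ZMod f).val).Coprime f := ZMod.val_coe_unit_coprime g
  have h2 : ((g : ZMod f).val).Coprime 3 := Nat.Coprime.coprime_dvd_right h3 h1
  have h4 : ¬ 3 ∣ (g : ZMod f).val := by
    intro h
    have := Nat.dvd_gcd h (dvd_refl 3)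
    rw [h2] at this
    omega
  omega

/-- the character modulo `3` -/
def chi3 (h3 : 3 ∣ f) : (ZMod f)ˣ →* ℤˣ where
  toFun g := if (g : ZMod f).val % 3 = 1 then 1 else -1
  map_one' := by
    have h1 : ((1 : (ZMod f)ˣ) : ZMod f).val % 3 = 1 := by
      have hf3 : 3 ≤ f := Nat.le_of_dvd (Nat.pos_of_ne_zero (NeZero.ne f)) h3
      have : Fact (1 < f) := ⟨by omega⟩
      rw [Units.val_one, ZMod.val_one]
    rw [if_pos h1]
  map_mul' g h := by
    have h1 : ((g * h : (ZMod f)ˣ) : ZMod f).val % 3 = ((g : ZMod f).val % 3) * ((h : ZMod f).val % 3) % 3 := by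
      rw [Units.val_mul, ZMod.val_mul, Nat.mod_mod_of_dvd _ h3, Nat.mul_mod]
    show (if ((g * h : (ZMod f)ˣ) : ZMod f).val % 3 = 1 then (1 : ℤˣ) else -1) =
      (if (g : ZMod f).val % 3 = 1 then (1 : ℤˣ) else -1) * (if (h : ZMod f).val % 3 = 1 then (1 : ℤˣ) else -1)
    rw [h1]
    rcases val_mod_three f h3 g with h2 | h2 <;> rcases val_mod_three f h3 h with h4 | h4 <;>
      rw [h2, h4] <;> decide

theorem chi3_eq (h3 : 3 ∣ f) (g : (ZMod f)ˣ) : chi3 f h3 g = -1 ↔ (g : ZMod f).val % 3 = 2 := by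
  show (if (g : ZMod f).val % 3 = 1 then (1 : ℤˣ) else -1) = -1 ↔ _
  rcases val_mod_three f h3 g with h | h
  · rw [if_pos h, h]
    exact ⟨fun h => absurd h (by decide), fun h => by omega⟩
  · rw [if_neg (by omega), h]
    simp

theorem chi3_neg_one (h3 : 3 ∣ f) : chi3 f h3 (-1) = -1 := by
  rw [chi3_eq]
  have hf3 : 3 ≤ f := Nat.le_of_dvd (Nat.pos_of_ne_zero (NeZero.ne f)) h3
  obtain ⟨m, hm⟩ := h3
  rw [Units.val_neg, Units.val_one]
  have h1 : (-1 : ZMod f) = ((f - 1 : ℕ) : ZMod f) := by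
    rw [Nat.cast_sub (by omega)]
    simp
  have h2 : (f - 1) % f = f - 1 := Nat.mod_eq_of_lt (by omega)
  rw [h1, ZMod.val_natCast, h2]
  omega

end

universe u

variable (f : ℕ) [NeZero f] (L : Type u) [Field L] [NumberField L]
    [IsCyclotomicExtension {f} ℚ L] (K : Type*) [Field K] [NumberField K] (ι : K →+* L)

/-- some class which fixes `K` is `2` modulo `3` -/
theorem exists_two (h3 : 3 ∣ f) (hω : ∀ x : K, x ^ 2 + x + 1 ≠ 0) :
    ∃ h : (ZMod f)ˣ, (h : ZMod f).val % 3 = 2 ∧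
      ∀ x : K, (IsCyclotomicExtension.Rat.galEquivZMod f L).symm h (ι x) = ι x := by
  classical
  have h1 := card_good f h3 L K ι hω
  have h2 : (0 : ℕ) < f.totient := Nat.totient_pos.2 (Nat.pos_of_ne_zero (NeZero.ne f))
  rw [← h1] at h2
  obtain ⟨g, hg⟩ := card_pos.1 (Nat.pos_of_mul_pos_left h2)
  rw [mem_filter] at hg
  exact ⟨g, hg.2.2, hg.2.1⟩

end Pool.Agent.H83.AB

end

section

/-!
# AB GoodGrp: counting good elements in a finite abelian group

`π : G → Γ` onto, `χ : G → {1,-1}`, `χ c = -1`, `c ^ 2 = 1`, some element of `ker π` with `χ = -1`.  `g` is good if some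
`h ∈ ker π` with `χ h = -1` is `g ^ k` or `c g ^ k`.
-/

set_option autoImplicit false

namespace Pool.Agent.H83.AB

open Finset

variable {G Γ : Type*} [CommGroup G] [Group Γ]

/-- goodness -/
def IsGood (π : G →* Γ) (χ : G →* ℤˣ) (c g : G) : Prop :=
  ∃ h : G, π h = 1 ∧ χ h = -1 ∧ ∃ k : ℕ, h = g ^ k ∨ h = c * g ^ k

variable [Fintype G] [Fintype Γ]

theorem card_ker (π : G →* Γ) (hπ : Function.Surjective π) [DecidablePred fun g => π g = 1] :
    (univ.filter fun g : G => π g = 1).card * Fintype.card Γ = Fintype.card G := by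
  classical
  have h1 := π.ker.card_mul_index
  rw [Subgroup.index_ker, MonoidHom.range_eq_top.2 hπ, Subgroup.card_top, Nat.card_eq_fintype_card,
    Nat.card_eq_fintype_card, Nat.card_eq_fintype_card] at h1
  rw [← h1]
  congr 1
  rw [Fintype.card_subtype]
  simp only [MonoidHom.mem_ker]

open scoped Classical in
theorem good_ge (π : G →* Γ) (hπ : Function.Surjective π) (χ : G →* ℤˣ) (c h₁ : G) (hc2 : c ^ 2 = 1)
    (hχc : χ c = -1) (hh₁ : π h₁ = 1) (hχ₁ : χ h₁ = -1) :
    Fintype.card G ≤ (univ.filter fun g : G => IsGood π χ c g).card * Fintype.card Γ := by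
  rw [← card_ker π hπ]
  refine Nat.mul_le_mul_right _ ?_
  refine Finset.card_le_card_of_injOn (fun h => if χ h = -1 then h else c * (h * h₁)) ?_ ?_
  · intro h hh
    have hh : π h = 1 := by simpa using hh
    rw [mem_coe, mem_filter]
    refine ⟨mem_univ _, ?_⟩
    simp only
    split_ifs with h1
    · exact ⟨h, hh, h1, 1, Or.inl (by rw [pow_one])⟩
    · refine ⟨h * h₁, by rw [map_mul, hh, hh₁, one_mul], ?_, 1, Or.inr ?_⟩
      · have h2 : χ h = 1 := (Int.units_eq_one_or (χ h)).resolve_right h1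
        rw [map_mul, h2, hχ₁, one_mul]
      · rw [pow_one, ← mul_assoc, ← sq, hc2, one_mul]
  · intro h _ h' _ heq
    simp only at heq
    split_ifs at heq with h1 h2 h2
    · exact heq
    · exfalso
      have h3 : χ h' = 1 := (Int.units_eq_one_or (χ h')).resolve_right h2
      rw [heq, map_mul, map_mul, hχc, h3, hχ₁] at h1
      exact absurd h1 (by decide)
    · exfalso
      have h3 : χ h = 1 := (Int.units_eq_one_or (χ h)).resolve_right h1
      rw [← heq, map_mul, map_mul, hχc, h3, hχ₁] at h2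
      exact absurd h2 (by decide)
    · exact mul_right_cancel (mul_left_cancel heq)

omit [Fintype G] [Fintype Γ] in
theorem good_of_ker (π : G →* Γ) (χ : G →* ℤˣ) (c : G) (hχc : χ c = -1) (hπc : π c = 1) (g : G) :
    IsGood π χ c g :=
  ⟨c, hπc, hχc, 0, Or.inr (by rw [pow_zero, mul_one])⟩

theorem cyc_two [IsCyclic Γ] (x y : Γ) (hx : x ^ 2 = 1) (hx1 : x ≠ 1) (hy : y ^ 2 = 1) (hy1 : y ≠ 1) :
    x = y := by
  classical
  by_contra hxy
  have h1 := IsCyclic.card_pow_eq_one_le (α := Γ) (n := 2) (by norm_num)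
  have h2 : ({1, x, y} : Finset Γ) ⊆ univ.filter fun a : Γ => a ^ 2 = 1 := by
    intro z hz
    simp only [mem_insert, mem_singleton] at hz
    rw [mem_filter]
    rcases hz with rfl | rfl | rfl
    · exact ⟨mem_univ _, one_pow 2⟩
    · exact ⟨mem_univ _, hx⟩
    · exact ⟨mem_univ _, hy⟩
  have h3 := card_le_card h2
  have h4 : ({1, x, y} : Finset Γ).card = 3 := by
    rw [card_insert_of_notMem (by simp [Ne.symm hx1, Ne.symm hy1]), card_insert_of_notMem (by simp [hxy]),
      card_singleton]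
  omega

open scoped Classical in
theorem bad_le [IsCyclic Γ] (π : G →* Γ) (hπ : Function.Surjective π) (χ : G →* ℤˣ) (c h₁ : G)
    (hc2 : c ^ 2 = 1) (hχc : χ c = -1) (hh₁ : π h₁ = 1) (hχ₁ : χ h₁ = -1) (m : ℕ)
    (hm : 2 ^ m ∣ Fintype.card Γ) :
    2 ^ m * (univ.filter fun g : G => ¬ IsGood π χ c g).card ≤ Fintype.card G := by
  by_cases hπc : π c = 1
  · have : (univ.filter fun g : G => ¬ IsGood π χ c g) = ∅ :=
      filter_eq_empty_iff.2 fun g _ => not_not.2 (good_of_ker π χ c hχc hπc g)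
    rw [this, card_empty, mul_zero]
    exact Nat.zero_le _
  obtain ⟨a, n', hn', hn⟩ : ∃ a n' : ℕ, ¬ 2 ∣ n' ∧ Fintype.card Γ = 2 ^ a * n' :=
    Nat.exists_eq_pow_mul_and_not_dvd Fintype.card_ne_zero 2 (by norm_num)
  have hma : m ≤ a := by
    rw [hn] at hm
    have h1 : (2 ^ m).Coprime n' := (Nat.Prime.coprime_iff_not_dvd Nat.prime_two).2 hn' |>.pow_left m
    exact (Nat.pow_dvd_pow_iff_le_right (by norm_num)).1 (h1.dvd_of_dvd_mul_right hm)
  have hodd : Odd n' := Nat.not_even_iff_odd.1 fun h => hn' h.two_dvd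
  set T : Finset G := univ.filter fun g => π g ^ n' = 1 with hT
  set T1 : Finset G := univ.filter fun g => χ g = 1 ∧ π g ^ n' = 1 with hT1
  set T2 : Finset G := univ.filter fun g => χ g = -1 ∧ π g ^ n' = π c with hT2
  have hcc : π c ^ 2 = 1 := by rw [← map_pow, hc2, map_one]
  have hcn : π c ^ n' = π c := by
    obtain ⟨t, ht⟩ := hodd
    rw [ht, pow_add, pow_mul, hcc, one_pow, one_mul, pow_one]
  have hsub : (univ.filter fun g : G => ¬ IsGood π χ c g) ⊆ T1 ∪ T2 := by
    intro g hg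
    rw [mem_filter] at hg
    have hbad : ∀ h : G, π h = 1 → (∃ k : ℕ, h = g ^ k ∨ h = c * g ^ k) → χ h = 1 := fun h h1 h2 =>
      (Int.units_eq_one_or (χ h)).resolve_right fun h3 => hg.2 ⟨h, h1, h3, h2⟩
    set o := orderOf (π g) with ho
    have ho0 : 0 < o := orderOf_pos _
    have hon : o ∣ 2 ^ a * n' := by rw [← hn]; exact orderOf_dvd_card
    have hgo : π (g ^ o) = 1 := by rw [map_pow, ho, pow_orderOf_eq_one]
    have hχo := hbad _ hgo ⟨o, Or.inl rfl⟩
    rw [map_pow] at hχo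
    -- the even case
    have heven : ∀ r, o = 2 * r → π c = π g ^ r ∧ χ g ^ r = -1 := by
      intro r hr
      have hr0 : 0 < r := by omega
      have h1 : π g ^ r ≠ 1 := by
        intro h1
        have := orderOf_dvd_of_pow_eq_one h1
        rw [← ho] at this
        have := Nat.le_of_dvd hr0 this
        omega
      have h2 : (π g ^ r) ^ 2 = 1 := by rw [← pow_mul, mul_comm r 2, ← hr, ho, pow_orderOf_eq_one]
      have h3 : π c = π g ^ r := cyc_two _ _ hcc hπc h2 h1
      refine ⟨h3, ?_⟩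
      have h4 : π (c * g ^ r) = 1 := by rw [map_mul, map_pow, h3, ← sq, h2]
      have h5 := hbad _ h4 ⟨r, Or.inr rfl⟩
      rw [map_mul, hχc, map_pow] at h5
      rcases Int.units_eq_one_or (χ g ^ r) with h6 | h6
      · rw [h6] at h5
        exact absurd h5 (by decide)
      · exact h6
    rw [mem_union]
    rcases Int.units_eq_one_or (χ g) with h1 | h1
    · left
      rw [hT1, mem_filter]
      refine ⟨mem_univ _, h1, ?_⟩
      have h2 : ¬ 2 ∣ o := by
        rintro ⟨r, hr⟩
        have := (heven r hr).2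
        rw [h1, one_pow] at this
        exact absurd this (by decide)
      have h3 : o ∣ n' := by
        have h4 : o.Coprime (2 ^ a) :=
          ((Nat.Prime.coprime_iff_not_dvd Nat.prime_two).2 h2).symm.pow_right a
        exact h4.dvd_of_dvd_mul_left hon
      obtain ⟨s, hs⟩ := h3
      rw [hs, pow_mul, ho, pow_orderOf_eq_one, one_pow]
    · right
      rw [hT2, mem_filter]
      refine ⟨mem_univ _, h1, ?_⟩
      rw [h1] at hχo
      have h2 : 2 ∣ o := by
        by_contra h2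
        have h3 : Odd o := Nat.not_even_iff_odd.1 fun h => h2 h.two_dvd
        rw [h3.neg_one_pow] at hχo
        exact absurd hχo (by decide)
      obtain ⟨r, hr⟩ := h2
      obtain ⟨h3, h4⟩ := heven r hr
      rw [h1] at h4
      have h5 : ¬ 2 ∣ r := by
        intro h5
        rw [(even_iff_two_dvd.2 h5).neg_one_pow] at h4
        exact absurd h4 (by decide)
      have h6 : r ∣ n' := by
        have h7 : r.Coprime (2 ^ a) :=
          ((Nat.Prime.coprime_iff_not_dvd Nat.prime_two).2 h5).symm.pow_right a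
        exact h7.dvd_of_dvd_mul_left ((Dvd.intro_left 2 hr.symm).trans hon)
      obtain ⟨s, hs⟩ := h6
      have h8 : Odd s := by
        rw [hs] at hodd
        exact (Nat.odd_mul.1 hodd).2
      obtain ⟨t, ht⟩ := h8
      rw [hs, pow_mul, ← h3, ht, pow_add, pow_mul, hcc, one_pow, one_mul, pow_one]
  have h21 : T2.card ≤ T1.card := by
    refine Finset.card_le_card_of_injOn (fun g => c * g) ?_ fun g _ g' _ h => mul_left_cancel h
    intro g hg
    rw [mem_coe, hT2, mem_filter] at hg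
    rw [mem_coe, hT1, mem_filter]
    refine ⟨mem_univ _, by rw [map_mul, hχc, hg.2.1]; decide, ?_⟩
    have h1 : π (c * g) ^ n' = π c ^ n' * π g ^ n' := by
      rw [← map_pow, mul_pow, map_mul, map_pow, map_pow]
    rw [h1, hcn, hg.2.2, ← sq, hcc]
  have h1T : 2 * T1.card ≤ T.card := by
    have h1 : T1.card ≤ (T \ T1).card := by
      refine Finset.card_le_card_of_injOn (fun g => h₁ * g) ?_ fun g _ g' _ h => mul_left_cancel h
      intro g hg
      rw [mem_coe, hT1, mem_filter] at hg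
      rw [mem_coe, mem_sdiff, hT, hT1, mem_filter, mem_filter]
      refine ⟨⟨mem_univ _, by rw [map_mul, hh₁, one_mul]; exact hg.2.2⟩, ?_⟩
      rintro ⟨-, h2, -⟩
      rw [map_mul, hχ₁, hg.2.1] at h2
      exact absurd h2 (by decide)
    have h2 : T1 ⊆ T := by
      intro g hg
      rw [hT1, mem_filter] at hg
      rw [hT, mem_filter]
      exact ⟨hg.1, hg.2.2⟩
    have h3 := card_sdiff_add_card_eq_card h2
    omega
  have hTc : T.card ≤ n' * (univ.filter fun g : G => π g = 1).card := by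
    have h1 : T.card = ∑ x ∈ univ.filter (fun x : Γ => x ^ n' = 1), (T.filter fun g => π g = x).card := by
      refine card_eq_sum_card_fiberwise fun g hg => ?_
      rw [mem_coe, hT, mem_filter] at hg
      rw [mem_coe, mem_filter]
      exact ⟨mem_univ _, hg.2⟩
    rw [h1]
    have h2 : ∀ x ∈ univ.filter (fun x : Γ => x ^ n' = 1),
        (T.filter fun g => π g = x).card ≤ (univ.filter fun g : G => π g = 1).card := by
      intro x _
      have h3 := MonoidHom.card_fiber_eq_of_mem_range π (x := x) (y := 1) (hπ x) ⟨1, map_one π⟩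
      rw [← h3]
      refine card_le_card ?_
      intro g hg
      rw [mem_filter] at hg ⊢
      exact ⟨mem_univ _, hg.2⟩
    refine (sum_le_card_nsmul _ _ _ h2).trans ?_
    rw [smul_eq_mul]
    refine Nat.mul_le_mul_right _ ?_
    exact IsCyclic.card_pow_eq_one_le (α := Γ) (Nat.pos_of_ne_zero fun h => hn' (h ▸ dvd_zero 2))
  have h5 : (univ.filter fun g : G => ¬ IsGood π χ c g).card ≤ T.card := by
    have h6 := (card_le_card hsub).trans (card_union_le _ _)
    omega
  calc 2 ^ m * (univ.filter fun g : G => ¬ IsGood π χ c g).card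
      ≤ 2 ^ a * (n' * (univ.filter fun g : G => π g = 1).card) :=
        Nat.mul_le_mul (Nat.pow_le_pow_right (by norm_num) hma) (h5.trans hTc)
    _ = (univ.filter fun g : G => π g = 1).card * Fintype.card Γ := by rw [hn]; ring
    _ = Fintype.card G := card_ker π hπ

end Pool.Agent.H83.AB

end

section

/-!
# AB Good2: the density of the good classes depends only on the 2-part of the degree

`K` in `L = ℚ(ζ_f)`, `3 ∣ f`, no primitive cube root of unity in `K`, `[K:ℚ] = 2 ^ m * t` with `t` odd.  The good classes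
have density at least `1 / 2 ^ m`, and at least `1 - 1 / 2 ^ m` if the Sylow 2-subgroup of `Gal(K/ℚ)` is cyclic.
-/

set_option autoImplicit false

namespace Pool.Agent.H42.AB

open Finset Pool.Agent.H83.AB

section grp

variable {G Γ : Type*} [CommGroup G] [Group Γ]

/-- `g ↦ π g ^ t` -/
def powHom (π : G →* Γ) (t : ℕ) : G →* Γ := π.comp (powMonoidHom t)

theorem powHom_apply (π : G →* Γ) (t : ℕ) (g : G) : powHom π t g = π g ^ t := by
  show π (g ^ t) = π g ^ t
  exact map_pow π g t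

theorem good_of_pow (π : G →* Γ) (χ : G →* ℤˣ) (c : G) (hc2 : c ^ 2 = 1) {t : ℕ} (ht : Odd t) (g : G)
    (hg : IsGood (powHom π t).rangeRestrict χ c g) : IsGood π χ c g := by
  obtain ⟨h, h1, h2, k, hk⟩ := hg
  refine ⟨h ^ t, ?_, ?_, k * t, ?_⟩
  · have h3 := congrArg Subtype.val h1
    rw [MonoidHom.coe_rangeRestrict, powHom_apply] at h3
    rw [map_pow]
    exact h3
  · rw [map_pow, h2, ht.neg_one_pow]
  · rcases hk with rfl | rfl
    · left
      rw [pow_mul]
    · right
      obtain ⟨s, rfl⟩ := ht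
      rw [mul_pow, ← pow_mul, pow_succ c, pow_mul c, hc2, one_pow, one_mul]

variable [Fintype Γ]

/-- the range is a 2-group -/
theorem isPGroup_range (π : G →* Γ) {m t : ℕ} (hcard : Fintype.card Γ = 2 ^ m * t) :
    IsPGroup 2 (powHom π t).range := by
  rintro ⟨x, g, rfl⟩
  refine ⟨m, ?_⟩
  apply Subtype.ext
  show (powHom π t g) ^ 2 ^ m = 1
  rw [powHom_apply, ← pow_mul, mul_comm t, ← hcard, pow_card_eq_one]

theorem card_range_le (π : G →* Γ) {m t : ℕ} (ht : Odd t) (hcard : Fintype.card Γ = 2 ^ m * t) :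
    Nat.card (powHom π t).range ≤ 2 ^ m := by
  have : Fact (Nat.Prime 2) := ⟨Nat.prime_two⟩
  obtain ⟨j, hj⟩ := (IsPGroup.iff_card).1 (isPGroup_range π hcard)
  have h1 : Nat.card (powHom π t).range ∣ Nat.card Γ := Subgroup.card_subgroup_dvd_card _
  rw [hj, Nat.card_eq_fintype_card, hcard] at h1
  have h2 : (2 ^ j).Coprime t := Nat.Coprime.pow_left j (Nat.coprime_two_left.2 ht)
  rw [hj]
  exact Nat.le_of_dvd (by positivity) (h2.dvd_of_dvd_mul_right h1)

theorem dvd_card_range (π : G →* Γ) (hπ : Function.Surjective π) {m t : ℕ} (ht : Odd t)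
    (hcard : Fintype.card Γ = 2 ^ m * t) : 2 ^ m ∣ Nat.card (powHom π t).range := by
  have hcomm : ∀ x y : Γ, x * y = y * x := by
    intro x y
    obtain ⟨a, rfl⟩ := hπ x
    obtain ⟨b, rfl⟩ := hπ y
    rw [← map_mul, mul_comm, map_mul]
  let ψ : Γ →* Γ :=
    { toFun := fun x => x ^ t
      map_one' := one_pow t
      map_mul' := fun x y => Commute.mul_pow (hcomm x y) t }
  have hr : ψ.range = (powHom π t).range := by
    ext x
    constructor
    · rintro ⟨y, rfl⟩
      obtain ⟨g, rfl⟩ := hπ y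
      exact ⟨g, powHom_apply π t g⟩
    · rintro ⟨g, rfl⟩
      exact ⟨π g, (powHom_apply π t g).symm⟩
  have h1 := ψ.ker.card_mul_index
  rw [Subgroup.index_ker, hr, Nat.card_eq_fintype_card (α := Γ), hcard] at h1
  have h2 : ¬ 2 ∣ Nat.card ψ.ker := by
    intro h
    have : Fact (Nat.Prime 2) := ⟨Nat.prime_two⟩
    obtain ⟨x, hx⟩ := exists_prime_orderOf_dvd_card' (G := ψ.ker) 2 h
    have h3 : (x : Γ) ^ t = 1 := x.2
    have h4 : orderOf (x : Γ) ∣ t := orderOf_dvd_of_pow_eq_one h3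
    rw [Subgroup.orderOf_coe, hx] at h4
    exact (Nat.not_even_iff_odd.2 ht) ((Nat.even_iff).2 (Nat.mod_eq_zero_of_dvd h4))
  have h3 : (2 ^ m).Coprime (Nat.card ψ.ker) := ((Nat.Prime.coprime_iff_not_dvd Nat.prime_two).2 h2).pow_left m
  exact h3.dvd_of_dvd_mul_left (h1 ▸ Dvd.intro _ rfl)

open scoped Classical in
theorem good_ge2 [Fintype G] (π : G →* Γ) (χ : G →* ℤˣ) (c h₁ : G)
    (hc2 : c ^ 2 = 1) (hχc : χ c = -1) (hh₁ : π h₁ = 1) (hχ₁ : χ h₁ = -1) {m t : ℕ} (ht : Odd t)
    (hcard : Fintype.card Γ = 2 ^ m * t) :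
    Fintype.card G ≤ (univ.filter fun g : G => IsGood π χ c g).card * 2 ^ m := by
  have h1 : (powHom π t).rangeRestrict h₁ = 1 := by
    apply Subtype.ext
    rw [MonoidHom.coe_rangeRestrict, powHom_apply, hh₁, one_pow]
    rfl
  have h2 := good_ge (powHom π t).rangeRestrict (powHom π t).rangeRestrict_surjective χ c h₁ hc2 hχc h1 hχ₁
  refine h2.trans (Nat.mul_le_mul (card_le_card fun g hg => ?_) ?_)
  · rw [mem_filter] at hg ⊢
    exact ⟨hg.1, good_of_pow π χ c hc2 ht g hg.2⟩
  · rw [← Nat.card_eq_fintype_card]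
    exact card_range_le π ht hcard

open scoped Classical in
theorem bad_le2 [Fintype G] (π : G →* Γ) (hπ : Function.Surjective π) (χ : G →* ℤˣ) (c h₁ : G)
    (hc2 : c ^ 2 = 1) (hχc : χ c = -1) (hh₁ : π h₁ = 1) (hχ₁ : χ h₁ = -1) {m t : ℕ} (ht : Odd t)
    (hcard : Fintype.card Γ = 2 ^ m * t) (hcyc : ∀ P : Sylow 2 Γ, IsCyclic P) :
    2 ^ m * (univ.filter fun g : G => ¬ IsGood π χ c g).card ≤ Fintype.card G := by
  have h1 : (powHom π t).rangeRestrict h₁ = 1 := by
    apply Subtype.ext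
    rw [MonoidHom.coe_rangeRestrict, powHom_apply, hh₁, one_pow]
    rfl
  have : Fact (Nat.Prime 2) := ⟨Nat.prime_two⟩
  obtain ⟨P, hP⟩ := (isPGroup_range π hcard).exists_le_sylow
  have hPc := hcyc P
  have hRc : IsCyclic (powHom π t).range :=
    isCyclic_of_injective (Subgroup.inclusion hP) (Subgroup.inclusion_injective hP)
  have h2 := bad_le (powHom π t).rangeRestrict (powHom π t).rangeRestrict_surjective χ c h₁ hc2 hχc h1 hχ₁ m
    (by rw [← Nat.card_eq_fintype_card]; exact dvd_card_range π hπ ht hcard)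
  refine (Nat.mul_le_mul_left _ (card_le_card fun g hg => ?_)).trans h2
  rw [mem_filter] at hg ⊢
  exact ⟨hg.1, fun h => hg.2 (good_of_pow π χ c hc2 ht g h)⟩

omit [Fintype Γ] in
/-- cyclic Sylow subgroups and isomorphisms -/
theorem cyc_of_equiv {Γ' : Type*} [Group Γ'] (e : Γ ≃* Γ') (h : ∀ P : Sylow 2 Γ', IsCyclic P) (P : Sylow 2 Γ) :
    IsCyclic P := by
  have h1 : IsPGroup 2 (P.1.map (e : Γ →* Γ')) := P.2.map _
  obtain ⟨Q, hQ⟩ := h1.exists_le_sylow
  have hQc := h Q
  exact isCyclic_of_injective ((Subgroup.inclusion hQ).comp (e.subgroupMap P.1 : P.1 →* P.1.map (e : Γ →* Γ')))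
    ((Subgroup.inclusion_injective hQ).comp (e.subgroupMap P.1).injective)

end grp

universe u

variable (f : ℕ) [NeZero f] (L : Type u) [Field L] [NumberField L]
    [IsCyclotomicExtension {f} ℚ L] (K : Type*) [Field K] [NumberField K] (ι : K →+* L)

/-- a surjection onto a group isomorphic to `Gal(K/ℚ)` with `[K:ℚ]` elements whose kernel consists of the classes
which fix `K` -/
theorem exists_quot2 :
    ∃ (Γ : Type u) (_ : Group Γ) (_ : Fintype Γ) (π : (ZMod f)ˣ →* Γ), Function.Surjective π ∧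
      Fintype.card Γ = Module.finrank ℚ K ∧ Nonempty (Γ ≃* (K ≃ₐ[ℚ] K)) ∧
      ∀ g, π g = 1 ↔ ∀ x : K, (IsCyclotomicExtension.Rat.galEquivZMod f L).symm g (ι x) = ι x := by
  classical
  have hab : IsAbelianGalois ℚ L := IsCyclotomicExtension.isAbelianGalois {f} ℚ L
  set φ : K →ₐ[ℚ] L := ι.toRatAlgHom with hφ
  set M : IntermediateField ℚ L := φ.fieldRange with hM
  have habM : IsAbelianGalois ℚ M := IsAbelianGalois.of_algHom M.val
  have eKM : K ≃ₐ[ℚ] M := AlgEquiv.ofInjectiveField φ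
  refine ⟨Gal(M/ℚ), inferInstance, inferInstance,
    (AlgEquiv.restrictNormalHom M).comp
      (IsCyclotomicExtension.Rat.galEquivZMod f L).symm.toMonoidHom, ?_, ?_, ?_, ?_⟩
  · intro y
    obtain ⟨σ, hσ⟩ := AlgEquiv.restrictNormalHom_surjective (F := ℚ) (K₁ := M) L y
    refine ⟨IsCyclotomicExtension.Rat.galEquivZMod f L σ, ?_⟩
    rw [MonoidHom.comp_apply]
    show AlgEquiv.restrictNormalHom M ((IsCyclotomicExtension.Rat.galEquivZMod f L).symm
      (IsCyclotomicExtension.Rat.galEquivZMod f L σ)) = y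
    rw [MulEquiv.symm_apply_apply, hσ]
  · rw [← Nat.card_eq_fintype_card, IsGalois.card_aut_eq_finrank]
    exact eKM.toLinearEquiv.finrank_eq.symm
  · exact ⟨(AlgEquiv.autCongr eKM).symm⟩
  · intro g
    have h1 : ∀ σ : Gal(L/ℚ), AlgEquiv.restrictNormalHom M σ = 1 ↔ σ ∈ M.fixingSubgroup := by
      intro σ
      rw [← IntermediateField.restrictNormalHom_ker, MonoidHom.mem_ker]
      exact Iff.rfl
    show AlgEquiv.restrictNormalHom M ((IsCyclotomicExtension.Rat.galEquivZMod f L).symm g) = 1 ↔ _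
    rw [h1, IntermediateField.mem_fixingSubgroup_iff]
    constructor
    · intro h x
      exact h (ι x) ⟨x, rfl⟩
    · rintro h _ ⟨x, rfl⟩
      exact h x

/-- THE GOOD CLASSES: only the 2-part of the degree matters. -/
theorem good_classes2 (h3 : 3 ∣ f) (hω : ∀ x : K, x ^ 2 + x + 1 ≠ 0) {m t : ℕ} (ht : Odd t)
    (hd : Module.finrank ℚ K = 2 ^ m * t) :
    ∃ A : Finset ℕ, (∀ a ∈ A, a < f ∧ a.Coprime f) ∧
      1 / 2 ^ m ≤ (A.card : ℝ) / (f.totient : ℝ) ∧
      ((∀ P : Sylow 2 (K ≃ₐ[ℚ] K), IsCyclic P) →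
        1 - 1 / 2 ^ m ≤ (A.card : ℝ) / (f.totient : ℝ)) ∧
      ∀ a ∈ A, ∃ h : (ZMod f)ˣ, (h : ZMod f).val % 3 = 2 ∧
        (∀ x : K, (IsCyclotomicExtension.Rat.galEquivZMod f L).symm h (ι x) = ι x) ∧
        ∃ k : ℕ, (h : ZMod f) = (a : ZMod f) ^ k ∨ (h : ZMod f) = -(a : ZMod f) ^ k := by
  classical
  obtain ⟨Γ, _, _, π, hπ, hcard, ⟨e⟩, hker⟩ := exists_quot2 f L K ι
  rw [hd] at hcard
  obtain ⟨h₁, hh₁, hfix₁⟩ := exists_two f L K ι h3 hω
  set χ := chi3 f h3 with hχ
  have hχc : χ (-1) = -1 := chi3_neg_one f h3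
  have hc2 : (-1 : (ZMod f)ˣ) ^ 2 = 1 := by rw [neg_one_sq]
  have hπ₁ : π h₁ = 1 := (hker h₁).2 hfix₁
  have hχ₁ : χ h₁ = -1 := (chi3_eq f h3 h₁).2 hh₁
  set S : Finset (ZMod f)ˣ := univ.filter fun g => IsGood π χ (-1) g with hS
  have hGcard : Fintype.card (ZMod f)ˣ = f.totient := ZMod.card_units_eq_totient f
  have htot : (0 : ℝ) < (f.totient : ℝ) := by
    exact_mod_cast Nat.totient_pos.2 (Nat.pos_of_ne_zero (NeZero.ne f))
  have h10 : (0 : ℝ) < 2 ^ m := by positivity
  obtain ⟨h4, h5⟩ := card_image_val f S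
  refine ⟨S.image fun g : (ZMod f)ˣ => (g : ZMod f).val, h5, ?_, ?_, ?_⟩
  · rw [h4]
    have h6 := good_ge2 π χ (-1) h₁ hc2 hχc hπ₁ hχ₁ ht hcard
    rw [hGcard, ← hS] at h6
    rw [div_le_div_iff₀ h10 htot, one_mul]
    exact_mod_cast h6
  · intro hc
    rw [h4]
    have h6 := bad_le2 π hπ χ (-1) h₁ hc2 hχc hπ₁ hχ₁ ht hcard (cyc_of_equiv e hc)
    have h7 : S.card + (univ.filter fun g : (ZMod f)ˣ => ¬ IsGood π χ (-1) g).card = f.totient := by
      rw [hS, card_filter_add_card_filter_not, card_univ, hGcard]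
    rw [hGcard] at h6
    set B := (univ.filter fun g : (ZMod f)ˣ => ¬ IsGood π χ (-1) g).card with hB
    have h8 : (S.card : ℝ) + (B : ℝ) = (f.totient : ℝ) := by exact_mod_cast h7
    have h9 : (2 : ℝ) ^ m * (B : ℝ) ≤ (f.totient : ℝ) := by exact_mod_cast h6
    rw [le_div_iff₀ htot, sub_mul, one_mul, ← h8]
    have h11 : (B : ℝ) ≤ 1 / 2 ^ m * ((S.card : ℝ) + (B : ℝ)) := by
      rw [h8, div_mul_eq_mul_div, one_mul, le_div_iff₀ h10, mul_comm]
      exact h9
    linarith
  · intro a ha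
    obtain ⟨g, hg, rfl⟩ := mem_image.1 ha
    rw [hS, mem_filter] at hg
    obtain ⟨-, h, hh1, hh2, k, hk⟩ := hg
    refine ⟨h, (chi3_eq f h3 h).1 hh2, (hker h).1 hh1, k, ?_⟩
    rw [ZMod.natCast_zmod_val]
    rcases hk with hk | hk
    · left; rw [hk, Units.val_pow_eq_pow_val]
    · right; rw [hk]; simp

end Pool.Agent.H42.AB

end

section

/-!
# AB, part (D2b): abelian fields, the end of the proof

`L = ℚ(ζ_f)`.  `SixAt f L p`: for every first case solution over `L` and every reduction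
`w : 𝓞 L → Ω` one has `(a : b : c) = (1 : ω : ω²)`, with opposite values at `w` and at `w ∘ cj`.
`abel_core`: if `SixAt f L p`, `K ⊆ L` is fixed by `σ_h`, `h ≡ 2 mod 3`, `h ≡ ± p^k mod f`, then there is
no first case solution over `K`.
-/

open NumberField IsDedekindDomain H9FC H9AB Polynomial

namespace H87AB

/-- a ring homomorphism to a field of characteristic `p` and the Frobenius -/
theorem hom_frob (f : ℕ) [NeZero f] (L : Type*) [Field L] [NumberField L]
    [IsCyclotomicExtension {f} ℚ L] {p : ℕ} [Fact p.Prime] {Ω : Type*} [Field Ω] [CharP Ω p]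
    (w : 𝓞 L →+* Ω) (g : (ZMod f)ˣ) (hg : ((g : ZMod f)) = (p : ZMod f)) (y : 𝓞 L) :
    w (actL f L g y) = (w y) ^ p := by
  have hζ := IsCyclotomicExtension.zeta_spec f ℚ L
  set z : 𝓞 L := hζ.toInteger with hz
  have hz1 : z ^ f = 1 := by
    apply RingOfIntegers.coe_injective
    rw [map_pow, map_one]
    exact hζ.pow_eq_one
  set φ₁ : 𝓞 L →+* Ω := w.comp (actL f L g) with h1
  set φ₂ : 𝓞 L →+* Ω := (frobenius Ω p).comp w with h2
  have h3 : φ₁.toIntAlgHom = φ₂.toIntAlgHom := by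
    refine hζ.integralPowerBasis.algHom_ext ?_
    rw [hζ.integralPowerBasis_gen]
    show w (actL f L g z) = (w z) ^ p
    rw [actL_zeta f L g z hz1, map_pow]
    have hw1 : (w z) ^ f = 1 := by rw [← map_pow, hz1, map_one]
    have h5 : g.val.val ≡ p [MOD f] := by
      rw [← ZMod.natCast_eq_natCast_iff, ZMod.natCast_val, ZMod.cast_id', id]
      exact hg
    rw [pow_eq_pow_mod g.val.val hw1, pow_eq_pow_mod p hw1]
    congr 1
  exact DFunLike.congr_fun h3 y

/-- iterated Frobenius -/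
theorem hom_frob_pow (f : ℕ) [NeZero f] (L : Type*) [Field L] [NumberField L]
    [IsCyclotomicExtension {f} ℚ L] {p : ℕ} [Fact p.Prime] {Ω : Type*} [Field Ω] [CharP Ω p]
    (w : 𝓞 L →+* Ω) (g : (ZMod f)ˣ) (hg : ((g : ZMod f)) = (p : ZMod f)) (k : ℕ) (y : 𝓞 L) :
    w (actL f L (g ^ k) y) = (w y) ^ p ^ k := by
  induction k generalizing y with
  | zero =>
    rw [pow_zero, pow_zero, pow_one]
    have : actL f L 1 = RingHom.id (𝓞 L) := by
      unfold actL
      rw [map_one]
      ext x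
      show (((1 : L ≃ₐ[ℚ] L) • x : 𝓞 L) : L) = x
      rw [one_smul]
    rw [this, RingHom.id_apply]
  | succ k ih =>
    rw [pow_succ, actL_mul, RingHom.comp_apply, ih, hom_frob f L w g hg, ← pow_mul, pow_succ,
      mul_comm (p ^ k) p]

/-- a primitive cube root of unity with `x ^ n = 1` -/
theorem three_dvd {Ω : Type*} [Field Ω] (h3 : (3 : Ω) ≠ 0) {x : Ω} (hx : x ^ 2 + x + 1 = 0) {n : ℕ}
    (hn : x ^ n = 1) : 3 ∣ n := by
  have hx3 : x ^ 3 = 1 := by linear_combination (x - 1) * hx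
  have hx1 : x ≠ 1 := by
    rintro rfl
    exact h3 (by linear_combination hx)
  haveI : Fact (Nat.Prime 3) := ⟨Nat.prime_three⟩
  have hord : orderOf x = 3 := orderOf_eq_prime hx3 hx1
  rw [← hord]
  exact orderOf_dvd_of_pow_eq_one hn

end H87AB

end

section

/-!
# AB, part (D2b), strong form: at no prime `v ∣ p` of `K` one has `v(a) = v(b) = v(c)`

`StrongAt f L p`: for every solution over `L = ℚ(ζ_f)` without common prime factor above `p` and every
reduction `w : 𝓞 L → Ω` with `w a, w b, w c ≠ 0` one has `(a : b : c) = (1 : ω : ω²)`, with opposite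
values at `w` and at `w ∘ cj`.
-/

open NumberField IsDedekindDomain H9FC H9AB Polynomial Filter Topology Finset

namespace H87AB

/-- solutions over `ℚ(ζ_f)` at the good places -/
def StrongAt (f : ℕ) [NeZero f] (L : Type*) [Field L] [NumberField L]
    [IsCyclotomicExtension {f} ℚ L] (p : ℕ) [Fact p.Prime] : Prop :=
  ∀ a b c : 𝓞 L, FSol L p a b c → CopAt L p a b c →
    ∀ w : 𝓞 L →+* AlgebraicClosure (ZMod p), w a ≠ 0 → w b ≠ 0 → w c ≠ 0 →
      w a ^ 2 + w a * w b + w b ^ 2 = 0 ∧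
        w (actL f L (-1) a) ≠ 0 ∧ w (actL f L (-1) b) ≠ 0 ∧
        w (actL f L (-1) b) * w b = w (actL f L (-1) a) * w a

/-- the end: no good place -/
theorem strong_core (f : ℕ) [NeZero f] (L : Type*) [Field L] [NumberField L]
    [IsCyclotomicExtension {f} ℚ L] (K : Type*) [Field K] [NumberField K] (ι : K →+* L)
    (h : (ZMod f)ˣ)
    (hfix : ∀ x : K, (IsCyclotomicExtension.Rat.galEquivZMod f L).symm h (ι x) = ι x)
    (h3f : 3 ∣ f) (hh3 : h.val.val % 3 = 2)
    (p : ℕ) [Fact p.Prime] (hp : 5 ≤ p) (hpf : ¬ p ∣ f) (k : ℕ)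
    (hh : (h : ZMod f) = (p : ZMod f) ^ k ∨ (h : ZMod f) = -(p : ZMod f) ^ k)
    (hS : StrongAt f L p) (a b c : K) (ha : a ≠ 0) (hb : b ≠ 0) (hc : c ≠ 0)
    (hs : a ^ p + b ^ p + c ^ p = 0)
    (v : HeightOneSpectrum (𝓞 K)) (hv : (p : 𝓞 K) ∈ v.asIdeal)
    (hf : v.valuation K a = v.valuation K b ∧ v.valuation K b = v.valuation K c) : False := by
  classical
  have hpp : p.Prime := Fact.out
  obtain ⟨A, B, Cc, hF, hcop, hAv, hBv, hCv, -, -⟩ := H3AB.scale_at ha hb hc hs v hv hf
  set j : 𝓞 K →+* 𝓞 L := RingOfIntegers.mapRingHom ι with hj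
  have hjinj : Function.Injective j := by
    intro x y hxy
    have h1 := congrArg (algebraMap (𝓞 L) L) hxy
    have h2 : ι (x : K) = ι (y : K) := h1
    exact RingOfIntegers.coe_injective (ι.injective h2)
  have hFL : FSol L p (j A) (j B) (j Cc) := by
    refine ⟨?_, ?_, ?_, ?_⟩
    · rw [Ne, map_eq_zero_iff j hjinj]; exact hF.1
    · rw [Ne, map_eq_zero_iff j hjinj]; exact hF.2.1
    · rw [Ne, map_eq_zero_iff j hjinj]; exact hF.2.2.1
    · rw [← map_pow, ← map_pow, ← map_pow, ← map_add, ← map_add, hF.2.2.2, map_zero]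
  have hcopL : CopAt L p (j A) (j B) (j Cc) := by
    intro P hPp hpP hall
    have h1 : (P.comap j).IsPrime := Ideal.comap_isPrime j P
    have h2 : (p : 𝓞 K) ∈ P.comap j := by rw [Ideal.mem_comap, map_natCast]; exact hpP
    exact hcop _ h1 h2 hall
  obtain ⟨w₀, hw₀⟩ := H3AB.exists_hom_ker p (AlgebraicClosure (ZMod p)) v.asIdeal v.isPrime hv
  letI : Algebra K L := ι.toAlgebra
  obtain ⟨w, hw⟩ := H9AB.exists_lift_hom K L (AlgebraicClosure (ZMod p)) w₀
  have hwj : ∀ y : 𝓞 K, w (j y) = w₀ y := by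
    intro y
    have h1 := DFunLike.congr_fun hw y
    have h2 : algebraMap (𝓞 K) (𝓞 L) y = j y := by
      apply RingOfIntegers.coe_injective
      rfl
    rw [← h2]
    exact h1
  have hne : ∀ y : 𝓞 K, y ∉ v.asIdeal → w (j y) ≠ 0 := by
    intro y hy h0
    rw [hwj] at h0
    apply hy
    rw [← hw₀]
    exact h0
  have hwA := hne A hAv
  have hwB := hne B hBv
  obtain ⟨h6, hwA', hwB', h7⟩ := hS (j A) (j B) (j Cc) hFL hcopL w hwA hwB (hne Cc hCv)
  set Ω := AlgebraicClosure (ZMod p)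
  have h3Ω : (3 : Ω) ≠ 0 := by
    intro h0
    have h1 : ((3 : ℕ) : Ω) = 0 := by exact_mod_cast h0
    rw [CharP.cast_eq_zero_iff Ω p] at h1
    have := Nat.le_of_dvd (by norm_num) h1
    omega
  set x : Ω := w (j B) / w (j A) with hx
  have hx0 : x ≠ 0 := div_ne_zero hwB hwA
  have hx2 : x ^ 2 + x + 1 = 0 := by
    have e : w (j B) = x * w (j A) := by rw [hx, div_mul_cancel₀ _ hwA]
    rw [e] at h6
    have e2 : w (j A) ^ 2 * (x ^ 2 + x + 1) = 0 := by linear_combination h6
    exact (mul_eq_zero.mp e2).resolve_left (pow_ne_zero 2 hwA)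
  have hfixj : ∀ y : 𝓞 K, actL f L h (j y) = j y := by
    intro y
    apply RingOfIntegers.coe_injective
    exact hfix (y : K)
  -- the Frobenius element
  have hcop : Nat.Coprime p f := (Nat.Prime.coprime_iff_not_dvd hpp).mpr hpf
  set g : (ZMod f)ˣ := ZMod.unitOfCoprime p hcop with hg
  have hgp : (g : ZMod f) = (p : ZMod f) := ZMod.coe_unitOfCoprime p hcop
  have hcast : (((ZMod.castHom h3f (ZMod 3)) (h : ZMod f)) : ZMod 3) = (2 : ZMod 3) := by
    have h1 : (h : ZMod f) = ((h.val.val : ℕ) : ZMod f) := by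
      rw [ZMod.natCast_val, ZMod.cast_id', id]
    rw [h1, map_natCast]
    have h2 : ((h.val.val : ℕ) : ZMod 3) = ((2 : ℕ) : ZMod 3) := by
      rw [ZMod.natCast_eq_natCast_iff]
      show h.val.val % 3 = 2 % 3
      omega
    rw [h2]; rfl
  have hpk3 : (((ZMod.castHom h3f (ZMod 3)) ((p : ZMod f) ^ k)) : ZMod 3) =
      ((p ^ k : ℕ) : ZMod 3) := by
    rw [map_pow, map_natCast]; push_cast; rfl
  rcases hh with hh | hh
  · -- `h = p ^ k`
    have hhg : h = g ^ k := by
      ext
      rw [Units.val_pow_eq_pow_val, hgp, hh]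
    have hA1 := hom_frob_pow f L w g hgp k (j A)
    have hB1 := hom_frob_pow f L w g hgp k (j B)
    rw [← hhg, hfixj] at hA1 hB1
    have hx3 : x ^ p ^ k = x := by
      rw [hx, div_pow, ← hA1, ← hB1]
    have hpk : 1 ≤ p ^ k := Nat.one_le_pow _ _ hpp.pos
    have hx4 : x ^ (p ^ k - 1) = 1 := by
      have h1 : x ^ (p ^ k - 1) * x = 1 * x := by
        rw [← pow_succ, Nat.sub_add_cancel hpk, hx3, one_mul]
      exact mul_right_cancel₀ hx0 h1
    have h8 := three_dvd h3Ω hx2 hx4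
    rw [hh, hpk3] at hcast
    have h9 : ((p ^ k : ℕ) : ZMod 3) = ((1 : ℕ) : ZMod 3) := by
      rw [ZMod.natCast_eq_natCast_iff]
      exact ((Nat.modEq_iff_dvd' hpk).mpr h8).symm
    rw [h9] at hcast
    exact absurd hcast (by decide)
  · -- `h = - p ^ k`
    have hhg : h = -1 * g ^ k := by
      ext
      rw [Units.val_mul, Units.val_pow_eq_pow_val, hgp, hh]
      simp
    set w' : 𝓞 L →+* Ω := w.comp (actL f L (-1)) with hw'
    have hw'v : ∀ y, w' y = w (actL f L (-1) y) := fun y => rfl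
    have hA1 := hom_frob_pow f L w' g hgp k (j A)
    have hB1 := hom_frob_pow f L w' g hgp k (j B)
    have hcc : ∀ y, actL f L (-1) (actL f L (g ^ k) y) = actL f L h y := by
      intro y
      rw [hhg, actL_mul]
      rfl
    rw [hw'v, hw'v, hcc, hfixj] at hA1 hB1
    have hx3 : x = (x⁻¹) ^ p ^ k := by
      have h1 : x⁻¹ = w (actL f L (-1) (j B)) / w (actL f L (-1) (j A)) := by
        rw [hx, inv_div, div_eq_div_iff hwB hwA']
        linear_combination -h7
      rw [h1, div_pow, ← hA1, ← hB1]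
    have hx4 : x ^ (p ^ k + 1) = 1 := by
      have h1 : x ^ p ^ k * (x⁻¹) ^ p ^ k = 1 := by
        rw [← mul_pow, mul_inv_cancel₀ hx0, one_pow]
      rw [pow_succ]
      calc x ^ p ^ k * x = x ^ p ^ k * (x⁻¹) ^ p ^ k := by rw [← hx3]
        _ = 1 := h1
    have h8 := three_dvd h3Ω hx2 hx4
    rw [hh, map_neg, hpk3] at hcast
    have h9 : ((p ^ k + 1 : ℕ) : ZMod 3) = 0 := (ZMod.natCast_eq_zero_iff _ _).mpr h8
    have h10 : ((p ^ k : ℕ) : ZMod 3) = -1 := by
      push_cast at h9 ⊢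
      linear_combination h9
    rw [h10] at hcast
    exact absurd hcast (by decide)

/-- strong first case: at no prime `v ∣ p` one has `v(a) = v(b) = v(c)` -/
def FCS (K : Type*) [Field K] [NumberField K] (p : ℕ) : Prop :=
  ∀ a b c : K, a ≠ 0 → b ≠ 0 → c ≠ 0 → a ^ p + b ^ p + c ^ p = 0 →
    ∀ v : HeightOneSpectrum (𝓞 K), (p : 𝓞 K) ∈ v.asIdeal →
      ¬ (v.valuation K a = v.valuation K b ∧ v.valuation K b = v.valuation K c)

end H87AB

end

section

/-!
# N3, the prime number theorem end (helper45)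

The primes `p ≡ 1 (mod 3)` of `(3K, 18K]` and the primes `p ≡ 2 (mod 3)` of `(3K, 9K]` (for all of
them `MM p ≤ 6K`) have mass `(21/2 + o(1)) K`, and `3 log 3 + 6 log 2 + 3 + 1/25 < 21/2`.
-/

set_option autoImplicit false

namespace Pool.Agent.H2.N3

open Finset Filter Topology Pool.Agent.H71.NB Pool.Agent.H91.EHA

/-- the primes of a class in a window -/
theorem class_win (q a : ℕ) (hq : 1 ≤ q) (ha : a.Coprime q) (ε : ℝ) (hε : 0 < ε) :
    ∀ᶠ x : ℕ in atTop, ∀ u v : ℕ, u ≤ v → v ≤ x →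
      |∑ p ∈ (Ioc u v).filter (fun p => p.Prime ∧ p ≡ a [MOD q]), Real.log p
        - ((v : ℝ) - u) / (q.totient : ℝ)| ≤ ε * x := by
  obtain ⟨x0, hx0⟩ := psi_ap 1 1
  have ht : Tendsto (fun x : ℕ => Real.log (x : ℝ)) atTop atTop :=
    Real.tendsto_log_atTop.comp tendsto_natCast_atTop_atTop
  filter_upwards [sm1 1 (ε / 3) (by positivity), sm2 (ε / 3) (by positivity),
    eventually_ge_atTop x0, ht.eventually_ge_atTop (q : ℝ)] with x h1 h2 h3 h4 u v huv hvx
  have b1 := hx0 x h3 v hvx q hq (by rw [pow_one]; exact h4) a ha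
  have b2 := hx0 x h3 u (huv.trans hvx) q hq (by rw [pow_one]; exact h4) a ha
  rw [pow_one] at b1 b2
  rw [one_mul] at h1
  have hpA : ∀ y : ℕ, psiA y q a = ∑ n ∈ Icc 1 y, Lam n * (if n ≡ a [MOD q] then (1 : ℝ) else 0) := by
    intro y
    unfold psiA
    rw [Finset.sum_filter]
    refine Finset.sum_congr rfl fun n _ => ?_
    split <;> simp
  rw [hpA] at b1 b2
  have hs := sum_win (fun n => Lam n * (if n ≡ a [MOD q] then (1 : ℝ) else 0)) u v huv
  have hd := Lam_prime_diff (fun n => if n ≡ a [MOD q] then (1 : ℝ) else 0)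
    (fun n => by split <;> simp) u v
  have he : ∑ p ∈ (Ioc u v).filter Nat.Prime, (if p ≡ a [MOD q] then (1 : ℝ) else 0) * Real.log p
      = ∑ p ∈ (Ioc u v).filter (fun p => p.Prime ∧ p ≡ a [MOD q]), Real.log p := by
    rw [← Finset.filter_filter, Finset.sum_filter (s := (Ioc u v).filter Nat.Prime)]
    refine Finset.sum_congr rfl fun p _ => ?_
    split <;> simp
  rw [he] at hd
  have hd' := hd.trans (h2 v hvx)
  rw [hs] at hd'
  rw [abs_le] at b1 b2 hd' ⊢
  have e3 : ((v : ℝ) - u) / (q.totient : ℝ) = v / (q.totient : ℝ) - u / (q.totient : ℝ) := by ring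
  rw [e3]
  constructor <;> linarith

end Pool.Agent.H2.N3

end

section

/-!
# Project AB: the primes of a residue class, outside a set of density zero
-/

set_option autoImplicit false

namespace Pool.Agent.H29.AB

open Finset Filter Topology Pool.Agent.H71.FD

/-- the mass of the primes of a residue class -/
theorem ap_th (q a : ℕ) (hq : 1 ≤ q) (ha : a.Coprime q) (ε : ℝ) (hε : 0 < ε) :
    ∀ᶠ x : ℕ in atTop, |th (fun p => p ≡ a [MOD q]) x - x / (q.totient : ℝ)| ≤ ε * x := by
  classical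
  filter_upwards [Pool.Agent.H2.N3.class_win q a hq ha ε hε] with x hx
  have h := hx 0 x (Nat.zero_le x) le_rfl
  have e : th (fun p => p ≡ a [MOD q]) x =
      ∑ p ∈ (Ioc 0 x).filter (fun p => p.Prime ∧ p ≡ a [MOD q]), Real.log p := by
    unfold th
    refine Finset.sum_congr ?_ fun _ _ => rfl
    ext p
    simp only [mem_filter, mem_Icc, mem_Ioc]
    constructor <;> rintro ⟨⟨h1, h2⟩, h3⟩ <;> exact ⟨⟨by omega, h2⟩, h3⟩
  rw [e]
  simpa using h

/-- the primes of a finite set of residue classes, outside a set of density zero -/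
theorem ap_lower_set (q : ℕ) (hq : 1 ≤ q) (A : Finset ℕ) (hA : ∀ a ∈ A, a < q ∧ a.Coprime q)
    (ε : ℝ) (hε : 0 < ε) :
    ∀ᶠ x : ℕ in atTop,
      ((A.card : ℝ) / (q.totient : ℝ) - ε) * (x / Real.log x) ≤ cn (fun p => p % q ∈ A) x := by
  refine cn_of_th ((A.card : ℝ) / (q.totient : ℝ) - ε) ?_
  have hε' : 0 < ε / (A.card + 1) := by positivity
  have hall : ∀ᶠ x : ℕ in atTop, ∀ a ∈ A,
      |th (fun p => p ≡ a [MOD q]) x - x / (q.totient : ℝ)| ≤ ε / (A.card + 1) * x := by
    rw [eventually_all_finset]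
    intro a ha
    exact ap_th q a hq (hA a ha).2 _ hε'
  filter_upwards [hall] with x hx
  classical
  have hsum : th (fun p => p % q ∈ A) x = ∑ a ∈ A, th (fun p => p ≡ a [MOD q]) x := by
    unfold th
    rw [← Finset.sum_biUnion]
    · refine Finset.sum_congr ?_ fun _ _ => rfl
      ext p
      simp only [mem_biUnion, mem_filter]
      constructor
      · rintro ⟨h1, h2, h3⟩
        exact ⟨p % q, h3, h1, h2, (Nat.mod_modEq p q).symm⟩
      · rintro ⟨a, ha, h1, h2, h3⟩
        refine ⟨h1, h2, ?_⟩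
        have : p % q = a := by
          rw [h3, Nat.mod_eq_of_lt (hA a ha).1]
        rw [this]
        exact ha
    · intro a ha b hb hab
      rw [Function.onFun, Finset.disjoint_left]
      intro p hp hp'
      simp only [mem_filter] at hp hp'
      apply hab
      have h1 : p % q = a := by rw [hp.2.2, Nat.mod_eq_of_lt (hA a ha).1]
      have h2 : p % q = b := by rw [hp'.2.2, Nat.mod_eq_of_lt (hA b hb).1]
      rw [← h1, ← h2]
  rw [hsum]
  have h1 : ∑ _a ∈ A, ((x : ℝ) / (q.totient : ℝ) - ε / (A.card + 1) * x) ≤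
      ∑ a ∈ A, th (fun p => p ≡ a [MOD q]) x := by
    refine Finset.sum_le_sum fun a ha => ?_
    have := (abs_le.1 (hx a ha)).1
    linarith
  rw [Finset.sum_const, nsmul_eq_mul] at h1
  refine le_trans ?_ h1
  have h2 : (A.card : ℝ) * (ε / (A.card + 1) * x) ≤ ε * x := by
    have hc : (A.card : ℝ) * (ε / (A.card + 1)) ≤ ε := by
      rw [mul_div_assoc', div_le_iff₀ (by positivity)]
      nlinarith
    calc (A.card : ℝ) * (ε / (A.card + 1) * x) = (A.card : ℝ) * (ε / (A.card + 1)) * x := by ring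
      _ ≤ ε * x := mul_le_mul_of_nonneg_right hc (Nat.cast_nonneg x)
  have e : (A.card : ℝ) * (x / (q.totient : ℝ) - ε / (A.card + 1) * x) =
      (A.card : ℝ) / (q.totient : ℝ) * x - (A.card : ℝ) * (ε / (A.card + 1) * x) := by ring
  rw [e]
  linarith

/-- the same outside a set of density zero -/
theorem ap_sdiff (q : ℕ) (hq : 1 ≤ q) (A : Finset ℕ) (hA : ∀ a ∈ A, a < q ∧ a.Coprime q)
    (B : ℕ → Prop) (hB : Null B) (ε : ℝ) (hε : 0 < ε) :
    ∀ᶠ x : ℕ in atTop,
      ((A.card : ℝ) / (q.totient : ℝ) - ε) * (x / Real.log x) ≤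
        cn (fun p => p % q ∈ A ∧ ¬ B p) x := by
  filter_upwards [cn_sdiff ((A.card : ℝ) / (q.totient : ℝ) - ε / 2)
    (ap_lower_set q hq A hA (ε / 2) (by linarith)) hB (ε / 2) (by linarith)] with x hx
  refine le_trans (le_of_eq ?_) hx
  ring

end Pool.Agent.H29.AB

end

section

/-!
# AB, part (D2b), strong form with any set of good classes
-/

open NumberField IsDedekindDomain H9FC H9AB Polynomial Filter Topology Pool.Agent.H71.FD Finset

namespace H87AB

/-- a class `a` modulo `f` is good for `K ⊆ ℚ(ζ_f)` -/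
def GoodClass (f : ℕ) [NeZero f] (L : Type*) [Field L] [NumberField L]
    [IsCyclotomicExtension {f} ℚ L] (K : Type*) [Field K] [NumberField K] (ι : K →+* L)
    (a : ℕ) : Prop :=
  ∃ h : (ZMod f)ˣ, h.val.val % 3 = 2 ∧
    (∀ x : K, (IsCyclotomicExtension.Rat.galEquivZMod f L).symm h (ι x) = ι x) ∧
    ∃ k : ℕ, (h : ZMod f) = (a : ZMod f) ^ k ∨ (h : ZMod f) = -(a : ZMod f) ^ k

theorem fcs_of_good (f : ℕ) [NeZero f] (h3f : 3 ∣ f) (L : Type*) [Field L] [NumberField L]
    [IsCyclotomicExtension {f} ℚ L] (K : Type*) [Field K] [NumberField K] (ι : K →+* L)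
    (p : ℕ) [hp : Fact p.Prime] (h5 : 5 ≤ p) (hpf : ¬ p ∣ f) (hg : GoodClass f L K ι p)
    (hS : StrongAt f L p) : FCS K p := by
  intro x y z hx hy hz hs v hv hcon
  obtain ⟨h, hh3, hfix, k, hk⟩ := hg
  exact strong_core f L K ι h hfix h3f hh3 p h5 hpf k hk hS x y z hx hy hz hs v hv hcon

theorem goodClass_congr (f : ℕ) [NeZero f] (L : Type*) [Field L] [NumberField L]
    [IsCyclotomicExtension {f} ℚ L] (K : Type*) [Field K] [NumberField K] (ι : K →+* L)
    {a b : ℕ} (hab : a ≡ b [MOD f]) (h : GoodClass f L K ι a) : GoodClass f L K ι b := by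
  obtain ⟨g, h1, h2, k, hk⟩ := h
  refine ⟨g, h1, h2, k, ?_⟩
  have e : (b : ZMod f) = (a : ZMod f) := ((ZMod.natCast_eq_natCast_iff _ _ _).mpr hab).symm
  rw [e]
  exact hk

/-- the density of the good exponents, for any finite set of good classes -/
theorem fcs_density_of (f : ℕ) [NeZero f] (h3 : 3 ∣ f) (L : Type*) [Field L] [NumberField L]
    [IsCyclotomicExtension {f} ℚ L] (K : Type*) [Field K] [NumberField K] (ι : K →+* L)
    (A : Finset ℕ) (hA : ∀ a ∈ A, a < f ∧ a.Coprime f) (hg : ∀ a ∈ A, GoodClass f L K ι a)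
    (δ : ℝ) (hδ : δ ≤ (A.card : ℝ) / (f.totient : ℝ))
    (hnull : Null (fun p => ∃ hp : Fact p.Prime, ¬ StrongAt f L p)) (ε : ℝ) (hε : 0 < ε) :
    ∀ᶠ x : ℕ in atTop, (δ - ε) * (x / Real.log x) ≤ cn (fun p => FCS K p) x := by
  have hsmall : Null (fun p => p < 5 ∨ p ∣ f) := Null_of_bounded (max 5 f) fun p _ hp => by
    rcases hp with hp | hp
    · exact hp.le.trans (le_max_left _ _)
    · exact (Nat.le_of_dvd (NeZero.pos f) hp).trans (le_max_right _ _)
  have hB := hnull.or hsmall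
  have h := Pool.Agent.H29.AB.ap_sdiff f (NeZero.pos f) A hA _ hB ε hε
  filter_upwards [h, eventually_ge_atTop 1] with x hx hx1
  have hlog : (0 : ℝ) ≤ x / Real.log x :=
    div_nonneg (Nat.cast_nonneg x) (Real.log_natCast_nonneg x)
  refine (mul_le_mul_of_nonneg_right (sub_le_sub_right hδ ε) hlog).trans (hx.trans ?_)
  have hm : cn (fun p => p % f ∈ A ∧
      ¬ ((∃ hp : Fact p.Prime, ¬ StrongAt f L p) ∨ (p < 5 ∨ p ∣ f))) x ≤
      cn (fun p => FCS K p) x := by
    refine cn_mono (fun p hp hpA => ?_) x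
    obtain ⟨h1, h2⟩ := hpA
    push Not at h2
    haveI : Fact p.Prime := ⟨hp⟩
    exact fcs_of_good f h3 L K ι p h2.2.1 h2.2.2
      (goodClass_congr f L K ι (Nat.mod_modEq p f) (hg _ h1)) (h2.1 ⟨hp⟩)
  exact_mod_cast hm

/-- real fields: every class is good -/
theorem goodClass_real (f : ℕ) [NeZero f] (h3 : 3 ∣ f) (L : Type*) [Field L] [NumberField L]
    [IsCyclotomicExtension {f} ℚ L] (K : Type*) [Field K] [NumberField K] (ι : K →+* L)
    (hreal : ∀ x : K, (IsCyclotomicExtension.Rat.galEquivZMod f L).symm (-1) (ι x) = ι x)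
    (a : ℕ) : GoodClass f L K ι a := by
  refine ⟨-1, ?_, hreal, 0, Or.inr ?_⟩
  · obtain ⟨m, hm⟩ := h3
    have hm0 : 0 < m := by
      rcases Nat.eq_zero_or_pos m with h | h
      · exact absurd (by rw [hm, h, Nat.mul_zero]) (NeZero.ne f)
      · exact h
    have h1 : ((-1 : (ZMod f)ˣ) : ZMod f).val = f - 1 := by
      obtain ⟨n, rfl⟩ : ∃ n, f = n + 1 := ⟨f - 1, by have := NeZero.pos f; omega⟩
      rw [Units.val_neg, Units.val_one, ZMod.val_neg_one]
      rfl
    rw [h1, hm]
    omega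
  · simp

end H87AB

end

section

/-!
# Project AB, D2a: real fields

`K` a number field all of whose embeddings into `ℂ` are real, `ι : K → L = ℚ(ζ_f)`.
* `cj_fix`: complex conjugation of `L` fixes `ι(K)`.
* `real_core`: if the good places of every solution over `L` satisfy `T_{±g} T_g = 1`, then no prime above `p` is good
  for a solution over `K`.
-/

namespace H88AB

open NumberField IsDedekindDomain H9FC H9AB Finset

section

variable (f : ℕ) [NeZero f] (L : Type*) [Field L] [NumberField L] [IsCyclotomicExtension {f} ℚ L]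

theorem actL_coe (g : (ZMod f)ˣ) (x : 𝓞 L) :
    algebraMap (𝓞 L) L (actL f L g x) = (IsCyclotomicExtension.Rat.galEquivZMod f L).symm g (algebraMap (𝓞 L) L x) := rfl

theorem actL_one (x : 𝓞 L) : actL f L 1 x = x := by
  apply RingOfIntegers.coe_injective
  show algebraMap (𝓞 L) L (actL f L 1 x) = algebraMap (𝓞 L) L x
  rw [actL_coe, map_one]
  rfl

variable {K : Type*} [Field K]

end

section

variable {K : Type*} [Field K] [NumberField K] {L : Type*} [Field L] [NumberField L]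

theorem fsol_map {p : ℕ} {a b c : 𝓞 K} (h : FSol K p a b c) (ι : K →+* L) :
    FSol L p (RingOfIntegers.mapRingHom ι a) (RingOfIntegers.mapRingHom ι b)
      (RingOfIntegers.mapRingHom ι c) := by
  have hinj : Function.Injective (RingOfIntegers.mapRingHom ι : 𝓞 K →+* 𝓞 L) := by
    intro x y hxy
    apply RingOfIntegers.coe_injective
    apply ι.injective
    exact congrArg (fun z : 𝓞 L => (z : L)) hxy
  refine ⟨?_, ?_, ?_, ?_⟩
  · rw [Ne, map_eq_zero_iff _ hinj]; exact h.1
  · rw [Ne, map_eq_zero_iff _ hinj]; exact h.2.1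
  · rw [Ne, map_eq_zero_iff _ hinj]; exact h.2.2.1
  · rw [← map_pow, ← map_pow, ← map_pow, ← map_add, ← map_add, h.2.2.2, map_zero]

theorem cop_map {q : ℕ} {a b c : 𝓞 K} (h : CopAt K q a b c) (ι : K →+* L) :
    CopAt L q (RingOfIntegers.mapRingHom ι a) (RingOfIntegers.mapRingHom ι b)
      (RingOfIntegers.mapRingHom ι c) := by
  intro P hP hq hh
  refine h (P.comap (RingOfIntegers.mapRingHom ι)) (hP.comap _) ?_ ⟨hh.1, hh.2.1, hh.2.2⟩
  rw [Ideal.mem_comap, map_natCast]
  exact hq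

end

/-- the good conjugates -/
noncomputable def good (f : ℕ) [NeZero f] (L : Type*) [Field L] [NumberField L] [IsCyclotomicExtension {f} ℚ L]
    {Ω : Type*} [Field Ω] (w : 𝓞 L →+* Ω) (a b c : 𝓞 L) : Finset (ZMod f)ˣ := by
  classical
  exact univ.filter fun g => w (actL f L g a) ≠ 0 ∧ w (actL f L g b) ≠ 0 ∧ w (actL f L g c) ≠ 0

theorem mem_good {f : ℕ} [NeZero f] {L : Type*} [Field L] [NumberField L] [IsCyclotomicExtension {f} ℚ L]
    {Ω : Type*} [Field Ω] {w : 𝓞 L →+* Ω} {a b c : 𝓞 L} {g : (ZMod f)ˣ} :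
    g ∈ good f L w a b c ↔ w (actL f L g a) ≠ 0 ∧ w (actL f L g b) ≠ 0 ∧ w (actL f L g c) ≠ 0 := by
  classical
  unfold good
  simp only [mem_filter, mem_univ, true_and]

/-- the symmetry of the good places of the solutions over `L`, up to sign -/
def SymL (f : ℕ) [NeZero f] (L : Type*) [Field L] [NumberField L] [IsCyclotomicExtension {f} ℚ L]
    (p : ℕ) (Ω : Type*) [Field Ω] : Prop :=
  ∀ a b c : 𝓞 L, FSol L p a b c → CopAt L p a b c → ∀ w : 𝓞 L →+* Ω, ∀ g ∈ good f L w a b c,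
    ∃ g' ∈ good f L w a b c, (g' = g ∨ g' = -g) ∧
      (-(w (actL f L g' b)) / w (actL f L g' a)) * (-(w (actL f L g b)) / w (actL f L g a)) = 1

/-- the relations for the good places of the solutions over `L`, even characters -/
def RelL (f : ℕ) [NeZero f] (L : Type*) [Field L] [NumberField L] [IsCyclotomicExtension {f} ℚ L]
    (p : ℕ) [NeZero (f * p)] (c₀ : ℕ) (Ω : Type*) [Field Ω] : Prop :=
  ∀ a b c : 𝓞 L, FSol L p a b c → CopAt L p a b c → ∀ w : 𝓞 L →+* Ω, ∀ χ : (ZMod f)ˣ →* Ωˣ, χ (-1) = 1 →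
    ∀ m, Even m → 2 ≤ m → 2 * m + 1 ≤ p → H99AB.beta Ω f p c₀ (m + 1) χ = 0 ∨
      ∑ g ∈ good f L w a b c, (χ g : Ω) * H69FD.LL m (-(w (actL f L g b)) / w (actL f L g a)) = 0

/-- the symmetry of finite families with all relations, even characters, at the prime `p` -/
def SymE (f n p : ℕ) [NeZero (f * p)] (c₀ : ℕ) (Ω : Type*) [Field Ω] : Prop :=
  ∀ n' ≤ n, ∀ (π : Fin n' → (ZMod f)ˣ) (T : Fin n' → Ω), (∀ v, T v ≠ 0) → (∀ v, T v ≠ 1) →
    (∀ χ : (ZMod f)ˣ →* Ωˣ, χ (-1) = 1 → ∀ m, Even m → 2 ≤ m → 2 * m + 1 ≤ p →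
      H99AB.beta Ω f p c₀ (m + 1) χ = 0 ∨ ∑ v, (χ (π v) : Ω) * H69FD.LL m (T v) = 0) →
    ∃ σ : Equiv.Perm (Fin n'), ∀ v, (π (σ v) = π v ∨ π (σ v) = -π v) ∧ T (σ v) * T v = 1

theorem symL_of (f : ℕ) [NeZero f] (L : Type*) [Field L] [NumberField L] [IsCyclotomicExtension {f} ℚ L]
    (p : ℕ) [Fact p.Prime] [NeZero (f * p)] (c₀ : ℕ) (Ω : Type*) [Field Ω] [CharP Ω p]
    (hrel : RelL f L p c₀ Ω) (n : ℕ) (hn : Nat.card (ZMod f)ˣ ≤ n) (hE : SymE f n p c₀ Ω) :
    SymL f L p Ω := by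
  classical
  intro a b c hF hC w g hg
  set S := good f L w a b c with hS
  let e : Fin S.card ≃ S := S.equivFin.symm
  have hle : S.card ≤ n := by
    refine le_trans ?_ hn
    rw [Nat.card_eq_fintype_card]
    exact Finset.card_le_univ S
  have hmem : ∀ v, w (actL f L (e v : (ZMod f)ˣ) a) ≠ 0 ∧ w (actL f L (e v : (ZMod f)ˣ) b) ≠ 0 ∧
      w (actL f L (e v : (ZMod f)ˣ) c) ≠ 0 := fun v => mem_good.1 (e v).2
  have hT0 : ∀ v, -(w (actL f L (e v : (ZMod f)ˣ) b)) / w (actL f L (e v : (ZMod f)ˣ) a) ≠ 0 := by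
    intro v
    obtain ⟨h1, h2, -⟩ := hmem v
    exact div_ne_zero (neg_ne_zero.2 h2) h1
  have hT1 : ∀ v, -(w (actL f L (e v : (ZMod f)ˣ) b)) / w (actL f L (e v : (ZMod f)ˣ) a) ≠ 1 := by
    intro v h1
    obtain ⟨h2, -, h3⟩ := hmem v
    rw [div_eq_one_iff_eq h2] at h1
    have h4 : w (actL f L (e v : (ZMod f)ˣ) a) + w (actL f L (e v : (ZMod f)ˣ) b)
        + w (actL f L (e v : (ZMod f)ˣ) c) = 0 :=
      fsol_hom hF (w.comp (actL f L (e v : (ZMod f)ˣ)))
    apply h3
    linear_combination h4 + h1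
  obtain ⟨σ, hσ⟩ := hE S.card hle (fun v => (e v : (ZMod f)ˣ)) _ hT0 hT1 (by
    intro χ hχ m hm h2m hmp
    rcases hrel a b c hF hC w χ hχ m hm h2m hmp with h1 | h1
    · exact Or.inl h1
    · right
      rw [← h1, ← hS, ← Finset.sum_coe_sort S, ← Equiv.sum_comp e])
  obtain ⟨h1, h2⟩ := hσ (e.symm ⟨g, hg⟩)
  simp only [Equiv.apply_symm_apply] at h1 h2
  exact ⟨(e (σ (e.symm ⟨g, hg⟩)) : (ZMod f)ˣ), (e (σ (e.symm ⟨g, hg⟩))).2, h1, h2⟩

end H88AB

end

section

/-!
# Project AB, module Strong: from the symmetry up to sign (`H88AB.SymL`) to `T² - T + 1 = 0`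

`T g = - w(σ_g b) / w(σ_g a)`. If every good `g` has a good partner `g' = ± g` with `T g' T g = 1`, for the three
types of the solution, then `-g` is good, `T (-g) T g = 1` and `(T g)² - T g + 1 = 0`.
-/

namespace H72AB

open NumberField H9FC H9AB H88AB

/-- the abstract lemma: `x` the value at the place, `s` the set of the values at `{g, -g}` (good ones) -/
theorem six_pair {Ω : Type*} [Field Ω] (h3 : (3 : Ω) ≠ 0) {G : Type*} [InvolutiveNeg G] (S : G → Prop) (T : G → Ω)
    (h0 : ∀ g, S g → T g ≠ 0)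
    (h1 : ∀ g, S g → ∃ g', S g' ∧ (g' = g ∨ g' = -g) ∧ T g' * T g = 1)
    (h2 : ∀ g, S g → ∃ g', S g' ∧ (g' = g ∨ g' = -g) ∧ (1 - T g') * (1 - T g) = 1)
    (g : G) (hg : S g) : S (-g) ∧ T (-g) * T g = 1 ∧ T g ^ 2 - T g + 1 = 0 := by
  -- the values `-1` and `2` are impossible
  have key : ∀ g, S g → T g ≠ -1 := by
    intro g hg hT
    obtain ⟨g', hg', h4, h5⟩ := h2 g hg
    rw [hT] at h5
    have h6 : 2 * T g' = 1 := by linear_combination -h5
    have h7 : g' = -g := by
      rcases h4 with rfl | h4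
      · exfalso
        apply h3
        rw [hT] at h6
        linear_combination -h6
      · exact h4
    obtain ⟨g'', hg'', h8, h9⟩ := h1 g' hg'
    have h10 : T g'' = 2 := by linear_combination T g'' * (-h6) + 2 * h9
    rcases h8 with h8 | h8
    · apply h3
      rw [h8] at h10
      linear_combination h6 - 2 * h10
    · rw [h7, neg_neg] at h8
      rw [h8, hT] at h10
      apply h3
      linear_combination -h10
  have key2 : ∀ g, S g → T g ≠ 2 := by
    intro g hg hT
    obtain ⟨g', hg', h4, h5⟩ := h1 g hg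
    rw [hT] at h5
    -- `T g' = 1/2`
    have h7 : g' = -g := by
      rcases h4 with rfl | h4
      · exfalso
        apply h3
        rw [hT] at h5
        linear_combination h5
      · exact h4
    obtain ⟨g'', hg'', h8, h9⟩ := h2 g' hg'
    have h10 : T g'' = -1 := by linear_combination (-1 + T g'') * h5 - 2 * h9
    exact key g'' hg'' h10
  obtain ⟨g', hg', h4, h5⟩ := h1 g hg
  rcases h4 with rfl | rfl
  · exfalso
    have h6 : (T g' - 1) * (T g' + 1) = 0 := by linear_combination h5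
    rcases mul_eq_zero.1 h6 with h7 | h7
    · -- `T = 1`: impossible by the second type
      obtain ⟨g'', -, -, h8⟩ := h2 g' hg'
      have h9 : T g' = 1 := by linear_combination h7
      rw [h9, sub_self, mul_zero] at h8
      exact zero_ne_one h8
    · exact key g' hg' (by linear_combination h7)
  · refine ⟨hg', h5, ?_⟩
    obtain ⟨g'', hg'', h8, h9⟩ := h2 g hg
    rcases h8 with rfl | rfl
    · exfalso
      have h10 : T g'' * (T g'' - 2) = 0 := by linear_combination h9
      rcases mul_eq_zero.1 h10 with h11 | h11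
      · exact h0 g'' hg h11
      · exact key2 g'' hg (by linear_combination h11)
    · exact H85AB.six_of_two h5 h9

section

variable (f : ℕ) [NeZero f] (L : Type*) [Field L] [NumberField L] [IsCyclotomicExtension {f} ℚ L]

/-- **Theorem S over `L = ℚ(ζ_f)`**: at the good places `-b/a` is a primitive sixth root of unity. -/
theorem strong_L (p : ℕ) [Fact p.Prime] (hp : 3 < p) (Ω : Type*) [Field Ω] [CharP Ω p]
    (hsym : SymL f L p Ω) (a b c : 𝓞 L) (hF : FSol L p a b c) (hC : CopAt L p a b c) (w : 𝓞 L →+* Ω)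
    (g : (ZMod f)ˣ) (hg : g ∈ good f L w a b c) :
    -g ∈ good f L w a b c ∧
      (-(w (actL f L (-g) b)) / w (actL f L (-g) a)) * (-(w (actL f L g b)) / w (actL f L g a)) = 1 ∧
      (-(w (actL f L g b)) / w (actL f L g a)) ^ 2 - (-(w (actL f L g b)) / w (actL f L g a)) + 1 = 0 := by
  have h3 : (3 : Ω) ≠ 0 := by
    intro h0
    have h4 : ((3 : ℕ) : Ω) = 0 := by exact_mod_cast h0
    have := Nat.le_of_dvd (by norm_num) ((CharP.cast_eq_zero_iff Ω p 3).mp h4)
    omega
  refine six_pair h3 (fun g => g ∈ good f L w a b c) (fun g => -(w (actL f L g b)) / w (actL f L g a)) ?_ ?_ ?_ g hg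
  · intro g hg
    obtain ⟨h1, h2, -⟩ := mem_good.1 hg
    exact div_ne_zero (neg_ne_zero.2 h2) h1
  · intro g hg
    obtain ⟨g', hg', h1, h2⟩ := hsym a b c hF hC w g hg
    exact ⟨g', hg', h1, h2⟩
  · intro g hg
    have e1 : ∀ g, g ∈ good f L w a b c → g ∈ good f L w a c b := fun g h =>
      mem_good.2 ⟨(mem_good.1 h).1, (mem_good.1 h).2.2, (mem_good.1 h).2.1⟩
    have e2 : ∀ g, g ∈ good f L w a c b → g ∈ good f L w a b c := fun g h =>
      mem_good.2 ⟨(mem_good.1 h).1, (mem_good.1 h).2.2, (mem_good.1 h).2.1⟩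
    obtain ⟨g', hg', h1, h2⟩ := hsym a c b hF.rot.rot.swap hC.rot.rot.swap w g (e1 g hg)
    refine ⟨g', e2 g' hg', h1, ?_⟩
    have key : ∀ g, g ∈ good f L w a b c → 1 - -(w (actL f L g b)) / w (actL f L g a) =
        -(w (actL f L g c)) / w (actL f L g a) := by
      intro g hg
      have hs : w (actL f L g a) + w (actL f L g b) + w (actL f L g c) = 0 :=
        fsol_hom hF (w.comp (actL f L g))
      have ha := (mem_good.1 hg).1
      field_simp
      linear_combination hs
    rw [key g' (e2 g' hg'), key g hg]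
    exact h2

end

end H72AB

end

section

/-!
# Project AB, D2a: real fields, density form
-/

namespace H88AB

open NumberField IsDedekindDomain H9FC H9AB Finset Pool.Agent.H71.FD

theorem symE_of_not {f c n p : ℕ} [NeZero (f * p)] (h : ¬ H59AB.ABBadE f c n p) (Ω : Type)
    [Field Ω] [IsAlgClosed Ω] [CharP Ω p] : SymE f n p c Ω := by
  intro n' hn' π T h0 h1 hrel
  by_contra hcon
  exact h ⟨inferInstance, n', hn', Ω, inferInstance, inferInstance, inferInstance, π, T, h0, h1,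
    fun m hm h2 h3 χ hχ => hrel χ hχ m hm h2 h3, hcon⟩

end H88AB

end

section

/-!
# Project AB, D2a: the relations over `L = ℚ(ζ_f)` itself
-/

namespace H88AB

open Polynomial NumberField IsDedekindDomain H9FC H9AB Finset

theorem nfR_self (L : Type*) [Field L] [NumberField L] (x y : 𝓞 L) : nfR L L x y = C x + X * C y := by
  classical
  apply Polynomial.map_injective (algebraMap (𝓞 L) L) RingOfIntegers.coe_injective
  rw [nfR_map]
  have hu : ∀ σ : L →ₐ[L] L, σ = AlgHom.id L L := fun σ => Subsingleton.elim _ _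
  have hcard : Fintype.card (L →ₐ[L] L) = Module.finrank L L := by
    rw [Module.finrank_self, Fintype.card_eq_one_iff]
    exact ⟨AlgHom.id L L, hu⟩
  have h1 := nfL_map_prod L L L hcard (x : L) (y : L)
  rw [Algebra.algebraMap_self, Polynomial.map_id] at h1
  rw [h1, Fintype.prod_unique]
  simp

theorem relL (f p c₀ : ℕ) [NeZero f] [NeZero (f * p)] [Fact p.Prime] (hpf : ¬ p ∣ f) (hp : 7 ≤ p)
    (L : Type*) [Field L] [NumberField L] [IsCyclotomicExtension {f} ℚ L] (hc₀ : 1 ≤ c₀)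
    (hc₀' : c₀ < f * p) (Ω : Type*) [Field Ω] [IsAlgClosed Ω] [CharP Ω p] : RelL f L p c₀ Ω := by
  classical
  intro a b c h hcp w χ _ m hm h2m hmp
  have hfr : Module.finrank L L = 1 := Module.finrank_self L
  have key := H77AB.twisted_kummer_mixed f p (by omega) hpf L L a b c h hcp Ω w
    (fun g _ => w.comp (actL f L g)) (by
      intro g x y
      rw [nfR_self, Finset.prod_const, Finset.card_univ, Fintype.card_fin, hfr, pow_one]
      simp) c₀ hc₀ hc₀' (m + 1) (by
        obtain ⟨r, hr⟩ := hm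
        exact ⟨r, by omega⟩) (by omega) (by omega) χ
  rcases key with h1 | h1
  · exact Or.inl h1
  · right
    rw [Nat.add_sub_cancel] at h1
    rw [← h1, ← Finset.sum_subset (Finset.subset_univ (good f L w a b c))]
    · refine Finset.sum_congr rfl fun g hg => ?_
      congr 1
      rw [mem_good] at hg
      have h2 : H77AB.GG (fun _ : Fin (Module.finrank L L) => w.comp (actL f L g)) a b c = Finset.univ := by
        ext i
        rw [H77AB.mem_GG]
        exact ⟨fun _ => Finset.mem_univ _, fun _ => hg⟩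
      rw [h2, Finset.sum_const, Finset.card_univ, Fintype.card_fin, hfr, one_smul]
      rfl
    · intro g _ hg
      have h2 : H77AB.GG (fun _ : Fin (Module.finrank L L) => w.comp (actL f L g)) a b c = ∅ := by
        ext i
        rw [H77AB.mem_GG]
        constructor
        · intro h3
          exact absurd (mem_good.2 h3) hg
        · intro h3
          exact absurd h3 (Finset.notMem_empty _)
      rw [h2, Finset.sum_empty, mul_zero]

end H88AB

end

section

/-!
# Project AB, module StrongK: Theorem S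

For every `f` there is a set of primes `p` of density zero outside which, for every subfield `K` of `ℚ(ζ_f)`,
every solution and every prime `v ∣ p` of `K` with `v(a) = v(b) = v(c)`: `v(a² + ab + b²) > v(a²)`.
-/

namespace H72AB

open NumberField IsDedekindDomain H9FC H9AB H88AB Pool.Agent.H71.FD

/-- the good places over `L`, in the product form -/
theorem strong_w (f : ℕ) [NeZero f] (L : Type*) [Field L] [NumberField L] [IsCyclotomicExtension {f} ℚ L]
    (p : ℕ) [Fact p.Prime] (hp : 3 < p) (Ω : Type*) [Field Ω] [CharP Ω p]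
    (hsym : SymL f L p Ω) (a b c : 𝓞 L) (hF : FSol L p a b c) (hC : CopAt L p a b c) (w : 𝓞 L →+* Ω)
    (ha : w a ≠ 0) (hb : w b ≠ 0) (hc : w c ≠ 0) :
    w a ^ 2 + w a * w b + w b ^ 2 = 0 ∧ w (actL f L (-1) a) ≠ 0 ∧ w (actL f L (-1) b) ≠ 0 ∧
      w (actL f L (-1) b) * w b = w (actL f L (-1) a) * w a := by
  have hg : (1 : (ZMod f)ˣ) ∈ good f L w a b c := by
    rw [mem_good, actL_one, actL_one, actL_one]
    exact ⟨ha, hb, hc⟩
  obtain ⟨h1, h2, h3⟩ := strong_L f L p hp Ω hsym a b c hF hC w 1 hg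
  rw [actL_one, actL_one] at h2 h3
  obtain ⟨h4, h5, -⟩ := mem_good.1 h1
  refine ⟨?_, h4, h5, ?_⟩
  · field_simp at h3
    linear_combination h3
  · field_simp at h2
    linear_combination h2

/-- **Theorem S**, one prime `p`. -/
theorem strong_K (f : ℕ) [NeZero f] (L : Type*) [Field L] [NumberField L] [IsCyclotomicExtension {f} ℚ L]
    {K : Type*} [Field K] [NumberField K] (ι : K →+* L) (p : ℕ) [Fact p.Prime] (hp : 3 < p)
    (Ω : Type*) [Field Ω] [IsAlgClosed Ω] [CharP Ω p] (hsym : SymL f L p Ω)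
    (a b c : K) (ha : a ≠ 0) (hb : b ≠ 0) (hc : c ≠ 0) (h : a ^ p + b ^ p + c ^ p = 0)
    (v : HeightOneSpectrum (𝓞 K)) (hv : (p : 𝓞 K) ∈ v.asIdeal)
    (hg : v.valuation K a = v.valuation K b ∧ v.valuation K b = v.valuation K c) :
    v.valuation K (a ^ 2 + a * b + b ^ 2) < v.valuation K (a ^ 2) := by
  obtain ⟨l, a', b', c', hl, ea, eb, ec, hF, hcp, φ, hφ, h1, h2, h3⟩ := H3AB.scale_good Ω ha hb hc h v hv hg
  let _ : Algebra K L := ι.toAlgebra
  obtain ⟨w, hw⟩ := exists_lift_hom K L Ω φ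
  have hmap : ∀ x : 𝓞 K, RingOfIntegers.mapRingHom ι x = algebraMap (𝓞 K) (𝓞 L) x := fun x => by
    apply RingOfIntegers.coe_injective
    rfl
  have hwx : ∀ x : 𝓞 K, w (RingOfIntegers.mapRingHom ι x) = φ x := fun x => by
    rw [hmap, ← hw]
    rfl
  obtain ⟨h4, -⟩ := strong_w f L p hp Ω hsym _ _ _ (fsol_map hF ι) (cop_map hcp ι) w
    (by rw [hwx]; exact h1) (by rw [hwx]; exact h2) (by rw [hwx]; exact h3)
  rw [hwx, hwx, ← map_pow, ← map_pow, ← map_mul, ← map_add, ← map_add] at h4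
  have h5 : a' ^ 2 + a' * b' + b' ^ 2 ∈ v.asIdeal := by
    rw [← hφ, RingHom.mem_ker]
    exact h4
  have h6 : v.valuation K ((a' ^ 2 + a' * b' + b' ^ 2 : 𝓞 K) : K) < 1 := by
    rw [HeightOneSpectrum.valuation_lt_one_iff_mem]
    exact h5
  have h7 : v.valuation K (a' : K) = 1 := by
    refine le_antisymm (v.valuation_le_one a') ?_
    by_contra hcon
    rw [not_le, HeightOneSpectrum.valuation_lt_one_iff_mem, ← hφ, RingHom.mem_ker] at hcon
    exact h1 hcon
  have h8 : ((a' ^ 2 + a' * b' + b' ^ 2 : 𝓞 K) : K) = l ^ 2 * (a ^ 2 + a * b + b ^ 2) := by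
    have e1 : ((a' ^ 2 + a' * b' + b' ^ 2 : 𝓞 K) : K) = (a' : K) ^ 2 + (a' : K) * (b' : K) + (b' : K) ^ 2 := by
      simp only [map_add, map_mul, map_pow]
    rw [e1, ea, eb]
    ring
  have h9 : v.valuation K l ^ 2 * v.valuation K (a ^ 2) = 1 := by
    rw [ea, map_mul] at h7
    rw [map_pow, ← mul_pow, h7, one_pow]
  have hl0 : 0 < v.valuation K l ^ 2 := by
    rw [← map_pow]
    exact zero_lt_iff.2 ((map_ne_zero _).2 (pow_ne_zero 2 hl))
  rw [h8, map_mul, map_pow, ← h9] at h6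
  exact (mul_lt_mul_iff_right₀ hl0).1 h6

/-- the symmetry holds outside a null set -/
theorem null_sym (f : ℕ) [NeZero f] (hf : 2 ≤ f) (L : Type) [Field L] [NumberField L]
    [IsCyclotomicExtension {f} ℚ L] :
    Null (fun p => ¬ ∀ (_ : Fact p.Prime), SymL f L p (AlgebraicClosure (ZMod p))) := by
  classical
  obtain ⟨c, hcf, hc⟩ := Nat.exists_infinite_primes (f + 1)
  have hcf' : ¬ c ∣ f := fun h => by
    have := Nat.le_of_dvd (NeZero.pos f) h
    omega
  refine ((H59AB.null_ABE (fun k _ _ q W hW ε hε => H22GW.gapW k q W hW ε hε) hc hcf' hf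
    (Nat.card (ZMod f)ˣ)).or (Null_of_bounded (G := fun p => p ≤ max 7 (max f c)) (max 7 (max f c))
    fun p _ hp => hp)).mono fun p hp hbad => ?_
  by_contra hcon
  rw [not_or, not_le] at hcon
  obtain ⟨h1, h2⟩ := hcon
  apply hbad
  intro hfact
  have : NeZero (f * p) := ⟨mul_ne_zero (NeZero.ne f) hp.ne_zero⟩
  have h7 : 7 < p := lt_of_le_of_lt (le_max_left _ _) h2
  have hfp : f < p := lt_of_le_of_lt ((le_max_left _ _).trans (le_max_right _ _)) h2
  have hcp : c < p := lt_of_le_of_lt ((le_max_right _ _).trans (le_max_right _ _)) h2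
  have hpf : ¬ p ∣ f := fun h => by
    have := Nat.le_of_dvd (NeZero.pos f) h
    omega
  refine symL_of f L p c _ (relL f p c hpf h7.le L hc.one_lt.le ?_ _) _ le_rfl (symE_of_not h1 _)
  calc c < p := hcp
    _ ≤ f * p := Nat.le_mul_of_pos_left p (NeZero.pos f)

end H72AB

end

section

/-!
# Project AB, module StrongC: Theorem S, the conjugate place

At a good prime `v ∣ p` of an abelian field `K`, for almost all `p`: `a ā = b b̄` modulo `v`, relative to `a ā`.
-/

namespace H72AB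

open NumberField IsDedekindDomain H9FC H9AB H88AB

/-- **Theorem S**, one prime `p`, conjugate place. -/
theorem strong_conj (f : ℕ) [NeZero f] (L : Type*) [Field L] [NumberField L] [IsCyclotomicExtension {f} ℚ L]
    {K : Type*} [Field K] [NumberField K] (ι : K →+* L) (p : ℕ) [Fact p.Prime] (hp : 3 < p)
    (Ω : Type*) [Field Ω] [IsAlgClosed Ω] [CharP Ω p] (hsym : SymL f L p Ω)
    (j : K →+* K) (hj : ∀ (φ : K →+* ℂ) (x : K), φ (j x) = (starRingEnd ℂ) (φ x))
    (a b c : K) (ha : a ≠ 0) (hb : b ≠ 0) (hc : c ≠ 0) (h : a ^ p + b ^ p + c ^ p = 0)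
    (v : HeightOneSpectrum (𝓞 K)) (hv : (p : 𝓞 K) ∈ v.asIdeal)
    (hg : v.valuation K a = v.valuation K b ∧ v.valuation K b = v.valuation K c) :
    v.valuation K (a * j a - b * j b) < v.valuation K (a * j a) := by
  obtain ⟨l, a', b', c', hl, ea, eb, ec, hF, hcp, φ, hφ, h1, h2, h3⟩ := H3AB.scale_good Ω ha hb hc h v hv hg
  let _ : Algebra K L := ι.toAlgebra
  obtain ⟨w, hw⟩ := exists_lift_hom K L Ω φ
  have hmap : ∀ x : 𝓞 K, RingOfIntegers.mapRingHom ι x = algebraMap (𝓞 K) (𝓞 L) x := fun x => by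
    apply RingOfIntegers.coe_injective
    rfl
  have hwx : ∀ x : 𝓞 K, w (RingOfIntegers.mapRingHom ι x) = φ x := fun x => by
    rw [hmap, ← hw]
    rfl
  have hwj : ∀ x : 𝓞 K, w (actL f L (-1) (RingOfIntegers.mapRingHom ι x)) = φ (RingOfIntegers.mapRingHom j x) := by
    intro x
    rw [← hwx]
    congr 1
    apply RingOfIntegers.coe_injective
    exact cj_ext f K L j hj (x : K)
  obtain ⟨-, h4, h5, h6⟩ := strong_w f L p hp Ω hsym _ _ _ (fsol_map hF ι) (cop_map hcp ι) w
    (by rw [hwx]; exact h1) (by rw [hwx]; exact h2) (by rw [hwx]; exact h3)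
  rw [hwj] at h4 h5
  rw [hwj, hwj, hwx, hwx] at h6
  have h7 : a' * RingOfIntegers.mapRingHom j a' - b' * RingOfIntegers.mapRingHom j b' ∈ v.asIdeal := by
    rw [← hφ, RingHom.mem_ker, map_sub, map_mul, map_mul]
    linear_combination -h6
  have h8 : v.valuation K ((a' * RingOfIntegers.mapRingHom j a' - b' * RingOfIntegers.mapRingHom j b' : 𝓞 K) : K) < 1 := by
    rw [HeightOneSpectrum.valuation_lt_one_iff_mem]
    exact h7
  have h9 : v.valuation K ((a' * RingOfIntegers.mapRingHom j a' : 𝓞 K) : K) = 1 := by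
    refine le_antisymm (v.valuation_le_one _) ?_
    by_contra hcon
    rw [not_le, HeightOneSpectrum.valuation_lt_one_iff_mem, ← hφ, RingHom.mem_ker, map_mul] at hcon
    exact (mul_ne_zero h1 h4) hcon
  have ej : ∀ x : 𝓞 K, ((RingOfIntegers.mapRingHom j x : 𝓞 K) : K) = j (x : K) := fun x => rfl
  have h10 : ((a' * RingOfIntegers.mapRingHom j a' : 𝓞 K) : K) = (l * j l) * (a * j a) := by
    have e1 : ((a' * RingOfIntegers.mapRingHom j a' : 𝓞 K) : K) = (a' : K) * j (a' : K) := by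
      simp only [map_mul, ej]
    rw [e1, ea, map_mul]
    ring
  have h11 : ((a' * RingOfIntegers.mapRingHom j a' - b' * RingOfIntegers.mapRingHom j b' : 𝓞 K) : K) =
      (l * j l) * (a * j a - b * j b) := by
    have e1 : ((a' * RingOfIntegers.mapRingHom j a' - b' * RingOfIntegers.mapRingHom j b' : 𝓞 K) : K) =
        (a' : K) * j (a' : K) - (b' : K) * j (b' : K) := by
      simp only [map_mul, map_sub, ej]
    rw [e1, ea, eb, map_mul, map_mul]
    ring
  have hl0 : 0 < v.valuation K (l * j l) :=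
    zero_lt_iff.2 ((map_ne_zero _).2 (mul_ne_zero hl ((map_ne_zero j).2 hl)))
  rw [h11, ← h9, h10, map_mul (v.valuation K) (l * j l), map_mul (v.valuation K) (l * j l)] at h8
  exact (mul_lt_mul_iff_right₀ hl0).1 h8

end H72AB

end

section

/-!
# AB: `StrongAt` holds outside a set of density zero
-/

open NumberField IsDedekindDomain H9FC H9AB Polynomial Filter Topology Pool.Agent.H71.FD Finset

namespace H87AB

theorem strongAt_of (f : ℕ) [NeZero f] (L : Type*) [Field L] [NumberField L]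
    [IsCyclotomicExtension {f} ℚ L] (p : ℕ) [Fact p.Prime] (hp : 3 < p)
    (hsym : H88AB.SymL f L p (AlgebraicClosure (ZMod p))) : StrongAt f L p := by
  intro a b c hF hC w ha hb hc
  have h1 : actL f L 1 = RingHom.id (𝓞 L) := by
    unfold actL
    rw [map_one]
    ext x
    show (((1 : L ≃ₐ[ℚ] L) • x : 𝓞 L) : L) = x
    rw [one_smul]
  have hid : ∀ y, actL f L 1 y = y := fun y => by rw [h1]; rfl
  have hg : (1 : (ZMod f)ˣ) ∈ H88AB.good f L w a b c := by
    rw [H88AB.mem_good, hid, hid, hid]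
    exact ⟨ha, hb, hc⟩
  obtain ⟨h2, h3, h4⟩ := H72AB.strong_L f L p hp (AlgebraicClosure (ZMod p)) hsym a b c hF hC w 1 hg
  rw [H88AB.mem_good] at h2
  obtain ⟨k1, k2, -⟩ := h2
  rw [hid, hid] at h3 h4
  refine ⟨?_, k1, k2, ?_⟩
  · field_simp at h4
    linear_combination h4
  · field_simp at h3
    linear_combination h3

theorem exists_prime_not_dvd (f : ℕ) (hf : f ≠ 0) : ∃ c, c.Prime ∧ ¬ c ∣ f := by
  obtain ⟨c, hc1, hc2⟩ := Nat.exists_infinite_primes (f + 1)
  exact ⟨c, hc2, fun h => absurd (Nat.le_of_dvd (Nat.pos_of_ne_zero hf) h) (by omega)⟩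

/-- `StrongAt` for almost all primes -/
theorem null_strongAt (f : ℕ) [NeZero f] (hf : 2 ≤ f) (L : Type*) [Field L] [NumberField L]
    [IsCyclotomicExtension {f} ℚ L] :
    Null (fun p => ∃ hp : Fact p.Prime, ¬ StrongAt f L p) := by
  obtain ⟨c, hc, hcf⟩ := exists_prime_not_dvd f (NeZero.ne f)
  set n := Nat.card (ZMod f)ˣ with hn
  have h1 := H59AB.null_ABE H22GW.gapW hc hcf hf n
  have hsmall : Null (fun p => p ≤ max (max 7 c) f) :=
    Null_of_bounded (max (max 7 c) f) fun p _ hp => hp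
  refine (h1.or hsmall).mono fun p hp h => ?_
  by_contra hcon
  push Not at hcon
  obtain ⟨hnb, hlt⟩ := hcon
  obtain ⟨hpF, hno⟩ := h
  have h7 : 7 < p := lt_of_le_of_lt ((le_max_left 7 c).trans (le_max_left _ _)) hlt
  have hcp : c < p := lt_of_le_of_lt ((le_max_right 7 c).trans (le_max_left _ _)) hlt
  have hfp : f < p := lt_of_le_of_lt (le_max_right _ _) hlt
  have hpf : ¬ p ∣ f := fun hd => absurd (Nat.le_of_dvd (NeZero.pos f) hd) (by omega)
  haveI : NeZero (f * p) := ⟨Nat.mul_ne_zero (NeZero.ne f) hp.ne_zero⟩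
  apply hno
  refine strongAt_of f L p (by omega) ?_
  refine H88AB.symL_of f L p c (AlgebraicClosure (ZMod p))
    (H88AB.relL f p c hpf (by omega) L hc.one_lt.le ?_ (AlgebraicClosure (ZMod p))) n le_rfl ?_
  · calc c < p := hcp
      _ = 1 * p := (one_mul p).symm
      _ ≤ f * p := Nat.mul_le_mul_right p (NeZero.pos f)
  · intro n' hn' π T hT0 hT1 hrel
    by_contra hσ
    apply hnb
    refine ⟨inferInstance, n', hn', AlgebraicClosure (ZMod p), inferInstance, inferInstance,
      inferInstance, π, T, hT0, hT1, ?_, hσ⟩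
    intro m hm h2m hmp χ hχ
    exact hrel χ hχ m hm h2m hmp

/-- **abelian fields**: the density of the exponents with strong first case, for a set of good
classes -/
theorem fcs_density_abelian (f : ℕ) [NeZero f] (h3 : 3 ∣ f) (L : Type*) [Field L] [NumberField L]
    [IsCyclotomicExtension {f} ℚ L] (K : Type*) [Field K] [NumberField K] (ι : K →+* L)
    (A : Finset ℕ) (hA : ∀ a ∈ A, a < f ∧ a.Coprime f) (hg : ∀ a ∈ A, GoodClass f L K ι a)
    (δ : ℝ) (hδ : δ ≤ (A.card : ℝ) / (f.totient : ℝ)) (ε : ℝ) (hε : 0 < ε) :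
    ∀ᶠ x : ℕ in atTop, (δ - ε) * (x / Real.log x) ≤ cn (fun p => FCS K p) x :=
  fcs_density_of f h3 L K ι A hA hg δ hδ (null_strongAt f (by
    have := Nat.le_of_dvd (NeZero.pos f) h3
    omega) L) ε hε

end H87AB

end
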