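import Mathlib

/-! The parts of this file: H29.FE.Orb, H29.FE.Rf, H29.FE.Sums, H29.FE.Total, H29.FE.Count, H52.FD.Orb, H80.HF.Defs, H85.FD.Orbit, H85.FD.Adm, H10.FG.Spl, H85.FD.OrbitQ, H85.FD.OrbitC, H85.FD.SplitDef, H87.FD.Resid, H89.FrobD.Cor, H89.FrobD.Loc, H89.FrobD.PermCnt. -/

section

/-!
# Clause (E), module Orb: invariant colourings of a permutation

`orb g`: the number of orbits (cycles, fixed points included).  `Inv g c`: the colouring `c` is constant on
the orbits.  `total`: the sum over all permutations `g` of `Fin n` and all `g`-invariant colourings with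
given class sizes `s i` of `z ^ orb g` is `n ! * ∏ i, rf z (s i)`, `rf z k = z (z + 1) ⋯ (z + k - 1) / k !`.
-/

namespace H29FE

open Equiv Finset

/-- the number of orbits -/
noncomputable def orb {α : Type*} (g : Perm α) : ℕ := Nat.card (Quotient (Perm.SameCycle.setoid g))

/-- the colouring `c` is constant on the orbits of `g` -/
def Inv {α ι : Type*} (g : Perm α) (c : α → ι) : Prop := ∀ x, c (g x) = c x

theorem inv_same {α ι : Type*} {g : Perm α} {c : α → ι} (h : Inv g c) {x y : α}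
    (hxy : g.SameCycle x y) : c x = c y := by
  obtain ⟨k, rfl⟩ := hxy
  have h1 : ∀ (m : ℕ) (z : α), c ((g ^ m) z) = c z := by
    intro m
    induction m with
    | zero => intro z; rfl
    | succ m ih => intro z; rw [pow_succ', Perm.mul_apply, h, ih]
  obtain ⟨m, rfl | rfl⟩ := k.eq_nat_or_neg
  · rw [zpow_natCast, h1]
  · rw [zpow_neg, zpow_natCast]
    have := h1 m ((g ^ m)⁻¹ x)
    rw [← Perm.mul_apply, mul_inv_cancel, Perm.one_apply] at this
    exact this

/-- invariant colourings are functions on the set of orbits -/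
def invEquiv {α : Type*} (ι : Type*) (g : Perm α) :
    {c : α → ι // Inv g c} ≃ (Quotient (Perm.SameCycle.setoid g) → ι) where
  toFun c := fun q => Quotient.liftOn' q c.1 (fun _ _ h => inv_same c.2 h)
  invFun f := ⟨fun x => f (Quotient.mk (Perm.SameCycle.setoid g) x), fun x =>
    congrArg f (Quotient.sound (s := Perm.SameCycle.setoid g) (show g.SameCycle (g x) x from
      (Perm.sameCycle_apply_left).2 (Perm.SameCycle.refl g x)))⟩
  left_inv c := rfl
  right_inv f := by
    funext q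
    induction q using Quotient.inductionOn' with
    | h a => rfl

theorem card_inv {α : Type*} [Finite α] (ι : Type*) [Finite ι] (g : Perm α) :
    Nat.card {c : α → ι // Inv g c} = Nat.card ι ^ orb g := by
  rw [Nat.card_congr (invEquiv ι g), Nat.card_fun]
  rfl

/-- the colourings of `Fin (n + 1)` which are invariant under a composed permutation -/
theorem inv_decompose {n : ℕ} {ι : Type*} (p : Fin (n + 1)) (e : Perm (Fin n)) (c : Fin (n + 1) → ι) :
    Inv (Perm.decomposeFin.symm (p, e)) c ↔ Inv e (fun x => c x.succ) ∧ c p = c 0 := by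
  constructor
  · intro h
    have h0 : c p = c 0 := by
      have := h 0
      rwa [Perm.decomposeFin_symm_apply_zero] at this
    refine ⟨fun x => ?_, h0⟩
    have h1 := h x.succ
    rw [Perm.decomposeFin_symm_apply_succ] at h1
    rcases eq_or_ne (e x).succ p with h2 | h2
    · rw [h2, swap_apply_right] at h1
      show c (e x).succ = c x.succ
      rw [h2, h0, h1]
    · rw [swap_apply_of_ne_of_ne (Fin.succ_ne_zero _) h2] at h1
      exact h1
  · rintro ⟨h1, h0⟩ x
    refine Fin.cases ?_ (fun x => ?_) x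
    · rw [Perm.decomposeFin_symm_apply_zero, h0]
    · rw [Perm.decomposeFin_symm_apply_succ]
      rcases eq_or_ne (e x).succ p with h2 | h2
      · rw [h2, swap_apply_right, ← h0, ← h2]
        exact h1 x
      · rw [swap_apply_of_ne_of_ne (Fin.succ_ne_zero _) h2]
        exact h1 x

/-- a new fixed point -/
theorem orb_zero {n : ℕ} (e : Perm (Fin n)) : orb (Perm.decomposeFin.symm (0, e)) = orb e + 1 := by
  have h1 : Nat.card {c : Fin (n + 1) → Bool // Inv (Perm.decomposeFin.symm (0, e)) c} =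
      Nat.card (Bool × {c : Fin n → Bool // Inv e c}) := by
    refine Nat.card_congr
      { toFun := fun c => (c.1 0, ⟨fun x => c.1 x.succ, ((inv_decompose 0 e c.1).1 c.2).1⟩)
        invFun := fun c => ⟨Fin.cons c.1 c.2.1, (inv_decompose 0 e _).2 ⟨?_, rfl⟩⟩
        left_inv := fun c => ?_
        right_inv := fun c => ?_ }
    · intro x
      simp only [Fin.cons_succ]
      exact c.2.2 x
    · apply Subtype.ext
      funext x
      refine Fin.cases ?_ (fun x => ?_) x <;> simp
    · simp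
  rw [card_inv, Nat.card_prod, card_inv, Nat.card_eq_fintype_card, Fintype.card_bool, ← pow_succ'] at h1
  exact Nat.pow_right_injective le_rfl h1

/-- a point inserted into an orbit -/
theorem orb_succ {n : ℕ} (a : Fin n) (e : Perm (Fin n)) :
    orb (Perm.decomposeFin.symm (a.succ, e)) = orb e := by
  have h1 : Nat.card {c : Fin (n + 1) → Bool // Inv (Perm.decomposeFin.symm (a.succ, e)) c} =
      Nat.card {c : Fin n → Bool // Inv e c} := by
    refine Nat.card_congr
      { toFun := fun c => ⟨fun x => c.1 x.succ, ((inv_decompose a.succ e c.1).1 c.2).1⟩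
        invFun := fun c => ⟨Fin.cons (c.1 a) c.1, (inv_decompose a.succ e _).2 ⟨?_, ?_⟩⟩
        left_inv := fun c => ?_
        right_inv := fun c => ?_ }
    · intro x
      simp only [Fin.cons_succ]
      exact c.2 x
    · simp
    · apply Subtype.ext
      funext x
      have h0 := ((inv_decompose a.succ e c.1).1 c.2).2
      refine Fin.cases ?_ (fun x => ?_) x
      · simp [h0]
      · simp
    · simp
  rw [card_inv, card_inv, Nat.card_eq_fintype_card, Fintype.card_bool] at h1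
  exact Nat.pow_right_injective le_rfl h1

/-- `z (z + 1) ⋯ (z + k - 1) / k !` -/
noncomputable def rf (z : ℝ) (k : ℕ) : ℝ := ∏ j ∈ range k, (z + j) / (j + 1)

theorem rf_zero (z : ℝ) : rf z 0 = 1 := by rw [rf, prod_range_zero]

theorem rf_succ (z : ℝ) (k : ℕ) : rf z (k + 1) * (k + 1) = rf z k * (z + k) := by
  have h : (k : ℝ) + 1 ≠ 0 := by positivity
  rw [rf, prod_range_succ, ← rf, mul_assoc, div_mul_cancel₀ _ h]

open Classical in
/-- `x` if `P`, and zero otherwise -/
noncomputable def cnd (P : Prop) (x : ℝ) : ℝ := if P then x else 0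

theorem cnd_pos {P : Prop} (h : P) (x : ℝ) : cnd P x = x := by rw [cnd, if_pos h]

theorem cnd_neg {P : Prop} (h : ¬ P) (x : ℝ) : cnd P x = 0 := by rw [cnd, if_neg h]

theorem cnd_congr {P Q : Prop} (h : P ↔ Q) (x : ℝ) : cnd P x = cnd Q x := by
  rw [propext h]

theorem cnd_nonneg {P : Prop} {x : ℝ} (hx : 0 ≤ x) : 0 ≤ cnd P x := by
  by_cases h : P
  · rwa [cnd_pos h]
  · rw [cnd_neg h]

/-- the sum over the permutations and their invariant colourings with class sizes `s` -/
noncomputable def total {ι : Type*} [Fintype ι] [DecidableEq ι] (z : ℝ) (n : ℕ) (s : ι → ℕ) : ℝ :=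
  ∑ g : Perm (Fin n), ∑ c : Fin n → ι,
    cnd (Inv g c ∧ (∀ i, (univ.filter fun x => c x = i).card = s i)) (z ^ orb g)

theorem card_cons {n : ℕ} {ι : Type*} [DecidableEq ι] (j : ι) (c : Fin n → ι) (i : ι) :
    (univ.filter fun x => (Fin.cons j c : Fin (n + 1) → ι) x = i).card =
      (univ.filter fun x => c x = i).card + if j = i then 1 else 0 := by
  rw [Fin.card_filter_univ_succ', add_comm]
  simp only [Fin.cons_zero, Fin.cons_succ, Function.comp_def]

end H29FE

end

section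

/-!
# Clause (E), module Rf: bounds for `rf (1 / 2) k` (the central binomial coefficient over `4 ^ k`)
-/

namespace H29FE

open Finset

theorem rf_pos (k : ℕ) : 0 < rf (1 / 2) k := by
  rw [rf]
  exact prod_pos fun j _ => by positivity

theorem rf_half_succ (k : ℕ) : rf (1 / 2) (k + 1) * (2 * k + 2) = rf (1 / 2) k * (2 * k + 1) := by
  have := rf_succ (1 / 2) k
  linear_combination 2 * this

theorem rf_le_one (k : ℕ) : rf (1 / 2) k ≤ 1 := by
  induction k with
  | zero => rw [rf_zero]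
  | succ k ih =>
    have h := rf_half_succ k
    have h1 := rf_pos (k + 1)
    have h2 := rf_pos k
    have h3 : (0 : ℝ) ≤ k := Nat.cast_nonneg k
    nlinarith

theorem rf_sq (k : ℕ) : rf (1 / 2) k ^ 2 * (2 * k + 1) ≤ 1 := by
  induction k with
  | zero => rw [rf_zero]; norm_num
  | succ k ih =>
    have h := rf_half_succ k
    have h3 : (0 : ℝ) ≤ k := Nat.cast_nonneg k
    have h4 : (0 : ℝ) < (2 * k + 2) ^ 2 := by positivity
    have h5 : rf (1 / 2) (k + 1) ^ 2 * (2 * k + 2) ^ 2 = rf (1 / 2) k ^ 2 * (2 * k + 1) ^ 2 := by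
      rw [← mul_pow, h, mul_pow]
    push_cast
    refine le_of_mul_le_mul_right ?_ h4
    rw [one_mul]
    have h6 : rf (1 / 2) (k + 1) ^ 2 * (2 * ((k : ℝ) + 1) + 1) * (2 * k + 2) ^ 2 =
        rf (1 / 2) k ^ 2 * (2 * k + 1) * ((2 * k + 1) * (2 * k + 3)) := by
      linear_combination (2 * ((k : ℝ) + 1) + 1) * h5
    rw [h6]
    have h7 : (0 : ℝ) ≤ (2 * k + 1) * (2 * k + 3) := by positivity
    nlinarith [mul_le_mul_of_nonneg_right ih h7]

theorem rf_sq_le (k : ℕ) : rf (1 / 2) k ^ 2 ≤ 1 / (2 * k + 1) := by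
  rw [le_div_iff₀ (by positivity)]
  exact rf_sq k

theorem rf_le (k : ℕ) : rf (1 / 2) k ≤ 1 / Real.sqrt (2 * k + 1) := by
  have h1 : (0 : ℝ) < 2 * k + 1 := by positivity
  rw [le_div_iff₀ (Real.sqrt_pos.2 h1)]
  have h2 := rf_sq k
  have h3 := Real.sq_sqrt h1.le
  have h4 := Real.sqrt_nonneg (2 * (k : ℝ) + 1)
  have h5 := rf_pos k
  nlinarith [mul_nonneg h5.le h4, sq_nonneg (rf (1 / 2) k * Real.sqrt (2 * k + 1) - 1)]

/-- `rf (3 / 2) n = (2 n + 1) rf (1 / 2) n` -/
theorem rf_three (n : ℕ) : rf (3 / 2) n = (2 * n + 1) * rf (1 / 2) n := by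
  induction n with
  | zero => rw [rf_zero, rf_zero]; norm_num
  | succ n ih =>
    have h1 := rf_succ (3 / 2) n
    have h2 := rf_half_succ n
    have h3 : (0 : ℝ) < n + 1 := by positivity
    refine mul_right_cancel₀ h3.ne' ?_
    rw [h1, ih]
    push_cast
    linear_combination (-(2 * (n : ℝ) + 3) / 2) * h2

theorem rf_three_le (n : ℕ) : rf (3 / 2) n ≤ Real.sqrt (2 * n + 1) := by
  have h1 : (0 : ℝ) < 2 * n + 1 := by positivity
  rw [rf_three]
  have h2 := rf_le n
  have h3 := Real.sqrt_pos.2 h1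
  calc (2 * (n : ℝ) + 1) * rf (1 / 2) n ≤ (2 * n + 1) * (1 / Real.sqrt (2 * n + 1)) :=
        mul_le_mul_of_nonneg_left h2 h1.le
    _ = Real.sqrt (2 * n + 1) := by
        rw [mul_one_div, Real.div_sqrt]

/-- the harmonic sum -/
theorem harm_le (n : ℕ) : ∑ j ∈ range n, (1 / ((j : ℝ) + 1)) ≤ 1 + Real.log (n + 1) := by
  have h : ∀ n : ℕ, ∑ j ∈ range (n + 1), (1 / ((j : ℝ) + 1)) ≤ 1 + Real.log (n + 1) := by
    intro n
    induction n with
    | zero => simp
    | succ n ih =>
      rw [sum_range_succ]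
      push_cast
      have h1 : 1 / ((n : ℝ) + 1 + 1) ≤ Real.log (n + 1 + 1) - Real.log (n + 1) := by
        have h2 : (0 : ℝ) < n + 1 := by positivity
        have h3 : (0 : ℝ) < n + 1 + 1 := by positivity
        rw [← Real.log_div h3.ne' h2.ne']
        refine le_trans (le_of_eq ?_) (Real.one_sub_inv_le_log_of_pos (div_pos h3 h2))
        rw [inv_div]
        field_simp
        ring
      linarith
  rcases n with _ | n
  · simp
  · refine (h n).trans ?_
    have : Real.log ((n : ℝ) + 1) ≤ Real.log (((n + 1 : ℕ) : ℝ) + 1) :=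
      Real.log_le_log (by positivity) (by push_cast; linarith)
    linarith

/-- lower bound for pieces of the harmonic sum -/
theorem log_le_harm (A B : ℕ) (h : A ≤ B) :
    Real.log ((B + 1 : ℝ) / (A + 1)) ≤ ∑ j ∈ Ico A B, (1 / ((j : ℝ) + 1)) := by
  induction B, h using Nat.le_induction with
  | base => rw [Ico_self, sum_empty, div_self (by positivity), Real.log_one]
  | succ B h ih =>
    rw [sum_Ico_succ_top h]
    have h2 : (0 : ℝ) < B + 1 := by positivity
    have h3 : (0 : ℝ) < A + 1 := by positivity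
    have h4 : (0 : ℝ) < ((B + 1 : ℕ) : ℝ) + 1 := by positivity
    have h1 : Real.log ((((B + 1 : ℕ) : ℝ) + 1) / (A + 1)) = Real.log ((B + 1) / (A + 1)) +
        Real.log ((((B + 1 : ℕ) : ℝ) + 1) / (B + 1)) := by
      rw [← Real.log_mul (by positivity) (by positivity)]
      congr 1
      field_simp
    have h5 : Real.log ((((B + 1 : ℕ) : ℝ) + 1) / (B + 1)) ≤ 1 / ((B : ℝ) + 1) := by
      refine (Real.log_le_sub_one_of_pos (by positivity)).trans (le_of_eq ?_)
      push_cast
      field_simp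
      ring
    rw [h1]
    exact add_le_add ih h5

/-- the sum of the inverse square roots -/
theorem sqrt_sum_le (n : ℕ) : ∑ j ∈ range n, (1 / Real.sqrt ((j : ℝ) + 1)) ≤ 2 * Real.sqrt n := by
  induction n with
  | zero => simp
  | succ n ih =>
    rw [sum_range_succ]
    have h1 : (0 : ℝ) ≤ n := Nat.cast_nonneg n
    have h2 : (0 : ℝ) < (n : ℝ) + 1 := by positivity
    have h3 := Real.sqrt_pos.2 h2
    have h4 := Real.sqrt_nonneg (n : ℝ)
    have h5 := Real.sq_sqrt h1
    have h6 := Real.sq_sqrt h2.le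
    have h7 : 1 / Real.sqrt ((n : ℝ) + 1) ≤ 2 * (Real.sqrt ((n : ℝ) + 1) - Real.sqrt n) := by
      rw [div_le_iff₀ h3]
      nlinarith [sq_nonneg (Real.sqrt ((n : ℝ) + 1) - Real.sqrt n)]
    push_cast
    linarith

end H29FE

end

section

/-!
# Clause (E), module Sums: the two sums over the class sizes
-/

namespace H29FE

open Finset

theorem sum_inj_le {β : Type*} (P : Finset β) (u : β → ℕ) (f : ℕ → ℝ) (hf : ∀ j, 0 ≤ f j) (N : ℕ)
    (hu : Set.InjOn u P) (hN : ∀ x ∈ P, u x < N) : ∑ x ∈ P, f (u x) ≤ ∑ j ∈ range N, f j := by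
  classical
  rw [← sum_image (f := f) hu]
  refine sum_le_sum_of_subset_of_nonneg ?_ fun j _ _ => hf j
  intro j hj
  obtain ⟨x, hx, rfl⟩ := mem_image.1 hj
  exact mem_range.2 (hN x hx)

/-- the class sizes `(a, a, a, b, b)` -/
theorem sum1_le (n : ℕ) (hn : 0 < n) :
    ∑ x ∈ ((range (n + 1)) ×ˢ (range (n + 1))).filter (fun x : ℕ × ℕ => 3 * x.1 + 2 * x.2 = n),
      rf (1 / 2) x.1 ^ 3 * rf (1 / 2) x.2 ^ 2 ≤ 3 / n * (1 + Real.log (n + 2)) := by
  set P := ((range (n + 1)) ×ˢ (range (n + 1))).filter (fun x : ℕ × ℕ => 3 * x.1 + 2 * x.2 = n) with hP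
  have hn' : (0 : ℝ) < n := by exact_mod_cast hn
  have h1 : ∀ x ∈ P, rf (1 / 2) x.1 ^ 3 * rf (1 / 2) x.2 ^ 2 ≤
      3 / (2 * n) * (1 / ((x.1 : ℝ) + 1) + 1 / ((x.2 : ℝ) + 1)) := by
    intro x hx
    have he : 3 * x.1 + 2 * x.2 = n := (mem_filter.1 hx).2
    have he' : 3 * (x.1 : ℝ) + 2 * x.2 = n := by exact_mod_cast he
    have ha : (0 : ℝ) ≤ x.1 := Nat.cast_nonneg _
    have hb : (0 : ℝ) ≤ x.2 := Nat.cast_nonneg _
    have h2 : rf (1 / 2) x.1 ^ 3 ≤ rf (1 / 2) x.1 ^ 2 := by
      rw [pow_succ]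
      exact mul_le_of_le_one_right (sq_nonneg _) (rf_le_one _)
    calc rf (1 / 2) x.1 ^ 3 * rf (1 / 2) x.2 ^ 2
        ≤ rf (1 / 2) x.1 ^ 2 * rf (1 / 2) x.2 ^ 2 := mul_le_mul_of_nonneg_right h2 (sq_nonneg _)
      _ ≤ 1 / (2 * x.1 + 1) * (1 / (2 * x.2 + 1)) :=
          mul_le_mul (rf_sq_le _) (rf_sq_le _) (sq_nonneg _) (by positivity)
      _ = 1 / (2 * x.1 + 2 * x.2 + 2) * (1 / (2 * (x.1 : ℝ) + 1) + 1 / (2 * (x.2 : ℝ) + 1)) := by
          field_simp
          ring
      _ ≤ 3 / (2 * n) * (1 / ((x.1 : ℝ) + 1) + 1 / ((x.2 : ℝ) + 1)) := by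
          refine mul_le_mul ?_ (add_le_add ?_ ?_) (by positivity) (by positivity)
          · rw [div_le_div_iff₀ (by positivity) (by positivity)]
            linarith
          · exact one_div_le_one_div_of_le (by positivity) (by linarith)
          · exact one_div_le_one_div_of_le (by positivity) (by linarith)
  refine (sum_le_sum h1).trans ?_
  rw [← mul_sum, sum_add_distrib]
  have hlt : ∀ x ∈ P, x.1 < n + 1 ∧ x.2 < n + 1 := fun x hx => by
    have := (mem_filter.1 hx).1
    rw [mem_product, mem_range, mem_range] at this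
    exact this
  have hpos : ∀ j : ℕ, (0 : ℝ) ≤ 1 / ((j : ℝ) + 1) := fun j => by positivity
  have h3 := sum_inj_le P (fun x => x.1) (fun j => 1 / ((j : ℝ) + 1)) hpos (n + 1) (by
    intro x hx y hy hxy
    have hx' := (mem_filter.1 (mem_coe.1 hx)).2
    have hy' := (mem_filter.1 (mem_coe.1 hy)).2
    simp only at hxy
    exact Prod.ext hxy (by omega)) (fun x hx => (hlt x hx).1)
  have h4 := sum_inj_le P (fun x => x.2) (fun j => 1 / ((j : ℝ) + 1)) hpos (n + 1) (by
    intro x hx y hy hxy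
    have hx' := (mem_filter.1 (mem_coe.1 hx)).2
    have hy' := (mem_filter.1 (mem_coe.1 hy)).2
    simp only at hxy
    exact Prod.ext (by omega) hxy) (fun x hx => (hlt x hx).2)
  have h5 := harm_le (n + 1)
  push_cast at h5
  have h6 : (n : ℝ) + 1 + 1 = n + 2 := by ring
  rw [h6] at h5
  calc 3 / (2 * (n : ℝ)) * (∑ x ∈ P, 1 / ((x.1 : ℝ) + 1) + ∑ x ∈ P, 1 / ((x.2 : ℝ) + 1))
      ≤ 3 / (2 * n) * ((1 + Real.log (n + 2)) + (1 + Real.log (n + 2))) :=
        mul_le_mul_of_nonneg_left (add_le_add (h3.trans h5) (h4.trans h5)) (by positivity)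
    _ = 3 / n * (1 + Real.log (n + 2)) := by field_simp; ring

/-- the class sizes `(a, a, a, n - 3 a)`, `m ≤ a` -/
theorem sum2_le (n m : ℕ) (hn : 0 < n) :
    ∑ a ∈ (range (n + 1)).filter (fun a => m ≤ a ∧ 3 * a ≤ n),
      rf (1 / 2) a ^ 3 * rf (1 / 2) (n - 3 * a) ≤
      (10 + Real.log (n + 2)) / (Real.sqrt (2 * m + 1) * Real.sqrt n) := by
  set P := (range (n + 1)).filter (fun a => m ≤ a ∧ 3 * a ≤ n) with hP
  have hn' : (0 : ℝ) < n := by exact_mod_cast hn
  have hsn : 0 < Real.sqrt n := Real.sqrt_pos.2 hn'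
  have hm0 : (0 : ℝ) < 2 * m + 1 := by positivity
  have hsm : 0 < Real.sqrt (2 * m + 1) := Real.sqrt_pos.2 hm0
  have h1 : ∀ a ∈ P, rf (1 / 2) a ^ 3 * rf (1 / 2) (n - 3 * a) ≤
      1 / Real.sqrt (2 * m + 1) * (1 / Real.sqrt n * (1 / ((a : ℝ) + 1)) +
        3 / n * (1 / Real.sqrt (((n - 3 * a : ℕ) : ℝ) + 1))) := by
    intro a ha
    obtain ⟨hm, h3a⟩ := (mem_filter.1 ha).2
    have ha0 : (0 : ℝ) ≤ a := Nat.cast_nonneg _
    have hma : (m : ℝ) ≤ a := by exact_mod_cast hm
    have hb0 : (0 : ℝ) ≤ ((n - 3 * a : ℕ) : ℝ) := Nat.cast_nonneg _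
    have hb : ((n - 3 * a : ℕ) : ℝ) = n - 3 * a := by
      rw [Nat.cast_sub h3a]; push_cast; ring
    have h2 : rf (1 / 2) a ≤ 1 / Real.sqrt (2 * m + 1) :=
      (rf_le a).trans (one_div_le_one_div_of_le hsm (Real.sqrt_le_sqrt (by linarith)))
    have h3 : rf (1 / 2) a ^ 2 * rf (1 / 2) (n - 3 * a) ≤ 1 / Real.sqrt n * (1 / ((a : ℝ) + 1)) +
        3 / n * (1 / Real.sqrt (((n - 3 * a : ℕ) : ℝ) + 1)) := by
      have h4 : 0 ≤ 1 / Real.sqrt n * (1 / ((a : ℝ) + 1)) := by positivity
      have h5 : 0 ≤ 3 / (n : ℝ) * (1 / Real.sqrt (((n - 3 * a : ℕ) : ℝ) + 1)) := by positivity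
      rcases le_or_gt (6 * (a : ℝ)) n with h6 | h6
      · refine le_trans ?_ (le_add_of_nonneg_right h5)
        rw [mul_comm]
        refine mul_le_mul ((rf_le _).trans (one_div_le_one_div_of_le hsn
          (Real.sqrt_le_sqrt (by rw [hb]; linarith)))) ((rf_sq_le _).trans
          (one_div_le_one_div_of_le (by positivity) (by linarith))) (sq_nonneg _) (by positivity)
      · refine le_trans ?_ (le_add_of_nonneg_left h4)
        refine mul_le_mul ((rf_sq_le _).trans ?_) ((rf_le _).trans (one_div_le_one_div_of_le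
          (Real.sqrt_pos.2 (by positivity)) (Real.sqrt_le_sqrt (by linarith)))) (rf_pos _).le
          (by positivity)
        rw [div_le_div_iff₀ (by positivity) hn']
        linarith
    calc rf (1 / 2) a ^ 3 * rf (1 / 2) (n - 3 * a)
        = rf (1 / 2) a * (rf (1 / 2) a ^ 2 * rf (1 / 2) (n - 3 * a)) := by ring
      _ ≤ _ := mul_le_mul h2 h3 (mul_nonneg (sq_nonneg _) (rf_pos _).le) (by positivity)
  refine (sum_le_sum h1).trans ?_
  rw [← mul_sum, sum_add_distrib, ← mul_sum, ← mul_sum]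
  have h3 := sum_inj_le P (fun x => x) (fun j => 1 / ((j : ℝ) + 1)) (fun j => by positivity) (n + 1)
    (fun x _ y _ h => h) (fun x hx => mem_range.1 (mem_filter.1 hx).1)
  have h4 := sum_inj_le P (fun x => n - 3 * x) (fun j => 1 / Real.sqrt ((j : ℝ) + 1))
    (fun j => by positivity) (n + 1) (by
    intro x hx y hy hxy
    have hx' := (mem_filter.1 (mem_coe.1 hx)).2
    have hy' := (mem_filter.1 (mem_coe.1 hy)).2
    simp only at hxy
    omega) (fun x hx => by omega)
  have h5 := harm_le (n + 1)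
  push_cast at h5
  have h6 : (n : ℝ) + 1 + 1 = n + 2 := by ring
  rw [h6] at h5
  have h7 := sqrt_sum_le (n + 1)
  push_cast at h7
  have h8 : Real.sqrt ((n : ℝ) + 1) ≤ 3 / 2 * Real.sqrt n := by
    rw [show (3 / 2 : ℝ) = Real.sqrt ((3 / 2) ^ 2) from (Real.sqrt_sq (by norm_num)).symm,
      ← Real.sqrt_mul (by norm_num)]
    refine Real.sqrt_le_sqrt ?_
    have : (1 : ℝ) ≤ n := by exact_mod_cast hn
    linarith
  have h9 : 3 / (n : ℝ) * (∑ x ∈ P, 1 / Real.sqrt (((n - 3 * x : ℕ) : ℝ) + 1)) ≤ 9 * (1 / Real.sqrt n) := by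
    have h10 : ∑ x ∈ P, 1 / Real.sqrt (((n - 3 * x : ℕ) : ℝ) + 1) ≤ 3 * Real.sqrt n :=
      (h4.trans h7).trans (by linarith)
    calc 3 / (n : ℝ) * (∑ x ∈ P, 1 / Real.sqrt (((n - 3 * x : ℕ) : ℝ) + 1)) ≤
        3 / n * (3 * Real.sqrt n) := mul_le_mul_of_nonneg_left h10 (by positivity)
      _ = 9 * (1 / Real.sqrt n) := by
          rw [div_mul_eq_mul_div, mul_one_div, div_eq_div_iff hn'.ne' hsn.ne']
          have := Real.mul_self_sqrt hn'.le
          linear_combination 9 * this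
  calc 1 / Real.sqrt (2 * m + 1) * (1 / Real.sqrt n * ∑ x ∈ P, 1 / ((x : ℝ) + 1) +
        3 / n * ∑ x ∈ P, 1 / Real.sqrt (((n - 3 * x : ℕ) : ℝ) + 1))
      ≤ 1 / Real.sqrt (2 * m + 1) * (1 / Real.sqrt n * (1 + Real.log (n + 2)) + 9 * (1 / Real.sqrt n)) :=
        mul_le_mul_of_nonneg_left (add_le_add (mul_le_mul_of_nonneg_left (h3.trans h5)
          (by positivity)) h9) (by positivity)
    _ = (10 + Real.log (n + 2)) / (Real.sqrt (2 * m + 1) * Real.sqrt n) := by
        field_simp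
        ring

end H29FE

end

section

/-!
# Clause (E), module Total: the sum over invariant colourings
-/

namespace H29FE

open Equiv Finset

/-- the sum over colourings of `Fin (n + 1)`, with the value at `0` separated -/
theorem sum_cons {ι : Type*} [Fintype ι] [DecidableEq ι] {n : ℕ} (F : (Fin (n + 1) → ι) → ℝ) :
    ∑ c : Fin (n + 1) → ι, F c = ∑ j : ι, ∑ c : Fin n → ι, F (Fin.cons j c) := by
  rw [← (Fin.consEquiv (fun _ : Fin (n + 1) => ι)).sum_comp, Fintype.sum_prod_type]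
  rfl

theorem cond_iff {ι : Type*} [DecidableEq ι] (S s : ι → ℕ) (j : ι) :
    (∀ i, (S i + if j = i then 1 else 0) = s i) ↔
      s j ≠ 0 ∧ ∀ i, S i = Function.update s j (s j - 1) i := by
  constructor
  · intro h
    have hj := h j
    rw [if_pos rfl] at hj
    refine ⟨by omega, fun i => ?_⟩
    rcases eq_or_ne i j with rfl | hij
    · rw [Function.update_self]
      omega
    · rw [Function.update_of_ne hij]
      have := h i
      rw [if_neg (Ne.symm hij)] at this
      omega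
  · rintro ⟨h0, h⟩ i
    have hi := h i
    rcases eq_or_ne i j with rfl | hij
    · rw [Function.update_self] at hi
      rw [if_pos rfl]
      omega
    · rw [Function.update_of_ne hij] at hi
      rw [if_neg (Ne.symm hij), hi, add_zero]

theorem sum_cnd {n : ℕ} {ι : Type*} [DecidableEq ι] (c : Fin n → ι) (j : ι) (y : ℝ) :
    ∑ a : Fin n, cnd (c a = j) y = ((univ.filter fun x => c x = j).card : ℝ) * y := by
  have h : ∀ a : Fin n, cnd (c a = j) y = if c a = j then y else 0 := by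
    intro a
    by_cases h : c a = j
    · rw [cnd_pos h, if_pos h]
    · rw [cnd_neg h, if_neg h]
  rw [sum_congr rfl fun a _ => h a, ← sum_filter, sum_const, nsmul_eq_mul]

theorem total_succ {ι : Type*} [Fintype ι] [DecidableEq ι] (z : ℝ) (n : ℕ) (s : ι → ℕ) :
    total z (n + 1) s = ∑ j : ι, cnd (s j ≠ 0)
      ((z + (s j - 1 : ℕ)) * total z n (Function.update s j (s j - 1))) := by
  have h1 : total z (n + 1) s = ∑ p : Fin (n + 1), ∑ e : Perm (Fin n), ∑ j : ι, ∑ c : Fin n → ι,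
      cnd ((Inv e c ∧ (Fin.cons j c : Fin (n + 1) → ι) p = j) ∧
          s j ≠ 0 ∧ ∀ i, (univ.filter fun x => c x = i).card = Function.update s j (s j - 1) i)
        (z ^ orb (Perm.decomposeFin.symm (p, e))) := by
    rw [total, ← (Perm.decomposeFin (n := n)).symm.sum_comp, Fintype.sum_prod_type]
    refine sum_congr rfl fun p _ => sum_congr rfl fun e _ => ?_
    rw [sum_cons]
    refine sum_congr rfl fun j _ => sum_congr rfl fun c _ => ?_
    refine cnd_congr ?_ _
    rw [inv_decompose, ← cond_iff]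
    simp only [Fin.cons_succ, Fin.cons_zero, card_cons]
  have h2 : ∀ (e : Perm (Fin n)) (j : ι) (c : Fin n → ι),
      ∑ p : Fin (n + 1), cnd ((Inv e c ∧ (Fin.cons j c : Fin (n + 1) → ι) p = j) ∧
          s j ≠ 0 ∧ ∀ i, (univ.filter fun x => c x = i).card = Function.update s j (s j - 1) i)
        (z ^ orb (Perm.decomposeFin.symm (p, e))) =
      cnd (s j ≠ 0) ((z + (s j - 1 : ℕ)) * cnd (Inv e c ∧ (∀ i, (univ.filter fun x => c x = i).card =
        Function.update s j (s j - 1) i)) (z ^ orb e)) := by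
    intro e j c
    by_cases hj : s j = 0
    · rw [cnd_neg (not_not.2 hj)]
      exact sum_eq_zero fun p _ => cnd_neg (fun h => h.2.1 hj) _
    rw [cnd_pos hj]
    by_cases hC : Inv e c ∧ (∀ i, (univ.filter fun x => c x = i).card =
        Function.update s j (s j - 1) i)
    · rw [cnd_pos hC, Fin.sum_univ_succ, orb_zero, cnd_pos ⟨⟨hC.1, Fin.cons_zero _ _⟩, hj, hC.2⟩]
      have h4 := hC.2 j
      rw [Function.update_self] at h4
      have h5 : ∀ a : Fin n, cnd ((Inv e c ∧ (Fin.cons j c : Fin (n + 1) → ι) a.succ = j) ∧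
          s j ≠ 0 ∧ ∀ i, (univ.filter fun x => c x = i).card = Function.update s j (s j - 1) i)
          (z ^ orb (Perm.decomposeFin.symm (a.succ, e))) = cnd (c a = j) (z ^ orb e) := by
        intro a
        rw [orb_succ]
        refine cnd_congr ?_ _
        rw [Fin.cons_succ]
        exact ⟨fun h => h.1.2, fun h => ⟨⟨hC.1, h⟩, hj, hC.2⟩⟩
      rw [sum_congr rfl fun a _ => h5 a, sum_cnd, h4]
      ring
    · rw [cnd_neg hC, mul_zero]
      exact sum_eq_zero fun p _ => cnd_neg (fun h => hC ⟨h.1.1, h.2.2⟩) _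
  rw [h1, sum_comm]
  have h3 : ∀ j : ι, cnd (s j ≠ 0) ((z + (s j - 1 : ℕ)) * total z n (Function.update s j (s j - 1))) =
      ∑ e : Perm (Fin n), ∑ c : Fin n → ι, cnd (s j ≠ 0) ((z + (s j - 1 : ℕ)) *
        cnd (Inv e c ∧ (∀ i, (univ.filter fun x => c x = i).card =
        Function.update s j (s j - 1) i)) (z ^ orb e)) := by
    intro j
    by_cases hj : s j = 0
    · rw [cnd_neg (not_not.2 hj)]
      exact (sum_eq_zero fun e _ => sum_eq_zero fun c _ => cnd_neg (not_not.2 hj) _).symm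
    · rw [cnd_pos hj, total, mul_sum]
      refine sum_congr rfl fun e _ => ?_
      rw [mul_sum]
      exact sum_congr rfl fun c _ => (cnd_pos hj _).symm
  rw [sum_congr rfl fun j _ => h3 j, sum_comm (s := (univ : Finset ι))]
  refine sum_congr rfl fun e _ => ?_
  rw [sum_comm]
  refine sum_congr rfl fun j _ => ?_
  rw [sum_comm]
  exact sum_congr rfl fun c _ => h2 e j c

/-- the closed form -/
theorem total_eq {ι : Type*} [Fintype ι] [DecidableEq ι] (z : ℝ) (n : ℕ) (s : ι → ℕ)
    (hs : ∑ i, s i = n) : total z n s = (n.factorial : ℝ) * ∏ i, rf z (s i) := by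
  induction n generalizing s with
  | zero =>
    have h0 : ∀ i, s i = 0 := fun i => by
      have := Finset.sum_eq_zero_iff.1 hs i (mem_univ i)
      exact this
    have h1 : total z 0 s = 1 := by
      rw [total, Fintype.sum_unique, Fintype.sum_unique, cnd_pos]
      · have : orb (default : Perm (Fin 0)) = 0 := by
          rw [orb]
          have : IsEmpty (Quotient (Perm.SameCycle.setoid (default : Perm (Fin 0)))) :=
            ⟨fun q => Quotient.inductionOn' q (fun a => a.elim0)⟩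
          exact Nat.card_of_isEmpty
        rw [this, pow_zero]
      · exact ⟨fun x => x.elim0, fun i => by rw [h0 i]; simp⟩
    rw [h1, Nat.factorial_zero, Nat.cast_one, one_mul, prod_eq_one fun i _ => by rw [h0 i, rf_zero]]
  | succ n ih =>
    rw [total_succ]
    have h1 : ∀ j : ι, cnd (s j ≠ 0) ((z + (s j - 1 : ℕ)) * total z n (Function.update s j (s j - 1))) =
        (s j : ℝ) * ((n.factorial : ℝ) * ∏ i, rf z (s i)) := by
      intro j
      by_cases hj : s j = 0
      · rw [cnd_neg (not_not.2 hj), hj, Nat.cast_zero, zero_mul]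
      obtain ⟨k, hk⟩ := Nat.exists_eq_succ_of_ne_zero hj
      have hsum : ∑ i, Function.update s j (s j - 1) i = n := by
        rw [← add_sum_erase univ _ (mem_univ j)] at hs ⊢
        rw [Function.update_self, sum_congr rfl fun i hi =>
          Function.update_of_ne (ne_of_mem_erase hi) _ _]
        omega
      rw [cnd_pos hj, ih _ hsum, ← mul_prod_erase univ _ (mem_univ j),
        ← mul_prod_erase univ (fun i => rf z (s i)) (mem_univ j), Function.update_self,
        prod_congr rfl fun i hi => by rw [Function.update_of_ne (ne_of_mem_erase hi)], hk,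
        Nat.succ_eq_add_one, Nat.add_sub_cancel]
      have h2 := rf_succ z k
      push_cast
      linear_combination (-(n.factorial : ℝ) * ∏ i ∈ univ.erase j, rf z (s i)) * h2
    rw [sum_congr rfl fun j _ => h1 j, ← sum_mul, ← Nat.cast_sum, hs, Nat.factorial_succ]
    push_cast
    ring

end H29FE

end

section

/-!
# Clause (E), module Count: the number of permutations with an invariant colouring and few orbits
-/

namespace H29FE

open Equiv Finset

/-- permutations with at most `T` orbits which have an invariant colouring of a given type -/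
theorem markov {ι β : Type*} [Fintype ι] [DecidableEq ι] (n T : ℕ) (P : Finset β) (s : β → ι → ℕ)
    (G : Finset (Perm (Fin n))) (hG : ∀ g ∈ G, orb g ≤ T ∧ ∃ x ∈ P, ∃ c : Fin n → ι,
      Inv g c ∧ ∀ i, (univ.filter fun y => c y = i).card = s x i) :
    (G.card : ℝ) ≤ 2 ^ T * ∑ x ∈ P, total (1 / 2) n (s x) := by
  have h1 : ∀ g ∈ G, (1 : ℝ) ≤ 2 ^ T * ∑ x ∈ P, ∑ c : Fin n → ι,
      cnd (Inv g c ∧ (∀ i, (univ.filter fun y => c y = i).card = s x i)) ((1 / 2) ^ orb g) := by
    intro g hg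
    obtain ⟨h2, x, hx, c, hc⟩ := hG g hg
    have h3 : ∀ (y : β) (d : Fin n → ι), 0 ≤
        cnd (Inv g d ∧ (∀ i, (univ.filter fun z => d z = i).card = s y i)) ((1 / 2) ^ orb g) :=
      fun y d => cnd_nonneg (by positivity)
    have h4 : (1 / 2 : ℝ) ^ orb g ≤ ∑ x ∈ P, ∑ c : Fin n → ι,
        cnd (Inv g c ∧ (∀ i, (univ.filter fun y => c y = i).card = s x i)) ((1 / 2) ^ orb g) := by
      refine le_trans ?_ (single_le_sum (f := fun x => ∑ c : Fin n → ι,
        cnd (Inv g c ∧ (∀ i, (univ.filter fun y => c y = i).card = s x i)) ((1 / 2) ^ orb g))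
        (fun y _ => sum_nonneg fun d _ => h3 y d) hx)
      refine le_trans ?_ (single_le_sum (f := fun c : Fin n → ι =>
        cnd (Inv g c ∧ (∀ i, (univ.filter fun y => c y = i).card = s x i)) ((1 / 2) ^ orb g))
        (fun d _ => h3 x d) (mem_univ c))
      rw [cnd_pos hc]
    have h5 : (1 : ℝ) ≤ 2 ^ T * (1 / 2) ^ orb g := by
      have h6 : (2 : ℝ) ^ orb g ≤ 2 ^ T := pow_le_pow_right₀ (by norm_num) h2
      have h7 : (2 : ℝ) ^ orb g * (1 / 2) ^ orb g = 1 := by rw [← mul_pow]; norm_num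
      exact h7.symm.le.trans (mul_le_mul_of_nonneg_right h6 (by positivity))
    exact h5.trans (mul_le_mul_of_nonneg_left h4 (by positivity))
  calc (G.card : ℝ) = ∑ g ∈ G, (1 : ℝ) := by rw [sum_const, nsmul_eq_mul, mul_one]
    _ ≤ ∑ g ∈ G, 2 ^ T * ∑ x ∈ P, ∑ c : Fin n → ι,
      cnd (Inv g c ∧ (∀ i, (univ.filter fun y => c y = i).card = s x i)) ((1 / 2) ^ orb g) :=
        sum_le_sum h1
    _ ≤ ∑ g, 2 ^ T * ∑ x ∈ P, ∑ c : Fin n → ι,
      cnd (Inv g c ∧ (∀ i, (univ.filter fun y => c y = i).card = s x i)) ((1 / 2) ^ orb g) :=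
        sum_le_sum_of_subset_of_nonneg (subset_univ _) fun g _ _ => mul_nonneg (by positivity)
          (sum_nonneg fun x _ => sum_nonneg fun c _ => cnd_nonneg (by positivity))
    _ = 2 ^ T * ∑ x ∈ P, total (1 / 2) n (s x) := by
        rw [← mul_sum, sum_comm]
        rfl

/-- permutations with more than `T` orbits -/
theorem many_orbits (n T : ℕ) (G : Finset (Perm (Fin n))) (hG : ∀ g ∈ G, T < orb g) :
    (G.card : ℝ) * (3 / 2) ^ (T + 1) ≤ n.factorial * Real.sqrt (2 * n + 1) := by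
  have h0 : total (3 / 2) n (fun _ : Fin 1 => n) = ∑ g : Perm (Fin n), (3 / 2 : ℝ) ^ orb g := by
    rw [total]
    refine sum_congr rfl fun g _ => ?_
    rw [Fintype.sum_unique]
    refine cnd_pos ⟨fun x => Subsingleton.elim _ _, fun i => ?_⟩ _
    rw [filter_true_of_mem fun x _ => Subsingleton.elim _ _, card_univ, Fintype.card_fin]
  have h1 := total_eq (3 / 2) n (fun _ : Fin 1 => n) (by simp)
  rw [h0, Fin.prod_univ_one] at h1
  calc (G.card : ℝ) * (3 / 2) ^ (T + 1) = ∑ g ∈ G, (3 / 2 : ℝ) ^ (T + 1) := by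
        rw [sum_const, nsmul_eq_mul]
    _ ≤ ∑ g ∈ G, (3 / 2 : ℝ) ^ orb g :=
        sum_le_sum fun g hg => pow_le_pow_right₀ (by norm_num) (hG g hg)
    _ ≤ ∑ g, (3 / 2 : ℝ) ^ orb g :=
        sum_le_sum_of_subset_of_nonneg (subset_univ _) fun g _ _ => by positivity
    _ = n.factorial * rf (3 / 2) n := h1
    _ ≤ n.factorial * Real.sqrt (2 * n + 1) :=
        mul_le_mul_of_nonneg_left (rf_three_le n) (by positivity)

/-- the class sizes `(a, a, a, b, b)` -/
theorem count1 (n T : ℕ) (hn : 0 < n) (G : Finset (Perm (Fin n))) (hG : ∀ g ∈ G, orb g ≤ T ∧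
    ∃ (a b : ℕ) (c : Fin n → Fin 5), 3 * a + 2 * b = n ∧ Inv g c ∧
      ∀ i, (univ.filter fun x => c x = i).card = (![a, a, a, b, b] : Fin 5 → ℕ) i) :
    (G.card : ℝ) ≤ n.factorial * (2 ^ T * (3 / n * (1 + Real.log (n + 2)))) := by
  have h1 := markov n T (((range (n + 1)) ×ˢ (range (n + 1))).filter
    (fun x : ℕ × ℕ => 3 * x.1 + 2 * x.2 = n)) (fun x => (![x.1, x.1, x.1, x.2, x.2] : Fin 5 → ℕ)) G
    (fun g hg => by
      obtain ⟨h2, a, b, c, h3, h4⟩ := hG g hg
      refine ⟨h2, (a, b), mem_filter.2 ⟨mem_product.2 ⟨mem_range.2 (by omega),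
        mem_range.2 (by omega)⟩, h3⟩, c, h4⟩)
  refine h1.trans ?_
  have h2 : ∑ x ∈ ((range (n + 1)) ×ˢ (range (n + 1))).filter (fun x : ℕ × ℕ => 3 * x.1 + 2 * x.2 = n),
      total (1 / 2) n (![x.1, x.1, x.1, x.2, x.2] : Fin 5 → ℕ) = n.factorial *
      ∑ x ∈ ((range (n + 1)) ×ˢ (range (n + 1))).filter (fun x : ℕ × ℕ => 3 * x.1 + 2 * x.2 = n),
        rf (1 / 2) x.1 ^ 3 * rf (1 / 2) x.2 ^ 2 := by
    rw [mul_sum]
    refine sum_congr rfl fun x hx => ?_
    have hx' := (mem_filter.1 hx).2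
    rw [total_eq _ _ _ (by
      rw [Fin.sum_univ_five]
      show x.1 + x.1 + x.1 + x.2 + x.2 = n
      omega), Fin.prod_univ_five]
    show _ * (rf (1 / 2) x.1 * rf (1 / 2) x.1 * rf (1 / 2) x.1 * rf (1 / 2) x.2 * rf (1 / 2) x.2) = _
    ring
  rw [h2, mul_left_comm]
  exact mul_le_mul_of_nonneg_left (mul_le_mul_of_nonneg_left (sum1_le n hn) (by positivity))
    (by positivity)

/-- the class sizes `(a, a, a, n - 3 a)`, `m ≤ a` -/
theorem count2 (n T m : ℕ) (hn : 0 < n) (G : Finset (Perm (Fin n))) (hG : ∀ g ∈ G, orb g ≤ T ∧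
    ∃ (a : ℕ) (c : Fin n → Fin 4), m ≤ a ∧ 3 * a ≤ n ∧ Inv g c ∧
      ∀ i, (univ.filter fun x => c x = i).card = (![a, a, a, n - 3 * a] : Fin 4 → ℕ) i) :
    (G.card : ℝ) ≤ n.factorial * (2 ^ T * ((10 + Real.log (n + 2)) /
      (Real.sqrt (2 * m + 1) * Real.sqrt n))) := by
  have h1 := markov n T ((range (n + 1)).filter (fun a => m ≤ a ∧ 3 * a ≤ n))
    (fun a => (![a, a, a, n - 3 * a] : Fin 4 → ℕ)) G
    (fun g hg => by
      obtain ⟨h2, a, c, h3, h4, h5⟩ := hG g hg
      refine ⟨h2, a, mem_filter.2 ⟨mem_range.2 (by omega), h3, h4⟩, c, h5⟩)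
  refine h1.trans ?_
  have h2 : ∑ a ∈ (range (n + 1)).filter (fun a => m ≤ a ∧ 3 * a ≤ n),
      total (1 / 2) n (![a, a, a, n - 3 * a] : Fin 4 → ℕ) = n.factorial *
      ∑ a ∈ (range (n + 1)).filter (fun a => m ≤ a ∧ 3 * a ≤ n),
        rf (1 / 2) a ^ 3 * rf (1 / 2) (n - 3 * a) := by
    rw [mul_sum]
    refine sum_congr rfl fun x hx => ?_
    have hx' := (mem_filter.1 hx).2.2
    rw [total_eq _ _ _ (by
      rw [Fin.sum_univ_four]
      show x + x + x + (n - 3 * x) = n
      omega), Fin.prod_univ_four]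
    show _ * (rf (1 / 2) x * rf (1 / 2) x * rf (1 / 2) x * rf (1 / 2) (n - 3 * x)) = _
    ring
  rw [h2, mul_left_comm]
  exact mul_le_mul_of_nonneg_left (mul_le_mul_of_nonneg_left (sum2_le n m hn) (by positivity))
    (by positivity)

end H29FE

end

section

/-!
# Project FD: families in a field of characteristic `p` which are stable under `s ↦ 1/s`, `s ↦ 1 - s`

* `exists_perm`: two families with the same multiset of values differ by a permutation.
* `S3 T`: the family `T` is stable under `s ↦ 1/s` and `s ↦ 1 - s`.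
* `S3_of_forms`, `S3_of_inv`: how `S3` is obtained.
* `orb_core`, `fam_core`: if more than half of the members of `T` are conjugate under the Frobenius
  automorphism, they are zeros of `X² - X + 1`, `p = 2` modulo `3` and their degree is even.
* `card_root_even`, `three_dvd`, `six_dvd`: the number `N` of the members which are zeros of
  `X² - X + 1` is even, `n - N` is divisible by `3`, and by `6` if `-1` is not a member.
-/

namespace H52FD

open Finset

/-- `T` is stable under `s ↦ 1/s` and `s ↦ 1 - s` -/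
def S3 {ι Ω : Type*} [Field Ω] (T : ι → Ω) : Prop :=
  (∃ σ : Equiv.Perm ι, ∀ v, T (σ v) * T v = 1) ∧ ∃ τ : Equiv.Perm ι, ∀ v, T (τ v) = 1 - T v

section basic

variable {ι Ω : Type*} [Field Ω] {T : ι → Ω}

theorem S3.ne_zero (h : S3 T) (v : ι) : T v ≠ 0 := by
  obtain ⟨⟨σ, hσ⟩, -⟩ := h
  intro h0
  have := hσ v
  rw [h0, mul_zero] at this
  exact zero_ne_one this

theorem S3.ne_one (h : S3 T) (v : ι) : T v ≠ 1 := by
  intro h1
  obtain ⟨τ, hτ⟩ := h.2
  apply h.ne_zero (τ v)
  rw [hτ, h1, sub_self]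

/-- reindexing -/
theorem S3.comp {κ : Type*} (h : S3 T) (e : κ ≃ ι) : S3 (fun k => T (e k)) := by
  obtain ⟨⟨σ, hσ⟩, τ, hτ⟩ := h
  refine ⟨⟨(e.trans σ).trans e.symm, fun v => ?_⟩, (e.trans τ).trans e.symm, fun v => ?_⟩
  · simpa using hσ (e v)
  · simpa using hτ (e v)

end basic

section forms

end forms

section orb

variable {Ω : Type*} [Field Ω] {p : ℕ} [Fact p.Prime] [CharP Ω p]

/-- the zeros of `X² - X + 1` -/
theorem root_pow {s : Ω} (hs : s ^ 2 - s + 1 = 0) : s ^ 3 = -1 ∧ s ^ 6 = 1 := by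
  have h3 : s ^ 3 = -1 := by linear_combination (s + 1) * hs
  refine ⟨h3, ?_⟩
  calc s ^ 6 = (s ^ 3) ^ 2 := by ring
    _ = 1 := by rw [h3]; norm_num

theorem root_frob (hp : 5 ≤ p) {s : Ω} (hs : s ^ 2 - s + 1 = 0) :
    (p % 3 = 1 → s ^ p = s) ∧ (p % 3 = 2 → s ^ p = s⁻¹) := by
  have hpp : p.Prime := Fact.out
  have h0 : s ≠ 0 := by
    rintro rfl
    norm_num at hs
  have h6 := (root_pow hs).2
  have hodd : p % 2 = 1 := by
    rcases hpp.eq_two_or_odd with h | h
    · omega
    · exact h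
  constructor
  · intro h
    have h1 : p % 6 = 1 := by omega
    have : s ^ p = s ^ (6 * (p / 6) + 1) := by
      congr 1
      omega
    rw [this, pow_succ, pow_mul, h6, one_pow, one_mul]
  · intro h
    have h1 : p % 6 = 5 := by omega
    have : s ^ p = s ^ (6 * (p / 6) + 5) := by
      congr 1
      omega
    rw [this, pow_add, pow_mul, h6, one_pow, one_mul]
    apply eq_inv_of_mul_eq_one_left
    rw [← h6]
    ring

theorem three_ne (hp : 5 ≤ p) : (3 : Ω) ≠ 0 := by
  have hpp : p.Prime := Fact.out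
  intro h
  have h1 : ((3 : ℕ) : Ω) = 0 := by exact_mod_cast h
  rw [CharP.cast_eq_zero_iff Ω p] at h1
  have := Nat.le_of_dvd (by norm_num) h1
  omega

/-- a root is different from its inverse -/
theorem root_ne_inv (hp : 5 ≤ p) {s : Ω} (hs : s ^ 2 - s + 1 = 0) : s⁻¹ ≠ s := by
  have h0 : s ≠ 0 := by
    rintro rfl
    norm_num at hs
  intro h
  have h1 : s * s = 1 := by
    nth_rewrite 1 [← h]
    exact inv_mul_cancel₀ h0
  have h2 : s = 2 := by linear_combination h1 - hs
  rw [h2] at hs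
  apply three_ne (Ω := Ω) hp
  linear_combination hs

/-- the anharmonic group acts on a Frobenius orbit: the orbit is that of a root of `X² - X + 1` -/
theorem orb_core (hp : 5 ≤ p) {s : Ω} (h0 : s ≠ 0) (h1 : s ≠ 1) {i j : ℕ}
    (hi : s⁻¹ = s ^ p ^ i) (hj : 1 - s = s ^ p ^ j) :
    s ^ 2 - s + 1 = 0 ∧ p % 3 = 2 ∧ ∀ f, s ^ p ^ f = s → Even f := by
  have hpp : p.Prime := Fact.out
  have e1 : 1 - s⁻¹ = (1 - s) ^ p ^ i := by
    rw [hi, sub_pow_char_pow, one_pow]
  have e2 : (1 - s)⁻¹ = (s⁻¹) ^ p ^ j := by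
    rw [hj, inv_pow]
  have e3 : 1 - s⁻¹ = (1 - s)⁻¹ := by
    rw [e1, e2, hi, hj, ← pow_mul, ← pow_mul, mul_comm]
  have h1' : 1 - s ≠ 0 := sub_ne_zero.mpr (Ne.symm h1)
  have hs : s ^ 2 - s + 1 = 0 := by
    field_simp at e3
    linear_combination -e3
  have hne := root_ne_inv hp hs
  have hmod : p % 3 = 2 := by
    have h3 : p % 3 = 0 ∨ p % 3 = 1 ∨ p % 3 = 2 := by omega
    rcases h3 with h | h | h
    · exfalso
      have : 3 ∣ p := Nat.dvd_of_mod_eq_zero h
      rcases (Nat.dvd_prime hpp).1 this with h | h <;> omega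
    · exfalso
      have hf := (root_frob hp hs).1 h
      have hk : ∀ k, s ^ p ^ k = s := by
        intro k
        induction k with
        | zero => simp
        | succ k ih => rw [pow_succ, pow_mul, ih, hf]
      rw [hk] at hi
      exact hne hi
    · exact h
  refine ⟨hs, hmod, fun f hf => ?_⟩
  have hfr := (root_frob hp hs).2 hmod
  have hk : ∀ k, (Even k → s ^ p ^ k = s) ∧ (¬ Even k → s ^ p ^ k = s⁻¹) := by
    intro k
    induction k with
    | zero => simp
    | succ k ih =>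
      rw [Nat.even_add_one]
      constructor
      · intro h
        rw [pow_succ, pow_mul, ih.2 h, inv_pow, hfr, inv_inv]
      · intro h
        rw [not_not] at h
        rw [pow_succ, pow_mul, ih.1 h, hfr]
  by_contra hne'
  rw [(hk f).2 hne'] at hf
  exact hne hf

/-- pigeonhole: more than half of the members -/
theorem exists_pair {ι : Type*} [Fintype ι] [DecidableEq ι] (σ : Equiv.Perm ι) (A : Finset ι)
    (hA : Fintype.card ι < 2 * A.card) : ∃ i ∈ A, σ i ∈ A := by
  by_contra hcon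
  push Not at hcon
  have hd : Disjoint A (A.map σ.toEmbedding) := by
    rw [Finset.disjoint_left]
    intro x hx hx'
    rw [Finset.mem_map] at hx'
    obtain ⟨y, hy, rfl⟩ := hx'
    exact hcon y hy hx
  have h1 := Finset.card_le_univ (A ∪ A.map σ.toEmbedding)
  rw [Finset.card_union_of_disjoint hd, Finset.card_map] at h1
  omega

/-- if more than half of the members of an `S3`-stable family are conjugate under Frobenius, they are
zeros of `X² - X + 1`, `p = 2` modulo `3` and they have even degree -/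
theorem fam_core (hp : 5 ≤ p) {ι : Type*} [Fintype ι] {T : ι → Ω} (hT : S3 T) (A : Finset ι)
    (hA : Fintype.card ι < 2 * A.card) (hfr : ∀ i ∈ A, ∀ j ∈ A, ∃ k : ℕ, T j = T i ^ p ^ k)
    {i : ι} (hi : i ∈ A) :
    T i ^ 2 - T i + 1 = 0 ∧ p % 3 = 2 ∧ ∀ f, T i ^ p ^ f = T i → Even f := by
  classical
  have hpp : p.Prime := Fact.out
  have h0 := hT.ne_zero
  have h1 := hT.ne_one
  obtain ⟨⟨σ, hσ⟩, τ, hτ⟩ := hT
  have hinj : ∀ m : ℕ, Function.Injective (fun x : Ω => x ^ p ^ m) := fun m => by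
    have := iterateFrobenius_inj Ω p m
    intro x y hxy
    apply this
    simpa [iterateFrobenius_def] using hxy
  -- a general transfer
  have key : ∀ (ρ : Equiv.Perm ι) (g : Ω → Ω) (hρ : ∀ v, T (ρ v) = g (T v))
      (hg : ∀ x : Ω, ∀ m : ℕ, g (x ^ p ^ m) = g x ^ p ^ m), ∃ k : ℕ, g (T i) = T i ^ p ^ k := by
    intro ρ g hρ hg
    obtain ⟨j, hj, hj'⟩ := exists_pair ρ A hA
    obtain ⟨k, hk⟩ := hfr j hj (ρ j) hj'
    obtain ⟨m, hm⟩ := hfr i hi j hj
    refine ⟨k, hinj m ?_⟩
    show g (T i) ^ p ^ m = (T i ^ p ^ k) ^ p ^ m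
    rw [← hg, ← hm, ← hρ, hk, hm, ← pow_mul, ← pow_mul, mul_comm]
  obtain ⟨k, hk⟩ := key σ (fun x => x⁻¹) (fun v => eq_inv_of_mul_eq_one_left (hσ v))
    (fun x m => (inv_pow x _).symm)
  obtain ⟨l, hl⟩ := key τ (fun x => 1 - x) hτ (fun x m => by
    show 1 - x ^ p ^ m = (1 - x) ^ p ^ m
    rw [sub_pow_char_pow, one_pow])
  exact orb_core hp (h0 i) (h1 i) hk hl

end orb

section count

variable {Ω : Type*} [Field Ω] {ι : Type*} [Fintype ι]

end count

end H52FD

end

section

/-!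
# HF: definitions (helper80)

Project HF (MP_ef6a16): the non-Wieferich primes have mass `> 1/2`, from helper40's function.
Variable `t`, nodes `t ∈ [-L, L]` (integers), three jets at every node.
`F_0 = 1`, `F_(t+1)(y) F_t(y) = (3(t+y)+2) / (3(t+y)+1)` for all integers `t`
(so `F_(t+2) = r(t+y) F_t`, `r(x) = (3x+1)(3x+5)/((3x+2)(3x+4))`).
`F_t = NN t / DN t` with `NN t, DN t ∈ ℤ[y]` products of the linear factors `n + 3y`:
for `t > 0`: `n < 3t`, `3 ∤ n`, exponent `-(-1)^(n+t)`; for `t < 0`: factors `-n + 3y`, `n < 3|t|`, `3 ∤ n`,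
exponent `(-1)^(n+t)`.
Rows `(t, j)`: the coefficient of `y^j` in `A(t+y) - F_t(y) B(t+y)`; columns: the coefficients of `A` and of `B`,
both of degree `< 3L`. `DD L ρ` is the minor with the rows `ρ`.
-/

set_option autoImplicit false

namespace Pool.Agent.H80.HF

open Finset

/-- the linear factor `n + 3 y` -/
noncomputable def lf (n : ℤ) : Polynomial ℤ := Polynomial.C 3 * Polynomial.X + Polynomial.C n

/-- numerator and denominator of `F_n`, `n ≥ 0` -/
noncomputable def NDp : ℕ → Polynomial ℤ × Polynomial ℤ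
  | 0 => (1, 1)
  | (n + 1) => (lf (3 * n + 2) * (NDp n).2, lf (3 * n + 1) * (NDp n).1)

/-- numerator and denominator of `F_(-n)`, `n ≥ 0` -/
noncomputable def NDm : ℕ → Polynomial ℤ × Polynomial ℤ
  | 0 => (1, 1)
  | (n + 1) => (lf (-(3 * n) - 1) * (NDm n).2, lf (-(3 * n) - 2) * (NDm n).1)

/-- numerator of `F_t` -/
noncomputable def NN (t : ℤ) : Polynomial ℤ := if 0 ≤ t then (NDp t.toNat).1 else (NDm (-t).toNat).1

/-- denominator of `F_t` -/
noncomputable def DN (t : ℤ) : Polynomial ℤ := if 0 ≤ t then (NDp t.toNat).2 else (NDm (-t).toNat).2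

/-- a polynomial over `ℤ` as a power series over `ℚ` -/
noncomputable def toPS (P : Polynomial ℤ) : PowerSeries ℚ := ((P.map (Int.castRingHom ℚ) : Polynomial ℚ) : PowerSeries ℚ)

/-- `F_t(y)` -/
noncomputable def FF (t : ℤ) : PowerSeries ℚ := toPS (NN t) * (toPS (DN t))⁻¹

/-- the power series `u + y` -/
noncomputable def lin (u : ℚ) : PowerSeries ℚ := PowerSeries.X + PowerSeries.C u

/-- Taylor expansion of a polynomial at the integer `t`: the power series `P(t + y)` -/
noncomputable def tay (t : ℤ) (P : Polynomial ℚ) : PowerSeries ℚ :=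
  ((P.comp (Polynomial.X + Polynomial.C (t : ℚ)) : Polynomial ℚ) : PowerSeries ℚ)

/-- column labels -/
abbrev Col (L : ℕ) := Fin (3 * L) ⊕ Fin (3 * L)

/-- the matrix entries -/
noncomputable def ent (L : ℕ) (r : ℤ × Fin 3) : Col L → ℚ
  | Sum.inl i => PowerSeries.coeff (r.2 : ℕ) (lin (r.1 : ℚ) ^ (i : ℕ))
  | Sum.inr i => -PowerSeries.coeff (r.2 : ℕ) (FF r.1 * lin (r.1 : ℚ) ^ (i : ℕ))

/-- the minor with rows `ρ` -/
noncomputable def DD (L : ℕ) (ρ : Col L → ℤ × Fin 3) : ℚ :=
  Matrix.det (Matrix.of fun c => ent L (ρ c))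

/-- admissible choices of rows -/
structure Rows (L : ℕ) (ρ : Col L → ℤ × Fin 3) : Prop where
  inj : Function.Injective ρ
  le : ∀ c, |(ρ c).1| ≤ (L : ℤ)

/-- Wieferich primes -/
def Wie (p : ℕ) : Prop := (p : ℤ) ^ 2 ∣ 2 ^ (p - 1) - 1

/-- the number of even integers in `(p/3, 2p/3)` -/
def dd (p : ℕ) : ℕ := p / 3 - p / 6

/-- the valuation of `F_t` at a prime `q ≥ 5` with `3L < q^2` -/
def Ee (q : ℕ) (t : ℤ) : ℤ :=
  if ((q / 3 : ℕ) : ℤ) < t % q ∧ t % q ≤ ((2 * q / 3 : ℕ) : ℤ) then (if t % q % 2 = 0 then 1 else -1) else 0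

/-- entries of the local expansion at `q`: coefficients of `(t - c + y)^k`, resp. `F_t(y) (t - c + y)^k`,
where `c` is the balanced residue of `t` modulo `q` -/
noncomputable def SS (q : ℕ) (r : ℤ × Fin 3) : Bool → ℕ → ℚ
  | true, k => PowerSeries.coeff (r.2 : ℕ) (lin ((r.1 - Int.bmod r.1 q : ℤ) : ℚ) ^ k)
  | false, k => PowerSeries.coeff (r.2 : ℕ) (FF r.1 * lin ((r.1 - Int.bmod r.1 q : ℤ) : ℚ) ^ k)

/-- cost of the node `t` at the prime 2 -/
def ww (q : ℕ) (t : ℤ) : ℕ :=
  if q = 2 ∧ ((0 < t ∧ t % 2 = 0) ∨ (t < 0 ∧ t % 2 = 1)) then 2 * t.natAbs else 0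

/-- total cost of the rows at 2 -/
def WW (q L : ℕ) : ℕ := if q = 2 then 3 * L * (L + 1) else 0

/-- the integral matrix entries -/
noncomputable def entI (L : ℕ) (r : ℤ × Fin 3) : Col L → ℤ
  | Sum.inl i => (DN r.1 * (Polynomial.X + Polynomial.C r.1) ^ (i : ℕ)).coeff (r.2 : ℕ)
  | Sum.inr i => -(NN r.1 * (Polynomial.X + Polynomial.C r.1) ^ (i : ℕ)).coeff (r.2 : ℕ)

end Pool.Agent.H80.HF

end

section

/-!
# The anharmonic group and Frobenius orbits

`Cj p x y`: `y = x ^ p ^ k` for some `k`.  `Rch x y`: `y` is obtained from `x` by `s ↦ 1/s`, `s ↦ 1 - s`.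
`orbit`: the Frobenius classes of the anharmonic orbit of `x` (not `0`, `1`, algebraic over `𝔽_p`) are
those of `y 0, ..., y (n-1)`, pairwise different, and one of: `n = 6`; `n = 3` and some `y j = -1`;
`n = 3` and all degrees even; `n = 2` and `p = 1` modulo `3`; `n = 2` and all degrees divisible by `3`;
`n = 1`, `p = 2` modulo `3` and all degrees even.
-/

namespace H85FD

open Finset

variable {Ω : Type*} [Field Ω] (p : ℕ)

/-- Frobenius conjugates -/
def Cj (x y : Ω) : Prop := ∃ k : ℕ, y = x ^ p ^ k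

/-- `x` is fixed by a power of Frobenius -/
def Per (x : Ω) : Prop := ∃ f : ℕ, 0 < f ∧ x ^ p ^ f = x

/-- reachable by the anharmonic substitutions -/
inductive Rch (x : Ω) : Ω → Prop
  | refl : Rch x x
  | inv {y : Ω} : Rch x y → Rch x y⁻¹
  | sub {y : Ω} : Rch x y → Rch x (1 - y)

variable {p}

theorem Rch.trans {x y z : Ω} (h : Rch x y) (h' : Rch y z) : Rch x z := by
  induction h' with
  | refl => exact h
  | inv _ ih => exact ih.inv
  | sub _ ih => exact ih.sub

theorem Cj.refl (x : Ω) : Cj p x x := ⟨0, by simp⟩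

theorem Cj.of_eq {x y : Ω} (h : x = y) : Cj p x y := h ▸ Cj.refl x

theorem Cj.trans {x y z : Ω} (h : Cj p x y) (h' : Cj p y z) : Cj p x z := by
  obtain ⟨k, rfl⟩ := h
  obtain ⟨m, rfl⟩ := h'
  exact ⟨k + m, by rw [← pow_mul, pow_add]⟩

theorem pow_mul_per {x : Ω} {f : ℕ} (h : x ^ p ^ f = x) (m : ℕ) : x ^ p ^ (f * m) = x := by
  induction m with
  | zero => simp
  | succ m ih => rw [Nat.mul_succ, pow_add, pow_mul, ih, h]

theorem Cj.symm {x y : Ω} (hx : Per p x) (h : Cj p x y) : Cj p y x := by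
  obtain ⟨f, hf, hfx⟩ := hx
  obtain ⟨k, rfl⟩ := h
  refine ⟨f * k - k, ?_⟩
  rw [← pow_mul, ← pow_add]
  have e : k + (f * k - k) = f * k := by
    have : k ≤ f * k := Nat.le_mul_of_pos_left k hf
    omega
  rw [e, pow_mul_per hfx]

theorem Cj.inv {x y : Ω} (h : Cj p x y) : Cj p x⁻¹ y⁻¹ := by
  obtain ⟨k, rfl⟩ := h
  exact ⟨k, (inv_pow x _).symm⟩

theorem Per.inv {x : Ω} (h : Per p x) : Per p x⁻¹ := by
  obtain ⟨f, hf, hfx⟩ := h
  exact ⟨f, hf, by rw [inv_pow, hfx]⟩

/-- the period and an automorphism of order `n` (prime) of the orbit -/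
theorem period {n : ℕ} (hn : n.Prime) {x : Ω} (h : Ω → Ω)
    (hcomm : ∀ (y : Ω) (k : ℕ), h (y ^ p ^ k) = h y ^ p ^ k) (hnx : h^[n] x = x) {k : ℕ}
    (hk : h x = x ^ p ^ k) (hne : h x ≠ x) {f : ℕ} (hf : x ^ p ^ f = x) : n ∣ f := by
  have hit : ∀ m : ℕ, h^[m] x = x ^ p ^ (k * m) := by
    intro m
    induction m with
    | zero => simp
    | succ m ih =>
      rw [Function.iterate_succ_apply', ih, hcomm, hk, ← pow_mul, ← pow_add]
      congr 2
      ring
  have h1 : x ^ p ^ (k * n) = x := by rw [← hit, hnx]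
  -- the gcd
  have hgcd : ∀ a b : ℕ, x ^ p ^ a = x → x ^ p ^ b = x → x ^ p ^ (Nat.gcd a b) = x := by
    intro a b
    induction a, b using Nat.gcd.induction with
    | H0 b => intro _ hb; simpa using hb
    | H1 a b ha ih =>
      intro h2 h3
      rw [Nat.gcd_rec]
      apply ih _ h2
      have e : b = a * (b / a) + b % a := (Nat.div_add_mod b a).symm
      have h4 : x ^ p ^ (a * (b / a) + b % a) = x := by rw [← e]; exact h3
      rw [pow_add, pow_mul, pow_mul_per h2] at h4
      exact h4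
  by_contra hnf
  have hcop : Nat.Coprime n f := (Nat.Prime.coprime_iff_not_dvd hn).mpr hnf
  have h2 := hgcd (k * n) f h1 hf
  have h3 : Nat.gcd (k * n) f ∣ k := by
    have : Nat.gcd (k * n) f = Nat.gcd k f := Nat.Coprime.gcd_mul_right_cancel k hcop
    rw [this]
    exact Nat.gcd_dvd_left k f
  obtain ⟨m, hm⟩ := h3
  apply hne
  rw [hk, hm]
  exact pow_mul_per h2 m

section char

variable [Fact p.Prime] [CharP Ω p]

end char

theorem Rch.ne {x y : Ω} (h : Rch x y) (h0 : x ≠ 0) (h1 : x ≠ 1) : y ≠ 0 ∧ y ≠ 1 := by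
  induction h with
  | refl => exact ⟨h0, h1⟩
  | inv _ ih => exact ⟨inv_ne_zero ih.1, fun h => ih.2 (inv_eq_one.mp h)⟩
  | sub _ ih =>
    exact ⟨sub_ne_zero.mpr (Ne.symm ih.2), fun h => ih.1 (by linear_combination -h)⟩

/-- the identity `bab = aba` -/
theorem bab {x : Ω} (h0 : x ≠ 0) (h1 : x ≠ 1) : 1 - (1 - x)⁻¹ = (1 - x⁻¹)⁻¹ := by
  have h2 : 1 - x ≠ 0 := sub_ne_zero.mpr (Ne.symm h1)
  have h3 : x - 1 ≠ 0 := sub_ne_zero.mpr h1
  have e : 1 - x⁻¹ = (x - 1) / x := by field_simp
  rw [e]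
  field_simp
  ring

theorem bcx {x : Ω} (h0 : x ≠ 0) (h1 : x ≠ 1) : 1 - (1 - x⁻¹)⁻¹ = (1 - x)⁻¹ := by
  rw [← bab h0 h1]
  ring

theorem acx {x : Ω} (h0 : x ≠ 0) (h1 : x ≠ 1) : (1 - (1 - x)⁻¹)⁻¹ = 1 - x⁻¹ := by
  rw [bab h0 h1, inv_inv]

/-- the kind of a block of `n` Frobenius orbits -/
def KindE (p n : ℕ) (y : Fin n → Ω) : Prop :=
  n = 6 ∨ (n = 3 ∧ ((∃ j, y j = -1) ∨ ∀ j f, y j ^ p ^ f = y j → Even f)) ∨
    (n = 2 ∧ (p % 3 = 1 ∨ ∀ j f, y j ^ p ^ f = y j → 3 ∣ f)) ∨
    (n = 1 ∧ p % 3 = 2 ∧ ∀ j f, y j ^ p ^ f = y j → Even f)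

/-- a block of Frobenius orbits, stable under the anharmonic group, reachable from `x` -/
structure Blk (p : ℕ) (x : Ω) (n : ℕ) (y : Fin n → Ω) : Prop where
  rch : ∀ j, Rch x (y j)
  dist : ∀ i j, Cj p (y i) (y j) → i = j
  inv : ∀ j, ∃ j', Cj p (y j)⁻¹ (y j')
  sub : ∀ j, ∃ j', Cj p (1 - y j) (y j')
  kind : KindE p n y

theorem Blk.mono {x x' : Ω} {n : ℕ} {y : Fin n → Ω} (h : Rch x x') (hb : Blk p x' n y) :
    Blk p x n y :=
  ⟨fun j => h.trans (hb.rch j), hb.dist, hb.inv, hb.sub, hb.kind⟩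

/-- distinctness needs only be checked for `i < j` -/
theorem dist_of_lt {n : ℕ} {y : Fin n → Ω} (hy : ∀ j, Per p (y j))
    (h : ∀ i j, i < j → ¬ Cj p (y i) (y j)) : ∀ i j, Cj p (y i) (y j) → i = j := by
  intro i j hij
  rcases lt_trichotomy i j with h1 | h1 | h1
  · exact absurd hij (h i j h1)
  · exact h1
  · exact absurd (hij.symm (hy i)) (h j i h1)

section blocks

variable [Fact p.Prime] [CharP Ω p]

theorem natCast_pow_p (n k : ℕ) : ((n : ℕ) : Ω) ^ p ^ k = n := by
  have h := map_natCast (iterateFrobenius Ω p k) n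
  rwa [iterateFrobenius_def] at h

theorem root_inv {x : Ω} (h0 : x ≠ 0) (h : x⁻¹ ^ 2 - x⁻¹ + 1 = 0) : x ^ 2 - x + 1 = 0 := by
  field_simp at h
  linear_combination h

theorem root_sub {x : Ω} : (1 - x) ^ 2 - (1 - x) + 1 = x ^ 2 - x + 1 := by ring

end blocks

end H85FD

end

section

/-!
# Project FD: the partition criterion

`Splits r W s`: the multiset `s` of pairs (local degree `e f`, residue degree `f`) can be divided into
groups, each of which is divided into `n` parts with equal sums of the local degrees, where `n = 6`; or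
`n = 3` and all residue degrees of the group are even (or `W` holds); or `n = 2` and all residue degrees
of the group are divisible by `3` (or `r = 1`); or `n = 1`, `r = 2` and all residue degrees are even.

`splits_of_S3`: a family `T : α → Ω` which is stable under the anharmonic group and which is
distributed over the places `P ∈ Q` (`κ : α → Q`) with members over the same place conjugate under
Frobenius satisfies `Splits (p % 3) W`, where `W` holds if `-1` is a member.
-/

namespace H85FD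

open Finset

/-- the sum of the local degrees -/
def fs (s : Multiset (ℕ × ℕ)) : ℕ := (s.map Prod.fst).sum

/-- the kind of a group divided into `n` parts -/
def Kind (r : ℕ) (W : Prop) (n : ℕ) (s : Multiset (ℕ × ℕ)) : Prop :=
  n = 6 ∨ (n = 3 ∧ (W ∨ ∀ k ∈ s, Even k.2)) ∨ (n = 2 ∧ (r = 1 ∨ ∀ k ∈ s, 3 ∣ k.2)) ∨
    (n = 1 ∧ r = 2 ∧ ∀ k ∈ s, Even k.2)

/-- the partition criterion -/
inductive Splits (r : ℕ) (W : Prop) : Multiset (ℕ × ℕ) → Prop
  | nil : Splits r W 0
  | block (n : ℕ) (A : Fin n → Multiset (ℕ × ℕ)) (s : Multiset (ℕ × ℕ))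
      (hk : Kind r W n (∑ i, A i)) (hs : ∀ i j, fs (A i) = fs (A j)) (h : Splits r W s) :
      Splits r W (∑ i, A i + s)

section

variable {Ω : Type*} [Field Ω] {p : ℕ}

/-- the Frobenius class of `x` -/
def cls (p : ℕ) (x : Ω) : Set Ω := {y | Cj p x y}

theorem cls_eq_iff {x y : Ω} (hx : Per p x) : cls p x = cls p y ↔ Cj p x y := by
  constructor
  · intro h
    have : y ∈ cls p x := by
      rw [h]
      exact Cj.refl y
    exact this
  · intro h
    ext z
    exact ⟨fun hz => (h.symm hx).trans hz, fun hz => h.trans hz⟩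

variable {α Q : Type*} [Fintype α] [Fintype Q]

/-- a family distributed over places -/
structure Fam (p : ℕ) (T : α → Ω) (κ : α → Q) (f : Q → ℕ) : Prop where
  s3 : H52FD.S3 T
  surj : Function.Surjective κ
  conj : ∀ i j, κ i = κ j → ∃ k : ℕ, T j = T i ^ p ^ k
  per : ∀ i, T i ^ p ^ f (κ i) = T i
  fpos : ∀ P, 0 < f P

variable {T : α → Ω} {κ : α → Q} {f : Q → ℕ}

omit [Fintype α] [Fintype Q] in
theorem Fam.perT (h : Fam p T κ f) (i : α) : Per p (T i) := ⟨f (κ i), h.fpos _, h.per i⟩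

open Classical in
/-- the number of members over the place `P` -/
noncomputable def fib (κ : α → Q) (P : Q) : ℕ := (univ.filter (fun i => κ i = P)).card

/-- the class of a place -/
noncomputable def cl (h : Fam p T κ f) (P : Q) : Set Ω := cls p (T (Function.surjInv h.surj P))

omit [Fintype α] [Fintype Q] in
theorem cl_apply (h : Fam p T κ f) (i : α) : cl h (κ i) = cls p (T i) := by
  unfold cl
  rw [cls_eq_iff (h.perT _)]
  exact h.conj _ _ (Function.surjInv_eq h.surj (κ i))

open Classical in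
/-- the multiset of the degrees of the places whose class is in `C` -/
noncomputable def Dm (h : Fam p T κ f) (C : Finset (Set Ω)) : Multiset (ℕ × ℕ) :=
  (univ.filter (fun P => cl h P ∈ C)).val.map (fun P => (fib κ P, f P))

theorem Dm_empty (h : Fam p T κ f) : Dm h ∅ = 0 := by
  classical
  unfold Dm
  simp

open Classical in
theorem Dm_union (h : Fam p T κ f) {C C' : Finset (Set Ω)} (hd : Disjoint C C') :
    Dm h (C ∪ C') = Dm h C + Dm h C' := by
  unfold Dm
  rw [← Multiset.map_add]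
  congr 1
  have e : univ.filter (fun P => cl h P ∈ C ∪ C') =
      (univ.filter (fun P => cl h P ∈ C)).disjUnion (univ.filter (fun P => cl h P ∈ C')) (by
        rw [Finset.disjoint_left]
        intro P hP hP'
        rw [mem_filter] at hP hP'
        exact (Finset.disjoint_left.mp hd) hP.2 hP'.2) := by
    ext P
    simp
  rw [e]
  rfl

open Classical in
theorem Dm_image (h : Fam p T κ f) {n : ℕ} (X : Fin n → Set Ω) (hX : Function.Injective X) :
    Dm h (univ.image X) = ∑ j, Dm h {X j} := by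
  have key : ∀ s : Finset (Fin n), Dm h (s.image X) = ∑ j ∈ s, Dm h {X j} := by
    intro s
    induction s using Finset.induction_on with
    | empty => rw [image_empty, Dm_empty, sum_empty]
    | insert a s ha ih =>
      rw [sum_insert ha, ← ih, image_insert, insert_eq, Dm_union]
      rw [disjoint_singleton_left, mem_image]
      rintro ⟨b, hb, hba⟩
      exact ha (hX hba ▸ hb)
  exact key univ

open Classical in
/-- the weight of a class -/
theorem fs_Dm (h : Fam p T κ f) (X : Set Ω) :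
    fs (Dm h {X}) = (univ.filter (fun i => cls p (T i) = X)).card := by
  unfold fs Dm
  rw [Multiset.map_map]
  show ∑ P ∈ univ.filter (fun P => cl h P ∈ ({X} : Finset (Set Ω))), fib κ P = _
  rw [card_eq_sum_card_fiberwise (f := κ) (t := univ.filter (fun P => cl h P ∈ ({X} : Finset (Set Ω))))]
  · refine sum_congr rfl fun P hP => ?_
    unfold fib
    congr 1
    ext i
    simp only [mem_filter, mem_univ, true_and, mem_singleton] at hP ⊢
    constructor
    · intro hi
      exact ⟨by rw [← cl_apply h, hi, hP], hi⟩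
    · exact fun hi => hi.2
  · intro i hi
    simp only [coe_filter, mem_univ, true_and, Set.mem_setOf_eq, mem_singleton] at hi ⊢
    rw [cl_apply h, hi]

theorem mem_Dm (h : Fam p T κ f) {X : Set Ω} {k : ℕ × ℕ} (hk : k ∈ Dm h {X}) :
    ∃ P, cl h P = X ∧ k.2 = f P := by
  classical
  unfold Dm at hk
  rw [Multiset.mem_map] at hk
  obtain ⟨P, hP, rfl⟩ := hk
  rw [Finset.mem_val, mem_filter, mem_singleton] at hP
  exact ⟨P, hP.2, rfl⟩

variable [Fact p.Prime] [CharP Ω p]

/-- invariance of a set of classes -/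
structure Inv (p : ℕ) (T : α → Ω) (C : Finset (Set Ω)) : Prop where
  mem : ∀ X ∈ C, ∃ i, X = cls p (T i)
  inv : ∀ x, Per p x → cls p x ∈ C → cls p x⁻¹ ∈ C
  sub : ∀ x, Per p x → cls p x ∈ C → cls p (1 - x) ∈ C

end

end H85FD

end

section

/-!
# FG Spl: the splitting criterion in explicit form
-/

set_option autoImplicit false

namespace H10FG

/-- The multiset `s` of degrees splits: it is divided into six parts `T₁, T₂, T₃, U₁, U₂, E`, where `T₁, T₂, T₃` have
equal sums, `U₁, U₂` have equal sums and contain only multiples of `3` unless `r = 1`, and `E` is empty or `r = 2`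
and all its members are even. -/
def Splits (r : ℕ) (s : Multiset ℕ) : Prop :=
  ∃ T₁ T₂ T₃ U₁ U₂ E : Multiset ℕ, s = T₁ + T₂ + T₃ + U₁ + U₂ + E ∧
    T₁.sum = T₂.sum ∧ T₂.sum = T₃.sum ∧ U₁.sum = U₂.sum ∧
    (r = 1 ∨ ∀ k ∈ U₁ + U₂, 3 ∣ k) ∧ ∀ k ∈ E, r = 2 ∧ Even k

theorem splits_of (r : ℕ) (W : Prop) (s : Multiset (ℕ × ℕ)) (h : H85FD.Splits r W s) :
    (∀ k ∈ s, k.1 = k.2) → Splits r (s.map Prod.fst) := by
  induction h with
  | nil =>
    intro _
    exact ⟨0, 0, 0, 0, 0, 0, by simp, rfl, rfl, rfl, Or.inr (by simp), by simp⟩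
  | block n A s hk hs h ih =>
    intro hd
    obtain ⟨T₁, T₂, T₃, U₁, U₂, E, h0, h1, h2, h3, h4, h5⟩ := ih fun k hk =>
      hd k (Multiset.mem_add.2 (Or.inr hk))
    have hdA : ∀ k ∈ ∑ i, A i, k.1 = k.2 := fun k hk => hd k (Multiset.mem_add.2 (Or.inl hk))
    obtain ⟨a, ha⟩ : ∃ a : Fin n → Multiset ℕ, a = fun i => (A i).map Prod.fst := ⟨_, rfl⟩
    have hsum : (∑ i, A i).map Prod.fst = ∑ i, a i := by
      rw [ha]
      exact map_sum (Multiset.mapAddMonoidHom Prod.fst) A Finset.univ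
    have hs' : ∀ i j, (a i).sum = (a j).sum := by
      intro i j
      rw [ha]
      exact hs i j
    have hmem : ∀ k ∈ ∑ i, a i, ∃ k' ∈ ∑ i, A i, k'.1 = k ∧ k'.2 = k := by
      intro k hk
      rw [← hsum] at hk
      obtain ⟨k', hk', rfl⟩ := Multiset.mem_map.1 hk
      exact ⟨k', hk', rfl, (hdA k' hk').symm⟩
    rw [Multiset.map_add, hsum, h0]
    rcases hk with rfl | ⟨rfl, -⟩ | ⟨rfl, hk⟩ | ⟨rfl, hr, hk⟩
    · refine ⟨T₁ + a 0 + a 1, T₂ + a 2 + a 3, T₃ + a 4 + a 5, U₁, U₂, E, ?_, ?_, ?_, h3, h4, h5⟩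
      · rw [Fin.sum_univ_six]
        abel
      · rw [Multiset.sum_add, Multiset.sum_add, Multiset.sum_add, Multiset.sum_add, h1, hs' 0 2, hs' 1 3]
      · rw [Multiset.sum_add, Multiset.sum_add, Multiset.sum_add, Multiset.sum_add, h2, hs' 2 4, hs' 3 5]
    · refine ⟨T₁ + a 0, T₂ + a 1, T₃ + a 2, U₁, U₂, E, ?_, ?_, ?_, h3, h4, h5⟩
      · rw [Fin.sum_univ_three]
        abel
      · rw [Multiset.sum_add, Multiset.sum_add, h1, hs' 0 1]
      · rw [Multiset.sum_add, Multiset.sum_add, h2, hs' 1 2]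
    · refine ⟨T₁, T₂, T₃, U₁ + a 0, U₂ + a 1, E, ?_, h1, h2, ?_, ?_, h5⟩
      · rw [Fin.sum_univ_two]
        abel
      · rw [Multiset.sum_add, Multiset.sum_add, h3, hs' 0 1]
      · rcases hk with hk | hk
        · exact Or.inl hk
        · rcases h4 with h4 | h4
          · exact Or.inl h4
          · right
            intro k hk'
            have e : U₁ + a 0 + (U₂ + a 1) = (U₁ + U₂) + ∑ i, a i := by
              rw [Fin.sum_univ_two]
              abel
            rw [e, Multiset.mem_add] at hk'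
            rcases hk' with hk' | hk'
            · exact h4 k hk'
            · obtain ⟨k', h6, -, h7⟩ := hmem k hk'
              rw [← h7]
              exact hk k' h6
    · refine ⟨T₁, T₂, T₃, U₁, U₂, E + a 0, ?_, h1, h2, h3, h4, ?_⟩
      · rw [Fin.sum_univ_one]
        abel
      · intro k hk'
        rw [Multiset.mem_add] at hk'
        rcases hk' with hk' | hk'
        · exact h5 k hk'
        · obtain ⟨k', h6, -, h7⟩ := hmem k (by rwa [Fin.sum_univ_one])
          rw [← h7]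
          exact ⟨hr, hk k' h6⟩

end H10FG

end

section

/-!
# The orbit lemma for a power `q` of `p` (relative version: Frobenius `x ↦ x ^ q`)
-/

namespace H85FD

open Finset

variable {Ω : Type*} [Field Ω]

section charq

variable {p q : ℕ} [Fact p.Prime] [CharP Ω p]

/-- the powers of `q` act additively -/
theorem sub_pow_q (hq : ∃ g, q = p ^ g) (x y : Ω) (k : ℕ) :
    (x - y) ^ q ^ k = x ^ q ^ k - y ^ q ^ k := by
  obtain ⟨g, rfl⟩ := hq
  rw [← pow_mul, sub_pow_char_pow]

theorem odd_q (hp : 5 ≤ p) (hq : ∃ g, q = p ^ g) : Odd q := by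
  obtain ⟨g, rfl⟩ := hq
  apply Odd.pow
  rcases (Fact.out : p.Prime).eq_two_or_odd' with h | h
  · omega
  · exact h

omit [Fact p.Prime] in
theorem Cj.subq [Fact p.Prime] (hq : ∃ g, q = p ^ g) {x y : Ω} (h : Cj q x y) :
    Cj q (1 - x) (1 - y) := by
  obtain ⟨k, rfl⟩ := h
  exact ⟨k, by rw [sub_pow_q hq, one_pow]⟩

theorem Per.subq (hq : ∃ g, q = p ^ g) {x : Ω} (h : Per q x) : Per q (1 - x) := by
  obtain ⟨f, hf, hfx⟩ := h
  exact ⟨f, hf, by rw [sub_pow_q hq, one_pow, hfx]⟩

theorem Rch.perq (hq : ∃ g, q = p ^ g) {x y : Ω} (h : Rch x y) (hx : Per q x) : Per q y := by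
  induction h with
  | refl => exact hx
  | inv _ ih => exact ih.inv
  | sub _ ih => exact ih.subq hq

theorem three_q (hp : 5 ≤ p) (hq : ∃ g, q = p ^ g) : q % 3 ≠ 0 := by
  obtain ⟨g, rfl⟩ := hq
  intro h
  have h1 : 3 ∣ p ^ g := Nat.dvd_of_mod_eq_zero h
  have h2 := Nat.prime_three.dvd_of_dvd_pow h1
  rcases (Nat.dvd_prime (Fact.out : p.Prime)).1 h2 with h | h <;> omega

theorem root_frob_q (hp : 5 ≤ p) (hq : ∃ g, q = p ^ g) {s : Ω} (hs : s ^ 2 - s + 1 = 0) :
    (q % 3 = 1 → s ^ q = s) ∧ (q % 3 = 2 → s ^ q = s⁻¹) := by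
  have h0 : s ≠ 0 := by
    rintro rfl
    norm_num at hs
  have h6 := (H52FD.root_pow hs).2
  have hodd : q % 2 = 1 := Nat.odd_iff.mp (odd_q hp hq)
  constructor
  · intro h
    have h1 : q % 6 = 1 := by omega
    have : s ^ q = s ^ (6 * (q / 6) + 1) := by
      congr 1
      omega
    rw [this, pow_succ, pow_mul, h6, one_pow, one_mul]
  · intro h
    have h1 : q % 6 = 5 := by omega
    have : s ^ q = s ^ (6 * (q / 6) + 5) := by
      congr 1
      omega
    rw [this, pow_add, pow_mul, h6, one_pow, one_mul]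
    apply eq_inv_of_mul_eq_one_left
    rw [← h6]
    ring

theorem orb_core_q (hp : 5 ≤ p) (hq : ∃ g, q = p ^ g) {s : Ω} (h0 : s ≠ 0) (h1 : s ≠ 1)
    {i j : ℕ} (hi : s⁻¹ = s ^ q ^ i) (hj : 1 - s = s ^ q ^ j) :
    s ^ 2 - s + 1 = 0 ∧ q % 3 = 2 ∧ ∀ f, s ^ q ^ f = s → Even f := by
  have e1 : 1 - s⁻¹ = (1 - s) ^ q ^ i := by
    rw [hi, sub_pow_q hq, one_pow]
  have e2 : (1 - s)⁻¹ = (s⁻¹) ^ q ^ j := by
    rw [hj, inv_pow]
  have e3 : 1 - s⁻¹ = (1 - s)⁻¹ := by
    rw [e1, e2, hi, hj, ← pow_mul, ← pow_mul, mul_comm]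
  have h1' : 1 - s ≠ 0 := sub_ne_zero.mpr (Ne.symm h1)
  have hs : s ^ 2 - s + 1 = 0 := by
    field_simp at e3
    linear_combination -e3
  have hne := H52FD.root_ne_inv hp hs
  have hmod : q % 3 = 2 := by
    have h3 : q % 3 = 0 ∨ q % 3 = 1 ∨ q % 3 = 2 := by omega
    rcases h3 with h | h | h
    · exact absurd h (three_q hp hq)
    · exfalso
      have hf := (root_frob_q hp hq hs).1 h
      have hk : ∀ k, s ^ q ^ k = s := by
        intro k
        induction k with
        | zero => simp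
        | succ k ih => rw [pow_succ, pow_mul, ih, hf]
      rw [hk] at hi
      exact hne hi
    · exact h
  refine ⟨hs, hmod, fun f hf => ?_⟩
  have hfr := (root_frob_q hp hq hs).2 hmod
  have hk : ∀ k, (Even k → s ^ q ^ k = s) ∧ (¬ Even k → s ^ q ^ k = s⁻¹) := by
    intro k
    induction k with
    | zero => simp
    | succ k ih =>
      rw [Nat.even_add_one]
      constructor
      · intro h
        rw [pow_succ, pow_mul, ih.2 h, inv_pow, hfr, inv_inv]
      · intro h
        rw [not_not] at h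
        rw [pow_succ, pow_mul, ih.1 h, hfr]
  by_contra hne'
  rw [(hk f).2 hne'] at hf
  exact hne hf

end charq

section blocks

variable {p q : ℕ} [Fact p.Prime] [CharP Ω p]

/-- roots of `X² - X + 1` -/
theorem blk_root_q (hp : 5 ≤ p) (hq : ∃ g, q = p ^ g) {x : Ω} (h0 : x ≠ 0) (h1 : x ≠ 1) (hx : Per q x)
    (hr : x ^ 2 - x + 1 = 0) : ∃ n y, Blk q x n y := by
  have hinv : x⁻¹ = 1 - x := by
    field_simp
    linear_combination hr
  have hne := H52FD.root_ne_inv hp hr
  obtain ⟨hf1, hf2⟩ := root_frob_q hp hq hr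
  have hpp : p.Prime := Fact.out
  have h3 : q % 3 = 0 ∨ q % 3 = 1 ∨ q % 3 = 2 := by omega
  rcases h3 with h3 | h3 | h3
  · exact absurd h3 (three_q hp hq)
  · refine ⟨2, ![x, 1 - x], ?_, ?_, ?_, ?_, ?_⟩
    · intro j
      fin_cases j
      · exact Rch.refl
      · exact Rch.refl.sub
    · apply dist_of_lt
      · intro j
        fin_cases j
        · exact hx
        · exact hx.subq hq
      · intro i j hij
        fin_cases i <;> fin_cases j <;> simp at hij
        rintro ⟨k, hk⟩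
        have hk' : 1 - x = x ^ q ^ k := hk
        have hall : ∀ k, x ^ q ^ k = x := by
          intro k
          induction k with
          | zero => simp
          | succ k ih => rw [pow_succ, pow_mul, ih, hf1 h3]
        rw [hall, ← hinv] at hk'
        exact hne hk'
    · intro j
      fin_cases j
      · exact ⟨1, Cj.of_eq hinv⟩
      · refine ⟨0, Cj.of_eq ?_⟩
        show (1 - x)⁻¹ = x
        rw [← hinv, inv_inv]
    · intro j
      fin_cases j
      · exact ⟨1, Cj.refl _⟩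
      · refine ⟨0, Cj.of_eq ?_⟩
        show 1 - (1 - x) = x
        ring
    · exact Or.inr (Or.inr (Or.inl ⟨rfl, Or.inl h3⟩))
  · have hi : x⁻¹ = x ^ q ^ 1 := by rw [pow_one, hf2 h3]
    have hj : 1 - x = x ^ q ^ 1 := by rw [← hinv, hi]
    have hev := (orb_core_q hp hq h0 h1 hi hj).2.2
    refine ⟨1, ![x], ?_, ?_, ?_, ?_, ?_⟩
    · intro j
      fin_cases j
      exact Rch.refl
    · intro i j _
      exact Subsingleton.elim i j
    · intro j
      fin_cases j
      exact ⟨0, Cj.symm hx ⟨1, hi⟩⟩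
    · intro j
      fin_cases j
      exact ⟨0, Cj.symm hx ⟨1, hj⟩⟩
    · refine Or.inr (Or.inr (Or.inr ⟨rfl, h3, ?_⟩))
      intro j f hf
      fin_cases j
      exact hev f hf

theorem natCast_pow_q (hq : ∃ g, q = p ^ g) (n k : ℕ) : ((n : ℕ) : Ω) ^ q ^ k = n := by
  obtain ⟨g, rfl⟩ := hq
  rw [← pow_mul]
  exact natCast_pow_p n (g * k)

/-- the values `-1, 2, 1/2` -/
theorem blk_wief_q (hp : 5 ≤ p) (hq : ∃ g, q = p ^ g) {x : Ω} (hx : x = -1) :
    ∃ n y, Blk q x n y := by
  have h3 : (3 : Ω) ≠ 0 := H52FD.three_ne hp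
  have h2 : (2 : Ω) ≠ 0 := by
    intro h
    have h' : ((2 : ℕ) : Ω) = 0 := by exact_mod_cast h
    rw [CharP.cast_eq_zero_iff Ω p] at h'
    have := Nat.le_of_dvd (by norm_num) h'
    omega
  have e2 : ∀ k, (2 : Ω) ^ q ^ k = 2 := fun k => by
    have := natCast_pow_q (Ω := Ω) hq 2 k
    exact_mod_cast this
  have e1 : ∀ k, (-1 : Ω) ^ q ^ k = -1 := fun k => by
    rw [((odd_q hp hq).pow).neg_one_pow]
  have e3 : ∀ k, (2⁻¹ : Ω) ^ q ^ k = 2⁻¹ := fun k => by rw [inv_pow, e2]
  have hPer : ∀ z : Ω, z ^ q ^ 1 = z → Per q z := fun z hz => ⟨1, one_pos, hz⟩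
  subst hx
  have s2 : (1 : Ω) - -1 = 2 := by norm_num
  refine ⟨3, ![-1, 2, 2⁻¹], ?_, ?_, ?_, ?_, ?_⟩
  · intro j
    fin_cases j
    · exact Rch.refl
    · have := (Rch.refl (x := (-1 : Ω))).sub
      rw [s2] at this
      exact this
    · have := (Rch.refl (x := (-1 : Ω))).sub.inv
      rw [s2] at this
      exact this
  · apply dist_of_lt
    · intro j
      fin_cases j
      · exact hPer _ (e1 1)
      · exact hPer _ (e2 1)
      · exact hPer _ (e3 1)
    · intro i j hij
      fin_cases i <;> fin_cases j <;> simp at hij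
      · rintro ⟨k, hk⟩
        have hk' : (2 : Ω) = (-1) ^ q ^ k := hk
        rw [e1] at hk'
        apply h3
        linear_combination hk'
      · rintro ⟨k, hk⟩
        have hk' : (2⁻¹ : Ω) = (-1) ^ q ^ k := hk
        rw [e1] at hk'
        field_simp at hk'
        apply h3
        linear_combination hk'
      · rintro ⟨k, hk⟩
        have hk' : (2⁻¹ : Ω) = 2 ^ q ^ k := hk
        rw [e2] at hk'
        field_simp at hk'
        apply h3
        linear_combination -hk'
  · intro j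
    fin_cases j
    · refine ⟨0, Cj.of_eq ?_⟩
      show (-1 : Ω)⁻¹ = -1
      norm_num
    · exact ⟨2, Cj.refl _⟩
    · refine ⟨1, Cj.of_eq ?_⟩
      show (2⁻¹ : Ω)⁻¹ = 2
      rw [inv_inv]
  · intro j
    fin_cases j
    · exact ⟨1, Cj.of_eq s2⟩
    · refine ⟨0, Cj.of_eq ?_⟩
      show (1 : Ω) - 2 = -1
      norm_num
    · refine ⟨2, Cj.of_eq ?_⟩
      show (1 : Ω) - 2⁻¹ = 2⁻¹
      field_simp
      norm_num
  · exact Or.inr (Or.inl ⟨rfl, Or.inl ⟨0, rfl⟩⟩)

/-- `1/x` and `1 - x` conjugate to `x`: a root -/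
theorem root_of_AB_q (hp : 5 ≤ p) (hq : ∃ g, q = p ^ g) {x : Ω} (h0 : x ≠ 0) (h1 : x ≠ 1) (hA : Cj q x x⁻¹)
    (hB : Cj q x (1 - x)) : x ^ 2 - x + 1 = 0 := by
  obtain ⟨i, hi⟩ := hA
  obtain ⟨j, hj⟩ := hB
  exact (orb_core_q hp hq h0 h1 hi hj).1

/-- an involution -/
theorem blk_A_q (hp : 5 ≤ p) (hq : ∃ g, q = p ^ g) {x : Ω} (h0 : x ≠ 0) (h1 : x ≠ 1) (hx : Per q x)
    (hr : x ^ 2 - x + 1 ≠ 0) (hA : Cj q x x⁻¹) : ∃ n y, Blk q x n y := by
  by_cases hfix : x⁻¹ = x
  · have hxx : x * x = 1 := by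
      nth_rewrite 1 [← hfix]
      exact inv_mul_cancel₀ h0
    rcases mul_self_eq_one_iff.mp hxx with h | h
    · exact absurd h h1
    · exact blk_wief_q hp hq h
  -- the even degree
  have hev : ∀ f, x ^ q ^ f = x → Even f := by
    intro f hf
    obtain ⟨k, hk⟩ := hA
    have h2 : (fun y : Ω => y⁻¹)^[2] x = x := by simp
    exact even_iff_two_dvd.mpr (period Nat.prime_two (fun y => y⁻¹)
      (fun y m => (inv_pow y _).symm) h2 hk hfix hf)
  have hsubne : (1 - x) ≠ 0 := sub_ne_zero.mpr (Ne.symm h1)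
  refine ⟨3, ![x, 1 - x, (1 - x)⁻¹], ?_, ?_, ?_, ?_, ?_⟩
  · intro j
    fin_cases j
    · exact Rch.refl
    · exact Rch.refl.sub
    · exact Rch.refl.sub.inv
  · apply dist_of_lt
    · intro j
      fin_cases j
      · exact hx
      · exact hx.subq hq
      · exact (hx.subq hq).inv
    · intro i j hij
      fin_cases i <;> fin_cases j <;> simp at hij
      · intro hc
        exact hr (root_of_AB_q hp hq h0 h1 hA hc)
      · intro hc
        have hc' : Cj q x (1 - x)⁻¹ := hc
        have h2 := hc'.inv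
        rw [inv_inv] at h2
        exact hr (root_of_AB_q hp hq h0 h1 hA (hA.trans h2))
      · intro hc
        have hc' : Cj q (1 - x) (1 - x)⁻¹ := hc
        have h2 := hc'.subq hq
        rw [sub_sub_cancel, bab h0 h1] at h2
        have h3 := h2.inv
        rw [inv_inv] at h3
        -- `z = x⁻¹`: `Cj z (1 - z)`, `Cj z z⁻¹`
        have h4 : Cj q x⁻¹ (x⁻¹)⁻¹ := by
          rw [inv_inv]
          exact hA.symm hx
        have h5 := root_of_AB_q hp hq (inv_ne_zero h0) (fun h => h1 (inv_eq_one.mp h)) h4 h3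
        exact hr (root_inv h0 h5)
  · intro j
    fin_cases j
    · exact ⟨0, hA.symm hx⟩
    · exact ⟨2, Cj.refl _⟩
    · refine ⟨1, Cj.of_eq ?_⟩
      show ((1 - x)⁻¹)⁻¹ = 1 - x
      rw [inv_inv]
  · intro j
    fin_cases j
    · exact ⟨1, Cj.refl _⟩
    · refine ⟨0, Cj.of_eq ?_⟩
      show 1 - (1 - x) = x
      ring
    · refine ⟨2, ?_⟩
      show Cj q (1 - (1 - x)⁻¹) (1 - x)⁻¹
      rw [bab h0 h1]
      exact ((hA.symm hx).subq hq).inv
  · refine Or.inr (Or.inl ⟨rfl, Or.inr ?_⟩)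
    intro j f hf
    fin_cases j
    · exact hev f hf
    · have hf' : (1 - x) ^ q ^ f = 1 - x := hf
      rw [sub_pow_q hq, one_pow] at hf'
      exact hev f (by linear_combination -hf')
    · have hf' : (1 - x)⁻¹ ^ q ^ f = (1 - x)⁻¹ := hf
      rw [inv_pow, inv_inj, sub_pow_q hq, one_pow] at hf'
      exact hev f (by linear_combination -hf')

/-- a rotation -/
theorem blk_R_q (hp : 5 ≤ p) (hq : ∃ g, q = p ^ g) {x : Ω} (h0 : x ≠ 0) (h1 : x ≠ 1) (hx : Per q x)
    (hr : x ^ 2 - x + 1 ≠ 0) (hR : Cj q x (1 - x⁻¹)) : ∃ n y, Blk q x n y := by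
  have hx1 : x - 1 ≠ 0 := sub_ne_zero.mpr h1
  have hsub1 : 1 - x ≠ 0 := sub_ne_zero.mpr (Ne.symm h1)
  have hRR : 1 - (1 - x⁻¹)⁻¹ = (1 - x)⁻¹ := bcx h0 h1
  -- the other rotation
  have hR' : Cj q x (1 - x)⁻¹ := by
    have h2 := hR.inv.subq hq
    rw [hRR] at h2
    exact hR.trans h2
  have hcomm : ∀ (y : Ω) (k : ℕ), 1 - (y ^ q ^ k)⁻¹ = (1 - y⁻¹) ^ q ^ k := by
    intro y k
    rw [sub_pow_q hq, one_pow, inv_pow]
  have hfix : 1 - x⁻¹ ≠ x := by
    intro h
    apply hr
    field_simp at h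
    linear_combination -h
  have h3x : (fun y : Ω => 1 - y⁻¹)^[3] x = x := by
    show 1 - (1 - (1 - x⁻¹)⁻¹)⁻¹ = x
    rw [hRR, inv_inv]
    ring
  have hdiv : ∀ f, x ^ q ^ f = x → 3 ∣ f := by
    intro f hf
    obtain ⟨k, hk⟩ := hR
    exact period Nat.prime_three (fun y => 1 - y⁻¹) hcomm h3x hk hfix hf
  refine ⟨2, ![x, x⁻¹], ?_, ?_, ?_, ?_, ?_⟩
  · intro j
    fin_cases j
    · exact Rch.refl
    · exact Rch.refl.inv
  · apply dist_of_lt
    · intro j
      fin_cases j
      · exact hx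
      · exact hx.inv
    · intro i j hij
      fin_cases i <;> fin_cases j <;> simp at hij
      intro hA
      have hA' : Cj q x x⁻¹ := hA
      have h4 : Cj q x⁻¹ (x⁻¹)⁻¹ := by
        rw [inv_inv]
        exact hA'.symm hx
      have h5 : Cj q x⁻¹ (1 - x⁻¹) := (hA'.symm hx).trans hR
      exact hr (root_inv h0 (root_of_AB_q hp hq (inv_ne_zero h0) (fun h => h1 (inv_eq_one.mp h)) h4 h5))
  · intro j
    fin_cases j
    · exact ⟨1, Cj.refl _⟩
    · refine ⟨0, Cj.of_eq ?_⟩
      show (x⁻¹)⁻¹ = x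
      rw [inv_inv]
  · intro j
    fin_cases j
    · refine ⟨1, ?_⟩
      show Cj q (1 - x) x⁻¹
      have h6 := (hR'.symm hx).inv
      rw [inv_inv] at h6
      exact h6
    · exact ⟨0, hR.symm hx⟩
  · refine Or.inr (Or.inr (Or.inl ⟨rfl, Or.inr ?_⟩))
    intro j f hf
    fin_cases j
    · exact hdiv f hf
    · have hf' : x⁻¹ ^ q ^ f = x⁻¹ := hf
      rw [inv_pow, inv_inj] at hf'
      exact hdiv f hf'

/-- the free case -/
theorem blk_free_q (hq : ∃ g, q = p ^ g) {x : Ω} (h0 : x ≠ 0) (h1 : x ≠ 1) (hx : Per q x)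
    (hA : ¬ Cj q x x⁻¹) (hB : ¬ Cj q x (1 - x)) (hC : ¬ Cj q x (1 - x⁻¹)⁻¹)
    (hR : ¬ Cj q x (1 - x⁻¹)) (hR' : ¬ Cj q x (1 - x)⁻¹) : ∃ n y, Blk q x n y := by
  have e1 := bab h0 h1
  have e2 := bcx h0 h1
  have e3 := acx h0 h1
  refine ⟨6, ![x, x⁻¹, 1 - x, 1 - x⁻¹, (1 - x)⁻¹, (1 - x⁻¹)⁻¹], ?_, ?_, ?_, ?_, ?_⟩
  · intro j
    fin_cases j
    · exact Rch.refl
    · exact Rch.refl.inv
    · exact Rch.refl.sub
    · exact Rch.refl.inv.sub
    · exact Rch.refl.sub.inv
    · exact Rch.refl.inv.sub.inv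
  · apply dist_of_lt
    · intro j
      fin_cases j
      · exact hx
      · exact hx.inv
      · exact hx.subq hq
      · exact hx.inv.subq hq
      · exact (hx.subq hq).inv
      · exact (hx.inv.subq hq).inv
    · intro i j hij
      fin_cases i <;> fin_cases j <;> simp at hij
      · exact hA
      · exact hB
      · exact hR
      · exact hR'
      · exact hC
      · intro hc
        have h := Cj.inv (show Cj q x⁻¹ (1 - x) from hc)
        rw [inv_inv] at h
        exact hR' h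
      · intro hc
        have h := Cj.inv (show Cj q x⁻¹ (1 - x⁻¹) from hc)
        rw [inv_inv] at h
        exact hC h
      · intro hc
        have h := Cj.inv (show Cj q x⁻¹ (1 - x)⁻¹ from hc)
        rw [inv_inv, inv_inv] at h
        exact hB h
      · intro hc
        have h := Cj.inv (show Cj q x⁻¹ (1 - x⁻¹)⁻¹ from hc)
        rw [inv_inv, inv_inv] at h
        exact hR h
      · intro hc
        have h := Cj.subq hq (show Cj q (1 - x) (1 - x⁻¹) from hc)
        rw [sub_sub_cancel, sub_sub_cancel] at h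
        exact hA h
      · intro hc
        have h := Cj.subq hq (show Cj q (1 - x) (1 - x)⁻¹ from hc)
        rw [sub_sub_cancel, e1] at h
        exact hC h
      · intro hc
        have h := Cj.subq hq (show Cj q (1 - x) (1 - x⁻¹)⁻¹ from hc)
        rw [sub_sub_cancel, e2] at h
        exact hR' h
      · intro hc
        have h := Cj.inv (Cj.subq hq (show Cj q (1 - x⁻¹) (1 - x)⁻¹ from hc))
        rw [sub_sub_cancel, inv_inv, e3] at h
        exact hR h
      · intro hc
        have h := Cj.inv (Cj.subq hq (show Cj q (1 - x⁻¹) (1 - x⁻¹)⁻¹ from hc))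
        rw [sub_sub_cancel, inv_inv, e2, inv_inv] at h
        exact hB h
      · intro hc
        have h := Cj.subq hq (Cj.inv (show Cj q (1 - x)⁻¹ (1 - x⁻¹)⁻¹ from hc))
        rw [inv_inv, inv_inv, sub_sub_cancel, sub_sub_cancel] at h
        exact hA h
  · intro j
    fin_cases j
    · exact ⟨1, Cj.refl _⟩
    · exact ⟨0, Cj.of_eq (inv_inv x)⟩
    · exact ⟨4, Cj.refl _⟩
    · exact ⟨5, Cj.refl _⟩
    · exact ⟨2, Cj.of_eq (inv_inv (1 - x))⟩
    · exact ⟨3, Cj.of_eq (inv_inv (1 - x⁻¹))⟩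
  · intro j
    fin_cases j
    · exact ⟨2, Cj.refl _⟩
    · exact ⟨3, Cj.refl _⟩
    · exact ⟨0, Cj.of_eq (sub_sub_cancel 1 x)⟩
    · exact ⟨1, Cj.of_eq (sub_sub_cancel 1 x⁻¹)⟩
    · exact ⟨5, Cj.of_eq e1⟩
    · exact ⟨4, Cj.of_eq e2⟩
  · exact Or.inl rfl

/-- THE ORBIT LEMMA -/
theorem orbit_q (hp : 5 ≤ p) (hq : ∃ g, q = p ^ g) {x : Ω} (h0 : x ≠ 0) (h1 : x ≠ 1) (hx : Per q x) :
    ∃ n y, Blk q x n y := by
  by_cases hr : x ^ 2 - x + 1 = 0
  · exact blk_root_q hp hq h0 h1 hx hr
  by_cases hA : Cj q x x⁻¹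
  · exact blk_A_q hp hq h0 h1 hx hr hA
  by_cases hR : Cj q x (1 - x⁻¹)
  · exact blk_R_q hp hq h0 h1 hx hr hR
  by_cases hR' : Cj q x (1 - x)⁻¹
  · -- the other rotation
    exfalso
    apply hR
    have h2 := (hR'.subq hq).inv
    rw [acx h0 h1] at h2
    exact hR'.trans h2
  by_cases hC : Cj q x (1 - x⁻¹)⁻¹
  · -- base point `1 - x`
    have hn := (Rch.refl (x := x)).sub.ne h0 h1
    obtain ⟨n, y, hb⟩ := blk_A_q (p := p) (q := q) hp hq hn.1 hn.2 (hx.subq hq)
      (by rw [root_sub]; exact hr) (by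
      have h2 := hC.subq hq
      rwa [bcx h0 h1] at h2)
    exact ⟨n, y, hb.mono Rch.refl.sub⟩
  by_cases hB : Cj q x (1 - x)
  · -- base point `(1 - x⁻¹)⁻¹`
    have hn := (Rch.refl (x := x)).inv.sub.inv.ne h0 h1
    obtain ⟨n, y, hb⟩ := blk_A_q (p := p) (q := q) hp hq hn.1 hn.2 (hx.inv.subq hq).inv (by
      intro h
      apply hr
      have h4 : (1 - x⁻¹) ^ 2 - (1 - x⁻¹) + 1 = 0 := by
        have h5 := root_inv (x := (1 - x⁻¹)) (by
          intro h6
          apply hn.1
          rw [h6, inv_zero]) h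
        exact h5
      rw [root_sub] at h4
      exact root_inv h0 h4) (by
      rw [inv_inv]
      have h2 := hB.inv.subq hq
      -- `Cj (1 - x⁻¹) (1 - (1-x)⁻¹)`
      rw [bab h0 h1] at h2
      exact h2.symm (hx.inv.subq hq))
    exact ⟨n, y, hb.mono Rch.refl.inv.sub.inv⟩
  exact blk_free_q hq h0 h1 hx hA hB hC hR hR'

end blocks

end H85FD

end

section

/-!
# The orbit lemma with the cubic classes separated

`orbit_c`: as `orbit_q`; the roots of `X² - X + 1` are exactly the members of the blocks of the first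
two kinds.
-/

namespace H85FD

open Finset

variable {Ω : Type*} [Field Ω]

/-- the kind of a block, the roots of `X² - X + 1` separated -/
def KindC (q : ℕ) (x : Ω) (n : ℕ) (y : Fin n → Ω) : Prop :=
  (x ^ 2 - x + 1 = 0 ∧ ((n = 1 ∧ q % 3 = 2 ∧ ∀ j f, y j ^ q ^ f = y j → Even f) ∨
    (n = 2 ∧ q % 3 = 1))) ∨
  (x ^ 2 - x + 1 ≠ 0 ∧ (n = 6 ∨ (n = 3 ∧ ((∃ j, y j = -1) ∨ ∀ j f, y j ^ q ^ f = y j → Even f)) ∨
    (n = 2 ∧ ∀ j f, y j ^ q ^ f = y j → 3 ∣ f)))

/-- a block of Frobenius orbits -/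
structure BlkC (q : ℕ) (x : Ω) (n : ℕ) (y : Fin n → Ω) : Prop where
  rch : ∀ j, Rch x (y j)
  dist : ∀ i j, Cj q (y i) (y j) → i = j
  inv : ∀ j, ∃ j', Cj q (y j)⁻¹ (y j')
  sub : ∀ j, ∃ j', Cj q (1 - y j) (y j')
  kind : KindC q x n y

/-- roots of `X² - X + 1` are preserved by the anharmonic group -/
theorem Rch.root_iff {x y : Ω} (h : Rch x y) (h0 : x ≠ 0) (h1 : x ≠ 1) :
    x ^ 2 - x + 1 = 0 ↔ y ^ 2 - y + 1 = 0 := by
  induction h with
  | refl => rfl
  | @inv y hy ih =>
    rw [ih]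
    have hy0 := (hy.ne h0 h1).1
    constructor
    · intro h
      field_simp
      linear_combination h
    · intro h
      field_simp at h
      linear_combination h
  | @sub y hy ih =>
    rw [ih, root_sub]

theorem BlkC.mono {q : ℕ} {x x' : Ω} (h0 : x ≠ 0) (h1 : x ≠ 1) {n : ℕ} {y : Fin n → Ω}
    (h : Rch x x') (hb : BlkC q x' n y) : BlkC q x n y := by
  refine ⟨fun j => h.trans (hb.rch j), hb.dist, hb.inv, hb.sub, ?_⟩
  rcases hb.kind with ⟨h2, h3⟩ | ⟨h2, h3⟩
  · exact Or.inl ⟨(h.root_iff h0 h1).mpr h2, h3⟩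
  · exact Or.inr ⟨fun h4 => h2 ((h.root_iff h0 h1).mp h4), h3⟩

section blocks

variable {p q : ℕ} [Fact p.Prime] [CharP Ω p]

/-- roots of `X² - X + 1` -/
theorem blk_root_c (hp : 5 ≤ p) (hq : ∃ g, q = p ^ g) {x : Ω} (h0 : x ≠ 0) (h1 : x ≠ 1) (hx : Per q x)
    (hr : x ^ 2 - x + 1 = 0) : ∃ n y, BlkC q x n y := by
  have hinv : x⁻¹ = 1 - x := by
    field_simp
    linear_combination hr
  have hne := H52FD.root_ne_inv hp hr
  obtain ⟨hf1, hf2⟩ := root_frob_q hp hq hr
  have hpp : p.Prime := Fact.out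
  have h3 : q % 3 = 0 ∨ q % 3 = 1 ∨ q % 3 = 2 := by omega
  rcases h3 with h3 | h3 | h3
  · exact absurd h3 (three_q hp hq)
  · refine ⟨2, ![x, 1 - x], ?_, ?_, ?_, ?_, ?_⟩
    · intro j
      fin_cases j
      · exact Rch.refl
      · exact Rch.refl.sub
    · apply dist_of_lt
      · intro j
        fin_cases j
        · exact hx
        · exact hx.subq hq
      · intro i j hij
        fin_cases i <;> fin_cases j <;> simp at hij
        rintro ⟨k, hk⟩
        have hk' : 1 - x = x ^ q ^ k := hk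
        have hall : ∀ k, x ^ q ^ k = x := by
          intro k
          induction k with
          | zero => simp
          | succ k ih => rw [pow_succ, pow_mul, ih, hf1 h3]
        rw [hall, ← hinv] at hk'
        exact hne hk'
    · intro j
      fin_cases j
      · exact ⟨1, Cj.of_eq hinv⟩
      · refine ⟨0, Cj.of_eq ?_⟩
        show (1 - x)⁻¹ = x
        rw [← hinv, inv_inv]
    · intro j
      fin_cases j
      · exact ⟨1, Cj.refl _⟩
      · refine ⟨0, Cj.of_eq ?_⟩
        show 1 - (1 - x) = x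
        ring
    · exact Or.inl ⟨hr, Or.inr ⟨rfl, h3⟩⟩
  · have hi : x⁻¹ = x ^ q ^ 1 := by rw [pow_one, hf2 h3]
    have hj : 1 - x = x ^ q ^ 1 := by rw [← hinv, hi]
    have hev := (orb_core_q hp hq h0 h1 hi hj).2.2
    refine ⟨1, ![x], ?_, ?_, ?_, ?_, ?_⟩
    · intro j
      fin_cases j
      exact Rch.refl
    · intro i j _
      exact Subsingleton.elim i j
    · intro j
      fin_cases j
      exact ⟨0, Cj.symm hx ⟨1, hi⟩⟩
    · intro j
      fin_cases j
      exact ⟨0, Cj.symm hx ⟨1, hj⟩⟩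
    · refine Or.inl ⟨hr, Or.inl ⟨rfl, h3, ?_⟩⟩
      intro j f hf
      fin_cases j
      exact hev f hf

/-- the values `-1, 2, 1/2` -/
theorem blk_wief_c (hp : 5 ≤ p) (hq : ∃ g, q = p ^ g) {x : Ω} (hx : x = -1) :
    ∃ n y, BlkC q x n y := by
  have h3 : (3 : Ω) ≠ 0 := H52FD.three_ne hp
  have h2 : (2 : Ω) ≠ 0 := by
    intro h
    have h' : ((2 : ℕ) : Ω) = 0 := by exact_mod_cast h
    rw [CharP.cast_eq_zero_iff Ω p] at h'
    have := Nat.le_of_dvd (by norm_num) h'
    omega
  have e2 : ∀ k, (2 : Ω) ^ q ^ k = 2 := fun k => by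
    have := natCast_pow_q (Ω := Ω) hq 2 k
    exact_mod_cast this
  have e1 : ∀ k, (-1 : Ω) ^ q ^ k = -1 := fun k => by
    rw [((odd_q hp hq).pow).neg_one_pow]
  have e3 : ∀ k, (2⁻¹ : Ω) ^ q ^ k = 2⁻¹ := fun k => by rw [inv_pow, e2]
  have hPer : ∀ z : Ω, z ^ q ^ 1 = z → Per q z := fun z hz => ⟨1, one_pos, hz⟩
  subst hx
  have s2 : (1 : Ω) - -1 = 2 := by norm_num
  refine ⟨3, ![-1, 2, 2⁻¹], ?_, ?_, ?_, ?_, ?_⟩
  · intro j
    fin_cases j
    · exact Rch.refl
    · have := (Rch.refl (x := (-1 : Ω))).sub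
      rw [s2] at this
      exact this
    · have := (Rch.refl (x := (-1 : Ω))).sub.inv
      rw [s2] at this
      exact this
  · apply dist_of_lt
    · intro j
      fin_cases j
      · exact hPer _ (e1 1)
      · exact hPer _ (e2 1)
      · exact hPer _ (e3 1)
    · intro i j hij
      fin_cases i <;> fin_cases j <;> simp at hij
      · rintro ⟨k, hk⟩
        have hk' : (2 : Ω) = (-1) ^ q ^ k := hk
        rw [e1] at hk'
        apply h3
        linear_combination hk'
      · rintro ⟨k, hk⟩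
        have hk' : (2⁻¹ : Ω) = (-1) ^ q ^ k := hk
        rw [e1] at hk'
        field_simp at hk'
        apply h3
        linear_combination hk'
      · rintro ⟨k, hk⟩
        have hk' : (2⁻¹ : Ω) = 2 ^ q ^ k := hk
        rw [e2] at hk'
        field_simp at hk'
        apply h3
        linear_combination -hk'
  · intro j
    fin_cases j
    · refine ⟨0, Cj.of_eq ?_⟩
      show (-1 : Ω)⁻¹ = -1
      norm_num
    · exact ⟨2, Cj.refl _⟩
    · refine ⟨1, Cj.of_eq ?_⟩
      show (2⁻¹ : Ω)⁻¹ = 2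
      rw [inv_inv]
  · intro j
    fin_cases j
    · exact ⟨1, Cj.of_eq s2⟩
    · refine ⟨0, Cj.of_eq ?_⟩
      show (1 : Ω) - 2 = -1
      norm_num
    · refine ⟨2, Cj.of_eq ?_⟩
      show (1 : Ω) - 2⁻¹ = 2⁻¹
      field_simp
      norm_num
  · refine Or.inr ⟨?_, Or.inr (Or.inl ⟨rfl, Or.inl ⟨0, rfl⟩⟩)⟩
    intro h
    apply h3
    linear_combination h

/-- an involution -/
theorem blk_A_c (hp : 5 ≤ p) (hq : ∃ g, q = p ^ g) {x : Ω} (h0 : x ≠ 0) (h1 : x ≠ 1) (hx : Per q x)
    (hr : x ^ 2 - x + 1 ≠ 0) (hA : Cj q x x⁻¹) : ∃ n y, BlkC q x n y := by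
  by_cases hfix : x⁻¹ = x
  · have hxx : x * x = 1 := by
      nth_rewrite 1 [← hfix]
      exact inv_mul_cancel₀ h0
    rcases mul_self_eq_one_iff.mp hxx with h | h
    · exact absurd h h1
    · exact blk_wief_c hp hq h
  -- the even degree
  have hev : ∀ f, x ^ q ^ f = x → Even f := by
    intro f hf
    obtain ⟨k, hk⟩ := hA
    have h2 : (fun y : Ω => y⁻¹)^[2] x = x := by simp
    exact even_iff_two_dvd.mpr (period Nat.prime_two (fun y => y⁻¹)
      (fun y m => (inv_pow y _).symm) h2 hk hfix hf)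
  have hsubne : (1 - x) ≠ 0 := sub_ne_zero.mpr (Ne.symm h1)
  refine ⟨3, ![x, 1 - x, (1 - x)⁻¹], ?_, ?_, ?_, ?_, ?_⟩
  · intro j
    fin_cases j
    · exact Rch.refl
    · exact Rch.refl.sub
    · exact Rch.refl.sub.inv
  · apply dist_of_lt
    · intro j
      fin_cases j
      · exact hx
      · exact hx.subq hq
      · exact (hx.subq hq).inv
    · intro i j hij
      fin_cases i <;> fin_cases j <;> simp at hij
      · intro hc
        exact hr (root_of_AB_q hp hq h0 h1 hA hc)
      · intro hc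
        have hc' : Cj q x (1 - x)⁻¹ := hc
        have h2 := hc'.inv
        rw [inv_inv] at h2
        exact hr (root_of_AB_q hp hq h0 h1 hA (hA.trans h2))
      · intro hc
        have hc' : Cj q (1 - x) (1 - x)⁻¹ := hc
        have h2 := hc'.subq hq
        rw [sub_sub_cancel, bab h0 h1] at h2
        have h3 := h2.inv
        rw [inv_inv] at h3
        -- `z = x⁻¹`: `Cj z (1 - z)`, `Cj z z⁻¹`
        have h4 : Cj q x⁻¹ (x⁻¹)⁻¹ := by
          rw [inv_inv]
          exact hA.symm hx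
        have h5 := root_of_AB_q hp hq (inv_ne_zero h0) (fun h => h1 (inv_eq_one.mp h)) h4 h3
        exact hr (root_inv h0 h5)
  · intro j
    fin_cases j
    · exact ⟨0, hA.symm hx⟩
    · exact ⟨2, Cj.refl _⟩
    · refine ⟨1, Cj.of_eq ?_⟩
      show ((1 - x)⁻¹)⁻¹ = 1 - x
      rw [inv_inv]
  · intro j
    fin_cases j
    · exact ⟨1, Cj.refl _⟩
    · refine ⟨0, Cj.of_eq ?_⟩
      show 1 - (1 - x) = x
      ring
    · refine ⟨2, ?_⟩
      show Cj q (1 - (1 - x)⁻¹) (1 - x)⁻¹
      rw [bab h0 h1]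
      exact ((hA.symm hx).subq hq).inv
  · refine Or.inr ⟨hr, Or.inr (Or.inl ⟨rfl, Or.inr ?_⟩)⟩
    intro j f hf
    fin_cases j
    · exact hev f hf
    · have hf' : (1 - x) ^ q ^ f = 1 - x := hf
      rw [sub_pow_q hq, one_pow] at hf'
      exact hev f (by linear_combination -hf')
    · have hf' : (1 - x)⁻¹ ^ q ^ f = (1 - x)⁻¹ := hf
      rw [inv_pow, inv_inj, sub_pow_q hq, one_pow] at hf'
      exact hev f (by linear_combination -hf')

/-- a rotation -/
theorem blk_R_c (hp : 5 ≤ p) (hq : ∃ g, q = p ^ g) {x : Ω} (h0 : x ≠ 0) (h1 : x ≠ 1) (hx : Per q x)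
    (hr : x ^ 2 - x + 1 ≠ 0) (hR : Cj q x (1 - x⁻¹)) : ∃ n y, BlkC q x n y := by
  have hx1 : x - 1 ≠ 0 := sub_ne_zero.mpr h1
  have hsub1 : 1 - x ≠ 0 := sub_ne_zero.mpr (Ne.symm h1)
  have hRR : 1 - (1 - x⁻¹)⁻¹ = (1 - x)⁻¹ := bcx h0 h1
  -- the other rotation
  have hR' : Cj q x (1 - x)⁻¹ := by
    have h2 := hR.inv.subq hq
    rw [hRR] at h2
    exact hR.trans h2
  have hcomm : ∀ (y : Ω) (k : ℕ), 1 - (y ^ q ^ k)⁻¹ = (1 - y⁻¹) ^ q ^ k := by
    intro y k
    rw [sub_pow_q hq, one_pow, inv_pow]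
  have hfix : 1 - x⁻¹ ≠ x := by
    intro h
    apply hr
    field_simp at h
    linear_combination -h
  have h3x : (fun y : Ω => 1 - y⁻¹)^[3] x = x := by
    show 1 - (1 - (1 - x⁻¹)⁻¹)⁻¹ = x
    rw [hRR, inv_inv]
    ring
  have hdiv : ∀ f, x ^ q ^ f = x → 3 ∣ f := by
    intro f hf
    obtain ⟨k, hk⟩ := hR
    exact period Nat.prime_three (fun y => 1 - y⁻¹) hcomm h3x hk hfix hf
  refine ⟨2, ![x, x⁻¹], ?_, ?_, ?_, ?_, ?_⟩
  · intro j
    fin_cases j
    · exact Rch.refl
    · exact Rch.refl.inv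
  · apply dist_of_lt
    · intro j
      fin_cases j
      · exact hx
      · exact hx.inv
    · intro i j hij
      fin_cases i <;> fin_cases j <;> simp at hij
      intro hA
      have hA' : Cj q x x⁻¹ := hA
      have h4 : Cj q x⁻¹ (x⁻¹)⁻¹ := by
        rw [inv_inv]
        exact hA'.symm hx
      have h5 : Cj q x⁻¹ (1 - x⁻¹) := (hA'.symm hx).trans hR
      exact hr (root_inv h0 (root_of_AB_q hp hq (inv_ne_zero h0) (fun h => h1 (inv_eq_one.mp h)) h4 h5))
  · intro j
    fin_cases j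
    · exact ⟨1, Cj.refl _⟩
    · refine ⟨0, Cj.of_eq ?_⟩
      show (x⁻¹)⁻¹ = x
      rw [inv_inv]
  · intro j
    fin_cases j
    · refine ⟨1, ?_⟩
      show Cj q (1 - x) x⁻¹
      have h6 := (hR'.symm hx).inv
      rw [inv_inv] at h6
      exact h6
    · exact ⟨0, hR.symm hx⟩
  · refine Or.inr ⟨hr, Or.inr (Or.inr ⟨rfl, ?_⟩)⟩
    intro j f hf
    fin_cases j
    · exact hdiv f hf
    · have hf' : x⁻¹ ^ q ^ f = x⁻¹ := hf
      rw [inv_pow, inv_inj] at hf'
      exact hdiv f hf'

/-- the free case -/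
theorem blk_free_c (hq : ∃ g, q = p ^ g) {x : Ω} (h0 : x ≠ 0) (h1 : x ≠ 1) (hx : Per q x)
    (hr : x ^ 2 - x + 1 ≠ 0)
    (hA : ¬ Cj q x x⁻¹) (hB : ¬ Cj q x (1 - x)) (hC : ¬ Cj q x (1 - x⁻¹)⁻¹)
    (hR : ¬ Cj q x (1 - x⁻¹)) (hR' : ¬ Cj q x (1 - x)⁻¹) : ∃ n y, BlkC q x n y := by
  have e1 := bab h0 h1
  have e2 := bcx h0 h1
  have e3 := acx h0 h1
  refine ⟨6, ![x, x⁻¹, 1 - x, 1 - x⁻¹, (1 - x)⁻¹, (1 - x⁻¹)⁻¹], ?_, ?_, ?_, ?_, ?_⟩
  · intro j
    fin_cases j
    · exact Rch.refl
    · exact Rch.refl.inv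
    · exact Rch.refl.sub
    · exact Rch.refl.inv.sub
    · exact Rch.refl.sub.inv
    · exact Rch.refl.inv.sub.inv
  · apply dist_of_lt
    · intro j
      fin_cases j
      · exact hx
      · exact hx.inv
      · exact hx.subq hq
      · exact hx.inv.subq hq
      · exact (hx.subq hq).inv
      · exact (hx.inv.subq hq).inv
    · intro i j hij
      fin_cases i <;> fin_cases j <;> simp at hij
      · exact hA
      · exact hB
      · exact hR
      · exact hR'
      · exact hC
      · intro hc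
        have h := Cj.inv (show Cj q x⁻¹ (1 - x) from hc)
        rw [inv_inv] at h
        exact hR' h
      · intro hc
        have h := Cj.inv (show Cj q x⁻¹ (1 - x⁻¹) from hc)
        rw [inv_inv] at h
        exact hC h
      · intro hc
        have h := Cj.inv (show Cj q x⁻¹ (1 - x)⁻¹ from hc)
        rw [inv_inv, inv_inv] at h
        exact hB h
      · intro hc
        have h := Cj.inv (show Cj q x⁻¹ (1 - x⁻¹)⁻¹ from hc)
        rw [inv_inv, inv_inv] at h
        exact hR h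
      · intro hc
        have h := Cj.subq hq (show Cj q (1 - x) (1 - x⁻¹) from hc)
        rw [sub_sub_cancel, sub_sub_cancel] at h
        exact hA h
      · intro hc
        have h := Cj.subq hq (show Cj q (1 - x) (1 - x)⁻¹ from hc)
        rw [sub_sub_cancel, e1] at h
        exact hC h
      · intro hc
        have h := Cj.subq hq (show Cj q (1 - x) (1 - x⁻¹)⁻¹ from hc)
        rw [sub_sub_cancel, e2] at h
        exact hR' h
      · intro hc
        have h := Cj.inv (Cj.subq hq (show Cj q (1 - x⁻¹) (1 - x)⁻¹ from hc))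
        rw [sub_sub_cancel, inv_inv, e3] at h
        exact hR h
      · intro hc
        have h := Cj.inv (Cj.subq hq (show Cj q (1 - x⁻¹) (1 - x⁻¹)⁻¹ from hc))
        rw [sub_sub_cancel, inv_inv, e2, inv_inv] at h
        exact hB h
      · intro hc
        have h := Cj.subq hq (Cj.inv (show Cj q (1 - x)⁻¹ (1 - x⁻¹)⁻¹ from hc))
        rw [inv_inv, inv_inv, sub_sub_cancel, sub_sub_cancel] at h
        exact hA h
  · intro j
    fin_cases j
    · exact ⟨1, Cj.refl _⟩
    · exact ⟨0, Cj.of_eq (inv_inv x)⟩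
    · exact ⟨4, Cj.refl _⟩
    · exact ⟨5, Cj.refl _⟩
    · exact ⟨2, Cj.of_eq (inv_inv (1 - x))⟩
    · exact ⟨3, Cj.of_eq (inv_inv (1 - x⁻¹))⟩
  · intro j
    fin_cases j
    · exact ⟨2, Cj.refl _⟩
    · exact ⟨3, Cj.refl _⟩
    · exact ⟨0, Cj.of_eq (sub_sub_cancel 1 x)⟩
    · exact ⟨1, Cj.of_eq (sub_sub_cancel 1 x⁻¹)⟩
    · exact ⟨5, Cj.of_eq e1⟩
    · exact ⟨4, Cj.of_eq e2⟩
  · exact Or.inr ⟨hr, Or.inl rfl⟩

/-- THE ORBIT LEMMA -/
theorem orbit_c (hp : 5 ≤ p) (hq : ∃ g, q = p ^ g) {x : Ω} (h0 : x ≠ 0) (h1 : x ≠ 1) (hx : Per q x) :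
    ∃ n y, BlkC q x n y := by
  by_cases hr : x ^ 2 - x + 1 = 0
  · exact blk_root_c hp hq h0 h1 hx hr
  by_cases hA : Cj q x x⁻¹
  · exact blk_A_c hp hq h0 h1 hx hr hA
  by_cases hR : Cj q x (1 - x⁻¹)
  · exact blk_R_c hp hq h0 h1 hx hr hR
  by_cases hR' : Cj q x (1 - x)⁻¹
  · -- the other rotation
    exfalso
    apply hR
    have h2 := (hR'.subq hq).inv
    rw [acx h0 h1] at h2
    exact hR'.trans h2
  by_cases hC : Cj q x (1 - x⁻¹)⁻¹
  · -- base point `1 - x`
    have hn := (Rch.refl (x := x)).sub.ne h0 h1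
    obtain ⟨n, y, hb⟩ := blk_A_c (p := p) (q := q) hp hq hn.1 hn.2 (hx.subq hq)
      (by rw [root_sub]; exact hr) (by
      have h2 := hC.subq hq
      rwa [bcx h0 h1] at h2)
    exact ⟨n, y, hb.mono h0 h1 Rch.refl.sub⟩
  by_cases hB : Cj q x (1 - x)
  · -- base point `(1 - x⁻¹)⁻¹`
    have hn := (Rch.refl (x := x)).inv.sub.inv.ne h0 h1
    obtain ⟨n, y, hb⟩ := blk_A_c (p := p) (q := q) hp hq hn.1 hn.2 (hx.inv.subq hq).inv (by
      intro h
      apply hr
      have h4 : (1 - x⁻¹) ^ 2 - (1 - x⁻¹) + 1 = 0 := by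
        have h5 := root_inv (x := (1 - x⁻¹)) (by
          intro h6
          apply hn.1
          rw [h6, inv_zero]) h
        exact h5
      rw [root_sub] at h4
      exact root_inv h0 h4) (by
      rw [inv_inv]
      have h2 := hB.inv.subq hq
      -- `Cj (1 - x⁻¹) (1 - (1-x)⁻¹)`
      rw [bab h0 h1] at h2
      exact h2.symm (hx.inv.subq hq))
    exact ⟨n, y, hb.mono h0 h1 Rch.refl.inv.sub.inv⟩
  exact blk_free_c hq h0 h1 hx hr hA hB hC hR hR'

end blocks

end H85FD

end

section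

/-!
# Division of a multiset into groups and parts
-/

namespace H85FD

open Finset

/-- `Div wt K M`: the multiset `M` can be divided into groups `G`, and each group `G` into `m` parts
`A 0, ..., A (m - 1)` of equal total weight, such that `K m G` holds. -/
inductive Div {α : Type*} (wt : α → ℕ) (K : ℕ → Multiset α → Prop) : Multiset α → Prop
  | nil : Div wt K 0
  | group (m : ℕ) (A : Fin m → Multiset α) (M : Multiset α) (hK : K m (∑ i, A i))
      (hA : ∀ i j, ((A i).map wt).sum = ((A j).map wt).sum) (h : Div wt K M) :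
      Div wt K (∑ i, A i + M)

theorem map_sum_fin {α β : Type*} {m : ℕ} (A : Fin m → Multiset α) (g : α → β) :
    (∑ i, A i).map g = ∑ i, (A i).map g := by
  have key : ∀ s : Finset (Fin m), (∑ i ∈ s, A i).map g = ∑ i ∈ s, (A i).map g := by
    intro s
    induction s using Finset.induction_on with
    | empty => rfl
    | insert a s ha ih => rw [sum_insert ha, sum_insert ha, Multiset.map_add, ih]
  exact key univ

/-- change of the weight and of the kinds, elementwise in the multiset -/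
theorem Div.mono {α : Type*} {wt wt' : α → ℕ} {K K' : ℕ → Multiset α → Prop} {M : Multiset α}
    (h : Div wt K M) (hwt : ∀ a ∈ M, wt' a = wt a)
    (hK : ∀ m G, (∀ a ∈ G, a ∈ M) → K m G → K' m G) : Div wt' K' M := by
  induction h with
  | nil => exact Div.nil
  | group m A M hk hA _ ih =>
    have h1 : ∀ i, (A i).map wt' = (A i).map wt := fun i => by
      refine Multiset.map_congr rfl fun a ha => ?_
      exact hwt a (Multiset.mem_add.mpr (Or.inl (Multiset.mem_sum.mpr ⟨i, mem_univ _, ha⟩)))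
    refine Div.group m A M ?_ (fun i j => ?_) (ih (fun a ha => hwt a
      (Multiset.mem_add.mpr (Or.inr ha))) fun m G hG hk' => hK m G (fun a ha =>
      Multiset.mem_add.mpr (Or.inr (hG a ha))) hk')
    · exact hK m _ (fun a ha => Multiset.mem_add.mpr (Or.inl ha)) hk
    · rw [h1, h1]
      exact hA i j

end H85FD

end

section

/-!
# Residue fields and sixth roots of unity
-/

open NumberField

namespace H87FD

/-- a finite field with a root of `x^2 - x + 1`, characteristic not three, has `q ≡ 1 mod 3` -/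
theorem card_mod_three (k : Type*) [Field k] [Finite k] (h3 : (3 : k) ≠ 0) (x : k)
    (hx : x ^ 2 - x + 1 = 0) : Nat.card k % 3 = 1 := by
  have hx3 : (-x) ^ 3 = 1 := by linear_combination (-(x + 1)) * hx
  have hx0 : -x ≠ 0 := by
    intro h
    rw [h] at hx3
    simp at hx3
  have hx1 : -x ≠ 1 := by
    intro h
    have h1 : x = -1 := by linear_combination -h
    rw [h1] at hx
    refine h3 ?_
    linear_combination hx
  set u : kˣ := Units.mk0 (-x) hx0 with hu
  have hu3 : u ^ 3 = 1 := by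
    ext
    rw [hu]
    simpa using hx3
  have hu1 : u ≠ 1 := by
    intro h
    have := congrArg Units.val h
    rw [hu] at this
    exact hx1 (by simpa using this)
  haveI : Fact (Nat.Prime 3) := ⟨Nat.prime_three⟩
  have hord : orderOf u = 3 := orderOf_eq_prime hu3 hu1
  have hdvd : 3 ∣ Nat.card kˣ := by
    rw [← hord]
    exact orderOf_dvd_natCard u
  rw [Nat.card_units] at hdvd
  have hpos : 0 < Nat.card k := Nat.card_pos
  omega

end H87FD

end

section

/-!
# The Frobenius density theorem: upper densities and the residue degrees in subfields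

`frob_upper`: for `L / ℚ` Galois, `g` in the group, `σ₀ : K → L` an embedding and `B` a set of primes of density
zero, the primes `p` outside `B` such that `K` has a prime above `p` whose residue degree is the length of the
orbit of `σ₀` under `g` (and `p ≡ 1` modulo `3` if `g` fixes the cube roots of unity in `L`) have upper density at
least `1 / [L : ℚ]` among the primes.
-/

set_option autoImplicit false
set_option linter.unusedSectionVars false

open scoped Pointwise NumberField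
open MulAction Ideal Finset Filter

namespace Pool.Agent.H89.FrobD

section dens

variable (L : Type) [Field L] [NumberField L] [IsGalois ℚ L]

end dens

section orbit

variable {L : Type} [Field L] [NumberField L] [IsGalois ℚ L] {K : Type*} [Field K] [NumberField K]

/-- the action of `g` on the embeddings -/
def act (g : Gal(L/ℚ)) (σ : K →ₐ[ℚ] L) : K →ₐ[ℚ] L := (g : L →ₐ[ℚ] L).comp σ

theorem act_iter (g : Gal(L/ℚ)) (σ : K →ₐ[ℚ] L) (n : ℕ) :
    (act g)^[n] σ = act (g ^ n) σ := by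
  induction n with
  | zero => ext x; rfl
  | succ n ih =>
    rw [Function.iterate_succ_apply', ih]
    ext x
    show g ((g ^ n) (σ x)) = (g ^ (n + 1)) (σ x)
    rw [pow_succ']
    rfl

theorem act_eq_iff (g : Gal(L/ℚ)) (σ : K →ₐ[ℚ] L) : act g σ = σ ↔ ∀ x : K, g (σ x) = σ x := by
  constructor
  · intro h x
    exact DFunLike.congr_fun h x
  · intro h
    ext x
    exact h x

/-- the part of `⟨g⟩` which fixes `σ₀ K` -/
theorem card_inf (g : Gal(L/ℚ)) (σ : K →ₐ[ℚ] L) (H : Subgroup Gal(L/ℚ))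
    (hH : ∀ τ : Gal(L/ℚ), τ ∈ H ↔ ∀ x : K, τ (σ x) = σ x) :
    Function.minimalPeriod (act g) σ * Nat.card (Subgroup.zpowers g ⊓ H : Subgroup Gal(L/ℚ)) =
      Nat.card (Subgroup.zpowers g) := by
  set m := Function.minimalPeriod (act g) σ with hm
  have hdvd : ∀ n : ℕ, g ^ n ∈ H ↔ m ∣ n := by
    intro n
    rw [hH, ← act_eq_iff, ← act_iter, hm, ← Function.isPeriodicPt_iff_minimalPeriod_dvd]
    rfl
  have hfin : IsOfFinOrder g := isOfFinOrder_of_finite g
  have hmo : m ∣ orderOf g := by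
    rw [← hdvd, pow_orderOf_eq_one]
    exact H.one_mem
  have hopos : 0 < orderOf g := orderOf_pos g
  have hm0 : m ≠ 0 := fun h => by
    rw [h, zero_dvd_iff] at hmo
    omega
  have hinf : (Subgroup.zpowers g ⊓ H : Subgroup Gal(L/ℚ)) = Subgroup.zpowers (g ^ m) := by
    ext τ
    rw [Subgroup.mem_inf]
    constructor
    · rintro ⟨h1, h2⟩
      rw [← hfin.mem_powers_iff_mem_zpowers] at h1
      obtain ⟨n, rfl⟩ := h1
      obtain ⟨k, rfl⟩ := (hdvd n).1 h2
      show g ^ (m * k) ∈ _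
      rw [pow_mul]
      exact Subgroup.pow_mem _ (Subgroup.mem_zpowers _) k
    · intro h
      have h1 : Subgroup.zpowers (g ^ m) ≤ Subgroup.zpowers g ⊓ H := by
        rw [Subgroup.zpowers_le, Subgroup.mem_inf]
        exact ⟨Subgroup.pow_mem _ (Subgroup.mem_zpowers g) m, (hdvd m).2 dvd_rfl⟩
      exact (Subgroup.mem_inf.1 (h1 h))
  rw [hinf, Nat.card_zpowers, Nat.card_zpowers, orderOf_pow_of_dvd hm0 hmo, Nat.mul_div_cancel' hmo]

end orbit

end Pool.Agent.H89.FrobD

end

section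

/-!
# Frobenius density: the local identity

`C / A` Galois with group `G`, `C / B` Galois with group `H ≤ G`, `p` a prime of `A` which is unramified in `C`
(trivial inertia groups).  The prime `v` of `B` below `Q` has residue degree `[D(Q) : D(Q) ∩ H]` over `A`, and
`Σ_(Q | p, D(Q) ≤ H) #D(Q) = #H · #{v | p of degree one}`.
-/

set_option linter.unusedSectionVars false

open scoped Pointwise
open MulAction Ideal Finset

namespace Pool.Agent.H89.FrobD

section loc

variable {A B C G : Type*} [CommRing A] [CommRing B] [CommRing C] [IsDomain A] [IsDomain B] [IsDomain C]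
  [Algebra A B] [Algebra B C] [Algebra A C] [IsScalarTower A B C]
  [Group G] [Finite G] [MulSemiringAction G C] [IsGaloisGroup G A C] (H : Subgroup G)
  [IsGaloisGroup H B C]

/-- the stabilizer in a subgroup -/
theorem card_stab (Q : Ideal C) :
    Nat.card (stabilizer H Q) = Nat.card ((stabilizer G Q).subgroupOf H) := by
  have : stabilizer H Q = (stabilizer G Q).subgroupOf H := by
    ext g
    simp [Subgroup.mem_subgroupOf, Subgroup.smul_def]
  rw [this]

theorem card_stab_inf (Q : Ideal C) :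
    Nat.card (stabilizer H Q) = Nat.card (stabilizer G Q ⊓ H : Subgroup G) := by
  rw [card_stab]
  exact Nat.card_congr (Subgroup.subgroupOfEquivOfLe inf_le_right |>.toEquiv.symm.trans
    (by rw [Subgroup.inf_subgroupOf_right]) |>.symm)

/-- the residue degree of the prime below, in terms of decomposition groups -/
theorem deg_mul (p : Ideal A) [p.IsPrime] (Q : Ideal C) [Q.IsPrime] [Q.LiesOver p]
    [PerfectField p.ResidueField] (v : Ideal B) [v.IsPrime] [Q.LiesOver v] [PerfectField v.ResidueField]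
    (hun : Nat.card (Ideal.inertia G Q) = 1) :
    v.inertiaDeg A * Nat.card (stabilizer H Q) = Nat.card (stabilizer G Q) := by
  have h1 := card_stabilizer_eq_card_inertia_mul_finrank (G := G) p Q
  have h2 : Nat.card (stabilizer H Q) = Nat.card (Ideal.inertia H Q) * Q.inertiaDeg B :=
    card_stabilizer_eq_card_inertia_mul_finrank (G := H) v Q
  have h3 : Nat.card (Ideal.inertia H Q) = 1 := by
    have h4 : (Q.inertia G).subgroupOf H = Q.inertia H := AddSubgroup.subgroupOf_inertia _ _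
    rw [← h4]
    have h5 : Q.inertia G = ⊥ := Subgroup.eq_bot_of_card_eq _ hun
    rw [h5, Subgroup.bot_subgroupOf]
    exact Subgroup.card_bot
  rw [h1, h2, hun, h3, one_mul, one_mul, ← inertiaDeg_tower v Q]

/-- the decomposition group is contained in `H` iff the prime below has degree one -/
theorem le_iff_deg_one (p : Ideal A) [p.IsPrime] (Q : Ideal C) [Q.IsPrime] [Q.LiesOver p]
    [PerfectField p.ResidueField] (v : Ideal B) [v.IsPrime] [Q.LiesOver v] [PerfectField v.ResidueField]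
    (hun : Nat.card (Ideal.inertia G Q) = 1) :
    stabilizer G Q ≤ H ↔ v.inertiaDeg A = 1 := by
  have h := deg_mul H p Q v hun
  have hpos : 0 < Nat.card (stabilizer G Q) := Nat.card_pos
  rw [card_stab_inf] at h
  constructor
  · intro hle
    rw [inf_eq_left.2 hle] at h
    exact Nat.eq_of_mul_eq_mul_right hpos (by rw [h, one_mul])
  · intro hv
    rw [hv, one_mul] at h
    have : (stabilizer G Q ⊓ H : Subgroup G) = stabilizer G Q :=
      Subgroup.eq_of_le_of_card_ge inf_le_left h.ge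
    exact inf_eq_left.1 this

/-- orbit and stabilizer over a prime of `B` -/
theorem card_over (v : Ideal B) (Q : Ideal C) [Q.IsPrime] [Q.LiesOver v] :
    (v.primesOver C).ncard * Nat.card (stabilizer H Q) = Nat.card H := by
  have h1 : MulAction.orbit H Q = v.primesOver C := Algebra.IsInvariant.orbit_eq_primesOver B C H v Q
  rw [← h1]
  have := Nat.card_congr (MulAction.orbitProdStabilizerEquivGroup H Q)
  rw [Nat.card_prod] at this
  exact this

/-- THE LOCAL IDENTITY -/
theorem local_id (p : Ideal A) [p.IsPrime] [PerfectField p.ResidueField]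
    (hperf : ∀ v : Ideal B, ∀ _ : v.IsPrime, PerfectField v.ResidueField)
    (hC : (p.primesOver C).Finite) (hB : (p.primesOver B).Finite)
    (hne : ∀ v : Ideal B, v.IsPrime → ∃ Q : Ideal C, Q.IsPrime ∧ Q.LiesOver v)
    (hun : ∀ Q ∈ p.primesOver C, Nat.card (Ideal.inertia G Q) = 1) [DecidablePred fun Q : Ideal C => stabilizer G Q ≤ H] :
    ∑ Q ∈ hC.toFinset.filter (fun Q => stabilizer G Q ≤ H), Nat.card (stabilizer G Q) =
      Nat.card H * (hB.toFinset.filter (fun v => v.inertiaDeg A = 1)).card := by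
  classical
  have hmaps : ∀ Q ∈ hC.toFinset.filter (fun Q => stabilizer G Q ≤ H),
      Q.under B ∈ hB.toFinset.filter (fun v => v.inertiaDeg A = 1) := by
    intro Q hQ
    obtain ⟨hQ1, hQ2⟩ := mem_filter.1 hQ
    rw [Set.Finite.mem_toFinset] at hQ1
    have := hQ1.1
    have := hQ1.2
    have hv : (Q.under B).IsPrime := inferInstance
    have : (Q.under B).LiesOver p := Ideal.LiesOver.tower_bot Q (Q.under B) p
    have := hperf (Q.under B) hv
    refine mem_filter.2 ⟨?_, ?_⟩
    · rw [Set.Finite.mem_toFinset]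
      exact ⟨hv, inferInstance⟩
    · exact (le_iff_deg_one H p Q (Q.under B) (hun Q hQ1)).1 hQ2
  rw [← sum_fiberwise_of_maps_to hmaps, mul_comm, ← smul_eq_mul, ← sum_const]
  refine sum_congr rfl fun v hv => ?_
  obtain ⟨hv1, hv2⟩ := mem_filter.1 hv
  rw [Set.Finite.mem_toFinset] at hv1
  have := hv1.1
  have := hv1.2
  have := hperf v hv1.1
  obtain ⟨Q₀, hQ₀, hQ₀v⟩ := hne v hv1.1
  have hkey : ∀ Q : Ideal C, Q.IsPrime → Q.LiesOver v →
      Q ∈ p.primesOver C ∧ stabilizer G Q ≤ H ∧ Nat.card (stabilizer G Q) = Nat.card (stabilizer H Q) := by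
    intro Q hQ hQv
    have : Q.LiesOver p := Ideal.LiesOver.trans Q v p
    have hQp : Q ∈ p.primesOver C := ⟨hQ, this⟩
    have h1 := deg_mul H p Q v (hun Q hQp)
    rw [hv2, one_mul] at h1
    exact ⟨hQp, (le_iff_deg_one H p Q v (hun Q hQp)).2 hv2, h1.symm⟩
  have hcst : ∀ Q : Ideal C, Q.IsPrime → Q.LiesOver v →
      Nat.card (stabilizer G Q) = Nat.card (stabilizer H Q₀) := by
    intro Q hQ hQv
    rw [(hkey Q hQ hQv).2.2]
    have h1 := card_over H v Q
    have h2 := card_over H v Q₀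
    have hpos : 0 < (v.primesOver C).ncard := by
      rcases Nat.eq_zero_or_pos (v.primesOver C).ncard with h | h
      · rw [h, zero_mul] at h1
        exact absurd h1.symm (Nat.card_pos (α := H)).ne'
      · exact h
    exact Nat.eq_of_mul_eq_mul_left hpos (h1.trans h2.symm)
  have hset : (hC.toFinset.filter (fun Q => stabilizer G Q ≤ H)).filter (fun Q => Q.under B = v) =
      (hC.subset (fun Q (hQ : Q ∈ v.primesOver C) => (hkey Q hQ.1 hQ.2).1) : (v.primesOver C).Finite).toFinset := by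
    ext Q
    simp only [mem_filter, Set.Finite.mem_toFinset]
    constructor
    · rintro ⟨⟨hQ, _⟩, hQv⟩
      exact ⟨hQ.1, ⟨hQv.symm⟩⟩
    · rintro ⟨hQ, hQv⟩
      exact ⟨⟨(hkey Q hQ hQv).1, (hkey Q hQ hQv).2.1⟩, hQv.over.symm⟩
  rw [hset]
  rw [sum_congr rfl (g := fun _ => Nat.card (stabilizer H Q₀)) (fun Q hQ => by
    rw [Set.Finite.mem_toFinset] at hQ
    exact hcst Q hQ.1 hQ.2)]
  rw [sum_const, smul_eq_mul, ← Set.ncard_eq_toFinset_card _ _]
  exact card_over H v Q₀

end loc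

end Pool.Agent.H89.FrobD

end

section

/-!
# The cycle type of a permutation, counted by minimal periods
-/

set_option autoImplicit false

open Finset Equiv Equiv.Perm

namespace Pool.Agent.H89.FrobD

variable {X : Type*} [Fintype X] [DecidableEq X]

theorem periodic_iff (π : Perm X) (n : ℕ) (x : X) :
    Function.IsPeriodicPt π n x ↔ (π ^ n) x = x := by
  rw [Function.IsPeriodicPt, Function.IsFixedPt, ← Equiv.Perm.iterate_eq_pow]

theorem minimalPeriod_eq_card (π : Perm X) {x : X} (hx : π x ≠ x) :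
    Function.minimalPeriod π x = (π.cycleOf x).support.card := by
  have hc : (π.cycleOf x).IsCycle := Equiv.Perm.isCycle_cycleOf π hx
  rw [← hc.orderOf]
  have hne : (π.cycleOf x) x ≠ x := by
    rw [Equiv.Perm.cycleOf_apply_self]
    exact hx
  have key : ∀ n : ℕ, Function.minimalPeriod π x ∣ n ↔ orderOf (π.cycleOf x) ∣ n := by
    intro n
    rw [← Function.isPeriodicPt_iff_minimalPeriod_dvd, periodic_iff, ← Equiv.Perm.cycleOf_pow_apply_self,
      orderOf_dvd_iff_pow_eq_one]
    constructor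
    · intro h
      exact (hc.pow_eq_one_iff' hne).2 h
    · intro h
      rw [h]
      rfl
  exact Nat.dvd_antisymm ((key _).2 dvd_rfl) ((key _).1 dvd_rfl)

/-- THE COUNT -/
theorem perm_count (π : Perm X) (d : ℕ) (hd : 0 < d) :
    d * π.partition.parts.count d = (univ.filter (fun x => Function.minimalPeriod π x = d)).card := by
  rw [Equiv.Perm.parts_partition, Multiset.count_add, Multiset.count_replicate]
  rcases Nat.lt_or_ge d 2 with h2 | h2
  · have hd1 : d = 1 := by omega
    subst hd1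
    have h1 : π.cycleType.count 1 = 0 := by
      rw [Multiset.count_eq_zero]
      intro h
      have := Equiv.Perm.two_le_of_mem_cycleType h
      omega
    rw [h1, if_pos rfl, zero_add, one_mul, ← Finset.card_univ, ← Finset.card_sdiff_of_subset (subset_univ _)]
    congr 1
    ext x
    simp only [mem_sdiff, mem_univ, true_and, mem_filter, Equiv.Perm.mem_support, not_not]
    rw [Function.minimalPeriod_eq_one_iff_isFixedPt]
    rfl
  · rw [if_neg (by omega), add_zero, Equiv.Perm.cycleType_def, Multiset.count_map]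
    have h3 : (univ.filter (fun x => Function.minimalPeriod π x = d)) =
        π.support.filter (fun x => (π.cycleOf x).support.card = d) := by
      ext x
      simp only [mem_filter, mem_univ, true_and, Equiv.Perm.mem_support]
      constructor
      · intro h
        have hx : π x ≠ x := by
          intro hx
          have : Function.minimalPeriod π x = 1 := Function.minimalPeriod_eq_one_iff_isFixedPt.2 hx
          omega
        exact ⟨hx, by rw [← minimalPeriod_eq_card π hx]; exact h⟩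
      · rintro ⟨hx, h⟩
        rw [minimalPeriod_eq_card π hx]
        exact h
    have hmaps : ∀ x ∈ π.support.filter (fun x => (π.cycleOf x).support.card = d),
        π.cycleOf x ∈ π.cycleFactorsFinset.filter (fun c => d = c.support.card) := by
      intro x hx
      obtain ⟨hx1, hx2⟩ := mem_filter.1 hx
      exact mem_filter.2 ⟨Equiv.Perm.cycleOf_mem_cycleFactorsFinset_iff.2 hx1, hx2.symm⟩
    rw [h3, Finset.card_eq_sum_card_fiberwise (f := fun x => π.cycleOf x)
      (t := π.cycleFactorsFinset.filter (fun c => d = c.support.card)) (fun x hx => hmaps x hx)]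
    have h4 : ∀ c ∈ π.cycleFactorsFinset.filter (fun c => d = c.support.card),
        ((π.support.filter (fun x => (π.cycleOf x).support.card = d)).filter (fun x => π.cycleOf x = c)).card = d := by
      intro c hc
      obtain ⟨hc1, hc2⟩ := mem_filter.1 hc
      have h5 : (π.support.filter (fun x => (π.cycleOf x).support.card = d)).filter (fun x => π.cycleOf x = c) =
          c.support := by
        ext x
        simp only [mem_filter]
        constructor
        · rintro ⟨⟨hx1, _⟩, hx2⟩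
          rw [← hx2, Equiv.Perm.mem_support_cycleOf_iff]
          exact ⟨Equiv.Perm.SameCycle.refl _ _, hx1⟩
        · intro hx
          have h6 := Equiv.Perm.cycle_is_cycleOf hx hc1
          have h7 : x ∈ π.support := by
            rw [← Equiv.Perm.cycleOf_mem_cycleFactorsFinset_iff, ← h6]
            exact hc1
          refine ⟨⟨h7, ?_⟩, h6.symm⟩
          rw [← h6]
          exact hc2.symm
      rw [h5]
      exact hc2.symm
    rw [sum_congr rfl h4, sum_const, smul_eq_mul, mul_comm]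
    rfl

end Pool.Agent.H89.FrobD

end
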