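import Pool.Agent.H71.TFC.M01
import Pool.Agent.H71.TFC.M11

/-! The parts of this file: H11.NW.Defs, H11.NW.Harm, H29.FE.Lim, H40.HF.Jets, H80.HF.Ecls, H80.HF.Har, H80.HF.Prod, H80.HF.Fact, H85.FD.AdmQ, H85.FD.AdmC, H85.FD.Parts, H88.AB.Quad, H89.FE.Zed, H89.FE.NoLong, H89.MM.Gen, H80.HF.Comb, H85.FD2.NormForm, H93.FD.Sn, H93.FD.LongCount. -/

section

/-!
# NW: definitions for the non-Wieferich theorem (helper11)

All quantities are explicit expressions that make sense in any field `F`; they are used for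
`F = ℚ` and `F = ZMod p`.
-/

set_option autoImplicit false

namespace Pool.Agent.H11.NW

open Finset

section
variable (F : Type) [Field F]

end

/-- `p` is a Wieferich prime (primality is a separate hypothesis). -/
def Wf (p : ℕ) : Prop := p ^ 2 ∣ 2 ^ (p - 1) - 1

end Pool.Agent.H11.NW

end

section

/-!
# NW: half harmonic sums modulo a Wieferich prime and the polynomial `f` (helper98)

For a Wieferich prime `p > 3` the sums of `1/j` and of `1/j^2` over `1 ≤ j ≤ (p-1)/2` vanish modulo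
`p`; the polynomial `f = ∏ (1 - X/j)` satisfies `(2X+1) f(X+1) = 2X f(X)`.
-/

set_option autoImplicit false

namespace Pool.Agent.H11.NW

open Finset Polynomial

/-- `C(p-1,k) = (-1)^k` in `ZMod p`. -/
lemma choose_pred (p : ℕ) [hp : Fact p.Prime] (k : ℕ) (hk : k < p) :
    (((p - 1).choose k : ℕ) : ZMod p) = (-1) ^ k := by
  induction k with
  | zero => simp
  | succ k ih =>
    have h1 : ((p - 1).choose k + (p - 1).choose (k + 1)) = p.choose (k + 1) := by
      have : p = (p - 1) + 1 := by have := hp.out.one_lt; omega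
      conv_rhs => rw [this]
      rw [Nat.choose_succ_succ]
    have h2 : ((p.choose (k + 1) : ℕ) : ZMod p) = 0 := by
      rw [ZMod.natCast_eq_zero_iff]
      exact hp.out.dvd_choose_self (by omega) hk
    have h3 := congrArg (fun n : ℕ => (n : ZMod p)) h1
    simp only [Nat.cast_add] at h3
    rw [h2, ih (by omega)] at h3
    rw [pow_succ]
    linear_combination h3

lemma sum_alt (p : ℕ) [hp : Fact p.Prime] (hW : p ^ 2 ∣ 2 ^ (p - 1) - 1) :
    ∑ k ∈ range (p - 1), ((-1 : ZMod p)) ^ k * ((k : ZMod p) + 1)⁻¹ = 0 := by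
  have hp0 : 0 < p := hp.out.pos
  have hc : ∀ k ∈ range (p - 1), p.choose (k + 1) = p * (p.choose (k + 1) / p) := by
    intro k hk
    have hk' := mem_range.1 hk
    exact (Nat.mul_div_cancel' (hp.out.dvd_choose_self (by omega) (by omega))).symm
  have h1 : ∑ k ∈ range (p - 1), p.choose (k + 1) + 2 = 2 ^ p := by
    have h2 := Nat.sum_range_choose p
    have h3 : p + 1 = (p - 1) + 1 + 1 := by have := hp.out.one_lt; omega
    rw [h3, sum_range_succ, sum_range_succ'] at h2
    have h4 : (p - 1) + 1 = p := by have := hp.out.one_lt; omega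
    rw [h4, Nat.choose_self, Nat.choose_zero_right] at h2
    omega
  have h2 : p ^ 2 ∣ ∑ k ∈ range (p - 1), p.choose (k + 1) := by
    have h3 : ∑ k ∈ range (p - 1), p.choose (k + 1) = 2 * (2 ^ (p - 1) - 1) := by
      have h5 : 2 ^ p = 2 * 2 ^ (p - 1) := by
        rw [← pow_succ']
        congr 1
        have := hp.out.one_lt; omega
      have h6 : 1 ≤ 2 ^ (p - 1) := Nat.one_le_two_pow
      omega
    rw [h3]
    exact Dvd.dvd.mul_left hW 2
  have h3 : ∑ k ∈ range (p - 1), p.choose (k + 1) =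
      p * ∑ k ∈ range (p - 1), (p.choose (k + 1) / p) := by
    rw [mul_sum]
    exact sum_congr rfl hc
  have h4 : p ∣ ∑ k ∈ range (p - 1), (p.choose (k + 1) / p) := by
    rw [h3, pow_two] at h2
    exact Nat.dvd_of_mul_dvd_mul_left hp0 h2
  have h5 : ((∑ k ∈ range (p - 1), (p.choose (k + 1) / p) : ℕ) : ZMod p) = 0 := by
    rw [ZMod.natCast_eq_zero_iff]; exact h4
  rw [Nat.cast_sum] at h5
  rw [← h5]
  refine sum_congr rfl fun k hk => ?_
  have hk' := mem_range.1 hk
  have hne : ((k : ZMod p) + 1) ≠ 0 := by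
    intro h
    have : ((k + 1 : ℕ) : ZMod p) = 0 := by push_cast; exact h
    rw [ZMod.natCast_eq_zero_iff] at this
    exact absurd (Nat.le_of_dvd (by omega) this) (by omega)
  have h6 : (k + 1) * (p.choose (k + 1) / p) = (p - 1).choose k := by
    have h7 : p * (p - 1).choose k = p.choose (k + 1) * (k + 1) := by
      have := Nat.add_one_mul_choose_eq (p - 1) k
      have h8 : p - 1 + 1 = p := by have := hp.out.one_lt; omega
      rw [h8] at this
      exact this
    have h9 := hc k hk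
    rw [h9] at h7
    have h10 : p * ((k + 1) * (p.choose (k + 1) / p)) = p * (p - 1).choose k := by
      rw [h7]
      have : p * (p.choose (k + 1) / p) / p = p.choose (k + 1) / p := Nat.mul_div_cancel_left _ hp0
      ring_nf
    exact Nat.eq_of_mul_eq_mul_left hp0 h10
  have h7 := congrArg (fun n : ℕ => (n : ZMod p)) h6
  simp only [Nat.cast_mul, Nat.cast_add, Nat.cast_one] at h7
  rw [choose_pred p k (by omega)] at h7
  rw [← h7]
  field_simp

lemma sum_inv_univ (p : ℕ) [hp : Fact p.Prime] (h3 : 3 ≤ p) :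
    ∑ k ∈ range (p - 1), ((k : ZMod p) + 1)⁻¹ = 0 := by
  have h1 := sum_range_reflect (fun k => ((k : ZMod p) + 1)⁻¹) (p - 1)
  have h2 : ∑ k ∈ range (p - 1), (((p - 1 - 1 - k : ℕ) : ZMod p) + 1)⁻¹ =
      - ∑ k ∈ range (p - 1), ((k : ZMod p) + 1)⁻¹ := by
    rw [← sum_neg_distrib]
    refine sum_congr rfl fun k hk => ?_
    have hk' := mem_range.1 hk
    have h4 : (((p - 1 - 1 - k : ℕ) : ZMod p) + 1) = -((k : ZMod p) + 1) := by
      have h5 : ((p - 1 - 1 - k + (k + 2) : ℕ) : ZMod p) = 0 := by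
        have : p - 1 - 1 - k + (k + 2) = p := by omega
        rw [this]; exact ZMod.natCast_self p
      push_cast at h5
      linear_combination h5
    rw [h4, inv_neg]
  rw [h2] at h1
  have h3 : (2 : ZMod p) ≠ 0 := by
    intro h
    have : ((2 : ℕ) : ZMod p) = 0 := by exact_mod_cast h
    rw [ZMod.natCast_eq_zero_iff] at this
    exact absurd (Nat.le_of_dvd (by omega) this) (by omega)
  have h4 : (2 : ZMod p) * ∑ k ∈ range (p - 1), ((k : ZMod p) + 1)⁻¹ = 0 := by
    linear_combination (-1 : ZMod p) * h1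
  exact (mul_eq_zero.1 h4).resolve_left h3

/-- Wieferich primes: the half harmonic number vanishes -/
theorem harm_one_aux (p : ℕ) [hp : Fact p.Prime] (h3 : 3 ≤ p) (hW : p ^ 2 ∣ 2 ^ (p - 1) - 1) :
    ∑ j ∈ range (p / 2), ((j : ZMod p) + 1)⁻¹ = 0 := by
  have h0 := sum_alt p hW
  have h1 := sum_inv_univ p h3
  have hodd : Odd p := hp.out.odd_of_ne_two (by omega)
  obtain ⟨M, hM⟩ := hodd
  have hM2 : p / 2 = M := by omega
  have hp1 : p - 1 = 2 * M := by omega
  rw [hM2]
  rw [hp1] at h0 h1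
  have hsplit : ∀ g : ℕ → ZMod p, ∑ k ∈ range (2 * M), g k =
      ∑ j ∈ range M, (g (2 * j) + g (2 * j + 1)) := by
    intro g
    clear h0 h1 hM hM2 hp1
    induction M with
    | zero => simp
    | succ n ih => rw [mul_add, mul_one, sum_range_succ, sum_range_succ, ih, sum_range_succ]; ring
  rw [hsplit] at h0 h1
  have h2 : (2 : ZMod p) ≠ 0 := by
    intro h
    have : ((2 : ℕ) : ZMod p) = 0 := by exact_mod_cast h
    rw [ZMod.natCast_eq_zero_iff] at this
    exact absurd (Nat.le_of_dvd (by omega) this) (by omega)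
  have h4 : ∑ j ∈ range M, (((2 * j : ℕ) : ZMod p) + 1)⁻¹ + ∑ j ∈ range M, (((2 * j + 1 : ℕ) : ZMod p) + 1)⁻¹ = 0 := by
    rw [← sum_add_distrib]; exact h1
  have h5 : ∑ j ∈ range M, (((2 * j : ℕ) : ZMod p) + 1)⁻¹ - ∑ j ∈ range M, (((2 * j + 1 : ℕ) : ZMod p) + 1)⁻¹ = 0 := by
    rw [← sum_sub_distrib, ← h0]
    refine sum_congr rfl fun j _ => ?_
    have e : ((-1 : ZMod p)) ^ (2 * j) = 1 := by rw [pow_mul]; simp
    rw [pow_succ, e]
    ring
  have h6 : ∑ j ∈ range M, (((2 * j + 1 : ℕ) : ZMod p) + 1)⁻¹ =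
      2⁻¹ * ∑ j ∈ range M, ((j : ZMod p) + 1)⁻¹ := by
    rw [mul_sum]
    refine sum_congr rfl fun j _ => ?_
    rw [← mul_inv]
    congr 1
    push_cast
    ring
  have h7 : (2 : ZMod p) * ∑ j ∈ range M, (((2 * j + 1 : ℕ) : ZMod p) + 1)⁻¹ = 0 := by
    linear_combination h4 - h5
  rw [h6, ← mul_assoc, mul_inv_cancel₀ h2, one_mul] at h7
  exact h7

end Pool.Agent.H11.NW

end

section

/-!
# Clause (E), module Lim: the four bounds tend to zero
-/

namespace H29FE

open Finset Filter Topology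

theorem lim_pow (c : ℕ) (k : ℕ) (A : ℝ) :
    Tendsto (fun l : ℕ => A * ((l : ℝ) + c) ^ k / 2 ^ l) atTop (𝓝 0) := by
  have h1 := tendsto_pow_const_div_const_pow_of_one_lt k (one_lt_two : (1 : ℝ) < 2)
  have h2 := (h1.comp (tendsto_add_atTop_nat c)).const_mul (A * 2 ^ c)
  rw [mul_zero] at h2
  refine h2.congr fun l => ?_
  show A * 2 ^ c * ((((l + c : ℕ) : ℝ)) ^ k / 2 ^ (l + c)) = _
  rw [pow_add]
  push_cast
  field_simp

/-- `log (n + 2) ≤ l + 2` if `n < 2 ^ (l + 1)` -/
theorem log_le_of_lt {n l : ℕ} (h : n < 2 ^ (l + 1)) : Real.log (n + 2) ≤ l + 2 := by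
  have h1 : (n : ℝ) + 2 ≤ 2 ^ (l + 2) := by
    have h2 : n + 2 ≤ 2 ^ (l + 2) := by
      have h3 : 1 ≤ 2 ^ l := Nat.one_le_two_pow
      rw [pow_add] at h ⊢
      omega
    exact_mod_cast h2
  have h3 := Real.log_le_log (by positivity) h1
  rw [Real.log_pow] at h3
  have h4 := Real.log_two_lt_d9
  have h5 : (0 : ℝ) ≤ ((l + 2 : ℕ) : ℝ) := Nat.cast_nonneg _
  push_cast at h3 h5
  nlinarith

/-- more than `T` orbits -/
theorem lim_orbits {ε : ℝ} (hε : 0 < ε) : ∃ l₀ : ℕ, ∀ l n : ℕ, l₀ ≤ l → n < 2 ^ (l + 1) →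
    Real.sqrt (2 * n + 1) ≤ ε * (3 / 2) ^ (7 * l / 8 + 1) := by
  have h1 := lim_pow 0 0 (2 ^ 96)
  have h2 := (h1.eventually (gt_mem_nhds (show 0 < ε ^ 96 by positivity))).exists_forall_of_atTop
  obtain ⟨l₀, h3⟩ := h2
  refine ⟨l₀, fun l n hl hn => ?_⟩
  have h4 := h3 l hl
  rw [pow_zero, mul_one, div_lt_iff₀ (by positivity)] at h4
  refine le_of_pow_le_pow_left₀ (n := 96) (by norm_num) (by positivity) ?_
  have h5 : Real.sqrt (2 * n + 1) ^ 96 = (2 * (n : ℝ) + 1) ^ 48 := by
    rw [show 96 = 2 * 48 from rfl, pow_mul, Real.sq_sqrt (by positivity)]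
  have h6 : (2 * (n : ℝ) + 1) ≤ 2 ^ (l + 2) := by
    have h7 : 2 * n + 1 ≤ 2 ^ (l + 2) := by
      rw [pow_succ]
      omega
    exact_mod_cast h7
  have h8 : (2 : ℝ) ^ (49 * l) ≤ ((3 / 2) ^ (7 * l / 8 + 1)) ^ 96 := by
    have h9 : (2 : ℝ) ^ 7 ≤ (3 / 2) ^ 12 := by norm_num
    calc (2 : ℝ) ^ (49 * l) ≤ 2 ^ (7 * (8 * (7 * l / 8 + 1))) :=
          pow_le_pow_right₀ (by norm_num) (by omega)
      _ = (2 ^ 7) ^ (8 * (7 * l / 8 + 1)) := by rw [pow_mul]
      _ ≤ ((3 / 2) ^ 12) ^ (8 * (7 * l / 8 + 1)) := pow_le_pow_left₀ (by positivity) h9 _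
      _ = ((3 / 2) ^ (7 * l / 8 + 1)) ^ 96 := by
          rw [← pow_mul, ← pow_mul]
          congr 1
          ring
  rw [h5, mul_pow]
  calc (2 * (n : ℝ) + 1) ^ 48 ≤ (2 ^ (l + 2)) ^ 48 := pow_le_pow_left₀ (by positivity) h6 _
    _ = 2 ^ 96 * 2 ^ (48 * l) := by rw [← pow_mul, ← pow_add]; congr 1; ring
    _ ≤ (ε ^ 96 * 2 ^ l) * 2 ^ (48 * l) := mul_le_mul_of_nonneg_right h4.le (by positivity)
    _ = ε ^ 96 * 2 ^ (49 * l) := by rw [mul_assoc, ← pow_add]; congr 2; ring
    _ ≤ _ := mul_le_mul_of_nonneg_left h8 (by positivity)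

/-- the first sum -/
theorem lim_one {ε : ℝ} (hε : 0 < ε) : ∃ l₀ : ℕ, ∀ l n : ℕ, l₀ ≤ l → 2 ^ l ≤ n → n < 2 ^ (l + 1) →
    2 ^ (7 * l / 8) * (3 / n * (1 + Real.log (n + 2))) ≤ ε := by
  have h1 := lim_pow 3 8 (3 ^ 8)
  obtain ⟨l₀, h3⟩ := (h1.eventually (gt_mem_nhds (show 0 < ε ^ 8 by positivity))).exists_forall_of_atTop
  refine ⟨l₀, fun l n hl hn1 hn => ?_⟩
  have h4 := h3 l hl
  rw [div_lt_iff₀ (by positivity)] at h4
  have hn2 : (2 : ℝ) ^ l ≤ n := by exact_mod_cast hn1
  have hn0 : (0 : ℝ) < n := lt_of_lt_of_le (by positivity) hn2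
  have h5 := log_le_of_lt hn
  have hl0 : 0 ≤ Real.log (n + 2) := Real.log_nonneg (by linarith)
  refine le_of_pow_le_pow_left₀ (n := 8) (by norm_num) hε.le ?_
  have h6 : 2 ^ (7 * l / 8) * (3 / n * (1 + Real.log (n + 2))) ≤
      2 ^ (7 * l / 8) * (3 * (l + (3 : ℕ))) / 2 ^ l := by
    rw [mul_div_assoc]
    refine mul_le_mul_of_nonneg_left ?_ (by positivity)
    rw [div_mul_eq_mul_div]
    refine div_le_div₀ (by positivity) ?_ (by positivity) hn2
    push_cast
    linarith
  refine (pow_le_pow_left₀ (by positivity) h6 8).trans ?_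
  rw [div_pow, div_le_iff₀ (by positivity), mul_pow, mul_pow]
  have h7 : ((2 : ℝ) ^ (7 * l / 8)) ^ 8 ≤ 2 ^ (7 * l) := by
    rw [← pow_mul]
    exact pow_le_pow_right₀ (by norm_num) (by omega)
  calc ((2 : ℝ) ^ (7 * l / 8)) ^ 8 * (3 ^ 8 * (l + (3 : ℕ)) ^ 8)
      ≤ 2 ^ (7 * l) * (ε ^ 8 * 2 ^ l) :=
        mul_le_mul h7 h4.le (by positivity) (by positivity)
    _ = ε ^ 8 * (2 ^ l) ^ 8 := by
        rw [← pow_mul, mul_comm, mul_assoc, ← pow_add]
        congr 2
        ring

/-- the second sum -/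
theorem lim_two {ε : ℝ} (hε : 0 < ε) : ∃ l₀ : ℕ, ∀ l n : ℕ, l₀ ≤ l → 2 ^ l ≤ n → n < 2 ^ (l + 1) →
    2 ^ (7 * l / 8) * ((10 + Real.log (n + 2)) /
      (Real.sqrt (2 * (2 ^ (4 * l / 5) : ℕ) + 1) * Real.sqrt n)) ≤ ε := by
  have h1 := lim_pow 12 40 1
  obtain ⟨l₀, h3⟩ := (h1.eventually (gt_mem_nhds (show 0 < ε ^ 40 by positivity))).exists_forall_of_atTop
  refine ⟨l₀, fun l n hl hn1 hn => ?_⟩
  have h4 := h3 l hl
  rw [div_lt_iff₀ (by positivity), one_mul] at h4
  have hn2 : (2 : ℝ) ^ l ≤ n := by exact_mod_cast hn1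
  have hn0 : (0 : ℝ) < n := lt_of_lt_of_le (by positivity) hn2
  have h5 := log_le_of_lt hn
  have hl0 : 0 ≤ Real.log (n + 2) := Real.log_nonneg (by linarith)
  have hm0 : (0 : ℝ) < 2 * ((2 ^ (4 * l / 5) : ℕ) : ℝ) + 1 := by positivity
  have hs1 := Real.sqrt_pos.2 hm0
  have hs2 := Real.sqrt_pos.2 hn0
  refine le_of_pow_le_pow_left₀ (n := 40) (by norm_num) hε.le ?_
  rw [mul_pow, div_pow, mul_pow]
  have h6 : Real.sqrt (n : ℝ) ^ 40 = (n : ℝ) ^ 20 := by
    rw [show 40 = 2 * 20 from rfl, pow_mul, Real.sq_sqrt hn0.le]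
  have h7 : Real.sqrt (2 * ((2 ^ (4 * l / 5) : ℕ) : ℝ) + 1) ^ 40 =
      (2 * ((2 ^ (4 * l / 5) : ℕ) : ℝ) + 1) ^ 20 := by
    rw [show 40 = 2 * 20 from rfl, pow_mul, Real.sq_sqrt hm0.le]
  have h8 : (2 : ℝ) ^ (16 * l) ≤ (2 * ((2 ^ (4 * l / 5) : ℕ) : ℝ) + 1) ^ 20 := by
    calc (2 : ℝ) ^ (16 * l) ≤ 2 ^ ((4 * l / 5 + 1) * 20) := pow_le_pow_right₀ (by norm_num) (by omega)
      _ = (2 ^ (4 * l / 5 + 1)) ^ 20 := by rw [pow_mul]
      _ ≤ (2 * ((2 ^ (4 * l / 5) : ℕ) : ℝ) + 1) ^ 20 := by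
          refine pow_le_pow_left₀ (by positivity) ?_ _
          push_cast
          rw [pow_succ]
          linarith
  have h9 : (2 : ℝ) ^ (20 * l) ≤ (n : ℝ) ^ 20 := by
    rw [mul_comm, pow_mul]
    exact pow_le_pow_left₀ (by positivity) hn2 _
  have h10 : ((2 : ℝ) ^ (7 * l / 8)) ^ 40 ≤ 2 ^ (35 * l) := by
    rw [← pow_mul]
    exact pow_le_pow_right₀ (by norm_num) (by omega)
  have h11 : (10 + Real.log (n + 2)) ^ 40 ≤ ε ^ 40 * 2 ^ l := by
    refine (pow_le_pow_left₀ (by positivity) ?_ 40).trans h4.le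
    push_cast
    linarith
  rw [h6, h7, ← mul_div_assoc, div_le_iff₀ (by positivity)]
  calc ((2 : ℝ) ^ (7 * l / 8)) ^ 40 * (10 + Real.log (n + 2)) ^ 40
      ≤ 2 ^ (35 * l) * (ε ^ 40 * 2 ^ l) := mul_le_mul h10 h11 (by positivity) (by positivity)
    _ = ε ^ 40 * (2 ^ (16 * l) * 2 ^ (20 * l)) := by
        rw [mul_left_comm, ← pow_add, ← pow_add]
        congr 2
        ring
    _ ≤ _ := mul_le_mul_of_nonneg_left (mul_le_mul h8 h9 (by positivity) (by positivity))
        (by positivity)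

/-- the sum over the long lengths prime to `6` -/
theorem lim_three (A : ℝ) : ∃ l₀ : ℕ, ∀ l n : ℕ, l₀ ≤ l → 2 ^ l ≤ n →
    A ≤ ∑ k ∈ (Icc (2 ^ (4 * l / 5)) n).filter (fun k => ¬ 2 ∣ k ∧ ¬ 3 ∣ k), (1 / (k : ℝ)) := by
  obtain ⟨q, hq⟩ := exists_nat_gt (Real.exp (6 * A))
  refine ⟨max (10 * q) 100, fun l n hl hn1 => ?_⟩
  have hn2 : (2 : ℝ) ^ l ≤ n := by exact_mod_cast hn1
  set m := 2 ^ (4 * l / 5) with hm
  have hm1 : 1 ≤ m := Nat.one_le_two_pow
  have hl1 : 100 ≤ l := le_trans (le_max_right _ _) hl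
  have hl2 : 10 * q ≤ l := le_trans (le_max_left _ _) hl
  have hmn : m * 12 * 2 ^ (l / 10) ≤ n := by
    have h12 : m * 12 * 2 ^ (l / 10) ≤ 2 ^ (4 * l / 5) * 2 ^ 4 * 2 ^ (l / 10) := by
      rw [hm]
      refine Nat.mul_le_mul_right _ (Nat.mul_le_mul_left _ (by norm_num))
    refine (h12.trans ?_).trans hn1
    rw [← pow_add, ← pow_add]
    exact Nat.pow_le_pow_right (by norm_num) (by omega)
  have hmn6 : m ≤ n / 6 := by
    rw [Nat.le_div_iff_mul_le (by norm_num)]
    have : 1 ≤ 2 ^ (l / 10) := Nat.one_le_two_pow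
    nlinarith
  have h1 := log_le_harm m (n / 6) hmn6
  have h2 : (1 / 6 : ℝ) * ∑ j ∈ Ico m (n / 6), (1 / ((j : ℝ) + 1)) ≤
      ∑ k ∈ (Icc m n).filter (fun k => ¬ 2 ∣ k ∧ ¬ 3 ∣ k), (1 / (k : ℝ)) := by
    rw [mul_sum]
    have hinj : Set.InjOn (fun j : ℕ => 6 * j + 1) (Ico m (n / 6) : Set ℕ) := by
      intro x _ y _ h
      simp only at h
      omega
    calc ∑ j ∈ Ico m (n / 6), (1 / 6 : ℝ) * (1 / ((j : ℝ) + 1))
        ≤ ∑ j ∈ Ico m (n / 6), (1 / (((6 * j + 1 : ℕ) : ℝ))) := by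
          refine sum_le_sum fun j _ => ?_
          have hj : (0 : ℝ) ≤ j := Nat.cast_nonneg _
          rw [one_div_mul_one_div]
          push_cast
          exact one_div_le_one_div_of_le (by positivity) (by linarith)
      _ = ∑ k ∈ (Ico m (n / 6)).image (fun j : ℕ => 6 * j + 1), (1 / (k : ℝ)) := by
          rw [sum_image (by exact_mod_cast hinj)]
      _ ≤ _ := by
          refine sum_le_sum_of_subset_of_nonneg ?_ fun k _ _ => by positivity
          intro k hk
          obtain ⟨j, hj, rfl⟩ := mem_image.1 hk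
          rw [mem_Ico] at hj
          refine mem_filter.2 ⟨mem_Icc.2 ⟨by omega, ?_⟩, by omega, by omega⟩
          have : 6 * (n / 6) ≤ n := Nat.mul_div_le n 6
          omega
  have h3 : Real.log (Real.exp (6 * A)) ≤ Real.log ((((n / 6 : ℕ) : ℝ) + 1) / (m + 1)) := by
    refine Real.log_le_log (Real.exp_pos _) ?_
    rw [le_div_iff₀ (by positivity)]
    have h4 : (n : ℝ) / 6 ≤ ((n / 6 : ℕ) : ℝ) + 1 := by
      have : n < 6 * (n / 6 + 1) := by omega
      have h5 : (n : ℝ) < 6 * (((n / 6 : ℕ) : ℝ) + 1) := by exact_mod_cast this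
      linarith
    have h6 : (m : ℝ) * 12 * 2 ^ (l / 10) ≤ n := by exact_mod_cast hmn
    have h7 : (1 : ℝ) ≤ m := by exact_mod_cast hm1
    have h8 : Real.exp (6 * A) ≤ 2 ^ (l / 10) := by
      have h9 : q ≤ 2 ^ (l / 10) :=
        (Nat.lt_two_pow_self (n := q)).le.trans (Nat.pow_le_pow_right (by norm_num) (by omega))
      have h10 : (q : ℝ) ≤ 2 ^ (l / 10) := by exact_mod_cast h9
      linarith
    have h11 : Real.exp (6 * A) * (m + 1) ≤ 2 ^ (l / 10) * (2 * m) :=
      mul_le_mul h8 (by linarith) (by positivity) (by positivity)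
    linarith
  rw [Real.log_exp] at h3
  linarith

end H29FE

end

section

/-!
# HF, the function `g = Num / Den` over `ZMod p` and its universal jets at all integers

`Num = ∏_(p/6 < j < p/3) (2 j - X)`, `Den = ∏ (2 j + X)`, so that
`g(2x) = ∏_(p/6 < j < p/3) (1 - x/j) / (1 + x/j)`.

* `one_step` : `(3X+1) Num(X) Num(X+1) = (3X+2) Den(X) Den(X+1)`;
* `third_harm` : `∑_(p/6 < j < p/3) 1/j = - H_((p-1)/2)`, which is `0` for a Wieferich prime;
* `jets_nat`, `jets_neg` : for a Wieferich prime, at EVERY integer node `t`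
  `X ^ 3 ∣ den_t * Num(X+t) - num_t * Den(X+t)`, where `num_t / den_t` does not depend on `p`.
-/

set_option autoImplicit false

namespace Pool.Agent.H40.HF

open Polynomial Finset

/-- number of factors -/
def kk (p : ℕ) : ℕ := p / 3 - p / 6

noncomputable def Num (p : ℕ) : (ZMod p)[X] :=
  ∏ j ∈ Ioc (p / 6) (p / 3), (C (((2 * j : ℕ) : ZMod p)) - X)

noncomputable def Den (p : ℕ) : (ZMod p)[X] :=
  ∏ j ∈ Ioc (p / 6) (p / 3), (C (((2 * j : ℕ) : ZMod p)) + X)

/-! ### products over pairs -/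

theorem prod_pair {M : Type*} [CommMonoid M] (f : ℕ → M) (a n : ℕ) :
    ∏ j ∈ Ioc a (a + n), (f (2 * j) * f (2 * j - 1)) = ∏ i ∈ Ioc (2 * a) (2 * a + 2 * n), f i := by
  induction n with
  | zero => simp
  | succ n ih =>
    rw [show a + (n + 1) = (a + n) + 1 by ring, prod_Ioc_succ_top (by omega), ih,
      show 2 * a + 2 * (n + 1) = (2 * a + 2 * n + 1) + 1 by ring, prod_Ioc_succ_top (by omega),
      prod_Ioc_succ_top (by omega)]
    have h1 : 2 * (a + n + 1) = 2 * a + 2 * n + 1 + 1 := by ring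
    have h2 : 2 * (a + n + 1) - 1 = 2 * a + 2 * n + 1 := by omega
    rw [h2, h1]
    rw [mul_assoc, mul_comm (f (2 * a + 2 * n + 1 + 1))]

theorem prod_pair' {M : Type*} [CommMonoid M] (f : ℕ → M) (a n : ℕ) :
    ∏ j ∈ Ioc a (a + n), (f (2 * j) * f (2 * j + 1)) =
      ∏ i ∈ Ioc (2 * a + 1) (2 * a + 1 + 2 * n), f i := by
  induction n with
  | zero => simp
  | succ n ih =>
    rw [show a + (n + 1) = (a + n) + 1 by ring, prod_Ioc_succ_top (by omega), ih,
      show 2 * a + 1 + 2 * (n + 1) = (2 * a + 1 + 2 * n + 1) + 1 by ring,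
      prod_Ioc_succ_top (by omega), prod_Ioc_succ_top (by omega)]
    have h1 : 2 * (a + n + 1) = 2 * a + 1 + 2 * n + 1 := by ring
    rw [h1, mul_assoc]

/-- reflection `i ↦ c - i` of a product over an interval -/
theorem prod_reflect {M : Type*} [CommMonoid M] (f : ℕ → M) (a n c : ℕ) (h : a + n < c) :
    ∏ i ∈ Ioc a (a + n), f (c - i) = ∏ i ∈ Ioc (c - a - n - 1) (c - a - 1), f i := by
  refine prod_nbij' (fun i => c - i) (fun i => c - i) ?_ ?_ ?_ ?_ ?_
  · intro i hi
    have := mem_Ioc.1 hi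
    exact mem_Ioc.2 ⟨by omega, by omega⟩
  · intro i hi
    have := mem_Ioc.1 hi
    exact mem_Ioc.2 ⟨by omega, by omega⟩
  · intro i hi
    have := mem_Ioc.1 hi
    show c - (c - i) = i
    omega
  · intro i hi
    have := mem_Ioc.1 hi
    show c - (c - i) = i
    omega
  · intro i _
    rfl

section
variable (p : ℕ) [hp : Fact p.Prime]

theorem six_cases (h5 : 5 ≤ p) : ∃ k, (p = 6 * k + 1 ∧ 1 ≤ k) ∨ p = 6 * k + 5 := by
  have h2 : ¬ 2 ∣ p := fun h => by
    have := (Nat.prime_dvd_prime_iff_eq Nat.prime_two hp.out).1 h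
    omega
  have h3 : ¬ 3 ∣ p := fun h => by
    have := (Nat.prime_dvd_prime_iff_eq Nat.prime_three hp.out).1 h
    omega
  refine ⟨p / 6, ?_⟩
  omega

/-- the linear factor `i - X` -/
noncomputable def lin (i : ℕ) : (ZMod p)[X] := C ((i : ZMod p)) - X

theorem num_num (a b : ℕ) (hab : a ≤ b) :
    (∏ j ∈ Ioc a b, (C (((2 * j : ℕ) : ZMod p)) - X : (ZMod p)[X])) *
      (∏ j ∈ Ioc a b, (C (((2 * j : ℕ) : ZMod p)) - X : (ZMod p)[X])).comp (X + 1) =
    ∏ i ∈ Ioc (2 * a) (2 * b), lin p i := by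
  obtain ⟨n, rfl⟩ := Nat.exists_eq_add_of_le hab
  rw [Polynomial.prod_comp, ← prod_mul_distrib, show 2 * (a + n) = 2 * a + 2 * n by ring,
    ← prod_pair]
  refine prod_congr rfl fun j hj => ?_
  have hj' := mem_Ioc.1 hj
  unfold lin
  congr 1
  rw [sub_comp, C_comp, X_comp, Nat.cast_sub (by omega)]
  simp only [Nat.cast_mul, Nat.cast_one, C_sub, C_1]
  ring

theorem den_den (a b c : ℕ) (hab : a ≤ b) (hc : 2 * b + 1 < c) (hpc : p = c) :
    (∏ j ∈ Ioc a b, (C (((2 * j : ℕ) : ZMod p)) + X : (ZMod p)[X])) *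
      (∏ j ∈ Ioc a b, (C (((2 * j : ℕ) : ZMod p)) + X : (ZMod p)[X])).comp (X + 1) =
    ∏ i ∈ Ioc (c - 2 * b - 2) (c - 2 * a - 2), lin p i := by
  obtain ⟨n, rfl⟩ := Nat.exists_eq_add_of_le hab
  rw [Polynomial.prod_comp, ← prod_mul_distrib]
  have h1 : ∏ i ∈ Ioc (c - (2 * a + 1) - 2 * n - 1) (c - (2 * a + 1) - 1), lin p i =
      ∏ i ∈ Ioc (2 * a + 1) (2 * a + 1 + 2 * n), lin p (c - i) :=
    (prod_reflect (lin p) (2 * a + 1) (2 * n) c (by omega)).symm
  rw [show c - 2 * (a + n) - 2 = c - (2 * a + 1) - 2 * n - 1 by omega,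
    show c - 2 * a - 2 = c - (2 * a + 1) - 1 by omega, h1, ← prod_pair' (fun i => lin p (c - i))]
  refine prod_congr rfl fun j hj => ?_
  have hj' := mem_Ioc.1 hj
  have hlin : ∀ i, i ≤ c → lin p (c - i) = - (C ((i : ZMod p)) + X) := by
    intro i hi
    unfold lin
    rw [Nat.cast_sub hi, ← hpc, ZMod.natCast_self, zero_sub, C_neg]
    ring
  rw [hlin _ (by omega), hlin _ (by omega), neg_mul_neg, add_comp, C_comp, X_comp]
  congr 1
  push_cast
  simp only [C_add, C_mul, C_1]
  ring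

theorem one_step (h5 : 5 ≤ p) :
    (3 * X + 1) * (Num p * (Num p).comp (X + 1)) = (3 * X + 2) * (Den p * (Den p).comp (X + 1)) := by
  obtain ⟨k, hk | hk⟩ := six_cases p h5
  · obtain ⟨hk, hk1⟩ := hk
    have h6 : p / 6 = k := by omega
    have h3 : p / 3 = 2 * k := by omega
    have hN : Num p * (Num p).comp (X + 1) = ∏ i ∈ Ioc (2 * k) (4 * k), lin p i := by
      have := num_num p k (2 * k) (by omega)
      unfold Num
      rw [h6, h3, this]
      congr 2
      ring
    have hD : Den p * (Den p).comp (X + 1) = ∏ i ∈ Ioc (2 * k - 1) (4 * k - 1), lin p i := by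
      have := den_den p k (2 * k) (6 * k + 1) (by omega) (by omega) hk
      unfold Den
      rw [h6, h3, this]
      congr 2 <;> omega
    rw [hN, hD]
    obtain ⟨m, rfl⟩ : ∃ m, k = m + 1 := ⟨k - 1, by omega⟩
    have e1 : ∏ i ∈ Ioc (2 * (m + 1)) (4 * (m + 1)), lin p i =
        (∏ i ∈ Ioc (2 * (m + 1)) (4 * m + 3), lin p i) * lin p (4 * (m + 1)) := by
      rw [show 4 * (m + 1) = (4 * m + 3) + 1 by ring, prod_Ioc_succ_top (by omega)]
    have e2 : ∏ i ∈ Ioc (2 * (m + 1) - 1) (4 * (m + 1) - 1), lin p i =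
        lin p (2 * (m + 1)) * ∏ i ∈ Ioc (2 * (m + 1)) (4 * m + 3), lin p i := by
      rw [show 4 * (m + 1) - 1 = 4 * m + 3 by omega,
        show Ioc (2 * (m + 1) - 1) (4 * m + 3) = insert (2 * (m + 1)) (Ioc (2 * (m + 1)) (4 * m + 3)) by
          ext i; simp only [mem_Ioc, mem_insert]; omega, prod_insert (by simp)]
    have c1 : (3 : (ZMod p)[X]) * lin p (2 * (m + 1)) = -(3 * X + 1) := by
      unfold lin
      have h0 : ((6 * (m + 1) + 1 : ℕ) : ZMod p) = 0 := by rw [← hk]; exact ZMod.natCast_self p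
      have h1 : C ((6 * (m + 1) + 1 : ℕ) : ZMod p) = 0 := by rw [h0, C_0]
      push_cast at h1 ⊢
      simp only [C_add, C_mul, C_1, map_ofNat] at h1 ⊢
      linear_combination h1
    have c2 : (3 : (ZMod p)[X]) * lin p (4 * (m + 1)) = -(3 * X + 2) := by
      unfold lin
      have h0 : ((6 * (m + 1) + 1 : ℕ) : ZMod p) = 0 := by rw [← hk]; exact ZMod.natCast_self p
      have h1 : C ((6 * (m + 1) + 1 : ℕ) : ZMod p) = 0 := by rw [h0, C_0]
      push_cast at h1 ⊢
      simp only [C_add, C_mul, C_1, map_ofNat] at h1 ⊢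
      linear_combination 2 * h1
    rw [e1, e2]
    linear_combination (∏ i ∈ Ioc (2 * (m + 1)) (4 * m + 3), lin p i) * lin p (4 * (m + 1)) * c1
      - (∏ i ∈ Ioc (2 * (m + 1)) (4 * m + 3), lin p i) * lin p (2 * (m + 1)) * c2
  · have h6 : p / 6 = k := by omega
    have h3 : p / 3 = 2 * k + 1 := by omega
    have hN : Num p * (Num p).comp (X + 1) = ∏ i ∈ Ioc (2 * k) (4 * k + 2), lin p i := by
      have := num_num p k (2 * k + 1) (by omega)
      unfold Num
      rw [h6, h3, this]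
      congr 2
      ring
    have hD : Den p * (Den p).comp (X + 1) = ∏ i ∈ Ioc (2 * k + 1) (4 * k + 3), lin p i := by
      have := den_den p k (2 * k + 1) (6 * k + 5) (by omega) (by omega) hk
      unfold Den
      rw [h6, h3, this]
      congr 2 <;> omega
    rw [hN, hD]
    have e1 : ∏ i ∈ Ioc (2 * k) (4 * k + 2), lin p i =
        lin p (2 * k + 1) * ∏ i ∈ Ioc (2 * k + 1) (4 * k + 2), lin p i := by
      rw [show Ioc (2 * k) (4 * k + 2) = insert (2 * k + 1) (Ioc (2 * k + 1) (4 * k + 2)) by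
          ext i; simp only [mem_Ioc, mem_insert]; omega, prod_insert (by simp)]
    have e2 : ∏ i ∈ Ioc (2 * k + 1) (4 * k + 3), lin p i =
        (∏ i ∈ Ioc (2 * k + 1) (4 * k + 2), lin p i) * lin p (4 * k + 3) := by
      rw [show 4 * k + 3 = (4 * k + 2) + 1 by ring, prod_Ioc_succ_top (by omega)]
    have h0 : ((6 * k + 5 : ℕ) : ZMod p) = 0 := by
      rw [← hk]; exact ZMod.natCast_self p
    have h1 : C ((6 * k + 5 : ℕ) : ZMod p) = 0 := by rw [h0, C_0]
    have c1 : (3 : (ZMod p)[X]) * lin p (4 * k + 3) = -(3 * X + 1) := by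
      unfold lin
      push_cast at h1 ⊢
      simp only [C_add, C_mul, C_1, map_ofNat] at h1 ⊢
      linear_combination 2 * h1
    have c2 : (3 : (ZMod p)[X]) * lin p (2 * k + 1) = -(3 * X + 2) := by
      unfold lin
      push_cast at h1 ⊢
      simp only [C_add, C_mul, C_1, map_ofNat] at h1 ⊢
      linear_combination h1
    rw [e1, e2]
    linear_combination -(∏ i ∈ Ioc (2 * k + 1) (4 * k + 2), lin p i) * lin p (4 * k + 3) * c2
      + (∏ i ∈ Ioc (2 * k + 1) (4 * k + 2), lin p i) * lin p (2 * k + 1) * c1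

/-! ### the harmonic sum -/

theorem sum_split {M : Type*} [AddCommMonoid M] (f : ℕ → M) (n : ℕ) :
    ∑ i ∈ Ioc 0 (2 * n), f i = ∑ j ∈ Ioc 0 n, (f (2 * j) + f (2 * j - 1)) := by
  have := prod_pair (M := Multiplicative M) (fun i => Multiplicative.ofAdd (f i)) 0 n
  simp only [mul_zero, zero_add] at this
  exact (congrArg Multiplicative.toAdd this).symm

theorem sum_reflect {M : Type*} [AddCommMonoid M] (f : ℕ → M) (a n c : ℕ) (h : a + n < c) :
    ∑ i ∈ Ioc a (a + n), f (c - i) = ∑ i ∈ Ioc (c - a - n - 1) (c - a - 1), f i :=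
  congrArg Multiplicative.toAdd
    (prod_reflect (M := Multiplicative M) (fun i => Multiplicative.ofAdd (f i)) a n c h)

/-- `∑_(p/6 < j < p/3) 1/j = - ∑_(j ≤ (p-1)/2) 1/j` -/
theorem third_harm (h5 : 5 ≤ p) :
    ∑ j ∈ Ioc (p / 6) (p / 3), ((j : ZMod p))⁻¹ = - ∑ j ∈ Ioc 0 (p / 2), ((j : ZMod p))⁻¹ := by
  have h2 : (2 : ZMod p) ≠ 0 := by
    intro h
    have : ((2 : ℕ) : ZMod p) = 0 := by exact_mod_cast h
    rw [ZMod.natCast_eq_zero_iff] at this
    exact absurd (Nat.le_of_dvd (by omega) this) (by omega)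
  set f : ℕ → ZMod p := fun j => ((j : ZMod p))⁻¹ with hf
  have hdbl : ∀ j, f (2 * j) = 2⁻¹ * f j := by
    intro j
    simp only [hf]
    push_cast
    rw [mul_inv]
  have hrefl : ∀ i j, i + 2 * j = p → f i = - (2⁻¹ * f j) := by
    intro i j hij
    rw [← hdbl]
    simp only [hf]
    have : ((i + 2 * j : ℕ) : ZMod p) = 0 := by rw [hij]; exact ZMod.natCast_self p
    push_cast at this ⊢
    rw [← inv_neg]
    congr 1
    linear_combination this
  have hadd : ∀ a b c : ℕ, a ≤ b → b ≤ c →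
      ∑ j ∈ Ioc a c, f j = ∑ j ∈ Ioc a b, f j + ∑ j ∈ Ioc b c, f j := by
    intro a b c hab hbc
    exact (sum_Ioc_consecutive f hab hbc).symm
  -- `h(0,p/3) = h(0,p/6)/2 - h(p/3,p/2)/2`
  have key : ∑ i ∈ Ioc 0 (p / 3), f i =
      2⁻¹ * ∑ j ∈ Ioc 0 (p / 6), f j - 2⁻¹ * ∑ j ∈ Ioc (p / 3) (p / 2), f j := by
    obtain ⟨k, hk | hk⟩ := six_cases p h5
    · obtain ⟨hk, hk1⟩ := hk
      have h6 : p / 6 = k := by omega
      have h3 : p / 3 = 2 * k := by omega
      have hM : p / 2 = 3 * k := by omega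
      rw [h6, h3, hM, sum_split, sum_add_distrib]
      have e1 : ∑ j ∈ Ioc 0 k, f (2 * j) = 2⁻¹ * ∑ j ∈ Ioc 0 k, f j := by
        rw [mul_sum]
        exact sum_congr rfl fun j _ => hdbl j
      have e2 : ∑ j ∈ Ioc 0 k, f (2 * j - 1) = - (2⁻¹ * ∑ j ∈ Ioc (2 * k) (3 * k), f j) := by
        have h7 := sum_reflect f 0 k (3 * k + 1) (by omega)
        rw [show 3 * k + 1 - 0 - k - 1 = 2 * k by omega,
          show 3 * k + 1 - 0 - 1 = 3 * k by omega, zero_add] at h7
        rw [← h7, mul_sum, ← sum_neg_distrib]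
        refine sum_congr rfl fun j hj => ?_
        have := mem_Ioc.1 hj
        exact hrefl _ _ (by omega)
      rw [e1, e2]
      ring
    · have h6 : p / 6 = k := by omega
      have h3 : p / 3 = 2 * k + 1 := by omega
      have hM : p / 2 = 3 * k + 2 := by omega
      rw [h6, h3, hM, sum_Ioc_succ_top (by omega), sum_split, sum_add_distrib]
      have e1 : ∑ j ∈ Ioc 0 k, f (2 * j) = 2⁻¹ * ∑ j ∈ Ioc 0 k, f j := by
        rw [mul_sum]
        exact sum_congr rfl fun j _ => hdbl j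
      have e2 : ∑ j ∈ Ioc 0 k, f (2 * j - 1) + f (2 * k + 1) =
          - (2⁻¹ * ∑ j ∈ Ioc (2 * k + 1) (3 * k + 2), f j) := by
        have h7 := sum_reflect f 0 (k + 1) (3 * k + 3) (by omega)
        rw [show 3 * k + 3 - 0 - (k + 1) - 1 = 2 * k + 1 by omega,
          show 3 * k + 3 - 0 - 1 = 3 * k + 2 by omega, zero_add] at h7
        rw [← h7, mul_sum, ← sum_neg_distrib, sum_Ioc_succ_top (by omega)]
        congr 1
        · refine sum_congr rfl fun j hj => ?_
          have := mem_Ioc.1 hj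
          exact hrefl _ _ (by omega)
        · exact hrefl _ _ (by omega)
      rw [e1, add_assoc, e2]
      ring
  have ha := hadd 0 (p / 6) (p / 3) (by omega) (by omega)
  have hb := hadd 0 (p / 3) (p / 2) (by omega) (by omega)
  have h22 : (2 : ZMod p) * 2⁻¹ = 1 := mul_inv_cancel₀ h2
  linear_combination 2 * key - ha + hb
    + (∑ j ∈ Ioc 0 (p / 6), f j - ∑ j ∈ Ioc (p / 3) (p / 2), f j) * h22

theorem sum_Ioc_range {M : Type*} [AddCommMonoid M] (g : ℕ → M) (n : ℕ) :
    ∑ j ∈ Ioc 0 n, g j = ∑ j ∈ range n, g (j + 1) := by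
  induction n with
  | zero => simp
  | succ n ih => rw [sum_Ioc_succ_top (by omega), ih, sum_range_succ]

theorem third_harm_zero (h5 : 5 ≤ p) (hw : Pool.Agent.H11.NW.Wf p) :
    ∑ j ∈ Ioc (p / 6) (p / 3), ((j : ZMod p))⁻¹ = 0 := by
  rw [third_harm p h5, neg_eq_zero, sum_Ioc_range]
  have h1 := Pool.Agent.H11.NW.harm_one_aux p (by omega) hw
  rw [← h1]
  refine sum_congr rfl fun j _ => ?_
  push_cast
  rfl

/-! ### degrees, values at zero, the first three coefficients -/

theorem Num_comp_neg : (Num p).comp (-X) = Den p := by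
  unfold Num Den
  rw [Polynomial.prod_comp]
  refine prod_congr rfl fun j _ => ?_
  rw [sub_comp, C_comp, X_comp, sub_neg_eq_add]

theorem Den_comp_neg : (Den p).comp (-X) = Num p := by
  unfold Num Den
  rw [Polynomial.prod_comp]
  refine prod_congr rfl fun j _ => ?_
  rw [add_comp, C_comp, X_comp, ← sub_eq_add_neg]

theorem Den_monic : (Den p).Monic := by
  unfold Den
  refine monic_prod_of_monic _ _ fun j _ => ?_
  rw [add_comm]
  exact monic_X_add_C _

theorem Den_natDegree : (Den p).natDegree = kk p := by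
  unfold Den
  rw [natDegree_prod_of_monic _ _ fun j _ => by rw [add_comm]; exact monic_X_add_C _]
  have h : ∀ j ∈ Ioc (p / 6) (p / 3), (C (((2 * j : ℕ) : ZMod p)) + X : (ZMod p)[X]).natDegree = 1 :=
    fun j _ => by rw [add_comm]; exact natDegree_X_add_C _
  rw [sum_congr rfl h]
  simp [kk]

theorem Num_natDegree : (Num p).natDegree = kk p := by
  rw [← Den_comp_neg, natDegree_comp, Den_natDegree p]
  simp

theorem Num_ne : Num p ≠ 0 := by
  intro h
  have h1 := congrArg (fun q => q.comp (-X)) h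
  simp only [Num_comp_neg, zero_comp] at h1
  exact (Den_monic p).ne_zero h1

theorem two_j_ne (h5 : 5 ≤ p) {j : ℕ} (hj : j ∈ Ioc (p / 6) (p / 3)) : ((2 * j : ℕ) : ZMod p) ≠ 0 := by
  intro h
  rw [ZMod.natCast_eq_zero_iff] at h
  have hj' := mem_Ioc.1 hj
  have := Nat.le_of_dvd (by omega) h
  omega

theorem Den_coeff_zero_ne (h5 : 5 ≤ p) : (Den p).coeff 0 ≠ 0 := by
  unfold Den
  rw [coeff_zero_prod]
  refine prod_ne_zero_iff.2 fun j hj => ?_
  simp only [coeff_add, coeff_C_zero, coeff_X_zero, add_zero]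
  exact two_j_ne p h5 hj

/-- modulo `X ^ 3` a product of `a_j - X` and the product of `a_j + X` agree when `∑ 1 / a_j = 0` -/
theorem prod_mod_cube {K : Type*} [Field K] (S : Finset ℕ) (a : ℕ → K) (ha : ∀ j ∈ S, a j ≠ 0)
    (hs : ∑ j ∈ S, (a j)⁻¹ = 0) :
    (X : K[X]) ^ 3 ∣ (∏ j ∈ S, (C (a j) - X)) - ∏ j ∈ S, (C (a j) + X) := by
  classical
  have gen : ∀ T : Finset ℕ, T ⊆ S → ∃ c : K, (X : K[X]) ^ 3 ∣
      (∏ j ∈ T, (C (a j) - X)) - C (∏ j ∈ T, a j) * (1 - C (∑ j ∈ T, (a j)⁻¹) * X + C c * X ^ 2) ∧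
      (X : K[X]) ^ 3 ∣
      (∏ j ∈ T, (C (a j) + X)) - C (∏ j ∈ T, a j) * (1 + C (∑ j ∈ T, (a j)⁻¹) * X + C c * X ^ 2) := by
    intro T
    induction T using Finset.induction_on with
    | empty =>
      intro _
      exact ⟨0, by simp, by simp⟩
    | insert i T hi ih =>
      intro hT
      obtain ⟨c, ⟨u, hu⟩, ⟨v, hv⟩⟩ := ih fun x hx => hT (mem_insert_of_mem hx)
      have hai : a i ≠ 0 := ha i (hT (mem_insert_self _ _))
      set P := ∏ j ∈ T, a j
      set s := ∑ j ∈ T, (a j)⁻¹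
      have hinv : C (a i) * C ((a i)⁻¹) = (1 : K[X]) := by
        rw [← C_mul, mul_inv_cancel₀ hai, C_1]
      refine ⟨c + (a i)⁻¹ * s, ?_, ?_⟩
      · rw [prod_insert hi, prod_insert hi, sum_insert hi]
        refine ⟨(C (a i) - X) * u - C P * C c, ?_⟩
        have : ∏ j ∈ T, (C (a j) - X) = X ^ 3 * u + C P * (1 - C s * X + C c * X ^ 2) := by
          rw [← hu]; ring
        rw [this]
        simp only [C_add, C_mul]
        linear_combination (C P * X - C P * C s * X ^ 2) * hinv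
      · rw [prod_insert hi, prod_insert hi, sum_insert hi]
        refine ⟨(C (a i) + X) * v + C P * C c, ?_⟩
        have : ∏ j ∈ T, (C (a j) + X) = X ^ 3 * v + C P * (1 + C s * X + C c * X ^ 2) := by
          rw [← hv]; ring
        rw [this]
        simp only [C_add, C_mul]
        linear_combination (- C P * X - C P * C s * X ^ 2) * hinv
  obtain ⟨c, ⟨u, hu⟩, ⟨v, hv⟩⟩ := gen S (Subset.refl _)
  rw [hs] at hu hv
  refine ⟨u - v, ?_⟩
  simp only [C_0, zero_mul, sub_zero, add_zero] at hu hv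
  linear_combination hu - hv

theorem cube_dvd (h5 : 5 ≤ p) (hw : Pool.Agent.H11.NW.Wf p) :
    (X : (ZMod p)[X]) ^ 3 ∣ Num p - Den p := by
  unfold Num Den
  refine prod_mod_cube _ (fun j => ((2 * j : ℕ) : ZMod p)) (fun j hj => two_j_ne p h5 hj) ?_
  have h1 := third_harm_zero p h5 hw
  have : ∑ j ∈ Ioc (p / 6) (p / 3), (((2 * j : ℕ) : ZMod p))⁻¹ =
      2⁻¹ * ∑ j ∈ Ioc (p / 6) (p / 3), ((j : ZMod p))⁻¹ := by
    rw [mul_sum]
    refine sum_congr rfl fun j _ => ?_
    push_cast
    rw [mul_inv]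
  rw [this, h1, mul_zero]

end

/-! ### the universal jets -/

/-- `(num_t, den_t)`: `num_(t+1) = (3(t+X)+2) den_t`, `den_(t+1) = (3(t+X)+1) num_t` -/
noncomputable def nd (R : Type*) [CommRing R] : ℕ → R[X] × R[X]
  | 0 => (1, 1)
  | t + 1 => ((C (3 * (t : R) + 2) + C 3 * X) * (nd R t).2, (C (3 * (t : R) + 1) + C 3 * X) * (nd R t).1)

theorem nd_zero (R : Type*) [CommRing R] : nd R 0 = (1, 1) := rfl

theorem nd_succ (R : Type*) [CommRing R] (t : ℕ) : nd R (t + 1) =
    ((C (3 * (t : R) + 2) + C 3 * X) * (nd R t).2, (C (3 * (t : R) + 1) + C 3 * X) * (nd R t).1) := rfl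

theorem nd_map {R S : Type*} [CommRing R] [CommRing S] (f : R →+* S) (t : ℕ) :
    ((nd R t).1.map f, (nd R t).2.map f) = nd S t := by
  induction t with
  | zero => simp [nd_zero]
  | succ t ih =>
    rw [nd_succ, nd_succ, ← ih]
    have h3 : f 3 = 3 := map_ofNat f 3
    have h2 : f 2 = 2 := map_ofNat f 2
    simp [Polynomial.map_mul, Polynomial.map_add, h3, h2]

section
variable (p : ℕ) [hp : Fact p.Prime]

theorem one_step_at (h5 : 5 ≤ p) (t : ℕ) :
    (C (3 * (t : ZMod p) + 1) + C 3 * X) *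
        ((Num p).comp (X + C (t : ZMod p)) * (Num p).comp (X + C ((t + 1 : ℕ) : ZMod p))) =
      (C (3 * (t : ZMod p) + 2) + C 3 * X) *
        ((Den p).comp (X + C (t : ZMod p)) * (Den p).comp (X + C ((t + 1 : ℕ) : ZMod p))) := by
  have h := congrArg (fun q => q.comp (X + C (t : ZMod p))) (one_step p h5)
  simp only [mul_comp, add_comp, X_comp, one_comp, ofNat_comp, comp_assoc] at h
  have e : (X + C ((t + 1 : ℕ) : ZMod p) : (ZMod p)[X]) = X + C (t : ZMod p) + 1 := by
    push_cast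
    simp only [C_add, C_1]
    ring
  rw [e]
  have h3 : (C (3 : ZMod p) : (ZMod p)[X]) = 3 := rfl
  have h2 : (C (2 : ZMod p) : (ZMod p)[X]) = 2 := rfl
  simp only [C_add, C_mul, C_1, h3, h2] at h ⊢
  linear_combination h

theorem comp_ne {q : (ZMod p)[X]} (hq : q ≠ 0) (t : ZMod p) : q.comp (X + C t) ≠ 0 := by
  intro h
  apply hq
  have h1 := congrArg (fun r => r.comp (X - C t)) h
  simp only [comp_assoc, zero_comp] at h1
  have h2 : ((X + C t : (ZMod p)[X]).comp (X - C t)) = X := by simp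
  rwa [h2, comp_X] at h1

/-- the exact identity over `ZMod p` -/
theorem exact (h5 : 5 ≤ p) (t : ℕ) :
    (Even t → (nd (ZMod p) t).2 * (Num p).comp (X + C (t : ZMod p)) * Den p =
      (nd (ZMod p) t).1 * (Den p).comp (X + C (t : ZMod p)) * Num p) ∧
    (¬ Even t → (nd (ZMod p) t).2 * (Num p).comp (X + C (t : ZMod p)) * Num p =
      (nd (ZMod p) t).1 * (Den p).comp (X + C (t : ZMod p)) * Den p) := by
  induction t with
  | zero =>
    refine ⟨fun _ => ?_, fun h => absurd (by decide) h⟩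
    simp only [nd_zero, Nat.cast_zero, C_0, add_zero, comp_X]
    ring
  | succ t ih =>
    have hs := one_step_at p h5 t
    have hN := comp_ne p (Num_ne p) (t : ZMod p)
    rw [nd_succ]
    refine ⟨fun he => ?_, fun he => ?_⟩
    · have ht : ¬ Even t := by
        intro h
        exact (Nat.even_add_one.1 he) h
      have h1 := ih.2 ht
      apply mul_right_cancel₀ hN
      simp only []
      linear_combination ((nd (ZMod p) t).1 * Den p) * hs
        - ((C (3 * (t : ZMod p) + 2) + C 3 * X) * (Den p).comp (X + C ((t + 1 : ℕ) : ZMod p))) * h1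
    · have ht : Even t := by
        by_contra h
        exact he (Nat.even_add_one.2 h)
      have h1 := ih.1 ht
      apply mul_right_cancel₀ hN
      simp only []
      linear_combination ((nd (ZMod p) t).1 * Num p) * hs
        - ((C (3 * (t : ZMod p) + 2) + C 3 * X) * (Den p).comp (X + C ((t + 1 : ℕ) : ZMod p))) * h1

/-- THE JETS at the node `t ≥ 0`, for every Wieferich prime `p ≥ 5` (no restriction on `t`) -/
theorem jets_nat (h5 : 5 ≤ p) (hw : Pool.Agent.H11.NW.Wf p) (t : ℕ) :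
    (X : (ZMod p)[X]) ^ 3 ∣ (nd (ZMod p) t).2 * (Num p).comp (X + C (t : ZMod p)) -
      (nd (ZMod p) t).1 * (Den p).comp (X + C (t : ZMod p)) := by
  have hc := cube_dvd p h5 hw
  have hcop : IsCoprime ((X : (ZMod p)[X]) ^ 3) (Den p) := by
    apply IsCoprime.pow_left
    rw [Irreducible.coprime_iff_not_dvd irreducible_X, X_dvd_iff]
    exact Den_coeff_zero_ne p h5
  obtain ⟨w, hw'⟩ := hc
  refine hcop.dvd_of_dvd_mul_right ?_
  by_cases ht : Even t
  · have h1 := (exact p h5 t).1 ht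
    refine ⟨(nd (ZMod p) t).1 * (Den p).comp (X + C (t : ZMod p)) * w, ?_⟩
    linear_combination h1 + (nd (ZMod p) t).1 * (Den p).comp (X + C (t : ZMod p)) * hw'
  · have h1 := (exact p h5 t).2 ht
    refine ⟨- ((nd (ZMod p) t).2 * (Num p).comp (X + C (t : ZMod p)) * w), ?_⟩
    linear_combination h1 - (nd (ZMod p) t).2 * (Num p).comp (X + C (t : ZMod p)) * hw'

/-- THE JETS at the node `-t`: here `num_(-t)(X) = den_t(-X)`, `den_(-t)(X) = num_t(-X)` -/
theorem jets_neg (h5 : 5 ≤ p) (hw : Pool.Agent.H11.NW.Wf p) (t : ℕ) :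
    (X : (ZMod p)[X]) ^ 3 ∣ (nd (ZMod p) t).1.comp (-X) * (Num p).comp (X - C (t : ZMod p)) -
      (nd (ZMod p) t).2.comp (-X) * (Den p).comp (X - C (t : ZMod p)) := by
  obtain ⟨w, hw'⟩ := jets_nat p h5 hw t
  have h := congrArg (fun q => q.comp (-X)) hw'
  simp only [sub_comp, mul_comp, comp_assoc, add_comp, X_comp, C_comp, pow_comp] at h
  have e : (-X + C (t : ZMod p) : (ZMod p)[X]) = (-X : (ZMod p)[X]).comp (X - C (t : ZMod p)) := by
    rw [neg_comp, X_comp]; ring
  rw [e, ← comp_assoc, ← comp_assoc, Num_comp_neg, Den_comp_neg] at h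
  refine ⟨w.comp (-X), ?_⟩
  have h9 : (-X : (ZMod p)[X]) ^ 3 = - X ^ 3 := by ring
  rw [h9] at h
  linear_combination - h

end

end Pool.Agent.H40.HF

end

section

/-!
# HF Ecls: the function `Ee`

`Ee q t` for the residue `c = t % q`: `1` for even `c ∈ (q/3, 2q/3)`, `-1` for odd `c ∈ (q/3, 2q/3)`, else `0`.
PROOF. `Ee q t` depends on `t % q` only. Symmetry: `(-t) % q = q - t % q` for `t % q ≠ 0`, `q` odd: the parity changes, and
`q - ⌊q/3⌋ = ⌊2q/3⌋ + 1` for `3 ∤ q`. `Ee_card`: odd `c` in `(⌊q/3⌋, ⌊2q/3⌋]`. `Ee_pole`: with the description of `(DN t).coeff 0` in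
`CntD.lean` (product of the `n < 3|t|`, `3 ∤ n`, with a parity condition): the only multiple of `q` below `3|t| < 2q` is `q`.
-/

set_option autoImplicit false

namespace Pool.Agent.H80.HF

open Finset

/-- a prime `q ≥ 5` is odd and not divisible by `3` -/
theorem ecls_odd (q : ℕ) (hq : q.Prime) (h5 : 5 ≤ q) : q % 2 = 1 ∧ q % 3 ≠ 0 := by
  refine ⟨?_, ?_⟩
  · rcases hq.eq_two_or_odd with h | h
    · omega
    · exact h
  · intro h
    have h1 : 3 ∣ q := Nat.dvd_of_mod_eq_zero h
    rcases (Nat.dvd_prime hq).1 h1 with h2 | h2 <;> omega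

theorem ecls_neg_emod (q : ℕ) (h0 : 0 < q) (t : ℤ) :
    (t % q = 0 ∧ (-t) % q = 0) ∨ (0 < t % q ∧ (-t) % (q : ℤ) = q - t % q) := by
  have hq0 : (0 : ℤ) < q := by exact_mod_cast h0
  have h1 : 0 ≤ t % q := Int.emod_nonneg _ hq0.ne'
  have h2 : t % q < q := Int.emod_lt_of_pos _ hq0
  have h3 := Int.emod_add_mul_ediv t q
  rcases h1.eq_or_lt with h | h
  · left
    refine ⟨h.symm, ?_⟩
    exact Int.emod_eq_zero_of_dvd (dvd_neg.2 (Int.dvd_of_emod_eq_zero h.symm))
  · right
    refine ⟨h, ?_⟩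
    have h4 : -t = (q - t % q) + q * (-(t / q) - 1) := by linear_combination h3
    rw [h4, Int.add_mul_emod_self_left, Int.emod_eq_of_lt (by omega) (by omega)]

theorem Ee_neg (q : ℕ) (hq : q.Prime) (h5 : 5 ≤ q) (t : ℤ) : Ee q (-t) = -Ee q t := by
  obtain ⟨ho, h3⟩ := ecls_odd q hq h5
  have hq0 : (0 : ℤ) < q := by exact_mod_cast hq.pos
  have h2 : t % q < q := Int.emod_lt_of_pos _ hq0
  rcases ecls_neg_emod q hq.pos t with ⟨h, h'⟩ | ⟨h, h'⟩
  · unfold Ee
    rw [h, h']
    have : ¬ (((q / 3 : ℕ) : ℤ) < 0 ∧ (0 : ℤ) ≤ ((2 * q / 3 : ℕ) : ℤ)) := by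
      rintro ⟨h1, -⟩
      omega
    rw [if_neg this, neg_zero]
  · unfold Ee
    rw [h']
    generalize t % (q : ℤ) = c at *
    split_ifs <;> omega

theorem Ee_vals (q : ℕ) (t : ℤ) : Ee q t = -1 ∨ Ee q t = 0 ∨ Ee q t = 1 := by
  unfold Ee
  split_ifs <;> simp

theorem Ee_mod (q : ℕ) (a b : ℤ) (h : a % q = b % q) : Ee q a = Ee q b := by
  unfold Ee
  rw [h]

theorem Ee_zero (q : ℕ) : Ee q 0 = 0 := by
  unfold Ee
  rw [Int.zero_emod, if_neg]
  rintro ⟨h1, -⟩
  omega

theorem Ee_sum (q : ℕ) (hq : q.Prime) (h5 : 5 ≤ q) : ∑ c ∈ range q, Ee q (c : ℤ) = 0 := by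
  obtain ⟨n, rfl⟩ : ∃ n, q = n + 1 := ⟨q - 1, by omega⟩
  rw [Finset.sum_range_succ', Nat.cast_zero, Ee_zero, add_zero]
  have h1 : ∑ c ∈ range n, Ee (n + 1) ((c + 1 : ℕ) : ℤ) =
      -∑ c ∈ range n, Ee (n + 1) ((c + 1 : ℕ) : ℤ) := by
    conv_lhs => rw [← Finset.sum_range_reflect]
    rw [← Finset.sum_neg_distrib]
    refine Finset.sum_congr rfl fun c hc => ?_
    have hc' := Finset.mem_range.1 hc
    rw [← Ee_neg (n + 1) hq h5]
    apply Ee_mod
    have h2 : (((n - 1 - c + 1 : ℕ) : ℤ)) = -((c + 1 : ℕ) : ℤ) + ((n + 1 : ℕ) : ℤ) * 1 := by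
      push_cast
      omega
    rw [h2, Int.add_mul_emod_self_left]
  omega

theorem Ee_card (q : ℕ) : ((range q).filter (fun c : ℕ => Ee q (c : ℤ) = -1)).card ≤ q / 6 + 2 := by
  have h1 : ((range q).filter (fun c : ℕ => Ee q (c : ℤ) = -1)).card ≤
      (Finset.Icc ((q / 3) / 2) ((2 * q / 3 - 1) / 2)).card := by
    refine Finset.card_le_card_of_injOn (fun c => c / 2) ?_ ?_
    · intro c hc
      simp only [Finset.coe_filter, Set.mem_ofPred_eq, Finset.mem_range] at hc
      obtain ⟨hc1, hc2⟩ := hc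
      have h3 : (c : ℤ) % (q : ℤ) = c := Int.emod_eq_of_lt (by omega) (by omega)
      unfold Ee at hc2
      rw [h3] at hc2
      simp only [Finset.coe_Icc, Set.mem_Icc]
      split_ifs at hc2
      omega
    · intro c hc d hd hcd
      simp only [Finset.coe_filter, Set.mem_ofPred_eq, Finset.mem_range] at hc hd
      obtain ⟨hc1, hc2⟩ := hc
      obtain ⟨hd1, hd2⟩ := hd
      have h3 : (c : ℤ) % (q : ℤ) = c := Int.emod_eq_of_lt (by omega) (by omega)
      have h4 : (d : ℤ) % (q : ℤ) = d := Int.emod_eq_of_lt (by omega) (by omega)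
      unfold Ee at hc2 hd2
      rw [h3] at hc2
      rw [h4] at hd2
      simp only at hcd
      split_ifs at hc2 hd2
      omega
  refine h1.trans ?_
  rw [Nat.card_Icc]
  omega

theorem ecls_lf (n : ℤ) : (lf n).coeff 0 = n := by
  simp [lf]

theorem ecls_NDp (n : ℕ) : ((NDp (n + 1)).1).coeff 0 = (3 * n + 2) * ((NDp n).2).coeff 0 ∧
    ((NDp (n + 1)).2).coeff 0 = (3 * n + 1) * ((NDp n).1).coeff 0 := by
  constructor
  · show (lf (3 * n + 2) * (NDp n).2).coeff 0 = _
    rw [Polynomial.mul_coeff_zero, ecls_lf]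
  · show (lf (3 * n + 1) * (NDp n).1).coeff 0 = _
    rw [Polynomial.mul_coeff_zero, ecls_lf]

theorem ecls_NDm (n : ℕ) : ((NDm (n + 1)).1).coeff 0 = (-(3 * n) - 1) * ((NDm n).2).coeff 0 ∧
    ((NDm (n + 1)).2).coeff 0 = (-(3 * n) - 2) * ((NDm n).1).coeff 0 := by
  constructor
  · show (lf (-(3 * n) - 1) * (NDm n).2).coeff 0 = _
    rw [Polynomial.mul_coeff_zero, ecls_lf]
  · show (lf (-(3 * n) - 2) * (NDm n).1).coeff 0 = _
    rw [Polynomial.mul_coeff_zero, ecls_lf]

/-- a positive multiple of `q` below `2q` is `q` -/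
theorem ecls_dvd {q : ℕ} {m : ℤ} (h0 : 0 < m) (h2 : m < 2 * q) (h : (q : ℤ) ∣ m) : m = q := by
  obtain ⟨k, rfl⟩ := h
  have hq0 : (0 : ℤ) < q := by
    by_contra hh
    have : (q : ℤ) = 0 := by omega
    rw [this, zero_mul] at h0
    exact lt_irrefl _ h0
  have hk1 : 0 < k := by
    by_contra hk
    have : (q : ℤ) * k ≤ 0 := mul_nonpos_of_nonneg_of_nonpos hq0.le (by omega)
    omega
  have hk2 : k < 2 := by
    by_contra hk
    have : (q : ℤ) * 2 ≤ q * k := mul_le_mul_of_nonneg_left (by omega) hq0.le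
    omega
  have : k = 1 := by omega
  rw [this, mul_one]

theorem ecls_p (q : ℕ) (hq : q.Prime) (h5 : 5 ≤ q) (n : ℕ) (hn : 3 * n < 2 * q) :
    ((q : ℤ) ∣ ((NDp n).2).coeff 0 → n % 2 = 1 ∧ q < 3 * n) ∧
    ((q : ℤ) ∣ ((NDp n).1).coeff 0 → n % 2 = 0 ∧ q < 3 * n) := by
  obtain ⟨ho, h3⟩ := ecls_odd q hq h5
  have hqp : Prime (q : ℤ) := Nat.prime_iff_prime_int.1 hq
  induction n with
  | zero =>
    have h1 : ¬ (q : ℤ) ∣ 1 := hqp.not_dvd_one
    constructor
    · intro h
      exfalso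
      apply h1
      simpa [NDp] using h
    · intro h
      exfalso
      apply h1
      simpa [NDp] using h
  | succ n ih =>
    obtain ⟨ih1, ih2⟩ := ih (by omega)
    obtain ⟨e1, e2⟩ := ecls_NDp n
    constructor
    · intro h
      rw [e2] at h
      rcases hqp.dvd_or_dvd h with h | h
      · have := ecls_dvd (by omega) (by omega) h
        omega
      · have := ih2 h
        omega
    · intro h
      rw [e1] at h
      rcases hqp.dvd_or_dvd h with h | h
      · have := ecls_dvd (by omega) (by omega) h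
        omega
      · have := ih1 h
        omega

theorem ecls_m (q : ℕ) (hq : q.Prime) (h5 : 5 ≤ q) (n : ℕ) (hn : 3 * n < 2 * q) :
    ((q : ℤ) ∣ ((NDm n).2).coeff 0 → n % 2 = 0 ∧ q < 3 * n) ∧
    ((q : ℤ) ∣ ((NDm n).1).coeff 0 → n % 2 = 1 ∧ q < 3 * n) := by
  obtain ⟨ho, h3⟩ := ecls_odd q hq h5
  have hqp : Prime (q : ℤ) := Nat.prime_iff_prime_int.1 hq
  induction n with
  | zero =>
    have h1 : ¬ (q : ℤ) ∣ 1 := hqp.not_dvd_one
    constructor
    · intro h
      exfalso
      apply h1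
      simpa [NDm] using h
    · intro h
      exfalso
      apply h1
      simpa [NDm] using h
  | succ n ih =>
    obtain ⟨ih1, ih2⟩ := ih (by omega)
    obtain ⟨e1, e2⟩ := ecls_NDm n
    constructor
    · intro h
      rw [e2] at h
      rcases hqp.dvd_or_dvd h with h | h
      · have := ecls_dvd (m := -(-(3 * (n : ℤ)) - 2)) (by omega) (by omega) (dvd_neg.2 h)
        omega
      · have := ih2 h
        omega
    · intro h
      rw [e1] at h
      rcases hqp.dvd_or_dvd h with h | h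
      · have := ecls_dvd (m := -(-(3 * (n : ℤ)) - 1)) (by omega) (by omega) (dvd_neg.2 h)
        omega
      · have := ih1 h
        omega

/-- at a node with `|t| < 2q/3` the denominator is divisible by `q` only if `Ee q t = -1` -/
theorem Ee_pole (q : ℕ) (hq : q.Prime) (h5 : 5 ≤ q) (t : ℤ) (ht : 3 * |t| < 2 * q) (hE : Ee q t ≠ -1) :
    ¬ (q : ℤ) ∣ (DN t).coeff 0 := by
  intro h
  apply hE
  obtain ⟨ho, h3⟩ := ecls_odd q hq h5
  have hq0 : (0 : ℤ) < q := by exact_mod_cast hq.pos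
  unfold DN at h
  split_ifs at h with h0
  · obtain ⟨n, rfl⟩ := Int.eq_ofNat_of_zero_le h0
    rw [Int.toNat_natCast] at h
    rw [abs_of_nonneg h0] at ht
    have h1 := (ecls_p q hq h5 n (by omega)).1 h
    unfold Ee
    rw [Int.emod_eq_of_lt (by omega) (by omega)]
    rw [if_pos (by omega), if_neg (by omega)]
  · obtain ⟨n, hn⟩ := Int.eq_ofNat_of_zero_le (a := -t) (by omega)
    rw [hn, Int.toNat_natCast] at h
    rw [abs_of_neg (by omega)] at ht
    have h1 := (ecls_m q hq h5 n (by omega)).1 h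
    have h2 : t = (q - n) + q * (-1) := by omega
    have h4 : t % (q : ℤ) = q - n := by
      rw [h2, Int.add_mul_emod_self_left, Int.emod_eq_of_lt (by omega) (by omega)]
    unfold Ee
    rw [h4, if_pos (by omega), if_neg (by omega)]

theorem ecls_iff_nonneg (q : ℕ) (n : ℕ) (hn : 3 * n < 2 * q) :
    Ee q (n : ℤ) = -1 ↔ q / 3 < n ∧ n % 2 = 1 := by
  unfold Ee
  rw [Int.emod_eq_of_lt (by omega) (by omega)]
  split_ifs <;> constructor <;> intro h <;> first | exact h.elim | omega

theorem ecls_iff_neg (q : ℕ) (hq : q.Prime) (h5 : 5 ≤ q) (n : ℕ) (hn : 3 * n < 2 * q) :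
    Ee q (-(n : ℤ)) = -1 ↔ q / 3 < n ∧ n % 2 = 0 := by
  rw [Ee_neg q hq h5]
  unfold Ee
  rw [Int.emod_eq_of_lt (by omega) (by omega)]
  split_ifs <;> constructor <;> intro h <;> first | exact h.elim | omega

/-- number of the nodes `|t| ≤ S`, `S < 2q/3`, with `Ee q t = -1` -/
theorem Ee_count (q : ℕ) (hq : q.Prime) (h5 : 5 ≤ q) (S : ℕ) (hS : 3 * S < 2 * q) :
    ((Icc (-(S : ℤ)) S).filter (fun t => Ee q t = -1)).card = S - q / 3 := by
  have h1 : ((Icc (-(S : ℤ)) S).filter (fun t => Ee q t = -1)).card = (Finset.Ioc (q / 3) S).card := by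
    refine Finset.card_nbij' (fun t => t.natAbs) (fun n => if n % 2 = 1 then (n : ℤ) else -(n : ℤ))
      ?_ ?_ ?_ ?_
    · intro t ht
      simp only [Finset.coe_filter, Set.mem_ofPred_eq, Finset.mem_Icc] at ht
      obtain ⟨⟨ha, hb⟩, hE⟩ := ht
      simp only [Finset.coe_Ioc, Set.mem_Ioc]
      rcases le_total 0 t with h0 | h0
      · obtain ⟨n, rfl⟩ := Int.eq_ofNat_of_zero_le h0
        have := (ecls_iff_nonneg q n (by omega)).1 hE
        omega
      · obtain ⟨n, hn⟩ := Int.eq_ofNat_of_zero_le (a := -t) (by omega)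
        have hn' : t = -(n : ℤ) := by omega
        rw [hn'] at hE
        have := (ecls_iff_neg q hq h5 n (by omega)).1 hE
        omega
    · intro n hn
      simp only [Finset.coe_Ioc, Set.mem_Ioc] at hn
      simp only [Finset.coe_filter, Set.mem_ofPred_eq, Finset.mem_Icc]
      split_ifs with hp
      · exact ⟨by omega, (ecls_iff_nonneg q n (by omega)).2 (by omega)⟩
      · exact ⟨by omega, (ecls_iff_neg q hq h5 n (by omega)).2 (by omega)⟩
    · intro t ht
      simp only [Finset.coe_filter, Set.mem_ofPred_eq, Finset.mem_Icc] at ht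
      obtain ⟨⟨ha, hb⟩, hE⟩ := ht
      rcases le_total 0 t with h0 | h0
      · obtain ⟨n, rfl⟩ := Int.eq_ofNat_of_zero_le h0
        have := (ecls_iff_nonneg q n (by omega)).1 hE
        simp only [Int.natAbs_natCast]
        rw [if_pos this.2]
      · obtain ⟨n, hn⟩ := Int.eq_ofNat_of_zero_le (a := -t) (by omega)
        have hn' : t = -(n : ℤ) := by omega
        rw [hn'] at hE
        have := (ecls_iff_neg q hq h5 n (by omega)).1 hE
        simp only [hn', Int.natAbs_neg, Int.natAbs_natCast]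
        rw [if_neg (by omega)]
    · intro n hn
      simp only
      split_ifs <;> omega
  rw [h1, Nat.card_Ioc]

end Pool.Agent.H80.HF

end

section

/-!
# HF Har: the harmonic sum between `p/6` and `p/3` vanishes for a Wieferich prime

See `Pool.Agent.H40.HF.third_harm`: with `h_A, h_B, h_C` the sums of `1/j` over `(0,p/6)`, `(p/6,p/3)`, `(p/3,p/2)` the even
and the odd numbers below `p/3` give `h_A + h_B = h_A/2 - h_C/2`, hence `h_B = -(h_A + h_B + h_C) = -H_((p-1)/2) = 2 q_p(2)`.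
-/

set_option autoImplicit false

namespace Pool.Agent.H80.HF

open Finset

theorem wf_of_wie {p : ℕ} (hW : Wie p) : Pool.Agent.H11.NW.Wf p := by
  have h1 : (1 : ℕ) ≤ 2 ^ (p - 1) := Nat.one_le_two_pow
  have h2 : ((p ^ 2 : ℕ) : ℤ) ∣ ((2 ^ (p - 1) - 1 : ℕ) : ℤ) := by
    rw [Nat.cast_sub h1]
    push_cast
    exact hW
  exact Int.natCast_dvd_natCast.1 h2

end Pool.Agent.H80.HF

end

section

/-!
# HF Prod: the product formula as an inequality
-/

set_option autoImplicit false

namespace Pool.Agent.H80.HF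

open Finset

theorem log_nat_eq (N : ℕ) (hN : N ≠ 0) (U : Finset ℕ) (hU : N.primeFactors ⊆ U)
    (hp : ∀ q ∈ U, q.Prime) : Real.log N = ∑ q ∈ U, (padicValNat q N : ℝ) * Real.log q := by
  conv_lhs => rw [← Nat.prod_factorization_pow_eq_self hN]
  rw [Nat.prod_factorization_eq_prod_primeFactors, Nat.cast_prod, Real.log_prod]
  · have h1 : ∀ q ∈ N.primeFactors, Real.log ((q ^ N.factorization q : ℕ) : ℝ)
        = (padicValNat q N : ℝ) * Real.log q := by
      intro q hq
      rw [Nat.cast_pow, Real.log_pow, Nat.factorization_def N (Nat.prime_of_mem_primeFactors hq)]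
    rw [sum_congr rfl h1]
    refine sum_subset hU fun q hq hqN => ?_
    have h2 : padicValNat q N = 0 := by
      refine padicValNat.eq_zero_of_not_dvd fun hd => hqN ?_
      exact Nat.mem_primeFactors.2 ⟨hp q hq, hd, hN⟩
    rw [h2, Nat.cast_zero, zero_mul]
  · intro q hq
    have := (Nat.prime_of_mem_primeFactors hq).pos
    positivity

theorem prod_le (D : ℚ) (hD : D ≠ 0) (S : Finset ℕ) (hS : ∀ q ∈ S, q.Prime)
    (h2 : ∀ q : ℕ, q.Prime → q ∉ S → 0 ≤ padicValRat q D) :
    ∑ q ∈ S, (padicValRat q D : ℝ) * Real.log q ≤ Real.log |(D : ℝ)| := by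
  classical
  set U := S ∪ D.num.natAbs.primeFactors ∪ D.den.primeFactors with hU
  have hUp : ∀ q ∈ U, q.Prime := by
    intro q hq
    rw [hU, mem_union, mem_union] at hq
    rcases hq with (h | h) | h
    · exact hS q h
    · exact Nat.prime_of_mem_primeFactors h
    · exact Nat.prime_of_mem_primeFactors h
  have hn : D.num.natAbs ≠ 0 := by
    rw [Ne, Int.natAbs_eq_zero]
    exact Rat.num_ne_zero.2 hD
  have e1 := log_nat_eq D.num.natAbs hn U (by
    intro q hq; rw [hU, mem_union, mem_union]; exact Or.inl (Or.inr hq)) hUp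
  have e2 := log_nat_eq D.den D.den_nz U (by
    intro q hq; rw [hU, mem_union, mem_union]; exact Or.inr hq) hUp
  have e3 : Real.log |(D : ℝ)| = ∑ q ∈ U, (padicValRat q D : ℝ) * Real.log q := by
    have h3 : |(D : ℝ)| = (D.num.natAbs : ℝ) / (D.den : ℝ) := by
      rw [Nat.cast_natAbs, Int.cast_abs]
      have h4 : (D : ℝ) = (D.num : ℝ) / (D.den : ℝ) := by
        exact_mod_cast (Rat.num_div_den D).symm
      rw [h4, abs_div, Nat.abs_cast]
    rw [h3, Real.log_div (by exact_mod_cast hn) (by exact_mod_cast D.den_nz), e1, e2,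
      ← sum_sub_distrib]
    refine sum_congr rfl fun q hq => ?_
    have h5 : padicValRat q D = (padicValNat q D.num.natAbs : ℤ) - (padicValNat q D.den : ℤ) := rfl
    rw [h5, Int.cast_sub, Int.cast_natCast, Int.cast_natCast]
    ring
  rw [e3]
  refine sum_le_sum_of_subset_of_nonneg (fun q hq => ?_) fun q hq hqS => ?_
  · rw [hU, mem_union, mem_union]; exact Or.inl (Or.inl hq)
  · refine mul_nonneg ?_ (Real.log_natCast_nonneg q)
    exact_mod_cast h2 q (hUp q hq) hqS

theorem val_of_norm (q : ℕ) (hq : q.Prime) (x : ℚ) (hx : x ≠ 0) (c : ℤ)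
    (h : padicNorm q x ≤ (q : ℚ) ^ c) : -c ≤ padicValRat q x := by
  have : Fact q.Prime := ⟨hq⟩
  rw [padicNorm.eq_zpow_of_nonzero hx] at h
  have h1 : (1 : ℚ) < q := by exact_mod_cast hq.one_lt
  have := (zpow_le_zpow_iff_right₀ h1).1 h
  linarith

theorem prod_formula (x : ℚ) (hx : x ≠ 0) (Z : ℕ) (c : ℕ → ℤ)
    (h1 : ∀ q : ℕ, q.Prime → q ≤ Z → padicNorm q x ≤ (q : ℚ) ^ (c q))
    (h3 : ∀ q : ℕ, q.Prime → Z < q → padicNorm q x ≤ 1) :
    0 ≤ Real.log |(x : ℝ)| + ∑ q ∈ (Icc 1 Z).filter Nat.Prime, (c q : ℝ) * Real.log q := by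
  have h4 := prod_le x hx ((Icc 1 Z).filter Nat.Prime) (fun q hq => (mem_filter.1 hq).2)
    (fun q hq hqS => by
      have h5 : Z < q := by
        by_contra h6
        exact hqS (mem_filter.2 ⟨mem_Icc.2 ⟨hq.one_lt.le, not_lt.1 h6⟩, hq⟩)
      have := val_of_norm q hq x hx 0 (by rw [zpow_zero]; exact h3 q hq h5)
      linarith)
  have h5 : ∑ q ∈ (Icc 1 Z).filter Nat.Prime, (-(c q : ℝ)) * Real.log q
      ≤ ∑ q ∈ (Icc 1 Z).filter Nat.Prime, (padicValRat q x : ℝ) * Real.log q := by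
    refine sum_le_sum fun q hq => ?_
    obtain ⟨h6, h7⟩ := mem_filter.1 hq
    refine mul_le_mul_of_nonneg_right ?_ (Real.log_natCast_nonneg q)
    exact_mod_cast val_of_norm q h7 x hx (c q) (h1 q h7 (mem_Icc.1 h6).2)
  have h6 : ∑ q ∈ (Icc 1 Z).filter Nat.Prime, (-(c q : ℝ)) * Real.log q
      = -∑ q ∈ (Icc 1 Z).filter Nat.Prime, (c q : ℝ) * Real.log q := by
    rw [← sum_neg_distrib]
    exact sum_congr rfl fun q _ => by ring
  linarith

end Pool.Agent.H80.HF

end

section

/-!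
# HF Fact: sums of `log i!`

PROOF. `∑_(q ≤ L) v_q(i!) log q = log i! - ∑_(L < q ≤ i) v_q(i!) log q` (`q` prime; `∏ q^(v_q(n)) = n`), and `v_q(i!) = ⌊i/q⌋` for
`q² > i` (true for `q > L ≥ 3`, `i < 3L`). Stirling: `log i! ≥ i log i - i`,
`∑_(i < n) (i log i - i) ≥ (n²/2) log n - (3/4) n² - O(n log n)`, twice with `n = 3L`.
-/

set_option autoImplicit false

namespace Pool.Agent.H80.HF

open Finset

theorem val_eq (q i : ℕ) (hq : q.Prime) (h : i < q ^ 2) : padicValNat q i.factorial = i / q := by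
  have : Fact q.Prime := ⟨hq⟩
  rw [padicValNat_factorial (Nat.log_lt_of_lt_pow' (by norm_num) h : Nat.log q i < 2)]
  rw [show Ico 1 2 = {1} from rfl, sum_singleton, pow_one]

theorem log_fac_split (L i : ℕ) (hi : i < 3 * L) :
    Real.log (i.factorial : ℝ) =
      ∑ q ∈ (Icc 1 L).filter Nat.Prime, (padicValNat q i.factorial : ℝ) * Real.log q +
        ∑ q ∈ (Ioc L (3 * L)).filter Nat.Prime, ((i / q : ℕ) : ℝ) * Real.log q := by
  rw [log_nat_eq i.factorial i.factorial_ne_zero ((Icc 1 (3 * L)).filter Nat.Prime) (by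
    intro q hq
    have hp := Nat.prime_of_mem_primeFactors hq
    have hd := (hp.dvd_factorial).1 (Nat.dvd_of_mem_primeFactors hq)
    exact mem_filter.2 ⟨mem_Icc.2 ⟨hp.one_lt.le, by omega⟩, hp⟩)
    (fun q hq => (mem_filter.1 hq).2)]
  have e : (Icc 1 (3 * L)).filter Nat.Prime
      = (Icc 1 L).filter Nat.Prime ∪ (Ioc L (3 * L)).filter Nat.Prime := by
    ext q
    simp only [mem_filter, mem_union, mem_Icc, mem_Ioc]
    constructor
    · rintro ⟨⟨h1, h2⟩, h3⟩
      rcases Nat.lt_or_ge L q with h4 | h4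
      · exact Or.inr ⟨⟨h4, h2⟩, h3⟩
      · exact Or.inl ⟨⟨h1, h4⟩, h3⟩
    · rintro (⟨⟨h1, h2⟩, h3⟩ | ⟨⟨h1, h2⟩, h3⟩)
      · exact ⟨⟨h1, by omega⟩, h3⟩
      · exact ⟨⟨by omega, h2⟩, h3⟩
  have hdis : Disjoint ((Icc 1 L).filter Nat.Prime) ((Ioc L (3 * L)).filter Nat.Prime) := by
    rw [Finset.disjoint_left]
    intro q h1 h2
    have h3 := mem_Icc.1 (mem_filter.1 h1).1
    have h4 := mem_Ioc.1 (mem_filter.1 h2).1
    omega
  rw [e, sum_union hdis]
  congr 1
  refine sum_congr rfl fun q hq => ?_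
  obtain ⟨h1, h2⟩ := mem_filter.1 hq
  obtain ⟨h3, h4⟩ := mem_Ioc.1 h1
  rw [val_eq q i h2]
  have h5 : (L + 1) * (L + 1) ≤ q * q := Nat.mul_le_mul h3 h3
  have h6 := Nat.le_mul_self L
  nlinarith

theorem fact_split (L : ℕ) (hL : 3 ≤ L) :
    ∑ q ∈ (Icc 1 L).filter Nat.Prime, ((∑ i ∈ range (3 * L), padicValNat q i.factorial : ℕ) : ℝ) * Real.log q =
      ∑ i ∈ range (3 * L), Real.log (i.factorial : ℝ) -
        ∑ q ∈ (Ioc L (3 * L)).filter Nat.Prime, ((∑ i ∈ range (3 * L), i / q : ℕ) : ℝ) * Real.log q := by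
  have h0 := hL
  have e1 : ∑ i ∈ range (3 * L), Real.log (i.factorial : ℝ) =
      ∑ i ∈ range (3 * L), (∑ q ∈ (Icc 1 L).filter Nat.Prime,
        (padicValNat q i.factorial : ℝ) * Real.log q +
        ∑ q ∈ (Ioc L (3 * L)).filter Nat.Prime, ((i / q : ℕ) : ℝ) * Real.log q) :=
    sum_congr rfl fun i hi => log_fac_split L i (mem_range.1 hi)
  rw [e1, sum_add_distrib, sum_comm (s := range (3 * L)) (t := (Icc 1 L).filter Nat.Prime),
    sum_comm (s := range (3 * L)) (t := (Ioc L (3 * L)).filter Nat.Prime)]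
  have e2 : ∀ q ∈ (Icc 1 L).filter Nat.Prime, ∑ i ∈ range (3 * L),
      (padicValNat q i.factorial : ℝ) * Real.log q
      = ((∑ i ∈ range (3 * L), padicValNat q i.factorial : ℕ) : ℝ) * Real.log q := by
    intro q _
    rw [← sum_mul, Nat.cast_sum]
  have e3 : ∀ q ∈ (Ioc L (3 * L)).filter Nat.Prime, ∑ i ∈ range (3 * L),
      ((i / q : ℕ) : ℝ) * Real.log q = ((∑ i ∈ range (3 * L), i / q : ℕ) : ℝ) * Real.log q := by
    intro q _
    rw [← sum_mul, Nat.cast_sum]
  rw [sum_congr rfl e2, sum_congr rfl e3]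
  ring

theorem log_fac_ge (n : ℕ) : (n : ℝ) * Real.log n - n ≤ Real.log (n.factorial : ℝ) := by
  induction n with
  | zero => simp
  | succ n ih =>
    rcases Nat.eq_zero_or_pos n with rfl | hn
    · simp
    have hn0 : (0 : ℝ) < n := by exact_mod_cast hn
    rw [Nat.factorial_succ, Nat.cast_mul, Real.log_mul (by positivity) (by positivity)]
    have h1 : Real.log ((n : ℝ) + 1) ≤ Real.log n + 1 / n := by
      have h2 : Real.log (((n : ℝ) + 1) / n) ≤ ((n : ℝ) + 1) / n - 1 :=
        Real.log_le_sub_one_of_pos (by positivity)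
      rw [Real.log_div (by positivity) (by positivity)] at h2
      have h3 : ((n : ℝ) + 1) / n - 1 = 1 / n := by field_simp; ring
      linarith
    have h4 : (n : ℝ) * Real.log (n + 1) ≤ n * Real.log n + 1 := by
      calc (n : ℝ) * Real.log (n + 1) ≤ n * (Real.log n + 1 / n) :=
            mul_le_mul_of_nonneg_left h1 hn0.le
        _ = n * Real.log n + 1 := by field_simp
    push_cast
    nlinarith

theorem log_sf_ge (n : ℕ) : (n : ℝ) ^ 2 / 2 * Real.log n - 3 / 4 * (n : ℝ) ^ 2 - n * Real.log n - 5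
    ≤ ∑ i ∈ range n, Real.log (i.factorial : ℝ) := by
  induction n with
  | zero => simp
  | succ n ih =>
    rw [sum_range_succ]
    have h0 := log_fac_ge n
    rcases Nat.lt_or_ge n 3 with h3 | h3
    · have hs : 0 ≤ ∑ i ∈ range n, Real.log (i.factorial : ℝ) :=
        sum_nonneg fun i _ => Real.log_natCast_nonneg _
      have hf : 0 ≤ Real.log (n.factorial : ℝ) := Real.log_natCast_nonneg _
      have hl2 := Real.log_two_lt_d9
      have hl2' := Real.log_two_gt_d9
      interval_cases n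
      · norm_num at *
      · norm_num at *
      · norm_num at *
        have : Real.log 3 ≤ 2 := by
          have := Real.log_le_sub_one_of_pos (show (0 : ℝ) < 3 by norm_num)
          linarith
        nlinarith
    · have hn0 : (0 : ℝ) < n := by positivity
      have hn3 : (3 : ℝ) ≤ n := by exact_mod_cast h3
      set l := Real.log (n : ℝ) with hl
      have h1 : Real.log ((n : ℝ) + 1) ≤ l + 1 / n := by
        have h2 : Real.log (((n : ℝ) + 1) / n) ≤ ((n : ℝ) + 1) / n - 1 :=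
          Real.log_le_sub_one_of_pos (by positivity)
        rw [Real.log_div (by positivity) (by positivity)] at h2
        have h3 : ((n : ℝ) + 1) / n - 1 = 1 / n := by field_simp; ring
        linarith
      have hlog3 : (1 : ℝ) ≤ l := by
        have e1 : (1 : ℝ) ≤ Real.log 3 := by
          have : Real.exp 1 < 3 := by linarith [Real.exp_one_lt_d9]
          rw [← Real.log_exp 1]
          exact Real.log_le_log (Real.exp_pos _) this.le
        exact e1.trans (Real.log_le_log (by norm_num) hn3)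
      have h5 : (((n : ℝ) + 1) ^ 2 / 2 - (n + 1)) * Real.log (n + 1)
          ≤ (((n : ℝ) + 1) ^ 2 / 2 - (n + 1)) * (l + 1 / n) := by
        refine mul_le_mul_of_nonneg_left h1 ?_
        nlinarith
      have h6 : (((n : ℝ) + 1) ^ 2 / 2 - (n + 1)) * (l + 1 / n)
          = ((n : ℝ) ^ 2 / 2 - 1 / 2) * l + (n / 2 - 1 / (2 * n)) := by
        field_simp
        ring
      have h7 : (0 : ℝ) ≤ 1 / (2 * n) := by positivity
      push_cast
      nlinarith

theorem fact_low : ∃ C : ℝ, 0 ≤ C ∧ ∀ L : ℕ, 1 ≤ L →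
    9 / 2 * (L : ℝ) ^ 2 * Real.log (3 * L) - 27 / 4 * (L : ℝ) ^ 2 - C * L * (1 + Real.log L) ≤
      ∑ i ∈ range (3 * L), Real.log (i.factorial : ℝ) := by
  have h30 : 0 ≤ Real.log (3 : ℝ) := Real.log_nonneg (by norm_num)
  refine ⟨3 * (1 + Real.log 3) + 5, by positivity, fun L hL => ?_⟩
  have h1 := log_sf_ge (3 * L)
  have hL1 : (1 : ℝ) ≤ L := by exact_mod_cast hL
  have h3 : 0 ≤ Real.log (3 : ℝ) := Real.log_nonneg (by norm_num)
  have hl : 0 ≤ Real.log (L : ℝ) := Real.log_nonneg hL1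
  have e : Real.log (3 * (L : ℝ)) = Real.log 3 + Real.log L := by
    rw [Real.log_mul (by norm_num) (by positivity)]
  push_cast at h1
  have h4 : 3 * (L : ℝ) * Real.log (3 * L) + 5
      ≤ (3 * (1 + Real.log 3) + 5) * L * (1 + Real.log L) := by
    rw [e]
    have e2 : (3 * (1 + Real.log 3) + 5) * (L : ℝ) * (1 + Real.log L)
        - (3 * (L : ℝ) * (Real.log 3 + Real.log L) + 5)
        = 3 * L + 3 * (Real.log 3 * Real.log L) * L + 5 * (L - 1) + 5 * (L * Real.log L) := by
      ring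
    have h5 : 0 ≤ (Real.log 3 * Real.log L) * (L : ℝ) := by positivity
    have h6 : 0 ≤ (L : ℝ) * Real.log L := by positivity
    linarith
  have e3 : (3 * (L : ℝ)) ^ 2 / 2 * Real.log (3 * L) - 3 / 4 * (3 * (L : ℝ)) ^ 2
      = 9 / 2 * (L : ℝ) ^ 2 * Real.log (3 * L) - 27 / 4 * (L : ℝ) ^ 2 := by ring
  linarith

end Pool.Agent.H80.HF

end

section

/-!
# The partition criterion for a power `q` of `p`

`splits_of_S3_q`: as `splits_of_S3`, with the Frobenius map `x ↦ x ^ q`, `q = p ^ g`.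
-/

namespace H85FD

open Finset

section

variable {Ω : Type*} [Field Ω] {p q : ℕ} {α Q : Type*} [Fintype α] [Fintype Q]
  {T : α → Ω} {κ : α → Q} {f : Q → ℕ}

open Classical in
theorem weight_inv_q (h : Fam q T κ f) {x : Ω} (_ : Per q x) :
    fs (Dm h {cls q x⁻¹}) = fs (Dm h {cls q x}) := by
  rw [fs_Dm, fs_Dm]
  obtain ⟨σ, hσ⟩ := h.s3.1
  have hσ' : ∀ v, T (σ v) = (T v)⁻¹ := fun v => eq_inv_of_mul_eq_one_left (hσ v)
  refine card_bij' (fun i _ => σ.symm i) (fun i _ => σ i) ?_ ?_ ?_ ?_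
  · intro i hi
    simp only [mem_filter, mem_univ, true_and] at hi ⊢
    have h1 := hσ' (σ.symm i)
    rw [Equiv.apply_symm_apply] at h1
    rw [h1, cls_eq_iff (h.perT _).inv] at hi
    rw [cls_eq_iff (h.perT _)]
    have h2 := hi.inv
    rwa [inv_inv, inv_inv] at h2
  · intro i hi
    simp only [mem_filter, mem_univ, true_and] at hi ⊢
    rw [cls_eq_iff (h.perT _)] at hi
    rw [hσ', cls_eq_iff (h.perT _).inv]
    exact hi.inv
  · intro i _
    simp
  · intro i _
    simp

variable [Fact p.Prime] [CharP Ω p]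

open Classical in
theorem weight_sub_q (hq : ∃ g, q = p ^ g) (h : Fam q T κ f) {x : Ω} (_ : Per q x) :
    fs (Dm h {cls q (1 - x)}) = fs (Dm h {cls q x}) := by
  rw [fs_Dm, fs_Dm]
  obtain ⟨σ, hσ'⟩ := h.s3.2
  refine card_bij' (fun i _ => σ.symm i) (fun i _ => σ i) ?_ ?_ ?_ ?_
  · intro i hi
    simp only [mem_filter, mem_univ, true_and] at hi ⊢
    have h1 := hσ' (σ.symm i)
    rw [Equiv.apply_symm_apply] at h1
    rw [h1, cls_eq_iff ((h.perT _).subq hq)] at hi
    rw [cls_eq_iff (h.perT _)]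
    have h2 := hi.subq hq
    rwa [sub_sub_cancel, sub_sub_cancel] at h2
  · intro i hi
    simp only [mem_filter, mem_univ, true_and] at hi ⊢
    rw [cls_eq_iff (h.perT _)] at hi
    rw [hσ', cls_eq_iff ((h.perT _).subq hq)]
    exact hi.subq hq
  · intro i _
    simp
  · intro i _
    simp

theorem weight_rch_q (hq : ∃ g, q = p ^ g) (h : Fam q T κ f) {x y : Ω} (hx : Per q x)
    (hxy : Rch x y) :
    fs (Dm h {cls q y}) = fs (Dm h {cls q x}) := by
  induction hxy with
  | refl => rfl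
  | inv hy ih => rw [weight_inv_q h (hy.perq hq hx), ih]
  | sub hy ih => rw [weight_sub_q hq h (hy.perq hq hx), ih]

omit [Fintype α] in
theorem Inv.rchq (hq : ∃ g, q = p ^ g) {C : Finset (Set Ω)} (hC : Inv q T C) {x y : Ω}
    (hx : Per q x)
    (hxC : cls q x ∈ C) (hxy : Rch x y) : cls q y ∈ C := by
  induction hxy with
  | refl => exact hxC
  | inv hy ih => exact hC.inv _ (hy.perq hq hx) ih
  | sub hy ih => exact hC.sub _ (hy.perq hq hx) ih

theorem splits_aux_q (hp : 5 ≤ p) (hq : ∃ g, q = p ^ g) (h : Fam q T κ f) {W : Prop}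
    (hW : (∃ i, T i = -1) → W) :
    ∀ (N : ℕ) (C : Finset (Set Ω)), C.card ≤ N → Inv q T C → Splits (q % 3) W (Dm h C) := by
  classical
  intro N
  induction N with
  | zero =>
    intro C hN _
    have : C = ∅ := by
      rw [← card_eq_zero]
      omega
    rw [this, Dm_empty]
    exact Splits.nil
  | succ N ih =>
    intro C hN hC
    rcases C.eq_empty_or_nonempty with hE | ⟨X, hX⟩
    · rw [hE, Dm_empty]
      exact Splits.nil
    obtain ⟨i, rfl⟩ := hC.mem X hX
    have hx := h.perT i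
    obtain ⟨n, y, hb⟩ := orbit_q hp hq (h.s3.ne_zero i) (h.s3.ne_one i) hx
    have hyP : ∀ j, Per q (y j) := fun j => (hb.rch j).perq hq hx
    have hyC : ∀ j, cls q (y j) ∈ C := fun j => hC.rchq hq hx hX (hb.rch j)
    have hinj : Function.Injective (fun j => cls q (y j)) := by
      intro j j' hj
      exact hb.dist j j' ((cls_eq_iff (hyP j)).mp hj)
    set G : Finset (Set Ω) := univ.image (fun j => cls q (y j)) with hG
    have hGC : G ⊆ C := by
      intro Y hY
      obtain ⟨j, -, rfl⟩ := mem_image.mp hY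
      exact hyC j
    -- `x` lies in one of the classes of the block
    have hn : 0 < n := by
      rcases hb.kind with h1 | h1 | h1 | h1
      · omega
      · omega
      · omega
      · omega
    have hcard : (C \ G).card ≤ N := by
      have h1 : G.card = n := by
        rw [hG, card_image_of_injective _ hinj, card_univ, Fintype.card_fin]
      have h2 := card_sdiff_add_card_eq_card hGC
      omega
    have hInv : Inv q T (C \ G) := by
      refine ⟨fun Y hY => hC.mem Y (mem_sdiff.mp hY).1, ?_, ?_⟩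
      · intro z hz hzC
        rw [mem_sdiff] at hzC ⊢
        refine ⟨hC.inv z hz hzC.1, fun hzG => hzC.2 ?_⟩
        obtain ⟨j, -, hj⟩ := mem_image.mp hzG
        have h1 := ((cls_eq_iff (hyP j)).mp hj)
        -- `Cj (y j) z⁻¹`
        obtain ⟨j', hj'⟩ := hb.inv j
        have h2 : Cj q (y j') z := by
          have h3 := h1.inv
          rw [inv_inv] at h3
          exact (hj'.symm (hyP j).inv).trans h3
        exact mem_image.mpr ⟨j', mem_univ _, (cls_eq_iff (hyP j')).mpr h2⟩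
      · intro z hz hzC
        rw [mem_sdiff] at hzC ⊢
        refine ⟨hC.sub z hz hzC.1, fun hzG => hzC.2 ?_⟩
        obtain ⟨j, -, hj⟩ := mem_image.mp hzG
        have h1 := ((cls_eq_iff (hyP j)).mp hj)
        obtain ⟨j', hj'⟩ := hb.sub j
        have h2 : Cj q (y j') z := by
          have h3 := h1.subq hq
          rw [sub_sub_cancel] at h3
          exact (hj'.symm ((hyP j).subq hq)).trans h3
        exact mem_image.mpr ⟨j', mem_univ _, (cls_eq_iff (hyP j')).mpr h2⟩
    have hsplit : Dm h C = ∑ j, Dm h {cls q (y j)} + Dm h (C \ G) := by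
      rw [← Dm_image h (fun j => cls q (y j)) hinj, ← hG, ← Dm_union h disjoint_sdiff]
      congr 1
      exact (union_sdiff_of_subset hGC).symm
    -- degrees of the places of the block
    have hdeg : ∀ k ∈ ∑ j, Dm h {cls q (y j)}, ∃ j, y j ^ q ^ k.2 = y j := by
      intro k hk
      obtain ⟨j, -, hj⟩ := Multiset.mem_sum.mp hk
      obtain ⟨P, hP, hkP⟩ := mem_Dm h hj
      refine ⟨j, ?_⟩
      obtain ⟨i', rfl⟩ := h.surj P
      rw [cl_apply h, cls_eq_iff (h.perT _)] at hP
      obtain ⟨m, hm⟩ := hP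
      rw [hkP, hm, ← pow_mul, mul_comm, pow_mul, h.per]
    rw [hsplit]
    refine Splits.block n _ _ ?_ ?_ (ih _ hcard hInv)
    · rcases hb.kind with h1 | ⟨h1, h2 | h2⟩ | ⟨h1, h2 | h2⟩ | ⟨h1, h2, h3⟩
      · exact Or.inl h1
      · refine Or.inr (Or.inl ⟨h1, Or.inl (hW ?_)⟩)
        obtain ⟨j, hj⟩ := h2
        obtain ⟨i', hi'⟩ := hC.mem _ (hyC j)
        refine ⟨i', ?_⟩
        obtain ⟨m, hm⟩ := (cls_eq_iff (hyP j)).mp hi'
        rw [hm, hj]
        exact ((odd_q hp hq).pow).neg_one_pow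
      · refine Or.inr (Or.inl ⟨h1, Or.inr fun k hk => ?_⟩)
        obtain ⟨j, hj⟩ := hdeg k hk
        exact h2 j _ hj
      · exact Or.inr (Or.inr (Or.inl ⟨h1, Or.inl h2⟩))
      · refine Or.inr (Or.inr (Or.inl ⟨h1, Or.inr fun k hk => ?_⟩))
        obtain ⟨j, hj⟩ := hdeg k hk
        exact h2 j _ hj
      · refine Or.inr (Or.inr (Or.inr ⟨h1, h2, fun k hk => ?_⟩))
        obtain ⟨j, hj⟩ := hdeg k hk
        exact h3 j _ hj
    · intro j j'
      rw [weight_rch_q hq h hx (hb.rch j), weight_rch_q hq h hx (hb.rch j')]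

end

/-- THE PARTITION CRITERION for a power `q` of `p` -/
theorem splits_of_S3_q {Ω : Type*} [Field Ω] {p q : ℕ} [Fact p.Prime] [CharP Ω p] (hp : 5 ≤ p)
    (hq : ∃ g, q = p ^ g)
    {α Q : Type*} [Fintype α] [Fintype Q] {T : α → Ω} {κ : α → Q} {f : Q → ℕ}
    (hS : H52FD.S3 T) (hκ : Function.Surjective κ)
    (hconj : ∀ i j, κ i = κ j → ∃ k : ℕ, T j = T i ^ q ^ k)
    (hper : ∀ i, T i ^ q ^ f (κ i) = T i) (hf : ∀ P, 0 < f P) {W : Prop}
    (hW : (∃ i, T i = -1) → W) :
    Splits (q % 3) W ((univ : Finset Q).val.map fun P => (Nat.card {i // κ i = P}, f P)) := by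
  classical
  have h : Fam q T κ f := ⟨hS, hκ, hconj, hper, hf⟩
  have hmain := splits_aux_q hp hq h hW _ (univ.image fun i => cls q (T i)) le_rfl
    ⟨fun X hX => by
      obtain ⟨i, -, rfl⟩ := mem_image.mp hX
      exact ⟨i, rfl⟩, fun x hx hxC => by
      obtain ⟨i, -, hi⟩ := mem_image.mp hxC
      obtain ⟨σ, hσ⟩ := hS.1
      refine mem_image.mpr ⟨σ i, mem_univ _, ?_⟩
      rw [eq_inv_of_mul_eq_one_left (hσ i), cls_eq_iff (h.perT i).inv]
      exact ((cls_eq_iff (h.perT i)).mp hi).inv, fun x hx hxC => by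
      obtain ⟨i, -, hi⟩ := mem_image.mp hxC
      obtain ⟨σ, hσ⟩ := hS.2
      refine mem_image.mpr ⟨σ i, mem_univ _, ?_⟩
      rw [hσ i, cls_eq_iff ((h.perT i).subq hq)]
      exact ((cls_eq_iff (h.perT i)).mp hi).subq hq⟩
  have e : Dm h (univ.image fun i => cls q (T i)) =
      (univ : Finset Q).val.map fun P => (Nat.card {i // κ i = P}, f P) := by
    unfold Dm
    have e1 : univ.filter (fun P => cl h P ∈ univ.image fun i => cls q (T i)) = univ := by
      rw [filter_true_of_mem]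
      intro P _
      obtain ⟨i, rfl⟩ := hκ P
      rw [cl_apply h]
      exact mem_image.mpr ⟨i, mem_univ _, rfl⟩
    rw [e1]
    refine Multiset.map_congr rfl fun P _ => ?_
    rw [Nat.card_eq_fintype_card, Fintype.card_subtype]
    rfl
  rw [← e]
  exact hmain

end H85FD

end

section

/-!
# The partition criterion for the places themselves, the cubic places separated

`div_of_S3`: a family `T : α → Ω` which is stable under the anharmonic group and is distributed over the
places `P ∈ Q`, members over the same place being conjugate under `x ↦ x ^ q`: the multiset of the places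
can be divided into groups and parts of equal weight, of the kinds `KindP`.
-/

namespace H85FD

open Finset

section

variable {Ω : Type*} [Field Ω] {p q : ℕ} {α Q : Type*} [Fintype α] [Fintype Q]
  {T : α → Ω} {κ : α → Q} {f : Q → ℕ}

/-- the kinds of groups of places -/
def KindP (q : ℕ) (T : α → Ω) (κ : α → Q) (f : Q → ℕ) (m : ℕ) (G : Multiset Q) : Prop :=
  ((∀ P ∈ G, ∀ i, κ i = P → T i ^ 2 - T i + 1 = 0) ∧
    ((m = 1 ∧ q % 3 = 2 ∧ ∀ P ∈ G, Even (f P)) ∨ (m = 2 ∧ q % 3 = 1))) ∨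
  ((∀ P ∈ G, ∀ i, κ i = P → T i ^ 2 - T i + 1 ≠ 0) ∧
    (m = 6 ∨ (m = 3 ∧ ((∃ i, T i = -1) ∨ ∀ P ∈ G, Even (f P))) ∨ (m = 2 ∧ ∀ P ∈ G, 3 ∣ f P)))

/-- the weight of a multiset of places -/
noncomputable def ws (κ : α → Q) (M : Multiset Q) : ℕ := (M.map (fib κ)).sum

open Classical in
/-- the multiset of the places whose class is in `C` -/
noncomputable def Dp (h : Fam q T κ f) (C : Finset (Set Ω)) : Multiset Q :=
  (univ.filter (fun P => cl h P ∈ C)).val

theorem Dp_empty (h : Fam q T κ f) : Dp h ∅ = 0 := by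
  classical
  unfold Dp
  simp

open Classical in
theorem Dp_union (h : Fam q T κ f) {C C' : Finset (Set Ω)} (hd : Disjoint C C') :
    Dp h (C ∪ C') = Dp h C + Dp h C' := by
  unfold Dp
  have e : univ.filter (fun P => cl h P ∈ C ∪ C') =
      (univ.filter (fun P => cl h P ∈ C)).disjUnion (univ.filter (fun P => cl h P ∈ C')) (by
        rw [Finset.disjoint_left]
        intro P hP hP'
        rw [mem_filter] at hP hP'
        exact (Finset.disjoint_left.mp hd) hP.2 hP'.2) := by
    ext P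
    simp
  rw [e]
  rfl

open Classical in
theorem Dp_image (h : Fam q T κ f) {n : ℕ} (X : Fin n → Set Ω) (hX : Function.Injective X) :
    Dp h (univ.image X) = ∑ j, Dp h {X j} := by
  have key : ∀ s : Finset (Fin n), Dp h (s.image X) = ∑ j ∈ s, Dp h {X j} := by
    intro s
    induction s using Finset.induction_on with
    | empty => rw [image_empty, Dp_empty, sum_empty]
    | insert a s ha ih =>
      rw [sum_insert ha, ← ih, image_insert, insert_eq, Dp_union]
      rw [disjoint_singleton_left, mem_image]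
      rintro ⟨b, hb, hba⟩
      exact ha (hX hba ▸ hb)
  exact key univ

open Classical in
/-- the weight of a class -/
theorem ws_Dp (h : Fam q T κ f) (X : Set Ω) :
    ws κ (Dp h {X}) = (univ.filter (fun i => cls q (T i) = X)).card := by
  unfold ws Dp
  show ∑ P ∈ univ.filter (fun P => cl h P ∈ ({X} : Finset (Set Ω))), fib κ P = _
  rw [card_eq_sum_card_fiberwise (f := κ) (t := univ.filter (fun P => cl h P ∈ ({X} : Finset (Set Ω))))]
  · refine sum_congr rfl fun P hP => ?_
    unfold fib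
    congr 1
    ext i
    simp only [mem_filter, mem_univ, true_and, mem_singleton] at hP ⊢
    constructor
    · intro hi
      exact ⟨by rw [← cl_apply h, hi, hP], hi⟩
    · exact fun hi => hi.2
  · intro i hi
    simp only [coe_filter, mem_univ, true_and, Set.mem_ofPred_eq, mem_singleton] at hi ⊢
    rw [cl_apply h, hi]

theorem mem_Dp (h : Fam q T κ f) {X : Set Ω} {P : Q} (hP : P ∈ Dp h {X}) : cl h P = X := by
  classical
  unfold Dp at hP
  rw [Finset.mem_val, mem_filter, mem_singleton] at hP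
  exact hP.2

/-- roots of `X² - X + 1` are preserved by Frobenius -/
theorem root_cj [Fact p.Prime] [CharP Ω p] (hq : ∃ g, q = p ^ g) {x y : Ω} (h : Cj q x y) :
    y ^ 2 - y + 1 = 0 ↔ x ^ 2 - x + 1 = 0 := by
  obtain ⟨g, rfl⟩ := hq
  obtain ⟨k, rfl⟩ := h
  have e0 : (p ^ g) ^ k = p ^ (g * k) := (pow_mul p g k).symm
  rw [e0]
  have e : (x ^ p ^ (g * k)) ^ 2 - x ^ p ^ (g * k) + 1 = (x ^ 2 - x + 1) ^ p ^ (g * k) := by
    have h1 := map_add (iterateFrobenius Ω p (g * k)) (x ^ 2 - x) 1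
    have h2 := map_sub (iterateFrobenius Ω p (g * k)) (x ^ 2) x
    simp only [iterateFrobenius_def, one_pow] at h1 h2
    rw [h1, h2, ← pow_mul, ← pow_mul, mul_comm 2]
  rw [e]
  constructor
  · intro h
    exact pow_eq_zero_iff (pow_pos (Nat.Prime.pos Fact.out) _).ne' |>.mp h
  · intro h
    rw [h, zero_pow (pow_pos (Nat.Prime.pos Fact.out) _).ne']

open Classical in
theorem weight_inv_c (h : Fam q T κ f) {x : Ω} (_ : Per q x) :
    ws κ (Dp h {cls q x⁻¹}) = ws κ (Dp h {cls q x}) := by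
  rw [ws_Dp, ws_Dp]
  obtain ⟨σ, hσ⟩ := h.s3.1
  have hσ' : ∀ v, T (σ v) = (T v)⁻¹ := fun v => eq_inv_of_mul_eq_one_left (hσ v)
  refine card_bij' (fun i _ => σ.symm i) (fun i _ => σ i) ?_ ?_ ?_ ?_
  · intro i hi
    simp only [mem_filter, mem_univ, true_and] at hi ⊢
    have h1 := hσ' (σ.symm i)
    rw [Equiv.apply_symm_apply] at h1
    rw [h1, cls_eq_iff (h.perT _).inv] at hi
    rw [cls_eq_iff (h.perT _)]
    have h2 := hi.inv
    rwa [inv_inv, inv_inv] at h2
  · intro i hi
    simp only [mem_filter, mem_univ, true_and] at hi ⊢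
    rw [cls_eq_iff (h.perT _)] at hi
    rw [hσ', cls_eq_iff (h.perT _).inv]
    exact hi.inv
  · intro i _
    simp
  · intro i _
    simp

variable [Fact p.Prime] [CharP Ω p]

open Classical in
theorem weight_sub_c (hq : ∃ g, q = p ^ g) (h : Fam q T κ f) {x : Ω} (_ : Per q x) :
    ws κ (Dp h {cls q (1 - x)}) = ws κ (Dp h {cls q x}) := by
  rw [ws_Dp, ws_Dp]
  obtain ⟨σ, hσ'⟩ := h.s3.2
  refine card_bij' (fun i _ => σ.symm i) (fun i _ => σ i) ?_ ?_ ?_ ?_
  · intro i hi
    simp only [mem_filter, mem_univ, true_and] at hi ⊢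
    have h1 := hσ' (σ.symm i)
    rw [Equiv.apply_symm_apply] at h1
    rw [h1, cls_eq_iff ((h.perT _).subq hq)] at hi
    rw [cls_eq_iff (h.perT _)]
    have h2 := hi.subq hq
    rwa [sub_sub_cancel, sub_sub_cancel] at h2
  · intro i hi
    simp only [mem_filter, mem_univ, true_and] at hi ⊢
    rw [cls_eq_iff (h.perT _)] at hi
    rw [hσ', cls_eq_iff ((h.perT _).subq hq)]
    exact hi.subq hq
  · intro i _
    simp
  · intro i _
    simp

theorem weight_rch_c (hq : ∃ g, q = p ^ g) (h : Fam q T κ f) {x y : Ω} (hx : Per q x)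
    (hxy : Rch x y) :
    ws κ (Dp h {cls q y}) = ws κ (Dp h {cls q x}) := by
  induction hxy with
  | refl => rfl
  | inv hy ih => rw [weight_inv_c h (hy.perq hq hx), ih]
  | sub hy ih => rw [weight_sub_c hq h (hy.perq hq hx), ih]

omit [Fintype α] in
theorem Inv.rchc (hq : ∃ g, q = p ^ g) {C : Finset (Set Ω)} (hC : Inv q T C) {x y : Ω}
    (hx : Per q x)
    (hxC : cls q x ∈ C) (hxy : Rch x y) : cls q y ∈ C := by
  induction hxy with
  | refl => exact hxC
  | inv hy ih => exact hC.inv _ (hy.perq hq hx) ih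
  | sub hy ih => exact hC.sub _ (hy.perq hq hx) ih

theorem div_aux (hp : 5 ≤ p) (hq : ∃ g, q = p ^ g) (h : Fam q T κ f) :
    ∀ (N : ℕ) (C : Finset (Set Ω)), C.card ≤ N → Inv q T C →
      Div (fib κ) (KindP q T κ f) (Dp h C) := by
  classical
  intro N
  induction N with
  | zero =>
    intro C hN _
    have : C = ∅ := by
      rw [← card_eq_zero]
      omega
    rw [this, Dp_empty]
    exact Div.nil
  | succ N ih =>
    intro C hN hC
    rcases C.eq_empty_or_nonempty with hE | ⟨X, hX⟩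
    · rw [hE, Dp_empty]
      exact Div.nil
    obtain ⟨i, rfl⟩ := hC.mem X hX
    have hx := h.perT i
    obtain ⟨n, y, hb⟩ := orbit_c hp hq (h.s3.ne_zero i) (h.s3.ne_one i) hx
    have hyP : ∀ j, Per q (y j) := fun j => (hb.rch j).perq hq hx
    have hyC : ∀ j, cls q (y j) ∈ C := fun j => hC.rchc hq hx hX (hb.rch j)
    have hinj : Function.Injective (fun j => cls q (y j)) := by
      intro j j' hj
      exact hb.dist j j' ((cls_eq_iff (hyP j)).mp hj)
    set G : Finset (Set Ω) := univ.image (fun j => cls q (y j)) with hG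
    have hGC : G ⊆ C := by
      intro Y hY
      obtain ⟨j, -, rfl⟩ := mem_image.mp hY
      exact hyC j
    -- `x` lies in one of the classes of the block
    have hn : 0 < n := by
      rcases hb.kind with ⟨-, h1 | h1⟩ | ⟨-, h1 | h1 | h1⟩
      · omega
      · omega
      · omega
      · omega
      · omega
    have hcard : (C \ G).card ≤ N := by
      have h1 : G.card = n := by
        rw [hG, card_image_of_injective _ hinj, card_univ, Fintype.card_fin]
      have h2 := card_sdiff_add_card_eq_card hGC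
      omega
    have hInv : Inv q T (C \ G) := by
      refine ⟨fun Y hY => hC.mem Y (mem_sdiff.mp hY).1, ?_, ?_⟩
      · intro z hz hzC
        rw [mem_sdiff] at hzC ⊢
        refine ⟨hC.inv z hz hzC.1, fun hzG => hzC.2 ?_⟩
        obtain ⟨j, -, hj⟩ := mem_image.mp hzG
        have h1 := ((cls_eq_iff (hyP j)).mp hj)
        -- `Cj (y j) z⁻¹`
        obtain ⟨j', hj'⟩ := hb.inv j
        have h2 : Cj q (y j') z := by
          have h3 := h1.inv
          rw [inv_inv] at h3
          exact (hj'.symm (hyP j).inv).trans h3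
        exact mem_image.mpr ⟨j', mem_univ _, (cls_eq_iff (hyP j')).mpr h2⟩
      · intro z hz hzC
        rw [mem_sdiff] at hzC ⊢
        refine ⟨hC.sub z hz hzC.1, fun hzG => hzC.2 ?_⟩
        obtain ⟨j, -, hj⟩ := mem_image.mp hzG
        have h1 := ((cls_eq_iff (hyP j)).mp hj)
        obtain ⟨j', hj'⟩ := hb.sub j
        have h2 : Cj q (y j') z := by
          have h3 := h1.subq hq
          rw [sub_sub_cancel] at h3
          exact (hj'.symm ((hyP j).subq hq)).trans h3
        exact mem_image.mpr ⟨j', mem_univ _, (cls_eq_iff (hyP j')).mpr h2⟩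
    have hsplit : Dp h C = ∑ j, Dp h {cls q (y j)} + Dp h (C \ G) := by
      rw [← Dp_image h (fun j => cls q (y j)) hinj, ← hG, ← Dp_union h disjoint_sdiff]
      congr 1
      exact (union_sdiff_of_subset hGC).symm
    -- degrees of the places of the block
    have hdeg : ∀ P ∈ ∑ j, Dp h {cls q (y j)}, ∃ j, y j ^ q ^ f P = y j := by
      intro P hP
      obtain ⟨j, -, hj⟩ := Multiset.mem_sum.mp hP
      have hP := mem_Dp h hj
      refine ⟨j, ?_⟩
      obtain ⟨i', rfl⟩ := h.surj P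
      rw [cl_apply h, cls_eq_iff (h.perT _)] at hP
      obtain ⟨m, hm⟩ := hP
      rw [hm, ← pow_mul, mul_comm, pow_mul, h.per]
    -- roots
    have hroot : ∀ P ∈ ∑ j, Dp h {cls q (y j)}, ∀ i', κ i' = P →
        (T i ^ 2 - T i + 1 = 0 ↔ T i' ^ 2 - T i' + 1 = 0) := by
      intro P hP i' hi'
      obtain ⟨j, -, hj⟩ := Multiset.mem_sum.mp hP
      have hP := mem_Dp h hj
      rw [← hi', cl_apply h, cls_eq_iff (h.perT _)] at hP
      rw [(hb.rch j).root_iff (h.s3.ne_zero i) (h.s3.ne_one i)]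
      exact root_cj hq hP
    rw [hsplit]
    refine Div.group n _ _ ?_ ?_ (ih _ hcard hInv)
    · rcases hb.kind with ⟨hr, ⟨h1, h2, h3⟩ | ⟨h1, h2⟩⟩ | ⟨hr, h1 | ⟨h1, h2⟩ | ⟨h1, h2⟩⟩
      · refine Or.inl ⟨fun P hP i' hi' => (hroot P hP i' hi').mp hr, Or.inl ⟨h1, h2, fun P hP => ?_⟩⟩
        obtain ⟨j, hj⟩ := hdeg P hP
        exact h3 j _ hj
      · exact Or.inl ⟨fun P hP i' hi' => (hroot P hP i' hi').mp hr, Or.inr ⟨h1, h2⟩⟩
      · exact Or.inr ⟨fun P hP i' hi' h4 => hr ((hroot P hP i' hi').mpr h4), Or.inl h1⟩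
      · refine Or.inr ⟨fun P hP i' hi' h4 => hr ((hroot P hP i' hi').mpr h4),
          Or.inr (Or.inl ⟨h1, ?_⟩)⟩
        rcases h2 with ⟨j, hj⟩ | h2
        · left
          obtain ⟨i', hi'⟩ := hC.mem _ (hyC j)
          refine ⟨i', ?_⟩
          obtain ⟨m, hm⟩ := (cls_eq_iff (hyP j)).mp hi'
          rw [hm, hj]
          exact ((odd_q hp hq).pow).neg_one_pow
        · right
          intro P hP
          obtain ⟨j, hj⟩ := hdeg P hP
          exact h2 j _ hj
      · refine Or.inr ⟨fun P hP i' hi' h4 => hr ((hroot P hP i' hi').mpr h4),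
          Or.inr (Or.inr ⟨h1, fun P hP => ?_⟩)⟩
        obtain ⟨j, hj⟩ := hdeg P hP
        exact h2 j _ hj
    · intro j j'
      have e1 := weight_rch_c hq h hx (hb.rch j)
      have e2 := weight_rch_c hq h hx (hb.rch j')
      exact e1.trans e2.symm

end

/-- THE PARTITION CRITERION for the places -/
theorem div_of_S3 {Ω : Type*} [Field Ω] {p q : ℕ} [Fact p.Prime] [CharP Ω p] (hp : 5 ≤ p)
    (hq : ∃ g, q = p ^ g) {α Q : Type*} [Fintype α] [Fintype Q] {T : α → Ω} {κ : α → Q} {f : Q → ℕ}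
    (hS : H52FD.S3 T) (hκ : Function.Surjective κ)
    (hconj : ∀ i j, κ i = κ j → ∃ k : ℕ, T j = T i ^ q ^ k)
    (hper : ∀ i, T i ^ q ^ f (κ i) = T i) (hf : ∀ P, 0 < f P) :
    Div (fun P => Nat.card {i // κ i = P}) (KindP q T κ f) (univ : Finset Q).val := by
  classical
  have h : Fam q T κ f := ⟨hS, hκ, hconj, hper, hf⟩
  have hmain := div_aux hp hq h _ (univ.image fun i => cls q (T i)) le_rfl
    ⟨fun X hX => by
      obtain ⟨i, -, rfl⟩ := mem_image.mp hX
      exact ⟨i, rfl⟩, fun x hx hxC => by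
      obtain ⟨i, -, hi⟩ := mem_image.mp hxC
      obtain ⟨σ, hσ⟩ := hS.1
      refine mem_image.mpr ⟨σ i, mem_univ _, ?_⟩
      rw [eq_inv_of_mul_eq_one_left (hσ i), cls_eq_iff (h.perT i).inv]
      exact ((cls_eq_iff (h.perT i)).mp hi).inv, fun x hx hxC => by
      obtain ⟨i, -, hi⟩ := mem_image.mp hxC
      obtain ⟨σ, hσ⟩ := hS.2
      refine mem_image.mpr ⟨σ i, mem_univ _, ?_⟩
      rw [hσ i, cls_eq_iff ((h.perT i).subq hq)]
      exact ((cls_eq_iff (h.perT i)).mp hi).subq hq⟩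
  have e : Dp h (univ.image fun i => cls q (T i)) = (univ : Finset Q).val := by
    unfold Dp
    congr 1
    rw [filter_true_of_mem]
    intro P _
    obtain ⟨i, rfl⟩ := hκ P
    rw [cl_apply h]
    exact mem_image.mpr ⟨i, mem_univ _, rfl⟩
  rw [e] at hmain
  refine hmain.mono (fun P _ => ?_) fun m G _ hG => hG
  rw [Nat.card_eq_fintype_card, Fintype.card_subtype]
  rfl

end H85FD

end

section

/-!
# The partition criterion, explicit form

`Parts wt m M`: the multiset `M` can be divided into `m` parts of equal weight.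
`parts_of_S3`: the places which carry roots of `X² - X + 1` have even degree (`q = 2` modulo `3`) or can be
divided into two parts of equal weight (`q = 1` modulo `3`); the other places form three groups which can
be divided into `6`, `3`, `2` parts of equal weight, the degrees in the second group being even unless `-1`
is a member of the family, those in the third divisible by `3`.
-/

namespace H85FD

open Finset

/-- `M` can be divided into `m` parts of equal weight -/
def Parts {α : Type*} (wt : α → ℕ) (m : ℕ) (M : Multiset α) : Prop :=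
  ∃ A : Fin m → Multiset α, M = ∑ i, A i ∧ ∀ i j, ((A i).map wt).sum = ((A j).map wt).sum

section

variable {α : Type*} {wt : α → ℕ} {m : ℕ} {M M' : Multiset α}

theorem Parts.zero : Parts wt m (0 : Multiset α) :=
  ⟨fun _ => 0, by rw [sum_const_zero], fun _ _ => rfl⟩

theorem Parts.add (h : Parts wt m M) (h' : Parts wt m M') : Parts wt m (M + M') := by
  obtain ⟨A, rfl, hA⟩ := h
  obtain ⟨A', rfl, hA'⟩ := h'
  refine ⟨fun i => A i + A' i, by rw [sum_add_distrib], fun i j => ?_⟩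
  rw [Multiset.map_add, Multiset.map_add, Multiset.sum_add, Multiset.sum_add, hA i j, hA' i j]

theorem Parts.three_of_six (h : Parts wt 6 M) : Parts wt 3 M := by
  obtain ⟨A, rfl, hA⟩ := h
  have key : ∀ i : Fin 3, (((![A 0 + A 1, A 2 + A 3, A 4 + A 5] : Fin 3 → Multiset α) i).map wt).sum =
      ((A 0).map wt).sum + ((A 0).map wt).sum := by
    intro i
    fin_cases i
    · show ((A 0 + A 1).map wt).sum = _
      rw [Multiset.map_add, Multiset.sum_add, hA 1 0]
    · show ((A 2 + A 3).map wt).sum = _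
      rw [Multiset.map_add, Multiset.sum_add, hA 2 0, hA 3 0]
    · show ((A 4 + A 5).map wt).sum = _
      rw [Multiset.map_add, Multiset.sum_add, hA 4 0, hA 5 0]
  refine ⟨![A 0 + A 1, A 2 + A 3, A 4 + A 5], ?_, fun i j => by rw [key, key]⟩
  rw [Fin.sum_univ_six, Fin.sum_univ_three]
  show A 0 + A 1 + A 2 + A 3 + A 4 + A 5 = (A 0 + A 1) + (A 2 + A 3) + (A 4 + A 5)
  abel

/-- change of the elements -/
theorem Parts.map {β : Type*} {wt' : β → ℕ} (h : Parts wt m M) (g : α → β)
    (hwt : ∀ a, wt' (g a) = wt a) : Parts wt' m (M.map g) := by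
  obtain ⟨A, rfl, hA⟩ := h
  refine ⟨fun i => (A i).map g, map_sum_fin A g, fun i j => ?_⟩
  rw [Multiset.map_map, Multiset.map_map]
  have e : (wt' ∘ g) = wt := funext hwt
  rw [e]
  exact hA i j

/-- change of the weight -/
theorem Parts.congr {wt' : α → ℕ} (h : Parts wt m M) (hwt : ∀ a ∈ M, wt' a = wt a) :
    Parts wt' m M := by
  obtain ⟨A, rfl, hA⟩ := h
  have h1 : ∀ i, (A i).map wt' = (A i).map wt := fun i =>
    Multiset.map_congr rfl fun a ha => hwt a (Multiset.mem_sum.mpr ⟨i, mem_univ _, ha⟩)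
  exact ⟨A, rfl, fun i j => by rw [h1, h1]; exact hA i j⟩

end

/-- the explicit form, for two predicates `cub` (cubic) and `W` -/
structure Split4 {α : Type*} (wt f : α → ℕ) (cub : α → Prop) (r : ℕ) (W : Prop)
    (M E M6 M3 M2 : Multiset α) : Prop where
  eq : M = E + (M6 + M3 + M2)
  cubE : ∀ v ∈ E, cub v
  cubN : ∀ v ∈ M6 + M3 + M2, ¬ cub v
  even : r = 2 → ∀ v ∈ E, Even (f v)
  two : r = 1 → Parts wt 2 E
  p6 : Parts wt 6 M6
  p3 : Parts wt 3 M3
  e3 : W ∨ ∀ v ∈ M3, Even (f v)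
  p2 : Parts wt 2 M2
  d2 : ∀ v ∈ M2, 3 ∣ f v

/-- THE PARTITION CRITERION, explicit form -/
theorem parts_of_S3 {Ω : Type*} [Field Ω] {p q : ℕ} [Fact p.Prime] [CharP Ω p] (hp : 5 ≤ p)
    (hq : ∃ g, q = p ^ g) {α Q : Type*} [Fintype α] [Fintype Q] {T : α → Ω} {κ : α → Q} {f : Q → ℕ}
    (hS : H52FD.S3 T) (hκ : Function.Surjective κ)
    (hconj : ∀ i j, κ i = κ j → ∃ k : ℕ, T j = T i ^ q ^ k)
    (hper : ∀ i, T i ^ q ^ f (κ i) = T i) (hf : ∀ P, 0 < f P) {cub : Q → Prop}
    (hcub : ∀ i, cub (κ i) ↔ T i ^ 2 - T i + 1 = 0) {W : Prop} (hW : (∃ i, T i = -1) → W) :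
    ∃ E M6 M3 M2, Split4 (fun P => Nat.card {i // κ i = P}) f cub (q % 3) W
      (univ : Finset Q).val E M6 M3 M2 := by
  classical
  have h := div_of_S3 hp hq hS hκ hconj hper hf
  have hc1 : ∀ G : Multiset Q, (∀ P ∈ G, ∀ i, κ i = P → T i ^ 2 - T i + 1 = 0) →
      ∀ P ∈ G, cub P := by
    intro G hG P hP
    obtain ⟨i, rfl⟩ := hκ P
    exact (hcub i).mpr (hG _ hP i rfl)
  have hc2 : ∀ G : Multiset Q, (∀ P ∈ G, ∀ i, κ i = P → T i ^ 2 - T i + 1 ≠ 0) →
      ∀ P ∈ G, ¬ cub P := by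
    intro G hG P hP hcon
    obtain ⟨i, rfl⟩ := hκ P
    exact hG _ hP i rfl ((hcub i).mp hcon)
  generalize (univ : Finset Q).val = M0 at h ⊢
  induction h with
  | nil =>
    exact ⟨0, 0, 0, 0, ⟨rfl, fun v hv => absurd hv (Multiset.notMem_zero v),
      fun v hv => absurd hv (Multiset.notMem_zero v), fun _ v hv => absurd hv (Multiset.notMem_zero v),
      fun _ => Parts.zero, Parts.zero, Parts.zero,
      Or.inr fun v hv => absurd hv (Multiset.notMem_zero v), Parts.zero,
      fun v hv => absurd hv (Multiset.notMem_zero v)⟩⟩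
  | group m A M hK hA _ ih =>
    obtain ⟨E, M6, M3, M2, h1⟩ := ih
    have hP : Parts (fun P => Nat.card {i // κ i = P}) m (∑ i, A i) := ⟨A, rfl, hA⟩
    generalize hG : (∑ i, A i) = G at hK hP ⊢
    rcases hK with ⟨hr, ⟨rfl, h2, h3⟩ | ⟨rfl, h2⟩⟩ | ⟨hr, rfl | ⟨rfl, h2⟩ | ⟨rfl, h2⟩⟩
    · refine ⟨G + E, M6, M3, M2, ⟨by rw [h1.eq]; abel, fun v hv => ?_, h1.cubN, fun _ v hv => ?_,
        fun h4 => ?_, h1.p6, h1.p3, h1.e3, h1.p2, h1.d2⟩⟩
      · rcases Multiset.mem_add.mp hv with h | h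
        · exact hc1 _ hr v h
        · exact h1.cubE v h
      · rcases Multiset.mem_add.mp hv with h | h
        · exact h3 v h
        · exact h1.even h2 v h
      · omega
    · refine ⟨G + E, M6, M3, M2, ⟨by rw [h1.eq]; abel, fun v hv => ?_, h1.cubN, fun h4 => ?_,
        fun _ => hP.add (h1.two h2), h1.p6, h1.p3, h1.e3, h1.p2, h1.d2⟩⟩
      · rcases Multiset.mem_add.mp hv with h | h
        · exact hc1 _ hr v h
        · exact h1.cubE v h
      · omega
    · refine ⟨E, G + M6, M3, M2, ⟨by rw [h1.eq]; abel, h1.cubE, fun v hv => ?_, h1.even, h1.two,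
        hP.add h1.p6, h1.p3, h1.e3, h1.p2, h1.d2⟩⟩
      rw [add_assoc, add_assoc, Multiset.mem_add] at hv
      rcases hv with h | h
      · exact hc2 _ hr v h
      · exact h1.cubN v (by rw [add_assoc]; exact h)
    · refine ⟨E, M6, G + M3, M2, ⟨by rw [h1.eq]; abel, h1.cubE, fun v hv => ?_, h1.even, h1.two,
        h1.p6, hP.add h1.p3, ?_, h1.p2, h1.d2⟩⟩
      · have e : M6 + (G + M3) + M2 = G + (M6 + M3 + M2) := by abel
        rw [e, Multiset.mem_add] at hv
        rcases hv with h | h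
        · exact hc2 _ hr v h
        · exact h1.cubN v h
      · rcases h2 with h2 | h2
        · exact Or.inl (hW h2)
        · rcases h1.e3 with h3 | h3
          · exact Or.inl h3
          · right
            intro v hv
            rcases Multiset.mem_add.mp hv with h | h
            · exact h2 v h
            · exact h3 v h
    · refine ⟨E, M6, M3, G + M2, ⟨by rw [h1.eq]; abel, h1.cubE, fun v hv => ?_, h1.even, h1.two,
        h1.p6, h1.p3, h1.e3, hP.add h1.p2, fun v hv => ?_⟩⟩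
      · have e : M6 + M3 + (G + M2) = G + (M6 + M3 + M2) := by abel
        rw [e, Multiset.mem_add] at hv
        rcases hv with h | h
        · exact hc2 _ hr v h
        · exact h1.cubN v h
      · rcases Multiset.mem_add.mp hv with h | h
        · exact h2 v h
        · exact h1.d2 v h

/-- A multiset of cycle lengths splits: it consists of three groups `A`, `B`, `C`; `A` can be divided into
three parts of equal sum, `B` into two, the members of `B` being divisible by `3` if `r = 2`; the members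
of `C` are even, and `C` is empty unless `r = 2`. -/
def SplitsN (r : ℕ) (M : Multiset ℕ) : Prop :=
  ∃ A B C : Multiset ℕ, M = A + B + C ∧ Parts id 3 A ∧ Parts id 2 B ∧ (r = 2 → ∀ k ∈ B, 3 ∣ k) ∧
    (∀ k ∈ C, Even k) ∧ (r ≠ 2 → C = 0)

/-- the multiset of the degrees of unramified places splits -/
theorem Split4.type {α : Type*} {wt f : α → ℕ} {cub : α → Prop} {r : ℕ} {W : Prop}
    {M E M6 M3 M2 : Multiset α} (h : Split4 wt f cub r W M E M6 M3 M2) (hr : r = 1 ∨ r = 2)
    (hw : ∀ v ∈ M, wt v = f v) : SplitsN r (M.map f) := by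
  have h6 : Parts id 3 ((M6 + M3).map f) := by
    refine Parts.map ((h.p6.three_of_six.add h.p3).congr (wt' := f) fun a ha => ?_) f (fun _ => rfl)
    refine (hw a ?_).symm
    rw [h.eq]
    exact Multiset.mem_add.mpr (Or.inr (Multiset.mem_add.mpr (Or.inl ha)))
  have hM2 : ∀ a ∈ M2, a ∈ M := fun a ha => by
    rw [h.eq]
    exact Multiset.mem_add.mpr (Or.inr (Multiset.mem_add.mpr (Or.inr ha)))
  have hE : ∀ a ∈ E, a ∈ M := fun a ha => by
    rw [h.eq]
    exact Multiset.mem_add.mpr (Or.inl ha)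
  rcases hr with hr | hr
  · refine ⟨(M6 + M3).map f, (E + M2).map f, 0, ?_, h6, ?_, fun h2 => by omega, fun k hk =>
      absurd hk (Multiset.notMem_zero k), fun _ => rfl⟩
    · rw [h.eq]
      simp only [Multiset.map_add]
      abel
    · refine Parts.map (((h.two hr).add h.p2).congr (wt' := f) fun a ha => ?_) f (fun _ => rfl)
      rcases Multiset.mem_add.mp ha with ha | ha
      · exact (hw a (hE a ha)).symm
      · exact (hw a (hM2 a ha)).symm
  · refine ⟨(M6 + M3).map f, M2.map f, E.map f, ?_, h6, ?_, fun _ k hk => ?_, fun k hk => ?_,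
      fun h2 => absurd hr h2⟩
    · rw [h.eq]
      simp only [Multiset.map_add]
      abel
    · exact Parts.map (h.p2.congr (wt' := f) fun a ha => (hw a (hM2 a ha)).symm) f (fun _ => rfl)
    · obtain ⟨a, ha, rfl⟩ := Multiset.mem_map.mp hk
      exact h.d2 a ha
    · obtain ⟨a, ha, rfl⟩ := Multiset.mem_map.mp hk
      exact h.even hr a ha

end H85FD

end

section

/-!
# Square roots in cyclotomic fields; multiquadratic fields embed in cyclotomic fields

* `exists_sqrt`: a field of characteristic zero with a primitive `8 m`-th root of unity contains a square root of each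
  divisor `n` of `m`.
* `exists_emb_multi`: a field generated by finitely many square roots of rational numbers embeds in some
  `CyclotomicField f ℚ`.
* `exists_emb_quad`: the quadratic fields.
-/

namespace H88Q

open Finset

variable {E : Type*} [Field E]

theorem exists_i {m : ℕ} {ζ : E} (hζ : IsPrimitiveRoot ζ (8 * m)) (hm : m ≠ 0) : ∃ s : E, s ^ 2 = -1 := by
  have h4 : IsPrimitiveRoot (ζ ^ (2 * m)) 4 := hζ.pow (by positivity) (by ring)
  refine ⟨ζ ^ (2 * m), ?_⟩
  have h2 : IsPrimitiveRoot ((ζ ^ (2 * m)) ^ 2) 2 := h4.pow (by norm_num) (by norm_num)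
  exact h2.eq_neg_one_of_two_right

theorem exists_sqrt_two {m : ℕ} {ζ : E} (hζ : IsPrimitiveRoot ζ (8 * m)) (hm : m ≠ 0) : ∃ s : E, s ^ 2 = 2 := by
  have h8 : IsPrimitiveRoot (ζ ^ m) 8 := hζ.pow (by positivity) (by ring)
  have h2 : IsPrimitiveRoot ((ζ ^ m) ^ 4) 2 := h8.pow (by norm_num) (by norm_num)
  have h3 : (ζ ^ m) ^ 4 = -1 := h2.eq_neg_one_of_two_right
  set z := ζ ^ m with hz
  refine ⟨z - z ^ 3, ?_⟩
  linear_combination (z ^ 2 - 2) * h3

theorem exists_sqrt_odd [CharZero E] {m : ℕ} {ζ : E} (hζ : IsPrimitiveRoot ζ (8 * m)) (hm : m ≠ 0) {q : ℕ}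
    (hq : q.Prime) (hq2 : q ≠ 2) (hqm : q ∣ m) : ∃ s : E, s ^ 2 = q := by
  have : Fact q.Prime := ⟨hq⟩
  obtain ⟨i, hi⟩ := exists_i hζ hm
  obtain ⟨r, hr⟩ := hqm
  have hζq : IsPrimitiveRoot (ζ ^ (8 * r)) q := hζ.pow (by positivity) (by rw [hr]; ring)
  have hch : ringChar (ZMod q) ≠ 2 := by
    rw [ZMod.ringChar_zmod_n]
    exact hq2
  set χ : MulChar (ZMod q) E := (quadraticChar (ZMod q)).ringHomComp (Int.castRingHom E) with hχ
  have h1 : χ ≠ 1 := by
    intro h
    obtain ⟨a, ha⟩ := quadraticChar_exists_neg_one' hch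
    have h2 : χ (a : ZMod q) = (1 : MulChar (ZMod q) E) (a : ZMod q) := by rw [h]
    rw [MulChar.one_apply_coe, hχ, MulChar.ringHomComp_apply, ha] at h2
    norm_num at h2
  have h2 : χ.IsQuadratic := (quadraticChar_isQuadratic (ZMod q)).comp _
  have h3 := gaussSum_sq h1 h2 (AddChar.zmodChar_primitive_of_primitive_root q hζq)
  rw [ZMod.card] at h3
  rcases h2 (-1) with h4 | h4 | h4
  · exfalso
    have h5 : IsUnit (-1 : ZMod q) := isUnit_one.neg
    exact (h5.map χ).ne_zero h4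
  · rw [h4, one_mul] at h3
    exact ⟨_, h3⟩
  · rw [h4, neg_one_mul] at h3
    exact ⟨i * gaussSum χ (AddChar.zmodChar q ((IsPrimitiveRoot.iff_def _ q).mp hζq).left), by
      rw [mul_pow, h3, hi, neg_mul_neg, one_mul]⟩

theorem exists_sqrt [CharZero E] {m : ℕ} {ζ : E} (hζ : IsPrimitiveRoot ζ (8 * m)) (hm : m ≠ 0) (n : ℕ) :
    n ∣ m → ∃ s : E, s ^ 2 = n := by
  induction n using Nat.recOnMul with
  | zero => exact fun _ => ⟨0, by simp⟩
  | one => exact fun _ => ⟨1, by simp⟩
  | prime q hq =>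
    intro h
    rcases eq_or_ne q 2 with rfl | h2
    · obtain ⟨s, hs⟩ := exists_sqrt_two hζ hm
      exact ⟨s, by rw [hs]; norm_num⟩
    · exact exists_sqrt_odd hζ hm hq h2 h
  | mul a b ha hb =>
    intro h
    obtain ⟨s, hs⟩ := ha ((dvd_mul_right a b).trans h)
    obtain ⟨t, ht⟩ := hb ((dvd_mul_left b a).trans h)
    exact ⟨s * t, by rw [mul_pow, hs, ht, Nat.cast_mul]⟩

theorem exists_sqrt_rat [CharZero E] {m : ℕ} {ζ : E} (hζ : IsPrimitiveRoot ζ (8 * m)) (hm : m ≠ 0) (d : ℚ)
    (hd : d.num.natAbs * d.den ∣ m) : ∃ s : E, s ^ 2 = (d : E) := by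
  obtain ⟨i, hi⟩ := exists_i hζ hm
  obtain ⟨s, hs⟩ := exists_sqrt hζ hm _ hd
  have hden : (d.den : E) ≠ 0 := Nat.cast_ne_zero.2 d.den_ne_zero
  have h1 : (d : E) = (d.num : E) / (d.den : E) := by
    conv_lhs => rw [← Rat.num_div_den d]
    push_cast
    rfl
  rw [Nat.cast_mul] at hs
  rcases Int.natAbs_eq d.num with h2 | h2
  · have h3 : (d.num : E) = ((d.num.natAbs : ℕ) : E) := by
      rw [← Int.cast_natCast, ← h2]
    refine ⟨s / d.den, ?_⟩
    rw [div_pow, hs, h1, h3]
    field_simp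
  · have h3 : (d.num : E) = -((d.num.natAbs : ℕ) : E) := by
      rw [← Int.cast_natCast, ← Int.cast_neg, ← h2]
    refine ⟨i * s / d.den, ?_⟩
    rw [div_pow, mul_pow, hs, h1, h3, hi]
    field_simp

open Polynomial IntermediateField

/-- fields generated by finitely many square roots embed in a cyclotomic field -/
theorem exists_emb_multi {K : Type*} [Field K] [CharZero K] (S : Finset K)
    (hS : adjoin ℚ (S : Set K) = ⊤) (hsq : ∀ s ∈ S, ∃ d : ℚ, s ^ 2 = (d : K)) :
    ∃ f : ℕ, 3 ≤ f ∧ Nonempty (K →+* CyclotomicField f ℚ) := by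
  classical
  choose! d hd using hsq
  set m : ℕ := ∏ s ∈ S, if s = 0 then 1 else (d s).num.natAbs * (d s).den with hm
  have hd0 : ∀ s ∈ S, s ≠ 0 → (d s).num.natAbs * (d s).den ≠ 0 := by
    intro s hs h0
    refine mul_ne_zero ?_ (d s).den_ne_zero
    rw [Int.natAbs_ne_zero, Rat.num_ne_zero]
    intro h1
    have h2 := hd s hs
    rw [h1, Rat.cast_zero] at h2
    exact h0 (pow_eq_zero_iff (two_ne_zero) |>.1 h2)
  have hm0 : m ≠ 0 := by
    rw [hm, Finset.prod_ne_zero_iff]
    intro s hs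
    split_ifs with h
    · exact one_ne_zero
    · exact hd0 s hs h
  have : NeZero (8 * m) := ⟨by positivity⟩
  have : NeZero ((8 * m : ℕ) : ℚ) := ⟨Nat.cast_ne_zero.2 (NeZero.ne _)⟩
  have : IsCyclotomicExtension {8 * m} ℚ (CyclotomicField (8 * m) ℚ) :=
    CyclotomicField.isCyclotomicExtension (8 * m) ℚ
  have hζ := IsCyclotomicExtension.zeta_spec (8 * m) ℚ (CyclotomicField (8 * m) ℚ)
  refine ⟨8 * m, by omega, ?_⟩
  obtain ⟨φ⟩ := nonempty_algHom_of_adjoin_splits (F := ℚ) (E := K)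
    (K := CyclotomicField (8 * m) ℚ) (S := (S : Set K)) (fun s hs => by
      have h1 : aeval s (X ^ 2 - C (d s) : ℚ[X]) = 0 := by
        rw [map_sub, map_pow, aeval_X, aeval_C, hd s hs]
        simp
      have hne : (X ^ 2 - C (d s) : ℚ[X]) ≠ 0 := X_pow_sub_C_ne_zero (by norm_num) _
      have hint : IsIntegral ℚ s := ⟨X ^ 2 - C (d s), monic_X_pow_sub_C _ (by norm_num), h1⟩
      refine ⟨hint, ?_⟩
      obtain ⟨t, ht⟩ : ∃ t : CyclotomicField (8 * m) ℚ, t ^ 2 = ((d s : ℚ) : CyclotomicField (8 * m) ℚ) := by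
        by_cases h0 : s = 0
        · have h2 := hd s hs
          have h3 : d s = 0 := by
            rw [← Rat.cast_eq_zero (α := K), ← h2, h0, zero_pow two_ne_zero]
          exact ⟨0, by rw [h3]; simp⟩
        · refine exists_sqrt_rat hζ hm0 (d s) ?_
          have h2 := Finset.dvd_prod_of_mem
            (fun s => if s = 0 then 1 else (d s).num.natAbs * (d s).den) hs
          simpa [h0] using h2
      refine Splits.of_dvd (g := (X ^ 2 - C (d s)).map (algebraMap ℚ _)) ?_ ?_ ?_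
      · have h2 : (X ^ 2 - C (d s)).map (algebraMap ℚ (CyclotomicField (8 * m) ℚ)) = (X - C t) * (X - C (-t)) := by
          rw [Polynomial.map_sub, Polynomial.map_pow, map_X, map_C, eq_ratCast, ← ht, C_pow, C_neg]
          ring
        rw [h2]
        exact (Splits.X_sub_C t).mul (Splits.X_sub_C (-t))
      · exact (Polynomial.map_ne_zero_iff (algebraMap ℚ _).injective).2 hne
      · exact Polynomial.map_dvd _ (minpoly.dvd ℚ s h1)) hS
  exact ⟨φ.toRingHom⟩

/-- quadratic fields embed in a cyclotomic field -/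
theorem exists_emb_quad {K : Type*} [Field K] [NumberField K] (h2 : Module.finrank ℚ K = 2) :
    ∃ f : ℕ, 3 ≤ f ∧ Nonempty (K →+* CyclotomicField f ℚ) := by
  classical
  have hne : ∃ α : K, α ∉ (⊥ : IntermediateField ℚ K) := by
    by_contra hcon
    push Not at hcon
    have h3 : (⊥ : IntermediateField ℚ K) = ⊤ := by
      rw [eq_top_iff]
      intro x _
      exact hcon x
    have h4 := IntermediateField.bot_eq_top_iff_finrank_eq_one.1 h3
    omega
  obtain ⟨α, hα⟩ := hne
  have hint : IsIntegral ℚ α := IsIntegral.of_finite ℚ α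
  have hsimple := isSimpleOrder_of_finrank_prime ℚ K (h2 ▸ Nat.prime_two)
  have hgen : ∀ β : K, β ∉ (⊥ : IntermediateField ℚ K) → adjoin ℚ {β} = ⊤ := by
    intro β hβ
    rcases hsimple.eq_bot_or_eq_top (adjoin ℚ {β}) with h3 | h3
    · exfalso
      apply hβ
      rw [← h3]
      exact mem_adjoin_simple_self ℚ β
    · exact h3
  have hdeg : (minpoly ℚ α).natDegree = 2 := by
    rw [← adjoin.finrank hint, hgen α hα, finrank_top', h2]
  have hm := minpoly.aeval ℚ α
  rw [aeval_eq_sum_range, hdeg] at hm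
  have hlead : (minpoly ℚ α).coeff 2 = 1 := by
    have := minpoly.monic hint
    rw [Monic, leadingCoeff, hdeg] at this
    exact this
  rw [Finset.sum_range_succ, Finset.sum_range_succ, Finset.sum_range_one, hlead, one_smul, pow_zero, pow_one,
    Algebra.smul_def, Algebra.smul_def, mul_one, eq_ratCast, eq_ratCast] at hm
  set b := (minpoly ℚ α).coeff 1
  set c := (minpoly ℚ α).coeff 0
  refine exists_emb_multi {α + ((b / 2 : ℚ) : K)} ?_ ?_
  · rw [Finset.coe_singleton]
    apply hgen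
    intro h3
    apply hα
    have h4 := sub_mem h3 ((⊥ : IntermediateField ℚ K).algebraMap_mem (b / 2))
    rwa [eq_ratCast, add_sub_cancel_right] at h4
  · intro s hs
    rw [Finset.mem_singleton] at hs
    refine ⟨b ^ 2 / 4 - c, ?_⟩
    rw [hs]
    push_cast
    linear_combination hm

end H88Q

end

section

/-!
# Permutations and partitions

`zed M = ∏ k ^ m_k m_k!` for a multiset `M`; the number of permutations whose cycle type (with the fixed points)
is `M` is `n! / zed M`; the recurrence `n h_n = ∑ w_k h_(n-k)` for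
`h_n = ∑_(M ⊢ n) ∏_(k ∈ M) w_k / zed M`.
-/

set_option autoImplicit false

open Finset Equiv

namespace Pool.Agent.H89.FE

/-- `zed M = ∏ k ^ m_k m_k!` -/
def zed (M : Multiset ℕ) : ℕ := M.prod * ∏ k ∈ M.toFinset, (M.count k).factorial

theorem zed_zero : zed 0 = 1 := by simp [zed]

theorem zed_cons (k : ℕ) (M : Multiset ℕ) : zed (k ::ₘ M) = k * (M.count k + 1) * zed M := by
  classical
  have h1 : ∀ N : Multiset ℕ, ∀ s : Finset ℕ, N.toFinset ⊆ s →
      ∏ j ∈ N.toFinset, (N.count j).factorial = ∏ j ∈ s, (N.count j).factorial := by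
    intro N s hs
    refine prod_subset hs fun j _ hj => ?_
    rw [Multiset.mem_toFinset] at hj
    rw [Multiset.count_eq_zero.2 hj, Nat.factorial_zero]
  rw [zed, zed, Multiset.prod_cons, h1 M (k ::ₘ M).toFinset (by
    intro j hj
    rw [Multiset.mem_toFinset] at hj ⊢
    exact Multiset.mem_cons_of_mem hj)]
  have hk : k ∈ (k ::ₘ M).toFinset := by
    rw [Multiset.mem_toFinset]
    exact Multiset.mem_cons_self k M
  rw [← mul_prod_erase _ _ hk, ← mul_prod_erase _ _ hk, Multiset.count_cons_self, Nat.factorial_succ]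
  have h2 : ∏ j ∈ (k ::ₘ M).toFinset.erase k, ((k ::ₘ M).count j).factorial =
      ∏ j ∈ (k ::ₘ M).toFinset.erase k, (M.count j).factorial := by
    refine prod_congr rfl fun j hj => ?_
    rw [Multiset.count_cons_of_ne (mem_erase.1 hj).1]
  rw [h2]
  ring

theorem zed_pos {M : Multiset ℕ} (h : ∀ k ∈ M, 0 < k) : 0 < zed M := by
  refine Nat.mul_pos (Multiset.prod_pos fun k hk => h k hk) (prod_pos fun k _ => Nat.factorial_pos _)

/-- the partitions of `n` as a finite set of multisets -/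
def PP (n : ℕ) : Finset (Multiset ℕ) := (univ : Finset (Nat.Partition n)).image fun l => l.parts

theorem mem_PP {n : ℕ} {M : Multiset ℕ} : M ∈ PP n ↔ M.sum = n ∧ ∀ k ∈ M, 0 < k := by
  rw [PP, mem_image]
  constructor
  · rintro ⟨l, _, rfl⟩
    exact ⟨l.parts_sum, fun k hk => l.parts_pos hk⟩
  · rintro ⟨h1, h2⟩
    exact ⟨⟨M, fun {k} hk => h2 k hk, h1⟩, mem_univ _, rfl⟩

/-- the number of permutations of a given type -/
theorem card_perm {α : Type*} [Fintype α] [DecidableEq α] {M : Multiset ℕ} (hM : M ∈ PP (Fintype.card α)) :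
    (univ.filter (fun g : Perm α => g.partition.parts = M)).card * zed M = (Fintype.card α).factorial := by
  classical
  obtain ⟨hsum, hpos⟩ := mem_PP.1 hM
  set m := M.filter (fun k => 2 ≤ k) with hm
  have hsplit : M = m + Multiset.replicate (M.count 1) 1 := by
    have h1 : M = m + M.filter (fun k => ¬ 2 ≤ k) := (Multiset.filter_add_not _ M).symm
    have h2 : M.filter (fun k => ¬ 2 ≤ k) = Multiset.replicate (M.count 1) 1 := by
      rw [← Multiset.filter_eq' M 1]
      refine Multiset.filter_congr fun k hk => ?_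
      have := hpos k hk
      omega
    rw [← h2]
    exact h1
  have hs : m.sum + M.count 1 = Fintype.card α := by
    rw [← hsum]
    conv_rhs => rw [hsplit]
    rw [Multiset.sum_add, Multiset.sum_replicate, smul_eq_mul, mul_one]
  have hcond : m.sum ≤ Fintype.card α ∧ ∀ a ∈ m, 2 ≤ a :=
    ⟨by omega, fun a ha => (Multiset.mem_filter.1 ha).2⟩
  have h3 := Equiv.Perm.card_of_cycleType_mul_eq α m
  rw [if_pos hcond] at h3
  have h4 : (univ.filter (fun g : Perm α => g.partition.parts = M)) =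
      univ.filter (fun g : Perm α => g.cycleType = m) := by
    ext g
    simp only [mem_filter, mem_univ, true_and]
    constructor
    · intro h
      rw [← Equiv.Perm.filter_parts_partition_eq_cycleType, h]
    · intro h
      rw [Equiv.Perm.parts_partition, h, ← Equiv.Perm.sum_cycleType, h]
      conv_rhs => rw [hsplit]
      congr 2
      omega
  rw [h4, ← h3]
  congr 1
  have h5 : Fintype.card α - m.sum = M.count 1 := by omega
  have h6 : M.prod = m.prod := by
    conv_lhs => rw [hsplit]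
    rw [Multiset.prod_add, Multiset.prod_replicate, one_pow, mul_one]
  have h1m : (1 : ℕ) ∉ m.toFinset := by
    rw [Multiset.mem_toFinset, hm, Multiset.mem_filter]
    omega
  have h7 : ∏ k ∈ M.toFinset, (M.count k).factorial = ∏ k ∈ insert 1 m.toFinset, (M.count k).factorial := by
    refine prod_subset ?_ ?_
    · intro k hk
      rw [Multiset.mem_toFinset] at hk
      rw [mem_insert, Multiset.mem_toFinset, hm, Multiset.mem_filter]
      have := hpos k hk
      rcases Nat.lt_or_ge k 2 with h | h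
      · left; omega
      · right; exact ⟨hk, h⟩
    · intro k _ hk
      rw [Multiset.mem_toFinset] at hk
      rw [Multiset.count_eq_zero.2 hk, Nat.factorial_zero]
  have h8 : ∏ k ∈ m.toFinset, (M.count k).factorial = ∏ k ∈ m.toFinset, (m.count k).factorial := by
    refine prod_congr rfl fun k hk => ?_
    rw [Multiset.mem_toFinset, hm, Multiset.mem_filter] at hk
    rw [hm, Multiset.count_filter_of_pos hk.2]
  rw [zed, h6, h7, prod_insert h1m, h8, h5]
  ring

/-- weighted sums over the partitions of `n` -/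
noncomputable def hh (w : ℕ → ℝ) (n : ℕ) : ℝ := ∑ M ∈ PP n, (M.map w).prod / zed M

theorem hh_zero (w : ℕ → ℝ) : hh w 0 = 1 := by
  have : PP 0 = {0} := by
    ext M
    rw [mem_PP, mem_singleton]
    constructor
    · rintro ⟨h1, h2⟩
      refine Multiset.eq_zero_of_forall_notMem fun k hk => ?_
      have h3 := h2 k hk
      have h4 := Multiset.single_le_sum (fun x _ => Nat.zero_le x) k hk
      omega
    · rintro rfl
      simp
  rw [hh, this, sum_singleton, zed_zero]
  simp

/-- THE RECURRENCE -/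
theorem hh_rec (w : ℕ → ℝ) (n : ℕ) : (n : ℝ) * hh w n = ∑ k ∈ Icc 1 n, w k * hh w (n - k) := by
  classical
  have h1 : ∀ M ∈ PP n, (n : ℝ) * ((M.map w).prod / zed M) =
      ∑ k ∈ M.toFinset, w k * (((M.erase k).map w).prod / zed (M.erase k)) := by
    intro M hM
    obtain ⟨hsum, hpos⟩ := mem_PP.1 hM
    have h2 : (n : ℝ) = ∑ k ∈ M.toFinset, (M.count k : ℝ) * k := by
      have h3 := Finset.sum_multiset_count M
      rw [hsum] at h3
      simp only [smul_eq_mul] at h3
      rw [h3]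
      push_cast
      rfl
    rw [h2, sum_mul]
    refine sum_congr rfl fun k hk => ?_
    rw [Multiset.mem_toFinset] at hk
    obtain ⟨N, rfl⟩ := Multiset.exists_cons_of_mem hk
    rw [Multiset.erase_cons_head, zed_cons, Multiset.map_cons, Multiset.prod_cons, Multiset.count_cons_self]
    have hk0 : (0 : ℝ) < k := by exact_mod_cast hpos k hk
    have hN : (0 : ℝ) < zed N := by
      exact_mod_cast zed_pos fun j hj => hpos j (Multiset.mem_cons_of_mem hj)
    push_cast
    field_simp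
  rw [hh, mul_sum, sum_congr rfl h1]
  have h2 : ∑ k ∈ Icc 1 n, w k * hh w (n - k) =
      ∑ k ∈ Icc 1 n, ∑ N ∈ PP (n - k), w k * ((N.map w).prod / zed N) := by
    refine sum_congr rfl fun k _ => ?_
    rw [hh, mul_sum]
  rw [h2, sum_sigma', sum_sigma']
  refine sum_bij' (fun x _ => ⟨x.2, x.1.erase x.2⟩) (fun y _ => ⟨y.1 ::ₘ y.2, y.1⟩) ?_ ?_ ?_ ?_ ?_
  · rintro ⟨M, k⟩ h
    obtain ⟨hM, hk⟩ := mem_sigma.1 h
    obtain ⟨hsum, hpos⟩ := mem_PP.1 hM
    simp only [Multiset.mem_toFinset] at hk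
    have h3 := Multiset.single_le_sum (fun x _ => Nat.zero_le x) k hk
    have h4 := Multiset.sum_erase hk
    refine mem_sigma.2 ⟨mem_Icc.2 ⟨hpos k hk, by simp only at hsum ⊢; omega⟩, mem_PP.2 ⟨?_, ?_⟩⟩
    · simp only at hsum ⊢
      omega
    · intro j hj
      exact hpos j (Multiset.mem_of_mem_erase hj)
  · rintro ⟨k, N⟩ h
    obtain ⟨hk, hN⟩ := mem_sigma.1 h
    obtain ⟨hsum, hpos⟩ := mem_PP.1 hN
    obtain ⟨hk1, hk2⟩ := mem_Icc.1 hk
    refine mem_sigma.2 ⟨mem_PP.2 ⟨?_, ?_⟩, ?_⟩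
    · rw [Multiset.sum_cons]
      simp only at hsum hk1 hk2 ⊢
      omega
    · intro j hj
      rcases Multiset.mem_cons.1 hj with h | h
      · rw [h]
        exact hk1
      · exact hpos j h
    · rw [Multiset.mem_toFinset]
      exact Multiset.mem_cons_self _ _
  · rintro ⟨M, k⟩ h
    obtain ⟨hM, hk⟩ := mem_sigma.1 h
    simp only [Multiset.mem_toFinset] at hk
    simp only [Multiset.cons_erase hk]
  · rintro ⟨k, N⟩ h
    simp only [Multiset.erase_cons_head]
  · rintro ⟨M, k⟩ h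
    rfl

end Pool.Agent.H89.FE

end

section

/-!
# Permutations without cycles of given lengths

`no_long`: the proportion of the permutations of `n` points all of whose cycles of length at least `m` have a length
divisible by `2` or `3` is at most `1 / ∑ 1 / k`, `k` running over the other numbers between `m` and `n`.
-/

set_option autoImplicit false

open Finset Equiv

namespace Pool.Agent.H89.FE

theorem zed_replicate_add (k m : ℕ) (M : Multiset ℕ) (hk : k ∉ M) :
    zed (Multiset.replicate m k + M) = k ^ m * m.factorial * zed M := by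
  induction m with
  | zero => simp
  | succ m ih =>
    rw [Multiset.replicate_succ, Multiset.cons_add, zed_cons, ih, Multiset.count_add, Multiset.count_replicate_self,
      Multiset.count_eq_zero.2 hk, add_zero, pow_succ, Nat.factorial_succ]
    ring

theorem map_prod_replicate_add (w : ℕ → ℝ) (k m : ℕ) (M : Multiset ℕ) :
    ((Multiset.replicate m k + M).map w).prod = w k ^ m * (M.map w).prod := by
  rw [Multiset.map_add, Multiset.prod_add, Multiset.map_replicate, Multiset.prod_replicate]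

/-- the multisets of positive numbers with sum at most `N` -/
noncomputable def XX (N : ℕ) : Finset (Multiset ℕ) := (range (N + 1)).biUnion PP

theorem mem_XX {N : ℕ} {M : Multiset ℕ} : M ∈ XX N ↔ M.sum ≤ N ∧ ∀ k ∈ M, 0 < k := by
  rw [XX, mem_biUnion]
  constructor
  · rintro ⟨j, hj, hM⟩
    obtain ⟨h1, h2⟩ := mem_PP.1 hM
    rw [mem_range] at hj
    exact ⟨by omega, h2⟩
  · rintro ⟨h1, h2⟩
    exact ⟨M.sum, mem_range.2 (by omega), mem_PP.2 ⟨rfl, h2⟩⟩

theorem f_nonneg {w : ℕ → ℝ} (hw : ∀ k, 0 ≤ w k) (M : Multiset ℕ) : 0 ≤ (M.map w).prod / zed M := by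
  refine div_nonneg (Multiset.prod_nonneg fun x hx => ?_) (Nat.cast_nonneg _)
  obtain ⟨k, _, rfl⟩ := Multiset.mem_map.1 hx
  exact hw k

/-- the bound by the exponential -/
theorem sum_supp_le {w : ℕ → ℝ} (hw : ∀ k, 0 ≤ w k) (N : ℕ) (s : Finset ℕ) (hs : ∀ k ∈ s, 0 < k) :
    ∑ M ∈ (XX N).filter (fun M => ∀ k ∈ M, k ∈ s), (M.map w).prod / zed M ≤
      Real.exp (∑ k ∈ s, w k / k) := by
  classical
  induction s using Finset.induction_on with
  | empty =>
    have : (XX N).filter (fun M => ∀ k ∈ M, k ∈ (∅ : Finset ℕ)) = {0} := by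
      ext M
      rw [mem_filter, mem_singleton, mem_XX]
      constructor
      · rintro ⟨_, h⟩
        exact Multiset.eq_zero_of_forall_notMem fun k hk => by simpa using h k hk
      · rintro rfl
        simp
    rw [this, sum_singleton, zed_zero]
    simp
  | insert a s ha ih =>
    have ha0 : 0 < a := hs a (mem_insert_self a s)
    have ih' := ih fun k hk => hs k (mem_insert_of_mem hk)
    rw [sum_insert ha, Real.exp_add]
    have hprod : (∑ m ∈ range (N + 1), (w a / a) ^ m / m.factorial) *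
        (∑ M ∈ (XX N).filter (fun M => ∀ k ∈ M, k ∈ s), (M.map w).prod / zed M) ≤
        Real.exp (w a / a) * Real.exp (∑ k ∈ s, w k / k) := by
      refine mul_le_mul ?_ ih' (sum_nonneg fun M _ => f_nonneg hw M) (Real.exp_pos _).le
      exact Real.sum_le_exp_of_nonneg (div_nonneg (hw a) (Nat.cast_nonneg _)) _
    refine le_trans ?_ hprod
    rw [sum_mul_sum, ← sum_product']
    have hterm : ∀ M ∈ (XX N).filter (fun M => ∀ k ∈ M, k ∈ insert a s),
        (M.count a, M.filter (fun k => k ≠ a)) ∈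
          range (N + 1) ×ˢ (XX N).filter (fun M => ∀ k ∈ M, k ∈ s) ∧
        (M.map w).prod / zed M = (w a / a) ^ (M.count a) / (M.count a).factorial *
          (((M.filter (fun k => k ≠ a)).map w).prod / zed (M.filter (fun k => k ≠ a))) := by
      intro M hM
      obtain ⟨hM1, hM2⟩ := mem_filter.1 hM
      obtain ⟨hM3, hM4⟩ := mem_XX.1 hM1
      have hsplit : M = Multiset.replicate (M.count a) a + M.filter (fun k => k ≠ a) := by
        rw [← Multiset.filter_eq' M a]
        exact (Multiset.filter_add_not _ M).symm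
      have hsum : M.count a * a + (M.filter (fun k => k ≠ a)).sum ≤ N := by
        have h1 := hM3
        rw [hsplit, Multiset.sum_add, Multiset.sum_replicate, smul_eq_mul] at h1
        simpa using h1
      refine ⟨mem_product.2 ⟨?_, ?_⟩, ?_⟩
      · have h2 : M.count a * 1 ≤ M.count a * a := Nat.mul_le_mul_left _ ha0
        rw [mem_range]
        simp only
        omega
      · refine mem_filter.2 ⟨mem_XX.2 ⟨by simp only; omega, fun k hk => hM4 k (Multiset.mem_filter.1 hk).1⟩, ?_⟩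
        intro k hk
        obtain ⟨hk1, hk2⟩ := Multiset.mem_filter.1 hk
        exact (mem_insert.1 (hM2 k hk1)).resolve_left hk2
      · have h3 : a ∉ M.filter (fun k => k ≠ a) := by
          rw [Multiset.mem_filter]
          simp
        conv_lhs => rw [hsplit]
        rw [map_prod_replicate_add, zed_replicate_add _ _ _ h3]
        push_cast
        rw [div_pow]
        have ha' : (0 : ℝ) < a := by exact_mod_cast ha0
        have h4 : (0 : ℝ) < (M.count a).factorial := by exact_mod_cast Nat.factorial_pos _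
        have h5 : (0 : ℝ) < zed (M.filter (fun k => k ≠ a)) := by
          exact_mod_cast zed_pos fun k hk => hM4 k (Multiset.mem_filter.1 hk).1
        field_simp
    rw [sum_congr rfl fun M hM => (hterm M hM).2]
    have hinj : Set.InjOn (fun M : Multiset ℕ => (M.count a, M.filter (fun k => k ≠ a)))
        ((XX N).filter (fun M => ∀ k ∈ M, k ∈ insert a s) : Finset (Multiset ℕ)) := by
      intro M _ M' _ h
      simp only [Prod.mk.injEq] at h
      have h1 : ∀ M : Multiset ℕ, M = Multiset.replicate (M.count a) a + M.filter (fun k => k ≠ a) := by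
        intro M
        rw [← Multiset.filter_eq' M a]
        exact (Multiset.filter_add_not _ M).symm
      rw [h1 M, h1 M', h.1, h.2]
    rw [← sum_image (f := fun x : ℕ × Multiset ℕ => (w a / a) ^ x.1 / x.1.factorial *
      ((x.2.map w).prod / zed x.2)) hinj]
    refine sum_le_sum_of_subset_of_nonneg ?_ ?_
    · intro x hx
      obtain ⟨M, hM, rfl⟩ := mem_image.1 hx
      exact (hterm M hM).1
    · intro x _ _
      have := hw a
      exact mul_nonneg (by positivity) (f_nonneg hw _)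

/-- the partial sums -/
theorem sum_hh_le {w : ℕ → ℝ} (hw : ∀ k, 0 ≤ w k) (n : ℕ) :
    ∑ j ∈ range (n + 1), hh w j ≤ Real.exp (∑ k ∈ Icc 1 n, w k / k) := by
  classical
  have h1 : ∑ j ∈ range (n + 1), hh w j = ∑ M ∈ XX n, (M.map w).prod / zed M := by
    rw [XX, sum_biUnion]
    · rfl
    · intro i _ j _ hij
      rw [Function.onFun, disjoint_left]
      intro M hM hM'
      exact hij ((mem_PP.1 hM).1.symm.trans (mem_PP.1 hM').1)
  have h2 : (XX n).filter (fun M => ∀ k ∈ M, k ∈ Icc 1 n) = XX n := by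
    refine filter_true_of_mem fun M hM k hk => ?_
    obtain ⟨h3, h4⟩ := mem_XX.1 hM
    have h5 := Multiset.single_le_sum (fun x _ => Nat.zero_le x) k hk
    exact mem_Icc.2 ⟨h4 k hk, h5.trans h3⟩
  have h3 := sum_supp_le hw n (Icc 1 n) (fun k hk => (mem_Icc.1 hk).1)
  rw [h2] at h3
  rw [h1]
  exact h3

theorem hh_nonneg {w : ℕ → ℝ} (hw : ∀ k, 0 ≤ w k) (n : ℕ) : 0 ≤ hh w n :=
  sum_nonneg fun M _ => f_nonneg hw M

/-- `h_n ≤ exp (1 - ∑ (1 - w_k) / k)` for weights between `0` and `1` -/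
theorem hh_le_exp {w : ℕ → ℝ} (hw : ∀ k, 0 ≤ w k) (hw1 : ∀ k, w k ≤ 1) (n : ℕ) :
    hh w n ≤ Real.exp (1 - ∑ k ∈ Icc 1 n, (1 - w k) / k) := by
  rcases Nat.eq_zero_or_pos n with rfl | hn
  · rw [hh_zero]
    simp
  have h1 := hh_rec w n
  have h2 : ∑ k ∈ Icc 1 n, w k * hh w (n - k) ≤ ∑ j ∈ range n, hh w j := by
    have h3 : ∑ j ∈ range n, hh w j = ∑ k ∈ Icc 1 n, hh w (n - k) := by
      refine sum_bij' (fun j _ => n - j) (fun k _ => n - k) ?_ ?_ ?_ ?_ ?_
      · intro j hj
        rw [mem_range] at hj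
        rw [mem_Icc]
        omega
      · intro k hk
        rw [mem_Icc] at hk
        rw [mem_range]
        omega
      · intro j hj
        rw [mem_range] at hj
        show n - (n - j) = j
        omega
      · intro k hk
        rw [mem_Icc] at hk
        show n - (n - k) = k
        omega
      · intro j hj
        rw [mem_range] at hj
        congr 1
        omega
    rw [h3]
    refine sum_le_sum fun k _ => ?_
    have := hh_nonneg hw (n - k)
    exact mul_le_of_le_one_left this (hw1 k)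
  have h3 : ∑ j ∈ range n, hh w j ≤ Real.exp (∑ k ∈ Icc 1 n, w k / k) := by
    have h4 := sum_hh_le hw (n - 1)
    rw [Nat.sub_add_cancel hn] at h4
    refine h4.trans (Real.exp_le_exp.2 (sum_le_sum_of_subset_of_nonneg ?_ ?_))
    · exact Icc_subset_Icc_right (by omega)
    · intro k _ _
      exact div_nonneg (hw k) (Nat.cast_nonneg _)
  have h4 : ∑ k ∈ Icc 1 n, w k / (k : ℝ) = (harmonic n : ℝ) - ∑ k ∈ Icc 1 n, (1 - w k) / (k : ℝ) := by
    rw [eq_sub_iff_add_eq, ← sum_add_distrib, harmonic_eq_sum_Icc]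
    push_cast
    refine sum_congr rfl fun k _ => ?_
    rw [← add_div]
    simp
  have h5 := harmonic_le_one_add_log n
  have hn' : (0 : ℝ) < n := by exact_mod_cast hn
  have h6 : (n : ℝ) * hh w n ≤ n * Real.exp (1 - ∑ k ∈ Icc 1 n, (1 - w k) / k) := by
    calc (n : ℝ) * hh w n ≤ Real.exp (∑ k ∈ Icc 1 n, w k / k) := by rw [h1]; exact h2.trans h3
      _ ≤ Real.exp (Real.log n + (1 - ∑ k ∈ Icc 1 n, (1 - w k) / k)) := by
          refine Real.exp_le_exp.2 ?_
          rw [h4]
          linarith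
      _ = n * Real.exp (1 - ∑ k ∈ Icc 1 n, (1 - w k) / k) := by
          rw [Real.exp_add, Real.exp_log hn']
  exact le_of_mul_le_mul_left h6 hn'

/-- probabilities of class functions -/
theorem card_filter_eq {α : Type*} [Fintype α] [DecidableEq α] (P : Multiset ℕ → Prop) [DecidablePred P] :
    ((univ.filter (fun g : Perm α => P g.partition.parts)).card : ℝ) =
      (Fintype.card α).factorial * ∑ M ∈ (PP (Fintype.card α)).filter P, 1 / (zed M : ℝ) := by
  classical
  rw [card_eq_sum_card_fiberwise (f := fun g : Perm α => g.partition.parts) (t := (PP (Fintype.card α)).filter P)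
    (fun g hg => ?_)]
  · push_cast
    rw [mul_sum]
    refine sum_congr rfl fun M hM => ?_
    obtain ⟨hM1, hM2⟩ := mem_filter.1 hM
    have h1 := card_perm (α := α) hM1
    have h2 : (univ.filter (fun g : Perm α => P g.partition.parts)).filter (fun g => g.partition.parts = M) =
        univ.filter (fun g : Perm α => g.partition.parts = M) := by
      ext g
      simp only [mem_filter, mem_univ, true_and]
      constructor
      · exact fun h => h.2
      · intro h
        exact ⟨by rw [h]; exact hM2, h⟩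
    rw [h2]
    have h3 : (0 : ℝ) < zed M := by exact_mod_cast zed_pos (mem_PP.1 hM1).2
    rw [mul_one_div, eq_div_iff h3.ne']
    exact_mod_cast h1
  · have h1 := (mem_filter.1 (mem_coe.1 hg)).2
    refine mem_coe.2 (mem_filter.2 ⟨mem_PP.2 ⟨?_, fun k hk => g.partition.parts_pos hk⟩, h1⟩)
    exact g.partition.parts_sum

/-- NO LONG CYCLES -/
theorem no_long (n m : ℕ) (hm : 1 ≤ m) :
    (Nat.card {g : Equiv.Perm (Fin n) // ∀ k ∈ g.partition.parts, m ≤ k → (2 ∣ k ∨ 3 ∣ k)} : ℝ) *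
      (∑ k ∈ (Finset.Icc m n).filter (fun k => ¬ 2 ∣ k ∧ ¬ 3 ∣ k), (1 / (k : ℝ))) ≤ n.factorial := by
  classical
  set w : ℕ → ℝ := fun k => if m ≤ k ∧ ¬ 2 ∣ k ∧ ¬ 3 ∣ k then 0 else 1 with hw
  have hw0 : ∀ k, 0 ≤ w k := by
    intro k
    simp only [hw]
    split_ifs <;> norm_num
  have hw1 : ∀ k, w k ≤ 1 := by
    intro k
    simp only [hw]
    split_ifs <;> norm_num
  have h1 : (Nat.card {g : Equiv.Perm (Fin n) // ∀ k ∈ g.partition.parts, m ≤ k → (2 ∣ k ∨ 3 ∣ k)} : ℝ) =
      n.factorial * hh w n := by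
    rw [Nat.card_eq_fintype_card, Fintype.card_subtype,
      card_filter_eq (α := Fin n) (fun M => ∀ k ∈ M, m ≤ k → (2 ∣ k ∨ 3 ∣ k)), Fintype.card_fin, hh, sum_filter]
    congr 1
    refine sum_congr rfl fun M _ => ?_
    split_ifs with h
    · congr 1
      symm
      refine Multiset.prod_eq_one fun x hx => ?_
      obtain ⟨k, hk, rfl⟩ := Multiset.mem_map.1 hx
      simp only [hw]
      rw [if_neg]
      rintro ⟨h2, h3, h4⟩
      rcases h k hk h2 with h5 | h5
      · exact h3 h5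
      · exact h4 h5
    · push Not at h
      obtain ⟨k, hk, h2, h3, h4⟩ := h
      have h5 : (M.map w).prod = 0 := by
        refine Multiset.prod_eq_zero (Multiset.mem_map.2 ⟨k, hk, ?_⟩)
        simp only [hw]
        rw [if_pos ⟨h2, h3, h4⟩]
      rw [h5, zero_div]
  have h2 : ∑ k ∈ (Finset.Icc m n).filter (fun k => ¬ 2 ∣ k ∧ ¬ 3 ∣ k), (1 / (k : ℝ)) =
      ∑ k ∈ Icc 1 n, (1 - w k) / k := by
    rw [sum_filter]
    have h3 : Icc m n ⊆ Icc 1 n := Icc_subset_Icc_left hm
    rw [← sum_subset h3]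
    · refine sum_congr rfl fun k hk => ?_
      have h4 := (mem_Icc.1 hk).1
      simp only [hw]
      by_cases h5 : ¬ 2 ∣ k ∧ ¬ 3 ∣ k
      · rw [if_pos h5, if_pos ⟨h4, h5⟩, sub_zero]
      · rw [if_neg h5, if_neg fun h => h5 h.2, sub_self, zero_div]
    · intro k hk hk'
      have h4 : ¬ m ≤ k := by
        intro h
        exact hk' (mem_Icc.2 ⟨h, (mem_Icc.1 hk).2⟩)
      simp only [hw]
      rw [if_neg fun h => h4 h.1, sub_self, zero_div]
  rw [h1, h2, mul_assoc]
  set μ : ℝ := ∑ k ∈ Icc 1 n, (1 - w k) / k with hμ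
  have hμ0 : 0 ≤ μ := by
    refine sum_nonneg fun k _ => div_nonneg ?_ (Nat.cast_nonneg _)
    linarith [hw1 k]
  have h3 := hh_le_exp hw0 hw1 n
  rw [← hμ] at h3
  have h4 : hh w n * μ ≤ 1 := by
    have h5 := Real.add_one_le_exp (μ - 1)
    have h6 : Real.exp (1 - μ) * Real.exp (μ - 1) = 1 := by
      rw [← Real.exp_add]
      simp
    calc hh w n * μ ≤ Real.exp (1 - μ) * μ := mul_le_mul_of_nonneg_right h3 hμ0
      _ ≤ Real.exp (1 - μ) * Real.exp (μ - 1) :=
          mul_le_mul_of_nonneg_left (by linarith) (Real.exp_pos _).le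
      _ = 1 := h6
  have h5 : (0 : ℝ) ≤ n.factorial := Nat.cast_nonneg _
  calc (n.factorial : ℝ) * (hh w n * μ) ≤ n.factorial * 1 := mul_le_mul_of_nonneg_left h4 h5
    _ = n.factorial := mul_one _

end Pool.Agent.H89.FE

end

section

/-!
Generic lemmas for the local bounds of determinants (projects J23, HF on MP_ef6a16_nt):
convexity of `s (s - 1) / 2` over classes, sums of distinct naturals.
-/

namespace H89MM

open Finset

lemma two_consec (t : ℤ) : 0 ≤ t * (t - 1) := by
  rcases le_or_gt t 0 with h | h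
  · nlinarith
  · have : 1 ≤ t := h
    nlinarith

/-- the tangent inequality of `s (s - 1) / 2` at the integer `L` (doubled) -/
lemma conv_step (s L : ℤ) : 2 * L * s - L * (L + 1) ≤ s * (s - 1) := by
  have := two_consec (s - L)
  nlinarith

/-- `Σ_{i < n} ⌊i / q⌋` in closed form (doubled) -/
theorem floor_sum (q n : ℕ) (hq : 0 < q) :
    2 * ∑ i ∈ range n, ((i / q : ℕ) : ℤ) =
      2 * ((n / q : ℕ) : ℤ) * n - q * (((n / q : ℕ) : ℤ) * (((n / q : ℕ) : ℤ) + 1)) := by
  induction n with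
  | zero => simp
  | succ n ih =>
    rw [sum_range_succ, mul_add, ih]
    have hle : n / q ≤ (n + 1) / q := Nat.div_le_div_right (Nat.le_succ n)
    rcases Nat.succ_div (a := n) (b := q) with h
    by_cases hd : q ∣ n + 1
    · rw [if_pos hd] at h
      obtain ⟨c, hc⟩ := hd
      have h1 : (n + 1) / q = c := by rw [hc, Nat.mul_div_cancel_left _ hq]
      have h2 : n / q + 1 = c := by rw [← h1]; exact h.symm
      have h3 : ((n / q : ℕ) : ℤ) = (c : ℤ) - 1 := by
        have : (((n / q : ℕ) + 1 : ℕ) : ℤ) = (c : ℤ) := by exact_mod_cast h2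
        push_cast at this
        push_cast
        linarith
      have h4 : (n : ℤ) = q * c - 1 := by
        have : ((n + 1 : ℕ) : ℤ) = ((q * c : ℕ) : ℤ) := by exact_mod_cast hc
        push_cast at this
        linarith
      rw [h1, h3]
      push_cast
      rw [h4]
      ring
    · rw [if_neg hd, add_zero] at h
      rw [h]
      push_cast
      ring

/-- convexity: `Σ_C s_C (s_C - 1) / 2 ≥ Σ_{i < n} ⌊i / q⌋` for at most `q` classes of total `n` -/
theorem conv_bound {κ : Type*} (I : Finset κ) (s : κ → ℤ) (q n : ℕ) (hq : 0 < q)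
    (hI : I.card ≤ q) (hs : ∑ C ∈ I, s C = n) :
    2 * ∑ i ∈ range n, ((i / q : ℕ) : ℤ) ≤ ∑ C ∈ I, s C * (s C - 1) := by
  rw [floor_sum q n hq]
  set L : ℤ := ((n / q : ℕ) : ℤ) with hL
  have hL0 : 0 ≤ L := by rw [hL]; positivity
  have h1 : ∑ C ∈ I, (2 * L * s C - L * (L + 1)) ≤ ∑ C ∈ I, s C * (s C - 1) :=
    sum_le_sum fun C _ => conv_step (s C) L
  rw [sum_sub_distrib, ← mul_sum, hs, sum_const, nsmul_eq_mul] at h1
  have h2 : (I.card : ℤ) * (L * (L + 1)) ≤ q * (L * (L + 1)) :=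
    mul_le_mul_of_nonneg_right (by exact_mod_cast hI) (by positivity)
  linarith

/-- a finite set of naturals has sum at least `0 + 1 + .. + (card - 1)` -/
theorem sum_range_card_le (s : Finset ℕ) : ∑ i ∈ range s.card, i ≤ ∑ k ∈ s, k := by
  induction s using Finset.induction_on_max with
  | empty => simp
  | insert a s hs ih =>
    have ha : a ∉ s := fun h => lt_irrefl a (hs a h)
    rw [card_insert_of_notMem ha, sum_range_succ, sum_insert ha, add_comm]
    apply add_le_add _ ih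
    have : s ⊆ range a := fun x hx => mem_range.2 (hs x hx)
    simpa using card_le_card this

/-- doubled form -/
theorem card_mul_pred_le (s : Finset ℕ) :
    (s.card : ℤ) * ((s.card : ℤ) - 1) ≤ 2 * ∑ k ∈ s, (k : ℤ) := by
  have h1 : ((∑ i ∈ range s.card, i : ℕ) : ℤ) ≤ ((∑ k ∈ s, k : ℕ) : ℤ) := by
    exact_mod_cast sum_range_card_le s
  have h2 := Finset.sum_range_id_mul_two s.card
  have h3 : (s.card : ℤ) * ((s.card : ℤ) - 1) = ((s.card * (s.card - 1) : ℕ) : ℤ) := by
    rcases Nat.eq_zero_or_pos s.card with h | h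
    · rw [h]; simp
    · push_cast [Nat.cast_sub (show 1 ≤ s.card from h)]
      ring
  rw [h3, ← h2]
  push_cast at h1 ⊢
  linarith

/-- the same for an injective choice of naturals -/
theorem card_mul_pred_le_of_inj {ι : Type*} (J : Finset ι) (k : ι → ℕ)
    (hk : Set.InjOn k (J : Set ι)) :
    (J.card : ℤ) * ((J.card : ℤ) - 1) ≤ 2 * ∑ r ∈ J, (k r : ℤ) := by
  classical
  have h1 := card_mul_pred_le (J.image k)
  rw [card_image_of_injOn hk, sum_image hk] at h1
  exact h1

end H89MM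

end

section

/-!
# HF Comb: threshold bound for sums of distinct exponents in residue classes

PROOF. For every class `C` let `s_C` be the number of rows; the sum of the `k r` is at least `s_C (s_C - 1) / 2`, so the
sum is at least `∑_C (s_C + e_C) (s_C + e_C - 1) / 2 - ∑_C e_C (e_C - 1) / 2`; the second sum is the number of classes with
`e_C = -1`, the first one is at least `∑_(i<n) ⌊i/q⌋` by convexity (`H89MM.conv_bound`), as `∑ e = 0`.
-/

set_option autoImplicit false

namespace Pool.Agent.H80.HF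

open Finset

theorem comb_thr (q : ℕ) (hq : 0 < q) (e : ℕ → ℤ) (he : ∀ c, c < q → e c = -1 ∨ e c = 0 ∨ e c = 1)
    (hs : ∑ c ∈ range q, e c = 0) {R : Type} [DecidableEq R] (s : Finset R) (c : R → ℕ)
    (hc : ∀ r ∈ s, c r < q) (k : R → ℕ)
    (hinj : ∀ r ∈ s, ∀ r' ∈ s, c r = c r' → k r = k r' → r = r') :
    ∑ i ∈ range s.card, ((i / q : ℕ) : ℤ) - ((range q).filter (fun c => e c = -1)).card ≤
      ∑ r ∈ s, ((k r : ℤ) + e (c r)) := by
  classical
  set J : ℕ → Finset R := fun C => s.filter fun r => c r = C with hJ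
  have hmaps : ∀ r ∈ s, c r ∈ range q := fun r hr => mem_range.2 (hc r hr)
  have hcard : ∑ C ∈ range q, ((J C).card : ℤ) = (s.card : ℤ) := by
    have := Finset.card_eq_sum_card_fiberwise (f := c) (s := s) (t := range q) hmaps
    rw [this]
    push_cast
    rfl
  have hsum : ∑ r ∈ s, ((k r : ℤ) + e (c r)) =
      ∑ C ∈ range q, (∑ r ∈ J C, (k r : ℤ) + e C * ((J C).card : ℤ)) := by
    rw [← Finset.sum_fiberwise_of_maps_to hmaps]
    refine sum_congr rfl fun C _ => ?_
    rw [sum_add_distrib]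
    congr 1
    rw [show ∑ r ∈ s.filter (fun r => c r = C), e (c r) = ∑ r ∈ s.filter (fun r => c r = C), e C from
      sum_congr rfl fun r hr => by rw [(mem_filter.1 hr).2]]
    rw [sum_const, nsmul_eq_mul, mul_comm]
  have h1 : ∀ C, ((J C).card : ℤ) * (((J C).card : ℤ) - 1) ≤ 2 * ∑ r ∈ J C, (k r : ℤ) := by
    intro C
    apply H89MM.card_mul_pred_le_of_inj
    intro r hr r' hr' hkk
    have a := mem_filter.1 (mem_coe.1 hr)
    have b := mem_filter.1 (mem_coe.1 hr')
    exact hinj r a.1 r' b.1 (a.2.trans b.2.symm) hkk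
  have h2 := H89MM.conv_bound (range q) (fun C => ((J C).card : ℤ) + e C) q s.card hq
    (by rw [card_range]) (by rw [sum_add_distrib, hcard, hs, add_zero])
  have h3 : ∑ C ∈ range q, e C * (e C - 1) = 2 * (((range q).filter (fun c => e c = -1)).card : ℤ) := by
    rw [card_filter]
    push_cast
    rw [mul_sum]
    refine sum_congr rfl fun C hC => ?_
    rcases he C (mem_range.1 hC) with h | h | h <;> rw [h] <;> norm_num
  have h4 : ∑ C ∈ range q, (((J C).card : ℤ) + e C) * (((J C).card : ℤ) + e C - 1) ≤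
      ∑ C ∈ range q, (2 * ∑ r ∈ J C, (k r : ℤ) + 2 * (e C * ((J C).card : ℤ)) + e C * (e C - 1)) := by
    refine sum_le_sum fun C _ => ?_
    have := h1 C
    nlinarith [this]
  rw [sum_add_distrib, h3] at h4
  have h5 : ∑ C ∈ range q, (2 * ∑ r ∈ J C, (k r : ℤ) + 2 * (e C * ((J C).card : ℤ))) =
      2 * ∑ r ∈ s, ((k r : ℤ) + e (c r)) := by
    rw [hsum, mul_sum]
    refine sum_congr rfl fun C _ => ?_
    ring
  rw [h5] at h4
  linarith

end Pool.Agent.H80.HF

end

section

/-!
# FD version 2: uniqueness of the relative norm form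
-/

namespace H85FD2

open Polynomial NumberField H9AB

/-- the polynomial with the values `N_{K/F}(a + t b)` is the norm form -/
theorem eq_nfR (F K : Type*) [Field F] [NumberField F] [Field K] [NumberField K] [Algebra F K]
    (a b : 𝓞 K) (Q : (𝓞 F)[X])
    (hQ : ∀ t : 𝓞 F, algebraMap (𝓞 F) F (Q.eval t) =
      Algebra.norm F (algebraMap (𝓞 K) K (a + algebraMap (𝓞 F) (𝓞 K) t * b))) :
    Q = nfR F K a b := by
  apply Polynomial.funext
  intro t
  apply RingOfIntegers.coe_injective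
  show algebraMap (𝓞 F) F (Q.eval t) = algebraMap (𝓞 F) F ((nfR F K a b).eval t)
  rw [hQ, ← eval_map_apply, nfR_map, nfL_eval, map_add, map_mul, Algebra.smul_def]
  rfl

end H85FD2

end

section

/-!
# FD add-on (F): fields with maximal Galois group

`full_of_card`: `L / ℚ` Galois, generated by the images of the embeddings `K → L`, `[L : ℚ] = [K : ℚ]!`: then
there are `[K : ℚ]` embeddings and the Galois group induces all permutations of them.
`exists_period`: then some `g` has an orbit of length `[K : ℚ] - 1` on the embeddings (`[K : ℚ] ≥ 2`).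
-/

set_option linter.unusedSectionVars false
set_option linter.style.haveILetI false

namespace H93FD

section perm

/-- elements of odd order are in all subgroups of index at most `2` -/
theorem mem_of_odd_order {G : Type*} [Group G] [Finite G] (H : Subgroup G)
    (hH : Nat.card G ≤ 2 * Nat.card H) (m : ℕ) (hm : Odd m) (π : G) (hπ : π ^ m = 1) : π ∈ H := by
  have h1 := H.card_mul_index
  have h2 : 0 < Nat.card H := Nat.card_pos
  have h3 : H.index ≤ 2 := by
    rw [← h1, mul_comm] at hH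
    exact Nat.le_of_mul_le_mul_right hH h2
  have h4 : H.index ≠ 0 := H.index_ne_zero_of_finite
  rcases (by omega : H.index = 1 ∨ H.index = 2) with h | h
  · rw [Subgroup.index_eq_one] at h
    rw [h]
    exact Subgroup.mem_top _
  · obtain ⟨k, rfl⟩ := hm
    have h5 : π = (π * π) ^ (k + 1) := by
      rw [← pow_two, ← pow_mul, show 2 * (k + 1) = (2 * k + 1) + 1 by ring, pow_succ, hπ, one_mul]
    rw [h5]
    exact H.pow_mem (Subgroup.mul_self_mem_of_index_two h π) _

end perm

section field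
variable {L : Type*} [Field L] [NumberField L] [IsGalois ℚ L] {K : Type*} [Field K] [NumberField K]

/-- composition with an automorphism, as a permutation of the embeddings -/
def compPerm (g : Gal(L/ℚ)) : Equiv.Perm (K →ₐ[ℚ] L) where
  toFun σ := (g : L →ₐ[ℚ] L).comp σ
  invFun σ := ((g⁻¹ : Gal(L/ℚ)) : L →ₐ[ℚ] L).comp σ
  left_inv σ := by
    ext x
    show g⁻¹ (g (σ x)) = σ x
    rw [← AlgEquiv.mul_apply, inv_mul_cancel]
    rfl
  right_inv σ := by
    ext x
    show g (g⁻¹ (σ x)) = σ x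
    rw [← AlgEquiv.mul_apply, mul_inv_cancel]
    rfl

theorem compPerm_injective (hgen : (⨆ σ : K →ₐ[ℚ] L, σ.fieldRange) = ⊤) :
    Function.Injective (compPerm : Gal(L/ℚ) → Equiv.Perm (K →ₐ[ℚ] L)) := by
  intro g h hgh
  have h1 : ∀ (σ : K →ₐ[ℚ] L) (x : K), g (σ x) = h (σ x) := by
    intro σ x
    have h2 : (compPerm g) σ = (compPerm h) σ := by rw [hgh]
    exact DFunLike.congr_fun h2 x
  have h2 : (⨆ σ : K →ₐ[ℚ] L, σ.fieldRange) ≤
      IntermediateField.fixedField (Subgroup.zpowers (h⁻¹ * g)) := by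
    refine iSup_le fun σ => ?_
    rintro y ⟨x, rfl⟩
    rw [IntermediateField.mem_fixedField_iff]
    intro f hf
    have h3 : Subgroup.zpowers (h⁻¹ * g) ≤ MulAction.stabilizer Gal(L/ℚ) (σ x) := by
      rw [Subgroup.zpowers_le, MulAction.mem_stabilizer_iff]
      show h⁻¹ (g (σ x)) = σ x
      rw [h1, ← AlgEquiv.mul_apply, inv_mul_cancel]
      rfl
    exact h3 hf
  rw [hgen, top_le_iff] at h2
  have h3 : h⁻¹ * g = 1 := by
    ext y
    have hy : y ∈ IntermediateField.fixedField (Subgroup.zpowers (h⁻¹ * g)) := by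
      rw [h2]
      trivial
    rw [IntermediateField.mem_fixedField_iff] at hy
    exact hy _ (Subgroup.mem_zpowers _)
  rw [inv_mul_eq_one] at h3
  exact h3.symm

end field

end H93FD

end

section

/-!
# FD2 (D): elements with a long orbit of odd length

`long_count`: `L / ℚ` Galois, generated by the images of the embeddings `K → L`, `[K : ℚ] = d ≥ 3`,
`[L : ℚ] ≥ d! / 2`: at least one fifth of the elements of the Galois group have an orbit of odd length
`> d / 2` on the embeddings.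
`long_count_sum`: the exact lower bound `∑ 1 / k` over the odd `k` with `d / 2 < k ≤ d`.
-/

set_option linter.unusedSectionVars false
set_option linter.style.haveILetI false

open Function

namespace H93FD

section orbit

theorem iterate_embedding {X : Type*} (f : X → X) (k : ℕ) (e : ZMod k → X)
    (he : ∀ i, f (e i) = e (i + 1)) (j : ℕ) : f^[j] (e 0) = e j := by
  induction j with
  | zero => simp
  | succ j ih => rw [iterate_succ_apply', ih, he]; push_cast; rfl

theorem minimalPeriod_embedding {X : Type*} (f : X → X) (k : ℕ) (e : ZMod k ↪ X)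
    (he : ∀ i, f (e i) = e (i + 1)) : minimalPeriod f (e 0) = k := by
  have hper : ∀ j : ℕ, IsPeriodicPt f j (e 0) ↔ k ∣ j := by
    intro j
    unfold IsPeriodicPt IsFixedPt
    rw [iterate_embedding f k e he, EmbeddingLike.apply_eq_iff_eq, ZMod.natCast_eq_zero_iff]
  refine Nat.dvd_antisymm ?_ ?_
  · rw [← isPeriodicPt_iff_minimalPeriod_dvd, hper]
  · rw [← hper, isPeriodicPt_iff_minimalPeriod_dvd]

/-- two long orbits coincide -/
theorem mem_orbit_of_long {X : Type*} [Fintype X] [DecidableEq X] (f : X → X) (x y : X)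
    (hx : Fintype.card X < 2 * minimalPeriod f x) (hy : Fintype.card X < 2 * minimalPeriod f y) :
    minimalPeriod f y = minimalPeriod f x ∧
      y ∈ (Finset.range (minimalPeriod f x)).image (fun i => f^[i] x) := by
  have hx0 : 0 < minimalPeriod f x := by omega
  have hy0 : 0 < minimalPeriod f y := by omega
  have hc : ∀ z : X, ((Finset.range (minimalPeriod f z)).image (fun i => f^[i] z)).card =
      minimalPeriod f z := by
    intro z
    rw [Finset.card_image_of_injOn, Finset.card_range]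
    intro i hi j hj hij
    exact iterate_injOn_Iio_minimalPeriod (by simpa using hi) (by simpa using hj) hij
  have hnd : ¬ Disjoint ((Finset.range (minimalPeriod f x)).image (fun i => f^[i] x))
      ((Finset.range (minimalPeriod f y)).image (fun i => f^[i] y)) := by
    intro hd
    have h1 := Finset.card_union_of_disjoint hd
    have h2 := Finset.card_le_univ (((Finset.range (minimalPeriod f x)).image (fun i => f^[i] x)) ∪
      ((Finset.range (minimalPeriod f y)).image (fun i => f^[i] y)))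
    rw [h1, hc, hc] at h2
    omega
  rw [Finset.not_disjoint_iff] at hnd
  obtain ⟨z, hz1, hz2⟩ := hnd
  obtain ⟨i, hi, rfl⟩ := Finset.mem_image.1 hz1
  obtain ⟨j, hj, hij⟩ := Finset.mem_image.1 hz2
  rw [Finset.mem_range] at hi hj
  have hxp : x ∈ periodicPts f := minimalPeriod_pos_iff_mem_periodicPts.1 hx0
  have hyp : y ∈ periodicPts f := minimalPeriod_pos_iff_mem_periodicPts.1 hy0
  refine ⟨?_, ?_⟩
  · rw [← minimalPeriod_apply_iterate hyp j, hij, minimalPeriod_apply_iterate hxp i]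
  · have h3 : y = f^[minimalPeriod f y - j + i] x := by
      rw [iterate_add_apply, ← hij, ← iterate_add_apply, Nat.sub_add_cancel hj.le]
      exact (isPeriodicPt_minimalPeriod f y).eq.symm
    refine Finset.mem_image.2 ⟨(minimalPeriod f y - j + i) % minimalPeriod f x,
      Finset.mem_range.2 (Nat.mod_lt _ hx0), ?_⟩
    rw [iterate_mod_minimalPeriod_eq, ← h3]

end orbit

section group
variable {G X : Type*} [Group G] [Finite G] [Finite X]

/-- pairs of a group element and a point with an orbit of length `k` -/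
theorem card_le_pairs (Φ : G →* Equiv.Perm X) (k : ℕ) [NeZero k] [Nonempty (ZMod k ↪ X)]
    (hc : ∀ e : ZMod k ↪ X, ∃ g : G, ∀ i, Φ g (e i) = e (i + 1)) :
    Nat.card G ≤ Nat.card {q : G × X // minimalPeriod (Φ q.1) q.2 = k} := by
  classical
  letI : MulAction G X := MulAction.compHom X Φ
  have hsm : ∀ (g : G) (x : X), g • x = Φ g x := fun g x => rfl
  choose c hc using hc
  haveI : Finite (ZMod k ↪ X) := inferInstance
  let F : (Σ a : G, MulAction.fixedBy (ZMod k ↪ X) a) → {q : G × X // minimalPeriod (Φ q.1) q.2 = k} :=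
    fun s => ⟨(c s.2.1 * s.1, s.2.1 0), by
      refine minimalPeriod_embedding (Φ (c s.2.1 * s.1)) k s.2.1 fun i => ?_
      rw [map_mul, Equiv.Perm.mul_apply]
      have h1 : s.1 • s.2.1 = s.2.1 := s.2.2
      have h2 : Φ s.1 (s.2.1 i) = s.2.1 i := by
        conv_rhs => rw [← h1]
        rfl
      rw [h2, hc]⟩
  have hF : ∀ s, ∀ i, Φ (F s).1.1 (s.2.1 i) = s.2.1 (i + 1) := by
    intro s i
    show Φ (c s.2.1 * s.1) (s.2.1 i) = s.2.1 (i + 1)
    rw [map_mul, Equiv.Perm.mul_apply]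
    have h1 : s.1 • s.2.1 = s.2.1 := s.2.2
    have h2 : Φ s.1 (s.2.1 i) = s.2.1 i := by
      conv_rhs => rw [← h1]
      rfl
    rw [h2, hc]
  have hinj : Injective F := by
    rintro ⟨g, e⟩ ⟨g', e'⟩ hs
    have h0 : e.1 0 = e'.1 0 := congrArg (fun q => q.1.2) hs
    have hg : c e.1 * g = c e'.1 * g' := congrArg (fun q => q.1.1) hs
    have he : e.1 = e'.1 := by
      ext i
      have h1 := iterate_embedding (Φ (F ⟨g, e⟩).1.1) k e.1 (hF ⟨g, e⟩) i.val
      have h2 := iterate_embedding (Φ (F ⟨g', e'⟩).1.1) k e'.1 (hF ⟨g', e'⟩) i.val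
      rw [ZMod.natCast_zmod_val] at h1 h2
      rw [← h1, ← h2, h0, hs]
    have hgg : g = g' := by
      rw [he] at hg
      exact mul_left_cancel hg
    subst hgg
    have : e = e' := Subtype.ext he
    rw [this]
  haveI : Finite {q : G × X // minimalPeriod (Φ q.1) q.2 = k} := inferInstance
  have h1 : Nat.card (Σ a : G, MulAction.fixedBy (ZMod k ↪ X) a) ≤
      Nat.card {q : G × X // minimalPeriod (Φ q.1) q.2 = k} := Nat.card_le_card_of_injective F hinj
  refine le_trans ?_ h1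
  rw [Nat.card_congr (MulAction.sigmaFixedByEquivOrbitsProdGroup G (ZMod k ↪ X)), Nat.card_prod]
  haveI : Nonempty (Quotient (MulAction.orbitRel G (ZMod k ↪ X))) :=
    ⟨Quotient.mk _ (Classical.arbitrary _)⟩
  have h2 : 0 < Nat.card (Quotient (MulAction.orbitRel G (ZMod k ↪ X))) := Nat.card_pos
  exact Nat.le_mul_of_pos_left _ h2

/-- the number of group elements with an orbit of length `k > d / 2` -/
theorem card_le_mul_long (Φ : G →* Equiv.Perm X) (k : ℕ) (hk : Nat.card X < 2 * k)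
    (hkd : k ≤ Nat.card X)
    (hc : ∀ e : ZMod k ↪ X, ∃ g : G, ∀ i, Φ g (e i) = e (i + 1)) :
    Nat.card G ≤ k * Nat.card {g : G // ∃ x : X, minimalPeriod (Φ g) x = k} := by
  classical
  haveI : Fintype G := Fintype.ofFinite _
  haveI : Fintype X := Fintype.ofFinite _
  rw [Nat.card_eq_fintype_card] at hk hkd
  haveI : NeZero k := ⟨by omega⟩
  haveI : Nonempty (ZMod k ↪ X) :=
    Function.Embedding.nonempty_of_card_le (by rw [ZMod.card]; exact hkd)
  refine (card_le_pairs Φ k hc).trans ?_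
  rw [Nat.card_eq_fintype_card, Nat.card_eq_fintype_card, Fintype.card_subtype, Fintype.card_subtype]
  have h1 := Finset.card_le_mul_card_image (f := Prod.fst)
    (Finset.univ.filter fun q : G × X => minimalPeriod (Φ q.1) q.2 = k) k ?_
  · refine h1.trans (Nat.mul_le_mul_left k (Finset.card_le_card ?_))
    intro g hg
    obtain ⟨q, hq, rfl⟩ := Finset.mem_image.1 hg
    exact Finset.mem_filter.2 ⟨Finset.mem_univ _, q.2, (Finset.mem_filter.1 hq).2⟩
  · intro g hg
    obtain ⟨q, hq, rfl⟩ := Finset.mem_image.1 hg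
    have hq2 : minimalPeriod (Φ q.1) q.2 = k := (Finset.mem_filter.1 hq).2
    have h2 : ((Finset.univ.filter fun q : G × X => minimalPeriod (Φ q.1) q.2 = k).filter
        fun q' => q'.1 = q.1) ⊆ ((Finset.range k).image fun i => (q.1, (Φ q.1)^[i] q.2)) := by
      rintro ⟨g', y⟩ hy
      rw [Finset.mem_filter, Finset.mem_filter] at hy
      obtain ⟨⟨-, hy1⟩, hy2⟩ := hy
      simp only at hy1 hy2
      subst hy2
      obtain ⟨-, hy3⟩ := mem_orbit_of_long (Φ q.1) q.2 y (by omega) (by omega)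
      rw [hq2] at hy3
      obtain ⟨i, hi, rfl⟩ := Finset.mem_image.1 hy3
      exact Finset.mem_image.2 ⟨i, hi, rfl⟩
    refine (Finset.card_le_card h2).trans (Finset.card_image_le.trans ?_)
    rw [Finset.card_range]

/-- the number of group elements with an orbit of length in `S`, all elements of `S` being `> d / 2` -/
theorem sum_le_long (Φ : G →* Equiv.Perm X) (S : Finset ℕ) (hS : ∀ k ∈ S, Nat.card X < 2 * k)
    (hSd : ∀ k ∈ S, k ≤ Nat.card X)
    (hc : ∀ k ∈ S, ∀ e : ZMod k ↪ X, ∃ g : G, ∀ i, Φ g (e i) = e (i + 1)) :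
    (Nat.card G : ℝ) * ∑ k ∈ S, (1 / (k : ℝ)) ≤
      Nat.card {g : G // ∃ x : X, minimalPeriod (Φ g) x ∈ S} := by
  classical
  haveI : Fintype G := Fintype.ofFinite _
  haveI : Fintype X := Fintype.ofFinite _
  have hdis : ∀ k ∈ S, ∀ l ∈ S, k ≠ l →
      Disjoint (Finset.univ.filter fun g : G => ∃ x : X, minimalPeriod (Φ g) x = k)
        (Finset.univ.filter fun g : G => ∃ x : X, minimalPeriod (Φ g) x = l) := by
    intro k hk l hl hkl
    rw [Finset.disjoint_left]
    intro g hg1 hg2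
    obtain ⟨x, hx⟩ := (Finset.mem_filter.1 hg1).2
    obtain ⟨y, hy⟩ := (Finset.mem_filter.1 hg2).2
    have h1 := hS k hk
    have h2 := hS l hl
    rw [Nat.card_eq_fintype_card] at h1 h2
    have h3 := (mem_orbit_of_long (Φ g) x y (by omega) (by omega)).1
    exact hkl (by rw [← hx, ← hy, h3])
  have h1 : (Finset.univ.filter fun g : G => ∃ x : X, minimalPeriod (Φ g) x ∈ S) =
      S.biUnion fun k => Finset.univ.filter fun g : G => ∃ x : X, minimalPeriod (Φ g) x = k := by
    ext g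
    simp only [Finset.mem_filter, Finset.mem_univ, true_and, Finset.mem_biUnion]
    constructor
    · rintro ⟨x, hx⟩
      exact ⟨_, hx, x, rfl⟩
    · rintro ⟨k, hk, x, hx⟩
      exact ⟨x, hx ▸ hk⟩
  have h2 : (Nat.card {g : G // ∃ x : X, minimalPeriod (Φ g) x ∈ S}) =
      ∑ k ∈ S, Nat.card {g : G // ∃ x : X, minimalPeriod (Φ g) x = k} := by
    rw [Nat.card_eq_fintype_card, Fintype.card_subtype, h1, Finset.card_biUnion hdis]
    refine Finset.sum_congr rfl fun k _ => ?_
    rw [Nat.card_eq_fintype_card, Fintype.card_subtype]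
  rw [h2, Nat.cast_sum, Finset.mul_sum]
  refine Finset.sum_le_sum fun k hk => ?_
  have h3 := hS k hk
  have hk0 : 0 < k := by omega
  have h4 := card_le_mul_long Φ k h3 (hSd k hk) (hc k hk)
  have h5 : (Nat.card G : ℝ) ≤ k * Nat.card {g : G // ∃ x : X, minimalPeriod (Φ g) x = k} := by
    exact_mod_cast h4
  have hk0' : (0 : ℝ) < k := by exact_mod_cast hk0
  rw [mul_one_div, div_le_iff₀ hk0']
  linarith

/-- a permutation of odd order which moves along a given cycle -/
theorem exists_cycle {X : Type*} (k : ℕ) [NeZero k] (e : ZMod k ↪ X) :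
    ∃ π : Equiv.Perm X, (∀ i, π (e i) = e (i + 1)) ∧ π ^ k = 1 := by
  refine ⟨Equiv.Perm.viaEmbeddingHom e (Equiv.addRight 1), fun i => ?_, ?_⟩
  · rw [Equiv.Perm.viaEmbeddingHom_apply, Equiv.Perm.viaEmbedding_apply]
    rfl
  · have h1 : (Equiv.addRight (1 : ZMod k)) ^ k = 1 := by
      ext i
      have h2 : ∀ (j : ℕ) (i : ZMod k), ((Equiv.addRight (1 : ZMod k)) ^ j) i = i + j := by
        intro j
        induction j with
        | zero => intro i; simp
        | succ j ih =>
          intro i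
          rw [pow_succ, Equiv.Perm.mul_apply, ih]
          show i + 1 + j = i + ((j + 1 : ℕ) : ZMod k)
          push_cast
          ring
      rw [h2, ZMod.natCast_self, add_zero, Equiv.Perm.one_apply]
    rw [← map_pow, h1, map_one]

end group

section numeric

/-- the odd numbers in `(d / 2, d]` -/
def oddLong (d : ℕ) : Finset ℕ := (Finset.Ioc (d / 2) d).filter Odd

theorem mem_oddLong {d k : ℕ} : k ∈ oddLong d ↔ d < 2 * k ∧ k ≤ d ∧ Odd k := by
  unfold oddLong
  rw [Finset.mem_filter, Finset.mem_Ioc]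
  constructor
  · rintro ⟨⟨h1, h2⟩, h3⟩
    exact ⟨by omega, h2, h3⟩
  · rintro ⟨h1, h2, h3⟩
    exact ⟨⟨by omega, h2⟩, h3⟩

theorem card_oddLong (d : ℕ) : d ≤ 4 * (oddLong d).card + 2 := by
  have h1 : ((Finset.Ico ((d / 2 + 1) / 2) ((d + 1) / 2)).image fun i => 2 * i + 1) ⊆ oddLong d := by
    intro k hk
    obtain ⟨i, hi, rfl⟩ := Finset.mem_image.1 hk
    rw [Finset.mem_Ico] at hi
    rw [mem_oddLong]
    refine ⟨by omega, by omega, i, rfl⟩
  have h2 := Finset.card_le_card h1
  rw [Finset.card_image_of_injective _ (fun a b h => by simpa using h), Nat.card_Ico] at h2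
  omega

theorem sum_oddLong (d : ℕ) (hd : 3 ≤ d) : (1 : ℝ) / 5 ≤ ∑ k ∈ oddLong d, (1 / (k : ℝ)) := by
  rcases le_or_gt 10 d with h | h
  · have h1 : (oddLong d).card • (1 / (d : ℝ)) ≤ ∑ k ∈ oddLong d, (1 / (k : ℝ)) := by
      refine Finset.card_nsmul_le_sum _ _ _ fun k hk => ?_
      obtain ⟨h2, h3, -⟩ := mem_oddLong.1 hk
      have h4 : (0 : ℝ) < k := by
        have : 0 < k := by omega
        exact_mod_cast this
      exact one_div_le_one_div_of_le h4 (by exact_mod_cast h3)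
    refine le_trans ?_ h1
    rw [nsmul_eq_mul, mul_one_div]
    have h5 : (0 : ℝ) < d := by
      have : 0 < d := by omega
      exact_mod_cast this
    rw [div_le_div_iff₀ (by norm_num) h5]
    have h6 := card_oddLong d
    have h7 : d ≤ 5 * (oddLong d).card := by omega
    have h8 : (d : ℝ) ≤ 5 * (oddLong d).card := by exact_mod_cast h7
    linarith
  · have h3 : oddLong 3 = {3} := by decide
    have h4 : oddLong 4 = {3} := by decide
    have h5 : oddLong 5 = {3, 5} := by decide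
    have h6 : oddLong 6 = {5} := by decide
    have h7 : oddLong 7 = {5, 7} := by decide
    have h8 : oddLong 8 = {5, 7} := by decide
    have h9 : oddLong 9 = {5, 7, 9} := by decide
    interval_cases d
    · rw [h3]; norm_num
    · rw [h4]; norm_num
    · rw [h5]; norm_num
    · rw [h6]; norm_num
    · rw [h7]; norm_num
    · rw [h8]; norm_num
    · rw [h9]; norm_num

end numeric

section field
variable {K L : Type*} [Field K] [NumberField K] [Field L] [NumberField L] [IsGalois ℚ L]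

/-- the Galois group on the embeddings -/
def compHom (K L : Type*) [Field K] [NumberField K] [Field L] [NumberField L] [IsGalois ℚ L] :
    Gal(L/ℚ) →* Equiv.Perm (K →ₐ[ℚ] L) where
  toFun := compPerm
  map_one' := by
    ext σ y
    rfl
  map_mul' := fun g h => by
    ext σ y
    rfl

/-- Galois group of index at most `2`: the number of embeddings is `[K : ℚ]` -/
theorem card_emb_of_half (h3 : 3 ≤ Module.finrank ℚ K)
    (hgen : (⨆ σ : K →ₐ[ℚ] L, σ.fieldRange) = ⊤)
    (hL : (Module.finrank ℚ K).factorial ≤ 2 * Module.finrank ℚ L) :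
    Nat.card (K →ₐ[ℚ] L) = Module.finrank ℚ K := by
  classical
  haveI : Fintype (K →ₐ[ℚ] L) := Fintype.ofFinite _
  have hinj := compPerm_injective hgen
  have hle : Nat.card (K →ₐ[ℚ] L) ≤ Module.finrank ℚ K := card_algHom_le_finrank ℚ K L
  have h1 : Nat.card Gal(L/ℚ) ≤ Nat.card (Equiv.Perm (K →ₐ[ℚ] L)) :=
    Nat.card_le_card_of_injective _ hinj
  have h2 : Nat.card (Equiv.Perm (K →ₐ[ℚ] L)) = (Nat.card (K →ₐ[ℚ] L)).factorial := by
    rw [Nat.card_eq_fintype_card, Fintype.card_perm, Nat.card_eq_fintype_card]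
  rw [← IsGalois.card_aut_eq_finrank ℚ L] at hL
  refine le_antisymm hle ?_
  by_contra hlt
  rw [not_le] at hlt
  obtain ⟨d, hd⟩ : ∃ d, Module.finrank ℚ K = d + 1 := ⟨Module.finrank ℚ K - 1, by omega⟩
  rw [hd] at hL hlt h3
  have h4 : (Nat.card (K →ₐ[ℚ] L)).factorial ≤ d.factorial := Nat.factorial_le (by omega)
  rw [Nat.factorial_succ] at hL
  have h5 : 0 < d.factorial := Nat.factorial_pos d
  have h6 : (d + 1) * d.factorial ≤ 2 * d.factorial := by
    calc (d + 1) * d.factorial ≤ 2 * Nat.card Gal(L/ℚ) := hL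
      _ ≤ 2 * d.factorial := Nat.mul_le_mul_left 2 ((h1.trans_eq h2).trans h4)
  have := Nat.le_of_mul_le_mul_right h6 h5
  omega

/-- the lower bound `[L : ℚ] ∑ 1 / k` over the odd `k` with `d / 2 < k ≤ d` -/
theorem long_count_sum (h3 : 3 ≤ Module.finrank ℚ K)
    (hgen : (⨆ σ : K →ₐ[ℚ] L, σ.fieldRange) = ⊤)
    (hL : (Module.finrank ℚ K).factorial ≤ 2 * Module.finrank ℚ L) :
    (Module.finrank ℚ L : ℝ) * ∑ k ∈ oddLong (Module.finrank ℚ K), (1 / (k : ℝ)) ≤
      Nat.card {g : Gal(L/ℚ) // ∃ s : K →ₐ[ℚ] L,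
        Odd (minimalPeriod (fun t : K →ₐ[ℚ] L => (g : L →ₐ[ℚ] L).comp t) s) ∧
        Module.finrank ℚ K < 2 * minimalPeriod (fun t : K →ₐ[ℚ] L => (g : L →ₐ[ℚ] L).comp t) s} := by
  classical
  have hcard := card_emb_of_half h3 hgen hL
  have hinj : Injective (compHom K L) := compPerm_injective hgen
  have hr : Nat.card (compHom K L).range = Nat.card Gal(L/ℚ) :=
    (Nat.card_congr (MonoidHom.ofInjective hinj).toEquiv).symm
  haveI : Fintype (K →ₐ[ℚ] L) := Fintype.ofFinite _
  have h2 : Nat.card (Equiv.Perm (K →ₐ[ℚ] L)) = (Module.finrank ℚ K).factorial := by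
    rw [Nat.card_eq_fintype_card, Fintype.card_perm, ← Nat.card_eq_fintype_card, hcard]
  have hmain := sum_le_long (compHom K L) (oddLong (Module.finrank ℚ K))
    (fun k hk => by rw [hcard]; exact (mem_oddLong.1 hk).1)
    (fun k hk => by rw [hcard]; exact (mem_oddLong.1 hk).2.1)
    (fun k hk e => by
      obtain ⟨h4, h5, h6⟩ := mem_oddLong.1 hk
      haveI : NeZero k := ⟨by omega⟩
      obtain ⟨π, hπ, hπk⟩ := exists_cycle k e
      have h7 : π ∈ (compHom K L).range :=
        mem_of_odd_order _ (by rw [h2, hr, IsGalois.card_aut_eq_finrank]; exact hL) k h6 π hπk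
      obtain ⟨g, hg⟩ := h7
      exact ⟨g, fun i => by rw [hg]; exact hπ i⟩)
  rw [IsGalois.card_aut_eq_finrank] at hmain
  refine hmain.trans ?_
  have h8 : Nat.card {g : Gal(L/ℚ) // ∃ x : K →ₐ[ℚ] L,
      minimalPeriod (compHom K L g) x ∈ oddLong (Module.finrank ℚ K)} ≤
      Nat.card {g : Gal(L/ℚ) // ∃ s : K →ₐ[ℚ] L,
        Odd (minimalPeriod (fun t : K →ₐ[ℚ] L => (g : L →ₐ[ℚ] L).comp t) s) ∧
        Module.finrank ℚ K <
          2 * minimalPeriod (fun t : K →ₐ[ℚ] L => (g : L →ₐ[ℚ] L).comp t) s} := by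
    refine Nat.card_le_card_of_injective (Subtype.map id ?_) (Subtype.map_injective _ injective_id)
    rintro g ⟨x, hx⟩
    obtain ⟨h4, h5, h6⟩ := mem_oddLong.1 hx
    exact ⟨x, h6, h4⟩
  exact_mod_cast h8

/-- at least one fifth of the elements have an orbit of odd length `> d / 2` on the embeddings -/
theorem long_count (h3 : 3 ≤ Module.finrank ℚ K)
    (hgen : (⨆ σ : K →ₐ[ℚ] L, σ.fieldRange) = ⊤)
    (hL : (Module.finrank ℚ K).factorial ≤ 2 * Module.finrank ℚ L) :
    (Module.finrank ℚ L : ℝ) / 5 ≤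
      Nat.card {g : Gal(L/ℚ) // ∃ s : K →ₐ[ℚ] L,
        Odd (minimalPeriod (fun t : K →ₐ[ℚ] L => (g : L →ₐ[ℚ] L).comp t) s) ∧
        Module.finrank ℚ K < 2 * minimalPeriod (fun t : K →ₐ[ℚ] L => (g : L →ₐ[ℚ] L).comp t) s} := by
  refine le_trans ?_ (long_count_sum h3 hgen hL)
  have h1 := sum_oddLong _ h3
  have h2 : (0 : ℝ) ≤ Module.finrank ℚ L := Nat.cast_nonneg _
  have h4 := mul_le_mul_of_nonneg_left h1 h2
  rw [mul_one_div] at h4
  exact h4

end field

end H93FD

end
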