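import Pool.Agent.H71.TFC.M01
import Pool.Agent.H71.TFC.M04
import Pool.Agent.H71.TFC.M11

/-! The parts of this file: H24.FD.Zeta, H24.FD.Euler, H24.FD.DegOne, H29.AB.Iface, H30.MM.Dft, H30.MM.Jbd, H30.MM.LogKer, H30.MM.Inf, H30.MM.Vdm, H30.MM.Inf2, H30.MM.Inf3, H24.FD.UDsum, H80.HF.DetL, H80.HF.ZeroB, H85.FD.Fix, H85.FD.S3, H55.AB.Fam, H85.Fold.RankDrop, H80.HF.KerM, H88.AB.RealQ, H89.FrobD.Cyc, H89.FrobD.Fields, H89.FrobD.Elt, H9.FC.LocDeg, H52.FD.Place, H55.AB.RelDeg, H9.FC.LocCM, H55.AB.RelSym. -/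

section

/-!
# FD splitting, module 1: the real Dedekind zeta function as a sum over ideals

`Zr K s = ∑ N(I)^(-s)` over all ideals of `𝓞 K` (the zero ideal contributes `0`), summable for `s > 1`,
`(s - 1) Zr K s → ρ > 0`.
-/

set_option autoImplicit false

namespace Pool.Agent.H24.FD

open NumberField Filter Topology Ideal

open scoped nonZeroDivisors

variable (K : Type*) [Field K] [NumberField K]

/-- `N(I)^(-s)` (`0` for the zero ideal, `s ≠ 0`) -/
noncomputable def nrm (s : ℝ) (I : Ideal (𝓞 K)) : ℝ := ((absNorm I : ℕ) : ℝ) ^ (-s)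

/-- the number of ideals of norm `n` -/
noncomputable def cI (n : ℕ) : ℕ := Nat.card {I : Ideal (𝓞 K) // absNorm I = n}

/-- the sum over all ideals -/
noncomputable def Zr (s : ℝ) : ℝ := ∑' I : Ideal (𝓞 K), nrm K s I

theorem cI_tendsto : Tendsto (fun n : ℕ => (∑ k ∈ Finset.Icc 1 n, (cI K k : ℝ)) / (n : ℝ)) atTop
    (𝓝 (dedekindZeta_residue K)) := by
  refine ((Ideal.tendsto_norm_le_div_atTop₀ K).comp tendsto_natCast_atTop_atTop).congr fun n ↦ ?_
  simp only [Function.comp_apply, Nat.cast_le, ← Nat.cast_sum, cI]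
  congr
  rw [← add_left_inj 1, ← card_norm_le_eq_card_norm_le_add_one,
    show Finset.Icc 1 n = Finset.Ioc 0 n from Finset.Icc_succ_left_eq_Ioc _ _,
    show 1 = Nat.card {I : Ideal (𝓞 K) // absNorm I = 0} by simp [Ideal.absNorm_eq_zero_iff],
    Finset.sum_Ioc_add_eq_sum_Icc (n.zero_le),
    ← Finset.card_preimage_eq_sum_card_image_eq (fun k _ ↦ finite_setOfPred_absNorm_eq k)]
  simp [Set.coe_eq_subtype]

theorem cI_LSeriesSummable {s : ℝ} (hs : 1 < s) :
    LSeriesSummable (fun n ↦ ((cI K n : ℝ) : ℂ)) (s : ℂ) := by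
  refine LSeriesSummable_of_sum_norm_bigO_and_nonneg (f := fun n => (cI K n : ℝ)) (r := 1) ?_
    (fun n => Nat.cast_nonneg _) zero_le_one (by simpa using hs)
  exact Asymptotics.isBigO_atTop_natCast_rpow_of_tendsto_div_rpow (a := dedekindZeta_residue K)
    (by simpa using cI_tendsto K)

theorem term_eq {s : ℝ} (hs : 1 < s) (n : ℕ) :
    LSeries.term (fun n ↦ ((cI K n : ℝ) : ℂ)) (s : ℂ) n = (((cI K n : ℝ) * (n : ℝ) ^ (-s) : ℝ) : ℂ) := by
  rcases Nat.eq_zero_or_pos n with h0 | h0
  · subst h0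
    rw [LSeries.term_zero, Nat.cast_zero (R := ℝ), Real.zero_rpow (by linarith), mul_zero,
      Complex.ofReal_zero]
  · rw [LSeries.term_of_ne_zero h0.ne', Complex.ofReal_mul, Complex.ofReal_cpow (Nat.cast_nonneg _),
      Complex.ofReal_neg, Complex.cpow_neg, div_eq_mul_inv, Complex.ofReal_natCast, Complex.ofReal_natCast]

theorem cI_summable {s : ℝ} (hs : 1 < s) : Summable (fun n : ℕ => (cI K n : ℝ) * (n : ℝ) ^ (-s)) := by
  have h := cI_LSeriesSummable K hs
  have h2 : Summable (fun n : ℕ => (((cI K n : ℝ) * (n : ℝ) ^ (-s) : ℝ) : ℂ)) := by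
    refine Summable.congr h fun n => ?_
    exact term_eq K hs n
  exact Complex.summable_ofReal.1 h2

theorem LSeries_eq {s : ℝ} (hs : 1 < s) :
    LSeries (fun n ↦ ((cI K n : ℝ) : ℂ)) (s : ℂ) = ((∑' n : ℕ, (cI K n : ℝ) * (n : ℝ) ^ (-s) : ℝ) : ℂ) := by
  rw [LSeries, Complex.ofReal_tsum]
  exact tsum_congr fun n => term_eq K hs n

theorem fiber_eq (s : ℝ) (n : ℕ) :
    ∑' I : {I : Ideal (𝓞 K) // absNorm I = n}, nrm K s I.1 = (cI K n : ℝ) * (n : ℝ) ^ (-s) := by
  have h : ∀ I : {I : Ideal (𝓞 K) // absNorm I = n}, nrm K s I.1 = (n : ℝ) ^ (-s) := by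
    intro I
    rw [nrm, I.2]
  rw [tsum_congr h, tsum_const, cI, nsmul_eq_mul]

theorem nrm_nonneg (s : ℝ) (I : Ideal (𝓞 K)) : 0 ≤ nrm K s I := Real.rpow_nonneg (Nat.cast_nonneg _) _

theorem summable_nrm {s : ℝ} (hs : 1 < s) : Summable (nrm K s) := by
  rw [← (Equiv.sigmaFiberEquiv (absNorm : Ideal (𝓞 K) → ℕ)).summable_iff]
  refine (summable_sigma_of_nonneg (fun x => nrm_nonneg K s _)).2 ?_
  constructor
  · intro n
    have hf : Finite {I : Ideal (𝓞 K) // absNorm I = n} := finite_setOfPred_absNorm_eq n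
    exact Summable.of_finite
  · refine Summable.congr (cI_summable K hs) fun n => ?_
    exact (fiber_eq K s n).symm

theorem Zr_eq {s : ℝ} (hs : 1 < s) : Zr K s = ∑' n : ℕ, (cI K n : ℝ) * (n : ℝ) ^ (-s) := by
  rw [Zr, ← (Equiv.sigmaFiberEquiv (absNorm : Ideal (𝓞 K) → ℕ)).tsum_eq]
  have h1 := ((Equiv.sigmaFiberEquiv (absNorm : Ideal (𝓞 K) → ℕ)).summable_iff (f := nrm K s)).2
    (summable_nrm K hs)
  refine (h1.tsum_sigma).trans ?_
  exact tsum_congr fun n => fiber_eq K s n

theorem Zr_tendsto : Tendsto (fun s : ℝ => (s - 1) * Zr K s) (𝓝[>] 1) (𝓝 (dedekindZeta_residue K)) := by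
  have h := LSeries_tendsto_sub_mul_nhds_one_of_tendsto_sum_div_and_nonneg _ (cI_tendsto K)
    (fun _ => Nat.cast_nonneg _)
  have h2 : Tendsto (fun s : ℝ => (((s - 1) * Zr K s : ℝ) : ℂ)) (𝓝[>] 1)
      (𝓝 ((dedekindZeta_residue K : ℝ) : ℂ)) := by
    refine h.congr' ?_
    filter_upwards [self_mem_nhdsWithin] with s hs
    rw [LSeries_eq K hs, ← Zr_eq K hs]
    push_cast
    ring
  exact Filter.tendsto_ofReal_iff.1 h2

/-- two-sided bound near `1` -/
theorem Zr_near : ∃ c C δ : ℝ, 0 < c ∧ 0 < C ∧ 0 < δ ∧ ∀ s : ℝ, 1 < s → s < 1 + δ →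
    c ≤ (s - 1) * Zr K s ∧ (s - 1) * Zr K s ≤ C := by
  have hr := dedekindZeta_residue_pos K
  have h1 : ∀ᶠ s in 𝓝[>] (1 : ℝ), (s - 1) * Zr K s ∈ Set.Icc (dedekindZeta_residue K / 2)
      (2 * dedekindZeta_residue K) :=
    (Zr_tendsto K) (Icc_mem_nhds (by linarith) (by linarith))
  rw [eventually_nhdsWithin_iff, Metric.eventually_nhds_iff] at h1
  obtain ⟨δ, hδ, h2⟩ := h1
  refine ⟨dedekindZeta_residue K / 2, 2 * dedekindZeta_residue K, δ, by linarith, by linarith, hδ,
    fun s hs hs2 => ?_⟩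
  exact h2 (by rw [Real.dist_eq, abs_lt]; constructor <;> linarith) hs

end Pool.Agent.H24.FD

end

section

/-!
# FD splitting, module 2: the two halves of the Euler product of the Dedekind zeta function

`∑_(v ∈ S) N v^(-s) ≤ log Zr + Zr 2` for finite sets `S` of nonzero primes, and
`log Zr ≤ ∑_v N v^(-s) + 2 Zr 2`.
-/

set_option autoImplicit false

namespace Pool.Agent.H24.FD

open NumberField Filter Topology Ideal Finset UniqueFactorizationMonoid

variable (K : Type*) [Field K] [NumberField K]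

theorem nrm_mul (s : ℝ) (I J : Ideal (𝓞 K)) : nrm K s (I * J) = nrm K s I * nrm K s J := by
  rw [nrm, nrm, nrm, map_mul, Nat.cast_mul, Real.mul_rpow (Nat.cast_nonneg _) (Nat.cast_nonneg _)]

theorem nrm_top (s : ℝ) : nrm K s ⊤ = 1 := by
  rw [nrm, absNorm_top, Nat.cast_one, Real.one_rpow]

theorem nrm_one (s : ℝ) : nrm K s 1 = 1 := by
  rw [Ideal.one_eq_top, nrm_top]

theorem nrm_bot {s : ℝ} (hs : s ≠ 0) : nrm K s ⊥ = 0 := by
  rw [nrm, absNorm_bot, Nat.cast_zero, Real.zero_rpow (neg_ne_zero.2 hs)]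

/-- the norm as a monoid homomorphism -/
noncomputable def nrmH (s : ℝ) : Ideal (𝓞 K) →* ℝ where
  toFun := nrm K s
  map_one' := nrm_one K s
  map_mul' := nrm_mul K s

theorem nrmH_apply (s : ℝ) (I : Ideal (𝓞 K)) : nrmH K s I = nrm K s I := rfl

/-- the nonzero primes -/
def PP : Set (Ideal (𝓞 K)) := {v | v.IsPrime ∧ v ≠ ⊥}

theorem PP_prime {v : Ideal (𝓞 K)} (hv : v ∈ PP K) : Prime v := Ideal.prime_of_isPrime hv.2 hv.1

theorem PP_max {v : Ideal (𝓞 K)} (hv : v ∈ PP K) : v.IsMaximal := hv.1.isMaximal hv.2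

theorem two_le_norm {v : Ideal (𝓞 K)} (hv : v ∈ PP K) : 2 ≤ absNorm v := by
  have h1 : absNorm v ≠ 0 := by
    rw [Ne, Ideal.absNorm_eq_zero_iff]
    exact hv.2
  have h2 : absNorm v ≠ 1 := by
    rw [Ne, Ideal.absNorm_eq_one_iff]
    exact hv.1.ne_top
  omega

theorem nrm_le_half {s : ℝ} (hs : 1 < s) {v : Ideal (𝓞 K)} (hv : v ∈ PP K) : nrm K s v ≤ 1 / 2 := by
  have h2 : (2 : ℝ) ≤ (absNorm v : ℕ) := by exact_mod_cast two_le_norm K hv
  calc nrm K s v ≤ (2 : ℝ) ^ (-s) := Real.rpow_le_rpow_of_nonpos (by norm_num) h2 (by linarith)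
    _ ≤ (2 : ℝ) ^ (-1 : ℝ) := Real.rpow_le_rpow_of_exponent_le (by norm_num) (by linarith)
    _ = 1 / 2 := by rw [Real.rpow_neg_one]; norm_num

/-- `N^(-s)` is decreasing in `s` -/
theorem nrm_anti {s t : ℝ} (hs : 0 < s) (hst : s ≤ t) (I : Ideal (𝓞 K)) : nrm K t I ≤ nrm K s I := by
  rcases Nat.eq_zero_or_pos (absNorm I) with h | h
  · rw [nrm, nrm, h, Nat.cast_zero, Real.zero_rpow (by linarith), Real.zero_rpow (by linarith)]
  · exact Real.rpow_le_rpow_of_exponent_le (by exact_mod_cast h) (by linarith)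

theorem nrm_sq (s : ℝ) (I : Ideal (𝓞 K)) : nrm K s I ^ 2 = nrm K (2 * s) I := by
  rw [nrm, nrm, ← Real.rpow_natCast, ← Real.rpow_mul (Nat.cast_nonneg _)]
  congr 1
  push_cast
  ring

theorem nrm_sq_le {s : ℝ} (hs : 1 < s) (I : Ideal (𝓞 K)) : nrm K s I ^ 2 ≤ nrm K 2 I := by
  rw [nrm_sq]
  exact nrm_anti K (by norm_num) (by linarith) I

theorem one_le_Zr {s : ℝ} (hs : 1 < s) : 1 ≤ Zr K s := by
  rw [← nrm_top K s]
  exact (summable_nrm K hs).le_tsum ⊤ (fun I _ => nrm_nonneg K s I)

theorem Zr_anti {s t : ℝ} (hs : 1 < s) (hst : s ≤ t) : Zr K t ≤ Zr K s :=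
  (summable_nrm K (by linarith)).tsum_le_tsum (fun I => nrm_anti K (by linarith) hst I)
    (summable_nrm K hs)

theorem sum_sq_le {s : ℝ} (hs : 1 < s) (S : Finset (Ideal (𝓞 K))) :
    ∑ v ∈ S, nrm K s v ^ 2 ≤ Zr K 2 :=
  (Finset.sum_le_sum fun v _ => nrm_sq_le K hs v).trans
    ((summable_nrm K (by norm_num)).sum_le_tsum S (fun I _ => nrm_nonneg K 2 I))

/-- distinct subsets of primes have distinct products -/
theorem prod_inj (S T : Finset (Ideal (𝓞 K))) (hS : ∀ v ∈ S, v ∈ PP K) (hT : ∀ v ∈ T, v ∈ PP K)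
    (h : ∏ v ∈ S, v = ∏ v ∈ T, v) : S ⊆ T := by
  intro v hv
  have h1 : v ∣ ∏ w ∈ T, w := h ▸ Finset.dvd_prod_of_mem (fun v => v) hv
  obtain ⟨w, hw, hvw⟩ := (PP_prime K (hS v hv)).exists_mem_finset_dvd h1
  have h2 : w ≤ v := Ideal.dvd_iff_le.1 hvw
  have h3 : w = v := (PP_max K (hT w hw)).eq_of_le (hS v hv).1.ne_top h2
  rw [← h3]
  exact hw

/-- first half of the Euler product -/
theorem prod_le_Zr {s : ℝ} (hs : 1 < s) (S : Finset (Ideal (𝓞 K))) (hS : ∀ v ∈ S, v ∈ PP K) :
    ∏ v ∈ S, (1 + nrm K s v) ≤ Zr K s := by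
  classical
  rw [Finset.prod_one_add]
  have h1 : ∀ T ∈ S.powerset, ∏ v ∈ T, nrm K s v = nrm K s (∏ v ∈ T, v) := by
    intro T _
    rw [← nrmH_apply, map_prod]
    rfl
  rw [Finset.sum_congr rfl h1]
  have h2 : ∑ T ∈ S.powerset, nrm K s (∏ v ∈ T, v) =
      ∑ I ∈ S.powerset.image (fun T => ∏ v ∈ T, v), nrm K s I := by
    rw [Finset.sum_image]
    intro T hT U hU hTU
    have hT' : ∀ v ∈ T, v ∈ PP K := fun v hv => hS v (Finset.mem_powerset.1 hT hv)
    have hU' : ∀ v ∈ U, v ∈ PP K := fun v hv => hS v (Finset.mem_powerset.1 hU hv)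
    exact Finset.Subset.antisymm (prod_inj K T U hT' hU' hTU) (prod_inj K U T hU' hT' hTU.symm)
  rw [h2]
  exact (summable_nrm K hs).sum_le_tsum _ (fun I _ => nrm_nonneg K s I)

theorem log_one_add_ge {x : ℝ} (hx : 0 ≤ x) : x - x ^ 2 ≤ Real.log (1 + x) := by
  have h1 := Real.one_sub_inv_le_log_of_pos (x := 1 + x) (by linarith)
  refine le_trans ?_ h1
  have h2 : 1 - (1 + x)⁻¹ = x / (1 + x) := by field_simp; ring
  rw [h2, le_div_iff₀ (by linarith)]
  nlinarith [mul_nonneg hx (sq_nonneg x)]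

theorem neg_log_le {x : ℝ} (hx : 0 ≤ x) (hx2 : x ≤ 1 / 2) : -Real.log (1 - x) ≤ x + 2 * x ^ 2 := by
  have h1 := Real.one_sub_inv_le_log_of_pos (x := 1 - x) (by linarith)
  have h2 : 1 - (1 - x)⁻¹ = -(x / (1 - x)) := by
    have : (1 - x) ≠ 0 := by linarith
    field_simp
    ring
  have h3 : x / (1 - x) ≤ x + 2 * x ^ 2 := by
    rw [div_le_iff₀ (by linarith)]
    nlinarith [mul_nonneg hx hx, mul_nonneg (mul_nonneg hx hx) (by linarith : 0 ≤ 1 / 2 - x)]
  linarith

theorem sum_le_log {s : ℝ} (hs : 1 < s) (S : Finset (Ideal (𝓞 K))) (hS : ∀ v ∈ S, v ∈ PP K) :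
    ∑ v ∈ S, nrm K s v ≤ Real.log (Zr K s) + Zr K 2 := by
  have h1 : ∑ v ∈ S, (nrm K s v - nrm K s v ^ 2) ≤ ∑ v ∈ S, Real.log (1 + nrm K s v) :=
    Finset.sum_le_sum fun v _ => log_one_add_ge (nrm_nonneg K s v)
  have h2 : ∑ v ∈ S, Real.log (1 + nrm K s v) = Real.log (∏ v ∈ S, (1 + nrm K s v)) := by
    rw [Real.log_prod]
    intro v _
    have := nrm_nonneg K s v
    linarith
  have h3 : Real.log (∏ v ∈ S, (1 + nrm K s v)) ≤ Real.log (Zr K s) := by
    apply Real.log_le_log
    · apply Finset.prod_pos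
      intro v _
      have := nrm_nonneg K s v
      linarith
    · exact prod_le_Zr K hs S hS
  rw [Finset.sum_sub_distrib] at h1
  have h4 := sum_sq_le K hs S
  linarith

/-- second half of the Euler product, finite form -/
theorem sum_le_prod {s : ℝ} (hs : 1 < s) (T : Finset (Ideal (𝓞 K))) (hT : ∀ I ∈ T, I ≠ ⊥) :
    ∃ S : Finset (Ideal (𝓞 K)), (∀ v ∈ S, v ∈ PP K) ∧
      ∑ I ∈ T, nrm K s I ≤ ∏ v ∈ S, (1 - nrm K s v)⁻¹ := by
  classical
  set S : Finset (Ideal (𝓞 K)) := T.biUnion fun I => (normalizedFactors I).toFinset with hSd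
  have hS : ∀ v ∈ S, v ∈ PP K := by
    intro v hv
    rw [hSd, Finset.mem_biUnion] at hv
    obtain ⟨I, hI, hvI⟩ := hv
    rw [Multiset.mem_toFinset] at hvI
    have hp := prime_of_normalized_factor v hvI
    exact ⟨Ideal.isPrime_of_prime hp, hp.ne_zero⟩
  refine ⟨S, hS, ?_⟩
  set E : ℕ := T.sup (fun I => Multiset.card (normalizedFactors I)) + 1 with hE
  set F : Ideal (𝓞 K) → (S → ℕ) := fun I v => (normalizedFactors I).count v.1 with hF
  have hprod : ∀ I ∈ T, I = ∏ v ∈ S, v ^ (normalizedFactors I).count v := by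
    intro I hI
    have h1 := Ideal.prod_normalizedFactors_eq_self (hT I hI)
    conv_lhs => rw [← h1]
    apply Finset.prod_multiset_count_of_subset
    intro v hv
    rw [hSd, Finset.mem_biUnion]
    exact ⟨I, hI, hv⟩
  have hinj : Set.InjOn F (T : Set (Ideal (𝓞 K))) := by
    intro I hI J hJ hIJ
    rw [hprod I hI, hprod J hJ]
    refine Finset.prod_congr rfl fun v hv => ?_
    have := congrFun hIJ ⟨v, hv⟩
    simp only [hF] at this
    rw [this]
  have hval : ∀ I ∈ T, nrm K s I = ∏ v : S, nrm K s v.1 ^ (F I v) := by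
    intro I hI
    conv_lhs => rw [hprod I hI, ← nrmH_apply, map_prod]
    rw [Finset.univ_eq_attach]
    rw [← Finset.prod_attach]
    refine Finset.prod_congr rfl fun v _ => ?_
    rw [map_pow]
    rfl
  have hmem : ∀ I ∈ T, F I ∈ Fintype.piFinset fun _ : S => Finset.range E := by
    intro I hI
    rw [Fintype.mem_piFinset]
    intro v
    rw [Finset.mem_range, hE]
    have h1 : (normalizedFactors I).count v.1 ≤ Multiset.card (normalizedFactors I) :=
      Multiset.count_le_card _ _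
    have h2 : Multiset.card (normalizedFactors I) ≤ T.sup (fun I => Multiset.card (normalizedFactors I)) :=
      Finset.le_sup (f := fun I => Multiset.card (normalizedFactors I)) hI
    simp only [hF]
    omega
  calc ∑ I ∈ T, nrm K s I = ∑ I ∈ T, ∏ v : S, nrm K s v.1 ^ (F I v) := Finset.sum_congr rfl hval
    _ = ∑ g ∈ T.image F, ∏ v : S, nrm K s v.1 ^ (g v) := by
        rw [Finset.sum_image hinj]
    _ ≤ ∑ g ∈ Fintype.piFinset fun _ : S => Finset.range E, ∏ v : S, nrm K s v.1 ^ (g v) := by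
        apply Finset.sum_le_sum_of_subset_of_nonneg
        · intro g hg
          obtain ⟨I, hI, rfl⟩ := Finset.mem_image.1 hg
          exact hmem I hI
        · intro g _ _
          exact Finset.prod_nonneg fun v _ => pow_nonneg (nrm_nonneg K s _) _
    _ = ∏ v : S, ∑ j ∈ Finset.range E, nrm K s v.1 ^ j := by
        rw [Finset.prod_univ_sum]
    _ ≤ ∏ v : S, (1 - nrm K s v.1)⁻¹ := by
        apply Finset.prod_le_prod
        · intro v _
          exact Finset.sum_nonneg fun j _ => pow_nonneg (nrm_nonneg K s _) _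
        · intro v _
          have h1 := nrm_le_half K hs (hS v.1 v.2)
          have h0 := nrm_nonneg K s v.1
          have h2 : ∑ j ∈ Finset.range E, nrm K s v.1 ^ j ≤ ∑' j : ℕ, nrm K s v.1 ^ j :=
            (summable_geometric_of_lt_one h0 (by linarith)).sum_le_tsum _ fun j _ => pow_nonneg h0 j
          rwa [tsum_geometric_of_lt_one h0 (by linarith)] at h2
    _ = ∏ v ∈ S, (1 - nrm K s v)⁻¹ := by
        rw [Finset.univ_eq_attach]
        exact Finset.prod_attach S (fun v => (1 - nrm K s v)⁻¹)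

/-- the sum over a set of ideals -/
noncomputable def sS (A : Set (Ideal (𝓞 K))) (s : ℝ) : ℝ := ∑' I : Ideal (𝓞 K), A.indicator (nrm K s) I

theorem ind_summable {s : ℝ} (hs : 1 < s) (A : Set (Ideal (𝓞 K))) : Summable (A.indicator (nrm K s)) :=
  (summable_nrm K hs).indicator A

theorem ind_nonneg (s : ℝ) (A : Set (Ideal (𝓞 K))) (I : Ideal (𝓞 K)) : 0 ≤ A.indicator (nrm K s) I :=
  Set.indicator_nonneg (fun I _ => nrm_nonneg K s I) I

theorem sS_le {s : ℝ} (A : Set (Ideal (𝓞 K))) (C : ℝ)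
    (h : ∀ S : Finset (Ideal (𝓞 K)), (∀ v ∈ S, v ∈ A) → ∑ v ∈ S, nrm K s v ≤ C) : sS K A s ≤ C := by
  classical
  apply Real.tsum_le_of_sum_le (fun I => ind_nonneg K s A I)
  intro S
  have h1 : ∑ I ∈ S, A.indicator (nrm K s) I = ∑ I ∈ S.filter (fun I => I ∈ A), nrm K s I := by
    rw [Finset.sum_filter]
    rfl
  rw [h1]
  exact h _ fun v hv => (Finset.mem_filter.1 hv).2

theorem le_sS {s : ℝ} (hs : 1 < s) (A : Set (Ideal (𝓞 K))) (S : Finset (Ideal (𝓞 K)))
    (hS : ∀ v ∈ S, v ∈ A) : ∑ v ∈ S, nrm K s v ≤ sS K A s := by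
  have h1 : ∑ v ∈ S, nrm K s v = ∑ v ∈ S, A.indicator (nrm K s) v :=
    Finset.sum_congr rfl fun v hv => (Set.indicator_of_mem (hS v hv) _).symm
  rw [h1]
  exact (ind_summable K hs A).sum_le_tsum S fun I _ => ind_nonneg K s A I

theorem sP_le {s : ℝ} (hs : 1 < s) : sS K (PP K) s ≤ Real.log (Zr K s) + Zr K 2 :=
  sS_le K _ _ fun S hS => sum_le_log K hs S hS

theorem le_sP {s : ℝ} (hs : 1 < s) : Real.log (Zr K s) ≤ sS K (PP K) s + 2 * Zr K 2 := by
  classical
  have hZ : Zr K s ≤ Real.exp (sS K (PP K) s + 2 * Zr K 2) := by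
    apply Real.tsum_le_of_sum_le (fun I => nrm_nonneg K s I)
    intro T
    have h1 : ∑ I ∈ T, nrm K s I = ∑ I ∈ T.erase ⊥, nrm K s I := by
      symm
      apply Finset.sum_erase
      exact nrm_bot K (by linarith)
    rw [h1]
    obtain ⟨S, hS, hle⟩ := sum_le_prod K hs (T.erase ⊥) fun I hI => (Finset.mem_erase.1 hI).1
    refine hle.trans ?_
    have h2 : ∏ v ∈ S, (1 - nrm K s v)⁻¹ = Real.exp (∑ v ∈ S, -Real.log (1 - nrm K s v)) := by
      rw [Real.exp_sum]
      refine Finset.prod_congr rfl fun v hv => ?_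
      have := nrm_le_half K hs (hS v hv)
      rw [Real.exp_neg, Real.exp_log (by linarith)]
    rw [h2, Real.exp_le_exp]
    calc ∑ v ∈ S, -Real.log (1 - nrm K s v) ≤ ∑ v ∈ S, (nrm K s v + 2 * nrm K s v ^ 2) :=
          Finset.sum_le_sum fun v hv => neg_log_le (nrm_nonneg K s v) (nrm_le_half K hs (hS v hv))
      _ = ∑ v ∈ S, nrm K s v + 2 * ∑ v ∈ S, nrm K s v ^ 2 := by
          rw [Finset.sum_add_distrib, Finset.mul_sum]
      _ ≤ sS K (PP K) s + 2 * Zr K 2 := by
          have h3 := le_sS K hs (PP K) S hS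
          have h4 := sum_sq_le K hs S
          linarith
  calc Real.log (Zr K s) ≤ Real.log (Real.exp (sS K (PP K) s + 2 * Zr K 2)) :=
        Real.log_le_log (by linarith [one_le_Zr K hs]) hZ
    _ = _ := Real.log_exp _

/-- `log Zr(s) = log (1/(s-1)) + O(1)` on `(1,2)` -/
theorem log_Zr : ∃ C : ℝ, ∀ s : ℝ, 1 < s → s < 2 → |Real.log (Zr K s) - Real.log (1 / (s - 1))| ≤ C := by
  obtain ⟨c, C, δ, hc, hC, hδ, h⟩ := Zr_near K
  set c' : ℝ := min c (min δ 1) with hc'
  set C' : ℝ := max C (Zr K (1 + min δ 1 / 2)) with hC'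
  have hc'0 : 0 < c' := lt_min hc (lt_min hδ one_pos)
  have hm : 0 < min δ 1 := lt_min hδ one_pos
  have hC'0 : 0 < C' := lt_of_lt_of_le hC (le_max_left _ _)
  have key : ∀ s : ℝ, 1 < s → s < 2 → c' / 2 ≤ (s - 1) * Zr K s ∧ (s - 1) * Zr K s ≤ C' := by
    intro s hs hs2
    have h1 := one_le_Zr K hs
    rcases lt_or_ge s (1 + min δ 1 / 2) with h2 | h2
    · have h3 := h s hs (by have := min_le_left δ 1; linarith)
      have h4 : c' ≤ c := min_le_left _ _
      have h5 : C ≤ C' := le_max_left _ _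
      exact ⟨by linarith [h3.1], by linarith [h3.2]⟩
    · constructor
      · have h4 : c' ≤ min δ 1 := min_le_right _ _
        have h6 : (s - 1) * 1 ≤ (s - 1) * Zr K s := mul_le_mul_of_nonneg_left h1 (by linarith)
        linarith
      · have h4 : Zr K s ≤ Zr K (1 + min δ 1 / 2) := Zr_anti K (by linarith) h2
        have h5 : Zr K (1 + min δ 1 / 2) ≤ C' := le_max_right _ _
        have h6 : (s - 1) * Zr K s ≤ 1 * Zr K s := mul_le_mul_of_nonneg_right (by linarith) (by linarith)
        linarith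
  refine ⟨max (Real.log C') (-Real.log (c' / 2)), fun s hs hs2 => ?_⟩
  have hZ := one_le_Zr K hs
  have hs1 : 0 < s - 1 := by linarith
  have h1 : Real.log (Zr K s) - Real.log (1 / (s - 1)) = Real.log ((s - 1) * Zr K s) := by
    rw [Real.log_mul hs1.ne' (by linarith), one_div, Real.log_inv]
    ring
  rw [h1, abs_le]
  obtain ⟨h2, h3⟩ := key s hs hs2
  constructor
  · have h4 := Real.log_le_log (by positivity) h2
    have h5 := le_max_right (Real.log C') (-Real.log (c' / 2))
    linarith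
  · have h4 := Real.log_le_log (mul_pos hs1 (by linarith)) h3
    exact h4.trans (le_max_left _ _)

end Pool.Agent.H24.FD

end

section

/-!
# FD splitting, module 3: only the primes of degree one matter

`np K p` = number of ring homomorphisms `𝓞 K → ZMod p` = number of ideals of norm `p`.
**P1** `np_sum`: `∑_p np K p * p^(-s) = log (1/(s-1)) + O(1)` for `1 < s < 2`.
-/

set_option autoImplicit false

namespace Pool.Agent.H24.FD

open NumberField Filter Topology Ideal Finset

variable (K : Type*) [Field K] [NumberField K]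

/-- number of degree one places above `p` -/
noncomputable def np (K : Type*) [Field K] (p : ℕ) : ℕ := Nat.card (𝓞 K →+* ZMod p)

/-- the ideals of prime norm -/
def D1 : Set (Ideal (𝓞 K)) := {v | (absNorm v).Prime}

/-- the other nonzero primes -/
def D2 : Set (Ideal (𝓞 K)) := {v | v ∈ PP K ∧ ¬ (absNorm v).Prime}

theorem D1_sub : D1 K ⊆ PP K := by
  intro v hv
  have hv' : (absNorm v).Prime := hv
  refine ⟨isPrime_of_irreducible_absNorm hv', ?_⟩
  rintro rfl
  rw [absNorm_bot] at hv'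
  exact Nat.not_prime_zero hv'

/-- at most `[K:ℚ]` primes contain `p` -/
theorem card_le (p : ℕ) (hp : p.Prime) (S : Finset (Ideal (𝓞 K)))
    (hS : ∀ v ∈ S, v ∈ PP K ∧ (p : 𝓞 K) ∈ v) : S.card ≤ Module.finrank ℚ K := by
  classical
  have hnorm : ∀ v ∈ S, p ∣ absNorm v := by
    intro v hv
    obtain ⟨hvP, hpv⟩ := hS v hv
    have hmax := PP_max K hvP
    obtain ⟨q, n, hn, hqv, hq, hqn⟩ := exists_prime_and_absNorm_eq_pow v
    by_cases hqp : q = p
    · rw [hqn, ← hqp]
      exact dvd_pow_self q hn.ne'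
    · exfalso
      have hc : IsCoprime ((q : ℤ)) ((p : ℤ)) := by
        rw [Nat.isCoprime_iff_coprime]
        exact (Nat.coprime_primes hq hp).2 hqp
      obtain ⟨a, b, hab⟩ := hc
      apply hvP.1.ne_top
      rw [Ideal.eq_top_iff_one]
      have h1 : ((a * q + b * p : ℤ) : 𝓞 K) = 1 := by rw [hab]; simp
      rw [← h1]
      push_cast
      exact v.add_mem (v.mul_mem_left _ hqv) (v.mul_mem_left _ hpv)
  have hdvd : ∏ v ∈ S, v ∣ Ideal.span {(p : 𝓞 K)} := by
    apply Finset.prod_primes_dvd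
    · intro v hv
      exact PP_prime K (hS v hv).1
    · intro v hv
      rw [Ideal.dvd_span_singleton]
      exact (hS v hv).2
  have h1 : absNorm (∏ v ∈ S, v) ∣ absNorm (Ideal.span {(p : 𝓞 K)}) :=
    map_dvd absNorm hdvd
  rw [Ideal.absNorm_span_natCast, map_prod] at h1
  have h2 : p ^ S.card ∣ ∏ v ∈ S, absNorm v := by
    rw [← Finset.prod_const]
    exact Finset.prod_dvd_prod_of_dvd _ _ hnorm
  have h3 : p ^ S.card ∣ p ^ Module.finrank ℤ (𝓞 K) := h2.trans h1
  rw [Nat.pow_dvd_pow_iff_le_right hp.one_lt, RingOfIntegers.rank] at h3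
  exact h3

theorem D2_bound : ∃ C : ℝ, ∀ s : ℝ, 1 < s → sS K (D2 K) s ≤ C := by
  classical
  have hsum : Summable (fun n : ℕ => ((n : ℝ) ^ 2)⁻¹) := Real.summable_nat_pow_inv.2 (by norm_num)
  refine ⟨Module.finrank ℚ K * ∑' n : ℕ, ((n : ℝ) ^ 2)⁻¹, fun s hs => sS_le K _ _ fun S hS => ?_⟩
  have hpr : ∀ v ∈ S, ∃ p : ℕ, p.Prime ∧ (p : 𝓞 K) ∈ v ∧ p ^ 2 ≤ absNorm v := by
    intro v hv
    have hvS : v ∈ D2 K := hS v hv
    have hmax := PP_max K hvS.1
    obtain ⟨q, n, hn, hqv, hq, hqn⟩ := exists_prime_and_absNorm_eq_pow v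
    refine ⟨q, hq, hqv, ?_⟩
    have hn2 : 2 ≤ n := by
      by_contra hlt
      have hn1 : n = 1 := by omega
      apply hvS.2
      rw [hqn, hn1, pow_one]
      exact hq
    rw [hqn]
    exact Nat.pow_le_pow_right hq.pos hn2
  choose! f hf1 hf2 hf3 using hpr
  have hterm : ∀ v ∈ S, nrm K s v ≤ (((f v : ℕ) : ℝ) ^ 2)⁻¹ := by
    intro v hv
    have h1 : ((f v : ℕ) : ℝ) ^ 2 ≤ (absNorm v : ℕ) := by exact_mod_cast hf3 v hv
    have hf0 : (0 : ℝ) < ((f v : ℕ) : ℝ) ^ 2 := by
      have := (hf1 v hv).pos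
      positivity
    have hN1 : (1 : ℝ) ≤ (absNorm v : ℕ) := by
      have := two_le_norm K (hS v hv).1
      have h2 : (2 : ℝ) ≤ (absNorm v : ℕ) := by exact_mod_cast this
      linarith
    calc nrm K s v ≤ ((absNorm v : ℕ) : ℝ) ^ (-1 : ℝ) :=
          Real.rpow_le_rpow_of_exponent_le hN1 (by linarith)
      _ = (((absNorm v : ℕ) : ℝ))⁻¹ := Real.rpow_neg_one _
      _ ≤ _ := inv_anti₀ hf0 h1
  calc ∑ v ∈ S, nrm K s v ≤ ∑ v ∈ S, (((f v : ℕ) : ℝ) ^ 2)⁻¹ := Finset.sum_le_sum hterm
    _ = ∑ p ∈ S.image f, ∑ v ∈ S with f v = p, (((f v : ℕ) : ℝ) ^ 2)⁻¹ := by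
        rw [Finset.sum_fiberwise_of_maps_to]
        intro v hv
        exact Finset.mem_image_of_mem f hv
    _ ≤ ∑ p ∈ S.image f, (Module.finrank ℚ K : ℝ) * (((p : ℕ) : ℝ) ^ 2)⁻¹ := by
        refine Finset.sum_le_sum fun p hp => ?_
        obtain ⟨w, hw, rfl⟩ := Finset.mem_image.1 hp
        have h1 : ∑ v ∈ S with f v = f w, (((f v : ℕ) : ℝ) ^ 2)⁻¹ =
            ∑ v ∈ S with f v = f w, (((f w : ℕ) : ℝ) ^ 2)⁻¹ := by
          refine Finset.sum_congr rfl fun v hv => ?_
          rw [(Finset.mem_filter.1 hv).2]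
        rw [h1, Finset.sum_const, nsmul_eq_mul]
        apply mul_le_mul_of_nonneg_right _ (by positivity)
        have h2 := card_le K (f w) (hf1 w hw) (S.filter fun v => f v = f w) (by
          intro v hv
          obtain ⟨hv1, hv2⟩ := Finset.mem_filter.1 hv
          refine ⟨(hS v hv1).1, ?_⟩
          rw [← hv2]
          exact hf2 v hv1)
        exact_mod_cast h2
    _ = (Module.finrank ℚ K : ℝ) * ∑ p ∈ S.image f, (((p : ℕ) : ℝ) ^ 2)⁻¹ := by rw [Finset.mul_sum]
    _ ≤ _ := by
        apply mul_le_mul_of_nonneg_left _ (Nat.cast_nonneg _)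
        exact hsum.sum_le_tsum _ fun n _ => by positivity

theorem PP_split {s : ℝ} (hs : 1 < s) : sS K (PP K) s = sS K (D1 K) s + sS K (D2 K) s := by
  rw [sS, sS, sS, ← (ind_summable K hs (D1 K)).tsum_add (ind_summable K hs (D2 K))]
  refine tsum_congr fun I => ?_
  by_cases h1 : I ∈ D1 K
  · have h2 : I ∉ D2 K := fun h => h.2 h1
    rw [Set.indicator_of_mem h1, Set.indicator_of_notMem h2, Set.indicator_of_mem (D1_sub K h1), add_zero]
  · by_cases h3 : I ∈ PP K
    · have h2 : I ∈ D2 K := ⟨h3, h1⟩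
      rw [Set.indicator_of_notMem h1, Set.indicator_of_mem h2, Set.indicator_of_mem h3, zero_add]
    · have h2 : I ∉ D2 K := fun h => h3 h.1
      rw [Set.indicator_of_notMem h1, Set.indicator_of_notMem h2, Set.indicator_of_notMem h3, zero_add]

theorem D1_log : ∃ C : ℝ, ∀ s : ℝ, 1 < s → s < 2 → |sS K (D1 K) s - Real.log (1 / (s - 1))| ≤ C := by
  obtain ⟨C1, h1⟩ := log_Zr K
  obtain ⟨C2, h2⟩ := D2_bound K
  refine ⟨C1 + 2 * Zr K 2 + |C2|, fun s hs hs2 => ?_⟩
  have h3 := h1 s hs hs2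
  have h4 := h2 s hs
  have h5 := sP_le K hs
  have h6 := le_sP K hs
  have h7 := PP_split K hs
  have h8 : 0 ≤ sS K (D2 K) s := tsum_nonneg fun I => ind_nonneg K s _ I
  have h9 := one_le_Zr K (s := 2) (by norm_num)
  have h10 := le_abs_self C2
  rw [abs_le] at h3 ⊢
  constructor <;> linarith [h3.1, h3.2]

/-- kernel of a homomorphism to `ZMod p` has norm `p` -/
theorem ker_norm (p : ℕ) [hp : Fact p.Prime] (φ : 𝓞 K →+* ZMod p) : absNorm (RingHom.ker φ) = p := by
  have hsurj : Function.Surjective φ := ZMod.ringHom_surjective φ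
  have e := RingHom.quotientKerEquivOfSurjective hsurj
  rw [Ideal.absNorm_apply, Submodule.cardQuot_apply, Nat.card_congr e.toEquiv, Nat.card_zmod]

theorem np_eq (p : ℕ) (hp : p.Prime) : np K p = cI K p := by
  have hF : Fact p.Prime := ⟨hp⟩
  rw [np, cI]
  refine Nat.card_eq_of_bijective (fun φ => ⟨RingHom.ker φ, ker_norm K p φ⟩) ⟨?_, ?_⟩
  · intro φ ψ h
    have hk : RingHom.ker φ = RingHom.ker ψ := congrArg Subtype.val h
    ext x
    have h1 : φ x = φ (((φ x).val : ℕ) : 𝓞 K) := by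
      rw [map_natCast, ZMod.natCast_val, ZMod.cast_id]
    have h2 : x - (((φ x).val : ℕ) : 𝓞 K) ∈ RingHom.ker φ := by
      rw [RingHom.mem_ker, map_sub, ← h1, sub_self]
    rw [hk, RingHom.mem_ker, map_sub, map_natCast, ZMod.natCast_val, ZMod.cast_id, sub_eq_zero] at h2
    exact h2.symm
  · rintro ⟨I, hI⟩
    have hcard : Nat.card (𝓞 K ⧸ I) = p := by
      rw [← hI, Ideal.absNorm_apply, Submodule.cardQuot_apply]
    have hfin : Finite (𝓞 K ⧸ I) := Nat.finite_of_card_ne_zero (by rw [hcard]; exact hp.ne_zero)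
    have hft : Fintype (𝓞 K ⧸ I) := Fintype.ofFinite _
    have e : ZMod p ≃+* (𝓞 K ⧸ I) := ZMod.ringEquivOfPrime _ hp (by rw [← Nat.card_eq_fintype_card, hcard])
    refine ⟨(e.symm : (𝓞 K ⧸ I) →+* ZMod p).comp (Ideal.Quotient.mk I), ?_⟩
    apply Subtype.ext
    ext x
    simp only [RingHom.mem_ker, RingHom.comp_apply]
    rw [← Ideal.Quotient.eq_zero_iff_mem]
    exact map_eq_zero_iff (e.symm : (𝓞 K ⧸ I) →+* ZMod p) e.symm.injective

theorem D1_eq {s : ℝ} (hs : 1 < s) : sS K (D1 K) s =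
    ∑' p : Nat.Primes, (np K p : ℝ) * ((p : ℕ) : ℝ) ^ (-s) := by
  rw [sS, ← (Equiv.sigmaFiberEquiv (absNorm : Ideal (𝓞 K) → ℕ)).tsum_eq]
  have h1 := ((Equiv.sigmaFiberEquiv (absNorm : Ideal (𝓞 K) → ℕ)).summable_iff
    (f := (D1 K).indicator (nrm K s))).2 (ind_summable K hs _)
  refine (h1.tsum_sigma).trans ?_
  have h2 : ∀ n : ℕ, ∑' I : {I : Ideal (𝓞 K) // absNorm I = n}, (D1 K).indicator (nrm K s) I.1 =
      {n : ℕ | n.Prime}.indicator (fun n : ℕ => (cI K n : ℝ) * (n : ℝ) ^ (-s)) n := by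
    intro n
    by_cases hn : n.Prime
    · rw [Set.indicator_of_mem (show n ∈ {n : ℕ | n.Prime} from hn), ← fiber_eq K s n]
      refine tsum_congr fun I => ?_
      have hI : absNorm I.1 = n := I.2
      have hm : I.1 ∈ D1 K := by
        show (absNorm I.1).Prime
        rw [hI]
        exact hn
      exact Set.indicator_of_mem hm _
    · rw [Set.indicator_of_notMem (show n ∉ {n : ℕ | n.Prime} from hn)]
      have h3 : ∀ I : {I : Ideal (𝓞 K) // absNorm I = n}, (D1 K).indicator (nrm K s) I.1 = 0 := by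
        intro I
        have hI : absNorm I.1 = n := I.2
        have hm : I.1 ∉ D1 K := by
          show ¬ (absNorm I.1).Prime
          rw [hI]
          exact hn
        exact Set.indicator_of_notMem hm _
      rw [tsum_congr h3, tsum_zero]
  refine (tsum_congr h2).trans ?_
  rw [← _root_.tsum_subtype]
  refine tsum_congr fun p => ?_
  have hp : (p : ℕ).Prime := p.2
  rw [np_eq K _ hp]

theorem np_summable {s : ℝ} (hs : 1 < s) :
    Summable (fun p : Nat.Primes => (np K p : ℝ) * ((p : ℕ) : ℝ) ^ (-s)) := by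
  have h := (cI_summable K hs).comp_injective (i := fun p : Nat.Primes => (p : ℕ))
    (fun a b hab => Subtype.ext hab)
  refine h.congr fun p => ?_
  rw [Function.comp_apply, np_eq K p p.2]

/-- **P1** -/
theorem np_sum : ∃ C : ℝ, ∀ s : ℝ, 1 < s → s < 2 →
    |∑' p : Nat.Primes, (np K p : ℝ) * ((p : ℕ) : ℝ) ^ (-s) - Real.log (1 / (s - 1))| ≤ C := by
  obtain ⟨C, h⟩ := D1_log K
  refine ⟨C, fun s hs hs2 => ?_⟩
  rw [← D1_eq K hs]
  exact h s hs hs2

end Pool.Agent.H24.FD

end

section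

/-!
# Project AB, part (D): interfaces

`F` totally real, contained in `ℚ(ζ_f)`; `K` a finite extension of `F`.
* `RealAb f F`;
* `IsRelFam w ψ`: the family of the reductions of the `F`-embeddings of `K` over `w : 𝓞 F → Ω`;
* `SymF F K p`: for all solutions (integral, coprime at `p`) and all families over homomorphisms of `𝓞 F` the
  residues `-ψ b / ψ a` at the good indices are stable under `S_3`;
* `EqAt`, `CubAt`, `good`: as in `Results.MP_ef6a16_nt.FirstCaseAbelian`.
-/

namespace H29AB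

open Polynomial NumberField H9FC H9AB IsDedekindDomain

/-- `F` is totally real and embeds into the field of the `f`-th roots of unity -/
def RealAb (f : ℕ) (F : Type*) [Field F] [NumberField F] : Prop :=
  NumberField.IsTotallyReal F ∧ Nonempty (F →+* CyclotomicField f ℚ)

/-- the prime `v` divides none of `a, b, c` (up to a common factor) -/
def EqAt {K : Type*} [Field K] [NumberField K] (v : HeightOneSpectrum (𝓞 K)) (a b c : K) : Prop :=
  v.valuation K a = v.valuation K b ∧ v.valuation K b = v.valuation K c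

/-- `(a : b : c) = (1 : ω : ω ^ 2)` modulo `v` -/
def CubAt {K : Type*} [Field K] [NumberField K] (v : HeightOneSpectrum (𝓞 K)) (a b c : K) : Prop :=
  EqAt v a b c ∧ v.valuation K (a ^ 2 + a * b + b ^ 2) < v.valuation K (a ^ 2)

end H29AB

end

section

/-!
# Jets of monomials as combinations of values (discrete Cauchy formula), and a norm bound for
determinants whose rows are sums
-/

namespace Pool.Agent.H30.MM

open Finset

/-- The coefficients of the discrete Cauchy formula with radius `1/4`. -/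
noncomputable def dftc (M j w : ℕ) : ℂ :=
  (4 : ℂ) ^ j * (Complex.exp (2 * Real.pi * Complex.I / M) ^ w)⁻¹ ^ j / M

/-- The sample points. -/
noncomputable def dftz (M w : ℕ) : ℂ :=
  Complex.exp (2 * Real.pi * Complex.I / M) ^ w / 4

theorem norm_zeta (M : ℕ) : ‖Complex.exp (2 * Real.pi * Complex.I / M)‖ = 1 := by
  have : (2 * Real.pi * Complex.I / M : ℂ) = ((2 * Real.pi / M : ℝ) : ℂ) * Complex.I := by
    push_cast; ring
  rw [this, Complex.norm_exp_ofReal_mul_I]

theorem norm_dftz (M w : ℕ) : ‖dftz M w‖ = 1 / 4 := by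
  rw [dftz, norm_div, norm_pow, norm_zeta, one_pow]
  norm_num

theorem norm_dftc (M j w : ℕ) : ‖dftc M j w‖ = (4 : ℝ) ^ j / M := by
  rw [dftc, norm_div, norm_mul, norm_pow, norm_pow, norm_inv, norm_pow, norm_zeta]
  simp

/-- The discrete Cauchy formula for monomials. -/
theorem dft_monomial (M i j : ℕ) (hi : i < M) (hj : j < M) (a : ℂ) :
    ((i.choose j : ℕ) : ℂ) * a ^ (i - j) =
      ∑ w ∈ range M, dftc M j w * (a + dftz M w) ^ i := by
  have hM : M ≠ 0 := by omega
  have hMc : (M : ℂ) ≠ 0 := by exact_mod_cast hM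
  set ζ : ℂ := Complex.exp (2 * Real.pi * Complex.I / M) with hζ
  have hprim : IsPrimitiveRoot ζ M := Complex.isPrimitiveRoot_exp M hM
  have hζ0 : ζ ≠ 0 := Complex.exp_ne_zero _
  -- orthogonality
  have horth : ∀ k, k < M → ∑ w ∈ range M, (ζ ^ w)⁻¹ ^ j * (ζ ^ w) ^ k =
      if k = j then (M : ℂ) else 0 := by
    intro k hk
    by_cases hkj : k = j
    · subst hkj
      rw [if_pos rfl]
      have : ∀ w ∈ range M, (ζ ^ w)⁻¹ ^ k * (ζ ^ w) ^ k = 1 := by
        intro w _
        rw [← mul_pow, inv_mul_cancel₀ (pow_ne_zero _ hζ0), one_pow]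
      rw [Finset.sum_congr rfl this]
      simp
    · rw [if_neg hkj]
      have h1 : ∀ w ∈ range M, (ζ ^ w)⁻¹ ^ j * (ζ ^ w) ^ k = ((ζ ^ j)⁻¹ * ζ ^ k) ^ w := by
        intro w _
        rw [inv_pow, ← pow_mul, ← pow_mul, mul_pow, inv_pow, ← pow_mul, ← pow_mul,
          mul_comm w j, mul_comm w k]
      rw [Finset.sum_congr rfl h1]
      set x : ℂ := (ζ ^ j)⁻¹ * ζ ^ k with hx
      have hxM : x ^ M = 1 := by
        rw [hx, mul_pow, inv_pow, ← pow_mul, ← pow_mul, mul_comm j M, mul_comm k M, pow_mul,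
          pow_mul, hprim.pow_eq_one, one_pow, one_pow, inv_one, one_mul]
      have hx1 : x ≠ 1 := by
        intro h
        rw [hx, inv_mul_eq_iff_eq_mul₀ (pow_ne_zero _ hζ0), mul_one] at h
        exact hkj (hprim.pow_inj hk hj h)
      have h2 := geom_sum_mul x M
      rw [hxM, sub_self] at h2
      rcases mul_eq_zero.1 h2 with h | h
      · exact h
      · exact absurd (sub_eq_zero.1 h) hx1
  have hexp : ∀ w ∈ range M, dftc M j w * (a + dftz M w) ^ i =
      ∑ k ∈ range (i + 1), (a ^ (i - k) * ((i.choose k : ℕ) : ℂ) * (4 : ℂ) ^ j / (4 : ℂ) ^ k / M) *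
        ((ζ ^ w)⁻¹ ^ j * (ζ ^ w) ^ k) := by
    intro w _
    rw [add_comm a, add_pow, Finset.mul_sum]
    refine Finset.sum_congr rfl fun k _ => ?_
    rw [dftc, dftz, ← hζ, div_pow]
    field_simp
  rw [Finset.sum_congr rfl hexp, Finset.sum_comm]
  have h3 : ∀ k ∈ range (i + 1), ∑ w ∈ range M,
      (a ^ (i - k) * ((i.choose k : ℕ) : ℂ) * (4 : ℂ) ^ j / (4 : ℂ) ^ k / M) *
        ((ζ ^ w)⁻¹ ^ j * (ζ ^ w) ^ k) =
      if k = j then a ^ (i - k) * ((i.choose k : ℕ) : ℂ) else 0 := by
    intro k hk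
    rw [← Finset.mul_sum, horth k (by have := Finset.mem_range.1 hk; omega)]
    by_cases hkj : k = j
    · subst hkj
      rw [if_pos rfl, if_pos rfl]
      field_simp
    · rw [if_neg hkj, if_neg hkj, mul_zero]
  rw [Finset.sum_congr rfl h3, Finset.sum_ite_eq']
  by_cases hij : j ∈ range (i + 1)
  · rw [if_pos hij]; ring
  · rw [if_neg hij]
    have : i < j := by
      by_contra h
      exact hij (Finset.mem_range.2 (by omega))
    rw [Nat.choose_eq_zero_of_lt this]
    simp

/-- Norm of a determinant whose rows are sums. -/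
theorem det_sum_rows {ι T : Type*} [Fintype ι] [DecidableEq ι] [Fintype T] [DecidableEq T]
    (c : ι → T → ℂ) (V : ι → T → ι → ℂ) (B : ℝ)
    (hB : ∀ f : ι → T, ‖(Matrix.of fun r => V r (f r)).det‖ ≤ B) :
    ‖(Matrix.of fun r k => ∑ s, c r s * V r s k).det‖ ≤ (∏ r, ∑ s, ‖c r s‖) * B := by
  classical
  have h1 : (Matrix.of fun r k => ∑ s, c r s * V r s k).det =
      ∑ f : ι → T, (∏ r, c r (f r)) * (Matrix.of fun r => V r (f r)).det := by
    have e1 : (Matrix.of fun (r : ι) (k : ι) => ∑ s, c r s * V r s k).det =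
        (Matrix.detRowAlternating : (ι → ℂ) [⋀^ι]→ₗ[ℂ] ℂ).toMultilinearMap
          (fun r => ∑ s, (c r s) • (V r s)) := by
      have : (fun (r : ι) (k : ι) => ∑ s, c r s * V r s k) =
          fun r => ∑ s, (c r s) • (V r s) := by
        funext r k
        simp [Finset.sum_apply]
      rw [this]
      rfl
    rw [e1, MultilinearMap.map_sum]
    refine Finset.sum_congr rfl fun f _ => ?_
    rw [MultilinearMap.map_smul_univ, smul_eq_mul]
    rfl
  rw [h1]
  calc ‖∑ f : ι → T, (∏ r, c r (f r)) * (Matrix.of fun r => V r (f r)).det‖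
      ≤ ∑ f : ι → T, ‖(∏ r, c r (f r)) * (Matrix.of fun r => V r (f r)).det‖ :=
        norm_sum_le _ _
    _ ≤ ∑ f : ι → T, (∏ r, ‖c r (f r)‖) * B := by
        refine Finset.sum_le_sum fun f _ => ?_
        rw [norm_mul, norm_prod]
        exact mul_le_mul_of_nonneg_left (hB f) (Finset.prod_nonneg fun _ _ => norm_nonneg _)
    _ = (∏ r, ∑ s, ‖c r s‖) * B := by
        rw [← Finset.sum_mul, Finset.prod_univ_sum]
        rfl

end Pool.Agent.H30.MM

end

section

/-!
# Polynomial bound for the jets of the function with `F (t + 1) F (t) = (3 t + 2) / (3 t + 1)`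
-/

namespace Pool.Agent.H30.MM

/-- A chain of jets: `f (n+1) * f n = s n` modulo cubes, with values in `[1/2, 2]`. -/
theorem chain_bound (f s : ℕ → ℕ → ℝ) (h00 : f 0 0 = 1) (h01 : f 0 1 = 0) (h02 : f 0 2 = 0)
    (hr0 : ∀ n, f (n + 1) 0 * f n 0 = s n 0)
    (hr1 : ∀ n, f (n + 1) 1 * f n 0 + f (n + 1) 0 * f n 1 = s n 1)
    (hr2 : ∀ n, f (n + 1) 2 * f n 0 + f (n + 1) 1 * f n 1 + f (n + 1) 0 * f n 2 = s n 2)
    (hlo : ∀ n, 1 / 2 ≤ f n 0) (hhi : ∀ n, f n 0 ≤ 2)
    (hs1 : ∀ n, |s n 1| ≤ 3 / 2 * s n 0) (hs2 : ∀ n, |s n 2| ≤ 9 / 2 * s n 0)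
    (n : ℕ) (k : ℕ) (hk : k ≤ 2) : |f n k| ≤ 15 * ((n : ℝ) + 1) ^ 2 := by
  have hpos : ∀ n, 0 < f n 0 := fun n => lt_of_lt_of_le (by norm_num) (hlo n)
  have hspos : ∀ n, 0 < s n 0 := fun n => by rw [← hr0 n]; exact mul_pos (hpos _) (hpos _)
  set A : ℕ → ℝ := fun n => f n 1 / f n 0 with hA
  set B : ℕ → ℝ := fun n => f n 2 / f n 0 - (f n 1 / f n 0) ^ 2 / 2 with hB
  -- the two recursions
  have hAr : ∀ n, A (n + 1) = s n 1 / s n 0 - A n := by
    intro n
    have h1 := (hpos n).ne'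
    have h2 := (hpos (n + 1)).ne'
    simp only [hA]
    rw [← hr0 n, ← hr1 n]
    field_simp
    ring
  have hBr : ∀ n, B (n + 1) = s n 2 / s n 0 - (s n 1 / s n 0) ^ 2 / 2 - B n := by
    intro n
    have h1 := (hpos n).ne'
    have h2 := (hpos (n + 1)).ne'
    simp only [hB]
    rw [← hr0 n, ← hr1 n, ← hr2 n]
    field_simp
    ring
  have ha : ∀ n, |A n| ≤ 3 / 2 * n := by
    intro n
    induction n with
    | zero => simp [hA, h01]
    | succ n ih =>
      rw [hAr]
      refine (abs_sub _ _).trans ?_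
      have : |s n 1 / s n 0| ≤ 3 / 2 := by
        rw [abs_div, abs_of_pos (hspos n), div_le_iff₀ (hspos n)]
        exact hs1 n
      push_cast
      linarith
  have hb : ∀ n, |B n| ≤ 6 * n := by
    intro n
    induction n with
    | zero => simp [hB, h01, h02]
    | succ n ih =>
      rw [hBr]
      refine (abs_sub _ _).trans ?_
      have h1 : |s n 1 / s n 0| ≤ 3 / 2 := by
        rw [abs_div, abs_of_pos (hspos n), div_le_iff₀ (hspos n)]
        exact hs1 n
      have h2 : |s n 2 / s n 0| ≤ 9 / 2 := by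
        rw [abs_div, abs_of_pos (hspos n), div_le_iff₀ (hspos n)]
        exact hs2 n
      have h3 : (s n 1 / s n 0) ^ 2 ≤ (3 / 2) ^ 2 := by
        rw [← sq_abs]
        exact pow_le_pow_left₀ (abs_nonneg _) h1 2
      have h4 : |s n 2 / s n 0 - (s n 1 / s n 0) ^ 2 / 2| ≤ 6 := by
        refine (abs_sub _ _).trans ?_
        rw [abs_of_nonneg (by positivity : 0 ≤ (s n 1 / s n 0) ^ 2 / 2)]
        linarith
      push_cast
      linarith
  have hn : (0 : ℝ) ≤ n := Nat.cast_nonneg n
  have e1 : f n 1 = A n * f n 0 := by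
    simp only [hA]
    rw [div_mul_cancel₀ _ (hpos n).ne']
  have e2 : f n 2 = (B n + A n ^ 2 / 2) * f n 0 := by
    simp only [hB, hA]
    have := (hpos n).ne'
    field_simp
    ring
  interval_cases k
  · rw [abs_of_pos (hpos n)]
    nlinarith [hhi n]
  · rw [e1, abs_mul, abs_of_pos (hpos n)]
    have : |A n| * f n 0 ≤ 3 / 2 * n * 2 :=
      mul_le_mul (ha n) (hhi n) (hpos n).le (by positivity)
    nlinarith
  · rw [e2, abs_mul, abs_of_pos (hpos n)]
    have h3 : (A n) ^ 2 ≤ (3 / 2 * (n : ℝ)) ^ 2 := by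
      rw [← sq_abs]
      exact pow_le_pow_left₀ (abs_nonneg _) (ha n) 2
    have h4 : |B n + A n ^ 2 / 2| ≤ 6 * n + (3 / 2 * (n : ℝ)) ^ 2 / 2 := by
      refine (abs_add_le _ _).trans ?_
      rw [abs_of_nonneg (by positivity : 0 ≤ A n ^ 2 / 2)]
      linarith [hb n]
    have : |B n + A n ^ 2 / 2| * f n 0 ≤ (6 * n + (3 / 2 * (n : ℝ)) ^ 2 / 2) * 2 :=
      mul_le_mul h4 (hhi n) (hpos n).le (by positivity)
    nlinarith

/-- Polynomial bound for the jets of the function with `F (t + 1) F t = (3 t + 2) / (3 t + 1)`. -/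
theorem jets_poly (F : ℤ → ℕ → ℝ) (h00 : F 0 0 = 1) (h01 : F 0 1 = 0) (h02 : F 0 2 = 0)
    (hr0 : ∀ t : ℤ, F (t + 1) 0 * F t 0 = (3 * (t : ℝ) + 2) / (3 * t + 1))
    (hr1 : ∀ t : ℤ, F (t + 1) 1 * F t 0 + F (t + 1) 0 * F t 1 = -3 / (3 * (t : ℝ) + 1) ^ 2)
    (hr2 : ∀ t : ℤ, F (t + 1) 2 * F t 0 + F (t + 1) 1 * F t 1 + F (t + 1) 0 * F t 2 =
      9 / (3 * (t : ℝ) + 1) ^ 3)
    (a : ℤ) (k : ℕ) (hk : k ≤ 2) : |F a k| ≤ 15 * (|(a : ℝ)| + 1) ^ 2 := by
  -- forward chain
  have hfwd : ∀ n : ℕ, ∀ k ≤ 2, |F (n : ℤ) k| ≤ 15 * ((n : ℝ) + 1) ^ 2 := by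
    have hprod : ∀ n : ℕ, F ((n : ℤ) + 1) 0 * F (n : ℤ) 0 = 1 + 1 / (3 * (n : ℝ) + 1) := by
      intro n
      rw [hr0 n]
      push_cast
      field_simp
      ring
    have hpos : ∀ n : ℕ, 0 < F (n : ℤ) 0 ∧ F (n : ℤ) 0 ≤ 2 ∧ 0 < F ((n : ℤ) + 1) 0 ∧
        F ((n : ℤ) + 1) 0 ≤ 2 := by
      intro n
      induction n with
      | zero =>
        have := hprod 0
        simp only [Nat.cast_zero, mul_zero, zero_add, h00, mul_one] at this
        refine ⟨?_, ?_, ?_, ?_⟩
        · simp only [Nat.cast_zero, h00]; norm_num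
        · simp only [Nat.cast_zero, h00]; norm_num
        · simp only [Nat.cast_zero, zero_add, this]; norm_num
        · simp only [Nat.cast_zero, zero_add, this]; norm_num
      | succ n ih =>
        obtain ⟨p1, p2, p3, p4⟩ := ih
        have e1 := hprod n
        have e2 := hprod (n + 1)
        push_cast at e2 ⊢
        have hn : (0 : ℝ) ≤ n := Nat.cast_nonneg n
        have hT : 1 + 1 / (3 * ((n : ℝ) + 1) + 1) ≤ 1 + 1 / (3 * (n : ℝ) + 1) := by
          have : 1 / (3 * ((n : ℝ) + 1) + 1) ≤ 1 / (3 * (n : ℝ) + 1) :=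
            one_div_le_one_div_of_le (by positivity) (by linarith)
          linarith
        have hTpos : 0 < 1 + 1 / (3 * ((n : ℝ) + 1) + 1) := by positivity
        have p5 : 0 < F ((n : ℤ) + 1 + 1) 0 := by
          by_contra hcon
          push Not at hcon
          have := mul_nonpos_of_nonpos_of_nonneg hcon p3.le
          linarith
        refine ⟨p3, p4, p5, ?_⟩
        have h1 : F ((n : ℤ) + 1 + 1) 0 * F ((n : ℤ) + 1) 0 ≤
            F (n : ℤ) 0 * F ((n : ℤ) + 1) 0 := by
          rw [e2, mul_comm (F (n : ℤ) 0), e1]; exact hT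
        have := le_of_mul_le_mul_right h1 p3
        linarith
    have hlo : ∀ n : ℕ, 1 / 2 ≤ F (n : ℤ) 0 := by
      intro n
      obtain ⟨p1, p2, p3, p4⟩ := hpos n
      have e1 := hprod n
      have h1 : 1 ≤ F ((n : ℤ) + 1) 0 * F (n : ℤ) 0 := by
        rw [e1]
        have : 0 ≤ 1 / (3 * (n : ℝ) + 1) := by positivity
        linarith
      nlinarith
    intro n k hk
    refine chain_bound (fun n k => F (n : ℤ) k)
      (fun n k => if k = 0 then (3 * (n : ℝ) + 2) / (3 * n + 1) else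
        if k = 1 then -3 / (3 * (n : ℝ) + 1) ^ 2 else 9 / (3 * (n : ℝ) + 1) ^ 3)
      h00 h01 h02 ?_ ?_ ?_ hlo (fun n => (hpos n).2.1) ?_ ?_ n k hk
    · intro n
      have := hr0 n
      simp only [if_true]
      push_cast at this ⊢
      exact this
    · intro n
      have := hr1 n
      simp only [one_ne_zero, if_false, if_true]
      push_cast at this ⊢
      exact this
    · intro n
      have := hr2 n
      simp only [OfNat.ofNat_ne_zero, OfNat.ofNat_ne_one, if_false]
      push_cast at this ⊢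
      exact this
    · intro n
      simp only [one_ne_zero, if_false, if_true]
      have hn : (0 : ℝ) ≤ n := Nat.cast_nonneg n
      rw [abs_div, abs_neg, abs_of_pos (by norm_num : (0 : ℝ) < 3),
        abs_of_pos (by positivity : (0 : ℝ) < (3 * (n : ℝ) + 1) ^ 2)]
      rw [div_le_iff₀ (by positivity)]
      have : 3 / 2 * ((3 * (n : ℝ) + 2) / (3 * n + 1)) * (3 * (n : ℝ) + 1) ^ 2 =
          3 / 2 * (3 * (n : ℝ) + 2) * (3 * n + 1) := by field_simp
      rw [this]
      nlinarith
    · intro n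
      simp only [OfNat.ofNat_ne_zero, OfNat.ofNat_ne_one, if_false, if_true]
      have hn : (0 : ℝ) ≤ n := Nat.cast_nonneg n
      rw [abs_div, abs_of_pos (by norm_num : (0 : ℝ) < 9),
        abs_of_pos (by positivity : (0 : ℝ) < (3 * (n : ℝ) + 1) ^ 3)]
      rw [div_le_iff₀ (by positivity)]
      have : 9 / 2 * ((3 * (n : ℝ) + 2) / (3 * n + 1)) * (3 * (n : ℝ) + 1) ^ 3 =
          9 / 2 * (3 * (n : ℝ) + 2) * (3 * n + 1) ^ 2 := by field_simp
      rw [this]
      nlinarith [mul_nonneg hn hn, mul_nonneg hn (mul_nonneg hn hn)]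
  -- backward chain
  have hbwd : ∀ n : ℕ, ∀ k ≤ 2, |F (-(n : ℤ)) k| ≤ 15 * ((n : ℝ) + 1) ^ 2 := by
    have hidx : ∀ n : ℕ, (-(((n + 1 : ℕ)) : ℤ)) + 1 = -(n : ℤ) := by intro n; push_cast; ring
    have hprod : ∀ n : ℕ, F (-((n + 1 : ℕ) : ℤ)) 0 * F (-(n : ℤ)) 0 =
        1 - 1 / (3 * (n : ℝ) + 2) := by
      intro n
      have := hr0 (-((n + 1 : ℕ) : ℤ))
      rw [hidx] at this
      rw [mul_comm, this]
      push_cast
      have h1 : (3 * (-1 + -(n : ℝ)) + 1) ≠ 0 := by
        have hn : (0 : ℝ) ≤ n := Nat.cast_nonneg n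
        intro h; linarith
      have h2 : (3 * (-((n : ℝ) + 1)) + 1) ≠ 0 := by
        have hn : (0 : ℝ) ≤ n := Nat.cast_nonneg n
        intro h; linarith
      have h3 : (3 * (n : ℝ) + 2) ≠ 0 := by positivity
      rw [div_eq_iff h2, sub_mul, one_div, one_mul]
      field_simp
      ring
    have hpos : ∀ n : ℕ, 1 / 2 ≤ F (-(n : ℤ)) 0 ∧ 1 / 2 ≤ F (-((n + 1 : ℕ) : ℤ)) 0 := by
      intro n
      induction n with
      | zero =>
        have := hprod 0
        simp only [Nat.cast_zero, neg_zero, h00, mul_one, mul_zero, zero_add] at this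
        refine ⟨?_, ?_⟩
        · simp only [Nat.cast_zero, neg_zero, h00]; norm_num
        · rw [zero_add, this]; norm_num
      | succ n ih =>
        obtain ⟨p1, p3⟩ := ih
        have e1 := hprod n
        have e2 := hprod (n + 1)
        have hn : (0 : ℝ) ≤ n := Nat.cast_nonneg n
        have hT : 1 - 1 / (3 * (n : ℝ) + 2) ≤ 1 - 1 / (3 * ((n + 1 : ℕ) : ℝ) + 2) := by
          have : 1 / (3 * ((n + 1 : ℕ) : ℝ) + 2) ≤ 1 / (3 * (n : ℝ) + 2) := by
            apply one_div_le_one_div_of_le (by positivity)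
            push_cast; linarith
          linarith
        refine ⟨p3, ?_⟩
        have p3' : 0 < F (-((n + 1 : ℕ) : ℤ)) 0 := lt_of_lt_of_le (by norm_num) p3
        have h1 : F (-(n : ℤ)) 0 * F (-((n + 1 : ℕ) : ℤ)) 0 ≤
            F (-((n + 1 + 1 : ℕ) : ℤ)) 0 * F (-((n + 1 : ℕ) : ℤ)) 0 := by
          rw [e2, mul_comm (F (-(n : ℤ)) 0), e1]; exact hT
        have := le_of_mul_le_mul_right h1 p3'
        linarith
    have hhi : ∀ n : ℕ, F (-(n : ℤ)) 0 ≤ 2 := by
      intro n
      obtain ⟨p1, p3⟩ := hpos n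
      have e1 := hprod n
      have h1 : F (-((n + 1 : ℕ) : ℤ)) 0 * F (-(n : ℤ)) 0 ≤ 1 := by
        rw [e1]
        have : 0 ≤ 1 / (3 * (n : ℝ) + 2) := by positivity
        linarith
      nlinarith
    intro n k hk
    refine chain_bound (fun n k => F (-(n : ℤ)) k)
      (fun n k => if k = 0 then (3 * (n : ℝ) + 1) / (3 * n + 2) else
        if k = 1 then -3 / (3 * (n : ℝ) + 2) ^ 2 else -9 / (3 * (n : ℝ) + 2) ^ 3)
      ?_ ?_ ?_ ?_ ?_ ?_ (fun n => (hpos n).1) hhi ?_ ?_ n k hk
    · simpa using h00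
    · simpa using h01
    · simpa using h02
    · intro n
      have := hprod n
      simp only [if_true]
      rw [this]
      have h3 : (3 * (n : ℝ) + 2) ≠ 0 := by positivity
      field_simp
      ring
    · intro n
      have := hr1 (-((n + 1 : ℕ) : ℤ))
      rw [hidx] at this
      simp only [one_ne_zero, if_false, if_true]
      have e : (3 * (((-((n + 1 : ℕ) : ℤ)) : ℤ) : ℝ) + 1) ^ 2 = (3 * (n : ℝ) + 2) ^ 2 := by
        push_cast; ring
      rw [e] at this
      rw [← this]; ring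
    · intro n
      have := hr2 (-((n + 1 : ℕ) : ℤ))
      rw [hidx] at this
      simp only [OfNat.ofNat_ne_zero, OfNat.ofNat_ne_one, if_false]
      have e : (3 * (((-((n + 1 : ℕ) : ℤ)) : ℤ) : ℝ) + 1) ^ 3 = -(3 * (n : ℝ) + 2) ^ 3 := by
        push_cast; ring
      rw [e, div_neg, ← neg_div] at this
      rw [← this]; ring
    · intro n
      simp only [one_ne_zero, if_false, if_true]
      have hn : (0 : ℝ) ≤ n := Nat.cast_nonneg n
      rw [abs_div, abs_neg, abs_of_pos (by norm_num : (0 : ℝ) < 3),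
        abs_of_pos (by positivity : (0 : ℝ) < (3 * (n : ℝ) + 2) ^ 2)]
      rw [div_le_iff₀ (by positivity)]
      have : 3 / 2 * ((3 * (n : ℝ) + 1) / (3 * n + 2)) * (3 * (n : ℝ) + 2) ^ 2 =
          3 / 2 * (3 * (n : ℝ) + 1) * (3 * n + 2) := by field_simp
      rw [this]
      nlinarith
    · intro n
      simp only [OfNat.ofNat_ne_zero, OfNat.ofNat_ne_one, if_false, if_true]
      have hn : (0 : ℝ) ≤ n := Nat.cast_nonneg n
      rw [abs_div, abs_neg, abs_of_pos (by norm_num : (0 : ℝ) < 9),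
        abs_of_pos (by positivity : (0 : ℝ) < (3 * (n : ℝ) + 2) ^ 3)]
      rw [div_le_iff₀ (by positivity)]
      have : 9 / 2 * ((3 * (n : ℝ) + 1) / (3 * n + 2)) * (3 * (n : ℝ) + 2) ^ 3 =
          9 / 2 * (3 * (n : ℝ) + 1) * (3 * n + 2) ^ 2 := by field_simp
      rw [this]
      nlinarith [mul_nonneg hn hn, mul_nonneg hn (mul_nonneg hn hn)]
  rcases le_total 0 a with h | h
  · obtain ⟨n, rfl⟩ := Int.eq_ofNat_of_zero_le h
    have := hfwd n k hk
    have e : |(((n : ℕ) : ℤ) : ℝ)| = (n : ℝ) := by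
      rw [Int.cast_natCast, abs_of_nonneg (Nat.cast_nonneg n)]
    rw [e]; exact this
  · obtain ⟨n, hn⟩ := Int.eq_ofNat_of_zero_le (neg_nonneg.2 h)
    have ha : a = -(n : ℤ) := by omega
    subst ha
    have := hbwd n k hk
    have e : |((-((n : ℕ) : ℤ) : ℤ) : ℝ)| = (n : ℝ) := by
      push_cast
      rw [abs_neg, abs_of_nonneg (Nat.cast_nonneg n)]
    rw [e]; exact this

end Pool.Agent.H30.MM

end

section

/-!
# The logarithmic kernel is conditionally negative definite (discrete Polya lemma)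

For a finite set `S` of integers of diameter at most `L` and any real weights `t` on it,
`∑_{a,b} t_a t_b log |a - b| ≤ (∑ t)^2 log L + (log 2) ∑ t_a^2`.
Proof: the function `n ↦ (log L - log n)^+` (with the value `log L + log 2` at `0`) is convex and
nonnegative, hence a nonnegative combination of the triangle functions `(k - n)^+`, and
`∑ t_a t_b (k - |a - b|)^+ = ∑_x (∑_{x ≤ a < x + k} t_a)^2`.
-/

namespace Pool.Agent.H30.MM

open Finset

/-- The triangle kernel is positive semidefinite. -/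
theorem tri_nonneg (S : Finset ℤ) (t : ℤ → ℝ) (k : ℕ) :
    0 ≤ ∑ a ∈ S, ∑ b ∈ S, t a * t b * ((((k : ℤ) - |a - b|).toNat : ℕ) : ℝ) := by
  classical
  set X : Finset ℤ := S.biUnion (fun a => Finset.Ioc (a - k) a) with hX
  have key : ∀ a ∈ S, ∀ b ∈ S,
      ((((k : ℤ) - |a - b|).toNat : ℕ) : ℝ) =
        ∑ x ∈ X, (if x ∈ Finset.Ioc (a - k) a then (1 : ℝ) else 0) *
          (if x ∈ Finset.Ioc (b - k) b then (1 : ℝ) else 0) := by
    intro a ha b hb
    have h1 : ∀ x : ℤ, (if x ∈ Finset.Ioc (a - k) a then (1 : ℝ) else 0) *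
          (if x ∈ Finset.Ioc (b - k) b then (1 : ℝ) else 0) =
        if x ∈ Finset.Ioc (a - k) a ∩ Finset.Ioc (b - k) b then (1 : ℝ) else 0 := by
      intro x
      by_cases h : x ∈ Finset.Ioc (a - k) a
      · by_cases h' : x ∈ Finset.Ioc (b - k) b
        · rw [if_pos h, if_pos h', if_pos (Finset.mem_inter.2 ⟨h, h'⟩)]; norm_num
        · rw [if_neg h', if_neg (fun hh => h' (Finset.mem_inter.1 hh).2)]; simp
      · rw [if_neg h, if_neg (fun hh => h (Finset.mem_inter.1 hh).1)]; simp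
    simp only [h1]
    have hsub : Finset.Ioc (a - k) a ∩ Finset.Ioc (b - k) b ⊆ X := by
      intro x hx
      exact Finset.mem_biUnion.2 ⟨a, ha, (Finset.mem_inter.1 hx).1⟩
    rw [← Finset.sum_filter, Finset.sum_const, nsmul_eq_mul, mul_one]
    have h2 : Finset.filter (fun x => x ∈ Finset.Ioc (a - k) a ∩ Finset.Ioc (b - k) b) X =
        Finset.Ioc (a - k) a ∩ Finset.Ioc (b - k) b := by
      ext x
      simp only [Finset.mem_filter]
      exact ⟨fun h => h.2, fun h => ⟨hsub h, h⟩⟩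
    rw [h2, Finset.Ioc_inter_Ioc, Int.card_Ioc]
    congr 2
    rcases le_total a b with h | h
    · rw [abs_of_nonpos (by linarith)]
      rw [show (a - (k : ℤ)) ⊔ (b - k) = b - k from max_eq_right (by linarith),
        show a ⊓ b = a from min_eq_left h]
      ring
    · rw [abs_of_nonneg (by linarith)]
      rw [show (a - (k : ℤ)) ⊔ (b - k) = a - k from max_eq_left (by linarith),
        show a ⊓ b = b from min_eq_right h]
      ring
  have h3 : ∑ a ∈ S, ∑ b ∈ S, t a * t b * ((((k : ℤ) - |a - b|).toNat : ℕ) : ℝ) =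
      ∑ x ∈ X, (∑ a ∈ S, t a * (if x ∈ Finset.Ioc (a - k) a then (1 : ℝ) else 0)) ^ 2 := by
    have h4 : ∀ x ∈ X, (∑ a ∈ S, t a * (if x ∈ Finset.Ioc (a - k) a then (1 : ℝ) else 0)) ^ 2 =
        ∑ a ∈ S, ∑ b ∈ S, t a * t b * ((if x ∈ Finset.Ioc (a - k) a then (1 : ℝ) else 0) *
          (if x ∈ Finset.Ioc (b - k) b then (1 : ℝ) else 0)) := by
      intro x _
      rw [sq, Finset.sum_mul_sum]
      refine Finset.sum_congr rfl fun a _ => Finset.sum_congr rfl fun b _ => ?_
      ring
    rw [Finset.sum_congr rfl h4, Finset.sum_comm (s := X)]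
    refine Finset.sum_congr rfl fun a ha => ?_
    rw [Finset.sum_comm (s := X)]
    refine Finset.sum_congr rfl fun b hb => ?_
    rw [key a ha b hb, Finset.mul_sum]
  rw [h3]
  exact Finset.sum_nonneg fun x _ => sq_nonneg _

/-- Abel summation: a function is the combination of triangle functions with its second
differences as coefficients, up to boundary terms. -/
theorem second_diff (f : ℕ → ℝ) (n : ℕ) : ∀ N, n ≤ N →
    ∑ k ∈ Finset.range N, (f k - 2 * f (k + 1) + f (k + 2)) * (((k + 1 - n : ℕ) : ℝ)) =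
      f n - f N - ((N : ℝ) - n) * (f N - f (N + 1)) := by
  intro N hN
  induction N, hN using Nat.le_induction with
  | base =>
    rw [Finset.sum_eq_zero]
    · ring
    · intro k hk
      have : k + 1 - n = 0 := by
        have := Finset.mem_range.1 hk
        omega
      rw [this]; simp
  | succ N hN ih =>
    rw [Finset.sum_range_succ, ih]
    have h1 : ((N + 1 - n : ℕ) : ℝ) = (N : ℝ) + 1 - n := by
      rw [Nat.cast_sub (by omega)]; push_cast; ring
    rw [h1]
    push_cast
    ring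

/-- The truncated logarithmic function. -/
noncomputable def psi (L n : ℕ) : ℝ :=
  if n = 0 then Real.log L + Real.log 2 else max 0 (Real.log L - Real.log n)

private theorem psi_zero (L : ℕ) : psi L 0 = Real.log L + Real.log 2 := by simp [psi]

private theorem psi_pos (L n : ℕ) (h : n ≠ 0) : psi L n = max 0 (Real.log L - Real.log n) := by
  simp [psi, h]

private theorem psi_ge (L n : ℕ) (h : n ≠ 0) : Real.log L - Real.log n ≤ psi L n := by
  rw [psi_pos L n h]; exact le_max_right _ _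

private theorem psi_nonneg (L n : ℕ) (hL : 1 ≤ L) : 0 ≤ psi L n := by
  by_cases h : n = 0
  · rw [h, psi_zero]
    have h1 : 0 ≤ Real.log L := Real.log_nonneg (by exact_mod_cast hL)
    have h2 : 0 ≤ Real.log 2 := Real.log_nonneg (by norm_num)
    linarith
  · rw [psi_pos L n h]; exact le_max_left _ _

private theorem psi_conv (L : ℕ) (hL : 1 ≤ L) (k : ℕ) :
    0 ≤ psi L k - 2 * psi L (k + 1) + psi L (k + 2) := by
  by_cases h0 : Real.log L - Real.log ((k + 1 : ℕ) : ℝ) ≤ 0
  · have h1 : psi L (k + 1) = 0 := by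
      rw [psi_pos L (k + 1) (by omega)]; exact max_eq_left h0
    rw [h1]
    have h2 := psi_nonneg L k hL
    have h3 := psi_nonneg L (k + 2) hL
    linarith
  · push Not at h0
    have h1 : psi L (k + 1) = Real.log L - Real.log ((k + 1 : ℕ) : ℝ) := by
      rw [psi_pos L (k + 1) (by omega)]; exact max_eq_right h0.le
    have h3 := psi_ge L (k + 2) (by omega)
    by_cases hk : k = 0
    · subst hk
      rw [psi_zero, h1]
      norm_num at h3 ⊢
      linarith
    · have h2 := psi_ge L k hk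
      rw [h1]
      have hkpos : (0 : ℝ) < k := by exact_mod_cast Nat.pos_of_ne_zero hk
      have h4 : Real.log k + Real.log ((k + 2 : ℕ) : ℝ) ≤ 2 * Real.log ((k + 1 : ℕ) : ℝ) := by
        have e1 : Real.log k + Real.log ((k + 2 : ℕ) : ℝ) = Real.log (k * ((k + 2 : ℕ) : ℝ)) := by
          rw [Real.log_mul (by positivity) (by positivity)]
        have e2 : 2 * Real.log ((k + 1 : ℕ) : ℝ) = Real.log (((k + 1 : ℕ) : ℝ) ^ 2) := by
          rw [Real.log_pow]; norm_num
        rw [e1, e2]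
        apply Real.log_le_log (by positivity)
        push_cast
        nlinarith
      linarith

/-- The logarithmic kernel on a finite set of integers. -/
theorem log_kernel (S : Finset ℤ) (t : ℤ → ℝ) (L : ℕ) (hL : 1 ≤ L)
    (hS : ∀ a ∈ S, ∀ b ∈ S, |a - b| ≤ L) :
    ∑ a ∈ S, ∑ b ∈ S, t a * t b * Real.log |((a : ℝ) - b)| ≤
      (∑ a ∈ S, t a) ^ 2 * Real.log L + Real.log 2 * ∑ a ∈ S, (t a) ^ 2 := by
  classical
  have hLr : (1 : ℝ) ≤ (L : ℝ) := by exact_mod_cast hL
  -- value of psi at the distances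
  have hval : ∀ a ∈ S, ∀ b ∈ S, psi L (a - b).natAbs =
      Real.log L - Real.log |((a : ℝ) - b)| + (if a = b then Real.log 2 else 0) := by
    intro a ha b hb
    by_cases hab : a = b
    · subst hab
      simp [psi_zero]
    · have hne : (a - b).natAbs ≠ 0 := by
        rw [Int.natAbs_ne_zero]; exact sub_ne_zero.2 hab
      rw [psi_pos _ _ hne, if_neg hab, add_zero]
      have hcast : (((a - b).natAbs : ℕ) : ℝ) = |((a : ℝ) - b)| := by
        rw [Nat.cast_natAbs]; push_cast; rfl
      rw [hcast]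
      apply max_eq_right
      have h1 : |((a : ℝ) - b)| ≤ (L : ℝ) := by
        have := hS a ha b hb
        exact_mod_cast this
      have h2 : (0 : ℝ) < |((a : ℝ) - b)| := by
        rw [abs_pos]
        intro h
        apply hab
        have : (a : ℝ) = b := by linarith
        exact_mod_cast this
      have := Real.log_le_log h2 h1
      linarith
  -- decomposition
  have hdec : ∀ n : ℕ, n ≤ L → psi L n =
      ∑ k ∈ Finset.range (L + 1), (psi L k - 2 * psi L (k + 1) + psi L (k + 2)) *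
        (((k + 1 - n : ℕ) : ℝ)) := by
    intro n hn
    rw [second_diff (psi L) n (L + 1) (by omega)]
    have h1 : ∀ j : ℕ, psi L (L + 1 + j) = 0 := by
      intro j
      rw [psi_pos _ _ (by omega)]
      apply max_eq_left
      have : Real.log (L : ℝ) ≤ Real.log ((L + 1 + j : ℕ) : ℝ) := by
        apply Real.log_le_log (by linarith)
        push_cast
        have : (0 : ℝ) ≤ (j : ℝ) := Nat.cast_nonneg j
        linarith
      linarith
    have h2 := h1 0
    have h3 := h1 1
    rw [add_zero] at h2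
    rw [h2, h3]
    ring
  have hsum : 0 ≤ ∑ a ∈ S, ∑ b ∈ S, t a * t b * psi L (a - b).natAbs := by
    have e : ∑ a ∈ S, ∑ b ∈ S, t a * t b * psi L (a - b).natAbs =
        ∑ k ∈ Finset.range (L + 1), (psi L k - 2 * psi L (k + 1) + psi L (k + 2)) *
          ∑ a ∈ S, ∑ b ∈ S, t a * t b * (((((k + 1 : ℕ) : ℤ) - |a - b|).toNat : ℕ) : ℝ) := by
      have e1 : ∀ a ∈ S, ∀ b ∈ S, t a * t b * psi L (a - b).natAbs =
          ∑ k ∈ Finset.range (L + 1), (psi L k - 2 * psi L (k + 1) + psi L (k + 2)) *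
            (t a * t b * (((((k + 1 : ℕ) : ℤ) - |a - b|).toNat : ℕ) : ℝ)) := by
        intro a ha b hb
        have hle : (a - b).natAbs ≤ L := by
          have := hS a ha b hb
          rw [Int.abs_eq_natAbs] at this
          exact_mod_cast this
        rw [hdec _ hle, Finset.mul_sum]
        refine Finset.sum_congr rfl fun k _ => ?_
        have : ((((k + 1 : ℕ) : ℤ) - |a - b|).toNat) = k + 1 - (a - b).natAbs := by
          rw [Int.abs_eq_natAbs]
          omega
        rw [this]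
        ring
      rw [Finset.sum_congr rfl fun a ha => Finset.sum_congr rfl fun b hb => e1 a ha b hb]
      simp only [Finset.mul_sum]
      rw [Finset.sum_congr rfl fun a _ => Finset.sum_comm]
      rw [Finset.sum_comm]
    rw [e]
    exact Finset.sum_nonneg fun k _ => mul_nonneg (psi_conv L hL k) (tri_nonneg S t (k + 1))
  have hfin : ∑ a ∈ S, ∑ b ∈ S, t a * t b * psi L (a - b).natAbs =
      (∑ a ∈ S, t a) ^ 2 * Real.log L + Real.log 2 * ∑ a ∈ S, (t a) ^ 2 -
        ∑ a ∈ S, ∑ b ∈ S, t a * t b * Real.log |((a : ℝ) - b)| := by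
    have e1 : ∀ a ∈ S, ∑ b ∈ S, t a * t b * psi L (a - b).natAbs =
        (∑ b ∈ S, t a * t b) * Real.log L + Real.log 2 * (t a) ^ 2 -
          ∑ b ∈ S, t a * t b * Real.log |((a : ℝ) - b)| := by
      intro a ha
      rw [Finset.sum_congr rfl fun b hb => by rw [hval a ha b hb]]
      have e2 : ∀ b ∈ S, t a * t b * (Real.log L - Real.log |((a : ℝ) - b)| +
          (if a = b then Real.log 2 else 0)) =
          t a * t b * Real.log L - t a * t b * Real.log |((a : ℝ) - b)| +
            (if a = b then t a * t b * Real.log 2 else 0) := by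
        intro b _
        split_ifs <;> ring
      rw [Finset.sum_congr rfl e2, Finset.sum_add_distrib, Finset.sum_sub_distrib,
        Finset.sum_ite_eq, if_pos ha, ← Finset.sum_mul]
      ring
    rw [Finset.sum_congr rfl e1, Finset.sum_sub_distrib, Finset.sum_add_distrib,
      ← Finset.sum_mul, ← Finset.mul_sum, sq, Finset.sum_mul_sum]
  rw [hfin] at hsum
  linarith

end Pool.Agent.H30.MM

end

section

/-!
# The archimedean bound for the jet matrices

Rows are indexed by pairs (node `a`, order `j ≤ 2`), `|a| ≤ L`; the columns are the jets of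
`x^i` (first block) and of `- F_a x^i` (second block).
-/

namespace Pool.Agent.H30.MM

open Finset

/-- One row of the jet matrix. -/
noncomputable def jrow (n1 n2 : ℕ) (F : ℤ → ℕ → ℝ) (a : ℤ) (j : ℕ) : Fin n1 ⊕ Fin n2 → ℝ :=
  Sum.elim (fun i => (((i : ℕ).choose j : ℕ) : ℝ) * (a : ℝ) ^ ((i : ℕ) - j))
    (fun i => - ∑ k ∈ range (j + 1), F a (j - k) *
      ((((i : ℕ).choose k : ℕ) : ℝ) * (a : ℝ) ^ ((i : ℕ) - k)))

/-- The exponent of a pair of nodes. -/
noncomputable def gker (a b : ℤ) : ℝ := Real.log |((a : ℝ) - b)| + 1 / (2 * |((a : ℝ) - b)|)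

theorem gker_self (a : ℤ) : gker a a = 0 := by simp [gker]

/-- Points near the integers `a`, `b`. -/
theorem norm_le_exp_gker (a b : ℤ) (x y : ℂ) (hx : ‖x‖ ≤ 1 / 4) (hy : ‖y‖ ≤ 1 / 4) :
    ‖((a : ℂ) + x) - ((b : ℂ) + y)‖ ≤ Real.exp (gker a b) := by
  have h1 : ‖((a : ℂ) + x) - ((b : ℂ) + y)‖ ≤ |((a : ℝ) - b)| + 1 / 2 := by
    have e : ((a : ℂ) + x) - ((b : ℂ) + y) = (((a : ℝ) - (b : ℝ) : ℝ) : ℂ) + (x - y) := by
      push_cast; ring
    rw [e]
    refine (norm_add_le _ _).trans ?_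
    rw [Complex.norm_real, Real.norm_eq_abs]
    have := norm_sub_le x y
    linarith
  by_cases hab : a = b
  · subst hab
    rw [gker_self, Real.exp_zero]
    simp only [sub_self, abs_zero, zero_add] at h1
    linarith
  · have hpos : 0 < |((a : ℝ) - b)| := by
      rw [abs_pos]
      intro h
      apply hab
      have : (a : ℝ) = b := by linarith
      exact_mod_cast this
    rw [gker, Real.exp_add, Real.exp_log hpos]
    refine h1.trans ?_
    have h2 : 1 + 1 / (2 * |((a : ℝ) - b)|) ≤ Real.exp (1 / (2 * |((a : ℝ) - b)|)) := by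
      have := Real.add_one_le_exp (1 / (2 * |((a : ℝ) - b)|))
      linarith
    have h3 : |((a : ℝ) - b)| + 1 / 2 =
        |((a : ℝ) - b)| * (1 + 1 / (2 * |((a : ℝ) - b)|)) := by
      field_simp
    rw [h3]
    exact mul_le_mul_of_nonneg_left h2 hpos.le

/-- The harmonic sum over the nodes. -/
theorem sum_inv_le (L : ℕ) (a : ℤ) (ha : a ∈ Finset.Icc (-(L : ℤ)) L) :
    ∑ b ∈ Finset.Icc (-(L : ℤ)) L, 1 / (2 * |((a : ℝ) - b)|) ≤ 1 + Real.log (2 * L + 1) := by
  classical
  have ha' := Finset.mem_Icc.1 ha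
  -- split in b < a, b = a, b > a
  have hH : ∀ n : ℕ, n ≤ 2 * L → ∑ k ∈ Finset.range n, 1 / (((k + 1 : ℕ) : ℝ)) ≤
      1 + Real.log (2 * L + 1) := by
    intro n hn
    have h1 : ∑ k ∈ Finset.range n, 1 / (((k + 1 : ℕ) : ℝ)) = ((harmonic n : ℚ) : ℝ) := by
      rw [harmonic]
      push_cast
      refine Finset.sum_congr rfl fun k _ => ?_
      rw [one_div]
    rw [h1]
    refine (harmonic_le_one_add_log n).trans ?_
    by_cases h0 : n = 0
    · subst h0
      have : 0 ≤ Real.log (2 * (L : ℝ) + 1) := Real.log_nonneg (by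
        have : (0 : ℝ) ≤ L := Nat.cast_nonneg L
        linarith)
      simp only [Nat.cast_zero, Real.log_zero]
      linarith
    · have : Real.log (n : ℝ) ≤ Real.log (2 * (L : ℝ) + 1) := by
        apply Real.log_le_log
        · exact_mod_cast Nat.pos_of_ne_zero h0
        · have : (n : ℝ) ≤ 2 * L := by exact_mod_cast hn
          linarith
      linarith
  have hsplit : Finset.Icc (-(L : ℤ)) L = Finset.Ico (-(L : ℤ)) a ∪ ({a} ∪ Finset.Ioc a (L : ℤ)) := by
    ext b
    simp only [Finset.mem_Icc, Finset.mem_union, Finset.mem_Ico, Finset.mem_singleton,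
      Finset.mem_Ioc]
    omega
  have hd1 : Disjoint (Finset.Ico (-(L : ℤ)) a) ({a} ∪ Finset.Ioc a (L : ℤ)) := by
    rw [Finset.disjoint_left]
    intro b hb hb'
    simp only [Finset.mem_union, Finset.mem_Ico, Finset.mem_singleton, Finset.mem_Ioc] at hb hb'
    omega
  have hd2 : Disjoint ({a} : Finset ℤ) (Finset.Ioc a (L : ℤ)) := by
    rw [Finset.disjoint_left]
    intro b hb hb'
    simp only [Finset.mem_singleton, Finset.mem_Ioc] at hb hb'
    omega
  rw [hsplit, Finset.sum_union hd1, Finset.sum_union hd2, Finset.sum_singleton]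
  have e0 : 1 / (2 * |((a : ℝ) - a)|) = 0 := by simp
  have e1 : ∑ b ∈ Finset.Ico (-(L : ℤ)) a, 1 / (2 * |((a : ℝ) - b)|) =
      (1 / 2) * ∑ k ∈ Finset.range (a + L).toNat, 1 / (((k + 1 : ℕ) : ℝ)) := by
    rw [Finset.mul_sum]
    symm
    refine Finset.sum_bij' (fun k _ => a - 1 - (k : ℤ)) (fun b _ => (a - 1 - b).toNat) ?_ ?_ ?_ ?_ ?_
    · intro k hk
      have := Finset.mem_range.1 hk
      simp only [Finset.mem_Ico]
      omega
    · intro b hb
      have := Finset.mem_Ico.1 hb
      simp only [Finset.mem_range]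
      omega
    · intro k hk
      omega
    · intro b hb
      have := Finset.mem_Ico.1 hb
      omega
    · intro k hk
      have : ((a : ℝ) - ((a - 1 - (k : ℤ) : ℤ) : ℝ)) = (k : ℝ) + 1 := by push_cast; ring
      rw [this, abs_of_nonneg (by positivity)]
      push_cast
      field_simp
  have e2 : ∑ b ∈ Finset.Ioc a (L : ℤ), 1 / (2 * |((a : ℝ) - b)|) =
      (1 / 2) * ∑ k ∈ Finset.range ((L : ℤ) - a).toNat, 1 / (((k + 1 : ℕ) : ℝ)) := by
    rw [Finset.mul_sum]
    symm
    refine Finset.sum_bij' (fun k _ => a + 1 + (k : ℤ)) (fun b _ => (b - a - 1).toNat) ?_ ?_ ?_ ?_ ?_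
    · intro k hk
      have := Finset.mem_range.1 hk
      simp only [Finset.mem_Ioc]
      omega
    · intro b hb
      have := Finset.mem_Ioc.1 hb
      simp only [Finset.mem_range]
      omega
    · intro k hk
      omega
    · intro b hb
      have := Finset.mem_Ioc.1 hb
      omega
    · intro k hk
      have : ((a : ℝ) - ((a + 1 + (k : ℤ) : ℤ) : ℝ)) = -((k : ℝ) + 1) := by push_cast; ring
      rw [this, abs_neg, abs_of_nonneg (by positivity)]
      push_cast
      field_simp
  rw [e0, e1, e2]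
  have b1 := hH (a + L).toNat (by omega)
  have b2 := hH ((L : ℤ) - a).toNat (by omega)
  linarith

/-- The double sum of logarithms over the nodes. -/
noncomputable def Lam (L : ℕ) : ℝ :=
  ∑ a ∈ Finset.Icc (-(L : ℤ)) L, ∑ b ∈ Finset.Icc (-(L : ℤ)) L, Real.log |((a : ℝ) - b)|

private theorem log_abs_nonneg (a b : ℤ) : 0 ≤ Real.log |((a : ℝ) - b)| := by
  by_cases hab : a = b
  · subst hab; simp
  · apply Real.log_nonneg
    have : (1 : ℤ) ≤ |a - b| := Int.one_le_abs (sub_ne_zero.2 hab)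
    exact_mod_cast this

/-- Energy of a typed configuration. -/
theorem energy_le (L : ℕ) {R : Type*} [Fintype R] [DecidableEq R] (node : R → ℤ)
    (ty : R → Bool) (hnode : ∀ r, node r ∈ Finset.Icc (-(L : ℤ)) L)
    (h3 : ∀ a, (Finset.univ.filter (fun r => node r = a)).card ≤ 3) :
    ∑ r, ∑ s, (if ty r = ty s then gker (node r) (node s) else 0) ≤
      (9 / 2) * Lam L +
      (((Finset.univ.filter (fun r => ty r = true)).card : ℝ) -
        ((Finset.univ.filter (fun r => ty r = false)).card : ℝ)) ^ 2 / 2 * Real.log (2 * L + 1) +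
      (9 / 2) * Real.log 2 * (2 * L + 1) + 9 * (2 * L + 1) * (1 + Real.log (2 * L + 1)) := by
  classical
  set S : Finset ℤ := Finset.Icc (-(L : ℤ)) L with hS
  set sg : Bool → ℤ → ℝ := fun c a =>
    ((Finset.univ.filter (fun r => node r = a ∧ ty r = c)).card : ℝ) with hsg
  -- fibre sums
  have hfib : ∀ (c : Bool) (φ : ℤ → ℝ), ∑ r, (if ty r = c then φ (node r) else 0) =
      ∑ a ∈ S, sg c a * φ a := by
    intro c φ
    rw [← Finset.sum_fiberwise_of_maps_to (s := Finset.univ) (t := S) (g := node)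
      (fun r _ => hnode r)]
    refine Finset.sum_congr rfl fun a _ => ?_
    rw [hsg]
    simp only
    rw [Finset.card_eq_sum_ones, Nat.cast_sum, Finset.sum_mul]
    rw [Finset.sum_filter, Finset.sum_filter]
    refine Finset.sum_congr rfl fun r _ => ?_
    by_cases h1 : node r = a
    · by_cases h2 : ty r = c
      · rw [if_pos h1, if_pos h2, if_pos ⟨h1, h2⟩, h1]; simp
      · rw [if_pos h1, if_neg h2, if_neg (fun h => h2 h.2)]
    · rw [if_neg h1, if_neg (fun h => h1 h.1)]
  have hpair : ∀ r s : R, (if ty r = ty s then gker (node r) (node s) else 0) =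
      (if ty r = true then (if ty s = true then gker (node r) (node s) else 0) else 0) +
      (if ty r = false then (if ty s = false then gker (node r) (node s) else 0) else 0) := by
    intro r s
    rcases hr : ty r <;> rcases hs : ty s <;> simp
  have hdouble : ∀ c : Bool, ∑ r, ∑ s,
      (if ty r = c then (if ty s = c then gker (node r) (node s) else 0) else 0) =
      ∑ a ∈ S, ∑ b ∈ S, sg c a * sg c b * gker a b := by
    intro c
    have e1 : ∀ r, ∑ s, (if ty r = c then (if ty s = c then gker (node r) (node s) else 0) else 0)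
        = if ty r = c then ∑ b ∈ S, sg c b * gker (node r) b else 0 := by
      intro r
      by_cases hr : ty r = c
      · simp only [if_pos hr]
        exact hfib c (fun b => gker (node r) b)
      · simp only [if_neg hr]
        simp
    rw [Finset.sum_congr rfl fun r _ => e1 r, hfib c (fun a => ∑ b ∈ S, sg c b * gker a b)]
    refine Finset.sum_congr rfl fun a _ => ?_
    rw [Finset.mul_sum]
    refine Finset.sum_congr rfl fun b _ => ?_
    ring
  have hmain : ∑ r, ∑ s, (if ty r = ty s then gker (node r) (node s) else 0) =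
      ∑ a ∈ S, ∑ b ∈ S, (sg true a * sg true b + sg false a * sg false b) * gker a b := by
    rw [Finset.sum_congr rfl fun r _ => Finset.sum_congr rfl fun s _ => hpair r s]
    simp only [Finset.sum_add_distrib]
    rw [hdouble true, hdouble false, ← Finset.sum_add_distrib]
    refine Finset.sum_congr rfl fun a _ => ?_
    rw [← Finset.sum_add_distrib]
    refine Finset.sum_congr rfl fun b _ => ?_
    ring
  -- node weights
  have hs3 : ∀ a, sg true a + sg false a ≤ 3 := by
    intro a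
    have : (Finset.univ.filter (fun r => node r = a ∧ ty r = true)).card +
        (Finset.univ.filter (fun r => node r = a ∧ ty r = false)).card ≤ 3 := by
      rw [← Finset.card_union_of_disjoint]
      · refine (Finset.card_le_card ?_).trans (h3 a)
        intro r hr
        simp only [Finset.mem_union, Finset.mem_filter, Finset.mem_univ, true_and] at hr ⊢
        rcases hr with h | h <;> exact h.1
      · rw [Finset.disjoint_left]
        intro r hr hr'
        simp only [Finset.mem_filter, Finset.mem_univ, true_and] at hr hr'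
        rw [hr.2] at hr'
        exact absurd hr'.2 (by decide)
    rw [hsg]
    simp only
    exact_mod_cast this
  have hs0 : ∀ c a, 0 ≤ sg c a := fun c a => Nat.cast_nonneg _
  set u : ℤ → ℝ := fun a => (sg true a - sg false a) / 2 with hu
  have hprod : ∀ a b, sg true a * sg true b + sg false a * sg false b =
      (sg true a + sg false a) * (sg true b + sg false b) / 2 + 2 * (u a * u b) := by
    intro a b
    rw [hu]; ring
  have hss : ∀ a b, (sg true a + sg false a) * (sg true b + sg false b) ≤ 9 := by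
    intro a b
    have := mul_le_mul (hs3 a) (hs3 b) (add_nonneg (hs0 true b) (hs0 false b)) (by norm_num)
    linarith
  rw [hmain]
  have hcardS : (S.card : ℝ) = 2 * L + 1 := by
    rw [hS, Int.card_Icc]
    have : ((L : ℤ) + 1 - -(L : ℤ)).toNat = 2 * L + 1 := by omega
    rw [this]; push_cast; ring
  -- the reciprocal part
  have hrec : ∑ a ∈ S, ∑ b ∈ S, (sg true a * sg true b + sg false a * sg false b) *
      (1 / (2 * |((a : ℝ) - b)|)) ≤ 9 * (2 * L + 1) * (1 + Real.log (2 * L + 1)) := by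
    calc ∑ a ∈ S, ∑ b ∈ S, (sg true a * sg true b + sg false a * sg false b) *
      (1 / (2 * |((a : ℝ) - b)|)) ≤ ∑ a ∈ S, ∑ b ∈ S, 9 * (1 / (2 * |((a : ℝ) - b)|)) := by
          refine Finset.sum_le_sum fun a _ => Finset.sum_le_sum fun b _ => ?_
          apply mul_le_mul_of_nonneg_right _ (by positivity)
          have h1 := hss a b
          have h2 : 0 ≤ sg true a * sg false b := mul_nonneg (hs0 _ _) (hs0 _ _)
          have h4 : 0 ≤ sg false a * sg true b := mul_nonneg (hs0 _ _) (hs0 _ _)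
          nlinarith
      _ ≤ ∑ a ∈ S, 9 * (1 + Real.log (2 * L + 1)) := by
          refine Finset.sum_le_sum fun a ha => ?_
          rw [← Finset.mul_sum]
          exact mul_le_mul_of_nonneg_left (sum_inv_le L a ha) (by norm_num)
      _ = 9 * (2 * L + 1) * (1 + Real.log (2 * L + 1)) := by
          rw [Finset.sum_const, nsmul_eq_mul, hcardS]; ring
  -- the logarithmic part
  have hlog1 : ∑ a ∈ S, ∑ b ∈ S, (sg true a + sg false a) * (sg true b + sg false b) / 2 *
      Real.log |((a : ℝ) - b)| ≤ (9 / 2) * Lam L := by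
    rw [Lam, Finset.mul_sum]
    refine Finset.sum_le_sum fun a _ => ?_
    rw [Finset.mul_sum]
    refine Finset.sum_le_sum fun b _ => ?_
    apply mul_le_mul_of_nonneg_right _ (log_abs_nonneg a b)
    have := hss a b
    linarith
  have hlog2 : ∑ a ∈ S, ∑ b ∈ S, u a * u b * Real.log |((a : ℝ) - b)| ≤
      (∑ a ∈ S, u a) ^ 2 * Real.log ((2 * L + 1 : ℕ) : ℝ) +
        Real.log 2 * ∑ a ∈ S, (u a) ^ 2 := by
    apply log_kernel S u (2 * L + 1) (by omega)
    intro a ha b hb
    have h1 := Finset.mem_Icc.1 ha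
    have h2 := Finset.mem_Icc.1 hb
    rw [abs_le]
    push_cast
    constructor <;> linarith [h1.1, h1.2, h2.1, h2.2]
  have husum : ∑ a ∈ S, u a = (((Finset.univ.filter (fun r => ty r = true)).card : ℝ) -
        ((Finset.univ.filter (fun r => ty r = false)).card : ℝ)) / 2 := by
    have e1 : ∀ c : Bool, ∑ a ∈ S, sg c a = ((Finset.univ.filter (fun r => ty r = c)).card : ℝ) := by
      intro c
      have := hfib c (fun _ => 1)
      simp only [mul_one] at this
      rw [← this, Finset.card_eq_sum_ones, Nat.cast_sum, Finset.sum_filter]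
      refine Finset.sum_congr rfl fun r _ => ?_
      split_ifs <;> simp
    rw [hu]
    simp only
    rw [← Finset.sum_div, Finset.sum_sub_distrib, e1, e1]
  have husq : ∑ a ∈ S, (u a) ^ 2 ≤ (9 / 4) * (2 * L + 1) := by
    calc ∑ a ∈ S, (u a) ^ 2 ≤ ∑ a ∈ S, (9 / 4 : ℝ) := by
          refine Finset.sum_le_sum fun a _ => ?_
          rw [hu]
          simp only
          have h1 := hs3 a
          have h2 := hs0 true a
          have h4 := hs0 false a
          have h5 : |sg true a - sg false a| ≤ 3 := by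
            rw [abs_le]; constructor <;> linarith
          have h6 : (sg true a - sg false a) ^ 2 ≤ 9 := by
            rw [← sq_abs]
            nlinarith [abs_nonneg (sg true a - sg false a)]
          rw [div_pow]
          linarith
      _ = (9 / 4) * (2 * L + 1) := by
          rw [Finset.sum_const, nsmul_eq_mul, hcardS]; ring
  have hexp : ∑ a ∈ S, ∑ b ∈ S, (sg true a * sg true b + sg false a * sg false b) * gker a b =
      ∑ a ∈ S, ∑ b ∈ S, (sg true a + sg false a) * (sg true b + sg false b) / 2 *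
        Real.log |((a : ℝ) - b)| +
      2 * ∑ a ∈ S, ∑ b ∈ S, u a * u b * Real.log |((a : ℝ) - b)| +
      ∑ a ∈ S, ∑ b ∈ S, (sg true a * sg true b + sg false a * sg false b) *
        (1 / (2 * |((a : ℝ) - b)|)) := by
    rw [Finset.mul_sum, ← Finset.sum_add_distrib, ← Finset.sum_add_distrib]
    refine Finset.sum_congr rfl fun a _ => ?_
    rw [Finset.mul_sum, ← Finset.sum_add_distrib, ← Finset.sum_add_distrib]
    refine Finset.sum_congr rfl fun b _ => ?_
    rw [gker, mul_add, hprod]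
    ring
  rw [hexp]
  have hl2 : 0 ≤ Real.log 2 := Real.log_nonneg (by norm_num)
  have hA : 2 * ∑ a ∈ S, ∑ b ∈ S, u a * u b * Real.log |((a : ℝ) - b)| ≤
      (((Finset.univ.filter (fun r => ty r = true)).card : ℝ) -
        ((Finset.univ.filter (fun r => ty r = false)).card : ℝ)) ^ 2 / 2 * Real.log (2 * L + 1) +
      (9 / 2) * Real.log 2 * (2 * L + 1) := by
    have e : Real.log ((2 * L + 1 : ℕ) : ℝ) = Real.log (2 * L + 1) := by push_cast; rfl
    rw [e, husum] at hlog2
    have h7 : Real.log 2 * ∑ a ∈ S, (u a) ^ 2 ≤ Real.log 2 * ((9 / 4) * (2 * L + 1)) :=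
      mul_le_mul_of_nonneg_left husq hl2
    nlinarith
  linarith

end Pool.Agent.H30.MM

end

section

/-!
# Determinants with rows `(z^i | 0)` and `(0 | z^i)`
-/

namespace Pool.Agent.H30.MM

open Finset

/-- The square of the norm of a Vandermonde determinant. -/
theorem norm_vdm_sq {n : ℕ} (v : Fin n → ℂ) :
    ‖(Matrix.vandermonde v).det‖ ^ 2 = ∏ i, ∏ j, if i = j then (1 : ℝ) else ‖v i - v j‖ := by
  classical
  rw [Matrix.det_vandermonde, norm_prod]
  simp only [norm_prod]
  -- the product over ordered pairs splits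
  have h1 : (∏ i, ∏ j, if i = j then (1 : ℝ) else ‖v i - v j‖) =
      (∏ i, ∏ j ∈ Ioi i, ‖v j - v i‖) * (∏ i, ∏ j ∈ Iio i, ‖v j - v i‖) := by
    rw [← Finset.prod_mul_distrib]
    refine Finset.prod_congr rfl fun i _ => ?_
    have h2 : (∏ j, if i = j then (1 : ℝ) else ‖v i - v j‖) =
        ∏ j ∈ Finset.univ.erase i, ‖v j - v i‖ := by
      rw [← Finset.mul_prod_erase Finset.univ _ (Finset.mem_univ i), if_pos rfl, one_mul]
      refine Finset.prod_congr rfl fun j hj => ?_
      rw [if_neg (Finset.ne_of_mem_erase hj).symm, norm_sub_rev]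
    rw [h2, ← Finset.prod_union]
    · refine Finset.prod_congr ?_ fun _ _ => rfl
      ext j
      simp only [Finset.mem_erase, Finset.mem_univ, and_true, Finset.mem_union, Finset.mem_Ioi,
        Finset.mem_Iio]
      constructor
      · intro h
        rcases lt_or_gt_of_ne h with h | h
        · exact Or.inr h
        · exact Or.inl h
      · rintro (h | h)
        · exact ne_of_gt h
        · exact ne_of_lt h
    · rw [Finset.disjoint_left]
      intro j hj hj'
      exact absurd (Finset.mem_Ioi.1 hj) (not_lt.2 (Finset.mem_Iio.1 hj').le)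
  have h3 : (∏ i, ∏ j ∈ Iio i, ‖v j - v i‖) = ∏ i, ∏ j ∈ Ioi i, ‖v j - v i‖ := by
    have e1 : (∏ i, ∏ j ∈ Iio i, ‖v j - v i‖) =
        ∏ i, ∏ j, if j < i then ‖v j - v i‖ else 1 := by
      refine Finset.prod_congr rfl fun i _ => ?_
      rw [← Finset.prod_filter]
      refine Finset.prod_congr ?_ fun _ _ => rfl
      ext j; simp
    have e2 : (∏ i, ∏ j ∈ Ioi i, ‖v j - v i‖) =
        ∏ i, ∏ j, if i < j then ‖v j - v i‖ else 1 := by
      refine Finset.prod_congr rfl fun i _ => ?_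
      rw [← Finset.prod_filter]
      refine Finset.prod_congr ?_ fun _ _ => rfl
      ext j; simp
    rw [e1, e2, Finset.prod_comm]
    refine Finset.prod_congr rfl fun i _ => Finset.prod_congr rfl fun j _ => ?_
    split_ifs
    · exact norm_sub_rev _ _
    · rfl
  rw [h1, h3, sq]

variable {ι : Type*} [Fintype ι] [DecidableEq ι]

/-- The typed row. -/
noncomputable def trow (n1 n2 : ℕ) (ty : Bool) (z : ℂ) : Fin n1 ⊕ Fin n2 → ℂ :=
  Sum.elim (fun i => if ty then z ^ (i : ℕ) else 0) (fun i => if ty then 0 else z ^ (i : ℕ))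

/-- The determinant with typed rows. -/
theorem norm_det_trow_sq (n1 n2 : ℕ) (ty : Fin n1 ⊕ Fin n2 → Bool) (z : Fin n1 ⊕ Fin n2 → ℂ) :
    ‖(Matrix.of fun r => trow n1 n2 (ty r) (z r)).det‖ ^ 2 ≤
      (if (Finset.univ.filter (fun r => ty r = true)).card = n1 then
        ∏ r, ∏ s, if r ≠ s ∧ ty r = ty s then ‖z r - z s‖ else 1 else 0) := by
  classical
  by_cases hc : (Finset.univ.filter (fun r => ty r = true)).card = n1
  · rw [if_pos hc]
    -- the equivalence
    have hcA : Fintype.card {r // ty r = true} = n1 := by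
      rw [Fintype.card_subtype]; exact hc
    have hcB : Fintype.card {r // ¬ ty r = true} = n2 := by
      rw [Fintype.card_subtype_compl, hcA]
      simp
    let eA : Fin n1 ≃ {r // ty r = true} := (Fintype.equivFinOfCardEq hcA).symm
    let eB : Fin n2 ≃ {r // ¬ ty r = true} := (Fintype.equivFinOfCardEq hcB).symm
    let e : Fin n1 ⊕ Fin n2 ≃ Fin n1 ⊕ Fin n2 :=
      (Equiv.sumCongr eA eB).trans (Equiv.sumCompl (fun r => ty r = true))
    have heA : ∀ i, ty (e (Sum.inl i)) = true := by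
      intro i
      simp only [e, Equiv.trans_apply, Equiv.sumCongr_apply, Sum.map_inl,
        Equiv.sumCompl_apply_inl]
      exact (eA i).2
    have heB : ∀ i, ty (e (Sum.inr i)) = false := by
      intro i
      simp only [e, Equiv.trans_apply, Equiv.sumCongr_apply, Sum.map_inr,
        Equiv.sumCompl_apply_inr]
      exact Bool.eq_false_iff.2 (eB i).2
    set M : Matrix (Fin n1 ⊕ Fin n2) (Fin n1 ⊕ Fin n2) ℂ :=
      Matrix.of fun r => trow n1 n2 (ty r) (z r) with hM
    have hdet : M.submatrix e id = Matrix.fromBlocks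
        (Matrix.vandermonde (fun i => z (e (Sum.inl i)))) 0 0
        (Matrix.vandermonde (fun i => z (e (Sum.inr i)))) := by
      have hsub : ∀ r c, (M.submatrix e id) r c = trow n1 n2 (ty (e r)) (z (e r)) c :=
        fun r c => rfl
      ext r c
      rw [hsub]
      rcases r with r | r <;> rcases c with c | c <;>
        simp [trow, heA, heB, Matrix.vandermonde]
    have hperm : ‖M.det‖ = ‖(M.submatrix e id).det‖ := by
      have h1 := Matrix.det_permute e M
      have : (M.submatrix e id).det = (Equiv.Perm.sign e : ℤ) * M.det := by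
        rw [← h1]
      rw [this, norm_mul]
      rcases Int.units_eq_one_or (Equiv.Perm.sign e) with h | h <;> rw [h] <;> simp
    rw [hperm, hdet, Matrix.det_fromBlocks_zero₂₁, norm_mul, mul_pow, norm_vdm_sq, norm_vdm_sq]
    -- reindex the right side
    have hR : (∏ r, ∏ s, if r ≠ s ∧ ty r = ty s then ‖z r - z s‖ else (1 : ℝ)) =
        ∏ r, ∏ s, if e r ≠ e s ∧ ty (e r) = ty (e s) then ‖z (e r) - z (e s)‖ else (1 : ℝ) := by
      rw [← Equiv.prod_comp e]
      refine Finset.prod_congr rfl fun r _ => ?_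
      rw [← Equiv.prod_comp e]
    rw [hR, Fintype.prod_sum_type]
    simp only [Fintype.prod_sum_type, heA, heB, EmbeddingLike.apply_eq_iff_eq, ne_eq,
      Sum.inl.injEq, Sum.inr.injEq, and_true, Bool.true_eq_false, Bool.false_eq_true, and_false,
      if_false, Finset.prod_const_one, mul_one, one_mul, reduceCtorEq, not_false_eq_true]
    apply le_of_eq
    congr 1
    · refine Finset.prod_congr rfl fun i _ => Finset.prod_congr rfl fun j _ => ?_
      by_cases h : i = j
      · simp [h]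
      · simp [h]
    · refine Finset.prod_congr rfl fun i _ => Finset.prod_congr rfl fun j _ => ?_
      by_cases h : i = j
      · simp [h]
      · simp [h]
  · rw [if_neg hc]
    have hdet : (Matrix.of fun r => trow n1 n2 (ty r) (z r)).det = 0 := by
      rw [Matrix.det_apply]
      apply Finset.sum_eq_zero
      intro σ _
      -- some row of the wrong type
      have : ∃ c, trow n1 n2 (ty (σ c)) (z (σ c)) c = 0 := by
        by_contra hcon
        push Not at hcon
        apply hc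
        have h1 : ∀ i : Fin n1, ty (σ (Sum.inl i)) = true := by
          intro i
          by_contra h
          apply hcon (Sum.inl i)
          simp [trow, Bool.eq_false_iff.2 h]
        have h2 : ∀ i : Fin n2, ty (σ (Sum.inr i)) = false := by
          intro i
          by_contra h
          apply hcon (Sum.inr i)
          simp [trow, Bool.eq_false_iff.not_left.1 h]
        have h3 : (Finset.univ.filter (fun r => ty r = true)) =
            (Finset.univ : Finset (Fin n1)).image (fun i => σ (Sum.inl i)) := by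
          ext r
          simp only [Finset.mem_filter, Finset.mem_univ, true_and, Finset.mem_image]
          constructor
          · intro hr
            rcases hs : σ.symm r with i | i
            · exact ⟨i, by rw [← hs]; simp⟩
            · exfalso
              have := h2 i
              rw [← hs] at this
              simp [hr] at this
          · rintro ⟨i, rfl⟩
            exact h1 i
        rw [h3, Finset.card_image_of_injective]
        · simp
        · intro i j hij
          exact Sum.inl_injective (σ.injective hij)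
      obtain ⟨c, hc'⟩ := this
      rw [Finset.prod_eq_zero (Finset.mem_univ c) (by rw [Matrix.of_apply]; exact hc'), smul_zero]
    rw [hdet]
    simp

end Pool.Agent.H30.MM

end

section

/-!
# The archimedean bound: conclusion
-/

namespace Pool.Agent.H30.MM

open Finset

/-- The determinant of a typed configuration near integer nodes. -/
theorem norm_det_near (n1 n2 L : ℕ) (node : Fin n1 ⊕ Fin n2 → ℤ)
    (hnode : ∀ r, node r ∈ Finset.Icc (-(L : ℤ)) L)
    (h3 : ∀ a, (Finset.univ.filter (fun r => node r = a)).card ≤ 3)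
    (ty : Fin n1 ⊕ Fin n2 → Bool) (x : Fin n1 ⊕ Fin n2 → ℂ) (hx : ∀ r, ‖x r‖ ≤ 1 / 4) :
    ‖(Matrix.of fun r => trow n1 n2 (ty r) ((node r : ℂ) + x r)).det‖ ≤
      Real.exp ((9 / 4) * Lam L + ((n1 : ℝ) - n2) ^ 2 / 4 * Real.log (2 * L + 1) +
      (9 / 4) * Real.log 2 * (2 * L + 1) + (9 / 2) * (2 * L + 1) * (1 + Real.log (2 * L + 1))) := by
  classical
  set X : ℝ := (9 / 4) * Lam L + ((n1 : ℝ) - n2) ^ 2 / 4 * Real.log (2 * L + 1) +
      (9 / 4) * Real.log 2 * (2 * L + 1) + (9 / 2) * (2 * L + 1) * (1 + Real.log (2 * L + 1))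
    with hX
  have hsq := norm_det_trow_sq n1 n2 ty (fun r => (node r : ℂ) + x r)
  have hexp2 : Real.exp X ^ 2 = Real.exp (2 * X) := by
    rw [← Real.exp_nat_mul]; norm_num
  apply le_of_sq_le_sq _ (Real.exp_nonneg X)
  rw [hexp2]
  refine hsq.trans ?_
  by_cases hc : (Finset.univ.filter (fun r => ty r = true)).card = n1
  · rw [if_pos hc]
    have hcB : (Finset.univ.filter (fun r => ty r = false)).card = n2 := by
      have h1 := Finset.card_filter_add_card_filter_not (s := (Finset.univ : Finset (Fin n1 ⊕ Fin n2)))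
        (fun r => ty r = true)
      have h2 : (Finset.univ.filter (fun r => ¬ ty r = true)) =
          Finset.univ.filter (fun r => ty r = false) := by
        ext r; simp
      rw [h2, hc] at h1
      simp at h1
      omega
    have hE := energy_le L node ty hnode h3
    rw [hc, hcB] at hE
    have h1 : (∏ r, ∏ s, if r ≠ s ∧ ty r = ty s then
        ‖((node r : ℂ) + x r) - ((node s : ℂ) + x s)‖ else (1 : ℝ)) ≤
        ∏ r, ∏ s, Real.exp (if ty r = ty s then gker (node r) (node s) else 0) := by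
      refine Finset.prod_le_prod (fun r _ => Finset.prod_nonneg fun s _ => ?_) fun r _ => ?_
      · split_ifs
        · exact norm_nonneg _
        · exact zero_le_one
      · refine Finset.prod_le_prod (fun s _ => ?_) fun s _ => ?_
        · split_ifs
          · exact norm_nonneg _
          · exact zero_le_one
        · by_cases hts : ty r = ty s
          · by_cases hrs : r = s
            · subst hrs
              rw [if_neg (fun h => h.1 rfl), if_pos rfl, gker_self, Real.exp_zero]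
            · rw [if_pos ⟨hrs, hts⟩, if_pos hts]
              exact norm_le_exp_gker _ _ _ _ (hx r) (hx s)
          · rw [if_neg (fun h => hts h.2), if_neg hts, Real.exp_zero]
    refine h1.trans ?_
    simp only [← Real.exp_sum]
    apply Real.exp_le_exp.2
    refine hE.trans (le_of_eq ?_)
    rw [hX]; ring
  · rw [if_neg hc]
    exact Real.exp_nonneg _

/-- **The archimedean bound.** -/
theorem jet_det_le (n1 n2 L : ℕ) (F : ℤ → ℕ → ℝ) (C0 : ℝ)
    (hF : ∀ a ∈ Finset.Icc (-(L : ℤ)) L, ∀ k ≤ 2, |F a k| ≤ C0)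
    (node : Fin n1 ⊕ Fin n2 → ℤ) (ord : Fin n1 ⊕ Fin n2 → ℕ)
    (hinj : Function.Injective (fun r => (node r, ord r)))
    (hnode : ∀ r, node r ∈ Finset.Icc (-(L : ℤ)) L) (hord : ∀ r, ord r ≤ 2) :
    |(Matrix.of fun r => jrow n1 n2 F (node r) (ord r)).det| ≤
      (16 + 21 * C0) ^ (n1 + n2) *
      Real.exp ((9 / 4) * Lam L + ((n1 : ℝ) - n2) ^ 2 / 4 * Real.log (2 * L + 1) +
      (9 / 4) * Real.log 2 * (2 * L + 1) + (9 / 2) * (2 * L + 1) * (1 + Real.log (2 * L + 1))) := by
  classical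
  set M : ℕ := n1 + n2 + 3 with hM
  have hM0 : (0 : ℝ) < M := by
    have : 0 < M := by omega
    exact_mod_cast this
  -- at most three rows per node
  have h3 : ∀ a, (Finset.univ.filter (fun r => node r = a)).card ≤ 3 := by
    intro a
    have h1 : (Finset.univ.filter (fun r => node r = a)).card ≤ (Finset.range 3).card := by
      apply Finset.card_le_card_of_injOn ord
      · intro r _
        have := hord r
        simp only [Finset.coe_range, Set.mem_Iio]
        omega
      · intro r hr s hs hrs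
        apply hinj
        have e1 : node r = a := by simpa using hr
        have e2 : node s = a := by simpa using hs
        exact Prod.ext (e1.trans e2.symm) hrs
    simpa using h1
  -- coefficients and vectors
  let c : (Fin n1 ⊕ Fin n2) → (Bool × Fin M) → ℂ := fun r s =>
    if s.1 then dftc M (ord r) s.2 else
      - ∑ k ∈ range (ord r + 1), (F (node r) (ord r - k) : ℂ) * dftc M k s.2
  let V : (Fin n1 ⊕ Fin n2) → (Bool × Fin M) → (Fin n1 ⊕ Fin n2) → ℂ := fun r s =>
    trow n1 n2 s.1 ((node r : ℂ) + dftz M s.2)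
  have hV : ∀ f : (Fin n1 ⊕ Fin n2) → (Bool × Fin M),
      ‖(Matrix.of fun r => V r (f r)).det‖ ≤
      Real.exp ((9 / 4) * Lam L + ((n1 : ℝ) - n2) ^ 2 / 4 * Real.log (2 * L + 1) +
      (9 / 4) * Real.log 2 * (2 * L + 1) +
        (9 / 2) * (2 * L + 1) * (1 + Real.log (2 * L + 1))) := by
    intro f
    exact norm_det_near n1 n2 L node hnode h3 (fun r => (f r).1) (fun r => dftz M (f r).2)
      (fun r => le_of_eq (norm_dftz M _))
  have hdet := det_sum_rows c V _ hV
  -- the row identity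
  have hrow : ∀ r k, ∑ s, c r s * V r s k = ((jrow n1 n2 F (node r) (ord r) k : ℝ) : ℂ) := by
    intro r k
    rw [Fintype.sum_prod_type, Fintype.sum_bool]
    rcases k with i | i
    · have h0 : ∑ w : Fin M, c r (false, w) * V r (false, w) (Sum.inl i) = 0 := by
        apply Finset.sum_eq_zero
        intro w _
        simp [V, trow]
      rw [h0, add_zero]
      have hi : (i : ℕ) < M := by have := i.2; omega
      have hj : ord r < M := by have := hord r; omega
      have h1 := dft_monomial M i (ord r) hi hj (node r : ℂ)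
      have h2 : ∑ w : Fin M, c r (true, w) * V r (true, w) (Sum.inl i) =
          ∑ w ∈ range M, dftc M (ord r) w * ((node r : ℂ) + dftz M w) ^ (i : ℕ) := by
        rw [← Fin.sum_univ_eq_sum_range (fun w => dftc M (ord r) w *
          ((node r : ℂ) + dftz M w) ^ (i : ℕ)) M]
        refine Finset.sum_congr rfl fun w _ => ?_
        simp [c, V, trow]
      rw [h2, ← h1]
      simp [jrow]
    · have h0 : ∑ w : Fin M, c r (true, w) * V r (true, w) (Sum.inr i) = 0 := by
        apply Finset.sum_eq_zero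
        intro w _
        simp [V, trow]
      rw [h0, zero_add]
      have hi : (i : ℕ) < M := by have := i.2; omega
      have h2 : ∑ w : Fin M, c r (false, w) * V r (false, w) (Sum.inr i) =
          - ∑ k ∈ range (ord r + 1), (F (node r) (ord r - k) : ℂ) *
            ∑ w ∈ range M, dftc M k w * ((node r : ℂ) + dftz M w) ^ (i : ℕ) := by
        have e1 : ∀ w : Fin M, c r (false, w) * V r (false, w) (Sum.inr i) =
            - ∑ k ∈ range (ord r + 1), (F (node r) (ord r - k) : ℂ) *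
              (dftc M k w * ((node r : ℂ) + dftz M w) ^ (i : ℕ)) := by
          intro w
          simp only [c, V, trow, Sum.elim_inr, Bool.false_eq_true, if_false, neg_mul]
          rw [Finset.sum_mul]
          congr 1
          refine Finset.sum_congr rfl fun k _ => ?_
          ring
        rw [Finset.sum_congr rfl fun w _ => e1 w, Finset.sum_neg_distrib, Finset.sum_comm]
        congr 1
        refine Finset.sum_congr rfl fun k _ => ?_
        rw [← Finset.mul_sum]
        congr 1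
        rw [← Fin.sum_univ_eq_sum_range (fun w => dftc M k w *
          ((node r : ℂ) + dftz M w) ^ (i : ℕ)) M]
      rw [h2]
      have e3 : ∀ k ∈ range (ord r + 1), (F (node r) (ord r - k) : ℂ) *
            ∑ w ∈ range M, dftc M k w * ((node r : ℂ) + dftz M w) ^ (i : ℕ) =
          (F (node r) (ord r - k) : ℂ) * ((((i : ℕ).choose k : ℕ) : ℂ) *
            (node r : ℂ) ^ ((i : ℕ) - k)) := by
        intro k hk
        have hk' : k < M := by
          have := Finset.mem_range.1 hk
          have := hord r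
          omega
        rw [dft_monomial M i k hi hk' (node r : ℂ)]
      rw [Finset.sum_congr rfl e3]
      simp [jrow]
  have hmat : (Matrix.of fun r k => ∑ s, c r s * V r s k) =
      (Matrix.of fun r => jrow n1 n2 F (node r) (ord r)).map (algebraMap ℝ ℂ) := by
    ext r k
    rw [Matrix.map_apply, Matrix.of_apply, Matrix.of_apply, hrow]
    rfl
  rw [hmat] at hdet
  have hdet2 : ‖((Matrix.of fun r => jrow n1 n2 F (node r) (ord r)).map (algebraMap ℝ ℂ)).det‖ =
      |(Matrix.of fun r => jrow n1 n2 F (node r) (ord r)).det| := by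
    have := RingHom.map_det (algebraMap ℝ ℂ) (Matrix.of fun r => jrow n1 n2 F (node r) (ord r))
    rw [RingHom.mapMatrix_apply] at this
    rw [← this, Complex.coe_algebraMap, Complex.norm_real, Real.norm_eq_abs]
  rw [hdet2] at hdet
  refine hdet.trans ?_
  apply mul_le_mul_of_nonneg_right _ (Real.exp_nonneg _)
  -- the coefficient sums
  have hcs : ∀ r, ∑ s, ‖c r s‖ ≤ 16 + 21 * C0 := by
    intro r
    have hC0 : 0 ≤ C0 := (abs_nonneg _).trans (hF (node r) (hnode r) 0 (by norm_num))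
    have hpow : ∀ k, k ≤ 2 → (4 : ℝ) ^ k ≤ 16 := by
      intro k hk
      calc (4 : ℝ) ^ k ≤ 4 ^ 2 := pow_le_pow_right₀ (by norm_num) hk
        _ = 16 := by norm_num
    rw [Fintype.sum_prod_type, Fintype.sum_bool]
    have h1 : ∑ w : Fin M, ‖c r (true, w)‖ ≤ 16 := by
      have : ∀ w : Fin M, ‖c r (true, w)‖ = (4 : ℝ) ^ (ord r) / M := by
        intro w
        simp only [c, if_true]
        exact norm_dftc M _ _
      rw [Finset.sum_congr rfl fun w _ => this w, Finset.sum_const, Finset.card_univ,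
        Fintype.card_fin, nsmul_eq_mul, mul_div_cancel₀ _ hM0.ne']
      exact hpow _ (hord r)
    have h2 : ∑ w : Fin M, ‖c r (false, w)‖ ≤ 21 * C0 := by
      have h3 : ∀ w : Fin M, ‖c r (false, w)‖ ≤ 21 * C0 / M := by
        intro w
        simp only [c, Bool.false_eq_true, if_false, norm_neg]
        refine (norm_sum_le _ _).trans ?_
        have h4 : ∀ k ∈ range (ord r + 1), ‖(F (node r) (ord r - k) : ℂ) * dftc M k w‖ ≤
            C0 * ((4 : ℝ) ^ k / M) := by
          intro k hk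
          rw [norm_mul, norm_dftc, Complex.norm_real, Real.norm_eq_abs]
          apply mul_le_mul_of_nonneg_right _ (by positivity)
          exact hF _ (hnode r) _ (by have := hord r; omega)
        refine (Finset.sum_le_sum h4).trans ?_
        have h5 : ∑ k ∈ range (ord r + 1), C0 * ((4 : ℝ) ^ k / M) ≤
            ∑ k ∈ range 3, C0 * ((4 : ℝ) ^ k / M) := by
          apply Finset.sum_le_sum_of_subset_of_nonneg
          · intro k hk
            have := Finset.mem_range.1 hk
            have := hord r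
            exact Finset.mem_range.2 (by omega)
          · intro k _ _
            positivity
        refine h5.trans (le_of_eq ?_)
        simp only [Finset.sum_range_succ, Finset.sum_range_zero]
        ring
      refine (Finset.sum_le_sum fun w _ => h3 w).trans (le_of_eq ?_)
      rw [Finset.sum_const, Finset.card_univ, Fintype.card_fin, nsmul_eq_mul,
        mul_div_cancel₀ _ hM0.ne']
    linarith
  calc ∏ r, ∑ s, ‖c r s‖ ≤ ∏ _r : Fin n1 ⊕ Fin n2, (16 + 21 * C0) :=
        Finset.prod_le_prod (fun r _ => Finset.sum_nonneg fun s _ => norm_nonneg _)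
          fun r _ => hcs r
    _ = (16 + 21 * C0) ^ (n1 + n2) := by
        rw [Finset.prod_const, Finset.card_univ, Fintype.card_sum, Fintype.card_fin,
          Fintype.card_fin]

end Pool.Agent.H30.MM

end

section

/-!
# The double sum of logarithms and the final form of the archimedean bound
-/

namespace Pool.Agent.H30.MM

open Finset

theorem log_factorial_eq (n : ℕ) : Real.log (n.factorial : ℝ) =
    ∑ k ∈ range n, Real.log ((k : ℝ) + 1) := by
  induction n with
  | zero => simp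
  | succ n ih =>
    rw [Finset.sum_range_succ, ← ih, Nat.factorial_succ]
    push_cast
    rw [Real.log_mul (by positivity) (by exact_mod_cast n.factorial_ne_zero)]
    ring

/-- The double sum is twice the sum of the logarithms of the factorials. -/
theorem Lam_eq (L : ℕ) : Lam L = 2 * ∑ i ∈ range (2 * L + 1), Real.log (i.factorial : ℝ) := by
  classical
  have hrow : ∀ a ∈ Finset.Icc (-(L : ℤ)) L,
      ∑ b ∈ Finset.Icc (-(L : ℤ)) L, Real.log |((a : ℝ) - b)| =
        Real.log (((a + L).toNat.factorial : ℕ) : ℝ) +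
          Real.log ((((L : ℤ) - a).toNat.factorial : ℕ) : ℝ) := by
    intro a ha
    have ha' := Finset.mem_Icc.1 ha
    have hsplit : Finset.Icc (-(L : ℤ)) L =
        Finset.Ico (-(L : ℤ)) a ∪ ({a} ∪ Finset.Ioc a (L : ℤ)) := by
      ext b
      simp only [Finset.mem_Icc, Finset.mem_union, Finset.mem_Ico, Finset.mem_singleton,
        Finset.mem_Ioc]
      omega
    have hd1 : Disjoint (Finset.Ico (-(L : ℤ)) a) ({a} ∪ Finset.Ioc a (L : ℤ)) := by
      rw [Finset.disjoint_left]
      intro b hb hb'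
      simp only [Finset.mem_union, Finset.mem_Ico, Finset.mem_singleton, Finset.mem_Ioc] at hb hb'
      omega
    have hd2 : Disjoint ({a} : Finset ℤ) (Finset.Ioc a (L : ℤ)) := by
      rw [Finset.disjoint_left]
      intro b hb hb'
      simp only [Finset.mem_singleton, Finset.mem_Ioc] at hb hb'
      omega
    rw [hsplit, Finset.sum_union hd1, Finset.sum_union hd2, Finset.sum_singleton]
    have e0 : Real.log |((a : ℝ) - a)| = 0 := by simp
    have e1 : ∑ b ∈ Finset.Ico (-(L : ℤ)) a, Real.log |((a : ℝ) - b)| =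
        Real.log (((a + L).toNat.factorial : ℕ) : ℝ) := by
      rw [log_factorial_eq]
      symm
      refine Finset.sum_bij' (fun k _ => a - 1 - (k : ℤ)) (fun b _ => (a - 1 - b).toNat)
        ?_ ?_ ?_ ?_ ?_
      · intro k hk
        have := Finset.mem_range.1 hk
        simp only [Finset.mem_Ico]
        omega
      · intro b hb
        have := Finset.mem_Ico.1 hb
        simp only [Finset.mem_range]
        omega
      · intro k hk
        omega
      · intro b hb
        have := Finset.mem_Ico.1 hb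
        omega
      · intro k hk
        have : ((a : ℝ) - ((a - 1 - (k : ℤ) : ℤ) : ℝ)) = (k : ℝ) + 1 := by push_cast; ring
        rw [this, abs_of_nonneg (by positivity)]
    have e2 : ∑ b ∈ Finset.Ioc a (L : ℤ), Real.log |((a : ℝ) - b)| =
        Real.log ((((L : ℤ) - a).toNat.factorial : ℕ) : ℝ) := by
      rw [log_factorial_eq]
      symm
      refine Finset.sum_bij' (fun k _ => a + 1 + (k : ℤ)) (fun b _ => (b - a - 1).toNat)
        ?_ ?_ ?_ ?_ ?_
      · intro k hk
        have := Finset.mem_range.1 hk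
        simp only [Finset.mem_Ioc]
        omega
      · intro b hb
        have := Finset.mem_Ioc.1 hb
        simp only [Finset.mem_range]
        omega
      · intro k hk
        omega
      · intro b hb
        have := Finset.mem_Ioc.1 hb
        omega
      · intro k hk
        have : ((a : ℝ) - ((a + 1 + (k : ℤ) : ℤ) : ℝ)) = -((k : ℝ) + 1) := by push_cast; ring
        rw [this, abs_neg, abs_of_nonneg (by positivity)]
    rw [e0, e1, e2]
    ring
  rw [Lam, Finset.sum_congr rfl hrow, Finset.sum_add_distrib]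
  have f1 : ∑ a ∈ Finset.Icc (-(L : ℤ)) L, Real.log (((a + L).toNat.factorial : ℕ) : ℝ) =
      ∑ i ∈ range (2 * L + 1), Real.log (i.factorial : ℝ) := by
    symm
    refine Finset.sum_bij' (fun k _ => (k : ℤ) - L) (fun a _ => (a + L).toNat) ?_ ?_ ?_ ?_ ?_
    · intro k hk
      have := Finset.mem_range.1 hk
      simp only [Finset.mem_Icc]
      omega
    · intro a ha
      have := Finset.mem_Icc.1 ha
      simp only [Finset.mem_range]
      omega
    · intro k hk
      omega
    · intro a ha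
      have := Finset.mem_Icc.1 ha
      omega
    · intro k hk
      have : ((k : ℤ) - L + L).toNat = k := by omega
      rw [this]
  have f2 : ∑ a ∈ Finset.Icc (-(L : ℤ)) L, Real.log ((((L : ℤ) - a).toNat.factorial : ℕ) : ℝ) =
      ∑ i ∈ range (2 * L + 1), Real.log (i.factorial : ℝ) := by
    symm
    refine Finset.sum_bij' (fun k _ => (L : ℤ) - k) (fun a _ => ((L : ℤ) - a).toNat) ?_ ?_ ?_ ?_ ?_
    · intro k hk
      have := Finset.mem_range.1 hk
      simp only [Finset.mem_Icc]
      omega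
    · intro a ha
      have := Finset.mem_Icc.1 ha
      simp only [Finset.mem_range]
      omega
    · intro k hk
      omega
    · intro a ha
      have := Finset.mem_Icc.1 ha
      omega
    · intro k hk
      have : ((L : ℤ) - ((L : ℤ) - (k : ℤ))).toNat = k := by omega
      rw [this]
  rw [f1, f2]
  ring

/-- `log (n - 1) ≤ log n - 1 / n`. -/
private theorem log_pred_le (n : ℕ) (hn : 1 ≤ n) :
    Real.log (n : ℝ) ≤ Real.log ((n : ℝ) + 1) - 1 / ((n : ℝ) + 1) := by
  have hn' : (0 : ℝ) < n := by exact_mod_cast hn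
  have h1 : Real.log ((n : ℝ) / ((n : ℝ) + 1)) ≤ (n : ℝ) / ((n : ℝ) + 1) - 1 :=
    Real.log_le_sub_one_of_pos (by positivity)
  rw [Real.log_div hn'.ne' (by positivity)] at h1
  have h2 : (n : ℝ) / ((n : ℝ) + 1) - 1 = - (1 / ((n : ℝ) + 1)) := by
    field_simp
    ring
  rw [h2] at h1
  linarith

/-- Upper bound for `∑ j log j`. -/
theorem sum_mul_log_le (n : ℕ) :
    ∑ j ∈ range (n + 1), ((j : ℝ) + 1) * Real.log ((j : ℝ) + 1) ≤
      ((n : ℝ) + 1) ^ 2 / 2 * Real.log ((n : ℝ) + 1) - ((n : ℝ) + 1) ^ 2 / 4 +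
        ((n : ℝ) + 1) * Real.log ((n : ℝ) + 1) + 1 / 4 := by
  induction n with
  | zero => simp
  | succ n ih =>
    rw [Finset.sum_range_succ]
    have hlog := log_pred_le (n + 1) (by omega)
    push_cast at hlog ⊢
    set x : ℝ := (n : ℝ) + 1 with hx
    have hx1 : 1 ≤ x := by
      have : (0 : ℝ) ≤ n := Nat.cast_nonneg n
      linarith
    set l1 : ℝ := Real.log x with hl1
    set l2 : ℝ := Real.log (x + 1) with hl2
    have hl0 : 0 ≤ l2 := Real.log_nonneg (by linarith)
    -- coefficient of the smaller logarithm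
    have hc : 0 ≤ x ^ 2 / 2 + x := by positivity
    have h1 : (x ^ 2 / 2 + x) * l1 ≤ (x ^ 2 / 2 + x) * (l2 - 1 / (x + 1)) :=
      mul_le_mul_of_nonneg_left hlog hc
    have h2 : (x ^ 2 / 2 + x) * (1 / (x + 1)) = ((x + 1) - 1 / (x + 1)) / 2 := by
      field_simp
      ring
    have h3 : 1 / (x + 1) ≤ 1 / 2 := by
      apply one_div_le_one_div_of_le (by norm_num) (by linarith)
    have h4 : (x ^ 2 / 2 + x) * (l2 - 1 / (x + 1)) =
        (x ^ 2 / 2 + x) * l2 - ((x + 1) - 1 / (x + 1)) / 2 := by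
      rw [mul_sub, h2]
    rw [h4] at h1
    nlinarith

/-- Upper bound for the logarithm of a factorial. -/
theorem log_factorial_le (i : ℕ) :
    Real.log (i.factorial : ℝ) ≤ ((i : ℝ) + 1) * Real.log ((i : ℝ) + 1) - i := by
  induction i with
  | zero => simp
  | succ n ih =>
    rw [Nat.factorial_succ]
    push_cast
    rw [Real.log_mul (by positivity) (by exact_mod_cast n.factorial_ne_zero)]
    have hlog := log_pred_le (n + 1) (by omega)
    push_cast at hlog
    set x : ℝ := (n : ℝ) + 1 with hx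
    have hx1 : 1 ≤ x := by
      have : (0 : ℝ) ≤ n := Nat.cast_nonneg n
      linarith
    have h1 : (x + 1) * Real.log x ≤ (x + 1) * (Real.log (x + 1) - 1 / (x + 1)) :=
      mul_le_mul_of_nonneg_left hlog (by linarith)
    have h2 : (x + 1) * (Real.log (x + 1) - 1 / (x + 1)) = (x + 1) * Real.log (x + 1) - 1 := by
      field_simp
    rw [h2] at h1
    have : (n : ℝ) = x - 1 := by rw [hx]; ring
    linarith

/-- Upper bound for the sum of the logarithms of the factorials. -/
theorem sum_log_factorial_le (n : ℕ) :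
    ∑ i ∈ range (n + 1), Real.log (i.factorial : ℝ) ≤
      ((n : ℝ) + 1) ^ 2 / 2 * (Real.log ((n : ℝ) + 1) - 3 / 2) +
        ((n : ℝ) + 1) * Real.log ((n : ℝ) + 1) + ((n : ℝ) + 1) / 2 + 1 / 4 := by
  have h1 : ∑ i ∈ range (n + 1), Real.log (i.factorial : ℝ) ≤
      ∑ i ∈ range (n + 1), (((i : ℝ) + 1) * Real.log ((i : ℝ) + 1) - i) :=
    Finset.sum_le_sum fun i _ => log_factorial_le i
  rw [Finset.sum_sub_distrib] at h1
  have h2 : ∑ i ∈ range (n + 1), (i : ℝ) = ((n : ℝ) + 1) * n / 2 := by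
    have := Finset.sum_range_id_mul_two (n + 1)
    have h3 : ((∑ i ∈ range (n + 1), i : ℕ) : ℝ) * 2 = ((n + 1 : ℕ) : ℝ) * ((n + 1 - 1 : ℕ) : ℝ) := by
      exact_mod_cast this
    rw [Nat.add_sub_cancel] at h3
    push_cast at h3
    linarith
  rw [h2] at h1
  have h4 := sum_mul_log_le n
  have h5 : ((n : ℝ) + 1) ^ 2 / 2 * (Real.log ((n : ℝ) + 1) - 3 / 2) +
        ((n : ℝ) + 1) * Real.log ((n : ℝ) + 1) + ((n : ℝ) + 1) / 2 + 1 / 4 =
      (((n : ℝ) + 1) ^ 2 / 2 * Real.log ((n : ℝ) + 1) - ((n : ℝ) + 1) ^ 2 / 4 +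
        ((n : ℝ) + 1) * Real.log ((n : ℝ) + 1) + 1 / 4) - ((n : ℝ) + 1) * n / 2 := by
    ring
  rw [h5]
  linarith

/-- **Logarithmic form of the archimedean bound.** -/
theorem log_jet_det_le (n1 n2 L : ℕ) (F : ℤ → ℕ → ℝ) (C0 : ℝ) (h0 : 0 ≤ C0)
    (hF : ∀ a ∈ Finset.Icc (-(L : ℤ)) L, ∀ k ≤ 2, |F a k| ≤ C0)
    (hn : n1 + n2 ≤ 3 * (2 * L + 1)) (h12 : n1 ≤ n2 + 2) (h21 : n2 ≤ n1 + 2)
    (node : Fin n1 ⊕ Fin n2 → ℤ) (ord : Fin n1 ⊕ Fin n2 → ℕ)
    (hinj : Function.Injective (fun r => (node r, ord r)))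
    (hnode : ∀ r, node r ∈ Finset.Icc (-(L : ℤ)) L) (hord : ∀ r, ord r ≤ 2)
    (hdet : (Matrix.of fun r => jrow n1 n2 F (node r) (ord r)).det ≠ 0) (m : ℝ)
    (hm : m = 2 * L + 1) :
    Real.log |(Matrix.of fun r => jrow n1 n2 F (node r) (ord r)).det| ≤
      (9 / 4) * m ^ 2 * (Real.log m - 3 / 2) + 10 * m * (1 + Real.log m) +
        3 * m * Real.log (16 + 21 * C0) := by
  have hb := jet_det_le n1 n2 L F C0 hF node ord hinj hnode hord
  have hpos : 0 < |(Matrix.of fun r => jrow n1 n2 F (node r) (ord r)).det| := abs_pos.2 hdet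
  have hlog := Real.log_le_log hpos hb
  have hC : 0 < 16 + 21 * C0 := by linarith
  rw [Real.log_mul (pow_ne_zero _ hC.ne') (Real.exp_ne_zero _), Real.log_exp, Real.log_pow]
    at hlog
  have hlC : 0 ≤ Real.log (16 + 21 * C0) := Real.log_nonneg (by linarith)
  have hLam : Lam L ≤ m ^ 2 * (Real.log m - 3 / 2) + 2 * m * Real.log m + m + 1 / 2 := by
    rw [Lam_eq]
    have := sum_log_factorial_le (2 * L)
    push_cast at this
    rw [← hm] at this
    linarith
  have hm1 : 1 ≤ m := by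
    rw [hm]
    have : (0 : ℝ) ≤ L := Nat.cast_nonneg L
    linarith
  have hlm : 0 ≤ Real.log m := Real.log_nonneg hm1
  rw [← hm] at hlog
  have hN : ((n1 + n2 : ℕ) : ℝ) * Real.log (16 + 21 * C0) ≤ 3 * m * Real.log (16 + 21 * C0) := by
    apply mul_le_mul_of_nonneg_right _ hlC
    have : ((n1 + n2 : ℕ) : ℝ) ≤ ((3 * (2 * L + 1) : ℕ) : ℝ) := by exact_mod_cast hn
    push_cast at this ⊢
    rw [hm]; linarith
  have hd : ((n1 : ℝ) - n2) ^ 2 / 4 * Real.log m ≤ m * Real.log m := by
    apply mul_le_mul_of_nonneg_right _ hlm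
    have e1 : (n1 : ℝ) ≤ n2 + 2 := by exact_mod_cast h12
    have e2 : (n2 : ℝ) ≤ n1 + 2 := by exact_mod_cast h21
    have : ((n1 : ℝ) - n2) ^ 2 ≤ 4 := by nlinarith
    linarith
  have hlog2 : Real.log 2 ≤ 3 / 4 := by
    have := Real.log_two_lt_d9
    linarith
  have hl2 : (9 / 4) * Real.log 2 * m ≤ (9 / 4) * (3 / 4) * m := by
    apply mul_le_mul_of_nonneg_right _ (by linarith)
    linarith
  nlinarith

end Pool.Agent.H30.MM

end

section

/-!
# FD splitting, module 4: upper density bounds the Dirichlet sum, with the exact constant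

`ud_sum`: if `G` has upper density at most `e` (logarithmic weights) then for every `η > e`, `η ≥ 0`
`∑_(p ∈ G) p^(-s) ≤ η log (1/(s-1)) + C` for `1 < s < 2`. Hence a set with
`δ log (1/(s-1)) - C ≤ ∑_(p ∈ G) p^(-s)` has upper density at least `δ` (`not_UD_of_sum`).
-/

set_option autoImplicit false

namespace Pool.Agent.H24.FD

open Finset Filter

open Pool.Agent.H71.FD

theorem sum_rpow_le {t : ℝ} (ht : 1 < t) (N : ℕ) : ∑ n ∈ Ioc 1 N, ((n : ℕ) : ℝ) ^ (-t) ≤ 1 / (t - 1) := by
  rcases Nat.lt_or_ge N 1 with hN | hN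
  · have h0 : Ioc 1 N = ∅ := by
      apply Finset.Ioc_eq_empty
      omega
    rw [h0, Finset.sum_empty]
    exact div_nonneg zero_le_one (by linarith)
  have h1 : ∑ n ∈ Ioc 1 N, ((n : ℕ) : ℝ) ^ (-t) = ∑ i ∈ Ico 1 N, (((i + 1 : ℕ)) : ℝ) ^ (-t) := by
    have h2 := Finset.sum_Ico_add' (fun n : ℕ => ((n : ℕ) : ℝ) ^ (-t)) 1 N 1
    rw [h2]
    refine Finset.sum_congr ?_ fun _ _ => rfl
    ext n
    simp only [Finset.mem_Ioc, Finset.mem_Ico]
    omega
  have hanti : AntitoneOn (fun x : ℝ => x ^ (-t)) (Set.Icc ((1 : ℕ) : ℝ) (N : ℝ)) := by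
    intro x hx y _ hxy
    have hx1 : (1 : ℝ) ≤ x := by simpa using hx.1
    exact Real.rpow_le_rpow_of_nonpos (by linarith) hxy (by linarith)
  have h3 := AntitoneOn.sum_le_integral_Ico (f := fun x : ℝ => x ^ (-t)) hN hanti
  rw [h1]
  refine h3.trans ?_
  have hN1 : (1 : ℝ) ≤ N := by exact_mod_cast hN
  rw [integral_rpow]
  · have h4 : (0 : ℝ) ≤ (N : ℝ) ^ (-t + 1) := Real.rpow_nonneg (by linarith) _
    have h5 : (((N : ℝ) ^ (-t + 1) - ((1 : ℕ) : ℝ) ^ (-t + 1)) / (-t + 1)) =
        (1 - (N : ℝ) ^ (-t + 1)) / (t - 1) := by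
      rw [Nat.cast_one, Real.one_rpow, ← neg_div_neg_eq]
      congr 1 <;> ring
    rw [h5]
    exact div_le_div_of_nonneg_right (by linarith) (by linarith)
  · right
    refine ⟨by intro h; linarith, ?_⟩
    rw [Set.uIcc_of_le (by simpa using hN1)]
    intro h
    have := h.1
    norm_num at this

theorem sum_log_le {s : ℝ} (hs : 1 < s) (hs2 : s ≤ 2) (N : ℕ) :
    ∑ n ∈ Ioc 1 N, ((n : ℕ) : ℝ) ^ (-s) / Real.log n ≤ Real.log (1 / (s - 1)) + 1 / Real.log 2 := by
  set H : ℝ → ℝ := fun t => ∑ n ∈ Ioc 1 N, ((n : ℕ) : ℝ) ^ (-t) / Real.log n + Real.log (t - 1) with hH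
  have hder : ∀ t : ℝ, 1 < t → HasDerivAt H
      (∑ n ∈ Ioc 1 N, (-((n : ℕ) : ℝ) ^ (-t)) + 1 / (t - 1)) t := by
    intro t ht
    apply HasDerivAt.add
    · apply HasDerivAt.fun_sum
      intro n hn
      have hn1 : 1 < n := (Finset.mem_Ioc.1 hn).1
      have hn0 : (0 : ℝ) < n := by exact_mod_cast (by omega : 0 < n)
      have hlog : 0 < Real.log n := Real.log_pos (by exact_mod_cast hn1)
      have h1 : HasDerivAt (fun t : ℝ => ((n : ℕ) : ℝ) ^ (-t)) (-(Real.log n * ((n : ℕ) : ℝ) ^ (-t))) t := by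
        have h2 := (hasDerivAt_neg t).const_rpow hn0
        have h3 : Real.log ((n : ℕ) : ℝ) * (-1) * ((n : ℕ) : ℝ) ^ (-t) = -(Real.log n * ((n : ℕ) : ℝ) ^ (-t)) := by
          ring
        rw [h3] at h2
        exact h2
      have h4 := h1.div_const (Real.log n)
      have h5 : -(Real.log n * ((n : ℕ) : ℝ) ^ (-t)) / Real.log n = -((n : ℕ) : ℝ) ^ (-t) := by
        field_simp
      rw [h5] at h4
      exact h4
    · have h1 := ((hasDerivAt_id t).sub_const 1).log (by simp only [id]; linarith)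
      simpa using h1
  have hmono : MonotoneOn H (Set.Icc s 2) := by
    apply monotoneOn_of_deriv_nonneg (convex_Icc s 2)
    · intro t ht
      exact (hder t (by linarith [ht.1])).continuousAt.continuousWithinAt
    · intro t ht
      rw [interior_Icc] at ht
      exact (hder t (by linarith [ht.1])).differentiableAt.differentiableWithinAt
    · intro t ht
      rw [interior_Icc] at ht
      have ht1 : 1 < t := by linarith [ht.1]
      rw [(hder t ht1).deriv, Finset.sum_neg_distrib]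
      have := sum_rpow_le ht1 N
      linarith
  have h1 := hmono (Set.left_mem_Icc.2 hs2) (Set.right_mem_Icc.2 hs2) hs2
  simp only [hH] at h1
  have h2 : ∑ n ∈ Ioc 1 N, ((n : ℕ) : ℝ) ^ (-2 : ℝ) / Real.log n ≤ 1 / Real.log 2 := by
    have hl2 : 0 < Real.log 2 := Real.log_pos (by norm_num)
    calc ∑ n ∈ Ioc 1 N, ((n : ℕ) : ℝ) ^ (-2 : ℝ) / Real.log n ≤
        ∑ n ∈ Ioc 1 N, ((n : ℕ) : ℝ) ^ (-2 : ℝ) / Real.log 2 := by
          refine Finset.sum_le_sum fun n hn => ?_
          have hn1 : 1 < n := (Finset.mem_Ioc.1 hn).1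
          have hn2 : (2 : ℝ) ≤ n := by exact_mod_cast hn1
          exact div_le_div_of_nonneg_left (Real.rpow_nonneg (by positivity) _) hl2
            (Real.log_le_log (by norm_num) hn2)
      _ = (∑ n ∈ Ioc 1 N, ((n : ℕ) : ℝ) ^ (-2 : ℝ)) / Real.log 2 := by rw [Finset.sum_div]
      _ ≤ 1 / Real.log 2 := by
          apply div_le_div_of_nonneg_right _ hl2.le
          have := sum_rpow_le (t := 2) (by norm_num) N
          norm_num at this ⊢
          exact this
  have h3 : Real.log ((2 : ℝ) - 1) = 0 := by norm_num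
  have h4 : Real.log (1 / (s - 1)) = -Real.log (s - 1) := by rw [one_div, Real.log_inv]
  rw [h3] at h1
  rw [h4]
  linarith

/-- Abel summation -/
theorem abel_ineq (A w f : ℕ → ℝ) (η : ℝ) (N0 : ℕ) (hA : ∀ n, A (n + 1) = A n + w (n + 1))
    (hle : ∀ n, N0 ≤ n → A n ≤ η * n) (hf : ∀ n, N0 ≤ n → f (n + 1) ≤ f n) :
    ∀ N, N0 ≤ N → (η * N - A N) * f N - (η * N0 - A N0) * f N0 ≤ ∑ n ∈ Ioc N0 N, (η - w n) * f n := by
  intro N hN
  induction N, hN using Nat.le_induction with
  | base => simp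
  | succ n hn ih =>
    rw [← Finset.insert_Ioc_right_eq_Ioc_add_one hn, Finset.sum_insert (by simp)]
    have h1 := hA n
    have h2 := hle n hn
    have h3 := hf n hn
    have h4 : (η * n - A n) * f (n + 1) ≤ (η * n - A n) * f n :=
      mul_le_mul_of_nonneg_left h3 (by linarith)
    have h5 : (η * ((n + 1 : ℕ) : ℝ) - A (n + 1)) * f (n + 1) =
        (η - w (n + 1)) * f (n + 1) + (η * n - A n) * f (n + 1) := by
      rw [h1]
      push_cast
      ring
    rw [h5]
    linarith

open Classical in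
theorem ud_fin {G : ℕ → Prop} {e : ℝ} (h : UD G e) {η : ℝ} (hη : e < η) (hη0 : 0 ≤ η) :
    ∃ C : ℝ, ∀ s : ℝ, 1 < s → s < 2 → ∀ N : ℕ,
      ∑ p ∈ (Icc 1 N).filter (fun p => p.Prime ∧ G p), ((p : ℕ) : ℝ) ^ (-s) ≤
        η * Real.log (1 / (s - 1)) + C := by
  obtain ⟨N0', hN0'⟩ := eventually_atTop.1 (h η hη)
  set N0 : ℕ := max N0' 2 with hN0
  have hN2 : 2 ≤ N0 := le_max_right _ _
  have hl2 : 0 < Real.log 2 := Real.log_pos (by norm_num)
  refine ⟨N0 + η * N0 / Real.log 2 + η / Real.log 2, fun s hs hs2 N => ?_⟩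
  -- reduce to N ≥ N0
  set M : ℕ := max N N0 with hM
  have hlog0 : 0 ≤ Real.log (1 / (s - 1)) := by
    apply Real.log_nonneg
    rw [le_div_iff₀ (by linarith)]
    linarith
  set w : ℕ → ℝ := fun n => if n.Prime ∧ G n then Real.log n else 0 with hw
  set f : ℕ → ℝ := fun n => ((n : ℕ) : ℝ) ^ (-s) / Real.log n with hf
  have hth : ∀ n, th G n = ∑ k ∈ Icc 1 n, w k := by
    intro n
    rw [th, Finset.sum_filter]
  have hA : ∀ n, th G (n + 1) = th G n + w (n + 1) := by
    intro n
    rw [hth, hth, Finset.sum_Icc_succ_top (by omega)]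
  have hle : ∀ n, N0 ≤ n → th G n ≤ η * n := fun n hn => hN0' n ((le_max_left _ _).trans hn)
  have hfa : ∀ n, N0 ≤ n → f (n + 1) ≤ f n := by
    intro n hn
    have hn2 : (2 : ℝ) ≤ n := by exact_mod_cast hN2.trans hn
    have h1 : 0 < Real.log n := Real.log_pos (by linarith)
    have h2 : Real.log n ≤ Real.log ((n + 1 : ℕ) : ℝ) := Real.log_le_log (by linarith) (by push_cast; linarith)
    have h3 : (((n + 1 : ℕ)) : ℝ) ^ (-s) ≤ (n : ℝ) ^ (-s) :=
      Real.rpow_le_rpow_of_nonpos (by linarith) (by push_cast; linarith) (by linarith)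
    simp only [hf]
    exact div_le_div₀ (Real.rpow_nonneg (by linarith) _) h3 h1 h2
  have hab := abel_ineq (fun n => th G n) w f η N0 hA hle hfa M (le_max_right _ _)
  have hfM : 0 ≤ (η * M - th G M) * f M := by
    apply mul_nonneg
    · have := hle M (le_max_right _ _)
      linarith
    · simp only [hf]
      apply div_nonneg (Real.rpow_nonneg (Nat.cast_nonneg _) _) (Real.log_natCast_nonneg _)
  have hf0 : f N0 ≤ 1 / Real.log 2 := by
    have hn2 : (2 : ℝ) ≤ N0 := by exact_mod_cast hN2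
    simp only [hf]
    apply div_le_div₀ zero_le_one _ hl2 (Real.log_le_log (by norm_num) hn2)
    exact Real.rpow_le_one_of_one_le_of_nonpos (by linarith) (by linarith)
  have hf0' : 0 ≤ f N0 := by
    simp only [hf]
    exact div_nonneg (Real.rpow_nonneg (Nat.cast_nonneg _) _) (Real.log_natCast_nonneg _)
  have hth0 : 0 ≤ th G N0 := th_nonneg G N0
  have hD0 : (η * N0 - th G N0) * f N0 ≤ η * N0 / Real.log 2 := by
    calc (η * N0 - th G N0) * f N0 ≤ (η * N0) * f N0 := mul_le_mul_of_nonneg_right (by linarith) hf0'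
      _ ≤ (η * N0) * (1 / Real.log 2) := mul_le_mul_of_nonneg_left hf0 (by positivity)
      _ = _ := by ring
  have hsplit : ∑ n ∈ Ioc N0 M, (η - w n) * f n = η * ∑ n ∈ Ioc N0 M, f n - ∑ n ∈ Ioc N0 M, w n * f n := by
    rw [Finset.mul_sum, ← Finset.sum_sub_distrib]
    exact Finset.sum_congr rfl fun n _ => by ring
  rw [hsplit] at hab
  have hsf : ∑ n ∈ Ioc N0 M, f n ≤ Real.log (1 / (s - 1)) + 1 / Real.log 2 := by
    refine le_trans (Finset.sum_le_sum_of_subset_of_nonneg ?_ ?_) (sum_log_le hs hs2.le M)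
    · intro n hn
      rw [Finset.mem_Ioc] at hn ⊢
      omega
    · intro n _ _
      exact div_nonneg (Real.rpow_nonneg (Nat.cast_nonneg _) _) (Real.log_natCast_nonneg _)
  have hwf : ∀ n ∈ Ioc N0 M, w n * f n = if n.Prime ∧ G n then ((n : ℕ) : ℝ) ^ (-s) else 0 := by
    intro n hn
    rw [Finset.mem_Ioc] at hn
    have hn2 : (2 : ℝ) < n := by exact_mod_cast lt_of_le_of_lt hN2 hn.1
    have h1 : 0 < Real.log n := Real.log_pos (by linarith)
    simp only [hw, hf]
    split_ifs with h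
    · field_simp
    · ring
  have hfin : ∑ p ∈ (Icc 1 N).filter (fun p => p.Prime ∧ G p), ((p : ℕ) : ℝ) ^ (-s) ≤
      N0 + ∑ n ∈ Ioc N0 M, w n * f n := by
    rw [Finset.sum_congr rfl hwf]
    have h1 : ∑ p ∈ (Icc 1 N).filter (fun p => p.Prime ∧ G p), ((p : ℕ) : ℝ) ^ (-s) ≤
        ∑ p ∈ Icc 1 M, (if p.Prime ∧ G p then ((p : ℕ) : ℝ) ^ (-s) else 0) := by
      rw [Finset.sum_filter]
      apply Finset.sum_le_sum_of_subset_of_nonneg
      · intro n hn
        rw [Finset.mem_Icc] at hn ⊢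
        exact ⟨hn.1, hn.2.trans (le_max_left _ _)⟩
      · intro n _ _
        split_ifs
        · exact Real.rpow_nonneg (Nat.cast_nonneg _) _
        · exact le_rfl
    refine h1.trans ?_
    have h2 : Icc 1 M = Icc 1 N0 ∪ Ioc N0 M := by
      ext n
      have : N0 ≤ M := le_max_right _ _
      simp only [Finset.mem_Icc, Finset.mem_union, Finset.mem_Ioc]
      omega
    have h3 : Disjoint (Icc 1 N0) (Ioc N0 M) := by
      rw [Finset.disjoint_left]
      intro n hn hn2
      rw [Finset.mem_Icc] at hn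
      rw [Finset.mem_Ioc] at hn2
      omega
    rw [h2, Finset.sum_union h3]
    have h4 : ∑ p ∈ Icc 1 N0, (if p.Prime ∧ G p then ((p : ℕ) : ℝ) ^ (-s) else 0) ≤ N0 := by
      calc ∑ p ∈ Icc 1 N0, (if p.Prime ∧ G p then ((p : ℕ) : ℝ) ^ (-s) else 0) ≤
          ∑ p ∈ Icc 1 N0, (1 : ℝ) := by
            refine Finset.sum_le_sum fun n hn => ?_
            rw [Finset.mem_Icc] at hn
            split_ifs
            · exact Real.rpow_le_one_of_one_le_of_nonpos (by exact_mod_cast hn.1) (by linarith)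
            · exact zero_le_one
        _ = N0 := by simp
    linarith
  have h6 : η * ∑ n ∈ Ioc N0 M, f n ≤ η * (Real.log (1 / (s - 1)) + 1 / Real.log 2) :=
    mul_le_mul_of_nonneg_left hsf hη0
  have h7 : η * (Real.log (1 / (s - 1)) + 1 / Real.log 2) = η * Real.log (1 / (s - 1)) + η / Real.log 2 := by
    ring
  linarith

open Classical in
/-- the Dirichlet sum over the primes with `G` -/
noncomputable def dS (G : ℕ → Prop) (s : ℝ) : ℝ :=
  ∑' p : Nat.Primes, if G p then ((p : ℕ) : ℝ) ^ (-s) else 0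

theorem prime_summable {s : ℝ} (hs : 1 < s) : Summable (fun p : Nat.Primes => ((p : ℕ) : ℝ) ^ (-s)) := by
  have h : Summable (fun n : ℕ => (n : ℝ) ^ (-s)) := Real.summable_nat_rpow.2 (by linarith)
  exact h.comp_injective (i := fun p : Nat.Primes => (p : ℕ)) (fun a b hab => Subtype.ext hab)

open Classical in
theorem dS_summable (G : ℕ → Prop) {s : ℝ} (hs : 1 < s) :
    Summable (fun p : Nat.Primes => if G p then ((p : ℕ) : ℝ) ^ (-s) else 0) := by
  refine Summable.of_nonneg_of_le (fun p => ?_) (fun p => ?_) (prime_summable hs)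
  · split_ifs
    · exact Real.rpow_nonneg (Nat.cast_nonneg _) _
    · exact le_rfl
  · split_ifs
    · exact le_rfl
    · exact Real.rpow_nonneg (Nat.cast_nonneg _) _

/-- **upper density bounds the Dirichlet sum** -/
theorem ud_sum {G : ℕ → Prop} {e : ℝ} (h : UD G e) {η : ℝ} (hη : e < η) (hη0 : 0 ≤ η) :
    ∃ C : ℝ, ∀ s : ℝ, 1 < s → s < 2 → dS G s ≤ η * Real.log (1 / (s - 1)) + C := by
  classical
  obtain ⟨C, hC⟩ := ud_fin h hη hη0
  refine ⟨C, fun s hs hs2 => ?_⟩
  apply Real.tsum_le_of_sum_le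
  · intro p
    show (0 : ℝ) ≤ if G p then ((p : ℕ) : ℝ) ^ (-s) else 0
    split_ifs
    · exact Real.rpow_nonneg (Nat.cast_nonneg _) _
    · exact le_rfl
  · intro S
    set T : Finset ℕ := S.image (fun p : Nat.Primes => (p : ℕ)) with hT
    set N : ℕ := T.sup id with hN
    refine le_trans ?_ (hC s hs hs2 N)
    have h1 : ∑ p ∈ S, (if G p then ((p : ℕ) : ℝ) ^ (-s) else 0) =
        ∑ n ∈ T, (if G n then ((n : ℕ) : ℝ) ^ (-s) else 0) := by
      rw [hT, Finset.sum_image]
      intro a _ b _ hab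
      exact Subtype.ext hab
    rw [h1, ← Finset.sum_filter]
    apply Finset.sum_le_sum_of_subset_of_nonneg
    · intro n hn
      rw [Finset.mem_filter] at hn ⊢
      obtain ⟨hnT, hG⟩ := hn
      have hle : n ≤ N := Finset.le_sup (f := id) hnT
      rw [hT, Finset.mem_image] at hnT
      obtain ⟨p, _, rfl⟩ := hnT
      exact ⟨Finset.mem_Icc.2 ⟨p.2.one_lt.le, hle⟩, p.2, hG⟩
    · intro n _ _
      exact Real.rpow_nonneg (Nat.cast_nonneg _) _

end Pool.Agent.H24.FD

end

section

/-!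
# HF DetL: multilinear expansion of a determinant in its rows

PROOF. `Matrix.det` is alternating and multilinear in the rows (`Matrix.detRowAlternating`), `MultilinearMap.map_sum`,
`map_smul_univ`; a term with `f` not injective on rows has two equal rows. Norm version: ultrametric
(`padicNorm` of a finite sum is at most the maximum), `padicNorm (det X∘f) ≤ 1` as all entries are integers.
-/

set_option autoImplicit false

namespace Pool.Agent.H80.HF

open Finset

theorem det_expand {R : Type} [CommRing R] {ι U : Type} [Fintype ι] [DecidableEq ι] [Fintype U] [DecidableEq U]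
    (S : ι → U → R) (X : U → ι → R) :
    Matrix.det (Matrix.of fun r c => ∑ u, S r u * X u c) =
      ∑ f : ι → U, (∏ r, S r (f r)) * Matrix.det (Matrix.of fun r => X (f r)) := by
  have h1 : (Matrix.of fun r c => ∑ u, S r u * X u c : Matrix ι ι R) =
      fun r => ∑ u, (S r u • X u : ι → R) := by
    funext r c
    rw [Matrix.of_apply, Finset.sum_apply]
    rfl
  have h2 : ∀ M : Matrix ι ι R, M.det =
      (Matrix.detRowAlternating (R := R) (n := ι)).toMultilinearMap M := fun _ => rfl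
  rw [h2, h1, MultilinearMap.map_sum]
  refine Finset.sum_congr rfl fun f _ => ?_
  have h3 := (Matrix.detRowAlternating (R := R) (n := ι)).toMultilinearMap.map_smul_univ
    (fun r => S r (f r)) (fun r => X (f r))
  rw [h3]
  rfl

theorem padicNorm_sum_le' (q : ℕ) [Fact q.Prime] {α : Type} (s : Finset α) (F : α → ℚ) (B : ℚ)
    (hB : 0 ≤ B) (h : ∀ a ∈ s, padicNorm q (F a) ≤ B) : padicNorm q (∑ a ∈ s, F a) ≤ B := by
  classical
  induction s using Finset.induction_on with
  | empty => simpa using hB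
  | insert a s ha ih =>
    rw [Finset.sum_insert ha]
    exact (padicNorm.nonarchimedean).trans
      (max_le (h a (mem_insert_self a s)) (ih fun b hb => h b (mem_insert_of_mem hb)))

theorem padicNorm_prod' (q : ℕ) [Fact q.Prime] {α : Type} (s : Finset α) (F : α → ℚ) :
    padicNorm q (∏ a ∈ s, F a) = ∏ a ∈ s, padicNorm q (F a) := by
  classical
  induction s using Finset.induction_on with
  | empty => simp
  | insert a s ha ih =>
    rw [Finset.prod_insert ha, Finset.prod_insert ha, padicNorm.mul, ih]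

theorem det_ultra (q : ℕ) [Fact q.Prime] {ι U : Type} [Fintype ι] [DecidableEq ι] [Fintype U] [DecidableEq U]
    (S : ι → U → ℚ) (X : U → ι → ℤ) (B : ℚ) (hB : 0 ≤ B)
    (h : ∀ f : ι → U, Function.Injective f → Matrix.det (Matrix.of fun r => X (f r)) ≠ 0 →
      ∏ r, padicNorm q (S r (f r)) ≤ B) :
    padicNorm q (Matrix.det (Matrix.of fun r c => ∑ u, S r u * (X u c : ℚ))) ≤ B := by
  rw [det_expand S fun u c => (X u c : ℚ)]
  refine padicNorm_sum_le' q _ _ B hB fun f _ => ?_
  have hcast : Matrix.det (Matrix.of fun r => (fun c => (X (f r) c : ℚ))) =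
      ((Matrix.det (Matrix.of fun r => X (f r)) : ℤ) : ℚ) := by
    have := RingHom.map_det (Int.castRingHom ℚ) (Matrix.of fun r => X (f r))
    rw [eq_intCast] at this
    rw [this]
    rfl
  rw [hcast]
  by_cases hd : Matrix.det (Matrix.of fun r => X (f r)) = 0
  · rw [hd]
    simpa using hB
  have hf : Function.Injective f := by
    intro r r' hrr
    by_contra hne
    apply hd
    refine Matrix.det_zero_of_row_eq hne ?_
    change X (f r) = X (f r')
    rw [hrr]
  rw [padicNorm.mul, padicNorm_prod']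
  have h1 := h f hf hd
  have h2 : padicNorm q ((Matrix.det (Matrix.of fun r => X (f r)) : ℤ) : ℚ) ≤ 1 :=
    padicNorm.of_int _
  calc (∏ r, padicNorm q (S r (f r))) * padicNorm q ((Matrix.det (Matrix.of fun r => X (f r)) : ℤ) : ℚ)
      ≤ (∏ r, padicNorm q (S r (f r))) * 1 :=
        mul_le_mul_of_nonneg_left h2 (Finset.prod_nonneg fun _ _ => padicNorm.nonneg _)
    _ ≤ B := by rw [mul_one]; exact h1

end Pool.Agent.H80.HF

end

section

/-!
# HF ZeroB: `f(x+1) f(x) = (3x+2)/(3x+1)` has no rational solution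

PROOF. Suppose `A, B ≠ 0`. For `c = -1/3 + n`, `n : ℤ`, put `φ n = rootMultiplicity c A - rootMultiplicity c B` (in `ℤ`).
`rootMultiplicity c (A.comp (X+1)) = rootMultiplicity (c+1) A`. At `c = -1/3 + n` the factor `3X+2` does not vanish and
`3X+1` vanishes iff `n = 0`. Comparing multiplicities: `[n=0] + φ(n+1) + φ(n) = 0`. `φ n = 0` for `|n|` large (finitely many
roots), so `φ = 0` on `n ≥ 1` and on `n ≤ 0`, contradiction at `n = 0`.
-/

set_option autoImplicit false

namespace Pool.Agent.H80.HF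

open Polynomial

theorem ZeroB_shift (c : ℚ) (A : ℚ[X]) : (A.comp (X + C 1)).rootMultiplicity c = A.rootMultiplicity (c + 1) := by
  rw [rootMultiplicity_eq_rootMultiplicity, rootMultiplicity_eq_rootMultiplicity (p := A)]
  congr 1
  rw [comp_assoc]
  congr 1
  simp only [add_comp, X_comp, C_comp, C_add]
  ring

theorem ZeroB_lin_ne (a : ℚ) : (C 3 * X + C a : ℚ[X]) ≠ 0 := by
  intro h0
  have h9 := congrArg (fun p : ℚ[X] => p.coeff 1) h0
  simp [coeff_C] at h9

theorem ZeroB_lin_pos (c a : ℚ) (h : 3 * c + a = 0) : (C 3 * X + C a : ℚ[X]).rootMultiplicity c = 1 := by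
  have h1 : (C 3 * X + C a : ℚ[X]) = C 3 * (X - C c) := by
    have : a = -(3 * c) := by linarith
    rw [this, C_neg, C_mul]; ring
  rw [h1, rootMultiplicity_mul (by rw [← h1]; exact ZeroB_lin_ne a), rootMultiplicity_C, rootMultiplicity_X_sub_C_self]

theorem ZeroB_lin_neg (c a : ℚ) (h : 3 * c + a ≠ 0) : (C 3 * X + C a : ℚ[X]).rootMultiplicity c = 0 := by
  rw [rootMultiplicity_eq_zero]
  simp only [IsRoot.def, eval_add, eval_mul, eval_C, eval_X]
  exact h

theorem no_sol (A B : ℚ[X])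
    (h : (C 3 * X + C 1) * (A.comp (X + C 1) * A) = (C 3 * X + C 2) * (B.comp (X + C 1) * B)) :
    A = 0 ∨ B = 0 := by
  classical
  by_contra hcon
  push Not at hcon
  obtain ⟨hA, hB⟩ := hcon
  have hcomp : ∀ P : ℚ[X], P ≠ 0 → P.comp (X + C 1) ≠ 0 := by
    intro P hP hP0
    apply hP
    have h7 := congrArg (fun Q : ℚ[X] => Q.comp (X - C 1)) hP0
    simp only [comp_assoc, zero_comp] at h7
    have h8 : ((X + C 1 : ℚ[X]).comp (X - C 1)) = X := by simp
    rwa [h8, comp_X] at h7
  let φ : ℤ → ℤ := fun n => (A.rootMultiplicity (-1/3 + (n : ℚ)) : ℤ) - (B.rootMultiplicity (-1/3 + (n : ℚ)) : ℤ)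
  have hφ : ∀ n : ℤ, (if n = 0 then 1 else 0) + φ (n + 1) + φ n = 0 := by
    intro n
    have h1 := congrArg (rootMultiplicity (-1/3 + (n : ℚ))) h
    have hA1 := mul_ne_zero (hcomp A hA) hA
    have hB1 := mul_ne_zero (hcomp B hB) hB
    rw [rootMultiplicity_mul (mul_ne_zero (ZeroB_lin_ne 1) hA1), rootMultiplicity_mul (mul_ne_zero (ZeroB_lin_ne 2) hB1),
      rootMultiplicity_mul hA1, rootMultiplicity_mul hB1, ZeroB_shift, ZeroB_shift] at h1
    have h2 : (C 3 * X + C 2 : ℚ[X]).rootMultiplicity (-1/3 + (n : ℚ)) = 0 := by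
      apply ZeroB_lin_neg
      intro h0
      have h3 : (3 * n + 1 : ℚ) = 0 := by linarith
      have h4 : 3 * n + 1 = 0 := by exact_mod_cast h3
      omega
    have e1 : (-1/3 + (n : ℚ)) + 1 = -1/3 + ((n + 1 : ℤ) : ℚ) := by push_cast; ring
    rw [h2, e1] at h1
    by_cases hn : n = 0
    · have h5 : (C 3 * X + C 1 : ℚ[X]).rootMultiplicity (-1/3 + (n : ℚ)) = 1 := by
        apply ZeroB_lin_pos
        rw [hn]; norm_num
      rw [h5] at h1
      simp only [φ, if_pos hn]
      omega
    · have h5 : (C 3 * X + C 1 : ℚ[X]).rootMultiplicity (-1/3 + (n : ℚ)) = 0 := by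
        apply ZeroB_lin_neg
        intro h0
        have h3 : (3 * n : ℚ) = 0 := by linarith
        have h4 : 3 * n = 0 := by exact_mod_cast h3
        omega
      rw [h5] at h1
      simp only [φ, if_neg hn]
      omega
  have hAB := mul_ne_zero hA hB
  -- infinitely many nonzero values are impossible
  have hinf : ∀ g : ℕ → ℤ, Function.Injective g → ∃ k, φ (g k) = 0 := by
    intro g hg
    by_contra hne
    push Not at hne
    apply hAB
    apply eq_zero_of_infinite_isRoot
    have hinj : Function.Injective (fun k : ℕ => (-1/3 + (g k : ℚ))) := by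
      intro a b hab
      apply hg
      have : (g a : ℚ) = g b := by
        simp only at hab
        linarith
      exact_mod_cast this
    refine (Set.infinite_range_of_injective hinj).mono ?_
    rintro _ ⟨k, rfl⟩
    have h1 := hne k
    show IsRoot (A * B) _
    by_contra h2
    apply h1
    have h3 : ¬ IsRoot A (-1/3 + (g k : ℚ)) := fun h4 => h2 (by
      simp only [IsRoot.def, eval_mul] at h4 ⊢
      rw [h4, zero_mul])
    have h5 : ¬ IsRoot B (-1/3 + (g k : ℚ)) := fun h4 => h2 (by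
      simp only [IsRoot.def, eval_mul] at h4 ⊢
      rw [h4, mul_zero])
    simp only [φ]
    rw [rootMultiplicity_eq_zero h3, rootMultiplicity_eq_zero h5]
    simp
  have hpos : φ 1 = 0 := by
    obtain ⟨k, hk⟩ := hinf (fun k => (k : ℤ) + 1) (fun a b hab => by simp only at hab; omega)
    have : ∀ k : ℕ, φ ((k : ℤ) + 1) = 0 → φ 1 = 0 := by
      intro k
      induction k with
      | zero => intro h0; simpa using h0
      | succ k ih =>
        intro h0
        apply ih
        have h1 := hφ ((k : ℤ) + 1)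
        rw [if_neg (by omega)] at h1
        push_cast at h0
        omega
    exact this k hk
  have hneg : φ 0 = 0 := by
    obtain ⟨k, hk⟩ := hinf (fun k => -(k : ℤ)) (fun a b hab => by simp only at hab; omega)
    have : ∀ k : ℕ, φ (-(k : ℤ)) = 0 → φ 0 = 0 := by
      intro k
      induction k with
      | zero => intro h0; simpa using h0
      | succ k ih =>
        intro h0
        apply ih
        have h1 := hφ (-((k : ℤ) + 1))
        rw [if_neg (by omega)] at h1
        push_cast at h0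
        have e1 : -((k : ℤ) + 1) + 1 = -(k : ℤ) := by ring
        have e2 : -1 + -(k : ℤ) = -((k : ℤ) + 1) := by ring
        rw [e1] at h1
        try rw [e2] at h0
        omega
    exact this k hk
  have h1 := hφ 0
  rw [if_pos rfl, zero_add, hpos, hneg] at h1
  omega

end Pool.Agent.H80.HF

end

section

/-!
# Fixed points of `s ↦ 1/s` and `s ↦ 1 - 1/s` on finite families

`T : Fin n → F` is a finite family (a multiset) in a field.  `Inv T` of project FD is
`∃ σ : Equiv.Perm (Fin n), ∀ v, T (σ v) * T v = 1`.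
* `odd_inv`: `n` odd, `T v ≠ 1`, inversion-stable: some `T v = -1`.
* `three_inv`: `3 ∤ n`, `T` and `1 - 1/T` inversion-stable: some `T v` is a root of `X² - X + 1`.
-/

namespace H85FD

open Finset

variable {F : Type*} [Field F]

section gen

omit [Field F]

variable {α : Type*} [Fintype α]

open Classical in
/-- the multiplicity of `x` in the family `T` -/
noncomputable def mul (T : α → F) (x : F) : ℕ := (univ.filter (fun v => T v = x)).card

open Classical in
lemma sum_mul (T : α → F) : ∑ x ∈ univ.image T, mul T x = Fintype.card α := by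
  unfold mul
  rw [← card_eq_sum_card_image T univ, card_univ]

lemma mul_pos_iff (T : α → F) (x : F) : 0 < mul T x ↔ ∃ v, T v = x := by
  classical
  unfold mul
  rw [card_pos, filter_nonempty_iff]
  simp

/-- multiplicities under a permutation -/
lemma mul_perm (T : α → F) (σ : Equiv.Perm α) (x : F) : mul (fun v => T (σ v)) x = mul T x := by
  classical
  unfold mul
  refine card_bij (fun v _ => σ v) ?_ ?_ ?_
  · intro v hv
    simpa using hv
  · intro v _ w _ h
    exact σ.injective h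
  · intro w hw
    refine ⟨σ.symm w, ?_, by simp⟩
    simpa using hw

end gen

end H85FD

end

section

/-!
# `S_3`-stable finite families in a field

`T : α → F`, `α` finite.  `S3St T`: no value is `1`, and the multiset of the values is stable under
`s ↦ 1/s` and `s ↦ 1 - s`, hence under the group `S_3` generated by them.
* `s3_of_inv`: this follows from inversion stability of the families `T` and `1 - 1/T`.
* `mul_inv`, `mul_sub`: multiplicities are constant on the orbits.
* `count`: in characteristic `≠ 2, 3`,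
  `card α = 3 mul T (-1) + ∑_{x² - x + 1 = 0} mul T x + 6 c`.
* `count_root`, `count_noroot`: with a root `ζ` of `X² - X + 1` in `F`, respectively without one.
-/

namespace H85FD

open Finset

section weights

variable {β : Type*}

/-- weights constant under a fixed point free involution have an even sum -/
lemma two_dvd_sum (A : Finset β) (w : β → ℕ) (g : β → β) (hgA : ∀ x ∈ A, g x ∈ A)
    (hg2 : ∀ x ∈ A, g (g x) = x) (hgne : ∀ x ∈ A, g x ≠ x) (hw : ∀ x ∈ A, w (g x) = w x) :
    2 ∣ ∑ x ∈ A, w x := by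
  have h : (∑ x ∈ A, (w x : ZMod 2)) = 0 :=
    sum_involution (fun x _ => g x) (fun x hx => by rw [hw x hx]; exact CharTwo.add_self_eq_zero _)
      (fun x hx _ => hgne x hx) (fun x hx => hgA x hx) (fun x hx => hg2 x hx)
  rw [← ZMod.natCast_eq_zero_iff]
  push_cast
  exact h

/-- weights constant under a fixed point free substitution of order three have a sum divisible by
three -/
lemma three_dvd_sum (A : Finset β) (w : β → ℕ) (g : β → β) (hgA : ∀ x ∈ A, g x ∈ A)
    (hg3 : ∀ x ∈ A, g (g (g x)) = x) (hgne : ∀ x ∈ A, g x ≠ x) (hw : ∀ x ∈ A, w (g x) = w x) :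
    3 ∣ ∑ x ∈ A, w x := by
  classical
  have hlev : ∀ k : ℕ, 3 ∣ (A.filter (fun x => w x = k)).card := by
    intro k
    set B := A.filter (fun x => w x = k) with hB
    have hgB : ∀ x ∈ B, g x ∈ B := by
      intro x hx
      rw [hB, mem_filter] at hx ⊢
      exact ⟨hgA x hx.1, by rw [hw x hx.1]; exact hx.2⟩
    let e : Function.End B := fun x => ⟨g x.1, hgB x.1 x.2⟩
    have he : ∀ x, (e x).1 = g x.1 := fun x => rfl
    have : Fact (Nat.Prime 3) := ⟨Nat.prime_three⟩
    have he3 : e ^ 3 ^ 1 = 1 := by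
      funext x
      apply Subtype.ext
      have h5 : (e ^ 3 ^ 1) x = e (e (e x)) := by
        rw [pow_one, pow_succ, pow_succ, pow_one]
        rfl
      rw [h5, he, he, he]
      exact hg3 x.1 (mem_filter.mp x.2).1
    have hmod := Equiv.Perm.card_fixedPoints_modEq he3
    have hempty : Fintype.card (Function.fixedPoints e) = 0 := by
      rw [Fintype.card_eq_zero_iff]
      constructor
      rintro ⟨x, hx⟩
      have hx' : e x = x := hx
      have := congrArg Subtype.val hx'
      rw [he] at this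
      exact hgne x.1 (mem_filter.mp x.2).1 this
    rw [hempty, Fintype.card_coe] at hmod
    exact (Nat.modEq_zero_iff_dvd).mp hmod
  have h := sum_comp (s := A) (f := fun k : ℕ => k) (g := w)
  simp only [smul_eq_mul] at h
  rw [h]
  exact dvd_sum fun k _ => Dvd.dvd.mul_right (hlev k) _

end weights

variable {F : Type*} [Field F] {α : Type*} [Fintype α]

/-- the multiset of the values of `T` does not contain `1` and is stable under `1/s` and `1 - s` -/
structure S3St (T : α → F) : Prop where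
  ne1 : ∀ v, T v ≠ 1
  inv : ∃ σ : Equiv.Perm α, ∀ v, T (σ v) * T v = 1
  sub : ∃ σ : Equiv.Perm α, ∀ v, T (σ v) + T v = 1

namespace S3St

variable {T : α → F}

omit [Fintype α] in
lemma ne0 (h : S3St T) (v : α) : T v ≠ 0 := by
  obtain ⟨σ, hσ⟩ := h.inv
  intro hv
  have := hσ v
  rw [hv, mul_zero] at this
  exact zero_ne_one this

omit [Fintype α] in
lemma inv' (h : S3St T) : ∃ σ : Equiv.Perm α, ∀ v, T (σ v) = (T v)⁻¹ := by
  obtain ⟨σ, hσ⟩ := h.inv
  exact ⟨σ, fun v => eq_inv_of_mul_eq_one_left (hσ v)⟩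

omit [Fintype α] in
lemma sub' (h : S3St T) : ∃ σ : Equiv.Perm α, ∀ v, T (σ v) = 1 - T v := by
  obtain ⟨σ, hσ⟩ := h.sub
  exact ⟨σ, fun v => eq_sub_of_add_eq (hσ v)⟩

omit [Fintype α] in
/-- `s ↦ 1 - 1/s` -/
lemma rot (h : S3St T) : ∃ σ : Equiv.Perm α, ∀ v, T (σ v) = 1 - (T v)⁻¹ := by
  obtain ⟨σ, hσ⟩ := h.inv'
  obtain ⟨τ, hτ⟩ := h.sub'
  exact ⟨σ.trans τ, fun v => by rw [Equiv.trans_apply, hτ, hσ]⟩

end S3St

/-- multiplicities are constant under an injective substitution which is realised by a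
permutation -/
lemma mul_sub_eq (T : α → F) (g : F → F) (hg : Function.Injective g) (σ : Equiv.Perm α)
    (h : ∀ v, T (σ v) = g (T v)) (x : F) : mul T (g x) = mul T x := by
  classical
  rw [← mul_perm T σ (g x)]
  unfold mul
  congr 1
  ext v
  simp only [mem_filter, mem_univ, true_and, h]
  exact hg.eq_iff

namespace S3St

variable {T : α → F}

lemma mul_inv (h : S3St T) (x : F) : mul T x⁻¹ = mul T x := by
  obtain ⟨σ, hσ⟩ := h.inv'
  exact mul_sub_eq T (fun x => x⁻¹) inv_injective σ hσ x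

lemma mul_one_sub (h : S3St T) (x : F) : mul T (1 - x) = mul T x := by
  obtain ⟨σ, hσ⟩ := h.sub'
  exact mul_sub_eq T (fun x => 1 - x) (fun a b hab => by simpa using hab) σ hσ x

lemma mul_rot (h : S3St T) (x : F) : mul T (1 - x⁻¹) = mul T x := by
  rw [h.mul_one_sub, h.mul_inv]

/-- `3 ∤ n`: both roots of `X² - X + 1` occur -/
theorem exists_root (h : S3St T) (hn : ¬ 3 ∣ Fintype.card α) :
    ∃ v, T v ^ 2 - T v + 1 = 0 := by
  classical
  by_contra hne
  push Not at hne
  obtain ⟨σ, hσ⟩ := h.rot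
  apply hn
  rw [← sum_mul T]
  refine three_dvd_sum _ (mul T) (fun x => 1 - x⁻¹) ?_ ?_ ?_ (fun x _ => h.mul_rot x)
  · intro x hx
    obtain ⟨v, -, rfl⟩ := mem_image.mp hx
    exact mem_image.mpr ⟨σ v, mem_univ _, hσ v⟩
  · intro x hx
    obtain ⟨v, -, rfl⟩ := mem_image.mp hx
    have a := h.ne0 v
    have b : T v - 1 ≠ 0 := sub_ne_zero.mpr (h.ne1 v)
    have e1 : 1 - (T v)⁻¹ = (T v - 1) / T v := by field_simp
    have e2 : 1 - (1 - (T v)⁻¹)⁻¹ = -1 / (T v - 1) := by
      rw [e1]
      field_simp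
      ring
    show 1 - (1 - (1 - (T v)⁻¹)⁻¹)⁻¹ = T v
    rw [e2]
    field_simp
    ring
  · intro x hx he
    obtain ⟨v, -, rfl⟩ := mem_image.mp hx
    have a := h.ne0 v
    apply hne v
    have hv' : 1 - (T v)⁻¹ = T v := he
    have e1 : 1 - (T v)⁻¹ = (T v - 1) / T v := by field_simp
    rw [e1, div_eq_iff a] at hv'
    linear_combination -hv'

/-- `n` odd: `-1` occurs (in odd multiplicity) -/
theorem exists_neg_one (h : S3St T) (hn : Odd (Fintype.card α)) : ∃ v, T v = -1 := by
  classical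
  by_contra hne
  push Not at hne
  obtain ⟨σ, hσ⟩ := h.inv'
  apply (Nat.not_even_iff_odd.mpr hn)
  rw [even_iff_two_dvd, ← sum_mul T]
  refine two_dvd_sum _ (mul T) (fun x => x⁻¹) ?_ (fun x _ => inv_inv x) ?_
    (fun x _ => h.mul_inv x)
  · intro x hx
    obtain ⟨v, -, rfl⟩ := mem_image.mp hx
    exact mem_image.mpr ⟨σ v, mem_univ _, hσ v⟩
  · intro x hx he
    obtain ⟨v, -, rfl⟩ := mem_image.mp hx
    have he' : (T v)⁻¹ = T v := he
    have h2' : T v * T v = 1 := by
      nth_rewrite 1 [← he']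
      exact inv_mul_cancel₀ (h.ne0 v)
    rcases mul_self_eq_one_iff.mp h2' with h4 | h4
    · exact h.ne1 v h4
    · exact hne v h4

end S3St

end H85FD

end

section

/-!
# Project AB / FD, module Fam: from root multiplicities to `S_3`-stable families

`P = ∏ (A_i + X B_i)`, no `(A_i, B_i) = (0, 0)`.  The family `T_i = -B_i / A_i` over the set of the
good indices (`A_i, B_i, A_i + B_i ≠ 0`) is `S_3`-stable if the root multiplicities of `P` at
`x ≠ 0, 1` are invariant under `x ↦ 1/x` and `x ↦ 1 - x`.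
-/

namespace H55AB

open Polynomial Finset H85FD

variable {Ω : Type*} [Field Ω] {ι : Type*} [Fintype ι]

/-- root multiplicities of a product of linear factors -/
theorem rootMult_prod (A B : ι → Ω) (h0 : ∀ i, A i ≠ 0 ∨ B i ≠ 0) (x : Ω) (hx : x ≠ 0) :
    rootMultiplicity x (∏ i, (C (A i) + X * C (B i)))
      = Nat.card {i // A i ≠ 0 ∧ B i ≠ 0 ∧ - B i / A i = x⁻¹} := by
  classical
  have hne : ∀ i, C (A i) + X * C (B i) ≠ 0 := by
    intro i h
    have h1 := congrArg (fun q : Polynomial Ω => q.coeff 0) h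
    have h2 := congrArg (fun q : Polynomial Ω => q.coeff 1) h
    simp at h1 h2
    rcases h0 i with h3 | h3
    · exact h3 h1
    · exact h3 h2
  have hprod : ∏ i, (C (A i) + X * C (B i)) ≠ 0 := prod_ne_zero_iff.2 fun i _ => hne i
  rw [← count_roots, roots_prod _ _ hprod, Multiset.count_bind]
  have h1 : ∀ i, Multiset.count x (C (A i) + X * C (B i)).roots
      = if A i ≠ 0 ∧ B i ≠ 0 ∧ - B i / A i = x⁻¹ then 1 else 0 := by
    intro i
    rw [count_roots]
    by_cases hB : B i = 0
    · have hA : A i ≠ 0 := (h0 i).resolve_right (not_not.2 hB)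
      rw [if_neg (by simp [hB]), hB, C_0, mul_zero, add_zero, rootMultiplicity_C]
    · have h2 : C (A i) + X * C (B i) = C (B i) * (X - C (-A i / B i)) := by
        rw [mul_sub, ← C_mul, mul_comm X, show B i * (-A i / B i) = - A i by field_simp, C_neg]
        ring
      rw [h2, rootMultiplicity_mul (h2 ▸ hne i), rootMultiplicity_C, zero_add,
        rootMultiplicity_X_sub_C]
      by_cases hA : A i = 0
      · rw [if_neg, if_neg (by simp [hA])]
        rw [hA, neg_zero, zero_div]
        exact hx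
      · have h3 : (x = -A i / B i) ↔ (- B i / A i = x⁻¹) := by
          constructor
          · intro h
            rw [h, inv_div, div_neg, neg_div]
          · intro h
            rw [← inv_inv x, ← h, inv_div, div_neg, neg_div]
        by_cases h4 : x = -A i / B i
        · rw [if_pos h4, if_pos ⟨hA, hB, h3.1 h4⟩]
        · rw [if_neg h4, if_neg (fun h => h4 (h3.2 h.2.2))]
  have h5 : (Multiset.map (fun b => Multiset.count x (C (A b) + X * C (B b)).roots) univ.val).sum
      = ∑ i, Multiset.count x (C (A i) + X * C (B i)).roots := rfl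
  rw [h5, sum_congr rfl (fun i _ => h1 i), sum_boole, Nat.cast_id, Nat.card_eq_fintype_card,
    Fintype.card_subtype]

omit [Field Ω] in
/-- a substitution which preserves the multiplicities is realised by a permutation -/
theorem perm_of_mul {α : Type*} [Fintype α] (T : α → Ω) (g : Ω → Ω) (hg : ∀ y, g (g y) = y)
    (h : ∀ y, H85FD.mul T (g y) = H85FD.mul T y) :
    ∃ σ : Equiv.Perm α, ∀ v, T (σ v) = g (T v) := by
  classical
  have hfg : ∀ x : Ω, Fintype.card {a // g (T a) = x} = Fintype.card {b // T b = x} := by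
    intro x
    rw [Fintype.card_subtype, Fintype.card_subtype]
    have h1 := h x
    unfold H85FD.mul at h1
    rw [← h1]
    congr 1
    ext v
    simp only [mem_filter, mem_univ, true_and]
    constructor
    · intro h2
      rw [← h2, hg]
    · intro h2
      rw [h2, hg]
  let e : ∀ x : Ω, {a // g (T a) = x} ≃ {b // T b = x} := fun x =>
    Fintype.equivOfCardEq (hfg x)
  exact ⟨Equiv.ofFiberEquiv e, fun v => Equiv.ofFiberEquiv_map e v⟩

/-- the good indices -/
def Good (A B : ι → Ω) (i : ι) : Prop := A i ≠ 0 ∧ B i ≠ 0 ∧ A i + B i ≠ 0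

open Classical in
/-- the multiplicities of the good family are root multiplicities -/
theorem mul_eq_root (A B : ι → Ω) (h0 : ∀ i, A i ≠ 0 ∨ B i ≠ 0) (t : Ω) (ht0 : t ≠ 0)
    (ht1 : t ≠ 1) :
    H85FD.mul (fun i : {i // Good A B i} => - B i.1 / A i.1) t
      = rootMultiplicity t⁻¹ (∏ i, (C (A i) + X * C (B i))) := by
  rw [rootMult_prod A B h0 t⁻¹ (inv_ne_zero ht0), inv_inv]
  unfold H85FD.mul
  rw [← Fintype.card_subtype, ← Nat.card_eq_fintype_card]
  refine Nat.card_congr ⟨fun i => ⟨i.1.1, i.1.2.1, i.1.2.2.1, i.2⟩,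
    fun i => ⟨⟨i.1, i.2.1, i.2.2.1, ?_⟩, i.2.2.2⟩, fun i => rfl, fun i => rfl⟩
  intro h
  apply ht1
  rw [← i.2.2.2]
  have h1 : - B i.1 = A i.1 := by linear_combination -h
  rw [h1]
  exact div_self i.2.1

open Classical in
/-- **`S_3`-stability from the root multiplicities** -/
theorem s3_of_mult (A B : ι → Ω) (h0 : ∀ i, A i ≠ 0 ∨ B i ≠ 0)
    (hinv : ∀ x : Ω, x ≠ 0 → x ≠ 1 → rootMultiplicity x⁻¹ (∏ i, (C (A i) + X * C (B i)))
      = rootMultiplicity x (∏ i, (C (A i) + X * C (B i))))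
    (hsub : ∀ x : Ω, x ≠ 0 → x ≠ 1 → rootMultiplicity (1 - x) (∏ i, (C (A i) + X * C (B i)))
      = rootMultiplicity x (∏ i, (C (A i) + X * C (B i)))) :
    S3St (fun i : {i // Good A B i} => - B i.1 / A i.1) := by
  set P := ∏ i, (C (A i) + X * C (B i)) with hP
  set T := (fun i : {i // Good A B i} => - B i.1 / A i.1) with hT
  have hT0 : ∀ v, T v ≠ 0 := fun v => div_ne_zero (neg_ne_zero.2 v.2.2.1) v.2.1
  have hT1 : ∀ v, T v ≠ 1 := by
    intro v h
    apply v.2.2.2
    have h1 := (div_eq_one_iff_eq v.2.1).1 h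
    rw [← h1]
    ring
  have hm : ∀ t : Ω, t ≠ 0 → t ≠ 1 → H85FD.mul T t = rootMultiplicity t⁻¹ P :=
    fun t h1 h2 => mul_eq_root A B h0 t h1 h2
  have hz : ∀ t : Ω, (∀ v, T v ≠ t) → H85FD.mul T t = 0 := by
    intro t h
    by_contra hne
    obtain ⟨v, hv⟩ := (mul_pos_iff T t).mp (Nat.pos_of_ne_zero hne)
    exact h v hv
  have e1 : ∀ y : Ω, H85FD.mul T y⁻¹ = H85FD.mul T y := by
    intro y
    by_cases hy0 : y = 0
    · rw [hy0, inv_zero]
    by_cases hy1 : y = 1
    · rw [hy1, inv_one]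
    rw [hm _ (inv_ne_zero hy0) (by rwa [Ne, inv_eq_one]), hm y hy0 hy1, inv_inv]
    exact (hinv y hy0 hy1).symm
  have e2 : ∀ y : Ω, H85FD.mul T (1 - y) = H85FD.mul T y := by
    intro y
    by_cases hy0 : y = 0
    · rw [hy0, sub_zero, hz 1 hT1, hz 0 hT0]
    by_cases hy1 : y = 1
    · rw [hy1, sub_self, hz 1 hT1, hz 0 hT0]
    have h1 : 1 - y ≠ 0 := fun h => hy1 (sub_eq_zero.1 h).symm
    have h2 : 1 - y ≠ 1 := fun h => hy0 (by linear_combination -h)
    rw [hm _ h1 h2, hm y hy0 hy1, hinv _ h1 h2, hsub y hy0 hy1]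
    exact (hinv y hy0 hy1).symm
  obtain ⟨σ, hσ⟩ := perm_of_mul T (fun y => y⁻¹) inv_inv e1
  obtain ⟨τ, hτ⟩ := perm_of_mul T (fun y => 1 - y) (fun y => by ring) e2
  exact ⟨hT1, ⟨σ, fun v => by rw [hσ]; exact inv_mul_cancel₀ (hT0 v)⟩,
    ⟨τ, fun v => by rw [hτ]; ring⟩⟩

end H55AB

end

section

/-!
# Project FOLD: the drop of the rank of an integer matrix modulo a prime
-/

set_option autoImplicit false

open Finset

namespace Pool.Agent.H85.Fold

/-- a determinant is divisible by a power of a prime -/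
theorem pow_dvd_det {r : ℕ} (M : Matrix (Fin r) (Fin r) ℤ) (p : ℕ) [Fact p.Prime] :
    (p : ℤ) ^ (r - (M.map (Int.cast : ℤ → ZMod p)).rank) ∣ M.det := by
  classical
  have hp : Nat.Prime p := Fact.out
  set Mp : Matrix (Fin r) (Fin r) (ZMod p) := M.map (Int.cast : ℤ → ZMod p) with hMp
  obtain ⟨W, Q, e, hW, hQ, hWQ⟩ := Matrix.exists_rank_normal_form Mp
  -- the lift of `Q`
  set Qt : Matrix (Fin r) (Fin r) ℤ := Matrix.of fun i j => ((Q i j).val : ℤ) with hQt
  have hQmap : Qt.map (Int.cast : ℤ → ZMod p) = Q := by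
    ext i j
    simp [hQt]
  set J : Finset (Fin r) := Finset.univ.filter fun j => (e j).isRight = true with hJ
  have hJc : J.card = r - Mp.rank := by
    have h1 : J.card = (Finset.univ.filter fun x : Fin Mp.rank ⊕ Fin (Fintype.card (Fin r) - Mp.rank) =>
        x.isRight = true).card := by
      rw [hJ]
      refine Finset.card_bij (fun j _ => e j) (fun j hj => ?_) (fun a _ b _ h => e.injective h)
        (fun x hx => ⟨e.symm x, ?_, e.apply_symm_apply x⟩)
      · simpa using hj
      · simpa using hx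
    rw [h1]
    have h2 : (Finset.univ.filter fun x : Fin Mp.rank ⊕ Fin (Fintype.card (Fin r) - Mp.rank) =>
        x.isRight = true) = Finset.univ.map Function.Embedding.inr := by
      ext x
      rcases x with x | x <;> simp
    rw [h2, Finset.card_map, Finset.card_univ, Fintype.card_fin, Fintype.card_fin]
  -- the columns in `J` of `Mp * Q` vanish
  have hcol : ∀ j ∈ J, ∀ i, (Mp * Q) i j = 0 := by
    intro j hj i
    have hj' : (e j).isRight = true := by simpa [hJ] using hj
    have h1 : ∀ i, (W * (Mp * Q)) i j = 0 := by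
      intro i
      rw [← mul_assoc, hWQ, Matrix.submatrix_apply]
      rcases hx : e j with x | x
      · rw [hx] at hj'; simp at hj'
      · rcases e i with z | z <;> simp [Matrix.fromBlocks]
    have h2 : W.mulVec (fun i => (Mp * Q) i j) = 0 := by
      funext i
      exact h1 i
    have h3 : (fun i => (Mp * Q) i j) = 0 := by
      have h4 := congrArg (fun v => (W⁻¹).mulVec v) h2
      simp only [Matrix.mulVec_mulVec, Matrix.mulVec_zero] at h4
      rw [Matrix.nonsing_inv_mul W ((Matrix.isUnit_iff_isUnit_det _).1 hW), Matrix.one_mulVec] at h4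
      exact h4
    exact congrFun h3 i
  have hdvd : ∀ j ∈ J, ∀ i, (p : ℤ) ∣ (M * Qt) i j := by
    intro j hj i
    rw [← ZMod.intCast_zmod_eq_zero_iff_dvd]
    have h1 : (((M * Qt) i j : ℤ) : ZMod p) = (Mp * Q) i j := by
      rw [← hQmap, hMp]
      simp only [Matrix.mul_apply, Matrix.map_apply, Int.cast_sum, Int.cast_mul]
    rw [h1, hcol j hj i]
  -- factor the columns
  set v : Fin r → ℤ := fun j => if j ∈ J then (p : ℤ) else 1 with hv
  have hdiv : ∀ i j, ∃ x : ℤ, (M * Qt) i j = v j * x := by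
    intro i j
    by_cases hj : j ∈ J
    · obtain ⟨x, hx⟩ := hdvd j hj i
      exact ⟨x, by rw [hx, hv]; simp [hj]⟩
    · exact ⟨(M * Qt) i j, by rw [hv]; simp [hj]⟩
  choose N hN using hdiv
  have hdet : (M * Qt).det = (p : ℤ) ^ (r - Mp.rank) * (Matrix.of N).det := by
    have h1 : M * Qt = Matrix.of fun i j => v j * (Matrix.of N) i j := by
      ext i j
      rw [hN i j]
      rfl
    rw [h1, Matrix.det_mul_row]
    congr 1
    rw [hv, Finset.prod_ite_mem, Finset.univ_inter, Finset.prod_const, hJc]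
  rw [Matrix.det_mul] at hdet
  have hcop : IsCoprime ((p : ℤ) ^ (r - Mp.rank)) Qt.det := by
    apply IsCoprime.pow_left
    rw [Int.isCoprime_iff_gcd_eq_one]
    have h1 : ¬ (p : ℤ) ∣ Qt.det := by
      rw [← ZMod.intCast_zmod_eq_zero_iff_dvd]
      have h2 : ((Qt.det : ℤ) : ZMod p) = Q.det := by
        rw [← hQmap]
        have := (Int.castRingHom (ZMod p)).map_det Qt
        simpa using this
      rw [h2]
      exact ((Matrix.isUnit_iff_isUnit_det _).1 hQ).ne_zero
    have h3 := (Int.prime_iff_natAbs_prime.2 (by simpa using hp) : Prime (p : ℤ))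
    exact Int.isCoprime_iff_gcd_eq_one.1 ((Prime.coprime_iff_not_dvd h3).2 h1)
  exact hcop.dvd_of_dvd_mul_right (Dvd.intro _ hdet.symm)

end Pool.Agent.H85.Fold

end

section

/-!
# HF KerM: a `d`-dimensional kernel modulo `p` makes an integral determinant divisible by `p^d`

PROOF. `Fold.pow_dvd_det` (helper85): `p ^ (r - rank)` divides the determinant of an integral `r × r` matrix; reindex, and
rank + dimension of the kernel `= r`.
-/

set_option autoImplicit false

namespace Pool.Agent.H80.HF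

open Finset

theorem det_pow (p : ℕ) [Fact p.Prime] {ι : Type} [Fintype ι] [DecidableEq ι]
    (M : Matrix ι ι ℤ) (V : Submodule (ZMod p) (ι → ZMod p))
    (hV : ∀ v ∈ V, (M.map (Int.castRingHom (ZMod p))).mulVec v = 0) (d : ℕ)
    (hd : d ≤ Module.finrank (ZMod p) V) :
    (p : ℤ) ^ d ∣ M.det := by
  classical
  have e := Fintype.equivFin ι
  have h := Pool.Agent.H85.Fold.pow_dvd_det (M.submatrix e.symm e.symm) p
  rw [Matrix.det_submatrix_equiv_self] at h
  refine dvd_trans (pow_dvd_pow _ ?_) h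
  have h1 : ((M.submatrix e.symm e.symm).map (Int.cast : ℤ → ZMod p)).rank =
      (M.map (Int.castRingHom (ZMod p))).rank := by
    have h2 : (M.submatrix e.symm e.symm).map (Int.cast : ℤ → ZMod p) =
        (M.map (Int.castRingHom (ZMod p))).submatrix e.symm e.symm := rfl
    rw [h2]
    exact Matrix.rank_submatrix _ _ _
  rw [h1]
  have h3 := LinearMap.finrank_range_add_finrank_ker (M.map (Int.castRingHom (ZMod p))).mulVecLin
  have h4 : (M.map (Int.castRingHom (ZMod p))).rank =
      Module.finrank (ZMod p) (LinearMap.range (M.map (Int.castRingHom (ZMod p))).mulVecLin) := rfl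
  rw [← h4, Module.finrank_fintype_fun_eq_card] at h3
  have h5 : V ≤ LinearMap.ker (M.map (Int.castRingHom (ZMod p))).mulVecLin := fun v hv => hV v hv
  have h6 := Submodule.finrank_mono h5
  omega

end Pool.Agent.H80.HF

end

section

/-!
# Project AB, D2a: real quadratic fields, and fields generated by square roots
-/

namespace H88AB

open NumberField IsDedekindDomain

theorem conj_of_tot {K : Type*} [Field K] [NumberField K] [IsTotallyReal K] (φ : K →+* ℂ) :
    (starRingEnd ℂ).comp φ = φ := by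
  have h := IsTotallyReal.isReal (InfinitePlace.mk φ)
  rw [InfinitePlace.isReal_mk_iff] at h
  exact h

end H88AB

end

section

/-!
# Frobenius classes: the residue degrees of all the primes above `p`

`count_deg`: `C / A` Galois with group `G`, `C / B` Galois with group `H ≤ G`, `p` unramified in `C`,
`Q₀ | p` with decomposition group `D`: for every `d`
`#H · d · #{v | p : f(v) = d} = #{τ ∈ G : d · #(τ D τ⁻¹ ∩ H) = #D}`.
So the residue degrees in `K` of the primes above `p` depend only on the decomposition group.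
-/

set_option autoImplicit false
set_option linter.unusedSectionVars false

open scoped Pointwise NumberField
open MulAction Ideal Finset Filter NumberField IsDedekindDomain

namespace Pool.Agent.H89.FrobD

section loc

variable {A B C G : Type*} [CommRing A] [CommRing B] [CommRing C] [IsDomain A] [IsDomain B] [IsDomain C]
  [Algebra A B] [Algebra B C] [Algebra A C] [IsScalarTower A B C]
  [Group G] [Finite G] [MulSemiringAction G C] [IsGaloisGroup G A C] (H : Subgroup G)
  [IsGaloisGroup H B C]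

theorem card_stab_smul (τ : G) (Q : Ideal C) :
    Nat.card (stabilizer G (τ • Q)) = Nat.card (stabilizer G Q) := by
  rw [stabilizer_smul_eq_stabilizer_map_conj]
  exact (Nat.card_congr ((stabilizer G Q).equivMapOfInjective _ (MulAut.conj τ).injective).toEquiv).symm

/-- the fibres of `τ ↦ τ • Q₀` -/
theorem card_fiber (Q₀ Q : Ideal C) (h : ∃ τ : G, τ • Q₀ = Q) :
    Nat.card {τ : G // τ • Q₀ = Q} = Nat.card (stabilizer G Q₀) := by
  obtain ⟨τ₁, hτ₁⟩ := h
  refine Nat.card_congr
    { toFun := fun τ => ⟨τ₁⁻¹ * τ.1, by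
        rw [mem_stabilizer_iff, mul_smul, τ.2, ← hτ₁, inv_smul_smul]⟩
      invFun := fun s => ⟨τ₁ * s.1, by
        have := s.2
        rw [mem_stabilizer_iff] at this
        rw [mul_smul, this, hτ₁]⟩
      left_inv := fun τ => by
        apply Subtype.ext
        show τ₁ * (τ₁⁻¹ * τ.1) = τ.1
        rw [mul_inv_cancel_left]
      right_inv := fun s => by
        apply Subtype.ext
        show τ₁⁻¹ * (τ₁ * s.1) = s.1
        rw [inv_mul_cancel_left] }

/-- THE COUNT -/
theorem count_deg (p : Ideal A) [p.IsPrime] [PerfectField p.ResidueField]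
    (hperf : ∀ v : Ideal B, ∀ _ : v.IsPrime, PerfectField v.ResidueField)
    (hC : (p.primesOver C).Finite) (hB : (p.primesOver B).Finite)
    (hne : ∀ v : Ideal B, v.IsPrime → ∃ Q : Ideal C, Q.IsPrime ∧ Q.LiesOver v)
    (hun : ∀ Q ∈ p.primesOver C, Nat.card (Ideal.inertia G Q) = 1)
    (Q₀ : Ideal C) (hQ₀ : Q₀ ∈ p.primesOver C) (d : ℕ) :
    Nat.card H * d * (hB.toFinset.filter (fun v => v.inertiaDeg A = d)).card =
      Nat.card {τ : G // d * Nat.card (stabilizer H (τ • Q₀)) = Nat.card (stabilizer G Q₀)} := by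
  classical
  have hQ₀p := hQ₀.1
  have hQ₀l := hQ₀.2
  have horb : MulAction.orbit G Q₀ = p.primesOver C := Algebra.IsInvariant.orbit_eq_primesOver A C G p Q₀
  set e := Nat.card (stabilizer G Q₀) with he
  have hepos : 0 < e := Nat.card_pos
  have hstab : ∀ Q ∈ p.primesOver C, Nat.card (stabilizer G Q) = e := by
    intro Q hQ
    rw [← horb] at hQ
    obtain ⟨τ, hτ⟩ := hQ
    have hτ' : τ • Q₀ = Q := hτ
    rw [← hτ', card_stab_smul]
  have hdeg : ∀ Q ∈ p.primesOver C, (Q.under B).inertiaDeg A * Nat.card (stabilizer H Q) = e := by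
    intro Q hQ
    have := hQ.1
    have := hQ.2
    have hv : (Q.under B).IsPrime := inferInstance
    have := hperf (Q.under B) hv
    rw [deg_mul H p Q (Q.under B) (hun Q hQ), hstab Q hQ]
  set T := hC.toFinset.filter (fun Q => (Q.under B).inertiaDeg A = d) with hT
  -- step 1
  have h1 : T.card * e = Nat.card H * d * (hB.toFinset.filter (fun v => v.inertiaDeg A = d)).card := by
    have hmaps : ∀ Q ∈ T, Q.under B ∈ hB.toFinset.filter (fun v => v.inertiaDeg A = d) := by
      intro Q hQ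
      obtain ⟨hQ1, hQ2⟩ := mem_filter.1 hQ
      rw [Set.Finite.mem_toFinset] at hQ1
      have := hQ1.1
      have := hQ1.2
      have : (Q.under B).LiesOver p := Ideal.LiesOver.tower_bot Q (Q.under B) p
      refine mem_filter.2 ⟨?_, hQ2⟩
      rw [Set.Finite.mem_toFinset]
      exact ⟨inferInstance, inferInstance⟩
    rw [Finset.card_eq_sum_card_fiberwise (f := fun Q : Ideal C => Q.under B)
      (t := hB.toFinset.filter (fun v => v.inertiaDeg A = d)) (fun Q hQ => hmaps Q hQ),
      sum_mul, mul_comm (Nat.card H * d), ← smul_eq_mul, ← sum_const]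
    refine sum_congr rfl fun v hv => ?_
    obtain ⟨hv1, hv2⟩ := mem_filter.1 hv
    rw [Set.Finite.mem_toFinset] at hv1
    have := hv1.1
    have := hv1.2
    have hkey : ∀ Q : Ideal C, Q ∈ v.primesOver C → Q ∈ p.primesOver C ∧ Q.under B = v := by
      intro Q hQ
      have := hQ.1
      have := hQ.2
      exact ⟨⟨hQ.1, Ideal.LiesOver.trans Q v p⟩, hQ.2.over.symm⟩
    have hset : T.filter (fun Q => Q.under B = v) =
        (hC.subset (fun Q (hQ : Q ∈ v.primesOver C) => (hkey Q hQ).1) : (v.primesOver C).Finite).toFinset := by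
      ext Q
      simp only [hT, mem_filter, Set.Finite.mem_toFinset]
      constructor
      · rintro ⟨⟨hQ, _⟩, hQv⟩
        exact ⟨hQ.1, ⟨hQv.symm⟩⟩
      · intro hQ
        obtain ⟨h2, h3⟩ := hkey Q hQ
        exact ⟨⟨h2, by rw [h3]; exact hv2⟩, h3⟩
    rw [hset, ← Set.ncard_eq_toFinset_card _ _]
    obtain ⟨Q, hQ, hQv⟩ := hne v hv1.1
    have h4 := card_over H v Q
    obtain ⟨h5, h6⟩ := hkey Q ⟨hQ, hQv⟩
    have h7 := hdeg Q h5
    rw [h6, hv2] at h7
    calc (v.primesOver C).ncard * e = (v.primesOver C).ncard * (d * Nat.card (stabilizer H Q)) := by rw [h7]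
      _ = ((v.primesOver C).ncard * Nat.card (stabilizer H Q)) * d := by ring
      _ = Nat.card H * d := by rw [h4]
  rw [← h1]
  -- step 2
  have hft : Fintype G := Fintype.ofFinite G
  have h2 : Nat.card {τ : G // d * Nat.card (stabilizer H (τ • Q₀)) = e} =
      (univ.filter (fun τ : G => d * Nat.card (stabilizer H (τ • Q₀)) = e)).card := by
    rw [Nat.card_eq_fintype_card, Fintype.card_subtype]
  rw [h2]
  have hmem : ∀ τ : G, τ • Q₀ ∈ p.primesOver C := by
    intro τ
    rw [← horb]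
    exact ⟨τ, rfl⟩
  have hiff : ∀ τ : G, d * Nat.card (stabilizer H (τ • Q₀)) = e ↔ τ • Q₀ ∈ T := by
    intro τ
    have h3 := hdeg _ (hmem τ)
    have hpos : 0 < Nat.card (stabilizer H (τ • Q₀)) := Nat.card_pos
    rw [hT, mem_filter, Set.Finite.mem_toFinset]
    constructor
    · intro h4
      exact ⟨hmem τ, Nat.eq_of_mul_eq_mul_right hpos (h3.trans h4.symm)⟩
    · rintro ⟨_, h4⟩
      rw [← h4]
      exact h3
  rw [Finset.card_eq_sum_card_fiberwise (f := fun τ : G => τ • Q₀) (t := T)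
    (fun τ hτ => (hiff τ).1 (mem_filter.1 (mem_coe.1 hτ)).2)]
  rw [← smul_eq_mul, ← sum_const]
  refine (sum_congr rfl fun Q hQ => ?_).symm
  have hQ' := (mem_filter.1 hQ).1
  rw [Set.Finite.mem_toFinset, ← horb] at hQ'
  obtain ⟨τ, hτ⟩ := hQ'
  have h3 := card_fiber (G := G) Q₀ Q ⟨τ, hτ⟩
  rw [← he, Nat.card_eq_fintype_card, Fintype.card_subtype] at h3
  refine Eq.trans ?_ h3
  congr 1
  ext ρ
  simp only [mem_filter, mem_univ, true_and]
  constructor
  · exact fun h => h.2
  · intro h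
    refine ⟨(hiff ρ).2 (by rw [h]; exact hQ), h⟩

end loc

section nf

variable {L : Type} [Field L] [NumberField L] [IsGalois ℚ L]

end nf

end Pool.Agent.H89.FrobD

end

section

/-!
# Frobenius density: number fields

For `L / ℚ` Galois and a prime `p` not dividing the discriminant:
`Σ_(E ≤ H) #E · #{Q | p : D(Q) = E} = #H · np (L^H) p`.
-/

set_option linter.unusedSectionVars false

open scoped Pointwise NumberField
open MulAction Ideal Finset

namespace Pool.Agent.H89.FrobD

open Pool.Agent.H24.FD (np np_eq cI)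

/-- the prime ideal `(p)` of `ℤ` -/
abbrev pZ (p : ℕ) : Ideal ℤ := Ideal.span {(p : ℤ)}

theorem pZ_ne_bot {p : ℕ} (hp : p.Prime) : pZ p ≠ ⊥ := by
  simp [pZ, hp.ne_zero]

theorem pZ_prime {p : ℕ} (hp : p.Prime) : (pZ p).IsPrime :=
  (Ideal.span_singleton_prime (by exact_mod_cast hp.ne_zero)).2 (Nat.prime_iff_prime_int.1 hp)

theorem pZ_max {p : ℕ} (hp : p.Prime) : (pZ p).IsMaximal :=
  (pZ_prime hp).isMaximal (pZ_ne_bot hp)

theorem fin_over (K : Type) [Field K] [NumberField K] {p : ℕ} (hp : p.Prime) :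
    ((pZ p).primesOver (𝓞 K)).Finite := by
  have := pZ_max hp
  exact IsDedekindDomain.primesOver_finite (pZ p) (𝓞 K)

/-- primes of degree one -/
theorem card_deg_one (K : Type) [Field K] [NumberField K] {p : ℕ} (hp : p.Prime) :
    ((fin_over K hp).toFinset.filter (fun v => v.inertiaDeg ℤ = 1)).card = np K p := by
  classical
  rw [np_eq K p hp, cI]
  have h : ∀ P : Ideal (𝓞 K), Ideal.absNorm P = p ↔
      P ∈ (fin_over K hp).toFinset.filter (fun v => v.inertiaDeg ℤ = 1) := by
    intro P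
    rw [mem_filter, Set.Finite.mem_toFinset]
    constructor
    · intro hP
      have hPp : P.IsPrime := Ideal.isPrime_of_irreducible_absNorm (by rw [hP]; exact hp)
      have hmem : ((p : ℕ) : 𝓞 K) ∈ P := by
        have := Ideal.absNorm_mem P
        rwa [hP] at this
      have hlie : P.LiesOver (pZ p) := by
        constructor
        refine (pZ_max hp).eq_of_le ?_ ?_
        · exact Ideal.IsPrime.ne_top inferInstance
        · rw [Ideal.span_singleton_le_iff_mem, Ideal.under_def, Ideal.mem_comap]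
          simpa using hmem
      refine ⟨⟨hPp, hlie⟩, ?_⟩
      have h1 := Ideal.pow_inertiaDeg p P
      rw [hP] at h1
      exact Nat.pow_right_injective hp.two_le (by simpa using h1)
    · rintro ⟨⟨hPp, hlie⟩, hdeg⟩
      rw [← Ideal.pow_inertiaDeg p P, hdeg, pow_one]
  rw [← Nat.card_eq_finsetCard]
  exact (Nat.card_congr (Equiv.subtypeEquivRight h)).symm

variable (L : Type) [Field L] [NumberField L] [IsGalois ℚ L]

/-- the set of primes above `p` with decomposition group `E` -/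
def setE (E : Subgroup Gal(L/ℚ)) (p : ℕ) : Set (Ideal (𝓞 L)) :=
  {Q : Ideal (𝓞 L) | Q ∈ (pZ p).primesOver (𝓞 L) ∧ stabilizer Gal(L/ℚ) Q = E}

/-- the number of primes above `p` with decomposition group `E` -/
noncomputable def bE (E : Subgroup Gal(L/ℚ)) (p : ℕ) : ℕ := (setE L E p).ncard

/-- the fixed field -/
abbrev fixF (H : Subgroup Gal(L/ℚ)) : IntermediateField ℚ L := FixedPoints.intermediateField H

instance galH (H : Subgroup Gal(L/ℚ)) : IsGaloisGroup H (𝓞 (fixF L H)) (𝓞 L) :=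
  IsGaloisGroup.of_isFractionRing H (𝓞 (fixF L H)) (𝓞 L) (fixF L H) L

/-- `p` is unramified -/
theorem unram {p : ℕ} (hp : p.Prime) (hd : ¬ (p : ℤ) ∣ NumberField.discr L) :
    ∀ Q ∈ (pZ p).primesOver (𝓞 L), Nat.card (Ideal.inertia Gal(L/ℚ) Q) = 1 := by
  intro Q hQ
  have := hQ.1
  have := hQ.2
  have := pZ_prime hp
  have := pZ_max hp
  have hQm : Q.IsMaximal := Ideal.IsMaximal.of_liesOver_isMaximal Q (pZ p)
  have h1 : Algebra.IsUnramifiedAt ℤ Q :=
    (NumberField.not_dvd_discr_iff_forall_liesOver L (𝓞 L) (Nat.prime_iff_prime_int.1 hp)).1 hd Q hQm hQ.2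
  rw [Ideal.card_inertia_eq_ramificationIdxIn (pZ p) Q,
    Ideal.ramificationIdxIn_eq_ramificationIdx (pZ p) Q Gal(L/ℚ)]
  exact Ideal.ramificationIdx_eq_one_of_isUnramifiedAt

theorem exists_over (H : Subgroup Gal(L/ℚ)) (v : Ideal (𝓞 (fixF L H))) (hv : v.IsPrime) :
    ∃ Q : Ideal (𝓞 L), Q.IsPrime ∧ Q.LiesOver v := by
  obtain ⟨Q, hQ, hQv⟩ := (inferInstance : Nonempty (v.primesOver (𝓞 L)))
  exact ⟨Q, hQ, hQv⟩

/-- THE IDENTITY -/
theorem id_bE (H : Subgroup Gal(L/ℚ)) {p : ℕ} (hp : p.Prime) (hd : ¬ (p : ℤ) ∣ NumberField.discr L)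
    [Fintype (Subgroup Gal(L/ℚ))] [DecidablePred fun E : Subgroup Gal(L/ℚ) => E ≤ H] :
    ∑ E ∈ univ.filter (fun E : Subgroup Gal(L/ℚ) => E ≤ H), Nat.card E * bE L E p =
      Nat.card H * np (fixF L H) p := by
  classical
  have := pZ_prime hp
  have hfin := fin_over L hp
  have h1 := local_id (A := ℤ) (B := 𝓞 (fixF L H)) (C := 𝓞 L) H (pZ p) (fun v hv => inferInstance)
    hfin (fin_over (fixF L H) hp) (exists_over L H) (unram L hp hd)
  rw [card_deg_one (fixF L H) hp] at h1
  rw [← h1]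
  rw [← sum_fiberwise_of_maps_to (s := hfin.toFinset.filter (fun Q => stabilizer Gal(L/ℚ) Q ≤ H))
    (t := univ.filter (fun E : Subgroup Gal(L/ℚ) => E ≤ H)) (g := fun Q => stabilizer Gal(L/ℚ) Q)
    (fun Q hQ => mem_filter.2 ⟨mem_univ _, (mem_filter.1 hQ).2⟩)]
  refine sum_congr rfl fun E hE => ?_
  have hEH := (mem_filter.1 hE).2
  rw [sum_congr rfl (g := fun _ => Nat.card E) (fun Q hQ => by rw [(mem_filter.1 hQ).2])]
  rw [sum_const, smul_eq_mul, mul_comm]
  congr 1
  have hfinE : (setE L E p).Finite := hfin.subset fun Q hQ => hQ.1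
  rw [bE, Set.ncard_eq_toFinset_card _ hfinE]
  congr 1
  ext Q
  simp only [Set.Finite.mem_toFinset, mem_filter, setE, Set.mem_setOf_eq]
  constructor
  · rintro ⟨a, b⟩
    exact ⟨⟨a, b ▸ hEH⟩, b⟩
  · rintro ⟨⟨a, _⟩, b⟩
    exact ⟨a, b⟩

end Pool.Agent.H89.FrobD

end

section

/-!
# Frobenius elements

For `p` unramified in the Galois extension `L / ℚ` and `Q | p`, there is `τ` with `τ x ≡ x^p` modulo `Q` and
`⟨τ⟩ = D(Q)`; and a ring homomorphism `φ : 𝓞 L → Ω` with `φ (τ x) = φ(x)^p`.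
-/

set_option linter.unusedSectionVars false

open scoped Pointwise NumberField
open MulAction Ideal Finset Polynomial

namespace Pool.Agent.H89.FrobD

variable (L : Type) [Field L] [NumberField L] [IsGalois ℚ L]

theorem mem_of_over {p : ℕ} {Q : Ideal (𝓞 L)} (hQ : Q ∈ (pZ p).primesOver (𝓞 L)) : (p : 𝓞 L) ∈ Q := by
  have h1 : (p : ℤ) ∈ Q.under ℤ := by
    rw [← hQ.2.over]
    exact Ideal.mem_span_singleton_self _
  have h2 : algebraMap ℤ (𝓞 L) (p : ℤ) ∈ Q := h1
  simpa using h2

theorem ne_bot_of_over {p : ℕ} (hp : p.Prime) {Q : Ideal (𝓞 L)} (hQ : Q ∈ (pZ p).primesOver (𝓞 L)) : Q ≠ ⊥ := by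
  intro h
  have := mem_of_over L hQ
  rw [h, Ideal.mem_bot, Nat.cast_eq_zero] at this
  exact hp.ne_zero this

/-- the Frobenius element generates the decomposition group -/
theorem frob_elt {p : ℕ} (hp : p.Prime) (hd : ¬ (p : ℤ) ∣ NumberField.discr L) (Q : Ideal (𝓞 L))
    (hQ : Q ∈ (pZ p).primesOver (𝓞 L)) :
    ∃ τ : Gal(L/ℚ), Subgroup.zpowers τ = stabilizer Gal(L/ℚ) Q ∧ ∀ x : 𝓞 L, τ • x - x ^ p ∈ Q := by
  classical
  have hQp := hQ.1
  have hQl := hQ.2
  have := pZ_prime hp
  have hQ0 := ne_bot_of_over L hp hQ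
  have hmax : Q.IsMaximal := hQp.isMaximal hQ0
  have hfin : Finite (𝓞 L ⧸ Q) := Ideal.finiteQuotientOfFreeOfNeBot Q hQ0
  obtain ⟨τ, hτ⟩ := IsArithFrobAt.exists_of_isInvariant ℤ Gal(L/ℚ) Q
  have hcardZ : Nat.card (ℤ ⧸ Q.under ℤ) = p := by
    rw [← hQl.over]
    have h := Int.card_ideal_quot p
    exact h
  have hτ' : ∀ x : 𝓞 L, τ • x - x ^ p ∈ Q := by
    intro x
    have h := hτ x
    rw [hcardZ] at h
    exact h
  refine ⟨τ, ?_, hτ'⟩
  have hmem : τ ∈ stabilizer Gal(L/ℚ) Q := hτ.mem_stabilizer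
  have hle : Subgroup.zpowers τ ≤ stabilizer Gal(L/ℚ) Q := by rwa [Subgroup.zpowers_le]
  refine Subgroup.eq_of_le_of_card_ge hle ?_
  rw [Nat.card_zpowers]
  -- the size of the decomposition group
  have h1 : Nat.card (stabilizer Gal(L/ℚ) Q) = Q.inertiaDeg ℤ := by
    have := card_stabilizer_eq_card_inertia_mul_finrank (G := Gal(L/ℚ)) (pZ p) Q
    rw [unram L hp hd Q hQ, one_mul] at this
    exact this
  rw [h1]
  -- powers
  have hpow : ∀ (k : ℕ) (x : 𝓞 L), τ ^ k • x - x ^ p ^ k ∈ Q := by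
    intro k
    induction k with
    | zero => intro x; simp
    | succ k ih =>
      intro x
      have h2 := ih (τ • x)
      have h3 : (τ • x) ^ p ^ k - (x ^ p) ^ p ^ k ∈ Q := by
        rw [← Ideal.Quotient.eq] at *
        have h4 := hτ' x
        rw [← Ideal.Quotient.eq] at h4
        rw [map_pow, h4, map_pow, map_pow, map_pow]
      have h5 : τ ^ (k + 1) • x = τ ^ k • (τ • x) := by rw [pow_succ, mul_smul]
      rw [h5, pow_succ', pow_mul]
      have := Q.add_mem h2 h3
      simpa using this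
  have hord := hpow (orderOf τ)
  have hopos : 0 < orderOf τ := orderOf_pos τ
  -- roots of `X^(p^k) - X`
  let _ : Field (𝓞 L ⧸ Q) := Ideal.Quotient.field Q
  have hroots : Nat.card (𝓞 L ⧸ Q) ≤ p ^ orderOf τ := by
    have hft : Fintype (𝓞 L ⧸ Q) := Fintype.ofFinite _
    have hlt : 1 < p ^ orderOf τ := Nat.one_lt_pow hopos.ne' hp.one_lt
    have hne : (X ^ (p ^ orderOf τ) - X : (𝓞 L ⧸ Q)[X]) ≠ 0 := FiniteField.X_pow_card_sub_X_ne_zero _ hlt
    have hsub : (Finset.univ : Finset (𝓞 L ⧸ Q)) ⊆ (X ^ (p ^ orderOf τ) - X : (𝓞 L ⧸ Q)[X]).roots.toFinset := by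
      intro y _
      obtain ⟨x, rfl⟩ := Ideal.Quotient.mk_surjective y
      rw [Multiset.mem_toFinset, mem_roots hne, IsRoot.def, eval_sub, eval_pow, eval_X, sub_eq_zero]
      have h := hord x
      rw [pow_orderOf_eq_one, one_smul, ← Ideal.Quotient.eq, map_pow] at h
      exact h.symm
    rw [Nat.card_eq_fintype_card, ← Finset.card_univ]
    refine (Finset.card_le_card hsub).trans ((Multiset.toFinset_card_le _).trans ((card_roots' _).trans ?_))
    rw [FiniteField.X_pow_card_sub_X_natDegree_eq _ hlt]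
  have hcard : Nat.card (𝓞 L ⧸ Q) = p ^ Q.inertiaDeg ℤ := by
    rw [Ideal.pow_inertiaDeg p Q]
    rfl
  rw [hcard] at hroots
  exact (Nat.pow_le_pow_iff_right hp.one_lt).1 hroots

/-- a reduction with the Frobenius -/
theorem exists_phi {p : ℕ} [hpf : Fact p.Prime] (Ω : Type*) [Field Ω] [IsAlgClosed Ω] [CharP Ω p]
    (Q : Ideal (𝓞 L)) (hQ : Q ∈ (pZ p).primesOver (𝓞 L)) :
    ∃ φ : 𝓞 L →+* Ω, RingHom.ker φ = Q := by
  have hqp : p.Prime := Fact.out
  have hP0 := ne_bot_of_over L hqp hQ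
  have hqP := mem_of_over L hQ
  have hP := hQ.1
  have hmax : Q.IsMaximal := hP.isMaximal hP0
  let _ : Field (𝓞 L ⧸ Q) := Ideal.Quotient.field Q
  have hchar : CharP (𝓞 L ⧸ Q) p := by
    have h1 : ((p : ℕ) : 𝓞 L ⧸ Q) = 0 := by
      have : ((p : ℕ) : 𝓞 L ⧸ Q) = Ideal.Quotient.mk Q (p : 𝓞 L) := by simp
      rw [this, Ideal.Quotient.eq_zero_iff_mem]
      exact hqP
    obtain ⟨r, hr⟩ := CharP.exists (𝓞 L ⧸ Q)
    have h2 : r ∣ p := (CharP.cast_eq_zero_iff (𝓞 L ⧸ Q) r p).1 h1
    rcases (Nat.dvd_prime hqp).1 h2 with h3 | h3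
    · exfalso
      rw [h3] at hr
      exact CharP.ringChar_ne_one (R := 𝓞 L ⧸ Q) (CharP.eq _ (ringChar.charP _) hr)
    · rw [← h3]
      exact hr
  let _ : Algebra (ZMod p) (𝓞 L ⧸ Q) := ZMod.algebra _ p
  let _ : Algebra (ZMod p) Ω := ZMod.algebra _ p
  have hfin : Finite (𝓞 L ⧸ Q) := Ideal.finiteQuotientOfFreeOfNeBot Q hP0
  have halg : Algebra.IsAlgebraic (ZMod p) (𝓞 L ⧸ Q) := by
    have : Module.Finite (ZMod p) (𝓞 L ⧸ Q) := Module.Finite.of_finite
    infer_instance
  refine ⟨((IsAlgClosed.lift : (𝓞 L ⧸ Q) →ₐ[ZMod p] Ω) : (𝓞 L ⧸ Q) →+* Ω).comp (Ideal.Quotient.mk Q), ?_⟩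
  ext x
  rw [RingHom.mem_ker, RingHom.comp_apply, ← Ideal.Quotient.eq_zero_iff_mem]
  constructor
  · intro h
    exact (RingHom.injective ((IsAlgClosed.lift : (𝓞 L ⧸ Q) →ₐ[ZMod p] Ω) : (𝓞 L ⧸ Q) →+* Ω))
      (by rw [h, map_zero])
  · intro h
    rw [h, map_zero]

/-- the reduction with its Frobenius -/
theorem exists_frob {p : ℕ} [hpf : Fact p.Prime] (hd : ¬ (p : ℤ) ∣ NumberField.discr L)
    (Ω : Type*) [Field Ω] [IsAlgClosed Ω] [CharP Ω p]
    (E : Subgroup Gal(L/ℚ)) (hE : (setE L E p).Nonempty) :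
    ∃ (φ : 𝓞 L →+* Ω) (τ : Gal(L/ℚ)), Subgroup.zpowers τ = E ∧ ∀ x : 𝓞 L, φ (τ • x) = φ x ^ p := by
  obtain ⟨Q, hQ, hQE⟩ := hE
  obtain ⟨τ, hτ, hτ'⟩ := frob_elt L hpf.out hd Q hQ
  obtain ⟨φ, hφ⟩ := exists_phi L (p := p) Ω Q hQ
  refine ⟨φ, τ, hτ.trans hQE, fun x => ?_⟩
  have h := hτ' x
  rw [← hφ, RingHom.mem_ker, map_sub, map_pow, sub_eq_zero] at h
  exact h

end Pool.Agent.H89.FrobD

end

section

/-!
# Project FC9, module LocDeg

The number of members of a reduced family which kill `x` is the sum `mm K q x` of the local degrees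
of the primes above `q` containing `x`.

PROOF. It is enough to show that for every prime `P ∋ q` of `𝓞 K` the number `n_P` of the `i` with
`ker ψ_i = P` is `e f`, `e` the ramification index and `f` the inertia degree of `P` (then sum over the
`P` with `x ∈ P`: `ψ_i x = 0` iff `x ∈ ker ψ_i`, and `ker ψ_i` is a prime containing `q`).
Choose `y ∈ P` which lies in no other prime containing `q`. By `redFam_eval` (for `nf K y (-1)`,
or `nf K y 1`) the polynomial `N(y + X)` modulo `q` is `∏ (ψ_i y + X)`, so `X` divides it exactly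
`n_P` times (`ψ_i y = 0` iff `ker ψ_i = P`). On the other hand it is up to sign of `X` the
characteristic polynomial of the multiplication by `-y` on the `𝔽_q`-vector space
`V = 𝓞 K / (q)`, and the multiplicity of its zero `0` is the dimension of the generalised kernel of
`y` (Mathlib: `LinearMap.finrank_maxGenEigenspace_zero_eq`, `Module.End`...), which is the dimension
of `𝓞 K / P^e`, because `V = ∏_{P'} 𝓞 K / P'^{e(P')}`, `y` is nilpotent on the factor of `P` and
invertible on the others; `|𝓞 K / P^e| = |𝓞 K / P|^e = q^(e f)`.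
(Alternative proof with the Galois closure `N`: for the family of `exists_redFam` count the
elements of the Galois group `G` of `N`; and show that `n_P` does not depend on the family,
being the multiplicity of `X` in `N(y + X)` modulo `q`.
Another proof: `n_P ≥ e f` for all `P` and `∑ n_P = d = ∑ e f` (`Ideal.sum_ramification_inertia`).
For `n_P ≥ e f` it is enough that `q^(e f)`..., e.g. take `y` with exponent exactly `1` at `P` and
`0` at the other primes above `q`, and consider `|𝓞 K / (y^n, q)|`.)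
-/

namespace H9FC

open Polynomial NumberField

section mult

variable {K : Type*} [Field K] [NumberField K]

/-- the matrix of the multiplication by `x`, modulo `q` -/
private noncomputable def LocDeg_A (K : Type*) [Field K] [NumberField K] (q : ℕ) (x : 𝓞 K) :
    Matrix (Module.Free.ChooseBasisIndex ℤ (𝓞 K)) (Module.Free.ChooseBasisIndex ℤ (𝓞 K)) (ZMod q) :=
  (Algebra.leftMulMatrix (RingOfIntegers.basis K) x).map (Int.castRingHom (ZMod q))

private theorem LocDeg_nf (x : 𝓞 K) :
    nf K (-x) 1 = (Algebra.leftMulMatrix (RingOfIntegers.basis K) x).charpoly := by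
  unfold nf Matrix.charpoly Matrix.charmatrix
  congr 1
  rw [map_neg, map_one]
  ext i j
  simp [Matrix.scalar_apply, Matrix.diagonal, Matrix.one_apply]
  by_cases hij : i = j
  · simp [hij, add_comm, sub_eq_add_neg]
  · simp [hij]

private theorem LocDeg_card (q : ℕ) [Fact q.Prime] {Ω : Type*} [Field Ω] [CharP Ω q]
    {ψ : Fin (Module.finrank ℚ K) → (𝓞 K →+* Ω)} (hψ : IsRedFam ψ) (x : 𝓞 K) :
    Nat.card {i // ψ i x = 0} = (LocDeg_A K q x).charpoly.rootMultiplicity 0 := by
  classical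
  let f : ZMod q →+* Ω := ZMod.castHom (dvd_refl q) Ω
  have hf : Function.Injective f := f.injective
  have h1 : (LocDeg_A K q x).charpoly.map f = ∏ i, (X - C (ψ i x)) := by
    unfold LocDeg_A
    rw [Matrix.charpoly_map, ← LocDeg_nf, Polynomial.map_map]
    have h2 : f.comp (Int.castRingHom (ZMod q)) = Int.castRingHom Ω := RingHom.ext_int _ _
    rw [h2, hψ (-x) 1]
    refine Finset.prod_congr rfl fun i _ => ?_
    rw [map_neg, map_one, C_neg, C_1, mul_one]
    ring
  rw [eq_rootMultiplicity_map hf, map_zero, h1, ← count_roots]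
  have h3 : (∏ i, (X - C (ψ i x))).roots = (Finset.univ.val.map (fun i => ψ i x)) := by
    rw [← roots_multiset_prod_X_sub_C (Finset.univ.val.map (fun i => ψ i x)), Multiset.map_map]
    rfl
  rw [h3, Multiset.count_map, Nat.card_eq_fintype_card, Fintype.card_subtype]
  rw [Finset.card_def, Finset.filter_val]
  congr 1
  refine Multiset.filter_congr fun i _ => ?_
  exact eq_comm

end mult

section coker

variable {K : Type*} [Field K] [NumberField K]

/-- coordinates modulo `q` -/
private noncomputable def LocDeg_pi (K : Type*) [Field K] [NumberField K] (q : ℕ) :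
    𝓞 K →+ (Module.Free.ChooseBasisIndex ℤ (𝓞 K) → ZMod q) where
  toFun v := fun j => (((RingOfIntegers.basis K).repr v j : ℤ) : ZMod q)
  map_zero' := by
    ext j
    simp
  map_add' v w := by
    ext j
    simp

private theorem LocDeg_pi_apply (q : ℕ) (v : 𝓞 K) (j : Module.Free.ChooseBasisIndex ℤ (𝓞 K)) :
    LocDeg_pi K q v j = (((RingOfIntegers.basis K).repr v j : ℤ) : ZMod q) := rfl

private theorem LocDeg_vec (w : Module.Free.ChooseBasisIndex ℤ (𝓞 K) → ℤ) :
    ∃ v : 𝓞 K, ∀ j, (RingOfIntegers.basis K).repr v j = w j := by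
  refine ⟨(RingOfIntegers.basis K).equivFun.symm w, fun j => ?_⟩
  rw [← Module.Basis.equivFun_apply, LinearEquiv.apply_symm_apply]

private theorem LocDeg_pi_surj (q : ℕ) [NeZero q] : Function.Surjective (LocDeg_pi K q) := by
  intro w
  obtain ⟨v, hv⟩ := LocDeg_vec (K := K) (fun j => ((w j).val : ℤ))
  refine ⟨v, ?_⟩
  ext j
  rw [LocDeg_pi_apply, hv]
  push_cast
  exact ZMod.natCast_zmod_val _

private theorem LocDeg_pi_zero (q : ℕ) (v : 𝓞 K) : LocDeg_pi K q v = 0 ↔ ∃ u : 𝓞 K, v = (q : 𝓞 K) * u := by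
  have hq : ∀ u : 𝓞 K, (q : 𝓞 K) * u = (q : ℤ) • u := by
    intro u
    rw [zsmul_eq_mul]
    push_cast
    rfl
  constructor
  · intro h
    have h1 : ∀ j, ∃ k : ℤ, (RingOfIntegers.basis K).repr v j = q * k := by
      intro j
      have h2 := congrFun h j
      rw [LocDeg_pi_apply] at h2
      exact (ZMod.intCast_zmod_eq_zero_iff_dvd _ _).1 h2
    choose k hk using h1
    obtain ⟨u, hu⟩ := LocDeg_vec (K := K) k
    refine ⟨u, ?_⟩
    apply (RingOfIntegers.basis K).repr.injective
    ext j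
    rw [hk, hq, map_zsmul, Finsupp.smul_apply, hu, smul_eq_mul]
  · rintro ⟨u, rfl⟩
    ext j
    rw [LocDeg_pi_apply, hq, map_zsmul, Finsupp.smul_apply, smul_eq_mul]
    push_cast
    rw [ZMod.natCast_self, zero_mul]
    rfl

private theorem LocDeg_pi_mul (q : ℕ) (x v : 𝓞 K) :
    LocDeg_pi K q (x * v) = (LocDeg_A K q x).mulVec (LocDeg_pi K q v) := by
  ext j
  rw [LocDeg_pi_apply, ← Algebra.leftMulMatrix_mulVec_repr]
  unfold LocDeg_A Matrix.mulVec dotProduct
  push_cast
  rfl

private theorem LocDeg_pi_pow (q : ℕ) [NeZero q] (x v : 𝓞 K) (n : ℕ) :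
    LocDeg_pi K q (x ^ n * v) = ((Matrix.toLin' (LocDeg_A K q x)) ^ n) (LocDeg_pi K q v) := by
  induction n with
  | zero => simp
  | succ n ih =>
    rw [pow_succ', mul_assoc, LocDeg_pi_mul, ih, pow_succ', Module.End.mul_apply, Matrix.toLin'_apply]

/-- the ideal `(x ^ n, q)` -/
private theorem LocDeg_norm (q : ℕ) [Fact q.Prime] (x : 𝓞 K) (n : ℕ) :
    Ideal.absNorm (Ideal.span {x ^ n} ⊔ Ideal.span {(q : 𝓞 K)}) =
      q ^ Module.finrank (ZMod q) (LinearMap.ker ((Matrix.toLin' (LocDeg_A K q x)) ^ n)) := by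
  classical
  have : NeZero q := ⟨(Fact.out : q.Prime).ne_zero⟩
  set φ := (Matrix.toLin' (LocDeg_A K q x)) ^ n with hφ
  let N := LinearMap.range φ
  let g : 𝓞 K →+ ((Module.Free.ChooseBasisIndex ℤ (𝓞 K) → ZMod q) ⧸ N) :=
    (N.mkQ.toAddMonoidHom).comp (LocDeg_pi K q)
  have hg : Function.Surjective g := (Submodule.mkQ_surjective N).comp (LocDeg_pi_surj q)
  have hker : g.ker = (Ideal.span {x ^ n} ⊔ Ideal.span {(q : 𝓞 K)} : Ideal (𝓞 K)).toAddSubgroup := by
    ext v
    rw [AddMonoidHom.mem_ker, Submodule.mem_toAddSubgroup]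
    have e1 : g v = 0 ↔ LocDeg_pi K q v ∈ N := by
      show N.mkQ (LocDeg_pi K q v) = 0 ↔ _
      rw [Submodule.mkQ_apply, Submodule.Quotient.mk_eq_zero]
    rw [e1]
    constructor
    · rintro ⟨w, hw⟩
      obtain ⟨u, rfl⟩ := LocDeg_pi_surj q w
      rw [hφ, ← LocDeg_pi_pow] at hw
      have h1 : LocDeg_pi K q (v - x ^ n * u) = 0 := by rw [map_sub, hw, sub_self]
      obtain ⟨t, ht⟩ := (LocDeg_pi_zero q _).1 h1
      have h2 : v = x ^ n * u + (q : 𝓞 K) * t := by rw [← ht]; ring
      rw [h2]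
      exact Ideal.add_mem _ (Ideal.mem_sup_left (Ideal.mul_mem_right _ _ (Ideal.mem_span_singleton_self _)))
        (Ideal.mem_sup_right (Ideal.mul_mem_right _ _ (Ideal.mem_span_singleton_self _)))
    · intro hv
      rw [Submodule.mem_sup] at hv
      obtain ⟨y, hy, z, hz, rfl⟩ := hv
      obtain ⟨u, rfl⟩ := Ideal.mem_span_singleton'.1 hy
      obtain ⟨t, rfl⟩ := Ideal.mem_span_singleton'.1 hz
      refine ⟨LocDeg_pi K q u, ?_⟩
      rw [hφ, ← LocDeg_pi_pow, map_add, (LocDeg_pi_zero q (t * (q : 𝓞 K))).2 ⟨t, mul_comm _ _⟩, add_zero, mul_comm]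
  have h1 : Ideal.absNorm (Ideal.span {x ^ n} ⊔ Ideal.span {(q : 𝓞 K)}) = g.ker.index := by
    rw [hker]
    rfl
  rw [h1, AddSubgroup.index_ker]
  have h2 : Nat.card g.range = Nat.card ((Module.Free.ChooseBasisIndex ℤ (𝓞 K) → ZMod q) ⧸ N) := by
    rw [AddMonoidHom.range_eq_top.2 hg]
    exact Nat.card_congr (AddSubgroup.topEquiv).toEquiv
  rw [h2, Module.natCard_eq_pow_finrank (K := ZMod q), Nat.card_zmod]
  congr 1
  have h3 : Module.finrank (ZMod q) ((Module.Free.ChooseBasisIndex ℤ (𝓞 K) → ZMod q) ⧸ N) +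
      Module.finrank (ZMod q) (LinearMap.range φ) =
      Module.finrank (ZMod q) (Module.Free.ChooseBasisIndex ℤ (𝓞 K) → ZMod q) :=
    Submodule.finrank_quotient_add_finrank N
  have h4 := LinearMap.finrank_range_add_finrank_ker φ
  omega

private theorem LocDeg_gen (q : ℕ) [Fact q.Prime] (x : 𝓞 K) (n : ℕ)
    (hn : Fintype.card (Module.Free.ChooseBasisIndex ℤ (𝓞 K)) ≤ n) :
    Module.finrank (ZMod q) (LinearMap.ker ((Matrix.toLin' (LocDeg_A K q x)) ^ n)) =
      (LocDeg_A K q x).charpoly.rootMultiplicity 0 := by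
  set φ := Matrix.toLin' (LocDeg_A K q x) with hφ
  have h1 : (LocDeg_A K q x).charpoly = φ.charpoly := by
    rw [hφ, Matrix.charpoly_toLin']
  have h2 : Module.End.maxGenEigenspace φ 0 = Module.End.genEigenspace φ 0 (n : ℕ∞) := by
    apply le_antisymm
    · rw [Module.End.maxGenEigenspace_eq_genEigenspace_finrank]
      apply (Module.End.genEigenspace φ 0).monotone
      rw [Module.finrank_pi]
      exact_mod_cast hn
    · exact (Module.End.genEigenspace φ 0).monotone le_top
  rw [h1, rootMultiplicity_eq_natTrailingDegree', ← LinearMap.finrank_maxGenEigenspace_zero_eq, h2,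
    Module.End.genEigenspace_nat, zero_smul, sub_zero]

end coker

section ideals

variable {K : Type*} [Field K] [NumberField K]

private theorem LocDeg_J (q : ℕ) [Fact q.Prime] (x : 𝓞 K) : ∃ n0 : ℕ, ∀ n : ℕ, n0 ≤ n →
    Ideal.absNorm (Ideal.span {x ^ n} ⊔ Ideal.span {(q : 𝓞 K)}) = q ^ mm K q x := by
  classical
  have hqp : q.Prime := Fact.out
  let p : Ideal ℤ := Ideal.span {(q : ℤ)}
  have hpmax : p.IsMaximal := Int.ideal_span_isMaximal_of_prime q
  have hp0 : p ≠ 0 := by
    show Ideal.span {(q : ℤ)} ≠ ⊥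
    rw [Ne, Ideal.span_singleton_eq_bot]
    exact_mod_cast hqp.ne_zero
  have hmap : Ideal.map (algebraMap ℤ (𝓞 K)) p = Ideal.span {(q : 𝓞 K)} := by
    show Ideal.map (algebraMap ℤ (𝓞 K)) (Ideal.span {(q : ℤ)}) = _
    rw [Ideal.map_span, Set.image_singleton, map_natCast]
  have hfac := Ideal.map_algebraMap_eq_finsetProd_pow (S := ℤ) (R := 𝓞 K) hp0
  rw [hmap] at hfac
  set T : Finset (Ideal (𝓞 K)) := (p.primesOver (𝓞 K)).toFinset with hT
  have hTmem : ∀ P, P ∈ T ↔ P ∈ p.primesOver (𝓞 K) := fun P => Set.mem_toFinset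
  have hTmax : ∀ P ∈ T, P.IsMaximal := by
    intro P hP
    have h1 := (hTmem P).1 hP
    have h2 : P.IsPrime := h1.1
    have h3 : P.LiesOver p := h1.2
    exact Ideal.IsMaximal.of_liesOver_isMaximal P p
  set e : Ideal (𝓞 K) → ℕ := fun P => P.ramificationIdx ℤ with he
  set S1 := T.filter (fun P => x ∈ P) with hS1
  set S2 := T.filter (fun P => ¬ x ∈ P) with hS2
  have hsplit : Ideal.span {(q : 𝓞 K)} = (∏ P ∈ S1, P ^ e P) * ∏ P ∈ S2, P ^ e P := by
    rw [hfac, hS1, hS2, Finset.prod_filter_mul_prod_filter_not]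
  set I1 := ∏ P ∈ S1, P ^ e P with hI1
  set I2 := ∏ P ∈ S2, P ^ e P with hI2
  refine ⟨∑ P ∈ T, e P, ?_⟩
  intro n hn
  have hcop : ∀ P ∈ T, ∀ Q ∈ T, P ≠ Q → IsCoprime P Q := by
    intro P hP Q hQ hne
    rw [Ideal.isCoprime_iff_sup_eq]
    exact Ideal.IsMaximal.coprime_of_ne (hTmax P hP) (hTmax Q hQ) hne
  have h1 : Ideal.span {x ^ n} ≤ I1 := by
    rw [← Ideal.dvd_iff_le, hI1]
    apply Finset.prod_dvd_of_coprime
    · intro P hP Q hQ hne
      have hP' : P ∈ T := (Finset.mem_filter.1 (Finset.mem_coe.1 hP)).1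
      have hQ' : Q ∈ T := (Finset.mem_filter.1 (Finset.mem_coe.1 hQ)).1
      exact (hcop P hP' Q hQ' hne).pow
    · intro P hP
      have hP' := Finset.mem_filter.1 hP
      have h2 : e P ≤ n := (Finset.single_le_sum (f := e) (fun _ _ => Nat.zero_le _) hP'.1).trans hn
      have h3 : P ∣ Ideal.span {x} := Ideal.dvd_span_singleton.2 hP'.2
      rw [← Ideal.span_singleton_pow]
      exact (pow_dvd_pow P h2).trans (pow_dvd_pow_of_dvd h3 n)
  have h2 : IsCoprime (Ideal.span {x ^ n}) I2 := by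
    rw [hI2, ← Ideal.span_singleton_pow]
    apply IsCoprime.prod_right
    intro P hP
    have hP' := Finset.mem_filter.1 hP
    apply IsCoprime.pow
    rw [Ideal.isCoprime_iff_sup_eq]
    have hmax := hTmax P hP'.1
    by_contra hne
    have h3 : P ≤ Ideal.span {x} ⊔ P := le_sup_right
    have h4 := hmax.eq_of_le hne h3
    apply hP'.2
    rw [h4]
    exact Ideal.mem_sup_left (Ideal.mem_span_singleton_self x)
  have h3 : Ideal.span {x ^ n} ⊔ Ideal.span {(q : 𝓞 K)} = I1 := by
    rw [hsplit]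
    apply le_antisymm
    · exact sup_le h1 Ideal.mul_le_left
    · rw [Ideal.isCoprime_iff_sup_eq] at h2
      calc I1 = I1 * (Ideal.span {x ^ n} ⊔ I2) := by rw [h2, Ideal.mul_top]
        _ = I1 * Ideal.span {x ^ n} ⊔ I1 * I2 := Ideal.mul_sup _ _ _
        _ ≤ Ideal.span {x ^ n} ⊔ I1 * I2 := sup_le_sup_right Ideal.mul_le_right _
  rw [h3, hI1, map_prod]
  have h4 : ∀ P ∈ S1, Ideal.absNorm (P ^ e P) = q ^ (P.ramificationIdx ℤ * P.inertiaDeg ℤ) := by
    intro P hP
    have hP' := (hTmem P).1 (Finset.mem_filter.1 hP).1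
    have h5 : P.IsPrime := hP'.1
    have h6 : P.LiesOver (Ideal.span {(q : ℤ)}) := hP'.2
    rw [map_pow, ← Ideal.pow_inertiaDeg q P, ← pow_mul, mul_comm]
  rw [Finset.prod_congr rfl h4, Finset.prod_pow_eq_pow_sum]
  have hfin : ({P : Ideal (𝓞 K) | P ∈ Ideal.primesOver (Ideal.span {(q : ℤ)}) (𝓞 K) ∧ x ∈ P}).Finite := by
    apply Set.Finite.subset T.finite_toSet
    intro P hP
    exact (hTmem P).2 hP.1
  congr 1
  unfold mm
  rw [finsum_mem_eq_finite_toFinset_sum _ hfin]
  apply Finset.sum_congr _ (fun _ _ => rfl)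
  ext P
  rw [hS1, Finset.mem_filter, hTmem, Set.Finite.mem_toFinset]
  exact Iff.rfl

end ideals

theorem card_zero_eq_mm {K : Type*} [Field K] [NumberField K] (q : ℕ) [Fact q.Prime]
    {Ω : Type*} [Field Ω] [CharP Ω q] {ψ : Fin (Module.finrank ℚ K) → (𝓞 K →+* Ω)}
    (hψ : IsRedFam ψ) (x : 𝓞 K) : Nat.card {i // ψ i x = 0} = mm K q x := by
  obtain ⟨n0, hn0⟩ := LocDeg_J (K := K) q x
  have h1 := hn0 (n0 + Fintype.card (Module.Free.ChooseBasisIndex ℤ (𝓞 K))) (by omega)
  rw [LocDeg_norm, LocDeg_gen q x _ (by omega), ← LocDeg_card q hψ x] at h1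
  exact Nat.pow_right_injective (Fact.out : q.Prime).two_le h1

end H9FC

end

section

/-!
# Project FD: the places of a number field above `p` and a reduction family

* `frob_conj`: two homomorphisms `𝓞 K → Ω` with the same kernel are conjugate under Frobenius.
* `pow_inertia`: `ψ x ^ (p ^ f) = ψ x`, `f` the inertia degree of the kernel of `ψ`.
* `card_ker`: the number of the members of a reduction family with kernel `P` is `e f`.
* `big_place`: if the values `- ψ_i b / ψ_i a` at the places which divide none of `a, b, c` are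
  stable under the anharmonic group and `P` is such a place with `2 e f` larger than their number,
  then `p = 2` modulo `3` and the residue degree of `P` is even.
-/

namespace H52FD

open NumberField H9FC Finset

theorem frob_conj_field {k Ω : Type*} [Field k] [Finite k] [Field Ω] (p : ℕ) [Fact p.Prime]
    [CharP k p] [CharP Ω p] (f g : k →+* Ω) : ∃ n : ℕ, ∀ x, g x = f x ^ p ^ n := by
  letI := ZMod.algebra k p
  letI := ZMod.algebra Ω p
  have hf : f.comp (algebraMap (ZMod p) k) = algebraMap (ZMod p) Ω := Subsingleton.elim _ _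
  have hg : g.comp (algebraMap (ZMod p) k) = algebraMap (ZMod p) Ω := Subsingleton.elim _ _
  let F : k →ₐ[ZMod p] Ω := { f with commutes' := fun r => congrArg (fun h => h r) hf }
  let G : k →ₐ[ZMod p] Ω := { g with commutes' := fun r => congrArg (fun h => h r) hg }
  have : Module.Finite (ZMod p) k := Module.Finite.of_finite
  have hinj : Function.Injective
      (fun n : Fin (Module.finrank (ZMod p) k) => F.comp (FiniteField.frobeniusAlgHom (ZMod p) k ^ n.1)) := by
    intro m n hmn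
    apply (FiniteField.bijective_frobeniusAlgHom_pow (ZMod p) k).1
    apply AlgHom.ext
    intro x
    have h1 := DFunLike.congr_fun hmn x
    exact F.toRingHom.injective h1
  have hbij := hinj.bijective_of_nat_card_le (by
    rw [Nat.card_fin]
    exact card_algHom_le_finrank (ZMod p) k Ω)
  obtain ⟨n, hn⟩ := hbij.2 G
  refine ⟨n.1, fun x => ?_⟩
  have h1 := DFunLike.congr_fun hn x
  have h2 : ∀ m : ℕ, (FiniteField.frobeniusAlgHom (ZMod p) k ^ m) x = x ^ p ^ m := by
    intro m
    induction m with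
    | zero => simp
    | succ m ih =>
      rw [pow_succ', AlgHom.mul_apply, ih, FiniteField.coe_frobeniusAlgHom, ZMod.card]
      show (x ^ p ^ m) ^ p = x ^ p ^ (m + 1)
      rw [← pow_mul, pow_succ]
  have h3 : F ((FiniteField.frobeniusAlgHom (ZMod p) k ^ n.1) x) = G x := h1
  rw [h2, map_pow] at h3
  exact h3.symm

section

variable {K : Type*} [Field K] [NumberField K] {p : ℕ} [Fact p.Prime] {Ω : Type*} [Field Ω]
  [CharP Ω p]

omit [NumberField K] in
theorem p_mem_ker (ψ : 𝓞 K →+* Ω) : (p : 𝓞 K) ∈ RingHom.ker ψ := by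
  rw [RingHom.mem_ker, map_natCast, CharP.cast_eq_zero]

/-- the data of a prime above `p` -/
theorem prime_data (P : Ideal (𝓞 K)) (hP : P.IsPrime) (hpP : (p : 𝓞 K) ∈ P) :
    P ≠ ⊥ ∧ P.IsMaximal ∧ Finite (𝓞 K ⧸ P) ∧ CharP (𝓞 K ⧸ P) p ∧
      P.LiesOver (Ideal.span {(p : ℤ)}) ∧ p ^ P.inertiaDeg ℤ = Nat.card (𝓞 K ⧸ P) := by
  have hpp : p.Prime := Fact.out
  have hne : P ≠ ⊥ := by
    rintro rfl
    rw [Ideal.mem_bot, Nat.cast_eq_zero] at hpP
    exact hpp.ne_zero hpP
  have hmax : P.IsMaximal := hP.isMaximal hne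
  have hfin : Finite (𝓞 K ⧸ P) := Ideal.finiteQuotientOfFreeOfNeBot P hne
  have hlies : P.LiesOver (Ideal.span {(p : ℤ)}) := by
    rw [Ideal.liesOver_iff]
    refine Ideal.IsMaximal.eq_of_le (Int.ideal_span_isMaximal_of_prime p) ?_ ?_
    · intro h0
      have h1 : (1 : ℤ) ∈ P.under ℤ := by rw [h0]; trivial
      rw [Ideal.under, Ideal.mem_comap, map_one] at h1
      exact hP.ne_top ((Ideal.eq_top_iff_one P).mpr h1)
    · rw [Ideal.span_singleton_le_iff_mem, Ideal.under, Ideal.mem_comap]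
      simpa using hpP
  have hcard : p ^ P.inertiaDeg ℤ = Nat.card (𝓞 K ⧸ P) := by
    rw [Ideal.pow_inertiaDeg]
    rfl
  have hchar : CharP (𝓞 K ⧸ P) p := by
    letI : Field (𝓞 K ⧸ P) := Ideal.Quotient.field P
    have h1 : ((p : ℕ) : 𝓞 K ⧸ P) = 0 := by
      have h2 := Ideal.Quotient.eq_zero_iff_mem.mpr hpP
      simpa using h2
    exact (CharP.charP_iff_prime_eq_zero (Fact.out : p.Prime)).mpr h1
  exact ⟨hne, hmax, hfin, hchar, hlies, hcard⟩

/-- two homomorphisms with the same kernel are conjugate -/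
theorem frob_conj (ψ φ : 𝓞 K →+* Ω) (h : RingHom.ker ψ = RingHom.ker φ) :
    ∃ n : ℕ, ∀ x, φ x = ψ x ^ p ^ n := by
  obtain ⟨hne, hmax, hfin, hchar, -, -⟩ :=
    prime_data (p := p) (RingHom.ker ψ) (RingHom.ker_isPrime ψ) (p_mem_ker ψ)
  letI : Field (𝓞 K ⧸ RingHom.ker ψ) := Ideal.Quotient.field _
  let f : (𝓞 K ⧸ RingHom.ker ψ) →+* Ω := Ideal.Quotient.lift _ ψ fun a ha => ha
  let g : (𝓞 K ⧸ RingHom.ker ψ) →+* Ω := Ideal.Quotient.lift _ φ fun a ha => by
    rw [h] at ha
    exact ha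
  obtain ⟨n, hn⟩ := frob_conj_field p f g
  exact ⟨n, fun x => hn (Ideal.Quotient.mk _ x)⟩

/-- the number of the members of a reduction family with kernel `P` -/
theorem card_ker {ψ : Fin (Module.finrank ℚ K) → (𝓞 K →+* Ω)} (hψ : IsRedFam ψ)
    (P : Ideal (𝓞 K)) (hP : P.IsPrime) (hpP : (p : 𝓞 K) ∈ P) :
    Nat.card {i // RingHom.ker (ψ i) = P} = P.ramificationIdx ℤ * P.inertiaDeg ℤ := by
  classical
  have hpp : p.Prime := Fact.out
  obtain ⟨hne, hmax, -, -, hlies, -⟩ := prime_data (p := p) P hP hpP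
  -- an element of `P` in no other kernel and in no other prime above `p`
  have hp0 : (Ideal.span {(p : ℤ)}) ≠ 0 := by
    show Ideal.span {(p : ℤ)} ≠ ⊥
    rw [Ne, Ideal.span_singleton_eq_bot]
    exact_mod_cast hpp.ne_zero
  have hpmax : (Ideal.span {(p : ℤ)}).IsMaximal := Int.ideal_span_isMaximal_of_prime p
  set T : Finset (Ideal (𝓞 K)) := ((Ideal.span {(p : ℤ)}).primesOver (𝓞 K)).toFinset with hT
  have hTmem : ∀ Q, Q ∈ T ↔ Q ∈ (Ideal.span {(p : ℤ)}).primesOver (𝓞 K) := fun Q => Set.mem_toFinset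
  have hPT : P ∈ T := (hTmem P).2 ⟨hP, hlies⟩
  have hTmax : ∀ Q ∈ T, Q.IsMaximal := by
    intro Q hQ
    have h1 := (hTmem Q).1 hQ
    have h2 : Q.IsPrime := h1.1
    have h3 : Q.LiesOver (Ideal.span {(p : ℤ)}) := h1.2
    exact Ideal.IsMaximal.of_liesOver_isMaximal Q (Ideal.span {(p : ℤ)})
  obtain ⟨y, hyP, hy⟩ : ∃ y ∈ P, ∀ Q ∈ T, Q ≠ P → y ∉ Q := by
    by_contra hcon
    push Not at hcon
    have hsub : (P : Set (𝓞 K)) ⊆ ⋃ Q ∈ ((T.erase P : Finset (Ideal (𝓞 K))) : Set (Ideal (𝓞 K))),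
        ((Q : Ideal (𝓞 K)) : Set (𝓞 K)) := by
      intro y hy
      obtain ⟨Q, hQ, hQP, hyQ⟩ := hcon y hy
      rw [Set.mem_iUnion₂]
      exact ⟨Q, by
        rw [Finset.mem_coe, Finset.mem_erase]
        exact ⟨hQP, hQ⟩, hyQ⟩
    rcases (T.erase P).eq_empty_or_nonempty with he | ⟨Q0, hQ0⟩
    · rw [he] at hsub
      simp at hsub
      exact absurd P.zero_mem (by
        rw [← SetLike.mem_coe, hsub]
        exact Set.notMem_empty _)
    · rw [Ideal.subset_union_prime Q0 Q0 (fun i hi _ _ => (hTmax i (Finset.mem_of_mem_erase hi)).isPrime)] at hsub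
      obtain ⟨Q, hQ, hPQ⟩ := hsub
      have h1 := hmax.eq_of_le (hTmax Q (Finset.mem_of_mem_erase hQ)).ne_top hPQ
      exact (Finset.ne_of_mem_erase hQ) h1.symm
  have hker : ∀ i, RingHom.ker (ψ i) ∈ T := by
    intro i
    rw [hTmem]
    exact ⟨RingHom.ker_isPrime _, (prime_data (p := p) _ (RingHom.ker_isPrime _) (p_mem_ker _)).2.2.2.2.1⟩
  have hiff : ∀ i, ψ i y = 0 ↔ RingHom.ker (ψ i) = P := by
    intro i
    constructor
    · intro h
      by_contra hne
      exact hy _ (hker i) hne h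
    · intro h
      rw [← RingHom.mem_ker, h]
      exact hyP
  have h1 := card_zero_eq_mm p hψ y
  have h2 : mm K p y = P.ramificationIdx ℤ * P.inertiaDeg ℤ := by
    unfold mm
    have hset : {Q : Ideal (𝓞 K) | Q ∈ Ideal.primesOver (Ideal.span {(p : ℤ)}) (𝓞 K) ∧ y ∈ Q} = {P} := by
      ext Q
      rw [Set.mem_setOf_eq, Set.mem_singleton_iff]
      constructor
      · rintro ⟨hQ, hyQ⟩
        by_contra hne
        exact hy Q ((hTmem Q).2 hQ) hne hyQ
      · rintro rfl
        exact ⟨(hTmem Q).1 hPT, hyP⟩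
    rw [hset, finsum_mem_singleton]
  rw [← h2, ← h1]
  exact Nat.card_congr (Equiv.subtypeEquivRight fun i => (hiff i).symm)

end

end H52FD

end

section

/-!
# FD version 2, module RelDeg: relative local degrees

`w : 𝓞 F → Ω`, `ψ_i : 𝓞 K → Ω` the reductions of the `F`-embeddings of `K` over `w`, `P` a prime of `K`
over `ker w`: the number of the `i` with `ker ψ_i = P` is `e(P|ker w) f(P|ker w)`.
-/

open NumberField Polynomial H9FC H9AB

namespace H55AB

universe u v w

section

/-- the multiplicity of the root `0` of `∏ (A_i + X)` -/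
theorem rootMult_zero {Ω : Type*} [Field Ω] {ι : Type*} [Fintype ι] (A : ι → Ω) :
    rootMultiplicity 0 (∏ i, (C (A i) + X * C (1 : Ω))) = Nat.card {i // A i = 0} := by
  classical
  have hne : ∀ i, C (A i) + X * C (1 : Ω) ≠ 0 := by
    intro i h
    have h2 := congrArg (fun q : Polynomial Ω => q.coeff 1) h
    simp at h2
  have hprod : ∏ i, (C (A i) + X * C (1 : Ω)) ≠ 0 := Finset.prod_ne_zero_iff.2 fun i _ => hne i
  rw [← count_roots, roots_prod _ _ hprod, Multiset.count_bind]
  have h1 : ∀ i, Multiset.count 0 (C (A i) + X * C (1 : Ω)).roots = if A i = 0 then 1 else 0 := by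
    intro i
    have h2 : C (A i) + X * C (1 : Ω) = X - C (-A i) := by
      rw [C_1, mul_one, C_neg]
      ring
    rw [h2, roots_X_sub_C, Multiset.count_singleton]
    by_cases h : A i = 0
    · rw [if_pos h, if_pos (by rw [h, neg_zero])]
    · rw [if_neg h, if_neg (fun h' => h (neg_eq_zero.1 h'.symm))]
  have h5 : (Multiset.map (fun b => Multiset.count 0 (C (A b) + X * C (1 : Ω)).roots)
      Finset.univ.val).sum = ∑ i, Multiset.count 0 (C (A i) + X * C (1 : Ω)).roots := rfl
  rw [h5, Finset.sum_congr rfl (fun i _ => h1 i), Finset.sum_boole, Nat.cast_id,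
    Nat.card_eq_fintype_card, Fintype.card_subtype]

/-- an element of `P` in no other prime above `p` -/
theorem exists_sep {K : Type*} [Field K] [NumberField K] (p : ℕ) [Fact p.Prime] (P : Ideal (𝓞 K))
    (hP : P.IsPrime) (hpP : (p : 𝓞 K) ∈ P) :
    ∃ y ∈ P, ∀ Q : Ideal (𝓞 K), Q.IsPrime → (p : 𝓞 K) ∈ Q → Q ≠ P → y ∉ Q := by
  classical
  have hpp : p.Prime := Fact.out
  obtain ⟨hne, hmax, -, -, hlies, -⟩ := H52FD.prime_data (p := p) P hP hpP
  have hpmax : (Ideal.span {(p : ℤ)}).IsMaximal := Int.ideal_span_isMaximal_of_prime p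
  set T : Finset (Ideal (𝓞 K)) := ((Ideal.span {(p : ℤ)}).primesOver (𝓞 K)).toFinset with hT
  have hTmem : ∀ Q, Q ∈ T ↔ Q ∈ (Ideal.span {(p : ℤ)}).primesOver (𝓞 K) := fun Q => Set.mem_toFinset
  have hTmax : ∀ Q ∈ T, Q.IsMaximal := by
    intro Q hQ
    have h1 := (hTmem Q).1 hQ
    have h2 : Q.IsPrime := h1.1
    have h3 : Q.LiesOver (Ideal.span {(p : ℤ)}) := h1.2
    exact Ideal.IsMaximal.of_liesOver_isMaximal Q (Ideal.span {(p : ℤ)})
  by_contra hcon
  push Not at hcon
  have hsub : (P : Set (𝓞 K)) ⊆ ⋃ Q ∈ ((T.erase P : Finset (Ideal (𝓞 K))) : Set (Ideal (𝓞 K))),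
      ((Q : Ideal (𝓞 K)) : Set (𝓞 K)) := by
    intro y hy
    obtain ⟨Q, hQ, hpQ, hQP, hyQ⟩ := hcon y hy
    rw [Set.mem_iUnion₂]
    exact ⟨Q, by
      rw [Finset.mem_coe, Finset.mem_erase]
      exact ⟨hQP, (hTmem Q).2 ⟨hQ, (H52FD.prime_data (p := p) Q hQ hpQ).2.2.2.2.1⟩⟩, hyQ⟩
  rcases (T.erase P).eq_empty_or_nonempty with he | ⟨Q0, hQ0⟩
  · rw [he] at hsub
    simp at hsub
    exact absurd P.zero_mem (by
      rw [← SetLike.mem_coe, hsub]
      exact Set.notMem_empty _)
  · rw [Ideal.subset_union_prime Q0 Q0 (fun i hi _ _ =>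
      (hTmax i (Finset.mem_of_mem_erase hi)).isPrime)] at hsub
    obtain ⟨Q, hQ, hPQ⟩ := hsub
    have h1 := hmax.eq_of_le (hTmax Q (Finset.mem_of_mem_erase hQ)).ne_top hPQ
    exact (Finset.ne_of_mem_erase hQ) h1.symm

end

section

variable {F : Type u} [Field F] [NumberField F] {K : Type v} [Field K] [NumberField K] [Algebra F K]
  {p : ℕ} [Fact p.Prime] {Ω : Type w} [Field Ω] [CharP Ω p]

/-- the number of the members with kernel `P` in terms of the norm form over the residue field -/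
theorem card_eq_mult {ι : Type*} [Fintype ι] (φ : ι → (𝓞 K →+* Ω)) (w : 𝓞 F →+* Ω) (y : 𝓞 K)
    (hform : (nfR F K y 1).map w = ∏ i, (C (φ i y) + X * C (φ i 1)))
    (P : Ideal (𝓞 K)) (hy : y ∈ P)
    (hsep : ∀ Q : Ideal (𝓞 K), Q.IsPrime → (p : 𝓞 K) ∈ Q → Q ≠ P → y ∉ Q) :
    Nat.card {i // RingHom.ker (φ i) = P}
      = rootMultiplicity 0 ((nfR F K y 1).map (Ideal.Quotient.mk (RingHom.ker w))) := by
  have hiff : ∀ i, RingHom.ker (φ i) = P ↔ φ i y = 0 := by
    intro i
    constructor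
    · intro h
      rw [← RingHom.mem_ker, h]
      exact hy
    · intro h
      by_contra hne
      exact hsep _ (RingHom.ker_isPrime _) (H52FD.p_mem_ker _) hne h
  rw [Nat.card_congr (Equiv.subtypeEquivRight hiff)]
  have hform' : (nfR F K y 1).map w = ∏ i, (C (φ i y) + X * C (1 : Ω)) := by
    rw [hform]
    exact Finset.prod_congr rfl fun i _ => by rw [map_one]
  rw [← rootMult_zero (fun i => φ i y), ← hform']
  have hprime : (RingHom.ker w).IsPrime := RingHom.ker_isPrime w
  let g : (𝓞 F ⧸ RingHom.ker w) →+* Ω := Ideal.Quotient.lift _ w fun x hx => hx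
  have hg : Function.Injective g := by
    rw [injective_iff_map_eq_zero]
    intro x
    obtain ⟨x, rfl⟩ := Ideal.Quotient.mk_surjective x
    intro hx
    exact Ideal.Quotient.eq_zero_iff_mem.2 hx
  have hw : w = g.comp (Ideal.Quotient.mk (RingHom.ker w)) := by
    ext x
    rfl
  conv_lhs => rw [hw, ← Polynomial.map_map, ← map_zero g]
  exact (Polynomial.eq_rootMultiplicity_map hg 0).symm

variable (F K) in
/-- a number field with all the conjugates of `K` -/
theorem exists_big : ∃ (N : Type v) (_ : Field N) (_ : NumberField N),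
    ∀ x : K, ((minpoly ℚ x).map (algebraMap ℚ N)).Splits := by
  let N := IntermediateField.normalClosure ℚ K (AlgebraicClosure K)
  have hN : IsNormalClosure ℚ K N :=
    Algebra.IsAlgebraic.isNormalClosure_normalClosure fun x => IsAlgClosed.splits _
  have hNf : NumberField N := { to_charZero := inferInstance, to_finiteDimensional := inferInstance }
  exact ⟨N, inferInstance, hNf, hN.splits⟩

end

section

variable (F : Type u) [Field F] [NumberField F] (K : Type v) [Field K] [NumberField K] [Algebra F K]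
  (p : ℕ) [Fact p.Prime] {Ω : Type w} [Field Ω] [IsAlgClosed Ω] [CharP Ω p]
  (N : Type*) [Field N] [NumberField N]

/-- the embeddings `K → N` with image of `y` in a fixed kernel: absolute count -/
theorem card_abs (hN : ∀ x : K, ((minpoly ℚ x).map (algebraMap ℚ N)).Splits) (χ : 𝓞 N →+* Ω)
    (P : Ideal (𝓞 K)) (hP : P.IsPrime) (hpP : (p : 𝓞 K) ∈ P) :
    Nat.card {σ : K →ₐ[ℚ] N // RingHom.ker (χ.comp (RingOfIntegers.mapRingHom (σ : K →+* N))) = P}
      = P.ramificationIdx ℤ * P.inertiaDeg ℤ := by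
  classical
  have hcard : Fintype.card (K →ₐ[ℚ] N) = Module.finrank ℚ K := AlgHom.card_of_splits ℚ K N hN
  let e : Fin (Module.finrank ℚ K) ≃ (K →ₐ[ℚ] N) := (Fintype.equivFinOfCardEq hcard).symm
  have hred : IsRedFam (fun i => χ.comp (RingOfIntegers.mapRingHom (e i : K →+* N))) := by
    intro a b
    have h1 := nf_map_prod K N hcard a b
    have h2 : (nf K a b).map (Int.castRingHom (𝓞 N)) = ∏ σ : K →ₐ[ℚ] N,
        (C (RingOfIntegers.mapRingHom (σ : K →+* N) a)
          + X * C (RingOfIntegers.mapRingHom (σ : K →+* N) b)) := by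
      apply map_injective (algebraMap (𝓞 N) N) RingOfIntegers.coe_injective
      rw [Polynomial.map_map, RingHom.eq_intCast' ((algebraMap (𝓞 N) N).comp (Int.castRingHom (𝓞 N)))]
      rw [h1, Polynomial.map_prod]
      refine Finset.prod_congr rfl fun σ _ => ?_
      rw [Polynomial.map_add, Polynomial.map_mul, map_C, map_C, map_X]
      rfl
    have h3 : Int.castRingHom Ω = χ.comp (Int.castRingHom (𝓞 N)) := (RingHom.eq_intCast' _).symm
    rw [h3, ← Polynomial.map_map, h2, Polynomial.map_prod, ← Equiv.prod_comp e]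
    refine Finset.prod_congr rfl fun i _ => ?_
    rw [Polynomial.map_add, Polynomial.map_mul, map_C, map_C, map_X]
    rfl
  rw [← H52FD.card_ker hred P hP hpP]
  exact (Nat.card_congr (e.subtypeEquiv fun i => Iff.rfl)).symm

/-- the number `n` of the members with kernel `P`, as a function of the prime of `F` -/
noncomputable def nn (y : 𝓞 K) (I : Ideal (𝓞 F)) : ℕ :=
  rootMultiplicity 0 ((nfR F K y 1).map (Ideal.Quotient.mk I))

/-- the embeddings over a given embedding of `F` -/
theorem card_fib (hN : ∀ x : K, ((minpoly ℚ x).map (algebraMap ℚ N)).Splits) (χ : 𝓞 N →+* Ω)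
    (P : Ideal (𝓞 K)) (y : 𝓞 K) (hy : y ∈ P)
    (hsep : ∀ Q : Ideal (𝓞 K), Q.IsPrime → (p : 𝓞 K) ∈ Q → Q ≠ P → y ∉ Q) (s : F →ₐ[ℚ] N) :
    Nat.card {σ : K →ₐ[ℚ] N // σ.comp (algebraMap F K).toRatAlgHom = s ∧
        RingHom.ker (χ.comp (RingOfIntegers.mapRingHom (σ : K →+* N))) = P}
      = nn F K y (RingHom.ker (χ.comp (RingOfIntegers.mapRingHom (s : F →+* N)))) := by
  classical
  letI : Algebra F N := (s : F →+* N).toAlgebra
  have hT : IsScalarTower ℚ F N := IsScalarTower.of_algebraMap_eq' (Subsingleton.elim _ _)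
  have hT2 : IsScalarTower ℚ F K := IsScalarTower.of_algebraMap_eq' (Subsingleton.elim _ _)
  have hfd : FiniteDimensional F K := Module.Finite.of_restrictScalars_finite ℚ F K
  have hcard : Fintype.card (K →ₐ[F] N) = Module.finrank F K := by
    apply AlgHom.card_of_splits F K N
    intro x
    exact (IsIntegral.of_finite ℚ x).minpoly_splits_tower_top (hN x)
  have hform := nfR_map_prod F K N hcard y 1
  have hw : χ.comp (RingOfIntegers.mapRingHom (s : F →+* N))
      = χ.comp (algebraMap (𝓞 F) (𝓞 N)) := rfl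
  have h1 := card_eq_mult (p := p) (Ω := Ω)
    (fun σ : K →ₐ[F] N => χ.comp (RingOfIntegers.mapRingHom (σ : K →+* N)))
    (χ.comp (algebraMap (𝓞 F) (𝓞 N))) y (by
      rw [← Polynomial.map_map, hform, Polynomial.map_prod]
      refine Finset.prod_congr rfl fun σ _ => ?_
      rw [Polynomial.map_add, Polynomial.map_mul, map_C, map_C, map_X]
      rfl) P hy hsep
  unfold nn
  rw [hw, ← h1]
  refine Nat.card_congr ⟨fun σ => ⟨{ (σ.1 : K →+* N) with
      commutes' := fun r => DFunLike.congr_fun σ.2.1 r }, σ.2.2⟩,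
    fun σ => ⟨(σ.1 : K →+* N).toRatAlgHom, ?_, σ.2⟩, fun σ => ?_, fun σ => ?_⟩
  · ext r
    exact σ.1.commutes r
  · apply Subtype.ext
    ext x
    rfl
  · apply Subtype.ext
    ext x
    rfl

end

/-- **Relative local degrees.** -/
theorem card_ker_rel (F : Type u) [Field F] [NumberField F] (K : Type v) [Field K] [NumberField K]
    [Algebra F K] (p : ℕ) [Fact p.Prime] {Ω : Type w} [Field Ω] [IsAlgClosed Ω] [CharP Ω p]
    (w : 𝓞 F →+* Ω) (ψ : Fin (Module.finrank F K) → (𝓞 K →+* Ω))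
    (hψ : ∀ x y : 𝓞 K, (nfR F K x y).map w = ∏ i, (C (ψ i x) + X * C (ψ i y)))
    (P : Ideal (𝓞 K)) (hP : P.IsPrime)
    (hPw : P.comap (algebraMap (𝓞 F) (𝓞 K)) = RingHom.ker w) :
    Nat.card {i // RingHom.ker (ψ i) = P} = P.ramificationIdx (𝓞 F) * P.inertiaDeg (𝓞 F) := by
  classical
  have hpF : (p : 𝓞 F) ∈ RingHom.ker w := H52FD.p_mem_ker w
  have hpP : (p : 𝓞 K) ∈ P := by
    rw [← hPw, Ideal.mem_comap, map_natCast] at hpF
    exact hpF
  obtain ⟨y, hy, hsep⟩ := exists_sep p P hP hpP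
  obtain ⟨N, _, _, hN⟩ := exists_big K
  have hNF : ∀ x : F, ((minpoly ℚ x).map (algebraMap ℚ N)).Splits := by
    intro x
    have := hN (algebraMap F K x)
    rwa [minpoly.algebraMap_eq (algebraMap F K).injective] at this
  obtain ⟨χ⟩ : Nonempty (𝓞 N →+* Ω) := by
    obtain ⟨ψ, -⟩ := exists_redFam N p Ω
    exact ⟨ψ ⟨0, Module.finrank_pos⟩⟩
  have h1 := card_eq_mult (p := p) ψ w y (hψ y 1) P hy hsep
  have hn : Nat.card {i // RingHom.ker (ψ i) = P} = nn F K y (RingHom.ker w) := h1
  have habs := card_abs K p N hN χ P hP hpP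
  have hwp : (RingHom.ker w).IsPrime := RingHom.ker_isPrime w
  have habsF := card_abs F p N hNF χ (RingHom.ker w) hwp hpF
  -- sum over the embeddings of `F`
  set S := {σ : K →ₐ[ℚ] N //
    RingHom.ker (χ.comp (RingOfIntegers.mapRingHom (σ : K →+* N))) = P} with hS
  have hsum : Nat.card S = ∑ s : F →ₐ[ℚ] N, Nat.card {σ : K →ₐ[ℚ] N //
      σ.comp (algebraMap F K).toRatAlgHom = s ∧
        RingHom.ker (χ.comp (RingOfIntegers.mapRingHom (σ : K →+* N))) = P} := by
    rw [← Nat.card_sigma]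
    refine Nat.card_congr ⟨fun σ => ⟨σ.1.comp (algebraMap F K).toRatAlgHom, σ.1, rfl, σ.2⟩,
      fun σ => ⟨σ.2.1, σ.2.2.2⟩, fun σ => rfl, ?_⟩
    rintro ⟨s, σ, rfl, h⟩
    rfl
  have hterm : ∀ s : F →ₐ[ℚ] N, Nat.card {σ : K →ₐ[ℚ] N //
      σ.comp (algebraMap F K).toRatAlgHom = s ∧
        RingHom.ker (χ.comp (RingOfIntegers.mapRingHom (σ : K →+* N))) = P}
      = if RingHom.ker (χ.comp (RingOfIntegers.mapRingHom (s : F →+* N))) = RingHom.ker w
        then nn F K y (RingHom.ker w) else 0 := by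
    intro s
    split_ifs with h
    · rw [card_fib F K p N hN χ P y hy hsep s, h]
    · rw [Nat.card_eq_zero]
      left
      constructor
      rintro ⟨σ, rfl, hσ⟩
      apply h
      rw [← hPw, ← hσ, RingHom.comap_ker]
      congr 1
  rw [hsum, Finset.sum_congr rfl (fun s _ => hterm s), ← Finset.sum_filter, Finset.sum_const,
    smul_eq_mul, ← Fintype.card_subtype, ← Nat.card_eq_fintype_card, habsF] at habs
  have hl : P.LiesOver (RingHom.ker w) := ⟨hPw.symm⟩
  have e1 := Ideal.inertiaDeg_tower (R := ℤ) (RingHom.ker w) P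
  have e2 := Ideal.ramificationIdx_tower (R := ℤ) (RingHom.ker w) P
  have hpos1 := Ideal.ramificationIdx_pos (RingHom.ker w) ℤ
  have hpos2 := Ideal.inertiaDeg_pos (RingHom.ker w) ℤ
  rw [e1, e2] at habs
  rw [hn]
  have hpos : 0 < (RingHom.ker w).ramificationIdx ℤ * (RingHom.ker w).inertiaDeg ℤ :=
    Nat.mul_pos hpos1 hpos2
  apply Nat.eq_of_mul_eq_mul_left hpos
  rw [habs]
  ring

end H55AB

end

section

/-!
# Project FC9, module LocCM

Local condition at a prime above `p`: the Cauchy-Mirimanoff polynomial `E`,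
`p E(X) = (X + 1)^p - X^p - 1`, vanishes at the residue of `b/a`.

PROOF. Let `P = ker ψ`, a prime of `𝓞 K` containing `p`, `e` its ramification index, so
`ordI P (p) = e ≤ d < p`.  `δ = a + b + c ∈ P` (`fsol_hom`), and `c = -(a+b) + δ`, so
`c^p ≡ -(a+b)^p` modulo `P^(e+1)`: in the binomial expansion the terms `C(p,k) (-(a+b))^(p-k) δ^k`,
`0 < k < p`, are in `(p) P ≤ P^(e+1)`, and `δ^p ∈ P^p ≤ P^(e+1)`.  So
`0 = a^p + b^p + c^p ≡ a^p + b^p - (a+b)^p = - p W` modulo `P^(e+1)`, where
`W = ∑ e_k a^(p-k) b^k`, `E = ∑ e_k X^k` (degree `≤ p - 1`; the identity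
`(a+b)^p - a^p - b^p = p W` follows from `hE` by homogenising). So `p W ∈ P^(e+1)`, `W ∈ P`, and
`0 = ψ W = ψ(a)^p E(ψ b/ψ a)`.
`cm_one`: if `ψ a = ψ b` then `E(1) = (2^p - 2)/p` vanishes in `Ω`, so `p² ∣ 2^p - 2`. Similarly for the
other two: apply it to `(b, c, a)`, `(c, a, b)`.
-/

namespace H9FC

open Polynomial NumberField

private theorem LocCM_ord {K : Type*} [Field K] [NumberField K] {p : ℕ} [Fact p.Prime]
    (hd : Module.finrank ℚ K < p) (P : Ideal (𝓞 K)) (hP : P.IsPrime) (hpP : (p : 𝓞 K) ∈ P)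
    {x δ : 𝓞 K} (hδ : δ ∈ P) (h : (p : 𝓞 K) * x = δ ^ p) : x ∈ P := by
  by_contra hx
  have hpp : p.Prime := Fact.out
  have hp0 : (p : 𝓞 K) ≠ 0 := by exact_mod_cast hpp.ne_zero
  have hP0 : P ≠ ⊥ := by
    intro h0
    rw [h0, Ideal.mem_bot] at hpP
    exact hp0 hpP
  have hPp : Prime P := Ideal.prime_of_isPrime hP0 hP
  have h1 : P ^ p ∣ Ideal.span {(p : 𝓞 K)} * Ideal.span {x} := by
    rw [Ideal.span_singleton_mul_span_singleton, h, Ideal.dvd_iff_le,
      Ideal.span_singleton_le_iff_mem]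
    exact Ideal.pow_mem_pow hδ p
  have h2 : ¬ P ∣ Ideal.span {x} := by
    rw [Ideal.dvd_iff_le, Ideal.span_singleton_le_iff_mem]
    exact hx
  have h3 : P ^ p ∣ Ideal.span {(p : 𝓞 K)} := hPp.pow_dvd_of_dvd_mul_right p h2 h1
  have h4 := Ideal.absNorm_dvd_absNorm_of_le (Ideal.dvd_iff_le.1 h3)
  have h5 : Ideal.absNorm (Ideal.span {(p : 𝓞 K)}) = p ^ Module.finrank ℚ K := by
    rw [Ideal.absNorm_span_singleton]
    have e1 : ((p : ℕ) : 𝓞 K) = algebraMap ℤ (𝓞 K) (p : ℤ) := by simp
    rw [e1, Algebra.norm_algebraMap, RingOfIntegers.rank, Int.natAbs_pow, Int.natAbs_natCast]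
  rw [map_pow, h5] at h4
  have h6 : Ideal.absNorm P ∣ p ^ Module.finrank ℚ K :=
    (dvd_pow_self _ hpp.ne_zero).trans h4
  obtain ⟨f, -, hf⟩ := (Nat.dvd_prime_pow hpp).1 h6
  have hf0 : f ≠ 0 := by
    intro h0
    rw [h0, pow_zero] at hf
    exact hP.ne_top (Ideal.absNorm_eq_one_iff.1 hf)
  rw [hf, ← pow_mul, Nat.pow_dvd_pow_iff_le_right hpp.one_lt] at h4
  have h7 : 1 * p ≤ f * p := Nat.mul_le_mul_right p (Nat.one_le_iff_ne_zero.2 hf0)
  omega

private theorem LocCM_binom {R : Type*} [CommRing R] {p : ℕ} (hp : p.Prime) (x y : R) :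
    (x + y) ^ p = x ^ p + y ^ p +
      p * ∑ k ∈ Finset.Ioo 0 p, x ^ k * y ^ (p - k) * ((p.choose k / p : ℕ) : R) := by
  rw [add_pow_prime_eq hp x y, mul_assoc (p : R) x y, mul_assoc (p : R), Finset.mul_sum]
  congr 2
  refine Finset.sum_congr rfl fun k hk => ?_
  rw [Finset.mem_Ioo] at hk
  obtain ⟨j, rfl⟩ : ∃ j, k = j + 1 := ⟨k - 1, by omega⟩
  obtain ⟨i, hi⟩ : ∃ i, p - (j + 1) = i + 1 := ⟨p - (j + 1) - 1, by omega⟩
  rw [hi, Nat.add_sub_cancel, Nat.add_sub_cancel, pow_succ, pow_succ]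
  ring

/-- the coefficients of the Cauchy-Mirimanoff polynomial -/
private theorem LocCM_E {p : ℕ} [Fact p.Prime] (E : ℤ[X])
    (hE : C (p : ℤ) * E = (X + 1) ^ p - X ^ p - 1) :
    E = ∑ k ∈ Finset.Ioo 0 p, X ^ k * 1 ^ (p - k) * ((p.choose k / p : ℕ) : ℤ[X]) := by
  have hpp : p.Prime := Fact.out
  have h1 := LocCM_binom hpp (X : ℤ[X]) 1
  have h2 : (p : ℤ[X]) ≠ 0 := by exact_mod_cast hpp.ne_zero
  apply mul_left_cancel₀ h2
  have h3 : C (p : ℤ) = (p : ℤ[X]) := by simp
  rw [← h3, hE, h1, h3]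
  ring

theorem loc_cm {K : Type*} [Field K] [NumberField K] {p : ℕ} [Fact p.Prime] (hp2 : p ≠ 2)
    (hd : Module.finrank ℚ K < p) {a b c : 𝓞 K} (h : FSol K p a b c) {Ω : Type*} [Field Ω]
    [CharP Ω p] (ψ : 𝓞 K →+* Ω) (ha : ψ a ≠ 0) (E : ℤ[X])
    (hE : C (p : ℤ) * E = (X + 1) ^ p - X ^ p - 1) :
    aeval (ψ b / ψ a) E = 0 := by
  have hpp : p.Prime := Fact.out
  have hodd : Odd p := hpp.odd_of_ne_two hp2
  set P : Ideal (𝓞 K) := RingHom.ker ψ with hP
  have hPp : P.IsPrime := RingHom.ker_isPrime ψ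
  have hpP : (p : 𝓞 K) ∈ P := by
    rw [hP, RingHom.mem_ker, map_natCast, CharP.cast_eq_zero]
  set δ := a + b + c with hδ
  have hδP : δ ∈ P := by
    rw [hP, RingHom.mem_ker, hδ, map_add, map_add]
    exact fsol_hom h ψ
  set W : 𝓞 K := ∑ k ∈ Finset.Ioo 0 p, b ^ k * a ^ (p - k) * ((p.choose k / p : ℕ) : 𝓞 K) with hW
  set S : 𝓞 K := ∑ k ∈ Finset.Ioo 0 p, δ ^ k * (-(a + b)) ^ (p - k) *
    ((p.choose k / p : ℕ) : 𝓞 K) with hS
  have e1 := LocCM_binom hpp b a
  rw [← hW] at e1
  have e2 := LocCM_binom hpp δ (-(a + b))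
  rw [← hS] at e2
  have e3 : δ + -(a + b) = c := by rw [hδ]; ring
  rw [e3, hodd.neg_pow] at e2
  have e4 := h.2.2.2
  have e5 : (p : 𝓞 K) * (W - S) = δ ^ p := by
    have e6 : (a + b) ^ p = (b + a) ^ p := by rw [add_comm]
    rw [e2, e6, e1] at e4
    linear_combination -e4
  have h1 : W - S ∈ P := LocCM_ord hd P hPp hpP hδP e5
  have h2 : S ∈ P := by
    rw [hS]
    refine P.sum_mem fun k hk => ?_
    rw [Finset.mem_Ioo] at hk
    refine P.mul_mem_right _ (P.mul_mem_right _ ?_)
    exact P.pow_mem_of_mem hδP k hk.1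
  have h3 : W ∈ P := by
    have := P.add_mem h1 h2
    rwa [sub_add_cancel] at this
  have h4 : ψ W = 0 := h3
  have h5 : ψ a ^ p * aeval (ψ b / ψ a) E = ψ W := by
    rw [LocCM_E E hE, hW, map_sum, map_sum, Finset.mul_sum]
    refine Finset.sum_congr rfl fun k hk => ?_
    rw [Finset.mem_Ioo] at hk
    rw [map_mul, map_mul, map_pow, map_pow, map_mul, map_mul, map_pow, map_pow, aeval_X, map_one,
      one_pow, mul_one, map_natCast, map_natCast, div_pow]
    have h6 : ψ a ^ p = ψ a ^ (p - k) * ψ a ^ k := by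
      rw [← pow_add, Nat.sub_add_cancel hk.2.le]
    rw [h6]
    have h7 : ψ a ^ k ≠ 0 := pow_ne_zero _ ha
    field_simp
  rw [h4] at h5
  rcases mul_eq_zero.1 h5 with h6 | h6
  · exact absurd h6 (pow_ne_zero _ ha)
  · exact h6

theorem cm_one {K : Type*} [Field K] [NumberField K] {p : ℕ} [Fact p.Prime] (hp2 : p ≠ 2)
    (hd : Module.finrank ℚ K < p) {a b c : 𝓞 K} (h : FSol K p a b c)
    (hW : ¬ p ^ 2 ∣ 2 ^ (p - 1) - 1) {Ω : Type*} [Field Ω] [CharP Ω p] (ψ : 𝓞 K →+* Ω)
    (ha : ψ a ≠ 0) : ψ a ≠ ψ b := by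
  have hpp : p.Prime := Fact.out
  intro hab
  set E : ℤ[X] := ∑ k ∈ Finset.Ioo 0 p, X ^ k * 1 ^ (p - k) * ((p.choose k / p : ℕ) : ℤ[X])
    with hEdef
  have hE : C (p : ℤ) * E = (X + 1) ^ p - X ^ p - 1 := by
    have h1 := LocCM_binom hpp (X : ℤ[X]) 1
    have h3 : C (p : ℤ) = (p : ℤ[X]) := by simp
    rw [h1, h3, one_pow]
    ring
  have h1 := loc_cm hp2 hd h ψ ha E hE
  rw [← hab, div_self ha] at h1
  have h2 : aeval (1 : Ω) E = ((E.eval 1 : ℤ) : Ω) := by
    have := aeval_algebraMap_apply Ω (1 : ℤ) E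
    rw [map_one] at this
    rw [this]
    simp
  rw [h2, CharP.intCast_eq_zero_iff Ω p] at h1
  have h3 := congrArg (eval 1) hE
  rw [eval_mul, eval_C, eval_sub, eval_sub, eval_pow, eval_add, eval_X, eval_one, eval_pow, eval_X,
    one_pow] at h3
  have h4 : (p : ℤ) ^ 2 ∣ 2 * (2 ^ (p - 1) - 1) := by
    obtain ⟨t, ht⟩ := h1
    refine ⟨t, ?_⟩
    have h5 : (2 : ℤ) ^ p = 2 * 2 ^ (p - 1) := by
      rw [← pow_succ', Nat.sub_add_cancel hpp.one_le]
    rw [ht] at h3
    have h6 : (1 + 1 : ℤ) ^ p = 2 ^ p := by norm_num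
    rw [h6, h5] at h3
    linear_combination -h3
  have h5 : IsCoprime ((p : ℤ) ^ 2) 2 := by
    apply IsCoprime.pow_left
    have h6 : IsCoprime ((p : ℕ) : ℤ) ((2 : ℕ) : ℤ) :=
      Nat.isCoprime_iff_coprime.2 ((Nat.coprime_primes hpp Nat.prime_two).2 hp2)
    exact_mod_cast h6
  have h6 : (p : ℤ) ^ 2 ∣ 2 ^ (p - 1) - 1 := h5.dvd_of_dvd_mul_left h4
  apply hW
  have h7 : ((2 ^ (p - 1) - 1 : ℕ) : ℤ) = 2 ^ (p - 1) - 1 := by
    rw [Nat.cast_sub Nat.one_le_two_pow]
    push_cast
    ring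
  rw [← h7] at h6
  exact_mod_cast h6

end H9FC

end

section

/-!
# FD version 2, module RelSym: the relative consequences of the `S_3`-symmetry

`F ⊆ K` number fields, `w : 𝓞 F → Ω` with kernel a prime of `F` above `p`, `ψ_i : 𝓞 K → Ω`,
`i < [K:F]`, the reductions of the `F`-embeddings of `K` over `w`.  `SymP Q`: the multiplicities of the
roots `≠ 0, 1` of `Q` are invariant under `x ↦ 1/x`, `x ↦ 1 - x`.
-/

open NumberField Polynomial IsDedekindDomain H9FC H9AB H85FD

namespace H55AB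

/-- the root multiplicities outside `0, 1` are invariant under `1/x` and `1 - x` -/
def SymP {Ω : Type*} [Field Ω] (Q : Polynomial Ω) : Prop :=
  ∀ x : Ω, x ≠ 0 → x ≠ 1 →
    rootMultiplicity x⁻¹ Q = rootMultiplicity x Q ∧ rootMultiplicity (1 - x) Q = rootMultiplicity x Q

/-- the family of the reductions of the `F`-embeddings of `K` over `w` -/
structure RelFam {F : Type*} [Field F] [NumberField F] {K : Type*} [Field K] [NumberField K]
    [Algebra F K] {Ω : Type*} [Field Ω] (w : 𝓞 F →+* Ω)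
    (ψ : Fin (Module.finrank F K) → (𝓞 K →+* Ω)) : Prop where
  lies : ∀ i, (ψ i).comp (algebraMap (𝓞 F) (𝓞 K)) = w
  form : ∀ x y : 𝓞 K, (nfR F K x y).map w = ∏ i, (C (ψ i x) + X * C (ψ i y))

theorem exists_rel (F : Type*) [Field F] [NumberField F] (K : Type*) [Field K] [NumberField K]
    [Algebra F K] (Ω : Type*) [Field Ω] [IsAlgClosed Ω] (w : 𝓞 F →+* Ω) :
    ∃ ψ : Fin (Module.finrank F K) → (𝓞 K →+* Ω), RelFam w ψ := by
  obtain ⟨ψ, h1, h2⟩ := exists_relFam F K Ω w
  exact ⟨ψ, h1, h2⟩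

section

variable {F : Type*} [Field F] [NumberField F] {K : Type*} [Field K] [NumberField K] [Algebra F K]
  {p : ℕ} [Fact p.Prime] {Ω : Type*} [Field Ω] [CharP Ω p] {w : 𝓞 F →+* Ω}
  {ψ : Fin (Module.finrank F K) → (𝓞 K →+* Ω)} {a b c : 𝓞 K}

/-- the index set of the good members -/
abbrev GI (ψ : Fin (Module.finrank F K) → (𝓞 K →+* Ω)) (a b : 𝓞 K) : Type :=
  {i // Good (fun i => ψ i a) (fun i => ψ i b) i}

/-- the residues -/
noncomputable def TR (ψ : Fin (Module.finrank F K) → (𝓞 K →+* Ω)) (a b : 𝓞 K) (i : GI ψ a b) : Ω :=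
  - ψ i.1 b / ψ i.1 a

theorem good_iff (h : FSol K p a b c) (i : Fin (Module.finrank F K)) :
    Good (fun i => ψ i a) (fun i => ψ i b) i ↔
      a ∉ RingHom.ker (ψ i) ∧ b ∉ RingHom.ker (ψ i) ∧ c ∉ RingHom.ker (ψ i) := by
  have h1 := fsol_hom h (ψ i)
  simp only [RingHom.mem_ker]
  constructor
  · rintro ⟨h2, h3, h4⟩
    refine ⟨h2, h3, fun h5 => h4 ?_⟩
    rw [h5, add_zero] at h1
    exact h1
  · rintro ⟨h2, h3, h4⟩
    refine ⟨h2, h3, fun h5 => h4 ?_⟩
    have h6 : ψ i a + ψ i b = 0 := h5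
    rw [h6, zero_add] at h1
    exact h1

open Classical in
/-- the residues form an `S_3`-stable family -/
theorem s3_fam (hψ : RelFam w ψ) (h : FSol K p a b c) (hcp : CopAt K p a b c)
    (hS : SymP ((nfR F K a b).map w)) : S3St (TR ψ a b) := by
  rw [hψ.form a b] at hS
  refine s3_of_mult (fun i => ψ i a) (fun i => ψ i b) (fun i => ?_) (fun x h0 h1 => (hS x h0 h1).1)
    (fun x h0 h1 => (hS x h0 h1).2)
  by_contra hcon
  push Not at hcon
  exact (cop_hom h hcp (ψ i)).1 hcon

/-- `T = -1` only for Wieferich primes -/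
theorem wief_of_neg_one (hp2 : p ≠ 2) (hd : Module.finrank ℚ K < p) (h : FSol K p a b c)
    (i : GI ψ a b) (hi : TR ψ a b i = -1) : p ^ 2 ∣ 2 ^ (p - 1) - 1 := by
  by_contra hW
  have ha : ψ i.1 a ≠ 0 := i.2.1
  refine cm_one hp2 hd h hW (ψ i.1) ha ?_
  unfold TR at hi
  rw [div_eq_iff ha] at hi
  linear_combination hi

open Classical in
/-- (1) an odd number of good members -/
theorem rel_wief (hψ : RelFam w ψ) (hp2 : p ≠ 2) (hd : Module.finrank ℚ K < p)
    (h : FSol K p a b c) (hcp : CopAt K p a b c) (hS : SymP ((nfR F K a b).map w))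
    (hodd : Odd (Nat.card (GI ψ a b))) : p ^ 2 ∣ 2 ^ (p - 1) - 1 := by
  have hT := s3_fam hψ h hcp hS
  rw [Nat.card_eq_fintype_card] at hodd
  obtain ⟨v, hv⟩ := hT.exists_neg_one hodd
  exact wief_of_neg_one hp2 hd h v hv

/-- a root of `X² - X + 1` -/
theorem cubic_of_root (i : GI ψ a b) (hi : TR ψ a b i ^ 2 - TR ψ a b i + 1 = 0) :
    a ^ 2 + a * b + b ^ 2 ∈ RingHom.ker (ψ i.1) := by
  have ha : ψ i.1 a ≠ 0 := i.2.1
  rw [RingHom.mem_ker, map_add, map_add, map_mul, map_pow, map_pow]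
  unfold TR at hi
  field_simp at hi
  linear_combination hi

open Classical in
/-- (2) the number of good members is not divisible by three -/
theorem rel_root (hψ : RelFam w ψ) (h : FSol K p a b c) (hcp : CopAt K p a b c)
    (hS : SymP ((nfR F K a b).map w)) (h3 : ¬ 3 ∣ Nat.card (GI ψ a b)) :
    ∃ i j : GI ψ a b, TR ψ a b i ^ 2 - TR ψ a b i + 1 = 0 ∧ TR ψ a b j = 1 - TR ψ a b i := by
  have hT := s3_fam hψ h hcp hS
  rw [Nat.card_eq_fintype_card] at h3
  obtain ⟨v, hv⟩ := hT.exists_root h3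
  obtain ⟨σ, hσ⟩ := hT.sub'
  exact ⟨v, σ v, hv, hσ v⟩

end

end H55AB

end
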