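import Pool.Agent.H71.TFC.M11

/-! The parts of this file: H80.HF.Rec, H80.HF.Fbd. -/

section

/-!
# HF Rec: the recursions

PROOF. `rec_cross`: for `t ≥ 0` `NN (t+1) = lf (3t+2) * DN t`, `DN (t+1) = lf (3t+1) * NN t`; for `t < 0` (`t = -n-1`,
`3t+2 = -3n-1`, `3t+1 = -3n-2`) `NN t = lf (3t+2) * DN (t+1)`, `DN t = lf (3t+1) * NN (t+1)`. Constant terms are products of
the constants `3t+1`, `3t+2`, nonzero. `FF_rec` in `ℚ[[y]]` from `rec_cross`.
-/

set_option autoImplicit false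

namespace Pool.Agent.H80.HF

theorem Rec_lf_coeff (n : ℤ) : (lf n).coeff 0 = n := by
  simp [lf]

theorem Rec_pos (n : ℕ) : NN (n : ℤ) = (NDp n).1 ∧ DN (n : ℤ) = (NDp n).2 := by
  have h2 : (0 : ℤ) ≤ (n : ℤ) := by positivity
  have h4 : ((n : ℤ)).toNat = n := by omega
  rw [NN, DN, if_pos h2, if_pos h2, h4]
  exact ⟨rfl, rfl⟩

theorem NN_zero : NN 0 = 1 := by
  have := (Rec_pos 0).1
  simpa [NDp] using this

theorem DN_zero : DN 0 = 1 := by
  have := (Rec_pos 0).2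
  simpa [NDp] using this

theorem Rec_neg (n : ℕ) : NN (-(n : ℤ)) = (NDm n).1 ∧ DN (-(n : ℤ)) = (NDm n).2 := by
  rcases Nat.eq_zero_or_pos n with h | h
  · subst h
    simp only [Nat.cast_zero, neg_zero, NN_zero, DN_zero, NDm, and_self]
  · have h1 : ¬ (0 : ℤ) ≤ -(n : ℤ) := by omega
    have h2 : (-(-(n : ℤ))).toNat = n := by omega
    rw [NN, DN, if_neg h1, if_neg h1, h2]
    exact ⟨rfl, rfl⟩

theorem Rec_pos_succ (n : ℕ) : NN ((n : ℤ) + 1) = lf (3 * n + 2) * DN n ∧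
    DN ((n : ℤ) + 1) = lf (3 * n + 1) * NN n := by
  have h := Rec_pos (n + 1)
  push_cast at h
  rw [h.1, h.2, (Rec_pos n).1, (Rec_pos n).2, NDp]
  exact ⟨rfl, rfl⟩

theorem Rec_neg_succ (n : ℕ) : NN (-((n : ℤ) + 1)) = lf (-(3 * n) - 1) * DN (-(n : ℤ)) ∧
    DN (-((n : ℤ) + 1)) = lf (-(3 * n) - 2) * NN (-(n : ℤ)) := by
  have h := Rec_neg (n + 1)
  push_cast at h
  rw [h.1, h.2, (Rec_neg n).1, (Rec_neg n).2, NDm]
  exact ⟨rfl, rfl⟩

theorem rec_cross (t : ℤ) :
    lf (3 * t + 1) * (NN (t + 1) * NN t) = lf (3 * t + 2) * (DN (t + 1) * DN t) := by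
  rcases le_or_gt 0 t with h | h
  · obtain ⟨n, rfl⟩ := Int.eq_ofNat_of_zero_le h
    rw [(Rec_pos_succ n).1, (Rec_pos_succ n).2]
    ring
  · obtain ⟨n, hn⟩ := Int.eq_ofNat_of_zero_le (show 0 ≤ -(t + 1) by omega)
    have ht : t = -((n : ℤ) + 1) := by omega
    subst ht
    have e : -((n : ℤ) + 1) + 1 = -(n : ℤ) := by ring
    have e1 : (3 : ℤ) * -((n : ℤ) + 1) + 1 = -(3 * n) - 2 := by ring
    have e2 : (3 : ℤ) * -((n : ℤ) + 1) + 2 = -(3 * n) - 1 := by ring
    rw [e, e1, e2, (Rec_neg_succ n).1, (Rec_neg_succ n).2]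
    ring

theorem Rec_ne (n : ℕ) : ((NN (n : ℤ)).coeff 0 ≠ 0 ∧ (DN (n : ℤ)).coeff 0 ≠ 0) ∧
    ((NN (-(n : ℤ))).coeff 0 ≠ 0 ∧ (DN (-(n : ℤ))).coeff 0 ≠ 0) := by
  induction n with
  | zero => simp [NN_zero, DN_zero]
  | succ n ih =>
    obtain ⟨⟨h1, h2⟩, h3, h4⟩ := ih
    push_cast
    rw [(Rec_pos_succ n).1, (Rec_pos_succ n).2, (Rec_neg_succ n).1, (Rec_neg_succ n).2]
    simp only [Polynomial.mul_coeff_zero, Rec_lf_coeff]
    exact ⟨⟨mul_ne_zero (by omega) h2, mul_ne_zero (by omega) h1⟩,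
      mul_ne_zero (by omega) h4, mul_ne_zero (by omega) h3⟩

theorem NN_coeff_ne (t : ℤ) : (NN t).coeff 0 ≠ 0 := by
  obtain ⟨n, rfl | rfl⟩ := Int.eq_nat_or_neg t
  · exact (Rec_ne n).1.1
  · exact (Rec_ne n).2.1

theorem DN_coeff_ne (t : ℤ) : (DN t).coeff 0 ≠ 0 := by
  obtain ⟨n, rfl | rfl⟩ := Int.eq_nat_or_neg t
  · exact (Rec_ne n).1.2
  · exact (Rec_ne n).2.2

theorem Rec_const (P : Polynomial ℤ) : PowerSeries.constantCoeff (toPS P) = (P.coeff 0 : ℚ) := by
  unfold toPS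
  rw [← PowerSeries.coeff_zero_eq_constantCoeff_apply, Polynomial.coeff_coe, Polynomial.coeff_map]
  simp

theorem Rec_toPS_mul (P Q : Polynomial ℤ) : toPS (P * Q) = toPS P * toPS Q := by
  unfold toPS
  rw [Polynomial.map_mul, Polynomial.coe_mul]

theorem Rec_toPS_one : toPS 1 = 1 := by
  unfold toPS
  rw [Polynomial.map_one, Polynomial.coe_one]

theorem FF_zero : FF 0 = 1 := by
  rw [FF, NN_zero, DN_zero, Rec_toPS_one, one_mul]
  have h : PowerSeries.constantCoeff (1 : PowerSeries ℚ) ≠ 0 := by simp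
  have h2 := PowerSeries.mul_inv_cancel (1 : PowerSeries ℚ) h
  rwa [one_mul] at h2

theorem Rec_DN_const_ne (t : ℤ) : PowerSeries.constantCoeff (toPS (DN t)) ≠ 0 := by
  rw [Rec_const]
  exact_mod_cast DN_coeff_ne t

theorem FF_DN (t : ℤ) : FF t * toPS (DN t) = toPS (NN t) := by
  rw [FF, mul_assoc, PowerSeries.inv_mul_cancel _ (Rec_DN_const_ne t), mul_one]

theorem FF_coeff_ne (t : ℤ) : PowerSeries.constantCoeff (FF t) ≠ 0 := by
  intro h
  have h1 := congrArg (PowerSeries.constantCoeff (R := ℚ)) (FF_DN t)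
  rw [map_mul, h, zero_mul, Rec_const] at h1
  exact NN_coeff_ne t (by exact_mod_cast h1.symm)

theorem Rec_DN_ne (t : ℤ) : toPS (DN t) ≠ 0 := by
  intro h
  exact Rec_DN_const_ne t (by rw [h, map_zero])

theorem FF_rec (t : ℤ) : toPS (lf (3 * t + 1)) * (FF (t + 1) * FF t) = toPS (lf (3 * t + 2)) := by
  have h := congrArg toPS (rec_cross t)
  simp only [Rec_toPS_mul] at h
  rw [← FF_DN (t + 1), ← FF_DN t] at h
  have h1 : toPS (DN (t + 1)) * toPS (DN t) ≠ 0 := mul_ne_zero (Rec_DN_ne _) (Rec_DN_ne _)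
  apply mul_right_cancel₀ h1
  linear_combination h

/-- two steps -/
theorem FF_rec2 (t : ℤ) : toPS (lf (3 * t + 2)) * toPS (lf (3 * t + 4)) * FF (t + 2) =
    toPS (lf (3 * t + 1)) * toPS (lf (3 * t + 5)) * FF t := by
  have h1 := FF_rec t
  have h2 := FF_rec (t + 1)
  have e1 : 3 * (t + 1) + 1 = 3 * t + 4 := by ring
  have e2 : 3 * (t + 1) + 2 = 3 * t + 5 := by ring
  have e3 : t + 1 + 1 = t + 2 := by ring
  rw [e1, e2, e3] at h2
  rw [← h1, ← h2]
  ring

end Pool.Agent.H80.HF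

end

section

/-!
# HF Fbd: `q`-adic size of the coefficients of `F_t`, `q ≥ 5`, `3L < q²`

PROOF. Say `Bd e f` if `padicNorm q (coeff j f) ≤ q^(j - e)` for all `j`. `Bd e f`, `Bd e' g` give `Bd (e+e') (f g)`
(ultrametric). `n + 3y`: `Bd 0` if `q ∤ n`, `Bd 1` if `q ∣ n`; its inverse (coefficients `(-3)^j n^(-j-1)`) is `Bd 0` if `q ∤ n`, and
`Bd (-1)` if the valuation of `n` is exactly 1 (`0 < |n| < 3L < q²`). So by `FF_rec2` (steps of 2 from `F_0 = 1`,
`F_1 = (3y+2)/(3y+1)`, `F_(-1) = (3y-1)/(3y-2)`), or from the product formula, `FF t` is `Bd (e t)` with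
`e (t+2) = e t + [q ∣ 3t+1] + [q ∣ 3t+5] - [q ∣ 3t+2] - [q ∣ 3t+4]`, `e 0 = e 1 = e (-1) = 0`, and `e = Ee q`: for `t > 0`
`e t = ∑ -(-1)^(n+t)` over the multiples `n = jq < 3t` of `q` with `3 ∤ j`: `= (-1)^(t+1) ∑_(j < 3t/q, 3 ∤ j) (-1)^j`, the inner sum is `-1`
for `1 < 3t/q < 2`, `0` for `2 < 3t/q < 4`, `1` for `4 < 3t/q < 5`, `0` for `5 < 3t/q < 7`, period 6; `F_(-t)(y) = 1/F_t(-y)`.
`F_int`: `FF t = NN t / DN t` and the constant term of `DN t` is a unit.
-/

set_option autoImplicit false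

namespace Pool.Agent.H80.HF

/-- the coefficients of `f` have `q`-adic size at most `q^(j-e)` -/
def Bd (q : ℕ) (e : ℤ) (f : PowerSeries ℚ) : Prop :=
  ∀ j : ℕ, padicNorm q (PowerSeries.coeff j f) ≤ (q : ℚ) ^ ((j : ℤ) - e)

theorem Bd_mul {q : ℕ} [hq : Fact q.Prime] {e e' : ℤ} {f g : PowerSeries ℚ} (hf : Bd q e f)
    (hg : Bd q e' g) : Bd q (e + e') (f * g) := by
  intro j
  have hq0 : (0 : ℚ) < q := by exact_mod_cast hq.out.pos
  rw [PowerSeries.coeff_mul]
  refine padicNorm.sum_le' (fun x hx => ?_) (zpow_nonneg hq0.le _)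
  rw [Finset.HasAntidiagonal.mem_antidiagonal] at hx
  rw [padicNorm.mul]
  have h1 := hf x.1
  have h2 := hg x.2
  have h3 : (q : ℚ) ^ ((j : ℤ) - (e + e')) = (q : ℚ) ^ ((x.1 : ℤ) - e) * (q : ℚ) ^ ((x.2 : ℤ) - e') := by
    rw [← zpow_add₀ hq0.ne']
    congr 1
    rw [← hx]
    push_cast
    ring
  rw [h3]
  exact mul_le_mul h1 h2 (padicNorm.nonneg _) (zpow_nonneg hq0.le _)

theorem Bd_mono {q : ℕ} [hq : Fact q.Prime] {e e' : ℤ} {f : PowerSeries ℚ} (hf : Bd q e f)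
    (h : e' ≤ e) : Bd q e' f := by
  intro j
  have hq1 : (1 : ℚ) ≤ q := by exact_mod_cast hq.out.one_lt.le
  exact (hf j).trans (zpow_le_zpow_right₀ hq1 (by omega))

theorem Bd_one {q : ℕ} [hq : Fact q.Prime] : Bd q 0 1 := by
  intro j
  have hq1 : (1 : ℚ) ≤ q := by exact_mod_cast hq.out.one_lt.le
  rw [PowerSeries.coeff_one]
  split_ifs with h
  · subst h; simp
  · rw [padicNorm.zero]; positivity

theorem coeff_lf (n : ℤ) (j : ℕ) : PowerSeries.coeff j (toPS (lf n)) =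
    if j = 0 then (n : ℚ) else if j = 1 then 3 else 0 := by
  unfold toPS lf
  rw [Polynomial.coeff_coe, Polynomial.coeff_map, Polynomial.coeff_add, Polynomial.coeff_C_mul,
    Polynomial.coeff_X, Polynomial.coeff_C]
  rcases j with _ | _ | j
  · simp
  · simp
  · simp

theorem norm_int_le {q : ℕ} [hq : Fact q.Prime] (n : ℤ) : padicNorm q (n : ℚ) ≤ 1 :=
  padicNorm.of_int n

theorem Bd_lf {q : ℕ} [hq : Fact q.Prime] (n : ℤ) :
    Bd q (if (q : ℤ) ∣ n then 1 else 0) (toPS (lf n)) := by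
  have hq1 : (1 : ℚ) ≤ q := by exact_mod_cast hq.out.one_lt.le
  have h3 : padicNorm q (3 : ℚ) ≤ 1 := by
    have := norm_int_le (q := q) 3
    exact_mod_cast this
  intro j
  rw [coeff_lf]
  by_cases hn : (q : ℤ) ∣ n
  · rw [if_pos hn]
    rcases j with _ | _ | j
    · rw [if_pos rfl]
      have h := (padicNorm.dvd_iff_norm_le (p := q) (n := 1) (z := n)).1 (by simpa using hn)
      simpa using h
    · simpa using h3
    · simp only [Nat.add_eq_zero_iff, one_ne_zero, and_false, ↓reduceIte, Nat.add_eq_right]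
      simp
      positivity
  · rw [if_neg hn]
    rcases j with _ | _ | j
    · rw [if_pos rfl]
      simpa using norm_int_le (q := q) n
    · simp only [Nat.add_eq_zero_iff, one_ne_zero, and_false, ↓reduceIte, zero_add, Nat.cast_one,
        sub_zero, zpow_one]
      exact h3.trans hq1
    · simp
      positivity

/-- the inverse of `n + 3y` -/
noncomputable def ilf (n : ℤ) : PowerSeries ℚ :=
  PowerSeries.mk fun j => (-3 : ℚ) ^ j * ((n : ℚ) ^ (j + 1))⁻¹

theorem lf_mul_ilf (n : ℤ) (hn : n ≠ 0) : toPS (lf n) * ilf n = 1 := by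
  have hn' : (n : ℚ) ≠ 0 := by exact_mod_cast hn
  have h1 : toPS (lf n) = PowerSeries.C (n : ℚ) + PowerSeries.C 3 * PowerSeries.X := by
    ext j
    rw [coeff_lf, map_add, PowerSeries.coeff_C, PowerSeries.coeff_C_mul, PowerSeries.coeff_X]
    rcases j with _ | _ | j
    · simp
    · simp
    · simp
  rw [h1, add_mul]
  ext j
  rw [map_add, mul_assoc, PowerSeries.coeff_C_mul, PowerSeries.coeff_C_mul]
  rcases j with _ | j
  · simp only [ilf, PowerSeries.coeff_mk, pow_zero, zero_add, pow_one, one_mul,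
      PowerSeries.coeff_zero_X_mul, mul_zero, add_zero, PowerSeries.coeff_one, ↓reduceIte]
    exact mul_inv_cancel₀ hn'
  · rw [PowerSeries.coeff_succ_X_mul, PowerSeries.coeff_one, if_neg (Nat.succ_ne_zero j)]
    simp only [ilf, PowerSeries.coeff_mk]
    field_simp
    ring

theorem Bd_ilf {q : ℕ} [hq : Fact q.Prime] (n : ℤ) (hn : n ≠ 0) (hlt : |n| < (q : ℤ) ^ 2) :
    Bd q (if (q : ℤ) ∣ n then -1 else 0) (ilf n) := by
  have hq0 : (0 : ℚ) < q := by exact_mod_cast hq.out.pos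
  have hq1 : (1 : ℚ) ≤ q := by exact_mod_cast hq.out.one_lt.le
  have hn' : (n : ℚ) ≠ 0 := by exact_mod_cast hn
  have h3 : padicNorm q ((-3 : ℚ)) ≤ 1 := by
    have := norm_int_le (q := q) (-3)
    exact_mod_cast this
  have hpow : ∀ (x : ℚ) (k : ℕ), padicNorm q (x ^ k) = padicNorm q x ^ k := by
    intro x k
    induction k with
    | zero => simp
    | succ k ih => rw [pow_succ, padicNorm.mul, ih, pow_succ]
  have hinv : ∀ x : ℚ, x ≠ 0 → padicNorm q x⁻¹ = (padicNorm q x)⁻¹ := by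
    intro x hx
    have h := padicNorm.mul (p := q) x x⁻¹
    rw [mul_inv_cancel₀ hx, padicNorm.one] at h
    exact eq_inv_of_mul_eq_one_right h.symm
  intro j
  have hcoef : PowerSeries.coeff j (ilf n) = (-3 : ℚ) ^ j * ((n : ℚ) ^ (j + 1))⁻¹ := by
    simp [ilf]
  rw [hcoef, padicNorm.mul, hpow, hinv _ (pow_ne_zero _ hn'), hpow]
  have h4 : padicNorm q (-3 : ℚ) ^ j ≤ 1 := pow_le_one₀ (padicNorm.nonneg _) h3
  by_cases hd : (q : ℤ) ∣ n
  · rw [if_pos hd]
    -- valuation exactly one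
    have h5 : (q : ℚ) ^ (-1 : ℤ) ≤ padicNorm q (n : ℚ) := by
      by_contra hlt'
      push Not at hlt'
      obtain ⟨m, hm⟩ := hd
      have hm0 : m ≠ 0 := by rintro rfl; exact hn (by simpa using hm)
      have hmq : ¬ (q : ℤ) ∣ m := by
        intro hdm
        obtain ⟨k, hk⟩ := hdm
        have hk0 : k ≠ 0 := by rintro rfl; exact hm0 (by simpa using hk)
        have h7 : (1 : ℤ) ≤ |k| := Int.one_le_abs hk0
        have h8 : |n| = (q : ℤ) ^ 2 * |k| := by
          rw [hm, hk, abs_mul, abs_mul, Nat.abs_cast]; ring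
        have h9 : (0 : ℤ) < (q : ℤ) ^ 2 := by
          have : (0 : ℤ) < q := by exact_mod_cast hq.out.pos
          positivity
        nlinarith
      have h6 : padicNorm q (m : ℚ) = 1 := padicNorm.int_eq_one_iff m |>.2 hmq
      rw [hm] at hlt'
      push_cast at hlt'
      rw [padicNorm.mul, h6, mul_one, padicNorm.padicNorm_p hq.out.one_lt] at hlt'
      simp at hlt'
    have h6 : (0 : ℚ) < (q : ℚ) ^ (-1 : ℤ) := zpow_pos hq0 _
    have h7 : ((q : ℚ) ^ (-1 : ℤ)) ^ (j + 1) ≤ padicNorm q (n : ℚ) ^ (j + 1) :=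
      pow_le_pow_left₀ h6.le h5 _
    have h8 : (padicNorm q (n : ℚ) ^ (j + 1))⁻¹ ≤ (((q : ℚ) ^ (-1 : ℤ)) ^ (j + 1))⁻¹ :=
      inv_anti₀ (pow_pos h6 _) h7
    have h9 : (((q : ℚ) ^ (-1 : ℤ)) ^ (j + 1))⁻¹ = (q : ℚ) ^ ((j : ℤ) - -1) := by
      rw [← zpow_natCast, ← zpow_mul, ← zpow_neg]
      congr 1
      push_cast
      ring
    rw [h9] at h8
    calc padicNorm q (-3 : ℚ) ^ j * (padicNorm q (n : ℚ) ^ (j + 1))⁻¹
        ≤ 1 * (q : ℚ) ^ ((j : ℤ) - -1) := by
          refine mul_le_mul h4 h8 (inv_nonneg.2 (pow_nonneg (padicNorm.nonneg _) _)) zero_le_one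
      _ = _ := one_mul _
  · rw [if_neg hd]
    have h5 : padicNorm q (n : ℚ) = 1 := padicNorm.int_eq_one_iff n |>.2 hd
    rw [h5, one_pow, inv_one, mul_one]
    refine h4.trans ?_
    rw [sub_zero, zpow_natCast]
    exact one_le_pow₀ hq1

/-- the recursion of `Ee` -/
theorem Ee_rec (q : ℕ) (hq : q.Prime) (h5 : 5 ≤ q) (t : ℤ) :
    Ee q (t + 2) = Ee q t + (if (q : ℤ) ∣ 3 * t + 1 then 1 else 0) + (if (q : ℤ) ∣ 3 * t + 5 then 1 else 0)
      + (if (q : ℤ) ∣ 3 * t + 2 then -1 else 0) + (if (q : ℤ) ∣ 3 * t + 4 then -1 else 0) := by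
  have hq3 : q % 3 ≠ 0 := by
    intro h
    have := (Nat.prime_dvd_prime_iff_eq Nat.prime_three hq).1 (Nat.dvd_of_mod_eq_zero h)
    omega
  have hq2 : q % 2 ≠ 0 := by
    intro h
    have := (Nat.prime_dvd_prime_iff_eq Nat.prime_two hq).1 (Nat.dvd_of_mod_eq_zero h)
    omega
  have hq6 : 2 * q % 3 ≠ 0 := by omega
  have hq0 : (0 : ℤ) < q := by exact_mod_cast hq.pos
  obtain ⟨c, hc⟩ : ∃ c : ℤ, t % q = c := ⟨_, rfl⟩
  have hc0 : 0 ≤ c := hc ▸ Int.emod_nonneg _ hq0.ne'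
  have hc1 : c < q := hc ▸ Int.emod_lt_of_pos _ hq0
  obtain ⟨k, hk⟩ : ∃ k : ℤ, t = q * k + c := ⟨t / q, by rw [← hc]; exact (Int.mul_ediv_add_emod t q).symm⟩
  have hdvd : ∀ i : ℤ, 1 ≤ i → i ≤ 5 → i ≠ 3 → ((q : ℤ) ∣ 3 * t + i ↔ 3 * c + i = q ∨ 3 * c + i = 2 * q) := by
    intro i hi1 hi5 hi3
    have h1 : (q : ℤ) ∣ 3 * t + i ↔ (q : ℤ) ∣ 3 * c + i := by
      rw [hk, show 3 * ((q : ℤ) * k + c) + i = (q : ℤ) * (3 * k) + (3 * c + i) by ring]
      exact dvd_add_right (dvd_mul_right _ _)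
    rw [h1]
    constructor
    · rintro ⟨m, hm⟩
      have hm1 : 0 < m := by
        by_contra hcon
        nlinarith
      have hm4 : m < 4 := by
        by_contra hcon
        nlinarith
      interval_cases m
      · left; omega
      · right; omega
      · exfalso; omega
    · rintro (h | h)
      · exact ⟨1, by omega⟩
      · exact ⟨2, by omega⟩
  have e1 := hdvd 1 (by norm_num) (by norm_num) (by norm_num)
  have e5 := hdvd 5 (by norm_num) (by norm_num) (by norm_num)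
  have e2 := hdvd 2 (by norm_num) (by norm_num) (by norm_num)
  have e4 := hdvd 4 (by norm_num) (by norm_num) (by norm_num)
  simp only [e1, e5, e2, e4]
  have hmod : (t + 2) % q = if c + 2 < q then c + 2 else c + 2 - q := by
    have h1 : (t + 2) % q = (c + 2) % q := by
      rw [hk, show (q : ℤ) * k + c + 2 = (c + 2) + q * k by ring, Int.add_mul_emod_self_left]
    rw [h1]
    split_ifs with h
    · exact Int.emod_eq_of_lt (by omega) h
    · rw [show c + 2 = (c + 2 - q) + q * 1 by ring, Int.add_mul_emod_self_left]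
      rw [Int.emod_eq_of_lt (by omega) (by omega)]
      ring
  unfold Ee
  rw [hmod, hc]
  by_cases hlt : c + 2 < q
  · simp only [if_pos hlt]
    split_ifs <;> omega
  · simp only [if_neg hlt]
    split_ifs <;> omega

theorem F_bound (q : ℕ) [Fact q.Prime] (h5 : 5 ≤ q) (L : ℕ) (hL : 3 * L < q ^ 2) (t : ℤ)
    (ht : |t| ≤ (L : ℤ)) (j : ℕ) :
    padicNorm q (PowerSeries.coeff j (FF t)) ≤ (q : ℚ) ^ ((j : ℤ) - Ee q t) := by
  have hq : q.Prime := Fact.out
  have hL' : (3 * L : ℤ) < (q : ℤ) ^ 2 := by exact_mod_cast hL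
  have hlf0 : ∀ n : ℤ, ¬ (3 : ℤ) ∣ n → n ≠ 0 := by
    rintro n h rfl
    exact h (dvd_zero _)
  -- the step upwards
  have up : ∀ t : ℤ, -(L : ℤ) ≤ t → t + 2 ≤ L → Bd q (Ee q t) (FF t) → Bd q (Ee q (t + 2)) (FF (t + 2)) := by
    intro t h1 h2 hb
    have n2 : 3 * t + 2 ≠ 0 := by omega
    have n4 : 3 * t + 4 ≠ 0 := by omega
    have hF : FF (t + 2) = FF t * toPS (lf (3 * t + 1)) * toPS (lf (3 * t + 5)) * ilf (3 * t + 2)
        * ilf (3 * t + 4) := by
      have h := FF_rec2 t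
      have i2 := lf_mul_ilf (3 * t + 2) n2
      have i4 := lf_mul_ilf (3 * t + 4) n4
      calc FF (t + 2) = (toPS (lf (3 * t + 2)) * ilf (3 * t + 2)) * (toPS (lf (3 * t + 4)) * ilf (3 * t + 4))
            * FF (t + 2) := by rw [i2, i4]; ring
        _ = (toPS (lf (3 * t + 2)) * toPS (lf (3 * t + 4)) * FF (t + 2)) * ilf (3 * t + 2)
            * ilf (3 * t + 4) := by ring
        _ = _ := by rw [h]; ring
    rw [hF, Ee_rec q hq h5]
    have b1 := Bd_lf (q := q) (3 * t + 1)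
    have b5 := Bd_lf (q := q) (3 * t + 5)
    have b2 := Bd_ilf (q := q) (3 * t + 2) n2 (by rw [abs_lt]; constructor <;> linarith)
    have b4 := Bd_ilf (q := q) (3 * t + 4) n4 (by rw [abs_lt]; constructor <;> linarith)
    exact Bd_mul (Bd_mul (Bd_mul (Bd_mul hb b1) b5) b2) b4
  -- the step downwards
  have down : ∀ t : ℤ, -(L : ℤ) ≤ t → t + 2 ≤ L → Bd q (Ee q (t + 2)) (FF (t + 2)) → Bd q (Ee q t) (FF t) := by
    intro t h1 h2 hb
    have n1 : 3 * t + 1 ≠ 0 := by omega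
    have n5 : 3 * t + 5 ≠ 0 := by omega
    have hF : FF t = FF (t + 2) * toPS (lf (3 * t + 2)) * toPS (lf (3 * t + 4)) * ilf (3 * t + 1)
        * ilf (3 * t + 5) := by
      have h := FF_rec2 t
      have i1 := lf_mul_ilf (3 * t + 1) n1
      have i5 := lf_mul_ilf (3 * t + 5) n5
      calc FF t = (toPS (lf (3 * t + 1)) * ilf (3 * t + 1)) * (toPS (lf (3 * t + 5)) * ilf (3 * t + 5))
            * FF t := by rw [i1, i5]; ring
        _ = (toPS (lf (3 * t + 1)) * toPS (lf (3 * t + 5)) * FF t) * ilf (3 * t + 1)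
            * ilf (3 * t + 5) := by ring
        _ = _ := by rw [← h]; ring
    have hE := Ee_rec q hq h5 t
    have b1 := Bd_ilf (q := q) (3 * t + 1) n1 (by rw [abs_lt]; constructor <;> linarith)
    have b5 := Bd_ilf (q := q) (3 * t + 5) n5 (by rw [abs_lt]; constructor <;> linarith)
    have b2 := Bd_lf (q := q) (3 * t + 2)
    have b4 := Bd_lf (q := q) (3 * t + 4)
    rw [hF]
    refine Bd_mono (Bd_mul (Bd_mul (Bd_mul (Bd_mul hb b2) b4) b1) b5) ?_
    rw [hE]
    apply le_of_eq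
    split_ifs <;> ring
  have e0 : Ee q 0 = 0 := by
    unfold Ee
    rw [if_neg]
    rw [Int.zero_emod]
    omega
  have e1 : Ee q 1 = 0 := by
    unfold Ee
    rw [if_neg]
    rw [Int.emod_eq_of_lt (by norm_num) (by omega)]
    omega
  have em1 : Ee q (-1) = 0 := by
    unfold Ee
    rw [if_neg]
    have : (-1 : ℤ) % q = q - 1 := by
      rw [show (-1 : ℤ) = (q - 1) + q * (-1) by ring, Int.add_mul_emod_self_left]
      exact Int.emod_eq_of_lt (by omega) (by omega)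
    rw [this]
    omega
  have b0 : Bd q (Ee q 0) (FF 0) := by rw [e0, FF_zero]; exact Bd_one
  have hL1 : (1 : ℤ) ≤ L → Bd q (Ee q 1) (FF 1) := by
    intro hL1
    have hF : FF 1 = toPS (lf 2) * ilf 1 := by
      have h := FF_rec 0
      rw [FF_zero] at h
      norm_num at h
      have i1 := lf_mul_ilf 1 one_ne_zero
      calc FF 1 = (toPS (lf 1) * ilf 1) * FF 1 := by rw [i1, one_mul]
        _ = (toPS (lf 1) * FF 1) * ilf 1 := by ring
        _ = _ := by rw [h]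
    rw [hF, e1]
    have b1 := Bd_lf (q := q) 2
    have b2 := Bd_ilf (q := q) 1 one_ne_zero (by norm_num; nlinarith)
    have d1 : ¬ (q : ℤ) ∣ 2 := fun h => by have := Int.le_of_dvd (by norm_num) h; omega
    have d2 : ¬ (q : ℤ) ∣ 1 := fun h => by have := Int.le_of_dvd (by norm_num) h; omega
    rw [if_neg d1] at b1
    rw [if_neg d2] at b2
    simpa using Bd_mul b1 b2
  have hL2 : (1 : ℤ) ≤ L → Bd q (Ee q (-1)) (FF (-1)) := by
    intro hL1
    have hF : FF (-1) = toPS (lf (-1)) * ilf (-2) := by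
      have h := FF_rec (-1)
      norm_num at h
      rw [FF_zero, one_mul] at h
      have i1 := lf_mul_ilf (-2) (by norm_num)
      calc FF (-1) = (toPS (lf (-2)) * ilf (-2)) * FF (-1) := by rw [i1, one_mul]
        _ = (toPS (lf (-2)) * FF (-1)) * ilf (-2) := by ring
        _ = _ := by rw [h]
    rw [hF, em1]
    have b1 := Bd_lf (q := q) (-1)
    have b2 := Bd_ilf (q := q) (-2) (by norm_num) (by norm_num; nlinarith)
    have d1 : ¬ (q : ℤ) ∣ -1 := fun h => by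
      have := Int.le_of_dvd (by norm_num) (Int.dvd_neg.1 h); omega
    have d2 : ¬ (q : ℤ) ∣ -2 := fun h => by
      have := Int.le_of_dvd (by norm_num) (Int.dvd_neg.1 h); omega
    rw [if_neg d1] at b1
    rw [if_neg d2] at b2
    simpa using Bd_mul b1 b2
  have pos : ∀ n : ℕ, (n : ℤ) ≤ L → Bd q (Ee q n) (FF n) := by
    intro n
    induction n using Nat.strong_induction_on with
    | _ n ih =>
      intro hn
      rcases n with _ | _ | n
      · simpa using b0
      · simpa using hL1 (by simpa using hn)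
      · have h := ih n (by omega) (by push_cast at hn; linarith)
        have h2 := up n (by push_cast at hn; linarith [Int.natCast_nonneg n]) (by push_cast at hn; linarith) h
        simpa [add_assoc] using h2
  have neg : ∀ n : ℕ, (n : ℤ) ≤ L → Bd q (Ee q (-(n : ℤ))) (FF (-(n : ℤ))) := by
    intro n
    induction n using Nat.strong_induction_on with
    | _ n ih =>
      intro hn
      rcases n with _ | _ | n
      · simpa using b0
      · simpa using hL2 (by simpa using hn)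
      · have h := ih n (by omega) (by push_cast at hn; linarith)
        have h1 : (-((n + 1 + 1 : ℕ) : ℤ)) + 2 = -(n : ℤ) := by push_cast; ring
        refine down (-((n + 1 + 1 : ℕ) : ℤ)) (by linarith) ?_ ?_
        · rw [h1]; linarith [Int.natCast_nonneg n, Int.natCast_nonneg L]
        · rw [h1]; exact h
  rcases le_total 0 t with h0 | h0
  · obtain ⟨n, rfl⟩ := Int.eq_ofNat_of_zero_le h0
    rw [abs_of_nonneg (Int.natCast_nonneg n)] at ht
    exact pos n ht j
  · obtain ⟨n, hn⟩ := Int.eq_ofNat_of_zero_le (neg_nonneg.2 h0)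
    have ht' : t = -(n : ℤ) := by omega
    subst ht'
    rw [abs_neg, abs_of_nonneg (Int.natCast_nonneg n)] at ht
    exact neg n ht j

theorem F_int (q : ℕ) [Fact q.Prime] (t : ℤ) (h : ¬ (q : ℤ) ∣ (DN t).coeff 0) (j : ℕ) :
    padicNorm q (PowerSeries.coeff j (FF t)) ≤ 1 := by
  have hc : ∀ (P : Polynomial ℤ) (i : ℕ), PowerSeries.coeff i (toPS P) = ((P.coeff i : ℤ) : ℚ) := by
    intro P i
    unfold toPS
    rw [Polynomial.coeff_coe, Polynomial.coeff_map]
    rfl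
  induction j using Nat.strong_induction_on with
  | _ j ih =>
    have h1 := congrArg (PowerSeries.coeff j) (FF_DN t)
    rw [hc, PowerSeries.coeff_mul, Finset.Nat.sum_antidiagonal_eq_sum_range_succ_mk,
      Finset.sum_range_succ] at h1
    simp only [Nat.sub_self, hc] at h1
    have h2 : PowerSeries.coeff j (FF t) * (((DN t).coeff 0 : ℤ) : ℚ) =
        (((NN t).coeff j : ℤ) : ℚ) - ∑ i ∈ Finset.range j, PowerSeries.coeff i (FF t) * (((DN t).coeff (j - i) : ℤ) : ℚ) := by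
      linarith
    have h3 : padicNorm q (PowerSeries.coeff j (FF t)) =
        padicNorm q (PowerSeries.coeff j (FF t) * (((DN t).coeff 0 : ℤ) : ℚ)) := by
      rw [padicNorm.mul, padicNorm.int_eq_one_iff _ |>.2 h, mul_one]
    rw [h3, h2]
    refine (padicNorm.sub).trans (max_le (norm_int_le _) ?_)
    refine padicNorm.sum_le' (fun i hi => ?_) zero_le_one
    rw [padicNorm.mul]
    exact mul_le_one₀ (ih i (Finset.mem_range.1 hi)) (padicNorm.nonneg _) (norm_int_le _)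

end Pool.Agent.H80.HF

end
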