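import Pool.Agent.H71.TFC.M08
import Pool.Agent.H71.TFC.M12
import Pool.Agent.H71.TFC.M13
import Pool.Agent.H71.TFC.M14

/-! The parts of this file: H80.HF.Loc, H80.HF.B2, H85.FD2.Fins, H89.FrobD.Dens, H10.FG.Dir, H85.FD2.Fr, H89.AB.Frob, H89.FrobD.Part, H29.FE.Lift, H29.FE.Few, H29.FE.Gen, H89.FrobD.Rel, H85.FD2.Blk, H80.HF.B1, H55.AB.RelPlace, H55.AB.RelFin, H31.AB.AdmR, H31.AB.PartsR, H55.AB.RelAll, H89.FE.Field. -/

section

/-!
# HF Loc: local expansion at a prime `q`

PROOF of `loc_bound`. `c = Int.bmod t q`. `(t + y)^i = ∑_k choose i k c^(i-k) (t - c + y)^k`: `ent L (t,j) = ∑_u S(r,u) X(u, ·)`,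
`U` = (class `ZMod q` or `Fin q`) × `Bool` × `Fin (3L)`, `S((t,j), (C, b, k)) = SS q (t,j) b k` if `t` is in the class `C`,
else `0`; `X((C, true, k), inl i) = choose i k c_C^(i-k)`, `X((C, true, k), inr i) = 0`,
`X((C, false, k), inr i) = -choose i k c_C^(i-k)`, `0` on `inl`. Apply `det_ultra`: `f` injective gives the
hypothesis on `k`; the determinant is zero unless exactly `3L` rows have type `true` (rows of type `true` are supported on the
`3L` columns `inl`, the others on the `3L` columns `inr`: if there are more than `3L` rows of type `true` they are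
linearly dependent, same for `false`). If some `S r (f r) = 0` the product is `0 ≤ B`.
The bounds of `SS`: `t - c` is a multiple of `q`; `coeff j ((y+u)^k) = choose k j u^(k-j)`.
-/

set_option autoImplicit false

namespace Pool.Agent.H80.HF

open Finset

/-- If more than `#T` rows of a square matrix are supported on the column set `T`, the
determinant vanishes. -/
theorem det_eq_zero_of_support' {R : Type} [CommRing R] {ι : Type} [Fintype ι] [DecidableEq ι]
    (M : Matrix ι ι R) (S T : Finset ι)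
    (h : ∀ r ∈ S, ∀ c, c ∉ T → M r c = 0) (hc : T.card < S.card) : M.det = 0 := by
  classical
  rw [Matrix.det_apply']
  refine Finset.sum_eq_zero fun σ _ => ?_
  have h1 : ∃ r ∈ S, σ.symm r ∉ T := by
    by_contra hcon
    push Not at hcon
    have h2 : S.map σ.symm.toEmbedding ⊆ T := by
      intro x hx
      rw [mem_map] at hx
      obtain ⟨r, hr, rfl⟩ := hx
      exact hcon r hr
    have h3 := card_le_card h2
    rw [card_map] at h3
    omega
  obtain ⟨r, hr, hrT⟩ := h1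
  have : ∏ i, M (σ i) i = 0 := by
    refine Finset.prod_eq_zero (mem_univ (σ.symm r)) ?_
    rw [Equiv.apply_symm_apply]
    exact h r hr _ hrT
  rw [this, mul_zero]

theorem lin_zero : lin 0 = PowerSeries.X := by
  unfold lin
  rw [map_zero, add_zero]

theorem coeff_lin_pow (u : ℚ) (k j : ℕ) :
    PowerSeries.coeff j (lin u ^ k) = (k.choose j : ℚ) * u ^ (k - j) := by
  have h1 : lin u ^ k =
      (((Polynomial.X + Polynomial.C u) ^ k : Polynomial ℚ) : PowerSeries ℚ) := by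
    unfold lin
    rw [Polynomial.coe_pow, Polynomial.coe_add, Polynomial.coe_X, Polynomial.coe_C]
  rw [h1, Polynomial.coeff_coe, Polynomial.coeff_X_add_C_pow]
  ring

theorem lin_pow_expand (t : ℤ) (c : ℤ) (i n : ℕ) (hi : i < n) :
    lin (t : ℚ) ^ i = ∑ k ∈ range n,
      PowerSeries.C ((i.choose k : ℚ) * (c : ℚ) ^ (i - k)) * lin ((t - c : ℤ) : ℚ) ^ k := by
  have h1 : lin (t : ℚ) = lin ((t - c : ℤ) : ℚ) + PowerSeries.C (c : ℚ) := by
    unfold lin
    rw [add_assoc, ← map_add]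
    push_cast
    congr 2
    ring
  rw [h1, add_pow]
  have h2 : range (i + 1) ⊆ range n := range_subset_range.2 hi
  rw [← Finset.sum_subset h2]
  · refine Finset.sum_congr rfl fun k _ => ?_
    rw [map_mul, map_pow, map_natCast]
    ring
  · intro k _ hk
    have hk' : i < k := by
      rw [mem_range] at hk
      omega
    rw [Nat.choose_eq_zero_of_lt hk']
    simp

/-- the balanced residue of a class -/
def cres (q : ℕ) (C : ZMod q) : ℤ := Int.bmod (C.val : ℤ) q

theorem cres_intCast (q : ℕ) [NeZero q] (t : ℤ) : cres q (t : ZMod q) = Int.bmod t q := by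
  unfold cres
  rw [ZMod.val_intCast, Int.emod_bmod]

theorem loc_bound (q : ℕ) [Fact q.Prime] (L : ℕ) (hL : 1 ≤ L) (ρ : Col L → ℤ × Fin 3) (B : ℚ) (hB : 0 ≤ B)
    (h : ∀ (b : Col L → Bool) (k : Col L → ℕ), (univ.filter (fun c => b c = true)).card = 3 * L →
      (∀ c c', c ≠ c' → (ρ c).1 % q = (ρ c').1 % q → b c = b c' → k c ≠ k c') →
      (∀ c, SS q (ρ c) (b c) (k c) ≠ 0) →
      ∏ c, padicNorm q (SS q (ρ c) (b c) (k c)) ≤ B) :
    padicNorm q (DD L ρ) ≤ B := by
  classical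
  have _hL := hL
  have : NeZero q := ⟨(Fact.out : q.Prime).ne_zero⟩
  set S : Col L → (ZMod q × Bool × Fin (3 * L)) → ℚ := fun r u =>
    if ((ρ r).1 : ZMod q) = u.1 then SS q (ρ r) u.2.1 (u.2.2 : ℕ) else 0 with hS
  set X : (ZMod q × Bool × Fin (3 * L)) → Col L → ℤ := fun u c =>
    match u.2.1, c with
    | true, Sum.inl i => ((i : ℕ).choose (u.2.2 : ℕ) : ℤ) * cres q u.1 ^ ((i : ℕ) - (u.2.2 : ℕ))
    | true, Sum.inr _ => 0
    | false, Sum.inl _ => 0
    | false, Sum.inr i =>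
      -(((i : ℕ).choose (u.2.2 : ℕ) : ℤ) * cres q u.1 ^ ((i : ℕ) - (u.2.2 : ℕ))) with hX
  have hD : DD L ρ = Matrix.det (Matrix.of fun r c => ∑ u, S r u * (X u c : ℚ)) := by
    unfold DD
    congr 1
    ext r c
    rw [Matrix.of_apply, Matrix.of_apply]
    rw [Fintype.sum_prod_type, Finset.sum_eq_single ((ρ r).1 : ZMod q)]
    · rw [Fintype.sum_prod_type, Fintype.sum_bool]
      cases c with
      | inl i =>
        simp only [hS, hX, if_true, Int.cast_zero, mul_zero, Finset.sum_const_zero, add_zero]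
        rw [ent, lin_pow_expand (ρ r).1 (Int.bmod (ρ r).1 q) (i : ℕ) (3 * L) i.2, map_sum,
          Finset.sum_range]
        refine Finset.sum_congr rfl fun k _ => ?_
        rw [PowerSeries.coeff_C_mul, cres_intCast, SS]
        push_cast
        ring
      | inr i =>
        simp only [hS, hX, if_true, Int.cast_zero, mul_zero, Finset.sum_const_zero, zero_add]
        rw [ent, lin_pow_expand (ρ r).1 (Int.bmod (ρ r).1 q) (i : ℕ) (3 * L) i.2, Finset.mul_sum,
          map_sum, Finset.sum_range, ← Finset.sum_neg_distrib]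
        refine Finset.sum_congr rfl fun k _ => ?_
        rw [mul_left_comm, PowerSeries.coeff_C_mul, cres_intCast, SS]
        push_cast
        ring
    · intro C _ hC
      refine Finset.sum_eq_zero fun u _ => ?_
      simp [hS, Ne.symm hC]
    · intro h
      exact absurd (mem_univ _) h
  rw [hD]
  refine det_ultra q S X B hB fun f hf hdet => ?_
  by_cases h0 : ∃ r, S r (f r) = 0
  · obtain ⟨r, hr⟩ := h0
    rw [Finset.prod_eq_zero (mem_univ r) (by rw [hr]; simp)]
    exact hB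
  push Not at h0
  have hcls : ∀ r, ((ρ r).1 : ZMod q) = (f r).1 := by
    intro r
    by_contra hne
    apply h0 r
    simp [hS, hne]
  have hval : ∀ r, S r (f r) = SS q (ρ r) (f r).2.1 ((f r).2.2 : ℕ) := by
    intro r
    simp [hS, hcls r]
  have hmain := h (fun r => (f r).2.1) (fun r => ((f r).2.2 : ℕ)) ?_ ?_ ?_
  · refine le_trans (le_of_eq ?_) hmain
    exact Finset.prod_congr rfl fun r _ => by rw [hval]
  · -- exactly `3L` rows of type `true`
    have hcl : (univ.filter fun c : Col L => c.isLeft = true).card = 3 * L := by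
      have : (univ.filter fun c : Col L => c.isLeft = true) =
          (univ : Finset (Fin (3 * L))).map Function.Embedding.inl := by
        ext c
        cases c <;> simp
      rw [this, card_map, card_univ, Fintype.card_fin]
    have hcr : (univ.filter fun c : Col L => c.isRight = true).card = 3 * L := by
      have : (univ.filter fun c : Col L => c.isRight = true) =
          (univ : Finset (Fin (3 * L))).map Function.Embedding.inr := by
        ext c
        cases c <;> simp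
      rw [this, card_map, card_univ, Fintype.card_fin]
    have h1 : (univ.filter fun r => (f r).2.1 = true).card ≤ 3 * L := by
      by_contra hcon
      push Not at hcon
      apply hdet
      refine det_eq_zero_of_support' _ (univ.filter fun r => (f r).2.1 = true)
        (univ.filter fun c : Col L => c.isLeft = true) ?_ (by rw [hcl]; exact hcon)
      intro r hr c hc
      rw [mem_filter] at hr hc
      rw [Matrix.of_apply]
      cases c with
      | inl i => exact absurd ⟨mem_univ _, rfl⟩ hc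
      | inr i => simp [hX, hr.2]
    have h2 : (univ.filter fun r => (f r).2.1 = false).card ≤ 3 * L := by
      by_contra hcon
      push Not at hcon
      apply hdet
      refine det_eq_zero_of_support' _ (univ.filter fun r => (f r).2.1 = false)
        (univ.filter fun c : Col L => c.isRight = true) ?_ (by rw [hcr]; exact hcon)
      intro r hr c hc
      rw [mem_filter] at hr hc
      rw [Matrix.of_apply]
      cases c with
      | inr i => exact absurd ⟨mem_univ _, rfl⟩ hc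
      | inl i => simp [hX, hr.2]
    have h3 : (univ.filter fun r => (f r).2.1 = true).card +
        (univ.filter fun r => (f r).2.1 = false).card = 3 * L + 3 * L := by
      have h4 := Finset.card_filter_add_card_filter_not (s := (univ : Finset (Col L)))
        (fun r => (f r).2.1 = true)
      have h5 : (univ.filter fun r => ¬ (f r).2.1 = true) =
          univ.filter fun r => (f r).2.1 = false := by
        ext r
        simp
      rw [h5] at h4
      rw [h4, card_univ, Fintype.card_sum, Fintype.card_fin]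
    omega
  · intro c c' hne hmod hb hk
    apply hne
    apply hf
    have h1 : (f c).1 = (f c').1 := by
      rw [← hcls c, ← hcls c']
      rw [ZMod.intCast_eq_intCast_iff]
      exact hmod
    exact Prod.ext h1 (Prod.ext hb (Fin.ext hk))
  · intro r
    rw [← hval]
    exact h0 r

theorem padicNorm_pow_le (q : ℕ) [Fact q.Prime] (u : ℤ) (hu : (q : ℤ) ∣ u) (m : ℕ) :
    padicNorm q ((u : ℚ) ^ m) ≤ (q : ℚ) ^ (-(m : ℤ)) := by
  have hq : (q : ℚ) ≠ 0 := by exact_mod_cast (Fact.out : q.Prime).ne_zero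
  have h1 : padicNorm q (u : ℚ) ≤ (q : ℚ) ^ (-(1 : ℤ)) := by
    have := (padicNorm.dvd_iff_norm_le (p := q) (n := 1) (z := u)).1 (by simpa using hu)
    simpa using this
  induction m with
  | zero => simp
  | succ m ih =>
    rw [pow_succ, padicNorm.mul]
    have h2 : (q : ℚ) ^ (-((m + 1 : ℕ) : ℤ)) = (q : ℚ) ^ (-(m : ℤ)) * (q : ℚ) ^ (-(1 : ℤ)) := by
      rw [← zpow_add₀ hq]
      congr 1
      push_cast
      ring
    rw [h2]
    exact mul_le_mul ih h1 (padicNorm.nonneg _) (zpow_nonneg (Nat.cast_nonneg _) _)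

theorem dvd_sub_bmod (q : ℕ) (t : ℤ) : (q : ℤ) ∣ t - Int.bmod t q :=
  (show Int.bmod t q ≡ t [ZMOD q] from Int.bmod_emod).dvd

theorem padicNorm_coeff_lin_pow (q : ℕ) [Fact q.Prime] (u : ℤ) (hu : (q : ℤ) ∣ u) (k j : ℕ) :
    padicNorm q (PowerSeries.coeff j (lin (u : ℚ) ^ k)) ≤ (q : ℚ) ^ ((j : ℤ) - k) := by
  rw [coeff_lin_pow, padicNorm.mul]
  rcases Nat.lt_or_ge k j with h | h
  · rw [Nat.choose_eq_zero_of_lt h]
    simp only [Nat.cast_zero, padicNorm.zero, zero_mul]
    exact zpow_nonneg (Nat.cast_nonneg _) _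
  · have h1 : padicNorm q ((k.choose j : ℚ)) ≤ 1 := by
      have := padicNorm.of_nat (p := q) (k.choose j)
      simpa using this
    have h2 := padicNorm_pow_le q u hu (k - j)
    have h3 : -((k - j : ℕ) : ℤ) = (j : ℤ) - k := by
      rw [Nat.cast_sub h]
      ring
    rw [h3] at h2
    calc padicNorm q ((k.choose j : ℚ)) * padicNorm q ((u : ℚ) ^ (k - j))
        ≤ 1 * (q : ℚ) ^ ((j : ℤ) - k) :=
          mul_le_mul h1 h2 (padicNorm.nonneg _) zero_le_one
      _ = (q : ℚ) ^ ((j : ℤ) - k) := one_mul _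

theorem SS_true (q : ℕ) [Fact q.Prime] (r : ℤ × Fin 3) (k : ℕ) :
    padicNorm q (SS q r true k) ≤ (q : ℚ) ^ (((r.2 : ℕ) : ℤ) - k) := by
  rw [SS]
  exact padicNorm_coeff_lin_pow q _ (dvd_sub_bmod q r.1) k _

theorem SS_false (q : ℕ) [Fact q.Prime] (h5 : 5 ≤ q) (L : ℕ) (hL : 3 * L < q ^ 2) (r : ℤ × Fin 3)
    (hr : |r.1| ≤ (L : ℤ)) (k : ℕ) :
    padicNorm q (SS q r false k) ≤ (q : ℚ) ^ (((r.2 : ℕ) : ℤ) - k - Ee q r.1) := by
  have hq : (q : ℚ) ≠ 0 := by exact_mod_cast (Fact.out : q.Prime).ne_zero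
  rw [SS, PowerSeries.coeff_mul]
  refine padicNorm_sum_le' q _ _ _ (zpow_nonneg (Nat.cast_nonneg _) _) fun p hp => ?_
  rw [Finset.HasAntidiagonal.mem_antidiagonal] at hp
  have h1 := F_bound q h5 L hL r.1 hr p.1
  have h2 := padicNorm_coeff_lin_pow q _ (dvd_sub_bmod q r.1) k p.2
  rw [padicNorm.mul]
  have h3 : (q : ℚ) ^ (((r.2 : ℕ) : ℤ) - k - Ee q r.1) =
      (q : ℚ) ^ ((p.1 : ℤ) - Ee q r.1) * (q : ℚ) ^ ((p.2 : ℤ) - k) := by
    rw [← zpow_add₀ hq]
    congr 1
    rw [← hp]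
    push_cast
    ring
  rw [h3]
  exact mul_le_mul h1 h2 (padicNorm.nonneg _) (zpow_nonneg (Nat.cast_nonneg _) _)

/-- a node which is its own balanced residue -/
theorem SS_single_true (q : ℕ) (r : ℤ × Fin 3) (hr : Int.bmod r.1 q = r.1) (k : ℕ)
    (h : SS q r true k ≠ 0) : k = (r.2 : ℕ) ∧ SS q r true k = 1 := by
  rw [SS, hr, sub_self, Int.cast_zero, lin_zero, PowerSeries.coeff_X_pow] at h ⊢
  by_cases hk : (r.2 : ℕ) = k
  · rw [if_pos hk]
    exact ⟨hk.symm, rfl⟩
  · rw [if_neg hk] at h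
    exact absurd rfl h

theorem SS_single_false (q : ℕ) (r : ℤ × Fin 3) (hr : Int.bmod r.1 q = r.1) (k : ℕ)
    (h : SS q r false k ≠ 0) :
    k ≤ (r.2 : ℕ) ∧ SS q r false k = PowerSeries.coeff ((r.2 : ℕ) - k) (FF r.1) := by
  rw [SS, hr, sub_self, Int.cast_zero, lin_zero, PowerSeries.coeff_mul_X_pow'] at h ⊢
  by_cases hk : k ≤ (r.2 : ℕ)
  · rw [if_pos hk]
    exact ⟨hk, rfl⟩
  · rw [if_neg hk] at h
    exact absurd rfl h

end Pool.Agent.H80.HF

end

section

/-!
# HF B2: the minors at the primes `L < q ≤ 2L`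

PROOF. `loc_bound`. Every class modulo `q` has at most two nodes in `[-L,L]` (`3q > 2L+1`, and `t - q, t, t + q` do not fit as
`q > L`). Let `x_c` be the exponent of the bound of `padicNorm (SS ..)`. Sum over the classes.
(d) class with two nodes `t, t-q` (`q-L ≤ t ≤ L`), `T ≤ 6` rows present: `x_c = j - k` (true), `j - k - E` (false),
`E = Ee q t`. If `T = 6`: `∑ j = 6`, `∑ k ≥ s(s-1)/2 + s'(s'-1)/2`, `s + s' = 6`, so the sum is `≤ 6 - (..) - E s' ≤ -3E`
(seven cases). If `T < 6`: `≤ 11 ≤ -3E + 15 (6-T)`. The number of missing rows is `(6L+3) - 6L = 3` in total. The residues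
`t` with `q - L ≤ t ≤ L` are symmetric under `t → q - t`: `∑ -3E = 0` by `Ee_neg`, `Ee_mod`.
(s) class with one node `t`, then `|t| ≤ S := q-L-1`, `2|t| < q`, `3|t| < 2q`, `Int.bmod t q = t`: by `SS_single_true`,
`SS_single_false` the factor is `1` for type true (`k = j`), and the norm of `coeff (j-k) F_t`, `k ≤ j`, for type false.
If `Ee q t ≠ -1`: `Ee_pole`, `F_int`: `≤ 1`. If `Ee q t = -1`: `x = j - k + 1` by `F_bound`, at most three rows with distinct
`j ∈ {0,1,2}`, distinct `k`: `s' = 1`: 3, `s' = 2`: 4, `s' = 3`: 3: sum `≤ 4`. Number of these nodes: `Ee_count`.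
Total `≤ 45 + 4 (S - q/3)`.
-/

set_option autoImplicit false

namespace Pool.Agent.H80.HF

open Finset

/-- the sum of distinct natural numbers -/
lemma two_sum_ge (s : Finset ℕ) : (s.card : ℤ) * (s.card - 1) ≤ 2 * ∑ x ∈ s, (x : ℤ) := by
  induction s using Finset.induction_on_max with
  | empty => simp
  | insert a s hs ih =>
    have ha : a ∉ s := fun h => lt_irrefl a (hs a h)
    have hc : s.card ≤ a := by
      have : s ⊆ range a := fun x hx => mem_range.2 (hs x hx)
      simpa using card_le_card this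
    rw [card_insert_of_notMem ha, sum_insert ha]
    have hc' : (s.card : ℤ) ≤ a := by exact_mod_cast hc
    push_cast
    nlinarith

lemma two_sum_k {ι : Type} [DecidableEq ι] (A : Finset ι) (k : ι → ℕ)
    (hk : ∀ c ∈ A, ∀ c' ∈ A, c ≠ c' → k c ≠ k c') :
    (A.card : ℤ) * (A.card - 1) ≤ 2 * ∑ c ∈ A, (k c : ℤ) := by
  have hinj : Set.InjOn k A := by
    intro c hc c' hc' h
    by_contra hne
    exact hk c hc c' hc' hne h
  have h1 := two_sum_ge (A.image k)
  rw [card_image_of_injOn hinj, sum_image hinj] at h1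
  exact h1

lemma sum_split {ι : Type} [DecidableEq ι] (F : Finset ι) (b : ι → Bool) (f : ι → ℤ) :
    ∑ c ∈ F, f c = ∑ c ∈ F.filter (fun c => b c = true), f c +
      ∑ c ∈ F.filter (fun c => b c = false), f c := by
  rw [← sum_filter_add_sum_filter_not F (fun c => b c = true)]
  congr 2
  ext c
  simp

lemma card_split {ι : Type} [DecidableEq ι] (F : Finset ι) (b : ι → Bool) :
    F.card = (F.filter (fun c => b c = true)).card + (F.filter (fun c => b c = false)).card := by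
  rw [← card_filter_add_card_filter_not (s := F) (fun c => b c = true)]
  congr 2
  ext c
  simp

/-- the rows of a class with two nodes -/
lemma dbl {ι : Type} [DecidableEq ι] (F : Finset ι) (b : ι → Bool) (k : ι → ℕ) (j : ι → Fin 3)
    (w : ι → Bool) (hinj : ∀ c ∈ F, ∀ c' ∈ F, w c = w c' → j c = j c' → c = c')
    (hk : ∀ c ∈ F, ∀ c' ∈ F, c ≠ c' → b c = b c' → k c ≠ k c') (E : ℤ)
    (hE : E = -1 ∨ E = 0 ∨ E = 1) :
    ∑ c ∈ F, (((j c : ℕ) : ℤ) - k c - (if b c = true then 0 else E)) ≤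
      -3 * E + 15 * (6 - (F.card : ℤ)) := by
  have hi : Set.InjOn (fun c => (w c, j c)) F := by
    intro c hc c' hc' h
    simp only [Prod.mk.injEq] at h
    exact hinj c hc c' hc' h.1 h.2
  have hcard : F.card ≤ 6 := by
    have h1 := card_le_card (subset_univ (F.image fun c => (w c, j c)))
    rw [card_image_of_injOn hi] at h1
    simpa using h1
  have hj : ∑ c ∈ F, ((j c : ℕ) : ℤ) ≤ 6 := by
    have h1 : ∑ c ∈ F, ((j c : ℕ) : ℤ) =
        ∑ x ∈ F.image (fun c => (w c, j c)), ((x.2 : ℕ) : ℤ) := by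
      rw [sum_image hi]
    have h2 : ∑ x ∈ F.image (fun c => (w c, j c)), ((x.2 : ℕ) : ℤ) ≤
        ∑ x : Bool × Fin 3, ((x.2 : ℕ) : ℤ) :=
      sum_le_sum_of_subset_of_nonneg (subset_univ _) fun _ _ _ => by positivity
    have h3 : ∑ x : Bool × Fin 3, ((x.2 : ℕ) : ℤ) = 6 := by decide
    linarith
  set A := F.filter (fun c => b c = true) with hA
  set D := F.filter (fun c => b c = false) with hD
  have hKA := two_sum_k A k (by
    intro c hc c' hc' hne
    rw [hA, mem_filter] at hc hc'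
    exact hk c hc.1 c' hc'.1 hne (by rw [hc.2, hc'.2]))
  have hKD := two_sum_k D k (by
    intro c hc c' hc' hne
    rw [hD, mem_filter] at hc hc'
    exact hk c hc.1 c' hc'.1 hne (by rw [hc.2, hc'.2]))
  have hsum : ∑ c ∈ F, (((j c : ℕ) : ℤ) - k c - (if b c = true then 0 else E)) =
      ∑ c ∈ F, ((j c : ℕ) : ℤ) - ∑ c ∈ A, (k c : ℤ) - ∑ c ∈ D, (k c : ℤ) - D.card * E := by
    rw [sum_sub_distrib, sum_sub_distrib, sum_split F b (fun c => (k c : ℤ)),
      sum_split F b (fun c => if b c = true then 0 else E)]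
    have e1 : ∑ c ∈ A, (if b c = true then (0 : ℤ) else E) = 0 :=
      sum_eq_zero fun c hc => if_pos (mem_filter.1 hc).2
    have e2 : ∑ c ∈ D, (if b c = true then (0 : ℤ) else E) = D.card * E := by
      rw [sum_congr rfl (fun c hc => if_neg (by rw [(mem_filter.1 hc).2]; simp)),
        sum_const, nsmul_eq_mul]
    rw [← hA, ← hD, e1, e2]
    ring
  have hc2 : F.card = A.card + D.card := card_split F b
  rw [hsum]
  have hKA0 : 0 ≤ ∑ c ∈ A, (k c : ℤ) := sum_nonneg fun _ _ => by positivity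
  have hKD0 : 0 ≤ ∑ c ∈ D, (k c : ℤ) := sum_nonneg fun _ _ => by positivity
  generalize ∑ c ∈ A, (k c : ℤ) = KA at *
  generalize ∑ c ∈ D, (k c : ℤ) = KD at *
  generalize ∑ c ∈ F, ((j c : ℕ) : ℤ) = J at *
  generalize A.card = a at *
  generalize D.card = s at *
  generalize F.card = n at *
  subst hc2
  have ha : a ≤ 6 := by omega
  have hs : s ≤ 6 := by omega
  interval_cases a <;> interval_cases s <;> rcases hE with rfl | rfl | rfl <;>
    push_cast at hKA hKD hcard ⊢ <;> omega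

/-- the rows of a class with one node -/
lemma sgl {ι : Type} [DecidableEq ι] (F : Finset ι) (b : ι → Bool) (k : ι → ℕ) (j : ι → Fin 3)
    (hinj : ∀ c ∈ F, ∀ c' ∈ F, j c = j c' → c = c')
    (hk : ∀ c ∈ F, ∀ c' ∈ F, c ≠ c' → b c = b c' → k c ≠ k c') :
    ∑ c ∈ F, (if b c = true then (0 : ℤ) else ((j c : ℕ) : ℤ) - k c + 1) ≤ 4 := by
  set D := F.filter (fun c => b c = false) with hD
  have hKD := two_sum_k D k (by
    intro c hc c' hc' hne
    rw [hD, mem_filter] at hc hc'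
    exact hk c hc.1 c' hc'.1 hne (by rw [hc.2, hc'.2]))
  have hi : Set.InjOn j D := by
    intro c hc c' hc' h
    rw [mem_coe, hD, mem_filter] at hc hc'
    exact hinj c hc.1 c' hc'.1 h
  have hcard : D.card ≤ 3 := by
    have h1 := card_le_card (subset_univ (D.image j))
    rw [card_image_of_injOn hi] at h1
    simpa using h1
  have hj : ∑ c ∈ D, ((j c : ℕ) : ℤ) ≤ 3 := by
    have h1 : ∑ c ∈ D, ((j c : ℕ) : ℤ) = ∑ x ∈ D.image j, ((x : ℕ) : ℤ) := by
      rw [sum_image hi]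
    have h2 : ∑ x ∈ D.image j, ((x : ℕ) : ℤ) ≤ ∑ x : Fin 3, ((x : ℕ) : ℤ) :=
      sum_le_sum_of_subset_of_nonneg (subset_univ _) fun _ _ _ => by positivity
    have h3 : ∑ x : Fin 3, ((x : ℕ) : ℤ) = 3 := by decide
    linarith
  have hj2 : ∑ c ∈ D, ((j c : ℕ) : ℤ) ≤ 2 * D.card := by
    rw [mul_comm, ← nsmul_eq_mul]
    refine sum_le_card_nsmul _ _ _ fun c _ => ?_
    have := (j c).isLt
    omega
  have hsum : ∑ c ∈ F, (if b c = true then (0 : ℤ) else ((j c : ℕ) : ℤ) - k c + 1) =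
      ∑ c ∈ D, ((j c : ℕ) : ℤ) - ∑ c ∈ D, (k c : ℤ) + D.card := by
    rw [sum_split F b]
    have e1 : ∑ c ∈ F.filter (fun c => b c = true),
        (if b c = true then (0 : ℤ) else ((j c : ℕ) : ℤ) - k c + 1) = 0 :=
      sum_eq_zero fun c hc => if_pos (mem_filter.1 hc).2
    have e2 : ∑ c ∈ D, (if b c = true then (0 : ℤ) else ((j c : ℕ) : ℤ) - k c + 1) =
        ∑ c ∈ D, (((j c : ℕ) : ℤ) - k c + 1) :=
      sum_congr rfl (fun c hc => if_neg (by rw [(mem_filter.1 hc).2]; simp))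
    rw [← hD, e1, e2, sum_add_distrib, sum_sub_distrib, sum_const, nsmul_eq_mul]
    ring
  rw [hsum]
  have hKD0 : 0 ≤ ∑ c ∈ D, (k c : ℤ) := sum_nonneg fun _ _ => by positivity
  generalize ∑ c ∈ D, (k c : ℤ) = KD at *
  generalize ∑ c ∈ D, ((j c : ℕ) : ℤ) = J at *
  generalize D.card = s at *
  interval_cases s <;> norm_num at hKD hj2 ⊢ <;> omega

lemma prod_zpow_sum {ι : Type} (s : Finset ι) (a : ℚ) (ha : a ≠ 0) (x : ι → ℤ) :
    ∏ c ∈ s, a ^ x c = a ^ ∑ c ∈ s, x c := by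
  classical
  induction s using Finset.induction_on with
  | empty => simp
  | insert c s hc ih => rw [prod_insert hc, sum_insert hc, ih, zpow_add₀ ha]

/-- `∑ Ee` over the double classes -/
lemma Ee_dbl (q : ℕ) (hq : q.Prime) (h5 : 5 ≤ q) (L : ℕ) :
    ∑ u ∈ Icc ((q : ℤ) - L) L, Ee q u = 0 := by
  have h : ∑ u ∈ Icc ((q : ℤ) - L) L, Ee q u = ∑ u ∈ Icc ((q : ℤ) - L) L, -Ee q u := by
    refine sum_nbij' (fun u => (q : ℤ) - u) (fun u => (q : ℤ) - u) ?_ ?_ ?_ ?_ ?_
    · intro u hu; rw [mem_Icc] at hu ⊢; omega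
    · intro u hu; rw [mem_Icc] at hu ⊢; omega
    · intro u _; ring
    · intro u _; ring
    · intro u _
      have h1 : Ee q ((q : ℤ) - u) = Ee q (-u) := by
        refine Ee_mod q _ _ ?_
        have : (q : ℤ) - u = -u + q * 1 := by ring
        rw [this, Int.add_mul_emod_self_left]
      rw [h1, Ee_neg q hq h5, neg_neg]
  rw [sum_neg_distrib] at h
  omega

/-- the representative of the class of a node -/
def cl (q L : ℕ) (t : ℤ) : ℤ :=
  if |t| ≤ (q : ℤ) - L - 1 then t else if 0 < t then t else t + q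

/-- the exponent of a factor -/
def xx (q L : ℕ) (t : ℤ) (b : Bool) (j k : ℤ) : ℤ :=
  if |t| ≤ (q : ℤ) - L - 1 then (if b = true then 0 else if Ee q t = -1 then j - k + 1 else 0)
  else j - k - (if b = true then 0 else Ee q t)

lemma SS_xx (q : ℕ) [Fact q.Prime] (h5 : 5 ≤ q) (L : ℕ) (hq : 3 * L < q ^ 2)
    (hLq : L < q) (hq2 : q ≤ 2 * L) (r : ℤ × Fin 3) (hr : |r.1| ≤ (L : ℤ)) (b : Bool) (k : ℕ)
    (hne : SS q r b k ≠ 0) :
    padicNorm q (SS q r b k) ≤ (q : ℚ) ^ xx q L r.1 b ((r.2 : ℕ) : ℤ) k := by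
  have hp : q.Prime := Fact.out
  unfold xx
  by_cases ht : |r.1| ≤ (q : ℤ) - L - 1
  · rw [if_pos ht]
    have hbm : Int.bmod r.1 q = r.1 := by
      rw [abs_le] at ht
      exact Int.bmod_eq_of_le_mul_two (by omega) (by omega)
    cases b with
    | true =>
      rw [if_pos rfl, (SS_single_true q r hbm k hne).2]
      simp
    | false =>
      rw [if_neg (by simp)]
      obtain ⟨hkj, hSS⟩ := SS_single_false q r hbm k hne
      rw [hSS]
      by_cases hE : Ee q r.1 = -1
      · rw [if_pos hE]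
        have h1 := F_bound q h5 L hq r.1 hr ((r.2 : ℕ) - k)
        rw [hE, Nat.cast_sub hkj] at h1
        have e : ((r.2 : ℕ) : ℤ) - (k : ℤ) - -1 = ((r.2 : ℕ) : ℤ) - k + 1 := by ring
        rwa [e] at h1
      · rw [if_neg hE, zpow_zero]
        refine F_int q r.1 (Ee_pole q hp h5 r.1 ?_ hE) _
        have := ht
        omega
  · rw [if_neg ht]
    cases b with
    | true =>
      rw [if_pos rfl, sub_zero]
      exact SS_true q r k
    | false =>
      rw [if_neg (by simp)]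
      exact SS_false q h5 L hq r hr k

theorem b2 (q : ℕ) [Fact q.Prime] (h5 : 5 ≤ q) (L : ℕ) (hL : 1 ≤ L) (hq : 3 * L < q ^ 2)
    (hLq : L < q) (hq2 : q ≤ 2 * L) (ρ : Col L → ℤ × Fin 3) (hρ : Rows L ρ) :
    padicNorm q (DD L ρ) ≤ (q : ℚ) ^ ((4 * (q - L - 1 - q / 3) + 100 : ℕ) : ℤ) := by
  have hp : q.Prime := Fact.out
  have hq0 : (0 : ℚ) < q := by exact_mod_cast hp.pos
  have hq1 : (1 : ℚ) ≤ q := by exact_mod_cast hp.one_lt.le
  refine loc_bound q L hL ρ _ (by positivity) ?_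
  intro b k _ hk hne
  set x : Col L → ℤ := fun c => xx q L (ρ c).1 (b c) (((ρ c).2 : ℕ) : ℤ) (k c) with hx
  have h1 : ∏ c, padicNorm q (SS q (ρ c) (b c) (k c)) ≤ ∏ c, (q : ℚ) ^ x c :=
    prod_le_prod (fun c _ => padicNorm.nonneg _) fun c _ =>
      SS_xx q h5 L hq hLq hq2 (ρ c) (hρ.le c) (b c) (k c) (hne c)
  refine h1.trans ?_
  rw [prod_zpow_sum _ _ hq0.ne']
  refine zpow_le_zpow_right₀ hq1 ?_
  -- the sum of the exponents
  set S : ℤ := (q : ℤ) - L - 1 with hS
  have hS0 : 0 ≤ S := by omega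
  set I1 : Finset ℤ := Icc (-S) S with hI1
  set I2 : Finset ℤ := Icc ((q : ℤ) - L) L with hI2
  have hdisj : Disjoint I1 I2 := by
    rw [disjoint_left]
    intro u h1 h2
    rw [hI1, mem_Icc] at h1
    rw [hI2, mem_Icc] at h2
    omega
  have hcl : ∀ c : Col L, cl q L (ρ c).1 ∈ I1 ∪ I2 := by
    intro c
    have hr := hρ.le c
    rw [abs_le] at hr
    unfold cl
    rw [mem_union, hI1, hI2]
    split_ifs with h h'
    · left; rw [abs_le] at h; rw [mem_Icc]; omega
    · right; rw [abs_le] at h; rw [mem_Icc]; omega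
    · right; rw [abs_le] at h; rw [mem_Icc]; omega
  set fb : ℤ → Finset (Col L) := fun u => univ.filter fun c => cl q L (ρ c).1 = u with hfb
  have hsumx : ∑ c, x c = ∑ u ∈ I1, ∑ c ∈ fb u, x c + ∑ u ∈ I2, ∑ c ∈ fb u, x c := by
    rw [← sum_union hdisj, sum_fiberwise_of_maps_to (fun c _ => hcl c)]
  have hcards : ((6 * L : ℕ) : ℤ) = ∑ u ∈ I1, ((fb u).card : ℤ) + ∑ u ∈ I2, ((fb u).card : ℤ) := by
    rw [← sum_union hdisj]
    have h2 := card_eq_sum_card_fiberwise (s := (univ : Finset (Col L))) (t := I1 ∪ I2)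
      (f := fun c => cl q L (ρ c).1) (fun c _ => by simpa using hcl c)
    have h3 : (univ : Finset (Col L)).card = 6 * L := by
      rw [card_univ, Fintype.card_sum, Fintype.card_fin]; ring
    rw [h3] at h2
    rw [h2]
    push_cast
    rfl
  -- single nodes
  have hf1 : ∀ u ∈ I1, ∀ c ∈ fb u, (ρ c).1 = u ∧ |(ρ c).1| ≤ S := by
    intro u hu c hc
    rw [hfb, mem_filter] at hc
    have hr := hρ.le c
    have hc2 := hc.2
    unfold cl at hc2
    rw [hI1, mem_Icc] at hu
    split_ifs at hc2 with h h'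
    · exact ⟨hc2, h⟩
    · exfalso; rw [abs_le] at h hr; omega
    · exfalso; rw [abs_le] at h hr; omega
  have hf2 : ∀ u ∈ I2, ∀ c ∈ fb u, ¬ |(ρ c).1| ≤ S ∧ ((ρ c).1 = u ∨ (ρ c).1 = u - q) := by
    intro u hu c hc
    rw [hfb, mem_filter] at hc
    have hr := hρ.le c
    have hc2 := hc.2
    unfold cl at hc2
    rw [hI2, mem_Icc] at hu
    split_ifs at hc2 with h h'
    · exfalso; rw [abs_le] at h; omega
    · exact ⟨h, Or.inl hc2⟩
    · exact ⟨h, Or.inr (by omega)⟩
  have hkk : ∀ c c', c ≠ c' → ((ρ c).1 - (ρ c').1) % q = 0 → b c = b c' → k c ≠ k c' := by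
    intro c c' hne' hmod hb
    exact hk c c' hne' (Int.emod_eq_emod_iff_emod_sub_eq_zero.2 hmod) hb
  have hs1 : ∀ u ∈ I1, ∑ c ∈ fb u, x c ≤ (if Ee q u = -1 then 4 else 0) := by
    intro u hu
    split_ifs with hE
    · have h3 : ∑ c ∈ fb u, x c = ∑ c ∈ fb u,
          (if b c = true then (0 : ℤ) else (((ρ c).2 : ℕ) : ℤ) - k c + 1) := by
        refine sum_congr rfl fun c hc => ?_
        obtain ⟨h4, h5'⟩ := hf1 u hu c hc
        simp only [hx]
        unfold xx
        rw [if_pos h5', h4, if_pos hE]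
      rw [h3]
      refine sgl (fb u) b k (fun c => (ρ c).2) ?_ ?_
      · intro c hc c' hc' hj
        refine hρ.inj (Prod.ext ?_ hj)
        rw [(hf1 u hu c hc).1, (hf1 u hu c' hc').1]
      · intro c hc c' hc' hne' hb
        refine hkk c c' hne' ?_ hb
        rw [(hf1 u hu c hc).1, (hf1 u hu c' hc').1]
        simp
    · refine (sum_eq_zero fun c hc => ?_).le
      obtain ⟨h4, h5'⟩ := hf1 u hu c hc
      simp only [hx]
      unfold xx
      rw [if_pos h5', h4, if_neg hE]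
      simp
  have hc1 : ∀ u ∈ I1, ((fb u).card : ℤ) ≤ 3 := by
    intro u hu
    have hi : Set.InjOn (fun c => (ρ c).2) (fb u) := by
      intro c hc c' hc' hj
      refine hρ.inj (Prod.ext ?_ hj)
      rw [(hf1 u hu c hc).1, (hf1 u hu c' hc').1]
    have h3 := card_le_card (subset_univ ((fb u).image fun c => (ρ c).2))
    rw [card_image_of_injOn hi] at h3
    have h4 : (fb u).card ≤ 3 := by simpa using h3
    exact_mod_cast h4
  have hs2 : ∀ u ∈ I2, ∑ c ∈ fb u, x c ≤ -3 * Ee q u + 15 * (6 - ((fb u).card : ℤ)) := by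
    intro u hu
    have hEe : ∀ c ∈ fb u, Ee q (ρ c).1 = Ee q u := by
      intro c hc
      rcases (hf2 u hu c hc).2 with h | h
      · rw [h]
      · rw [h]
        refine Ee_mod q _ _ ?_
        have : u - (q : ℤ) = u + q * (-1) := by ring
        rw [this, Int.add_mul_emod_self_left]
    have h3 : ∑ c ∈ fb u, x c = ∑ c ∈ fb u,
        ((((ρ c).2 : ℕ) : ℤ) - k c - (if b c = true then 0 else Ee q u)) := by
      refine sum_congr rfl fun c hc => ?_
      simp only [hx]
      unfold xx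
      rw [if_neg (hf2 u hu c hc).1, hEe c hc]
    rw [h3]
    refine dbl (fb u) b k (fun c => (ρ c).2) (fun c => decide ((ρ c).1 = u)) ?_ ?_ (Ee q u)
      (Ee_vals q u)
    · intro c hc c' hc' hw hj
      refine hρ.inj (Prod.ext ?_ hj)
      have h4 := (hf2 u hu c hc).2
      have h5' := (hf2 u hu c' hc').2
      simp only [decide_eq_decide] at hw
      by_cases hh : (ρ c).1 = u
      · rw [hh, hw.1 hh]
      · have hh' : ¬ (ρ c').1 = u := fun h => hh (hw.2 h)
        rw [h4.resolve_left hh, h5'.resolve_left hh']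
    · intro c hc c' hc' hne' hb
      refine hkk c c' hne' ?_ hb
      rcases (hf2 u hu c hc).2 with h4 | h4 <;> rcases (hf2 u hu c' hc').2 with h5' | h5' <;>
        rw [h4, h5'] <;> simp
  have hT1 : ∑ u ∈ I1, ∑ c ∈ fb u, x c ≤ 4 * ((q - L - 1 - q / 3 : ℕ) : ℤ) := by
    refine (sum_le_sum hs1).trans ?_
    have hSn : S = ((q - L - 1 : ℕ) : ℤ) := by omega
    rw [← sum_filter, sum_const, nsmul_eq_mul, hI1, hSn,
      Ee_count q hp h5 (q - L - 1) (by omega)]
    linarith
  have hT2 : ∑ u ∈ I2, ∑ c ∈ fb u, x c ≤ 45 := by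
    refine (sum_le_sum hs2).trans ?_
    rw [sum_add_distrib, ← mul_sum, ← mul_sum, hI2, Ee_dbl q hp h5 L, ← hI2, sum_sub_distrib,
      sum_const, nsmul_eq_mul]
    have hc2 : ((I2.card : ℕ) : ℤ) = 2 * L + 1 - q := by
      rw [hI2, Int.card_Icc]
      omega
    have hc3 : ((I1.card : ℕ) : ℤ) = 2 * S + 1 := by
      rw [hI1, Int.card_Icc]
      omega
    have hc4 : ∑ u ∈ I1, ((fb u).card : ℤ) ≤ 3 * (2 * S + 1) := by
      have := sum_le_card_nsmul I1 (fun u => ((fb u).card : ℤ)) 3 hc1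
      rw [nsmul_eq_mul, hc3] at this
      linarith
    rw [hc2]
    push_cast at hcards
    omega
  rw [hsumx]
  push_cast at hT1 ⊢
  omega

end Pool.Agent.H80.HF

end

section

/-!
# FD version 2: the partition criterion with finite sets
-/

namespace H85FD2

open Finset H85FD

/-- the groups of the partition as finite sets -/
theorem fins_of_split4 {α : Type*} {wt f : α → ℕ} {cub : α → Prop} {r : ℕ} {W : Prop}
    {S : Finset α} {E₀ A₀ B₀ C₀ : Multiset α} (h : Split4 wt f cub r W S.val E₀ A₀ B₀ C₀) :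
    ∃ E A B C : Finset α, (∀ v, v ∈ E ↔ v ∈ S ∧ cub v) ∧
      (∀ v, (v ∈ A ∨ v ∈ B ∨ v ∈ C) ↔ v ∈ S ∧ ¬ cub v) ∧
      Disjoint A B ∧ Disjoint A C ∧ Disjoint B C ∧
      (r = 2 → ∀ v ∈ E, Even (f v)) ∧ (r = 1 → Parts wt 2 E.val) ∧
      Parts wt 6 A.val ∧ Parts wt 3 B.val ∧ (W ∨ ∀ v ∈ B, Even (f v)) ∧
      Parts wt 2 C.val ∧ ∀ v ∈ C, 3 ∣ f v := by
  classical
  have hnd : (E₀ + (A₀ + B₀ + C₀)).Nodup := h.eq ▸ S.nodup
  rw [Multiset.nodup_add] at hnd
  obtain ⟨hE, hN, hEN⟩ := hnd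
  have hN' := hN
  rw [Multiset.nodup_add] at hN'
  obtain ⟨hAB, hC, hABC⟩ := hN'
  have hAB' := hAB
  rw [Multiset.nodup_add] at hAB'
  obtain ⟨hA, hB, hdAB⟩ := hAB'
  rw [Multiset.disjoint_add_left] at hABC
  have hmem : ∀ v, v ∈ S ↔ v ∈ E₀ ∨ (v ∈ A₀ ∨ v ∈ B₀ ∨ v ∈ C₀) := by
    intro v
    rw [← Finset.mem_val, h.eq]
    simp only [Multiset.mem_add, or_assoc]
  have hnot : ∀ v, (v ∈ A₀ ∨ v ∈ B₀ ∨ v ∈ C₀) → ¬ cub v := by
    intro v hv
    apply h.cubN v
    simpa only [Multiset.mem_add, or_assoc] using hv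
  refine ⟨⟨E₀, hE⟩, ⟨A₀, hA⟩, ⟨B₀, hB⟩, ⟨C₀, hC⟩, fun v => ?_, fun v => ?_, ?_, ?_, ?_,
    fun hr v hv => h.even hr v hv, fun hr => h.two hr, h.p6, h.p3, h.e3, h.p2, h.d2⟩
  · rw [hmem]
    simp only [Finset.mem_mk]
    exact ⟨fun hv => ⟨Or.inl hv, h.cubE v hv⟩, fun hv => hv.1.resolve_right fun h' => hnot v h' hv.2⟩
  · rw [hmem]
    simp only [Finset.mem_mk]
    exact ⟨fun hv => ⟨Or.inr hv, hnot v hv⟩, fun hv => hv.1.resolve_left fun h' => hv.2 (h.cubE v h')⟩
  · rw [← Finset.disjoint_val]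
    exact hdAB
  · rw [← Finset.disjoint_val]
    exact hABC.1
  · rw [← Finset.disjoint_val]
    exact hABC.2

end H85FD2

end

section

/-!
# The Frobenius density theorem

For `L / ℚ` Galois and every subgroup `E` of the Galois group,
`Σ_p #E · #{Q | p : D(Q) = E} p^(-s) = #{x : ⟨x⟩ = E} log (1 / (s - 1)) + O(1)`, `s → 1+`.
-/

set_option linter.unusedSectionVars false

open scoped Pointwise NumberField
open MulAction Ideal Finset

namespace Pool.Agent.H89.FrobD

open Pool.Agent.H24.FD (np np_summable np_sum)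

/-- the weight -/
noncomputable def wt (s : ℝ) (p : Nat.Primes) : ℝ := ((p : ℕ) : ℝ) ^ (-s)

theorem wt_nonneg (s : ℝ) (p : Nat.Primes) : 0 ≤ wt s p := Real.rpow_nonneg (Nat.cast_nonneg _) _

theorem wt_le_one (s : ℝ) (hs : 1 < s) (p : Nat.Primes) : wt s p ≤ 1 :=
  Real.rpow_le_one_of_one_le_of_nonpos (by exact_mod_cast p.2.one_lt.le) (by linarith)

variable (L : Type) [Field L] [NumberField L] [IsGalois ℚ L]

open Classical in
/-- the coefficient -/
noncomputable def cf (E : Subgroup Gal(L/ℚ)) (p : Nat.Primes) : ℝ :=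
  if ((p : ℕ) : ℤ) ∣ NumberField.discr L then 0 else ((Nat.card E * bE L E p : ℕ) : ℝ)

theorem cf_nonneg (E : Subgroup Gal(L/ℚ)) (p : Nat.Primes) : 0 ≤ cf L E p := by
  unfold cf
  split_ifs
  · exact le_rfl
  · positivity

/-- the partial Dirichlet series -/
noncomputable def AA (E : Subgroup Gal(L/ℚ)) (s : ℝ) : ℝ := ∑' p : Nat.Primes, cf L E p * wt s p

theorem cf_le (E : Subgroup Gal(L/ℚ)) (p : Nat.Primes) :
    cf L E p ≤ (Nat.card E : ℝ) * (np (fixF L E) p : ℝ) := by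
  classical
  unfold cf
  split_ifs with h
  · positivity
  · have : Fintype (Subgroup Gal(L/ℚ)) := Fintype.ofFinite _
    have h1 := id_bE L E p.2 h
    have h2 : Nat.card E * bE L E p ≤
        ∑ E' ∈ univ.filter (fun E' : Subgroup Gal(L/ℚ) => E' ≤ E), Nat.card E' * bE L E' p :=
      Finset.single_le_sum (f := fun E' : Subgroup Gal(L/ℚ) => Nat.card E' * bE L E' p)
        (fun _ _ => Nat.zero_le _) (mem_filter.2 ⟨mem_univ E, le_rfl⟩)
    rw [h1] at h2
    exact_mod_cast h2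

theorem summable_cf (E : Subgroup Gal(L/ℚ)) (s : ℝ) (hs : 1 < s) :
    Summable fun p : Nat.Primes => cf L E p * wt s p := by
  have h := ((np_summable (fixF L E) hs)).mul_left (Nat.card E : ℝ)
  refine Summable.of_nonneg_of_le (fun p => mul_nonneg (cf_nonneg L E p) (wt_nonneg s p))
    (fun p => ?_) h
  rw [← mul_assoc]
  exact mul_le_mul_of_nonneg_right (cf_le L E p) (wt_nonneg s p)

theorem finite_ram : {p : Nat.Primes | ((p : ℕ) : ℤ) ∣ NumberField.discr L}.Finite := by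
  have h0 : NumberField.discr L ≠ 0 := NumberField.discr_ne_zero L
  refine Set.Finite.of_injOn (f := fun p : Nat.Primes => (p : ℕ)) (t := Set.Iic (NumberField.discr L).natAbs)
    (fun p hp => ?_) (fun p _ q _ h => Subtype.ext h) (Set.finite_Iic _)
  have h1 : ((p : ℕ) : ℤ) ∣ NumberField.discr L := hp
  have h2 : (p : ℕ) ∣ (NumberField.discr L).natAbs := by
    simpa using Int.natAbs_dvd_natAbs.2 h1
  exact Nat.le_of_dvd (Int.natAbs_pos.2 h0) h2

/-- the sum over all subgroups of `H` -/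
theorem sum_AA (H : Subgroup Gal(L/ℚ)) [Fintype (Subgroup Gal(L/ℚ))]
    [DecidablePred fun E : Subgroup Gal(L/ℚ) => E ≤ H] :
    ∃ C : ℝ, ∀ s : ℝ, 1 < s → s < 2 →
      |∑ E ∈ univ.filter (fun E : Subgroup Gal(L/ℚ) => E ≤ H), AA L E s -
        (Nat.card H : ℝ) * Real.log (1 / (s - 1))| ≤ C := by
  classical
  obtain ⟨C, hC⟩ := np_sum (fixF L H)
  have hsum : ∀ s : ℝ, 1 < s → Summable fun p : Nat.Primes =>
      (np (fixF L H) p : ℝ) * ((p : ℕ) : ℝ) ^ (-s) := fun s hs => np_summable (fixF L H) hs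
  set R := (finite_ram L).toFinset with hR
  set D : ℝ := ∑ p ∈ R, (Nat.card H : ℝ) * (np (fixF L H) p : ℝ) with hD
  refine ⟨(Nat.card H : ℝ) * C + D, fun s hs hs2 => ?_⟩
  -- the ramified part
  set r : Nat.Primes → ℝ := fun p => if ((p : ℕ) : ℤ) ∣ NumberField.discr L then
    (Nat.card H : ℝ) * ((np (fixF L H) p : ℝ) * wt s p) else 0 with hr
  have hr0 : ∀ p ∉ R, r p = 0 := by
    intro p hp
    have : ¬ ((p : ℕ) : ℤ) ∣ NumberField.discr L := fun h => hp (by
      rw [hR, Set.Finite.mem_toFinset]; exact h)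
    simp only [hr, if_neg this]
  have hrs : Summable r := summable_of_ne_finset_zero (s := R) hr0
  have hrt : ∑' p, r p = ∑ p ∈ R, r p := tsum_eq_sum hr0
  have hrn : 0 ≤ ∑' p, r p := by
    refine tsum_nonneg fun p => ?_
    simp only [hr]
    split_ifs
    · have := wt_nonneg s p
      positivity
    · exact le_rfl
  have hrle : ∑' p, r p ≤ D := by
    rw [hrt, hD]
    refine sum_le_sum fun p hp => ?_
    simp only [hr]
    split_ifs
    · refine mul_le_mul_of_nonneg_left ?_ (Nat.cast_nonneg _)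
      exact mul_le_of_le_one_right (Nat.cast_nonneg _) (wt_le_one s hs p)
    · positivity
  -- the identity
  have hid : ∑ E ∈ univ.filter (fun E : Subgroup Gal(L/ℚ) => E ≤ H), AA L E s =
      (Nat.card H : ℝ) * (∑' p : Nat.Primes, (np (fixF L H) p : ℝ) * wt s p) - ∑' p, r p := by
    have hs' : Summable fun p : Nat.Primes => (Nat.card H : ℝ) * ((np (fixF L H) p : ℝ) * wt s p) :=
      (hsum s hs).mul_left _
    unfold AA
    rw [← Summable.tsum_finsetSum (fun E _ => summable_cf L E s hs), ← tsum_mul_left,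
      ← Summable.tsum_sub hs' hrs]
    refine tsum_congr fun p => ?_
    rw [← sum_mul]
    simp only [hr, cf]
    by_cases h : ((p : ℕ) : ℤ) ∣ NumberField.discr L
    · simp only [if_pos h, sum_const_zero, zero_mul, sub_self]
    · simp only [if_neg h, sub_zero]
      rw [← Nat.cast_sum, id_bE L H p.2 h]
      push_cast
      ring
  have h3 := hC s hs hs2
  rw [hid]
  have h4 : (Nat.card H : ℝ) * (∑' p : Nat.Primes, (np (fixF L H) p : ℝ) * wt s p) - ∑' p, r p -
      (Nat.card H : ℝ) * Real.log (1 / (s - 1)) =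
      (Nat.card H : ℝ) * (∑' p : Nat.Primes, (np (fixF L H) p : ℝ) * ((p : ℕ) : ℝ) ^ (-s) -
        Real.log (1 / (s - 1))) - ∑' p, r p := by
    simp only [wt]
    ring
  rw [h4]
  refine (abs_sub _ _).trans (add_le_add ?_ ?_)
  · rw [abs_mul, abs_of_nonneg (Nat.cast_nonneg (α := ℝ) (Nat.card H))]
    exact mul_le_mul_of_nonneg_left h3 (Nat.cast_nonneg _)
  · rw [abs_of_nonneg hrn]
    exact hrle

/-- the number of generators of `E` (zero unless `E` is cyclic) -/
noncomputable def gens (E : Subgroup Gal(L/ℚ)) : ℕ := Nat.card {x : Gal(L/ℚ) // Subgroup.zpowers x = E}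

theorem sum_gens (H : Subgroup Gal(L/ℚ)) [Fintype (Subgroup Gal(L/ℚ))]
    [DecidablePred fun E : Subgroup Gal(L/ℚ) => E ≤ H] :
    ∑ E ∈ univ.filter (fun E : Subgroup Gal(L/ℚ) => E ≤ H), gens L E = Nat.card H := by
  classical
  have : Fintype Gal(L/ℚ) := Fintype.ofFinite _
  have h1 : Nat.card H = (univ.filter (fun x : Gal(L/ℚ) => x ∈ H)).card := by
    rw [Nat.card_eq_fintype_card, Fintype.card_subtype]
  rw [h1, Finset.card_eq_sum_card_fiberwise (f := fun x => Subgroup.zpowers x)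
    (t := univ.filter (fun E : Subgroup Gal(L/ℚ) => E ≤ H)) (fun x hx => by
      have := (mem_filter.1 (mem_coe.1 hx)).2
      exact mem_coe.2 (mem_filter.2 ⟨mem_univ _, by rwa [Subgroup.zpowers_le]⟩))]
  refine sum_congr rfl fun E hE => ?_
  have hEH := (mem_filter.1 hE).2
  rw [gens, Nat.card_eq_fintype_card, Fintype.card_subtype]
  congr 1
  ext x
  simp only [mem_filter, mem_univ, true_and]
  constructor
  · intro h
    exact ⟨hEH (h ▸ Subgroup.mem_zpowers x), h⟩
  · exact fun h => h.2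

/-- THE FROBENIUS DENSITY THEOREM -/
theorem frob_density (H : Subgroup Gal(L/ℚ)) :
    ∃ C : ℝ, ∀ s : ℝ, 1 < s → s < 2 →
      |AA L H s - (gens L H : ℝ) * Real.log (1 / (s - 1))| ≤ C := by
  classical
  have : Fintype (Subgroup Gal(L/ℚ)) := Fintype.ofFinite _
  induction hn : Nat.card H using Nat.strong_induction_on generalizing H with
  | _ n ih =>
    obtain ⟨C, hC⟩ := sum_AA L H
    -- proper subgroups
    have hprop : ∀ E : Subgroup Gal(L/ℚ), E < H → ∃ C : ℝ, ∀ s : ℝ, 1 < s → s < 2 →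
        |AA L E s - (gens L E : ℝ) * Real.log (1 / (s - 1))| ≤ C := by
      intro E hE
      refine ih (Nat.card E) ?_ E rfl
      rw [← hn]
      by_contra hcon
      exact hE.ne (Subgroup.eq_of_le_of_card_ge hE.le (not_lt.1 hcon))
    choose! c hc using hprop
    refine ⟨C + ∑ E ∈ univ.filter (fun E : Subgroup Gal(L/ℚ) => E < H), c E, fun s hs hs2 => ?_⟩
    have hfil : univ.filter (fun E : Subgroup Gal(L/ℚ) => E ≤ H) =
        insert H (univ.filter (fun E : Subgroup Gal(L/ℚ) => E < H)) := by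
      ext E
      simp only [mem_filter, mem_univ, true_and, mem_insert]
      rw [le_iff_eq_or_lt]
    have hnot : H ∉ univ.filter (fun E : Subgroup Gal(L/ℚ) => E < H) := by simp
    have h1 := hC s hs hs2
    have h2 := sum_gens L H
    rw [hfil, sum_insert hnot] at h1 h2
    have h3 : (Nat.card H : ℝ) = (gens L H : ℝ) +
        ∑ E ∈ univ.filter (fun E : Subgroup Gal(L/ℚ) => E < H), (gens L E : ℝ) := by
      rw [← h2]
      push_cast
      rfl
    rw [h3] at h1
    have h4 : AA L H s - (gens L H : ℝ) * Real.log (1 / (s - 1)) =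
        (AA L H s + ∑ E ∈ univ.filter (fun E : Subgroup Gal(L/ℚ) => E < H), AA L E s -
          ((gens L H : ℝ) + ∑ E ∈ univ.filter (fun E : Subgroup Gal(L/ℚ) => E < H), (gens L E : ℝ)) *
            Real.log (1 / (s - 1))) -
        ∑ E ∈ univ.filter (fun E : Subgroup Gal(L/ℚ) => E < H),
          (AA L E s - (gens L E : ℝ) * Real.log (1 / (s - 1))) := by
      rw [sum_sub_distrib, ← sum_mul]
      ring
    rw [h4]
    refine (abs_sub _ _).trans (add_le_add h1 ?_)
    refine (abs_sum_le_sum_abs _ _).trans (sum_le_sum fun E hE => ?_)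
    exact hc E (mem_filter.1 hE).2 s hs hs2

end Pool.Agent.H89.FrobD

end

section

/-!
# FG Dir: lower Dirichlet densities from the Frobenius density theorem

`frob_lower`: `L / ℚ` Galois, `T` a set of subgroups of the Galois group, `B` a set of primes of density zero.
If `P p` holds for every unramified prime `p` outside `B` with a decomposition group in `T`, the primes with
`P p` have lower Dirichlet density at least `#{g | ⟨g⟩ ∈ T} / [L : ℚ]`.
-/

set_option autoImplicit false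
set_option linter.unusedSectionVars false

open scoped Pointwise NumberField
open MulAction Ideal Finset Filter

namespace H10FG

open Pool.Agent.H71.FD (UD Null)
open Pool.Agent.H24.FD (dS dS_summable ud_sum np)
open Pool.Agent.H89.FrobD

open Classical in
/-- the primes in `S` have lower Dirichlet density at least `δ` -/
def LowerDirichlet (S : Set ℕ) (δ : ℝ) : Prop :=
  ∀ ε : ℝ, 0 < ε → ∃ s₀ : ℝ, 1 < s₀ ∧ ∀ s : ℝ, 1 < s → s < s₀ →
    (δ - ε) * Real.log (1 / (s - 1)) ≤ ∑' p : Nat.Primes, if (p : ℕ) ∈ S then ((p : ℕ) : ℝ) ^ (-s) else 0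

theorem log_large (C ε : ℝ) (hε : 0 < ε) : ∃ s₀ : ℝ, 1 < s₀ ∧ s₀ ≤ 2 ∧ ∀ s : ℝ, 1 < s → s < s₀ →
    C ≤ ε * Real.log (1 / (s - 1)) := by
  refine ⟨1 + Real.exp (-(|C| / ε)), by have := Real.exp_pos (-(|C| / ε)); linarith, ?_, ?_⟩
  · have h1 : Real.exp (-(|C| / ε)) ≤ 1 := by
      rw [Real.exp_le_one_iff]
      have : 0 ≤ |C| / ε := by positivity
      linarith
    linarith
  · intro s hs hs0
    have h1 : s - 1 < Real.exp (-(|C| / ε)) := by linarith
    have h2 : 0 < s - 1 := by linarith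
    have h3 : Real.log (1 / (s - 1)) = -Real.log (s - 1) := by rw [one_div, Real.log_inv]
    have h4 : Real.log (s - 1) < -(|C| / ε) := by
      rw [Real.log_lt_iff_lt_exp h2]
      exact h1
    rw [h3]
    have h5 : |C| / ε < -Real.log (s - 1) := by linarith
    have h6 : ε * (|C| / ε) ≤ ε * (-Real.log (s - 1)) := mul_le_mul_of_nonneg_left h5.le hε.le
    have h7 : ε * (|C| / ε) = |C| := by field_simp
    have h8 := le_abs_self C
    linarith

variable (L : Type) [Field L] [NumberField L] [IsGalois ℚ L]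

/-- the primes `p`, unramified, with a prime above `p` whose decomposition group is in `T` -/
def GT (T : Set (Subgroup Gal(L/ℚ))) (p : ℕ) : Prop :=
  ¬ (p : ℤ) ∣ NumberField.discr L ∧ ∃ E ∈ T, (setE L E p).Nonempty

theorem sum_cf_le {p : ℕ} (hp : p.Prime)
    [Fintype (Subgroup Gal(L/ℚ))] :
    ∑ E : Subgroup Gal(L/ℚ), Nat.card E * bE L E p ≤ Nat.card Gal(L/ℚ) := by
  classical
  rcases Set.eq_empty_or_nonempty ((pZ p).primesOver (𝓞 L)) with h | ⟨Q, hQ⟩
  · have h0 : ∀ E : Subgroup Gal(L/ℚ), bE L E p = 0 := by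
      intro E
      have : setE L E p = ∅ := by
        rw [Set.eq_empty_iff_forall_notMem]
        rintro Q ⟨hQ, -⟩
        rw [h] at hQ
        exact hQ
      rw [bE, this, Set.ncard_empty]
    simp [h0]
  · have hfin := fin_over L hp
    -- all stabilisers have the same order
    have := pZ_prime hp
    have hprime := hQ.1
    have hlies := hQ.2
    have horb : MulAction.orbit Gal(L/ℚ) Q = (pZ p).primesOver (𝓞 L) :=
      Algebra.IsInvariant.orbit_eq_primesOver ℤ (𝓞 L) Gal(L/ℚ) (pZ p) Q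
    have hst : ∀ Q' ∈ (pZ p).primesOver (𝓞 L),
        Nat.card (stabilizer Gal(L/ℚ) Q') = Nat.card (stabilizer Gal(L/ℚ) Q) := by
      intro Q' hQ'
      rw [← horb] at hQ'
      obtain ⟨g, rfl⟩ := hQ'
      exact (Nat.card_congr (MulAction.stabilizerEquivStabilizer (g := g) (a := Q) rfl).toEquiv).symm
    have h1 : ∑ E : Subgroup Gal(L/ℚ), Nat.card E * bE L E p =
        ∑ Q' ∈ hfin.toFinset, Nat.card (stabilizer Gal(L/ℚ) Q') := by
      rw [← Finset.sum_fiberwise_of_maps_to (s := hfin.toFinset) (t := univ)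
        (g := fun Q' => stabilizer Gal(L/ℚ) Q') (fun Q' _ => mem_univ _)]
      refine sum_congr rfl fun E _ => ?_
      rw [sum_congr rfl (g := fun _ => Nat.card E) (fun Q' hQ' => by rw [(mem_filter.1 hQ').2])]
      rw [sum_const, smul_eq_mul, mul_comm]
      congr 1
      have hfinE : (setE L E p).Finite := hfin.subset fun Q hQ => hQ.1
      rw [bE, Set.ncard_eq_toFinset_card _ hfinE]
      congr 1
      ext Q'
      simp only [Set.Finite.mem_toFinset, mem_filter, setE, Set.mem_setOf_eq]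
    rw [h1, sum_congr rfl (g := fun _ => Nat.card (stabilizer Gal(L/ℚ) Q)) (fun Q' hQ' =>
      hst Q' ((Set.Finite.mem_toFinset _).1 hQ'))]
    rw [sum_const, smul_eq_mul]
    have h2 := Nat.card_congr (MulAction.orbitProdStabilizerEquivGroup Gal(L/ℚ) Q)
    rw [Nat.card_prod, horb] at h2
    rw [← h2]
    refine Nat.mul_le_mul_right _ ?_
    rw [← Set.ncard_eq_toFinset_card _ hfin]
    exact le_rfl

theorem sum_AA_le (T : Finset (Subgroup Gal(L/ℚ))) {s : ℝ} (hs : 1 < s) :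
    ∑ E ∈ T, AA L E s ≤ (Nat.card Gal(L/ℚ) : ℝ) * dS (GT L T) s := by
  classical
  have : Fintype (Subgroup Gal(L/ℚ)) := Fintype.ofFinite _
  unfold AA dS
  rw [← tsum_mul_left, ← Summable.tsum_finsetSum fun E _ => summable_cf L E s hs]
  refine Summable.tsum_le_tsum (fun p => ?_) (summable_sum fun E _ => summable_cf L E s hs)
    ((dS_summable (GT L T) hs).mul_left _)
  have hw : (0 : ℝ) ≤ ((p : ℕ) : ℝ) ^ (-s) := Real.rpow_nonneg (Nat.cast_nonneg _) _
  rw [← Finset.sum_mul]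
  unfold wt
  by_cases h : ((p : ℕ) : ℤ) ∣ NumberField.discr L
  · have h0 : ∑ E ∈ T, cf L E p = 0 := by
      refine sum_eq_zero fun E _ => ?_
      unfold cf
      rw [if_pos h]
    rw [h0, zero_mul]
    split_ifs
    · positivity
    · simp
  · have h0 : ∑ E ∈ T, cf L E p = ((∑ E ∈ T, Nat.card E * bE L E p : ℕ) : ℝ) := by
      rw [Nat.cast_sum]
      refine sum_congr rfl fun E _ => ?_
      unfold cf
      rw [if_neg h]
    rw [h0]
    by_cases h2 : GT L T p
    · rw [if_pos h2]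
      refine mul_le_mul_of_nonneg_right ?_ hw
      exact_mod_cast (sum_le_sum_of_subset (subset_univ T)).trans (sum_cf_le L p.2)
    · have h3 : ∑ E ∈ T, Nat.card E * bE L E p = 0 := by
        refine sum_eq_zero fun E hE => ?_
        have h4 : ¬ (setE L E p).Nonempty := fun h5 => h2 ⟨h, E, hE, h5⟩
        rw [bE, Set.not_nonempty_iff_eq_empty.1 h4, Set.ncard_empty, mul_zero]
      rw [h3, Nat.cast_zero, zero_mul, if_neg h2, mul_zero]

/-- the number of elements generating a group in `T` -/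
theorem card_gens (T : Finset (Subgroup Gal(L/ℚ))) :
    Nat.card {g : Gal(L/ℚ) // Subgroup.zpowers g ∈ T} = ∑ E ∈ T, gens L E := by
  classical
  have : Fintype Gal(L/ℚ) := Fintype.ofFinite _
  rw [Nat.card_eq_fintype_card, Fintype.card_subtype,
    Finset.card_eq_sum_card_fiberwise (f := fun x => Subgroup.zpowers x)
    (t := T) (fun x hx => by
      have := (mem_filter.1 (mem_coe.1 hx)).2
      exact mem_coe.2 this)]
  refine sum_congr rfl fun E hE => ?_
  rw [gens, Nat.card_eq_fintype_card, Fintype.card_subtype]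
  congr 1
  ext x
  simp only [mem_filter, mem_univ, true_and]
  constructor
  · rintro ⟨-, h⟩
    exact h
  · exact fun h => ⟨h ▸ hE, h⟩

theorem GT_sum (T : Finset (Subgroup Gal(L/ℚ))) :
    ∃ C : ℝ, ∀ s : ℝ, 1 < s → s < 2 →
      (Nat.card {g : Gal(L/ℚ) // Subgroup.zpowers g ∈ T} : ℝ) / (Module.finrank ℚ L : ℝ) *
        Real.log (1 / (s - 1)) - C ≤ dS (GT L T) s := by
  choose C hC using fun E => frob_density L E
  have hcard : Nat.card Gal(L/ℚ) = Module.finrank ℚ L := IsGalois.card_aut_eq_finrank ℚ L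
  have hn : (0 : ℝ) < (Module.finrank ℚ L : ℝ) := by exact_mod_cast Module.finrank_pos
  refine ⟨(∑ E ∈ T, C E) / (Module.finrank ℚ L : ℝ), fun s hs hs2 => ?_⟩
  have h2 := sum_AA_le L T hs
  rw [hcard] at h2
  have h4 : (∑ E ∈ T, (gens L E : ℝ)) * Real.log (1 / (s - 1)) - ∑ E ∈ T, C E ≤ ∑ E ∈ T, AA L E s := by
    rw [sum_mul, ← sum_sub_distrib]
    refine sum_le_sum fun E _ => ?_
    have h1 := (abs_le.1 (hC E s hs hs2)).1
    linarith
  rw [card_gens L T, Nat.cast_sum]
  have h5 : (∑ E ∈ T, (gens L E : ℝ)) / (Module.finrank ℚ L : ℝ) * Real.log (1 / (s - 1)) -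
      (∑ E ∈ T, C E) / (Module.finrank ℚ L : ℝ) =
      ((∑ E ∈ T, (gens L E : ℝ)) * Real.log (1 / (s - 1)) - ∑ E ∈ T, C E) /
        (Module.finrank ℚ L : ℝ) := by ring
  rw [h5, div_le_iff₀ hn]
  linarith

/-- LOWER DIRICHLET DENSITY -/
theorem frob_lower (T : Set (Subgroup Gal(L/ℚ))) {B : ℕ → Prop} (hB : Null B) (S : Set ℕ)
    (h : ∀ p : ℕ, p.Prime → ¬ (p : ℤ) ∣ NumberField.discr L → ¬ B p →
      ∀ E ∈ T, (setE L E p).Nonempty → p ∈ S) :
    LowerDirichlet S
      ((Nat.card {g : Gal(L/ℚ) // Subgroup.zpowers g ∈ T} : ℝ) / (Module.finrank ℚ L : ℝ)) := by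
  classical
  have : Fintype (Subgroup Gal(L/ℚ)) := Fintype.ofFinite _
  obtain ⟨T', hT'⟩ : ∃ T' : Finset (Subgroup Gal(L/ℚ)), (T' : Set (Subgroup Gal(L/ℚ))) = T :=
    ⟨T.toFinset, Set.coe_toFinset T⟩
  obtain ⟨C, hC⟩ := GT_sum L T'
  have hcd : Nat.card {g : Gal(L/ℚ) // Subgroup.zpowers g ∈ T'} =
      Nat.card {g : Gal(L/ℚ) // Subgroup.zpowers g ∈ T} := by
    subst hT'
    rfl
  intro ε hε
  obtain ⟨C', hC'⟩ := ud_sum (G := B) (e := 0) hB (η := ε / 2) (by positivity) (by positivity)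
  obtain ⟨s₀, hs₀, hs₂, hlog⟩ := log_large (C + C') (ε / 2) (by positivity)
  refine ⟨s₀, hs₀, fun s hs hss => ?_⟩
  have h1 := hC s hs (by linarith)
  have h2 := hC' s hs (by linarith)
  have h3 := hlog s hs hss
  rw [hcd] at h1
  have h4 : dS (GT L T') s ≤ dS (fun p => p ∈ S) s + dS B s := by
    unfold dS
    rw [← Summable.tsum_add (dS_summable _ hs) (dS_summable B hs)]
    refine (dS_summable (GT L T') hs).tsum_le_tsum (fun p => ?_)
      ((dS_summable _ hs).add (dS_summable B hs))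
    have hw : (0 : ℝ) ≤ ((p : ℕ) : ℝ) ^ (-s) := Real.rpow_nonneg (Nat.cast_nonneg _) _
    by_cases h5 : GT L T' p
    · rw [if_pos h5]
      by_cases h6 : B p
      · rw [if_pos h6]
        split_ifs
        · linarith
        · linarith
      · obtain ⟨hd, E, hE, hne⟩ := h5
        have h7 : (p : ℕ) ∈ S := h p p.2 hd h6 E (by rw [← hT']; exact hE) hne
        rw [if_pos h7, if_neg h6, add_zero]
    · rw [if_neg h5]
      split_ifs <;> linarith
  have h5 : dS (fun p => p ∈ S) s = ∑' p : Nat.Primes, if (p : ℕ) ∈ S then ((p : ℕ) : ℝ) ^ (-s) else 0 := rfl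
  rw [← h5]
  linarith

end H10FG

end

section

/-!
# FD version 2: lower Dirichlet densities from sets of elements of the Galois group
-/

namespace H85FD2

open Pool.Agent.H71.FD (Null Null_of_bounded)
open Pool.Agent.H89.FrobD H10FG

/-- finite unions -/
theorem null_biUnion {ι : Type*} (s : Finset ι) (B : ι → ℕ → Prop) (h : ∀ i ∈ s, Null (B i)) :
    Null (fun p => ∃ i ∈ s, B i p) := by
  classical
  induction s using Finset.induction_on with
  | empty => exact Null_of_bounded 0 fun p _ h => by simp at h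
  | insert a s ha ih =>
    refine ((h a (Finset.mem_insert_self a s)).or
      (ih fun i hi => h i (Finset.mem_insert_of_mem hi))).mono ?_
    rintro p _ ⟨i, hi, hB⟩
    rcases Finset.mem_insert.1 hi with rfl | hi
    · exact Or.inl hB
    · exact Or.inr ⟨i, hi, hB⟩

theorem lowerDirichlet_mono {S : Set ℕ} {δ δ' : ℝ} (h : LowerDirichlet S δ) (hδ : δ' ≤ δ) :
    LowerDirichlet S δ' := by
  intro ε hε
  obtain ⟨s₀, hs₀, hs⟩ := h ε hε
  refine ⟨min s₀ 2, lt_min hs₀ (by norm_num), fun s h1 h2 => le_trans ?_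
    (hs s h1 (lt_of_lt_of_le h2 (min_le_left _ _)))⟩
  have h3 : s < 2 := lt_of_lt_of_le h2 (min_le_right _ _)
  have h4 : 0 ≤ Real.log (1 / (s - 1)) := by
    apply Real.log_nonneg
    rw [le_div_iff₀ (by linarith)]
    linarith
  exact mul_le_mul_of_nonneg_right (by linarith) h4

/-- the density of a set of primes which contains almost all the primes with Frobenius in `X` -/
theorem lower_of (L : Type) [Field L] [NumberField L] [IsGalois ℚ L] (X : Set Gal(L/ℚ)) (S : Set ℕ)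
    (hX : ∀ g ∈ X, ∃ B : ℕ → Prop, Null B ∧ ∀ p : ℕ, p.Prime → ¬ (p : ℤ) ∣ NumberField.discr L →
      ¬ B p → (setE L (Subgroup.zpowers g) p).Nonempty → p ∈ S) {δ : ℝ}
    (hδ : δ * (Module.finrank ℚ L : ℝ) ≤ X.ncard) : LowerDirichlet S δ := by
  classical
  have hfin : Finite Gal(L/ℚ) := inferInstance
  have hpos : (0 : ℝ) < Module.finrank ℚ L := by
    exact_mod_cast (Module.finrank_pos : 0 < Module.finrank ℚ L)
  choose! B hB hS using hX
  have hfX : X.Finite := Set.toFinite X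
  have h1 := null_biUnion hfX.toFinset B fun g hg => hB g (hfX.mem_toFinset.1 hg)
  refine lowerDirichlet_mono (frob_lower L {E | ∃ g ∈ X, E = Subgroup.zpowers g} h1 S ?_) ?_
  · rintro p hp hd hnB E ⟨g, hg, rfl⟩ hE
    exact hS g hg p hp hd (fun h => hnB ⟨g, hfX.mem_toFinset.2 hg, h⟩) hE
  · rw [le_div_iff₀ hpos]
    refine hδ.trans (Nat.cast_le.2 ?_)
    rw [← Nat.card_coe_set_eq]
    refine Nat.card_le_card_of_injective
      (fun g : X => (⟨g.1, g.1, g.2, rfl⟩ : {g : Gal(L/ℚ) // Subgroup.zpowers g ∈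
        {E | ∃ g ∈ X, E = Subgroup.zpowers g}})) ?_
    intro g g' h
    exact Subtype.ext (Subtype.mk.inj h)

end H85FD2

end

section

/-!
# Project AB, part (D), module M8: Frobenius density for relative extensions

* `frob_E`: primes `u` of degree one such that all primes above `u` have degree one, `p ≡ 2 (mod 3)`;
* `frob_F`: long orbits.
-/

set_option autoImplicit false
set_option linter.unusedSectionVars false

open scoped Pointwise NumberField
open MulAction Ideal Finset Filter NumberField IsDedekindDomain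

namespace H89AB

open Pool.Agent.H89.FrobD

section under

variable {L : Type} [Field L] [NumberField L] [IsGalois ℚ L]

/-- the group of a subfield -/
abbrev HK (K L : Type*) [Field K] [Field L] [NumberField L] [Algebra K L] : Subgroup Gal(L/ℚ) :=
  fixingSubgroup Gal(L/ℚ) (Set.range (algebraMap K L))

theorem mem_HK {K : Type*} [Field K] [Algebra K L] (τ : Gal(L/ℚ)) :
    τ ∈ HK K L ↔ ∀ x : K, τ (algebraMap K L x) = algebraMap K L x := by
  rw [HK, mem_fixingSubgroup_iff]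
  constructor
  · intro h x
    exact h _ ⟨x, rfl⟩
  · rintro h _ ⟨x, rfl⟩
    exact h x

theorem gal_HK (K : Type*) [Field K] [NumberField K] [Algebra K L] [IsScalarTower ℚ K L] :
    IsGaloisGroup (HK K L) (𝓞 K) (𝓞 L) := by
  have : IsGaloisGroup (HK K L) K L := IsGaloisGroup.of_isScalarTower Gal(L/ℚ) ℚ L K
  exact IsGaloisGroup.of_isFractionRing (HK K L) (𝓞 K) (𝓞 L) K L

theorem mem_under {K : Type*} [Field K] [NumberField K] [Algebra K L] {p : ℕ} {Q : Ideal (𝓞 L)}
    (hQ : Q ∈ (pZ p).primesOver (𝓞 L)) : (p : 𝓞 K) ∈ Q.under (𝓞 K) := by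
  rw [Ideal.under_def, Ideal.mem_comap, map_natCast]
  exact mem_of_over L hQ

theorem under_ne_bot {K : Type*} [Field K] [NumberField K] [Algebra K L] {p : ℕ} (hp : p.Prime)
    {Q : Ideal (𝓞 L)} (hQ : Q ∈ (pZ p).primesOver (𝓞 L)) : Q.under (𝓞 K) ≠ ⊥ := by
  intro h
  have hmem := mem_under (K := K) hQ
  rw [h, Ideal.mem_bot, Nat.cast_eq_zero] at hmem
  exact hp.ne_zero hmem

/-- the residue degree of the prime below -/
theorem deg_under {K : Type*} [Field K] [NumberField K] [Algebra K L] [IsScalarTower ℚ K L]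
    {p : ℕ} (hp : p.Prime) (hd : ¬ (p : ℤ) ∣ NumberField.discr L) (g : Gal(L/ℚ)) {Q : Ideal (𝓞 L)}
    (hQ : Q ∈ (pZ p).primesOver (𝓞 L)) (hQE : stabilizer Gal(L/ℚ) Q = Subgroup.zpowers g)
    (σ : K →ₐ[ℚ] L) (hσ : ∀ x : K, algebraMap K L x = σ x) :
    (Q.under (𝓞 K)).inertiaDeg ℤ = Function.minimalPeriod (act g) σ := by
  have hQp := hQ.1
  have hQl := hQ.2
  have hpZ := pZ_prime hp
  have hH : ∀ τ : Gal(L/ℚ), τ ∈ HK K L ↔ ∀ x : K, τ (σ x) = σ x := by
    intro τ
    rw [mem_HK]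
    simp only [hσ]
  have : IsGaloisGroup (HK K L) (𝓞 K) (𝓞 L) := gal_HK K
  have : (Q.under (𝓞 K)).LiesOver (pZ p) := Ideal.LiesOver.tower_bot Q (Q.under (𝓞 K)) (pZ p)
  have h1 := deg_mul (A := ℤ) (B := 𝓞 K) (C := 𝓞 L) (HK K L) (pZ p) Q (Q.under (𝓞 K)) (unram L hp hd Q hQ)
  rw [card_stab_inf, hQE] at h1
  have h2 := card_inf g σ (HK K L) hH
  have hpos : 0 < Nat.card (Subgroup.zpowers g ⊓ HK K L : Subgroup Gal(L/ℚ)) := Nat.card_pos
  exact Nat.eq_of_mul_eq_mul_right hpos (h1.trans h2.symm)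

end under

theorem lies_over_pZ {K : Type*} [Field K] [NumberField K] {p : ℕ} (hp : p.Prime) (v : Ideal (𝓞 K))
    [v.IsPrime] (hv : (p : 𝓞 K) ∈ v) : v.LiesOver (pZ p) := by
  constructor
  refine (pZ_max hp).eq_of_le ?_ ?_
  · exact Ideal.IsPrime.ne_top inferInstance
  · rw [Ideal.span_singleton_le_iff_mem, Ideal.under_def, Ideal.mem_comap]
    simpa using hv

theorem card_quot {K : Type*} [Field K] [NumberField K] {p : ℕ} (hp : p.Prime) (v : Ideal (𝓞 K))
    [v.IsPrime] (hv : (p : 𝓞 K) ∈ v) : Nat.card (𝓞 K ⧸ v) = p ^ v.inertiaDeg ℤ := by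
  have := lies_over_pZ hp v hv
  rw [Ideal.pow_inertiaDeg p v]
  rfl

/-- cube roots of unity fixed by a power of the Frobenius -/
theorem pow_mod_three {L : Type} [Field L] [NumberField L] [IsGalois ℚ L]
    {p : ℕ} (hp : p.Prime) (hp3 : 3 < p) (hd : ¬ (p : ℤ) ∣ NumberField.discr L) (g : Gal(L/ℚ))
    (hE : (setE L (Subgroup.zpowers g) p).Nonempty) (n : ℕ) (w : L) (hw : w ^ 2 + w + 1 = 0)
    (hgw : (g ^ n) w = w) : p ^ n % 3 = 1 := by
  have : Fact p.Prime := ⟨hp⟩
  obtain ⟨φ, τ, hτ, hφ⟩ := exists_frob L hd (AlgebraicClosure (ZMod p)) (Subgroup.zpowers g) hE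
  have hint : IsIntegral ℤ w := by
    refine ⟨Polynomial.X ^ 2 + Polynomial.X + 1, ?_, ?_⟩
    · have : (Polynomial.X ^ 2 + Polynomial.X + 1 : Polynomial ℤ) =
          Polynomial.X ^ 2 + (Polynomial.X + 1) := by ring
      rw [this]
      refine Polynomial.monic_X_pow_add ?_
      have h1 : (Polynomial.X + 1 : Polynomial ℤ).degree = 1 := by
        have := Polynomial.degree_X_add_C (1 : ℤ)
        simpa using this
      rw [h1]
      norm_num
    · simpa using hw
  set W : 𝓞 L := ⟨w, hint⟩ with hW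
  have hWe : W ^ 2 + W + 1 = 0 := by
    apply NumberField.RingOfIntegers.ext
    push_cast
    exact hw
  have hfix : τ ^ n • W = W := by
    have h1 : τ ∈ Subgroup.zpowers g := hτ ▸ Subgroup.mem_zpowers τ
    obtain ⟨k, hk⟩ := Subgroup.mem_zpowers_iff.1 h1
    have h2 : τ ^ n ∈ Subgroup.zpowers (g ^ n) := by
      rw [Subgroup.mem_zpowers_iff]
      refine ⟨k, ?_⟩
      rw [← hk, ← zpow_natCast, ← zpow_natCast, ← zpow_mul, ← zpow_mul, mul_comm]
    have h3 : Subgroup.zpowers (g ^ n) ≤ stabilizer Gal(L/ℚ) W := by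
      rw [Subgroup.zpowers_le, MulAction.mem_stabilizer_iff]
      apply NumberField.RingOfIntegers.ext
      exact hgw
    exact h3 h2
  have hpow : ∀ (k : ℕ) (x : 𝓞 L), φ (τ ^ k • x) = φ x ^ p ^ k := by
    intro k
    induction k with
    | zero => intro x; simp
    | succ k ih =>
      intro x
      have h5 : τ ^ (k + 1) • x = τ ^ k • (τ • x) := by rw [pow_succ, mul_smul]
      rw [h5, ih, hφ, ← pow_mul, ← pow_succ']
  have h3 := hpow n W
  rw [hfix] at h3
  have h4 : φ W ^ 2 + φ W + 1 = 0 := by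
    have := congrArg φ hWe
    simpa using this
  have hne3 : (3 : AlgebraicClosure (ZMod p)) ≠ 0 := by
    intro h
    have h5 : ((3 : ℕ) : AlgebraicClosure (ZMod p)) = 0 := by exact_mod_cast h
    rw [CharP.cast_eq_zero_iff (AlgebraicClosure (ZMod p)) p] at h5
    have := Nat.le_of_dvd (by norm_num) h5
    omega
  have hu3 : φ W ^ 3 = 1 := by
    have : φ W ^ 3 - 1 = (φ W - 1) * (φ W ^ 2 + φ W + 1) := by ring
    rw [h4, mul_zero] at this
    exact sub_eq_zero.1 this
  have hu1 : φ W ≠ 1 := by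
    intro h
    rw [h] at h4
    exact hne3 (by linear_combination h4)
  have hu0 : φ W ≠ 0 := by
    intro h
    rw [h] at h4
    simp at h4
  have h5 := Nat.div_add_mod (p ^ n) 3
  have h6 : φ W ^ p ^ n = φ W ^ (p ^ n % 3) := by
    have h7 : φ W ^ p ^ n = φ W ^ (3 * (p ^ n / 3) + p ^ n % 3) := congrArg (fun n => φ W ^ n) h5.symm
    rw [h7, pow_add, pow_mul, hu3, one_pow, one_mul]
  rw [h6] at h3
  have h7 : p ^ n % 3 < 3 := Nat.mod_lt _ (by norm_num)
  have h8 : p ^ n % 3 ≠ 0 := by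
    intro h
    rw [h, pow_zero] at h3
    exact hu1 h3
  have h9 : p ^ n % 3 ≠ 2 := by
    intro h
    rw [h] at h3
    have : φ W * (φ W - 1) = 0 := by linear_combination -h3
    rcases mul_eq_zero.1 this with h | h
    · exact hu0 h
    · exact hu1 (sub_eq_zero.1 h)
  omega

end H89AB

end

section

/-!
# The splitting type of a prime is the cycle type of its Frobenius, relative version

`L / ℚ` Galois, `F → K` number fields, `K → L`; `p` unramified in `L`, `Q | p` with decomposition group `⟨g⟩`,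
`τ : F → L` an embedding with orbit of length `k` under `g`, `u = τ⁻¹ Q`.  Then `#(𝓞 F / u) = p ^ k` and the
residue degrees over `u` of the primes of `K` above `u` are the cycle lengths of `g ^ k` on the embeddings
`K → L` over `τ`.
-/

set_option autoImplicit false
set_option linter.unusedSectionVars false

open scoped Pointwise NumberField
open MulAction Ideal Finset Filter NumberField IsDedekindDomain

namespace Pool.Agent.H89.FrobD

section gen

/-- counting through a map with fibres of constant size -/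
theorem card_const_fiber {R X : Type*} [Finite R] [Finite X] (Φ : R → X) (c : ℕ)
    (hc : ∀ x : X, Nat.card {r : R // Φ r = x} = c) (P : X → Prop) :
    Nat.card {r : R // P (Φ r)} = c * Nat.card {x : X // P x} := by
  classical
  have : Fintype R := Fintype.ofFinite R
  have : Fintype X := Fintype.ofFinite X
  rw [Nat.card_eq_fintype_card, Fintype.card_subtype, Nat.card_eq_fintype_card, Fintype.card_subtype,
    Finset.card_eq_sum_card_fiberwise (f := Φ) (t := univ.filter P)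
      (fun r hr => mem_coe.2 (mem_filter.2 ⟨mem_univ _, (mem_filter.1 (mem_coe.1 hr)).2⟩)), mul_comm,
    ← smul_eq_mul, ← sum_const]
  refine sum_congr rfl fun x hx => ?_
  rw [← hc x, Nat.card_eq_fintype_card, Fintype.card_subtype]
  congr 1
  ext r
  simp only [mem_filter, mem_univ, true_and]
  constructor
  · exact fun h => h.2
  · intro h
    refine ⟨?_, h⟩
    rw [h]
    exact (mem_filter.1 hx).2

end gen

variable {L : Type} [Field L] [NumberField L] [IsGalois ℚ L]

/-- the group is transitive on the embeddings -/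
theorem exists_gal {K : Type*} [Field K] [NumberField K] (σ σ' : K →ₐ[ℚ] L) :
    ∃ ρ : Gal(L/ℚ), act ρ σ = σ' := by
  let e1 : K ≃ₐ[ℚ] σ.fieldRange := AlgEquiv.ofInjectiveField σ
  let e2 : K ≃ₐ[ℚ] σ'.fieldRange := AlgEquiv.ofInjectiveField σ'
  let χ : σ.fieldRange ≃ₐ[ℚ] σ'.fieldRange := e1.symm.trans e2
  refine ⟨χ.liftNormal L, ?_⟩
  ext x
  show (χ.liftNormal L) (σ x) = σ' x
  have h := χ.liftNormal_commutes L (e1 x)
  have h1 : algebraMap σ.fieldRange L (e1 x) = σ x := rfl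
  have h2 : algebraMap σ'.fieldRange L (χ (e1 x)) = σ' x := by
    show algebraMap σ'.fieldRange L (e2 (e1.symm (e1 x))) = σ' x
    rw [AlgEquiv.symm_apply_apply]
    rfl
  rw [h1, h2] at h
  exact h

theorem act_mul {K : Type*} [Field K] [NumberField K] (g h : Gal(L/ℚ)) (σ : K →ₐ[ℚ] L) :
    act (g * h) σ = act g (act h σ) := rfl

theorem act_one {K : Type*} [Field K] [NumberField K] (σ : K →ₐ[ℚ] L) : act (1 : Gal(L/ℚ)) σ = σ := rfl

/-- periods of conjugates -/
theorem period_conj {K : Type*} [Field K] [NumberField K] (g ρ : Gal(L/ℚ)) (σ : K →ₐ[ℚ] L) :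
    Function.minimalPeriod (act (ρ * g * ρ⁻¹)) σ = Function.minimalPeriod (act g) (act ρ⁻¹ σ) := by
  rw [Function.minimalPeriod_eq_minimalPeriod_iff]
  intro n
  rw [Function.IsPeriodicPt, Function.IsPeriodicPt, Function.IsFixedPt, Function.IsFixedPt, act_iter, act_iter]
  have h1 : (ρ * g * ρ⁻¹) ^ n = ρ * g ^ n * ρ⁻¹ := conj_pow
  rw [h1, act_mul, act_mul]
  constructor
  · intro h
    calc act (g ^ n) (act ρ⁻¹ σ) = act ρ⁻¹ (act ρ (act (g ^ n) (act ρ⁻¹ σ))) := by
          rw [← act_mul ρ⁻¹ ρ, inv_mul_cancel, act_one]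
      _ = act ρ⁻¹ σ := by rw [h]
  · intro h
    rw [h, ← act_mul, mul_inv_cancel, act_one]

/-- periods of restrictions -/
theorem period_mul {F K : Type*} [Field F] [NumberField F] [Field K] [NumberField K] [Algebra F K]
    (g : Gal(L/ℚ)) (τ : F →ₐ[ℚ] L) (σ : K →ₐ[ℚ] L) (hσ : ∀ x : F, σ (algebraMap F K x) = τ x) :
    Function.minimalPeriod (act g) σ =
      Function.minimalPeriod (act g) τ *
        Function.minimalPeriod (act (g ^ Function.minimalPeriod (act g) τ)) σ := by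
  set k := Function.minimalPeriod (act g) τ with hk
  have hfin : IsOfFinOrder g := isOfFinOrder_of_finite g
  have hkpos : 0 < k := by
    refine Function.IsPeriodicPt.minimalPeriod_pos (orderOf_pos g) ?_
    rw [Function.IsPeriodicPt, Function.IsFixedPt, act_iter, pow_orderOf_eq_one, act_one]
  have hdvd : k ∣ Function.minimalPeriod (act g) σ := by
    rw [hk, ← Function.isPeriodicPt_iff_minimalPeriod_dvd]
    have h := Function.isPeriodicPt_minimalPeriod (act g) σ
    rw [Function.IsPeriodicPt, Function.IsFixedPt, act_iter] at h ⊢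
    rw [act_eq_iff] at h ⊢
    intro x
    rw [← hσ]
    exact h _
  have hit : (act (K := K) g)^[k] = act (g ^ k) := by
    funext σ'
    exact act_iter g σ' k
  have h1 := Function.minimalPeriod_iterate_eq_div_gcd (f := act (K := K) g) (x := σ) (n := k) hkpos.ne'
  rw [hit, Nat.gcd_eq_right hdvd] at h1
  rw [h1, Nat.mul_div_cancel' hdvd]

/-- the embeddings of `K` over `τ` -/
abbrev Emb (K : Type*) {F : Type*} [Field F] [NumberField F] [Field K] [NumberField K] [Algebra F K]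
    (τ : F →ₐ[ℚ] L) : Type _ := {σ : K →ₐ[ℚ] L // ∀ x : F, σ (algebraMap F K x) = τ x}

/-- unramified -/
theorem ram_one {p : ℕ} (hp : p.Prime) (hd : ¬ (p : ℤ) ∣ NumberField.discr L) (Q : Ideal (𝓞 L))
    (hQ : Q ∈ (pZ p).primesOver (𝓞 L)) : Q.ramificationIdx ℤ = 1 := by
  have := hQ.1
  have := hQ.2
  have := pZ_prime hp
  have := pZ_max hp
  have hQm : Q.IsMaximal := Ideal.IsMaximal.of_liesOver_isMaximal Q (pZ p)
  have h1 : Algebra.IsUnramifiedAt ℤ Q :=
    (NumberField.not_dvd_discr_iff_forall_liesOver L (𝓞 L) (Nat.prime_iff_prime_int.1 hp)).1 hd Q hQm hQ.2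
  exact Ideal.ramificationIdx_eq_one_of_isUnramifiedAt

section rel

variable {F : Type*} {K : Type*} [Field F] [NumberField F] [Field K] [NumberField K] [Algebra F K]

/-- THE COUNT of the primes of degree `d` above `u` -/
theorem count_rel [Algebra K L] [Algebra F L] [IsScalarTower F K L]
    {p : ℕ} (hp : p.Prime) (hd : ¬ (p : ℤ) ∣ NumberField.discr L) (g : Gal(L/ℚ)) (Q : Ideal (𝓞 L))
    (hQ : Q ∈ (pZ p).primesOver (𝓞 L)) (hQE : stabilizer Gal(L/ℚ) Q = Subgroup.zpowers g)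
    (τ : F →ₐ[ℚ] L) (hτ : ∀ x : F, algebraMap F L x = τ x)
    (hB : ((Q.under (𝓞 F)).primesOver (𝓞 K)).Finite) (d : ℕ) :
    d * (hB.toFinset.filter (fun v => v.inertiaDeg (𝓞 F) = d)).card =
      Nat.card {σ : Emb K τ // Function.minimalPeriod (act (g ^ Function.minimalPeriod (act g) τ)) σ.1 = d} := by
  have hQp := hQ.1
  have hQl := hQ.2
  have hpZ := pZ_prime hp
  have hpM := pZ_max hp
  have htK : IsScalarTower ℚ K L := inferInstance
  have htF : IsScalarTower ℚ F L := inferInstance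
  let σ₀ : K →ₐ[ℚ] L := IsScalarTower.toAlgHom ℚ K L
  have hσ₀ : ∀ x : K, algebraMap K L x = σ₀ x := fun x => rfl
  have hσ₀F : ∀ x : F, σ₀ (algebraMap F K x) = τ x := by
    intro x
    rw [← hτ, ← hσ₀, ← IsScalarTower.algebraMap_apply]
  set k := Function.minimalPeriod (act g) τ with hk
  have hle : H89AB.HK K L ≤ H89AB.HK F L := by
    intro ρ hρ
    rw [H89AB.mem_HK] at hρ ⊢
    intro x
    rw [IsScalarTower.algebraMap_apply F K L]
    exact hρ _
  set H : Subgroup (H89AB.HK F L) := (H89AB.HK K L).subgroupOf (H89AB.HK F L) with hH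
  have hGF : IsGaloisGroup (H89AB.HK F L) (𝓞 F) (𝓞 L) := H89AB.gal_HK F
  have hGK0 : IsGaloisGroup (H89AB.HK K L) (𝓞 K) (𝓞 L) := H89AB.gal_HK K
  have hGK : IsGaloisGroup H (𝓞 K) (𝓞 L) :=
    IsGaloisGroup.of_mulEquiv (Subgroup.subgroupOfEquivOfLe hle) (fun _ _ => rfl)
  have hcardH : Nat.card H = Nat.card (H89AB.HK K L) :=
    Nat.card_congr (Subgroup.subgroupOfEquivOfLe hle).toEquiv
  have hu : (Q.under (𝓞 F)).IsPrime := inferInstance
  have hub : Q.under (𝓞 F) ≠ ⊥ := H89AB.under_ne_bot hp hQ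
  have hum : (Q.under (𝓞 F)).IsMaximal := hu.isMaximal hub
  have hup : (Q.under (𝓞 F)).LiesOver (pZ p) := Ideal.LiesOver.tower_bot Q (Q.under (𝓞 F)) (pZ p)
  have hC : ((Q.under (𝓞 F)).primesOver (𝓞 L)).Finite :=
    IsDedekindDomain.primesOver_finite (Q.under (𝓞 F)) (𝓞 L)
  have hover : ∀ Q' ∈ (Q.under (𝓞 F)).primesOver (𝓞 L), Q' ∈ (pZ p).primesOver (𝓞 L) := by
    intro Q' hQ'
    have := hQ'.2
    exact ⟨hQ'.1, Ideal.LiesOver.trans Q' (Q.under (𝓞 F)) (pZ p)⟩
  have hun : ∀ Q' ∈ (Q.under (𝓞 F)).primesOver (𝓞 L), Nat.card (Ideal.inertia (H89AB.HK F L) Q') = 1 := by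
    intro Q' hQ'
    have h4 : (Q'.inertia Gal(L/ℚ)).subgroupOf (H89AB.HK F L) = Q'.inertia (H89AB.HK F L) :=
      AddSubgroup.subgroupOf_inertia _ _
    rw [← h4, Subgroup.eq_bot_of_card_eq _ (unram L hp hd Q' (hover Q' hQ')), Subgroup.bot_subgroupOf]
    exact Subgroup.card_bot
  have hdegu : (Q.under (𝓞 F)).inertiaDeg ℤ = k := H89AB.deg_under hp hd g hQ hQE τ hτ
  have hkpos : 0 < k := by
    refine Function.IsPeriodicPt.minimalPeriod_pos (orderOf_pos g) ?_
    rw [Function.IsPeriodicPt, Function.IsFixedPt, act_iter, pow_orderOf_eq_one, act_one]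
  have h1 := count_deg (A := 𝓞 F) (B := 𝓞 K) (C := 𝓞 L) (G := H89AB.HK F L) H (Q.under (𝓞 F))
    (fun v hv => inferInstance) hC hB (fun v hv => by
      obtain ⟨Q', hQ', hQ'v⟩ := (inferInstance : Nonempty (v.primesOver (𝓞 L)))
      exact ⟨Q', hQ', hQ'v⟩) hun Q ⟨hQp, inferInstance⟩ d
  -- the condition on `ρ`
  have h2 : ∀ ρ : H89AB.HK F L, d * Nat.card (stabilizer H (ρ • Q)) = Nat.card (stabilizer (H89AB.HK F L) Q) ↔
      Function.minimalPeriod (act (g ^ k)) (act ((ρ : Gal(L/ℚ))⁻¹) σ₀) = d := by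
    intro ρ
    have hcoe : ρ • Q = (ρ : Gal(L/ℚ)) • Q := rfl
    have hmem : ρ • Q ∈ (Q.under (𝓞 F)).primesOver (𝓞 L) := by
      have horb : MulAction.orbit (H89AB.HK F L) Q = (Q.under (𝓞 F)).primesOver (𝓞 L) :=
        Algebra.IsInvariant.orbit_eq_primesOver (𝓞 F) (𝓞 L) (H89AB.HK F L) (Q.under (𝓞 F)) Q
      rw [← horb]
      exact ⟨ρ, rfl⟩
    have hρp := hmem.1
    have hρl := hmem.2
    have hρm := hover _ hmem
    have hv : ((ρ • Q).under (𝓞 K)).IsPrime := inferInstance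
    have hvl : ((ρ • Q).under (𝓞 K)).LiesOver (Q.under (𝓞 F)) :=
      Ideal.LiesOver.tower_bot (ρ • Q) ((ρ • Q).under (𝓞 K)) (Q.under (𝓞 F))
    have h3 := deg_mul (A := 𝓞 F) (B := 𝓞 K) (C := 𝓞 L) (G := H89AB.HK F L) H (Q.under (𝓞 F)) (ρ • Q)
      ((ρ • Q).under (𝓞 K)) (hun _ hmem)
    have hcs : Nat.card (stabilizer (H89AB.HK F L) (ρ • Q)) = Nat.card (stabilizer (H89AB.HK F L) Q) :=
      card_stab_smul (C := 𝓞 L) (G := H89AB.HK F L) ρ Q
    replace h3 := h3.trans hcs
    have hpos : 0 < Nat.card (stabilizer H (ρ • Q)) := Nat.card_pos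
    have h4 : ((ρ • Q).under (𝓞 K)).inertiaDeg (𝓞 F) =
        Function.minimalPeriod (act (g ^ k)) (act ((ρ : Gal(L/ℚ))⁻¹) σ₀) := by
      have h5 : ((ρ • Q).under (𝓞 K)).inertiaDeg ℤ =
          (Q.under (𝓞 F)).inertiaDeg ℤ * ((ρ • Q).under (𝓞 K)).inertiaDeg (𝓞 F) :=
        Ideal.inertiaDeg_tower (R := ℤ) (Q.under (𝓞 F)) ((ρ • Q).under (𝓞 K))
      have h6 : stabilizer Gal(L/ℚ) (ρ • Q) = Subgroup.zpowers ((ρ : Gal(L/ℚ)) * g * (ρ : Gal(L/ℚ))⁻¹) := by
        rw [hcoe, stabilizer_smul_eq_stabilizer_map_conj, hQE, MonoidHom.map_zpowers]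
        rfl
      have h7 : ((ρ • Q).under (𝓞 K)).inertiaDeg ℤ = Function.minimalPeriod
          (act ((ρ : Gal(L/ℚ)) * g * (ρ : Gal(L/ℚ))⁻¹)) σ₀ :=
        H89AB.deg_under hp hd _ hρm h6 σ₀ hσ₀
      have hρF : ∀ x : F, (act ((ρ : Gal(L/ℚ))⁻¹) σ₀) (algebraMap F K x) = τ x := by
        intro x
        show (ρ : Gal(L/ℚ))⁻¹ (σ₀ (algebraMap F K x)) = τ x
        rw [hσ₀F, ← hτ]
        have h8 := (H89AB.HK F L).inv_mem ρ.2
        rw [H89AB.mem_HK] at h8
        exact h8 x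
      rw [h7, period_conj, period_mul g τ _ hρF, hdegu, ← hk] at h5
      exact (Nat.eq_of_mul_eq_mul_left hkpos h5).symm
    rw [← h4]
    constructor
    · intro h5
      exact Nat.eq_of_mul_eq_mul_right hpos (h3.trans h5.symm)
    · intro h5
      rw [← h5]
      exact h3
  replace h1 := h1.trans (Nat.card_congr (Equiv.subtypeEquivRight h2))
  -- the fibres
  let Φ : H89AB.HK F L → Emb K τ := fun ρ => ⟨act ((ρ : Gal(L/ℚ))⁻¹) σ₀, by
    intro x
    show (ρ : Gal(L/ℚ))⁻¹ (σ₀ (algebraMap F K x)) = τ x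
    rw [hσ₀F, ← hτ]
    have h8 := (H89AB.HK F L).inv_mem ρ.2
    rw [H89AB.mem_HK] at h8
    exact h8 x⟩
  have hfib : ∀ σ : Emb K τ, Nat.card {ρ : H89AB.HK F L // Φ ρ = σ} = Nat.card H := by
    intro σ
    obtain ⟨ρ₁, hρ₁⟩ := exists_gal σ.1 σ₀
    have hρ₁F : ρ₁ ∈ H89AB.HK F L := by
      rw [H89AB.mem_HK]
      intro x
      have h5 : ρ₁ (σ.1 (algebraMap F K x)) = σ₀ (algebraMap F K x) := by
        rw [← hρ₁]
        rfl
      rw [σ.2, hσ₀F] at h5
      rw [hτ]
      exact h5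
    have hρ₁' : act ρ₁⁻¹ σ₀ = σ.1 := by
      rw [← hρ₁, ← act_mul, inv_mul_cancel, act_one]
    rw [hcardH]
    have hHK : ∀ ρ : Gal(L/ℚ), ρ ∈ H89AB.HK K L ↔ act ρ σ₀ = σ₀ := by
      intro ρ
      rw [H89AB.mem_HK, act_eq_iff]
      rfl
    refine Nat.card_congr
      { toFun := fun ρ => ⟨(ρ.1 : Gal(L/ℚ)) * ρ₁⁻¹, by
          rw [hHK, act_mul, hρ₁']
          have h5 : act ((ρ.1 : Gal(L/ℚ))⁻¹) σ₀ = σ.1 := congrArg Subtype.val ρ.2
          rw [← h5, ← act_mul, mul_inv_cancel, act_one]⟩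
        invFun := fun h => ⟨⟨(h.1 : Gal(L/ℚ)) * ρ₁, (H89AB.HK F L).mul_mem (hle h.2) hρ₁F⟩, by
          apply Subtype.ext
          show act (((h.1 : Gal(L/ℚ)) * ρ₁)⁻¹) σ₀ = σ.1
          rw [mul_inv_rev, act_mul]
          have h5 : act ((h.1 : Gal(L/ℚ))⁻¹) σ₀ = σ₀ := (hHK _).1 ((H89AB.HK K L).inv_mem h.2)
          rw [h5, hρ₁']⟩
        left_inv := fun ρ => by
          apply Subtype.ext
          apply Subtype.ext
          show (ρ.1 : Gal(L/ℚ)) * ρ₁⁻¹ * ρ₁ = ρ.1
          rw [inv_mul_cancel_right]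
        right_inv := fun h => by
          apply Subtype.ext
          show (h.1 : Gal(L/ℚ)) * ρ₁ * ρ₁⁻¹ = h.1
          rw [mul_inv_cancel_right] }
  have hfinEmb : Finite (Emb K τ) := inferInstance
  have h9 := card_const_fiber Φ (Nat.card H) hfib
    (fun σ => Function.minimalPeriod (act (g ^ k)) σ.1 = d)
  have h10 : Nat.card {ρ : H89AB.HK F L // Function.minimalPeriod (act (g ^ k)) (act ((ρ : Gal(L/ℚ))⁻¹) σ₀) = d} =
      Nat.card H * Nat.card {σ : Emb K τ // Function.minimalPeriod (act (g ^ k)) σ.1 = d} := h9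
  rw [h10, mul_assoc] at h1
  exact Nat.eq_of_mul_eq_mul_left Nat.card_pos h1

end rel

end Pool.Agent.H89.FrobD

end

section

/-!
# Clause (E), module Lift: a splitting of the cycle lengths gives an invariant colouring
-/

namespace H29FE

open Equiv Finset

/-- a decomposition of the multiset of the values of `len` comes from a labelling -/
theorem lab_of_sum {Q : Type*} [DecidableEq Q] {m : ℕ} (len : Q → ℕ) (S : Finset Q) :
    ∀ (A : Fin m → Multiset ℕ), S.val.map len = ∑ i, A i → 0 < m →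
      ∃ lab : Q → Fin m, ∀ i, (S.filter fun q => lab q = i).val.map len = A i := by
  classical
  induction S using Finset.induction_on with
  | empty =>
    intro A hA hm
    refine ⟨fun _ => ⟨0, hm⟩, fun i => ?_⟩
    have h1 : ∑ i, A i = 0 := hA.symm
    have h2 : A i ≤ ∑ i, A i := single_le_sum (f := A) (fun _ _ => Multiset.zero_le _) (mem_univ i)
    rw [h1] at h2
    rw [filter_empty]
    exact (Multiset.le_zero.1 h2).symm
  | insert q S hq ih =>
    intro A hA hm
    rw [insert_val_of_notMem hq, Multiset.map_cons] at hA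
    have h1 : len q ∈ ∑ i, A i := by rw [← hA]; exact Multiset.mem_cons_self _ _
    obtain ⟨i₀, -, hi₀⟩ := Multiset.mem_sum.1 h1
    obtain ⟨t, ht⟩ := Multiset.exists_cons_of_mem hi₀
    have h2 : ∑ i, A i = len q ::ₘ ∑ i, Function.update A i₀ t i := by
      rw [← add_sum_erase univ A (mem_univ i₀), ← add_sum_erase univ (Function.update A i₀ t) (mem_univ i₀),
        Function.update_self, ht, Multiset.cons_add]
      congr 2
      exact sum_congr rfl fun i hi => (Function.update_of_ne (ne_of_mem_erase hi) _ _).symm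
    rw [h2, Multiset.cons_inj_right] at hA
    obtain ⟨lab, hlab⟩ := ih _ hA hm
    refine ⟨Function.update lab q i₀, fun i => ?_⟩
    have h3 : S.filter (fun x => Function.update lab q i₀ x = i) = S.filter (fun x => lab x = i) := by
      refine filter_congr fun x hx => ?_
      have : x ≠ q := fun h => hq (h ▸ hx)
      rw [Function.update_of_ne this]
    rw [filter_insert, Function.update_self, h3]
    by_cases hi : i₀ = i
    · subst hi
      rw [if_pos rfl, insert_val_of_notMem (fun h => hq (mem_filter.1 h).1), Multiset.map_cons,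
        hlab i₀, Function.update_self, ht]
    · rw [if_neg hi, hlab i, Function.update_of_ne (Ne.symm hi)]

section

variable {n : ℕ} (g : Perm (Fin n))

/-- the orbit of `x` has as many elements as the period of `x` -/
theorem card_same (x : Fin n) [DecidablePred fun y => g.SameCycle x y] :
    (univ.filter fun y => g.SameCycle x y).card = Function.minimalPeriod g x := by
  classical
  by_cases hx : g x = x
  · have h1 : Function.minimalPeriod g x = 1 := Function.minimalPeriod_eq_one_iff_isFixedPt.2 hx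
    rw [h1, card_eq_one]
    refine ⟨x, ext fun y => ?_⟩
    rw [mem_filter, mem_singleton]
    constructor
    · rintro ⟨-, k, hk⟩
      rw [← hk]
      exact Perm.zpow_apply_eq_self_of_apply_eq_self hx k
    · rintro rfl
      exact ⟨mem_univ _, Perm.SameCycle.refl g y⟩
  · rw [Pool.Agent.H89.FrobD.minimalPeriod_eq_card g hx]
    congr 1
    ext y
    rw [mem_filter, Perm.mem_support_cycleOf_iff]
    exact ⟨fun h => ⟨h.2, Perm.mem_support.2 hx⟩, fun h => ⟨mem_univ _, h.1⟩⟩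

open Classical in
/-- the number of elements of an orbit -/
noncomputable def len (q : Quotient (Perm.SameCycle.setoid g)) : ℕ :=
  (univ.filter fun y : Fin n => (Quotient.mk (Perm.SameCycle.setoid g) y) = q).card

theorem len_mk (x : Fin n) : len g (Quotient.mk (Perm.SameCycle.setoid g) x) =
    Function.minimalPeriod g x := by
  classical
  rw [← card_same g x, len]
  congr 1
  ext y
  rw [mem_filter, mem_filter]
  constructor
  · rintro ⟨-, h⟩
    exact ⟨mem_univ _, (Quotient.exact h : g.SameCycle y x).symm⟩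
  · rintro ⟨-, h⟩
    exact ⟨mem_univ _, Quotient.sound (s := Perm.SameCycle.setoid g) (show g.SameCycle y x from h.symm)⟩

noncomputable instance : Fintype (Quotient (Perm.SameCycle.setoid g)) := Fintype.ofFinite _

theorem parts_eq : g.partition.parts = (univ : Finset (Quotient (Perm.SameCycle.setoid g))).val.map (len g) := by
  classical
  refine Multiset.ext.2 fun d => ?_
  rcases Nat.eq_zero_or_pos d with rfl | hd
  · rw [Multiset.count_eq_zero_of_notMem fun h => absurd (g.partition.parts_pos h) (lt_irrefl 0),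
      Multiset.count_eq_zero_of_notMem]
    intro h
    obtain ⟨q, -, hq⟩ := Multiset.mem_map.1 h
    induction q using Quotient.inductionOn' with
    | h x =>
      have h1 : len g (Quotient.mk (Perm.SameCycle.setoid g) x) = 0 := hq
      rw [len_mk] at h1
      exact absurd h1 (Function.minimalPeriod_pos_of_mem_periodicPts
        (g.injective.mem_periodicPts x)).ne'
  · refine Nat.eq_of_mul_eq_mul_left hd ?_
    rw [Pool.Agent.H89.FrobD.perm_count _ d hd, Multiset.count_map]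
    have h1 : (Multiset.filter (fun a => d = len g a)
        (univ : Finset (Quotient (Perm.SameCycle.setoid g))).val).card =
        (univ.filter fun a => len g a = d).card := by
      rw [card_def, filter_val]
      congr 2
      funext a
      exact propext eq_comm
    rw [h1]
    have h2 : (univ.filter fun x => Function.minimalPeriod g x = d).card =
        ∑ q ∈ univ.filter (fun a => len g a = d), len g q := by
      rw [card_eq_sum_card_fiberwise (f := fun x => Quotient.mk (Perm.SameCycle.setoid g) x)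
        (t := univ.filter (fun a => len g a = d))]
      · refine sum_congr rfl fun q hq => ?_
        rw [len, filter_filter]
        congr 1
        ext x
        simp only [mem_filter, mem_univ, true_and]
        constructor
        · rintro ⟨-, h⟩
          exact h
        · intro h
          refine ⟨?_, h⟩
          rw [← len_mk, h]
          exact (mem_filter.1 hq).2
      · intro x hx
        have hx' := (mem_filter.1 (mem_coe.1 hx)).2
        rw [mem_coe, mem_filter]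
        exact ⟨mem_univ _, by rw [len_mk]; exact hx'⟩
    rw [h2, sum_congr rfl fun q hq => (mem_filter.1 hq).2, sum_const, smul_eq_mul, mul_comm]

/-- an invariant colouring from a decomposition of the cycle lengths -/
theorem colour_of_sum {m : ℕ} (hm : 0 < m) (A : Fin m → Multiset ℕ)
    (hA : g.partition.parts = ∑ i, A i) :
    ∃ c : Fin n → Fin m, Inv g c ∧ ∀ i, (univ.filter fun x => c x = i).card = (A i).sum := by
  classical
  rw [parts_eq] at hA
  obtain ⟨lab, hlab⟩ := lab_of_sum (len g) univ A hA hm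
  refine ⟨fun x => lab (Quotient.mk (Perm.SameCycle.setoid g) x), fun x => ?_, fun i => ?_⟩
  · exact congrArg lab (Quotient.sound (s := Perm.SameCycle.setoid g) (show g.SameCycle (g x) x from
      (Perm.sameCycle_apply_left).2 (Perm.SameCycle.refl g x)))
  · rw [← hlab i, card_eq_sum_card_fiberwise (f := fun x => Quotient.mk (Perm.SameCycle.setoid g) x)
        (t := univ.filter (fun q => lab q = i))]
    · show _ = ∑ q ∈ univ.filter (fun q => lab q = i), len g q
      refine sum_congr rfl fun q hq => ?_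
      rw [len, filter_filter]
      congr 1
      ext x
      simp only [mem_filter, mem_univ, true_and]
      constructor
      · rintro ⟨-, h⟩
        exact h
      · intro h
        refine ⟨?_, h⟩
        rw [h]
        exact (mem_filter.1 hq).2
    · intro x hx
      rw [mem_coe, mem_filter]
      exact ⟨mem_univ _, (mem_filter.1 (mem_coe.1 hx)).2⟩

theorem lift1 (h : H85FD.SplitsN 1 g.partition.parts) :
    ∃ (a b : ℕ) (c : Fin n → Fin 5), 3 * a + 2 * b = n ∧ Inv g c ∧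
      ∀ i, (univ.filter fun x => c x = i).card = (![a, a, a, b, b] : Fin 5 → ℕ) i := by
  obtain ⟨A, B, C, hM, ⟨A', rfl, hA⟩, ⟨B', rfl, hB⟩, -, -, hC⟩ := h
  rw [hC (by norm_num), add_zero] at hM
  have h1 : g.partition.parts = ∑ i, (![A' 0, A' 1, A' 2, B' 0, B' 1] : Fin 5 → Multiset ℕ) i := by
    rw [hM, Fin.sum_univ_three, Fin.sum_univ_two, Fin.sum_univ_five]
    show _ = A' 0 + A' 1 + A' 2 + B' 0 + B' 1
    abel
  obtain ⟨c, hc, hcard⟩ := colour_of_sum g (by norm_num) _ h1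
  have hA' : ∀ i, (A' i).sum = (A' 0).sum := fun i => by simpa using hA i 0
  have hB' : ∀ i, (B' i).sum = (B' 0).sum := fun i => by simpa using hB i 0
  refine ⟨(A' 0).sum, (B' 0).sum, c, ?_, hc, fun i => ?_⟩
  · have h2 := g.partition.parts_sum
    rw [h1, Fin.sum_univ_five, Fintype.card_fin] at h2
    have h3 : (A' 0 + A' 1 + A' 2 + B' 0 + B' 1).sum = n := h2
    rw [Multiset.sum_add, Multiset.sum_add, Multiset.sum_add, Multiset.sum_add, hA' 1, hA' 2, hB' 1] at h3
    omega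
  · rw [hcard i]
    fin_cases i
    · rfl
    · exact hA' 1
    · exact hA' 2
    · rfl
    · exact hB' 1

theorem lift2 (h : H85FD.SplitsN 2 g.partition.parts) {k : ℕ}
    (hk : k ∈ g.partition.parts) (h2 : ¬ 2 ∣ k) (h3 : ¬ 3 ∣ k) :
    ∃ (a : ℕ) (c : Fin n → Fin 4), k ≤ a ∧ 3 * a ≤ n ∧ Inv g c ∧
      ∀ i, (univ.filter fun x => c x = i).card = (![a, a, a, n - 3 * a] : Fin 4 → ℕ) i := by
  obtain ⟨A, B, C, hM, ⟨A', rfl, hA⟩, -, hB, hC, -⟩ := h
  have h1 : g.partition.parts = ∑ i, (![A' 0, A' 1, A' 2, B + C] : Fin 4 → Multiset ℕ) i := by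
    rw [hM, Fin.sum_univ_three, Fin.sum_univ_four]
    show _ = A' 0 + A' 1 + A' 2 + (B + C)
    abel
  obtain ⟨c, hc, hcard⟩ := colour_of_sum g (by norm_num) _ h1
  have hA' : ∀ i, (A' i).sum = (A' 0).sum := fun i => by simpa using hA i 0
  have h4 : 3 * (A' 0).sum + (B + C).sum = n := by
    have h2 := g.partition.parts_sum
    rw [h1, Fin.sum_univ_four, Fintype.card_fin] at h2
    have h3 : (A' 0 + A' 1 + A' 2 + (B + C)).sum = n := h2
    rw [Multiset.sum_add, Multiset.sum_add, Multiset.sum_add, hA' 1, hA' 2] at h3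
    omega
  refine ⟨(A' 0).sum, c, ?_, by omega, hc, fun i => ?_⟩
  · rw [hM, Multiset.mem_add, Multiset.mem_add] at hk
    rcases hk with (hk | hk) | hk
    · obtain ⟨i, -, hi⟩ := Multiset.mem_sum.1 hk
      rw [← hA' i]
      exact Multiset.single_le_sum (fun _ _ => Nat.zero_le _) k hi
    · exact absurd (hB rfl k hk) h3
    · exact absurd (hC k hk).two_dvd h2
  · rw [hcard i]
    fin_cases i
    · rfl
    · exact hA' 1
    · exact hA' 2
    · show (B + C).sum = n - 3 * (A' 0).sum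
      omega

end

end H29FE

end

section

/-!
# Clause (E), module Few: few permutations have cycle lengths which split
-/

namespace H29FE

open Equiv Finset Filter Topology

/-- few permutations of `Fin n` split -/
theorem few_fin {δ : ℝ} (hδ : 0 < δ) : ∃ n₀ : ℕ, ∀ n : ℕ, n₀ ≤ n →
    (Nat.card {g : Perm (Fin n) // H85FD.SplitsN 1 g.partition.parts ∨
      H85FD.SplitsN 2 g.partition.parts} : ℝ) ≤ δ * n.factorial := by
  classical
  have hδ4 : 0 < δ / 4 := by positivity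
  obtain ⟨l1, H1⟩ := lim_orbits hδ4
  obtain ⟨l2, H2⟩ := lim_one hδ4
  obtain ⟨l3, H3⟩ := lim_two hδ4
  obtain ⟨l4, H4⟩ := lim_three (4 / δ)
  refine ⟨2 ^ (max (max l1 l2) (max l3 l4)), fun n hn => ?_⟩
  have hn0 : n ≠ 0 := by
    have : 1 ≤ 2 ^ (max (max l1 l2) (max l3 l4)) := Nat.one_le_two_pow
    omega
  set l := Nat.log 2 n with hl
  have hl1 : max (max l1 l2) (max l3 l4) ≤ l := Nat.le_log_of_pow_le (by norm_num) hn
  have hn1 : 2 ^ l ≤ n := Nat.pow_log_le_self 2 hn0
  have hn2 : n < 2 ^ (l + 1) := Nat.lt_pow_succ_log_self (by norm_num) n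
  have b1 := H1 l n (le_trans (le_trans (le_max_left _ _) (le_max_left _ _)) hl1) hn2
  have b2 := H2 l n (le_trans (le_trans (le_max_right _ _) (le_max_left _ _)) hl1) hn1 hn2
  have b3 := H3 l n (le_trans (le_trans (le_max_left _ _) (le_max_right _ _)) hl1) hn1 hn2
  have b4 := H4 l n (le_trans (le_trans (le_max_right _ _) (le_max_right _ _)) hl1) hn1
  set T := 7 * l / 8 with hT
  set m := 2 ^ (4 * l / 5) with hm
  have hf : (0 : ℝ) < n.factorial := by exact_mod_cast Nat.factorial_pos n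
  -- the four sets
  set A1 : Finset (Perm (Fin n)) := univ.filter fun g => T < orb g with hA1
  set A2 : Finset (Perm (Fin n)) := univ.filter fun g =>
    orb g ≤ T ∧ H85FD.SplitsN 1 g.partition.parts with hA2
  set A3 : Finset (Perm (Fin n)) := univ.filter fun g => orb g ≤ T ∧
    (H85FD.SplitsN 2 g.partition.parts ∧ ∃ k ∈ g.partition.parts, m ≤ k ∧ ¬ 2 ∣ k ∧ ¬ 3 ∣ k) with hA3
  set A4 : Finset (Perm (Fin n)) := univ.filter fun g =>
    ∀ k ∈ g.partition.parts, m ≤ k → (2 ∣ k ∨ 3 ∣ k) with hA4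
  have c1 : (A1.card : ℝ) ≤ δ / 4 * n.factorial := by
    have h := many_orbits n T A1 (fun g hg => (mem_filter.1 hg).2)
    have h1 : (0 : ℝ) < (3 / 2) ^ (T + 1) := by positivity
    refine le_of_mul_le_mul_right (h.trans ?_) h1
    calc (n.factorial : ℝ) * Real.sqrt (2 * n + 1) ≤ n.factorial * (δ / 4 * (3 / 2) ^ (T + 1)) :=
          mul_le_mul_of_nonneg_left b1 hf.le
      _ = δ / 4 * n.factorial * (3 / 2) ^ (T + 1) := by ring
  have c2 : (A2.card : ℝ) ≤ δ / 4 * n.factorial := by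
    refine (count1 n T (by omega) A2 (fun g hg => ?_)).trans ?_
    · obtain ⟨h1, h2⟩ := (mem_filter.1 hg).2
      exact ⟨h1, lift1 g h2⟩
    · rw [mul_comm]
      exact mul_le_mul_of_nonneg_right b2 hf.le
  have c3 : (A3.card : ℝ) ≤ δ / 4 * n.factorial := by
    refine (count2 n T m (by omega) A3 (fun g hg => ?_)).trans ?_
    · obtain ⟨h1, h2, k, hk, h3, h4, h5⟩ := (mem_filter.1 hg).2
      obtain ⟨a, c, h6, h7, h8⟩ := lift2 g h2 hk h4 h5
      exact ⟨h1, a, c, h3.trans h6, h7, h8⟩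
    · rw [mul_comm]
      exact mul_le_mul_of_nonneg_right b3 hf.le
  have c4 : (A4.card : ℝ) ≤ δ / 4 * n.factorial := by
    have h := Pool.Agent.H89.FE.no_long n m Nat.one_le_two_pow
    rw [Nat.card_eq_fintype_card, Fintype.card_subtype] at h
    have h1 : (A4.card : ℝ) * (4 / δ) ≤ n.factorial :=
      (mul_le_mul_of_nonneg_left b4 (Nat.cast_nonneg _)).trans h
    rw [mul_div_assoc', div_le_iff₀ hδ] at h1
    linarith
  have hsub : (univ.filter fun g : Perm (Fin n) => H85FD.SplitsN 1 g.partition.parts ∨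
      H85FD.SplitsN 2 g.partition.parts) ⊆ A1 ∪ (A2 ∪ (A3 ∪ A4)) := by
    intro g hg
    have hg' := (mem_filter.1 hg).2
    rw [mem_union, mem_union, mem_union]
    rcases lt_or_ge T (orb g) with h1 | h1
    · exact Or.inl (mem_filter.2 ⟨mem_univ _, h1⟩)
    rcases hg' with h2 | h2
    · exact Or.inr (Or.inl (mem_filter.2 ⟨mem_univ _, h1, h2⟩))
    by_cases h3 : ∀ k ∈ g.partition.parts, m ≤ k → (2 ∣ k ∨ 3 ∣ k)
    · exact Or.inr (Or.inr (Or.inr (mem_filter.2 ⟨mem_univ _, h3⟩)))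
    · push Not at h3
      exact Or.inr (Or.inr (Or.inl (mem_filter.2 ⟨mem_univ _, h1, h2, h3⟩)))
  rw [Nat.card_eq_fintype_card, Fintype.card_subtype]
  have hc : ((univ.filter fun g : Perm (Fin n) => H85FD.SplitsN 1 g.partition.parts ∨
      H85FD.SplitsN 2 g.partition.parts).card : ℝ) ≤ A1.card + (A2.card + (A3.card + A4.card)) := by
    have h1 := (card_le_card hsub).trans ((card_union_le _ _).trans (Nat.add_le_add_left
      ((card_union_le _ _).trans (Nat.add_le_add_left (card_union_le _ _) _)) _))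
    exact_mod_cast h1
  linarith

end H29FE

end

section

/-!
# Clause (E), module Gen: few permutations of a finite type have cycle lengths which split
-/

namespace H29FE

open Equiv Finset

theorem period_permCongr {α β : Type*} (e : α ≃ β) (g : Perm α) (x : α) :
    Function.minimalPeriod (e.permCongr g) (e x) = Function.minimalPeriod g x := by
  rw [Function.minimalPeriod_eq_minimalPeriod_iff]
  intro n
  have h : ∀ (n : ℕ) (y : α), (e.permCongr g)^[n] (e y) = e (g^[n] y) := by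
    intro n
    induction n with
    | zero => intro y; rfl
    | succ n ih =>
      intro y
      rw [Function.iterate_succ_apply, Function.iterate_succ_apply]
      have : (e.permCongr g) (e y) = e (g y) := by simp
      rw [this, ih]
  rw [Function.IsPeriodicPt, Function.IsFixedPt, Function.IsPeriodicPt, Function.IsFixedPt, h]
  exact e.apply_eq_iff_eq

theorem parts_permCongr {α β : Type*} [Fintype α] [DecidableEq α] [Fintype β] [DecidableEq β]
    (e : α ≃ β) (g : Perm α) : (e.permCongr g).partition.parts = g.partition.parts := by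
  refine Multiset.ext.2 fun d => ?_
  rcases Nat.eq_zero_or_pos d with rfl | hd
  · rw [Multiset.count_eq_zero_of_notMem fun h => absurd ((e.permCongr g).partition.parts_pos h)
      (lt_irrefl 0), Multiset.count_eq_zero_of_notMem fun h => absurd (g.partition.parts_pos h)
      (lt_irrefl 0)]
  · refine Nat.eq_of_mul_eq_mul_left hd ?_
    rw [Pool.Agent.H89.FrobD.perm_count _ d hd, Pool.Agent.H89.FrobD.perm_count _ d hd]
    symm
    refine card_bij (fun x _ => e x) (fun x hx => ?_) (fun x _ y _ h => e.injective h) fun y hy => ?_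
    · rw [mem_filter] at hx ⊢
      exact ⟨mem_univ _, by rw [period_permCongr]; exact hx.2⟩
    · refine ⟨e.symm y, ?_, e.apply_symm_apply y⟩
      rw [mem_filter] at hy ⊢
      refine ⟨mem_univ _, ?_⟩
      rw [← period_permCongr e, e.apply_symm_apply]
      exact hy.2

/-- few permutations have cycle lengths which split -/
theorem few_split {δ : ℝ} (hδ : 0 < δ) : ∃ d₀ : ℕ, ∀ (α : Type) [Fintype α] [DecidableEq α],
    d₀ ≤ Fintype.card α →
    (Nat.card {g : Perm α // H85FD.SplitsN 1 g.partition.parts ∨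
      H85FD.SplitsN 2 g.partition.parts} : ℝ) ≤ δ * (Fintype.card α).factorial := by
  obtain ⟨n₀, h⟩ := few_fin hδ
  refine ⟨n₀, fun α _ _ hα => ?_⟩
  have e : α ≃ Fin (Fintype.card α) := Fintype.equivFin α
  have h1 := h (Fintype.card α) hα
  rwa [← Nat.card_congr (Equiv.subtypeEquiv (p := fun g : Perm α =>
    H85FD.SplitsN 1 g.partition.parts ∨ H85FD.SplitsN 2 g.partition.parts) e.permCongr
    (fun g => by rw [parts_permCongr]))] at h1

end H29FE

end

section

/-!
# The splitting type of a prime is the cycle type of its Frobenius: final forms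

* `pow_mod_three_iff`: `p ^ n ≡ 1` modulo `3` if and only if the `n`-th power of the Frobenius fixes `ω`;
* `abs_part`: the residue degrees of the primes of `K` above `p` are the parts of the cycle type of the Frobenius on
  the embeddings of `K`;
* `rel_part`: the relative version.
-/

set_option autoImplicit false
set_option linter.unusedSectionVars false

open scoped Pointwise NumberField
open MulAction Ideal Finset Filter NumberField IsDedekindDomain

namespace Pool.Agent.H89.FrobD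

variable {L : Type} [Field L] [NumberField L] [IsGalois ℚ L]

theorem pow_mod_three_conv {p : ℕ} (hp : p.Prime) (hp3 : 3 < p) (hd : ¬ (p : ℤ) ∣ NumberField.discr L)
    (g : Gal(L/ℚ)) (hE : (setE L (Subgroup.zpowers g) p).Nonempty) (n : ℕ) (w : L) (hw : w ^ 2 + w + 1 = 0)
    (hn : p ^ n % 3 = 1) : (g ^ n) w = w := by
  have : Fact p.Prime := ⟨hp⟩
  obtain ⟨φ, τ, hτ, hφ⟩ := exists_frob L hd (AlgebraicClosure (ZMod p)) (Subgroup.zpowers g) hE
  have hint : IsIntegral ℤ w := by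
    refine ⟨Polynomial.X ^ 2 + Polynomial.X + 1, ?_, ?_⟩
    · have : (Polynomial.X ^ 2 + Polynomial.X + 1 : Polynomial ℤ) =
          Polynomial.X ^ 2 + (Polynomial.X + 1) := by ring
      rw [this]
      refine Polynomial.monic_X_pow_add ?_
      have h1 : (Polynomial.X + 1 : Polynomial ℤ).degree = 1 := by
        have := Polynomial.degree_X_add_C (1 : ℤ)
        simpa using this
      rw [h1]
      norm_num
    · simpa using hw
  set W : 𝓞 L := ⟨w, hint⟩ with hW
  have hWe : W ^ 2 + W + 1 = 0 := by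
    apply NumberField.RingOfIntegers.ext
    push_cast
    exact hw
  have h4 : φ W ^ 2 + φ W + 1 = 0 := by
    have := congrArg φ hWe
    simpa using this
  have hne3 : (3 : AlgebraicClosure (ZMod p)) ≠ 0 := by
    intro h
    have h5 : ((3 : ℕ) : AlgebraicClosure (ZMod p)) = 0 := by exact_mod_cast h
    rw [CharP.cast_eq_zero_iff (AlgebraicClosure (ZMod p)) p] at h5
    have := Nat.le_of_dvd (by norm_num) h5
    omega
  have hu3 : φ W ^ 3 = 1 := by
    have : φ W ^ 3 - 1 = (φ W - 1) * (φ W ^ 2 + φ W + 1) := by ring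
    rw [h4, mul_zero] at this
    exact sub_eq_zero.1 this
  have hu1 : φ W ≠ 1 := by
    intro h
    rw [h] at h4
    exact hne3 (by linear_combination h4)
  have hu0 : φ W ≠ 0 := by
    intro h
    rw [h] at h4
    simp at h4
  have hpow : ∀ (k : ℕ) (x : 𝓞 L), φ (τ ^ k • x) = φ x ^ p ^ k := by
    intro k
    induction k with
    | zero => intro x; simp
    | succ k ih =>
      intro x
      have h5 : τ ^ (k + 1) • x = τ ^ k • (τ • x) := by rw [pow_succ, mul_smul]
      rw [h5, ih, hφ, ← pow_mul, ← pow_succ']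
  have h5 : φ (τ ^ n • W) = φ W := by
    rw [hpow]
    have h6 := Nat.div_add_mod (p ^ n) 3
    rw [hn] at h6
    rw [← h6, pow_succ, pow_mul, hu3, one_pow, one_mul]
  have hτe : (τ ^ n • W) ^ 2 + τ ^ n • W + 1 = 0 := by
    have := congrArg (fun x : 𝓞 L => τ ^ n • x) hWe
    simpa [smul_add, smul_pow'] using this
  have hfix : τ ^ n • W = W := by
    have h1 : (τ ^ n • W - W) * (τ ^ n • W + W + 1) = 0 := by linear_combination hτe - hWe
    rcases mul_eq_zero.1 h1 with h | h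
    · exact sub_eq_zero.1 h
    · exfalso
      have h6 := congrArg φ h
      rw [map_add, map_add, map_one, map_zero, h5] at h6
      -- 2 W + 1 = 0 and W ^ 2 + W + 1 = 0
      have h7 : (3 : AlgebraicClosure (ZMod p)) = 0 := by linear_combination 4 * h4 - (2 * φ W + 1) * h6
      exact hne3 h7
  have h6 : g ∈ Subgroup.zpowers τ := by
    rw [hτ]
    exact Subgroup.mem_zpowers g
  obtain ⟨k, hk⟩ := Subgroup.mem_zpowers_iff.1 h6
  have h7 : g ^ n ∈ Subgroup.zpowers (τ ^ n) := by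
    rw [Subgroup.mem_zpowers_iff]
    refine ⟨k, ?_⟩
    rw [← hk, ← zpow_natCast, ← zpow_natCast, ← zpow_mul, ← zpow_mul, mul_comm]
  have h8 : Subgroup.zpowers (τ ^ n) ≤ stabilizer Gal(L/ℚ) W := by
    rw [Subgroup.zpowers_le, MulAction.mem_stabilizer_iff]
    exact hfix
  have h9 := h8 h7
  rw [MulAction.mem_stabilizer_iff] at h9
  exact congrArg (fun x : 𝓞 L => (x : L)) h9

/-- `p ^ n` modulo three -/
theorem pow_mod_three_iff {p : ℕ} (hp : p.Prime) (hp3 : 3 < p) (hd : ¬ (p : ℤ) ∣ NumberField.discr L)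
    (g : Gal(L/ℚ)) (hE : (setE L (Subgroup.zpowers g) p).Nonempty) (n : ℕ) (w : L) (hw : w ^ 2 + w + 1 = 0) :
    p ^ n % 3 = 1 ↔ (g ^ n) w = w :=
  ⟨pow_mod_three_conv hp hp3 hd g hE n w hw, H89AB.pow_mod_three hp hp3 hd g hE n w hw⟩

theorem pow_mod_three_ne {p : ℕ} (hp : p.Prime) (hp3 : 3 < p) (n : ℕ) (h : p ^ n % 3 ≠ 1) : p ^ n % 3 = 2 := by
  have h3 : ¬ 3 ∣ p ^ n := by
    intro h
    have h1 := Nat.Prime.dvd_of_dvd_pow Nat.prime_three h
    have := (Nat.prime_dvd_prime_iff_eq Nat.prime_three hp).1 h1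
    omega
  omega

/-- a multiset of positive numbers from its counts -/
theorem multiset_eq_of_mul {s t : Multiset ℕ} (hs : ∀ d ∈ s, 0 < d) (ht : ∀ d ∈ t, 0 < d)
    (h : ∀ d : ℕ, 0 < d → d * s.count d = d * t.count d) : s = t := by
  ext d
  rcases Nat.eq_zero_or_pos d with h0 | h0
  · subst h0
    rw [Multiset.count_eq_zero.2 fun h => absurd (hs 0 h) (lt_irrefl 0),
      Multiset.count_eq_zero.2 fun h => absurd (ht 0 h) (lt_irrefl 0)]
  · exact Nat.eq_of_mul_eq_mul_left h0 (h d h0)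

/-- minimal periods of a permutation of a set of embeddings -/
theorem period_perm {K : Type*} [Field K] [NumberField K] {P : (K →ₐ[ℚ] L) → Prop} (h : Gal(L/ℚ))
    (π : Equiv.Perm {σ : K →ₐ[ℚ] L // P σ}) (hπ : ∀ σ, (π σ).1 = act h σ.1) (σ : {σ : K →ₐ[ℚ] L // P σ}) :
    Function.minimalPeriod π σ = Function.minimalPeriod (act h) σ.1 := by
  have hit : ∀ (n : ℕ) (σ : {σ : K →ₐ[ℚ] L // P σ}), (π^[n] σ).1 = (act h)^[n] σ.1 := by
    intro n
    induction n with
    | zero => intro σ; rfl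
    | succ n ih =>
      intro σ
      rw [Function.iterate_succ_apply, Function.iterate_succ_apply, ih, hπ]
  rw [Function.minimalPeriod_eq_minimalPeriod_iff]
  intro n
  rw [Function.IsPeriodicPt, Function.IsPeriodicPt, Function.IsFixedPt, Function.IsFixedPt, ← hit]
  constructor
  · intro h
    rw [h]
  · intro h
    exact Subtype.ext h

section abs

end abs

section rel

theorem card_pos_deg {F K : Type} [Field F] [NumberField F] [Field K] [NumberField K] [Algebra F K]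
    (u : Ideal (𝓞 F)) [u.IsMaximal] (v : Ideal (𝓞 K)) [v.IsPrime] [v.LiesOver u] (hu : u ≠ ⊥) :
    0 < v.inertiaDeg (𝓞 F) := by
  have hv : v ≠ ⊥ := by
    intro h
    apply hu
    rw [Ideal.LiesOver.over (P := v) (p := u), h, Ideal.under_bot]
  have : v.IsMaximal := Ideal.IsPrime.isMaximal inferInstance hv
  exact Ideal.inertiaDeg_pos _ _

/-- THE RESIDUE DEGREES ABOVE `u` ARE THE PARTS OF THE CYCLE TYPE -/
theorem rel_part {F K : Type} [Field F] [NumberField F] [Field K] [NumberField K] [Algebra F K]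
    {p : ℕ} (hp : p.Prime) (hd : ¬ (p : ℤ) ∣ NumberField.discr L) (g : Gal(L/ℚ))
    (hE : (setE L (Subgroup.zpowers g) p).Nonempty)
    (σ₁ : K →ₐ[ℚ] L) (τ : F →ₐ[ℚ] L) [Fintype (Emb K τ)] [DecidableEq (Emb K τ)]
    (π : Equiv.Perm (Emb K τ))
    (hπ : ∀ σ, (π σ).1 = act (g ^ Function.minimalPeriod (act g) τ) σ.1) :
    ∃ u : HeightOneSpectrum (𝓞 F), (p : 𝓞 F) ∈ u.asIdeal ∧
      Nat.card (𝓞 F ⧸ u.asIdeal) = p ^ Function.minimalPeriod (act g) τ ∧
      ∀ S : Finset (HeightOneSpectrum (𝓞 K)), (∀ v, v ∈ S ↔ v.asIdeal.LiesOver u.asIdeal) →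
        S.val.map (fun v => (v.asIdeal.ramificationIdx (𝓞 F) * v.asIdeal.inertiaDeg (𝓞 F),
          v.asIdeal.inertiaDeg (𝓞 F))) = π.partition.parts.map (fun m => (m, m)) := by
  classical
  -- an embedding over `τ`
  obtain ⟨ρ, hρ⟩ := exists_gal ((σ₁.comp (IsScalarTower.toAlgHom ℚ F K) : F →ₐ[ℚ] L)) τ
  let σ₀ : K →ₐ[ℚ] L := act ρ σ₁
  have hσ₀ : ∀ x : F, σ₀ (algebraMap F K x) = τ x := by
    intro x
    rw [← hρ]
    rfl
  let _ : Algebra K L := σ₀.toRingHom.toAlgebra
  let _ : Algebra F L := τ.toRingHom.toAlgebra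
  have hst : IsScalarTower F K L := by
    refine IsScalarTower.of_algebraMap_eq fun x => ?_
    exact (hσ₀ x).symm
  obtain ⟨Q, hQ, hQE⟩ := hE
  have hQp := hQ.1
  have hQl := hQ.2
  have hpZ := pZ_prime hp
  have hpM := pZ_max hp
  have hub : Q.under (𝓞 F) ≠ ⊥ := H89AB.under_ne_bot hp hQ
  have hu : (Q.under (𝓞 F)).IsPrime := inferInstance
  have hum : (Q.under (𝓞 F)).IsMaximal := hu.isMaximal hub
  have hmem : (p : 𝓞 F) ∈ Q.under (𝓞 F) := H89AB.mem_under (K := F) hQ
  refine ⟨⟨Q.under (𝓞 F), hu, hub⟩, hmem, ?_, ?_⟩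
  · have h1 := H89AB.card_quot hp (Q.under (𝓞 F)) hmem
    rw [H89AB.deg_under hp hd g hQ hQE τ (fun x => rfl)] at h1
    exact h1
  · intro S hS
    have hB : ((Q.under (𝓞 F)).primesOver (𝓞 K)).Finite :=
      IsDedekindDomain.primesOver_finite (Q.under (𝓞 F)) (𝓞 K)
    have he : ∀ v : HeightOneSpectrum (𝓞 K), v ∈ S → v.asIdeal.ramificationIdx (𝓞 F) = 1 := by
      intro v hv
      have hvl : v.asIdeal.LiesOver (Q.under (𝓞 F)) := (hS v).1 hv
      have hvp := v.isPrime
      obtain ⟨P, hP, hPv⟩ := (inferInstance : Nonempty (v.asIdeal.primesOver (𝓞 L)))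
      have hup : (Q.under (𝓞 F)).LiesOver (pZ p) := Ideal.LiesOver.tower_bot Q (Q.under (𝓞 F)) (pZ p)
      have hvpZ : v.asIdeal.LiesOver (pZ p) := Ideal.LiesOver.trans v.asIdeal (Q.under (𝓞 F)) (pZ p)
      have hPp : P.LiesOver (pZ p) := Ideal.LiesOver.trans P v.asIdeal (pZ p)
      have h1 := ram_one hp hd P ⟨hP, hPp⟩
      have h2 : P.ramificationIdx ℤ = v.asIdeal.ramificationIdx ℤ * P.ramificationIdx (𝓞 K) :=
        Ideal.ramificationIdx_tower (R := ℤ) v.asIdeal P
      have h3 : v.asIdeal.ramificationIdx ℤ = (Q.under (𝓞 F)).ramificationIdx ℤ * v.asIdeal.ramificationIdx (𝓞 F) :=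
        Ideal.ramificationIdx_tower (R := ℤ) (Q.under (𝓞 F)) v.asIdeal
      rw [h1] at h2
      have h4 := Nat.eq_one_of_mul_eq_one_right h2.symm
      rw [h4] at h3
      exact Nat.eq_one_of_mul_eq_one_left h3.symm
    have h1 : S.val.map (fun v => (v.asIdeal.ramificationIdx (𝓞 F) * v.asIdeal.inertiaDeg (𝓞 F),
          v.asIdeal.inertiaDeg (𝓞 F))) =
        (S.val.map (fun v => v.asIdeal.inertiaDeg (𝓞 F))).map (fun m => (m, m)) := by
      rw [Multiset.map_map]
      refine Multiset.map_congr rfl fun v hv => ?_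
      rw [he v hv, one_mul]
      rfl
    rw [h1]
    congr 1
    refine multiset_eq_of_mul ?_ (fun d hd => π.partition.parts_pos hd) ?_
    · intro d hd
      obtain ⟨v, hv, rfl⟩ := Multiset.mem_map.1 hd
      have hvl : v.asIdeal.LiesOver (Q.under (𝓞 F)) := (hS v).1 hv
      have hvp := v.isPrime
      exact card_pos_deg (Q.under (𝓞 F)) v.asIdeal hub
    · intro d hd0
      rw [perm_count π d hd0]
      have h2 := count_rel hp hd g Q hQ hQE τ (fun x => rfl) hB d
      have h3 : (hB.toFinset.filter (fun v => v.inertiaDeg (𝓞 F) = d)).card =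
          (S.val.map (fun v => v.asIdeal.inertiaDeg (𝓞 F))).count d := by
        rw [Multiset.count_map, ← Finset.filter_val, Finset.card_val]
        symm
        refine Finset.card_bij (fun v _ => v.asIdeal) ?_ ?_ ?_
        · intro v hv
          obtain ⟨hv1, hv2⟩ := mem_filter.1 hv
          have hvl : v.asIdeal.LiesOver (Q.under (𝓞 F)) := (hS v).1 hv1
          refine mem_filter.2 ⟨?_, hv2.symm⟩
          rw [Set.Finite.mem_toFinset]
          exact ⟨v.isPrime, hvl⟩
        · intro a _ b _ h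
          exact HeightOneSpectrum.ext h
        · intro v hv
          obtain ⟨hv1, hv2⟩ := mem_filter.1 hv
          rw [Set.Finite.mem_toFinset] at hv1
          have hvl := hv1.2
          have hv0 : v ≠ ⊥ := by
            intro h
            apply hub
            rw [Ideal.LiesOver.over (P := v) (p := Q.under (𝓞 F)), h, Ideal.under_bot]
          refine ⟨⟨v, hv1.1, hv0⟩, mem_filter.2 ⟨(hS _).2 hvl, hv2.symm⟩, rfl⟩
      rw [← h3, h2, Nat.card_eq_fintype_card, Fintype.card_subtype]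
      congr 1
      ext σ
      simp only [mem_filter, mem_univ, true_and]
      rw [period_perm _ π hπ]

end rel

end Pool.Agent.H89.FrobD

end

section

/-!
# FD version 2: the first case from the cycle type of the Frobenius
-/

namespace H85FD2

open NumberField IsDedekindDomain H85FD Pool.Agent.H89.FrobD

/-- the residue degree over `F` -/
noncomputable def deg (F : Type*) [Field F] [NumberField F] {K : Type*} [Field K] [NumberField K]
    [Algebra F K] (v : HeightOneSpectrum (𝓞 K)) : ℕ := v.asIdeal.inertiaDeg (𝓞 F)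

/-- the local degree over `F` -/
noncomputable def wt (F : Type*) [Field F] [NumberField F] {K : Type*} [Field K] [NumberField K]
    [Algebra F K] (v : HeightOneSpectrum (𝓞 K)) : ℕ :=
  v.asIdeal.ramificationIdx (𝓞 F) * v.asIdeal.inertiaDeg (𝓞 F)

/-- the partition criterion holds for all solutions and all primes of `F` above `p` -/
def PartsK (F K : Type*) [Field F] [NumberField F] [Field K] [NumberField K] [Algebra F K]
    (p : ℕ) : Prop :=
  ∀ a b c : K, a ≠ 0 → b ≠ 0 → c ≠ 0 → a ^ p + b ^ p + c ^ p = 0 →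
    ∀ w : HeightOneSpectrum (𝓞 F), (p : 𝓞 F) ∈ w.asIdeal →
    ∀ S : Finset (HeightOneSpectrum (𝓞 K)),
      (∀ v, v ∈ S ↔ v.asIdeal.LiesOver w.asIdeal ∧ H29AB.EqAt v a b c) →
      ∃ E M6 M3 M2, Split4 (wt F) (deg F) (fun v => H29AB.CubAt v a b c)
        (Nat.card (𝓞 F ⧸ w.asIdeal) % 3) (p ^ 2 ∣ 2 ^ (p - 1) - 1) S.val E M6 M3 M2

/-- the primes above a prime of `F` -/
theorem exists_over {F K : Type*} [Field F] [NumberField F] [Field K] [NumberField K] [Algebra F K]
    (u : HeightOneSpectrum (𝓞 F)) :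
    ∃ S : Finset (HeightOneSpectrum (𝓞 K)), ∀ v, v ∈ S ↔ v.asIdeal.LiesOver u.asIdeal := by
  have hu := u.isPrime.isMaximal u.ne_bot
  have h1 : (u.asIdeal.primesOver (𝓞 K)).Finite := IsDedekindDomain.primesOver_finite u.asIdeal (𝓞 K)
  have h2 : {v : HeightOneSpectrum (𝓞 K) | v.asIdeal.LiesOver u.asIdeal}.Finite := by
    refine Set.Finite.of_finite_image (f := HeightOneSpectrum.asIdeal) (h1.subset ?_) ?_
    · rintro _ ⟨v, hv, rfl⟩
      exact ⟨v.isPrime, hv⟩
    · intro v _ v' _ h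
      exact HeightOneSpectrum.ext h
  exact ⟨h2.toFinset, fun v => h2.mem_toFinset⟩

/-- the first case, from the cycle type of the Frobenius -/
theorem first_of_ns {L : Type} [Field L] [NumberField L] [IsGalois ℚ L] {F K : Type} [Field F]
    [NumberField F] [Field K] [NumberField K] [Algebra F K] {p : ℕ} (hp : p.Prime) (hp3 : 3 < p)
    (hd : ¬ (p : ℤ) ∣ NumberField.discr L) (g : Gal(L/ℚ))
    (hE : (setE L (Subgroup.zpowers g) p).Nonempty) (hP : PartsK F K p) (σ₁ : K →ₐ[ℚ] L)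
    (τ : F →ₐ[ℚ] L) [Fintype (Emb K τ)] [DecidableEq (Emb K τ)] (π : Equiv.Perm (Emb K τ))
    (hπ : ∀ σ, (π σ).1 = act (g ^ Function.minimalPeriod (act g) τ) σ.1)
    (hns : ¬ SplitsN (p ^ Function.minimalPeriod (act g) τ % 3) π.partition.parts) :
    ∃ u : HeightOneSpectrum (𝓞 F), (p : 𝓞 F) ∈ u.asIdeal ∧
      ∀ a b c : K, a ≠ 0 → b ≠ 0 → c ≠ 0 → a ^ p + b ^ p + c ^ p = 0 →
      ∃ v : HeightOneSpectrum (𝓞 K), v.asIdeal.LiesOver u.asIdeal ∧ ¬ H29AB.EqAt v a b c := by
  obtain ⟨u, hpu, hcard, hu⟩ := rel_part (K := K) hp hd g hE σ₁ τ π hπ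
  refine ⟨u, hpu, fun a b c ha hb hc h => ?_⟩
  by_contra hcon
  push Not at hcon
  obtain ⟨S, hS⟩ := exists_over (K := K) u
  have h1 := hu S hS
  obtain ⟨E, M6, M3, M2, h4⟩ := hP a b c ha hb hc h u hpu S fun v =>
    ⟨fun hv => ⟨(hS v).1 hv, hcon v ((hS v).1 hv)⟩, fun hv => (hS v).2 hv.1⟩
  apply hns
  have hr : p ^ Function.minimalPeriod (act g) τ % 3 = 1 ∨ p ^ Function.minimalPeriod (act g) τ % 3 = 2 := by
    by_cases h5 : p ^ Function.minimalPeriod (act g) τ % 3 = 1
    · exact Or.inl h5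
    · exact Or.inr (pow_mod_three_ne hp hp3 _ h5)
  rw [hcard] at h4
  have h2 : S.val.map (deg F) = π.partition.parts := by
    have h3 := congrArg (Multiset.map Prod.snd) h1
    rw [Multiset.map_map, Multiset.map_map] at h3
    have e1 : (Prod.snd ∘ fun m : ℕ => (m, m)) = id := rfl
    rw [e1, Multiset.map_id] at h3
    exact h3
  rw [← h2]
  refine h4.type hr fun v hv => ?_
  have h3 : (wt F v, deg F v) ∈ S.val.map (fun v => (v.asIdeal.ramificationIdx (𝓞 F) *
      v.asIdeal.inertiaDeg (𝓞 F), v.asIdeal.inertiaDeg (𝓞 F))) := Multiset.mem_map_of_mem _ hv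
  rw [h1] at h3
  obtain ⟨m, -, hm⟩ := Multiset.mem_map.1 h3
  have e2 := congrArg Prod.fst hm
  have e3 := congrArg Prod.snd hm
  exact e2.symm.trans e3

end H85FD2

end

section

/-!
# HF B1: the minors at the primes `q` with `3L < q²` (used for `q ≤ L`)

PROOF. `loc_bound`; by `SS_true`, `SS_false` the product is at most `q^E` with
`E = ∑_c j_c - ∑_(b c = true) k_c - ∑_(b c = false) (k_c + Ee q t_c)`. `∑_c j_c ≤ 3 (2L+1)` (`ρ` is injective, values in
`[-L,L] × Fin 3`). `comb_thr` with `e = 0` for the rows of type `true` (card `3L`) and with `e = Ee q` for the others (card `3L`),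
`c r = (t % q).toNat`; `Ee_mod`, `Ee_sum`, `Ee_card`, `Ee_vals`.
-/

set_option autoImplicit false

namespace Pool.Agent.H80.HF

open Finset

/-- the sum of the jets of the rows -/
theorem sum_jets (L : ℕ) (ρ : Col L → ℤ × Fin 3) (hρ : Rows L ρ) :
    ∑ c, (((ρ c).2 : ℕ) : ℤ) ≤ 6 * L + 3 := by
  classical
  have h1 : ∑ c, (((ρ c).2 : ℕ) : ℤ) = ∑ r ∈ (univ : Finset (Col L)).image ρ, ((r.2 : ℕ) : ℤ) := by
    rw [sum_image (fun a _ b _ h => hρ.inj h)]
  have h2 : (univ : Finset (Col L)).image ρ ⊆ (Icc (-(L : ℤ)) L) ×ˢ (univ : Finset (Fin 3)) := by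
    intro r hr
    obtain ⟨c, _, rfl⟩ := mem_image.1 hr
    refine mem_product.2 ⟨mem_Icc.2 (abs_le.1 (hρ.le c)), mem_univ _⟩
  rw [h1]
  refine (sum_le_sum_of_subset_of_nonneg h2 fun _ _ _ => by positivity).trans ?_
  rw [sum_product]
  simp only [Fin.sum_univ_three]
  rw [sum_const, Int.card_Icc, nsmul_eq_mul]
  have : (((L : ℤ) + 1 - -(L : ℤ)).toNat : ℤ) = 2 * L + 1 := by
    rw [Int.toNat_of_nonneg (by linarith [Int.natCast_nonneg L])]
    ring
  rw [this]
  simp
  linarith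

theorem b1 (q : ℕ) [Fact q.Prime] (h5 : 5 ≤ q) (L : ℕ) (hL : 1 ≤ L) (hq : 3 * L < q ^ 2)
    (ρ : Col L → ℤ × Fin 3) (hρ : Rows L ρ) :
    padicNorm q (DD L ρ) ≤ (q : ℚ) ^ (((6 * L + 3 + q / 6 + 2 : ℕ) : ℤ) -
      ((2 * ∑ i ∈ range (3 * L), i / q : ℕ) : ℤ)) := by
  classical
  have hqp : q.Prime := Fact.out
  have hq0 : 0 < q := hqp.pos
  have hq1 : (1 : ℚ) ≤ (q : ℚ) := by exact_mod_cast hq0
  have hqz : (q : ℚ) ≠ 0 := by positivity
  refine loc_bound q L hL ρ _ (by positivity) fun b k hb hk _ => ?_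
  -- the exponent of every row
  set E : Col L → ℤ := fun c => (((ρ c).2 : ℕ) : ℤ) - (k c : ℤ) - (if b c = true then 0 else Ee q (ρ c).1) with hE
  have h1 : ∏ c, padicNorm q (SS q (ρ c) (b c) (k c)) ≤ ∏ c, (q : ℚ) ^ E c := by
    refine prod_le_prod (fun _ _ => padicNorm.nonneg _) fun c _ => ?_
    rcases hbc : b c with _ | _
    · have := SS_false q h5 L hq (ρ c) (hρ.le c) (k c)
      simpa [hE, hbc] using this
    · have := SS_true q (ρ c) (k c)
      simpa [hE, hbc] using this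
  refine h1.trans ?_
  have h2 : ∏ c, (q : ℚ) ^ E c = (q : ℚ) ^ (∑ c, E c) := by
    induction (univ : Finset (Col L)) using Finset.induction_on with
    | empty => simp
    | insert a s ha ih => rw [prod_insert ha, sum_insert ha, ih, zpow_add₀ hqz]
  rw [h2]
  refine zpow_le_zpow_right₀ hq1 ?_
  -- classes
  set cl : Col L → ℕ := fun c => ((ρ c).1 % (q : ℤ)).toNat with hcl
  have hqZ : (0 : ℤ) < (q : ℤ) := by exact_mod_cast hq0
  have hclz : ∀ c, (cl c : ℤ) = (ρ c).1 % (q : ℤ) := fun c =>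
    Int.toNat_of_nonneg (Int.emod_nonneg _ hqZ.ne')
  have hcllt : ∀ c, cl c < q := fun c => by
    have := Int.emod_lt_of_pos (ρ c).1 hqZ
    have h := hclz c
    omega
  have hcleq : ∀ c c', cl c = cl c' → (ρ c).1 % (q : ℤ) = (ρ c').1 % (q : ℤ) := fun c c' h => by
    rw [← hclz, ← hclz, h]
  have hEe : ∀ c, Ee q (ρ c).1 = Ee q (cl c : ℤ) := fun c => by
    refine Ee_mod q _ _ ?_
    rw [hclz, Int.emod_emod_of_dvd _ (dvd_refl _)]
  have hcardT : (univ.filter (fun c => b c = true)).card = 3 * L := hb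
  have hcardF : (univ.filter (fun c => ¬ b c = true)).card = 3 * L := by
    have := Finset.card_filter_add_card_filter_not (s := (univ : Finset (Col L))) (p := fun c => b c = true)
    rw [hcardT] at this
    have h : (univ : Finset (Col L)).card = 3 * L + 3 * L := by
      rw [card_univ]
      simp [Col]
    omega
  have hT := comb_thr q hq0 (fun _ => 0) (fun _ _ => Or.inr (Or.inl rfl)) (by simp)
    (univ.filter (fun c => b c = true)) cl (fun c _ => hcllt c) k (by
      intro r hr r' hr' hc hkk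
      by_contra hne
      have a := (mem_filter.1 hr).2
      have a' := (mem_filter.1 hr').2
      exact hk r r' hne (hcleq _ _ hc) (a.trans a'.symm) hkk)
  have hF := comb_thr q hq0 (fun c => Ee q (c : ℤ)) (fun c _ => Ee_vals q _) (Ee_sum q hqp h5)
    (univ.filter (fun c => ¬ b c = true)) cl (fun c _ => hcllt c) k (by
      intro r hr r' hr' hc hkk
      by_contra hne
      have a := (mem_filter.1 hr).2
      have a' := (mem_filter.1 hr').2
      refine hk r r' hne (hcleq _ _ hc) ?_ hkk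
      rw [Bool.not_eq_true] at a a'
      exact a.trans a'.symm)
  rw [hcardT] at hT
  rw [hcardF] at hF
  have hcard := Ee_card q
  have hjets := sum_jets L ρ hρ
  have hsplit : ∑ c, E c = ∑ c, (((ρ c).2 : ℕ) : ℤ) -
      ∑ c ∈ univ.filter (fun c => b c = true), ((k c : ℤ) + 0) -
      ∑ c ∈ univ.filter (fun c => ¬ b c = true), ((k c : ℤ) + Ee q (cl c : ℤ)) := by
    have e1 : ∑ c, E c = ∑ c, (((ρ c).2 : ℕ) : ℤ) -
        ∑ c, ((k c : ℤ) + (if b c = true then 0 else Ee q (ρ c).1)) := by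
      rw [← sum_sub_distrib]
      refine sum_congr rfl fun c _ => ?_
      simp only [hE]
      ring
    have e2 : ∑ c, ((k c : ℤ) + (if b c = true then 0 else Ee q (ρ c).1)) =
        ∑ c ∈ univ.filter (fun c => b c = true), ((k c : ℤ) + 0) +
          ∑ c ∈ univ.filter (fun c => ¬ b c = true), ((k c : ℤ) + Ee q (cl c : ℤ)) := by
      rw [← sum_filter_add_sum_filter_not univ (fun c => b c = true)]
      congr 1
      · refine sum_congr rfl fun c hc => ?_
        rw [if_pos (mem_filter.1 hc).2]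
      · refine sum_congr rfl fun c hc => ?_
        rw [if_neg (mem_filter.1 hc).2, hEe]
    rw [e1, e2]
    ring
  rw [hsplit]
  have h0 : ((range q).filter (fun _ : ℕ => (0 : ℤ) = -1)).card = 0 := by simp
  simp only [h0] at hT
  push_cast at hT hF ⊢
  have hcard' : (((range q).filter (fun c : ℕ => Ee q (c : ℤ) = -1)).card : ℤ) ≤ (q : ℤ) / 6 + 2 := by
    have : (((range q).filter (fun c : ℕ => Ee q (c : ℤ) = -1)).card : ℤ) ≤ ((q / 6 + 2 : ℕ) : ℤ) := by
      exact_mod_cast hcard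
    push_cast at this
    exact this
  linarith

end Pool.Agent.H80.HF

end

section

/-!
# FD version 2, module RelPlace: from the members of the family to the places of `K` above `w`
-/

open NumberField Polynomial IsDedekindDomain H9FC H9AB H85FD

namespace H55AB

section

variable {F : Type*} [Field F] [NumberField F] {K : Type*} [Field K] [NumberField K] [Algebra F K]
  {p : ℕ} [Fact p.Prime] {Ω : Type*} [Field Ω] [CharP Ω p]

omit [NumberField F] in
/-- `|O_K/P| = |O_F/q|^f` -/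
theorem card_pow (P : Ideal (𝓞 K)) (hP : P.IsPrime) (hpP : (p : 𝓞 K) ∈ P) [NumberField F] :
    Nat.card (𝓞 K ⧸ P) = Nat.card (𝓞 F ⧸ P.under (𝓞 F)) ^ P.inertiaDeg (𝓞 F) ∧
      (p : 𝓞 F) ∈ P.under (𝓞 F) := by
  have hpF : (p : 𝓞 F) ∈ P.under (𝓞 F) := by
    rw [Ideal.under, Ideal.mem_comap, map_natCast]
    exact hpP
  refine ⟨?_, hpF⟩
  obtain ⟨-, hmax, hfin, -, -, -⟩ := H52FD.prime_data (p := p) P hP hpP
  have hPF : (P.under (𝓞 F)).IsPrime := Ideal.IsPrime.under (𝓞 F) P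
  obtain ⟨-, hmaxF, hfinF, -, -, -⟩ := H52FD.prime_data (p := p) (P.under (𝓞 F)) hPF hpF
  have hl : P.LiesOver (P.under (𝓞 F)) := ⟨rfl⟩
  rw [Ideal.inertiaDeg_eq_of_isMaximal (P.under (𝓞 F)) P]
  letI : Field (𝓞 F ⧸ P.under (𝓞 F)) := Ideal.Quotient.field _
  have : Module.Finite (𝓞 F ⧸ P.under (𝓞 F)) (𝓞 K ⧸ P) := Module.Finite.of_finite
  exact Module.natCard_eq_pow_finrank

/-- the kernels of the members lie over the kernel of `w` -/
theorem under_ker {w : 𝓞 F →+* Ω} {ψ : Fin (Module.finrank F K) → (𝓞 K →+* Ω)} (hψ : RelFam w ψ)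
    (i : Fin (Module.finrank F K)) : (RingHom.ker (ψ i)).under (𝓞 F) = RingHom.ker w := by
  rw [Ideal.under, RingHom.comap_ker, hψ.lies i]

/-- an image of a root of `X² - X + 1` -/
theorem resid_mod (hp3 : p ≠ 3) (φ : 𝓞 K →+* Ω) (a b : 𝓞 K) (ha : φ a ≠ 0)
    (h : (-(φ b) / φ a) ^ 2 - (-(φ b) / φ a) + 1 = 0) : Nat.card (𝓞 K ⧸ RingHom.ker φ) % 3 = 1 := by
  obtain ⟨hne, hmax, hfin, hchar, -, -⟩ :=
    H52FD.prime_data (p := p) (RingHom.ker φ) (RingHom.ker_isPrime φ) (H52FD.p_mem_ker φ)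
  letI : Field (𝓞 K ⧸ RingHom.ker φ) := Ideal.Quotient.field _
  let g : (𝓞 K ⧸ RingHom.ker φ) →+* Ω := Ideal.Quotient.lift _ φ fun x hx => hx
  have hg : ∀ x, g (Ideal.Quotient.mk _ x) = φ x := fun x => rfl
  have h3 : (3 : 𝓞 K ⧸ RingHom.ker φ) ≠ 0 := by
    intro h0
    have h1 : ((3 : ℕ) : 𝓞 K ⧸ RingHom.ker φ) = 0 := by exact_mod_cast h0
    rw [CharP.cast_eq_zero_iff (𝓞 K ⧸ RingHom.ker φ) p] at h1
    exact hp3 ((Nat.prime_dvd_prime_iff_eq (Fact.out : p.Prime) Nat.prime_three).1 h1)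
  refine H87FD.card_mod_three _ h3 (-(Ideal.Quotient.mk _ b) / Ideal.Quotient.mk _ a) ?_
  apply g.injective
  rw [map_add, map_sub, map_pow, map_div₀, map_neg, hg, hg, map_one, map_zero]
  exact h

/-- a finite field with `1` modulo `3` elements contains the roots of `X² - X + 1` -/
theorem exists_sixth (k : Type*) [Field k] [Finite k] (h : Nat.card k % 3 = 1) :
    ∃ z : k, z ^ 2 - z + 1 = 0 := by
  have hfin : Fintype k := Fintype.ofFinite k
  have h1 : Nat.card kˣ = Nat.card k - 1 := by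
    rw [Nat.card_units]
  have h2 : 3 ∣ Nat.card kˣ := by
    rw [h1]
    exact (Nat.modEq_iff_dvd' (by
      have : 0 < Nat.card k := Nat.card_pos
      omega)).1 h.symm
  obtain ⟨g, hg⟩ := exists_prime_orderOf_dvd_card' 3 h2
  have h3 : g ^ 3 = 1 := by rw [← hg]; exact pow_orderOf_eq_one g
  have h4 : g ≠ 1 := by
    rintro rfl
    rw [orderOf_one] at hg
    omega
  refine ⟨-(g : k), ?_⟩
  have h5 : ((g : k) - 1) * ((g : k) ^ 2 + g + 1) = 0 := by
    have h6 : (g : k) ^ 3 = 1 := by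
      have := congrArg Units.val h3
      simpa using this
    linear_combination h6
  rcases mul_eq_zero.1 h5 with h6 | h6
  · exfalso
    apply h4
    apply Units.ext
    rw [Units.val_one]
    linear_combination h6
  · linear_combination h6

theorem three_ne' (hp3 : p ≠ 3) : (3 : Ω) ≠ 0 := by
  intro h0
  have h1 : ((3 : ℕ) : Ω) = 0 := by exact_mod_cast h0
  rw [CharP.cast_eq_zero_iff Ω p] at h1
  exact hp3 ((Nat.prime_dvd_prime_iff_eq (Fact.out : p.Prime) Nat.prime_three).1 h1)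

/-- `Nw = 1` modulo `3`: a residue which is a root of `X² - X + 1` depends only on the place -/
theorem same_of_ker (q : ℕ) [Fact q.Prime] [CharP Ω q] {w : 𝓞 F →+* Ω} {ψ : Fin (Module.finrank F K) → (𝓞 K →+* Ω)}
    (hψ : RelFam w ψ) {a b : 𝓞 K} (i j : GI ψ a b)
    (hi : TR ψ a b i ^ 2 - TR ψ a b i + 1 = 0) (hw : Nat.card (𝓞 F ⧸ RingHom.ker w) % 3 = 1)
    (heq : RingHom.ker (ψ j.1) = RingHom.ker (ψ i.1)) : TR ψ a b j = TR ψ a b i := by
  obtain ⟨hne, hmax, hfin, hchar, -, -⟩ :=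
    H52FD.prime_data (p := q) (RingHom.ker w) (RingHom.ker_isPrime w) (H52FD.p_mem_ker w)
  letI : Field (𝓞 F ⧸ RingHom.ker w) := Ideal.Quotient.field _
  obtain ⟨z, hz⟩ := exists_sixth (𝓞 F ⧸ RingHom.ker w) hw
  obtain ⟨z, rfl⟩ := Ideal.Quotient.mk_surjective z
  have hz' : w z ^ 2 - w z + 1 = 0 := by
    have h1 : (Ideal.Quotient.mk (RingHom.ker w)) (z ^ 2 - z + 1) = 0 := by
      rw [map_add, map_sub, map_pow, map_one]
      exact hz
    rw [Ideal.Quotient.eq_zero_iff_mem, RingHom.mem_ker, map_add, map_sub, map_pow, map_one] at h1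
    exact h1
  -- `T i = w y`
  obtain ⟨y, hy⟩ : ∃ y : 𝓞 F, w y = TR ψ a b i := by
    have h1 : (TR ψ a b i - w z) * (TR ψ a b i - (1 - w z)) = 0 := by
      linear_combination hi - hz'
    rcases mul_eq_zero.1 h1 with h2 | h2
    · exact ⟨z, by linear_combination -h2⟩
    · exact ⟨1 - z, by rw [map_sub, map_one]; linear_combination -h2⟩
  have hlies : ∀ k, ψ k (algebraMap (𝓞 F) (𝓞 K) y) = w y := fun k => by
    rw [← hψ.lies k]
    rfl
  have h5 : a * algebraMap (𝓞 F) (𝓞 K) y + b ∈ RingHom.ker (ψ i.1) := by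
    rw [RingHom.mem_ker, map_add, map_mul, hlies, hy]
    unfold TR
    have := i.2.1
    field_simp
    ring
  rw [← heq, RingHom.mem_ker, map_add, map_mul, hlies, hy] at h5
  have h7 : ψ j.1 a ≠ 0 := j.2.1
  show -(ψ j.1 b) / ψ j.1 a = TR ψ a b i
  rw [div_eq_iff h7]
  linear_combination -h5

/-- (2) at the places: if the number of the good members is not divisible by three -/
theorem place_root {w : 𝓞 F →+* Ω} {ψ : Fin (Module.finrank F K) → (𝓞 K →+* Ω)} (hψ : RelFam w ψ)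
    (hp3 : p ≠ 3) {a b c : 𝓞 K} (h : FSol K p a b c) (hcp : CopAt K p a b c)
    (hS : SymP ((nfR F K a b).map w)) (h3 : ¬ 3 ∣ Nat.card (GI ψ a b)) :
    ∃ P : Ideal (𝓞 K), P.IsPrime ∧ P.under (𝓞 F) = RingHom.ker w ∧ a ∉ P ∧ b ∉ P ∧ c ∉ P ∧
      a ^ 2 + a * b + b ^ 2 ∈ P ∧ Nat.card (𝓞 K ⧸ P) % 3 = 1 ∧
      (Nat.card (𝓞 F ⧸ RingHom.ker w) % 3 = 1 → ∃ P' : Ideal (𝓞 K), P'.IsPrime ∧ P' ≠ P ∧
        P'.under (𝓞 F) = RingHom.ker w ∧ a ∉ P' ∧ b ∉ P' ∧ c ∉ P' ∧ a ^ 2 + a * b + b ^ 2 ∈ P') := by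
  obtain ⟨i, j, hi, hj⟩ := rel_root hψ h hcp hS h3
  have hj' : TR ψ a b j ^ 2 - TR ψ a b j + 1 = 0 := by
    rw [hj]
    linear_combination hi
  obtain ⟨a1, a2, a3⟩ := (good_iff h i.1).1 i.2
  obtain ⟨b1, b2, b3⟩ := (good_iff h j.1).1 j.2
  refine ⟨RingHom.ker (ψ i.1), RingHom.ker_isPrime _, under_ker hψ i.1, a1, a2, a3,
    cubic_of_root i hi, resid_mod hp3 (ψ i.1) a b i.2.1 hi, fun hw => ?_⟩
  refine ⟨RingHom.ker (ψ j.1), RingHom.ker_isPrime _, fun heq => ?_, under_ker hψ j.1, b1, b2, b3,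
    cubic_of_root j hj'⟩
  have h6 := same_of_ker p hψ i j hi hw heq
  rw [hj] at h6
  have h7 : 2 * TR ψ a b i = 1 := by linear_combination -h6
  apply three_ne' (Ω := Ω) (p := p) hp3
  linear_combination 4 * hi - (2 * TR ψ a b i - 1) * h7

/-- (3) a place with more than half of the good members -/
theorem place_big {w : 𝓞 F →+* Ω} {ψ : Fin (Module.finrank F K) → (𝓞 K →+* Ω)} (hψ : RelFam w ψ)
    (hp5 : 5 ≤ p) {a b c : 𝓞 K} (h : FSol K p a b c) (hcp : CopAt K p a b c)
    (hS : SymP ((nfR F K a b).map w)) (P : Ideal (𝓞 K)) (ha : a ∉ P) (hb : b ∉ P) (hc : c ∉ P)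
    (hbig : Nat.card (GI ψ a b) < 2 * Nat.card {i // RingHom.ker (ψ i) = P}) :
    Nat.card (𝓞 F ⧸ RingHom.ker w) % 3 = 2 ∧ Even (P.inertiaDeg (𝓞 F)) ∧
      a ^ 2 + a * b + b ^ 2 ∈ P := by
  classical
  have hp3 : p ≠ 3 := by omega
  have hpodd : Odd p := by
    rcases (Fact.out : p.Prime).eq_two_or_odd' with h | h
    · omega
    · exact h
  have hT := s3_fam hψ h hcp hS
  have hS3 : H52FD.S3 (TR ψ a b) := by
    obtain ⟨σ, hσ⟩ := hT.inv
    obtain ⟨τ, hτ⟩ := hT.sub'
    exact ⟨⟨σ, hσ⟩, τ, hτ⟩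
  set A : Finset (GI ψ a b) := Finset.univ.filter (fun i => RingHom.ker (ψ i.1) = P) with hA
  have hAcard : Nat.card {i // RingHom.ker (ψ i) = P} = A.card := by
    rw [hA, ← Fintype.card_subtype, ← Nat.card_eq_fintype_card]
    refine Nat.card_congr ⟨fun i => ⟨⟨i.1, (good_iff h i.1).2 ?_⟩, i.2⟩, fun i => ⟨i.1.1, i.2⟩,
      fun i => rfl, fun i => rfl⟩
    rw [i.2]
    exact ⟨ha, hb, hc⟩
  rw [Nat.card_eq_fintype_card, hAcard] at hbig
  have hfr : ∀ i ∈ A, ∀ j ∈ A, ∃ k : ℕ, TR ψ a b j = TR ψ a b i ^ p ^ k := by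
    intro i hi j hj
    rw [hA, Finset.mem_filter] at hi hj
    obtain ⟨k, hk⟩ := H52FD.frob_conj (p := p) (ψ i.1) (ψ j.1) (hi.2.trans hj.2.symm)
    refine ⟨k, ?_⟩
    unfold TR
    rw [neg_div, neg_div, (hpodd.pow).neg_pow, div_pow, hk, hk]
  obtain ⟨σ, hσ⟩ := hT.sub'
  obtain ⟨i, hi, hσi⟩ := H52FD.exists_pair σ A hbig
  obtain ⟨hroot, -, -⟩ := H52FD.fam_core hp5 hS3 A hbig hfr hi
  have hiP : RingHom.ker (ψ i.1) = P := by
    rw [hA, Finset.mem_filter] at hi
    exact hi.2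
  have hjP : RingHom.ker (ψ (σ i).1) = P := by
    rw [hA, Finset.mem_filter] at hσi
    exact hσi.2
  have hmod := resid_mod hp3 (ψ i.1) a b i.2.1 hroot
  obtain ⟨hq, -⟩ := card_pow (F := F) (p := p) (RingHom.ker (ψ i.1)) (RingHom.ker_isPrime _)
    (H52FD.p_mem_ker _)
  rw [under_ker hψ i.1] at hq
  have h1 : Nat.card (𝓞 F ⧸ RingHom.ker w) % 3 ≠ 1 := by
    intro hw
    have h6 := same_of_ker p hψ i (σ i) hroot hw (hjP.trans hiP.symm)
    rw [hσ] at h6
    have h7 : 2 * TR ψ a b i = 1 := by linear_combination -h6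
    apply three_ne' (Ω := Ω) (p := p) hp3
    linear_combination 4 * hroot - (2 * TR ψ a b i - 1) * h7
  have h0 : Nat.card (𝓞 F ⧸ RingHom.ker w) % 3 ≠ 0 := by
    intro hw
    have hpos : (RingHom.ker (ψ i.1)).inertiaDeg (𝓞 F) ≠ 0 := by
      intro h0
      rw [h0, pow_zero] at hq
      have : (RingHom.ker (ψ i.1)).IsPrime := RingHom.ker_isPrime _
      have hnt : Nontrivial (𝓞 K ⧸ RingHom.ker (ψ i.1)) :=
        Ideal.Quotient.nontrivial_iff.2 (RingHom.ker_isPrime (ψ i.1)).ne_top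
      obtain ⟨-, -, hfin, -, -, -⟩ := H52FD.prime_data (p := p) (RingHom.ker (ψ i.1))
        (RingHom.ker_isPrime _) (H52FD.p_mem_ker _)
      have := Finite.one_lt_card (α := 𝓞 K ⧸ RingHom.ker (ψ i.1))
      omega
    rw [hq, Nat.pow_mod, hw, zero_pow hpos] at hmod
    omega
  have h2 : Nat.card (𝓞 F ⧸ RingHom.ker w) % 3 = 2 := by omega
  refine ⟨h2, ?_, ?_⟩
  · rw [← hiP]
    by_contra hodd
    rw [Nat.not_even_iff_odd] at hodd
    obtain ⟨k, hk⟩ := hodd
    rw [hq, Nat.pow_mod, h2, hk, pow_succ, pow_mul] at hmod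
    have h3 : ((2 ^ 2) ^ k * 2) % 3 = 2 := by
      rw [Nat.mul_mod, Nat.pow_mod]
      norm_num
    omega
  · rw [← hiP]
    exact cubic_of_root i hroot

end

end H55AB

end

section

/-!
# FD version 2, module RelFin: the relative theorem for solutions in `K`

`F ⊆ K` number fields, `w` a prime of `F` above `p`; `goodRel F K w a b c` is the sum of the local degrees
`e(v|w) f(v|w)` of the primes `v` of `K` above `w` at which `a, b, c` have the same valuation.
-/

open NumberField Polynomial IsDedekindDomain H9FC H9AB H85FD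

namespace H55AB

/-- `a, b, c` have the same valuation at `v` -/
def EqAt {K : Type*} [Field K] [NumberField K] (v : HeightOneSpectrum (𝓞 K)) (a b c : K) : Prop :=
  v.valuation K a = v.valuation K b ∧ v.valuation K b = v.valuation K c

/-- moreover `a² + ab + b²` has a larger valuation than `a²` -/
def CubAt {K : Type*} [Field K] [NumberField K] (v : HeightOneSpectrum (𝓞 K)) (a b c : K) : Prop :=
  EqAt v a b c ∧ v.valuation K (a ^ 2 + a * b + b ^ 2) < v.valuation K (a ^ 2)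

/-- the sum of the local degrees over `w` of the good primes above `w` -/
noncomputable def goodRel (F : Type*) [Field F] [NumberField F] (K : Type*) [Field K] [NumberField K]
    [Algebra F K] (w : HeightOneSpectrum (𝓞 F)) (a b c : K) : ℕ :=
  ∑ᶠ v ∈ {v : HeightOneSpectrum (𝓞 K) | v.asIdeal.under (𝓞 F) = w.asIdeal ∧ EqAt v a b c},
    v.asIdeal.ramificationIdx (𝓞 F) * v.asIdeal.inertiaDeg (𝓞 F)

/-- the symmetry for all the solutions -/
def SymFK (F : Type*) [Field F] [NumberField F] (K : Type*) [Field K] [NumberField K]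
    [Algebra F K] (p : ℕ) [Fact p.Prime] : Prop :=
  ∀ a b c : 𝓞 K, FSol K p a b c → CopAt K p a b c → ∀ w : 𝓞 F →+* AlgebraicClosure (ZMod p),
    SymP ((nfR F K a b).map w)

section

variable {F : Type*} [Field F] [NumberField F] {K : Type*} [Field K] [NumberField K] [Algebra F K]
  {p : ℕ} [Fact p.Prime] {Ω : Type*} [Field Ω] [IsAlgClosed Ω] [CharP Ω p]

/-- a prime above `w` is above `p` -/
theorem p_mem_of_under {q : Ideal (𝓞 F)} {P : Ideal (𝓞 K)} (h : P.under (𝓞 F) = q)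
    (hq : (p : 𝓞 F) ∈ q) : (p : 𝓞 K) ∈ P := by
  rw [← h, Ideal.under, Ideal.mem_comap, map_natCast] at hq
  exact hq

theorem goodRel_eq {w : HeightOneSpectrum (𝓞 F)} (hw : (p : 𝓞 F) ∈ w.asIdeal) {w' : 𝓞 F →+* Ω}
    (hker : RingHom.ker w' = w.asIdeal) {ψ : Fin (Module.finrank F K) → (𝓞 K →+* Ω)}
    (hψ : RelFam w' ψ) {a b c : K} {a' b' c' : 𝓞 K} (h : FSol K p a' b' c')
    (hall : ∀ v : HeightOneSpectrum (𝓞 K), (p : 𝓞 K) ∈ v.asIdeal →
        ((v.valuation K a = v.valuation K b ∧ v.valuation K b = v.valuation K c) ↔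
          (a' ∉ v.asIdeal ∧ b' ∉ v.asIdeal ∧ c' ∉ v.asIdeal))) :
    goodRel F K w a b c = Nat.card (GI ψ a' b') := by
  classical
  have hne : ∀ i : Fin (Module.finrank F K), RingHom.ker (ψ i) ≠ ⊥ := fun i =>
    (H52FD.prime_data (p := p) _ (RingHom.ker_isPrime (ψ i)) (H52FD.p_mem_ker _)).1
  let κ : GI ψ a' b' → HeightOneSpectrum (𝓞 K) := fun i =>
    ⟨RingHom.ker (ψ i.1), RingHom.ker_isPrime _, hne i.1⟩
  have hκ : ∀ i, (κ i).asIdeal = RingHom.ker (ψ i.1) := fun i => rfl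
  have hcard : ∀ v : HeightOneSpectrum (𝓞 K), v.asIdeal.under (𝓞 F) = w.asIdeal →
      Nat.card {i // RingHom.ker (ψ i) = v.asIdeal}
        = v.asIdeal.ramificationIdx (𝓞 F) * v.asIdeal.inertiaDeg (𝓞 F) := by
    intro v hv
    refine card_ker_rel F K p w' ψ hψ.form v.asIdeal v.isPrime ?_
    rw [hker]
    exact hv
  have hpos : ∀ v : HeightOneSpectrum (𝓞 K),
      0 < v.asIdeal.ramificationIdx (𝓞 F) * v.asIdeal.inertiaDeg (𝓞 F) := by
    intro v
    have := v.isPrime
    exact Nat.mul_pos (Ideal.ramificationIdx_pos v.asIdeal (𝓞 F))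
      (Ideal.inertiaDeg_pos v.asIdeal (𝓞 F))
  set S : Set (HeightOneSpectrum (𝓞 K)) :=
    {v : HeightOneSpectrum (𝓞 K) | v.asIdeal.under (𝓞 F) = w.asIdeal ∧ EqAt v a b c} with hS
  set T : Finset (HeightOneSpectrum (𝓞 K)) := Finset.univ.image κ with hT
  have hST : S = ↑T := by
    ext v
    rw [Finset.mem_coe, hT, Finset.mem_image]
    constructor
    · rintro ⟨h1, h2⟩
      have h3 : (p : 𝓞 K) ∈ v.asIdeal := p_mem_of_under h1 hw
      have h4 := (hall v h3).1 h2
      have h5 : 0 < Nat.card {i // RingHom.ker (ψ i) = v.asIdeal} := by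
        rw [hcard v h1]
        exact hpos v
      obtain ⟨⟨i, hi⟩⟩ := (Nat.card_pos_iff.1 h5).1
      refine ⟨⟨i, (good_iff h i).2 (by rw [hi]; exact h4)⟩, Finset.mem_univ _, ?_⟩
      exact HeightOneSpectrum.ext hi
    · rintro ⟨i, -, rfl⟩
      refine ⟨?_, (hall (κ i) (H52FD.p_mem_ker (ψ i.1))).2 ((good_iff h i.1).1 i.2)⟩
      rw [hκ, under_ker hψ i.1, hker]
  unfold goodRel
  rw [← hS, hST, finsum_mem_coe_finset, Nat.card_eq_fintype_card, ← Finset.card_univ,
    Finset.card_eq_sum_card_image κ Finset.univ]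
  refine Finset.sum_congr rfl fun v hv => ?_
  rw [← Finset.mem_coe, ← hST] at hv
  rw [← hcard v hv.1, ← Fintype.card_subtype, ← Nat.card_eq_fintype_card]
  have h4 := (hall v (p_mem_of_under hv.1 hw)).1 hv.2
  refine Nat.card_congr ⟨fun i => ⟨⟨i.1, (good_iff h i.1).2 (by rw [i.2]; exact h4)⟩, ?_⟩,
    fun i => ⟨i.1.1, ?_⟩, fun i => rfl, fun i => rfl⟩
  · exact HeightOneSpectrum.ext i.2
  · have := congrArg HeightOneSpectrum.asIdeal i.2
    exact this

/-- scaling and the cubic condition -/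
theorem cub_iff {l a b : K} {a' b' : 𝓞 K} (hl : l ≠ 0) (ea : (a' : K) = l * a)
    (eb : (b' : K) = l * b) {v : HeightOneSpectrum (𝓞 K)} (ha : a' ∉ v.asIdeal)
    (hcub : a' ^ 2 + a' * b' + b' ^ 2 ∈ v.asIdeal) :
    v.valuation K (a ^ 2 + a * b + b ^ 2) < v.valuation K (a ^ 2) := by
  have h1 : v.valuation K (l ^ 2 * (a ^ 2 + a * b + b ^ 2)) < 1 := by
    have h2 : l ^ 2 * (a ^ 2 + a * b + b ^ 2) = ((a' ^ 2 + a' * b' + b' ^ 2 : 𝓞 K) : K) := by
      simp only [map_add, map_mul, map_pow, ea, eb]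
      ring
    rw [h2]
    exact (HeightOneSpectrum.valuation_lt_one_iff_mem v _).2 hcub
  have h3 : v.valuation K (l ^ 2 * a ^ 2) = 1 := by
    have h4 : l ^ 2 * a ^ 2 = ((a' ^ 2 : 𝓞 K) : K) := by
      simp only [map_pow, ea]
      ring
    rw [h4]
    have h5 : a' ^ 2 ∉ v.asIdeal := fun h => ha (v.isPrime.mem_of_pow_mem 2 h)
    have h6 := v.valuation_le_one (K := K) (a' ^ 2)
    refine le_antisymm h6 (not_lt.1 fun h7 => h5 ?_)
    exact (HeightOneSpectrum.valuation_lt_one_iff_mem v _).1 h7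
  rw [map_mul] at h1 h3
  have h4 : v.valuation K (l ^ 2) ≠ 0 := by
    rw [(v.valuation K).ne_zero_iff]
    exact pow_ne_zero 2 hl
  rw [← h3] at h1
  exact lt_of_mul_lt_mul_left' h1

end

/-- **The relative theorem**, from the symmetry. -/
theorem rel_main (F : Type*) [Field F] [NumberField F] (K : Type*) [Field K] [NumberField K]
    [Algebra F K] (p : ℕ) [Fact p.Prime] (hp5 : 5 ≤ p) (hd : Module.finrank ℚ K < p)
    (hS : SymFK F K p) (a b c : K) (ha : a ≠ 0) (hb : b ≠ 0) (hc : c ≠ 0)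
    (h : a ^ p + b ^ p + c ^ p = 0) (w : HeightOneSpectrum (𝓞 F)) (hw : (p : 𝓞 F) ∈ w.asIdeal) :
    (Odd (goodRel F K w a b c) → p ^ 2 ∣ 2 ^ (p - 1) - 1) ∧
    (¬ 3 ∣ goodRel F K w a b c → ∃ v : HeightOneSpectrum (𝓞 K),
      v.asIdeal.under (𝓞 F) = w.asIdeal ∧ CubAt v a b c ∧ Nat.card (𝓞 K ⧸ v.asIdeal) % 3 = 1 ∧
      (Nat.card (𝓞 F ⧸ w.asIdeal) % 3 = 1 → ∃ v' : HeightOneSpectrum (𝓞 K), v' ≠ v ∧
        v'.asIdeal.under (𝓞 F) = w.asIdeal ∧ CubAt v' a b c)) ∧
    (∀ v : HeightOneSpectrum (𝓞 K), v.asIdeal.under (𝓞 F) = w.asIdeal → EqAt v a b c →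
      goodRel F K w a b c <
        2 * (v.asIdeal.ramificationIdx (𝓞 F) * v.asIdeal.inertiaDeg (𝓞 F)) →
      Nat.card (𝓞 F ⧸ w.asIdeal) % 3 = 2 ∧ Even (v.asIdeal.inertiaDeg (𝓞 F)) ∧ CubAt v a b c) := by
  obtain ⟨l, a', b', c', hl, ea, eb, ec, hF, hcp, hall⟩ := H3AB.scale_mixed ha hb hc h
  obtain ⟨w', hker⟩ := H3AB.exists_hom_ker p (AlgebraicClosure (ZMod p)) w.asIdeal w.isPrime hw
  obtain ⟨ψ, hψ⟩ := exists_rel F K (AlgebraicClosure (ZMod p)) w'
  have hcard := goodRel_eq hw hker hψ hF hall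
  have hsym := hS a' b' c' hF hcp w'
  have hne : ∀ P : Ideal (𝓞 K), P.IsPrime → P.under (𝓞 F) = w.asIdeal → P ≠ ⊥ :=
    fun P hP hPw => (H52FD.prime_data (p := p) P hP (p_mem_of_under hPw hw)).1
  rw [hcard]
  refine ⟨fun hodd => rel_wief hψ (by omega) hd hF hcp hsym hodd, fun h3 => ?_, ?_⟩
  · obtain ⟨P, hP, hPw, h1, h2, h3', h4, h5, h6⟩ := place_root hψ (by omega) hF hcp hsym h3
    rw [hker] at hPw h6
    have hv := p_mem_of_under (p := p) hPw hw
    refine ⟨⟨P, hP, hne P hP hPw⟩, hPw, ⟨(hall ⟨P, hP, hne P hP hPw⟩ hv).2 ⟨h1, h2, h3'⟩,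
      cub_iff hl ea eb h1 h4⟩, h5, fun hq => ?_⟩
    obtain ⟨P', hP', hne', hPw', g1, g2, g3, g4⟩ := h6 hq
    have hv' := p_mem_of_under (p := p) hPw' hw
    refine ⟨⟨P', hP', hne P' hP' hPw'⟩, fun heq => hne' ?_, hPw',
      ⟨(hall ⟨P', hP', hne P' hP' hPw'⟩ hv').2 ⟨g1, g2, g3⟩, cub_iff hl ea eb g1 g4⟩⟩
    exact congrArg HeightOneSpectrum.asIdeal heq
  · intro v hv he hbig
    have hpv := p_mem_of_under (p := p) hv hw
    obtain ⟨h1, h2, h3⟩ := (hall v hpv).1 he
    have hc2 : Nat.card {i // RingHom.ker (ψ i) = v.asIdeal}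
        = v.asIdeal.ramificationIdx (𝓞 F) * v.asIdeal.inertiaDeg (𝓞 F) := by
      refine card_ker_rel F K p w' ψ hψ.form v.asIdeal v.isPrime ?_
      rw [hker]
      exact hv
    rw [← hc2] at hbig
    obtain ⟨g1, g2, g3⟩ := place_big hψ hp5 hF hcp hsym v.asIdeal h1 h2 h3 hbig
    rw [hker] at g1
    exact ⟨g1, g2, he, cub_iff hl ea eb h1 g3⟩

end H55AB

end

section

/-!
# The splitting criterion for the residue degrees, relative to a real abelian field
-/

open Polynomial NumberField IsDedekindDomain H9FC H9AB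

namespace H31AB

open H85FD H55AB

theorem frob_conj_field {k0 k Ω : Type*} [Field k0] [Finite k0] [Field k] [Finite k] [Algebra k0 k]
    [Field Ω] (f g : k →+* Ω) (h : f.comp (algebraMap k0 k) = g.comp (algebraMap k0 k)) :
    ∃ n : ℕ, ∀ x, g x = f x ^ Nat.card k0 ^ n := by
  classical
  letI : Fintype k0 := Fintype.ofFinite k0
  letI : Algebra k0 Ω := (f.comp (algebraMap k0 k)).toAlgebra
  let F : k →ₐ[k0] Ω := { f with commutes' := fun r => rfl }
  let G : k →ₐ[k0] Ω := { g with commutes' := fun r => (congrArg (fun h => h r) h).symm }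
  have : Module.Finite k0 k := Module.Finite.of_finite
  have hinj : Function.Injective
      (fun n : Fin (Module.finrank k0 k) => F.comp (FiniteField.frobeniusAlgHom k0 k ^ n.1)) := by
    intro m n hmn
    apply (FiniteField.bijective_frobeniusAlgHom_pow k0 k).1
    apply AlgHom.ext
    intro x
    have h1 := DFunLike.congr_fun hmn x
    exact F.toRingHom.injective h1
  have hbij := hinj.bijective_of_nat_card_le (by
    rw [Nat.card_fin]
    exact card_algHom_le_finrank k0 k Ω)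
  obtain ⟨n, hn⟩ := hbij.2 G
  refine ⟨n.1, fun x => ?_⟩
  have h1 := DFunLike.congr_fun hn x
  have h2 : ∀ m : ℕ, (FiniteField.frobeniusAlgHom k0 k ^ m) x = x ^ Nat.card k0 ^ m := by
    intro m
    induction m with
    | zero => simp
    | succ m ih =>
      rw [pow_succ', AlgHom.mul_apply, ih, FiniteField.coe_frobeniusAlgHom, Nat.card_eq_fintype_card]
      show (x ^ Fintype.card k0 ^ m) ^ Fintype.card k0 = x ^ Fintype.card k0 ^ (m + 1)
      rw [← pow_mul, pow_succ]
  have h3 : F ((FiniteField.frobeniusAlgHom k0 k ^ n.1) x) = G x := h1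
  rw [h2, map_pow] at h3
  exact h3.symm

section

variable {F K : Type*} [Field F] [NumberField F] [Field K] [NumberField K] [Algebra F K]
  (p : ℕ) [Fact p.Prime] {Ω : Type*} [Field Ω] [CharP Ω p]

include p

/-- two homomorphisms of `𝓞 K` with the same restriction to `𝓞 F` and the same kernel are conjugate under
a power of the Frobenius automorphism of the residue field of `F` -/
theorem frob_conj_rel (w : 𝓞 F →+* Ω) (ψ φ : 𝓞 K →+* Ω)
    (h1 : ψ.comp (algebraMap (𝓞 F) (𝓞 K)) = w) (h2 : φ.comp (algebraMap (𝓞 F) (𝓞 K)) = w)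
    (h : RingHom.ker ψ = RingHom.ker φ) :
    ∃ n : ℕ, ∀ x, φ x = ψ x ^ Nat.card (𝓞 F ⧸ RingHom.ker w) ^ n := by
  obtain ⟨hne, hmax, hfin, hchar, -, -⟩ :=
    H52FD.prime_data (p := p) (RingHom.ker ψ) (RingHom.ker_isPrime ψ) (H52FD.p_mem_ker ψ)
  obtain ⟨hne', hmax', hfin', hchar', -, -⟩ :=
    H52FD.prime_data (p := p) (RingHom.ker w) (RingHom.ker_isPrime w) (H52FD.p_mem_ker w)
  letI : Field (𝓞 K ⧸ RingHom.ker ψ) := Ideal.Quotient.field _
  letI : Field (𝓞 F ⧸ RingHom.ker w) := Ideal.Quotient.field _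
  have hlies : (RingHom.ker ψ).LiesOver (RingHom.ker w) := ⟨by
    rw [Ideal.under, RingHom.comap_ker, h1]⟩
  let f : (𝓞 K ⧸ RingHom.ker ψ) →+* Ω := Ideal.Quotient.lift _ ψ fun a ha => ha
  let g : (𝓞 K ⧸ RingHom.ker ψ) →+* Ω := Ideal.Quotient.lift _ φ fun a ha => by
    rw [h] at ha
    exact ha
  obtain ⟨n, hn⟩ := frob_conj_field (k0 := 𝓞 F ⧸ RingHom.ker w) f g (by
    apply Ideal.Quotient.ringHom_ext
    ext x
    show ψ (algebraMap (𝓞 F) (𝓞 K) x) = φ (algebraMap (𝓞 F) (𝓞 K) x)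
    rw [← RingHom.comp_apply, ← RingHom.comp_apply, h1, h2])
  exact ⟨n, fun x => hn (Ideal.Quotient.mk _ x)⟩

theorem pow_inertia_rel (w : 𝓞 F →+* Ω) (ψ : 𝓞 K →+* Ω)
    (h1 : ψ.comp (algebraMap (𝓞 F) (𝓞 K)) = w) (x : 𝓞 K) :
    ψ x ^ Nat.card (𝓞 F ⧸ RingHom.ker w) ^ (RingHom.ker ψ).inertiaDeg (𝓞 F) = ψ x := by
  obtain ⟨hne, hmax, hfin, hchar, -, -⟩ :=
    H52FD.prime_data (p := p) (RingHom.ker ψ) (RingHom.ker_isPrime ψ) (H52FD.p_mem_ker ψ)
  obtain ⟨hne', hmax', hfin', hchar', -, -⟩ :=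
    H52FD.prime_data (p := p) (RingHom.ker w) (RingHom.ker_isPrime w) (H52FD.p_mem_ker w)
  have hlies : (RingHom.ker ψ).LiesOver (RingHom.ker w) := ⟨by
    rw [Ideal.under, RingHom.comap_ker, h1]⟩
  have hcard : Nat.card (𝓞 K ⧸ RingHom.ker ψ) =
      Nat.card (𝓞 F ⧸ RingHom.ker w) ^ (RingHom.ker ψ).inertiaDeg (𝓞 F) := by
    rw [Ideal.inertiaDeg_eq_of_isMaximal (RingHom.ker w) (RingHom.ker ψ)]
    letI : Field (𝓞 F ⧸ RingHom.ker w) := Ideal.Quotient.field _
    have : Module.Finite (𝓞 F ⧸ RingHom.ker w) (𝓞 K ⧸ RingHom.ker ψ) := Module.Finite.of_finite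
    exact Module.natCard_eq_pow_finrank
  letI : Field (𝓞 K ⧸ RingHom.ker ψ) := Ideal.Quotient.field _
  letI : Fintype (𝓞 K ⧸ RingHom.ker ψ) := Fintype.ofFinite _
  have h2 : (Ideal.Quotient.mk (RingHom.ker ψ) x) ^
      Nat.card (𝓞 F ⧸ RingHom.ker w) ^ (RingHom.ker ψ).inertiaDeg (𝓞 F) =
      Ideal.Quotient.mk (RingHom.ker ψ) x := by
    rw [← hcard, Nat.card_eq_fintype_card]
    exact FiniteField.pow_card _
  rw [← map_pow, Ideal.Quotient.eq] at h2
  rw [← map_pow, ← sub_eq_zero, ← map_sub]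
  exact h2

end

section

variable {F K : Type*} [Field F] [NumberField F] [Field K] [NumberField K] [Algebra F K]
  {p : ℕ} [Fact p.Prime] {Ω : Type*} [Field Ω] [CharP Ω p]

/-- relative local degree and relative residue degree -/
noncomputable def degR (F : Type*) {K : Type*} [Field F] [NumberField F] [Field K] [NumberField K]
    [Algebra F K] (v : HeightOneSpectrum (𝓞 K)) : ℕ × ℕ :=
  (v.asIdeal.ramificationIdx (𝓞 F) * v.asIdeal.inertiaDeg (𝓞 F), v.asIdeal.inertiaDeg (𝓞 F))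

omit [NumberField F] [NumberField K] in
theorem s3_of_s3st {α Ω : Type*} [Field Ω] {T : α → Ω} (h : S3St T) : H52FD.S3 T := by
  obtain ⟨σ, hσ⟩ := h.inv'
  exact ⟨⟨σ, fun v => by rw [hσ, inv_mul_cancel₀ (h.ne0 v)]⟩, h.sub'⟩

/-- the splitting for a relative family -/
theorem core_splits [IsAlgClosed Ω] (hp5 : 5 ≤ p) (hd : Module.finrank ℚ K < p) {w : 𝓞 F →+* Ω}
    {ψ : Fin (Module.finrank F K) → (𝓞 K →+* Ω)} (hψ : RelFam w ψ) {a b c : 𝓞 K}
    (h : FSol K p a b c)
    (hS3 : H52FD.S3 (fun i : {i // ψ i a ≠ 0 ∧ ψ i b ≠ 0 ∧ ψ i c ≠ 0} => -(ψ i.1 b) / ψ i.1 a))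
    (S : Finset (HeightOneSpectrum (𝓞 K)))
    (hS : ∀ v, v ∈ S ↔ v.asIdeal.under (𝓞 F) = RingHom.ker w ∧ a ∉ v.asIdeal ∧ b ∉ v.asIdeal ∧
      c ∉ v.asIdeal) :
    Splits (Nat.card (𝓞 F ⧸ RingHom.ker w) % 3) (p ^ 2 ∣ 2 ^ (p - 1) - 1) (S.val.map (degR F)) := by
  classical
  have hpp : p.Prime := Fact.out
  set q := Nat.card (𝓞 F ⧸ RingHom.ker w) with hqdef
  have hq : q = p ^ (RingHom.ker w).inertiaDeg ℤ :=
    ((H52FD.prime_data (p := p) _ (RingHom.ker_isPrime w) (H52FD.p_mem_ker w)).2.2.2.2.2).symm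
  have hodd : ∀ k : ℕ, Odd (q ^ k) := by
    intro k
    apply Odd.pow
    rw [hq]
    apply Odd.pow
    rcases hpp.eq_two_or_odd' with h | h
    · omega
    · exact h
  have hne : ∀ i : Fin (Module.finrank F K), RingHom.ker (ψ i) ≠ ⊥ := fun i =>
    (H52FD.prime_data (p := p) _ (RingHom.ker_isPrime (ψ i)) (H52FD.p_mem_ker _)).1
  let κ : {i // ψ i a ≠ 0 ∧ ψ i b ≠ 0 ∧ ψ i c ≠ 0} → {v // v ∈ S} := fun i =>
    ⟨⟨RingHom.ker (ψ i.1), RingHom.ker_isPrime _, hne i.1⟩, (hS _).2 ⟨under_ker hψ i.1, i.2⟩⟩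
  have hκ0 : ∀ i, (κ i).1.asIdeal = RingHom.ker (ψ i.1) := fun i => rfl
  have hκ1 : ∀ i P, κ i = P ↔ RingHom.ker (ψ i.1) = P.1.asIdeal := by
    intro i P
    rw [← hκ0 i]
    constructor
    · rintro rfl
      rfl
    · intro h
      exact Subtype.ext (HeightOneSpectrum.ext h)
  have hZ : ∀ (P : {v // v ∈ S}) (i : Fin (Module.finrank F K)),
      RingHom.ker (ψ i) = P.1.asIdeal → ψ i a ≠ 0 ∧ ψ i b ≠ 0 ∧ ψ i c ≠ 0 := by
    intro P i hi
    obtain ⟨-, ha, hb, hc⟩ := (hS P.1).1 P.2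
    rw [← hi] at ha hb hc
    exact ⟨ha, hb, hc⟩
  have hker : ∀ P : {v // v ∈ S}, Nat.card {i // RingHom.ker (ψ i) = P.1.asIdeal} =
      P.1.asIdeal.ramificationIdx (𝓞 F) * P.1.asIdeal.inertiaDeg (𝓞 F) := fun P =>
    card_ker_rel F K p w ψ hψ.form P.1.asIdeal P.1.isPrime ((hS P.1).1 P.2).1
  have hpos : ∀ v : HeightOneSpectrum (𝓞 K), 0 < v.asIdeal.ramificationIdx (𝓞 F) ∧
      0 < v.asIdeal.inertiaDeg (𝓞 F) := by
    intro v
    have := v.isPrime
    exact ⟨Ideal.ramificationIdx_pos v.asIdeal (𝓞 F), Ideal.inertiaDeg_pos v.asIdeal (𝓞 F)⟩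
  have hκ : Function.Surjective κ := by
    intro P
    have h1 : 0 < Nat.card {i // RingHom.ker (ψ i) = P.1.asIdeal} := by
      rw [hker]
      exact Nat.mul_pos (hpos P.1).1 (hpos P.1).2
    obtain ⟨⟨i0, hi0⟩⟩ := (Nat.card_pos_iff.1 h1).1
    exact ⟨⟨i0, hZ P i0 hi0⟩, (hκ1 _ _).2 hi0⟩
  have hcard : ∀ P : {v // v ∈ S}, Nat.card {i // κ i = P} =
      P.1.asIdeal.ramificationIdx (𝓞 F) * P.1.asIdeal.inertiaDeg (𝓞 F) := by
    intro P
    rw [← hker P]
    exact Nat.card_congr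
      { toFun := fun i => ⟨i.1.1, (hκ1 _ _).1 i.2⟩
        invFun := fun i => ⟨⟨i.1, hZ P i.1 i.2⟩, (hκ1 _ _).2 i.2⟩
        left_inv := fun i => rfl
        right_inv := fun i => rfl }
  have key := splits_of_S3_q (p := p) (q := q) (f := fun P => P.1.asIdeal.inertiaDeg (𝓞 F)) hp5
    ⟨_, hq⟩ hS3 hκ ?_ ?_ ?_ (W := p ^ 2 ∣ 2 ^ (p - 1) - 1) ?_
  · have h1 : (Finset.univ : Finset {v // v ∈ S}).val.map (fun P =>
        (Nat.card {i // κ i = P}, P.1.asIdeal.inertiaDeg (𝓞 F))) = S.val.map (degR F) := by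
      have h2 : (fun P : {v // v ∈ S} => (Nat.card {i // κ i = P}, P.1.asIdeal.inertiaDeg (𝓞 F))) =
          fun P => degR F P.1 := by
        funext P
        rw [hcard]
        rfl
      rw [h2, Finset.univ_eq_attach, Finset.attach_val]
      exact Multiset.attach_map_val' S.val (degR F)
    rw [← h1]
    exact key
  · intro i j hij
    obtain ⟨k, hk⟩ := frob_conj_rel p w (ψ i.1) (ψ j.1) (hψ.lies _) (hψ.lies _) (by
      rw [← hκ0, ← hκ0, hij])
    refine ⟨k, ?_⟩
    show -(ψ j.1 b) / ψ j.1 a = (-(ψ i.1 b) / ψ i.1 a) ^ q ^ k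
    rw [div_pow, (hodd k).neg_pow, hk, hk]
  · intro i
    show (-(ψ i.1 b) / ψ i.1 a) ^ q ^ ((κ i).1.asIdeal.inertiaDeg (𝓞 F)) = -(ψ i.1 b) / ψ i.1 a
    rw [div_pow, (hodd _).neg_pow, hκ0, pow_inertia_rel p w _ (hψ.lies _),
      pow_inertia_rel p w _ (hψ.lies _)]
  · intro P
    exact (hpos P.1).2
  · rintro ⟨i, hi⟩
    by_contra hW
    have h3 : -(ψ i.1 b) / ψ i.1 a = -1 := hi
    rw [div_eq_iff i.2.1] at h3
    exact cm_one (by omega) hd h hW (ψ i.1) i.2.1 (by linear_combination h3)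

end

/-- **The relative splitting criterion.**  `w` a prime of `F` above `p`, `S` the set of the primes of `K`
above `w` at which `a, b, c` have the same valuation. -/
theorem rel_splits (F : Type*) [Field F] [NumberField F] (K : Type*) [Field K] [NumberField K]
    [Algebra F K] (p : ℕ) [Fact p.Prime] (hp5 : 5 ≤ p) (hd : Module.finrank ℚ K < p)
    (hS : SymFK F K p) (a b c : K) (ha : a ≠ 0) (hb : b ≠ 0) (hc : c ≠ 0)
    (h : a ^ p + b ^ p + c ^ p = 0) (w : HeightOneSpectrum (𝓞 F)) (hw : (p : 𝓞 F) ∈ w.asIdeal)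
    (S : Finset (HeightOneSpectrum (𝓞 K)))
    (hSv : ∀ v, v ∈ S ↔ v.asIdeal.under (𝓞 F) = w.asIdeal ∧ H55AB.EqAt v a b c) :
    Splits (Nat.card (𝓞 F ⧸ w.asIdeal) % 3) (p ^ 2 ∣ 2 ^ (p - 1) - 1) (S.val.map (degR F)) := by
  classical
  obtain ⟨l, a', b', c', hl, ea, eb, ec, hF, hcp, hall⟩ := H3AB.scale_mixed ha hb hc h
  obtain ⟨w', hker⟩ := H3AB.exists_hom_ker p (AlgebraicClosure (ZMod p)) w.asIdeal w.isPrime hw
  obtain ⟨ψ, hψ⟩ := exists_rel F K (AlgebraicClosure (ZMod p)) w'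
  have hT := s3_of_s3st (s3_fam hψ hF hcp (hS a' b' c' hF hcp w'))
  let e : {i // ψ i a' ≠ 0 ∧ ψ i b' ≠ 0 ∧ ψ i c' ≠ 0} ≃ GI ψ a' b' :=
    Equiv.subtypeEquivRight fun i => (good_iff hF i).symm
  have hT' := hT.comp e
  rw [← hker]
  refine core_splits hp5 hd hψ hF hT' S fun v => ?_
  rw [hSv v, hker]
  constructor
  · rintro ⟨h1, h2⟩
    exact ⟨h1, (hall v (p_mem_of_under h1 hw)).1 h2⟩
  · rintro ⟨h1, h2⟩
    exact ⟨h1, (hall v (p_mem_of_under h1 hw)).2 h2⟩

end H31AB

end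

section

/-!
# The partition criterion (explicit form), relative to a real abelian field
-/

open Polynomial NumberField IsDedekindDomain H9FC H9AB

namespace H31AB

open H85FD H55AB

/-- change of the elements -/
theorem split4_map {α β : Type*} {wt f : α → ℕ} {cub : α → Prop} {r : ℕ} {W : Prop}
    {M E M6 M3 M2 : Multiset α} (h : Split4 wt f cub r W M E M6 M3 M2) (g : α → β) {wt' f' : β → ℕ}
    {cub' : β → Prop} (hwt : ∀ a, wt' (g a) = wt a) (hf : ∀ a, f' (g a) = f a)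
    (hc : ∀ a, cub' (g a) ↔ cub a) :
    Split4 wt' f' cub' r W (M.map g) (E.map g) (M6.map g) (M3.map g) (M2.map g) := by
  refine ⟨by rw [h.eq]; simp only [Multiset.map_add], fun v hv => ?_, fun v hv => ?_,
    fun hr v hv => ?_, fun hr => (h.two hr).map g hwt, h.p6.map g hwt, h.p3.map g hwt, ?_,
    h.p2.map g hwt, fun v hv => ?_⟩
  · obtain ⟨a, ha, rfl⟩ := Multiset.mem_map.1 hv
    exact (hc a).2 (h.cubE a ha)
  · rw [← Multiset.map_add, ← Multiset.map_add] at hv
    obtain ⟨a, ha, rfl⟩ := Multiset.mem_map.1 hv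
    rw [hc]
    exact h.cubN a ha
  · obtain ⟨a, ha, rfl⟩ := Multiset.mem_map.1 hv
    rw [hf]
    exact h.even hr a ha
  · rcases h.e3 with h1 | h1
    · exact Or.inl h1
    · right
      intro v hv
      obtain ⟨a, ha, rfl⟩ := Multiset.mem_map.1 hv
      rw [hf]
      exact h1 a ha
  · obtain ⟨a, ha, rfl⟩ := Multiset.mem_map.1 hv
    rw [hf]
    exact h.d2 a ha

section

variable {F K : Type*} [Field F] [NumberField F] [Field K] [NumberField K] [Algebra F K]
  {p : ℕ} [Fact p.Prime] {Ω : Type*} [Field Ω] [CharP Ω p]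

/-- the partition for a relative family -/
theorem core_parts [IsAlgClosed Ω] (hp5 : 5 ≤ p) (hd : Module.finrank ℚ K < p) {w : 𝓞 F →+* Ω}
    {ψ : Fin (Module.finrank F K) → (𝓞 K →+* Ω)} (hψ : RelFam w ψ) {a b c : 𝓞 K}
    (h : FSol K p a b c)
    (hS3 : H52FD.S3 (fun i : {i // ψ i a ≠ 0 ∧ ψ i b ≠ 0 ∧ ψ i c ≠ 0} => -(ψ i.1 b) / ψ i.1 a))
    (S : Finset (HeightOneSpectrum (𝓞 K)))
    (hS : ∀ v, v ∈ S ↔ v.asIdeal.under (𝓞 F) = RingHom.ker w ∧ a ∉ v.asIdeal ∧ b ∉ v.asIdeal ∧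
      c ∉ v.asIdeal) {cub : HeightOneSpectrum (𝓞 K) → Prop}
    (hcub : ∀ v ∈ S, cub v ↔ a ^ 2 + a * b + b ^ 2 ∈ v.asIdeal) :
    ∃ E M6 M3 M2, Split4 (fun v : HeightOneSpectrum (𝓞 K) =>
      v.asIdeal.ramificationIdx (𝓞 F) * v.asIdeal.inertiaDeg (𝓞 F))
      (fun v => v.asIdeal.inertiaDeg (𝓞 F)) cub (Nat.card (𝓞 F ⧸ RingHom.ker w) % 3)
      (p ^ 2 ∣ 2 ^ (p - 1) - 1) S.val E M6 M3 M2 := by
  classical
  have hpp : p.Prime := Fact.out
  set q := Nat.card (𝓞 F ⧸ RingHom.ker w) with hqdef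
  have hq : q = p ^ (RingHom.ker w).inertiaDeg ℤ :=
    ((H52FD.prime_data (p := p) _ (RingHom.ker_isPrime w) (H52FD.p_mem_ker w)).2.2.2.2.2).symm
  have hodd : ∀ k : ℕ, Odd (q ^ k) := by
    intro k
    apply Odd.pow
    rw [hq]
    apply Odd.pow
    rcases hpp.eq_two_or_odd' with h | h
    · omega
    · exact h
  have hne : ∀ i : Fin (Module.finrank F K), RingHom.ker (ψ i) ≠ ⊥ := fun i =>
    (H52FD.prime_data (p := p) _ (RingHom.ker_isPrime (ψ i)) (H52FD.p_mem_ker _)).1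
  let κ : {i // ψ i a ≠ 0 ∧ ψ i b ≠ 0 ∧ ψ i c ≠ 0} → {v // v ∈ S} := fun i =>
    ⟨⟨RingHom.ker (ψ i.1), RingHom.ker_isPrime _, hne i.1⟩, (hS _).2 ⟨under_ker hψ i.1, i.2⟩⟩
  have hκ0 : ∀ i, (κ i).1.asIdeal = RingHom.ker (ψ i.1) := fun i => rfl
  have hκ1 : ∀ i P, κ i = P ↔ RingHom.ker (ψ i.1) = P.1.asIdeal := by
    intro i P
    rw [← hκ0 i]
    constructor
    · rintro rfl
      rfl
    · intro h
      exact Subtype.ext (HeightOneSpectrum.ext h)
  have hZ : ∀ (P : {v // v ∈ S}) (i : Fin (Module.finrank F K)),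
      RingHom.ker (ψ i) = P.1.asIdeal → ψ i a ≠ 0 ∧ ψ i b ≠ 0 ∧ ψ i c ≠ 0 := by
    intro P i hi
    obtain ⟨-, ha, hb, hc⟩ := (hS P.1).1 P.2
    rw [← hi] at ha hb hc
    exact ⟨ha, hb, hc⟩
  have hker : ∀ P : {v // v ∈ S}, Nat.card {i // RingHom.ker (ψ i) = P.1.asIdeal} =
      P.1.asIdeal.ramificationIdx (𝓞 F) * P.1.asIdeal.inertiaDeg (𝓞 F) := fun P =>
    card_ker_rel F K p w ψ hψ.form P.1.asIdeal P.1.isPrime ((hS P.1).1 P.2).1
  have hpos : ∀ v : HeightOneSpectrum (𝓞 K), 0 < v.asIdeal.ramificationIdx (𝓞 F) ∧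
      0 < v.asIdeal.inertiaDeg (𝓞 F) := by
    intro v
    have := v.isPrime
    exact ⟨Ideal.ramificationIdx_pos v.asIdeal (𝓞 F), Ideal.inertiaDeg_pos v.asIdeal (𝓞 F)⟩
  have hκ : Function.Surjective κ := by
    intro P
    have h1 : 0 < Nat.card {i // RingHom.ker (ψ i) = P.1.asIdeal} := by
      rw [hker]
      exact Nat.mul_pos (hpos P.1).1 (hpos P.1).2
    obtain ⟨⟨i0, hi0⟩⟩ := (Nat.card_pos_iff.1 h1).1
    exact ⟨⟨i0, hZ P i0 hi0⟩, (hκ1 _ _).2 hi0⟩
  have hcard : ∀ P : {v // v ∈ S}, Nat.card {i // κ i = P} =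
      P.1.asIdeal.ramificationIdx (𝓞 F) * P.1.asIdeal.inertiaDeg (𝓞 F) := by
    intro P
    rw [← hker P]
    exact Nat.card_congr
      { toFun := fun i => ⟨i.1.1, (hκ1 _ _).1 i.2⟩
        invFun := fun i => ⟨⟨i.1, hZ P i.1 i.2⟩, (hκ1 _ _).2 i.2⟩
        left_inv := fun i => rfl
        right_inv := fun i => rfl }
  have key := parts_of_S3 (p := p) (q := q) (f := fun P => P.1.asIdeal.inertiaDeg (𝓞 F)) hp5
    ⟨_, hq⟩ hS3 hκ ?_ ?_ ?_ (cub := fun P => cub P.1) ?_ (W := p ^ 2 ∣ 2 ^ (p - 1) - 1) ?_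
  · obtain ⟨E, M6, M3, M2, hE⟩ := key
    refine ⟨E.map Subtype.val, M6.map Subtype.val, M3.map Subtype.val, M2.map Subtype.val, ?_⟩
    have h1 : (Finset.univ : Finset {v // v ∈ S}).val.map Subtype.val = S.val := by
      rw [Finset.univ_eq_attach, Finset.attach_val]
      exact Multiset.attach_map_val S.val
    rw [← h1]
    exact split4_map hE Subtype.val (fun P => (hcard P).symm) (fun P => rfl) (fun P => Iff.rfl)
  · intro i j hij
    obtain ⟨k, hk⟩ := frob_conj_rel p w (ψ i.1) (ψ j.1) (hψ.lies _) (hψ.lies _) (by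
      rw [← hκ0, ← hκ0, hij])
    refine ⟨k, ?_⟩
    show -(ψ j.1 b) / ψ j.1 a = (-(ψ i.1 b) / ψ i.1 a) ^ q ^ k
    rw [div_pow, (hodd k).neg_pow, hk, hk]
  · intro i
    show (-(ψ i.1 b) / ψ i.1 a) ^ q ^ ((κ i).1.asIdeal.inertiaDeg (𝓞 F)) = -(ψ i.1 b) / ψ i.1 a
    rw [div_pow, (hodd _).neg_pow, hκ0, pow_inertia_rel p w _ (hψ.lies _),
      pow_inertia_rel p w _ (hψ.lies _)]
  · intro P
    exact (hpos P.1).2
  · intro i
    have h1 : cub (κ i).1 ↔ ψ i.1 (a ^ 2 + a * b + b ^ 2) = 0 := hcub _ (κ i).2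
    have h2 : (-(ψ i.1 b) / ψ i.1 a) ^ 2 - -(ψ i.1 b) / ψ i.1 a + 1 =
        ψ i.1 (a ^ 2 + a * b + b ^ 2) / ψ i.1 a ^ 2 := by
      have := i.2.1
      simp only [map_add, map_mul, map_pow]
      field_simp
      ring
    show cub (κ i).1 ↔ (-(ψ i.1 b) / ψ i.1 a) ^ 2 - -(ψ i.1 b) / ψ i.1 a + 1 = 0
    rw [h1, h2, div_eq_zero_iff]
    exact ⟨Or.inl, fun h3 => h3.resolve_right (pow_ne_zero 2 i.2.1)⟩
  · rintro ⟨i, hi⟩
    by_contra hW
    have h3 : -(ψ i.1 b) / ψ i.1 a = -1 := hi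
    rw [div_eq_iff i.2.1] at h3
    exact cm_one (by omega) hd h hW (ψ i.1) i.2.1 (by linear_combination h3)

/-- scaling and the cubic condition, both directions -/
theorem cub_iff_iff {l a b : K} {a' b' : 𝓞 K} (hl : l ≠ 0) (ea : (a' : K) = l * a)
    (eb : (b' : K) = l * b) {v : HeightOneSpectrum (𝓞 K)} (ha : a' ∉ v.asIdeal) :
    v.valuation K (a ^ 2 + a * b + b ^ 2) < v.valuation K (a ^ 2) ↔
      a' ^ 2 + a' * b' + b' ^ 2 ∈ v.asIdeal := by
  refine ⟨fun h => ?_, fun h => cub_iff hl ea eb ha h⟩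
  rw [← HeightOneSpectrum.valuation_lt_one_iff_mem (K := K) v]
  have h2 : ((a' ^ 2 + a' * b' + b' ^ 2 : 𝓞 K) : K) = l ^ 2 * (a ^ 2 + a * b + b ^ 2) := by
    simp only [map_add, map_mul, map_pow, ea, eb]
    ring
  have h3 : v.valuation K (l ^ 2 * a ^ 2) ≤ 1 := by
    have h4 : l ^ 2 * a ^ 2 = ((a' ^ 2 : 𝓞 K) : K) := by
      simp only [map_pow, ea]
      ring
    rw [h4]
    exact v.valuation_le_one (K := K) (a' ^ 2)
  have h5 : v.valuation K (l ^ 2) ≠ 0 := by
    rw [(v.valuation K).ne_zero_iff]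
    exact pow_ne_zero 2 hl
  show v.valuation K ((a' ^ 2 + a' * b' + b' ^ 2 : 𝓞 K) : K) < 1
  rw [h2, map_mul]
  rw [map_mul] at h3
  exact lt_of_lt_of_le (mul_lt_mul_of_pos_left h (zero_lt_iff.2 h5)) h3

end

/-- **The relative partition criterion.**  `w` a prime of `F` above `p`, `S` the set of the primes of `K`
above `w` at which `a, b, c` have the same valuation. -/
theorem rel_parts (F : Type*) [Field F] [NumberField F] (K : Type*) [Field K] [NumberField K]
    [Algebra F K] (p : ℕ) [Fact p.Prime] (hp5 : 5 ≤ p) (hd : Module.finrank ℚ K < p)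
    (hS : SymFK F K p) (a b c : K) (ha : a ≠ 0) (hb : b ≠ 0) (hc : c ≠ 0)
    (h : a ^ p + b ^ p + c ^ p = 0) (w : HeightOneSpectrum (𝓞 F)) (hw : (p : 𝓞 F) ∈ w.asIdeal)
    (S : Finset (HeightOneSpectrum (𝓞 K)))
    (hSv : ∀ v, v ∈ S ↔ v.asIdeal.under (𝓞 F) = w.asIdeal ∧ H55AB.EqAt v a b c) :
    ∃ E M6 M3 M2, Split4 (fun v : HeightOneSpectrum (𝓞 K) =>
      v.asIdeal.ramificationIdx (𝓞 F) * v.asIdeal.inertiaDeg (𝓞 F))
      (fun v => v.asIdeal.inertiaDeg (𝓞 F)) (fun v => H55AB.CubAt v a b c)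
      (Nat.card (𝓞 F ⧸ w.asIdeal) % 3) (p ^ 2 ∣ 2 ^ (p - 1) - 1) S.val E M6 M3 M2 := by
  classical
  obtain ⟨l, a', b', c', hl, ea, eb, ec, hF, hcp, hall⟩ := H3AB.scale_mixed ha hb hc h
  obtain ⟨w', hker⟩ := H3AB.exists_hom_ker p (AlgebraicClosure (ZMod p)) w.asIdeal w.isPrime hw
  obtain ⟨ψ, hψ⟩ := exists_rel F K (AlgebraicClosure (ZMod p)) w'
  have hT := s3_of_s3st (s3_fam hψ hF hcp (hS a' b' c' hF hcp w'))
  let e : {i // ψ i a' ≠ 0 ∧ ψ i b' ≠ 0 ∧ ψ i c' ≠ 0} ≃ GI ψ a' b' :=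
    Equiv.subtypeEquivRight fun i => (good_iff hF i).symm
  have hT' := hT.comp e
  rw [← hker]
  have hSv' : ∀ v, v ∈ S ↔ v.asIdeal.under (𝓞 F) = RingHom.ker w' ∧ a' ∉ v.asIdeal ∧
      b' ∉ v.asIdeal ∧ c' ∉ v.asIdeal := by
    intro v
    rw [hSv v, hker]
    constructor
    · rintro ⟨h1, h2⟩
      exact ⟨h1, (hall v (p_mem_of_under h1 hw)).1 h2⟩
    · rintro ⟨h1, h2⟩
      exact ⟨h1, (hall v (p_mem_of_under h1 hw)).2 h2⟩
  refine core_parts hp5 hd hψ hF hT' S hSv' fun v hv => ?_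
  rw [← cub_iff_iff hl ea eb ((hSv' v).1 hv).2.1]
  exact ⟨fun h1 => h1.2, fun h1 => ⟨((hSv v).1 hv).2, h1⟩⟩

end H31AB

end

section

/-!
# FD version 2, module RelAll: the relative theorems

* `rel_real`: `F` totally real in `ℚ(ζ_f)`, `[K:F] ≤ d`, `p` outside a null set depending on `f, d`: for
  every solution in `K` and every prime `w` of `F` above `p` the conclusions of `rel_main`.
* `rel_first`: `F` any subfield of `ℚ(ζ_f)`, the first case, `3 ∤ [K:F]`.
-/

open NumberField Polynomial IsDedekindDomain H9FC H9AB H85FD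

namespace H55AB

universe u v

/-- the degree of a subfield of a cyclotomic field -/
theorem finrank_le (f : ℕ) [NeZero f] (F : Type*) [Field F] [NumberField F]
    (h : Nonempty (F →+* CyclotomicField f ℚ)) (K : Type*) [Field K] [NumberField K] [Algebra F K]
    (d : ℕ) (hd : Module.finrank F K ≤ d) : Module.finrank ℚ K ≤ f * d := by
  obtain ⟨ι⟩ := h
  have hfq : NeZero ((f : ℕ) : ℚ) := ⟨Nat.cast_ne_zero.2 (NeZero.ne f)⟩
  have hcyc : IsCyclotomicExtension {f} ℚ (CyclotomicField f ℚ) :=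
    CyclotomicField.isCyclotomicExtension f ℚ
  have h1 : Module.finrank ℚ F ≤ f := by
    have h2 : Module.finrank ℚ F ≤ Module.finrank ℚ (CyclotomicField f ℚ) :=
      LinearMap.finrank_le_finrank_of_injective (f := ι.toRatAlgHom.toLinearMap) ι.injective
    have h3 : Module.finrank ℚ (CyclotomicField f ℚ) = f.totient :=
      IsCyclotomicExtension.Rat.finrank f (CyclotomicField f ℚ)
    rw [h3] at h2
    exact h2.trans (Nat.totient_le f)
  have hT : IsScalarTower ℚ F K := IsScalarTower.of_algebraMap_eq' (Subsingleton.elim _ _)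
  rw [← Module.finrank_mul_finrank ℚ F K]
  exact Nat.mul_le_mul h1 hd

/-- the sum of the local degrees over `w` if all the primes above `w` are good -/
theorem goodRel_all (F : Type*) [Field F] [NumberField F] (K : Type*) [Field K] [NumberField K]
    [Algebra F K] (p : ℕ) [Fact p.Prime] (a b c : K) (ha : a ≠ 0) (hb : b ≠ 0) (hc : c ≠ 0)
    (hsol : a ^ p + b ^ p + c ^ p = 0) (w : HeightOneSpectrum (𝓞 F)) (hw : (p : 𝓞 F) ∈ w.asIdeal)
    (hall : ∀ v : HeightOneSpectrum (𝓞 K), v.asIdeal.under (𝓞 F) = w.asIdeal → EqAt v a b c) :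
    goodRel F K w a b c = Module.finrank F K := by
  obtain ⟨l, a', b', c', hl, ea, eb, ec, hF', hcp, hall2⟩ := H3AB.scale_mixed ha hb hc hsol
  obtain ⟨w', hker⟩ := H3AB.exists_hom_ker p (AlgebraicClosure (ZMod p)) w.asIdeal w.isPrime hw
  obtain ⟨ψ, hψ⟩ := exists_rel F K (AlgebraicClosure (ZMod p)) w'
  rw [goodRel_eq hw hker hψ hF' hall2]
  have hall' : ∀ i, Good (fun i => ψ i a') (fun i => ψ i b') i := fun i => by
    have h1 : (RingHom.ker (ψ i)).under (𝓞 F) = w.asIdeal := by rw [under_ker hψ i, hker]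
    have hne := (H52FD.prime_data (p := p) _ (RingHom.ker_isPrime (ψ i)) (H52FD.p_mem_ker (ψ i))).1
    exact (good_iff hF' i).2 ((hall2 ⟨_, RingHom.ker_isPrime (ψ i), hne⟩
      (H52FD.p_mem_ker (ψ i))).1 (hall ⟨_, RingHom.ker_isPrime (ψ i), hne⟩ h1))
  rw [← Nat.card_fin (Module.finrank F K)]
  exact Nat.card_congr (Equiv.subtypeUnivEquiv hall')

end H55AB

end

section

/-!
# Fields of large degree with symmetric or alternating Galois group: the count
-/

set_option autoImplicit false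
set_option linter.unusedSectionVars false

open Finset Equiv H93FD H85FD

namespace Pool.Agent.H89.FE

/-- the elements of the Galois group whose cycle type on the embeddings of `K` does not split -/
def CC (K L : Type) [Field K] [NumberField K] [Field L] [NumberField L] [IsGalois ℚ L] : Set Gal(L/ℚ) :=
  {g | ∀ (_ : Fintype (K →ₐ[ℚ] L)) (_ : DecidableEq (K →ₐ[ℚ] L)),
    ¬ SplitsN 1 (compPerm (K := K) g).partition.parts ∧ ¬ SplitsN 2 (compPerm (K := K) g).partition.parts}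

theorem card_CC
    (hfew : ∀ δ : ℝ, 0 < δ → ∃ d₀ : ℕ, ∀ (α : Type) [Fintype α] [DecidableEq α], d₀ ≤ Fintype.card α →
      (Nat.card {g : Perm α // SplitsN 1 g.partition.parts ∨ SplitsN 2 g.partition.parts} : ℝ) ≤
        δ * (Fintype.card α).factorial) (δ : ℝ) (hδ : 0 < δ) :
    ∃ d₀ : ℕ, 3 ≤ d₀ ∧ ∀ (K L : Type) [Field K] [NumberField K] [Field L] [NumberField L] [IsGalois ℚ L],
      (⨆ s : K →ₐ[ℚ] L, s.fieldRange) = ⊤ → (Module.finrank ℚ K).factorial ≤ 2 * Module.finrank ℚ L →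
      d₀ ≤ Module.finrank ℚ K → (1 - δ) * (Module.finrank ℚ L : ℝ) ≤ (CC K L).ncard := by
  classical
  obtain ⟨d₁, hd₁⟩ := hfew (δ / 2) (by positivity)
  refine ⟨max d₁ 3, le_max_right _ _, ?_⟩
  intro K L _ _ _ _ _ hgen hL hd
  have h3 : 3 ≤ Module.finrank ℚ K := (le_max_right _ _).trans hd
  have hcard := card_emb_of_half h3 hgen hL
  let iF : Fintype (K →ₐ[ℚ] L) := Fintype.ofFinite _
  have hcard' : Fintype.card (K →ₐ[ℚ] L) = Module.finrank ℚ K := by
    rw [← Nat.card_eq_fintype_card]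
    exact hcard
  have h1 := hd₁ (K →ₐ[ℚ] L) (by rw [hcard']; exact (le_max_left _ _).trans hd)
  have hf : (Fintype.card (K →ₐ[ℚ] L)).factorial = (Module.finrank ℚ K).factorial := by rw [hcard']
  rw [hf] at h1
  have hinj : Function.Injective (compPerm : Gal(L/ℚ) → Perm (K →ₐ[ℚ] L)) := compPerm_injective hgen
  have h2 : Nat.card {g : Gal(L/ℚ) // SplitsN 1 (compPerm (K := K) g).partition.parts ∨
      SplitsN 2 (compPerm (K := K) g).partition.parts} ≤
      Nat.card {g : Perm (K →ₐ[ℚ] L) // SplitsN 1 g.partition.parts ∨ SplitsN 2 g.partition.parts} :=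
    Nat.card_le_card_of_injective (Subtype.map compPerm fun g hg => hg) (Subtype.map_injective _ hinj)
  have hCC : CC K L = {g : Gal(L/ℚ) | SplitsN 1 (compPerm (K := K) g).partition.parts ∨
      SplitsN 2 (compPerm (K := K) g).partition.parts}ᶜ := by
    ext g
    simp only [CC, Set.mem_setOf_eq, Set.mem_compl_iff, not_or]
    constructor
    · intro h
      exact h _ _
    · intro h i1 i2
      have e1 : i1 = iF := Subsingleton.elim _ _
      subst e1
      have e2 : i2 = (fun a b => Classical.propDecidable (a = b)) := Subsingleton.elim _ _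
      subst e2
      exact h
  have h4 : (CC K L).ncard + {g : Gal(L/ℚ) | SplitsN 1 (compPerm (K := K) g).partition.parts ∨
      SplitsN 2 (compPerm (K := K) g).partition.parts}.ncard = Module.finrank ℚ L := by
    rw [hCC, add_comm, Set.ncard_add_ncard_compl, IsGalois.card_aut_eq_finrank]
  have h5 : {g : Gal(L/ℚ) | SplitsN 1 (compPerm (K := K) g).partition.parts ∨
      SplitsN 2 (compPerm (K := K) g).partition.parts}.ncard =
      Nat.card {g : Gal(L/ℚ) // SplitsN 1 (compPerm (K := K) g).partition.parts ∨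
      SplitsN 2 (compPerm (K := K) g).partition.parts} := rfl
  rw [h5] at h4
  have h6 : ((CC K L).ncard : ℝ) + Nat.card {g : Gal(L/ℚ) // SplitsN 1 (compPerm (K := K) g).partition.parts ∨
      SplitsN 2 (compPerm (K := K) g).partition.parts} = Module.finrank ℚ L := by exact_mod_cast h4
  have h7 : (Nat.card {g : Gal(L/ℚ) // SplitsN 1 (compPerm (K := K) g).partition.parts ∨
      SplitsN 2 (compPerm (K := K) g).partition.parts} : ℝ) ≤ Nat.card {g : Perm (K →ₐ[ℚ] L) //
      SplitsN 1 g.partition.parts ∨ SplitsN 2 g.partition.parts} := by exact_mod_cast h2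
  have h8 : ((Module.finrank ℚ K).factorial : ℝ) ≤ 2 * Module.finrank ℚ L := by exact_mod_cast hL
  have h9 : δ / 2 * ((Module.finrank ℚ K).factorial : ℝ) ≤ δ / 2 * (2 * Module.finrank ℚ L) :=
    mul_le_mul_of_nonneg_left h8 (by positivity)
  linarith

/-- the type of the permutation -/
theorem not_splits {K L : Type} [Field K] [NumberField K] [Field L] [NumberField L] [IsGalois ℚ L]
    {g : Gal(L/ℚ)} (hg : g ∈ CC K L) (i1 : Fintype (K →ₐ[ℚ] L)) (i2 : DecidableEq (K →ₐ[ℚ] L))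
    (π : Perm (K →ₐ[ℚ] L)) (hπ : ∀ σ, π σ = (g : L →ₐ[ℚ] L).comp σ) (r : ℕ) (hr : r = 1 ∨ r = 2) :
    ¬ SplitsN r π.partition.parts := by
  have h1 : π = compPerm g := Equiv.ext hπ
  subst h1
  rcases hr with rfl | rfl
  · exact (hg i1 i2).1
  · exact (hg i1 i2).2

end Pool.Agent.H89.FE

end
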