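import Pool.Agent.H71.TFC.M09
import Pool.Agent.H71.TFC.M15

/-! The parts of this file: H10.FG.Main, H10.FG.Solv, H85.FD2.Real, H85.FD2.Main, H85.FD2.Clause, H89.FE.Large, H89.FE.QGrp, H89.FE.Quartic, H85.FD2.Rel. -/

section

/-!
# FG Main: the first case for the Frobenius classes whose cycle type does not split

`rel_lower`: `F` a totally real abelian field, `K` a number field which contains `F`, `L / ℚ` Galois with `K → L` and
`ω ∈ L`, `C` a set of elements `g` of the Galois group such that for some embedding `τ : F → L`, with `k` the period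
of `τ` under `g`, the cycle type of `g ^ k` on the embeddings `K → L` over `τ` does not split.  Then the
primes `p` for which the first case holds over `K` have lower Dirichlet density at least `#C / [L : ℚ]`.
-/

set_option autoImplicit false
set_option linter.unusedSectionVars false

open scoped Pointwise NumberField
open NumberField IsDedekindDomain

namespace H10FG

open Pool.Agent.H71.FD (Null Null_of_bounded)
open Pool.Agent.H89.FrobD (setE act Emb rel_part pow_mod_three_iff act_iter)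
open H85FD (SplitsN Parts)

/-- the two forms of the criterion -/
theorem Splits.toN {r : ℕ} {s : Multiset ℕ} (h : Splits r s) : SplitsN r s := by
  obtain ⟨T₁, T₂, T₃, U₁, U₂, E, h0, h1, h2, h3, h4, h5⟩ := h
  refine ⟨T₁ + T₂ + T₃, U₁ + U₂, E, ?_, ⟨![T₁, T₂, T₃], ?_, ?_⟩, ⟨![U₁, U₂], ?_, ?_⟩, ?_,
    fun k hk => (h5 k hk).2, fun hr => ?_⟩
  · rw [h0]
    abel
  · rw [Fin.sum_univ_three]
    rfl
  · intro i j
    fin_cases i <;> fin_cases j <;> simp <;> omega
  · rw [Fin.sum_univ_two]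
    rfl
  · intro i j
    fin_cases i <;> fin_cases j <;> simp <;> omega
  · intro hr
    rcases h4 with h4 | h4
    · omega
    · exact h4
  · by_contra hE
    obtain ⟨k, hk⟩ := Multiset.exists_mem_of_ne_zero hE
    exact hr (h5 k hk).1

/-- the first case for the exponent `p` over `K` -/
def FC (K : Type*) [Field K] [NumberField K] (p : ℕ) : Prop :=
  ∀ a b c : K, a ≠ 0 → b ≠ 0 → c ≠ 0 → a ^ p + b ^ p + c ^ p = 0 →
    ∃ v : HeightOneSpectrum (𝓞 K), (p : 𝓞 K) ∈ v.asIdeal ∧ ¬ H55AB.EqAt v a b c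

universe u v

/-- all the solutions in the first case: the degrees above every prime of `F` split -/
theorem master_splits (f : ℕ) (hf : 2 ≤ f) (d : ℕ) : ∃ B : ℕ → Prop, Null B ∧
    ∀ p : ℕ, p.Prime → ¬ B p → 5 ≤ p ∧ ∀ (F : Type u) (K : Type v) [Field F] [NumberField F] [Field K]
      [NumberField K] [Algebra F K], Nonempty (F →+* CyclotomicField f ℚ) →
      (∀ φ : F →+* ℂ, (starRingEnd ℂ).comp φ = φ) → Module.finrank F K ≤ d →
      ∀ a b c : K, a ≠ 0 → b ≠ 0 → c ≠ 0 → a ^ p + b ^ p + c ^ p = 0 →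
      ∀ w : HeightOneSpectrum (𝓞 F), (p : 𝓞 F) ∈ w.asIdeal →
      ∀ S : Finset (HeightOneSpectrum (𝓞 K)),
        (∀ v, v ∈ S ↔ v.asIdeal.LiesOver w.asIdeal ∧ H55AB.EqAt v a b c) →
      H85FD.Splits (Nat.card (𝓞 F ⧸ w.asIdeal) % 3) (p ^ 2 ∣ 2 ^ (p - 1) - 1) (S.val.map (H31AB.degR F)) := by
  obtain ⟨B, hB, h⟩ := H72AB.master_real.{u, v} f hf d
  have : NeZero f := ⟨by omega⟩
  refine ⟨fun p => B p ∨ p ≤ max 4 (f * d), hB.or (Null_of_bounded _ fun _ _ h => h),
    fun p hp hBp => ?_⟩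
  push Not at hBp
  obtain ⟨hB1, hB2⟩ := hBp
  have h4 : 5 ≤ p := by
    have := lt_of_le_of_lt (le_max_left 4 (f * d)) hB2
    omega
  refine ⟨h4, fun F K _ _ _ _ _ hF hreal hd a b c ha hb hc hsol w hw S hS => ?_⟩
  have hfact : Fact p.Prime := ⟨hp⟩
  have hdim : Module.finrank ℚ K < p :=
    (H55AB.finrank_le f F hF K d hd).trans_lt (lt_of_le_of_lt (le_max_right 4 (f * d)) hB2)
  refine H31AB.rel_splits F K p h4 hdim ?_ a b c ha hb hc hsol w hw S fun v => ?_
  · intro a' b' c' hF' hcp w' x h0 h1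
    obtain ⟨e1, e2⟩ := h p hp hB1 F K hF hreal hd a' b' c' hF' hcp (AlgebraicClosure (ZMod p)) w' x h0 h1
    exact ⟨e1.symm, e2.symm⟩
  · rw [hS v, Ideal.liesOver_iff, eq_comm]

/-- the primes of `K` above a prime of `F` -/
theorem exists_over (F : Type*) (K : Type*) [Field F] [NumberField F] [Field K] [NumberField K] [Algebra F K]
    (w : HeightOneSpectrum (𝓞 F)) : ∃ S : Finset (HeightOneSpectrum (𝓞 K)),
      ∀ v, v ∈ S ↔ v.asIdeal.LiesOver w.asIdeal := by
  classical
  have hw := w.isPrime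
  have hwm : w.asIdeal.IsMaximal := w.isMaximal
  have hfin : (w.asIdeal.primesOver (𝓞 K)).Finite :=
    IsDedekindDomain.primesOver_finite w.asIdeal (𝓞 K)
  have h2 : {v : HeightOneSpectrum (𝓞 K) | v.asIdeal.LiesOver w.asIdeal}.Finite := by
    refine Set.Finite.of_finite_image (f := fun v => v.asIdeal) (hfin.subset ?_) ?_
    · rintro _ ⟨v, hv, rfl⟩
      exact ⟨v.isPrime, hv⟩
    · intro a _ b _ hab
      exact HeightOneSpectrum.ext hab
  exact ⟨h2.toFinset, fun v => by rw [Set.Finite.mem_toFinset]; rfl⟩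

variable {L : Type} [Field L] [NumberField L] [IsGalois ℚ L]

/-- a Frobenius element whose cycle type does not split -/
theorem first_of_parts {F K : Type} [Field F] [NumberField F] [Field K] [NumberField K] [Algebra F K]
    (σ₁ : K →ₐ[ℚ] L) {p : ℕ} (hp : p.Prime)
    (hd : ¬ (p : ℤ) ∣ NumberField.discr L) (W : Prop)
    (hsp : ∀ a b c : K, a ≠ 0 → b ≠ 0 → c ≠ 0 → a ^ p + b ^ p + c ^ p = 0 →
      ∀ w : HeightOneSpectrum (𝓞 F), (p : 𝓞 F) ∈ w.asIdeal → ∀ S : Finset (HeightOneSpectrum (𝓞 K)),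
        (∀ v, v ∈ S ↔ v.asIdeal.LiesOver w.asIdeal ∧ H55AB.EqAt v a b c) →
      H85FD.Splits (Nat.card (𝓞 F ⧸ w.asIdeal) % 3) W (S.val.map (H31AB.degR F)))
    (g : Gal(L/ℚ)) (hE : (setE L (Subgroup.zpowers g) p).Nonempty) (τ : F →ₐ[ℚ] L)
    [Fintype (Emb K τ)] [DecidableEq (Emb K τ)] (π : Equiv.Perm (Emb K τ))
    (hπ : ∀ σ, (π σ).1 = act (g ^ Function.minimalPeriod (act g) τ) σ.1) (r : ℕ)
    (hr : p ^ Function.minimalPeriod (act g) τ % 3 = r)
    (hn : ¬ SplitsN r π.partition.parts) : FC K p := by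
  intro a b c ha hb hc hsol
  by_contra hcon
  push Not at hcon
  obtain ⟨u, hu, hcard, hparts⟩ := rel_part hp hd g hE σ₁ τ π hπ
  obtain ⟨S, hS⟩ := exists_over F K u
  have hS' : ∀ v, v ∈ S ↔ v.asIdeal.LiesOver u.asIdeal ∧ H55AB.EqAt v a b c := by
    intro v
    rw [hS v]
    refine ⟨fun h => ⟨h, hcon v ?_⟩, fun h => h.1⟩
    have h1 : u.asIdeal = v.asIdeal.under (𝓞 F) := (Ideal.liesOver_iff _ _).1 h
    rw [h1] at hu
    have h2 : algebraMap (𝓞 F) (𝓞 K) (p : 𝓞 F) ∈ v.asIdeal := hu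
    rwa [map_natCast] at h2
  have h1 := hsp a b c ha hb hc hsol u hu S hS'
  have h2 : S.val.map (H31AB.degR F) = π.partition.parts.map (fun m => (m, m)) := hparts S hS
  rw [h2, hcard, hr] at h1
  have h3 := splits_of _ W _ h1 (by
    intro k hk
    obtain ⟨m, -, rfl⟩ := Multiset.mem_map.1 hk
    rfl)
  have h4 : (π.partition.parts.map (fun m => (m, m))).map Prod.fst = π.partition.parts := by
    rw [Multiset.map_map]
    exact Multiset.map_id _
  rw [h4] at h3
  exact hn h3.toN

/-- finite unions -/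
theorem null_finset {ι : Type*} (s : Finset ι) (B : ι → ℕ → Prop) (h : ∀ i ∈ s, Null (B i)) :
    Null (fun p => ∃ i ∈ s, B i p) := by
  classical
  induction s using Finset.induction_on with
  | empty => exact Null_of_bounded 0 fun p _ h => absurd h (by simp)
  | insert a s ha ih =>
    have h1 := (h a (Finset.mem_insert_self a s)).or (ih fun i hi => h i (Finset.mem_insert_of_mem hi))
    have h2 : (fun p => B a p ∨ ∃ i ∈ s, B i p) = fun p => ∃ i ∈ insert a s, B i p := by
      funext p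
      simp
    rw [← h2]
    exact h1

theorem emb_two (n : ℕ) (hn : 0 < n) : Nonempty (CyclotomicField n ℚ →+* CyclotomicField (n * 2) ℚ) := by
  have h1 : NeZero n := ⟨hn.ne'⟩
  have h2 : NeZero (n * 2) := ⟨by omega⟩
  have h3 : NeZero (((n : ℕ) : ℕ) : ℚ) := ⟨Nat.cast_ne_zero.2 (NeZero.ne n)⟩
  have h4 : NeZero (((n * 2 : ℕ) : ℕ) : ℚ) := ⟨Nat.cast_ne_zero.2 (NeZero.ne (n * 2))⟩
  have h5 : IsCyclotomicExtension {n} ℚ (CyclotomicField n ℚ) := CyclotomicField.isCyclotomicExtension n ℚ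
  have h6 : IsCyclotomicExtension {n * 2} ℚ (CyclotomicField (n * 2) ℚ) :=
    CyclotomicField.isCyclotomicExtension (n * 2) ℚ
  obtain ⟨φ⟩ := H9AB.exists_emb n 2 (CyclotomicField n ℚ) (CyclotomicField (n * 2) ℚ)
  exact ⟨(φ : CyclotomicField n ℚ →+* CyclotomicField (n * 2) ℚ)⟩

theorem LowerDirichlet.mono {S T : Set ℕ} {δ δ' : ℝ} (h : LowerDirichlet S δ)
    (hST : ∀ p, p.Prime → p ∈ S → p ∈ T) (hδ : δ' ≤ δ) : LowerDirichlet T δ' := by
  classical
  intro ε hε
  obtain ⟨s₀, hs₀, h1⟩ := h ε hε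
  refine ⟨min s₀ 2, lt_min hs₀ (by norm_num), fun s hs hss => ?_⟩
  have h2 := h1 s hs (hss.trans_le (min_le_left _ _))
  have h3 : s < 2 := hss.trans_le (min_le_right _ _)
  have h4 : 0 ≤ Real.log (1 / (s - 1)) := by
    apply Real.log_nonneg
    rw [le_div_iff₀ (by linarith)]
    linarith
  have h5 : (δ' - ε) * Real.log (1 / (s - 1)) ≤ (δ - ε) * Real.log (1 / (s - 1)) :=
    mul_le_mul_of_nonneg_right (by linarith) h4
  refine h5.trans (h2.trans ?_)
  refine (Pool.Agent.H24.FD.dS_summable (fun p => p ∈ S) hs).tsum_le_tsum (fun p => ?_)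
    (Pool.Agent.H24.FD.dS_summable (fun p => p ∈ T) hs)
  have hw : (0 : ℝ) ≤ ((p : ℕ) : ℝ) ^ (-s) := Real.rpow_nonneg (Nat.cast_nonneg _) _
  by_cases h6 : (p : ℕ) ∈ S
  · rw [if_pos h6, if_pos (hST p p.2 h6)]
  · rw [if_neg h6]
    split_ifs <;> linarith

/-- from Frobenius elements to the density -/
theorem core_lower (K : Type*) [Field K] [NumberField K] {B : ℕ → Prop} (hB : Null B) (C : Set Gal(L/ℚ))
    (h : ∀ p : ℕ, p.Prime → ¬ (p : ℤ) ∣ NumberField.discr L → ¬ B p →
      ∀ g ∈ C, (setE L (Subgroup.zpowers g) p).Nonempty → FC K p) :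
    LowerDirichlet {p | FC K p} ((C.ncard : ℝ) / (Module.finrank ℚ L : ℝ)) := by
  refine (frob_lower L {E | ∃ g ∈ C, Subgroup.zpowers g = E} hB {p | FC K p} ?_).mono
    (fun _ _ h => h) ?_
  · rintro p hp hd hBp _ ⟨g, hg, rfl⟩ hE
    exact h p hp hd hBp g hg hE
  · refine div_le_div_of_nonneg_right (Nat.cast_le.2 ?_) (Nat.cast_nonneg _)
    rw [← Nat.card_coe_set_eq]
    exact Nat.card_le_card_of_injective (fun g => ⟨g.1, ⟨g.1, g.2, rfl⟩⟩) fun a b hab => by
      have := congrArg Subtype.val hab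
      exact Subtype.ext this

/-- LOWER DIRICHLET DENSITY, relative form -/
theorem blocked_lower {K : Type} [Field K] [NumberField K] (σ₁ : K →ₐ[ℚ] L) (C : Set Gal(L/ℚ))
    (hC : ∀ g ∈ C, ∃ (F : IntermediateField ℚ K), (∃ n : ℕ, 0 < n ∧ Nonempty (F →+* CyclotomicField n ℚ)) ∧
      (∀ φ : F →+* ℂ, (starRingEnd ℂ).comp φ = φ) ∧
      ∃ (τ : F →ₐ[ℚ] L) (_ : Fintype (Emb K τ)) (_ : DecidableEq (Emb K τ)) (π : Equiv.Perm (Emb K τ)),
        (∀ σ, (π σ).1 = act (g ^ Function.minimalPeriod (act g) τ) σ.1) ∧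
        ∀ r : ℕ, (r = 1 ∨ r = 2) → (∀ ω : L, ω ^ 2 + ω + 1 = 0 →
          ((g ^ Function.minimalPeriod (act g) τ) ω = ω ↔ r = 1)) → ¬ SplitsN r π.partition.parts) :
    LowerDirichlet {p | FC K p} ((C.ncard : ℝ) / (Module.finrank ℚ L : ℝ)) := by
  classical
  have hex : ∀ g : Gal(L/ℚ), ∃ B : ℕ → Prop, Null B ∧ (g ∈ C → ∀ p : ℕ, p.Prime →
      ¬ (p : ℤ) ∣ NumberField.discr L → ¬ B p → (setE L (Subgroup.zpowers g) p).Nonempty → FC K p) := by
    intro g
    by_cases hg : g ∈ C
    · obtain ⟨F, ⟨n, hn, ⟨ι⟩⟩, hreal, τ, hfin, hdec, π, hπ, hr⟩ := hC g hg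
      obtain ⟨κ⟩ := emb_two n hn
      obtain ⟨B, hB, h⟩ := master_splits.{0, 0} (n * 2) (by omega) (Module.finrank F K)
      refine ⟨B, hB, fun _ p hp hd hBp hE => ?_⟩
      obtain ⟨hp5, h1⟩ := h p hp hBp
      have h2 := h1 F K ⟨κ.comp ι⟩ hreal le_rfl
      have hp3 : 3 < p := by omega
      set k := Function.minimalPeriod (act g) τ with hk
      have hpk : p ^ k % 3 = 1 ∨ p ^ k % 3 = 2 := by
        by_cases h4 : p ^ k % 3 = 1
        · exact Or.inl h4
        · exact Or.inr (Pool.Agent.H89.FrobD.pow_mod_three_ne hp hp3 k h4)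
      exact first_of_parts σ₁ hp hd _ (fun a b c ha hb hc hs => h2 a b c ha hb hc hs) g hE τ π hπ
        (p ^ k % 3) rfl (hr (p ^ k % 3) hpk fun ω hω => (pow_mod_three_iff hp hp3 hd g hE k ω hω).symm)
    · exact ⟨fun _ => False, Null_of_bounded 0 fun _ _ h => h.elim, fun h => absurd h hg⟩
  choose B hB h using hex
  have hfin : Finite Gal(L/ℚ) := inferInstance
  have : Fintype Gal(L/ℚ) := Fintype.ofFinite _
  refine core_lower K (null_finset Finset.univ B fun g _ => hB g) C fun p hp hd hBp g hg hE => ?_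
  push Not at hBp
  exact h g hg p hp hd (hBp g (Finset.mem_univ g)) hE

/-- the permutation of the embeddings -/
def actP (K : Type*) [Field K] [NumberField K] (g : Gal(L/ℚ)) : Equiv.Perm (K →ₐ[ℚ] L) where
  toFun := act g
  invFun := act g⁻¹
  left_inv σ := by
    rw [← Pool.Agent.H89.FrobD.act_mul, inv_mul_cancel, Pool.Agent.H89.FrobD.act_one]
  right_inv σ := by
    rw [← Pool.Agent.H89.FrobD.act_mul, mul_inv_cancel, Pool.Agent.H89.FrobD.act_one]

/-- the cycle type of a permutation of another set -/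
theorem parts_congr {X Y : Type*} [Fintype X] [DecidableEq X] [Fintype Y] [DecidableEq Y] (e : X ≃ Y)
    (π : Equiv.Perm X) (ρ : Equiv.Perm Y) (h : ∀ x, e (π x) = ρ (e x)) :
    π.partition.parts = ρ.partition.parts := by
  refine Pool.Agent.H89.FrobD.multiset_eq_of_mul (fun d hd => π.partition.parts_pos hd)
    (fun d hd => ρ.partition.parts_pos hd) fun d hd => ?_
  rw [Pool.Agent.H89.FrobD.perm_count π d hd, Pool.Agent.H89.FrobD.perm_count ρ d hd]
  have hit : ∀ (n : ℕ) (x : X), e (π^[n] x) = ρ^[n] (e x) := by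
    intro n
    induction n with
    | zero => intro x; rfl
    | succ n ih =>
      intro x
      rw [Function.iterate_succ_apply, Function.iterate_succ_apply, ih, h]
  have hper : ∀ x : X, Function.minimalPeriod ρ (e x) = Function.minimalPeriod π x := by
    intro x
    rw [Function.minimalPeriod_eq_minimalPeriod_iff]
    intro n
    rw [Function.IsPeriodicPt, Function.IsPeriodicPt, Function.IsFixedPt, Function.IsFixedPt, ← hit]
    exact e.injective.eq_iff
  refine Finset.card_bij (fun x _ => e x) (fun x hx => ?_) (fun a _ b _ hab => e.injective hab) (fun y hy => ?_)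
  · rw [Finset.mem_filter] at hx ⊢
    exact ⟨Finset.mem_univ _, by rw [hper]; exact hx.2⟩
  · rw [Finset.mem_filter] at hy
    refine ⟨e.symm y, ?_, e.apply_symm_apply y⟩
    rw [Finset.mem_filter]
    refine ⟨Finset.mem_univ _, ?_⟩
    rw [← hper, e.apply_symm_apply]
    exact hy.2

/-- LOWER DIRICHLET DENSITY, absolute form -/
theorem abs_lower {K : Type} [Field K] [NumberField K] (σ₁ : K →ₐ[ℚ] L) (C : Set Gal(L/ℚ))
    (hC : ∀ g ∈ C, ∃ (_ : Fintype (K →ₐ[ℚ] L)) (_ : DecidableEq (K →ₐ[ℚ] L)) (π : Equiv.Perm (K →ₐ[ℚ] L)),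
        (∀ σ, π σ = act g σ) ∧
        ∀ r : ℕ, (r = 1 ∨ r = 2) → (∀ ω : L, ω ^ 2 + ω + 1 = 0 → (g ω = ω ↔ r = 1)) →
          ¬ SplitsN r π.partition.parts) :
    LowerDirichlet {p | FC K p} ((C.ncard : ℝ) / (Module.finrank ℚ L : ℝ)) := by
  classical
  obtain ⟨B, hB, h⟩ := master_splits.{0, 0} 2 le_rfl (Module.finrank ℚ K)
  refine core_lower K hB C fun p hp hd hBp g hg hE => ?_
  obtain ⟨hfin, hdec, π, hπ, hr⟩ := hC g hg
  obtain ⟨hp5, h1⟩ := h p hp hBp
  have hp3 : 3 < p := by omega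
  have hreal : ∀ φ : ℚ →+* ℂ, (starRingEnd ℂ).comp φ = φ := fun φ => Subsingleton.elim _ _
  have h2 := h1 ℚ K ⟨algebraMap ℚ _⟩ hreal le_rfl
  let τ : ℚ →ₐ[ℚ] L := Algebra.ofId ℚ L
  have hk : Function.minimalPeriod (act g) τ = 1 := by
    rw [Function.minimalPeriod_eq_one_iff_isFixedPt, Function.IsFixedPt]
    refine AlgHom.ext fun x => ?_
    have h3 := (act g τ).commutes x
    have h4 := τ.commutes x
    exact h3.trans h4.symm
  let e : (K →ₐ[ℚ] L) ≃ Emb K τ :=
    { toFun := fun σ => ⟨σ, fun x => by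
        show σ (algebraMap ℚ K x) = algebraMap ℚ L x
        exact σ.commutes x⟩
      invFun := fun σ => σ.1
      left_inv := fun _ => rfl
      right_inv := fun _ => rfl }
  have : Fintype (Emb K τ) := Fintype.ofEquiv _ e
  let ρ : Equiv.Perm (Emb K τ) := (e.symm.trans π).trans e
  have hρ : ∀ σ, (ρ σ).1 = act (g ^ Function.minimalPeriod (act g) τ) σ.1 := by
    intro σ
    rw [hk, pow_one, ← hπ]
    rfl
  have hparts : π.partition.parts = ρ.partition.parts := parts_congr e π ρ fun x => by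
    show e (π x) = e (π (e.symm (e x)))
    rw [e.symm_apply_apply]
  have hpk : p % 3 = 1 ∨ p % 3 = 2 := by
    by_cases h4 : p ^ 1 % 3 = 1
    · rw [pow_one] at h4
      exact Or.inl h4
    · have := Pool.Agent.H89.FrobD.pow_mod_three_ne hp hp3 1 h4
      rw [pow_one] at this
      exact Or.inr this
  have h3 := hr (p % 3) hpk fun ω hω => by
    have := pow_mod_three_iff hp hp3 hd g hE 1 ω hω
    rw [pow_one, pow_one] at this
    exact this.symm
  rw [hparts] at h3
  exact first_of_parts σ₁ hp hd _ (fun a b c ha hb hc hs => h2 a b c ha hb hc hs) g hE τ ρ hρ (p % 3)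
    (by rw [hk, pow_one]) h3

theorem mem_parts {X : Type*} [Fintype X] [DecidableEq X] (π : Equiv.Perm X) (x : X) :
    Function.minimalPeriod π x ∈ π.partition.parts := by
  have hpos : 0 < Function.minimalPeriod π x := by
    refine Function.IsPeriodicPt.minimalPeriod_pos (orderOf_pos π) ?_
    rw [Pool.Agent.H89.FrobD.periodic_iff, pow_orderOf_eq_one]
    rfl
  have h1 := Pool.Agent.H89.FrobD.perm_count π _ hpos
  rw [← Multiset.count_pos]
  by_contra h0
  have h2 : π.partition.parts.count (Function.minimalPeriod π x) = 0 := by omega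
  rw [h2, mul_zero] at h1
  have h3 := Finset.card_eq_zero.1 h1.symm
  have h4 : x ∈ Finset.univ.filter (fun y => Function.minimalPeriod π y = Function.minimalPeriod π x) :=
    Finset.mem_filter.2 ⟨Finset.mem_univ x, rfl⟩
  rw [h3] at h4
  exact absurd h4 (Finset.notMem_empty x)

/-- a long orbit of odd length blocks -/
theorem not_splitsN_of_long {M : Multiset ℕ} {r k : ℕ} (hk : k ∈ M) (hbig : M.sum < 2 * k)
    (hodd : r = 2 → Odd k) : ¬ SplitsN r M := by
  rintro ⟨A, B, C, h0, ⟨a, ha, ha'⟩, ⟨b, hb, hb'⟩, -, hC, hC'⟩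
  have hs : M.sum = A.sum + B.sum + C.sum := by
    rw [h0, Multiset.sum_add, Multiset.sum_add]
  have hle : ∀ T : Multiset ℕ, k ∈ T → k ≤ T.sum := fun T hT => Multiset.le_sum_of_mem hT
  have hid : ∀ T : Multiset ℕ, (T.map id).sum = T.sum := fun T => by rw [Multiset.map_id]
  have hA : A.sum = (a 0).sum + (a 1).sum + (a 2).sum := by
    rw [ha, Fin.sum_univ_three, Multiset.sum_add, Multiset.sum_add]
  have hB : B.sum = (b 0).sum + (b 1).sum := by
    rw [hb, Fin.sum_univ_two, Multiset.sum_add]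
  have ha1 := ha' 0 1
  have ha2 := ha' 0 2
  have hb1 := hb' 0 1
  rw [hid, hid] at ha1 ha2 hb1
  rw [h0, Multiset.mem_add, Multiset.mem_add] at hk
  rcases hk with (hk | hk) | hk
  · rw [ha, Fin.sum_univ_three, Multiset.mem_add, Multiset.mem_add] at hk
    rcases hk with (hk | hk) | hk
    · have := hle _ hk
      omega
    · have := hle _ hk
      omega
    · have := hle _ hk
      omega
  · rw [hb, Fin.sum_univ_two, Multiset.mem_add] at hk
    rcases hk with hk | hk
    · have := hle _ hk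
      omega
    · have := hle _ hk
      omega
  · by_cases hr : r = 2
    · exact (Nat.not_even_iff_odd.2 (hodd hr)) (hC k hk)
    · rw [hC' hr] at hk
      exact absurd hk (Multiset.notMem_zero k)

/-- the elements with a long orbit of odd length -/
theorem long_lower {K : Type} [Field K] [NumberField K] (σ₁ : K →ₐ[ℚ] L) :
    LowerDirichlet {p | FC K p}
      ((Nat.card {g : Gal(L/ℚ) // ∃ s : K →ₐ[ℚ] L,
          Odd (Function.minimalPeriod (fun t : K →ₐ[ℚ] L => (g : L →ₐ[ℚ] L).comp t) s) ∧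
          Module.finrank ℚ K < 2 * Function.minimalPeriod (fun t : K →ₐ[ℚ] L => (g : L →ₐ[ℚ] L).comp t) s} : ℝ) /
        (Module.finrank ℚ L : ℝ)) := by
  classical
  have h1 := abs_lower σ₁ {g : Gal(L/ℚ) | ∃ s : K →ₐ[ℚ] L,
          Odd (Function.minimalPeriod (fun t : K →ₐ[ℚ] L => (g : L →ₐ[ℚ] L).comp t) s) ∧
          Module.finrank ℚ K < 2 * Function.minimalPeriod (fun t : K →ₐ[ℚ] L => (g : L →ₐ[ℚ] L).comp t) s} ?_
  · exact h1
  · rintro g ⟨s, hs1, hs2⟩
    refine ⟨inferInstance, inferInstance, actP K g, fun σ => rfl, fun r _ _ => ?_⟩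
    refine not_splitsN_of_long (mem_parts (actP K g) s) ?_ fun _ => hs1
    have hcard : Fintype.card (K →ₐ[ℚ] L) ≤ Module.finrank ℚ K := card_algHom_le_finrank ℚ K L |> fun h => by
      rwa [Nat.card_eq_fintype_card] at h
    rw [(actP K g).partition.parts_sum]
    exact hcard.trans_lt hs2

end H10FG

end

section

/-!
# FG Solv: fields of odd prime degree with a solvable Galois closure

`fixed_unique` (Galois): in a solvable transitive group of prime degree every element `≠ 1` has at most one fixed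
point.  `solv_lower`: `K` of odd prime degree with a solvable Galois closure `L`: the first case holds over `K` for
exponents of lower Dirichlet density at least `1 - 1 / [L : ℚ]`.
-/

set_option autoImplicit false
set_option linter.unusedSectionVars false

open scoped Pointwise NumberField
open NumberField IsDedekindDomain

namespace H10FG

open Pool.Agent.H89.FrobD (setE act Emb)
open H85FD (SplitsN Parts)

/-- GALOIS: an element of a solvable transitive group of prime degree which fixes two points is trivial -/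
theorem fixed_unique {G X : Type*} [Group G] [MulAction G X] [FaithfulSMul G X]
    [MulAction.IsPretransitive G X] [Group.IsSolvable G] (hp : (Nat.card X).Prime) (g : G) (hg : g ≠ 1) (x y : X)
    (hx : g • x = x) (hy : g • y = y) : x = y := by
  classical
  by_contra hxy
  -- an abelian normal subgroup
  obtain ⟨N, hNn, hN1, hNc⟩ : ∃ N : Subgroup G, N.Normal ∧ N ≠ ⊥ ∧ ∀ a ∈ N, ∀ b ∈ N, a * b = b * a := by
    have hex := (‹Group.IsSolvable G›).solvable
    have h0 := Nat.find_spec hex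
    rcases Nat.eq_zero_or_pos (Nat.find hex) with h1 | h1
    · exfalso
      rw [h1, derivedSeries_zero] at h0
      apply hg
      have : g ∈ (⊤ : Subgroup G) := Subgroup.mem_top g
      rw [h0, Subgroup.mem_bot] at this
      exact this
    · obtain ⟨n, hn⟩ : ∃ n, Nat.find hex = n + 1 := ⟨Nat.find hex - 1, by omega⟩
      refine ⟨derivedSeries G n, derivedSeries_normal G n, Nat.find_min hex (by omega), ?_⟩
      rw [hn, derivedSeries_succ, Subgroup.commutator_eq_bot_iff_le_centralizer] at h0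
      intro a ha b hb
      exact (Subgroup.mem_centralizer_iff.1 (h0 hb)) a ha
  have hprim : MulAction.IsPreprimitive G X := MulAction.IsPreprimitive.of_prime_card hp
  have htr : MulAction.IsPretransitive N X := by
    refine MulAction.IsQuasiPreprimitive.isPretransitive_of_normal (G := G) (X := X) ?_
    intro h
    apply hN1
    rw [Subgroup.eq_bot_iff_forall]
    intro a ha
    apply FaithfulSMul.eq_of_smul_eq_smul (α := X)
    intro z
    have hz : z ∈ MulAction.fixedPoints N X := by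
      rw [h]
      exact Set.mem_univ z
    rw [one_smul]
    exact hz ⟨a, ha⟩
  -- regular
  have hreg : ∀ a ∈ N, ∀ z : X, a • z = z → a = 1 := by
    intro a ha z haz
    apply FaithfulSMul.eq_of_smul_eq_smul (α := X)
    intro w
    obtain ⟨⟨b, hb⟩, hbw⟩ := MulAction.exists_smul_eq N z w
    have hbw' : b • z = w := hbw
    rw [one_smul, ← hbw', smul_smul, hNc a ha b hb, ← smul_smul, haz]
  obtain ⟨⟨n, hn⟩, hnx⟩ := MulAction.exists_smul_eq N x y
  have hnx' : n • x = y := hnx
  have hn1 : n ≠ 1 := by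
    rintro rfl
    apply hxy
    rw [← hnx', one_smul]
  -- `g` commutes with `n`
  have hgi : g⁻¹ • x = x := by
    rw [inv_smul_eq_iff, hx]
  have hcomm : g * n * g⁻¹ = n := by
    have h1 : n⁻¹ * (g * n * g⁻¹) ∈ N := N.mul_mem (N.inv_mem hn) (hNn.conj_mem n hn g)
    have h2 := hreg _ h1 x (by
      rw [mul_smul, mul_smul, mul_smul, hgi, hnx', hy, ← hnx', inv_smul_smul])
    rw [inv_mul_eq_one] at h2
    exact h2.symm
  -- `N` has prime order
  have hcard : Nat.card N = Nat.card X := by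
    refine Nat.card_congr (Equiv.ofBijective (fun a : N => a • x) ⟨?_, ?_⟩)
    · intro a b hab
      have hab' : (a : G) • x = (b : G) • x := hab
      have h1 := hreg ((b : G)⁻¹ * a) (N.mul_mem (N.inv_mem b.2) a.2) x (by
        rw [mul_smul, hab', inv_smul_smul])
      rw [inv_mul_eq_one] at h1
      exact Subtype.ext h1.symm
    · intro z
      exact MulAction.exists_smul_eq N x z
  have hfact : Fact (Nat.card X).Prime := ⟨hp⟩
  have htop : Subgroup.zpowers (⟨n, hn⟩ : N) = ⊤ :=
    zpowers_eq_top_of_prime_card hcard (fun h => hn1 (congrArg Subtype.val h))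
  apply hg
  apply FaithfulSMul.eq_of_smul_eq_smul (α := X)
  intro z
  obtain ⟨a, ha⟩ := MulAction.exists_smul_eq N x z
  have ha' : (a : G) • x = z := ha
  have h1 : a ∈ Subgroup.zpowers (⟨n, hn⟩ : N) := by
    rw [htop]
    exact Subgroup.mem_top a
  obtain ⟨k, hk⟩ := Subgroup.mem_zpowers_iff.1 h1
  have h2 : (a : G) = n ^ k := by
    rw [← hk]
    rfl
  have h3 : g * (a : G) = a * g := by
    rw [h2]
    have h4 : Commute g n := by
      show g * n = n * g
      calc g * n = (g * n * g⁻¹) * g := by group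
        _ = n * g := by rw [hcomm]
    exact h4.zpow_right k
  rw [one_smul, ← ha', smul_smul, h3, ← smul_smul, hx]

/-- one part which is not divisible by `m` -/
theorem dvd_of_part {M T R T' : Multiset ℕ} {m k : ℕ} (hM : M = T + R) (hk : k ∈ T)
    (h : ∀ j ∈ M.erase k, m ∣ j) (hT' : T' ≤ R) (hs : T.sum = T'.sum) : m ∣ k := by
  have h1 : M.erase k = T.erase k + R := by
    rw [hM, Multiset.erase_add_left_pos R hk]
  have h2 : m ∣ T'.sum := by
    refine Multiset.dvd_sum fun j hj => h j ?_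
    rw [h1]
    exact Multiset.mem_add.2 (Or.inr (Multiset.mem_of_le hT' hj))
  have h3 : m ∣ (T.erase k).sum := by
    refine Multiset.dvd_sum fun j hj => h j ?_
    rw [h1]
    exact Multiset.mem_add.2 (Or.inl hj)
  have h4 : T.sum = k + (T.erase k).sum := by
    rw [← Multiset.sum_cons, Multiset.cons_erase hk]
  rw [← hs, h4] at h2
  exact (Nat.dvd_add_left h3).1 h2

/-- exactly one part is not divisible by `m`, and it is odd or `r ≠ 2` -/
theorem not_splitsN_of_mod {M : Multiset ℕ} {r m k : ℕ} (hk : k ∈ M) (h : ∀ j ∈ M.erase k, m ∣ j)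
    (hmk : ¬ m ∣ k) (hodd : r = 2 → Odd k) : ¬ SplitsN r M := by
  rintro ⟨A, B, C, h0, ⟨a, ha, ha'⟩, ⟨b, hb, hb'⟩, -, hC, hC'⟩
  rw [Fin.sum_univ_three] at ha
  rw [Fin.sum_univ_two] at hb
  have hs : ∀ i j, (a i).sum = (a j).sum := fun i j => by
    have := ha' i j
    rwa [Multiset.map_id, Multiset.map_id] at this
  have hs' : ∀ i j, (b i).sum = (b j).sum := fun i j => by
    have := hb' i j
    rwa [Multiset.map_id, Multiset.map_id] at this
  have hk' := hk
  rw [h0, Multiset.mem_add, Multiset.mem_add, ha, hb, Multiset.mem_add, Multiset.mem_add, Multiset.mem_add] at hk'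
  rcases hk' with (((hk' | hk') | hk') | (hk' | hk')) | hk'
  · refine hmk (dvd_of_part (T := a 0) (R := a 1 + (a 2 + B + C)) (T' := a 1) ?_ hk' h
      (Multiset.le_add_right _ _) (hs 0 1))
    rw [h0, ha]
    abel
  · refine hmk (dvd_of_part (T := a 1) (R := a 0 + (a 2 + B + C)) (T' := a 0) ?_ hk' h
      (Multiset.le_add_right _ _) (hs 1 0))
    rw [h0, ha]
    abel
  · refine hmk (dvd_of_part (T := a 2) (R := a 0 + (a 1 + B + C)) (T' := a 0) ?_ hk' h
      (Multiset.le_add_right _ _) (hs 2 0))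
    rw [h0, ha]
    abel
  · refine hmk (dvd_of_part (T := b 0) (R := b 1 + (A + C)) (T' := b 1) ?_ hk' h
      (Multiset.le_add_right _ _) (hs' 0 1))
    rw [h0, hb]
    abel
  · refine hmk (dvd_of_part (T := b 1) (R := b 0 + (A + C)) (T' := b 0) ?_ hk' h
      (Multiset.le_add_right _ _) (hs' 1 0))
    rw [h0, hb]
    abel
  · by_cases hr : r = 2
    · exact (Nat.not_even_iff_odd.2 (hodd hr)) (hC k hk')
    · rw [hC' hr] at hk'
      exact absurd hk' (Multiset.notMem_zero k)

/-- a permutation of an odd prime number of points, no nontrivial power of which fixes two points -/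
theorem not_splitsN_of_few {X : Type*} [Fintype X] [DecidableEq X] (π : Equiv.Perm X)
    (hp : (Fintype.card X).Prime) (h2 : Fintype.card X ≠ 2) (hπ : π ≠ 1)
    (h : ∀ j : ℕ, π ^ j ≠ 1 → ∀ x y, (π ^ j) x = x → (π ^ j) y = y → x = y) (r : ℕ) :
    ¬ SplitsN r π.partition.parts := by
  have hodd : Odd (Fintype.card X) := hp.odd_of_ne_two h2
  have hper : ∀ x : X, (π ^ Function.minimalPeriod π x) x = x := fun x =>
    (Pool.Agent.H89.FrobD.periodic_iff π _ x).1 (Function.isPeriodicPt_minimalPeriod π x)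
  have hdvd : ∀ x : X, Function.minimalPeriod π x ∣ orderOf π := by
    intro x
    rw [← Function.isPeriodicPt_iff_minimalPeriod_dvd, Pool.Agent.H89.FrobD.periodic_iff, pow_orderOf_eq_one]
    rfl
  -- periods
  have hP : ∀ x : X, π x ≠ x → Function.minimalPeriod π x = orderOf π := by
    intro x hx
    refine Nat.dvd_antisymm (hdvd x) (orderOf_dvd_of_pow_eq_one ?_)
    by_contra h1
    apply hx
    refine h _ h1 (π x) x ?_ (hper x)
    rw [← Equiv.Perm.mul_apply, ← pow_succ, pow_succ', Equiv.Perm.mul_apply, hper x]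
  have hfix : ∀ x y : X, π x = x → π y = y → x = y := by
    intro x y hx hy
    exact h 1 (by rwa [pow_one]) x y (by rwa [pow_one]) (by rwa [pow_one])
  have hone : ∀ x : X, Function.minimalPeriod π x = 1 ↔ π x = x := fun x =>
    Function.minimalPeriod_eq_one_iff_isFixedPt
  obtain ⟨x₀, hx₀⟩ : ∃ x, π x ≠ x := by
    by_contra hcon
    push Not at hcon
    exact hπ (Equiv.ext hcon)
  set k := orderOf π with hk
  have hk1 : k ≠ 1 := by
    intro h1
    have := hP x₀ hx₀
    rw [h1, hone] at this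
    exact hx₀ this
  have hmem : ∀ d ∈ π.partition.parts, d = k ∨ d = 1 := by
    intro d hd
    have hd0 : 0 < d := π.partition.parts_pos hd
    have h3 := Pool.Agent.H89.FrobD.perm_count π d hd0
    have h4 : 0 < π.partition.parts.count d := Multiset.count_pos.2 hd
    have h5 : 0 < (Finset.univ.filter (fun x => Function.minimalPeriod π x = d)).card := by
      rw [← h3]
      exact Nat.mul_pos hd0 h4
    obtain ⟨x, hx⟩ := Finset.card_pos.1 h5
    rw [Finset.mem_filter] at hx
    by_cases h6 : π x = x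
    · right
      rw [← hx.2, hone]
      exact h6
    · left
      rw [← hx.2, hP x h6]
  have hc1 : π.partition.parts.count 1 ≤ 1 := by
    have h3 := Pool.Agent.H89.FrobD.perm_count π 1 one_pos
    rw [one_mul] at h3
    rw [h3, Finset.card_le_one]
    intro x hx y hy
    rw [Finset.mem_filter] at hx hy
    exact hfix x y ((hone x).1 hx.2) ((hone y).1 hy.2)
  by_cases h1 : 1 ∈ π.partition.parts
  · refine not_splitsN_of_mod (m := k) h1 ?_ ?_ fun _ => odd_one
    · intro j hj
      rcases hmem j (Multiset.mem_of_mem_erase hj) with h3 | h3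
      · rw [h3]
      · exfalso
        rw [h3] at hj
        have h4 : 0 < (π.partition.parts.erase 1).count 1 := Multiset.count_pos.2 hj
        rw [Multiset.count_erase_self] at h4
        omega
    · intro h3
      exact hk1 (Nat.dvd_one.1 h3)
  · have h3 : k ∣ Fintype.card X := by
      have h4 : k ∣ π.partition.parts.sum := by
        refine Multiset.dvd_sum fun j hj => ?_
        rcases hmem j hj with h4 | h4
        · rw [h4]
        · rw [h4] at hj
          exact absurd hj h1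
      rwa [π.partition.parts_sum] at h4
    have h4 : k = Fintype.card X := (hp.eq_one_or_self_of_dvd k h3).resolve_left hk1
    have h5 : k ∈ π.partition.parts := by
      rw [← hP x₀ hx₀]
      exact mem_parts π x₀
    refine not_splitsN_of_long h5 ?_ fun _ => by rw [h4]; exact hodd
    rw [π.partition.parts_sum, h4]
    have := hp.pos
    omega

variable {L : Type} [Field L] [NumberField L] [IsGalois ℚ L]

/-- the number of the embeddings -/
theorem card_emb {K : Type} [Field K] [NumberField K] (σ₁ : K →ₐ[ℚ] L) :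
    Nat.card (K →ₐ[ℚ] L) = Module.finrank ℚ K := by
  refine AlgHom.natCard_of_splits ℚ K L fun x => ?_
  rw [← minpoly.algHom_eq σ₁ σ₁.injective x]
  exact Normal.splits inferInstance (σ₁ x)

/-- FIELDS OF ODD PRIME DEGREE WITH A SOLVABLE GALOIS CLOSURE -/
theorem solv_lower {K : Type} [Field K] [NumberField K] (hp : (Module.finrank ℚ K).Prime)
    (h2 : Module.finrank ℚ K ≠ 2) (σ₁ : K →ₐ[ℚ] L) (hgen : (⨆ τ : K →ₐ[ℚ] L, τ.fieldRange) = ⊤)
    (hsol : Group.IsSolvable Gal(L/ℚ)) :
    LowerDirichlet {p | FC K p} (1 - 1 / (Module.finrank ℚ L : ℝ)) := by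
  classical
  have hcard : Nat.card Gal(L/ℚ) = Module.finrank ℚ L := IsGalois.card_aut_eq_finrank ℚ L
  have hX := card_emb (L := L) σ₁
  let _ : MulAction Gal(L/ℚ) (K →ₐ[ℚ] L) :=
    { smul := act
      one_smul := fun σ => Pool.Agent.H89.FrobD.act_one σ
      mul_smul := fun g h σ => Pool.Agent.H89.FrobD.act_mul g h σ }
  have hfaith : FaithfulSMul Gal(L/ℚ) (K →ₐ[ℚ] L) := ⟨fun {g h} hgh =>
    H93FD.compPerm_injective hgen (Equiv.ext hgh)⟩
  have htr : MulAction.IsPretransitive Gal(L/ℚ) (K →ₐ[ℚ] L) :=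
    ⟨fun σ τ => Pool.Agent.H89.FrobD.exists_gal σ τ⟩
  have hXp : (Nat.card (K →ₐ[ℚ] L)).Prime := by
    rw [hX]
    exact hp
  have hfix : ∀ g : Gal(L/ℚ), g ≠ 1 → ∀ σ τ : K →ₐ[ℚ] L, act g σ = σ → act g τ = τ → σ = τ :=
    fun g hg σ τ h3 h4 => fixed_unique hXp g hg σ τ h3 h4
  have h1 := abs_lower σ₁ {g : Gal(L/ℚ) | g ≠ 1} ?_
  · refine h1.mono (fun _ _ h => h) ?_
    have h3 : ({g : Gal(L/ℚ) | g ≠ 1} : Set Gal(L/ℚ)).ncard + 1 = Module.finrank ℚ L := by
      have h4 : ({g : Gal(L/ℚ) | g ≠ 1} : Set Gal(L/ℚ)) = {1}ᶜ := by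
        ext g
        simp
      rw [h4, ← hcard, ← Set.ncard_add_ncard_compl ({1} : Set Gal(L/ℚ)), Set.ncard_singleton, add_comm]
    have h4 : (0 : ℝ) < (Module.finrank ℚ L : ℝ) := by exact_mod_cast Module.finrank_pos
    rw [le_div_iff₀ h4, ← h3]
    rw [← h3] at h4
    push_cast at h4 ⊢
    have h5 : (1 : ℝ) / ((({g : Gal(L/ℚ) | g ≠ 1} : Set Gal(L/ℚ)).ncard : ℝ) + 1) *
        ((({g : Gal(L/ℚ) | g ≠ 1} : Set Gal(L/ℚ)).ncard : ℝ) + 1) = 1 := by
      field_simp
    linarith
  · intro g hg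
    refine ⟨inferInstance, inferInstance, actP K g, fun σ => rfl, fun r _ _ => ?_⟩
    have hpow : ∀ (j : ℕ) (σ : K →ₐ[ℚ] L), (actP K g ^ j) σ = act (g ^ j) σ := by
      intro j σ
      rw [← Equiv.Perm.iterate_eq_pow]
      exact Pool.Agent.H89.FrobD.act_iter g σ j
    have hinj : ∀ h : Gal(L/ℚ), (∀ σ : K →ₐ[ℚ] L, act h σ = σ) → h = 1 := by
      intro h hh
      exact H93FD.compPerm_injective hgen (Equiv.ext fun σ => hh σ)
    refine not_splitsN_of_few (actP K g) ?_ ?_ ?_ ?_ r
    · rw [← Nat.card_eq_fintype_card]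
      exact hXp
    · rw [← Nat.card_eq_fintype_card, hX]
      exact h2
    · intro h3
      refine hg (hinj g fun σ => ?_)
      have := congrArg (fun π : Equiv.Perm (K →ₐ[ℚ] L) => π σ) h3
      exact this
    · intro j hj σ τ h3 h4
      rw [hpow] at h3 h4
      refine hfix (g ^ j) ?_ σ τ h3 h4
      intro h5
      apply hj
      ext1 ρ
      rw [hpow, h5]
      rfl

end H10FG

end

section

/-!
# FD version 2: the symmetry outside a null set
-/

namespace H85FD2

open Polynomial NumberField H9FC H9AB IsDedekindDomain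

universe u v

/-- the exceptional set of `n` -/
theorem real_all (n : ℕ) (hn : 0 < n) : ∃ B : ℕ → Prop, Pool.Agent.H71.FD.Null B ∧
    ∀ p : ℕ, p.Prime → ¬ B p → 5 ≤ p ∧
      ∀ (F : Type u) (K : Type v) [Field F] [NumberField F] [Field K] [NumberField K] [Algebra F K],
      H29AB.RealAb n F → Module.finrank F K ≤ n → Module.finrank ℚ K < p ∧
      ∀ a b c : 𝓞 K, FSol K p a b c → CopAt K p a b c →
      ∀ (Ω : Type) [Field Ω] [IsAlgClosed Ω] [CharP Ω p] (w : 𝓞 F →+* Ω) (x : Ω), x ≠ 0 → x ≠ 1 →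
      rootMultiplicity x ((nfR F K a b).map w) = rootMultiplicity x⁻¹ ((nfR F K a b).map w) ∧
      rootMultiplicity x ((nfR F K a b).map w) = rootMultiplicity (1 - x) ((nfR F K a b).map w) := by
  obtain ⟨B, hB, h⟩ := H72AB.master_real.{u, v} (n * 2) (by omega) n
  refine ⟨fun p => B p ∨ p ≤ n * n + 5, hB.or
    (Pool.Agent.H71.FD.Null_of_bounded _ fun _ _ h => h), fun p hp hBp => ?_⟩
  rw [not_or, not_le] at hBp
  obtain ⟨hB1, hB2⟩ := hBp
  refine ⟨by omega, fun F K _ _ _ _ _ hF hd => ?_⟩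
  have hfne : NeZero n := ⟨hn.ne'⟩
  have hfne2 : NeZero (n * 2) := ⟨by omega⟩
  have hfq : NeZero ((n : ℕ) : ℚ) := ⟨Nat.cast_ne_zero.2 hn.ne'⟩
  have hfq2 : NeZero (((n * 2 : ℕ) : ℕ) : ℚ) := ⟨Nat.cast_ne_zero.2 (by omega)⟩
  have hc1 : IsCyclotomicExtension {n} ℚ (CyclotomicField n ℚ) :=
    CyclotomicField.isCyclotomicExtension n ℚ
  have hc2 : IsCyclotomicExtension {n * 2} ℚ (CyclotomicField (n * 2) ℚ) :=
    CyclotomicField.isCyclotomicExtension (n * 2) ℚ
  obtain ⟨htot, ⟨ι⟩⟩ := hF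
  have hdim : Module.finrank ℚ K < p := by
    have := H55AB.finrank_le n F ⟨ι⟩ K n hd
    omega
  obtain ⟨φ⟩ := exists_emb n 2 (CyclotomicField n ℚ) (CyclotomicField (n * 2) ℚ)
  refine ⟨hdim, fun a b c hF hC Ω _ _ _ w x hx0 hx1 => ?_⟩
  exact h p hp hB1 F K ⟨(φ : CyclotomicField n ℚ →+* CyclotomicField (n * 2) ℚ).comp ι⟩
    (fun χ => H88AB.conj_of_tot χ) hd a b c hF hC Ω w x hx0 hx1

end H85FD2

end

section

/-!
# FD version 2: the clauses (A) and (B)
-/

namespace H85FD2

open Polynomial NumberField H9FC H9AB IsDedekindDomain H85FD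

universe u v

/-- the conclusions for `F ⊆ K` and `p` -/
structure Out (F : Type u) (K : Type v) [Field F] [NumberField F] [Field K] [NumberField K]
    [Algebra F K] (p : ℕ) : Prop where
  mult : ∀ a b c : 𝓞 K, FSol K p a b c → CopAt K p a b c → ∀ Q : (𝓞 F)[X],
    (∀ t : 𝓞 F, algebraMap (𝓞 F) F (Q.eval t) =
      Algebra.norm F (algebraMap (𝓞 K) K (a + algebraMap (𝓞 F) (𝓞 K) t * b))) →
    ∀ (Ω : Type) [Field Ω] [IsAlgClosed Ω] [CharP Ω p] (w : 𝓞 F →+* Ω) (x : Ω), x ≠ 0 → x ≠ 1 →
      rootMultiplicity x (Q.map w) = rootMultiplicity x⁻¹ (Q.map w) ∧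
      rootMultiplicity x (Q.map w) = rootMultiplicity (1 - x) (Q.map w)
  parts : PartsK F K p
  odd : Odd (Module.finrank F K) → ¬ p ^ 2 ∣ 2 ^ (p - 1) - 1 →
    ∀ a b c : K, a ≠ 0 → b ≠ 0 → c ≠ 0 → a ^ p + b ^ p + c ^ p = 0 →
      ∀ w : HeightOneSpectrum (𝓞 F), (p : 𝓞 F) ∈ w.asIdeal →
        ∃ v : HeightOneSpectrum (𝓞 K), v.asIdeal.LiesOver w.asIdeal ∧ ¬ H29AB.EqAt v a b c

/-- **The main theorem of FD version 2** -/
theorem main_all (n : ℕ) (hn : 0 < n) : ∃ B : ℕ → Prop, Pool.Agent.H71.FD.Null B ∧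
    ∀ p : ℕ, p.Prime → ¬ B p → 5 ≤ p ∧
      ∀ (F : Type u) (K : Type v) [Field F] [NumberField F] [Field K] [NumberField K] [Algebra F K],
      H29AB.RealAb n F → Module.finrank F K ≤ n → Out F K p := by
  obtain ⟨B, hB, h⟩ := real_all.{u, v} n hn
  refine ⟨B, hB, fun p hp hBp => ?_⟩
  obtain ⟨hp5, hall⟩ := h p hp hBp
  refine ⟨hp5, fun F K _ _ _ _ _ hF hd => ?_⟩
  obtain ⟨hdim, hm⟩ := hall F K hF hd
  have hfact : Fact p.Prime := ⟨hp⟩
  have hS : H55AB.SymFK F K p := by
    intro a b c hF' hC w x h0 h1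
    obtain ⟨e1, e2⟩ := hm a b c hF' hC (AlgebraicClosure (ZMod p)) w x h0 h1
    exact ⟨e1.symm, e2.symm⟩
  refine ⟨fun a b c hF' hC Q hQ Ω _ _ _ w x h0 h1 => ?_, fun a b c ha hb hc h w hw S hSv => ?_,
    fun hodd hW a b c ha hb hc h w hw => ?_⟩
  · rw [eq_nfR F K a b Q hQ]
    exact hm a b c hF' hC Ω w x h0 h1
  · refine H31AB.rel_parts F K p hp5 hdim hS a b c ha hb hc h w hw S fun v => ?_
    rw [hSv v, Ideal.liesOver_iff, eq_comm (a := w.asIdeal)]
    rfl
  · by_contra hcon
    push Not at hcon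
    apply hW
    refine (H55AB.rel_main F K p hp5 hdim hS a b c ha hb hc h w hw).1 ?_
    rw [H55AB.goodRel_all F K p a b c ha hb hc h w hw fun v hv => ?_]
    · exact hodd
    · exact hcon v ((Ideal.liesOver_iff _ _).2 hv.symm)

end H85FD2

end

section

/-!
# FD version 2: clause (C) with ring homomorphisms
-/

namespace H85FD2

open NumberField IsDedekindDomain H85FD Pool.Agent.H89.FrobD

/-- powers of an automorphism as a ring homomorphism -/
theorem pow_coe {L : Type*} [Field L] [NumberField L] (g : Gal(L/ℚ)) (k : ℕ) (x : L) :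
    ((g : L →+* L) ^ k) x = (g ^ k) x := by
  induction k with
  | zero => rfl
  | succ k ih =>
    rw [pow_succ', pow_succ', RingHom.mul_def, RingHom.comp_apply, ih, AlgEquiv.mul_apply]
    rfl

/-- the orbit length on ring homomorphisms -/
theorem period_coe {F L : Type} [Field F] [NumberField F] [Field L] [NumberField L] (g : Gal(L/ℚ))
    (τ : F →+* L) : Function.minimalPeriod (fun τ : F →+* L => (g : L →+* L).comp τ) τ =
      Function.minimalPeriod (act g) (τ.toRatAlgHom) := by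
  have hit : ∀ (n : ℕ) (x : F), ((fun τ : F →+* L => (g : L →+* L).comp τ)^[n] τ) x =
      ((act g)^[n] τ.toRatAlgHom) x := by
    intro n
    induction n with
    | zero => intro x; rfl
    | succ n ih =>
      intro x
      rw [Function.iterate_succ_apply', Function.iterate_succ_apply']
      show (g : L →+* L) _ = g _
      rw [ih]
      rfl
  rw [Function.minimalPeriod_eq_minimalPeriod_iff]
  intro n
  rw [Function.IsPeriodicPt, Function.IsPeriodicPt, Function.IsFixedPt, Function.IsFixedPt]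
  constructor
  · intro h
    ext x
    rw [← hit, h]
    rfl
  · intro h
    ext x
    rw [hit, h]
    rfl

/-- a larger cyclotomic field -/
theorem realAb_mul {n : ℕ} (hn : 0 < n) (k : ℕ) (hk : 0 < k) {F : Type*} [Field F] [NumberField F]
    (hF : H29AB.RealAb n F) : H29AB.RealAb (n * k) F := by
  have hfne : NeZero n := ⟨hn.ne'⟩
  have hfnk : NeZero k := ⟨hk.ne'⟩
  have hfne2 : NeZero (n * k) := ⟨(Nat.mul_pos hn hk).ne'⟩
  have hfq : NeZero ((n : ℕ) : ℚ) := ⟨Nat.cast_ne_zero.2 hn.ne'⟩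
  have hfq2 : NeZero (((n * k : ℕ) : ℕ) : ℚ) := ⟨Nat.cast_ne_zero.2 (Nat.mul_pos hn hk).ne'⟩
  have hc1 : IsCyclotomicExtension {n} ℚ (CyclotomicField n ℚ) :=
    CyclotomicField.isCyclotomicExtension n ℚ
  have hc2 : IsCyclotomicExtension {n * k} ℚ (CyclotomicField (n * k) ℚ) :=
    CyclotomicField.isCyclotomicExtension (n * k) ℚ
  obtain ⟨htot, ⟨ι⟩⟩ := hF
  obtain ⟨φ⟩ := H9AB.exists_emb n k (CyclotomicField n ℚ) (CyclotomicField (n * k) ℚ)
  exact ⟨htot, ⟨(φ : CyclotomicField n ℚ →+* CyclotomicField (n * k) ℚ).comp ι⟩⟩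

/-- CLAUSE (C) -/
theorem blocked_main (K L : Type) [Field K] [NumberField K] [Field L] [NumberField L] [IsGalois ℚ L]
    (hKL : Nonempty (K →+* L)) (X : Set Gal(L/ℚ))
    (hX : ∀ g ∈ X, ∃ (F : Type) (_ : Field F) (_ : NumberField F) (_ : Algebra F K),
      (∃ n : ℕ, 0 < n ∧ H29AB.RealAb n F) ∧ ∃ τ : F →+* L,
        ∃ (_ : Fintype {σ : K →+* L // ∀ x : F, σ (algebraMap F K x) = τ x})
          (_ : DecidableEq {σ : K →+* L // ∀ x : F, σ (algebraMap F K x) = τ x})
          (π : Equiv.Perm {σ : K →+* L // ∀ x : F, σ (algebraMap F K x) = τ x}),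
          (∀ σ, (π σ).1 = ((g : L →+* L) ^ Function.minimalPeriod
            (fun τ : F →+* L => (g : L →+* L).comp τ) τ).comp σ.1) ∧
          ∀ r : ℕ, (r = 1 ∨ r = 2) → (∀ ω : L, ω ^ 2 + ω + 1 = 0 →
            (((g : L →+* L) ^ Function.minimalPeriod
              (fun τ : F →+* L => (g : L →+* L).comp τ) τ) ω = ω ↔ r = 1)) →
            ¬ SplitsN r π.partition.parts) :
    H10FG.LowerDirichlet {p | H10FG.FC K p} ((X.ncard : ℝ) / (Module.finrank ℚ L : ℝ)) := by
  classical
  obtain ⟨σ₁⟩ := hKL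
  refine lower_of L X _ (fun g hg => ?_) (le_of_eq (div_mul_cancel₀ _ ?_))
  · obtain ⟨F, iF, iN, iA, ⟨n, hn, hF⟩, τ, hfin, hdec, π, hπ, hr⟩ := hX g hg
    obtain ⟨B, hB, h⟩ := main_all.{0, 0} (n * (Module.finrank F K + 1)) (Nat.mul_pos hn (Nat.succ_pos _))
    refine ⟨B, hB, fun p hp hd hBp hE => ?_⟩
    obtain ⟨hp5, h1⟩ := h p hp hBp
    have hout := h1 F K (realAb_mul hn _ (Nat.succ_pos _) hF)
      ((Nat.le_succ _).trans (Nat.le_mul_of_pos_left _ hn))
    -- the embeddings
    let τ' : F →ₐ[ℚ] L := τ.toRatAlgHom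
    let e : Emb K τ' ≃ {σ : K →+* L // ∀ x : F, σ (algebraMap F K x) = τ x} :=
      { toFun := fun σ => ⟨(σ.1 : K →+* L), σ.2⟩
        invFun := fun σ => ⟨σ.1.toRatAlgHom, σ.2⟩
        left_inv := fun σ => Subtype.ext (AlgHom.ext fun x => rfl)
        right_inv := fun σ => Subtype.ext (RingHom.ext fun x => rfl) }
    have hfin' : Fintype (Emb K τ') := Fintype.ofEquiv _ e.symm
    have hk := period_coe g τ
    set k := Function.minimalPeriod (fun τ : F →+* L => (g : L →+* L).comp τ) τ with hkdef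
    let π' : Equiv.Perm (Emb K τ') := (e.trans π).trans e.symm
    have hπ' : ∀ σ, (π' σ).1 = act (g ^ Function.minimalPeriod (act g) τ') σ.1 := by
      intro σ
      rw [← hk]
      ext x
      have h2 := DFunLike.congr_fun (hπ (e σ)) x
      rw [RingHom.comp_apply, pow_coe] at h2
      exact h2
    have hparts : π'.partition.parts = π.partition.parts :=
      H10FG.parts_congr e π' π fun σ => by
        show e (e.symm (π (e σ))) = π (e σ)
        rw [Equiv.apply_symm_apply]
    have hns : ¬ SplitsN (p ^ Function.minimalPeriod (act g) τ' % 3) π'.partition.parts := by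
      rw [hparts, ← hk]
      refine hr _ ?_ fun ω hω => ?_
      · by_cases h5 : p ^ k % 3 = 1
        · exact Or.inl h5
        · exact Or.inr (pow_mod_three_ne hp (by omega) _ h5)
      · rw [pow_coe]
        exact (pow_mod_three_iff hp (by omega) hd g hE k ω hω).symm
    obtain ⟨u, hpu, hu⟩ := first_of_ns hp (by omega) hd g hE hout.parts σ₁.toRatAlgHom τ' π' hπ' hns
    intro a b c ha hb hc hs
    obtain ⟨v, hv, hn⟩ := hu a b c ha hb hc hs
    refine ⟨v, ?_, hn⟩
    have h6 : u.asIdeal = v.asIdeal.under (𝓞 F) := (Ideal.liesOver_iff _ _).1 hv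
    rw [h6, Ideal.under, Ideal.mem_comap, map_natCast] at hpu
    exact hpu
  · have : (Module.finrank ℚ L : ℝ) ≠ 0 := Nat.cast_ne_zero.2 Module.finrank_pos.ne'
    exact this

end H85FD2

end

section

/-!
# The first case for fields of large degree with symmetric or alternating Galois group
-/

set_option autoImplicit false
set_option linter.unusedSectionVars false

open Finset Equiv H93FD H85FD

namespace Pool.Agent.H89.FE

/-- CLAUSE (E) -/
theorem large_degree (δ : ℝ) (hδ : 0 < δ) :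
    ∃ d₀ : ℕ, ∀ (K L : Type) [Field K] [NumberField K] [Field L] [NumberField L] [IsGalois ℚ L],
      (⨆ s : K →ₐ[ℚ] L, s.fieldRange) = ⊤ → (Module.finrank ℚ K).factorial ≤ 2 * Module.finrank ℚ L →
      d₀ ≤ Module.finrank ℚ K → H10FG.LowerDirichlet {p | H10FG.FC K p} (1 - δ) := by
  obtain ⟨d₀, hd₀, h⟩ := card_CC (fun δ hδ => H29FE.few_split hδ) δ hδ
  refine ⟨d₀, ?_⟩
  intro K L _ _ _ _ _ hgen hL hd
  have h3 : 3 ≤ Module.finrank ℚ K := hd₀.trans hd
  have h1 := h K L hgen hL hd
  have hcard := card_emb_of_half h3 hgen hL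
  have hne : Nonempty (K →ₐ[ℚ] L) := by
    have h4 : 0 < Nat.card (K →ₐ[ℚ] L) := by omega
    exact (Nat.card_pos_iff.1 h4).1
  obtain ⟨σ₁⟩ := hne
  have h2 := H10FG.abs_lower σ₁ (CC K L) (fun g hg => by
    classical
    have iF : Fintype (K →ₐ[ℚ] L) := Fintype.ofFinite _
    exact ⟨iF, inferInstance, compPerm g, fun σ => rfl, fun r hr _ =>
      not_splits hg _ _ (compPerm g) (fun σ => rfl) r hr⟩)
  refine h2.mono (fun p _ hp => hp) ?_
  have hpos : (0 : ℝ) < Module.finrank ℚ L := by exact_mod_cast Module.finrank_pos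
  rw [le_div_iff₀ hpos]
  exact h1

end Pool.Agent.H89.FE

end

section

/-!
# Quartic fields: the group theory
-/

set_option autoImplicit false
set_option linter.unusedSectionVars false

open Finset Equiv H85FD

namespace Pool.Agent.H89.FE

section parts

theorem parts_three_sum {A : Multiset ℕ} (h : Parts id 3 A) : ∃ a : ℕ, A.sum = 3 * a := by
  obtain ⟨F, hF, h1⟩ := h
  rw [Fin.sum_univ_three] at hF
  have h2 := h1 0 1
  have h3 := h1 0 2
  simp only [Multiset.map_id] at h2 h3
  refine ⟨(F 0).sum, ?_⟩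
  rw [hF, Multiset.sum_add, Multiset.sum_add]
  omega

theorem parts_two {B : Multiset ℕ} (h : Parts id 2 B) : ∃ B₁ B₂ : Multiset ℕ, B = B₁ + B₂ ∧ B₁.sum = B₂.sum := by
  obtain ⟨F, hF, h1⟩ := h
  rw [Fin.sum_univ_two] at hF
  have h2 := h1 0 1
  simp only [Multiset.map_id] at h2
  exact ⟨F 0, F 1, hF, h2⟩

/-- a part `1`, total `2` or `4`: no splitting for `r = 2` -/
theorem not_splits_two {M : Multiset ℕ} (hpos : ∀ k ∈ M, 0 < k) (h1 : 1 ∈ M) (hs : M.sum = 2 ∨ M.sum = 4) :
    ¬ SplitsN 2 M := by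
  rintro ⟨A, B, C, hM, hA, hB, hB3, hC, -⟩
  have hA1 : 1 ∈ A := by
    rw [hM, Multiset.mem_add, Multiset.mem_add] at h1
    rcases h1 with (h | h) | h
    · exact h
    · have := hB3 rfl 1 h
      omega
    · have := hC 1 h
      rw [Nat.even_iff] at this
      omega
  obtain ⟨a, ha⟩ := parts_three_sum hA
  have h2 := Multiset.single_le_sum (fun x _ => Nat.zero_le x) 1 hA1
  have h3 : M.sum = A.sum + B.sum + C.sum := by rw [hM, Multiset.sum_add, Multiset.sum_add]
  -- the rest has sum one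
  have h4 : B.sum + C.sum = 1 := by
    rcases hs with h | h <;> omega
  have hB0 : B.sum = 0 ∨ B.sum = 1 := by omega
  have key : ∀ N : Multiset ℕ, (∀ k ∈ N, k ∈ M) → N.sum = 1 → 1 ∈ N := by
    intro N hN hN1
    have hne : N ≠ 0 := by
      intro h
      rw [h] at hN1
      simp at hN1
    obtain ⟨k, hk⟩ := Multiset.exists_mem_of_ne_zero hne
    have h5 := Multiset.single_le_sum (fun x _ => Nat.zero_le x) k hk
    have h6 := hpos k (hN k hk)
    have : k = 1 := by omega
    rwa [this] at hk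
  rcases hB0 with h | h
  · have h5 := key C (fun k hk => by rw [hM]; exact Multiset.mem_add.2 (Or.inr hk)) (by omega)
    have := hC 1 h5
    rw [Nat.even_iff] at this
    omega
  · have h5 := key B (fun k hk => by
      rw [hM]; exact Multiset.mem_add.2 (Or.inl (Multiset.mem_add.2 (Or.inr hk)))) h
    have := hB3 rfl 1 h5
    omega

/-- no part `1`, total `4`, not all parts `2`: no splitting for `r = 1` -/
theorem not_splits_one {M : Multiset ℕ} (hpos : ∀ k ∈ M, 0 < k) (h1 : 1 ∉ M) (hs : M.sum = 4)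
    (h2 : ∃ k ∈ M, k ≠ 2) : ¬ SplitsN 1 M := by
  rintro ⟨A, B, C, hM, hA, hB, -, -, hC⟩
  have hC0 := hC (by norm_num)
  rw [hC0, add_zero] at hM
  obtain ⟨a, ha⟩ := parts_three_sum hA
  obtain ⟨B₁, B₂, hB', hB12⟩ := parts_two hB
  have h3 : M.sum = A.sum + (B₁.sum + B₂.sum) := by rw [hM, Multiset.sum_add, hB', Multiset.sum_add]
  have ha0 : a = 0 := by omega
  obtain ⟨k, hk, hk2⟩ := h2
  have hk0 := hpos k hk
  have hk1 : k ≠ 1 := fun h => h1 (h ▸ hk)
  have hk' := hk
  rw [hM, hB', Multiset.mem_add, Multiset.mem_add] at hk'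
  rcases hk' with h | h | h
  · have := Multiset.single_le_sum (fun x _ => Nat.zero_le x) k h
    omega
  · have := Multiset.single_le_sum (fun x _ => Nat.zero_le x) k h
    omega
  · have := Multiset.single_le_sum (fun x _ => Nat.zero_le x) k h
    omega

/-- no part `1`, total `2`: no splitting for `r = 1` -/
theorem not_splits_one' {M : Multiset ℕ} (hpos : ∀ k ∈ M, 0 < k) (h1 : 1 ∉ M) (hs : M.sum = 2) :
    ¬ SplitsN 1 M := by
  rintro ⟨A, B, C, hM, hA, hB, -, -, hC⟩
  have hC0 := hC (by norm_num)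
  rw [hC0, add_zero] at hM
  obtain ⟨a, ha⟩ := parts_three_sum hA
  obtain ⟨B₁, B₂, hB', hB12⟩ := parts_two hB
  have h3 : M.sum = A.sum + (B₁.sum + B₂.sum) := by rw [hM, Multiset.sum_add, hB', Multiset.sum_add]
  have hB1 : B₁.sum = 1 := by omega
  have hne : B₁ ≠ 0 := by
    intro h
    rw [h] at hB1
    simp at hB1
  obtain ⟨k, hk⟩ := Multiset.exists_mem_of_ne_zero hne
  have hkM : k ∈ M := by
    rw [hM, hB']
    exact Multiset.mem_add.2 (Or.inr (Multiset.mem_add.2 (Or.inl hk)))
  have h5 := Multiset.single_le_sum (fun x _ => Nat.zero_le x) k hk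
  have h6 := hpos k hkM
  have : k = 1 := by omega
  rw [this] at hkM
  exact h1 hkM

end parts

section perm

variable {X : Type*} [Fintype X] [DecidableEq X]

theorem one_mem_parts (π : Perm X) : 1 ∈ π.partition.parts ↔ ∃ x, π x = x := by
  have h1 := Pool.Agent.H89.FrobD.perm_count π 1 one_pos
  rw [one_mul] at h1
  rw [← Multiset.count_pos, h1, Finset.card_pos]
  constructor
  · rintro ⟨x, hx⟩
    exact ⟨x, Function.minimalPeriod_eq_one_iff_isFixedPt.1 (mem_filter.1 hx).2⟩
  · rintro ⟨x, hx⟩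
    exact ⟨x, mem_filter.2 ⟨mem_univ _, Function.minimalPeriod_eq_one_iff_isFixedPt.2 hx⟩⟩

theorem blk_two (hX : Fintype.card X = 2 ∨ Fintype.card X = 4) (π : Perm X) (h : ∃ x, π x = x) :
    ¬ SplitsN 2 π.partition.parts := by
  refine not_splits_two (fun k hk => π.partition.parts_pos hk) ((one_mem_parts π).2 h) ?_
  rw [π.partition.parts_sum]
  exact hX

theorem blk_one (hX : Fintype.card X = 4) (π : Perm X) (h : ∀ x, π x ≠ x) (h2 : ∃ x, π (π x) ≠ x) :
    ¬ SplitsN 1 π.partition.parts := by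
  refine not_splits_one (fun k hk => π.partition.parts_pos hk) ?_ ?_ ?_
  · rw [one_mem_parts]
    push Not
    exact h
  · rw [π.partition.parts_sum]
    exact hX
  · obtain ⟨x, hx⟩ := h2
    refine ⟨Function.minimalPeriod π x, H10FG.mem_parts π x, fun h3 => hx ?_⟩
    have h4 := Function.isPeriodicPt_minimalPeriod π x
    rw [h3] at h4
    exact h4

theorem blk_one' (hX : Fintype.card X = 2) (π : Perm X) (h : ∀ x, π x ≠ x) :
    ¬ SplitsN 1 π.partition.parts := by
  refine not_splits_one' (fun k hk => π.partition.parts_pos hk) ?_ ?_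
  · rw [one_mem_parts]
    push Not
    exact h
  · rw [π.partition.parts_sum]
    exact hX

/-- the identity and the products of two disjoint transpositions (on four points) -/
def InV {Y : Type*} (π : Perm Y) : Prop := (∀ x, π x = x) ∨ ((∀ x, π x ≠ x) ∧ ∀ x, π (π x) = x)

instance : DecidablePred (InV : Perm (Fin 4) → Prop) := fun π => by unfold InV; infer_instance

theorem inV_fin4 : ∀ p q : Perm (Fin 4), InV p → ¬ InV q → ¬ InV (p * q) := by decide +kernel

theorem inV_conj {Y Z : Type*} (e : Y ≃ Z) (π : Perm Y) : InV (e.permCongr π) ↔ InV π := by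
  have h1 : ∀ z, (e.permCongr π) z = e (π (e.symm z)) := fun z => rfl
  constructor
  · rintro (h | ⟨h, h'⟩)
    · left
      intro x
      have := h (e x)
      rw [h1, e.symm_apply_apply] at this
      exact e.injective this
    · right
      refine ⟨fun x hx => h (e x) ?_, fun x => ?_⟩
      · rw [h1, e.symm_apply_apply, hx]
      · have := h' (e x)
        rw [h1, h1, e.symm_apply_apply, e.symm_apply_apply] at this
        exact e.injective this
  · rintro (h | ⟨h, h'⟩)
    · left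
      intro z
      rw [h1, h, e.apply_symm_apply]
    · right
      refine ⟨fun z hz => h (e.symm z) ?_, fun z => ?_⟩
      · rw [h1] at hz
        rw [← e.symm_apply_apply (π (e.symm z)), hz]
      · rw [h1, h1, e.symm_apply_apply, h', e.apply_symm_apply]

theorem inV_mul (hX : Fintype.card X = 4) (p q : Perm X) (hp : InV p) (hq : ¬ InV q) : ¬ InV (p * q) := by
  let e : X ≃ Fin 4 := Fintype.equivFinOfCardEq hX
  rw [← inV_conj e] at hp hq ⊢
  have h1 : e.permCongr (p * q) = e.permCongr p * e.permCongr q := by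
    ext z
    simp [Equiv.permCongr_apply]
  rw [h1]
  exact inV_fin4 _ _ hp hq

end perm

section count

variable {G : Type*} [Group G] [Fintype G] {W : G → Prop}

/-- multiplication by an element which moves `ω` -/
theorem half (hW : ∀ g n : G, ¬ W n → (W (g * n) ↔ ¬ W g)) (P : G → Prop) (n : G) (hn : ¬ W n)
    (hP : ∀ g, P (g * n) ↔ P g) [DecidablePred W] [DecidablePred P] :
    (univ.filter (fun g => P g ∧ ¬ W g)).card * 2 = (univ.filter P).card ∧
    (univ.filter (fun g => P g ∧ W g)).card * 2 = (univ.filter P).card := by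
  have h1 : (univ.filter (fun g => P g ∧ ¬ W g)).card = (univ.filter (fun g => P g ∧ W g)).card := by
    refine card_bij' (fun g _ => g * n) (fun g _ => g * n⁻¹) ?_ ?_ ?_ ?_
    · intro g hg
      obtain ⟨_, hg1, hg2⟩ := mem_filter.1 hg
      exact mem_filter.2 ⟨mem_univ _, (hP g).2 hg1, (hW g n hn).2 hg2⟩
    · intro g hg
      obtain ⟨_, hg1, hg2⟩ := mem_filter.1 hg
      have h2 := hP (g * n⁻¹)
      have h3 := hW (g * n⁻¹) n hn
      rw [inv_mul_cancel_right] at h2 h3
      exact mem_filter.2 ⟨mem_univ _, h2.1 hg1, h3.1 hg2⟩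
    · intro g _
      rw [mul_inv_cancel_right]
    · intro g _
      rw [inv_mul_cancel_right]
  have h2 : (univ.filter P).card = (univ.filter (fun g => P g ∧ ¬ W g)).card +
      (univ.filter (fun g => P g ∧ W g)).card := by
    rw [← card_filter_add_card_filter_not (s := univ.filter P) (p := fun g => ¬ W g), filter_filter, filter_filter]
    simp only [not_not]
  omega

variable {X : Type*} [Fintype X] [DecidableEq X]

/-- THE COUNT -/
theorem count_quartic (Φ : G →* Perm X) (hX : Fintype.card X = 4)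
    (hstab : ∀ x : X, 4 * Nat.card {g : G // Φ g x = x} = Fintype.card G)
    (hW : ∀ g n : G, ¬ W n → (W (g * n) ↔ ¬ W g)) (hn : ∀ x : X, ∃ n : G, Φ n x = x ∧ ¬ W n)
    (hV : ∃ h₀ : G, ¬ InV (Φ h₀)) :
    Fintype.card G ≤ 4 * Nat.card {g : G // (¬ W g ∧ ∃ x, Φ g x = x) ∨
      (W g ∧ (∀ x, Φ g x ≠ x) ∧ ∃ x, Φ g (Φ g x) ≠ x)} := by
  classical
  rw [Nat.card_eq_fintype_card, Fintype.card_subtype]
  by_cases hA : ∀ n : G, (∀ x, Φ n x = x) → W n
  · -- `ω` in the closure
    have h1 : ∀ g : G, ¬ W g → (univ.filter (fun x => Φ g x = x)).card ≤ 2 := by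
      intro g hg
      have hne : Φ g ≠ 1 := by
        intro h
        exact hg (hA g fun x => by rw [h]; rfl)
      have h2 := Equiv.Perm.two_le_card_support_of_ne_one hne
      have h3 : (univ.filter (fun x => Φ g x = x)).card + (Φ g).support.card = Fintype.card X := by
        have h4 : (Φ g).support = univ.filter (fun x => ¬ Φ g x = x) := rfl
        rw [h4, card_filter_add_card_filter_not, card_univ]
      omega
    have h2 : ∑ g ∈ univ.filter (fun g : G => ¬ W g), (univ.filter (fun x => Φ g x = x)).card =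
        ∑ x : X, (univ.filter (fun g : G => Φ g x = x ∧ ¬ W g)).card := by
      simp only [card_filter, sum_filter]
      rw [sum_comm]
      refine sum_congr rfl fun g _ => ?_
      by_cases h3 : W g <;> simp [h3]
    have h3 : ∀ x : X, 8 * (univ.filter (fun g : G => Φ g x = x ∧ ¬ W g)).card = Fintype.card G := by
      intro x
      obtain ⟨n, hn1, hn2⟩ := hn x
      have h4 := (half hW (fun g => Φ g x = x) n hn2 (fun g => by
        show (Φ (g * n)) x = x ↔ _
        rw [map_mul, Perm.mul_apply, hn1])).1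
      have h5 := hstab x
      rw [Nat.card_eq_fintype_card, Fintype.card_subtype] at h5
      omega
    have h4 : 8 * ∑ x : X, (univ.filter (fun g : G => Φ g x = x ∧ ¬ W g)).card = 4 * Fintype.card G := by
      rw [mul_sum, sum_congr rfl fun x _ => h3 x, sum_const, card_univ, hX, smul_eq_mul]
    have h5 : ∑ g ∈ univ.filter (fun g : G => ¬ W g), (univ.filter (fun x => Φ g x = x)).card ≤
        2 * (univ.filter (fun g : G => ¬ W g ∧ ∃ x, Φ g x = x)).card := by
      have h6 : univ.filter (fun g : G => ¬ W g ∧ ∃ x, Φ g x = x) =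
          (univ.filter (fun g : G => ¬ W g)).filter (fun g => ∃ x, Φ g x = x) := by
        rw [filter_filter]
      rw [h6, card_filter, mul_sum]
      refine sum_le_sum fun g hg => ?_
      split_ifs with h7
      · exact h1 g (mem_filter.1 hg).2
      · rw [mul_zero, Nat.le_zero, card_eq_zero, filter_eq_empty_iff]
        push Not at h7
        exact fun x _ => h7 x
    have h6 : (univ.filter (fun g : G => ¬ W g ∧ ∃ x, Φ g x = x)).card ≤
        (univ.filter (fun g : G => (¬ W g ∧ ∃ x, Φ g x = x) ∨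
          (W g ∧ (∀ x, Φ g x ≠ x) ∧ ∃ x, Φ g (Φ g x) ≠ x))).card := by
      refine card_le_card fun g hg => ?_
      exact mem_filter.2 ⟨mem_univ _, Or.inl (mem_filter.1 hg).2⟩
    omega
  · -- `ω` not in the closure
    push Not at hA
    obtain ⟨n₀, hn₀, hn₀W⟩ := hA
    have hΦ : ∀ g : G, Φ (g * n₀) = Φ g := by
      intro g
      rw [map_mul]
      have : Φ n₀ = 1 := Equiv.ext hn₀
      rw [this, mul_one]
    have h1 := (half hW (fun g => ∃ x, Φ g x = x) n₀ hn₀W (fun g => by
      show (∃ x, Φ (g * n₀) x = x) ↔ _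
      rw [hΦ])).1
    have h2 := (half hW (fun g => (∀ x, Φ g x ≠ x) ∧ ∃ x, Φ g (Φ g x) ≠ x) n₀ hn₀W (fun g => by
      show ((∀ x, Φ (g * n₀) x ≠ x) ∧ ∃ x, Φ (g * n₀) (Φ (g * n₀) x) ≠ x) ↔ _
      rw [hΦ])).2
    -- the complement of the union
    have h3 : (univ.filter (fun g : G => ¬ InV (Φ g))).card ≤ (univ.filter (fun g : G => ∃ x, Φ g x = x)).card +
        (univ.filter (fun g : G => (∀ x, Φ g x ≠ x) ∧ ∃ x, Φ g (Φ g x) ≠ x)).card := by
      rw [← card_union_of_disjoint]
      · refine card_le_card fun g hg => ?_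
        have h4 := (mem_filter.1 hg).2
        rw [mem_union]
        by_cases h5 : ∃ x, Φ g x = x
        · exact Or.inl (mem_filter.2 ⟨mem_univ _, h5⟩)
        · right
          push Not at h5
          refine mem_filter.2 ⟨mem_univ _, h5, ?_⟩
          by_contra h6
          push Not at h6
          exact h4 (Or.inr ⟨h5, h6⟩)
      · rw [disjoint_left]
        intro g hg hg'
        obtain ⟨x, hx⟩ := (mem_filter.1 hg).2
        exact (mem_filter.1 hg').2.1 x hx
    obtain ⟨h₀, hh₀⟩ := hV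
    have h4 : (univ.filter (fun g : G => InV (Φ g))).card ≤ (univ.filter (fun g : G => ¬ InV (Φ g))).card := by
      refine card_le_card_of_injOn (fun g => g * h₀) ?_ ?_
      · intro g hg
        have h5 := (mem_filter.1 (mem_coe.1 hg)).2
        refine mem_coe.2 (mem_filter.2 ⟨mem_univ _, ?_⟩)
        show ¬ InV (Φ (g * h₀))
        rw [map_mul]
        exact inV_mul hX _ _ h5 hh₀
      · intro a _ b _ hab
        exact mul_right_cancel hab
    have h5 : (univ.filter (fun g : G => InV (Φ g))).card + (univ.filter (fun g : G => ¬ InV (Φ g))).card =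
        Fintype.card G := by
      rw [card_filter_add_card_filter_not, card_univ]
    have h6 : (univ.filter (fun g : G => (∃ x, Φ g x = x) ∧ ¬ W g)).card +
        (univ.filter (fun g : G => ((∀ x, Φ g x ≠ x) ∧ ∃ x, Φ g (Φ g x) ≠ x) ∧ W g)).card ≤
        (univ.filter (fun g : G => (¬ W g ∧ ∃ x, Φ g x = x) ∨
          (W g ∧ (∀ x, Φ g x ≠ x) ∧ ∃ x, Φ g (Φ g x) ≠ x))).card := by
      rw [← card_union_of_disjoint]
      · refine card_le_card fun g hg => ?_
        rcases mem_union.1 hg with h | h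
        · obtain ⟨_, h7, h8⟩ := mem_filter.1 h
          exact mem_filter.2 ⟨mem_univ _, Or.inl ⟨h8, h7⟩⟩
        · obtain ⟨_, h7, h8⟩ := mem_filter.1 h
          exact mem_filter.2 ⟨mem_univ _, Or.inr ⟨h8, h7⟩⟩
      · rw [disjoint_left]
        intro g hg hg'
        exact (mem_filter.1 hg).2.2 (mem_filter.1 hg').2.2
    omega

end count

end Pool.Agent.H89.FE

end

section

/-!
# The first case for quartic fields
-/

set_option autoImplicit false
set_option linter.unusedSectionVars false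

open scoped NumberField
open Finset Equiv H85FD IntermediateField
open Pool.Agent.H89.FrobD

namespace Pool.Agent.H89.FE

/-- a Galois field which contains `K` and the cube roots of unity -/
theorem exists_L (K : Type) [Field K] [NumberField K] : ∃ (L : Type) (_ : Field L) (_ : NumberField L)
    (_ : IsGalois ℚ L), Nonempty (K →ₐ[ℚ] L) ∧ ∃ w : L, w ^ 2 + w + 1 = 0 := by
  obtain ⟨w, hw⟩ : ∃ w : AlgebraicClosure K, w ^ 2 + w + 1 = 0 := by
    have h1 : (Polynomial.X ^ 2 + Polynomial.X + 1 : Polynomial (AlgebraicClosure K)).degree ≠ 0 := by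
      have : (Polynomial.X ^ 2 + Polynomial.X + 1 : Polynomial (AlgebraicClosure K)).degree = 2 := by
        compute_degree!
      rw [this]
      norm_num
    obtain ⟨w, hw⟩ := IsAlgClosed.exists_root _ h1
    refine ⟨w, ?_⟩
    simpa [Polynomial.IsRoot] using hw
  let σ : K →ₐ[ℚ] AlgebraicClosure K := IsScalarTower.toAlgHom ℚ K (AlgebraicClosure K)
  have hint : IsIntegral ℚ w := by
    refine ⟨Polynomial.X ^ 2 + Polynomial.X + 1, ?_, ?_⟩
    · have h1 : (Polynomial.X ^ 2 + Polynomial.X + 1 : Polynomial ℚ) =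
          Polynomial.X ^ 2 + (Polynomial.X + 1) := by ring
      rw [h1]
      refine Polynomial.monic_X_pow_add ?_
      have h2 : (Polynomial.X + 1 : Polynomial ℚ).degree = 1 := by
        have := Polynomial.degree_X_add_C (1 : ℚ)
        simpa using this
      rw [h2]
      norm_num
    · simpa using hw
  let K' : IntermediateField ℚ (AlgebraicClosure K) := σ.fieldRange ⊔ ℚ⟮w⟯
  have hf1 : FiniteDimensional ℚ σ.fieldRange :=
    LinearEquiv.finiteDimensional (AlgEquiv.ofInjectiveField σ).toLinearEquiv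
  have hf2 : FiniteDimensional ℚ ℚ⟮w⟯ := IntermediateField.adjoin.finiteDimensional hint
  have hf : FiniteDimensional ℚ K' := IntermediateField.finiteDimensional_sup _ _
  let L := IntermediateField.normalClosure ℚ K' (AlgebraicClosure K)
  have ha : Algebra.IsAlgebraic ℚ (AlgebraicClosure K) := Algebra.IsAlgebraic.trans ℚ K (AlgebraicClosure K)
  have hac : IsAlgClosure ℚ (AlgebraicClosure K) := ⟨inferInstance, inferInstance⟩
  have hnor : Normal ℚ (AlgebraicClosure K) := IsAlgClosure.normal ℚ (AlgebraicClosure K)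
  have hLf : FiniteDimensional ℚ L := normalClosure.is_finiteDimensional ℚ K' (AlgebraicClosure K)
  have hLn : Normal ℚ L := normalClosure.normal ℚ K' (AlgebraicClosure K)
  have hNF : NumberField L := { to_charZero := inferInstance, to_finiteDimensional := hLf }
  have hle : K' ≤ L := IntermediateField.le_normalClosure K'
  refine ⟨L, inferInstance, hNF, ⟨⟩, ⟨?_⟩, ⟨⟨w, hle ?_⟩, ?_⟩⟩
  · exact σ.codRestrict L.toSubalgebra fun x => hle ((le_sup_left : σ.fieldRange ≤ K') ⟨x, rfl⟩)
  · exact (le_sup_right : ℚ⟮w⟯ ≤ K') (IntermediateField.mem_adjoin_simple_self ℚ w)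
  · apply Subtype.ext
    exact hw

section

variable {L : Type} [Field L] [NumberField L] [IsGalois ℚ L] {K : Type} [Field K] [NumberField K]

/-- the permutation representation on the embeddings -/
def hom (K L : Type) [Field K] [NumberField K] [Field L] [NumberField L] [IsGalois ℚ L] :
    Gal(L/ℚ) →* Perm (K →ₐ[ℚ] L) where
  toFun g := H10FG.actP K g
  map_one' := Equiv.ext fun σ => act_one σ
  map_mul' g h := Equiv.ext fun σ => act_mul g h σ

theorem root_cases {w y : L} (hw : w ^ 2 + w + 1 = 0) (hy : y ^ 2 + y + 1 = 0) : y = w ∨ y = -1 - w := by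
  have h1 : (y - w) * (y + w + 1) = 0 := by linear_combination hy - hw
  rcases mul_eq_zero.1 h1 with h | h
  · exact Or.inl (sub_eq_zero.1 h)
  · exact Or.inr (by linear_combination h)

theorem root_map {w : L} (hw : w ^ 2 + w + 1 = 0) (g : Gal(L/ℚ)) : (g w) ^ 2 + g w + 1 = 0 := by
  rw [← map_pow, ← map_add, ← map_one g, ← map_add, hw, map_zero]

theorem root_ne {w : L} (hw : w ^ 2 + w + 1 = 0) : w ≠ -1 - w := by
  intro h
  have h1 : 2 * w = -1 := by linear_combination h
  have h2 : (3 : L) = 0 := by linear_combination 4 * hw - (2 * w + 1) * h1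
  norm_num at h2

theorem W_mul {w : L} (hw : w ^ 2 + w + 1 = 0) (g n : Gal(L/ℚ)) (hn : ¬ n w = w) :
    ((g * n) w = w ↔ ¬ g w = w) := by
  have h1 : n w = -1 - w := (root_cases hw (root_map hw n)).resolve_left hn
  have h2 : (g * n) w = -1 - g w := by
    rw [AlgEquiv.mul_apply, h1, map_sub, map_neg, map_one]
  rw [h2]
  have h3 := root_ne hw
  constructor
  · intro h4 h5
    rw [h5] at h4
    exact h3 h4.symm
  · intro h4
    have h5 := (root_cases hw (root_map hw g)).resolve_left h4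
    rw [h5]
    ring

theorem card_stab_emb (σ : K →ₐ[ℚ] L) :
    Module.finrank ℚ K * Nat.card {g : Gal(L/ℚ) // act g σ = σ} = Nat.card Gal(L/ℚ) := by
  have h1 : Nat.card {g : Gal(L/ℚ) // act g σ = σ} = Nat.card σ.fieldRange.fixingSubgroup := by
    refine Nat.card_congr (Equiv.subtypeEquivRight fun g => ?_)
    rw [act_eq_iff, IntermediateField.mem_fixingSubgroup_iff]
    constructor
    · rintro h _ ⟨x, rfl⟩
      exact h x
    · intro h x
      exact h _ ⟨x, rfl⟩
  have h2 : Module.finrank ℚ σ.fieldRange = Module.finrank ℚ K :=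
    (AlgEquiv.ofInjectiveField σ).toLinearEquiv.finrank_eq.symm
  rw [h1, IsGalois.card_fixingSubgroup_eq_finrank, ← h2, Module.finrank_mul_finrank,
    IsGalois.card_aut_eq_finrank]

theorem exists_move (hw : ∀ v : K, v ^ 2 + v + 1 ≠ 0) {w : L} (hwL : w ^ 2 + w + 1 = 0) (σ : K →ₐ[ℚ] L) :
    ∃ n : Gal(L/ℚ), act n σ = σ ∧ ¬ n w = w := by
  by_contra hcon
  push Not at hcon
  have h1 : w ∈ IntermediateField.fixedField σ.fieldRange.fixingSubgroup := by
    rw [IntermediateField.mem_fixedField_iff]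
    intro g hg
    refine hcon g ?_
    rw [act_eq_iff]
    intro x
    exact (IntermediateField.mem_fixingSubgroup_iff _ _).1 hg _ ⟨x, rfl⟩
  rw [IsGalois.fixedField_fixingSubgroup] at h1
  obtain ⟨v, hv⟩ := h1
  apply hw v
  apply σ.toRingHom.injective
  show σ (v ^ 2 + v + 1) = σ 0
  have hv' : σ v = w := hv
  rw [map_add, map_add, map_pow, map_one, map_zero, hv']
  exact hwL

open Classical in
/-- the case in which the Galois group is not the four group -/
theorem quartic_nonV (h4 : Module.finrank ℚ K = 4) (hw : ∀ v : K, v ^ 2 + v + 1 ≠ 0) (σ₁ : K →ₐ[ℚ] L)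
    {w : L} (hwL : w ^ 2 + w + 1 = 0) (hV : ∃ h₀ : Gal(L/ℚ), ¬ InV (hom K L h₀)) :
    H10FG.LowerDirichlet {p | H10FG.FC K p} (1 / 4) := by
  have iX : Fintype (K →ₐ[ℚ] L) := Fintype.ofFinite _
  have iG : Fintype Gal(L/ℚ) := Fintype.ofFinite _
  have hX : Fintype.card (K →ₐ[ℚ] L) = 4 := by
    rw [← Nat.card_eq_fintype_card, H10FG.card_emb σ₁, h4]
  have h1 := count_quartic (W := fun g : Gal(L/ℚ) => g w = w) (hom K L) hX (fun x => by
    have := card_stab_emb x
    rw [h4, Nat.card_eq_fintype_card (α := Gal(L/ℚ))] at this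
    exact this) (fun g n hn => W_mul hwL g n hn) (fun x => exists_move hw hwL x) hV
  set C : Set Gal(L/ℚ) := {g | (¬ g w = w ∧ ∃ x, hom K L g x = x) ∨
      (g w = w ∧ (∀ x, hom K L g x ≠ x) ∧ ∃ x, hom K L g (hom K L g x) ≠ x)} with hC
  have h2 := H10FG.abs_lower σ₁ C (fun g hg => by
    refine ⟨iX, inferInstance, hom K L g, fun σ => rfl, fun r hr hrw => ?_⟩
    rcases hg with ⟨hg1, hg2⟩ | ⟨hg1, hg2, hg3⟩
    · have h3 : r = 2 := by
        rcases hr with h | h
        · exact absurd ((hrw w hwL).2 h) hg1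
        · exact h
      rw [h3]
      exact blk_two (Or.inr hX) _ hg2
    · have h3 : r = 1 := (hrw w hwL).1 hg1
      rw [h3]
      exact blk_one hX _ hg2 hg3)
  refine h2.mono (fun p _ hp => hp) ?_
  have h3 : Fintype.card Gal(L/ℚ) = Module.finrank ℚ L := by
    rw [← Nat.card_eq_fintype_card, IsGalois.card_aut_eq_finrank]
  have h4 : Nat.card {g : Gal(L/ℚ) // (¬ g w = w ∧ ∃ x, hom K L g x = x) ∨
      (g w = w ∧ (∀ x, hom K L g x ≠ x) ∧ ∃ x, hom K L g (hom K L g x) ≠ x)} = C.ncard := rfl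
  rw [h3] at h1
  have h5 : Module.finrank ℚ L ≤ 4 * C.ncard := h1
  have hpos : (0 : ℝ) < Module.finrank ℚ L := by exact_mod_cast Module.finrank_pos
  rw [le_div_iff₀ hpos]
  have h6 : (Module.finrank ℚ L : ℝ) ≤ 4 * C.ncard := by exact_mod_cast h5
  linarith

/-- the other case: `K` is Galois, and its group has exponent two -/
theorem galois_of_V (σ₁ : K →ₐ[ℚ] L) (hV : ∀ g : Gal(L/ℚ), InV (hom K L g)) :
    IsGalois ℚ K ∧ ∀ g : Gal(K/ℚ), g * g = 1 := by
  have hall : ∀ (g : Gal(L/ℚ)), act g σ₁ = σ₁ → ∀ σ : K →ₐ[ℚ] L, act g σ = σ := by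
    intro g hg σ
    rcases hV g with h | h
    · exact h σ
    · exact absurd hg (h.1 σ₁)
  have hmem : ∀ g : Gal(L/ℚ), g ∈ σ₁.fieldRange.fixingSubgroup ↔ act g σ₁ = σ₁ := by
    intro g
    rw [act_eq_iff, IntermediateField.mem_fixingSubgroup_iff]
    constructor
    · intro h x
      exact h _ ⟨x, rfl⟩
    · rintro h _ ⟨x, rfl⟩
      exact h x
  have hn : (σ₁.fieldRange.fixingSubgroup).Normal := by
    constructor
    intro n hn g
    rw [hmem] at hn ⊢
    rw [act_mul, act_mul, hall n hn, ← act_mul, mul_inv_cancel, act_one]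
  constructor
  · have h1 : IsGalois ℚ (IntermediateField.fixedField (σ₁.fieldRange.fixingSubgroup)) :=
      IsGalois.of_fixedField_normal_subgroup _
    rw [IsGalois.fixedField_fixingSubgroup] at h1
    let e : K ≃ₐ[ℚ] σ₁.fieldRange := AlgEquiv.ofInjectiveField σ₁
    exact IsGalois.of_algEquiv e.symm
  · intro g
    obtain ⟨ρ, hρ⟩ := exists_gal σ₁ (σ₁.comp (g : K →ₐ[ℚ] K))
    have h1 : act ρ (act ρ σ₁) = σ₁ := by
      rcases hV ρ with h | h
      · have h2 : act ρ σ₁ = σ₁ := h σ₁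
        rw [h2, h2]
      · exact h.2 σ₁
    ext x
    apply σ₁.injective
    have h2 : act ρ (act ρ σ₁) (x : K) = σ₁ (g (g x)) := by
      have h3 : ∀ y : K, ρ (σ₁ y) = σ₁ (g y) := fun y => DFunLike.congr_fun hρ y
      show ρ (ρ (σ₁ x)) = σ₁ (g (g x))
      rw [h3, h3]
    rw [h1] at h2
    exact h2.symm

/-- embeddings of a Galois field -/
theorem exists_aut [IsGalois ℚ K] (σ σ' : K →ₐ[ℚ] L) : ∃ g : Gal(K/ℚ), σ' = σ.comp (g : K →ₐ[ℚ] K) := by
  classical
  have iX : Fintype (K →ₐ[ℚ] L) := Fintype.ofFinite _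
  have iG : Fintype Gal(K/ℚ) := Fintype.ofFinite _
  have hinj : Function.Injective (fun g : Gal(K/ℚ) => σ.comp (g : K →ₐ[ℚ] K)) := by
    intro g h hgh
    ext x
    apply σ.injective
    exact DFunLike.congr_fun hgh x
  have hcard : Fintype.card Gal(K/ℚ) = Fintype.card (K →ₐ[ℚ] L) := by
    rw [← Nat.card_eq_fintype_card, ← Nat.card_eq_fintype_card, H10FG.card_emb σ, IsGalois.card_aut_eq_finrank]
  obtain ⟨g, hg⟩ := ((Fintype.bijective_iff_injective_and_card _).2 ⟨hinj, hcard⟩).2 σ'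
  exact ⟨g, hg.symm⟩

end

section biquad

variable {K : Type} [Field K] [NumberField K] [IsGalois ℚ K]

/-- a real quadratic subfield of a biquadratic field -/
theorem exists_real (h4 : Module.finrank ℚ K = 4) (hexp : ∀ g : Gal(K/ℚ), g * g = 1) :
    ∃ s : Gal(K/ℚ), s ≠ 1 ∧
      Module.finrank ℚ (IntermediateField.fixedField (Subgroup.zpowers s)) = 2 ∧
      ∀ φ : IntermediateField.fixedField (Subgroup.zpowers s) →+* ℂ, (starRingEnd ℂ).comp φ = φ := by
  have hcomm : ∀ g h : Gal(K/ℚ), g * h = h * g := by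
    intro g h
    have h1 : (g * h) * (g * h) = 1 := hexp _
    have h2 : g⁻¹ = g := inv_eq_of_mul_eq_one_right (hexp g)
    have h3 : h⁻¹ = h := inv_eq_of_mul_eq_one_right (hexp h)
    have h4 : (g * h)⁻¹ = g * h := inv_eq_of_mul_eq_one_right h1
    rw [mul_inv_rev, h2, h3] at h4
    exact h4.symm
  obtain ⟨φ₀⟩ : Nonempty (K →+* ℂ) := inferInstance
  obtain ⟨c, hc⟩ : ∃ c : Gal(K/ℚ), ∀ x : K, (starRingEnd ℂ) (φ₀ x) = φ₀ (c x) := by
    obtain ⟨σ, hσ⟩ := NumberField.ComplexEmbedding.exists_comp_symm_eq_of_comp_eq (k := ℚ) φ₀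
      ((starRingEnd ℂ).comp φ₀) (Subsingleton.elim _ _)
    refine ⟨σ.symm, fun x => ?_⟩
    exact (DFunLike.congr_fun hσ x).symm
  have hcard : Nat.card Gal(K/ℚ) = 4 := by rw [IsGalois.card_aut_eq_finrank, h4]
  obtain ⟨s, hs1, hcs⟩ : ∃ s : Gal(K/ℚ), s ≠ 1 ∧ c ∈ Subgroup.zpowers s := by
    by_cases h : c = 1
    · have : Nontrivial Gal(K/ℚ) := by
        rw [← Finite.one_lt_card_iff_nontrivial, hcard]
        norm_num
      obtain ⟨s, hs⟩ := exists_ne (1 : Gal(K/ℚ))
      exact ⟨s, hs, by rw [h]; exact Subgroup.one_mem _⟩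
    · exact ⟨c, h, Subgroup.mem_zpowers c⟩
  have hord : Nat.card (Subgroup.zpowers s) = 2 := by
    rw [Nat.card_zpowers]
    exact orderOf_eq_prime (by rw [pow_two]; exact hexp s) hs1
  refine ⟨s, hs1, ?_, ?_⟩
  · have h1 := IntermediateField.finrank_fixedField_eq_card (Subgroup.zpowers s)
    have h2 := Module.finrank_mul_finrank ℚ (IntermediateField.fixedField (Subgroup.zpowers s)) K
    rw [h1, hord, h4] at h2
    omega
  · intro φ
    have hlift := NumberField.ComplexEmbedding.lift_comp_algebraMap (K := K) φ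
    set Ψ := NumberField.ComplexEmbedding.lift K φ with hΨ
    obtain ⟨σ, hσ⟩ := NumberField.ComplexEmbedding.exists_comp_symm_eq_of_comp_eq (k := ℚ) φ₀ Ψ
      (Subsingleton.elim _ _)
    refine RingHom.ext fun x => ?_
    have h1 : ∀ y : K, Ψ y = φ₀ (σ.symm y) := fun y => (DFunLike.congr_fun hσ y).symm
    have h2 : φ x = Ψ (x : K) := (DFunLike.congr_fun hlift x).symm
    have hx : c (x : K) = x := (IntermediateField.mem_fixedField_iff _ _).1 x.2 c hcs
    show (starRingEnd ℂ) (φ x) = φ x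
    rw [h2, h1, hc]
    have h3 : c (σ.symm (x : K)) = σ.symm (c (x : K)) := by
      have h4 := hcomm c σ.symm
      exact DFunLike.congr_fun h4 (x : K)
    rw [h3, hx]

theorem zpowers_two {G : Type*} [Group G] {s g : G} (hs : s * s = 1) (hg : g ∈ Subgroup.zpowers s) :
    g = 1 ∨ g = s := by
  obtain ⟨k, rfl⟩ := Subgroup.mem_zpowers_iff.1 hg
  rcases Int.even_or_odd k with ⟨j, rfl⟩ | ⟨j, rfl⟩
  · left
    rw [← two_mul, zpow_mul, zpow_two, hs, one_zpow]
  · right
    rw [zpow_add, zpow_mul, zpow_two, hs, one_zpow, one_mul, zpow_one]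

variable {L : Type} [Field L] [NumberField L] [IsGalois ℚ L]

open Classical in
theorem biquad_lower (h4 : Module.finrank ℚ K = 4) (hexp : ∀ g : Gal(K/ℚ), g * g = 1)
    (hw : ∀ v : K, v ^ 2 + v + 1 ≠ 0) (σ₁ : K →ₐ[ℚ] L) {w : L} (hwL : w ^ 2 + w + 1 = 0) :
    H10FG.LowerDirichlet {p | H10FG.FC K p} (1 / 4) := by
  obtain ⟨s, hs1, hF2, hreal⟩ := exists_real h4 hexp
  have iG : Fintype Gal(L/ℚ) := Fintype.ofFinite _
  set C : Set Gal(L/ℚ) := {g | (act g σ₁ = σ₁ ∧ ¬ g w = w) ∨
    (act g σ₁ = σ₁.comp (s : K →ₐ[ℚ] K) ∧ g w = w)} with hC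
  have hne : σ₁ ≠ σ₁.comp (s : K →ₐ[ℚ] K) := by
    intro h
    apply hs1
    ext x
    apply σ₁.injective
    exact (DFunLike.congr_fun h x).symm
  -- the count
  have hcount : Module.finrank ℚ L = 4 * C.ncard := by
    obtain ⟨n, hn1, hn2⟩ := exists_move hw hwL σ₁
    have h1 := (half (W := fun g : Gal(L/ℚ) => g w = w) (fun g n hn => W_mul hwL g n hn)
      (fun g => act g σ₁ = σ₁) n hn2 (fun g => by
        show act (g * n) σ₁ = σ₁ ↔ _
        rw [act_mul, hn1])).1
    have h2 := (half (W := fun g : Gal(L/ℚ) => g w = w) (fun g n hn => W_mul hwL g n hn)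
      (fun g => act g σ₁ = σ₁.comp (s : K →ₐ[ℚ] K)) n hn2 (fun g => by
        show act (g * n) σ₁ = _ ↔ _
        rw [act_mul, hn1])).2
    have h3 := card_stab_emb σ₁
    rw [h4, IsGalois.card_aut_eq_finrank, Nat.card_eq_fintype_card, Fintype.card_subtype] at h3
    obtain ⟨ρ, hρ⟩ := exists_gal σ₁ (σ₁.comp (s : K →ₐ[ℚ] K))
    have h5 : (univ.filter (fun g : Gal(L/ℚ) => act g σ₁ = σ₁)).card =
        (univ.filter (fun g : Gal(L/ℚ) => act g σ₁ = σ₁.comp (s : K →ₐ[ℚ] K))).card := by
      refine card_bij' (fun g _ => ρ * g) (fun g _ => ρ⁻¹ * g) ?_ ?_ ?_ ?_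
      · intro g hg
        have h6 := (mem_filter.1 hg).2
        refine mem_filter.2 ⟨mem_univ _, ?_⟩
        rw [act_mul, h6, hρ]
      · intro g hg
        have h6 := (mem_filter.1 hg).2
        refine mem_filter.2 ⟨mem_univ _, ?_⟩
        rw [act_mul, h6, ← hρ, ← act_mul, inv_mul_cancel, act_one]
      · intro g _
        rw [inv_mul_cancel_left]
      · intro g _
        rw [mul_inv_cancel_left]
    have h6 : C.ncard = (univ.filter (fun g : Gal(L/ℚ) => act g σ₁ = σ₁ ∧ ¬ g w = w)).card +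
        (univ.filter (fun g : Gal(L/ℚ) => act g σ₁ = σ₁.comp (s : K →ₐ[ℚ] K) ∧ g w = w)).card := by
      rw [← card_union_of_disjoint]
      · rw [← Set.ncard_coe_finset]
        congr 1
        ext g
        simp only [hC, Set.mem_setOf_eq, coe_union, coe_filter, mem_univ, true_and, Set.mem_union]
      · rw [disjoint_left]
        intro g hg hg'
        exact (mem_filter.1 hg).2.2 (mem_filter.1 hg').2.2
    omega
  -- the subfield
  set F : IntermediateField ℚ K := IntermediateField.fixedField (Subgroup.zpowers s) with hF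
  have hsF : ∀ x : F, s (x : K) = x := fun x =>
    (IntermediateField.mem_fixedField_iff _ _).1 x.2 s (Subgroup.mem_zpowers s)
  let τ : F →ₐ[ℚ] L := σ₁.comp F.val
  have hτ : ∀ x : F, τ x = σ₁ (x : K) := fun x => rfl
  let e₁ : Emb K τ := ⟨σ₁, fun x => rfl⟩
  let e₂ : Emb K τ := ⟨σ₁.comp (s : K →ₐ[ℚ] K), fun x => by
    show σ₁ (s (x : K)) = σ₁ (x : K)
    rw [hsF]⟩
  have he : e₁ ≠ e₂ := fun h => hne (congrArg Subtype.val h)
  have hall : ∀ σ : Emb K τ, σ = e₁ ∨ σ = e₂ := by
    intro σ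
    obtain ⟨g, hg⟩ := exists_aut σ₁ σ.1
    have h1 : g ∈ F.fixingSubgroup := by
      rw [IntermediateField.mem_fixingSubgroup_iff]
      intro x hx
      apply σ₁.injective
      have h2 := σ.2 ⟨x, hx⟩
      rw [hg] at h2
      exact h2
    rw [hF, IntermediateField.fixingSubgroup_fixedField] at h1
    rcases zpowers_two (hexp s) h1 with h | h
    · left
      apply Subtype.ext
      rw [hg, h]
      rfl
    · right
      apply Subtype.ext
      rw [hg, h]
  have iE : Fintype (Emb K τ) := Fintype.ofFinite _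
  have hE2 : Fintype.card (Emb K τ) = 2 := by
    have h1 : (univ : Finset (Emb K τ)) = {e₁, e₂} := by
      ext σ
      simp only [mem_univ, mem_insert, mem_singleton, true_iff]
      exact hall σ
    rw [← card_univ, h1, card_pair he]
  have hfixτ : ∀ g ∈ C, act g τ = τ := by
    intro g hg
    refine AlgHom.ext fun x => ?_
    rcases hg with ⟨h, _⟩ | ⟨h, _⟩
    · exact DFunLike.congr_fun h (x : K)
    · have h1 : g (σ₁ (x : K)) = σ₁ (s (x : K)) := DFunLike.congr_fun h (x : K)
      show g (σ₁ (x : K)) = σ₁ (x : K)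
      rw [h1, hsF]
  have h2 := H10FG.blocked_lower σ₁ C (fun g hg => by
    refine ⟨F, ?_, hreal, τ, iE, inferInstance, ?_⟩
    · obtain ⟨f, hf, ι⟩ := H88Q.exists_emb_quad (K := F) hF2
      exact ⟨f, by omega, ι⟩
    have hk : Function.minimalPeriod (act g) τ = 1 :=
      Function.minimalPeriod_eq_one_iff_isFixedPt.2 (hfixτ g hg)
    rw [hk, pow_one]
    have hfg : ∀ x : F, g (τ x) = τ x := fun x => DFunLike.congr_fun (hfixτ g hg) x
    have hfg' : ∀ x : F, g⁻¹ (τ x) = τ x := by
      intro x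
      have h3 : g⁻¹ (g (τ x)) = τ x := by
        rw [← AlgEquiv.mul_apply, inv_mul_cancel]
        rfl
      rw [hfg] at h3
      exact h3
    let π : Perm (Emb K τ) :=
      { toFun := fun σ => ⟨act g σ.1, fun x => by
          show g (σ.1 (algebraMap F K x)) = τ x
          rw [σ.2, hfg]⟩
        invFun := fun σ => ⟨act g⁻¹ σ.1, fun x => by
          show g⁻¹ (σ.1 (algebraMap F K x)) = τ x
          rw [σ.2, hfg']⟩
        left_inv := fun σ => by
          apply Subtype.ext
          show act g⁻¹ (act g σ.1) = σ.1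
          rw [← act_mul, inv_mul_cancel, act_one]
        right_inv := fun σ => by
          apply Subtype.ext
          show act g (act g⁻¹ σ.1) = σ.1
          rw [← act_mul, mul_inv_cancel, act_one] }
    refine ⟨π, fun σ => rfl, fun r hr hrw => ?_⟩
    rcases hg with ⟨hg1, hg2⟩ | ⟨hg1, hg2⟩
    · have h3 : r = 2 := by
        rcases hr with h | h
        · exact absurd ((hrw w hwL).2 h) hg2
        · exact h
      rw [h3]
      refine blk_two (Or.inl hE2) π ⟨e₁, ?_⟩
      apply Subtype.ext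
      exact hg1
    · have h3 : r = 1 := (hrw w hwL).1 hg2
      rw [h3]
      have h5 : π e₁ = e₂ := by
        apply Subtype.ext
        exact hg1
      refine blk_one' hE2 π fun σ hσ => ?_
      rcases hall σ with h | h
      · rw [h, h5] at hσ
        exact he hσ.symm
      · rw [h, ← h5] at hσ
        exact he ((π.injective hσ).symm.trans h5).symm.symm)
  refine h2.mono (fun p _ hp => hp) ?_
  have hpos : (0 : ℝ) < Module.finrank ℚ L := by exact_mod_cast Module.finrank_pos
  rw [le_div_iff₀ hpos]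
  have h6 : (Module.finrank ℚ L : ℝ) = 4 * C.ncard := by exact_mod_cast hcount
  linarith

end biquad

/-- QUARTIC FIELDS -/
theorem quartic_lower {K : Type} [Field K] [NumberField K] (h4 : Module.finrank ℚ K = 4)
    (hw : ∀ w : K, w ^ 2 + w + 1 ≠ 0) : H10FG.LowerDirichlet {p | H10FG.FC K p} (1 / 4) := by
  obtain ⟨L, _, _, _, ⟨σ₁⟩, w, hwL⟩ := exists_L K
  by_cases hV : ∃ h₀ : Gal(L/ℚ), ¬ InV (hom K L h₀)
  · exact quartic_nonV h4 hw σ₁ hwL hV
  · push Not at hV
    obtain ⟨hG, hexp⟩ := galois_of_V σ₁ hV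
    exact biquad_lower h4 hexp hw σ₁ hwL

end Pool.Agent.H89.FE

end

section

/-!
# FD version 2: relative degree two or four, and relative degree prime to three

`F` a real abelian subfield of `K`.  If `[K : F]` is two or four and `K` does not contain the primitive cube roots
of unity, every element of the Galois group which fixes an embedding of `K` and moves `ω` is blocked over `F`.
If `L` is a Galois field which contains `K` but not `ω`, and `3` does not divide `[K : F]`, the automorphism of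
`L(ω) / L` is blocked over `F`.
-/

set_option autoImplicit false
set_option linter.unusedSectionVars false

namespace H85FD2

open NumberField Finset H85FD Pool.Agent.H89.FrobD Pool.Agent.H89.FE

/-- the embeddings over `τ` -/
abbrev EmbR {F L : Type} [Field F] [Field L] (K : Type) [Field K] [Algebra F K] (τ : F →+* L) : Type :=
  {σ : K →+* L // ∀ x : F, σ (algebraMap F K x) = τ x}

theorem card_embR {F K L : Type} [Field F] [NumberField F] [Field K] [NumberField K] [Algebra F K]
    [Field L] [NumberField L] [IsGalois ℚ L] (σ₁ : K →+* L) (τ : F →+* L)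
    (h : ∀ x : F, σ₁ (algebraMap F K x) = τ x) : Nat.card (EmbR K τ) = Module.finrank F K := by
  let _ : Algebra F L := τ.toAlgebra
  have hst : IsScalarTower ℚ F L := inferInstance
  have hfin : FiniteDimensional F K := inferInstance
  let e : EmbR K τ ≃ (K →ₐ[F] L) :=
    { toFun := fun σ => { σ.1 with commutes' := fun x => σ.2 x }
      invFun := fun σ => ⟨(σ : K →+* L), fun x => σ.commutes x⟩
      left_inv := fun _ => rfl
      right_inv := fun _ => rfl }
  rw [Nat.card_congr e]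
  have hn : Normal F L := Normal.tower_top_of_normal ℚ F L
  refine AlgHom.natCard_of_splits F K L fun x => ?_
  rw [← minpoly.algHom_eq (e ⟨σ₁, h⟩) (e ⟨σ₁, h⟩).injective x]
  exact Normal.splits inferInstance _

/-- parts equal to one, total not divisible by three -/
theorem not_splits_ones {M : Multiset ℕ} (h1 : ∀ k ∈ M, k = 1) (hs : ¬ 3 ∣ M.sum) : ¬ SplitsN 2 M := by
  rintro ⟨A, B, C, hM, hA, hB, hB3, hC, -⟩
  have hB0 : B = 0 := by
    rw [Multiset.eq_zero_iff_forall_notMem]
    intro k hk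
    have h2 := h1 k (by rw [hM, Multiset.mem_add, Multiset.mem_add]; exact Or.inl (Or.inr hk))
    have h3 := hB3 rfl k hk
    omega
  have hC0 : C = 0 := by
    rw [Multiset.eq_zero_iff_forall_notMem]
    intro k hk
    have h2 := h1 k (by rw [hM, Multiset.mem_add, Multiset.mem_add]; exact Or.inr hk)
    have h3 := hC k hk
    rw [Nat.even_iff] at h3
    omega
  obtain ⟨a, ha⟩ := parts_three_sum hA
  apply hs
  rw [hM, hB0, hC0, add_zero, add_zero, ha]
  exact Dvd.intro _ rfl

section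

variable {F K L : Type} [Field F] [NumberField F] [Field K] [NumberField K] [Algebra F K]
  [Field L] [NumberField L] [IsGalois ℚ L]

/-- elements which fix the embeddings of `F` and move `ω` -/
theorem rel_lower (hF : ∃ n : ℕ, 0 < n ∧ H29AB.RealAb n F) (σ₁ : K →ₐ[ℚ] L) {w : L}
    (hw : w ^ 2 + w + 1 = 0) (τ : F →+* L) (hτ : ∀ x : F, σ₁ (algebraMap F K x) = τ x) (X : Set Gal(L/ℚ))
    (hX : ∀ g ∈ X, act g σ₁ = σ₁ ∧ ¬ g w = w ∧
      ∀ (_ : Fintype (EmbR K τ)) (_ : DecidableEq (EmbR K τ)) (π : Equiv.Perm (EmbR K τ)),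
        (∀ σ x, (π σ).1 x = g (σ.1 x)) → ¬ SplitsN 2 π.partition.parts) :
    H10FG.LowerDirichlet {p | H10FG.FC K p} ((X.ncard : ℝ) / (Module.finrank ℚ L : ℝ)) := by
  classical
  refine blocked_main K L ⟨(σ₁ : K →+* L)⟩ X fun g hg => ?_
  obtain ⟨h1, h2, h3⟩ := hX g hg
  have hgτ : ∀ x : F, g (τ x) = τ x := fun x => by
    rw [← hτ]
    exact DFunLike.congr_fun h1 (algebraMap F K x)
  have hgτ' : ∀ x : F, g⁻¹ (τ x) = τ x := by
    intro x
    have h4 : g⁻¹ (g (τ x)) = τ x := by
      rw [← AlgEquiv.mul_apply, inv_mul_cancel]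
      rfl
    rw [hgτ] at h4
    exact h4
  have hk : Function.minimalPeriod (fun τ : F →+* L => (g : L →+* L).comp τ) τ = 1 :=
    Function.minimalPeriod_eq_one_iff_isFixedPt.2 (RingHom.ext fun x => hgτ x)
  have hfin : Finite (EmbR K τ) := by
    refine Nat.finite_of_card_ne_zero ?_
    rw [card_embR (σ₁ : K →+* L) τ hτ]
    exact Module.finrank_pos.ne'
  have hfin' : Fintype (EmbR K τ) := Fintype.ofFinite _
  let π : Equiv.Perm (EmbR K τ) :=
    { toFun := fun σ => ⟨(g : L →+* L).comp σ.1, fun x => by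
        show g (σ.1 (algebraMap F K x)) = τ x
        rw [σ.2, hgτ]⟩
      invFun := fun σ => ⟨((g⁻¹ : Gal(L/ℚ)) : L →+* L).comp σ.1, fun x => by
        show g⁻¹ (σ.1 (algebraMap F K x)) = τ x
        rw [σ.2, hgτ']⟩
      left_inv := fun σ => by
        apply Subtype.ext
        refine RingHom.ext fun x => ?_
        show g⁻¹ (g (σ.1 x)) = σ.1 x
        rw [← AlgEquiv.mul_apply, inv_mul_cancel]
        rfl
      right_inv := fun σ => by
        apply Subtype.ext
        refine RingHom.ext fun x => ?_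
        show g (g⁻¹ (σ.1 x)) = σ.1 x
        rw [← AlgEquiv.mul_apply, mul_inv_cancel]
        rfl }
  refine ⟨F, inferInstance, inferInstance, inferInstance, hF, τ, hfin', inferInstance, π, ?_, ?_⟩
  · intro σ
    rw [hk, pow_one]
    rfl
  · intro r hr hrw
    rw [hk, pow_one] at hrw
    have h4 : r = 2 := by
      rcases hr with h | h
      · exact absurd ((hrw w hw).2 h) h2
      · exact h
    rw [h4]
    exact h3 _ _ π fun σ x => rfl

end

/-- RELATIVE DEGREE TWO OR FOUR -/
theorem small_lower {F K : Type} [Field F] [NumberField F] [Field K] [NumberField K] [Algebra F K]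
    (hF : ∃ n : ℕ, 0 < n ∧ H29AB.RealAb n F) (h24 : Module.finrank F K = 2 ∨ Module.finrank F K = 4)
    (hw : ∀ w : K, w ^ 2 + w + 1 ≠ 0) :
    H10FG.LowerDirichlet {p | H10FG.FC K p} (1 / (2 * (Module.finrank ℚ K : ℝ))) := by
  classical
  obtain ⟨L, _, _, _, ⟨σ₁⟩, w, hwL⟩ := exists_L K
  have iG : Fintype Gal(L/ℚ) := Fintype.ofFinite _
  let τ : F →+* L := (σ₁ : K →+* L).comp (algebraMap F K)
  have h1 := rel_lower hF σ₁ hwL τ (fun _ => rfl) {g : Gal(L/ℚ) | act g σ₁ = σ₁ ∧ ¬ g w = w} fun g hg => by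
    refine ⟨hg.1, hg.2, fun iE iD π hπ => ?_⟩
    refine blk_two ?_ π ⟨⟨(σ₁ : K →+* L), fun _ => rfl⟩, ?_⟩
    · rw [← Nat.card_eq_fintype_card, card_embR (σ₁ : K →+* L) τ fun _ => rfl]
      exact h24
    · apply Subtype.ext
      refine RingHom.ext fun x => ?_
      rw [hπ]
      exact DFunLike.congr_fun hg.1 x
  refine h1.mono (fun p _ hp => hp) (le_of_eq ?_)
  obtain ⟨n, hn1, hn2⟩ := exists_move hw hwL σ₁
  have h2 := (half (W := fun g : Gal(L/ℚ) => g w = w) (fun g n hn => W_mul hwL g n hn)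
    (fun g => act g σ₁ = σ₁) n hn2 (fun g => by
      show act (g * n) σ₁ = σ₁ ↔ _
      rw [act_mul, hn1])).1
  have h3 := card_stab_emb σ₁
  rw [IsGalois.card_aut_eq_finrank, Nat.card_eq_fintype_card, Fintype.card_subtype] at h3
  have h4 : ({g : Gal(L/ℚ) | act g σ₁ = σ₁ ∧ ¬ g w = w} : Set Gal(L/ℚ)).ncard =
      (univ.filter (fun g : Gal(L/ℚ) => act g σ₁ = σ₁ ∧ ¬ g w = w)).card := by
    rw [← Set.ncard_coe_finset]
    congr 1
    ext g
    simp
  have h5 : Module.finrank ℚ L = 2 * Module.finrank ℚ K *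
      ({g : Gal(L/ℚ) | act g σ₁ = σ₁ ∧ ¬ g w = w} : Set Gal(L/ℚ)).ncard := by
    rw [h4, ← h3, ← h2]
    ring
  have hpos : (0 : ℝ) < Module.finrank ℚ L := by exact_mod_cast Module.finrank_pos
  have hposK : (0 : ℝ) < Module.finrank ℚ K := by exact_mod_cast Module.finrank_pos
  have h6 : (Module.finrank ℚ L : ℝ) = 2 * Module.finrank ℚ K *
      (({g : Gal(L/ℚ) | act g σ₁ = σ₁ ∧ ¬ g w = w} : Set Gal(L/ℚ)).ncard : ℝ) := by exact_mod_cast h5
  rw [div_eq_div_iff (by positivity) hpos.ne', h6]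
  ring

/-- CLOSURE WITHOUT `ω`, RELATIVE DEGREE PRIME TO THREE -/
theorem three_lower {F K L₀ : Type} [Field F] [NumberField F] [Field K] [NumberField K] [Algebra F K]
    [Field L₀] [NumberField L₀] [IsGalois ℚ L₀] (hF : ∃ n : ℕ, 0 < n ∧ H29AB.RealAb n F)
    (σ₀ : K →+* L₀) (h3 : ¬ 3 ∣ Module.finrank F K) (hw : ∀ w : L₀, w ^ 2 + w + 1 ≠ 0) :
    H10FG.LowerDirichlet {p | H10FG.FC K p} (1 / (2 * (Module.finrank ℚ L₀ : ℝ))) := by
  classical
  obtain ⟨L, _, _, _, ⟨ι⟩, w, hwL⟩ := exists_L L₀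
  have iG : Fintype Gal(L/ℚ) := Fintype.ofFinite _
  let σ₁ : K →ₐ[ℚ] L := ι.comp σ₀.toRatAlgHom
  let τ : F →+* L := (σ₁ : K →+* L).comp (algebraMap F K)
  -- all embeddings of `K` go into `ι L₀`
  have hall : ∀ (σ : K →ₐ[ℚ] L) (x : K), ∃ y : L₀, σ x = ι y := by
    intro σ x
    obtain ⟨ρ, hρ⟩ := exists_gal σ₁ σ
    obtain ⟨g, hg⟩ := exists_aut ι (act ρ ι)
    refine ⟨g (σ₀ x), ?_⟩
    rw [← hρ]
    show ρ (ι (σ₀ x)) = ι (g (σ₀ x))
    exact DFunLike.congr_fun hg (σ₀ x)
  have h1 := rel_lower hF σ₁ hwL τ (fun _ => rfl) {g : Gal(L/ℚ) | act g ι = ι ∧ ¬ g w = w} fun g hg => by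
    have hfix : ∀ (σ : K →ₐ[ℚ] L) (x : K), g (σ x) = σ x := by
      intro σ x
      obtain ⟨y, hy⟩ := hall σ x
      rw [hy]
      exact DFunLike.congr_fun hg.1 y
    refine ⟨AlgHom.ext fun x => hfix σ₁ x, hg.2, fun iE iD π hπ => ?_⟩
    have hπ1 : ∀ σ, π σ = σ := fun σ => by
      apply Subtype.ext
      refine RingHom.ext fun x => ?_
      rw [hπ]
      exact hfix σ.1.toRatAlgHom x
    refine not_splits_ones (fun k hk => ?_) ?_
    · by_contra hk1
      have hkp := π.partition.parts_pos hk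
      have h5 := perm_count π k hkp
      have h6 : (univ.filter fun x => Function.minimalPeriod π x = k) = ∅ := by
        rw [filter_eq_empty_iff]
        intro x _ h7
        exact hk1 (h7.symm.trans (Function.minimalPeriod_eq_one_iff_isFixedPt.2 (hπ1 x)))
      rw [h6, card_empty] at h5
      have h8 := Multiset.count_pos.2 hk
      rcases Nat.mul_eq_zero.1 h5 with h | h <;> omega
    · rw [π.partition.parts_sum, ← Nat.card_eq_fintype_card, card_embR (σ₁ : K →+* L) τ fun _ => rfl]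
      exact h3
  refine h1.mono (fun p _ hp => hp) (le_of_eq ?_)
  obtain ⟨n, hn1, hn2⟩ := exists_move hw hwL ι
  have h2 := (half (W := fun g : Gal(L/ℚ) => g w = w) (fun g n hn => W_mul hwL g n hn)
    (fun g => act g ι = ι) n hn2 (fun g => by
      show act (g * n) ι = ι ↔ _
      rw [act_mul, hn1])).1
  have h3 := card_stab_emb ι
  rw [IsGalois.card_aut_eq_finrank, Nat.card_eq_fintype_card, Fintype.card_subtype] at h3
  have h4 : ({g : Gal(L/ℚ) | act g ι = ι ∧ ¬ g w = w} : Set Gal(L/ℚ)).ncard =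
      (univ.filter (fun g : Gal(L/ℚ) => act g ι = ι ∧ ¬ g w = w)).card := by
    rw [← Set.ncard_coe_finset]
    congr 1
    ext g
    simp
  have h5 : Module.finrank ℚ L = 2 * Module.finrank ℚ L₀ *
      ({g : Gal(L/ℚ) | act g ι = ι ∧ ¬ g w = w} : Set Gal(L/ℚ)).ncard := by
    rw [h4, ← h3, ← h2]
    ring
  have hpos : (0 : ℝ) < Module.finrank ℚ L := by exact_mod_cast Module.finrank_pos
  have hposK : (0 : ℝ) < Module.finrank ℚ L₀ := by exact_mod_cast Module.finrank_pos
  have h6 : (Module.finrank ℚ L : ℝ) = 2 * Module.finrank ℚ L₀ *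
      (({g : Gal(L/ℚ) | act g ι = ι ∧ ¬ g w = w} : Set Gal(L/ℚ)).ncard : ℝ) := by exact_mod_cast h5
  rw [div_eq_div_iff (by positivity) hpos.ne', h6]
  ring

end H85FD2

end
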