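import Pool.Agent.H71.TFC.M12
import Pool.Agent.H71.TFC.M13
import Pool.Agent.H71.TFC.M14

/-! The parts of this file: H51.QD.Lin, H51.QD.Ser, H80.HF.KerP, H80.HF.KerI, H80.HF.ArchF, H80.HF.Arch, H80.HF.CntD, H80.HF.Fsm, H80.HF.B0, H80.HF.ZeroA, H80.HF.ZeroC, H80.HF.IntM, H80.HF.BadB. -/

section

/-!
# q-adic linear algebra

`QV q k x`: the rational number `x` has `q`-adic valuation at least `k` (true for `x = 0`).

* `QV.det_potential`: Leibniz with potentials.
* `QV.det_expand`: multilinear expansion of a determinant over classes of rows.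
* `QV.det_expand_typed`: the same with types of columns.
* `sum_half_ge`: integer convexity of `u (u - 1) / 2`.
-/

namespace H51QD

open Finset Matrix

/-- `QV q k x`: the rational number `x` has `q`-adic valuation at least `k` (or is zero). -/
def QV (q : ℕ) (k : ℤ) (x : ℚ) : Prop := x ≠ 0 → k ≤ padicValRat q x

section basic

variable {q : ℕ}

theorem QV.zero (k : ℤ) : QV q k 0 := fun h => absurd rfl h

theorem QV.mono {k l : ℤ} {x : ℚ} (h : QV q k x) (hl : l ≤ k) : QV q l x :=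
  fun hx => hl.trans (h hx)

theorem QV.neg {k : ℤ} {x : ℚ} (h : QV q k x) : QV q k (-x) := by
  intro hx
  rw [padicValRat.neg]
  exact h (by simpa using hx)

theorem QV.add [hq : Fact q.Prime] {k : ℤ} {x y : ℚ} (hx : QV q k x) (hy : QV q k y) :
    QV q k (x + y) := by
  intro h
  by_cases hx0 : x = 0
  · subst hx0
    rw [zero_add] at h ⊢
    exact hy h
  by_cases hy0 : y = 0
  · subst hy0
    rw [add_zero] at h ⊢
    exact hx h
  exact (le_min (hx hx0) (hy hy0)).trans (padicValRat.min_le_padicValRat_add h)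

theorem QV.sum [hq : Fact q.Prime] {α : Type*} (s : Finset α) {k : ℤ} {f : α → ℚ}
    (h : ∀ a ∈ s, QV q k (f a)) : QV q k (∑ a ∈ s, f a) := by
  classical
  induction s using Finset.induction_on with
  | empty => simpa using QV.zero k
  | insert a s ha ih =>
    rw [Finset.sum_insert ha]
    exact (h a (mem_insert_self a s)).add (ih fun b hb => h b (mem_insert_of_mem hb))

theorem QV.mul [hq : Fact q.Prime] {k l : ℤ} {x y : ℚ} (hx : QV q k x) (hy : QV q l y) :
    QV q (k + l) (x * y) := by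
  intro h
  have hx0 : x ≠ 0 := left_ne_zero_of_mul h
  have hy0 : y ≠ 0 := right_ne_zero_of_mul h
  rw [padicValRat.mul hx0 hy0]
  exact add_le_add (hx hx0) (hy hy0)

theorem QV.int (n : ℤ) : QV q 0 (n : ℚ) := by
  intro _
  rw [padicValRat.of_int]
  exact Int.natCast_nonneg _

theorem QV.nat (n : ℕ) : QV q 0 (n : ℚ) := by
  have := QV.int (q := q) (n : ℤ)
  simpa using this

theorem QV.one : QV q 0 (1 : ℚ) := by simpa using QV.nat (q := q) 1

theorem QV.pow [hq : Fact q.Prime] {k : ℤ} {x : ℚ} (hx : QV q k x) (n : ℕ) :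
    QV q (n * k) (x ^ n) := by
  induction n with
  | zero => simpa using QV.one
  | succ n ih =>
    rw [pow_succ]
    have := ih.mul hx
    refine this.mono (le_of_eq ?_)
    push_cast
    ring

end basic

section leibniz

variable {q : ℕ} [hq : Fact q.Prime] {ι : Type*} [Fintype ι] [DecidableEq ι]

end leibniz

section expand

variable {q : ℕ} [hq : Fact q.Prime] {ι κ γ : Type*} [Fintype ι] [DecidableEq ι] [Fintype κ]

end expand

section support

variable {ι : Type*} [Fintype ι] [DecidableEq ι]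

end support

section master

variable {q : ℕ} [hq : Fact q.Prime] {ι κ γ τ : Type*} [Fintype ι] [DecidableEq ι] [Fintype κ]
  [DecidableEq κ] [DecidableEq τ]

end master

section convex

end convex

end H51QD

end

section

/-!
# q-adic bounds for the coefficients of products of linear factors and their inverses

`PB q e L F`: the `l`-th coefficient of the power series `F` has valuation at least `e - l * L`.
-/

namespace H51QD

open Finset PowerSeries

/-- `PB q e L F`: the `l`-th coefficient of `F` has `q`-adic valuation at least `e - l * L`. -/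
def PB (q : ℕ) (e : ℤ) (L : ℕ) (F : PowerSeries ℚ) : Prop :=
  ∀ l : ℕ, QV q (e - l * L) (coeff l F)

section

variable {q : ℕ} [hq : Fact q.Prime]

theorem PB.mul {e e' : ℤ} {L : ℕ} {F G : PowerSeries ℚ} (hF : PB q e L F) (hG : PB q e' L G) :
    PB q (e + e') L (F * G) := by
  intro l
  rw [PowerSeries.coeff_mul]
  refine QV.sum _ fun p hp => ?_
  rw [Finset.HasAntidiagonal.mem_antidiagonal] at hp
  refine ((hF p.1).mul (hG p.2)).mono (le_of_eq ?_)
  rw [← hp]
  push_cast
  ring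

omit hq in
theorem PB.one {L : ℕ} : PB q 0 L (1 : PowerSeries ℚ) := by
  intro l
  rw [PowerSeries.coeff_one]
  split_ifs with h
  · subst h
    simpa using QV.one
  · exact QV.zero _

omit hq in
theorem PB.mono {e e' : ℤ} {L : ℕ} {F : PowerSeries ℚ} (h : PB q e L F) (he : e' ≤ e) :
    PB q e' L F := fun l => (h l).mono (by linarith)

omit hq in
/-- a linear factor `x + c z` with `v_q (x) ≤ L` -/
theorem PB.linear (x c : ℤ) (L : ℕ) (hL : padicValInt q x ≤ L) :
    PB q (padicValInt q x) L (C (x : ℚ) + C (c : ℚ) * X) := by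
  intro l
  rw [map_add, PowerSeries.coeff_C, ← smul_eq_C_mul, map_smul, PowerSeries.coeff_X]
  rcases Nat.lt_trichotomy l 1 with h | h | h
  · have hl : l = 0 := by omega
    subst hl
    simp only [if_true, Nat.cast_zero, zero_mul, sub_zero, zero_ne_one, if_false, smul_zero,
      add_zero]
    intro _
    rw [padicValRat.of_int]
  · subst h
    simp only [one_ne_zero, if_false, if_true, zero_add, smul_eq_mul, mul_one, Nat.cast_one,
      one_mul]
    refine (QV.int c).mono ?_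
    have : (padicValInt q x : ℤ) ≤ L := by exact_mod_cast hL
    linarith
  · have h1 : l ≠ 0 := by omega
    have h2 : l ≠ 1 := by omega
    simp only [h1, h2, if_false, smul_zero, add_zero]
    exact QV.zero _

/-- the inverse of a linear factor `x + c z` with `x ≠ 0`, `v_q (x) ≤ L` -/
theorem PB.linear_inv (x c : ℤ) (hx : x ≠ 0) (L : ℕ) (hL : padicValInt q x ≤ L) :
    PB q (-(padicValInt q x : ℤ)) L (C (x : ℚ) + C (c : ℚ) * X)⁻¹ := by
  have hx' : (x : ℚ) ≠ 0 := by exact_mod_cast hx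
  have h1 : (C (x : ℚ) + C (c : ℚ) * X)⁻¹ =
      PowerSeries.mk fun l => (-(c : ℚ)) ^ l * (x : ℚ)⁻¹ ^ (l + 1) := by
    rw [PowerSeries.inv_eq_iff_mul_eq_one]
    · ext l
      rw [mul_add, map_add, PowerSeries.coeff_mul_C, PowerSeries.coeff_mk, mul_comm (C (c : ℚ)) X,
        ← mul_assoc, PowerSeries.coeff_mul_C, PowerSeries.coeff_one]
      cases l with
      | zero =>
        rw [PowerSeries.coeff_zero_mul_X]
        simp [hx']
      | succ l =>
        rw [PowerSeries.coeff_succ_mul_X, PowerSeries.coeff_mk]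
        simp only [Nat.add_one_ne_zero, if_false]
        have h2 : (x : ℚ)⁻¹ * x = 1 := inv_mul_cancel₀ hx'
        rw [pow_succ (x : ℚ)⁻¹ (l + 1), pow_succ (-(c : ℚ)) l]
        linear_combination ((-(c : ℚ)) ^ l * (-(c : ℚ)) * (x : ℚ)⁻¹ ^ (l + 1)) * h2
    · simp [hx']
  rw [h1]
  intro l
  rw [PowerSeries.coeff_mk]
  have h2 : QV q (-(padicValInt q x : ℤ)) ((x : ℚ)⁻¹) := by
    intro _
    rw [padicValRat.inv, padicValRat.of_int]
  have h3 : QV q 0 (-(c : ℚ)) := (QV.int c).neg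
  have h4 := (h3.pow l).mul (h2.pow (l + 1))
  refine h4.mono ?_
  have h5 : (padicValInt q x : ℤ) ≤ L := by exact_mod_cast hL
  have h6 : (l : ℤ) * (padicValInt q x : ℤ) ≤ l * L :=
    mul_le_mul_of_nonneg_left h5 (Int.natCast_nonneg l)
  push_cast
  nlinarith

end

section class_

/-- The class function: `+1` on even and `-1` on odd residues in `(Q/3, 2Q/3)`, `0` otherwise. -/
def eF (Q : ℕ) (t : ℤ) : ℤ :=
  if (Q : ℤ) < 3 * (t % Q) ∧ 3 * (t % Q) < 2 * Q then (if (t % Q) % 2 = 0 then 1 else -1) else 0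

/-- indicator of divisibility -/
def ind (Q : ℕ) (x : ℤ) : ℤ := if (Q : ℤ) ∣ x then 1 else 0

theorem eF_periodic (Q : ℕ) (t k : ℤ) : eF Q (t + Q * k) = eF Q t := by
  unfold eF
  rw [Int.add_mul_emod_self_left]

theorem eF_zero (Q : ℕ) : eF Q 0 = 0 := by
  unfold eF
  simp

theorem eF_one (Q : ℕ) (hQ : 3 ≤ Q) : eF Q 1 = 0 := by
  unfold eF
  have h : (1 : ℤ) % Q = 1 := Int.emod_eq_of_lt (by norm_num) (by exact_mod_cast (by omega : 1 < Q))
  rw [h, if_neg]
  intro h
  have : (3 : ℤ) ≤ Q := by exact_mod_cast hQ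
  linarith [h.1]

set_option maxHeartbeats 4000000 in
/-- recursion of the class function -/
theorem eF_step (Q : ℕ) (hQ : Q.Coprime 6) (hQ1 : 3 < Q) (t : ℤ) :
    eF Q (t + 2) - eF Q t =
      ind Q (3 * t + 1) + ind Q (3 * t + 5) - ind Q (3 * t + 2) - ind Q (3 * t + 4) := by
  have h6 : Q % 6 = 1 ∨ Q % 6 = 5 := by
    have h2 : ¬ 2 ∣ Q := fun h => by
      have := Nat.dvd_gcd h (by norm_num : 2 ∣ 6)
      rw [hQ] at this
      omega
    have h3 : ¬ 3 ∣ Q := fun h => by
      have := Nat.dvd_gcd h (by norm_num : 3 ∣ 6)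
      rw [hQ] at this
      omega
    omega
  obtain ⟨ρ, k, hρ0, hρ1, ht⟩ : ∃ ρ k : ℤ, 0 ≤ ρ ∧ ρ < Q ∧ t = ρ + Q * k :=
    ⟨t % Q, t / Q, Int.emod_nonneg _ (by omega), Int.emod_lt_of_pos _ (by omega),
      (Int.emod_add_mul_ediv t Q).symm⟩
  have hind : ∀ c : ℤ, ind Q (3 * t + c) = ind Q (3 * ρ + c) := by
    intro c
    unfold ind
    congr 1
    rw [ht]
    have : 3 * (ρ + Q * k) + c = 3 * ρ + c + Q * (3 * k) := by ring
    rw [this]
    exact propext (Int.dvd_add_left (Dvd.intro _ rfl))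
  rw [hind, hind, hind, hind]
  have he0 : eF Q t = eF Q ρ := by rw [ht, eF_periodic]
  have he2 : eF Q (t + 2) = eF Q (ρ + 2) := by
    rw [ht, show ρ + Q * k + 2 = ρ + 2 + Q * k by ring, eF_periodic]
  rw [he0, he2]
  -- divisibility in the bounded range
  have hdvd : ∀ c : ℤ, 0 < c → c < 6 → ((Q : ℤ) ∣ 3 * ρ + c ↔
      (3 * ρ + c = Q ∨ 3 * ρ + c = 2 * Q ∨ 3 * ρ + c = 3 * Q)) := by
    intro c hc0 hc6
    constructor
    · rintro ⟨m, hm⟩
      have hQ0 : (0 : ℤ) < Q := by exact_mod_cast (by omega : 0 < Q)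
      have hQ3 : (3 : ℤ) < Q := by exact_mod_cast hQ1
      have h1 : 0 < m := by
        by_contra h
        push Not at h
        have : (Q : ℤ) * m ≤ 0 := mul_nonpos_of_nonneg_of_nonpos hQ0.le h
        linarith
      have h2 : m < 4 := by
        by_contra h
        push Not at h
        have : (Q : ℤ) * 4 ≤ Q * m := mul_le_mul_of_nonneg_left h hQ0.le
        linarith
      interval_cases m
      · left; linarith
      · right; left; linarith
      · right; right; linarith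
    · rintro (h | h | h)
      · rw [h]
      · rw [h]; exact Dvd.intro_left _ rfl
      · rw [h]; exact Dvd.intro_left _ rfl
  unfold ind
  rw [if_congr (hdvd 1 (by norm_num) (by norm_num)) rfl rfl,
    if_congr (hdvd 5 (by norm_num) (by norm_num)) rfl rfl,
    if_congr (hdvd 2 (by norm_num) (by norm_num)) rfl rfl,
    if_congr (hdvd 4 (by norm_num) (by norm_num)) rfl rfl]
  unfold eF
  have hm0 : ρ % Q = ρ := Int.emod_eq_of_lt hρ0 hρ1
  have hm2 : (ρ + 2) % Q = if ρ + 2 < Q then ρ + 2 else ρ + 2 - Q := by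
    split_ifs with h
    · exact Int.emod_eq_of_lt (by linarith) h
    · push Not at h
      have hQ3 : (3 : ℤ) < Q := by exact_mod_cast hQ1
      rw [← Int.emod_eq_of_lt (a := ρ + 2 - Q) (b := Q) (by linarith) (by linarith)]
      have := Int.add_mul_emod_self_left (ρ + 2 - Q) Q 1
      rw [mul_one, sub_add_cancel] at this
      rw [← this]
  rw [hm0, hm2]
  split_ifs <;> omega

end class_

end H51QD

end

section

/-!
# HF KerP: the kernel polynomials modulo a Wieferich prime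

`A = ∏ (u - X)`, `B = ∏ (u + X)`, `u = 2j` over the even numbers in `(p/3, 2p/3)`, i.e. `⌊p/6⌋ < j ≤ ⌊p/3⌋`.
The proofs are in `Pool.Agent.H40.HF.Jets` (`Num = A`, `Den = B`).
-/

set_option autoImplicit false

namespace Pool.Agent.H80.HF

open Finset Polynomial

noncomputable def AA (p : ℕ) : (ZMod p)[X] := ∏ j ∈ Ioc (p / 6) (p / 3), (C (2 * (j : ZMod p)) - X)

noncomputable def BB (p : ℕ) : (ZMod p)[X] := ∏ j ∈ Ioc (p / 6) (p / 3), (C (2 * (j : ZMod p)) + X)

theorem AA_eq (p : ℕ) : AA p = Pool.Agent.H40.HF.Num p := by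
  unfold AA Pool.Agent.H40.HF.Num
  refine prod_congr rfl fun j _ => ?_
  push_cast
  rfl

theorem BB_eq (p : ℕ) : BB p = Pool.Agent.H40.HF.Den p := by
  unfold BB Pool.Agent.H40.HF.Den
  refine prod_congr rfl fun j _ => ?_
  push_cast
  rfl

theorem AB_deg (p : ℕ) [Fact p.Prime] (hp : 5 ≤ p) :
    (AA p).natDegree = dd p ∧ (BB p).natDegree = dd p ∧ (AA p).coeff 0 ≠ 0 ∧ (BB p).coeff 0 ≠ 0 := by
  rw [AA_eq, BB_eq]
  refine ⟨Pool.Agent.H40.HF.Num_natDegree p, Pool.Agent.H40.HF.Den_natDegree p, ?_,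
    Pool.Agent.H40.HF.Den_coeff_zero_ne p hp⟩
  have h1 := Pool.Agent.H40.HF.Den_coeff_zero_ne p hp
  rw [coeff_zero_eq_eval_zero] at h1 ⊢
  rw [← Pool.Agent.H40.HF.Den_comp_neg, eval_comp]
  simpa using h1

end Pool.Agent.H80.HF

end

section

/-!
# HF KerI: `DN t(y) A(t+y) = NN t(y) B(t+y) + O(y^3)` modulo a Wieferich prime, for all integers `t`

From `Pool.Agent.H40.HF.jets_nat`, `jets_neg`: `NDp n = nd ℤ n`, and `NDm n` is `(-1)^n` times
`(den_n(-X), num_n(-X))`.
-/

set_option autoImplicit false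

namespace Pool.Agent.H80.HF

open Finset Polynomial
open Pool.Agent.H40.HF (nd nd_zero nd_succ nd_map Num Den)

theorem NDp_eq (n : ℕ) : NDp n = nd ℤ n := by
  induction n with
  | zero => rfl
  | succ n ih =>
    rw [nd_succ, ← ih]
    show (lf (3 * n + 2) * (NDp n).2, lf (3 * n + 1) * (NDp n).1) = _
    unfold lf
    ext1
    · show (C 3 * X + C (3 * (n : ℤ) + 2)) * (NDp n).2 = (C (3 * (n : ℤ) + 2) + C 3 * X) * (NDp n).2
      ring
    · show (C 3 * X + C (3 * (n : ℤ) + 1)) * (NDp n).1 = (C (3 * (n : ℤ) + 1) + C 3 * X) * (NDp n).1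
      ring

theorem NDm_eq (n : ℕ) : (NDm n).1 = (-1) ^ n * (nd ℤ n).2.comp (-X) ∧
    (NDm n).2 = (-1) ^ n * (nd ℤ n).1.comp (-X) := by
  induction n with
  | zero => simp [NDm, nd_zero]
  | succ n ih =>
    obtain ⟨h1, h2⟩ := ih
    rw [nd_succ]
    refine ⟨?_, ?_⟩
    · show lf (-(3 * n) - 1) * (NDm n).2 = _
      rw [h2]
      unfold lf
      simp only [mul_comp, add_comp, C_comp, X_comp, C_add, C_sub, C_neg, C_mul]
      ring
    · show lf (-(3 * n) - 2) * (NDm n).1 = _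
      rw [h1]
      unfold lf
      simp only [mul_comp, add_comp, C_comp, X_comp, C_add, C_sub, C_neg, C_mul]
      ring

theorem ker_id (p : ℕ) [Fact p.Prime] (hp : 5 ≤ p) (hW : Wie p) (t : ℤ) :
    (X : (ZMod p)[X]) ^ 3 ∣ (DN t).map (Int.castRingHom (ZMod p)) * (AA p).comp (X + C (t : ZMod p)) -
      (NN t).map (Int.castRingHom (ZMod p)) * (BB p).comp (X + C (t : ZMod p)) := by
  rw [AA_eq, BB_eq]
  unfold NN DN
  by_cases ht : 0 ≤ t
  · rw [if_pos ht, if_pos ht]
    obtain ⟨n, rfl⟩ := Int.eq_ofNat_of_zero_le ht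
    have h := Pool.Agent.H40.HF.jets_nat p hp (wf_of_wie hW) n
    have hm := nd_map (Int.castRingHom (ZMod p)) n
    rw [Int.toNat_natCast, NDp_eq, Int.cast_natCast]
    rw [← hm] at h
    exact h
  · rw [if_neg ht, if_neg ht]
    obtain ⟨n, hn⟩ := Int.eq_ofNat_of_zero_le (show 0 ≤ -t by omega)
    obtain rfl : t = -(n : ℤ) := by omega
    have h := Pool.Agent.H40.HF.jets_neg p hp (wf_of_wie hW) n
    have hm := nd_map (Int.castRingHom (ZMod p)) n
    obtain ⟨h1, h2⟩ := NDm_eq n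
    rw [neg_neg, Int.toNat_natCast, h1, h2]
    rw [← hm] at h
    simp only [Polynomial.map_mul, Polynomial.map_pow, Polynomial.map_neg, Polynomial.map_one,
      Polynomial.map_comp, Polynomial.map_X] 
    have e : (X + C (((-(n : ℤ) : ℤ)) : ZMod p) : (ZMod p)[X]) = X - C (n : ZMod p) := by
      push_cast
      rw [C_neg]
      ring
    rw [e]
    obtain ⟨w, hw⟩ := h
    refine ⟨(-1) ^ n * w, ?_⟩
    linear_combination (-1) ^ n * hw

end Pool.Agent.H80.HF

end

section

/-!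
# HF ArchF: real size of the coefficients of `F_t`

PROOF (helper30). `FF_rec` gives `F_(t+1) F_t = 1 + 1/(3(t+y)+1)` modulo cubes; the values at `0` stay in `[1/2, 2]` and the
logarithmic derivatives grow at most linearly (`Pool.Agent.H30.MM.jets_poly`).
-/

set_option autoImplicit false

namespace Pool.Agent.H80.HF

private theorem archF_lf (n : ℤ) : toPS (lf n) = PowerSeries.C (3 : ℚ) * PowerSeries.X +
    PowerSeries.C (n : ℚ) := by
  rw [toPS, lf, Polynomial.map_add, Polynomial.map_mul, Polynomial.map_C, Polynomial.map_X,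
    Polynomial.map_C, Polynomial.coe_add, Polynomial.coe_mul, Polynomial.coe_C, Polynomial.coe_C,
    Polynomial.coe_X]
  rfl

private theorem archF_coeff (c d : ℚ) (hc : c ≠ 0) (G : PowerSeries ℚ)
    (h : (PowerSeries.C (3 : ℚ) * PowerSeries.X + PowerSeries.C c) * G =
      PowerSeries.C (3 : ℚ) * PowerSeries.X + PowerSeries.C d) :
    PowerSeries.coeff 0 G = d / c ∧ PowerSeries.coeff 1 G = (3 - 3 * (d / c)) / c ∧
      PowerSeries.coeff 2 G = - 3 * ((3 - 3 * (d / c)) / c) / c := by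
  have h0 := congrArg (PowerSeries.coeff 0) h
  have h1 := congrArg (PowerSeries.coeff 1) h
  have h2 := congrArg (PowerSeries.coeff 2) h
  have hX0 : PowerSeries.coeff 0 (PowerSeries.X * G) = 0 := by simp
  have hX1 : PowerSeries.coeff 1 (PowerSeries.X * G) = PowerSeries.coeff 0 G :=
    PowerSeries.coeff_succ_X_mul 0 _
  have hX2 : PowerSeries.coeff 2 (PowerSeries.X * G) = PowerSeries.coeff 1 G :=
    PowerSeries.coeff_succ_X_mul 1 _
  have hC0 : PowerSeries.coeff 0 (PowerSeries.C d) = d := by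
    rw [PowerSeries.coeff_C]; simp
  have hC1 : PowerSeries.coeff 1 (PowerSeries.C d) = 0 := by
    rw [PowerSeries.coeff_C]; simp
  have hC2 : PowerSeries.coeff 2 (PowerSeries.C d) = 0 := by
    rw [PowerSeries.coeff_C]; simp
  have hXc : PowerSeries.coeff 2 (PowerSeries.X : PowerSeries ℚ) = 0 := by
    rw [PowerSeries.coeff_X]; simp
  have hXb : PowerSeries.coeff 0 (PowerSeries.X : PowerSeries ℚ) = 0 := by
    rw [PowerSeries.coeff_X]; simp
  rw [add_mul, mul_assoc, map_add, map_add, PowerSeries.coeff_C_mul, PowerSeries.coeff_C_mul,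
    PowerSeries.coeff_C_mul, hX0, hC0, hXb] at h0
  rw [add_mul, mul_assoc, map_add, map_add, PowerSeries.coeff_C_mul, PowerSeries.coeff_C_mul,
    PowerSeries.coeff_C_mul, hX1, hC1, PowerSeries.coeff_one_X] at h1
  rw [add_mul, mul_assoc, map_add, map_add, PowerSeries.coeff_C_mul, PowerSeries.coeff_C_mul,
    PowerSeries.coeff_C_mul, hX2, hC2, hXc] at h2
  have e0 : PowerSeries.coeff 0 G = d / c := by
    rw [eq_div_iff hc]; linarith
  have e1 : PowerSeries.coeff 1 G = (3 - 3 * (d / c)) / c := by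
    rw [eq_div_iff hc, ← e0]; linarith
  refine ⟨e0, e1, ?_⟩
  rw [eq_div_iff hc, ← e1]; linarith

theorem F_real (L : ℕ) (hL : 1 ≤ L) (t : ℤ) (ht : |t| ≤ (L : ℤ)) (j : ℕ) (hj : j < 3) :
    |PowerSeries.coeff j (FF t)| ≤ 1000 * ((L : ℚ) + 1) ^ 2 := by
  -- coefficient identities
  have hc : ∀ t : ℤ, (3 * (t : ℚ) + 1) ≠ 0 := by
    intro t h
    have h1 : (3 * t + 1 : ℤ) = 0 := by exact_mod_cast h
    omega
  have hrec : ∀ t : ℤ, (PowerSeries.C (3 : ℚ) * PowerSeries.X + PowerSeries.C ((3 * (t : ℚ) + 1))) *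
      (FF (t + 1) * FF t) = PowerSeries.C (3 : ℚ) * PowerSeries.X +
        PowerSeries.C ((3 * (t : ℚ) + 2)) := by
    intro t
    have := FF_rec t
    rw [archF_lf, archF_lf] at this
    push_cast at this
    exact this
  have g0 : ∀ t : ℤ, PowerSeries.coeff 0 (FF (t + 1) * FF t) = (3 * (t : ℚ) + 2) / (3 * t + 1) :=
    fun t => (archF_coeff _ _ (hc t) _ (hrec t)).1
  have g1 : ∀ t : ℤ, PowerSeries.coeff 1 (FF (t + 1) * FF t) = -3 / (3 * (t : ℚ) + 1) ^ 2 := by
    intro t
    rw [(archF_coeff _ _ (hc t) _ (hrec t)).2.1]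
    have := hc t
    field_simp
    ring
  have g2 : ∀ t : ℤ, PowerSeries.coeff 2 (FF (t + 1) * FF t) = 9 / (3 * (t : ℚ) + 1) ^ 3 := by
    intro t
    rw [(archF_coeff _ _ (hc t) _ (hrec t)).2.2]
    have := hc t
    field_simp
    ring
  -- the real jets
  set F : ℤ → ℕ → ℝ := fun a k => ((PowerSeries.coeff k (FF a) : ℚ) : ℝ) with hF
  have hmul : ∀ (t : ℤ) (n : ℕ), PowerSeries.coeff n (FF (t + 1) * FF t) =
      ∑ k ∈ Finset.range (n + 1), PowerSeries.coeff k (FF (t + 1)) *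
        PowerSeries.coeff (n - k) (FF t) := by
    intro t n
    rw [PowerSeries.coeff_mul, Finset.Nat.sum_antidiagonal_eq_sum_range_succ_mk]
  have hb := Pool.Agent.H30.MM.jets_poly F
    (by simp [hF, FF_zero]) (by simp [hF, FF_zero, PowerSeries.coeff_one])
    (by simp [hF, FF_zero, PowerSeries.coeff_one])
    (by
      intro t
      have h1 := g0 t
      rw [hmul] at h1
      simp only [Finset.sum_range_succ, Finset.sum_range_zero, zero_add] at h1
      have h2 := congrArg (fun x : ℚ => (x : ℝ)) h1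
      push_cast at h2
      simpa [hF] using h2)
    (by
      intro t
      have h1 := g1 t
      rw [hmul] at h1
      simp only [Finset.sum_range_succ, Finset.sum_range_zero, zero_add] at h1
      have h2 := congrArg (fun x : ℚ => (x : ℝ)) h1
      push_cast at h2
      have h3 : F (t + 1) 1 * F t 0 + F (t + 1) 0 * F t 1 =
          F (t + 1) 0 * F t (1 - 0) + F (t + 1) 1 * F t (1 - 1) := by
        rw [Nat.sub_zero, Nat.sub_self]; ring
      rw [h3]
      exact h2)
    (by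
      intro t
      have h1 := g2 t
      rw [hmul] at h1
      simp only [Finset.sum_range_succ, Finset.sum_range_zero, zero_add] at h1
      have h2 := congrArg (fun x : ℚ => (x : ℝ)) h1
      push_cast at h2
      have h3 : F (t + 1) 2 * F t 0 + F (t + 1) 1 * F t 1 + F (t + 1) 0 * F t 2 =
          F (t + 1) 0 * F t (2 - 0) + F (t + 1) 1 * F t (2 - 1) + F (t + 1) 2 * F t (2 - 2) := by
        rw [Nat.sub_zero, Nat.sub_self]
        norm_num
        ring
      rw [h3]
      exact h2)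
    t j (by omega)
  have hLr : (1 : ℝ) ≤ (L : ℝ) := by exact_mod_cast hL
  have ht' : |(t : ℝ)| ≤ (L : ℝ) := by exact_mod_cast ht
  have h1 : |F t j| ≤ 1000 * ((L : ℝ) + 1) ^ 2 := by
    refine hb.trans ?_
    have h2 : (|(t : ℝ)| + 1) ^ 2 ≤ ((L : ℝ) + 1) ^ 2 :=
      pow_le_pow_left₀ (by positivity) (by linarith) 2
    have h3 : 0 ≤ ((L : ℝ) + 1) ^ 2 := by positivity
    linarith
  have h2 : (((|PowerSeries.coeff j (FF t)| : ℚ)) : ℝ) ≤ ((1000 * ((L : ℚ) + 1) ^ 2 : ℚ) : ℝ) := by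
    rw [Rat.cast_abs]
    push_cast
    exact h1
  exact_mod_cast h2

end Pool.Agent.H80.HF

end

section

/-!
# HF Arch: `log |DD| ≤ 9 L² log(2L) - (27/2) L² + O(L log L)`

PROOF (helper30). The rows of the real matrix are the rows `jrow` of `Pool.Agent.H30.MM`, so `log_jet_det_le` (discrete Cauchy
formula, typed Vandermonde rows, discrete Polya lemma for the logarithmic kernel) with `m = 2L+1` and the bound `F_real` of
`ArchF` for the jets gives `(9/4) m² (log m - 3/2) + O(m log m)`.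
-/

set_option autoImplicit false

namespace Pool.Agent.H80.HF

open Finset

private theorem arch_coeff_lin_pow (u : ℚ) (i j : ℕ) :
    PowerSeries.coeff j (lin u ^ i) = u ^ (i - j) * (i.choose j : ℚ) := by
  have h1 : lin u = ((Polynomial.X + Polynomial.C u : Polynomial ℚ) : PowerSeries ℚ) := by
    rw [lin, Polynomial.coe_add, Polynomial.coe_X, Polynomial.coe_C]
  rw [h1, ← Polynomial.coe_pow, Polynomial.coeff_coe, Polynomial.coeff_X_add_C_pow]

/-- The real matrix is a jet matrix of `Pool.Agent.H30.MM`. -/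
private theorem arch_bridge (L : ℕ) (ρ : Col L → ℤ × Fin 3) :
    ((DD L ρ : ℚ) : ℝ) = (Matrix.of fun r => Pool.Agent.H30.MM.jrow (3 * L) (3 * L)
      (fun a k => ((PowerSeries.coeff k (FF a) : ℚ) : ℝ)) (ρ r).1 ((ρ r).2 : ℕ)).det := by
  have h1 : ((DD L ρ : ℚ) : ℝ) =
      ((Matrix.of fun c => ent L (ρ c)).map (algebraMap ℚ ℝ)).det := by
    have := RingHom.map_det (algebraMap ℚ ℝ) (Matrix.of fun c => ent L (ρ c))
    rw [RingHom.mapMatrix_apply] at this
    rw [← this, DD]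
    rfl
  rw [h1]
  congr 1
  ext r c
  rw [Matrix.map_apply, Matrix.of_apply, Matrix.of_apply]
  change ((ent L (ρ r) c : ℚ) : ℝ) = _
  rcases c with i | i
  · simp only [ent, Pool.Agent.H30.MM.jrow, Sum.elim_inl]
    rw [arch_coeff_lin_pow]
    push_cast
    ring
  · simp only [ent, Pool.Agent.H30.MM.jrow, Sum.elim_inr]
    rw [mul_comm (FF (ρ r).1), PowerSeries.coeff_mul,
      Finset.Nat.sum_antidiagonal_eq_sum_range_succ_mk]
    push_cast
    congr 1
    refine Finset.sum_congr rfl fun k _ => ?_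
    rw [arch_coeff_lin_pow]
    push_cast
    ring

theorem arch : ∃ C : ℝ, 0 ≤ C ∧ ∀ L : ℕ, 1 ≤ L → ∀ ρ : Col L → ℤ × Fin 3, Rows L ρ → DD L ρ ≠ 0 →
    Real.log |((DD L ρ : ℚ) : ℝ)| ≤
      9 * (L : ℝ) ^ 2 * Real.log (2 * L) - 27 / 2 * (L : ℝ) ^ 2 + C * L * (1 + Real.log L) := by
  refine ⟨300, by norm_num, ?_⟩
  intro L hL ρ hρ hne
  have hLr : (1 : ℝ) ≤ (L : ℝ) := by exact_mod_cast hL
  set F : ℤ → ℕ → ℝ := fun a k => ((PowerSeries.coeff k (FF a) : ℚ) : ℝ) with hF
  have hbr := arch_bridge L ρ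
  have hdet : (Matrix.of fun r => Pool.Agent.H30.MM.jrow (3 * L) (3 * L) F (ρ r).1
      ((ρ r).2 : ℕ)).det ≠ 0 := by
    rw [← hbr]
    exact_mod_cast hne
  have hFb : ∀ a ∈ Finset.Icc (-(L : ℤ)) L, ∀ k ≤ 2, |F a k| ≤ 1000 * ((L : ℝ) + 1) ^ 2 := by
    intro a ha k hk
    have ha' := Finset.mem_Icc.1 ha
    have h1 := F_real L hL a (abs_le.2 ha') k (by omega)
    have h2 : ((|PowerSeries.coeff k (FF a)| : ℚ) : ℝ) ≤ ((1000 * ((L : ℚ) + 1) ^ 2 : ℚ) : ℝ) := by
      exact_mod_cast h1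
    rw [Rat.cast_abs] at h2
    push_cast at h2
    exact h2
  have hmain := Pool.Agent.H30.MM.log_jet_det_le (3 * L) (3 * L) L F (1000 * ((L : ℝ) + 1) ^ 2)
    (by positivity) hFb (by omega) (by omega) (by omega) (fun r => (ρ r).1)
    (fun r => ((ρ r).2 : ℕ)) (by
      intro r s hrs
      apply hρ.inj
      have e1 : (ρ r).1 = (ρ s).1 := (Prod.ext_iff.1 hrs).1
      have e2 : ((ρ r).2 : ℕ) = ((ρ s).2 : ℕ) := (Prod.ext_iff.1 hrs).2
      exact Prod.ext e1 (Fin.ext e2))
    (fun r => Finset.mem_Icc.2 (abs_le.1 (hρ.le r))) (fun r => by have := (ρ r).2.2; omega)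
    hdet (2 * (L : ℝ) + 1) rfl
  rw [hbr]
  refine hmain.trans ?_
  set l : ℝ := Real.log L with hl
  have hl0 : 0 ≤ l := Real.log_nonneg hLr
  have hlog2 : Real.log 2 ≤ 0.7 := by
    have := Real.log_two_lt_d9
    linarith
  have hlog20 : 0 ≤ Real.log 2 := Real.log_nonneg (by norm_num)
  have h2L : Real.log (2 * (L : ℝ)) = Real.log 2 + l := by
    rw [Real.log_mul (by norm_num) (by positivity)]
  set k : ℝ := Real.log (2 * (L : ℝ)) with hk
  have hk0 : 0 ≤ k := by rw [h2L]; linarith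
  have hk1 : k ≤ 0.7 + l := by rw [h2L]; linarith
  -- the logarithm of m
  have hm : Real.log (2 * (L : ℝ) + 1) ≤ k + 1 / (2 * L) := by
    have e1 : (2 * (L : ℝ) + 1) = (2 * L) * (1 + 1 / (2 * L)) := by field_simp
    rw [e1, Real.log_mul (by positivity) (by positivity)]
    have h3 : Real.log (1 + 1 / (2 * (L : ℝ))) ≤ 1 / (2 * (L : ℝ)) := by
      have := Real.log_le_sub_one_of_pos (show (0 : ℝ) < 1 + 1 / (2 * L) by positivity)
      linarith
    linarith
  have hinv : 1 / (2 * (L : ℝ)) ≤ 1 / 2 := by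
    apply one_div_le_one_div_of_le (by norm_num)
    linarith
  have hm0 : 0 ≤ Real.log (2 * (L : ℝ) + 1) := Real.log_nonneg (by linarith)
  -- first term
  have t1 : (9 / 4) * (2 * (L : ℝ) + 1) ^ 2 * (Real.log (2 * (L : ℝ) + 1) - 3 / 2) ≤
      9 * (L : ℝ) ^ 2 * k - 27 / 2 * (L : ℝ) ^ 2 + 24 * L * (1 + l) := by
    have e0 : (9 / 4) * (2 * (L : ℝ) + 1) ^ 2 * (Real.log (2 * (L : ℝ) + 1) - 3 / 2) ≤
        (9 / 4) * (2 * (L : ℝ) + 1) ^ 2 * (k + 1 / (2 * L) - 3 / 2) := by
      apply mul_le_mul_of_nonneg_left _ (by positivity)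
      linarith
    have e1 : (9 / 4) * (2 * (L : ℝ) + 1) ^ 2 * (k + 1 / (2 * L) - 3 / 2) =
        9 * (L : ℝ) ^ 2 * k - 27 / 2 * (L : ℝ) ^ 2 + (9 * L + 9 / 4) * k +
          (9 / 4) * (2 * L + 2 + 1 / (2 * L)) - (27 / 2 * L + 27 / 8) := by
      field_simp
      ring
    have e2 : (9 * (L : ℝ) + 9 / 4) * k ≤ (9 * L + 9 / 4) * (0.7 + l) :=
      mul_le_mul_of_nonneg_left hk1 (by positivity)
    have e3 : 0 ≤ (L : ℝ) * l := mul_nonneg (by linarith) hl0
    have e4 : l ≤ L * l := le_mul_of_one_le_left hl0 hLr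
    have e5 : (9 * (L : ℝ) + 9 / 4) * (0.7 + l) = 6.3 * L + 1.575 + 9 * (L * l) + 9 / 4 * l := by
      ring
    have e6 : 24 * (L : ℝ) * (1 + l) = 24 * L + 24 * (L * l) := by ring
    rw [e6]
    rw [e5] at e2
    rw [e1] at e0
    linarith
  -- second term
  have t2 : 10 * (2 * (L : ℝ) + 1) * (1 + Real.log (2 * (L : ℝ) + 1)) ≤ 66 * L * (1 + l) := by
    have e1 : 1 + Real.log (2 * (L : ℝ) + 1) ≤ 2.2 + l := by linarith
    have e2 : 10 * (2 * (L : ℝ) + 1) * (1 + Real.log (2 * (L : ℝ) + 1)) ≤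
        10 * (3 * L) * (2.2 + l) := by
      apply mul_le_mul _ e1 (by linarith) (by positivity)
      linarith
    have e3 : 0 ≤ (L : ℝ) * l := mul_nonneg (by linarith) hl0
    have e9 : 10 * (3 * (L : ℝ)) * (2.2 + l) = 66 * L + 30 * (L * l) := by ring
    have e10 : 66 * (L : ℝ) * (1 + l) = 66 * L + 66 * (L * l) := by ring
    rw [e10]
    rw [e9] at e2
    linarith
  -- third term
  have t3 : 3 * (2 * (L : ℝ) + 1) * Real.log (16 + 21 * (1000 * ((L : ℝ) + 1) ^ 2)) ≤
      108 * L * (1 + l) := by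
    have e7 : ((L : ℝ) + 1) ^ 2 ≤ (2 * (L : ℝ)) ^ 2 := pow_le_pow_left₀ (by positivity) (by linarith) 2
    have e8 : (1 : ℝ) ≤ (2 * (L : ℝ)) ^ 2 := one_le_pow₀ (by linarith)
    have e1 : 16 + 21 * (1000 * ((L : ℝ) + 1) ^ 2) ≤ 2 ^ 15 * (2 * L) ^ 2 := by linarith
    have e2 : Real.log (16 + 21 * (1000 * ((L : ℝ) + 1) ^ 2)) ≤ 15 * Real.log 2 + 2 * k := by
      have h4 := Real.log_le_log (by positivity) e1
      rw [Real.log_mul (by positivity) (by positivity), Real.log_pow, Real.log_pow] at h4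
      push_cast at h4
      exact h4
    have e3 : Real.log (16 + 21 * (1000 * ((L : ℝ) + 1) ^ 2)) ≤ 11.9 + 2 * l := by
      linarith
    have e0 : 0 ≤ Real.log (16 + 21 * (1000 * ((L : ℝ) + 1) ^ 2)) := by
      apply Real.log_nonneg
      have : 0 ≤ 21 * (1000 * ((L : ℝ) + 1) ^ 2) := by positivity
      linarith
    have e4 : 3 * (2 * (L : ℝ) + 1) * Real.log (16 + 21 * (1000 * ((L : ℝ) + 1) ^ 2)) ≤
        (9 * L) * (11.9 + 2 * l) := by
      apply mul_le_mul _ e3 e0 (by positivity)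
      linarith
    have e5 : 0 ≤ (L : ℝ) * l := mul_nonneg (by linarith) hl0
    have e9 : (9 * (L : ℝ)) * (11.9 + 2 * l) = 107.1 * L + 18 * (L * l) := by ring
    have e10 : 108 * (L : ℝ) * (1 + l) = 108 * L + 108 * (L * l) := by ring
    rw [e10]
    rw [e9] at e4
    linarith
  have e6 : 0 ≤ (L : ℝ) * (1 + l) := by positivity
  linarith

end Pool.Agent.H80.HF

end

section

/-!
# HF CntD: the primes `q > 2L` in the denominators

PROOF. Put `a n = NN n`, `b n = DN n`, `c n = NN (-n)`, `d n = DN (-n)` (constant terms). Then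
`a (n+1) = (3n+2) b n`, `b (n+1) = (3n+1) a n`, `c (n+1) = -(3n+1) d n`, `d (n+1) = -(3n+2) c n`, so that
`v(a (n+1)) + v(c (n+1)) = v(b n) + v(d n) + v(3n+1) + v(3n+2)` and
`v(b (n+1)) + v(d (n+1)) = v(a n) + v(c n) + v(3n+1) + v(3n+2)`.
For a prime `q > 2L` and `n ≤ L` both sums are `1` if `q < 3n` and `0` otherwise. Hence the total is
`#{n ≤ L : q < 3n} = L - q/3`.
-/

set_option autoImplicit false

namespace Pool.Agent.H80.HF

open Finset

theorem CntD_lf (n : ℤ) : (lf n).coeff 0 = n := by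
  simp [lf]

theorem CntD_NNp (n : ℕ) : NN ((n : ℤ) + 1) = lf (3 * n + 2) * DN (n : ℤ) := by
  have h1 : (0 : ℤ) ≤ (n : ℤ) + 1 := by positivity
  have h2 : (0 : ℤ) ≤ (n : ℤ) := by positivity
  have h3 : ((n : ℤ) + 1).toNat = n + 1 := by omega
  have h4 : ((n : ℤ)).toNat = n := by omega
  rw [NN, DN, if_pos h1, if_pos h2, h3, h4, NDp]

theorem CntD_DNp (n : ℕ) : DN ((n : ℤ) + 1) = lf (3 * n + 1) * NN (n : ℤ) := by
  have h1 : (0 : ℤ) ≤ (n : ℤ) + 1 := by positivity
  have h2 : (0 : ℤ) ≤ (n : ℤ) := by positivity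
  have h3 : ((n : ℤ) + 1).toNat = n + 1 := by omega
  have h4 : ((n : ℤ)).toNat = n := by omega
  rw [NN, DN, if_pos h1, if_pos h2, h3, h4, NDp]

theorem CntD_zero : NN 0 = 1 ∧ DN 0 = 1 := by
  constructor
  · rw [NN, if_pos le_rfl]; simp [NDp]
  · rw [DN, if_pos le_rfl]; simp [NDp]

theorem CntD_neg (n : ℕ) : NN (-(n : ℤ)) = (NDm n).1 ∧ DN (-(n : ℤ)) = (NDm n).2 := by
  rcases Nat.eq_zero_or_pos n with h | h
  · subst h
    simp only [Nat.cast_zero, neg_zero, CntD_zero.1, CntD_zero.2, NDm, and_self]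
  · have h1 : ¬ (0 : ℤ) ≤ -(n : ℤ) := by omega
    have h2 : (-(-(n : ℤ))).toNat = n := by omega
    rw [NN, DN, if_neg h1, if_neg h1, h2]
    exact ⟨rfl, rfl⟩

theorem CntD_NNm (n : ℕ) : NN (-((n : ℤ) + 1)) = lf (-(3 * n) - 1) * DN (-(n : ℤ)) := by
  have h := CntD_neg (n + 1)
  push_cast at h
  rw [h.1, (CntD_neg n).2, NDm]

theorem CntD_DNm (n : ℕ) : DN (-((n : ℤ) + 1)) = lf (-(3 * n) - 2) * NN (-(n : ℤ)) := by
  have h := CntD_neg (n + 1)
  push_cast at h
  rw [h.2, (CntD_neg n).1, NDm]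

theorem CntD_ne (n : ℕ) : ((NN (n : ℤ)).coeff 0 ≠ 0 ∧ (DN (n : ℤ)).coeff 0 ≠ 0) ∧
    ((NN (-(n : ℤ))).coeff 0 ≠ 0 ∧ (DN (-(n : ℤ))).coeff 0 ≠ 0) := by
  induction n with
  | zero => simp [CntD_zero.1, CntD_zero.2]
  | succ n ih =>
    obtain ⟨⟨h1, h2⟩, h3, h4⟩ := ih
    push_cast
    rw [CntD_NNp, CntD_DNp, CntD_NNm, CntD_DNm]
    simp only [Polynomial.mul_coeff_zero, CntD_lf]
    refine ⟨⟨mul_ne_zero (by omega) h2, mul_ne_zero (by omega) h1⟩,
      mul_ne_zero (by omega) h4, mul_ne_zero (by omega) h3⟩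

/-- valuation of `3n+1`, `3n+2` together -/
theorem CntD_step (q : ℕ) (hq : q.Prime) (L : ℕ) (h : 2 * L < q) (n : ℕ) (hn : n + 1 ≤ L) :
    padicValInt q (3 * (n : ℤ) + 1) + padicValInt q (3 * (n : ℤ) + 2) +
      (if q < 3 * n then 1 else 0) = if q < 3 * (n + 1) then 1 else 0 := by
  haveI : Fact q.Prime := ⟨hq⟩
  have key : ∀ m : ℕ, 0 < m → m < 2 * q → padicValInt q (m : ℤ) = if m = q then 1 else 0 := by
    intro m hm1 hm2
    rw [padicValInt.of_nat]
    split_ifs with h1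
    · subst h1; exact padicValNat_self
    · apply padicValNat.eq_zero_of_not_dvd
      rintro ⟨k, hk⟩
      have hk2 : k < 2 := by
        by_contra hk2
        have : q * 2 ≤ q * k := Nat.mul_le_mul_left q (by omega)
        omega
      interval_cases k <;> omega
  have e1 := key (3 * n + 1) (by omega) (by omega)
  have e2 := key (3 * n + 2) (by omega) (by omega)
  push_cast at e1 e2
  rw [e1, e2]
  have h3 : q ≠ 3 * n := by
    intro h3
    have : 3 ∣ q := ⟨n, h3⟩
    have h4 := (Nat.prime_dvd_prime_iff_eq Nat.prime_three hq).mp this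
    omega
  split_ifs <;> omega

theorem CntD_val (q : ℕ) (hq : q.Prime) (L : ℕ) (h : 2 * L < q) (n : ℕ) (hn : n ≤ L) :
    padicValInt q ((NN (n : ℤ)).coeff 0) + padicValInt q ((NN (-(n : ℤ))).coeff 0) =
      (if q < 3 * n then 1 else 0) ∧
    padicValInt q ((DN (n : ℤ)).coeff 0) + padicValInt q ((DN (-(n : ℤ))).coeff 0) =
      (if q < 3 * n then 1 else 0) := by
  haveI : Fact q.Prime := ⟨hq⟩
  induction n with
  | zero => simp [CntD_zero.1, CntD_zero.2]
  | succ n ih =>
    obtain ⟨i1, i2⟩ := ih (by omega)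
    obtain ⟨⟨h1, h2⟩, h3, h4⟩ := CntD_ne n
    have hs := CntD_step q hq L h n hn
    push_cast
    rw [CntD_NNp, CntD_DNp, CntD_NNm, CntD_DNm]
    simp only [Polynomial.mul_coeff_zero, CntD_lf]
    have hneg : ∀ z : ℤ, padicValInt q (-z) = padicValInt q z := by
      intro z; simp [padicValInt]
    have e1 : padicValInt q (-(3 * (n : ℤ)) - 1) = padicValInt q (3 * (n : ℤ) + 1) := by
      rw [← hneg]; congr 1; ring
    have e2 : padicValInt q (-(3 * (n : ℤ)) - 2) = padicValInt q (3 * (n : ℤ) + 2) := by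
      rw [← hneg]; congr 1; ring
    rw [padicValInt.mul (by omega) h2, padicValInt.mul (by omega) h4,
      padicValInt.mul (by omega) h1, padicValInt.mul (by omega) h3, e1, e2]
    constructor <;> omega

theorem CntD_prod (f : ℤ → ℤ) (M : ℕ) :
    ∏ t ∈ Icc (-((M + 1 : ℕ) : ℤ)) ((M + 1 : ℕ) : ℤ), f t =
      f ((M : ℤ) + 1) * f (-((M : ℤ) + 1)) * ∏ t ∈ Icc (-(M : ℤ)) M, f t := by
  have e : Icc (-((M + 1 : ℕ) : ℤ)) ((M + 1 : ℕ) : ℤ) =
      insert ((M : ℤ) + 1) (insert (-((M : ℤ) + 1)) (Icc (-(M : ℤ)) M)) := by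
    ext x
    simp only [mem_Icc, mem_insert]
    push_cast
    omega
  rw [e, prod_insert, prod_insert, mul_assoc]
  · simp only [mem_Icc]; omega
  · simp only [mem_Icc, mem_insert]; omega

theorem valD (q : ℕ) (hq : q.Prime) (L : ℕ) (hL : 1 ≤ L) (h : 2 * L < q) :
    padicValInt q (∏ t ∈ Icc (-(L : ℤ)) L, (DN t).coeff 0) = L - q / 3 := by
  haveI : Fact q.Prime := ⟨hq⟩
  have key : ∀ M : ℕ, M ≤ L → (∏ t ∈ Icc (-(M : ℤ)) M, (DN t).coeff 0) ≠ 0 ∧
      padicValInt q (∏ t ∈ Icc (-(M : ℤ)) M, (DN t).coeff 0) = M - q / 3 := by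
    intro M
    induction M with
    | zero => intro _; simp [CntD_zero.2]
    | succ M ih =>
      intro hM
      obtain ⟨i1, i2⟩ := ih (by omega)
      have hv := (CntD_val q hq L h (M + 1) hM).2
      obtain ⟨⟨-, h2⟩, -, h4⟩ := CntD_ne (M + 1)
      push_cast at hv h2 h4
      rw [CntD_prod]
      refine ⟨mul_ne_zero (mul_ne_zero h2 h4) i1, ?_⟩
      rw [padicValInt.mul (mul_ne_zero h2 h4) i1, padicValInt.mul h2 h4, hv, i2]
      have hd : q / 3 * 3 ≤ q := Nat.div_mul_le_self q 3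
      have hd2 : q < (q / 3 + 1) * 3 := by omega
      split_ifs with h5 <;> omega
  exact (key L le_rfl).2

end Pool.Agent.H80.HF

end

section

/-!
# HF Fsm: `q`-adic size of the coefficients of `F_t`, all primes `q`

`Λ = Nat.log q (3L)`. PROOF. (1) Constant term: for `t > 0` `F_t(0) = ∏ n^(-(-1)^(n+t))` over `n < 3t`, `3 ∤ n`. `q ≥ 5` (odd):
`v_q(F_t(0)) = ∑_(l ≥ 1) (-1)^(t+1) ∑_(j < 3t/q^l, 3 ∤ j) (-1)^j`, the inner sums are in `{-1, 0, 1}` and `0` for `q^l ≥ 3t`, so
`|v_q| ≤ Λ`. `q = 3`: a unit. `q = 2`: for even `t` `v = -V`, for odd `t` `v = V`, with `V = ∑_(n < 3t, 3 ∤ n) v_2(n)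
= ∑_(l ≥ 1) (⌊(3t-1)/2^l⌋ - ⌊(3t-1)/(3 2^l)⌋) ≤ ∑_(1 ≤ l ≤ Λ) ((2/3) (3t-1)/2^l + 2/3) ≤ 2t + Λ`. `F_(-t)(0) = ± 1/F_t(0)`.
(2) Coefficients: `F_t(y) = F_t(0) ∏ (1 + 3y/n)^(±1)`, `v_q(3/n) ≥ -Λ` as `q^(v_q(n)) ≤ |n| < 3L`, so
`padicNorm (coeff j (F/F(0))) ≤ q^(jΛ)` (predicate closed under products and inverses).
-/

set_option autoImplicit false

namespace Pool.Agent.H80.HF

open Finset H51QD

/-- the valuation of `F_n(0)`, `n ≥ 0` -/
def fsE (q : ℕ) : ℕ → ℤ
  | 0 => 0
  | (n + 1) => (padicValNat q (3 * n + 2) : ℤ) - padicValNat q (3 * n + 1) - fsE q n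

theorem fs_toPS_lf (n : ℤ) : toPS (lf n) = PowerSeries.C (n : ℚ) + PowerSeries.C ((3 : ℤ) : ℚ) * PowerSeries.X := by
  have h1 : (lf n).map (Int.castRingHom ℚ) =
      Polynomial.C (3 : ℚ) * Polynomial.X + Polynomial.C (n : ℚ) := by
    unfold lf
    rw [Polynomial.map_add, Polynomial.map_mul, Polynomial.map_C, Polynomial.map_C,
      Polynomial.map_X]
    norm_num
  unfold toPS
  rw [h1, Polynomial.coe_add, Polynomial.coe_mul, Polynomial.coe_C, Polynomial.coe_C,
    Polynomial.coe_X, add_comm]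
  norm_num

theorem fs_log (q : ℕ) [hq : Fact q.Prime] (L : ℕ) (x : ℤ) (hx : x ≠ 0) (hL : |x| ≤ 3 * L) :
    padicValInt q x ≤ Nat.log q (3 * L) := by
  apply Nat.le_log_of_pow_le hq.out.one_lt
  have h1 : q ^ padicValInt q x ∣ x.natAbs := pow_padicValNat_dvd
  have h2 := Nat.le_of_dvd (Int.natAbs_pos.2 hx) h1
  have h3 : (x.natAbs : ℤ) = |x| := Int.natCast_natAbs x
  omega

/-- one step of the recursion, upwards -/
theorem fs_step (q : ℕ) [hq : Fact q.Prime] (Lam : ℕ) (u v : ℤ) (A B : PowerSeries ℚ) (e : ℤ)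
    (hu : u ≠ 0) (hv : v ≠ 0) (hu' : padicValInt q u ≤ Lam) (hv' : padicValInt q v ≤ Lam)
    (hA : PowerSeries.constantCoeff A ≠ 0) (hB : PowerSeries.constantCoeff B ≠ 0)
    (h : toPS (lf u) * (B * A) = toPS (lf v))
    (h1 : PB q e Lam A) (h2 : PB q (-e) Lam A⁻¹) :
    PB q ((padicValInt q v : ℤ) - padicValInt q u - e) Lam B ∧
      PB q (-((padicValInt q v : ℤ) - padicValInt q u - e)) Lam B⁻¹ := by
  rw [fs_toPS_lf, fs_toPS_lf] at h
  set U := PowerSeries.C (u : ℚ) + PowerSeries.C ((3 : ℤ) : ℚ) * PowerSeries.X with hU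
  set V := PowerSeries.C (v : ℚ) + PowerSeries.C ((3 : ℤ) : ℚ) * PowerSeries.X with hV
  have hU0 : PowerSeries.constantCoeff U ≠ 0 := by
    simp [hU]
    exact_mod_cast hu
  have hV0 : PowerSeries.constantCoeff V ≠ 0 := by
    simp [hV]
    exact_mod_cast hv
  have hAi : A * A⁻¹ = 1 := PowerSeries.mul_inv_cancel A hA
  have hBi : B * B⁻¹ = 1 := PowerSeries.mul_inv_cancel B hB
  have hUi : U * U⁻¹ = 1 := PowerSeries.mul_inv_cancel U hU0
  have hVi : V * V⁻¹ = 1 := PowerSeries.mul_inv_cancel V hV0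
  have eB : B = V * U⁻¹ * A⁻¹ := by
    linear_combination (U⁻¹ * A⁻¹) * h - B * (A * A⁻¹) * hUi - B * hAi
  have eBi : B⁻¹ = U * V⁻¹ * A := by
    linear_combination (-(B⁻¹ * V⁻¹)) * h + (-B⁻¹) * hVi + U * V⁻¹ * A * hBi
  constructor
  · rw [eB]
    refine (((PB.linear v 3 Lam hv').mul (PB.linear_inv u 3 hu Lam hu')).mul h2).mono ?_
    omega
  · rw [eBi]
    refine (((PB.linear u 3 Lam hu').mul (PB.linear_inv v 3 hv Lam hv')).mul h1).mono ?_
    omega

theorem fs_main (q : ℕ) [hq : Fact q.Prime] (L : ℕ) (n : ℕ) (hn : n ≤ L) :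
    (PB q (fsE q n) (Nat.log q (3 * L)) (FF n) ∧
      PB q (-fsE q n) (Nat.log q (3 * L)) (FF n)⁻¹) ∧
    (PB q (-fsE q n) (Nat.log q (3 * L)) (FF (-(n : ℤ))) ∧
      PB q (fsE q n) (Nat.log q (3 * L)) (FF (-(n : ℤ)))⁻¹) := by
  induction n with
  | zero =>
    have h1 : FF ((0 : ℕ) : ℤ) = 1 := by
      rw [Nat.cast_zero]
      exact FF_zero
    have h2 : FF (-((0 : ℕ) : ℤ)) = 1 := by
      rw [Nat.cast_zero, neg_zero]
      exact FF_zero
    have h3 : (1 : PowerSeries ℚ)⁻¹ = 1 := by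
      rw [PowerSeries.inv_eq_iff_mul_eq_one (by simp)]
      simp
    rw [h1, h2, h3]
    simp only [fsE, neg_zero]
    exact ⟨⟨PB.one, PB.one⟩, ⟨PB.one, PB.one⟩⟩
  | succ n ih =>
    obtain ⟨⟨a1, a2⟩, ⟨b1, b2⟩⟩ := ih (by omega)
    have hp1 : padicValInt q (3 * (n : ℤ) + 1) = padicValNat q (3 * n + 1) := by
      have : (3 * (n : ℤ) + 1) = ((3 * n + 1 : ℕ) : ℤ) := by push_cast; ring
      rw [this, padicValInt.of_nat]
    have hp2 : padicValInt q (3 * (n : ℤ) + 2) = padicValNat q (3 * n + 2) := by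
      have : (3 * (n : ℤ) + 2) = ((3 * n + 2 : ℕ) : ℤ) := by push_cast; ring
      rw [this, padicValInt.of_nat]
    have hl1 : padicValInt q (3 * (n : ℤ) + 1) ≤ Nat.log q (3 * L) := by
      apply fs_log _ _ _ (by omega)
      rw [abs_of_nonneg (by omega)]
      omega
    have hl2 : padicValInt q (3 * (n : ℤ) + 2) ≤ Nat.log q (3 * L) := by
      apply fs_log _ _ _ (by omega)
      rw [abs_of_nonneg (by omega)]
      omega
    constructor
    · have h := fs_step q (Nat.log q (3 * L)) (3 * n + 1) (3 * n + 2) (FF n) (FF ((n : ℤ) + 1))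
        (fsE q n) (by omega) (by omega) hl1 hl2 (FF_coeff_ne _) (FF_coeff_ne _) (FF_rec n) a1 a2
      rw [hp1, hp2] at h
      push_cast
      simpa only [fsE] using h
    · have hrec := FF_rec (-(n : ℤ) - 1)
      have e1 : (3 : ℤ) * (-(n : ℤ) - 1) + 1 = -(3 * (n : ℤ) + 2) := by ring
      have e2 : (3 : ℤ) * (-(n : ℤ) - 1) + 2 = -(3 * (n : ℤ) + 1) := by ring
      have e3 : -(n : ℤ) - 1 + 1 = -(n : ℤ) := by ring
      rw [e1, e2, e3] at hrec
      have hv1 : padicValInt q (-(3 * (n : ℤ) + 1)) = padicValNat q (3 * n + 1) := by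
        rw [padicValInt, Int.natAbs_neg, ← padicValInt, hp1]
      have hv2 : padicValInt q (-(3 * (n : ℤ) + 2)) = padicValNat q (3 * n + 2) := by
        rw [padicValInt, Int.natAbs_neg, ← padicValInt, hp2]
      have h := fs_step q (Nat.log q (3 * L)) (-(3 * n + 2)) (-(3 * n + 1)) (FF (-(n : ℤ)))
        (FF (-(n : ℤ) - 1)) (-fsE q n) (by omega) (by omega) (by rw [hv2, ← hp2]; exact hl2)
        (by rw [hv1, ← hp1]; exact hl1) (FF_coeff_ne _) (FF_coeff_ne _)
        (by rw [mul_comm (FF (-(n : ℤ) - 1))]; exact hrec) b1 (by rw [neg_neg]; exact b2)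
      rw [hv1, hv2] at h
      have e4 : -((n + 1 : ℕ) : ℤ) = -(n : ℤ) - 1 := by push_cast; ring
      rw [e4]
      have e5 : -fsE q (n + 1) = (padicValNat q (3 * n + 1) : ℤ) - padicValNat q (3 * n + 2) - -fsE q n := by
        simp only [fsE]
        ring
      refine ⟨by rw [e5]; exact h.1, ?_⟩
      have e6 : fsE q (n + 1) = -((padicValNat q (3 * n + 1) : ℤ) - padicValNat q (3 * n + 2) - -fsE q n) := by
        rw [← e5, neg_neg]
      rw [e6]
      exact h.2

/-- the valuation as a sum over prime powers -/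
theorem fs_val (q : ℕ) [hq : Fact q.Prime] (L m : ℕ) (hm : 0 < m) (hL : m ≤ 3 * L) :
    (padicValNat q m : ℤ) = ∑ l ∈ Ico 1 (Nat.log q (3 * L) + 1), ind (q ^ l) m := by
  have h1 : m < q ^ (Nat.log q (3 * L) + 1) :=
    lt_of_le_of_lt hL (Nat.lt_pow_succ_log_self hq.out.one_lt _)
  rw [← Nat.factorization_def _ hq.out, Nat.factorization_eq_card_pow_dvd_of_lt hq.out hm h1,
    Finset.card_filter]
  push_cast
  refine Finset.sum_congr rfl fun l _ => ?_
  unfold ind
  have : ((q ^ l : ℕ) : ℤ) ∣ (m : ℤ) ↔ q ^ l ∣ m := Int.natCast_dvd_natCast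
  split_ifs with ha hb hb
  · rfl
  · exact absurd (this.2 ha) hb
  · exact absurd (this.1 hb) ha
  · rfl

theorem fs_ge5 (q : ℕ) [hq : Fact q.Prime] (h5 : 5 ≤ q) (L : ℕ) (n : ℕ) :
    (n ≤ L → fsE q n = ∑ l ∈ Ico 1 (Nat.log q (3 * L) + 1), eF (q ^ l) n) ∧
    (n + 1 ≤ L → fsE q (n + 1) = ∑ l ∈ Ico 1 (Nat.log q (3 * L) + 1), eF (q ^ l) ((n + 1 : ℕ) : ℤ)) := by
  have hq3 : ∀ l ∈ Ico 1 (Nat.log q (3 * L) + 1), 5 ≤ q ^ l := by
    intro l hl
    rw [Finset.mem_Ico] at hl
    calc 5 ≤ q := h5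
      _ = q ^ 1 := (pow_one q).symm
      _ ≤ q ^ l := Nat.pow_le_pow_right (by omega) hl.1
  have hcop : q.Coprime 6 := by
    rw [Nat.Prime.coprime_iff_not_dvd hq.out]
    intro h
    have := Nat.le_of_dvd (by norm_num) h
    have h6 : q = 5 ∨ q = 6 := by omega
    rcases h6 with h6 | h6
    · rw [h6] at h
      norm_num at h
    · have := hq.out
      rw [h6] at this
      norm_num at this
  induction n with
  | zero =>
    constructor
    · intro _
      simp only [fsE, Nat.cast_zero, eF_zero, Finset.sum_const_zero]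
    · intro _
      have h2 : padicValNat q 2 = 0 :=
        padicValNat.eq_zero_of_not_dvd fun h => by
          have := Nat.le_of_dvd (by norm_num) h
          omega
      simp only [fsE, zero_add, mul_zero, Nat.cast_one, padicValNat_one_right, h2]
      rw [Finset.sum_eq_zero]
      · simp
      · intro l hl
        exact eF_one _ (by have := hq3 l hl; omega)
  | succ n ih =>
    refine ⟨ih.2, fun hn => ?_⟩
    have ih1 := ih.1 (by omega)
    have h2 : fsE q (n + 1 + 1) = (padicValNat q (3 * (n + 1) + 2) : ℤ) -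
        padicValNat q (3 * (n + 1) + 1) - padicValNat q (3 * n + 2) + padicValNat q (3 * n + 1) +
        fsE q n := by
      simp only [fsE]
      ring
    rw [h2, ih1, fs_val q L _ (by omega) (by omega), fs_val q L _ (by omega) (by omega),
      fs_val q L _ (by omega) (by omega), fs_val q L _ (by omega) (by omega),
      ← Finset.sum_sub_distrib, ← Finset.sum_sub_distrib, ← Finset.sum_add_distrib,
      ← Finset.sum_add_distrib]
    refine Finset.sum_congr rfl fun l hl => ?_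
    have h3 := eF_step (q ^ l) (Nat.Coprime.pow_left l hcop) (by have := hq3 l hl; omega) n
    have e1 : ((n + 1 + 1 : ℕ) : ℤ) = (n : ℤ) + 2 := by push_cast; ring
    have e2 : ((3 * (n + 1) + 2 : ℕ) : ℤ) = 3 * (n : ℤ) + 5 := by push_cast; ring
    have e3 : ((3 * (n + 1) + 1 : ℕ) : ℤ) = 3 * (n : ℤ) + 4 := by push_cast; ring
    have e4 : ((3 * n + 2 : ℕ) : ℤ) = 3 * (n : ℤ) + 2 := by push_cast; ring
    have e5 : ((3 * n + 1 : ℕ) : ℤ) = 3 * (n : ℤ) + 1 := by push_cast; ring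
    rw [e1, e2, e3, e4, e5]
    linear_combination -h3

theorem fs_abs5 (q : ℕ) [hq : Fact q.Prime] (h5 : 5 ≤ q) (L : ℕ) (n : ℕ) (hn : n ≤ L) :
    |fsE q n| ≤ Nat.log q (3 * L) := by
  rw [(fs_ge5 q h5 L n).1 hn]
  refine (Finset.abs_sum_le_sum_abs _ _).trans ?_
  refine (Finset.sum_le_card_nsmul _ _ 1 ?_).trans ?_
  · intro l _
    unfold eF
    split_ifs <;> simp
  · simp

theorem fs_three (n : ℕ) : fsE 3 n = 0 := by
  induction n with
  | zero => rfl
  | succ n ih =>
    have h1 : padicValNat 3 (3 * n + 1) = 0 := padicValNat.eq_zero_of_not_dvd (by omega)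
    have h2 : padicValNat 3 (3 * n + 2) = 0 := padicValNat.eq_zero_of_not_dvd (by omega)
    simp only [fsE, h1, h2, ih]
    norm_num

/-- `V_n = v_2((3n)!/n!)` -/
theorem fs_two (n : ℕ) :
    fsE 2 n = (if n % 2 = 0 then -1 else 1) *
      ((padicValNat 2 (3 * n).factorial : ℤ) - padicValNat 2 n.factorial) := by
  induction n with
  | zero => simp [fsE]
  | succ n ih =>
    have h1 : padicValNat 2 (3 * (n + 1)).factorial = padicValNat 2 (3 * (n + 1)) +
        (padicValNat 2 (3 * n + 2) + (padicValNat 2 (3 * n + 1) + padicValNat 2 (3 * n).factorial)) := by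
      rw [show 3 * (n + 1) = 3 * n + 1 + 1 + 1 by ring, Nat.factorial_succ, Nat.factorial_succ,
        Nat.factorial_succ, padicValNat.mul (by omega) (by positivity),
        padicValNat.mul (by omega) (by positivity), padicValNat.mul (by omega) (by positivity)]
    have h2 : padicValNat 2 (n + 1).factorial = padicValNat 2 (n + 1) + padicValNat 2 n.factorial := by
      rw [Nat.factorial_succ, padicValNat.mul (by omega) (by positivity)]
    have h3 : padicValNat 2 (3 * (n + 1)) = padicValNat 2 (n + 1) := by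
      rw [padicValNat.mul (by norm_num) (by omega)]
      have : padicValNat 2 3 = 0 := padicValNat.eq_zero_of_not_dvd (by norm_num)
      omega
    simp only [fsE]
    rw [ih, h1, h2, h3]
    rcases Nat.mod_two_eq_zero_or_one n with h | h
    · have h4 : padicValNat 2 (3 * n + 1) = 0 := padicValNat.eq_zero_of_not_dvd (by omega)
      rw [if_pos h, if_neg (by omega), h4]
      push_cast
      ring
    · have h4 : padicValNat 2 (3 * n + 2) = 0 := padicValNat.eq_zero_of_not_dvd (by omega)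
      rw [if_neg (by omega), if_pos (by omega), h4]
      push_cast
      ring

theorem fs_V (L n : ℕ) (hn : n ≤ L) :
    padicValNat 2 (3 * n).factorial ≤ padicValNat 2 n.factorial + 2 * n + Nat.log 2 (3 * L) := by
  have hlog : Nat.log 2 (3 * n) < Nat.log 2 (3 * L) + 1 := by
    have := Nat.log_mono_right (b := 2) (show 3 * n ≤ 3 * L by omega)
    omega
  have hlog' : Nat.log 2 n < Nat.log 2 (3 * L) + 1 := by
    have := Nat.log_mono_right (b := 2) (show n ≤ 3 * L by omega)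
    omega
  have : Fact (Nat.Prime 2) := ⟨Nat.prime_two⟩
  rw [padicValNat_factorial hlog, padicValNat_factorial hlog']
  have h1 : ∀ i ∈ Ico 1 (Nat.log 2 (3 * L) + 1), 3 * n / 2 ^ i ≤ n / 2 ^ i + 2 * n / 2 ^ i + 1 := by
    intro i _
    have hp : 0 < 2 ^ i := by positivity
    have a1 := Nat.div_add_mod n (2 ^ i)
    have a2 := Nat.div_add_mod (2 * n) (2 ^ i)
    have a3 := Nat.mod_lt n hp
    have a4 := Nat.mod_lt (2 * n) hp
    rw [← Nat.lt_succ_iff, Nat.div_lt_iff_lt_mul hp]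
    nlinarith
  have h2 := Finset.sum_le_sum h1
  rw [Finset.sum_add_distrib, Finset.sum_add_distrib, Finset.sum_const, Nat.card_Ico] at h2
  have h3 := Nat.geom_sum_Ico_le (b := 2) le_rfl (2 * n) (Nat.log 2 (3 * L) + 1)
  simp only [Nat.add_sub_cancel, smul_eq_mul, mul_one] at h2
  norm_num at h3
  omega

theorem fs_Vnonneg (n : ℕ) : padicValNat 2 n.factorial ≤ padicValNat 2 (3 * n).factorial := by
  have : Fact (Nat.Prime 2) := ⟨Nat.prime_two⟩
  apply (padicValNat_dvd_iff_le (by positivity)).1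
  exact pow_padicValNat_dvd.trans (Nat.factorial_dvd_factorial (by omega))

theorem fs_bound (q : ℕ) [hq : Fact q.Prime] (L : ℕ) (n : ℕ) (hn : n ≤ L) :
    -((ww q n : ℤ) + Nat.log q (3 * L)) ≤ fsE q n ∧
    -((ww q (-(n : ℤ)) : ℤ) + Nat.log q (3 * L)) ≤ -fsE q n := by
  rcases lt_or_ge q 5 with h | h
  · have h23 : q = 2 ∨ q = 3 := by
      have := hq.out.two_le
      have : q ≠ 4 := by
        rintro rfl
        exact absurd hq.out (by norm_num)
      omega
    rcases h23 with rfl | rfl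
    · have hV := fs_V L n hn
      have hV0 := fs_Vnonneg n
      have e := fs_two n
      unfold ww
      rcases Nat.mod_two_eq_zero_or_one n with hp | hp
      · rw [if_pos hp] at e
        rw [e]
        constructor
        · rcases Nat.eq_zero_or_pos n with h0 | h0
          · subst h0
            simp
          · rw [if_pos (by constructor; · rfl
                           · left; omega)]
            simp only [Int.natAbs_natCast]
            omega
        · split_ifs <;> omega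
      · rw [if_neg (by omega)] at e
        rw [e]
        constructor
        · split_ifs <;> omega
        · rw [if_pos (by constructor; · rfl
                         · right; omega)]
          simp only [Int.natAbs_neg, Int.natAbs_natCast]
          omega
    · rw [fs_three]
      omega
  · have h1 := abs_le.1 (fs_abs5 q h L n hn)
    omega

theorem F_small (q : ℕ) [Fact q.Prime] (L : ℕ) (hL : 1 ≤ L) (t : ℤ) (ht : |t| ≤ (L : ℤ)) (j : ℕ) :
    padicNorm q (PowerSeries.coeff j (FF t)) ≤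
      (q : ℚ) ^ ((j * Nat.log q (3 * L) + ww q t + Nat.log q (3 * L) : ℕ) : ℤ) := by
  have key : ∀ e : ℤ, PB q e (Nat.log q (3 * L)) (FF t) → -((ww q t : ℤ) + Nat.log q (3 * L)) ≤ e →
      padicNorm q (PowerSeries.coeff j (FF t)) ≤
      (q : ℚ) ^ ((j * Nat.log q (3 * L) + ww q t + Nat.log q (3 * L) : ℕ) : ℤ) := by
    intro e he hle
    by_cases h0 : PowerSeries.coeff j (FF t) = 0
    · rw [h0, padicNorm.zero]
      positivity
    · rw [padicNorm.eq_zpow_of_nonzero h0]
      have hq1 : (1 : ℚ) ≤ q := by exact_mod_cast (Fact.out : q.Prime).one_lt.le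
      apply zpow_le_zpow_right₀ hq1
      have := he j h0
      push_cast
      linarith
  rcases le_total 0 t with h | h
  · obtain ⟨n, rfl⟩ := Int.eq_ofNat_of_zero_le h
    rw [abs_of_nonneg h] at ht
    exact key _ (fs_main q L n (by omega)).1.1 (fs_bound q L n (by omega)).1
  · obtain ⟨n, hn⟩ := Int.eq_ofNat_of_zero_le (a := -t) (by omega)
    have hn' : t = -(n : ℤ) := by omega
    subst hn'
    rw [abs_neg, abs_of_nonneg (by omega)] at ht
    exact key _ (fs_main q L n (by omega)).2.1 (fs_bound q L n (by omega)).2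

end Pool.Agent.H80.HF

end

section

/-!
# HF B0: the minors at small primes (all primes `q`)  (helper81)

PROOF. `DD_basis`: for monic `b i` of degree `i` the base change `X^i → b i` is unitriangular in each of the two blocks, so the
determinant does not change. Take `b i = descPochhammer i`: `b i (t+y) / i!` has Taylor coefficients `coeff j` with denominators
dividing `q^(jΛ)`, `Λ = Nat.log q (3L)` (at `t = 0`: `b (i+1) / (i+1)! = y/(i+1) ∏_(1 ≤ r ≤ i) (y/r - 1)`; the other `t` by Pascal's rule).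
With `F_small`: entry `(t,j), inr i`: `v_q ≥ v_q(i!) - jΛ - ww - Λ`. Sum over a permutation:
`∑ j ≤ 6L+3`, number of rows `6L`, `∑_(rows) ww ≤ 3 ∑_(|t| ≤ L) ww q t` (`ρ` injective) `= WW q L`.
-/

set_option autoImplicit false

namespace Pool.Agent.H80.HF

open Finset

/-! ### Base change -/

theorem tay_eq_sum (t : ℤ) (P : Polynomial ℚ) (n : ℕ) (hn : P.natDegree < n) :
    tay t P = ∑ k ∈ range n, PowerSeries.C (P.coeff k) * lin (t : ℚ) ^ k := by
  unfold tay lin
  rw [Polynomial.comp, Polynomial.eval₂_eq_sum_range' _ hn]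
  rw [← Polynomial.coeToPowerSeries.ringHom_apply, map_sum]
  refine Finset.sum_congr rfl fun k _ => ?_
  rw [map_mul, map_pow, map_add, Polynomial.coeToPowerSeries.ringHom_apply, Polynomial.coeToPowerSeries.ringHom_apply,
    Polynomial.coeToPowerSeries.ringHom_apply, Polynomial.coe_C, Polynomial.coe_C, Polynomial.coe_X]

/-- the base change matrix of a block -/
noncomputable def UU (n : ℕ) (b : ℕ → Polynomial ℚ) : Matrix (Fin n) (Fin n) ℚ :=
  Matrix.of fun k i => (b i).coeff k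

theorem det_UU (n : ℕ) (b : ℕ → Polynomial ℚ) (hb : ∀ i, (b i).Monic) (hd : ∀ i, (b i).natDegree = i) :
    (UU n b).det = 1 := by
  have hT : (UU n b).BlockTriangular id := by
    intro k i hik
    simp only [id] at hik
    exact Polynomial.coeff_eq_zero_of_natDegree_lt (by rw [hd]; exact hik)
  rw [Matrix.det_of_upperTriangular hT]
  refine Finset.prod_eq_one fun i _ => ?_
  have := hb i
  rw [Polynomial.Monic, Polynomial.leadingCoeff, hd] at this
  exact this

theorem DD_basis (L : ℕ) (ρ : Col L → ℤ × Fin 3) (b : ℕ → Polynomial ℚ)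
    (hb : ∀ i, (b i).Monic) (hd : ∀ i, (b i).natDegree = i) :
    DD L ρ = Matrix.det (Matrix.of fun c => Sum.elim
      (fun i : Fin (3 * L) => PowerSeries.coeff ((ρ c).2 : ℕ) (tay (ρ c).1 (b i)))
      (fun i : Fin (3 * L) => -PowerSeries.coeff ((ρ c).2 : ℕ) (FF (ρ c).1 * tay (ρ c).1 (b i)))) := by
  have key : (Matrix.of fun c => Sum.elim
      (fun i : Fin (3 * L) => PowerSeries.coeff ((ρ c).2 : ℕ) (tay (ρ c).1 (b i)))
      (fun i : Fin (3 * L) => -PowerSeries.coeff ((ρ c).2 : ℕ) (FF (ρ c).1 * tay (ρ c).1 (b i)))) =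
      (Matrix.of fun c => ent L (ρ c)) * Matrix.fromBlocks (UU (3 * L) b) 0 0 (UU (3 * L) b) := by
    ext c d
    rw [Matrix.mul_apply, Fintype.sum_sum_type]
    rcases d with i | i
    · simp only [Matrix.of_apply, Sum.elim_inl, Matrix.fromBlocks_apply₁₁, Matrix.fromBlocks_apply₂₁, Matrix.zero_apply,
        mul_zero, Finset.sum_const_zero, add_zero, ent, UU]
      rw [tay_eq_sum _ _ (3 * L) (by rw [hd]; exact i.2), map_sum, Finset.sum_range]
      refine Finset.sum_congr rfl fun k _ => ?_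
      rw [PowerSeries.coeff_C_mul, mul_comm]
    · simp only [Matrix.of_apply, Sum.elim_inr, Matrix.fromBlocks_apply₁₂, Matrix.fromBlocks_apply₂₂, Matrix.zero_apply,
        mul_zero, Finset.sum_const_zero, zero_add, ent, UU]
      rw [tay_eq_sum _ _ (3 * L) (by rw [hd]; exact i.2), Finset.mul_sum, map_sum, Finset.sum_range, ← Finset.sum_neg_distrib]
      refine Finset.sum_congr rfl fun k _ => ?_
      rw [mul_left_comm, PowerSeries.coeff_C_mul, neg_mul, mul_comm]
  rw [key, Matrix.det_mul, Matrix.det_fromBlocks_zero₂₁, det_UU _ _ hb hd, DD]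
  simp

/-! ### The falling factorials -/

/-- the Taylor coefficients grow at most like `q^(jΛ)`-denominators -/
def Sm (q Λ : ℕ) (f : PowerSeries ℚ) : Prop :=
  ∀ j, padicNorm q (PowerSeries.coeff j f) ≤ (q : ℚ) ^ (j * Λ)

theorem Sm.add {q Λ : ℕ} [Fact q.Prime] {f g : PowerSeries ℚ} (hf : Sm q Λ f) (hg : Sm q Λ g) : Sm q Λ (f + g) := by
  intro j
  rw [map_add]
  exact padicNorm.nonarchimedean.trans (max_le (hf j) (hg j))

theorem Sm.neg {q Λ : ℕ} [Fact q.Prime] {f : PowerSeries ℚ} (hf : Sm q Λ f) : Sm q Λ (-f) := by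
  intro j
  rw [map_neg, padicNorm.neg]
  exact hf j

theorem Sm.sub {q Λ : ℕ} [Fact q.Prime] {f g : PowerSeries ℚ} (hf : Sm q Λ f) (hg : Sm q Λ g) : Sm q Λ (f - g) := by
  rw [sub_eq_add_neg]
  exact hf.add hg.neg

theorem Sm.mul {q Λ : ℕ} [Fact q.Prime] {f g : PowerSeries ℚ} (hf : Sm q Λ f) (hg : Sm q Λ g) : Sm q Λ (f * g) := by
  intro j
  rw [PowerSeries.coeff_mul]
  refine padicNorm.sum_le' (fun x hx => ?_) (by positivity)
  rw [Finset.HasAntidiagonal.mem_antidiagonal] at hx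
  rw [padicNorm.mul, ← hx, add_mul, pow_add]
  exact mul_le_mul (hf _) (hg _) (padicNorm.nonneg _) (by positivity)

theorem Sm.one {q Λ : ℕ} [Fact q.Prime] : Sm q Λ 1 := by
  intro j
  rw [PowerSeries.coeff_one]
  split_ifs with h
  · subst h; simp
  · rw [padicNorm.zero]; positivity

theorem norm_inv_le (q : ℕ) [hq : Fact q.Prime] (N r : ℕ) (hr : r ≠ 0) (hrN : r ≤ N) :
    padicNorm q ((r : ℚ)⁻¹) ≤ (q : ℚ) ^ (Nat.log q N) := by
  have hr' : (r : ℚ) ≠ 0 := by exact_mod_cast hr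
  have h0 : padicNorm q (r : ℚ) * padicNorm q ((r : ℚ)⁻¹) = 1 := by
    rw [← padicNorm.mul, mul_inv_cancel₀ hr', padicNorm.one]
  have h1 : padicNorm q (r : ℚ) = (q : ℚ) ^ (-(padicValNat q r : ℤ)) := by
    rw [padicNorm.eq_zpow_of_nonzero hr']
    simp
  have hq0 : (0 : ℚ) < q := by exact_mod_cast hq.out.pos
  have hq1 : (1 : ℚ) ≤ q := by exact_mod_cast hq.out.one_lt.le
  have h2 : padicNorm q ((r : ℚ)⁻¹) = (q : ℚ) ^ (padicValNat q r) := by
    have : padicNorm q ((r : ℚ)⁻¹) = (padicNorm q (r : ℚ))⁻¹ := by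
      exact eq_inv_of_mul_eq_one_right h0
    rw [this, h1, zpow_neg, inv_inv, zpow_natCast]
  rw [h2]
  apply pow_le_pow_right₀ hq1
  have h3 : q ^ padicValNat q r ≤ N := (Nat.le_of_dvd (Nat.pos_of_ne_zero hr) pow_padicValNat_dvd).trans hrN
  exact Nat.le_log_of_pow_le hq.out.one_lt h3

theorem Sm_lin {q N : ℕ} [hq : Fact q.Prime] (r : ℕ) (hr : r ≠ 0) (hrN : r ≤ N) (c : ℤ) :
    Sm q (Nat.log q N) (PowerSeries.C ((r : ℚ)⁻¹) * PowerSeries.X + PowerSeries.C (c : ℚ)) := by
  intro j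
  have hq1 : (1 : ℚ) ≤ q := by exact_mod_cast hq.out.one_lt.le
  rcases j with _ | j
  · simp only [map_add, PowerSeries.coeff_zero_eq_constantCoeff, map_mul, PowerSeries.constantCoeff_X, mul_zero, zero_add,
      zero_mul, pow_zero]
    rw [PowerSeries.constantCoeff_C]
    exact padicNorm.of_int c
  · rw [map_add, PowerSeries.coeff_succ_C, add_zero]
    rw [PowerSeries.coeff_C_mul, PowerSeries.coeff_X]
    split_ifs with h
    · rw [mul_one, h, one_mul]
      exact norm_inv_le q N r hr hrN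
    · rw [mul_zero, padicNorm.zero]; positivity

/-- the rescaled falling factorial at `t = 0` -/
theorem desc_zero (i : ℕ) : (descPochhammer ℚ (i + 1)) =
    Polynomial.C ((i.factorial : ℚ)) * (Polynomial.X * ∏ r ∈ range i, (Polynomial.C (((r + 1 : ℕ) : ℚ)⁻¹) * Polynomial.X +
      Polynomial.C (-1))) := by
  induction i with
  | zero => simp
  | succ i ih =>
    rw [descPochhammer_succ_right, ih, Finset.prod_range_succ, Nat.factorial_succ]
    have h : ((i + 1 : ℕ) : ℚ) ≠ 0 := by positivity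
    have e : (Polynomial.X - ((i + 1 : ℕ) : Polynomial ℚ)) = Polynomial.C (((i + 1 : ℕ) : ℚ)) *
        (Polynomial.C (((i + 1 : ℕ) : ℚ)⁻¹) * Polynomial.X + Polynomial.C (-1)) := by
      rw [mul_add, ← mul_assoc, ← Polynomial.C_mul, mul_inv_cancel₀ h, Polynomial.C_1, one_mul, ← Polynomial.C_mul,
        mul_neg, mul_one, Polynomial.C_neg, Polynomial.C_eq_natCast, sub_eq_add_neg]
    rw [e, Nat.cast_mul, Polynomial.C_mul]
    ring

theorem tay_add (t : ℤ) (P Q : Polynomial ℚ) : tay t (P + Q) = tay t P + tay t Q := by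
  simp [tay]

theorem tay_sub (t : ℤ) (P Q : Polynomial ℚ) : tay t (P - Q) = tay t P - tay t Q := by
  rw [eq_sub_iff_add_eq, ← tay_add, sub_add_cancel]

theorem tay_mul (t : ℤ) (P Q : Polynomial ℚ) : tay t (P * Q) = tay t P * tay t Q := by
  simp [tay]

theorem tay_C (t : ℤ) (c : ℚ) : tay t (Polynomial.C c) = PowerSeries.C c := by
  simp [tay]

theorem tay_X_zero : tay 0 Polynomial.X = PowerSeries.X := by
  simp [tay]

theorem tay_one (t : ℤ) : tay t 1 = 1 := by
  simp [tay]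

theorem tay_prod (t : ℤ) {ι : Type*} (s : Finset ι) (f : ι → Polynomial ℚ) :
    tay t (∏ x ∈ s, f x) = ∏ x ∈ s, tay t (f x) := by
  classical
  induction s using Finset.induction_on with
  | empty => simp [tay_one]
  | insert a s ha ih => rw [Finset.prod_insert ha, Finset.prod_insert ha, tay_mul, ih]

/-- the shift -/
theorem tay_sub_one (t : ℤ) (P : Polynomial ℚ) : tay (t - 1) P = tay t (P.comp (Polynomial.X - 1)) := by
  unfold tay
  congr 1
  rw [Polynomial.comp_assoc]
  congr 1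
  simp only [Polynomial.sub_comp, Polynomial.X_comp, Polynomial.one_comp]
  push_cast
  rw [Polynomial.C_sub, Polynomial.C_1]
  ring

/-- `descPochhammer i / i!` at `t + y` -/
noncomputable def bn (t : ℤ) (i : ℕ) : PowerSeries ℚ :=
  PowerSeries.C ((i.factorial : ℚ)⁻¹) * tay t (descPochhammer ℚ i)

theorem bn_sub_one (t : ℤ) (i : ℕ) : bn (t - 1) (i + 1) = bn t (i + 1) - bn (t - 1) i := by
  unfold bn
  have h : ((i + 1 : ℕ) : ℚ) ≠ 0 := by positivity
  have h' : ((i.factorial : ℕ) : ℚ) ≠ 0 := by exact_mod_cast i.factorial_ne_zero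
  have e := descPochhammer_succ_comp_X_sub_one (R := ℚ) i
  rw [tay_sub_one t, e, tay_sub, mul_sub, tay_sub_one t]
  congr 1
  have e2 : ((i : Polynomial ℚ) + 1) • (descPochhammer ℚ i).comp (Polynomial.X - 1) =
      Polynomial.C (((i + 1 : ℕ) : ℚ)) * (descPochhammer ℚ i).comp (Polynomial.X - 1) := by
    rw [smul_eq_mul, Polynomial.C_eq_natCast]; push_cast; ring
  rw [e2, tay_mul, tay_C, ← mul_assoc, ← map_mul, Nat.factorial_succ]
  congr 2
  push_cast
  field_simp

theorem Sm_bn_zero {q N : ℕ} [hq : Fact q.Prime] (i : ℕ) (hi : i ≤ N) : Sm q (Nat.log q N) (bn 0 i) := by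
  rcases i with _ | i
  · have : bn 0 0 = 1 := by simp [bn, tay_one]
    rw [this]
    exact Sm.one
  · have e : bn 0 (i + 1) = (PowerSeries.C (((i + 1 : ℕ) : ℚ)⁻¹) * PowerSeries.X + PowerSeries.C ((0 : ℤ) : ℚ)) *
        ∏ r ∈ range i, (PowerSeries.C (((r + 1 : ℕ) : ℚ)⁻¹) * PowerSeries.X + PowerSeries.C (((-1 : ℤ)) : ℚ)) := by
      unfold bn
      rw [desc_zero, tay_mul, tay_mul, tay_prod, tay_C, tay_X_zero]
      have e1 : ∀ r : ℕ, tay 0 (Polynomial.C (((r + 1 : ℕ) : ℚ)⁻¹) * Polynomial.X + Polynomial.C (-1)) =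
          PowerSeries.C (((r + 1 : ℕ) : ℚ)⁻¹) * PowerSeries.X + PowerSeries.C (((-1 : ℤ)) : ℚ) := by
        intro r
        rw [tay_add, tay_mul, tay_C, tay_C, tay_X_zero]
        push_cast
        rfl
      rw [Finset.prod_congr rfl fun r _ => e1 r]
      have h : ((i + 1 : ℕ) : ℚ) ≠ 0 := by positivity
      have h' : ((i.factorial : ℕ) : ℚ) ≠ 0 := by exact_mod_cast i.factorial_ne_zero
      have e3 : (PowerSeries.C ((((i + 1).factorial : ℕ) : ℚ)⁻¹) : PowerSeries ℚ) * PowerSeries.C ((i.factorial : ℕ) : ℚ) =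
          PowerSeries.C (((i + 1 : ℕ) : ℚ)⁻¹) := by
        rw [← map_mul, Nat.factorial_succ]
        congr 1
        push_cast
        field_simp
      rw [← mul_assoc, ← mul_assoc, e3, Int.cast_zero, map_zero, add_zero]
    rw [e]
    refine (Sm_lin (i + 1) (Nat.succ_ne_zero _) hi 0).mul ?_
    have : ∀ m, m ≤ i → Sm q (Nat.log q N)
        (∏ r ∈ range m, (PowerSeries.C (((r + 1 : ℕ) : ℚ)⁻¹) * PowerSeries.X + PowerSeries.C (((-1 : ℤ)) : ℚ))) := by
      intro m
      induction m with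
      | zero => intro _; rw [Finset.prod_range_zero]; exact Sm.one
      | succ m ih =>
        intro hm
        rw [Finset.prod_range_succ]
        exact (ih (by omega)).mul (Sm_lin (m + 1) (Nat.succ_ne_zero _) (by omega) (-1))
    exact this i le_rfl

theorem Sm_bn {q N : ℕ} [hq : Fact q.Prime] (i : ℕ) : i ≤ N → ∀ t : ℤ, Sm q (Nat.log q N) (bn t i) := by
  induction i with
  | zero =>
    intro _ t
    have : bn t 0 = 1 := by simp [bn, tay_one]
    rw [this]
    exact Sm.one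
  | succ i ih =>
    intro hi t
    have ih' := ih (by omega)
    induction t using Int.induction_on with
    | zero => exact Sm_bn_zero (i + 1) hi
    | succ t iht =>
      have h := bn_sub_one ((t : ℤ) + 1) i
      rw [add_sub_cancel_right] at h
      have h2 : bn ((t : ℤ) + 1) (i + 1) = bn t (i + 1) + bn t i := by rw [h]; ring
      rw [h2]
      exact iht.add (ih' t)
    | pred t iht =>
      rw [bn_sub_one]
      exact iht.sub (ih' _)

/-- size of the Taylor coefficients of the falling factorials -/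
theorem desc_small (q : ℕ) [hq : Fact q.Prime] (N i : ℕ) (hi : i ≤ N) (t : ℤ) (j : ℕ) :
    padicNorm q (PowerSeries.coeff j (tay t (descPochhammer ℚ i))) ≤
      (q : ℚ) ^ (((j * Nat.log q N : ℕ) : ℤ) - (padicValNat q i.factorial : ℤ)) := by
  have hq0 : (0 : ℚ) < q := by exact_mod_cast hq.out.pos
  have h' : ((i.factorial : ℕ) : ℚ) ≠ 0 := by exact_mod_cast i.factorial_ne_zero
  have h := Sm_bn (q := q) (N := N) i hi t j
  unfold bn at h
  rw [PowerSeries.coeff_C_mul] at h
  have e : PowerSeries.coeff j (tay t (descPochhammer ℚ i)) = ((i.factorial : ℕ) : ℚ) *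
      (((i.factorial : ℕ) : ℚ)⁻¹ * PowerSeries.coeff j (tay t (descPochhammer ℚ i))) := by
    field_simp
  rw [e, padicNorm.mul, sub_eq_add_neg, add_comm, zpow_add₀ hq0.ne']
  have h1 : padicNorm q ((i.factorial : ℕ) : ℚ) = (q : ℚ) ^ (-(padicValNat q i.factorial : ℤ)) := by
    rw [padicNorm.eq_zpow_of_nonzero h']
    simp
  rw [h1, zpow_natCast]
  exact mul_le_mul_of_nonneg_left h (by positivity)

/-! ### The determinant -/

theorem norm_prod (q : ℕ) [Fact q.Prime] {ι : Type*} (s : Finset ι) (f : ι → ℚ) :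
    padicNorm q (∏ x ∈ s, f x) = ∏ x ∈ s, padicNorm q (f x) := by
  classical
  induction s using Finset.induction_on with
  | empty => simp
  | insert a s ha ih => rw [Finset.prod_insert ha, Finset.prod_insert ha, padicNorm.mul, ih]

theorem norm_det_le (q : ℕ) [hq : Fact q.Prime] {ι : Type*} [Fintype ι] [DecidableEq ι] (M : Matrix ι ι ℚ)
    (e f : ι → ℤ) (h : ∀ r c, padicNorm q (M r c) ≤ (q : ℚ) ^ (e r + f c)) :
    padicNorm q M.det ≤ (q : ℚ) ^ (∑ r, e r + ∑ c, f c) := by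
  have hq0 : (0 : ℚ) < q := by exact_mod_cast hq.out.pos
  rw [Matrix.det_apply]
  refine padicNorm.sum_le' (fun σ _ => ?_) (by positivity)
  have h1 : padicNorm q (Equiv.Perm.sign σ • ∏ i, M (σ i) i) = padicNorm q (∏ i, M (σ i) i) := by
    rcases Int.units_eq_one_or (Equiv.Perm.sign σ) with hs | hs
    · rw [hs, one_smul]
    · rw [hs, Units.neg_smul, one_smul, padicNorm.neg]
  rw [h1, norm_prod]
  calc ∏ i, padicNorm q (M (σ i) i) ≤ ∏ i, (q : ℚ) ^ (e (σ i) + f i) :=
        Finset.prod_le_prod (fun _ _ => padicNorm.nonneg _) fun i _ => h _ _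
    _ = (q : ℚ) ^ (∑ r, e r + ∑ c, f c) := by
        rw [← Equiv.sum_comp σ e, ← Finset.sum_add_distrib]
        generalize (univ : Finset ι) = s
        classical
        induction s using Finset.induction_on with
        | empty => simp
        | insert a s ha ih => rw [Finset.prod_insert ha, Finset.sum_insert ha, zpow_add₀ hq0.ne' (e (σ a) + f a), ih]

theorem sum_rows_le (L : ℕ) (ρ : Col L → ℤ × Fin 3) (hρ : Rows L ρ) (g : ℤ × Fin 3 → ℕ) :
    ∑ c, g (ρ c) ≤ ∑ t ∈ Icc (-(L : ℤ)) L, ∑ j : Fin 3, g (t, j) := by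
  classical
  rw [← Finset.sum_product' (f := fun t j => g (t, j))]
  rw [← Finset.sum_image (f := g) (g := ρ) (s := univ) (fun a _ b _ h => hρ.inj h)]
  refine Finset.sum_le_sum_of_subset fun x hx => ?_
  rw [Finset.mem_image] at hx
  obtain ⟨c, _, rfl⟩ := hx
  rw [Finset.mem_product, Finset.mem_Icc]
  exact ⟨abs_le.mp (hρ.le c), mem_univ _⟩

theorem sum_ww_two (L : ℕ) : ∑ t ∈ Icc (-(L : ℤ)) L, ww 2 t = L * (L + 1) := by
  induction L with
  | zero => simp [ww]
  | succ L ih =>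
    have e : Icc (-((L + 1 : ℕ) : ℤ)) ((L + 1 : ℕ) : ℤ) =
        insert (-((L + 1 : ℕ) : ℤ)) (insert ((L + 1 : ℕ) : ℤ) (Icc (-(L : ℤ)) L)) := by
      ext x
      simp only [Finset.mem_Icc, Finset.mem_insert]
      omega
    have h1 : ((L + 1 : ℕ) : ℤ) ∉ Icc (-(L : ℤ)) L := by
      simp only [Finset.mem_Icc]; omega
    have h2 : (-((L + 1 : ℕ) : ℤ)) ∉ insert ((L + 1 : ℕ) : ℤ) (Icc (-(L : ℤ)) L) := by
      simp only [Finset.mem_Icc, Finset.mem_insert]; omega
    rw [e, Finset.sum_insert h2, Finset.sum_insert h1, ih]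
    have h3 : ww 2 (-((L + 1 : ℕ) : ℤ)) + ww 2 ((L + 1 : ℕ) : ℤ) = 2 * (L + 1) := by
      unfold ww
      rcases Nat.even_or_odd (L + 1) with h | h
      · obtain ⟨k, hk⟩ := h
        rw [if_neg (by omega), if_pos (by omega)]
        omega
      · obtain ⟨k, hk⟩ := h
        rw [if_pos (by omega), if_neg (by omega)]
        omega
    rw [← add_assoc, h3]
    ring

theorem sum_ww (q L : ℕ) : ∑ t ∈ Icc (-(L : ℤ)) L, ∑ _j : Fin 3, ww q t = WW q L := by
  by_cases hq : q = 2
  · subst hq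
    simp only [Finset.sum_const, Finset.card_univ, Fintype.card_fin, smul_eq_mul, ← Finset.mul_sum]
    rw [sum_ww_two, WW, if_pos rfl]
    ring
  · rw [WW, if_neg hq]
    refine Finset.sum_eq_zero fun t _ => Finset.sum_eq_zero fun j _ => ?_
    rw [ww, if_neg (by tauto)]

theorem b0 (q : ℕ) [Fact q.Prime] (L : ℕ) (hL : 1 ≤ L) (ρ : Col L → ℤ × Fin 3) (hρ : Rows L ρ) :
    padicNorm q (DD L ρ) ≤ (q : ℚ) ^ (((2 * (6 * L + 3) * Nat.log q (3 * L) + WW q L : ℕ) : ℤ) -
      ((2 * ∑ i ∈ range (3 * L), padicValNat q i.factorial : ℕ) : ℤ)) := by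
  have hqp : q.Prime := Fact.out
  have hq0 : (0 : ℚ) < q := by exact_mod_cast hqp.pos
  have hq1 : (1 : ℚ) ≤ q := by exact_mod_cast hqp.one_lt.le
  set Λ := Nat.log q (3 * L) with hΛ
  rw [DD_basis L ρ (descPochhammer ℚ) (fun i => monic_descPochhammer ℚ i) (fun i => descPochhammer_natDegree ℚ i)]
  set e : Col L → ℤ := fun c => ((((ρ c).2 : ℕ) * Λ + ww q (ρ c).1 + Λ : ℕ) : ℤ) with he
  set f : Col L → ℤ := Sum.elim (fun i : Fin (3 * L) => -(padicValNat q (i : ℕ).factorial : ℤ))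
    (fun i : Fin (3 * L) => -(padicValNat q (i : ℕ).factorial : ℤ)) with hf
  refine (norm_det_le q _ e f ?_).trans ?_
  · intro r c
    rcases c with i | i
    · simp only [Matrix.of_apply, Sum.elim_inl, he, hf]
      refine (desc_small q (3 * L) i i.2.le (ρ r).1 _).trans (zpow_le_zpow_right₀ hq1 ?_)
      push_cast
      have : (0 : ℤ) ≤ (ww q (ρ r).1 : ℤ) := by positivity
      have : (0 : ℤ) ≤ (Λ : ℤ) := by positivity
      linarith
    · simp only [Matrix.of_apply, Sum.elim_inr, he, hf]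
      rw [padicNorm.neg, PowerSeries.coeff_mul]
      refine padicNorm.sum_le' (fun x hx => ?_) (by positivity)
      rw [Finset.HasAntidiagonal.mem_antidiagonal] at hx
      rw [padicNorm.mul]
      have h1 := F_small q L hL (ρ r).1 (hρ.le r) x.1
      have h2 := desc_small q (3 * L) i i.2.le (ρ r).1 x.2
      refine (mul_le_mul h1 h2 (padicNorm.nonneg _) (by positivity)).trans ?_
      rw [← zpow_add₀ hq0.ne']
      refine le_of_eq (congrArg _ ?_)
      rw [← hx]
      push_cast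
      ring
  · refine zpow_le_zpow_right₀ hq1 ?_
    have s1 : ∑ c, f c = -((2 * ∑ i ∈ range (3 * L), padicValNat q i.factorial : ℕ) : ℤ) := by
      rw [Fintype.sum_sum_type]
      simp only [hf, Sum.elim_inl, Sum.elim_inr, Finset.sum_neg_distrib]
      rw [Finset.sum_range]
      push_cast
      ring
    have s2 : ∑ c, e c ≤ ((2 * (6 * L + 3) * Λ + WW q L : ℕ) : ℤ) := by
      have a1 : ∑ c, ((ρ c).2 : ℕ) ≤ 6 * L + 3 := by
        refine (sum_rows_le L ρ hρ fun x => (x.2 : ℕ)).trans ?_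
        simp only [Fin.sum_univ_three, Finset.sum_const, Int.card_Icc, smul_eq_mul]
        simp only [Fin.val_zero, Fin.val_one, Fin.val_two]
        omega
      have a2 : ∑ c, ww q (ρ c).1 ≤ WW q L := by
        refine (sum_rows_le L ρ hρ fun x => ww q x.1).trans ?_
        exact (sum_ww q L).le
      have a3 : ∑ c, (((ρ c).2 : ℕ) * Λ + ww q (ρ c).1 + Λ) ≤ 2 * (6 * L + 3) * Λ + WW q L := by
        rw [Finset.sum_add_distrib, Finset.sum_add_distrib, ← Finset.sum_mul, Finset.sum_const, Finset.card_univ]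
        simp only [Fintype.card_sum, Fintype.card_fin, smul_eq_mul]
        have : (∑ c, ((ρ c).2 : ℕ)) * Λ ≤ (6 * L + 3) * Λ := Nat.mul_le_mul_right _ a1
        nlinarith
      simp only [he]
      exact_mod_cast a3
    rw [s1]
    linarith

end Pool.Agent.H80.HF

end

section

/-!
# HF ZeroA: the zero estimate (full column rank)

PROOF. `E = (3X+1) A(X+1) A - (3X+2) B(X+1) B` has degree `≤ 1 + 2 (3L-1) = 6L - 1`.
At a node `t`, `-L ≤ t ≤ L-1`: `tay t A = F_t tay t B + O(y^3)`, `tay (t+1) A = F_(t+1) tay (t+1) B + O(y^3)`, `FF_rec`: the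
product of both and of `3(t+y)+1` gives `tay t E = O(y^3)`, i.e. `(X - t)^3 ∣ E` (`tay t (P.comp (X+1)) = tay (t+1) P`);
`2L` different nodes: `6L` zeros `> deg E`, so `E = 0`. By `no_sol` `A = 0` or `B = 0`, then both (`E = 0` gives
`(3X+2) B(X+1) B = 0`).
-/

set_option autoImplicit false

namespace Pool.Agent.H80.HF

open Polynomial

theorem ZeroA_tay_mul (t : ℤ) (P Q : ℚ[X]) : tay t (P * Q) = tay t P * tay t Q := by
  simp [tay]

theorem ZeroA_tay_sub (t : ℤ) (P Q : ℚ[X]) : tay t (P - Q) = tay t P - tay t Q := by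
  unfold tay
  rw [sub_comp, Polynomial.coe_sub]

theorem ZeroA_tay_shift (t : ℤ) (P : ℚ[X]) : tay t (P.comp (X + C 1)) = tay (t + 1) P := by
  unfold tay
  rw [comp_assoc]
  congr 2
  simp only [add_comp, X_comp, C_comp]
  push_cast
  rw [C_add]
  ring

theorem ZeroA_tay_lin (t a : ℤ) : tay t (C 3 * X + C (a : ℚ)) = toPS (lf (3 * t + a)) := by
  unfold tay toPS lf
  have h1 : (C 3 * X + C (3 * t + a) : ℤ[X]).map (Int.castRingHom ℚ) = C 3 * X + C (3 * (t : ℚ) + a) := by
    rw [Polynomial.map_add, Polynomial.map_mul, Polynomial.map_C, map_X, Polynomial.map_C, eq_intCast, eq_intCast]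
    push_cast
    rfl
  rw [h1]
  congr 1
  rw [add_comp, mul_comp, C_comp, X_comp, C_comp, C_add, C_mul]
  ring

/-- the order of vanishing in terms of the Taylor expansion -/
theorem ZeroA_dvd (t : ℤ) (E : ℚ[X]) (n : ℕ) (h : PowerSeries.X ^ n ∣ tay t E) : (X - C (t : ℚ)) ^ n ∣ E := by
  rw [PowerSeries.X_pow_dvd_iff] at h
  have h1 : X ^ n ∣ E.comp (X + C (t : ℚ)) := by
    rw [Polynomial.X_pow_dvd_iff]
    intro d hd
    have := h d hd
    unfold tay at this
    rwa [Polynomial.coeff_coe] at this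
  have h2 := map_dvd (compRingHom (X - C (t : ℚ))) h1
  have h3 : compRingHom (X - C (t : ℚ)) (E.comp (X + C (t : ℚ))) = E := by
    rw [coe_compRingHom_apply, comp_assoc]
    simp
  rw [h3, map_pow] at h2
  have h4 : compRingHom (X - C (t : ℚ)) X = X - C (t : ℚ) := by
    rw [coe_compRingHom_apply, X_comp]
  rwa [h4] at h2

theorem full_rank (L : ℕ) (hL : 1 ≤ L) (A B : ℚ[X]) (hA : A.degree < ((3 * L : ℕ) : WithBot ℕ))
    (hB : B.degree < ((3 * L : ℕ) : WithBot ℕ))
    (h : ∀ t : ℤ, |t| ≤ (L : ℤ) → ∀ j : Fin 3, PowerSeries.coeff (j : ℕ) (tay t A) =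
      PowerSeries.coeff (j : ℕ) (FF t * tay t B)) : A = 0 ∧ B = 0 := by
  classical
  have hdeg : ∀ P : ℚ[X], P.degree < ((3 * L : ℕ) : WithBot ℕ) → P.natDegree ≤ 3 * L - 1 := by
    intro P hP
    by_cases h0 : P = 0
    · rw [h0, natDegree_zero]; exact Nat.zero_le _
    · have := (natDegree_lt_iff_degree_lt h0).mpr hP
      omega
  have hdvd : ∀ t : ℤ, |t| ≤ (L : ℤ) → PowerSeries.X ^ 3 ∣ tay t A - FF t * tay t B := by
    intro t ht
    rw [PowerSeries.X_pow_dvd_iff]
    intro m hm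
    rw [map_sub, sub_eq_zero]
    exact h t ht ⟨m, hm⟩
  let E : ℚ[X] := (C 3 * X + C 1) * (A.comp (X + C 1) * A) - (C 3 * X + C 2) * (B.comp (X + C 1) * B)
  have hnode : ∀ t : ℤ, -(L : ℤ) ≤ t → t < L → (X - C (t : ℚ)) ^ 3 ∣ E := by
    intro t h1 h2
    apply ZeroA_dvd
    have e1 : tay t E = toPS (lf (3 * t + 1)) * (tay (t + 1) A * tay t A) - toPS (lf (3 * t + 2)) * (tay (t + 1) B * tay t B) := by
      simp only [E]
      rw [ZeroA_tay_sub, ZeroA_tay_mul, ZeroA_tay_mul, ZeroA_tay_mul, ZeroA_tay_mul, ZeroA_tay_shift, ZeroA_tay_shift]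
      have h3 := ZeroA_tay_lin t 1
      have h4 := ZeroA_tay_lin t 2
      push_cast at h3 h4
      rw [h3, h4]
    have e2 : tay t E = toPS (lf (3 * t + 1)) * ((tay t A - FF t * tay t B) * tay (t + 1) A +
        FF t * tay t B * (tay (t + 1) A - FF (t + 1) * tay (t + 1) B)) := by
      rw [e1, ← FF_rec t]
      ring
    rw [e2]
    refine Dvd.dvd.mul_left (dvd_add ?_ ?_) _
    · exact (hdvd t (abs_le.mpr ⟨h1, h2.le⟩)).mul_right _
    · exact (hdvd (t + 1) (abs_le.mpr ⟨by omega, by omega⟩)).mul_left _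
  have hE : E = 0 := by
    by_contra hne
    have hprod : (∏ t ∈ Finset.Ico (-(L : ℤ)) L, (X - C (t : ℚ)) ^ 3) ∣ E := by
      refine Finset.prod_dvd_of_coprime ?_ fun t ht => hnode t (Finset.mem_Ico.mp ht).1 (Finset.mem_Ico.mp ht).2
      intro a _ b _ hab
      refine IsCoprime.pow ?_
      exact isCoprime_X_sub_C_of_isUnit_sub (by
        have : (a : ℚ) - b ≠ 0 := sub_ne_zero.mpr (by exact_mod_cast hab)
        exact this.isUnit)
    have hle := natDegree_le_of_dvd hprod hne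
    rw [natDegree_prod_of_monic _ _ fun a _ => (monic_X_sub_C _).pow _] at hle
    simp only [natDegree_pow, natDegree_X_sub_C, mul_one, Finset.sum_const, Int.card_Ico, smul_eq_mul] at hle
    have hlin : ∀ a : ℚ, (C 3 * X + C a : ℚ[X]).natDegree ≤ 1 := fun a => natDegree_linear_le
    have hterm : ∀ (a : ℚ) (P : ℚ[X]), P.natDegree ≤ 3 * L - 1 → ((C 3 * X + C a) * (P.comp (X + C 1) * P)).natDegree ≤ 6 * L - 1 := by
      intro a P hP
      refine natDegree_mul_le.trans ?_
      have h5 : (P.comp (X + C 1)).natDegree ≤ 3 * L - 1 := by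
        rw [natDegree_comp, natDegree_X_add_C, mul_one]; exact hP
      have h6 := (natDegree_mul_le (p := P.comp (X + C 1)) (q := P))
      have := hlin a
      omega
    have hdE : E.natDegree ≤ 6 * L - 1 :=
      (natDegree_sub_le _ _).trans (max_le (hterm 1 A (hdeg A hA)) (hterm 2 B (hdeg B hB)))
    omega
  have hEq : (C 3 * X + C 1) * (A.comp (X + C 1) * A) = (C 3 * X + C 2) * (B.comp (X + C 1) * B) := sub_eq_zero.mp hE
  have hcomp : ∀ P : ℚ[X], P.comp (X + C 1) = 0 → P = 0 := by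
    intro P hP
    have h7 := congrArg (fun Q : ℚ[X] => Q.comp (X - C 1)) hP
    simp only [comp_assoc, zero_comp] at h7
    have h8 : ((X + C 1 : ℚ[X]).comp (X - C 1)) = X := by simp
    rwa [h8, comp_X] at h7
  have hl : ∀ a : ℚ, (C 3 * X + C a : ℚ[X]) ≠ 0 := by
    intro a h0
    have h9 := congrArg (fun p : ℚ[X] => p.coeff 1) h0
    simp [coeff_C] at h9
  have hz : ∀ P : ℚ[X], P.comp (X + C 1) * P = 0 → P = 0 := by
    intro P hP
    rcases mul_eq_zero.mp hP with h0 | h0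
    · exact hcomp P h0
    · exact h0
  rcases no_sol A B hEq with h0 | h0
  · refine ⟨h0, ?_⟩
    rw [h0, mul_zero, mul_zero] at hEq
    exact hz B ((mul_eq_zero.mp hEq.symm).resolve_left (hl 2))
  · refine ⟨?_, h0⟩
    rw [h0, mul_zero, mul_zero] at hEq
    exact hz A ((mul_eq_zero.mp hEq).resolve_left (hl 1))

end Pool.Agent.H80.HF

end

section

/-!
# HF ZeroC: some minor is nonzero

PROOF. The columns, as functions on the finite set of rows `{t : |t| ≤ L} × Fin 3`, are linearly independent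
(`full_rank`, `ent` is the coefficient of `tay t (X^i)`), so the matrix has a set of `card Col` linearly independent rows
(row rank = column rank; e.g. `exists_linearIndependent`, or `Matrix.rank`), and the square matrix of these rows is
invertible.
-/

set_option autoImplicit false

namespace Pool.Agent.H80.HF

theorem tay_X_pow (t : ℤ) (i : ℕ) : tay t (Polynomial.X ^ i) = lin (t : ℚ) ^ i := by
  unfold tay lin
  rw [Polynomial.X_pow_comp, Polynomial.coe_pow, Polynomial.coe_add, Polynomial.coe_X, Polynomial.coe_C]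

theorem tay_add_zc (t : ℤ) (P Q : Polynomial ℚ) : tay t (P + Q) = tay t P + tay t Q := by
  simp [tay]

theorem tay_smul (t : ℤ) (a : ℚ) (P : Polynomial ℚ) : tay t (Polynomial.C a * P) = PowerSeries.C a * tay t P := by
  simp [tay]

theorem tay_sum {ι : Type*} (t : ℤ) (s : Finset ι) (f : ι → Polynomial ℚ) : tay t (∑ i ∈ s, f i) = ∑ i ∈ s, tay t (f i) := by
  classical
  induction s using Finset.induction_on with
  | empty => simp [tay]
  | insert a s ha ih => rw [Finset.sum_insert ha, Finset.sum_insert ha, tay_add_zc, ih]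

/-- the polynomial with coefficients `v` -/
noncomputable def polyOf (L : ℕ) (v : Fin (3 * L) → ℚ) : Polynomial ℚ := ∑ i, Polynomial.C (v i) * Polynomial.X ^ (i : ℕ)

theorem polyOf_degree (L : ℕ) (v : Fin (3 * L) → ℚ) : (polyOf L v).degree < ((3 * L : ℕ) : WithBot ℕ) := by
  unfold polyOf
  refine (Polynomial.degree_sum_le _ _).trans_lt ?_
  rw [Finset.sup_lt_iff (WithBot.bot_lt_coe _)]
  intro i _
  refine (Polynomial.degree_C_mul_X_pow_le _ _).trans_lt ?_
  exact_mod_cast i.2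

theorem polyOf_coeff (L : ℕ) (v : Fin (3 * L) → ℚ) (i : Fin (3 * L)) : (polyOf L v).coeff i = v i := by
  unfold polyOf
  rw [Polynomial.finsetSum_coeff, Finset.sum_eq_single i]
  · simp
  · intro j _ hj
    rw [Polynomial.coeff_C_mul, Polynomial.coeff_X_pow, if_neg (fun h => hj (Fin.ext h.symm)), mul_zero]
  · intro h; exact absurd (Finset.mem_univ i) h

theorem sum_ent (L : ℕ) (r : ℤ × Fin 3) (v : Col L → ℚ) : ∑ c, ent L r c * v c =
    PowerSeries.coeff (r.2 : ℕ) (tay r.1 (polyOf L (fun i => v (Sum.inl i)))) -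
      PowerSeries.coeff (r.2 : ℕ) (FF r.1 * tay r.1 (polyOf L (fun i => v (Sum.inr i)))) := by
  rw [Fintype.sum_sum_type]
  unfold polyOf
  rw [tay_sum, tay_sum, Finset.mul_sum, map_sum, map_sum, sub_eq_add_neg, ← Finset.sum_neg_distrib]
  congr 1
  · refine Finset.sum_congr rfl fun i _ => ?_
    rw [tay_smul, tay_X_pow, PowerSeries.coeff_C_mul]
    exact mul_comm _ _
  · refine Finset.sum_congr rfl fun i _ => ?_
    rw [tay_smul, tay_X_pow]
    have : FF r.1 * (PowerSeries.C (v (Sum.inr i)) * lin (r.1 : ℚ) ^ (i : ℕ)) = PowerSeries.C (v (Sum.inr i)) * (FF r.1 * lin (r.1 : ℚ) ^ (i : ℕ)) := by ring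
    rw [this, PowerSeries.coeff_C_mul]
    show -_ * _ = _
    ring

theorem exists_minor (L : ℕ) (hL : 1 ≤ L) : ∃ ρ : Col L → ℤ × Fin 3, Rows L ρ ∧ DD L ρ ≠ 0 := by
  classical
  let R := {t : ℤ // t ∈ Finset.Icc (-(L : ℤ)) L} × Fin 3
  let toR : R → ℤ × Fin 3 := fun r => (r.1.1, r.2)
  have htoR : Function.Injective toR := by
    rintro ⟨⟨a, ha⟩, j⟩ ⟨⟨b, hb⟩, k⟩ h
    have h1 := congrArg Prod.fst h
    have h2 := congrArg Prod.snd h
    simp only [toR] at h1 h2
    subst h1; subst h2; rfl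
  let w : R → (Col L → ℚ) := fun r => ent L (toR r)
  -- the rows span
  have hspan : Submodule.span ℚ (Set.range w) = ⊤ := by
    by_contra hne
    obtain ⟨f, hf0, hf⟩ := Submodule.exists_le_ker_of_lt_top _ (lt_top_iff_ne_top.mpr hne)
    apply hf0
    let v : Col L → ℚ := fun c => f (Pi.single c 1)
    have hfv : ∀ x : Col L → ℚ, f x = ∑ c, x c * v c := by
      intro x
      conv_lhs => rw [pi_eq_sum_univ' x]
      rw [map_sum]
      refine Finset.sum_congr rfl fun c _ => ?_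
      rw [map_smul, smul_eq_mul]
    have hz : ∀ r : R, ∑ c, ent L (toR r) c * v c = 0 := by
      intro r
      rw [← hfv]
      exact hf (Submodule.subset_span ⟨r, rfl⟩)
    have hfr := full_rank L hL (polyOf L (fun i => v (Sum.inl i))) (polyOf L (fun i => v (Sum.inr i)))
      (polyOf_degree _ _) (polyOf_degree _ _) (by
        intro t ht j
        have h1 := hz (⟨t, Finset.mem_Icc.mpr (abs_le.mp ht)⟩, j)
        rw [sum_ent] at h1
        exact sub_eq_zero.mp h1)
    have hv0 : v = 0 := by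
      funext c
      rcases c with i | i
      · have := polyOf_coeff L (fun i => v (Sum.inl i)) i
        rw [hfr.1, Polynomial.coeff_zero] at this
        exact this.symm
      · have := polyOf_coeff L (fun i => v (Sum.inr i)) i
        rw [hfr.2, Polynomial.coeff_zero] at this
        exact this.symm
    ext x
    rw [LinearMap.comp_apply, hfv, hv0]
    simp
  obtain ⟨κ, a, ha, hsp, hli⟩ := exists_linearIndependent' ℚ w
  have : Finite κ := Finite.of_injective a ha
  let _ : Fintype κ := Fintype.ofFinite κ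
  rw [hspan] at hsp
  let b := Module.Basis.mk hli (by rw [hsp])
  have hcard : Fintype.card (Col L) = Fintype.card κ := by
    rw [← Module.finrank_eq_card_basis b, Module.finrank_fintype_fun_eq_card]
  let e := Fintype.equivOfCardEq hcard
  refine ⟨fun c => toR (a (e c)), ⟨fun c c' h => e.injective (ha (htoR h)), fun c => ?_⟩, ?_⟩
  · exact abs_le.mpr (Finset.mem_Icc.mp (a (e c)).1.2)
  · unfold DD
    have hli2 : LinearIndependent ℚ (fun c => w (a (e c))) := hli.comp e e.injective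
    have h1 : IsUnit (Matrix.of fun c => ent L (toR (a (e c)))) := by
      rw [← Matrix.linearIndependent_rows_iff_isUnit]
      exact hli2
    rw [Matrix.isUnit_iff_isUnit_det] at h1
    exact h1.ne_zero

end Pool.Agent.H80.HF

end

section

/-!
# HF IntM: the minors times `∏ DN t (0)^3` are integers, highly divisible by the Wieferich primes

PROOF. The rows are `[-L,L] × Fin 3` (`6L+3` of them), `ρ` misses three of them: `e : Col L ⊕ Fin 3 ≃ [-L,L] × Fin 3` extending `ρ`
(cardinality). Padded matrix `P` (index `Col L ⊕ Fin 3` for rows via `e` and for columns): in the columns of `Col L` the entries `ent`,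
in the column `k : Fin 3` the unit vector of the row `inr k`: block triangular, `det P = DD L ρ` (`Matrix.det_fromBlocks_zero₁₂`).
Multiply from the left by the matrix `T`, `T (t,j) (t',j') = coeff (j-j') (DN t)` if `t = t'` and `j' ≤ j`, else 0:
`det T = ∏_t (DN t).coeff 0 ^ 3` (block diagonal, each block lower triangular; or reindex to `[-L,L] × Fin 3`,
`Matrix.det_blockDiagonal`). `T P` is integral: row `(t,j)` becomes `entI L (t,j)` (`FF_DN`:
`DN t (A(t+y) - F_t B(t+y)) = DN t A(t+y) - NN t B(t+y)`), and `coeff (j - j_k) (DN t)` in the unit columns. So `z = det (T P)`.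
Wieferich `p`: for a polynomial `g` over `ZMod p` of degree `< 3L - dd p` the vector (coefficients of `A g`, coefficients of
`B g`, `0`) is in the kernel of `T P` modulo `p`: row `(t,j)` is `coeff j ((DN t A(t+y) - NN t B(t+y)) g(t+y)) = 0` (`ker_id`).
`g ↦` vector is injective (`A ≠ 0`), so the kernel has dimension `≥ 3L - dd p`; `det_pow`.
-/

set_option autoImplicit false

namespace Pool.Agent.H80.HF

open Finset

/-- the nodes -/
private abbrev Nd (L : ℕ) := {t : ℤ // t ∈ Icc (-(L : ℤ)) L}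

private theorem card_Nd (L : ℕ) : Fintype.card (Nd L × Fin 3) = 6 * L + 3 := by
  rw [Fintype.card_prod, Fintype.card_coe, Int.card_Icc, Fintype.card_fin]
  omega

private theorem exists_e (L : ℕ) (ρ : Col L → ℤ × Fin 3) (hρ : Rows L ρ) :
    ∃ e : (Col L ⊕ Fin 3) ≃ (Nd L × Fin 3), ∀ c : Col L,
      (((e (Sum.inl c)).1 : ℤ), (e (Sum.inl c)).2) = ρ c := by
  classical
  have hmem : ∀ c, (ρ c).1 ∈ Icc (-(L : ℤ)) L := fun c => mem_Icc.2 (abs_le.1 (hρ.le c))
  let ρ' : Col L → Nd L × Fin 3 := fun c => (⟨(ρ c).1, hmem c⟩, (ρ c).2)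
  have hinj : Function.Injective ρ' := by
    intro a b h
    apply hρ.inj
    have h1 := congrArg (fun x : Nd L × Fin 3 => ((x.1 : ℤ), x.2)) h
    exact h1
  have hcard : Fintype.card {x : Nd L × Fin 3 // x ∉ Set.range ρ'} = 3 := by
    have h1 := Fintype.card_subtype_compl (fun x : Nd L × Fin 3 => x ∈ Set.range ρ')
    have h2 : Fintype.card {x : Nd L × Fin 3 // x ∈ Set.range ρ'} = Fintype.card (Col L) :=
      Fintype.card_congr (Equiv.ofInjective ρ' hinj).symm
    rw [h1, h2, card_Nd, Fintype.card_sum, Fintype.card_fin]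
    omega
  let e2 : Fin 3 ≃ {x : Nd L × Fin 3 // x ∉ Set.range ρ'} :=
    (Fintype.equivFinOfCardEq hcard).symm
  refine ⟨((Equiv.ofInjective ρ' hinj).sumCongr e2).trans
    (Equiv.sumCompl (fun x : Nd L × Fin 3 => x ∈ Set.range ρ')), fun c => ?_⟩
  rfl

/-- the Toeplitz multiplier -/
private noncomputable def TT (L : ℕ) : Matrix (Nd L × Fin 3) (Nd L × Fin 3) ℤ :=
  fun r r' => if r.1 = r'.1 then
    (if r'.2 ≤ r.2 then (DN r.1).coeff ((r.2 : ℕ) - (r'.2 : ℕ)) else 0) else 0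

private theorem det_TT (L : ℕ) : (TT L).det = ∏ t ∈ Icc (-(L : ℤ)) L, (DN t).coeff 0 ^ 3 := by
  classical
  have h1 : (TT L).submatrix Prod.swap Prod.swap = Matrix.blockDiagonal (fun t : Nd L =>
      (fun j j' : Fin 3 => if j' ≤ j then (DN t).coeff ((j : ℕ) - (j' : ℕ)) else 0 :
        Matrix (Fin 3) (Fin 3) ℤ)) := by
    ext ⟨j, t⟩ ⟨j', t'⟩
    rw [Matrix.blockDiagonal_apply]
    rfl
  have h2 := Matrix.det_submatrix_equiv_self (Equiv.prodComm (Fin 3) (Nd L)) (TT L)
  have h3 : (TT L).submatrix (Equiv.prodComm (Fin 3) (Nd L)) (Equiv.prodComm (Fin 3) (Nd L)) =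
      (TT L).submatrix Prod.swap Prod.swap := rfl
  rw [← h2, h3, h1, Matrix.det_blockDiagonal]
  rw [← Finset.prod_coe_sort (Icc (-(L : ℤ)) L) (fun t => (DN t).coeff 0 ^ 3)]
  refine Finset.prod_congr rfl fun t _ => ?_
  rw [Matrix.det_fin_three]
  simp
  ring

/-- the padded matrix -/
private noncomputable def PP (L : ℕ) (e : (Col L ⊕ Fin 3) ≃ (Nd L × Fin 3)) :
    Matrix (Nd L × Fin 3) (Col L ⊕ Fin 3) ℚ :=
  fun r c => match c with
    | Sum.inl c => ent L ((r.1 : ℤ), r.2) c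
    | Sum.inr k => if e (Sum.inr k) = r then 1 else 0

private theorem det_PP (L : ℕ) (ρ : Col L → ℤ × Fin 3) (e : (Col L ⊕ Fin 3) ≃ (Nd L × Fin 3))
    (he : ∀ c : Col L, (((e (Sum.inl c)).1 : ℤ), (e (Sum.inl c)).2) = ρ c) :
    ((PP L e).submatrix e id).det = DD L ρ := by
  classical
  have h1 : (PP L e).submatrix e id = Matrix.fromBlocks (Matrix.of fun c => ent L (ρ c)) 0
      (Matrix.of fun k c => ent L (((e (Sum.inr k)).1 : ℤ), (e (Sum.inr k)).2) c) 1 := by
    ext a b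
    rcases a with a | a <;> rcases b with b | b
    · show ent L (((e (Sum.inl a)).1 : ℤ), (e (Sum.inl a)).2) b = ent L (ρ a) b
      rw [he]
    · show (if e (Sum.inr b) = e (Sum.inl a) then (1 : ℚ) else 0) = 0
      rw [if_neg]
      intro h
      exact absurd (e.injective h) (by simp)
    · rfl
    · show (if e (Sum.inr b) = e (Sum.inr a) then (1 : ℚ) else 0) = (1 : Matrix (Fin 3) (Fin 3) ℚ) a b
      rw [Matrix.one_apply]
      by_cases hab : a = b
      · subst hab; simp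
      · rw [if_neg hab, if_neg]
        intro h
        exact hab (Sum.inr_injective (e.injective h)).symm
  rw [h1, Matrix.det_fromBlocks_zero₁₂, Matrix.det_one, mul_one]
  rfl

/-- the integral matrix -/
private noncomputable def ZZ (L : ℕ) (e : (Col L ⊕ Fin 3) ≃ (Nd L × Fin 3)) :
    Matrix (Nd L × Fin 3) (Col L ⊕ Fin 3) ℤ :=
  fun r c => match c with
    | Sum.inl c => entI L ((r.1 : ℤ), r.2) c
    | Sum.inr k => TT L r (e (Sum.inr k))

private theorem toPS_coeff (P : Polynomial ℤ) (n : ℕ) :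
    PowerSeries.coeff n (toPS P) = ((P.coeff n : ℤ) : ℚ) := by
  unfold toPS
  rw [Polynomial.coeff_coe, Polynomial.coeff_map]
  rfl

private theorem toPS_mul (P Q : Polynomial ℤ) : toPS (P * Q) = toPS P * toPS Q := by
  unfold toPS
  rw [Polynomial.map_mul, Polynomial.coe_mul]

private theorem toPS_lin (t : ℤ) (i : ℕ) :
    toPS ((Polynomial.X + Polynomial.C t) ^ i) = lin (t : ℚ) ^ i := by
  unfold toPS lin
  rw [Polynomial.map_pow, Polynomial.coe_pow, Polynomial.map_add, Polynomial.map_X,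
    Polynomial.map_C, Polynomial.coe_add, Polynomial.coe_X, Polynomial.coe_C]
  rfl

private theorem sum_T (L : ℕ) (r : Nd L × Fin 3) (G : PowerSeries ℚ) (f : Nd L × Fin 3 → ℚ)
    (hf : ∀ j : Fin 3, f (r.1, j) = PowerSeries.coeff (j : ℕ) G) :
    ∑ r', ((TT L r r' : ℤ) : ℚ) * f r' = PowerSeries.coeff (r.2 : ℕ) (toPS (DN r.1) * G) := by
  classical
  obtain ⟨t, j⟩ := r
  rw [Fintype.sum_prod_type]
  rw [Finset.sum_eq_single t]
  · rw [Fin.sum_univ_three]
    simp only at hf
    rw [hf 0, hf 1, hf 2]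
    unfold TT
    simp only [if_true]
    rw [PowerSeries.coeff_mul]
    fin_cases j
    · simp [toPS_coeff]
    · simp [Finset.Nat.antidiagonal_succ, toPS_coeff]
      ring
    · simp [Finset.Nat.antidiagonal_succ, toPS_coeff]
      ring
  · intro b _ hb
    refine Finset.sum_eq_zero fun j' _ => ?_
    unfold TT
    rw [if_neg (fun h => hb h.symm)]
    simp
  · intro h
    exact absurd (Finset.mem_univ _) h

private theorem ZZ_eq (L : ℕ) (e : (Col L ⊕ Fin 3) ≃ (Nd L × Fin 3)) :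
    (ZZ L e).map (Int.castRingHom ℚ) = (TT L).map (Int.castRingHom ℚ) * PP L e := by
  classical
  ext r c
  rw [Matrix.mul_apply]
  simp only [Matrix.map_apply, eq_intCast]
  rcases c with c | k
  · rcases c with i | i
    · rw [sum_T L r (lin ((r.1 : ℤ) : ℚ) ^ (i : ℕ)) (fun r' => PP L e r' (Sum.inl (Sum.inl i)))
        (fun j => rfl)]
      show (((DN r.1 * (Polynomial.X + Polynomial.C (r.1 : ℤ)) ^ (i : ℕ)).coeff (r.2 : ℕ) : ℤ) : ℚ) = _
      rw [← toPS_lin, ← toPS_mul, toPS_coeff]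
    · rw [sum_T L r (-(FF r.1 * lin ((r.1 : ℤ) : ℚ) ^ (i : ℕ)))
        (fun r' => PP L e r' (Sum.inl (Sum.inr i))) (fun j => by
          rw [map_neg]; rfl)]
      show ((-(NN r.1 * (Polynomial.X + Polynomial.C (r.1 : ℤ)) ^ (i : ℕ)).coeff (r.2 : ℕ) : ℤ) : ℚ) = _
      have h1 : toPS (DN r.1) * -(FF r.1 * lin ((r.1 : ℤ) : ℚ) ^ (i : ℕ)) =
          -toPS (NN r.1 * (Polynomial.X + Polynomial.C (r.1 : ℤ)) ^ (i : ℕ)) := by
        rw [toPS_mul, toPS_lin, ← FF_DN]
        ring
      rw [h1, map_neg, toPS_coeff]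
      push_cast
      rfl
  · rw [Finset.sum_eq_single (e (Sum.inr k))]
    · show ((TT L r (e (Sum.inr k)) : ℤ) : ℚ) = _ * (if e (Sum.inr k) = e (Sum.inr k) then (1 : ℚ) else 0)
      rw [if_pos rfl, mul_one]
    · intro r' _ hr'
      show _ * (if e (Sum.inr k) = r' then (1 : ℚ) else 0) = 0
      rw [if_neg (fun h => hr' h.symm), mul_zero]
    · intro h
      exact absurd (Finset.mem_univ _) h

private theorem det_ZZ (L : ℕ) (ρ : Col L → ℤ × Fin 3) (e : (Col L ⊕ Fin 3) ≃ (Nd L × Fin 3))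
    (he : ∀ c : Col L, (((e (Sum.inl c)).1 : ℤ), (e (Sum.inl c)).2) = ρ c) :
    DD L ρ * ((∏ t ∈ Icc (-(L : ℤ)) L, (DN t).coeff 0 ^ 3 : ℤ) : ℚ) =
      (((ZZ L e).submatrix e id).det : ℤ) := by
  classical
  have h1 : (((ZZ L e).submatrix e id).det : ℚ) =
      (((ZZ L e).submatrix e id).map (Int.castRingHom ℚ)).det := by
    rw [← RingHom.mapMatrix_apply, ← RingHom.map_det]
    rfl
  have h2 : ((ZZ L e).submatrix e id).map (Int.castRingHom ℚ) =
      ((TT L).map (Int.castRingHom ℚ)).submatrix e e * (PP L e).submatrix e id := by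
    have h3 : ((ZZ L e).submatrix e id).map (Int.castRingHom ℚ) =
        ((ZZ L e).map (Int.castRingHom ℚ)).submatrix e id := rfl
    rw [h3, ZZ_eq, Matrix.submatrix_mul_equiv]
  have h4 : (((TT L).map (Int.castRingHom ℚ)).submatrix e e).det =
      ((∏ t ∈ Icc (-(L : ℤ)) L, (DN t).coeff 0 ^ 3 : ℤ) : ℚ) := by
    rw [Matrix.det_submatrix_equiv_self, ← det_TT, ← RingHom.mapMatrix_apply, ← RingHom.map_det]
    rfl
  rw [h1, h2, Matrix.det_mul, h4, det_PP L ρ e he, mul_comm]

section ker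

open Polynomial

variable (p : ℕ) [Fact p.Prime] (L : ℕ)

/-- the kernel vector of `g` -/
private noncomputable def vec : (ZMod p)[X] →ₗ[ZMod p] ((Col L ⊕ Fin 3) → ZMod p) where
  toFun g := fun c => match c with
    | Sum.inl (Sum.inl i) => (AA p * g).coeff i
    | Sum.inl (Sum.inr i) => (BB p * g).coeff i
    | Sum.inr _ => 0
  map_add' g h := by
    funext c
    rcases c with (i | i) | k
    · show (AA p * (g + h)).coeff i = (AA p * g).coeff i + (AA p * h).coeff i
      rw [mul_add, coeff_add]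
    · show (BB p * (g + h)).coeff i = (BB p * g).coeff i + (BB p * h).coeff i
      rw [mul_add, coeff_add]
    · show (0 : ZMod p) = 0 + 0
      rw [add_zero]
  map_smul' a g := by
    funext c
    rcases c with (i | i) | k
    · show (AA p * (a • g)).coeff i = a * (AA p * g).coeff i
      rw [mul_smul_comm, coeff_smul, smul_eq_mul]
    · show (BB p * (a • g)).coeff i = a * (BB p * g).coeff i
      rw [mul_smul_comm, coeff_smul, smul_eq_mul]
    · show (0 : ZMod p) = a * 0
      rw [mul_zero]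

/-- the sum of the coefficients times the powers is the composition -/
private theorem sum_comp (D : ℤ[X]) (t : ℤ) (Q : (ZMod p)[X]) (hQ : Q.natDegree < 3 * L) (j : ℕ) :
    ∑ i : Fin (3 * L), (((D * (X + C t) ^ (i : ℕ)).coeff j : ℤ) : ZMod p) * Q.coeff i =
      (D.map (Int.castRingHom (ZMod p)) * Q.comp (X + C (t : ZMod p))).coeff j := by
  have h1 : ∀ i : ℕ, (((D * (X + C t) ^ i).coeff j : ℤ) : ZMod p) =
      (D.map (Int.castRingHom (ZMod p)) * (X + C (t : ZMod p)) ^ i).coeff j := by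
    intro i
    have h2 : (((D * (X + C t) ^ i).coeff j : ℤ) : ZMod p) =
        ((D * (X + C t) ^ i).map (Int.castRingHom (ZMod p))).coeff j := by
      rw [coeff_map]; rfl
    rw [h2, Polynomial.map_mul, Polynomial.map_pow, Polynomial.map_add, map_X, map_C]
    rfl
  simp_rw [h1]
  have h3 : Q.comp (X + C (t : ZMod p)) = ∑ i : Fin (3 * L), C (Q.coeff i) * (X + C (t : ZMod p)) ^ (i : ℕ) := by
    rw [Fin.sum_univ_eq_sum_range (fun i => C (Q.coeff i) * (X + C (t : ZMod p)) ^ i) (3 * L)]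
    conv_lhs => rw [Q.as_sum_range' (3 * L) hQ]
    rw [← Polynomial.coe_compRingHom_apply, map_sum]
    refine Finset.sum_congr rfl fun i _ => ?_
    rw [Polynomial.coe_compRingHom_apply, monomial_comp]
  rw [h3, Finset.mul_sum, finsetSum_coeff]
  refine Finset.sum_congr rfl fun i _ => ?_
  rw [mul_left_comm, coeff_C_mul, mul_comm]

private theorem vec_ker (hp : 5 ≤ p) (hW : Wie p) (e : (Col L ⊕ Fin 3) ≃ (Nd L × Fin 3))
    (g : (ZMod p)[X]) (hg : (AA p * g).natDegree < 3 * L) (hg' : (BB p * g).natDegree < 3 * L) :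
    (((ZZ L e).submatrix e id).map (Int.castRingHom (ZMod p))).mulVec (vec p L g) = 0 := by
  funext a
  show ∑ c : Col L ⊕ Fin 3, (((ZZ L e).submatrix e id).map (Int.castRingHom (ZMod p))) a c *
    vec p L g c = 0
  rw [Fintype.sum_sum_type, Fintype.sum_sum_type]
  obtain ⟨r, hr'⟩ : ∃ r, r = e a := ⟨_, rfl⟩
  obtain ⟨⟨t, ht⟩, j⟩ := r
  have hr := hr'.symm
  have e1 : ∑ i : Fin (3 * L), (((ZZ L e).submatrix e id).map (Int.castRingHom (ZMod p))) a
      (Sum.inl (Sum.inl i)) * vec p L g (Sum.inl (Sum.inl i)) =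
      ((DN t).map (Int.castRingHom (ZMod p)) * (AA p * g).comp (X + C (t : ZMod p))).coeff j := by
    rw [← sum_comp p L (DN t) t (AA p * g) hg j]
    refine Finset.sum_congr rfl fun i _ => ?_
    show ((entI L (((e a).1 : ℤ), (e a).2) (Sum.inl i) : ℤ) : ZMod p) * (AA p * g).coeff i = _
    rw [hr]
    rfl
  have e2 : ∑ i : Fin (3 * L), (((ZZ L e).submatrix e id).map (Int.castRingHom (ZMod p))) a
      (Sum.inl (Sum.inr i)) * vec p L g (Sum.inl (Sum.inr i)) =
      -((NN t).map (Int.castRingHom (ZMod p)) * (BB p * g).comp (X + C (t : ZMod p))).coeff j := by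
    rw [← sum_comp p L (NN t) t (BB p * g) hg' j, ← Finset.sum_neg_distrib]
    refine Finset.sum_congr rfl fun i _ => ?_
    show ((entI L (((e a).1 : ℤ), (e a).2) (Sum.inr i) : ℤ) : ZMod p) * (BB p * g).coeff i = _
    rw [hr]
    show ((-(NN t * (X + C t) ^ (i : ℕ)).coeff (j : ℕ) : ℤ) : ZMod p) * (BB p * g).coeff i = _
    push_cast
    ring
  have e3 : ∑ k : Fin 3, (((ZZ L e).submatrix e id).map (Int.castRingHom (ZMod p))) a
      (Sum.inr k) * vec p L g (Sum.inr k) = 0 := by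
    refine Finset.sum_eq_zero fun k _ => ?_
    show _ * (0 : ZMod p) = 0
    rw [mul_zero]
  rw [e1, e2, e3, add_zero, ← sub_eq_add_neg, ← coeff_sub]
  have h4 : (DN t).map (Int.castRingHom (ZMod p)) * (AA p * g).comp (X + C (t : ZMod p)) -
      (NN t).map (Int.castRingHom (ZMod p)) * (BB p * g).comp (X + C (t : ZMod p)) =
      ((DN t).map (Int.castRingHom (ZMod p)) * (AA p).comp (X + C (t : ZMod p)) -
      (NN t).map (Int.castRingHom (ZMod p)) * (BB p).comp (X + C (t : ZMod p))) *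
        g.comp (X + C (t : ZMod p)) := by
    rw [mul_comp, mul_comp]
    ring
  rw [h4]
  have h5 : (X : (ZMod p)[X]) ^ 3 ∣ ((DN t).map (Int.castRingHom (ZMod p)) * (AA p).comp (X + C (t : ZMod p)) -
      (NN t).map (Int.castRingHom (ZMod p)) * (BB p).comp (X + C (t : ZMod p))) *
        g.comp (X + C (t : ZMod p)) := (ker_id p hp hW t).mul_right _
  exact (X_pow_dvd_iff.1 h5) _ j.2

private theorem vec_inj (hp : 5 ≤ p) (g : (ZMod p)[X]) (hg : (AA p * g).natDegree < 3 * L)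
    (h : vec p L g = 0) : g = 0 := by
  have hA : AA p ≠ 0 := by
    intro h0
    have := (AB_deg p hp).2.2.1
    rw [h0] at this
    exact this (coeff_zero 0)
  have h1 : AA p * g = 0 := by
    ext i
    rw [coeff_zero]
    rcases lt_or_ge i (3 * L) with hi | hi
    · have := congrFun h (Sum.inl (Sum.inl ⟨i, hi⟩))
      exact this
    · exact coeff_eq_zero_of_natDegree_lt (lt_of_lt_of_le hg hi)
  exact (mul_eq_zero.1 h1).resolve_left hA

end ker

theorem int_mult (L : ℕ) (hL : 1 ≤ L) (ρ : Col L → ℤ × Fin 3) (hρ : Rows L ρ) :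
    ∃ z : ℤ, DD L ρ * ((∏ t ∈ Icc (-(L : ℤ)) L, (DN t).coeff 0 ^ 3 : ℤ) : ℚ) = z ∧
      ∀ p : ℕ, p.Prime → 5 ≤ p → Wie p → (p : ℤ) ^ (3 * L - dd p) ∣ z := by
  classical
  obtain ⟨e, he⟩ := exists_e L ρ hρ
  refine ⟨((ZZ L e).submatrix e id).det, det_ZZ L ρ e he, fun p hp h5 hW => ?_⟩
  have : Fact p.Prime := ⟨hp⟩
  obtain ⟨dA, dB, cA, cB⟩ := AB_deg p h5
  have hA0 : AA p ≠ 0 := by rintro h0; rw [h0] at cA; exact cA (Polynomial.coeff_zero 0)
  have hdeg : ∀ g ∈ Polynomial.degreeLT (ZMod p) (3 * L - dd p),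
      (AA p * g).natDegree < 3 * L ∧ (BB p * g).natDegree < 3 * L := by
    intro g hg
    by_cases hg0 : g = 0
    · subst hg0
      simp only [mul_zero, Polynomial.natDegree_zero]
      omega
    · rw [Polynomial.mem_degreeLT, ← Polynomial.natDegree_lt_iff_degree_lt hg0] at hg
      have h1 := Polynomial.natDegree_mul_le (p := AA p) (q := g)
      have h2 := Polynomial.natDegree_mul_le (p := BB p) (q := g)
      omega
  let V : Submodule (ZMod p) ((Col L ⊕ Fin 3) → ZMod p) :=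
    (Polynomial.degreeLT (ZMod p) (3 * L - dd p)).map (vec p L)
  refine det_pow p _ V ?_ (3 * L - dd p) ?_
  · rintro v ⟨g, hg, rfl⟩
    exact vec_ker p L h5 hW e g (hdeg g hg).1 (hdeg g hg).2
  · have hinj : Function.Injective ((vec p L).domRestrict (Polynomial.degreeLT (ZMod p) (3 * L - dd p))) := by
      rw [← LinearMap.ker_eq_bot, LinearMap.ker_eq_bot']
      rintro ⟨g, hg⟩ h
      have := vec_inj p L h5 g (hdeg g hg).1 h
      exact Subtype.ext this
    have h1 := LinearMap.finrank_range_of_inj hinj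
    have h2 : LinearMap.range ((vec p L).domRestrict (Polynomial.degreeLT (ZMod p) (3 * L - dd p))) = V := by
      rw [LinearMap.range_domRestrict]
    rw [h2] at h1
    rw [h1]
    have h3 := (Polynomial.degreeLTEquiv (ZMod p) (3 * L - dd p)).finrank_eq
    rw [h3, Module.finrank_fin_fun]

end Pool.Agent.H80.HF

end

section

/-!
# HF BadB: valuation of the minors at the primes `q > 2L`

PROOF. `int_mult` and `valD`.
-/

set_option autoImplicit false

namespace Pool.Agent.H80.HF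

theorem DN_prod_ne (L : ℕ) : (∏ t ∈ Finset.Icc (-(L : ℤ)) L, (DN t).coeff 0) ≠ 0 :=
  Finset.prod_ne_zero_iff.2 fun t _ => DN_coeff_ne t

theorem DN_prod_norm (q : ℕ) [hq : Fact q.Prime] (L : ℕ) (hL : 1 ≤ L) (h : 2 * L < q) :
    padicNorm q ((∏ t ∈ Finset.Icc (-(L : ℤ)) L, (DN t).coeff 0 ^ 3 : ℤ) : ℚ) =
      (q : ℚ) ^ (-((3 * (L - q / 3) : ℕ) : ℤ)) := by
  have h0 := DN_prod_ne L
  rw [Finset.prod_pow]
  have h1 : (((∏ t ∈ Finset.Icc (-(L : ℤ)) L, (DN t).coeff 0) ^ 3 : ℤ) : ℚ) ≠ 0 := by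
    exact_mod_cast pow_ne_zero 3 h0
  rw [padicNorm.eq_zpow_of_nonzero h1, padicValRat.of_int]
  have h2 : padicValInt q ((∏ t ∈ Finset.Icc (-(L : ℤ)) L, (DN t).coeff 0) ^ 3) = 3 * (L - q / 3) := by
    rw [← valD q hq.out L hL h]
    rw [pow_succ, pow_two, padicValInt.mul (mul_ne_zero h0 h0) h0, padicValInt.mul h0 h0]
    ring
  rw [h2]

theorem DD_bound_aux (q : ℕ) [hq : Fact q.Prime] (L : ℕ) (hL : 1 ≤ L) (h : 2 * L < q)
    (ρ : Col L → ℤ × Fin 3) (z : ℤ)
    (hz : DD L ρ * ((∏ t ∈ Finset.Icc (-(L : ℤ)) L, (DN t).coeff 0 ^ 3 : ℤ) : ℚ) = z) (k : ℕ)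
    (hk : (q : ℤ) ^ k ∣ z) :
    padicNorm q (DD L ρ) ≤ (q : ℚ) ^ (((3 * (L - q / 3) : ℕ) : ℤ) - (k : ℤ)) := by
  have hq0 : (q : ℚ) ≠ 0 := by exact_mod_cast hq.out.ne_zero
  have h1 : padicNorm q (DD L ρ) * (q : ℚ) ^ (-((3 * (L - q / 3) : ℕ) : ℤ)) = padicNorm q (z : ℚ) := by
    rw [← DN_prod_norm q L hL h, ← padicNorm.mul, hz]
  have h2 : padicNorm q (z : ℚ) ≤ (q : ℚ) ^ (-(k : ℤ)) := by
    apply (padicNorm.dvd_iff_norm_le).1
    exact_mod_cast hk
  have h3 : padicNorm q (DD L ρ) = padicNorm q (z : ℚ) * (q : ℚ) ^ (((3 * (L - q / 3) : ℕ) : ℤ)) := by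
    rw [← h1, mul_assoc, ← zpow_add₀ hq0]
    simp
  rw [h3, sub_eq_add_neg, zpow_add₀ hq0, mul_comm]
  exact mul_le_mul_of_nonneg_left h2 (by positivity)

theorem big_bound (q : ℕ) [Fact q.Prime] (L : ℕ) (hL : 1 ≤ L) (h : 2 * L < q)
    (ρ : Col L → ℤ × Fin 3) (hρ : Rows L ρ) :
    padicNorm q (DD L ρ) ≤ (q : ℚ) ^ ((3 * (L - q / 3) : ℕ) : ℤ) := by
  obtain ⟨z, hz, _⟩ := int_mult L hL ρ hρ
  have h1 := DD_bound_aux q L hL h ρ z hz 0 (by simp)
  simpa using h1

theorem bad_bound (p : ℕ) [Fact p.Prime] (h5 : 5 ≤ p) (L : ℕ) (hL : 1 ≤ L) (h : 2 * L < p) (hW : Wie p)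
    (ρ : Col L → ℤ × Fin 3) (hρ : Rows L ρ) :
    padicNorm p (DD L ρ) ≤ (p : ℚ) ^ (((3 * (L - p / 3) : ℕ) : ℤ) - ((3 * L - dd p : ℕ) : ℤ)) := by
  obtain ⟨z, hz, hz2⟩ := int_mult L hL ρ hρ
  exact DD_bound_aux p L hL h ρ z hz (3 * L - dd p) (hz2 p Fact.out h5 hW)

end Pool.Agent.H80.HF

end
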