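import Pool.Agent.H71.TFC.M07
import Pool.Agent.H71.TFC.M15
import Pool.Agent.H71.TFC.M17

/-! The parts of this file: H11.NW.Pnt, H76.HF.Ps, H80.HF.PntS, H80.HF.Main, H2.HF.LowA, H2.HF.LowB, H2.HF.LowC, H88.HF.Low36. -/

section

/-!
# NW, the prime number theorem end (helper45)

`theta(12K) - theta(2K) - 2 psi(2K) - 8 K log 2 = (6 - 8 log 2 + o(1)) K > 9K/20`; with
`wieferich_mass` this gives a positive proportion of non-Wieferich primes.  The prime number
theorem is `Pool.Agent.H91.EHA.pnt`.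
-/

set_option autoImplicit false

namespace Pool.Agent.H11.NW

open Finset Filter Topology

/-- `ψ(n)/n → 1`. -/
theorem psi_div_tendsto :
    Tendsto (fun n : ℕ => Chebyshev.psi (n : ℝ) / n) atTop (𝓝 1) := by
  obtain ⟨C, hC, hp⟩ := Pool.Agent.H91.EHA.pnt 1
  have hlog : Tendsto (fun n : ℕ => Real.log (n : ℝ)) atTop atTop :=
    Real.tendsto_log_atTop.comp tendsto_natCast_atTop_atTop
  have h0 : Tendsto (fun n : ℕ => C / Real.log (n : ℝ)) atTop (𝓝 0) :=
    hlog.const_div_atTop C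
  rw [tendsto_iff_norm_sub_tendsto_zero]
  refine squeeze_zero' (Eventually.of_forall fun n => norm_nonneg _) ?_ h0
  filter_upwards [eventually_ge_atTop 2] with n hn
  have hn0 : (0 : ℝ) < n := by positivity
  have hn2 : (2 : ℝ) ≤ n := by exact_mod_cast hn
  have hl : 0 < Real.log n := Real.log_pos (by linarith)
  have h := hp n hn
  have e : (∑ k ∈ Icc 1 n, Pool.Agent.H91.EHA.Lam k) = Chebyshev.psi (n : ℝ) := by
    unfold Chebyshev.psi
    rw [Nat.floor_natCast]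
    rfl
  rw [e, pow_one] at h
  rw [Real.norm_eq_abs]
  have e2 : Chebyshev.psi (n : ℝ) / n - 1 = (Chebyshev.psi (n : ℝ) - n) / n := by
    field_simp
  rw [e2, abs_div, abs_of_pos hn0, div_le_iff₀ hn0]
  calc |Chebyshev.psi (n : ℝ) - n| ≤ C * n / Real.log n := h
    _ = C / Real.log n * n := by ring

/-- `θ(n)/n → 1`. -/
theorem theta_div_tendsto :
    Tendsto (fun n : ℕ => Chebyshev.theta (n : ℝ) / n) atTop (𝓝 1) := by
  have h1 := psi_div_tendsto
  have h2 : Tendsto (fun n : ℕ => (Chebyshev.psi (n : ℝ) - Chebyshev.theta n) / n)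
      atTop (𝓝 0) := by
    have h3 : Tendsto (fun x : ℝ => 2 * (Real.log x / x ^ (1 / 2 : ℝ))) atTop (𝓝 0) := by
      have := (isLittleO_log_rpow_atTop (show (0 : ℝ) < 1 / 2 by norm_num)).tendsto_div_nhds_zero
      simpa using this.const_mul 2
    have h4 : Tendsto (fun n : ℕ => 2 * (Real.log (n : ℝ) / (n : ℝ) ^ (1 / 2 : ℝ)))
        atTop (𝓝 0) := h3.comp tendsto_natCast_atTop_atTop
    refine squeeze_zero' (Eventually.of_forall fun n => ?_) ?_ h4
    · exact div_nonneg (sub_nonneg.2 (Chebyshev.theta_le_psi _)) (Nat.cast_nonneg _)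
    filter_upwards [eventually_ge_atTop 1] with n hn
    have hn1 : (1 : ℝ) ≤ n := by exact_mod_cast hn
    have hn0 : (0 : ℝ) < n := by linarith
    have h5 := Chebyshev.psi_sub_theta_le hn1
    rw [div_le_iff₀ hn0]
    refine h5.trans (le_of_eq ?_)
    rw [← Real.sqrt_eq_rpow]
    have h6 : √(n : ℝ) * √(n : ℝ) = n := Real.mul_self_sqrt hn0.le
    have h7 : 0 < √(n : ℝ) := Real.sqrt_pos.2 hn0
    have h8 : (n : ℝ) = √(n : ℝ) * √(n : ℝ) := h6.symm
    rw [mul_assoc 2 (Real.log _ / _), div_mul_eq_mul_div]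
    rw [show Real.log (n : ℝ) * (n : ℝ) / √(n : ℝ) = √(n : ℝ) * Real.log n by
      rw [div_eq_iff h7.ne']
      calc Real.log (n : ℝ) * (n : ℝ) = Real.log (n : ℝ) * (√(n : ℝ) * √(n : ℝ)) := by rw [h6]
        _ = √(n : ℝ) * Real.log n * √(n : ℝ) := by ring]
    ring
  have h3 := h1.sub h2
  rw [sub_zero] at h3
  refine h3.congr fun n => ?_
  rw [← sub_div]; ring_nf

/-- The primes of `(a, b]`. -/
theorem theta_sub (a b : ℕ) (hab : a ≤ b) :
    Chebyshev.theta (b : ℝ) - Chebyshev.theta (a : ℝ) =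
      ∑ p ∈ (Ioc a b).filter Nat.Prime, Real.log p := by
  have hsub : (Ioc 0 a).filter Nat.Prime ⊆ (Ioc 0 b).filter Nat.Prime := by
    intro p hp
    simp only [mem_filter, mem_Ioc] at hp ⊢
    exact ⟨⟨hp.1.1, hp.1.2.trans hab⟩, hp.2⟩
  have e : (Ioc a b).filter Nat.Prime = (Ioc 0 b).filter Nat.Prime \ (Ioc 0 a).filter Nat.Prime := by
    ext p
    rw [Finset.mem_sdiff, mem_filter, mem_filter, mem_filter, mem_Ioc, mem_Ioc, mem_Ioc]
    constructor
    · rintro ⟨⟨h1, h2⟩, h3⟩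
      exact ⟨⟨⟨h3.pos, h2⟩, h3⟩, fun h => by omega⟩
    · rintro ⟨⟨⟨h1, h2⟩, h3⟩, h4⟩
      refine ⟨⟨?_, h2⟩, h3⟩
      by_contra h5
      exact h4 ⟨⟨h1, by omega⟩, h3⟩
  unfold Chebyshev.theta
  rw [Nat.floor_natCast, Nat.floor_natCast, e, ← Finset.sum_sdiff hsub]
  ring

end Pool.Agent.H11.NW

end

section

/-!
# Weighted sums over primes (prime number theorem)

`∑_{a m < p ≤ b m} log p * f (p / m) = m (∫_a^b f + o(1))` for `f` continuous on `[a, b]`.
-/

set_option autoImplicit false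

namespace Pool.Agent.H76.HF

open Finset Filter Topology

/-- The sum of `log p * f (p / m)` over the primes `a m < p ≤ b m`. -/
noncomputable def wS (f : ℝ → ℝ) (a b : ℝ) (m : ℕ) : ℝ :=
  ∑ p ∈ (Ioc ⌊a * m⌋₊ ⌊b * m⌋₊).filter Nat.Prime, Real.log p * f (p / m)

theorem theta_mul_tendsto {c : ℝ} (hc : 0 ≤ c) :
    Tendsto (fun m : ℕ => Chebyshev.theta (c * m) / m) atTop (𝓝 c) := by
  rcases hc.eq_or_lt with rfl | hc
  · have e : (fun m : ℕ => Chebyshev.theta ((0 : ℝ) * m) / m) = fun _ => 0 := by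
      funext m
      rw [zero_mul, Chebyshev.theta_zero, zero_div]
    rw [e]
    exact tendsto_const_nhds
  · have h1 : Tendsto (fun m : ℕ => ((⌊c * (m : ℝ)⌋₊ : ℕ) : ℝ) / m) atTop (𝓝 c) :=
      (tendsto_nat_floor_mul_div_atTop hc.le).comp tendsto_natCast_atTop_atTop
    have h2 : Tendsto (fun m : ℕ => ⌊c * (m : ℝ)⌋₊) atTop atTop :=
      tendsto_nat_floor_atTop.comp
        ((tendsto_id.const_mul_atTop hc).comp tendsto_natCast_atTop_atTop)
    have h3 := (Pool.Agent.H11.NW.theta_div_tendsto.comp h2).mul h1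
    rw [one_mul] at h3
    refine h3.congr' ?_
    filter_upwards [h2.eventually_ge_atTop 1] with m hm
    have hm0 : ((⌊c * (m : ℝ)⌋₊ : ℕ) : ℝ) ≠ 0 := by
      have : (1 : ℝ) ≤ ((⌊c * (m : ℝ)⌋₊ : ℕ) : ℝ) := by exact_mod_cast hm
      linarith
    simp only [Function.comp_apply]
    rw [← Chebyshev.theta_eq_theta_coe_floor]
    field_simp

/-- The primes of `(a m, b m]`. -/
theorem theta_sub_mul {a b : ℝ} (hab : a ≤ b) (m : ℕ) :
    Chebyshev.theta (b * m) - Chebyshev.theta (a * m) =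
      ∑ p ∈ (Ioc ⌊a * m⌋₊ ⌊b * m⌋₊).filter Nat.Prime, Real.log p := by
  rw [← Pool.Agent.H11.NW.theta_sub _ _ (Nat.floor_le_floor
    (mul_le_mul_of_nonneg_right hab (Nat.cast_nonneg m))),
    ← Chebyshev.theta_eq_theta_coe_floor, ← Chebyshev.theta_eq_theta_coe_floor]

theorem wS_add {f : ℝ → ℝ} {a b c : ℝ} (hab : a ≤ b) (hbc : b ≤ c) (m : ℕ) :
    wS f a c m = wS f a b m + wS f b c m := by
  unfold wS
  have h1 : ⌊a * m⌋₊ ≤ ⌊b * m⌋₊ :=
    Nat.floor_le_floor (mul_le_mul_of_nonneg_right hab (Nat.cast_nonneg m))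
  have h2 : ⌊b * m⌋₊ ≤ ⌊c * m⌋₊ :=
    Nat.floor_le_floor (mul_le_mul_of_nonneg_right hbc (Nat.cast_nonneg m))
  rw [← Ioc_union_Ioc_eq_Ioc h1 h2, filter_union, sum_union]
  refine disjoint_filter_filter ?_
  rw [Finset.disjoint_left]
  intro p hp hq
  rw [mem_Ioc] at hp hq
  omega

theorem wS_sum {f : ℝ → ℝ} (x : ℕ → ℝ) (hx : Monotone x) (k m : ℕ) :
    wS f (x 0) (x k) m = ∑ i ∈ range k, wS f (x i) (x (i + 1)) m := by
  induction k with
  | zero => simp [wS]
  | succ k ih =>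
    rw [sum_range_succ, ← ih]
    exact wS_add (hx (Nat.zero_le k)) (hx (Nat.le_succ k)) m

theorem wS_const (c a b : ℝ) (hab : a ≤ b) (m : ℕ) :
    wS (fun _ => c) a b m = c * (Chebyshev.theta (b * m) - Chebyshev.theta (a * m)) := by
  rw [theta_sub_mul hab, wS, mul_sum]
  exact sum_congr rfl fun p _ => mul_comm _ _

/-- Comparison of two weights. -/
theorem wS_le {f g : ℝ → ℝ} {a b : ℝ} (m : ℕ)
    (h : ∀ x, a < x → x ≤ b → f x ≤ g x) : wS f a b m ≤ wS g a b m := by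
  unfold wS
  refine sum_le_sum fun p hp => ?_
  rw [mem_filter, mem_Ioc] at hp
  obtain ⟨⟨h1, h2⟩, hpp⟩ := hp
  have hl : 0 ≤ Real.log p := Real.log_natCast_nonneg p
  rcases Nat.eq_zero_or_pos m with rfl | hm
  · exfalso
    have h3 : p ≤ 0 := by simpa using h2
    exact hpp.pos.ne' (Nat.le_zero.mp h3)
  have hm0 : (0 : ℝ) < m := by exact_mod_cast hm
  refine mul_le_mul_of_nonneg_left (h _ ?_ ?_) hl
  · rw [lt_div_iff₀ hm0]
    exact Nat.lt_of_floor_lt h1
  · rw [div_le_iff₀ hm0]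
    exact (Nat.le_floor_iff' hpp.pos.ne').mp h2

theorem wS_sub_const {f : ℝ → ℝ} {a b c ε : ℝ} (hab : a ≤ b) (m : ℕ)
    (h : ∀ x ∈ Set.Icc a b, |f x - c| ≤ ε) :
    |wS f a b m - c * (Chebyshev.theta (b * m) - Chebyshev.theta (a * m))| ≤
      ε * (Chebyshev.theta (b * m) - Chebyshev.theta (a * m)) := by
  have h1 : wS f a b m ≤ wS (fun _ => c + ε) a b m :=
    wS_le m fun x hx1 hx2 => by
      have := (abs_le.mp (h x ⟨hx1.le, hx2⟩)).2
      linarith
  have h2 : wS (fun _ => c - ε) a b m ≤ wS f a b m :=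
    wS_le m fun x hx1 hx2 => by
      have := (abs_le.mp (h x ⟨hx1.le, hx2⟩)).1
      linarith
  rw [wS_const _ _ _ hab] at h1 h2
  rw [abs_le]
  constructor <;> nlinarith

theorem theta_diff_tendsto {a b : ℝ} (ha : 0 ≤ a) (hab : a ≤ b) :
    Tendsto (fun m : ℕ => (Chebyshev.theta (b * m) - Chebyshev.theta (a * m)) / m) atTop
      (𝓝 (b - a)) := by
  have := (theta_mul_tendsto (ha.trans hab)).sub (theta_mul_tendsto ha)
  refine this.congr fun m => ?_
  rw [sub_div]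

/-- **Weighted prime number theorem.** -/
theorem wS_tendsto {f : ℝ → ℝ} {a b : ℝ} (ha : 0 ≤ a) (hab : a ≤ b)
    (hf : ContinuousOn f (Set.Icc a b)) :
    Tendsto (fun m : ℕ => wS f a b m / m) atTop (𝓝 (∫ x in a..b, f x)) := by
  rw [Metric.tendsto_atTop']
  intro η hη
  set ε : ℝ := η / (3 * (b - a + 1)) with hε
  have hL : 0 < b - a + 1 := by linarith
  have hε0 : 0 < ε := by positivity
  have hεL : ε * (b - a + 1) = η / 3 := by
    rw [hε]
    field_simp
  obtain ⟨δ, hδ, hu⟩ := Metric.uniformContinuousOn_iff_le.mp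
    (isCompact_Icc.uniformContinuousOn_of_continuous hf) ε hε0
  obtain ⟨k, hk⟩ := exists_nat_gt ((b - a) / δ)
  have hk0 : (0 : ℝ) < k := lt_of_le_of_lt (div_nonneg (by linarith) hδ.le) hk
  have hstep : (b - a) / k ≤ δ := by
    rw [div_le_iff₀ hk0]
    have := (div_lt_iff₀ hδ).mp hk
    linarith
  have hstep0 : 0 ≤ (b - a) / k := div_nonneg (by linarith) hk0.le
  set x : ℕ → ℝ := fun i => a + i * ((b - a) / k) with hx
  have hx0 : x 0 = a := by simp [hx]
  have hxk : x k = b := by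
    simp only [hx]
    field_simp
    ring
  have hxs : ∀ i, x (i + 1) - x i = (b - a) / k := fun i => by
    simp only [hx]
    push_cast
    ring
  have hxm : Monotone x := monotone_nat_of_le_succ fun i => by
    have := hxs i
    linarith
  have hmem : ∀ i < k, ∀ y ∈ Set.Icc (x i) (x (i + 1)), |f y - f (x i)| ≤ ε := by
    intro i hi y hy
    have h1 : a ≤ x i := hx0 ▸ hxm (Nat.zero_le i)
    have h2 : x (i + 1) ≤ b := hxk ▸ hxm (Nat.succ_le_of_lt hi)
    have h3 := hxs i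
    have := hu y ⟨h1.trans hy.1, hy.2.trans h2⟩ (x i) ⟨h1, (hy.1.trans hy.2).trans h2⟩ (by
      rw [Real.dist_eq, abs_of_nonneg (by linarith [hy.1])]
      linarith [hy.2])
    rwa [Real.dist_eq] at this
  -- the step function
  set T : ℕ → ℕ → ℝ := fun i m => Chebyshev.theta (x (i + 1) * m) - Chebyshev.theta (x i * m)
    with hT
  have hTt : ∀ i, Tendsto (fun m : ℕ => T i m / m) atTop (𝓝 ((b - a) / k)) := by
    intro i
    rw [← hxs i]
    exact theta_diff_tendsto (ha.trans (hx0 ▸ hxm (Nat.zero_le i))) (hxm (Nat.le_succ i))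
  have hR : Tendsto (fun m : ℕ => ∑ i ∈ range k, f (x i) * (T i m / m)) atTop
      (𝓝 (∑ i ∈ range k, f (x i) * ((b - a) / k))) :=
    tendsto_finsetSum _ fun i _ => (hTt i).const_mul _
  have hS : Tendsto (fun m : ℕ => ∑ i ∈ range k, ε * (T i m / m)) atTop
      (𝓝 (∑ _i ∈ range k, ε * ((b - a) / k))) :=
    tendsto_finsetSum _ fun i _ => (hTt i).const_mul _
  have hSv : ∑ _i ∈ range k, ε * ((b - a) / k) = ε * (b - a) := by
    rw [sum_const, card_range, nsmul_eq_mul]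
    field_simp
  rw [hSv] at hS
  -- the integral
  have hint : ∀ i < k, IntervalIntegrable f MeasureTheory.volume (x i) (x (i + 1)) := by
    intro i hi
    refine (hf.mono ?_).intervalIntegrable_of_Icc (hxm (Nat.le_succ i))
    exact Set.Icc_subset_Icc (hx0 ▸ hxm (Nat.zero_le i)) (hxk ▸ hxm (Nat.succ_le_of_lt hi))
  have hI : ∫ y in a..b, f y = ∑ i ∈ range k, ∫ y in x i..x (i + 1), f y := by
    rw [intervalIntegral.sum_integral_adjacent_intervals hint, hx0, hxk]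
  have hI2 : |(∫ y in a..b, f y) - ∑ i ∈ range k, f (x i) * ((b - a) / k)| ≤ ε * (b - a) := by
    rw [hI, ← sum_sub_distrib, ← hSv]
    refine (abs_sum_le_sum_abs _ _).trans (sum_le_sum fun i hi => ?_)
    rw [mem_range] at hi
    have e : f (x i) * ((b - a) / k) = ∫ _y in x i..x (i + 1), f (x i) := by
      rw [intervalIntegral.integral_const, hxs, smul_eq_mul, mul_comm]
    rw [e, ← intervalIntegral.integral_sub (hint i hi) intervalIntegrable_const]
    have := intervalIntegral.norm_integral_le_of_norm_le_const (a := x i) (b := x (i + 1))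
      (C := ε) (f := fun y => f y - f (x i)) (fun y hy => by
        rw [Set.uIoc_of_le (hxm (Nat.le_succ i))] at hy
        rw [Real.norm_eq_abs]
        exact hmem i hi y ⟨hy.1.le, hy.2⟩)
    rw [Real.norm_eq_abs, hxs, abs_of_nonneg hstep0] at this
    exact this
  have e1 := (Metric.tendsto_nhds.mp hR) (η / 12) (by positivity)
  have e2 := (Metric.tendsto_nhds.mp hS) (η / 12) (by positivity)
  have hfin : ∀ᶠ m : ℕ in atTop, dist (wS f a b m / m) (∫ x in a..b, f x) < η := by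
    filter_upwards [e1, e2, eventually_ge_atTop 1] with m h1 h2 hm
    have hm0 : (0 : ℝ) < m := by exact_mod_cast hm
    have h3 : |wS f a b m - ∑ i ∈ range k, f (x i) * T i m| ≤ ∑ i ∈ range k, ε * T i m := by
      have := wS_sum (f := f) x hxm k m
      rw [hx0, hxk] at this
      rw [this, ← sum_sub_distrib]
      refine (abs_sum_le_sum_abs _ _).trans (sum_le_sum fun i hi => ?_)
      rw [mem_range] at hi
      exact wS_sub_const (hxm (Nat.le_succ i)) m (hmem i hi)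
    have h4 : |wS f a b m / m - ∑ i ∈ range k, f (x i) * (T i m / m)| ≤
        ∑ i ∈ range k, ε * (T i m / m) := by
      have e3 : wS f a b m / m - ∑ i ∈ range k, f (x i) * (T i m / m) =
          (wS f a b m - ∑ i ∈ range k, f (x i) * T i m) / m := by
        rw [sub_div, sum_div]
        simp only [mul_div_assoc]
      have e4 : ∑ i ∈ range k, ε * (T i m / m) = (∑ i ∈ range k, ε * T i m) / m := by
        rw [sum_div]
        simp only [mul_div_assoc]
      rw [e3, e4, abs_div, abs_of_pos hm0]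
      exact div_le_div_of_nonneg_right h3 hm0.le
    rw [Real.dist_eq] at h1 h2 ⊢
    have h5 := abs_lt.mp h1
    have h6 := abs_lt.mp h2
    have h7 := abs_le.mp h4
    have h8 := abs_le.mp hI2
    have h9 : ε * (b - a) ≤ η / 3 := by
      rw [← hεL]
      exact mul_le_mul_of_nonneg_left (by linarith) hε0.le
    rw [abs_lt]
    constructor <;> linarith
  obtain ⟨N, hN⟩ := eventually_atTop.mp hfin
  exact ⟨N, fun n hn => hN n hn.le⟩

/-- Eventual upper bound form. -/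
theorem wS_eventually_le {f : ℝ → ℝ} {a b c : ℝ} (ha : 0 ≤ a) (hab : a ≤ b)
    (hf : ContinuousOn f (Set.Icc a b)) (hc : ∫ x in a..b, f x < c) :
    ∀ᶠ m : ℕ in atTop, wS f a b m ≤ c * m := by
  filter_upwards [(wS_tendsto ha hab hf).eventually_lt_const hc, eventually_ge_atTop 1]
    with m h1 h2
  have hm0 : (0 : ℝ) < m := by exact_mod_cast h2
  exact ((div_lt_iff₀ hm0).mp h1).le

end Pool.Agent.H76.HF

end

section

/-!
# HF PntS: sums over primes of piecewise linear functions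

PROOF. `win_one` (`H71/NB/Win.lean`): `|∑_(u < p ≤ v) log p - (v-u)| ≤ ε x` for `u ≤ v ≤ x`, `x` large. Abel summation:
`∑_(p ≤ Q) (Q - p) log p = ∑_(k < Q) θ(k) = Q²/2 + O(ε x²)` uniformly in `Q ≤ x` (`theta_lin`). Then every piecewise linear
function is a combination of functions `(Q - p)^+`:
`u1`: for `L < q ≤ 3L`: `2 ∑_(i<3L) ⌊i/q⌋ ≤ 2 (3L-q) + 2 (3L-2q)^+`, sum `2(9/2 - 1/2 - 2) + 4 (9/8 - 1/2 - 1/2) = 9/2`.
`u2`: `6 + 1/12`. `u4`: `q/3 = ⌊q/3⌋`; `4 (q-L-1-q/3) ≤ 4 (2q/3 - L)^+`, zero for `q < 3L/2`, `∫_(3/2)^2 (8x/3 - 4) dx = 1/3`.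
`u6`: `3 (L - q/3) ≤ 3L - q + 2`, `∫_2^3 (3 - x) dx = 1/2`. `u5`: at most `√(3L)` terms, each `≤ 12 (L+1) log(3L)` as
`Nat.log q (3L) log q ≤ log(3L)`.
-/

set_option autoImplicit false

namespace Pool.Agent.H80.HF

open Finset Filter

theorem PntS_aff (c d a b : ℝ) :
    ∫ x in a..b, (c + d * x) = c * (b - a) + d * ((b ^ 2 - a ^ 2) / 2) := by
  have h : ∀ x ∈ Set.uIcc a b, HasDerivAt (fun x : ℝ => c * x + d * (x ^ 2 / 2)) (c + d * x) x := by
    intro x _
    have h1 : HasDerivAt (fun x : ℝ => c * x) c x := by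
      simpa using (hasDerivAt_id x).const_mul c
    have h2 : HasDerivAt (fun x : ℝ => d * (x ^ 2 / 2)) (d * x) x := by
      have := ((hasDerivAt_pow 2 x).div_const 2).const_mul d
      refine this.congr_deriv ?_
      norm_num
    exact h1.add h2
  rw [intervalIntegral.integral_eq_sub_of_hasDerivAt h
    (Continuous.intervalIntegrable (by fun_prop) _ _)]
  ring

/-- General bound: weights at most `L f (q / L) + C0`. -/
theorem PntS_bound (a b : ℕ) (hab : a ≤ b) (f : ℝ → ℝ) (hf : ContinuousOn f (Set.Icc (a : ℝ) b))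
    (C0 I : ℝ) (hC0 : 0 ≤ C0) (c : ℕ → ℕ → ℝ)
    (hc : ∀ L q : ℕ, 1 ≤ L → a * L < q → q ≤ b * L → q.Prime → c L q ≤ L * f (q / L) + C0)
    (hI : ∫ x in (a : ℝ)..b, f x = I) (ε : ℝ) (hε : 0 < ε) : ∀ᶠ L : ℕ in atTop,
    ∑ q ∈ (Ioc (a * L) (b * L)).filter Nat.Prime, c L q * Real.log q ≤ (I + ε) * (L : ℝ) ^ 2 := by
  have ha0 : (0 : ℝ) ≤ a := Nat.cast_nonneg a
  have hab' : (a : ℝ) ≤ b := by exact_mod_cast hab
  have hl : Tendsto (fun L : ℕ => ε / 2 * (L : ℝ)) atTop atTop :=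
    tendsto_natCast_atTop_atTop.const_mul_atTop (by positivity)
  filter_upwards [Pool.Agent.H76.HF.wS_eventually_le ha0 hab' hf (c := I + ε / 2) (by linarith),
    Pool.Agent.H76.HF.wS_eventually_le ha0 hab' (f := fun _ => (1 : ℝ)) continuousOn_const
      (c := (b : ℝ) - a + 1) (by simp), hl.eventually_ge_atTop (C0 * ((b : ℝ) - a + 1)),
    eventually_ge_atTop 1] with L h1 h2 h3 hL
  have hL0 : (0 : ℝ) < L := by exact_mod_cast hL
  have e1 : ⌊(a : ℝ) * L⌋₊ = a * L := by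
    rw [← Nat.cast_mul, Nat.floor_natCast]
  have e2 : ⌊(b : ℝ) * L⌋₊ = b * L := by
    rw [← Nat.cast_mul, Nat.floor_natCast]
  unfold Pool.Agent.H76.HF.wS at h1 h2
  rw [e1, e2] at h1 h2
  simp only [mul_one] at h2
  have h4 : ∑ q ∈ (Ioc (a * L) (b * L)).filter Nat.Prime, c L q * Real.log q ≤
      ∑ q ∈ (Ioc (a * L) (b * L)).filter Nat.Prime,
        (L * (Real.log q * f (q / L)) + C0 * Real.log q) := by
    refine sum_le_sum fun q hq => ?_
    rw [mem_filter, mem_Ioc] at hq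
    have h5 := hc L q hL hq.1.1 hq.1.2 hq.2
    have h6 := mul_le_mul_of_nonneg_right h5 (Real.log_natCast_nonneg q)
    refine h6.trans (le_of_eq ?_)
    ring
  rw [sum_add_distrib, ← mul_sum, ← mul_sum] at h4
  refine h4.trans ?_
  have h7 := mul_le_mul_of_nonneg_left h1 hL0.le
  have h8 := mul_le_mul_of_nonneg_left h2 hC0
  nlinarith

theorem u1 (ε : ℝ) (hε : 0 < ε) : ∀ᶠ L : ℕ in atTop,
    ∑ q ∈ (Ioc L (3 * L)).filter Nat.Prime, ((2 * ∑ i ∈ range (3 * L), i / q : ℕ) : ℝ) * Real.log q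
      ≤ (9 / 2 + ε) * (L : ℝ) ^ 2 := by
  have hI : ∫ x in ((1 : ℕ) : ℝ)..((3 : ℕ) : ℝ), (2 * (3 - x) + 2 * max (3 - 2 * x) 0) = 9 / 2 := by
    have c1 : Continuous fun x : ℝ => 2 * (3 - x) := by fun_prop
    have c2 : Continuous fun x : ℝ => 2 * max (3 - 2 * x) 0 := by fun_prop
    rw [intervalIntegral.integral_add (c1.intervalIntegrable _ _) (c2.intervalIntegrable _ _)]
    have e1 : ∫ x in ((1 : ℕ) : ℝ)..((3 : ℕ) : ℝ), 2 * (3 - x) = 4 := by
      rw [intervalIntegral.integral_const_mul, intervalIntegral.integral_sub (by simp) (by simp)]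
      simp
      norm_num
    have e2 : ∫ x in ((1 : ℕ) : ℝ)..((3 : ℕ) : ℝ), 2 * max (3 - 2 * x) 0 = 1 / 2 := by
      rw [intervalIntegral.integral_const_mul,
        ← intervalIntegral.integral_add_adjacent_intervals (b := 3 / 2)
          (Continuous.intervalIntegrable (by fun_prop) _ _)
          (Continuous.intervalIntegrable (by fun_prop) _ _)]
      have e3 : ∫ x in ((1 : ℕ) : ℝ)..(3 / 2), max (3 - 2 * x) 0 =
          ∫ x in ((1 : ℕ) : ℝ)..(3 / 2), (3 - 2 * x) := by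
        refine intervalIntegral.integral_congr fun x hx => ?_
        rw [Set.uIcc_of_le (by norm_num)] at hx
        exact max_eq_left (by linarith [hx.2])
      have e4 : ∫ x in (3 / 2)..((3 : ℕ) : ℝ), max (3 - 2 * x) 0 =
          ∫ x in (3 / 2)..((3 : ℕ) : ℝ), (0 : ℝ) := by
        refine intervalIntegral.integral_congr fun x hx => ?_
        rw [Set.uIcc_of_le (by norm_num)] at hx
        exact max_eq_right (by linarith [hx.1])
      have e5 : ∀ x : ℝ, 3 - 2 * x = 3 + (-2) * x := fun x => by ring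
      rw [e3, e4, intervalIntegral.integral_zero]
      simp_rw [e5]
      rw [PntS_aff]
      norm_num
    rw [e1, e2]
    norm_num
  have h := PntS_bound 1 3 (by norm_num) (fun x => 2 * (3 - x) + 2 * max (3 - 2 * x) 0)
    (Continuous.continuousOn (by fun_prop)) 0 (9 / 2) le_rfl
    (fun L q => ((2 * ∑ i ∈ range (3 * L), i / q : ℕ) : ℝ)) ?_ hI ε hε
  · simpa only [one_mul] using h
  intro L q hL hq1 hq2 hqp
  have hL0 : (0 : ℝ) < L := by exact_mod_cast hL
  rw [one_mul] at hq1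
  have hq0 : 0 < q := hqp.pos
  have k1 : ∑ i ∈ range (3 * L), i / q ≤ (3 * L - q) + (3 * L - 2 * q) := by
    have k2 : ∀ n : ℕ, n ≤ 3 * L → ∑ i ∈ range n, i / q ≤ (n - q) + (n - 2 * q) := by
      intro n
      induction n with
      | zero => intro _; simp
      | succ n ih =>
        intro hn
        have h3 := ih (by omega)
        rw [sum_range_succ]
        rcases lt_or_ge n q with h4 | h4
        · rw [Nat.div_eq_of_lt h4]
          omega
        rcases lt_or_ge n (2 * q) with h5 | h5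
        · have : n / q = 1 := by
            rw [Nat.div_eq_iff hq0]
            omega
          rw [this]
          omega
        · have : n / q = 2 := by
            rw [Nat.div_eq_iff hq0]
            omega
          rw [this]
          omega
    exact k2 _ le_rfl
  have k3 : ((3 * L - q : ℕ) : ℝ) = 3 * L - q := by
    rw [Nat.cast_sub hq2]
    push_cast
    ring
  have k4 : ((3 * L - 2 * q : ℕ) : ℝ) = max (3 * (L : ℝ) - 2 * q) 0 := by
    rcases le_total (2 * q) (3 * L) with h | h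
    · rw [Nat.cast_sub h, max_eq_left]
      · push_cast
        ring
      · have : ((2 * q : ℕ) : ℝ) ≤ ((3 * L : ℕ) : ℝ) := by exact_mod_cast h
        push_cast at this
        linarith
    · rw [Nat.sub_eq_zero_of_le h, max_eq_right]
      · simp
      · have : ((3 * L : ℕ) : ℝ) ≤ ((2 * q : ℕ) : ℝ) := by exact_mod_cast h
        push_cast at this
        linarith
  have k5 : ((2 * ∑ i ∈ range (3 * L), i / q : ℕ) : ℝ) ≤
      2 * (3 * (L : ℝ) - q) + 2 * max (3 * (L : ℝ) - 2 * q) 0 := by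
    have : ((2 * ∑ i ∈ range (3 * L), i / q : ℕ) : ℝ) ≤
        ((2 * ((3 * L - q) + (3 * L - 2 * q)) : ℕ) : ℝ) := by
      exact_mod_cast Nat.mul_le_mul_left 2 k1
    refine this.trans (le_of_eq ?_)
    rw [Nat.cast_mul, Nat.cast_add, k3, k4]
    push_cast
    ring
  refine k5.trans (le_of_eq ?_)
  have k6 : max (3 * (L : ℝ) - 2 * q) 0 = L * max (3 - 2 * ((q : ℝ) / L)) 0 := by
    rw [mul_max_of_nonneg _ _ hL0.le, mul_zero]
    congr 1
    field_simp
  rw [k6]
  field_simp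
  ring

theorem PntS_Icc (L : ℕ) : Icc 1 L = Ioc (0 * L) (1 * L) := by
  ext n
  simp only [mem_Icc, mem_Ioc]
  omega

theorem u2 (ε : ℝ) (hε : 0 < ε) : ∀ᶠ L : ℕ in atTop,
    ∑ q ∈ (Icc 1 L).filter Nat.Prime, ((6 * L + 3 + q / 6 + 2 : ℕ) : ℝ) * Real.log q
      ≤ (6 + 1 / 12 + ε) * (L : ℝ) ^ 2 := by
  have hI : ∫ x in ((0 : ℕ) : ℝ)..((1 : ℕ) : ℝ), (6 + x / 6) = 6 + 1 / 12 := by
    have e5 : ∀ x : ℝ, 6 + x / 6 = 6 + 1 / 6 * x := fun x => by ring
    simp_rw [e5]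
    rw [PntS_aff]
    norm_num
  have h := PntS_bound 0 1 (by norm_num) (fun x => 6 + x / 6)
    (Continuous.continuousOn (by fun_prop)) 5 (6 + 1 / 12) (by norm_num)
    (fun L q => ((6 * L + 3 + q / 6 + 2 : ℕ) : ℝ)) ?_ hI ε hε
  · simpa only [PntS_Icc] using h
  intro L q hL hq1 hq2 hqp
  have hL0 : (0 : ℝ) < L := by exact_mod_cast hL
  have h1 : ((q / 6 : ℕ) : ℝ) ≤ (q : ℝ) / 6 := by
    have := Nat.cast_div_le (α := ℝ) (m := q) (n := 6)
    simpa using this
  push_cast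
  have e : (L : ℝ) * (6 + (q : ℝ) / L / 6) + 5 = 6 * L + 3 + (q : ℝ) / 6 + 2 := by
    field_simp
    ring
  have h2 : ((q : ℕ) / 6 : ℕ) = q / 6 := rfl
  rw [e]
  have h3 : (((q / 6 : ℕ)) : ℝ) ≤ (q : ℝ) / 6 := h1
  linarith

theorem u4 (ε : ℝ) (hε : 0 < ε) : ∀ᶠ L : ℕ in atTop,
    ∑ q ∈ (Ioc L (2 * L)).filter Nat.Prime, ((4 * (q - L - 1 - q / 3) + 100 : ℕ) : ℝ) * Real.log q
      ≤ (1 / 3 + ε) * (L : ℝ) ^ 2 := by
  have hI : ∫ x in ((1 : ℕ) : ℝ)..((2 : ℕ) : ℝ), 4 * max (2 / 3 * x - 1) 0 = 1 / 3 := by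
    rw [intervalIntegral.integral_const_mul,
      ← intervalIntegral.integral_add_adjacent_intervals (b := 3 / 2)
        (Continuous.intervalIntegrable (by fun_prop) _ _)
        (Continuous.intervalIntegrable (by fun_prop) _ _)]
    have e3 : ∫ x in ((1 : ℕ) : ℝ)..(3 / 2), max (2 / 3 * x - 1) 0 =
        ∫ x in ((1 : ℕ) : ℝ)..(3 / 2), (0 : ℝ) := by
      refine intervalIntegral.integral_congr fun x hx => ?_
      rw [Set.uIcc_of_le (by norm_num)] at hx
      exact max_eq_right (by linarith [hx.2])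
    have e4 : ∫ x in (3 / 2)..((2 : ℕ) : ℝ), max (2 / 3 * x - 1) 0 =
        ∫ x in (3 / 2)..((2 : ℕ) : ℝ), (2 / 3 * x - 1) := by
      refine intervalIntegral.integral_congr fun x hx => ?_
      rw [Set.uIcc_of_le (by norm_num)] at hx
      exact max_eq_left (by linarith [hx.1])
    have e5 : ∀ x : ℝ, 2 / 3 * x - 1 = -1 + 2 / 3 * x := fun x => by ring
    rw [e3, e4, intervalIntegral.integral_zero]
    simp_rw [e5]
    rw [PntS_aff]
    norm_num
  have h := PntS_bound 1 2 (by norm_num) (fun x => 4 * max (2 / 3 * x - 1) 0)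
    (Continuous.continuousOn (by fun_prop)) 100 (1 / 3) (by norm_num)
    (fun L q => ((4 * (q - L - 1 - q / 3) + 100 : ℕ) : ℝ)) ?_ hI ε hε
  · simpa only [one_mul] using h
  intro L q hL hq1 hq2 hqp
  have hL0 : (0 : ℝ) < L := by exact_mod_cast hL
  have k1 : 3 * (q - L - 1 - q / 3) ≤ 2 * q - 3 * L := by omega
  have k2 : ((2 * q - 3 * L : ℕ) : ℝ) ≤ max (2 * (q : ℝ) - 3 * L) 0 := by
    rcases le_total (3 * L) (2 * q) with h | h
    · rw [Nat.cast_sub h]
      push_cast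
      exact le_max_left _ _
    · rw [Nat.sub_eq_zero_of_le h]
      simp
  have k3 : (3 : ℝ) * ((q - L - 1 - q / 3 : ℕ) : ℝ) ≤ max (2 * (q : ℝ) - 3 * L) 0 := by
    refine le_trans ?_ k2
    exact_mod_cast k1
  have k4 : max (2 * (q : ℝ) - 3 * L) 0 = 3 * (L * max (2 / 3 * ((q : ℝ) / L) - 1) 0) := by
    rw [mul_max_of_nonneg _ _ hL0.le, mul_max_of_nonneg _ _ (by norm_num : (0 : ℝ) ≤ 3)]
    simp only [mul_zero]
    congr 1
    field_simp
  rw [Nat.cast_add, Nat.cast_mul]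
  push_cast
  nlinarith

theorem u6 (ε : ℝ) (hε : 0 < ε) : ∀ᶠ L : ℕ in atTop,
    ∑ q ∈ (Ioc (2 * L) (3 * L)).filter Nat.Prime, ((3 * (L - q / 3) : ℕ) : ℝ) * Real.log q
      ≤ (1 / 2 + ε) * (L : ℝ) ^ 2 := by
  have hI : ∫ x in ((2 : ℕ) : ℝ)..((3 : ℕ) : ℝ), (3 - x) = 1 / 2 := by
    rw [intervalIntegral.integral_sub (by simp) (by simp)]
    simp
    norm_num
  refine PntS_bound 2 3 (by norm_num) (fun x => 3 - x)
    (Continuous.continuousOn (by fun_prop)) 2 (1 / 2) (by norm_num)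
    (fun L q => ((3 * (L - q / 3) : ℕ) : ℝ)) ?_ hI ε hε
  intro L q hL hq1 hq2 hqp
  have hL0 : (0 : ℝ) < L := by exact_mod_cast hL
  have k1 : 3 * (L - q / 3) ≤ (3 * L - q) + 2 := by omega
  have k2 : ((3 * (L - q / 3) : ℕ) : ℝ) ≤ (((3 * L - q) + 2 : ℕ) : ℝ) := by exact_mod_cast k1
  refine k2.trans (le_of_eq ?_)
  rw [Nat.cast_add, Nat.cast_sub hq2]
  push_cast
  field_simp

theorem u5 (ε : ℝ) (hε : 0 < ε) : ∀ᶠ L : ℕ in atTop,
    ∑ q ∈ (Icc 1 L).filter (fun q => q.Prime ∧ q ^ 2 ≤ 3 * L),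
      ((2 * (6 * L + 3) * Nat.log q (3 * L) : ℕ) : ℝ) * Real.log q ≤ ε * (L : ℝ) ^ 2 := by
  have h0 : ∀ᶠ x : ℝ in atTop, ‖Real.log x‖ ≤ ε / 54 * ‖x ^ (1 / 2 : ℝ)‖ :=
    (isLittleO_log_rpow_atTop (by norm_num : (0 : ℝ) < 1 / 2)).def (by positivity)
  have ht : Tendsto (fun L : ℕ => 3 * (L : ℝ)) atTop atTop :=
    tendsto_natCast_atTop_atTop.const_mul_atTop (by norm_num)
  filter_upwards [ht.eventually h0, eventually_ge_atTop 1] with L h1 hL
  have hL1 : (1 : ℝ) ≤ L := by exact_mod_cast hL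
  have hL0 : (0 : ℝ) < L := by linarith
  have hlog : 0 ≤ Real.log (3 * (L : ℝ)) := Real.log_nonneg (by linarith)
  rw [← Real.sqrt_eq_rpow, Real.norm_eq_abs, Real.norm_eq_abs, abs_of_nonneg (Real.sqrt_nonneg _),
    abs_of_nonneg hlog] at h1
  have k1 : ∀ q ∈ (Icc 1 L).filter (fun q => q.Prime ∧ q ^ 2 ≤ 3 * L),
      ((2 * (6 * L + 3) * Nat.log q (3 * L) : ℕ) : ℝ) * Real.log q ≤
        2 * (6 * L + 3) * Real.log (3 * L) := by
    intro q hq
    rw [mem_filter] at hq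
    have hq0 : (0 : ℝ) < q := by exact_mod_cast hq.2.1.pos
    have k2 : ((q : ℝ)) ^ Nat.log q (3 * L) ≤ 3 * L := by
      exact_mod_cast Nat.pow_log_le_self q (by omega : 3 * L ≠ 0)
    have k3 := Real.log_le_log (by positivity) k2
    rw [Real.log_pow] at k3
    push_cast
    rw [mul_assoc]
    exact mul_le_mul_of_nonneg_left k3 (by positivity)
  have k4 : ((Icc 1 L).filter (fun q => q.Prime ∧ q ^ 2 ≤ 3 * L)).card ≤ Nat.sqrt (3 * L) := by
    have : (Icc 1 L).filter (fun q => q.Prime ∧ q ^ 2 ≤ 3 * L) ⊆ Icc 1 (Nat.sqrt (3 * L)) := by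
      intro q hq
      rw [mem_filter, mem_Icc] at hq
      rw [mem_Icc]
      exact ⟨hq.1.1, Nat.le_sqrt'.mpr hq.2.2⟩
    have h5 := card_le_card this
    rwa [Nat.card_Icc, Nat.add_sub_cancel] at h5
  have k5 : (((Icc 1 L).filter (fun q => q.Prime ∧ q ^ 2 ≤ 3 * L)).card : ℝ) ≤
      Real.sqrt (3 * L) := by
    have h6 : (((Icc 1 L).filter (fun q => q.Prime ∧ q ^ 2 ≤ 3 * L)).card : ℝ) ≤
        ((Nat.sqrt (3 * L) : ℕ) : ℝ) := by exact_mod_cast k4
    refine h6.trans ?_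
    have := Real.nat_sqrt_le_real_sqrt (a := 3 * L)
    push_cast at this
    exact this
  refine (sum_le_sum k1).trans ?_
  rw [sum_const, nsmul_eq_mul]
  have hs : Real.sqrt (3 * L) * Real.sqrt (3 * L) = 3 * L := Real.mul_self_sqrt (by positivity)
  have hs0 : 0 ≤ Real.sqrt (3 * (L : ℝ)) := Real.sqrt_nonneg _
  have k6 : Real.sqrt (3 * L) * Real.log (3 * L) ≤ ε / 54 * (3 * L) := by
    calc Real.sqrt (3 * L) * Real.log (3 * L) ≤
        Real.sqrt (3 * L) * (ε / 54 * Real.sqrt (3 * L)) := mul_le_mul_of_nonneg_left h1 hs0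
      _ = ε / 54 * (Real.sqrt (3 * L) * Real.sqrt (3 * L)) := by ring
      _ = ε / 54 * (3 * L) := by rw [hs]
  calc (((Icc 1 L).filter (fun q => q.Prime ∧ q ^ 2 ≤ 3 * L)).card : ℝ) *
        (2 * (6 * L + 3) * Real.log (3 * L))
      ≤ Real.sqrt (3 * L) * (2 * (6 * L + 3) * Real.log (3 * L)) :=
        mul_le_mul_of_nonneg_right k5 (by positivity)
    _ = 2 * (6 * L + 3) * (Real.sqrt (3 * L) * Real.log (3 * L)) := by ring
    _ ≤ 2 * (6 * L + 3) * (ε / 54 * (3 * L)) := mul_le_mul_of_nonneg_left k6 (by positivity)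
    _ ≤ ε * (L : ℝ) ^ 2 := by nlinarith [mul_pos hε hL0]

end Pool.Agent.H80.HF

end

section

/-!
# HF Main: the Wieferich primes have small total weight

PROOF. `ρ` from `exists_minor`. `prod_formula` with `Z` = max of `3L` and of the elements of `S`; `c q` = exponent of `b0` for
`q² ≤ 3L` (`⇒ q ≤ L` for large `L`), of `b1` for `q ≤ L`, `3L < q²` (`val_eq`; `q ≥ 5` for large `L`), of `b2` for `L < q ≤ 2L`,
`3 (L - q/3)` for `q > 2L`, `q ∉ S` (`big_bound`; `0` for `q > 3L`), `3 (L - q/3) - (3L - dd q)` for `q ∈ S` (`bad_bound`). Sum: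
`log|DD| ≤ 9L² log(2L) - 13.5L² + ..`; the `v_q(i!)` parts for all `q ≤ L` together: `fact_split`, `fact_low`:
`-9L² log(3L) + 13.5L² + u1`; the rest `u2`, `u4`, `u6`, `u5`, and `3L(L+1) log 2` from `WW`. Total
`9 log(2/3) + 9/2 + 6 + 1/12 + 1/3 + 1/2 + 3 log 2 + o(1) = 12 log 2 - 9 log 3 + 11.4167 = 9.847 < 10`
(`Real.log_two_lt_d9`, a lower bound for `log 3`: `log 3 > 1.09`).
-/

set_option autoImplicit false

namespace Pool.Agent.H80.HF

open Finset Filter

theorem log_three_gt : (1.097 : ℝ) < Real.log 3 := by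
  have h1 : (19 : ℝ) * Real.log 2 ≤ 12 * Real.log 3 := by
    have e1 : (19 : ℝ) * Real.log 2 = Real.log (2 ^ 19) := by rw [Real.log_pow]; norm_num
    have e2 : (12 : ℝ) * Real.log 3 = Real.log (3 ^ 12) := by rw [Real.log_pow]; norm_num
    rw [e1, e2]
    exact Real.log_le_log (by norm_num) (by norm_num)
  have := Real.log_two_gt_d9
  linarith

theorem small_err (K ε : ℝ) (hK : 0 ≤ K) (hε : 0 < ε) : ∀ᶠ L : ℕ in atTop,
    K * L * (1 + Real.log L) ≤ ε * (L : ℝ) ^ 2 := by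
  have h0 : ∀ᶠ x : ℝ in atTop, ‖Real.log x‖ ≤ ε / (2 * (K + 1)) * ‖x‖ :=
    (Real.isLittleO_log_id_atTop).def (by positivity)
  filter_upwards [tendsto_natCast_atTop_atTop.eventually h0,
    (tendsto_natCast_atTop_atTop (R := ℝ)).eventually_ge_atTop (2 * (K + 1) / ε),
    eventually_ge_atTop 1] with L h1 h2 h3
  have hL : (1 : ℝ) ≤ L := by exact_mod_cast h3
  have hl := Real.log_nonneg hL
  rw [Real.norm_of_nonneg hl, Real.norm_of_nonneg (by linarith)] at h1
  have h4 : 1 ≤ ε / (2 * (K + 1)) * (L : ℝ) := by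
    rw [div_le_iff₀ hε] at h2
    rw [div_mul_eq_mul_div, le_div_iff₀ (by positivity)]
    linarith
  calc K * L * (1 + Real.log L) ≤ (K + 1) * L * (1 + Real.log L) := by gcongr; linarith
    _ ≤ (K + 1) * L * (ε / (2 * (K + 1)) * (L : ℝ) + ε / (2 * (K + 1)) * (L : ℝ)) := by gcongr
    _ = ε * (L : ℝ) ^ 2 := by
        have : K + 1 ≠ 0 := by positivity
        field_simp
        ring

/-- the exponents -/
noncomputable def cc (L : ℕ) (S : Finset ℕ) (q : ℕ) : ℤ := by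
  classical exact
  if q ≤ L then
    (if q ^ 2 ≤ 3 * L then ((2 * (6 * L + 3) * Nat.log q (3 * L) + WW q L : ℕ) : ℤ)
      else ((6 * L + 3 + q / 6 + 2 : ℕ) : ℤ)) - ((2 * ∑ i ∈ range (3 * L), padicValNat q i.factorial : ℕ) : ℤ)
  else if q ≤ 2 * L then ((4 * (q - L - 1 - q / 3) + 100 : ℕ) : ℤ)
  else if q ∈ S then ((3 * (L - q / 3) : ℕ) : ℤ) - ((3 * L - dd q : ℕ) : ℤ)
  else ((3 * (L - q / 3) : ℕ) : ℤ)

theorem norm_cc (L : ℕ) (hL : 30 ≤ L) (S : Finset ℕ) (hS : ∀ p ∈ S, p.Prime ∧ 2 * L < p ∧ Wie p)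
    (ρ : Col L → ℤ × Fin 3) (hρ : Rows L ρ) (q : ℕ) (hq : q.Prime) :
    padicNorm q (DD L ρ) ≤ (q : ℚ) ^ cc L S q := by
  classical
  have : Fact q.Prime := ⟨hq⟩
  unfold cc
  split_ifs with h1 h2 h3 h4
  · exact b0 q L (by omega) ρ hρ
  · have h5 : 3 * L < q ^ 2 := not_le.1 h2
    have h6 : 5 ≤ q := by
      by_contra h7
      have : q ≤ 4 := by omega
      have : q ^ 2 ≤ 4 ^ 2 := Nat.pow_le_pow_left this 2
      omega
    have h7 : ∑ i ∈ range (3 * L), padicValNat q i.factorial = ∑ i ∈ range (3 * L), i / q :=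
      sum_congr rfl fun i hi => val_eq q i hq (by have := mem_range.1 hi; omega)
    rw [h7]
    exact b1 q h6 L (by omega) h5 ρ hρ
  · have h5 : 3 * L < q ^ 2 := by
      have h6 : (L + 1) * (L + 1) ≤ q * q := Nat.mul_le_mul (by omega) (by omega)
      have h7 := Nat.le_mul_self L
      nlinarith
    exact b2 q (by omega) L (by omega) h5 (by omega) h3 ρ hρ
  · exact bad_bound q (by omega) L (by omega) (by omega) (hS q h4).2.2 ρ hρ
  · exact big_bound q L (by omega) (by omega) ρ hρ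

theorem main_ineq : ∀ᶠ L : ℕ in atTop, ∀ S : Finset ℕ,
    (∀ p ∈ S, p.Prime ∧ 2 * L < p ∧ Wie p) →
    ∑ p ∈ S, ((3 * L - dd p : ℕ) : ℝ) * Real.log p ≤ 10 * (L : ℝ) ^ 2 := by
  classical
  obtain ⟨C, hC, harch⟩ := arch
  obtain ⟨C', hC', hfact⟩ := fact_low
  filter_upwards [u1 (1 / 100) (by norm_num), u2 (1 / 100) (by norm_num),
    u4 (1 / 100) (by norm_num), u6 (1 / 100) (by norm_num), u5 (1 / 100) (by norm_num),
    small_err (C + 2 * C' + 3) (1 / 100) (by positivity) (by norm_num), eventually_ge_atTop 30]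
    with L h1 h2 h4 h6 h5 he hL S hS
  have hL1 : (1 : ℝ) ≤ L := by exact_mod_cast (by omega : 1 ≤ L)
  have hl := Real.log_nonneg hL1
  obtain ⟨ρ, hρ, hne⟩ := exists_minor L (by omega)
  set Z : ℕ := 3 * L + ∑ p ∈ S, p with hZ
  have hSZ : ∀ p ∈ S, p ≤ Z := by
    intro p hp
    have : p ≤ ∑ p ∈ S, p := single_le_sum (f := fun p => p) (fun _ _ => Nat.zero_le _) hp
    omega
  have hprod := prod_formula (DD L ρ) hne Z (cc L S)
    (fun q hq _ => norm_cc L hL S hS ρ hρ q hq)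
    (fun q hq hZq => by
      have : Fact q.Prime := ⟨hq⟩
      have h7 := big_bound q L (by omega) (by omega) ρ hρ
      have h8 : 3 * (L - q / 3) = 0 := by omega
      rw [h8, Nat.cast_zero, zpow_zero] at h7
      exact h7)
  have ha := harch L (by omega) ρ hρ hne
  have hf := hfact L (by omega)
  have hs := fact_split L (by omega)
  set P1 : Finset ℕ := (Icc 1 L).filter Nat.Prime with hP1
  set P2 : Finset ℕ := (Ioc L (2 * L)).filter Nat.Prime with hP2
  set P3 : Finset ℕ := (Ioc (2 * L) Z).filter Nat.Prime with hP3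
  have hdec : (Icc 1 Z).filter Nat.Prime = P1 ∪ P2 ∪ P3 := by
    ext q
    simp only [hP1, hP2, hP3, mem_filter, mem_union, mem_Icc, mem_Ioc]
    constructor
    · rintro ⟨⟨a1, a2⟩, a3⟩
      rcases Nat.lt_or_ge L q with a4 | a4
      · rcases Nat.lt_or_ge (2 * L) q with a5 | a5
        · exact Or.inr ⟨⟨a5, a2⟩, a3⟩
        · exact Or.inl (Or.inr ⟨⟨a4, a5⟩, a3⟩)
      · exact Or.inl (Or.inl ⟨⟨a1, a4⟩, a3⟩)
    · rintro ((⟨⟨a1, a2⟩, a3⟩ | ⟨⟨a1, a2⟩, a3⟩) | ⟨⟨a1, a2⟩, a3⟩)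
      · exact ⟨⟨a1, by omega⟩, a3⟩
      · exact ⟨⟨by omega, by omega⟩, a3⟩
      · exact ⟨⟨by omega, a2⟩, a3⟩
  have hd1 : Disjoint P1 P2 := by
    rw [Finset.disjoint_left]
    intro q a1 a2
    have a3 := mem_Icc.1 (mem_filter.1 a1).1
    have a4 := mem_Ioc.1 (mem_filter.1 a2).1
    omega
  have hd2 : Disjoint (P1 ∪ P2) P3 := by
    rw [Finset.disjoint_left]
    intro q a1 a2
    have a4 := mem_Ioc.1 (mem_filter.1 a2).1
    rcases mem_union.1 a1 with a1 | a1
    · have a3 := mem_Icc.1 (mem_filter.1 a1).1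
      omega
    · have a3 := mem_Ioc.1 (mem_filter.1 a1).1
      omega
  rw [hdec, sum_union hd2, sum_union hd1] at hprod
  -- the primes up to `L`
  have k1 : ∑ q ∈ P1, (cc L S q : ℝ) * Real.log q ≤
      (6 + 1 / 12 + 1 / 100) * (L : ℝ) ^ 2 + 1 / 100 * (L : ℝ) ^ 2
        + 3 * L * (L + 1) * Real.log 2
        - 2 * (∑ i ∈ range (3 * L), Real.log (i.factorial : ℝ) -
          ∑ q ∈ (Ioc L (3 * L)).filter Nat.Prime, ((∑ i ∈ range (3 * L), i / q : ℕ) : ℝ) * Real.log q) := by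
    rw [← hs]
    have k2 : ∀ q ∈ P1, (cc L S q : ℝ) * Real.log q ≤
        ((6 * L + 3 + q / 6 + 2 : ℕ) : ℝ) * Real.log q
        + (if q ^ 2 ≤ 3 * L then ((2 * (6 * L + 3) * Nat.log q (3 * L) : ℕ) : ℝ) * Real.log q else 0)
        + (if q = 2 then 3 * (L : ℝ) * (L + 1) * Real.log 2 else 0)
        - 2 * (((∑ i ∈ range (3 * L), padicValNat q i.factorial : ℕ) : ℝ) * Real.log q) := by
      intro q hq
      have hq1 := mem_Icc.1 (mem_filter.1 hq).1
      have hlq : 0 ≤ Real.log (q : ℝ) := Real.log_natCast_nonneg q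
      unfold cc
      rw [if_pos hq1.2]
      have e0 : ((((2 * ∑ i ∈ range (3 * L), padicValNat q i.factorial : ℕ) : ℤ) : ℝ))
          = 2 * ((∑ i ∈ range (3 * L), padicValNat q i.factorial : ℕ) : ℝ) := by
        rw [Int.cast_natCast, Nat.cast_mul, Nat.cast_ofNat]
      have e1 : (0 : ℝ) ≤ ((6 * L + 3 + q / 6 + 2 : ℕ) : ℝ) * Real.log q :=
        mul_nonneg (Nat.cast_nonneg _) hlq
      rw [Int.cast_sub, e0]
      have e2 : (0 : ℝ) ≤ (if q = 2 then 3 * (L : ℝ) * (L + 1) * Real.log 2 else 0) := by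
        split_ifs
        · have := Real.log_nonneg (show (1 : ℝ) ≤ 2 by norm_num)
          positivity
        · exact le_rfl
      by_cases h7 : q ^ 2 ≤ 3 * L
      · rw [if_pos h7, if_pos h7, Int.cast_natCast, Nat.cast_add]
        have e3 : (WW q L : ℝ) * Real.log q
            = (if q = 2 then 3 * (L : ℝ) * (L + 1) * Real.log 2 else 0) := by
          unfold WW
          by_cases h8 : q = 2
          · rw [if_pos h8, if_pos h8, h8]
            push_cast
            ring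
          · rw [if_neg h8, if_neg h8, Nat.cast_zero, zero_mul]
        rw [← e3]
        linarith
      · rw [if_neg h7, if_neg h7, Int.cast_natCast]
        linarith
    refine (sum_le_sum k2).trans ?_
    rw [sum_sub_distrib, sum_add_distrib, sum_add_distrib, ← sum_filter, ← mul_sum]
    have e4 : P1.filter (fun q => q ^ 2 ≤ 3 * L) = (Icc 1 L).filter (fun q => q.Prime ∧ q ^ 2 ≤ 3 * L) := by
      rw [hP1, filter_filter]
    rw [e4]
    have e5 : ∑ q ∈ P1, (if q = 2 then 3 * (L : ℝ) * (L + 1) * Real.log 2 else 0)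
        ≤ 3 * L * (L + 1) * Real.log 2 := by
      rw [sum_ite_eq']
      split_ifs
      · exact le_rfl
      · have := Real.log_nonneg (show (1 : ℝ) ≤ 2 by norm_num)
        positivity
    linarith
  -- the primes of `(L, 2L]`
  have k3 : ∑ q ∈ P2, (cc L S q : ℝ) * Real.log q ≤ (1 / 3 + 1 / 100) * (L : ℝ) ^ 2 := by
    refine le_trans (le_of_eq ?_) h4
    refine sum_congr rfl fun q hq => ?_
    have hq1 := mem_Ioc.1 (mem_filter.1 hq).1
    unfold cc
    rw [if_neg (by omega), if_pos hq1.2, Int.cast_natCast]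
  -- the primes above `2L`
  have k4 : ∑ q ∈ P3, (cc L S q : ℝ) * Real.log q ≤ (1 / 2 + 1 / 100) * (L : ℝ) ^ 2
      - ∑ p ∈ S, ((3 * L - dd p : ℕ) : ℝ) * Real.log p := by
    have k5 : ∀ q ∈ P3, (cc L S q : ℝ) * Real.log q
        = ((3 * (L - q / 3) : ℕ) : ℝ) * Real.log q
          - (if q ∈ S then ((3 * L - dd q : ℕ) : ℝ) * Real.log q else 0) := by
      intro q hq
      have hq1 := mem_Ioc.1 (mem_filter.1 hq).1
      unfold cc
      rw [if_neg (by omega), if_neg (by omega)]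
      by_cases h7 : q ∈ S
      · rw [if_pos h7, if_pos h7, Int.cast_sub, Int.cast_natCast, Int.cast_natCast]
        ring
      · rw [if_neg h7, if_neg h7, Int.cast_natCast]
        ring
    rw [sum_congr rfl k5, sum_sub_distrib, sum_ite_mem]
    have e1 : P3 ∩ S = S := by
      refine inter_eq_right.2 fun p hp => ?_
      obtain ⟨a1, a2, -⟩ := hS p hp
      exact mem_filter.2 ⟨mem_Ioc.2 ⟨a2, hSZ p hp⟩, a1⟩
    rw [e1]
    have e2 : ∑ q ∈ (Ioc (2 * L) (3 * L)).filter Nat.Prime, ((3 * (L - q / 3) : ℕ) : ℝ) * Real.log q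
        = ∑ q ∈ P3, ((3 * (L - q / 3) : ℕ) : ℝ) * Real.log q := by
      refine sum_subset (fun q hq => ?_) fun q hq hq2 => ?_
      · obtain ⟨a1, a2⟩ := mem_filter.1 hq
        have a3 := mem_Ioc.1 a1
        exact mem_filter.2 ⟨mem_Ioc.2 ⟨a3.1, by omega⟩, a2⟩
      · obtain ⟨a1, a2⟩ := mem_filter.1 hq
        have a3 := mem_Ioc.1 a1
        have a4 : 3 * L < q := by
          by_contra a5
          exact hq2 (mem_filter.2 ⟨mem_Ioc.2 ⟨a3.1, not_lt.1 a5⟩, a2⟩)
        have a5 : 3 * (L - q / 3) = 0 := by omega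
        rw [a5, Nat.cast_zero, zero_mul]
    rw [← e2]
    linarith
  have e6 : ∑ q ∈ (Ioc L (3 * L)).filter Nat.Prime, ((2 * ∑ i ∈ range (3 * L), i / q : ℕ) : ℝ) * Real.log q
      = 2 * ∑ q ∈ (Ioc L (3 * L)).filter Nat.Prime, ((∑ i ∈ range (3 * L), i / q : ℕ) : ℝ) * Real.log q := by
    rw [mul_sum]
    refine sum_congr rfl fun q _ => ?_
    rw [Nat.cast_mul]
    push_cast
    ring
  rw [e6] at h1
  have e7 : Real.log (2 * (L : ℝ)) = Real.log 2 + Real.log L := by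
    rw [Real.log_mul (by norm_num) (by positivity)]
  have e8 : Real.log (3 * (L : ℝ)) = Real.log 3 + Real.log L := by
    rw [Real.log_mul (by norm_num) (by positivity)]
  rw [e7] at ha
  rw [e8] at hf
  have hlog2 := Real.log_two_lt_d9
  have hlog3 := log_three_gt
  have hL2 : (0 : ℝ) < (L : ℝ) ^ 2 := by positivity
  have e9 : 3 * (L : ℝ) * Real.log 2 ≤ 3 * L * (1 + Real.log L) := by
    have : Real.log 2 ≤ 1 + Real.log L := by linarith
    gcongr
  have e10 : (L : ℝ) ^ 2 * Real.log 2 ≤ (L : ℝ) ^ 2 * 0.6931471808 := by gcongr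
  have e11 : (L : ℝ) ^ 2 * 1.097 ≤ (L : ℝ) ^ 2 * Real.log 3 := by gcongr
  nlinarith

end Pool.Agent.H80.HF

end

section

/-!
# HF Low: the lower density of the non-Wieferich primes (helper2)

From `∑_(p ∈ S) (3L - dd p) log p ≤ 10 L²` for all finite sets `S` of Wieferich primes `> 2L` and the prime number
theorem: the non-Wieferich primes in `(2L, 18L]` have `∑ log p ≥ 5 L`, hence
`∑_(p ≤ x, p not Wieferich) log p ≥ (31/100) x - C` and there are at least `(3/10) x / log x` non-Wieferich primes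
`p ≤ x` for all large `x`.
-/

set_option autoImplicit false

namespace Pool.Agent.H2.HF

open Finset Filter Pool.Agent.H80.HF

/-- partial summation -/
theorem abel (g : ℕ → ℝ) (u v : ℕ) (huv : u ≤ v) :
    ∑ p ∈ Ioc u v, ((v : ℝ) - p) * g p = ∑ k ∈ Ico u v, ∑ p ∈ Ioc u k, g p := by
  induction v, huv using Nat.le_induction with
  | base => simp
  | succ v hv ih =>
    rw [sum_Ico_succ_top hv, ← ih, sum_Ioc_succ_top hv, ← sum_add_distrib]
    push_cast
    rw [sub_self, zero_mul, add_zero]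
    refine sum_congr rfl fun p _ => ?_
    ring

theorem sum_id (u v : ℕ) (huv : u ≤ v) :
    ∑ k ∈ Ico u v, ((k : ℝ) - u) = ((v : ℝ) - u) ^ 2 / 2 - ((v : ℝ) - u) / 2 := by
  induction v, huv using Nat.le_induction with
  | base => simp
  | succ v hv ih =>
    rw [sum_Ico_succ_top hv, ih]
    push_cast
    ring

/-- the weights `v - p` on the primes of `(u, v]` -/
theorem win_lin (ε : ℝ) (hε : 0 < ε) : ∀ᶠ x : ℕ in atTop, ∀ u v : ℕ, u ≤ v → v ≤ x →
    |∑ p ∈ (Ioc u v).filter Nat.Prime, ((v : ℝ) - p) * Real.log p - ((v : ℝ) - u) ^ 2 / 2| ≤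
      ε * (x : ℝ) ^ 2 := by
  filter_upwards [Pool.Agent.H71.NB.win_one (ε / 2) (by positivity),
    eventually_ge_atTop (⌈1 / ε⌉₊ + 1)] with x h1 h2 u v huv hvx
  have hx : 1 / ε ≤ x := by
    have h3 := Nat.le_ceil (1 / ε)
    have h4 : ((⌈1 / ε⌉₊ + 1 : ℕ) : ℝ) ≤ x := by exact_mod_cast h2
    push_cast at h4
    linarith
  have hx1 : 1 ≤ ε * x := by
    rw [div_le_iff₀ hε] at hx
    linarith
  have hx0 : (0 : ℝ) ≤ x := Nat.cast_nonneg x
  have hg : ∑ p ∈ (Ioc u v).filter Nat.Prime, ((v : ℝ) - p) * Real.log p =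
      ∑ k ∈ Ico u v, ∑ p ∈ (Ioc u k).filter Nat.Prime, Real.log p := by
    have h3 := abel (fun p => if p.Prime then Real.log p else 0) u v huv
    rw [sum_filter]
    refine Eq.trans (sum_congr rfl fun p _ => ?_) (h3.trans (sum_congr rfl fun k _ => ?_))
    · split_ifs <;> simp
    · rw [sum_filter]
  have hv : (v : ℝ) ≤ x := by exact_mod_cast hvx
  have hu : (u : ℝ) ≤ v := by exact_mod_cast huv
  have hu0 : (0 : ℝ) ≤ u := Nat.cast_nonneg u
  have h3 : |∑ k ∈ Ico u v, ∑ p ∈ (Ioc u k).filter Nat.Prime, Real.log p -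
      ∑ k ∈ Ico u v, ((k : ℝ) - u)| ≤ ∑ _k ∈ Ico u v, (ε / 2 * x) := by
    rw [← sum_sub_distrib]
    refine (abs_sum_le_sum_abs _ _).trans (sum_le_sum fun k hk => ?_)
    have h4 := mem_Ico.1 hk
    exact h1 u k h4.1 (by omega)
  rw [sum_const, Nat.card_Ico, nsmul_eq_mul, Nat.cast_sub huv, sum_id u v huv] at h3
  rw [hg]
  have h4 : ((v : ℝ) - u) * (ε / 2 * x) ≤ x * (ε / 2 * x) :=
    mul_le_mul_of_nonneg_right (by linarith) (by positivity)
  have h5 : ((v : ℝ) - u) / 2 ≤ ε / 2 * x * x := by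
    have : (x : ℝ) ≤ (ε * x) * x := by nlinarith
    nlinarith
  rw [abs_le] at h3 ⊢
  constructor <;> nlinarith [h3.1, h3.2]

theorem dd_le (p : ℕ) : 6 * dd p ≤ p + 6 := by
  unfold dd
  omega

theorem dd_ge (p : ℕ) : p ≤ 6 * dd p + 6 := by
  unfold dd
  omega

/-- the inequality of `HF.main_ineq` -/
def MainIneq : Prop := ∀ᶠ L : ℕ in atTop, ∀ S : Finset ℕ,
    (∀ p ∈ S, p.Prime ∧ 2 * L < p ∧ Wie p) →
    ∑ p ∈ S, ((3 * L - dd p : ℕ) : ℝ) * Real.log p ≤ 10 * (L : ℝ) ^ 2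

open Classical in
/-- the non-Wieferich primes in `(2L, 18L]` -/
theorem theta_step (hmain : MainIneq) : ∀ᶠ L : ℕ in atTop,
    5 * (L : ℝ) ≤ ∑ p ∈ (Ioc (2 * L) (18 * L)).filter (fun p => p.Prime ∧ ¬ Wie p), Real.log p := by
  have htend : Tendsto (fun L : ℕ => 18 * L) atTop atTop :=
    tendsto_atTop_mono (fun L => by show L ≤ 18 * L; omega) tendsto_id
  filter_upwards [hmain, htend.eventually (win_lin (1 / 10000) (by norm_num)),
    htend.eventually (Pool.Agent.H71.NB.win_one (1 / 100) (by norm_num)),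
    eventually_ge_atTop 1000] with L h1 h2 h3 h4
  have hL : (1000 : ℝ) ≤ L := by exact_mod_cast h4
  have A1 := h2 (2 * L) (18 * L) (by omega) (by omega)
  have A2 := h2 (2 * L) (7 * L) (by omega) (by omega)
  have A3 := h3 (2 * L) (18 * L) (by omega) (by omega)
  push_cast at A1 A2 A3
  set P := (Ioc (2 * L) (18 * L)).filter Nat.Prime with hP
  have hPT : (Ioc (2 * L) (18 * L)).filter (fun p => p.Prime ∧ ¬ Wie p) = P.filter (fun p => ¬ Wie p) := by
    rw [hP, filter_filter]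
  rw [hPT]
  set T := P.filter (fun p => ¬ Wie p) with hT
  set S := P.filter Wie with hS
  have hmemP : ∀ p ∈ P, p.Prime ∧ 2 * L < p ∧ p ≤ 18 * L := by
    intro p hp
    rw [hP, mem_filter, mem_Ioc] at hp
    exact ⟨hp.2, hp.1.1, hp.1.2⟩
  have hlog : ∀ p ∈ P, 0 ≤ Real.log (p : ℝ) := fun p hp =>
    Real.log_natCast_nonneg p
  have B1 : ∑ p ∈ S, ((3 * L - dd p : ℕ) : ℝ) * Real.log p ≤ 10 * (L : ℝ) ^ 2 := by
    refine h1 S fun p hp => ?_
    rw [hS, mem_filter] at hp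
    exact ⟨(hmemP p hp.1).1, (hmemP p hp.1).2.1, hp.2⟩
  have B2 : ∑ p ∈ S, ((3 * L - dd p : ℕ) : ℝ) * Real.log p + ∑ p ∈ T, ((3 * L - dd p : ℕ) : ℝ) * Real.log p =
      ∑ p ∈ P, ((3 * L - dd p : ℕ) : ℝ) * Real.log p := sum_filter_add_sum_filter_not P _ _
  have B3 : ∑ p ∈ P, ((18 * (L : ℝ) - p) / 6 - 1) * Real.log p ≤
      ∑ p ∈ P, ((3 * L - dd p : ℕ) : ℝ) * Real.log p := by
    refine sum_le_sum fun p hp => mul_le_mul_of_nonneg_right ?_ (hlog p hp)
    have h5 : 3 * L ≤ (3 * L - dd p) + dd p := by omega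
    have h6 : (3 * (L : ℝ)) ≤ ((3 * L - dd p : ℕ) : ℝ) + (dd p : ℝ) := by exact_mod_cast h5
    have h7 : 6 * (dd p : ℝ) ≤ p + 6 := by exact_mod_cast dd_le p
    linarith
  have B4 : ∑ p ∈ P, ((18 * (L : ℝ) - p) / 6 - 1) * Real.log p =
      (1 / 6) * ∑ p ∈ P, (18 * (L : ℝ) - p) * Real.log p - ∑ p ∈ P, Real.log p := by
    rw [mul_sum, ← sum_sub_distrib]
    refine sum_congr rfl fun p _ => ?_
    ring
  -- the upper bound for the non-Wieferich primes
  have B5 : ∑ p ∈ T, ((3 * L - dd p : ℕ) : ℝ) * Real.log p ≤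
      (11 / 6 * (L : ℝ) + 1) * ∑ p ∈ T, Real.log p +
        (1 / 6) * ∑ p ∈ (Ioc (2 * L) (7 * L)).filter Nat.Prime, (7 * (L : ℝ) - p) * Real.log p := by
    have h5 : ∑ p ∈ T.filter (fun p => p ≤ 7 * L), (7 * (L : ℝ) - p) * Real.log p ≤
        ∑ p ∈ (Ioc (2 * L) (7 * L)).filter Nat.Prime, (7 * (L : ℝ) - p) * Real.log p := by
      refine sum_le_sum_of_subset_of_nonneg ?_ ?_
      · intro p hp
        rw [mem_filter, hT, mem_filter] at hp
        have h6 := hmemP p hp.1.1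
        rw [mem_filter, mem_Ioc]
        exact ⟨⟨h6.2.1, hp.2⟩, h6.1⟩
      · intro p hp _
        rw [mem_filter, mem_Ioc] at hp
        have h6 : (p : ℝ) ≤ 7 * L := by exact_mod_cast hp.1.2
        exact mul_nonneg (by linarith) (Real.log_natCast_nonneg p)
    have h6 : ∑ p ∈ T, ((3 * L - dd p : ℕ) : ℝ) * Real.log p ≤
        ∑ p ∈ T, ((11 / 6 * (L : ℝ) + 1) * Real.log p +
          (1 / 6) * (if p ≤ 7 * L then (7 * (L : ℝ) - p) * Real.log p else 0)) := by
      refine sum_le_sum fun p hp => ?_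
      rw [hT, mem_filter] at hp
      have h7 := hmemP p hp.1
      have h8 : (p : ℝ) ≤ 18 * L := by exact_mod_cast h7.2.2
      have h9 : (p : ℝ) ≤ 6 * dd p + 6 := by exact_mod_cast dd_ge p
      have h10 : ((3 * L - dd p : ℕ) : ℝ) ≤ (18 * (L : ℝ) - p) / 6 + 1 := by
        rcases Nat.le_total (dd p) (3 * L) with h | h
        · rw [Nat.cast_sub h]
          push_cast
          linarith
        · rw [Nat.sub_eq_zero_of_le h]
          push_cast
          linarith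
      have h11 := hlog p hp.1
      split_ifs with h12
      · have : ((3 * L - dd p : ℕ) : ℝ) * Real.log p ≤ ((18 * (L : ℝ) - p) / 6 + 1) * Real.log p :=
          mul_le_mul_of_nonneg_right h10 h11
        refine this.trans (le_of_eq ?_)
        ring
      · have h13 : (7 * (L : ℝ)) ≤ p := by
          have : 7 * L ≤ p := by omega
          exact_mod_cast this
        have : ((3 * L - dd p : ℕ) : ℝ) * Real.log p ≤ (11 / 6 * (L : ℝ) + 1) * Real.log p :=
          mul_le_mul_of_nonneg_right (by linarith) h11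
        linarith
    rw [sum_add_distrib, ← mul_sum, ← mul_sum, ← sum_filter] at h6
    linarith
  have B6 : ∑ p ∈ T, Real.log p ≤ ∑ p ∈ P, Real.log p :=
    sum_le_sum_of_subset_of_nonneg (filter_subset _ _) fun p hp _ => hlog p hp
  set Θ := ∑ p ∈ T, Real.log (p : ℝ) with hΘ
  rw [abs_le] at A1 A2 A3
  obtain ⟨A1a, A1b⟩ := A1
  obtain ⟨A2a, A2b⟩ := A2
  obtain ⟨A3a, A3b⟩ := A3
  have C1 : ∑ p ∈ P, Real.log (p : ℝ) ≤ 17 * L := by linarith
  have C2 : 64 / 3 * (L : ℝ) ^ 2 - 54 / 10000 * (L : ℝ) ^ 2 - 17 * L ≤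
      10 * (L : ℝ) ^ 2 + ((11 / 6 * (L : ℝ) + 1) * Θ + (25 / 12 + 54 / 10000) * (L : ℝ) ^ 2) := by
    nlinarith
  have C3 : Θ ≤ 17 * L := B6.trans C1
  by_contra hcon
  push Not at hcon
  nlinarith

end Pool.Agent.H2.HF

end

section

/-!
# HF Low: the lower density of the non-Wieferich primes, end (helper2)
-/

set_option autoImplicit false

namespace Pool.Agent.H2.HF

open Finset Filter Pool.Agent.H80.HF

theorem wie_iff (p : ℕ) : Wie p ↔ p ^ 2 ∣ 2 ^ (p - 1) - 1 := by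
  unfold Wie
  have h1 : 1 ≤ 2 ^ (p - 1) := Nat.one_le_two_pow
  have h2 : ((2 ^ (p - 1) - 1 : ℕ) : ℤ) = 2 ^ (p - 1) - 1 := by
    push_cast [h1]
    ring
  rw [← h2, ← Nat.cast_pow, Int.natCast_dvd_natCast]

open Classical in
/-- the sum of `log p` over the non-Wieferich primes `5 ≤ p ≤ x` -/
noncomputable def thN (x : ℕ) : ℝ := ∑ p ∈ (Ioc 4 x).filter (fun p => p.Prime ∧ ¬ Wie p), Real.log p

theorem thN_nonneg (x : ℕ) : 0 ≤ thN x := sum_nonneg fun p _ => Real.log_natCast_nonneg p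

open Classical in
theorem thN_split (L x : ℕ) (hL : 2 ≤ L) (hx : 18 * L ≤ x) :
    thN (2 * L) + ∑ p ∈ (Ioc (2 * L) (18 * L)).filter (fun p => p.Prime ∧ ¬ Wie p), Real.log p ≤ thN x := by
  unfold thN
  rw [← sum_union]
  · refine sum_le_sum_of_subset_of_nonneg ?_ fun p _ _ => Real.log_natCast_nonneg p
    intro p hp
    rw [mem_union, mem_filter, mem_filter, mem_Ioc, mem_Ioc] at hp
    rw [mem_filter, mem_Ioc]
    rcases hp with h | h
    · exact ⟨⟨h.1.1, by omega⟩, h.2⟩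
    · exact ⟨⟨by omega, by omega⟩, h.2⟩
  · rw [disjoint_left]
    intro p hp hq
    rw [mem_filter, mem_Ioc] at hp hq
    omega

theorem thN_low (hmain : MainIneq) : ∃ C : ℝ, ∀ x : ℕ, 31 / 100 * (x : ℝ) - C ≤ thN x := by
  obtain ⟨L0, hL0⟩ := eventually_atTop.1 (theta_step hmain)
  set N := max L0 132 with hN
  have hN1 : L0 ≤ N := le_max_left _ _
  have hN2 : 132 ≤ N := le_max_right _ _
  refine ⟨31 / 100 * (18 * N + 18 : ℝ), fun x => ?_⟩
  induction x using Nat.strong_induction_on with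
  | _ x ih =>
    rcases Nat.lt_or_ge x (18 * N) with hx | hx
    · have h1 : (x : ℝ) ≤ 18 * N + 18 := by
        have : x ≤ 18 * N + 18 := by omega
        exact_mod_cast this
      have h2 := thN_nonneg x
      nlinarith
    · set L := x / 18 with hL
      have h1 : N ≤ L := by omega
      have h2 : 18 * L ≤ x := by omega
      have h3 : x ≤ 18 * L + 17 := by omega
      have h4 := ih (2 * L) (by omega)
      have h5 := hL0 L (by omega)
      have h6 := thN_split L x (by omega) h2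
      have h7 : (x : ℝ) ≤ 18 * L + 17 := by exact_mod_cast h3
      have h8 : (132 : ℝ) ≤ L := by exact_mod_cast (hN2.trans h1)
      push_cast at h4
      nlinarith

/-- The non-Wieferich primes `p ≥ 5`. -/
def NonW : Set ℕ := {p : ℕ | p.Prime ∧ 5 ≤ p ∧ ¬ p ^ 2 ∣ 2 ^ (p - 1) - 1}

open Classical in
theorem count_ge (x : ℕ) (hx : 1 ≤ x) : thN x ≤ ({p ∈ NonW | p ≤ x}.ncard : ℝ) * Real.log x := by
  have h1 : {p ∈ NonW | p ≤ x} = ((Ioc 4 x).filter (fun p => p.Prime ∧ ¬ Wie p) : Finset ℕ) := by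
    ext p
    rw [mem_coe, mem_filter, mem_Ioc, wie_iff]
    show (p.Prime ∧ 5 ≤ p ∧ ¬ p ^ 2 ∣ 2 ^ (p - 1) - 1) ∧ p ≤ x ↔ _
    constructor
    · rintro ⟨⟨h1, h2, h3⟩, h4⟩
      exact ⟨⟨by omega, h4⟩, h1, h3⟩
    · rintro ⟨⟨h1, h2⟩, h3, h4⟩
      exact ⟨⟨h3, by omega, h4⟩, h2⟩
  rw [h1, Set.ncard_coe_finset, ← nsmul_eq_mul]
  unfold thN
  refine sum_le_card_nsmul _ _ _ fun p hp => ?_
  rw [mem_filter, mem_Ioc] at hp
  exact Real.log_le_log (by exact_mod_cast (show 0 < p by omega)) (by exact_mod_cast hp.1.2)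

/-- At least `(3/10) x / log x` non-Wieferich primes `p ≤ x`. -/
theorem low_NW (hmain : MainIneq) : ∃ x₀ : ℕ, ∀ x : ℕ, x₀ ≤ x →
    3 / 10 * (x : ℝ) / Real.log x ≤ ({p ∈ NonW | p ≤ x}.ncard : ℝ) := by
  obtain ⟨C, hC⟩ := thN_low hmain
  refine ⟨⌈100 * C⌉₊ + 3, fun x hx => ?_⟩
  have h1 : 100 * C ≤ x := by
    have h2 := Nat.le_ceil (100 * C)
    have h3 : ((⌈100 * C⌉₊ + 3 : ℕ) : ℝ) ≤ x := by exact_mod_cast hx
    push_cast at h3
    linarith
  have h3 : (1 : ℝ) < x := by exact_mod_cast (show 1 < x by omega)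
  rw [div_le_iff₀ (Real.log_pos h3)]
  have h4 := hC x
  have h5 := count_ge x (by omega)
  linarith

end Pool.Agent.H2.HF

end

section

/-!
# HF Low: the count of the non-Wieferich primes with `H71.FD.cn` (helper2)
-/

set_option autoImplicit false

namespace Pool.Agent.H2.HF

open Finset Filter Pool.Agent.H80.HF

theorem ncard_eq (x : ℕ) : ({p ∈ NonW | p ≤ x}.ncard : ℕ) =
    Pool.Agent.H71.FD.cn (fun p => 5 ≤ p ∧ ¬ Pool.Agent.H11.NW.Wf p) x := by
  classical
  unfold Pool.Agent.H71.FD.cn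
  rw [← Set.ncard_coe_finset]
  congr 1
  ext p
  simp only [Set.mem_setOf_eq, coe_filter, mem_Icc, NonW, Pool.Agent.H11.NW.Wf]
  constructor
  · rintro ⟨⟨h1, h2, h3⟩, h4⟩
    exact ⟨⟨by omega, h4⟩, h1, h2, h3⟩
  · rintro ⟨⟨h1, h2⟩, h3, h4, h5⟩
    exact ⟨⟨h3, h4, h5⟩, h2⟩

/-- At least `(3/10) x / log x` of the primes `p ≤ x` are not Wieferich primes. -/
theorem low_cn (hmain : MainIneq) : ∀ᶠ x : ℕ in atTop, 3 / 10 * ((x : ℝ) / Real.log x) ≤
    Pool.Agent.H71.FD.cn (fun p => 5 ≤ p ∧ ¬ Pool.Agent.H11.NW.Wf p) x := by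
  obtain ⟨x₀, h⟩ := low_NW hmain
  filter_upwards [eventually_ge_atTop x₀] with x hx
  have h1 := h x hx
  rw [ncard_eq] at h1
  rw [← mul_div_assoc]
  exact h1

end Pool.Agent.H2.HF

end

section

/-!
# HF Low: lower density `9/25` of the non-Wieferich primes

The same inequality as in `Pool.Agent.H2.HF.LowA`, applied to `(2L, 14L]` instead of `(2L, 18L]`: the non-Wieferich
primes there have `∑ log p ≥ (433/100) L`, so `∑_(p ≤ x, p not Wieferich) log p ≥ (3605/10000) x - C`.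
-/

set_option autoImplicit false

namespace Pool.Agent.H88.HF

open Finset Filter Pool.Agent.H80.HF Pool.Agent.H2.HF

open Classical in
/-- the non-Wieferich primes in `(2L, 14L]` -/
theorem theta_step (hmain : MainIneq) : ∀ᶠ L : ℕ in atTop,
    433 / 100 * (L : ℝ) ≤ ∑ p ∈ (Ioc (2 * L) (14 * L)).filter (fun p => p.Prime ∧ ¬ Wie p), Real.log p := by
  have htend : Tendsto (fun L : ℕ => 14 * L) atTop atTop :=
    tendsto_atTop_mono (fun L => by show L ≤ 14 * L; omega) tendsto_id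
  filter_upwards [hmain, htend.eventually (win_lin (1 / 1000000) (by norm_num)),
    htend.eventually (Pool.Agent.H71.NB.win_one (1 / 100000) (by norm_num)),
    eventually_ge_atTop 100000] with L h1 h2 h3 h4
  have hL : (100000 : ℝ) ≤ L := by exact_mod_cast h4
  have A1 := h2 (2 * L) (14 * L) (by omega) (by omega)
  have A2 := h2 (2 * L) (6 * L) (by omega) (by omega)
  have A3 := h3 (2 * L) (14 * L) (by omega) (by omega)
  push_cast at A1 A2 A3
  set P := (Ioc (2 * L) (14 * L)).filter Nat.Prime with hP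
  have hPT : (Ioc (2 * L) (14 * L)).filter (fun p => p.Prime ∧ ¬ Wie p) = P.filter (fun p => ¬ Wie p) := by
    rw [hP, filter_filter]
  rw [hPT]
  set T := P.filter (fun p => ¬ Wie p) with hT
  set S := P.filter Wie with hS
  have hmemP : ∀ p ∈ P, p.Prime ∧ 2 * L < p ∧ p ≤ 14 * L := by
    intro p hp
    rw [hP, mem_filter, mem_Ioc] at hp
    exact ⟨hp.2, hp.1.1, hp.1.2⟩
  have hlog : ∀ p ∈ P, 0 ≤ Real.log (p : ℝ) := fun p hp =>
    Real.log_natCast_nonneg p
  have B1 : ∑ p ∈ S, ((3 * L - dd p : ℕ) : ℝ) * Real.log p ≤ 10 * (L : ℝ) ^ 2 := by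
    refine h1 S fun p hp => ?_
    rw [hS, mem_filter] at hp
    exact ⟨(hmemP p hp.1).1, (hmemP p hp.1).2.1, hp.2⟩
  have B2 : ∑ p ∈ S, ((3 * L - dd p : ℕ) : ℝ) * Real.log p + ∑ p ∈ T, ((3 * L - dd p : ℕ) : ℝ) * Real.log p =
      ∑ p ∈ P, ((3 * L - dd p : ℕ) : ℝ) * Real.log p := sum_filter_add_sum_filter_not P _ _
  have B3 : ∑ p ∈ P, ((14 * (L : ℝ) - p) / 6 + (2 / 3 * L - 1)) * Real.log p ≤
      ∑ p ∈ P, ((3 * L - dd p : ℕ) : ℝ) * Real.log p := by
    refine sum_le_sum fun p hp => mul_le_mul_of_nonneg_right ?_ (hlog p hp)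
    have h5 : 3 * L ≤ (3 * L - dd p) + dd p := by omega
    have h6 : (3 * (L : ℝ)) ≤ ((3 * L - dd p : ℕ) : ℝ) + (dd p : ℝ) := by exact_mod_cast h5
    have h7 : 6 * (dd p : ℝ) ≤ p + 6 := by exact_mod_cast dd_le p
    linarith
  have B4 : ∑ p ∈ P, ((14 * (L : ℝ) - p) / 6 + (2 / 3 * L - 1)) * Real.log p =
      (1 / 6) * ∑ p ∈ P, (14 * (L : ℝ) - p) * Real.log p + (2 / 3 * L - 1) * ∑ p ∈ P, Real.log p := by
    rw [mul_sum, mul_sum, ← sum_add_distrib]
    refine sum_congr rfl fun p _ => ?_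
    ring
  -- the upper bound for the non-Wieferich primes
  have B5 : ∑ p ∈ T, ((3 * L - dd p : ℕ) : ℝ) * Real.log p ≤
      (2 * (L : ℝ) + 1) * ∑ p ∈ T, Real.log p +
        (1 / 6) * ∑ p ∈ (Ioc (2 * L) (6 * L)).filter Nat.Prime, (6 * (L : ℝ) - p) * Real.log p := by
    have h5 : ∑ p ∈ T.filter (fun p => p ≤ 6 * L), (6 * (L : ℝ) - p) * Real.log p ≤
        ∑ p ∈ (Ioc (2 * L) (6 * L)).filter Nat.Prime, (6 * (L : ℝ) - p) * Real.log p := by
      refine sum_le_sum_of_subset_of_nonneg ?_ ?_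
      · intro p hp
        rw [mem_filter, hT, mem_filter] at hp
        have h6 := hmemP p hp.1.1
        rw [mem_filter, mem_Ioc]
        exact ⟨⟨h6.2.1, hp.2⟩, h6.1⟩
      · intro p hp _
        rw [mem_filter, mem_Ioc] at hp
        have h6 : (p : ℝ) ≤ 6 * L := by exact_mod_cast hp.1.2
        exact mul_nonneg (by linarith) (Real.log_natCast_nonneg p)
    have h6 : ∑ p ∈ T, ((3 * L - dd p : ℕ) : ℝ) * Real.log p ≤
        ∑ p ∈ T, ((2 * (L : ℝ) + 1) * Real.log p +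
          (1 / 6) * (if p ≤ 6 * L then (6 * (L : ℝ) - p) * Real.log p else 0)) := by
      refine sum_le_sum fun p hp => ?_
      rw [hT, mem_filter] at hp
      have h7 := hmemP p hp.1
      have h8 : (p : ℝ) ≤ 14 * L := by exact_mod_cast h7.2.2
      have h9 : (p : ℝ) ≤ 6 * dd p + 6 := by exact_mod_cast dd_ge p
      have h10 : ((3 * L - dd p : ℕ) : ℝ) ≤ (18 * (L : ℝ) - p) / 6 + 1 := by
        rcases Nat.le_total (dd p) (3 * L) with h | h
        · rw [Nat.cast_sub h]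
          push_cast
          linarith
        · rw [Nat.sub_eq_zero_of_le h]
          push_cast
          linarith
      have h11 := hlog p hp.1
      split_ifs with h12
      · have : ((3 * L - dd p : ℕ) : ℝ) * Real.log p ≤ ((18 * (L : ℝ) - p) / 6 + 1) * Real.log p :=
          mul_le_mul_of_nonneg_right h10 h11
        refine this.trans (le_of_eq ?_)
        ring
      · have h13 : (6 * (L : ℝ)) ≤ p := by
          have : 6 * L ≤ p := by omega
          exact_mod_cast this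
        have : ((3 * L - dd p : ℕ) : ℝ) * Real.log p ≤ (2 * (L : ℝ) + 1) * Real.log p :=
          mul_le_mul_of_nonneg_right (by linarith) h11
        linarith
    rw [sum_add_distrib, ← mul_sum, ← mul_sum, ← sum_filter] at h6
    linarith
  have B6 : ∑ p ∈ T, Real.log p ≤ ∑ p ∈ P, Real.log p :=
    sum_le_sum_of_subset_of_nonneg (filter_subset _ _) fun p hp _ => hlog p hp
  set Θ := ∑ p ∈ T, Real.log (p : ℝ) with hΘ
  rw [abs_le] at A1 A2 A3
  obtain ⟨A1a, A1b⟩ := A1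
  obtain ⟨A2a, A2b⟩ := A2
  obtain ⟨A3a, A3b⟩ := A3
  have C1 : ∑ p ∈ P, Real.log (p : ℝ) ≤ 13 * L := by linarith
  have C0 : (12 - 14 / 100000) * (L : ℝ) ≤ ∑ p ∈ P, Real.log (p : ℝ) := by linarith
  have C4 : (2 / 3 * (L : ℝ) - 1) * ((12 - 14 / 100000) * (L : ℝ)) ≤
      (2 / 3 * (L : ℝ) - 1) * ∑ p ∈ P, Real.log (p : ℝ) :=
    mul_le_mul_of_nonneg_left C0 (by linarith)
  have C2 : 20 * (L : ℝ) ^ 2 - 1 / 1000 * (L : ℝ) ^ 2 - 12 * L ≤
      10 * (L : ℝ) ^ 2 + ((2 * (L : ℝ) + 1) * Θ + (4 / 3 + 1 / 1000) * (L : ℝ) ^ 2) := by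
    nlinarith
  have C3 : Θ ≤ 13 * L := B6.trans C1
  by_contra hcon
  push Not at hcon
  nlinarith

open Classical in
theorem thN_split (L x : ℕ) (hL : 2 ≤ L) (hx : 14 * L ≤ x) :
    thN (2 * L) + ∑ p ∈ (Ioc (2 * L) (14 * L)).filter (fun p => p.Prime ∧ ¬ Wie p), Real.log p ≤ thN x := by
  unfold thN
  rw [← sum_union]
  · refine sum_le_sum_of_subset_of_nonneg ?_ fun p _ _ => Real.log_natCast_nonneg p
    intro p hp
    rw [mem_union, mem_filter, mem_filter, mem_Ioc, mem_Ioc] at hp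
    rw [mem_filter, mem_Ioc]
    rcases hp with h | h
    · exact ⟨⟨h.1.1, by omega⟩, h.2⟩
    · exact ⟨⟨by omega, by omega⟩, h.2⟩
  · rw [disjoint_left]
    intro p hp hq
    rw [mem_filter, mem_Ioc] at hp hq
    omega

theorem thN_low (hmain : MainIneq) : ∃ C : ℝ, ∀ x : ℕ, 3605 / 10000 * (x : ℝ) - C ≤ thN x := by
  obtain ⟨L0, hL0⟩ := eventually_atTop.1 (theta_step hmain)
  set N := max L0 10000 with hN
  have hN1 : L0 ≤ N := le_max_left _ _
  have hN2 : 10000 ≤ N := le_max_right _ _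
  refine ⟨3605 / 10000 * (14 * N + 14 : ℝ), fun x => ?_⟩
  induction x using Nat.strong_induction_on with
  | _ x ih =>
    rcases Nat.lt_or_ge x (14 * N) with hx | hx
    · have h1 : (x : ℝ) ≤ 14 * N + 14 := by
        have : x ≤ 14 * N + 14 := by omega
        exact_mod_cast this
      have h2 := thN_nonneg x
      nlinarith
    · set L := x / 14 with hL
      have h1 : N ≤ L := by omega
      have h2 : 14 * L ≤ x := by omega
      have h3 : x ≤ 14 * L + 13 := by omega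
      have h4 := ih (2 * L) (by omega)
      have h5 := hL0 L (by omega)
      have h6 := thN_split L x (by omega) h2
      have h7 : (x : ℝ) ≤ 14 * L + 13 := by exact_mod_cast h3
      have h8 : (10000 : ℝ) ≤ L := by exact_mod_cast (hN2.trans h1)
      push_cast at h4
      nlinarith

/-- At least `(9/25) x / log x` non-Wieferich primes `p ≤ x`. -/
theorem low_NW (hmain : MainIneq) : ∃ x₀ : ℕ, ∀ x : ℕ, x₀ ≤ x →
    9 / 25 * (x : ℝ) / Real.log x ≤ ({p ∈ NonW | p ≤ x}.ncard : ℝ) := by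
  obtain ⟨C, hC⟩ := thN_low hmain
  refine ⟨⌈2000 * C⌉₊ + 3, fun x hx => ?_⟩
  have h1 : 2000 * C ≤ x := by
    have h2 := Nat.le_ceil (2000 * C)
    have h3 : ((⌈2000 * C⌉₊ + 3 : ℕ) : ℝ) ≤ x := by exact_mod_cast hx
    push_cast at h3
    linarith
  have h3 : (1 : ℝ) < x := by exact_mod_cast (show 1 < x by omega)
  rw [div_le_iff₀ (Real.log_pos h3)]
  have h4 := hC x
  have h5 := count_ge x (by omega)
  linarith

/-- At least `(9/25) x / log x` of the primes `p ≤ x` are not Wieferich primes. -/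
theorem low_cn (hmain : MainIneq) : ∀ᶠ x : ℕ in atTop, 9 / 25 * ((x : ℝ) / Real.log x) ≤
    Pool.Agent.H71.FD.cn (fun p => 5 ≤ p ∧ ¬ Pool.Agent.H11.NW.Wf p) x := by
  obtain ⟨x₀, h⟩ := low_NW hmain
  filter_upwards [eventually_ge_atTop x₀] with x hx
  have h1 := h x hx
  rw [ncard_eq] at h1
  rw [← mul_div_assoc]
  exact h1

end Pool.Agent.H88.HF

end
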